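import Mathlib

/-! Parts: SH.DefsTE, SH.StmtsTE, SH.Te23, SH.TeF2, SH.TeGlue, SH.TeHty, SH.TeLpr, SH.TeSeq, SH.TeTriv, SH.WcCell, SH.WcFib, SH.WcHorn, SH.WcUseq, SH.SkInd, SH.StmtsSV, SH.SvCh, SH.SvExt, SH.F2Copr, SH.F2Glue, SH.F2WC, SH.DefsV, SH.Q.Defs, SH.Q.Stmts, SH.Q.SHE, SH.Q.DKP, SH.Q.DEC, SH.Q.EPI, SH.Q.KER, SH.Q.CTR, SH.Q.DPI, SH.Q.PSB, SH.Q.TOT, SH.Q.GEN, SH.Q.CmpDefs, SH.Q.CMG, SH.Q.CMI, SH.Q.CMU -/

section

/-!
# MP_2d0b73_an, block TE: T-equivalences for a Kan complex T (definitions)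

`Hty f g`: one-step homotopy. `W T f`: `f : X ⟶ Y` induces bijections of homotopy classes
`[Y ⊗ K, T] → [X ⊗ K, T]` for all simplicial sets `K`. `REXT T i`: relative extension property.
`F2Iso f`: isomorphism on homology with coefficients in `ZMod 2`. `diagF`: diagonal of a
bisimplicial set. `WClass P`: the list of closure properties shared by `W T` and `F2Iso`.
-/

open CategoryTheory MonoidalCategory Simplicial SSet HomotopicalAlgebra Opposite Limits
open SSet.modelCategoryQuillen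

namespace Pool.Agent.SH

/-- One-step homotopy of maps of simplicial sets (Mathlib's `SSet.Homotopy`, a map
`A ⊗ Δ[1] ⟶ T`). -/
def Hty {A T : SSet.{0}} (f g : A ⟶ T) : Prop := Nonempty (SSet.Homotopy f g)

theorem Hty_iff {A T : SSet.{0}} (f g : A ⟶ T) :
    Hty f g ↔ ∃ h : A ⊗ Δ[1] ⟶ T, ι₀ ≫ h = f ∧ ι₁ ≫ h = g := by
  constructor
  · rintro ⟨H⟩
    exact ⟨H.h, H.h₀, H.h₁⟩
  · rintro ⟨h, h0, h1⟩
    refine ⟨{ h := h, h₀ := h0, h₁ := h1, rel := ?_ }⟩
    ext n x
    exact x.1.2.elim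

theorem Hty.refl {A T : SSet.{0}} (f : A ⟶ T) : Hty f f :=
  (Hty_iff f f).2 ⟨CartesianMonoidalCategory.fst A Δ[1] ≫ f, by
    rw [← Category.assoc, ι₀_fst, Category.id_comp], by
    rw [← Category.assoc, ι₁_fst, Category.id_comp]⟩

theorem Hty.pre {A B T : SSet.{0}} {f g : B ⟶ T} (h : Hty f g) (u : A ⟶ B) :
    Hty (u ≫ f) (u ≫ g) := by
  obtain ⟨H, h0, h1⟩ := (Hty_iff f g).1 h
  refine (Hty_iff _ _).2 ⟨u ▷ Δ[1] ≫ H, ?_, ?_⟩
  · rw [← Category.assoc, ι₀_comp, Category.assoc, h0]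
  · rw [← Category.assoc, ι₁_comp, Category.assoc, h1]

theorem Hty.post {A T U : SSet.{0}} {f g : A ⟶ T} (h : Hty f g) (v : T ⟶ U) :
    Hty (f ≫ v) (g ≫ v) := by
  obtain ⟨H, h0, h1⟩ := (Hty_iff f g).1 h
  refine (Hty_iff _ _).2 ⟨H ≫ v, ?_, ?_⟩
  · rw [← Category.assoc, h0]
  · rw [← Category.assoc, h1]

/-- `T`-equivalences: maps `f : X ⟶ Y` inducing bijections of homotopy classes
`[Y ⊗ K, T] → [X ⊗ K, T]` for all `K`. -/
def W (T : SSet.{0}) : MorphismProperty SSet.{0} := fun X Y f =>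
  (∀ (K : SSet.{0}) (a : X ⊗ K ⟶ T), ∃ b : Y ⊗ K ⟶ T, Hty (f ▷ K ≫ b) a) ∧
  (∀ (K : SSet.{0}) (b b' : Y ⊗ K ⟶ T), Hty (f ▷ K ≫ b) (f ▷ K ≫ b') → Hty b b')

/-- Relative extension property of `T` for the pushout products of `i` with all
monomorphisms. -/
def REXT (T : SSet.{0}) {X Y : SSet.{0}} (i : X ⟶ Y) : Prop :=
  ∀ (K L : SSet.{0}) (j : K ⟶ L) [Mono j] (u : Y ⊗ K ⟶ T) (v : X ⊗ L ⟶ T),
    i ▷ K ≫ u = X ◁ j ≫ v → ∃ w : Y ⊗ L ⟶ T, Y ◁ j ≫ w = u ∧ i ▷ L ≫ w = v

/-- The same with boundary inclusions only. -/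
def REXTB (T : SSet.{0}) {X Y : SSet.{0}} (i : X ⟶ Y) : Prop :=
  ∀ (n : ℕ) (u : Y ⊗ (∂Δ[n] : SSet.{0}) ⟶ T) (v : X ⊗ Δ[n] ⟶ T),
    i ▷ (∂Δ[n] : SSet.{0}) ≫ u = X ◁ (∂Δ[n] : (Δ[n] : SSet.{0}).Subcomplex).ι ≫ v →
      ∃ w : Y ⊗ Δ[n] ⟶ T,
        Y ◁ (∂Δ[n] : (Δ[n] : SSet.{0}).Subcomplex).ι ≫ w = u ∧ i ▷ Δ[n] ≫ w = v

/-- Coefficients. -/
noncomputable abbrev F2 : ModuleCat.{0} (ZMod 2) := ModuleCat.of (ZMod 2) (ZMod 2)

/-- Isomorphisms on homology with coefficients in `F_2`. -/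
def F2Iso : MorphismProperty SSet.{0} := fun _ _ f => ∀ n : ℕ, IsIso (SSet.homologyMap f F2 n)

/-- Diagonal of a bisimplicial set (a simplicial object in `SSet`). -/
def diagF : SimplicialObject SSet.{0} ⥤ SSet.{0} where
  obj X :=
    { obj := fun n => (X.obj n).obj n
      map := fun f => (X.map f).app _ ≫ (X.obj _).map f
      map_id := by intro n; simp
      map_comp := by
        intro a b c f g
        simp only [Functor.map_comp, Category.assoc, NatTrans.comp_app]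
        simp [NatTrans.naturality_assoc] }
  map f :=
    { app := fun n => (f.app n).app n
      naturality := by
        intro a b g
        rw [Category.assoc, (f.app b).naturality, ← Category.assoc, ← Category.assoc,
          ← NatTrans.comp_app, ← NatTrans.comp_app, f.naturality] }
  map_id := by intro X; rfl
  map_comp := by intro X Y Z f g; rfl

/-- Closure properties shared by the `T`-equivalences of a Kan complex `T` and by the
`F_2`-homology isomorphisms. -/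
structure WClass (P : MorphismProperty SSet.{0}) : Prop where
  iso : ∀ {X Y : SSet.{0}} (f : X ⟶ Y), IsIso f → P f
  comp : ∀ {X Y Z : SSet.{0}} (f : X ⟶ Y) (g : Y ⟶ Z), P f → P g → P (f ≫ g)
  cancelL : ∀ {X Y Z : SSet.{0}} (f : X ⟶ Y) (g : Y ⟶ Z), P f → P (f ≫ g) → P g
  cancelR : ∀ {X Y Z : SSet.{0}} (f : X ⟶ Y) (g : Y ⟶ Z), P g → P (f ≫ g) → P f
  six : ∀ {X Y Z U : SSet.{0}} (f : X ⟶ Y) (g : Y ⟶ Z) (h : Z ⟶ U),
    P (f ≫ g) → P (g ≫ h) → P g
  proj : ∀ (X : SSet.{0}) (n : ℕ), P (CartesianMonoidalCategory.fst X (Δ[n] : SSet.{0}))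
  glue : ∀ {A B C D A' B' C' D' : SSet.{0}}
      (i : A ⟶ B) (f : A ⟶ C) (g : B ⟶ D) (j : C ⟶ D)
      (i' : A' ⟶ B') (f' : A' ⟶ C') (g' : B' ⟶ D') (j' : C' ⟶ D')
      (a : A ⟶ A') (b : B ⟶ B') (c : C ⟶ C') (d : D ⟶ D'),
      IsPushout i f g j → IsPushout i' f' g' j' → Mono i → Mono i' →
      i ≫ b = a ≫ i' → f ≫ c = a ≫ f' → g ≫ d = b ≫ g' → j ≫ d = c ≫ j' →
      P a → P b → P c → P d
  copr : ∀ (J : Type) (X Y : J → SSet.{0}) (f : ∀ j, X j ⟶ Y j), (∀ j, P (f j)) →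
    P (Limits.Sigma.map f)
  seq : ∀ (F G : ℕ ⥤ SSet.{0}) (α : F ⟶ G)
    (cF : Cocone F) (cG : Cocone G), IsColimit cF → IsColimit cG →
    (∀ n : ℕ, Mono (F.map (homOfLE (Nat.le_succ n)))) →
    (∀ n : ℕ, Mono (G.map (homOfLE (Nat.le_succ n)))) →
    (∀ n : ℕ, P (α.app n)) →
    ∀ f : cF.pt ⟶ cG.pt, (∀ n : ℕ, cF.ι.app n ≫ f = α.app n ≫ cG.ι.app n) → P f

/-- Kan complexes have the extension property for anodyne maps. -/
theorem Kan.ext {A B T : SSet.{0}} (hT : SSet.KanComplex T) (i : A ⟶ B)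
    (hi : anodyneExtensions i) (u : A ⟶ T) : ∃ v : B ⟶ T, i ≫ v = u := by
  have h1 : HasLiftingProperty i (terminal.from T) := by
    apply hi
    rw [← HomotopicalAlgebra.fibration_iff]
    infer_instance
  have sq : CommSq u i (terminal.from T) (terminal.from B) := ⟨by simp⟩
  exact ⟨sq.lift, sq.fac_left⟩

end Pool.Agent.SH


end

section

/-!
# MP_2d0b73_an, block TE: statements
-/

open CategoryTheory MonoidalCategory Simplicial SSet HomotopicalAlgebra Opposite Limits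
open SSet.modelCategoryQuillen

namespace Pool.Agent.SH

/-! ## Kan complexes -/

/-- (K1) homotopy is an equivalence relation on maps to a Kan complex. -/
def TE_HTY_Stmt : Prop :=
  ∀ (A T : SSet.{0}), SSet.KanComplex T → Equivalence (Hty (A := A) (T := T))

/-- (K2) homotopy extension property, both ends. -/
def TE_HEP_Stmt : Prop :=
  ∀ (T : SSet.{0}), SSet.KanComplex T → ∀ (A B : SSet.{0}) (i : A ⟶ B), Mono i →
    (∀ (f : B ⟶ T) (h : A ⊗ Δ[1] ⟶ T), ι₀ ≫ h = i ≫ f →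
      ∃ H : B ⊗ Δ[1] ⟶ T, ι₀ ≫ H = f ∧ i ▷ Δ[1] ≫ H = h) ∧
    (∀ (f : B ⟶ T) (h : A ⊗ Δ[1] ⟶ T), ι₁ ≫ h = i ≫ f →
      ∃ H : B ⊗ Δ[1] ⟶ T, ι₁ ≫ H = f ∧ i ▷ Δ[1] ≫ H = h)

/-- (K3) boundary inclusions suffice. -/
def TE_BDRY_Stmt : Prop :=
  ∀ (T X Y : SSet.{0}) (i : X ⟶ Y), REXTB T i → REXT T i

/-- (K4) a Kan fibration `p` onto a Kan complex which is bijective on homotopy classes
`[K, E] → [K, B]` for all `K` is a trivial fibration. -/
def TE_TRIV_Stmt : Prop :=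
  ∀ (E B : SSet.{0}) (p : E ⟶ B), SSet.KanComplex B →
    HomotopicalAlgebra.Fibration p →
    (∀ (K : SSet.{0}) (a : K ⟶ B), ∃ b : K ⟶ E, Hty (b ≫ p) a) →
    (∀ (K : SSet.{0}) (b b' : K ⟶ E), Hty (b ≫ p) (b' ≫ p) → Hty b b') →
    ∀ (K L : SSet.{0}) (j : K ⟶ L), Mono j → HasLiftingProperty j p

/-- (K5) key lemma, easy direction (`i` arbitrary). -/
def TE_KEYE_Stmt : Prop :=
  ∀ (T : SSet.{0}), SSet.KanComplex T → ∀ (X Y : SSet.{0}) (i : X ⟶ Y), REXT T i → W T i

/-- (K6) key lemma: for monomorphisms, `W T` implies the relative extension property. -/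
def TE_KEY_Stmt : Prop :=
  ∀ (T : SSet.{0}), SSet.KanComplex T → ∀ (X Y : SSet.{0}) (i : X ⟶ Y), Mono i →
    W T i → REXT T i

/-- (K7) relative extension: closure under pushouts (no `Mono` needed). -/
def TE_RPUSH_Stmt : Prop :=
  ∀ (T A B C D : SSet.{0}) (i : A ⟶ B) (f : A ⟶ C) (g : B ⟶ D) (j : C ⟶ D),
    IsPushout i f g j → REXT T i → REXT T j

/-- (K8) relative extension: closure under sequential composition. -/
def TE_RSEQ_Stmt : Prop :=
  ∀ (T : SSet.{0}) (F : ℕ ⥤ SSet.{0}) (c : Cocone F), IsColimit c →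
    (∀ n : ℕ, REXT T (F.map (homOfLE (Nat.le_succ n)))) → REXT T (c.ι.app 0)

/-- (K9) formal properties of `W T`. -/
def TE_23_Stmt : Prop :=
  ∀ (T : SSet.{0}), SSet.KanComplex T →
    (∀ (X Y : SSet.{0}) (f : X ⟶ Y), IsIso f → W T f) ∧
    (∀ (X Y Z : SSet.{0}) (f : X ⟶ Y) (g : Y ⟶ Z), W T f → W T g → W T (f ≫ g)) ∧
    (∀ (X Y Z : SSet.{0}) (f : X ⟶ Y) (g : Y ⟶ Z), W T f → W T (f ≫ g) → W T g) ∧
    (∀ (X Y Z : SSet.{0}) (f : X ⟶ Y) (g : Y ⟶ Z), W T g → W T (f ≫ g) → W T f) ∧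
    (∀ (X Y Z U : SSet.{0}) (f : X ⟶ Y) (g : Y ⟶ Z) (h : Z ⟶ U),
      W T (f ≫ g) → W T (g ≫ h) → W T g) ∧
    (∀ (X : SSet.{0}) (n : ℕ), W T (CartesianMonoidalCategory.fst X (Δ[n] : SSet.{0}))) ∧
    (∀ (J : Type) (X Y : J → SSet.{0}) (f : ∀ j, X j ⟶ Y j), (∀ j, W T (f j)) →
      W T (Limits.Sigma.map f))

/-- (K10) left properness: pushout of a map in `W T` along a monomorphism. -/
def TE_LPR_Stmt : Prop :=
  ∀ (T : SSet.{0}), SSet.KanComplex T → ∀ (A B C D : SSet.{0}) (i : A ⟶ B) (f : A ⟶ C)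
    (g : B ⟶ D) (j : C ⟶ D), IsPushout i f g j → Mono i → W T f → W T g

/-- (K11) the gluing lemma. -/
def TE_GLUE_Stmt : Prop :=
  ∀ (T : SSet.{0}), SSet.KanComplex T →
    ∀ (A B C D A' B' C' D' : SSet.{0})
      (i : A ⟶ B) (f : A ⟶ C) (g : B ⟶ D) (j : C ⟶ D)
      (i' : A' ⟶ B') (f' : A' ⟶ C') (g' : B' ⟶ D') (j' : C' ⟶ D')
      (a : A ⟶ A') (b : B ⟶ B') (c : C ⟶ C') (d : D ⟶ D'),
      IsPushout i f g j → IsPushout i' f' g' j' → Mono i → Mono i' →
      i ≫ b = a ≫ i' → f ≫ c = a ≫ f' → g ≫ d = b ≫ g' → j ≫ d = c ≫ j' →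
      W T a → W T b → W T c → W T d

/-- (K12) sequential colimits along monomorphisms. -/
def TE_SEQ_Stmt : Prop :=
  ∀ (T : SSet.{0}), SSet.KanComplex T → ∀ (F G : ℕ ⥤ SSet.{0}) (α : F ⟶ G)
    (cF : Cocone F) (cG : Cocone G), IsColimit cF → IsColimit cG →
    (∀ n : ℕ, Mono (F.map (homOfLE (Nat.le_succ n)))) →
    (∀ n : ℕ, Mono (G.map (homOfLE (Nat.le_succ n)))) →
    (∀ n : ℕ, W T (α.app n)) →
    ∀ f : cF.pt ⟶ cG.pt, (∀ n : ℕ, cF.ι.app n ≫ f = α.app n ≫ cG.ι.app n) → W T f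

/-- (K13) `W T` is a `WClass`. -/
def TE_WT_Stmt : Prop := ∀ (T : SSet.{0}), SSet.KanComplex T → WClass (W T)

/-! ## Consequences valid for every `WClass` -/

/-- (C1) pushouts of monomorphisms in `P`, left properness, homotopic maps. -/
def WC_PUSH_Stmt : Prop :=
  ∀ P : MorphismProperty SSet.{0}, WClass P →
    (∀ (A B C D : SSet.{0}) (i : A ⟶ B) (f : A ⟶ C) (g : B ⟶ D) (j : C ⟶ D),
      IsPushout i f g j → Mono i → P i → P j) ∧
    (∀ (A B C D : SSet.{0}) (i : A ⟶ B) (f : A ⟶ C) (g : B ⟶ D) (j : C ⟶ D),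
      IsPushout i f g j → Mono i → P f → P g) ∧
    (∀ (X Y : SSet.{0}) (f g : X ⟶ Y), Relation.EqvGen (Hty (A := X) (T := Y)) f g →
      (P f ↔ P g))

/-- (C2) maps invertible up to chains of homotopies. -/
def WC_HEQ_Stmt : Prop :=
  ∀ P : MorphismProperty SSet.{0}, WClass P →
    ∀ (X Y : SSet.{0}) (f : X ⟶ Y) (g : Y ⟶ X),
    Relation.EqvGen (Hty (A := X) (T := X)) (f ≫ g) (𝟙 X) →
    Relation.EqvGen (Hty (A := Y) (T := Y)) (g ≫ f) (𝟙 Y) → P f ∧ P g

/-- (C3) unions of two subcomplexes. -/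
def WC_UNION_Stmt : Prop :=
  ∀ P : MorphismProperty SSet.{0}, WClass P → ∀ (X Y : SSet.{0}) (f : X ⟶ Y)
    (A B : X.Subcomplex) (A' B' : Y.Subcomplex),
    A ≤ A'.preimage f → B ≤ B'.preimage f → A ⊔ B = ⊤ → A' ⊔ B' = ⊤ →
    (∀ g : (A : SSet.{0}) ⟶ A', g ≫ A'.ι = A.ι ≫ f → P g) →
    (∀ g : (B : SSet.{0}) ⟶ B', g ≫ B'.ι = B.ι ≫ f → P g) →
    (∀ g : ((A ⊓ B : X.Subcomplex) : SSet.{0}) ⟶ ((A' ⊓ B' : Y.Subcomplex) : SSet.{0}),
      g ≫ (A' ⊓ B').ι = (A ⊓ B).ι ≫ f → P g) → P f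

/-- (C4) increasing unions of subcomplexes indexed by `ℕ`. -/
def WC_USEQ_Stmt : Prop :=
  ∀ P : MorphismProperty SSet.{0}, WClass P → ∀ (X Y : SSet.{0}) (f : X ⟶ Y)
    (A : ℕ →o X.Subcomplex) (A' : ℕ →o Y.Subcomplex),
    (∀ n, A n ≤ (A' n).preimage f) → (⨆ n, A n = ⊤) → (⨆ n, A' n = ⊤) →
    (∀ (n : ℕ) (g : (A n : SSet.{0}) ⟶ A' n), g ≫ (A' n).ι = (A n).ι ≫ f → P g) → P f

/-- (C5) skeletal induction: a class of simplicial sets over `B` containing all simplices and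
closed under isomorphism, coproducts, pushouts along monomorphisms and sequential unions
contains everything. -/
def SK_IND_Stmt : Prop :=
  ∀ (B : SSet.{0}) (C : ∀ X : SSet.{0}, (X ⟶ B) → Prop),
    (∀ (X Y : SSet.{0}) (e : X ≅ Y) (f : Y ⟶ B), C X (e.hom ≫ f) → C Y f) →
    (∀ (n : ℕ) (b : Δ[n] ⟶ B), C Δ[n] b) →
    (∀ (J : Type) (X : J → SSet.{0}) (f : ∀ j, X j ⟶ B), (∀ j, C (X j) (f j)) →
      C (∐ X) (Limits.Sigma.desc f)) →
    (∀ (A X Y Z : SSet.{0}) (i : A ⟶ X) (g : A ⟶ Y) (i' : X ⟶ Z) (g' : Y ⟶ Z) (f : Z ⟶ B),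
      IsPushout i g i' g' → Mono i → C A (i ≫ i' ≫ f) → C X (i' ≫ f) → C Y (g' ≫ f) → C Z f) →
    (∀ (F : ℕ ⥤ SSet.{0}) (c : Cocone F) (f : c.pt ⟶ B), IsColimit c →
      (∀ n : ℕ, Mono (F.map (homOfLE (Nat.le_succ n)))) →
      (∀ n : ℕ, C (F.obj n) (c.ι.app n ≫ f)) → C c.pt f) →
    ∀ (X : SSet.{0}) (f : X ⟶ B), C X f

/-- (C6) products. -/
def WC_PROD_Stmt : Prop :=
  ∀ P : MorphismProperty SSet.{0}, WClass P → ∀ (X Y K : SSet.{0}) (f : X ⟶ Y), P f →
    P (f ▷ K) ∧ P (K ◁ f)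

/-- (C7) pushout products of subcomplexes. -/
def WC_PP_Stmt : Prop :=
  ∀ P : MorphismProperty SSet.{0}, WClass P →
    ∀ (X Y : SSet.{0}) (A : X.Subcomplex) (B : Y.Subcomplex),
      P A.ι → P (A.unionProd B).ι

/-- (C8) horn inclusions. -/
def WC_HORN_Stmt : Prop :=
  ∀ P : MorphismProperty SSet.{0}, WClass P → ∀ (n : ℕ) (i : Fin (n + 2)),
    P (Λ[n + 1, i] : (Δ[n + 1] : SSet.{0}).Subcomplex).ι

/-- (C9) the fibre lemma. -/
def WC_FIB_Stmt : Prop :=
  ∀ P : MorphismProperty SSet.{0}, WClass P → ∀ (E B : SSet.{0}) (p : E ⟶ B),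
    (∀ (n : ℕ) (b : Δ[n] ⟶ B), P (pullback.snd p b)) → P p

/-- (C10) the diagonal lemma. -/
def WC_DIAG_Stmt : Prop :=
  ∀ P : MorphismProperty SSet.{0}, WClass P → ∀ (X Y : SimplicialObject SSet.{0}) (f : X ⟶ Y),
    (∀ p : SimplexCategoryᵒᵖ, P (f.app p)) → P (diagF.map f)

/-- (C11) acyclic factors. -/
def WC_ACY_Stmt : Prop :=
  ∀ P : MorphismProperty SSet.{0}, WClass P → ∀ (F X : SSet.{0}),
    P (CartesianMonoidalCategory.toUnit F) →
      P (CartesianMonoidalCategory.snd F X) ∧ P (CartesianMonoidalCategory.fst X F)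

/-- (C12) cell form of the fibre lemma (helper44): over the interior of every nondegenerate
simplex `b` the map `p` is (bijectively) given by `q : E' ⟶ Δ[n]`. -/
def WC_CELL_Stmt : Prop :=
  ∀ P : MorphismProperty SSet.{0}, WClass P → ∀ (E B : SSet.{0}) (p : E ⟶ B),
    (∀ (n : ℕ) (b : B _⦋n⦌), b ∈ B.nonDegenerate n →
      ∃ (E' : SSet.{0}) (q : E' ⟶ Δ[n]) (φ : E' ⟶ E),
        P q ∧ P ((∂Δ[n] : (Δ[n] : SSet.{0}).Subcomplex).fromPreimage q) ∧
        φ ≫ p = q ≫ yonedaEquiv.symm b ∧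
        ∀ (m : ℕ) (a : ⦋m⦌ ⟶ ⦋n⦌), Epi a → ∀ e : E _⦋m⦌, p.app _ e = B.map a.op b →
          ∃! e' : E' _⦋m⦌, φ.app _ e' = e ∧ q.app _ e' = stdSimplex.objEquiv.symm a) →
    P p

/-- (C13) open fibres (helper44). -/
def WC_OPEN_Stmt : Prop :=
  ∀ P : MorphismProperty SSet.{0}, WClass P → ∀ (E B : SSet.{0}) (p : E ⟶ B),
    (∀ (n : ℕ) (b : B _⦋n⦌), b ∈ B.nonDegenerate n →
      ∃ (F : SSet.{0}) (φ : F ⊗ Δ[n] ⟶ E),
        P (CartesianMonoidalCategory.toUnit F) ∧
        φ ≫ p = CartesianMonoidalCategory.snd F Δ[n] ≫ yonedaEquiv.symm b ∧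
        ∀ (m : ℕ) (a : ⦋m⦌ ⟶ ⦋n⦌), Epi a → ∀ e : E _⦋m⦌, p.app _ e = B.map a.op b →
          ∃! f : F _⦋m⦌, φ.app (op ⦋m⦌) (f, stdSimplex.objEquiv.symm a) = e) →
    P p

/-- (C14) increasing unions of acyclic subcomplexes are acyclic. -/
def WC_UACY_Stmt : Prop :=
  ∀ P : MorphismProperty SSet.{0}, WClass P → ∀ (X : SSet.{0}) (A : ℕ →o X.Subcomplex),
    (⨆ n, A n = ⊤) → (∀ n : ℕ, P (CartesianMonoidalCategory.toUnit (A n : SSet.{0}))) →
    P (CartesianMonoidalCategory.toUnit X)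

/-- (C15) a map `p : E ⟶ B` onto a discrete simplicial set (all operators bijective) whose
fibres are acyclic (fibres in the form of isomorphic copies `F j`, one for each vertex). -/
def WC_DISC_Stmt : Prop :=
  ∀ P : MorphismProperty SSet.{0}, WClass P → ∀ (E B : SSet.{0}) (p : E ⟶ B),
    (∀ (m n : SimplexCategoryᵒᵖ) (a : m ⟶ n), Function.Bijective (B.map a)) →
    (∀ b : B _⦋0⦌, ∃ (F : SSet.{0}) (φ : F ⟶ E),
      P (CartesianMonoidalCategory.toUnit F) ∧
      (∀ m : ℕ, Function.Injective (φ.app (op ⦋m⦌))) ∧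
      (∀ (m : ℕ) (e : E _⦋m⦌), e ∈ Set.range (φ.app (op ⦋m⦌)) ↔
        ∀ v : ⦋0⦌ ⟶ ⦋m⦌, B.map v.op (p.app _ e) = b)) →
    P p

/-! ## Homology isomorphisms -/

/-- (F1) `F_2`-homology isomorphisms form a `WClass`. -/
def F2_WC_Stmt : Prop := WClass F2Iso

/-- (F2) `F_2`-homology isomorphisms are in `W T` if `T` has the extension property for
monomorphisms which are `F_2`-homology isomorphisms. -/
def TE_F2_Stmt : Prop :=
  ∀ (T : SSet.{0}),
    (∀ (A B : SSet.{0}) (i : A ⟶ B), Mono i → F2Iso i → ∀ u : A ⟶ T, ∃ v : B ⟶ T, i ≫ v = u) →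
    SSet.KanComplex T ∧ ∀ (X Y : SSet.{0}) (f : X ⟶ Y), F2Iso f → W T f

/-- (F3) `F_2`-acyclicity in Moore form (helper44): every Moore cycle is a Moore boundary. -/
def F2_MOORE_Stmt : Prop :=
  ∀ (X : SSet.{0}), Nonempty (X _⦋0⦌) →
    (∀ z : X _⦋0⦌ →₀ ZMod 2, z.sum (fun _ a => a) = 0 →
      ∃ w : X _⦋1⦌ →₀ ZMod 2, w.mapDomain (X.δ 0) = z ∧ w.mapDomain (X.δ 1) = 0) →
    (∀ (n : ℕ) (z : X _⦋n + 1⦌ →₀ ZMod 2), (∀ i : Fin (n + 2), z.mapDomain (X.δ i) = 0) →
      ∃ w : X _⦋n + 2⦌ →₀ ZMod 2, w.mapDomain (X.δ 0) = z ∧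
        ∀ i : Fin (n + 3), i ≠ 0 → w.mapDomain (X.δ i) = 0) →
    F2Iso (CartesianMonoidalCategory.toUnit X)

end Pool.Agent.SH


end

section

/-!
# MP_2d0b73_an, block TE: formal properties of `W T`
-/

open CategoryTheory MonoidalCategory Simplicial SSet HomotopicalAlgebra Opposite Limits
open SSet.modelCategoryQuillen

namespace Pool.Agent.SH

namespace Te23

/-! ## Formal part -/

theorem whisker_inv {X Y : SSet.{0}} (f : X ⟶ Y) [IsIso f] (K : SSet.{0}) :
    f ▷ K ≫ inv f ▷ K = 𝟙 _ := by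
  rw [← MonoidalCategory.comp_whiskerRight, IsIso.hom_inv_id, MonoidalCategory.id_whiskerRight]

theorem inv_whisker {X Y : SSet.{0}} (f : X ⟶ Y) [IsIso f] (K : SSet.{0}) :
    inv f ▷ K ≫ f ▷ K = 𝟙 _ := by
  rw [← MonoidalCategory.comp_whiskerRight, IsIso.inv_hom_id, MonoidalCategory.id_whiskerRight]

section Formal

variable {T : SSet.{0}}

theorem w_iso {X Y : SSet.{0}} (f : X ⟶ Y) (hf : IsIso f) : W T f := by
  constructor
  · intro K a
    refine ⟨inv f ▷ K ≫ a, ?_⟩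
    rw [← Category.assoc, whisker_inv, Category.id_comp]
    exact Hty.refl a
  · intro K b b' h
    have h2 := h.pre (inv f ▷ K)
    rwa [← Category.assoc, ← Category.assoc, inv_whisker, Category.id_comp,
      Category.id_comp] at h2

theorem w_cancelL {X Y Z : SSet.{0}} (f : X ⟶ Y) (g : Y ⟶ Z) (hf : W T f)
    (hfg : W T (f ≫ g)) : W T g := by
  constructor
  · intro K a
    obtain ⟨b, hb⟩ := hfg.1 K (f ▷ K ≫ a)
    refine ⟨b, hf.2 K _ _ ?_⟩
    rwa [MonoidalCategory.comp_whiskerRight, Category.assoc] at hb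
  · intro K b b' h
    apply hfg.2 K
    rw [MonoidalCategory.comp_whiskerRight, Category.assoc, Category.assoc]
    exact h.pre _

theorem w_six {X Y Z U : SSet.{0}} (f : X ⟶ Y) (g : Y ⟶ Z) (h : Z ⟶ U)
    (hfg : W T (f ≫ g)) (hgh : W T (g ≫ h)) : W T g := by
  constructor
  · intro K a
    obtain ⟨b, hb⟩ := hgh.1 K a
    refine ⟨h ▷ K ≫ b, ?_⟩
    rwa [MonoidalCategory.comp_whiskerRight, Category.assoc] at hb
  · intro K b b' hb
    apply hfg.2 K
    rw [MonoidalCategory.comp_whiskerRight, Category.assoc, Category.assoc]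
    exact hb.pre _

variable (hE : ∀ A : SSet.{0}, Equivalence (Hty (A := A) (T := T)))
include hE

theorem w_comp {X Y Z : SSet.{0}} (f : X ⟶ Y) (g : Y ⟶ Z) (hf : W T f) (hg : W T g) :
    W T (f ≫ g) := by
  constructor
  · intro K a
    obtain ⟨b, hb⟩ := hf.1 K a
    obtain ⟨c, hc⟩ := hg.1 K b
    refine ⟨c, ?_⟩
    rw [MonoidalCategory.comp_whiskerRight, Category.assoc]
    exact (hE _).trans (hc.pre (f ▷ K)) hb
  · intro K b b' h
    rw [MonoidalCategory.comp_whiskerRight, Category.assoc, Category.assoc] at h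
    exact hg.2 K _ _ (hf.2 K _ _ h)

theorem w_cancelR {X Y Z : SSet.{0}} (f : X ⟶ Y) (g : Y ⟶ Z) (hg : W T g)
    (hfg : W T (f ≫ g)) : W T f := by
  constructor
  · intro K a
    obtain ⟨b, hb⟩ := hfg.1 K a
    refine ⟨g ▷ K ≫ b, ?_⟩
    rwa [MonoidalCategory.comp_whiskerRight, Category.assoc] at hb
  · intro K b b' h
    obtain ⟨c, hc⟩ := hg.1 K b
    obtain ⟨c', hc'⟩ := hg.1 K b'
    have h1 : Hty ((f ≫ g) ▷ K ≫ c) ((f ≫ g) ▷ K ≫ c') := by
      rw [MonoidalCategory.comp_whiskerRight, Category.assoc, Category.assoc]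
      exact (hE _).trans (hc.pre _) ((hE _).trans h ((hE _).symm (hc'.pre _)))
    have h2 : Hty c c' := hfg.2 K _ _ h1
    exact (hE _).trans ((hE _).symm hc) ((hE _).trans (h2.pre (g ▷ K)) hc')

end Formal

/-! ## Products of homotopies -/

/-- Interchange of the last two factors. -/
noncomputable def swp (X K L : SSet.{0}) : (X ⊗ K) ⊗ L ⟶ (X ⊗ L) ⊗ K :=
  (α_ X K L).hom ≫ X ◁ (β_ K L).hom ≫ (α_ X L K).inv

theorem ι₀_swp (X K : SSet.{0}) : (ι₀ : X ⊗ K ⟶ (X ⊗ K) ⊗ Δ[1]) ≫ swp X K Δ[1] = ι₀ ▷ K := rfl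

theorem ι₁_swp (X K : SSet.{0}) : (ι₁ : X ⊗ K ⟶ (X ⊗ K) ⊗ Δ[1]) ≫ swp X K Δ[1] = ι₁ ▷ K := rfl

theorem hty_whisker {X Y : SSet.{0}} {f g : X ⟶ Y} (h : Hty f g) (K : SSet.{0}) :
    Hty (f ▷ K) (g ▷ K) := by
  obtain ⟨H, h0, h1⟩ := (Hty_iff f g).1 h
  refine (Hty_iff _ _).2 ⟨swp X K Δ[1] ≫ H ▷ K, ?_, ?_⟩
  · rw [← Category.assoc, ι₀_swp, ← MonoidalCategory.comp_whiskerRight, h0]
  · rw [← Category.assoc, ι₁_swp, ← MonoidalCategory.comp_whiskerRight, h1]

/-! ## The contraction of a simplex -/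

/-- The monotone map `0 ↦ 0`, `1 ↦ last`. -/
def cc (n : ℕ) : Fin 2 →o Fin (n + 1) where
  toFun := ![0, Fin.last n]
  monotone' := by
    intro a b hab
    fin_cases a <;> fin_cases b <;> simp_all

/-- The homotopy `Δ[n] ⊗ Δ[1] ⟶ Δ[n]` from the identity to the last vertex. -/
noncomputable def ctr (n : ℕ) : (Δ[n] : SSet.{0}) ⊗ Δ[1] ⟶ Δ[n] where
  app m := TypeCat.ofHom (fun x => stdSimplex.objMk (stdSimplex.asOrderHom x.1 ⊔
    (cc n).comp (stdSimplex.asOrderHom x.2)))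
  naturality := by
    intro a b f
    rfl

theorem ι₀_ctr (n : ℕ) : (ι₀ : (Δ[n] : SSet.{0}) ⟶ _) ≫ ctr n = 𝟙 _ := by
  ext m x
  induction m using Opposite.rec with
  | op m =>
  induction m using SimplexCategory.rec with
  | _ m =>
  apply SSet.stdSimplex.ext
  intro i
  change stdSimplex.asOrderHom x i ⊔ (0 : Fin (n + 1)) = stdSimplex.asOrderHom x i
  exact sup_eq_left.2 (Fin.zero_le _)

theorem ι₁_ctr (n : ℕ) : (ι₁ : (Δ[n] : SSet.{0}) ⟶ _) ≫ ctr n =
    SSet.const (stdSimplex.obj₀Equiv.{0}.symm (Fin.last n)) := by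
  ext m x
  induction m using Opposite.rec with
  | op m =>
  induction m using SimplexCategory.rec with
  | _ m =>
  apply SSet.stdSimplex.ext
  intro i
  change stdSimplex.asOrderHom x i ⊔ Fin.last n = Fin.last n
  exact sup_eq_right.2 (Fin.le_last _)

/-- The inclusion at the last vertex. -/
noncomputable def lst (X : SSet.{0}) (n : ℕ) : X ⟶ X ⊗ Δ[n] :=
  CartesianMonoidalCategory.lift (𝟙 X) (SSet.const (stdSimplex.obj₀Equiv.{0}.symm (Fin.last n)))

theorem lst_fst (X : SSet.{0}) (n : ℕ) :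
    lst X n ≫ CartesianMonoidalCategory.fst X (Δ[n] : SSet.{0}) = 𝟙 X := rfl

theorem hty_ctr (X : SSet.{0}) (n : ℕ) :
    Hty (𝟙 (X ⊗ (Δ[n] : SSet.{0}))) (CartesianMonoidalCategory.fst X (Δ[n] : SSet.{0}) ≫
      lst X n) := by
  refine (Hty_iff _ _).2 ⟨(α_ X Δ[n] Δ[1]).hom ≫ X ◁ ctr n, ?_, ?_⟩
  · have h1 : (ι₀ : X ⊗ (Δ[n] : SSet.{0}) ⟶ _) ≫ (α_ X Δ[n] Δ[1]).hom = X ◁ ι₀ := rfl
    rw [← Category.assoc, h1, ← MonoidalCategory.whiskerLeft_comp, ι₀_ctr,
      MonoidalCategory.whiskerLeft_id]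
  · have h1 : (ι₁ : X ⊗ (Δ[n] : SSet.{0}) ⟶ _) ≫ (α_ X Δ[n] Δ[1]).hom = X ◁ ι₁ := rfl
    rw [← Category.assoc, h1, ← MonoidalCategory.whiskerLeft_comp, ι₁_ctr]
    rfl

theorem w_proj {T : SSet.{0}} (hE : ∀ A : SSet.{0}, Equivalence (Hty (A := A) (T := T)))
    (X : SSet.{0}) (n : ℕ) : W T (CartesianMonoidalCategory.fst X (Δ[n] : SSet.{0})) := by
  constructor
  · intro K a
    refine ⟨lst X n ▷ K ≫ a, ?_⟩
    rw [← Category.assoc, ← MonoidalCategory.comp_whiskerRight]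
    have h1 := (hty_whisker (hty_ctr X n) K).post a
    rw [MonoidalCategory.id_whiskerRight, Category.id_comp] at h1
    exact (hE _).symm h1
  · intro K b b' h
    have h1 := h.pre (lst X n ▷ K)
    rwa [← Category.assoc, ← Category.assoc, ← MonoidalCategory.comp_whiskerRight, lst_fst,
      MonoidalCategory.id_whiskerRight, Category.id_comp, Category.id_comp] at h1

/-! ## Coproducts -/

section Sigma

variable {J : Type} (X : J → SSet.{0}) (K : SSet.{0})

/-- The tensor product preserves coproducts. -/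
noncomputable def isC : IsColimit ((tensorRight K).mapCocone
    (colimit.cocone (Discrete.functor X))) :=
  isColimitOfPreserves (tensorRight K) (colimit.isColimit (Discrete.functor X))

theorem sig_ext {Z : SSet.{0}} {u v : (∐ X) ⊗ K ⟶ Z}
    (h : ∀ j, Limits.Sigma.ι X j ▷ K ≫ u = Limits.Sigma.ι X j ▷ K ≫ v) : u = v :=
  (isC X K).hom_ext (fun j => h j.as)

theorem sig_desc {Z : SSet.{0}} (a : ∀ j, X j ⊗ K ⟶ Z) :
    ∃ u : (∐ X) ⊗ K ⟶ Z, ∀ j, Limits.Sigma.ι X j ▷ K ≫ u = a j := by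
  refine ⟨(isC X K).desc ⟨Z, { app := fun j => a j.as, naturality := ?_ }⟩, ?_⟩
  · rintro ⟨i⟩ ⟨j⟩ ⟨⟨h⟩⟩
    obtain rfl : i = j := h
    simp
  · intro j
    exact (isC X K).fac _ ⟨j⟩

end Sigma

theorem hty_sigma {J : Type} {X : J → SSet.{0}} {K T : SSet.{0}} {u v : (∐ X) ⊗ K ⟶ T}
    (h : ∀ j, Hty (Limits.Sigma.ι X j ▷ K ≫ u) (Limits.Sigma.ι X j ▷ K ≫ v)) : Hty u v := by
  choose H h0 h1 using fun j => (Hty_iff _ _).1 (h j)
  obtain ⟨G, hG⟩ := sig_desc X (K ⊗ Δ[1]) (fun j => (α_ (X j) K Δ[1]).inv ≫ H j)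
  have key : ∀ j, (Limits.Sigma.ι X j ▷ K) ▷ Δ[1] ≫ (α_ (∐ X) K Δ[1]).hom ≫ G = H j := by
    intro j
    rw [MonoidalCategory.associator_naturality_left_assoc, hG, Iso.hom_inv_id_assoc]
  refine (Hty_iff _ _).2 ⟨(α_ (∐ X) K Δ[1]).hom ≫ G, ?_, ?_⟩
  · apply sig_ext
    intro j
    rw [← h0 j, ← key j, ι₀_comp_assoc]
  · apply sig_ext
    intro j
    rw [← h1 j, ← key j, ι₁_comp_assoc]

theorem w_sigma {T : SSet.{0}} {J : Type} {X Y : J → SSet.{0}} (f : ∀ j, X j ⟶ Y j)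
    (hf : ∀ j, W T (f j)) : W T (Limits.Sigma.map f) := by
  have key : ∀ (j : J) (K : SSet.{0}), Limits.Sigma.ι X j ▷ K ≫ Limits.Sigma.map f ▷ K =
      f j ▷ K ≫ Limits.Sigma.ι Y j ▷ K := by
    intro j K
    rw [← MonoidalCategory.comp_whiskerRight, ← MonoidalCategory.comp_whiskerRight,
      Limits.Sigma.ι_map]
  constructor
  · intro K a
    choose b hb using fun j => (hf j).1 K (Limits.Sigma.ι X j ▷ K ≫ a)
    obtain ⟨c, hc⟩ := sig_desc Y K b
    refine ⟨c, hty_sigma fun j => ?_⟩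
    rw [← Category.assoc, key, Category.assoc, hc]
    exact hb j
  · intro K b b' h
    refine hty_sigma fun j => (hf j).2 K _ _ ?_
    have h1 := h.pre (Limits.Sigma.ι X j ▷ K)
    rwa [← Category.assoc, ← Category.assoc, key, Category.assoc, Category.assoc] at h1

end Te23

theorem te_23 (h1 : TE_HTY_Stmt) : TE_23_Stmt := by
  intro T hT
  have hE : ∀ A : SSet.{0}, Equivalence (Hty (A := A) (T := T)) := fun A => h1 A T hT
  exact ⟨fun X Y f hf => Te23.w_iso f hf,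
    fun X Y Z f g hf hg => Te23.w_comp hE f g hf hg,
    fun X Y Z f g hf hfg => Te23.w_cancelL f g hf hfg,
    fun X Y Z f g hg hfg => Te23.w_cancelR hE f g hg hfg,
    fun X Y Z U f g h hfg hgh => Te23.w_six f g h hfg hgh,
    fun X n => Te23.w_proj hE X n,
    fun J X Y f hf => Te23.w_sigma f hf⟩

end Pool.Agent.SH


end

section

/-!
# MP_2d0b73_an, block TE: `F_2`-homology isomorphisms are `T`-equivalences (F2)
-/

open CategoryTheory MonoidalCategory Simplicial SSet HomotopicalAlgebra Opposite Limits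
open SSet.modelCategoryQuillen

namespace Pool.Agent.SH

namespace TeF2

/-- The free end of the mapping cylinder is a monomorphism. -/
theorem mono_cyl {X Y M : SSet.{0}} {f : X ⟶ Y} {a : X ⊗ Δ[1] ⟶ M} {s : Y ⟶ M}
    (h : IsPushout (ι₁ : X ⟶ X ⊗ Δ[1]) f a s) : Mono (ι₀ ≫ a) := by
  classical
  rw [NatTrans.mono_iff_mono_app]
  intro n
  have hn := h.map ((evaluation _ _).obj n)
  let p : (X ⊗ Δ[1] : SSet.{0}).obj n ⟶ Option (X.obj n) :=
    ↾fun z => if z = (ι₁ : X ⟶ X ⊗ Δ[1]).app n z.1 then none else some z.1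
  let q : Y.obj n ⟶ Option (X.obj n) := ↾fun _ => none
  have hpq : (ι₁ : X ⟶ X ⊗ Δ[1]).app n ≫ p = f.app n ≫ q := by
    apply ConcreteCategory.hom_ext
    intro x
    change (if (ι₁ : X ⟶ X ⊗ Δ[1]).app n x = (ι₁ : X ⟶ X ⊗ Δ[1]).app n x then none
      else some _) = none
    simp
  have e1 : a.app n ≫ hn.desc p q hpq = p := hn.inl_desc _ _ _
  rw [mono_iff_injective]
  intro x y hxy
  have h1 : ∀ x : X.obj n, hn.desc p q hpq ((ι₀ ≫ a).app n x) = some x := by
    intro x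
    have h2 : hn.desc p q hpq ((ι₀ ≫ a).app n x) = p ((ι₀ : X ⟶ X ⊗ Δ[1]).app n x) :=
      ConcreteCategory.congr_hom e1 ((ι₀ : X ⟶ X ⊗ Δ[1]).app n x)
    rw [h2]
    change (if (ι₀ : X ⟶ X ⊗ Δ[1]).app n x = (ι₁ : X ⟶ X ⊗ Δ[1]).app n x then none
      else some x) = some x
    rw [if_neg]
    intro h3
    obtain ⟨m⟩ := n
    induction m using SimplexCategory.rec with | _ m
    have h3' := congrArg Prod.snd h3
    have h4 := congrArg (fun z : (Δ[1] : SSet.{0}) _⦋m⦌ => z 0) h3'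
    have h5 : (0 : Fin 2) = 1 :=
      (ι₀_app_snd_apply x 0).symm.trans (h4.trans (ι₁_app_snd_apply x 0))
    exact absurd h5 (by decide)
  have h5 := congrArg (hn.desc p q hpq) hxy
  rw [h1, h1] at h5
  exact Option.some.inj h5

/-- Factorisation through the mapping cylinder. -/
theorem factor {X Y : SSet.{0}} (f : X ⟶ Y) :
    ∃ (M : SSet.{0}) (u : X ⟶ M) (r : M ⟶ Y), Mono u ∧ u ≫ r = f ∧
      ∀ P : MorphismProperty SSet.{0}, WClass P → P r := by
  let M : SSet.{0} := pushout (ι₁ : X ⟶ X ⊗ Δ[1]) f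
  let a : X ⊗ Δ[1] ⟶ M := pushout.inl _ _
  let s : Y ⟶ M := pushout.inr _ _
  have h : IsPushout (ι₁ : X ⟶ X ⊗ Δ[1]) f a s := IsPushout.of_hasPushout _ _
  let r : M ⟶ Y := h.desc (CartesianMonoidalCategory.fst X Δ[1] ≫ f) (𝟙 Y) (by
    rw [← Category.assoc, ι₁_fst, Category.id_comp, Category.comp_id])
  have hs : s ≫ r = 𝟙 Y := h.inr_desc _ _ _
  have ha : a ≫ r = CartesianMonoidalCategory.fst X Δ[1] ≫ f := h.inl_desc _ _ _
  refine ⟨M, ι₀ ≫ a, r, mono_cyl h, ?_, ?_⟩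
  · rw [Category.assoc, ha, ← Category.assoc, ι₀_fst, Category.id_comp]
  · intro P hP
    have h1 : P (ι₁ : X ⟶ X ⊗ Δ[1]) := by
      refine hP.cancelR _ (CartesianMonoidalCategory.fst X Δ[1]) (hP.proj X 1) ?_
      rw [ι₁_fst]
      exact hP.iso _ inferInstance
    have h2 : P s := by
      refine hP.glue (𝟙 X) f f (𝟙 Y) (ι₁ : X ⟶ X ⊗ Δ[1]) f a s (𝟙 X) ι₁ (𝟙 Y) s
        (IsPushout.of_horiz_isIso ⟨by simp⟩) h inferInstance ?_ (by simp) (by simp) h.w.symm
        (by simp) (hP.iso _ inferInstance) h1 (hP.iso _ inferInstance)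
      exact mono_of_mono_fac (ι₁_fst X)
    refine hP.cancelL s r h2 ?_
    rw [hs]
    exact hP.iso _ inferInstance

section

variable {T : SSet.{0}} (h1 : F2_WC_Stmt)
  (hT : ∀ (A B : SSet.{0}) (i : A ⟶ B), Mono i → F2Iso i → ∀ u : A ⟶ T, ∃ v : B ⟶ T, i ≫ v = u)

include h1 hT

theorem kan (h3 : WC_HORN_Stmt) : SSet.KanComplex T := by
  refine (isFibrant_iff _).2 ?_
  rw [fibration_iff]
  intro A B i hi
  simp only [J, MorphismProperty.iSup_iff] at hi
  obtain ⟨n, ⟨i⟩⟩ := hi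
  refine ⟨fun {t _} _ ↦ ?_⟩
  obtain ⟨v, hv⟩ := hT _ _ Λ[n + 1, i].ι inferInstance (h3 F2Iso h1 n i) t
  exact ⟨⟨{
    l := v
    fac_left := hv
    fac_right := by subsingleton }⟩⟩

theorem rext (h2 : WC_PP_Stmt) {X Y : SSet.{0}} (i : X ⟶ Y) [Mono i] (hi : F2Iso i) :
    REXT T i := by
  intro K L j _ u v huv
  let A := Subcomplex.range i
  let B := Subcomplex.range j
  let a : X ⟶ A := Subcomplex.toRange i
  let b : K ⟶ B := Subcomplex.toRange j
  have hai : a ≫ A.ι = i := rfl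
  have hbj : b ≫ B.ι = j := rfl
  have ia : IsIso a := inferInstance
  have ib : IsIso b := inferInstance
  have hA : F2Iso A.ι := by
    refine h1.cancelL a A.ι (h1.iso _ ia) ?_
    exact hi
  have hc : A.ι ▷ (B : SSet.{0}) ≫ Y ◁ inv b ≫ u = (A : SSet.{0}) ◁ B.ι ≫ inv a ▷ L ≫ v := by
    rw [← cancel_epi (a ▷ (B : SSet.{0})), ← cancel_epi (X ◁ b)]
    have e1 : X ◁ b ≫ a ▷ (B : SSet.{0}) ≫ A.ι ▷ (B : SSet.{0}) ≫ Y ◁ inv b ≫ u =
        i ▷ K ≫ u := by
      rw [← MonoidalCategory.comp_whiskerRight_assoc, hai, ← whisker_exchange_assoc,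
        ← MonoidalCategory.whiskerLeft_comp_assoc, IsIso.hom_inv_id,
        MonoidalCategory.whiskerLeft_id, Category.id_comp]
    have e2 : X ◁ b ≫ a ▷ (B : SSet.{0}) ≫ (A : SSet.{0}) ◁ B.ι ≫ inv a ▷ L ≫ v =
        X ◁ j ≫ v := by
      rw [← whisker_exchange_assoc, ← MonoidalCategory.comp_whiskerRight_assoc,
        IsIso.hom_inv_id, MonoidalCategory.id_whiskerRight, Category.id_comp,
        ← MonoidalCategory.whiskerLeft_comp_assoc, hbj]
    rw [e1, e2, huv]
  let w0 := (Subcomplex.unionProd.isPushout A B).desc (Y ◁ inv b ≫ u) (inv a ▷ L ≫ v) hc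
  obtain ⟨w, hw⟩ := hT _ _ (A.unionProd B).ι inferInstance (h2 F2Iso h1 Y L A B hA) w0
  have hw1 : Y ◁ B.ι ≫ w = Y ◁ inv b ≫ u := by
    rw [← Subcomplex.unionProd.ι₁_ι A B, Category.assoc, hw]
    exact (Subcomplex.unionProd.isPushout A B).inl_desc _ _ _
  have hw2 : A.ι ▷ L ≫ w = inv a ▷ L ≫ v := by
    rw [← Subcomplex.unionProd.ι₂_ι A B, Category.assoc, hw]
    exact (Subcomplex.unionProd.isPushout A B).inr_desc _ _ _
  refine ⟨w, ?_, ?_⟩
  · rw [← hbj, MonoidalCategory.whiskerLeft_comp, Category.assoc, hw1,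
      ← MonoidalCategory.whiskerLeft_comp_assoc, IsIso.hom_inv_id,
      MonoidalCategory.whiskerLeft_id, Category.id_comp]
  · rw [← hai, MonoidalCategory.comp_whiskerRight, Category.assoc, hw2,
      ← MonoidalCategory.comp_whiskerRight_assoc, IsIso.hom_inv_id,
      MonoidalCategory.id_whiskerRight, Category.id_comp]

end

end TeF2

open TeF2 in
theorem te_f2 (h1 : F2_WC_Stmt) (h2 : WC_PP_Stmt) (h3 : WC_HORN_Stmt) (h4 : TE_KEYE_Stmt)
    (h5 : TE_WT_Stmt) : TE_F2_Stmt := by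
  intro T hT
  have hK : SSet.KanComplex T := kan h1 hT h3
  refine ⟨hK, ?_⟩
  intro X Y f hf
  obtain ⟨M, u, r, hu, hur, hr⟩ := factor f
  have h6 : F2Iso u := by
    refine h1.cancelR u r (hr F2Iso h1) ?_
    rw [hur]
    exact hf
  have h7 : W T u := h4 T hK X M u (rext h1 hT h2 u h6)
  rw [← hur]
  exact (h5 T hK).comp u r h7 (hr _ (h5 T hK))

end Pool.Agent.SH


end

section

/-!
# MP_2d0b73_an, block TE: the gluing lemma for `T`-equivalences
-/

open CategoryTheory MonoidalCategory Simplicial SSet HomotopicalAlgebra Opposite Limits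
open SSet.modelCategoryQuillen

namespace Pool.Agent.SH

namespace TeGlue

/-! ### Factorization as a monomorphism followed by a trivial fibration -/

attribute [local instance] Cardinal.fact_isRegular_aleph0
  Cardinal.orderBotAleph0OrdToType

theorem isSmall_I : MorphismProperty.IsSmall.{0} modelCategoryQuillen.I.{0} :=
  MorphismProperty.isSmall_ofHoms ..

attribute [local instance] isSmall_I

theorem isCard_I : MorphismProperty.IsCardinalForSmallObjectArgument
    modelCategoryQuillen.I.{0} Cardinal.aleph0.{0} where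
  preservesColimit {A B X Y} i hi f hf := by
    have : IsFinitelyPresentable.{0} A := by
      obtain ⟨n⟩ := hi
      infer_instance
    infer_instance

theorem smallObj_I : MorphismProperty.HasSmallObjectArgument.{0} modelCategoryQuillen.I.{0} :=
  ⟨.aleph0, inferInstance, inferInstance, isCard_I⟩

attribute [local instance] smallObj_I

theorem llp_mono :
    modelCategoryQuillen.I.{0}.rlp.llp ≤ MorphismProperty.monomorphisms SSet.{0} := by
  rw [MorphismProperty.llp_rlp_of_hasSmallObjectArgument, MorphismProperty.retracts_le_iff,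
    MorphismProperty.transfiniteCompositions_le_iff, MorphismProperty.pushouts_le_iff,
    MorphismProperty.coproducts_le_iff]
  exact I_le_monomorphisms

/-- Every map is a monomorphism followed by a trivial fibration. -/
theorem factor {U V : SSet.{0}} (u : U ⟶ V) : ∃ (M : SSet.{0}) (m : U ⟶ M) (q : M ⟶ V),
    Mono m ∧ (MorphismProperty.monomorphisms SSet.{0}).rlp q ∧ m ≫ q = u := by
  have F := MorphismProperty.factorizationData modelCategoryQuillen.I.{0}.rlp.llp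
    modelCategoryQuillen.I.{0}.rlp u
  refine ⟨F.Z, F.i, F.p, llp_mono _ F.hi, ?_, F.fac⟩
  rw [rlp_monomorphisms]
  exact F.hp

/-! ### Maps over a trivial fibration are homotopic -/

theorem const_of_boundary {n : SimplexCategoryᵒᵖ} (t : (Δ[1] : SSet.{0}).obj n)
    (ht : t ∈ (∂Δ[1] : (Δ[1] : SSet.{0}).Subcomplex).obj n) (i j : Fin (n.unop.len + 1)) :
    stdSimplex.asOrderHom t i = stdSimplex.asOrderHom t j := by
  by_contra h
  apply ht
  intro k
  have h1 : ∀ a b k : Fin 2, a ≠ b → a = k ∨ b = k := by decide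
  rcases h1 _ _ k h with h2 | h2
  · exact ⟨i, h2⟩
  · exact ⟨j, h2⟩

open Classical in
/-- The map on `M ⊗ ∂Δ[1]` given by two maps. -/
noncomputable def endMap {M Y : SSet.{0}} (f g : M ⟶ Y) : M ⊗ (∂Δ[1] : SSet.{0}) ⟶ Y where
  app n := ↾fun x => if stdSimplex.asOrderHom (x.2.1 : (Δ[1] : SSet.{0}).obj n) 0 = 0
    then f.app n x.1 else g.app n x.1
  naturality := by
    intro n m φ
    ext x
    have e : stdSimplex.asOrderHom
        (((∂Δ[1] : SSet.{0}).map φ x.2).1 : (Δ[1] : SSet.{0}).obj m) 0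
      = stdSimplex.asOrderHom (x.2.1 : (Δ[1] : SSet.{0}).obj n) 0 := by
      have : stdSimplex.asOrderHom
          (((∂Δ[1] : SSet.{0}).map φ x.2).1 : (Δ[1] : SSet.{0}).obj m) 0 =
         stdSimplex.asOrderHom (x.2.1 : (Δ[1] : SSet.{0}).obj n)
          (φ.unop.toOrderHom 0) := rfl
      rw [this]
      exact const_of_boundary _ x.2.2 _ _
    show (if stdSimplex.asOrderHom (((∂Δ[1] : SSet.{0}).map φ x.2).1 : (Δ[1] : SSet.{0}).obj m) 0
        = 0 then f.app m (M.map φ x.1) else g.app m (M.map φ x.1)) =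
      Y.map φ (if stdSimplex.asOrderHom (x.2.1 : (Δ[1] : SSet.{0}).obj n) 0 = 0
        then f.app n x.1 else g.app n x.1)
    rw [e]
    by_cases h : stdSimplex.asOrderHom (x.2.1 : (Δ[1] : SSet.{0}).obj n) 0 = 0
    · rw [if_pos h, if_pos h]
      exact NatTrans.naturality_apply f φ x.1
    · rw [if_neg h, if_neg h]
      exact NatTrans.naturality_apply g φ x.1

theorem zero_mem (n : SimplexCategoryᵒᵖ) {M : SSet.{0}} (x : M.obj n) :
    ((ι₀ : M ⟶ M ⊗ Δ[1]).app n x).2 ∈ (∂Δ[1] : (Δ[1] : SSet.{0}).Subcomplex).obj n := by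
  intro h
  obtain ⟨i, hi⟩ := h 1
  have : stdSimplex.asOrderHom ((ι₀ : M ⟶ M ⊗ Δ[1]).app n x).2 i = 0 := rfl
  rw [this] at hi
  exact absurd hi (by decide)

theorem one_mem (n : SimplexCategoryᵒᵖ) {M : SSet.{0}} (x : M.obj n) :
    ((ι₁ : M ⟶ M ⊗ Δ[1]).app n x).2 ∈ (∂Δ[1] : (Δ[1] : SSet.{0}).Subcomplex).obj n := by
  intro h
  obtain ⟨i, hi⟩ := h 0
  have : stdSimplex.asOrderHom ((ι₁ : M ⟶ M ⊗ Δ[1]).app n x).2 i = 1 := rfl
  rw [this] at hi
  exact absurd hi (by decide)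

theorem mono_whiskerLeft (M : SSet.{0}) {A B : SSet.{0}} (i : A ⟶ B) [Mono i] :
    Mono (M ◁ i) := by
  refine ⟨fun a b h => ?_⟩
  apply CartesianMonoidalCategory.hom_ext
  · have h1 := congrArg (fun k => k ≫ CartesianMonoidalCategory.fst M B) h
    simpa using h1
  · rw [← cancel_mono i]
    have h1 := congrArg (fun k => k ≫ CartesianMonoidalCategory.snd M B) h
    simpa using h1

/-- Two endomorphisms over the base of a trivial fibration are homotopic. -/
theorem exists_hty {M V : SSet.{0}} (q : M ⟶ V)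
    (hq : (MorphismProperty.monomorphisms SSet.{0}).rlp q) (f g : M ⟶ M)
    (hf : f ≫ q = q) (hg : g ≫ q = q) : ∃ h : M ⊗ Δ[1] ⟶ M, ι₀ ≫ h = f ∧ ι₁ ≫ h = g := by
  have hm : MorphismProperty.monomorphisms SSet.{0}
      (M ◁ (∂Δ[1] : (Δ[1] : SSet.{0}).Subcomplex).ι) := by
    exact mono_whiskerLeft M _
  have := hq _ hm
  have sq : CommSq (endMap f g) (M ◁ (∂Δ[1] : (Δ[1] : SSet.{0}).Subcomplex).ι) q
      (CartesianMonoidalCategory.fst M Δ[1] ≫ q) := by
    refine ⟨?_⟩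
    ext n x
    show q.app n (if stdSimplex.asOrderHom (x.2.1 : (Δ[1] : SSet.{0}).obj n) 0 = 0
        then f.app n x.1 else g.app n x.1) = q.app n x.1
    by_cases h : stdSimplex.asOrderHom (x.2.1 : (Δ[1] : SSet.{0}).obj n) 0 = 0
    · rw [if_pos h]
      exact congrArg (fun k : M ⟶ V => k.app n x.1) hf
    · rw [if_neg h]
      exact congrArg (fun k : M ⟶ V => k.app n x.1) hg
  refine ⟨sq.lift, ?_, ?_⟩
  · ext n x
    have h1 := congrArg (fun k : M ⊗ (∂Δ[1] : SSet.{0}) ⟶ M => k.app n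
      (x, ⟨((ι₀ : M ⟶ M ⊗ Δ[1]).app n x).2, zero_mem n x⟩)) sq.fac_left
    exact h1
  · ext n x
    have h1 := congrArg (fun k : M ⊗ (∂Δ[1] : SSet.{0}) ⟶ M => k.app n
      (x, ⟨((ι₁ : M ⟶ M ⊗ Δ[1]).app n x).2, one_mem n x⟩)) sq.fac_left
    exact h1

/-! ### The gluing lemma -/

/-- A trivial fibration with a section is a `T`-equivalence. -/
theorem triv_W (h3 : TE_23_Stmt) (T : SSet.{0}) (hT : SSet.KanComplex T) {M V : SSet.{0}}
    (q : M ⟶ V) (s : V ⟶ M) (hs : s ≫ q = 𝟙 V)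
    (hq : (MorphismProperty.monomorphisms SSet.{0}).rlp q) : W T q := by
  obtain ⟨iso, comp, cancelL, cancelR, six, proj, -⟩ := h3 T hT
  obtain ⟨h, h0, h1⟩ := exists_hty q hq (q ≫ s) (𝟙 M)
    (by rw [Category.assoc, hs, Category.comp_id]) (by rw [Category.id_comp])
  have p := proj M 1
  have w0 : W T (ι₀ : M ⟶ M ⊗ Δ[1]) := by
    refine cancelR _ _ _ _ _ p ?_
    rw [ι₀_fst]
    exact iso _ _ _ inferInstance
  have w1 : W T (ι₁ : M ⟶ M ⊗ Δ[1]) := by
    refine cancelR _ _ _ _ _ p ?_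
    rw [ι₁_fst]
    exact iso _ _ _ inferInstance
  have wh : W T h := by
    refine cancelL _ _ _ _ _ w1 ?_
    rw [h1]
    exact iso _ _ _ inferInstance
  have wqs : W T (q ≫ s) := by
    rw [← h0]
    exact comp _ _ _ _ _ w0 wh
  refine six _ _ _ _ s q s ?_ wqs
  rw [hs]
  exact iso _ _ _ inferInstance

/-- Pushouts of monomorphisms which are `T`-equivalences. -/
theorem push_W (h4 : TE_KEYE_Stmt) (h5 : TE_KEY_Stmt) (h6 : TE_RPUSH_Stmt) (T : SSet.{0})
    (hT : SSet.KanComplex T) {A B C D : SSet.{0}} (i : A ⟶ B) (f : A ⟶ C) (g : B ⟶ D)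
    (j : C ⟶ D) (h : IsPushout i f g j) (hi : Mono i) (w : W T i) : W T j :=
  h4 T hT _ _ j (h6 T _ _ _ _ i f g j h (h5 T hT _ _ i hi w))

/-- Change of one leg of a pushout by a `T`-equivalence under the corner. -/
theorem leg_W (h3 : TE_23_Stmt) (h4 : TE_KEYE_Stmt) (h5 : TE_KEY_Stmt) (h6 : TE_RPUSH_Stmt)
    (T : SSet.{0}) (hT : SSet.KanComplex T) {C U V E P₁ P₂ : SSet.{0}} (p : C ⟶ U)
    (p' : C ⟶ V) (u : U ⟶ V) (e : C ⟶ E) (a₁ : U ⟶ P₁) (b₁ : E ⟶ P₁) (a₂ : V ⟶ P₂)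
    (b₂ : E ⟶ P₂) (d : P₁ ⟶ P₂) (hP₁ : IsPushout p e a₁ b₁) (hP₂ : IsPushout p' e a₂ b₂)
    (hp' : Mono p') (hu : p ≫ u = p') (w : W T u) (hd₁ : a₁ ≫ d = u ≫ a₂)
    (hd₂ : b₁ ≫ d = b₂) : W T d := by
  obtain ⟨iso, comp, cancelL, cancelR, six, proj, -⟩ := h3 T hT
  obtain ⟨M, m, q, hm, hq, hmq⟩ := factor u
  have := hq _ (show MorphismProperty.monomorphisms SSet.{0} p' from hp')
  have sq : CommSq (p ≫ m) p' q (𝟙 V) := by
    refine ⟨?_⟩
    rw [Category.assoc, hmq, hu, Category.comp_id]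
  obtain ⟨s, hs₁, hs₂⟩ : ∃ s : V ⟶ M, p' ≫ s = p ≫ m ∧ s ≫ q = 𝟙 V :=
    ⟨sq.lift, sq.fac_left, sq.fac_right⟩
  have wq : W T q := triv_W h3 T hT q s hs₂ hq
  have wm : W T m := by
    refine cancelR _ _ _ _ _ wq ?_
    rw [hmq]
    exact w
  have ws : W T s := by
    refine cancelR _ _ _ _ _ wq ?_
    rw [hs₂]
    exact iso _ _ _ inferInstance
  have ms : Mono s := mono_of_mono_fac hs₂
  -- the third pushout
  obtain ⟨P₃, a₃, b₃, hP₃⟩ : ∃ (P₃ : SSet.{0}) (a₃ : M ⟶ P₃) (b₃ : E ⟶ P₃),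
      IsPushout (p ≫ m) e a₃ b₃ := ⟨_, _, _, IsPushout.of_hasPushout (p ≫ m) e⟩
  have c₁ : p ≫ (m ≫ a₃) = e ≫ b₃ := by rw [← Category.assoc, hP₃.w]
  obtain ⟨d₁, hd₁a, hd₁b⟩ : ∃ d₁ : P₁ ⟶ P₃, a₁ ≫ d₁ = m ≫ a₃ ∧ b₁ ≫ d₁ = b₃ :=
    ⟨hP₁.desc _ _ c₁, hP₁.inl_desc _ _ _, hP₁.inr_desc _ _ _⟩
  have c₂ : p' ≫ (s ≫ a₃) = e ≫ b₃ := by rw [← Category.assoc, hs₁, hP₃.w]
  obtain ⟨d₂, hd₂a, hd₂b⟩ : ∃ d₂ : P₂ ⟶ P₃, a₂ ≫ d₂ = s ≫ a₃ ∧ b₂ ≫ d₂ = b₃ :=
    ⟨hP₂.desc _ _ c₂, hP₂.inl_desc _ _ _, hP₂.inr_desc _ _ _⟩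
  have c₃ : (p ≫ m) ≫ (q ≫ a₂) = e ≫ b₂ := by
    rw [← hP₂.w, ← hu, ← hmq]
    simp only [Category.assoc]
  obtain ⟨d₃, hd₃a, hd₃b⟩ : ∃ d₃ : P₃ ⟶ P₂, a₃ ≫ d₃ = q ≫ a₂ ∧ b₃ ≫ d₃ = b₂ :=
    ⟨hP₃.desc _ _ c₃, hP₃.inl_desc _ _ _, hP₃.inr_desc _ _ _⟩
  have po₁ : IsPushout m a₁ a₃ d₁ := by
    refine IsPushout.of_left (h₁₁ := p) (h₂₁ := b₁) (v₁₁ := e) ?_ hd₁a.symm hP₁
    rw [hd₁b]
    exact hP₃
  have po₂ : IsPushout s a₂ a₃ d₂ := by
    refine IsPushout.of_left (h₁₁ := p') (h₂₁ := b₂) (v₁₁ := e) ?_ hd₂a.symm hP₂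
    rw [hd₂b, hs₁]
    exact hP₃
  have w₁ : W T d₁ := push_W h4 h5 h6 T hT _ _ _ _ po₁ hm wm
  have w₂ : W T d₂ := push_W h4 h5 h6 T hT _ _ _ _ po₂ ms ws
  have w₃ : W T d₃ := by
    refine cancelL _ _ _ _ _ w₂ ?_
    have : d₂ ≫ d₃ = 𝟙 P₂ := by
      apply hP₂.hom_ext
      · rw [← Category.assoc, hd₂a, Category.assoc, hd₃a, ← Category.assoc, hs₂,
          Category.id_comp, Category.comp_id]
      · rw [← Category.assoc, hd₂b, hd₃b, Category.comp_id]
    rw [this]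
    exact iso _ _ _ inferInstance
  have hd : d = d₁ ≫ d₃ := by
    apply hP₁.hom_ext
    · rw [hd₁, ← Category.assoc, hd₁a, Category.assoc, hd₃a, ← Category.assoc, hmq]
    · rw [hd₂, ← Category.assoc, hd₁b, hd₃b]
  rw [hd]
  exact comp _ _ _ _ _ w₁ w₃

theorem mono_pushout {A B C D : SSet.{0}} {i : A ⟶ B} {f : A ⟶ C} {g : B ⟶ D} {j : C ⟶ D}
    (h : IsPushout i f g j) (hi : Mono i) : Mono j :=
  MorphismProperty.of_isPushout (P := MorphismProperty.monomorphisms SSet.{0}) h.flip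
    (show MorphismProperty.monomorphisms SSet.{0} i from hi)

end TeGlue

open TeGlue in
theorem te_glue (h3 : TE_23_Stmt) (h4 : TE_KEYE_Stmt) (h5 : TE_KEY_Stmt) (h6 : TE_RPUSH_Stmt)
    (h7 : TE_LPR_Stmt) : TE_GLUE_Stmt := by
  intro T hT A B C D A' B' C' D' i f g j i' f' g' j' a b c d hP hP' hi hi' e₁ e₂ e₃ e₄ wa wb wc
  obtain ⟨iso, comp, cancelL, cancelR, six, proj, -⟩ := h3 T hT
  have mj : Mono j := mono_pushout hP hi
  -- first step: change of `C`
  obtain ⟨D₁, dD, cC, hD₁⟩ : ∃ (D₁ : SSet.{0}) (dD : D ⟶ D₁) (cC : C' ⟶ D₁),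
      IsPushout j c dD cC := ⟨_, _, _, IsPushout.of_hasPushout j c⟩
  have w₁ : W T dD := h7 T hT _ _ _ _ _ _ _ _ hD₁ mj wc
  have hbig : IsPushout i (f ≫ c) (g ≫ dD) cC := hP.paste_vert hD₁
  -- second step: change of `A`, `B`
  obtain ⟨U, bU, aU, hU⟩ : ∃ (U : SSet.{0}) (bU : B ⟶ U) (aU : A' ⟶ U),
      IsPushout i a bU aU := ⟨_, _, _, IsPushout.of_hasPushout i a⟩
  have wbU : W T bU := h7 T hT _ _ _ _ _ _ _ _ hU hi wa
  obtain ⟨u, hu₁, hu₂⟩ : ∃ u : U ⟶ B', bU ≫ u = b ∧ aU ≫ u = i' :=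
    ⟨hU.desc _ _ e₁, hU.inl_desc _ _ _, hU.inr_desc _ _ _⟩
  have wu : W T u := by
    refine cancelL _ _ _ _ _ wbU ?_
    rw [hu₁]
    exact wb
  have c₁ : i ≫ (g ≫ dD) = a ≫ (f' ≫ cC) := by
    rw [hbig.w, e₂, Category.assoc]
  obtain ⟨pU, hpU₁, hpU₂⟩ : ∃ pU : U ⟶ D₁, bU ≫ pU = g ≫ dD ∧ aU ≫ pU = f' ≫ cC :=
    ⟨hU.desc _ _ c₁, hU.inl_desc _ _ _, hU.inr_desc _ _ _⟩
  have hP₁ : IsPushout aU f' pU cC := by
    refine IsPushout.of_top (h₁₁ := i) (v₁₁ := a) (v₁₂ := bU) ?_ hpU₂ hU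
    rw [hpU₁, ← e₂]
    exact hbig
  obtain ⟨d', hd'₁, hd'₂⟩ : ∃ d' : D₁ ⟶ D', dD ≫ d' = d ∧ cC ≫ d' = j' :=
    ⟨hD₁.desc _ _ e₄, hD₁.inl_desc _ _ _, hD₁.inr_desc _ _ _⟩
  have hd'' : pU ≫ d' = u ≫ g' := by
    apply hU.hom_ext
    · rw [← Category.assoc, hpU₁, Category.assoc, hd'₁, e₃, ← Category.assoc, hu₁]
    · rw [← Category.assoc, hpU₂, Category.assoc, hd'₂, ← Category.assoc, hu₂, hP'.w]
  have w₂ : W T d' := leg_W h3 h4 h5 h6 T hT aU i' u f' pU cC g' j' d' hP₁ hP' hi' hu₂ wu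
    hd'' hd'₂
  rw [← hd'₁]
  exact comp _ _ _ _ _ w₁ w₂

end Pool.Agent.SH


end

section

/-!
# MP_2d0b73_an, block TE: homotopy of maps to a Kan complex, homotopy extension
-/

open CategoryTheory MonoidalCategory Simplicial SSet HomotopicalAlgebra Opposite Limits
open SSet.modelCategoryQuillen CartesianMonoidalCategory

namespace Pool.Agent.SH

namespace TeHty

/-! ## Edges -/

section Edges

variable {M : SSet.{0}}

/-- There is an edge from `x` to `y`. -/
def Edg (x y : (Δ[0] : SSet.{0}) ⟶ M) : Prop :=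
  ∃ e : (Δ[1] : SSet.{0}) ⟶ M, stdSimplex.δ (1 : Fin 2) ≫ e = x ∧ stdSimplex.δ (0 : Fin 2) ≫ e = y

theorem δσ (j : Fin 2) (x : (Δ[0] : SSet.{0}) ⟶ M) :
    stdSimplex.δ j ≫ stdSimplex.σ (0 : Fin 1) ≫ x = x := by
  have h : stdSimplex.δ j ≫ stdSimplex.σ (0 : Fin 1) = 𝟙 (Δ[0] : SSet.{0}) :=
    stdSimplex.isTerminalObj₀.hom_ext _ _
  rw [← Category.assoc, h, Category.id_comp]

theorem edg_refl (x : (Δ[0] : SSet.{0}) ⟶ M) : Edg x x :=
  ⟨stdSimplex.σ 0 ≫ x, δσ 1 x, δσ 0 x⟩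

theorem d02 (φ : (Δ[2] : SSet.{0}) ⟶ M) :
    stdSimplex.δ (1 : Fin 2) ≫ stdSimplex.δ (0 : Fin 3) ≫ φ =
      stdSimplex.δ (0 : Fin 2) ≫ stdSimplex.δ (2 : Fin 3) ≫ φ := by
  have h : stdSimplex.δ (0 : Fin 2) ≫ stdSimplex.δ (2 : Fin 3) =
      stdSimplex.δ (1 : Fin 2) ≫ (stdSimplex.δ (0 : Fin 3) : (Δ[1] : SSet.{0}) ⟶ Δ[2]) :=
    stdSimplex.δ_comp_δ (i := (0 : Fin 2)) (j := (1 : Fin 2)) (by decide)
  rw [← Category.assoc, ← h, Category.assoc]

theorem d01 (φ : (Δ[2] : SSet.{0}) ⟶ M) :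
    stdSimplex.δ (0 : Fin 2) ≫ stdSimplex.δ (0 : Fin 3) ≫ φ =
      stdSimplex.δ (0 : Fin 2) ≫ stdSimplex.δ (1 : Fin 3) ≫ φ := by
  have h : stdSimplex.δ (0 : Fin 2) ≫ stdSimplex.δ (1 : Fin 3) =
      stdSimplex.δ (0 : Fin 2) ≫ (stdSimplex.δ (0 : Fin 3) : (Δ[1] : SSet.{0}) ⟶ Δ[2]) :=
    stdSimplex.δ_comp_δ (i := (0 : Fin 2)) (j := (0 : Fin 2)) (by decide)
  rw [← Category.assoc, ← h, Category.assoc]

theorem d12 (φ : (Δ[2] : SSet.{0}) ⟶ M) :
    stdSimplex.δ (1 : Fin 2) ≫ stdSimplex.δ (1 : Fin 3) ≫ φ =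
      stdSimplex.δ (1 : Fin 2) ≫ stdSimplex.δ (2 : Fin 3) ≫ φ := by
  have h : stdSimplex.δ (1 : Fin 2) ≫ stdSimplex.δ (2 : Fin 3) =
      stdSimplex.δ (1 : Fin 2) ≫ (stdSimplex.δ (1 : Fin 3) : (Δ[1] : SSet.{0}) ⟶ Δ[2]) :=
    stdSimplex.δ_comp_δ (i := (1 : Fin 2)) (j := (1 : Fin 2)) (by decide)
  rw [← Category.assoc, ← h, Category.assoc]

theorem edg_symm (hM : SSet.KanComplex M) {x y : (Δ[0] : SSet.{0}) ⟶ M} (h : Edg x y) :
    Edg y x := by
  obtain ⟨e, h1, h0⟩ := h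
  let f : ∀ (j : Fin 3) (_ : j ≠ 0), (Δ[1] : SSet.{0}) ⟶ M :=
    fun j _ => if j = 1 then stdSimplex.σ (0 : Fin 1) ≫ x else e
  have hf : horn.IsCompatible f := by
    rw [horn.isCompatible_iff]
    intro j k hj hk hjk
    fin_cases j
    · exact absurd rfl hj
    · fin_cases k
      · exact absurd rfl hk
      · exact absurd hjk (by decide)
      · change stdSimplex.δ (1 : Fin 2) ≫ stdSimplex.σ (0 : Fin 1) ≫ x =
          stdSimplex.δ (1 : Fin 2) ≫ e
        rw [δσ, h1]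
    · fin_cases k
      · exact absurd rfl hk
      · exact absurd hjk (by decide)
      · exact absurd hjk (by decide)
  obtain ⟨φ, hφ⟩ := hf.exists_lift_of_kanComplex
  have hφ1 : stdSimplex.δ (1 : Fin 3) ≫ φ = stdSimplex.σ (0 : Fin 1) ≫ x := hφ 1 (by decide)
  have hφ2 : stdSimplex.δ (2 : Fin 3) ≫ φ = e := hφ 2 (by decide)
  refine ⟨stdSimplex.δ (0 : Fin 3) ≫ φ, ?_, ?_⟩
  · rw [d02, hφ2, h0]
  · rw [d01, hφ1, δσ]

theorem edg_trans (hM : SSet.KanComplex M) {x y z : (Δ[0] : SSet.{0}) ⟶ M} (h : Edg x y)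
    (h' : Edg y z) : Edg x z := by
  obtain ⟨e, h1, h0⟩ := h
  obtain ⟨e', h1', h0'⟩ := h'
  let f : ∀ (j : Fin 3) (_ : j ≠ 1), (Δ[1] : SSet.{0}) ⟶ M :=
    fun j _ => if j = 0 then e' else e
  have hf : horn.IsCompatible f := by
    rw [horn.isCompatible_iff]
    intro j k hj hk hjk
    fin_cases j
    · fin_cases k
      · exact absurd hjk (by decide)
      · exact absurd rfl hk
      · change stdSimplex.δ (1 : Fin 2) ≫ e' = stdSimplex.δ (0 : Fin 2) ≫ e
        rw [h1', h0]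
    · exact absurd rfl hj
    · fin_cases k
      · exact absurd hjk (by decide)
      · exact absurd rfl hk
      · exact absurd hjk (by decide)
  obtain ⟨φ, hφ⟩ := hf.exists_lift_of_kanComplex
  have hφ0 : stdSimplex.δ (0 : Fin 3) ≫ φ = e' := hφ 0 (by decide)
  have hφ2 : stdSimplex.δ (2 : Fin 3) ≫ φ = e := hφ 2 (by decide)
  refine ⟨stdSimplex.δ (1 : Fin 3) ≫ φ, ?_, ?_⟩
  · rw [d12, hφ2, h1]
  · rw [← d01, hφ0, h0']

end Edges

/-! ## Points of the mapping complex -/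

section

variable {A B T : SSet.{0}}

/-- A map as a point of the mapping complex. -/
noncomputable def pt (f : A ⟶ T) : (Δ[0] : SSet.{0}) ⟶ (ihom A).obj T :=
  MonoidalClosed.curry (fst A (Δ[0] : SSet.{0}) ≫ f)

theorem pt_inj {f g : A ⟶ T} (h : pt f = pt g) : f = g := by
  have h1 : fst A (Δ[0] : SSet.{0}) ≫ f = fst A (Δ[0] : SSet.{0}) ≫ g :=
    MonoidalClosed.curry_injective h
  have h2 := congrArg (fun u => lift (𝟙 A) (stdSimplex.isTerminalObj₀.from A) ≫ u) h1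
  simpa using h2

theorem w1 (A : SSet.{0}) : A ◁ (stdSimplex.δ (1 : Fin 2)) = fst A (Δ[0] : SSet.{0}) ≫ ι₀ := by
  apply CartesianMonoidalCategory.hom_ext
  · simp
  · rw [Category.assoc, ι₀_snd, whiskerLeft_snd, stdSimplex.δ_one_eq_const]
    simp

theorem w0 (A : SSet.{0}) : A ◁ (stdSimplex.δ (0 : Fin 2)) = fst A (Δ[0] : SSet.{0}) ≫ ι₁ := by
  apply CartesianMonoidalCategory.hom_ext
  · simp
  · rw [Category.assoc, ι₁_snd, whiskerLeft_snd, stdSimplex.δ_zero_eq_const]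
    simp

theorem δ1_curry (h : A ⊗ (Δ[1] : SSet.{0}) ⟶ T) :
    stdSimplex.δ (1 : Fin 2) ≫ MonoidalClosed.curry h = pt (ι₀ ≫ h) := by
  rw [← MonoidalClosed.curry_natural_left, w1, Category.assoc]
  rfl

theorem δ0_curry (h : A ⊗ (Δ[1] : SSet.{0}) ⟶ T) :
    stdSimplex.δ (0 : Fin 2) ≫ MonoidalClosed.curry h = pt (ι₁ ≫ h) := by
  rw [← MonoidalClosed.curry_natural_left, w0, Category.assoc]
  rfl

theorem hty_iff_edg (f g : A ⟶ T) : Hty f g ↔ Edg (pt f) (pt g) := by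
  rw [Hty_iff]
  constructor
  · rintro ⟨h, h0, h1⟩
    exact ⟨MonoidalClosed.curry h, by rw [δ1_curry, h0], by rw [δ0_curry, h1]⟩
  · rintro ⟨e, h1, h0⟩
    obtain ⟨h, rfl⟩ : ∃ h, MonoidalClosed.curry h = e :=
      ⟨MonoidalClosed.uncurry e, MonoidalClosed.curry_uncurry e⟩
    rw [δ1_curry] at h1
    rw [δ0_curry] at h0
    exact ⟨h, pt_inj h1, pt_inj h0⟩

theorem pt_pre (i : A ⟶ B) (f : B ⟶ T) :
    pt f ≫ (MonoidalClosed.pre i).app T = pt (i ≫ f) := by
  unfold pt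
  rw [MonoidalClosed.curry_pre_app]
  congr 1

theorem hep (hT : SSet.KanComplex T) (i : A ⟶ B) [Mono i] (j : Fin 2)
    (f : B ⟶ T) (h : A ⊗ (Δ[1] : SSet.{0}) ⟶ T)
    (hj : stdSimplex.δ j ≫ MonoidalClosed.curry h = pt (i ≫ f)) :
    ∃ H : B ⊗ (Δ[1] : SSet.{0}) ⟶ T, stdSimplex.δ j ≫ MonoidalClosed.curry H = pt f ∧
      i ▷ (Δ[1] : SSet.{0}) ≫ H = h := by
  have hc : horn.IsCompatible (i := j + 1) (n := 0)
      (fun (_ : Fin 2) _ => pt f) := trivial
  have hfib : Fibration ((MonoidalClosed.pre i).app T) := inferInstance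
  obtain ⟨φ, hφ, hp⟩ := hc.exists_lift ((MonoidalClosed.pre i).app T)
    (MonoidalClosed.curry h) (by
      intro l hl
      have hl' : l = j := by
        revert hl
        fin_cases l <;> fin_cases j <;> simp
      subst hl'
      rw [hj]
      exact pt_pre i f)
  obtain ⟨H, rfl⟩ : ∃ H, MonoidalClosed.curry H = φ :=
    ⟨MonoidalClosed.uncurry φ, MonoidalClosed.curry_uncurry φ⟩
  refine ⟨H, hφ j (by fin_cases j <;> decide), ?_⟩
  rw [MonoidalClosed.curry_pre_app] at hp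
  exact MonoidalClosed.curry_injective hp

end

end TeHty

open TeHty

theorem te_hty : TE_HTY_Stmt := by
  intro A T hT
  have hM : SSet.KanComplex ((ihom A).obj T) := inferInstance
  refine ⟨fun f => Hty.refl f, fun {f g} h => ?_, fun {f g k} h h' => ?_⟩
  · rw [hty_iff_edg] at h ⊢
    exact edg_symm hM h
  · rw [hty_iff_edg] at h h' ⊢
    exact edg_trans hM h h'

theorem te_hep : TE_HEP_Stmt := by
  intro T hT A B i hi
  constructor
  · intro f h hh
    obtain ⟨H, h1, h2⟩ := hep hT i 1 f h (by rw [δ1_curry, hh])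
    rw [δ1_curry] at h1
    exact ⟨H, pt_inj h1, h2⟩
  · intro f h hh
    obtain ⟨H, h1, h2⟩ := hep hT i 0 f h (by rw [δ0_curry, hh])
    rw [δ0_curry] at h1
    exact ⟨H, pt_inj h1, h2⟩

end Pool.Agent.SH


end

section

/-!
# MP_2d0b73_an, block TE, module SH_TE_LPR: left properness of the class of T-equivalences
-/

open CategoryTheory MonoidalCategory Simplicial SSet HomotopicalAlgebra Opposite Limits
open SSet.modelCategoryQuillen

namespace Pool.Agent.SH.TeLpr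

/-- The inclusion of the end `k`. -/
noncomputable def en (k : Fin 2) (X : SSet.{0}) : X ⟶ X ⊗ Δ[1] :=
  CartesianMonoidalCategory.lift (𝟙 X) (const (stdSimplex.obj₀Equiv.{0}.symm k))

theorem en_zero (X : SSet.{0}) : en 0 X = ι₀ := rfl

theorem en_one (X : SSet.{0}) : en 1 X = ι₁ := rfl

theorem horn_mem (k : Fin 2) : (stdSimplex.obj₀Equiv.{0}.symm k) ∈
    (Λ[1, k] : (Δ[1] : SSet.{0}).Subcomplex).obj (op ⦋0⦌) := by
  rw [mem_horn_iff_notMem_range]
  refine ⟨k + 1, ?_, ?_⟩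
  · fin_cases k <;> simp
  · rintro ⟨i, hi⟩
    have : (stdSimplex.obj₀Equiv.{0}.symm k) i = k := rfl
    rw [this] at hi
    fin_cases k <;> simp at hi

/-- The vertex of the horn. -/
noncomputable def hv (k : Fin 2) : ((Λ[1, k] : (Δ[1] : SSet.{0}).Subcomplex) : SSet.{0}) _⦋0⦌ :=
  ⟨stdSimplex.obj₀Equiv.{0}.symm k, horn_mem k⟩

theorem horn_sub (k : Fin 2) (m : SimplexCategoryᵒᵖ)
    (x y : ((Λ[1, k] : (Δ[1] : SSet.{0}).Subcomplex) : SSet.{0}).obj m) : x = y := by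
  induction m using Opposite.rec with
  | _ m =>
  induction m using SimplexCategory.rec with
  | _ d =>
  have key : ∀ z : ((Λ[1, k] : (Δ[1] : SSet.{0}).Subcomplex) : SSet.{0}).obj (op ⦋d⦌),
      ∀ i : Fin (d + 1), z.1 i = k := by
    intro z i
    have hz := z.2
    rw [mem_horn_iff_notMem_range] at hz
    obtain ⟨j, hj, h2⟩ := hz
    by_contra hne
    apply h2
    refine ⟨i, ?_⟩
    have hd : ∀ (a b c : Fin 2), b ≠ a → c ≠ a → c = b := by decide
    exact hd k j _ hj hne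
  apply Subtype.ext
  apply SSet.stdSimplex.ext
  intro i
  rw [key x i, key y i]

/-- `X` is `X ⊗ Λ[1, k]`. -/
noncomputable def hiso (k : Fin 2) (X : SSet.{0}) :
    X ⊗ ((Λ[1, k] : (Δ[1] : SSet.{0}).Subcomplex) : SSet.{0}) ≅ X where
  hom := CartesianMonoidalCategory.fst _ _
  inv := CartesianMonoidalCategory.lift (𝟙 X) (const (hv k))
  hom_inv_id := by
    apply CartesianMonoidalCategory.hom_ext
    · rfl
    · ext m x
      exact horn_sub k m _ _
  inv_hom_id := by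
    ext m x
    rfl

theorem hiso_inv (k : Fin 2) (X : SSet.{0}) :
    (hiso k X).inv ≫ X ◁ (Λ[1, k] : (Δ[1] : SSet.{0}).Subcomplex).ι = en k X := rfl

theorem anodyne_en (k : Fin 2) (X : SSet.{0}) : anodyneExtensions (en k X) := by
  rw [← hiso_inv]
  exact anodyneExtensions.comp_mem _ _ (.of_isIso _)
    ((anodyneExtensions.horn_ι k).whiskerLeft X)

theorem anodyne_kappa (k : Fin 2) {A B P : SSet.{0}} (i : A ⟶ B) [Mono i] (s : B ⟶ P)
    (t : A ⊗ Δ[1] ⟶ P) (hp : IsPushout i (en k A) s t) (κ : P ⟶ B ⊗ Δ[1])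
    (h1 : s ≫ κ = en k B) (h2 : t ≫ κ = i ▷ Δ[1]) : anodyneExtensions κ := by
  let sq : (curriedTensor SSet.{0}).PushoutObjObj i
      (Λ[1, k] : (Δ[1] : SSet.{0}).Subcomplex).ι :=
    { pt := P
      inl := (hiso k B).hom ≫ s
      inr := t
      isPushout := by
        refine IsPushout.of_iso hp (hiso k A).symm (hiso k B).symm (Iso.refl _) (Iso.refl _)
          ?_ ?_ ?_ ?_
        · rfl
        · rfl
        · simp
        · simp
      ι := κ
      inl_ι := by
        change ((hiso k B).hom ≫ s) ≫ κ = _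
        rw [Category.assoc, h1]
        apply CartesianMonoidalCategory.hom_ext
        · rfl
        · ext m x
          have := horn_sub k m x.2 (((Λ[1, k] : (Δ[1] : SSet.{0}).Subcomplex) : SSet.{0}).map
            (SimplexCategory.const m.unop ⦋0⦌ 0).op (hv k))
          change _ = x.2.1
          rw [this]
          rfl
      inr_ι := h2 }
  exact anodyneExtensions_pushoutObjObjι sq (anodyneExtensions.horn_ι k)

/-- Anodyne maps have the relative extension property. -/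
theorem rext_anodyne {T : SSet.{0}} (hT : SSet.KanComplex T) {X Y : SSet.{0}} (i : X ⟶ Y)
    (hi : anodyneExtensions i) : REXT T i := by
  intro K L j hj u v huv
  let sq := Functor.PushoutObjObj.ofHasPushout (curriedTensor SSet.{0}) i j
  have h1 : anodyneExtensions sq.ι := anodyneExtensions_pushoutObjObjι' sq hi
  obtain ⟨w, hw⟩ := Kan.ext hT sq.ι h1 (sq.isPushout.desc u v huv)
  refine ⟨w, ?_, ?_⟩
  · have : sq.inl ≫ sq.ι ≫ w = u := by rw [hw]; exact sq.isPushout.inl_desc _ _ _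
    rw [← this, ← Category.assoc, sq.inl_ι]
    rfl
  · have : sq.inr ≫ sq.ι ≫ w = v := by rw [hw]; exact sq.isPushout.inr_desc _ _ _
    rw [← this, ← Category.assoc, sq.inr_ι]
    rfl

theorem mono_en (k : Fin 2) (X : SSet.{0}) : Mono (en k X) := by
  have : en k X ≫ CartesianMonoidalCategory.fst X Δ[1] = 𝟙 X := rfl
  exact mono_of_mono_fac this

theorem en_snd_ne (A : SSet.{0}) (m : SimplexCategoryᵒᵖ) (a a' : A.obj m) :
    ((en 1 A).app m a).2 ≠ ((en 0 A).app m a').2 := by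
  induction m using Opposite.rec with
  | _ m =>
  induction m using SimplexCategory.rec with
  | _ d =>
  intro h
  have h1 : (((en 1 A).app (op ⦋d⦌) a).2 : (Δ[1] : SSet.{0}) _⦋d⦌) 0 = 1 := rfl
  have h0 : (((en 0 A).app (op ⦋d⦌) a').2 : (Δ[1] : SSet.{0}) _⦋d⦌) 0 = 0 := rfl
  rw [h, h0] at h1
  exact absurd h1 (by decide)

open Classical in
/-- The far end of the mapping cylinder is a monomorphism. -/
theorem mono_u {A C M : SSet.{0}} (f : A ⟶ C) (mi : C ⟶ M) (mr : A ⊗ Δ[1] ⟶ M)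
    (hM : IsPushout f (en 0 A) mi mr) : Mono (en 1 A ≫ mr) := by
  have : ∀ m, Mono ((en 1 A ≫ mr).app m) := by
    intro m
    rw [mono_iff_injective]
    have hMm := hM.map ((evaluation SimplexCategoryᵒᵖ (Type)).obj m)
    let φC : C.obj m ⟶ (Option (A.obj m) : Type) := ↾(fun _ => none)
    let φA : (A ⊗ Δ[1] : SSet.{0}).obj m ⟶ (Option (A.obj m) : Type) :=
      ↾(fun x => if ∃ a', x.2 = ((en 0 A).app m a').2 then none else some x.1)
    have hφ : f.app m ≫ φC = (en 0 A).app m ≫ φA := by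
      apply ConcreteCategory.hom_ext
      intro a
      change none = if ∃ a', ((en 0 A).app m a).2 = ((en 0 A).app m a').2 then none
        else some ((en 0 A).app m a).1
      rw [if_pos ⟨a, rfl⟩]
    have hd : mr.app m ≫ hMm.desc φC φA hφ = φA := hMm.inr_desc _ _ _
    intro a b hab
    have key : ∀ a : A.obj m, (hMm.desc φC φA hφ) ((en 1 A ≫ mr).app m a) = some a := by
      intro a
      have : (hMm.desc φC φA hφ) ((en 1 A ≫ mr).app m a) =
          (mr.app m ≫ hMm.desc φC φA hφ) ((en 1 A).app m a) := rfl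
      rw [this, hd]
      change (if ∃ a', ((en 1 A).app m a).2 = ((en 0 A).app m a').2 then none
        else some ((en 1 A).app m a).1) = some a
      rw [if_neg (by rintro ⟨a', h⟩; exact en_snd_ne A m a a' h)]
      rfl
    have h2 := key a
    rw [hab, key b] at h2
    exact (Option.some.inj h2).symm
  exact NatTrans.mono_of_mono_app _

end Pool.Agent.SH.TeLpr

namespace Pool.Agent.SH

open TeLpr

theorem te_lpr (h1 : TE_HTY_Stmt) (h2 : TE_HEP_Stmt) (h3 : TE_23_Stmt) (h4 : TE_KEYE_Stmt)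
    (h5 : TE_KEY_Stmt) (h6 : TE_RPUSH_Stmt) : TE_LPR_Stmt := by
  intro T hT A B C D i f g j hD hi hf
  obtain ⟨hiso, hcomp, hcl, hcr, -⟩ := h3 T hT
  have hano : ∀ {X Y : SSet.{0}} (e : X ⟶ Y), anodyneExtensions e → W T e := fun e he =>
    h4 T hT _ _ e (rext_anodyne hT e he)
  have hpush : ∀ {X Y X' Y' : SSet.{0}} (e : X ⟶ Y) (p : X ⟶ X') (q : Y ⟶ Y') (e' : X' ⟶ Y'),
      IsPushout e p q e' → Mono e → W T e → W T e' := fun e p q e' hp he hw =>
    h4 T hT _ _ e' (h6 T _ _ _ _ e p q e' hp (h5 T hT _ _ e he hw))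
  -- the mapping cylinder
  let mi : C ⟶ pushout f (en 0 A) := pushout.inl f (en 0 A)
  let mr : A ⊗ Δ[1] ⟶ pushout f (en 0 A) := pushout.inr f (en 0 A)
  have hM : IsPushout f (en 0 A) mi mr := IsPushout.of_hasPushout _ _
  have hre : f ≫ 𝟙 C = en 0 A ≫ CartesianMonoidalCategory.fst A Δ[1] ≫ f := by
    rw [Category.comp_id]; rfl
  let r : pushout f (en 0 A) ⟶ C := hM.desc (𝟙 C) (CartesianMonoidalCategory.fst A Δ[1] ≫ f) hre
  have hr1 : mi ≫ r = 𝟙 C := hM.inl_desc _ _ _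
  have hr2 : mr ≫ r = CartesianMonoidalCategory.fst A Δ[1] ≫ f := hM.inr_desc _ _ _
  let u : A ⟶ pushout f (en 0 A) := en 1 A ≫ mr
  have hur : u ≫ r = f := by
    change (en 1 A ≫ mr) ≫ r = f
    rw [Category.assoc, hr2]; rfl
  have hWmi : W T mi := hpush _ _ _ _ hM.flip (mono_en 0 A) (hano _ (anodyne_en 0 A))
  have hWr : W T r := hcl _ _ _ mi r hWmi (by rw [hr1]; exact hiso _ _ _ inferInstance)
  have hWu : W T u := hcr _ _ _ u r hWr (by rw [hur]; exact hf)
  have hmu : Mono u := mono_u f mi mr hM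
  -- the pushout along `i`
  let s : B ⟶ pushout i u := pushout.inl i u
  let t : pushout f (en 0 A) ⟶ pushout i u := pushout.inr i u
  have hB' : IsPushout i u s t := IsPushout.of_hasPushout _ _
  have hWs : W T s := hpush _ _ _ _ hB'.flip hmu hWu
  -- the pushout product
  let ps : B ⟶ pushout i (en 1 A) := pushout.inl i (en 1 A)
  let pt : A ⊗ Δ[1] ⟶ pushout i (en 1 A) := pushout.inr i (en 1 A)
  have hP : IsPushout i (en 1 A) ps pt := IsPushout.of_hasPushout _ _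
  let κ : pushout i (en 1 A) ⟶ B ⊗ Δ[1] := hP.desc (en 1 B) (i ▷ Δ[1]) rfl
  have hκ1 : ps ≫ κ = en 1 B := hP.inl_desc _ _ _
  have hκ2 : pt ≫ κ = i ▷ Δ[1] := hP.inr_desc _ _ _
  have hκ : anodyneExtensions κ := anodyne_kappa 1 i ps pt hP κ hκ1 hκ2
  have hP' : i ≫ s = en 1 A ≫ mr ≫ t := by rw [← Category.assoc]; exact hB'.w
  let pb : pushout i (en 1 A) ⟶ pushout i u := hP.desc s (mr ≫ t) hP'
  have hpb1 : ps ≫ pb = s := hP.inl_desc _ _ _
  have hpb2 : pt ≫ pb = mr ≫ t := hP.inr_desc _ _ _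
  have hsq1 : IsPushout mr pt t pb := by
    refine IsPushout.of_left (h₁₁ := en 1 A) (h₂₁ := ps) (v₁₁ := i) ?_ hpb2.symm hP.flip
    rw [hpb1]
    exact hB'.flip
  have hsq2 : IsPushout (en 0 A ≫ pt) f pb (mi ≫ t) := hM.flip.paste_horiz hsq1.flip
  -- `N`
  let nl : B ⊗ Δ[1] ⟶ pushout (i ≫ en 0 B) f := pushout.inl (i ≫ en 0 B) f
  let nr : C ⟶ pushout (i ≫ en 0 B) f := pushout.inr (i ≫ en 0 B) f
  have hN : IsPushout (i ≫ en 0 B) f nl nr := IsPushout.of_hasPushout _ _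
  have hit : (en 0 A ≫ pt) ≫ κ = i ≫ en 0 B := by rw [Category.assoc, hκ2]; rfl
  have hbnw : (en 0 A ≫ pt) ≫ κ ≫ nl = f ≫ nr := by
    rw [← Category.assoc, hit, hN.w]
  let bn : pushout i u ⟶ pushout (i ≫ en 0 B) f := hsq2.desc (κ ≫ nl) nr hbnw
  have hbn1 : pb ≫ bn = κ ≫ nl := hsq2.inl_desc _ _ _
  have hbn2 : (mi ≫ t) ≫ bn = nr := hsq2.inr_desc _ _ _
  have hsq3 : IsPushout κ pb nl bn := by
    refine IsPushout.of_left (h₁₁ := en 0 A ≫ pt) (h₂₁ := mi ≫ t) (v₁₁ := f) ?_ hbn1.symm hsq2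
    rw [hit, hbn2]
    exact hN
  have hWbn : W T bn := h4 T hT _ _ bn (h6 T _ _ _ _ κ pb nl bn hsq3 (rext_anodyne hT κ hκ))
  have hdnw : i ≫ en 0 B ≫ nl = f ≫ nr := by rw [← Category.assoc, hN.w]
  let dn : D ⟶ pushout (i ≫ en 0 B) f := hD.desc (en 0 B ≫ nl) nr hdnw
  have hdn1 : g ≫ dn = en 0 B ≫ nl := hD.inl_desc _ _ _
  have hdn2 : j ≫ dn = nr := hD.inr_desc _ _ _
  have hsq4 : IsPushout (en 0 B) g nl dn := by
    refine IsPushout.of_left (h₁₁ := i) (h₂₁ := j) (v₁₁ := f) ?_ hdn1.symm hD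
    rw [hdn2]
    exact hN
  have hWdn : W T dn := hpush _ _ _ _ hsq4 (mono_en 0 B) (hano _ (anodyne_en 0 B))
  have hndw : (i ≫ en 0 B) ≫ CartesianMonoidalCategory.fst B Δ[1] ≫ g = f ≫ j := by
    rw [← hD.w]; rfl
  let nd : pushout (i ≫ en 0 B) f ⟶ D :=
    hN.desc (CartesianMonoidalCategory.fst B Δ[1] ≫ g) j hndw
  have hnd1 : nl ≫ nd = CartesianMonoidalCategory.fst B Δ[1] ≫ g := hN.inl_desc _ _ _
  have hnd2 : nr ≫ nd = j := hN.inr_desc _ _ _
  have hid : dn ≫ nd = 𝟙 D := by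
    apply hD.hom_ext
    · rw [← Category.assoc, hdn1, Category.assoc, hnd1]; rfl
    · rw [← Category.assoc, hdn2, hnd2, Category.comp_id]
  have hWnd : W T nd := hcl _ _ _ dn nd hWdn (by rw [hid]; exact hiso _ _ _ inferInstance)
  have hfin : s ≫ bn ≫ nd = g := by
    rw [← hpb1, Category.assoc, ← Category.assoc pb, hbn1, Category.assoc, hnd1,
      ← Category.assoc, hκ1]
    rfl
  rw [← hfin]
  exact hcomp _ _ _ _ _ hWs (hcomp _ _ _ _ _ hWbn hWnd)

end Pool.Agent.SH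


end

section

open CategoryTheory MonoidalCategory Simplicial SSet HomotopicalAlgebra Opposite Limits
open SSet.modelCategoryQuillen

namespace Pool.Agent.SH.TeSeq

theorem cyl_phi {A G E C : Type} (e1 : E) (t : A ⟶ (A × E : Type)) (ht : ∀ a, t a = (a, e1))
    (α : A ⟶ G) (p : (A × E : Type) ⟶ C) (q : G ⟶ C) (h : IsPushout t α p q) :
    ∃ φ : C → G ⊕ (A × E), (∀ a, φ (p (a, e1)) = Sum.inl (α a)) ∧
      (∀ a e, e ≠ e1 → φ (p (a, e)) = Sum.inr (a, e)) ∧ (∀ g, φ (q g) = Sum.inl g) := by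
  classical
  let p' : (A × E : Type) ⟶ (G ⊕ (A × E) : Type) :=
    ↾ (fun x : A × E => if x.2 = e1 then (Sum.inl (α x.1) : G ⊕ (A × E)) else Sum.inr x)
  let q' : G ⟶ (G ⊕ (A × E) : Type) := ↾ (fun g : G => (Sum.inl g : G ⊕ (A × E)))
  have hw : t ≫ p' = α ≫ q' := by
    apply ConcreteCategory.hom_ext
    intro x
    have h1 : (t ≫ p') x = p' (t x) := rfl
    rw [h1, ht x]
    simp [p', q']
  have e1' := h.inl_desc p' q' hw
  have e2' := h.inr_desc p' q' hw
  refine ⟨fun c => h.desc p' q' hw c, ?_, ?_, ?_⟩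
  · intro a
    have := ConcreteCategory.congr_hom e1' ((a, e1) : A × E)
    refine Eq.trans this ?_
    simp [p']
  · intro a e he
    have := ConcreteCategory.congr_hom e1' ((a, e) : A × E)
    refine Eq.trans this ?_
    simp [p', he]
  · intro g
    exact ConcreteCategory.congr_hom e2' g

theorem inj_type {F F' G G' E C C' P : Type} (e0 e1 : E) (hne : e0 ≠ e1)
    (i : F ⟶ F') (hi : Function.Injective i) (j : G ⟶ G') (hj : Function.Injective j)
    (a : F ⟶ G) (a' : F' ⟶ G')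
    (t : F ⟶ (F × E : Type)) (ht : ∀ x, t x = (x, e1))
    (p : (F × E : Type) ⟶ C) (q : G ⟶ C) (hC : IsPushout t a p q)
    (t' : F' ⟶ (F' × E : Type)) (ht' : ∀ x, t' x = (x, e1))
    (p' : (F' × E : Type) ⟶ C') (q' : G' ⟶ C') (hC' : IsPushout t' a' p' q')
    (c : C ⟶ C') (hc1 : ∀ x e, c (p (x, e)) = p' (i x, e)) (hc2 : ∀ g, c (q g) = q' (j g))
    (u : F ⟶ C) (hu : ∀ x, u x = p (x, e0)) (l : F' ⟶ P) (r : C ⟶ P)
    (hP : IsPushout i u l r) (v : P ⟶ C') (hv1 : ∀ x, v (l x) = p' (x, e0))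
    (hv2 : ∀ y, v (r y) = c y) : Function.Injective v := by
  classical
  obtain ⟨φ, hφ1, hφ2, hφ3⟩ := cyl_phi e1 t' ht' a' p' q' hC'
  have hwC : ∀ x, p (x, e1) = q (a x) := by
    intro x
    have := ConcreteCategory.congr_hom hC.w x
    have h1 : p (t x) = q (a x) := this
    rw [ht x] at h1
    exact h1
  have hwP : ∀ x, l (i x) = r (p (x, e0)) := by
    intro x
    have h1 : l (i x) = r (u x) := ConcreteCategory.congr_hom hP.w x
    rw [hu x] at h1
    exact h1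
  have key : ∀ y : P, (∃ x : F', y = l x) ∨ (∃ (x : F) (e : E), e ≠ e1 ∧ y = r (p (x, e))) ∨
      ∃ g : G, y = r (q g) := by
    intro y
    rcases Types.eq_or_eq_of_isPushout hP y with ⟨x, hx⟩ | ⟨z, hz⟩
    · exact Or.inl ⟨x, hx.symm⟩
    · right
      rcases Types.eq_or_eq_of_isPushout hC z with ⟨⟨x, e⟩, hx⟩ | ⟨g, hg⟩
      · by_cases he : e = e1
        · right
          refine ⟨a x, ?_⟩
          rw [← hz, ← hx, he, hwC]
        · left
          exact ⟨x, e, he, by rw [← hz, ← hx]⟩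
      · right
        exact ⟨g, by rw [← hz, ← hg]⟩
  have val1 : ∀ x : F', φ (v (l x)) = Sum.inr (x, e0) := by
    intro x
    rw [hv1, hφ2 _ _ hne]
  have val2 : ∀ (x : F) (e : E), e ≠ e1 → φ (v (r (p (x, e)))) = Sum.inr (i x, e) := by
    intro x e he
    rw [hv2, hc1, hφ2 _ _ he]
  have val3 : ∀ g : G, φ (v (r (q g))) = Sum.inl (j g) := by
    intro g
    rw [hv2, hc2, hφ3]
  intro y y' hyy
  have hyy' : φ (v y) = φ (v y') := by rw [hyy]
  rcases key y with ⟨x, rfl⟩ | ⟨x, e, he, rfl⟩ | ⟨g, rfl⟩ <;>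
  rcases key y' with ⟨x', rfl⟩ | ⟨x', e', he', rfl⟩ | ⟨g', rfl⟩
  · rw [val1, val1] at hyy'
    have h1 := Sum.inr.inj hyy'
    rw [(Prod.mk.inj h1).1]
  · rw [val1, val2 _ _ he'] at hyy'
    have h1 := Prod.mk.inj (Sum.inr.inj hyy')
    rw [h1.1, hwP, h1.2]
  · rw [val1, val3] at hyy'
    exact absurd hyy' (by simp)
  · rw [val1, val2 _ _ he] at hyy'
    have h1 := Prod.mk.inj (Sum.inr.inj hyy')
    rw [← h1.1, hwP, h1.2]
  · rw [val2 _ _ he, val2 _ _ he'] at hyy'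
    have h1 := Prod.mk.inj (Sum.inr.inj hyy')
    rw [hi h1.1, h1.2]
  · rw [val2 _ _ he, val3] at hyy'
    exact absurd hyy' (by simp)
  · rw [val1, val3] at hyy'
    exact absurd hyy' (by simp)
  · rw [val2 _ _ he', val3] at hyy'
    exact absurd hyy' (by simp)
  · rw [val3, val3] at hyy'
    rw [hj (Sum.inl.inj hyy')]

theorem inj_type' {F G E C : Type} (e0 e1 : E) (hne : e0 ≠ e1) (a : F ⟶ G)
    (t : F ⟶ (F × E : Type)) (ht : ∀ x, t x = (x, e1))
    (p : (F × E : Type) ⟶ C) (q : G ⟶ C) (hC : IsPushout t a p q)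
    (u : F ⟶ C) (hu : ∀ x, u x = p (x, e0)) : Function.Injective u := by
  obtain ⟨φ, hφ1, hφ2, hφ3⟩ := cyl_phi e1 t ht a p q hC
  intro x x' hx
  have h1 : φ (u x) = φ (u x') := by rw [hx]
  rw [hu, hu, hφ2 _ _ hne, hφ2 _ _ hne] at h1
  exact (Prod.mk.inj (Sum.inr.inj h1)).1

/-- The end `0` of the interval in level `m`. -/
noncomputable def E0 (m : SimplexCategoryᵒᵖ) : (Δ[1] : SSet.{0}).obj m :=
  (SSet.const (X := Δ[0]) (stdSimplex.obj₀Equiv.{0}.symm (0 : Fin 2)) :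
    (Δ[0] : SSet.{0}) ⟶ Δ[1]).app m (stdSimplex.objEquiv.symm (SimplexCategory.const _ _ 0))

noncomputable def E1 (m : SimplexCategoryᵒᵖ) : (Δ[1] : SSet.{0}).obj m :=
  (SSet.const (X := Δ[0]) (stdSimplex.obj₀Equiv.{0}.symm (1 : Fin 2)) :
    (Δ[0] : SSet.{0}) ⟶ Δ[1]).app m (stdSimplex.objEquiv.symm (SimplexCategory.const _ _ 0))

theorem ι₀_app_eq {X : SSet.{0}} (m : SimplexCategoryᵒᵖ) (x : X.obj m) :
    (ι₀ : X ⟶ X ⊗ Δ[1]).app m x = ((x, E0 m) : X.obj m × (Δ[1] : SSet.{0}).obj m) := rfl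

theorem ι₁_app_eq {X : SSet.{0}} (m : SimplexCategoryᵒᵖ) (x : X.obj m) :
    (ι₁ : X ⟶ X ⊗ Δ[1]).app m x = ((x, E1 m) : X.obj m × (Δ[1] : SSet.{0}).obj m) := rfl

theorem E_ne (m : SimplexCategoryᵒᵖ) : E0 m ≠ E1 m := by
  obtain ⟨n, hn⟩ : ∃ n : ℕ, m = op ⦋n⦌ := ⟨m.unop.len, rfl⟩
  subst hn
  intro h
  have h0 : (E0 (op ⦋n⦌) : (Δ[1] : SSet.{0}) _⦋n⦌) (0 : Fin (n + 1)) = 0 := rfl
  have h1 : (E1 (op ⦋n⦌) : (Δ[1] : SSet.{0}) _⦋n⦌) (0 : Fin (n + 1)) = 1 := rfl
  rw [h, h1] at h0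
  exact absurd h0 (by decide)


theorem mono_v {F F' G G' C C' P : SSet.{0}} (i : F ⟶ F') [Mono i] (j : G ⟶ G') [Mono j]
    (a : F ⟶ G) (a' : F' ⟶ G') (p : F ⊗ Δ[1] ⟶ C) (q : G ⟶ C) (hC : IsPushout ι₁ a p q)
    (p' : F' ⊗ Δ[1] ⟶ C') (q' : G' ⟶ C') (hC' : IsPushout ι₁ a' p' q')
    (c : C ⟶ C') (hc1 : p ≫ c = i ▷ _ ≫ p') (hc2 : q ≫ c = j ≫ q')
    (l : F' ⟶ P) (r : C ⟶ P) (hP : IsPushout i (ι₀ ≫ p) l r) (v : P ⟶ C')
    (hv1 : l ≫ v = ι₀ ≫ p') (hv2 : r ≫ v = c) : Mono v := by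
  rw [NatTrans.mono_iff_mono_app]
  intro m
  rw [mono_iff_injective]
  have h1 := hC.map ((evaluation SimplexCategoryᵒᵖ Type).obj m : SSet.{0} ⥤ Type)
  have h2 := hC'.map ((evaluation SimplexCategoryᵒᵖ Type).obj m : SSet.{0} ⥤ Type)
  have h3 := hP.map ((evaluation SimplexCategoryᵒᵖ Type).obj m : SSet.{0} ⥤ Type)
  have hi : Function.Injective (i.app m) := by
    rw [← mono_iff_injective]; infer_instance
  have hj : Function.Injective (j.app m) := by
    rw [← mono_iff_injective]; infer_instance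
  refine inj_type (E0 m) (E1 m) (E_ne m) (i.app m) hi (j.app m) hj (a.app m) (a'.app m)
    ((ι₁ : F ⟶ F ⊗ Δ[1]).app m) (fun x => ι₁_app_eq m x) (p.app m) (q.app m) h1
    ((ι₁ : F' ⟶ F' ⊗ Δ[1]).app m) (fun x => ι₁_app_eq m x) (p'.app m) (q'.app m) h2
    (c.app m) ?_ ?_ ((ι₀ ≫ p).app m) ?_ (l.app m) (r.app m) h3 (v.app m) ?_ ?_
  · intro x e
    have := ConcreteCategory.congr_hom (congrArg (fun f => NatTrans.app f m) hc1)
      ((x, e) : F.obj m × (Δ[1] : SSet.{0}).obj m)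
    exact this
  · intro g
    exact ConcreteCategory.congr_hom (congrArg (fun f => NatTrans.app f m) hc2) g
  · intro x
    rfl
  · intro x
    exact ConcreteCategory.congr_hom (congrArg (fun f => NatTrans.app f m) hv1) x
  · intro y
    exact ConcreteCategory.congr_hom (congrArg (fun f => NatTrans.app f m) hv2) y

theorem mono_u {F G C : SSet.{0}} (a : F ⟶ G) (p : F ⊗ Δ[1] ⟶ C) (q : G ⟶ C)
    (hC : IsPushout ι₁ a p q) : Mono (ι₀ ≫ p) := by
  rw [NatTrans.mono_iff_mono_app]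
  intro m
  rw [mono_iff_injective]
  have h1 := hC.map ((evaluation SimplexCategoryᵒᵖ Type).obj m : SSet.{0} ⥤ Type)
  exact inj_type' (E0 m) (E1 m) (E_ne m) (a.app m) ((ι₁ : F ⟶ F ⊗ Δ[1]).app m)
    (fun x => ι₁_app_eq m x) (p.app m) (q.app m) h1 ((ι₀ ≫ p).app m) (fun x => rfl)

theorem W_iota1 (h3 : TE_23_Stmt) (T : SSet.{0}) (hT : SSet.KanComplex T) (X : SSet.{0}) :
    W T (ι₁ : X ⟶ X ⊗ Δ[1]) := by
  obtain ⟨a1, a2, a3, a4, a5, a6, a7⟩ := h3 T hT
  apply a4 _ _ _ (ι₁ : X ⟶ X ⊗ Δ[1]) (CartesianMonoidalCategory.fst X Δ[1]) (a6 X 1)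
  rw [ι₁_fst]
  exact a1 _ _ _ inferInstance

/-- Cylinder facts: for a pushout of the end `1` along `f`, the retraction is in `W T`. -/
theorem W_cyl (h3 : TE_23_Stmt) (h4 : TE_KEYE_Stmt) (h5 : TE_KEY_Stmt) (h6 : TE_RPUSH_Stmt)
    (T : SSet.{0}) (hT : SSet.KanComplex T) {X XI Y C : SSet.{0}} (e : X ⟶ XI) [Mono e]
    (he : W T e) (f : X ⟶ Y) (p : XI ⟶ C) (q : Y ⟶ C) (hC : IsPushout e f p q)
    (r : C ⟶ Y) (hr : q ≫ r = 𝟙 Y) : W T r := by
  obtain ⟨a1, a2, a3, a4, a5, a6, a7⟩ := h3 T hT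
  have h7 : REXT T e := h5 T hT _ _ e inferInstance he
  have h8 : REXT T q := h6 T _ _ _ _ e f p q hC h7
  have h9 : W T q := h4 T hT _ _ q h8
  apply a3 _ _ _ q r h9
  rw [hr]
  exact a1 _ _ _ inferInstance

/-- The functor `F ⊗ Δ[1]`. -/
noncomputable abbrev FI (F : ℕ ⥤ SSet.{0}) : ℕ ⥤ SSet.{0} := F ⋙ tensorRight Δ[1]

noncomputable def i0 (F : ℕ ⥤ SSet.{0}) : F ⟶ FI F where
  app n := ι₀
  naturality := by
    intro m n f
    exact (ι₀_comp (F.map f)).symm

noncomputable def i1 (F : ℕ ⥤ SSet.{0}) : F ⟶ FI F where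
  app n := ι₁
  naturality := by
    intro m n f
    exact (ι₁_comp (F.map f)).symm

noncomputable def pr (F : ℕ ⥤ SSet.{0}) : FI F ⟶ F where
  app n := CartesianMonoidalCategory.fst (F.obj n) Δ[1]
  naturality := by
    intro m n f
    exact CartesianMonoidalCategory.whiskerRight_fst _ _

theorem i0_pr (F : ℕ ⥤ SSet.{0}) : i0 F ≫ pr F = 𝟙 F := by
  ext n : 2
  exact ι₀_fst _

theorem i1_pr (F : ℕ ⥤ SSet.{0}) : i1 F ≫ pr F = 𝟙 F := by
  ext n : 2
  exact ι₁_fst _

/-- The cylinder functor. -/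
noncomputable abbrev CC {F G : ℕ ⥤ SSet.{0}} (α : F ⟶ G) : ℕ ⥤ SSet.{0} :=
  pushout (i1 F) α

noncomputable abbrev uF {F G : ℕ ⥤ SSet.{0}} (α : F ⟶ G) : F ⟶ CC α :=
  i0 F ≫ pushout.inl (i1 F) α

noncomputable abbrev rF {F G : ℕ ⥤ SSet.{0}} (α : F ⟶ G) : CC α ⟶ G :=
  pushout.desc (pr F ≫ α) (𝟙 G) (by
    rw [← Category.assoc, i1_pr, Category.id_comp, Category.comp_id])

theorem uF_rF {F G : ℕ ⥤ SSet.{0}} (α : F ⟶ G) : uF α ≫ rF α = α := by
  rw [uF, rF, Category.assoc, pushout.inl_desc, ← Category.assoc, i0_pr, Category.id_comp]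

theorem inr_rF {F G : ℕ ⥤ SSet.{0}} (α : F ⟶ G) : pushout.inr (i1 F) α ≫ rF α = 𝟙 G := by
  rw [rF, pushout.inr_desc]

theorem CC_sq {F G : ℕ ⥤ SSet.{0}} (α : F ⟶ G) (n : ℕ) :
    IsPushout (ι₁ : F.obj n ⟶ F.obj n ⊗ Δ[1]) (α.app n) ((pushout.inl (i1 F) α).app n)
      ((pushout.inr (i1 F) α).app n) :=
  (IsPushout.of_hasPushout (i1 F) α).map ((evaluation ℕ SSet.{0}).obj n)

instance mono_ι₁ (X : SSet.{0}) : Mono (ι₁ : X ⟶ X ⊗ Δ[1]) :=
  mono_of_mono_fac (ι₁_fst X)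

theorem W_uF (h3 : TE_23_Stmt) (h4 : TE_KEYE_Stmt) (h5 : TE_KEY_Stmt) (h6 : TE_RPUSH_Stmt)
    (T : SSet.{0}) (hT : SSet.KanComplex T) {F G : ℕ ⥤ SSet.{0}} (α : F ⟶ G) (n : ℕ)
    (hα : W T (α.app n)) : W T ((uF α).app n) := by
  have h9 : W T ((rF α).app n) := by
    apply W_cyl h3 h4 h5 h6 T hT (ι₁ : F.obj n ⟶ F.obj n ⊗ Δ[1]) (W_iota1 h3 T hT _)
      (α.app n) _ _ (CC_sq α n) ((rF α).app n)
    rw [← NatTrans.comp_app, inr_rF, NatTrans.id_app]
  obtain ⟨a1, a2, a3, a4, a5, a6, a7⟩ := h3 T hT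
  apply a4 _ _ _ ((uF α).app n) ((rF α).app n) h9
  rw [← NatTrans.comp_app, uF_rF]
  exact hα

theorem mono_uF {F G : ℕ ⥤ SSet.{0}} (α : F ⟶ G) (n : ℕ) : Mono ((uF α).app n) :=
  mono_u (α.app n) _ _ (CC_sq α n)


/-- The inclusion of the relative cylinder has the extension property. -/
theorem step_REXT (h3 : TE_23_Stmt) (h4 : TE_KEYE_Stmt) (h5 : TE_KEY_Stmt) (h6 : TE_RPUSH_Stmt)
    (T : SSet.{0}) (hT : SSet.KanComplex T) {F G : ℕ ⥤ SSet.{0}} (α : F ⟶ G)
    (hF : ∀ n : ℕ, Mono (F.map (homOfLE (Nat.le_succ n))))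
    (hG : ∀ n : ℕ, Mono (G.map (homOfLE (Nat.le_succ n))))
    (hα : ∀ n : ℕ, W T (α.app n)) (n : ℕ) (P : SSet.{0}) (l : F.obj (n + 1) ⟶ P)
    (r : (CC α).obj n ⟶ P)
    (hP : IsPushout (F.map (homOfLE (Nat.le_succ n))) ((uF α).app n) l r)
    (v : P ⟶ (CC α).obj (n + 1)) (hv1 : l ≫ v = (uF α).app (n + 1))
    (hv2 : r ≫ v = (CC α).map (homOfLE (Nat.le_succ n))) : REXT T v := by
  have hFn := hF n
  have hGn := hG n
  have hm : Mono v := by
    refine mono_v (F.map (homOfLE (Nat.le_succ n))) (G.map (homOfLE (Nat.le_succ n)))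
      (α.app n) (α.app (n + 1)) _ _ (CC_sq α n) _ _ (CC_sq α (n + 1))
      ((CC α).map (homOfLE (Nat.le_succ n))) ?_ ?_ l r hP v hv1 hv2
    · exact ((pushout.inl (i1 F) α).naturality (homOfLE (Nat.le_succ n))).symm
    · exact ((pushout.inr (i1 F) α).naturality (homOfLE (Nat.le_succ n))).symm
  apply h5 T hT _ _ v hm
  obtain ⟨a1, a2, a3, a4, a5, a6, a7⟩ := h3 T hT
  have hu := mono_uF α n
  have h7 : REXT T ((uF α).app n) :=
    h5 T hT _ _ _ hu (W_uF h3 h4 h5 h6 T hT α n (hα n))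
  have h8 : REXT T l := h6 T _ _ _ _ _ _ _ _ hP.flip h7
  have h9 : W T l := h4 T hT _ _ l h8
  apply a3 _ _ _ l v h9
  rw [hv1]
  exact W_uF h3 h4 h5 h6 T hT α (n + 1) (hα (n + 1))

section Extend

variable {F G : ℕ ⥤ SSet.{0}} (α : F ⟶ G) (T : SSet.{0}) {K L : SSet.{0}} (j : K ⟶ L)
  (uK : colimit (CC α) ⊗ K ⟶ T) (vL : colimit F ⊗ L ⟶ T)

/-- Solutions of the extension problem on level `n`. -/
def Sol (n : ℕ) : Type :=
  {w : (CC α).obj n ⊗ L ⟶ T //
    (CC α).obj n ◁ j ≫ w = (colimit.ι (CC α) n) ▷ K ≫ uK ∧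
    ((uF α).app n) ▷ L ≫ w = (colimit.ι F n) ▷ L ≫ vL}

theorem compat (hc : colimMap (uF α) ▷ K ≫ uK = colimit F ◁ j ≫ vL) (n : ℕ) :
    ((uF α).app n) ▷ K ≫ (colimit.ι (CC α) n) ▷ K ≫ uK =
      F.obj n ◁ j ≫ (colimit.ι F n) ▷ L ≫ vL := by
  rw [← comp_whiskerRight_assoc, ← ι_colimMap, comp_whiskerRight_assoc, hc,
    ← whisker_exchange_assoc]

theorem sol_zero (hc : colimMap (uF α) ▷ K ≫ uK = colimit F ◁ j ≫ vL) [Mono j]
    (h : REXT T ((uF α).app 0)) : Nonempty (Sol α T j uK vL 0) := by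
  obtain ⟨w, h1, h2⟩ := h K L j ((colimit.ι (CC α) 0) ▷ K ≫ uK) ((colimit.ι F 0) ▷ L ≫ vL)
    (compat α T j uK vL hc 0)
  exact ⟨⟨w, h1, h2⟩⟩

theorem sol_step (hc : colimMap (uF α) ▷ K ≫ uK = colimit F ◁ j ≫ vL) [Mono j]
    (h : ∀ (n : ℕ) (P : SSet.{0}) (l : F.obj (n + 1) ⟶ P)
      (r : (CC α).obj n ⟶ P), IsPushout (F.map (homOfLE (Nat.le_succ n))) ((uF α).app n) l r →
      ∀ (v : P ⟶ (CC α).obj (n + 1)), l ≫ v = (uF α).app (n + 1) →
      r ≫ v = (CC α).map (homOfLE (Nat.le_succ n)) → REXT T v) (n : ℕ)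
    (s : Sol α T j uK vL n) : ∃ s' : Sol α T j uK vL (n + 1),
      ((CC α).map (homOfLE (Nat.le_succ n))) ▷ L ≫ s'.1 = s.1 := by
  obtain ⟨w, hw1, hw2⟩ := s
  let l := pushout.inl (F.map (homOfLE (Nat.le_succ n))) ((uF α).app n)
  let r := pushout.inr (F.map (homOfLE (Nat.le_succ n))) ((uF α).app n)
  have hP : IsPushout (F.map (homOfLE (Nat.le_succ n))) ((uF α).app n) l r :=
    IsPushout.of_hasPushout _ _
  have hnat : F.map (homOfLE (Nat.le_succ n)) ≫ (uF α).app (n + 1) =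
      (uF α).app n ≫ (CC α).map (homOfLE (Nat.le_succ n)) := (uF α).naturality _
  let v := hP.desc ((uF α).app (n + 1)) ((CC α).map (homOfLE (Nat.le_succ n))) hnat
  have hv1 : l ≫ v = (uF α).app (n + 1) := hP.inl_desc _ _ hnat
  have hv2 : r ≫ v = (CC α).map (homOfLE (Nat.le_succ n)) := hP.inr_desc _ _ hnat
  have hR : REXT T v := h n _ l r hP v hv1 hv2
  have hPL := hP.map (tensorRight L)
  have hPK := hP.map (tensorRight K)
  have hd : (tensorRight L).map (F.map (homOfLE (Nat.le_succ n))) ≫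
      ((colimit.ι F (n + 1)) ▷ L ≫ vL) = (tensorRight L).map ((uF α).app n) ≫ w := by
    change (F.map (homOfLE (Nat.le_succ n))) ▷ L ≫ ((colimit.ι F (n + 1)) ▷ L ≫ vL) =
      ((uF α).app n) ▷ L ≫ w
    rw [hw2, ← comp_whiskerRight_assoc, colimit.w]
  let d := hPL.desc ((colimit.ι F (n + 1)) ▷ L ≫ vL) w hd
  have hd1 : l ▷ L ≫ d = (colimit.ι F (n + 1)) ▷ L ≫ vL := hPL.inl_desc _ _ hd
  have hd2 : r ▷ L ≫ d = w := hPL.inr_desc _ _ hd
  have hcomp : v ▷ K ≫ ((colimit.ι (CC α) (n + 1)) ▷ K ≫ uK) =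
      (pushout (F.map (homOfLE (Nat.le_succ n))) ((uF α).app n)) ◁ j ≫ d := by
    apply hPK.hom_ext
    · change l ▷ K ≫ _ = l ▷ K ≫ _
      rw [← comp_whiskerRight_assoc, hv1, compat α T j uK vL hc (n + 1),
        ← whisker_exchange_assoc, hd1]
    · change r ▷ K ≫ _ = r ▷ K ≫ _
      rw [← comp_whiskerRight_assoc, hv2, ← comp_whiskerRight_assoc, colimit.w,
        ← whisker_exchange_assoc, hd2, hw1]
  obtain ⟨w', h1, h2⟩ := hR K L j _ d hcomp
  refine ⟨⟨w', h1, ?_⟩, ?_⟩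
  · rw [← hv1, comp_whiskerRight_assoc, h2, hd1]
  · rw [← hv2, comp_whiskerRight_assoc, h2, hd2]

theorem sol_glue (s : ∀ n, Sol α T j uK vL n)
    (hs : ∀ n, ((CC α).map (homOfLE (Nat.le_succ n))) ▷ L ≫ (s (n + 1)).1 = (s n).1) :
    ∃ w : colimit (CC α) ⊗ L ⟶ T, colimit (CC α) ◁ j ≫ w = uK ∧
      colimMap (uF α) ▷ L ≫ w = vL := by
  let nt : CC α ⋙ tensorRight L ⟶ (Functor.const ℕ).obj T :=
    NatTrans.ofSequence (fun n => (s n).1) (by
      intro n
      refine Eq.trans (hs n) ?_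
      exact (Category.comp_id _).symm)
  let hL := isColimitOfPreserves (tensorRight L) (colimit.isColimit (CC α))
  let hK := isColimitOfPreserves (tensorRight K) (colimit.isColimit (CC α))
  let hFL := isColimitOfPreserves (tensorRight L) (colimit.isColimit F)
  let w := hL.desc ⟨T, nt⟩
  have hw : ∀ n, (colimit.ι (CC α) n) ▷ L ≫ w = (s n).1 := fun n => hL.fac ⟨T, nt⟩ n
  refine ⟨w, ?_, ?_⟩
  · apply hK.hom_ext
    intro n
    change (colimit.ι (CC α) n) ▷ K ≫ _ = (colimit.ι (CC α) n) ▷ K ≫ _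
    rw [← whisker_exchange_assoc, hw n, (s n).2.1]
  · apply hFL.hom_ext
    intro n
    change (colimit.ι F n) ▷ L ≫ _ = (colimit.ι F n) ▷ L ≫ _
    rw [← comp_whiskerRight_assoc, ι_colimMap, comp_whiskerRight_assoc, hw n, (s n).2.2]

end Extend

theorem colim_uF_REXT (h3 : TE_23_Stmt) (h4 : TE_KEYE_Stmt) (h5 : TE_KEY_Stmt)
    (h6 : TE_RPUSH_Stmt)
    (T : SSet.{0}) (hT : SSet.KanComplex T) {F G : ℕ ⥤ SSet.{0}} (α : F ⟶ G)
    (hF : ∀ n : ℕ, Mono (F.map (homOfLE (Nat.le_succ n))))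
    (hG : ∀ n : ℕ, Mono (G.map (homOfLE (Nat.le_succ n))))
    (hα : ∀ n : ℕ, W T (α.app n)) : REXT T (colimMap (uF α)) := by
  intro K L j _ uK vL hc
  have hu := mono_uF α 0
  have h7 : REXT T ((uF α).app 0) :=
    h5 T hT _ _ _ hu (W_uF h3 h4 h5 h6 T hT α 0 (hα 0))
  obtain ⟨s0⟩ := sol_zero α T j uK vL hc h7
  have hstep := sol_step α T j uK vL hc
    (fun n P l r hP v hv1 hv2 => step_REXT h3 h4 h5 h6 T hT α hF hG hα n P l r hP v hv1 hv2)
  choose f hf using hstep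
  exact sol_glue α T j uK vL (fun n => Nat.rec s0 (fun n s => f n s) n) (fun n => hf n _)

/-- The colimit of the functor `F ⊗ Δ[1]`. -/
noncomputable def eI (F : ℕ ⥤ SSet.{0}) : colimit (FI F) ≅ colimit F ⊗ Δ[1] :=
  (colimit.isColimit (FI F)).coconePointUniqueUpToIso
    (isColimitOfPreserves (tensorRight Δ[1]) (colimit.isColimit F))

theorem ι_eI (F : ℕ ⥤ SSet.{0}) (n : ℕ) :
    colimit.ι (FI F) n ≫ (eI F).hom = colimit.ι F n ▷ Δ[1] :=
  IsColimit.comp_coconePointUniqueUpToIso_hom _ _ n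

theorem i1_eI (F : ℕ ⥤ SSet.{0}) : colimMap (i1 F) ≫ (eI F).hom = ι₁ := by
  apply colimit.hom_ext
  intro n
  rw [← Category.assoc, ι_colimMap, Category.assoc, ι_eI]
  exact ι₁_comp _

theorem W_colim_i1 (h3 : TE_23_Stmt) (T : SSet.{0}) (hT : SSet.KanComplex T)
    (F : ℕ ⥤ SSet.{0}) : W T (colimMap (i1 F)) := by
  obtain ⟨a1, a2, a3, a4, a5, a6, a7⟩ := h3 T hT
  apply a4 _ _ _ (colimMap (i1 F)) (eI F).hom (a1 _ _ _ inferInstance)
  rw [i1_eI]
  exact W_iota1 h3 T hT _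

theorem mono_colim_i1 (F : ℕ ⥤ SSet.{0}) : Mono (colimMap (i1 F)) :=
  mono_of_mono_fac (i1_eI F)

theorem W_colim (h3 : TE_23_Stmt) (h4 : TE_KEYE_Stmt) (h5 : TE_KEY_Stmt)
    (h6 : TE_RPUSH_Stmt)
    (T : SSet.{0}) (hT : SSet.KanComplex T) {F G : ℕ ⥤ SSet.{0}} (α : F ⟶ G)
    (hF : ∀ n : ℕ, Mono (F.map (homOfLE (Nat.le_succ n))))
    (hG : ∀ n : ℕ, Mono (G.map (homOfLE (Nat.le_succ n))))
    (hα : ∀ n : ℕ, W T (α.app n)) : W T (colimMap α) := by
  have hu : W T (colimMap (uF α)) :=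
    h4 T hT _ _ _ (colim_uF_REXT h3 h4 h5 h6 T hT α hF hG hα)
  have hsq : IsPushout (colimMap (i1 F)) (colimMap α) (colimMap (pushout.inl (i1 F) α))
      (colimMap (pushout.inr (i1 F) α)) :=
    (IsPushout.of_hasPushout (i1 F) α).map (colim : (ℕ ⥤ SSet.{0}) ⥤ SSet.{0})
  have hcomp : ∀ {A B C : ℕ ⥤ SSet.{0}} (x : A ⟶ B) (y : B ⟶ C),
      colimMap (x ≫ y) = colimMap x ≫ colimMap y := fun x y =>
    (colim : (ℕ ⥤ SSet.{0}) ⥤ SSet.{0}).map_comp x y
  have hr : W T (colimMap (rF α)) := by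
    have := mono_colim_i1 F
    apply W_cyl h3 h4 h5 h6 T hT (colimMap (i1 F)) (W_colim_i1 h3 T hT F) _ _ _ hsq
    rw [← hcomp, inr_rF]
    exact (colim : (ℕ ⥤ SSet.{0}) ⥤ SSet.{0}).map_id G
  obtain ⟨a1, a2, a3, a4, a5, a6, a7⟩ := h3 T hT
  have h := a2 _ _ _ _ _ hu hr
  rw [← hcomp, uF_rF] at h
  exact h

end Pool.Agent.SH.TeSeq

namespace Pool.Agent.SH

set_option linter.unusedVariables false in
theorem te_seq (h1 : TE_HTY_Stmt) (h3 : TE_23_Stmt) (h4 : TE_KEYE_Stmt) (h5 : TE_KEY_Stmt)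
    (h6 : TE_RPUSH_Stmt) (h7 : TE_GLUE_Stmt) : TE_SEQ_Stmt := by
  intro T hT F G α cF cG hcF hcG hF hG hα f hf
  have hW := TeSeq.W_colim h3 h4 h5 h6 T hT α hF hG hα
  let e1 : cF.pt ≅ colimit F := hcF.coconePointUniqueUpToIso (colimit.isColimit F)
  let e2 : cG.pt ≅ colimit G := hcG.coconePointUniqueUpToIso (colimit.isColimit G)
  have he1 : ∀ n, cF.ι.app n ≫ e1.hom = colimit.ι F n := fun n =>
    IsColimit.comp_coconePointUniqueUpToIso_hom _ _ n
  have he2 : ∀ n, cG.ι.app n ≫ e2.hom = colimit.ι G n := fun n =>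
    IsColimit.comp_coconePointUniqueUpToIso_hom _ _ n
  have hfe : f = e1.hom ≫ colimMap α ≫ e2.inv := by
    apply hcF.hom_ext
    intro n
    rw [hf n, ← Category.assoc, he1 n, ← Category.assoc, ι_colimMap, Category.assoc, ← he2 n,
      Category.assoc, Iso.hom_inv_id, Category.comp_id]
  obtain ⟨a1, a2, a3, a4, a5, a6, a7⟩ := h3 T hT
  rw [hfe]
  exact a2 _ _ _ _ _ (a1 _ _ _ inferInstance) (a2 _ _ _ _ _ hW (a1 _ _ _ inferInstance))

end Pool.Agent.SH


end

section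

/-!
# MP_2d0b73_an, block TE: fibrations bijective on homotopy classes are trivial fibrations
-/

open CategoryTheory MonoidalCategory Simplicial SSet HomotopicalAlgebra Opposite Limits
open SSet.modelCategoryQuillen

namespace Pool.Agent.SH

namespace TeTriv

set_option maxHeartbeats 400000

/-- Lifting against the pushout product of a monomorphism and an anodyne map. -/
lemma rel_lift {A X E B C D : SSet.{0}} (i : A ⟶ X) [Mono i] (p : E ⟶ B)
    (hp : HomotopicalAlgebra.Fibration p) (a : C ⟶ D) (ha : anodyneExtensions a)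
    (f : X ⊗ C ⟶ E) (h : A ⊗ D ⟶ E) (l : X ⊗ D ⟶ B)
    (h1 : i ▷ C ≫ f = A ◁ a ≫ h) (h2 : X ◁ a ≫ l = f ≫ p) (h3 : i ▷ D ≫ l = h ≫ p) :
    ∃ H : X ⊗ D ⟶ E, X ◁ a ≫ H = f ∧ i ▷ D ≫ H = h ∧ H ≫ p = l := by
  let sq := Functor.PushoutObjObj.ofHasPushout (curriedTensor SSet.{0}) i a
  have hι : anodyneExtensions sq.ι := anodyneExtensions_pushoutObjObjι sq ha
  have hl : HasLiftingProperty sq.ι p := by
    apply hι
    rw [← HomotopicalAlgebra.fibration_iff]
    exact hp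
  have e1 : sq.inl ≫ sq.isPushout.desc f h h1 = f := sq.isPushout.inl_desc _ _ _
  have e2 : sq.inr ≫ sq.isPushout.desc f h h1 = h := sq.isPushout.inr_desc _ _ _
  have e3 : sq.inl ≫ sq.ι = X ◁ a := sq.inl_ι
  have e4 : sq.inr ≫ sq.ι = i ▷ D := sq.inr_ι
  have hsq : CommSq (sq.isPushout.desc f h h1) sq.ι p l := by
    refine ⟨sq.hom_ext ?_ ?_⟩
    · rw [← Category.assoc, ← Category.assoc, e1, e3, h2]
    · rw [← Category.assoc, ← Category.assoc, e2, e4, h3]
  refine ⟨hsq.lift, ?_, ?_, hsq.fac_right⟩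
  · rw [← e3, Category.assoc, hsq.fac_left, e1]
  · rw [← e4, Category.assoc, hsq.fac_left, e2]

/-- The horn `Λ[1, 0]` is the vertex `0`. -/
lemma fst_ι₀ (A : SSet.{0}) :
    CartesianMonoidalCategory.fst A (Λ[1, 0] : SSet.{0}) ≫ ι₀ =
      A ◁ (Λ[1, 0] : (Δ[1] : SSet.{0}).Subcomplex).ι := by
  refine CartesianMonoidalCategory.hom_ext _ _ rfl ?_
  ext ⟨m⟩ ⟨x, s, hs⟩
  induction m using SimplexCategory.rec with | _ m
  ext k
  have h1 := (mem_horn_iff_notMem_range (n := 1) s 0).1 hs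
  obtain ⟨j, hj, hj'⟩ := h1
  have hj1 : j = 1 := by
    fin_cases j
    · exact absurd rfl hj
    · rfl
  subst hj1
  have h2 : s k ≠ 1 := fun h => hj' ⟨k, h⟩
  have h3 : s k = 0 := by
    generalize s k = t at h2
    fin_cases t
    · rfl
    · exact absurd rfl h2
  show _ = ((s k : Fin 2) : ℕ)
  rw [h3]
  rfl

/-- The vertex `0` of the horn. -/
noncomputable def v0 : (Λ[1, 0] : SSet.{0}) _⦋0⦌ :=
  ⟨stdSimplex.obj₀Equiv.{0}.symm 0, by
    rw [mem_horn_iff_notMem_range]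
    refine ⟨1, by decide, ?_⟩
    rintro ⟨k, hk⟩
    have h0 : (stdSimplex.obj₀Equiv.{0}.symm 0 : Δ[1] _⦋0⦌) k = 0 := rfl
    rw [h0] at hk
    exact absurd hk (by decide)⟩

/-- The map `X ⟶ X ⊗ Λ[1, 0]`. -/
noncomputable def ιh (X : SSet.{0}) : X ⟶ X ⊗ (Λ[1, 0] : SSet.{0}) :=
  CartesianMonoidalCategory.lift (𝟙 X) (SSet.const v0)

lemma ιh_fst (X : SSet.{0}) : ιh X ≫ CartesianMonoidalCategory.fst X _ = 𝟙 X :=
  CartesianMonoidalCategory.lift_fst _ _

lemma ιh_ι₀ (X : SSet.{0}) :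
    ιh X ≫ X ◁ (Λ[1, 0] : (Δ[1] : SSet.{0}).Subcomplex).ι = ι₀ := by
  rw [← fst_ι₀, ← Category.assoc, ιh_fst, Category.id_comp]

/-- Relative homotopy lifting. -/
lemma rel0 {A X E B : SSet.{0}} (i : A ⟶ X) [Mono i] (p : E ⟶ B)
    (hp : HomotopicalAlgebra.Fibration p) (f : X ⟶ E) (h : A ⊗ Δ[1] ⟶ E) (l : X ⊗ Δ[1] ⟶ B)
    (h1 : ι₀ ≫ h = i ≫ f) (h2 : ι₀ ≫ l = f ≫ p) (h3 : i ▷ Δ[1] ≫ l = h ≫ p) :
    ∃ H : X ⊗ Δ[1] ⟶ E, ι₀ ≫ H = f ∧ i ▷ Δ[1] ≫ H = h ∧ H ≫ p = l := by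
  have k1 : i ▷ (Λ[1, 0] : SSet.{0}) ≫ CartesianMonoidalCategory.fst X _ ≫ f =
      A ◁ (Λ[1, 0] : (Δ[1] : SSet.{0}).Subcomplex).ι ≫ h := by
    rw [← fst_ι₀, Category.assoc, h1]
    rfl
  have k2 : X ◁ (Λ[1, 0] : (Δ[1] : SSet.{0}).Subcomplex).ι ≫ l =
      (CartesianMonoidalCategory.fst X _ ≫ f) ≫ p := by
    rw [← fst_ι₀, Category.assoc, h2, Category.assoc]
  obtain ⟨H, e1, e2, e3⟩ := rel_lift i p hp (Λ[1, 0] : (Δ[1] : SSet.{0}).Subcomplex).ι
    (anodyneExtensions.horn_ι 0) (CartesianMonoidalCategory.fst X _ ≫ f) h l k1 k2 h3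
  refine ⟨H, ?_, e2, e3⟩
  rw [← ιh_ι₀, Category.assoc, e1, ← Category.assoc, ιh_fst, Category.id_comp]

/-- Homotopy lifting. -/
lemma lift0 {X E B : SSet.{0}} (p : E ⟶ B) (hp : HomotopicalAlgebra.Fibration p)
    (f : X ⟶ E) (l : X ⊗ Δ[1] ⟶ B) (h2 : ι₀ ≫ l = f ≫ p) :
    ∃ H : X ⊗ Δ[1] ⟶ E, ι₀ ≫ H = f ∧ H ≫ p = l := by
  have ha : anodyneExtensions (X ◁ (Λ[1, 0] : (Δ[1] : SSet.{0}).Subcomplex).ι) :=
    (anodyneExtensions.horn_ι 0).whiskerLeft X
  have hl : HasLiftingProperty (X ◁ (Λ[1, 0] : (Δ[1] : SSet.{0}).Subcomplex).ι) p := by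
    apply ha
    rw [← HomotopicalAlgebra.fibration_iff]
    exact hp
  have hsq : CommSq (CartesianMonoidalCategory.fst X _ ≫ f)
      (X ◁ (Λ[1, 0] : (Δ[1] : SSet.{0}).Subcomplex).ι) p l := by
    refine ⟨?_⟩
    rw [← fst_ι₀, Category.assoc, Category.assoc, h2]
  refine ⟨hsq.lift, ?_, hsq.fac_right⟩
  rw [← ιh_ι₀, Category.assoc, hsq.fac_left, ← Category.assoc, ιh_fst, Category.id_comp]

/-! ### The two points -/

/-- The two ends of `Δ[1]`, as a discrete simplicial set. -/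
def Two : SSet.{0} := (Functor.const _).obj Bool

/-- The inclusion of the two ends. -/
noncomputable def cTwo : Two ⟶ Δ[1] where
  app n := ↾fun b => cond b ((SSet.const (X := Δ[0]) (stdSimplex.obj₀Equiv.{0}.symm 1)).app n
      (stdSimplex.objEquiv.symm (SimplexCategory.const n.unop ⦋0⦌ 0)))
    ((SSet.const (X := Δ[0]) (stdSimplex.obj₀Equiv.{0}.symm 0)).app n
      (stdSimplex.objEquiv.symm (SimplexCategory.const n.unop ⦋0⦌ 0)))
  naturality := by
    intro m n f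
    ext b
    cases b <;> rfl

lemma cTwo_app (n : SimplexCategoryᵒᵖ) (b : Bool) :
    cTwo.app n b = cond b ((ι₁ (X := Two)).app n b).2 ((ι₀ (X := Two)).app n b).2 := by
  cases b <;> rfl

instance : Mono cTwo := by
  have h : ∀ n : SimplexCategoryᵒᵖ, Mono (cTwo.app n) := by
    intro ⟨n⟩
    induction n using SimplexCategory.rec with | _ n
    rw [mono_iff_injective]
    intro b b' hb
    have h1 : ∀ c : Bool, (cTwo.app (op ⦋n⦌) c : Δ[1] _⦋n⦌) 0 = cond c 1 0 := by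
      intro c
      cases c <;> rfl
    have h2 := congrArg (fun s : Δ[1] _⦋n⦌ => s 0) hb
    simp only [h1] at h2
    cases b <;> cases b' <;> first | rfl | exact absurd h2 (by decide)
  exact NatTrans.mono_of_mono_app _

instance (E : SSet.{0}) : Mono (E ◁ cTwo) := by
  refine ⟨fun {Z} f g h => CartesianMonoidalCategory.hom_ext _ _ ?_ ?_⟩
  · exact congrArg (fun k => k ≫ CartesianMonoidalCategory.fst E Δ[1]) h
  · rw [← cancel_mono cTwo]
    exact congrArg (fun k => k ≫ CartesianMonoidalCategory.snd E Δ[1]) h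

/-- A map out of `(E ⊗ Two) ⊗ D`. -/
def two {E D F : SSet.{0}} (g : Bool → (E ⊗ D ⟶ F)) : (E ⊗ Two) ⊗ D ⟶ F where
  app n := ↾fun x => (g x.1.2).app n (x.1.1, x.2)
  naturality := by
    intro m n f
    ext x
    exact ConcreteCategory.congr_hom ((g x.1.2).naturality f) ((x.1.1, x.2) : (E ⊗ D).obj m)

/-- The inclusion of a point. -/
def tp (b : Bool) (E : SSet.{0}) : E ⟶ E ⊗ Two where
  app n := ↾fun x => (x, b)
  naturality := by
    intro m n f
    rfl

lemma tp_two {E D F : SSet.{0}} (g : Bool → (E ⊗ D ⟶ F)) (b : Bool) :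
    tp b E ▷ D ≫ two g = g b := rfl

lemma tp_c0 (E : SSet.{0}) : tp false E ≫ E ◁ cTwo = ι₀ := rfl

lemma tp_c1 (E : SSet.{0}) : tp true E ≫ E ◁ cTwo = ι₁ := rfl

/-- Maps out of `E ⊗ Two`. -/
lemma two_ext {E F : SSet.{0}} {f g : E ⊗ Two ⟶ F} (h : ∀ b, tp b E ≫ f = tp b E ≫ g) :
    f = g := by
  ext n ⟨x, b⟩
  exact congrArg (fun k : E ⟶ F => k.app n x) (h b)

/-- Maps out of `(E ⊗ Two) ⊗ D`. -/
lemma two_ext' {E D F : SSet.{0}} {f g : (E ⊗ Two) ⊗ D ⟶ F}
    (h : ∀ b, tp b E ▷ D ≫ f = tp b E ▷ D ≫ g) : f = g := by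
  ext n ⟨⟨x, b⟩, y⟩
  exact congrArg (fun k : E ⊗ D ⟶ F => k.app n (x, y)) (h b)

end TeTriv

theorem te_triv (_ : TE_HTY_Stmt) (_ : TE_HEP_Stmt) : TE_TRIV_Stmt := by
  intro E B p hB hp hs hi K L j hj
  -- a strict section
  obtain ⟨s0, H0⟩ := hs B (𝟙 B)
  obtain ⟨h, hh0, hh1⟩ := (Hty_iff _ _).1 H0
  obtain ⟨H, e0, e1⟩ := TeTriv.lift0 p hp s0 h hh0
  obtain ⟨s, hsdef⟩ : ∃ s : B ⟶ E, s = ι₁ ≫ H := ⟨_, rfl⟩
  have sp : s ≫ p = 𝟙 B := by rw [hsdef, Category.assoc, e1, hh1]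
  -- a homotopy from `p ≫ s` to the identity
  have hG : Hty (p ≫ s) (𝟙 E) := by
    refine hi E _ _ ?_
    rw [Category.assoc, sp, Category.comp_id, Category.id_comp]
    exact Hty.refl p
  obtain ⟨G, g0, g1⟩ := (Hty_iff _ _).1 hG
  -- the fibrewise homotopy
  have k1 : ι₀ ≫ TeTriv.two (fun b => cond b G (G ≫ p ≫ s)) =
      E ◁ TeTriv.cTwo ≫ CartesianMonoidalCategory.fst E Δ[1] ≫ p ≫ s := by
    refine TeTriv.two_ext fun b => ?_
    have e : TeTriv.tp b E ≫ ι₀ = ι₀ ≫ TeTriv.tp b E ▷ Δ[1] := rfl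
    have e' : TeTriv.tp b E ≫ E ◁ TeTriv.cTwo ≫ CartesianMonoidalCategory.fst E Δ[1] ≫ p ≫ s =
      p ≫ s := rfl
    rw [e', ← Category.assoc, e, Category.assoc, TeTriv.tp_two]
    cases b
    · show ι₀ ≫ G ≫ p ≫ s = p ≫ s
      rw [← Category.assoc, g0, Category.assoc, ← Category.assoc s, sp, Category.id_comp]
    · exact g0
  have k2 : ι₀ ≫ CartesianMonoidalCategory.fst E Δ[1] ▷ Δ[1] ≫ G ≫ p =
      (CartesianMonoidalCategory.fst E Δ[1] ≫ p ≫ s) ≫ p := by
    rw [← Category.assoc, ι₀_comp, Category.assoc, ← Category.assoc ι₀, g0]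
    simp only [Category.assoc, sp, Category.comp_id]
  have k3 : (E ◁ TeTriv.cTwo) ▷ Δ[1] ≫ CartesianMonoidalCategory.fst E Δ[1] ▷ Δ[1] ≫ G ≫ p =
      TeTriv.two (fun b => cond b G (G ≫ p ≫ s)) ≫ p := by
    refine TeTriv.two_ext' fun b => ?_
    have e : TeTriv.tp b E ▷ Δ[1] ≫ (E ◁ TeTriv.cTwo) ▷ Δ[1] ≫
      CartesianMonoidalCategory.fst E Δ[1] ▷ Δ[1] ≫ G ≫ p = G ≫ p := rfl
    rw [e, ← Category.assoc, TeTriv.tp_two]
    cases b
    · show G ≫ p = (G ≫ p ≫ s) ≫ p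
      simp only [Category.assoc, sp, Category.comp_id]
    · rfl
  obtain ⟨T, t1, t2, t3⟩ := TeTriv.rel0 (E ◁ TeTriv.cTwo) p hp _ _ _ k1 k2 k3
  obtain ⟨G2, hG2⟩ : ∃ G2 : E ⊗ Δ[1] ⟶ E, G2 = ι₁ ≫ T := ⟨_, rfl⟩
  have a : ∀ b : Bool, TeTriv.tp b E ≫ (E ◁ TeTriv.cTwo) ≫ G2 =
      ι₁ ≫ (cond b G (G ≫ p ≫ s) : E ⊗ Δ[1] ⟶ E) := by
    intro b
    have e : TeTriv.tp b E ≫ (E ◁ TeTriv.cTwo) ≫ ι₁ = ι₁ ≫ TeTriv.tp b E ▷ Δ[1] ≫ (E ◁ TeTriv.cTwo) ▷ Δ[1] :=
      rfl
    rw [hG2, ← Category.assoc (E ◁ TeTriv.cTwo), ← Category.assoc, e, Category.assoc,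
      Category.assoc, t2, TeTriv.tp_two]
  have a0 : ι₀ ≫ G2 = p ≫ s := by
    have h0 := a false
    rw [← Category.assoc, TeTriv.tp_c0] at h0
    rw [h0]
    show ι₁ ≫ G ≫ p ≫ s = p ≫ s
    rw [← Category.assoc, g1, Category.id_comp]
  have a1 : ι₁ ≫ G2 = 𝟙 E := by
    have h0 := a true
    rw [← Category.assoc, TeTriv.tp_c1] at h0
    rw [h0]
    exact g1
  have a2 : G2 ≫ p = CartesianMonoidalCategory.fst E Δ[1] ≫ p := by
    rw [hG2, Category.assoc, t3, ← Category.assoc, ι₁_comp, Category.assoc,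
      ← Category.assoc ι₁, g1, Category.id_comp]
  refine ⟨fun {k l} sq => ?_⟩
  have w := sq.w
  obtain ⟨D, d1, d2, d3⟩ := TeTriv.rel0 j p hp (l ≫ s) (k ▷ Δ[1] ≫ G2)
    (CartesianMonoidalCategory.fst L Δ[1] ≫ l) (by
      rw [← Category.assoc, ι₀_comp, Category.assoc, a0, ← Category.assoc, w, Category.assoc])
    (by
      rw [← Category.assoc, ι₀_fst, Category.id_comp, Category.assoc, sp, Category.comp_id])
    (by
      rw [Category.assoc, a2]
      have e : k ▷ Δ[1] ≫ CartesianMonoidalCategory.fst E Δ[1] ≫ p =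
        CartesianMonoidalCategory.fst K Δ[1] ≫ k ≫ p := rfl
      rw [e, w]
      rfl)
  refine ⟨⟨⟨ι₁ ≫ D, ?_, ?_⟩⟩⟩
  · rw [← Category.assoc, ← ι₁_comp, Category.assoc, d2, ← Category.assoc, ι₁_comp,
      Category.assoc, a1, Category.comp_id]
  · rw [Category.assoc, d3, ← Category.assoc, ι₁_fst, Category.id_comp]

end Pool.Agent.SH


end

section

/-!
# MP_2d0b73_an, block TE: cell form of the fibre lemma and open fibres (C12), (C13)
-/

open CategoryTheory MonoidalCategory Simplicial SSet HomotopicalAlgebra Opposite Limits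
open SSet.modelCategoryQuillen

namespace Pool.Agent.SH

namespace WcCell

/-- Cell data for a map `p : E ⟶ B` in dimension `d`. -/
structure CD {E B : SSet.{0}} (p : E ⟶ B) (d : ℕ) where
  C : E.Subcomplex
  D : E.Subcomplex
  hC : ∀ (n : SimplexCategoryᵒᵖ) (e : E.obj n),
    e ∈ C.obj n ↔ p.app n e ∈ (B.skeleton d).obj n
  hD : ∀ (n : SimplexCategoryᵒᵖ) (e : E.obj n),
    e ∈ D.obj n ↔ p.app n e ∈ (B.skeleton (d + 1)).obj n
  E' : B.nonDegenerate d → SSet.{0}
  q : ∀ b, E' b ⟶ Δ[d]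
  φ : ∀ b, E' b ⟶ E
  hφ : ∀ b, φ b ≫ p = q b ≫ yonedaEquiv.symm b.1
  hu : ∀ (b : B.nonDegenerate d) (m : ℕ) (a : ⦋m⦌ ⟶ ⦋d⦌), Epi a → ∀ e : E _⦋m⦌,
    p.app _ e = B.map a.op b.1 →
      ∃! e' : (E' b) _⦋m⦌, (φ b).app _ e' = e ∧ (q b).app _ e' = stdSimplex.objEquiv.symm a
  A : ∀ b, (E' b).Subcomplex
  hA : ∀ b (n : SimplexCategoryᵒᵖ) (e : (E' b).obj n),
    e ∈ (A b).obj n ↔ (q b).app n e ∈ (∂Δ[d] : (Δ[d] : SSet.{0}).Subcomplex).obj n

theorem preimage_yoneda {B : SSet.{0}} {d : ℕ} (b : B.nonDegenerate d) :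
    (B.skeleton d).preimage (SSet.yonedaEquiv.symm b.1) = ∂Δ[d] := by
  rw [stdSimplex.eq_boundary_iff]
  refine ⟨?_, fun h ↦ ?_⟩
  · rw [Subcomplex.le_iff_contains_nonDegenerate]
    rintro n ⟨y, hy₁⟩ hy₂
    have : n < d := dim_lt_of_nonDegenerate (X := ∂Δ[d])
      ⟨⟨y, hy₂⟩, (Subcomplex.mem_nonDegenerate_iff _ _).2 hy₁⟩ d
    rw [Subcomplex.preimage_obj, skeleton_obj_eq_top B this]
    exact Set.mem_univ _
  · have h1 := h.symm.le _ (show stdSimplex.objEquiv.symm (𝟙 ⦋d⦌) ∈ _ by simp)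
    have h2 : b.1 ∈ (B.skeleton d).obj _ := by
      simpa using h1
    rw [mem_skeleton_obj_iff_of_nonDegenerate] at h2
    exact lt_irrefl _ h2

namespace CD

variable {E B : SSet.{0}} {p : E ⟶ B} {d : ℕ} (X : CD p d)

theorem hCD : X.C ≤ X.D := by
  intro n e he
  rw [X.hD]
  rw [X.hC] at he
  exact B.skeleton.monotone (Nat.le_succ d) _ he

theorem hφapp (b : B.nonDegenerate d) (n : SimplexCategoryᵒᵖ) (e : (X.E' b).obj n) :
    p.app n ((X.φ b).app n e) = (SSet.yonedaEquiv.symm b.1 : Δ[d] ⟶ B).app n ((X.q b).app n e) :=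
  congr($(X.hφ b).app n e)

theorem mem_A_iff (b : B.nonDegenerate d) (n : SimplexCategoryᵒᵖ) (e : (X.E' b).obj n) :
    e ∈ (X.A b).obj n ↔ (X.φ b).app n e ∈ X.C.obj n := by
  rw [X.hA, X.hC, X.hφapp, ← preimage_yoneda b]
  rfl

theorem rangeA (b : B.nonDegenerate d) :
    Subcomplex.range ((X.A b).ι ≫ X.φ b) ≤ X.C := by
  rintro n _ ⟨e, rfl⟩
  exact (X.mem_A_iff b n e.1).1 e.2

theorem rangeE (b : B.nonDegenerate d) :
    Subcomplex.range (X.φ b) ≤ X.D := by
  rintro n _ ⟨e, rfl⟩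
  rw [X.hD, X.hφapp]
  have h1 : Subcomplex.range (SSet.yonedaEquiv.symm b.1 : Δ[d] ⟶ B) ≤ B.skeleton (d + 1) := by
    rw [Subcomplex.range_eq_ofSimplex]
    simpa using B.ofSimplex_le_skeleton b.1 (Nat.lt_succ_self d)
  exact h1 _ ⟨_, rfl⟩

/-- coproduct of the `E' b`. -/
noncomputable abbrev sE : SSet.{0} := ∐ fun b : B.nonDegenerate d => X.E' b

/-- coproduct of the `A b`. -/
noncomputable abbrev sA : SSet.{0} := ∐ fun b : B.nonDegenerate d => (X.A b : SSet.{0})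

noncomputable abbrev ιE (b : B.nonDegenerate d) : X.E' b ⟶ X.sE :=
  Sigma.ι (fun b : B.nonDegenerate d => X.E' b) b

noncomputable abbrev ιA (b : B.nonDegenerate d) : (X.A b : SSet.{0}) ⟶ X.sA :=
  Sigma.ι (fun b : B.nonDegenerate d => (X.A b : SSet.{0})) b

/-- left map. -/
noncomputable abbrev l : X.sA ⟶ X.sE := Limits.Sigma.map (fun b => (X.A b).ι)

/-- top map. -/
noncomputable abbrev t : X.sA ⟶ (X.C : SSet.{0}) :=
  Sigma.desc (fun b => Subcomplex.lift ((X.A b).ι ≫ X.φ b) (X.rangeA b))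

/-- bottom map. -/
noncomputable abbrev bb : X.sE ⟶ (X.D : SSet.{0}) :=
  Sigma.desc (fun b => Subcomplex.lift (X.φ b) (X.rangeE b))

/-- right map. -/
abbrev r : (X.C : SSet.{0}) ⟶ (X.D : SSet.{0}) := Subcomplex.homOfLE X.hCD

theorem ι_l (b : B.nonDegenerate d) : X.ιA b ≫ X.l = (X.A b).ι ≫ X.ιE b := by
  simp

theorem ι_bb_ι (b : B.nonDegenerate d) : X.ιE b ≫ X.bb ≫ X.D.ι = X.φ b := by
  simp

theorem ι_t_ι (b : B.nonDegenerate d) : X.ιA b ≫ X.t ≫ X.C.ι = (X.A b).ι ≫ X.φ b := by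
  simp

theorem w : X.t ≫ X.r = X.l ≫ X.bb := by
  ext c : 1
  rw [← cancel_mono X.D.ι, Category.assoc, Category.assoc, Category.assoc, Category.assoc,
    Subcomplex.homOfLE_ι, X.ι_t_ι, ← Category.assoc, X.ι_l, Category.assoc, X.ι_bb_ι]

theorem jointly_surjective {n : SimplexCategoryᵒᵖ} (a : X.sE.obj n) :
    ∃ (b : B.nonDegenerate d) (x : (X.E' b).obj n), (X.ιE b).app n x = a :=
  Cofan.inj_jointly_surjective_of_isColimit
    (isColimitCofanMkObjOfIsColimit ((CategoryTheory.evaluation _ _).obj _) _ _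
      (coproductIsCoproduct _)) a

theorem bb_app (b : B.nonDegenerate d) (n : SimplexCategoryᵒᵖ) (x : (X.E' b).obj n) :
    (X.bb.app n ((X.ιE b).app n x)).1 = (X.φ b).app n x :=
  congr($(X.ι_bb_ι b).app n x)

instance : Mono X.l := by
  unfold l
  infer_instance

set_option backward.isDefEq.respectTransparency.types false in
set_option backward.defeqAttrib.useBackward true in
theorem isPullback : IsPullback X.t X.l X.r X.bb where
  w := X.w
  isLimit' := ⟨evaluationJointlyReflectsLimits _ (fun ⟨⟨n⟩⟩ ↦ by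
    refine (isLimitMapConePullbackConeEquiv _ _).2
      (IsPullback.isLimit ?_)
    dsimp
    rw [Types.isPullback_iff]
    refine ⟨NatTrans.congr_app X.w _,
      fun x₁ x₂ ⟨_, h⟩ ↦ injective_of_mono (X.l.app (op ⦋n⦌)) h,
      fun ⟨x, hx⟩ y h ↦ ?_⟩
    rw [Subtype.ext_iff] at h
    obtain ⟨c, y, rfl⟩ := X.jointly_surjective y
    have h' : x = (X.φ c).app (op ⦋n⦌) y := by
      rw [← X.bb_app c (op ⦋n⦌) y]
      exact h
    subst h'
    refine ⟨(X.ιA c).app (op ⦋n⦌) ⟨y, (X.mem_A_iff c _ y).2 hx⟩, ?_, ?_⟩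
    · rw [Subtype.ext_iff]
      exact congr($(X.ι_t_ι c).app _ ⟨y, _⟩)
    · exact congr($(X.ι_l c).app _ ⟨y, _⟩))⟩

theorem exists_lift (n : ℕ) (x : E _⦋n⦌) (hx : x ∈ X.D.obj (op ⦋n⦌)) (hx' : x ∉ X.C.obj (op ⦋n⦌)) :
    ∃ (b : B.nonDegenerate d) (y : (X.E' b) _⦋n⦌), (X.φ b).app _ y = x := by
  rw [X.hD, skeleton_succ] at hx
  rw [X.hC] at hx'
  simp only [Subfunctor.max_obj, Subfunctor.iSup_obj, Set.mem_union, Set.mem_iUnion] at hx
  rcases hx with hx | ⟨b, hb⟩
  · exact absurd hx hx'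
  · obtain ⟨f, hf⟩ := hb
    by_cases he : Epi f.unop
    · obtain ⟨e', ⟨h1, h2⟩, -⟩ := X.hu b n f.unop he x hf.symm
      exact ⟨b, e', h1⟩
    · exfalso
      apply hx'
      have h3 : (stdSimplex.objEquiv.symm f.unop : Δ[d] _⦋n⦌) ∈
          (∂Δ[d] : (Δ[d] : SSet.{0}).Subcomplex).obj (op ⦋n⦌) := by
        rw [SimplexCategory.epi_iff_surjective] at he
        exact he
      rw [← preimage_yoneda b] at h3
      rw [← hf]
      exact h3

theorem union_range (n : ℕ) :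
    Set.range (X.r.app (op ⦋n⦌)) ∪ Set.range (X.bb.app (op ⦋n⦌)) = Set.univ := by
  rw [Set.eq_univ_iff_forall]
  rintro ⟨x, hx⟩
  by_cases h : x ∈ X.C.obj (op ⦋n⦌)
  · exact Or.inl ⟨⟨x, h⟩, rfl⟩
  · obtain ⟨b, y, rfl⟩ := X.exists_lift n x hx h
    exact Or.inr ⟨(X.ιE b).app _ y, Subtype.ext (X.bb_app b _ y)⟩

theorem aux {n : ℕ} (y : X.sE _⦋n⦌) (hy : y ∉ Set.range (X.l.app (op ⦋n⦌))) :
    ∃ (b : B.nonDegenerate d) (f : ⦋n⦌ ⟶ ⦋d⦌) (_ : Epi f) (e : (X.E' b) _⦋n⦌),
      (X.q b).app _ e = stdSimplex.objEquiv.symm f ∧ (X.ιE b).app _ e = y := by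
  obtain ⟨b, e, rfl⟩ := X.jointly_surjective y
  have hs : e ∉ (X.A b).obj _ :=
    fun hs ↦ hy (⟨(X.ιA b).app _ ⟨e, hs⟩, congr($(X.ι_l b).app _ ⟨e, _⟩)⟩)
  rw [X.hA] at hs
  refine ⟨b, stdSimplex.objEquiv ((X.q b).app _ e), ?_, e, by simp, rfl⟩
  simpa [SimplexCategory.epi_iff_surjective, boundary] using! hs

set_option backward.defeqAttrib.useBackward true in
theorem isPushout : IsPushout X.t X.l X.r X.bb where
  w := X.w
  isColimit' := ⟨evaluationJointlyReflectsColimits _ (fun ⟨⟨n⟩⟩ ↦ by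
    refine (isColimitMapCoconePushoutCoconeEquiv _ _).2
      (IsPushout.isColimit ?_)
    refine Types.isPushout_of_isPullback_of_mono' ?_ ?_ ?_
    · exact (X.isPullback).map ((evaluation _ _).obj _)
    · exact X.union_range _
    · dsimp
      intro x₁ x₂ hx₁ hx₂ h
      obtain ⟨c₁, f₁, _, e₁, h₁, rfl⟩ := X.aux x₁ hx₁
      obtain ⟨c₂, f₂, _, e₂, h₂, rfl⟩ := X.aux x₂ hx₂
      rw [Subtype.ext_iff] at h
      replace h : (X.φ c₁).app _ e₁ = (X.φ c₂).app _ e₂ := by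
        rwa [← X.bb_app c₁ _ e₁, ← X.bb_app c₂ _ e₂]
      have g₁ : p.app _ ((X.φ c₁).app _ e₁) = B.map f₁.op c₁.1 := by
        rw [X.hφapp, h₁]
        rfl
      have g₂ : p.app _ ((X.φ c₂).app _ e₂) = B.map f₂.op c₂.1 := by
        rw [X.hφapp, h₂]
        rfl
      have h3 : B.map f₁.op c₁.1 = B.map f₂.op c₂.1 := by
        rw [← g₁, ← g₂, h]
      obtain rfl : c₁ = c₂ :=
        B.unique_nonDegenerate_simplex _ f₁ c₁ rfl f₂ c₂ h3
      obtain rfl : f₁ = f₂ :=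
        B.unique_nonDegenerate_map _ f₁ c₁ rfl f₂ c₁ h3
      have := (X.hu c₁ n f₁ inferInstance _ g₁).unique ⟨rfl, h₁⟩ ⟨h.symm, h₂⟩
      rw [this])⟩

end CD

/-- The data for the identity of `B`. -/
noncomputable def base (B : SSet.{0}) (d : ℕ) : CD (𝟙 B) d where
  C := B.skeleton d
  D := B.skeleton (d + 1)
  hC := fun _ _ => Iff.rfl
  hD := fun _ _ => Iff.rfl
  E' := fun _ => Δ[d]
  q := fun _ => 𝟙 _
  φ := fun b => SSet.yonedaEquiv.symm b.1
  hφ := fun b => by rw [Category.comp_id, Category.id_comp]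
  hu := by
    intro b m a ha e he
    refine ⟨stdSimplex.objEquiv.symm a, ⟨?_, rfl⟩, fun e' he' => he'.2⟩
    exact he.symm
  A := fun _ => ∂Δ[d]
  hA := fun _ _ _ => Iff.rfl

theorem glueStep {P : MorphismProperty SSet.{0}} (hP : WClass P) {E E₂ B : SSet.{0}}
    {p : E ⟶ B} {p₂ : E₂ ⟶ B} {d : ℕ} (X : CD p d) (Y : CD p₂ d) (m : E ⟶ E₂)
    (b' : ∀ b, X.E' b ⟶ Y.E' b) (hb' : ∀ b, b' b ≫ Y.φ b = X.φ b ≫ m)
    (a' : ∀ b, (X.A b : SSet.{0}) ⟶ (Y.A b : SSet.{0}))
    (ha' : ∀ b, a' b ≫ (Y.A b).ι = (X.A b).ι ≫ b' b)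
    (c : (X.C : SSet.{0}) ⟶ (Y.C : SSet.{0})) (hc : c ≫ Y.C.ι = X.C.ι ≫ m)
    (g : (X.D : SSet.{0}) ⟶ (Y.D : SSet.{0})) (hg : g ≫ Y.D.ι = X.D.ι ≫ m)
    (h1 : ∀ b, P (a' b)) (h2 : ∀ b, P (b' b)) (h3 : P c) : P g := by
  have hι : ∀ j, X.ιA j ≫ Limits.Sigma.map a' = a' j ≫ Y.ιA j := fun j => by
    simp
  have hιE : ∀ j, X.ιE j ≫ Limits.Sigma.map b' = b' j ≫ Y.ιE j := fun j => by
    simp
  refine hP.glue X.l X.t X.bb X.r Y.l Y.t Y.bb Y.r (Limits.Sigma.map a') (Limits.Sigma.map b')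
    c g X.isPushout.flip Y.isPushout.flip
    inferInstance inferInstance ?_ ?_ ?_ ?_ (hP.copr _ _ _ _ h1)
    (hP.copr _ _ _ _ h2) h3
  · apply Limits.Sigma.hom_ext
    intro j
    change X.ιA j ≫ X.l ≫ Limits.Sigma.map b' = X.ιA j ≫ Limits.Sigma.map a' ≫ Y.l
    rw [← Category.assoc, X.ι_l, Category.assoc, hιE, ← Category.assoc (X.ιA j), hι,
      Category.assoc, Y.ι_l, ← Category.assoc, ← Category.assoc, ha']
  · apply Limits.Sigma.hom_ext
    intro j
    change X.ιA j ≫ X.t ≫ c = X.ιA j ≫ Limits.Sigma.map a' ≫ Y.t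
    rw [← cancel_mono Y.C.ι]
    simp only [Category.assoc]
    rw [hc, ← Category.assoc (X.ιA j) (Limits.Sigma.map a'), hι, Category.assoc, Y.ι_t_ι,
      ← Category.assoc (X.t),
      ← Category.assoc (X.ιA j), X.ι_t_ι, Category.assoc, ← hb', ← Category.assoc,
      ← Category.assoc, ha']
  · apply Limits.Sigma.hom_ext
    intro j
    change X.ιE j ≫ X.bb ≫ g = X.ιE j ≫ Limits.Sigma.map b' ≫ Y.bb
    rw [← cancel_mono Y.D.ι]
    simp only [Category.assoc]
    rw [hg, ← Category.assoc (X.ιE j) (Limits.Sigma.map b'), hιE, Category.assoc, Y.ι_bb_ι,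
      ← Category.assoc (X.bb),
      ← Category.assoc (X.ιE j), X.ι_bb_ι, hb']
  · rw [← cancel_mono Y.D.ι, Category.assoc, Category.assoc, hg, Subcomplex.homOfLE_ι, hc,
      ← Category.assoc, Subcomplex.homOfLE_ι]

theorem step {P : MorphismProperty SSet.{0}} (hP : WClass P) {E B : SSet.{0}} {p : E ⟶ B}
    {d : ℕ} (X : CD p d) (hq : ∀ b, P (X.q b))
    (hb : ∀ b (g : (X.A b : SSet.{0}) ⟶ (∂Δ[d] : SSet.{0})),
      g ≫ (∂Δ[d] : (Δ[d] : SSet.{0}).Subcomplex).ι = (X.A b).ι ≫ X.q b → P g)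
    (hc : ∀ g : (X.C : SSet.{0}) ⟶ (B.skeleton d : SSet.{0}),
      g ≫ (B.skeleton d).ι = X.C.ι ≫ p → P g)
    (g : (X.D : SSet.{0}) ⟶ (B.skeleton (d + 1) : SSet.{0}))
    (hg : g ≫ (B.skeleton (d + 1)).ι = X.D.ι ≫ p) : P g := by
  have hA : ∀ b, Subcomplex.range ((X.A b).ι ≫ X.q b) ≤
      (∂Δ[d] : (Δ[d] : SSet.{0}).Subcomplex) := by
    rintro b n _ ⟨e, rfl⟩
    exact (X.hA b n e.1).1 e.2
  have hC : Subcomplex.range (X.C.ι ≫ p) ≤ B.skeleton d := by
    rintro n _ ⟨e, rfl⟩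
    exact (X.hC n e.1).1 e.2
  exact glueStep hP X (base B d) p X.q (fun b => (X.hφ b).symm)
    (fun b => Subcomplex.lift ((X.A b).ι ≫ X.q b) (hA b)) (fun b => rfl)
    (Subcomplex.lift (X.C.ι ≫ p) hC) rfl g hg (fun b => hb b _ rfl) hq (hc _ rfl)

end WcCell

namespace WcCell

theorem isIso_of_bot {E B : SSet.{0}} (S : E.Subcomplex) (T : B.Subcomplex) (hS : S = ⊥)
    (hT : T = ⊥) (g : (S : SSet.{0}) ⟶ (T : SSet.{0})) : IsIso g := by
  subst hS hT
  exact isIso_of_isInitial Subcomplex.isInitialBot Subcomplex.isInitialBot g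

/-- The comparison `F ⊗ A ⟶ p^-1 A` for the projection `p : F ⊗ X ⟶ X`. -/
def cmp (F X : SSet.{0}) (A : X.Subcomplex) :
    F ⊗ (A : SSet.{0}) ⟶ (A.preimage (CartesianMonoidalCategory.snd F X) : SSet.{0}) :=
  Subcomplex.lift (F ◁ A.ι) (by
    rintro n _ ⟨⟨x, a⟩, rfl⟩
    exact a.2)

theorem cmp_comp (F X : SSet.{0}) (A : X.Subcomplex) :
    cmp F X A ≫ A.fromPreimage (CartesianMonoidalCategory.snd F X) =
      CartesianMonoidalCategory.snd F (A : SSet.{0}) := by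
  rw [← cancel_mono A.ι, Category.assoc, Subcomplex.fromPreimage_ι]
  change F ◁ A.ι ≫ CartesianMonoidalCategory.snd F X = _
  simp

theorem cmp_isIso (F X : SSet.{0}) (A : X.Subcomplex) : IsIso (cmp F X A) := by
  refine ⟨CartesianMonoidalCategory.lift
    ((A.preimage (CartesianMonoidalCategory.snd F X)).ι ≫ CartesianMonoidalCategory.fst F X)
    (A.fromPreimage (CartesianMonoidalCategory.snd F X)), ?_, ?_⟩
  · ext n ⟨x, a⟩
    rfl
    rfl
  · rfl

end WcCell

theorem wc_cell (h1 : WC_PUSH_Stmt) (h2 : WC_USEQ_Stmt) : WC_CELL_Stmt := by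
  intro P hP E B p H
  choose E' q φ hq hq' hφ hu using H
  have key : ∀ (n : ℕ) (g : ((B.skeleton n).preimage p : SSet.{0}) ⟶ (B.skeleton n : SSet.{0})),
      g ≫ (B.skeleton n).ι = ((B.skeleton n).preimage p).ι ≫ p → P g := by
    intro n
    induction n with
    | zero =>
      intro g hg
      apply hP.iso
      have h0 : B.skeleton 0 = ⊥ := skeleton_zero B
      refine WcCell.isIso_of_bot _ _ ?_ h0 g
      rw [h0]
      rfl
    | succ n ih =>
      intro g hg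
      let X : WcCell.CD p n :=
        { C := (B.skeleton n).preimage p
          D := (B.skeleton (n + 1)).preimage p
          hC := fun _ _ => Iff.rfl
          hD := fun _ _ => Iff.rfl
          E' := fun b => E' n b.1 b.2
          q := fun b => q n b.1 b.2
          φ := fun b => φ n b.1 b.2
          hφ := fun b => hφ n b.1 b.2
          hu := fun b m a ha e he => hu n b.1 b.2 m a ha e he
          A := fun b => (∂Δ[n] : (Δ[n] : SSet.{0}).Subcomplex).preimage (q n b.1 b.2)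
          hA := fun _ _ _ => Iff.rfl }
      refine WcCell.step hP X (fun b => hq n b.1 b.2) ?_ ih g hg
      intro b g hg
      have h3 : g = (∂Δ[n] : (Δ[n] : SSet.{0}).Subcomplex).fromPreimage (q n b.1 b.2) := by
        rw [← cancel_mono (∂Δ[n] : (Δ[n] : SSet.{0}).Subcomplex).ι, hg]
        rfl
      rw [h3]
      exact hq' n b.1 b.2
  refine h2 P hP E B p ⟨fun n => (B.skeleton n).preimage p, ?_⟩ B.skeleton (fun n => le_refl _)
    ?_ B.iSup_skeleton key
  · intro m n hmn k e he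
    exact B.skeleton.monotone hmn _ he
  · change ⨆ n, (B.skeleton n).preimage p = ⊤
    rw [← Subcomplex.preimage_iSup, B.iSup_skeleton]
    rfl

theorem wc_open (h0 : WC_CELL_Stmt) (h1 : WC_PROD_Stmt) (h2 : WC_ACY_Stmt) : WC_OPEN_Stmt := by
  intro P hP E B p H
  apply h0 P hP E B p
  intro n b hb
  obtain ⟨F, φ, hF, hφ, hu⟩ := H n b hb
  refine ⟨F ⊗ Δ[n], CartesianMonoidalCategory.snd F Δ[n], φ, (h2 P hP F _ hF).1, ?_, hφ, ?_⟩
  · refine hP.cancelL (WcCell.cmp F Δ[n] (∂Δ[n] : (Δ[n] : SSet.{0}).Subcomplex)) _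
      (hP.iso _ (WcCell.cmp_isIso _ _ _)) ?_
    rw [WcCell.cmp_comp]
    exact (h2 P hP F _ hF).1
  · intro m a ha e he
    obtain ⟨f, hf, hf'⟩ := hu m a ha e he
    refine ⟨(f, stdSimplex.objEquiv.symm a), ⟨hf, rfl⟩, ?_⟩
    rintro ⟨f2, s⟩ ⟨h3, h4⟩
    have h5 : s = stdSimplex.objEquiv.symm a := h4
    subst h5
    rw [hf' f2 h3]

end Pool.Agent.SH


end

section

/-!
# MP_2d0b73_an, block TE: the fibre lemma (C9)
-/

open CategoryTheory MonoidalCategory Simplicial SSet HomotopicalAlgebra Opposite Limits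
open SSet.modelCategoryQuillen

namespace Pool.Agent.SH.WcFib

/-- Colimits are universal in `Type`. -/
theorem type_univ {J : Type} [Category.{0} J] {F F' : J ⥤ Type} {c : Cocone F}
    (hc : IsColimit c) (c' : Cocone F') (α : F' ⟶ F) (f : c'.pt ⟶ c.pt)
    (h : ∀ j, IsPullback (c'.ι.app j) (α.app j) f (c.ι.app j)) : Nonempty (IsColimit c') := by
  classical
  have hw : ∀ j (z : F'.obj j), f (c'.ι.app j z) = c.ι.app j (α.app j z) := fun j z =>
    ConcreteCategory.congr_hom ((Types.isPullback_iff _ _ _ _).1 (h j)).1 z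
  have hinj : ∀ j (z w : F'.obj j), c'.ι.app j z = c'.ι.app j w → α.app j z = α.app j w →
      z = w := fun j z w h1 h2 => ((Types.isPullback_iff _ _ _ _).1 (h j)).2.1 z w ⟨h1, h2⟩
  have hex : ∀ j (x : c'.pt) (y : F.obj j), f x = c.ι.app j y →
      ∃ z : F'.obj j, c'.ι.app j z = x ∧ α.app j z = y := fun j x y hxy =>
    ((Types.isPullback_iff _ _ _ _).1 (h j)).2.2 x y hxy
  have hsurj : ∀ x : c'.pt, ∃ j, ∃ z : F'.obj j, c'.ι.app j z = x := by
    intro x
    obtain ⟨j, y, hy⟩ := Types.jointly_surjective_of_isColimit hc (f x)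
    obtain ⟨z, hz, -⟩ := hex j x y hy.symm
    exact ⟨j, z, hz⟩
  choose L hL1 hL2 using hex
  have hnat : ∀ {j k : J} (u : j ⟶ k) (x : c'.pt) (y : F.obj j) (hxy : f x = c.ι.app j y)
      (hxy' : f x = c.ι.app k (F.map u y)),
      L k x (F.map u y) hxy' = F'.map u (L j x y hxy) := by
    intro j k u x y hxy hxy'
    apply hinj k
    · rw [hL1 k x _ hxy']
      have h1 := ConcreteCategory.congr_hom (c'.w u) (L j x y hxy)
      exact (hL1 j x y hxy).symm.trans h1.symm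
    · rw [hL2 k x _ hxy']
      have h1 := ConcreteCategory.congr_hom (α.naturality u) (L j x y hxy)
      have h2 : α.app k (F'.map u (L j x y hxy)) = F.map u (α.app j (L j x y hxy)) := h1
      rw [h2, hL2 j x y hxy]
  have hwell : ∀ (s : Cocone F') j k (z : F'.obj j) (w : F'.obj k),
      c'.ι.app j z = c'.ι.app k w → s.ι.app j z = s.ι.app k w := by
    intro s j k z w hzw
    let Φ : Cocone F :=
      { pt := c'.pt → Option s.pt
        ι :=
          { app := fun j => ↾(fun y x => if hx : f x = c.ι.app j y then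
              some (s.ι.app j (L j x y hx)) else none)
            naturality := by
              intro j k u
              ext y
              funext x
              have hck : c.ι.app k (F.map u y) = c.ι.app j y :=
                ConcreteCategory.congr_hom (c.w u) y
              change (if hx : f x = c.ι.app k (F.map u y) then
                some (s.ι.app k (L k x (F.map u y) hx)) else none) =
                (if hx : f x = c.ι.app j y then some (s.ι.app j (L j x y hx)) else none)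
              by_cases hxy : f x = c.ι.app j y
              · have hxy' : f x = c.ι.app k (F.map u y) := hxy.trans hck.symm
                rw [dif_pos hxy, dif_pos hxy', hnat u x y hxy hxy']
                have h1 : s.ι.app k (F'.map u (L j x y hxy)) = s.ι.app j (L j x y hxy) :=
                  ConcreteCategory.congr_hom (s.w u) (L j x y hxy)
                rw [h1]
              · have hxy' : ¬ f x = c.ι.app k (F.map u y) := fun hh => hxy (hh.trans hck)
                rw [dif_neg hxy, dif_neg hxy'] } }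
    have hkey : ∀ (j : J) (z : F'.obj j),
        (hc.desc Φ) (f (c'.ι.app j z)) (c'.ι.app j z) = some (s.ι.app j z) := by
      intro j z
      rw [hw j z]
      have h1 := ConcreteCategory.congr_hom (hc.fac Φ j) (α.app j z)
      have h2 : (hc.desc Φ) (c.ι.app j (α.app j z)) = Φ.ι.app j (α.app j z) := h1
      rw [h2]
      change (if hx : f (c'.ι.app j z) = c.ι.app j (α.app j z) then
        some (s.ι.app j (L j (c'.ι.app j z) (α.app j z) hx)) else none) = _
      rw [dif_pos (hw j z), hinj j _ _ (hL1 j _ _ (hw j z)) (hL2 j _ _ (hw j z))]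
    have h1 := hkey j z
    have h2 := hkey k w
    rw [hzw] at h1
    exact Option.some.inj (h1.symm.trans h2)
  refine ⟨IsColimit.ofExistsUnique fun s => ?_⟩
  choose J0 Z0 hZ0 using hsurj
  refine ⟨↾(fun x => s.ι.app (J0 x) (Z0 x)), ?_, ?_⟩
  · intro j
    ext z
    exact hwell s _ _ _ _ (hZ0 _)
  · intro m hm
    ext x
    have h1 := ConcreteCategory.congr_hom (hm (J0 x)) (Z0 x)
    have h2 : m (c'.ι.app (J0 x) (Z0 x)) = s.ι.app (J0 x) (Z0 x) := h1
    rw [hZ0 x] at h2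
    exact h2

/-- Colimits are universal in simplicial sets. -/
theorem sset_univ {J : Type} [Category.{0} J] {F F' : J ⥤ SSet.{0}} {c : Cocone F}
    (hc : IsColimit c) (c' : Cocone F') (α : F' ⟶ F) (f : c'.pt ⟶ c.pt)
    (h : ∀ j, IsPullback (c'.ι.app j) (α.app j) f (c.ι.app j)) : Nonempty (IsColimit c') := by
  have hn : ∀ n : SimplexCategoryᵒᵖ,
      Nonempty (IsColimit (((CategoryTheory.evaluation _ _).obj n).mapCocone c')) := fun n =>
    type_univ (isColimitOfPreserves ((CategoryTheory.evaluation _ _).obj n) hc)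
      (((CategoryTheory.evaluation _ _).obj n).mapCocone c')
      (Functor.whiskerRight α ((CategoryTheory.evaluation _ _).obj n)) (f.app n)
      (fun j => (h j).map ((CategoryTheory.evaluation _ _).obj n))
  exact ⟨evaluationJointlyReflectsColimits _ fun n => (hn n).some⟩

/-- Monomorphisms are stable under pullback. -/
theorem mono_of_isPullback {A X Y Z : SSet.{0}} {f : A ⟶ X} {g : A ⟶ Y} {h : X ⟶ Z} {i : Y ⟶ Z}
    (H : IsPullback f g h i) (hi : Mono i) : Mono f := by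
  constructor
  intro T u v huv
  refine H.hom_ext huv ?_
  rw [← cancel_mono i, Category.assoc, Category.assoc, ← H.w, reassoc_of% huv]

end Pool.Agent.SH.WcFib

namespace Pool.Agent.SH

theorem wc_fib (h : SK_IND_Stmt) : WC_FIB_Stmt := by
  intro P hP E B p hfib
  have key := h B (fun X f => ∀ (Z : SSet.{0}) (a : Z ⟶ E) (q : Z ⟶ X), IsPullback a q p f → P q)
    ?_ ?_ ?_ ?_ ?_ B (𝟙 B)
  · exact key E (𝟙 E) p (IsPullback.of_horiz_isIso ⟨by simp⟩)
  · intro X Y e f hX Z a q hq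
    have h1 : IsPullback a (q ≫ e.inv) p (e.hom ≫ f) :=
      IsPullback.of_iso hq (Iso.refl _) (Iso.refl _) e.symm (Iso.refl _) (by simp) (by simp)
        (by simp) (by simp)
    have h2 := hP.comp _ _ (hX Z a _ h1) (hP.iso e.hom inferInstance)
    rwa [Category.assoc, e.inv_hom_id, Category.comp_id] at h2
  · intro n b Z a q hq
    have h1 := hP.comp _ _ (hP.iso hq.isoPullback.hom inferInstance) (hfib n b)
    rwa [hq.isoPullback_hom_snd] at h1
  · intro J X f hX Z a q hq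
    have sq : ∀ j, IsPullback (pullback.fst q (Limits.Sigma.ι X j))
        (pullback.snd q (Limits.Sigma.ι X j)) q (Limits.Sigma.ι X j) := fun j =>
      IsPullback.of_hasPullback _ _
    have hPj : ∀ j, P (pullback.snd q (Limits.Sigma.ι X j)) := by
      intro j
      have h1 := (sq j).paste_horiz hq
      rw [Limits.Sigma.ι_desc] at h1
      exact hX j _ _ _ h1
    have hcop := hP.copr J _ _ _ hPj
    obtain ⟨hcol⟩ := WcFib.sset_univ (coproductIsCoproduct X)
      (Cofan.mk Z (fun j => pullback.fst q (Limits.Sigma.ι X j)))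
      (Discrete.natTrans fun j => pullback.snd q (Limits.Sigma.ι X j.as)) q
      (fun j => sq j.as)
    let e := (coproductIsCoproduct (fun j => pullback q (Limits.Sigma.ι X j))).coconePointUniqueUpToIso
      hcol
    have he : ∀ j, Limits.Sigma.ι (fun j => pullback q (Limits.Sigma.ι X j)) j ≫ e.hom =
        pullback.fst q (Limits.Sigma.ι X j) := fun j =>
      IsColimit.comp_coconePointUniqueUpToIso_hom _ _ (Discrete.mk j)
    have heq : e.hom ≫ q = Limits.Sigma.map (fun j => pullback.snd q (Limits.Sigma.ι X j)) := by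
      apply Limits.Sigma.hom_ext
      intro j
      rw [reassoc_of% (he j), (sq j).w, Limits.Sigma.ι_map]
    exact hP.cancelL e.hom q (hP.iso e.hom inferInstance) (by rw [heq]; exact hcop)
  · intro A X Y Z i g i' g' f hpo hmono hA hX hY W a q hq
    have sX : IsPullback (pullback.fst q i') (pullback.snd q i') q i' :=
      IsPullback.of_hasPullback _ _
    have sY : IsPullback (pullback.fst q g') (pullback.snd q g') q g' :=
      IsPullback.of_hasPullback _ _
    obtain ⟨WA, u, v, sA⟩ : ∃ (WA : SSet.{0}) (u : WA ⟶ W) (v : WA ⟶ A),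
      IsPullback u v q (i ≫ i') := ⟨_, _, _, IsPullback.of_hasPullback _ _⟩
    let iW : WA ⟶ pullback q i' := sX.lift u (v ≫ i) (by rw [sA.w, Category.assoc])
    let gW : WA ⟶ pullback q g' := sY.lift u (v ≫ g) (by rw [sA.w, Category.assoc, hpo.w])
    have iW1 : iW ≫ pullback.fst q i' = u := sX.lift_fst _ _ _
    have iW2 : iW ≫ pullback.snd q i' = v ≫ i := sX.lift_snd _ _ _
    have gW1 : gW ≫ pullback.fst q g' = u := sY.lift_fst _ _ _
    have gW2 : gW ≫ pullback.snd q g' = v ≫ g := sY.lift_snd _ _ _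
    have sAi : IsPullback iW v (pullback.snd q i') i := by
      refine IsPullback.of_right ?_ iW2 sX
      rw [iW1]
      exact sA
    have sAg : IsPullback gW v (pullback.snd q g') g := by
      refine IsPullback.of_right ?_ gW2 sY
      rw [gW1, ← hpo.w]
      exact sA
    have hpoW : IsPushout iW gW (pullback.fst q i') (pullback.fst q g') :=
      ((Adhesive.van_kampen hpo) iW gW (pullback.fst q i') (pullback.fst q g')
        v (pullback.snd q i') (pullback.snd q g') q sAi sAg ⟨sX.w⟩ ⟨sY.w⟩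
        ⟨by rw [iW1, gW1]⟩).2 ⟨sX, sY⟩
    have hA' : P v := by
      have h1 := sA.paste_horiz hq
      rw [Category.assoc] at h1
      exact hA _ _ _ h1
    exact hP.glue iW gW _ _ i g i' g' _ _ _ q hpoW hpo
      (WcFib.mono_of_isPullback sAi hmono) hmono iW2 gW2 sX.w sY.w hA'
      (hX _ _ _ (sX.paste_horiz hq)) (hY _ _ _ (sY.paste_horiz hq))
  · intro F c f hc hmono hF Z a q hq
    let α₀ := (Functor.const ℕ).map q
    have sq : ∀ n : ℕ, IsPullback ((pullback.fst α₀ c.ι).app n) ((pullback.snd α₀ c.ι).app n) q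
        (c.ι.app n) := fun n =>
      (IsPullback.of_hasPullback α₀ c.ι).map ((CategoryTheory.evaluation ℕ SSet.{0}).obj n)
    obtain ⟨hcol⟩ := WcFib.sset_univ hc ⟨Z, pullback.fst α₀ c.ι⟩ (pullback.snd α₀ c.ι) q sq
    have hmonoG : ∀ n : ℕ, Mono ((pullback α₀ c.ι).map (homOfLE (Nat.le_succ n))) := by
      intro n
      constructor
      intro T u v huv
      refine (sq n).hom_ext ?_ ?_
      · have h1 := (pullback.fst α₀ c.ι).naturality (homOfLE (Nat.le_succ n))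
        have h2 : (pullback α₀ c.ι).map (homOfLE (Nat.le_succ n)) ≫
            (pullback.fst α₀ c.ι).app (n + 1) = (pullback.fst α₀ c.ι).app n :=
          h1.trans (Category.comp_id _)
        rw [← h2, reassoc_of% huv]
      · have hm := hmono n
        rw [← cancel_mono (F.map (homOfLE (Nat.le_succ n))), Category.assoc, Category.assoc,
          ← (pullback.snd α₀ c.ι).naturality (homOfLE (Nat.le_succ n)), reassoc_of% huv]
    have hPn : ∀ n : ℕ, P ((pullback.snd α₀ c.ι).app n) := fun n =>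
      hF n _ _ _ ((sq n).paste_horiz hq)
    exact hP.seq (pullback α₀ c.ι) F (pullback.snd α₀ c.ι) ⟨Z, pullback.fst α₀ c.ι⟩ c hcol hc
      hmonoG hmono hPn q (fun n => (sq n).w)

end Pool.Agent.SH


end

section

/-!
# MP_2d0b73_an, block TE: horn inclusions belong to every WClass
-/

open CategoryTheory MonoidalCategory Simplicial SSet HomotopicalAlgebra Opposite Limits
open SSet.modelCategoryQuillen

namespace Pool.Agent.SH

namespace WcHorn

/-- The monotone map interpolating between `g₀ ∘ θ` and `g₁ ∘ θ`. -/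
def mixHom {a N : ℕ} (g₀ g₁ : Fin (N + 1) →o Fin (N + 1)) (hg : ∀ x, g₀ x ≤ g₁ x)
    (θ : Fin (a + 1) →o Fin (N + 1)) (φ : Fin (a + 1) →o Fin 2) :
    Fin (a + 1) →o Fin (N + 1) where
  toFun j := if φ j = 0 then g₀ (θ j) else g₁ (θ j)
  monotone' := by
    intro j k hjk
    have h1 : θ j ≤ θ k := θ.monotone hjk
    have h2 : φ j ≤ φ k := φ.monotone hjk
    by_cases hk : φ k = 0
    · have hj : φ j = 0 := by
        rw [hk] at h2
        exact Fin.le_zero_iff.1 h2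
      simp only [hj, hk, if_true]
      exact g₀.monotone h1
    · by_cases hj : φ j = 0
      · simp only [hj, hk, if_true, if_false]
        exact (g₀.monotone h1).trans (hg _)
      · simp only [hj, hk, if_false]
        exact g₁.monotone h1

/-- The homotopy on `Δ[N]`. -/
noncomputable def mix {N : ℕ} (g₀ g₁ : Fin (N + 1) →o Fin (N + 1)) (hg : ∀ x, g₀ x ≤ g₁ x) :
    (Δ[N] : SSet.{0}) ⊗ Δ[1] ⟶ (Δ[N] : SSet.{0}) where
  app n := ↾fun x => stdSimplex.objMk
    (mixHom g₀ g₁ hg (stdSimplex.asOrderHom x.1) (stdSimplex.asOrderHom x.2))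
  naturality := by
    intro a b f
    ext x
    rfl

/-- A subcomplex of `Δ[N]` stable under replacing some of the vertices by `i`. -/
def Stab {N : ℕ} (A : (Δ[N] : SSet.{0}).Subcomplex) (i : Fin (N + 1)) : Prop :=
  ∀ (m : SimplexCategoryᵒᵖ) (θ θ' : (Δ[N] : SSet.{0}).obj m), θ ∈ A.obj m →
    (∀ j, stdSimplex.asOrderHom θ' j = stdSimplex.asOrderHom θ j ∨
      stdSimplex.asOrderHom θ' j = i) → θ' ∈ A.obj m

/-- The monotone map `max (-) i`. -/
def maxI {N : ℕ} (i : Fin (N + 1)) : Fin (N + 1) →o Fin (N + 1) where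
  toFun x := max x i
  monotone' := by
    intro x y hxy
    exact max_le_max hxy le_rfl

theorem stab_mix {N : ℕ} (A : (Δ[N] : SSet.{0}).Subcomplex) (i : Fin (N + 1)) (hA : Stab A i)
    (g₀ g₁ : Fin (N + 1) →o Fin (N + 1)) (hg : ∀ x, g₀ x ≤ g₁ x)
    (h0 : ∀ x, g₀ x = x ∨ g₀ x = i) (h1 : ∀ x, g₁ x = x ∨ g₁ x = i) :
    Subcomplex.range (A.ι ▷ (Δ[1] : SSet.{0}) ≫ mix g₀ g₁ hg) ≤ A := by
  intro m y hy
  obtain ⟨x, rfl⟩ := hy
  refine hA m x.1.1 _ x.1.2 ?_
  intro j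
  change (if stdSimplex.asOrderHom x.2 j = 0 then g₀ (stdSimplex.asOrderHom x.1.1 j)
    else g₁ (stdSimplex.asOrderHom x.1.1 j)) = _ ∨
    (if stdSimplex.asOrderHom x.2 j = 0 then g₀ (stdSimplex.asOrderHom x.1.1 j)
    else g₁ (stdSimplex.asOrderHom x.1.1 j)) = _
  split_ifs
  · exact h0 _
  · exact h1 _

/-- The endomorphism of `Δ[N]` given by a monotone map. -/
noncomputable def endo {N : ℕ} (g : Fin (N + 1) →o Fin (N + 1)) :
    (Δ[N] : SSet.{0}) ⟶ (Δ[N] : SSet.{0}) :=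
  SSet.stdSimplex.map (SimplexCategory.Hom.mk g)

theorem mix_zero {N : ℕ} (g₀ g₁ : Fin (N + 1) →o Fin (N + 1)) (hg : ∀ x, g₀ x ≤ g₁ x) :
    ι₀ ≫ mix g₀ g₁ hg = endo g₀ := by
  ext m x
  rfl

theorem mix_one {N : ℕ} (g₀ g₁ : Fin (N + 1) →o Fin (N + 1)) (hg : ∀ x, g₀ x ≤ g₁ x) :
    ι₁ ≫ mix g₀ g₁ hg = endo g₁ := by
  ext m x
  rfl

theorem hty_sub {N : ℕ} (A : (Δ[N] : SSet.{0}).Subcomplex) (i : Fin (N + 1)) (hA : Stab A i)
    (g₀ g₁ : Fin (N + 1) →o Fin (N + 1)) (hg : ∀ x, g₀ x ≤ g₁ x)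
    (h0 : ∀ x, g₀ x = x ∨ g₀ x = i) (h1 : ∀ x, g₁ x = x ∨ g₁ x = i)
    (f₀ f₁ : (A : SSet.{0}) ⟶ A) (hf0 : f₀ ≫ A.ι = A.ι ≫ endo g₀)
    (hf1 : f₁ ≫ A.ι = A.ι ≫ endo g₁) : Hty f₀ f₁ := by
  refine (Hty_iff _ _).2 ⟨Subcomplex.lift (A.ι ▷ (Δ[1] : SSet.{0}) ≫ mix g₀ g₁ hg)
    (stab_mix A i hA g₀ g₁ hg h0 h1), ?_, ?_⟩
  · rw [← cancel_mono A.ι, Category.assoc, Subcomplex.lift_ι, hf0, ι₀_comp_assoc, mix_zero]
  · rw [← cancel_mono A.ι, Category.assoc, Subcomplex.lift_ι, hf1, ι₁_comp_assoc, mix_one]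

/-- A stable subcomplex containing the vertex `i` is contractible in the sense of `P`. -/
theorem unit_mem (h : WC_HEQ_Stmt) (P : MorphismProperty SSet.{0}) (hP : WClass P) {N : ℕ}
    (A : (Δ[N] : SSet.{0}).Subcomplex) (i : Fin (N + 1)) (hA : Stab A i)
    (hi : stdSimplex.obj₀Equiv.symm i ∈ A.obj (op ⦋0⦌)) :
    P (CartesianMonoidalCategory.toUnit (A : SSet.{0})) := by
  have hm : ∃ f : (A : SSet.{0}) ⟶ A, f ≫ A.ι = A.ι ≫ endo (maxI i) := by
    refine ⟨Subcomplex.lift (A.ι ≫ endo (maxI i)) ?_, Subcomplex.lift_ι _ _⟩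
    intro m y hy
    obtain ⟨x, rfl⟩ := hy
    refine hA m x.1 _ x.2 ?_
    intro j
    change max (stdSimplex.asOrderHom x.1 j) i = _ ∨ max (stdSimplex.asOrderHom x.1 j) i = _
    rcases max_choice (stdSimplex.asOrderHom x.1 j) i with h1 | h1
    · exact Or.inl h1
    · exact Or.inr h1
  obtain ⟨f, hf⟩ := hm
  have hmax : ∀ x : Fin (N + 1), maxI i x = x ∨ maxI i x = i := fun x => max_choice x i
  have e1 : Hty (𝟙 (A : SSet.{0})) f := by
    refine hty_sub A i hA OrderHom.id (maxI i) (fun x => le_max_left _ _)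
      (fun x => Or.inl rfl) hmax _ _ ?_ hf
    have h2 : (endo OrderHom.id : (Δ[N] : SSet.{0}) ⟶ Δ[N]) = 𝟙 _ := stdSimplex.map_id _
    rw [Category.id_comp, h2, Category.comp_id]
  have e2 : Hty (SSet.const (⟨stdSimplex.obj₀Equiv.symm i, hi⟩ : (A : SSet.{0}) _⦋0⦌)) f := by
    refine hty_sub A i hA (OrderHom.const _ i) (maxI i) (fun x => le_max_right _ _)
      (fun x => Or.inr rfl) hmax _ _ ?_ hf
    rfl
  refine (h P hP _ _ (CartesianMonoidalCategory.toUnit (A : SSet.{0}))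
    (SSet.const (⟨stdSimplex.obj₀Equiv.symm i, hi⟩ : (A : SSet.{0}) _⦋0⦌)) ?_ ?_).1
  · rw [SSet.comp_const]
    exact (Relation.EqvGen.rel _ _ e2).trans _ _ _ ((Relation.EqvGen.rel _ _ e1).symm _ _)
  · rw [CartesianMonoidalCategory.toUnit_unique (SSet.const
      (⟨stdSimplex.obj₀Equiv.symm i, hi⟩ : (A : SSet.{0}) _⦋0⦌) ≫
        CartesianMonoidalCategory.toUnit (A : SSet.{0})) (𝟙 _)]
    exact Relation.EqvGen.refl _

theorem stab_horn {N : ℕ} (i : Fin (N + 1)) : Stab (Λ[N, i]) i := by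
  intro m θ θ' hθ h
  rw [mem_horn_iff] at hθ ⊢
  intro h1
  apply hθ
  rw [Set.eq_univ_iff_forall] at h1 ⊢
  intro x
  rcases h1 x with ⟨j, hj⟩ | hx
  · rcases h j with h2 | h2
    · exact Or.inl ⟨j, h2.symm.trans hj⟩
    · exact Or.inr (by rw [Set.mem_singleton_iff, ← hj, h2])
  · exact Or.inr hx

theorem vertex_horn {n : ℕ} (i : Fin (n + 2)) :
    (stdSimplex.obj₀Equiv.symm i : (Δ[n + 1] : SSet.{0}) _⦋0⦌) ∈ (Λ[n + 1, i]).obj (op ⦋0⦌) := by
  rw [mem_horn_iff]
  intro h1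
  rw [Set.eq_univ_iff_forall] at h1
  have h2 : ∀ x : Fin (n + 2), x = i := by
    intro x
    rcases h1 x with ⟨j, hj⟩ | hx
    · exact hj.symm
    · exact hx
  have h3 := (h2 0).trans (h2 (Fin.last (n + 1))).symm
  have h4 := congrArg Fin.val h3
  simp at h4

theorem unit_simplex (P : MorphismProperty SSet.{0}) (hP : WClass P) (N : ℕ) :
    P (CartesianMonoidalCategory.toUnit (Δ[N] : SSet.{0})) := by
  have h1 := hP.comp (λ_ (Δ[N] : SSet.{0})).inv _ (hP.iso _ inferInstance)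
    (hP.proj (𝟙_ SSet.{0}) N)
  rwa [CartesianMonoidalCategory.toUnit_unique ((λ_ (Δ[N] : SSet.{0})).inv ≫
    CartesianMonoidalCategory.fst (𝟙_ SSet.{0}) (Δ[N] : SSet.{0}))
    (CartesianMonoidalCategory.toUnit (Δ[N] : SSet.{0}))] at h1

end WcHorn

open WcHorn in
/-- (C8) horn inclusions. -/
theorem wc_horn (h : WC_HEQ_Stmt) : WC_HORN_Stmt := by
  intro P hP n i
  refine hP.cancelR _ (CartesianMonoidalCategory.toUnit (Δ[n + 1] : SSet.{0}))
    (unit_simplex P hP (n + 1)) ?_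
  rw [CartesianMonoidalCategory.toUnit_unique ((Λ[n + 1, i] :
    (Δ[n + 1] : SSet.{0}).Subcomplex).ι ≫ CartesianMonoidalCategory.toUnit (Δ[n + 1] : SSet.{0}))
    (CartesianMonoidalCategory.toUnit (Λ[n + 1, i] : SSet.{0}))]
  exact unit_mem h P hP _ i (stab_horn i) (vertex_horn i)

end Pool.Agent.SH


end

section

/-!
# MP_2d0b73_an, block TE: increasing unions and discrete bases
-/

open CategoryTheory MonoidalCategory Simplicial SSet HomotopicalAlgebra Opposite Limits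
open SSet.modelCategoryQuillen

namespace Pool.Agent.SH

namespace WcUseq

/-- The sequence of the subcomplexes `A n`. -/
noncomputable def fun_ {X : SSet.{0}} (A : ℕ →o X.Subcomplex) : ℕ ⥤ SSet.{0} :=
  A.monotone.functor ⋙ SSet.Subcomplex.toSSetFunctor

/-- The cocone of the inclusions. -/
noncomputable def coc {X : SSet.{0}} (A : ℕ →o X.Subcomplex) : Cocone (fun_ A) where
  pt := X
  ι := { app := fun n => (A n).ι
         naturality := fun _ _ _ => rfl }

/-- `X` is the colimit of an increasing sequence of subcomplexes with union `X`. -/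
theorem coc_isColimit {X : SSet.{0}} (A : ℕ →o X.Subcomplex) (h : ⨆ n, A n = ⊤) :
    Nonempty (IsColimit (coc A)) := by
  refine ⟨evaluationJointlyReflectsColimits _ fun m => ?_⟩
  refine Types.FilteredColimit.isColimitOf' (F := fun_ A ⋙ (evaluation _ _).obj m) _ ?_ ?_
  · intro x
    have hx : x ∈ (⨆ n, A n).obj m := by
      rw [h]
      exact trivial
    rw [Subfunctor.iSup_obj] at hx
    obtain ⟨n, hn⟩ := Set.mem_iUnion.1 hx
    exact ⟨n, ⟨x, hn⟩, rfl⟩
  · intro i x y hxy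
    exact ⟨i, 𝟙 i, congrArg _ (Subtype.ext hxy)⟩

/-- Coproducts of simplicial sets, levelwise. -/
theorem isIso_desc {J : Type} {F : J → SSet.{0}} {E : SSet.{0}} (φ : ∀ j, F j ⟶ E)
    (h1 : ∀ (m : SimplexCategoryᵒᵖ) (e : E.obj m), ∃ (j : J) (x : (F j).obj m),
      (φ j).app m x = e)
    (h2 : ∀ (m : SimplexCategoryᵒᵖ) (j : J), Function.Injective ((φ j).app m))
    (h3 : ∀ (m : SimplexCategoryᵒᵖ) (i j : J) (x : (F i).obj m) (y : (F j).obj m),
      (φ i).app m x = (φ j).app m y → i = j) : IsIso (Sigma.desc φ) := by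
  refine (Cofan.nonempty_isColimit_iff_isIso_sigmaDesc (Cofan.mk E φ)).1
    ⟨evaluationJointlyReflectsColimits _ fun m => ?_⟩
  refine (isColimitMapCoconeCofanMkEquiv _ _ _).symm (Nonempty.some ?_)
  rw [Cofan.nonempty_isColimit_iff_bijective_fromSigma]
  constructor
  · rintro ⟨i, x⟩ ⟨j, y⟩ hxy
    have hxy' : (φ i).app m x = (φ j).app m y := hxy
    obtain rfl := h3 m i j x y hxy'
    obtain rfl := h2 m i hxy'
    rfl
  · intro e
    obtain ⟨j, x, hx⟩ := h1 m e
    exact ⟨⟨j, x⟩, hx⟩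

end WcUseq

theorem wc_useq : WC_USEQ_Stmt := by
  intro P hP X Y f A A' hA hu hu' hg
  obtain ⟨hc⟩ := WcUseq.coc_isColimit A hu
  obtain ⟨hc'⟩ := WcUseq.coc_isColimit A' hu'
  have hle : ∀ n, Subcomplex.range ((A n).ι ≫ f) ≤ A' n := by
    intro n
    rw [← Subcomplex.preimage_eq_top_iff]
    rw [Subcomplex.preimage_comp]
    rw [eq_top_iff]
    intro m x _
    exact hA n m x.2
  let α : WcUseq.fun_ A ⟶ WcUseq.fun_ A' :=
    { app := fun n => Subcomplex.lift ((A n).ι ≫ f) (hle n)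
      naturality := fun _ _ _ => rfl }
  refine hP.seq (WcUseq.fun_ A) (WcUseq.fun_ A') α (WcUseq.coc A) (WcUseq.coc A') hc hc'
    ?_ ?_ ?_ f ?_
  · intro n
    exact Subcomplex.mono_homOfLE (A.monotone (Nat.le_succ n))
  · intro n
    exact Subcomplex.mono_homOfLE (A'.monotone (Nat.le_succ n))
  · intro n
    exact hg n _ rfl
  · intro n
    rfl

theorem wc_uacy : WC_UACY_Stmt := by
  intro P hP X A hu hA
  have hA' : ⨆ n, (OrderHom.const ℕ (⊤ : (𝟙_ SSet.{0}).Subcomplex)) n = ⊤ := by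
    rw [eq_top_iff]
    exact le_iSup (fun n => (OrderHom.const ℕ (⊤ : (𝟙_ SSet.{0}).Subcomplex)) n) 0
  refine wc_useq P hP X (𝟙_ SSet.{0}) (CartesianMonoidalCategory.toUnit X) A
    (OrderHom.const ℕ (⊤ : (𝟙_ SSet.{0}).Subcomplex)) (fun n => le_top) hu hA' fun n g hg => ?_
  have h1 : P (⊤ : (𝟙_ SSet.{0}).Subcomplex).ι := by
    refine hP.iso _ ?_
    rw [← Subcomplex.topIso_hom]
    infer_instance
  refine hP.cancelR g (⊤ : (𝟙_ SSet.{0}).Subcomplex).ι h1 ?_
  have h2 : g ≫ (⊤ : (𝟙_ SSet.{0}).Subcomplex).ι =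
      CartesianMonoidalCategory.toUnit (A n : SSet.{0}) :=
    CartesianMonoidalCategory.toUnit_unique _ _
  rw [h2]
  exact hA n

theorem wc_disc : WC_DISC_Stmt := by
  intro P hP E B p hB hF
  choose F φ hφ1 hφ2 hφ3 using hF
  -- the operator `⦋m⦌ → ⦋0⦌` inverts all the vertices
  have hB' : ∀ (m : SimplexCategoryᵒᵖ) (v : ⦋0⦌ ⟶ m.unop) (y : B.obj m) (b : B _⦋0⦌),
      B.map v.op y = b ↔ y = B.map (m.unop.const ⦋0⦌ 0).op b := by
    intro m v y b
    have h1 : B.map v.op (B.map (m.unop.const ⦋0⦌ 0).op b) = b := by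
      have h2 : B.map (m.unop.const ⦋0⦌ 0).op ≫ B.map v.op = 𝟙 _ := by
        rw [← B.map_comp, ← op_comp]
        have h3 : v ≫ m.unop.const ⦋0⦌ 0 = 𝟙 ⦋0⦌ := Subsingleton.elim _ _
        rw [h3]
        exact B.map_id _
      exact congrArg (fun t => t b) h2
    constructor
    · intro h
      exact (hB _ _ v.op).1 (h.trans h1.symm)
    · rintro rfl
      exact h1
  have key : ∀ (b : B _⦋0⦌) (m : SimplexCategoryᵒᵖ) (e : E.obj m),
      e ∈ Set.range ((φ b).app m) ↔ p.app m e = B.map (m.unop.const ⦋0⦌ 0).op b := by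
    intro b m e
    induction m using Opposite.rec with
    | op m =>
      induction m using SimplexCategory.rec with
      | mk m =>
        refine (hφ3 b m e).trans ?_
        constructor
        · intro h
          exact (hB' _ (SimplexCategory.const ⦋0⦌ ⦋m⦌ 0) _ b).1 (h _)
        · intro h v
          exact (hB' _ v _ b).2 h
  have hinj : ∀ (m : SimplexCategoryᵒᵖ) (b b' : B _⦋0⦌),
      B.map (m.unop.const ⦋0⦌ 0).op b = B.map (m.unop.const ⦋0⦌ 0).op b' → b = b' :=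
    fun m b b' h => (hB _ _ _).1 h
  have he1 : IsIso (Sigma.desc φ) := by
    refine WcUseq.isIso_desc φ ?_ ?_ ?_
    · intro m e
      obtain ⟨b, hb⟩ := (hB _ m (m.unop.const ⦋0⦌ 0).op).2 (p.app m e)
      obtain ⟨x, hx⟩ := (key b m e).2 hb.symm
      exact ⟨b, x, hx⟩
    · intro m b
      induction m using Opposite.rec with
      | op m =>
        induction m using SimplexCategory.rec with
        | mk m => exact hφ2 b m
    · intro m b b' x y hxy
      have h1 := (key b m ((φ b).app m x)).1 ⟨x, rfl⟩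
      have h2 := (key b' m ((φ b').app m y)).1 ⟨y, rfl⟩
      rw [hxy] at h1
      exact hinj m b b' (h1.symm.trans h2)
  have ht : IsIso (Sigma.desc (fun b : B _⦋0⦌ => (SSet.const b : 𝟙_ SSet.{0} ⟶ B))) := by
    refine WcUseq.isIso_desc _ ?_ ?_ ?_
    · intro m e
      obtain ⟨b, hb⟩ := (hB _ m (m.unop.const ⦋0⦌ 0).op).2 e
      exact ⟨b, PUnit.unit, hb⟩
    · intro m b x y _
      rfl
    · intro m b b' x y hxy
      exact hinj m b b' hxy
  have hcomm : Sigma.desc φ ≫ p =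
      Limits.Sigma.map (fun b => CartesianMonoidalCategory.toUnit (F b)) ≫
        Sigma.desc (fun b : B _⦋0⦌ => (SSet.const b : 𝟙_ SSet.{0} ⟶ B)) := by
    refine Sigma.hom_ext _ _ fun b => ?_
    rw [Sigma.ι_desc_assoc, Sigma.ι_map_assoc, Sigma.ι_desc, SSet.comp_const]
    ext m x
    exact (key b m ((φ b).app m x)).1 ⟨x, rfl⟩
  refine hP.cancelL (Sigma.desc φ) p (hP.iso _ he1) ?_
  rw [hcomm]
  exact hP.comp _ _ (hP.copr _ _ _ _ hφ1) (hP.iso _ ht)

end Pool.Agent.SH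


end

section

/-!
# MP_2d0b73_an, block TE: skeletal induction (C5)
-/

open CategoryTheory MonoidalCategory Simplicial SSet HomotopicalAlgebra Opposite Limits
open SSet.modelCategoryQuillen

namespace Pool.Agent.SH

namespace SkInd

variable {B : SSet.{0}} {C : ∀ X : SSet.{0}, (X ⟶ B) → Prop}

/-- The skeleton, as a stage of the relative cell complex of `⊥ ⟶ X`. -/
noncomputable abbrev Sk (X : SSet.{0}) (n : ℕ) : X.Subcomplex :=
  skeletonOfMono (Subcomplex.ι (⊥ : X.Subcomplex)) n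

theorem Sk_zero (X : SSet.{0}) : Sk X 0 = ⊥ := by
  simp [Sk]

theorem Sk_eq_top (X : SSet.{0}) (d : ℕ) [X.HasDimensionLT d] : Sk X d = ⊤ := by
  apply le_antisymm le_top
  refine le_trans ?_ (skeleton_le_skeletonOfMono _ d)
  rw [Subcomplex.le_iff_contains_nonDegenerate]
  intro n x _
  exact X.mem_skeleton _ (X.dim_lt_of_nonDegenerate x d)

theorem C_of_eq_top
    (hiso : ∀ (X Y : SSet.{0}) (e : X ≅ Y) (f : Y ⟶ B), C X (e.hom ≫ f) → C Y f)
    (X : SSet.{0}) (S : X.Subcomplex) (hS : S = ⊤) (f : X ⟶ B) (h : C (S : SSet.{0}) (S.ι ≫ f)) :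
    C X f := by
  subst hS
  exact hiso _ _ (Subcomplex.topIso X) f h

theorem C_bot
    (hiso : ∀ (X Y : SSet.{0}) (e : X ≅ Y) (f : Y ⟶ B), C X (e.hom ≫ f) → C Y f)
    (hcop : ∀ (J : Type) (X : J → SSet.{0}) (f : ∀ j, X j ⟶ B), (∀ j, C (X j) (f j)) →
      C (∐ X) (Limits.Sigma.desc f))
    (X : SSet.{0}) (S : X.Subcomplex) (hS : S = ⊥) (f : (S : SSet.{0}) ⟶ B) :
    C (S : SSet.{0}) f := by
  subst hS
  have h := hcop Empty (fun j => j.elim) (fun j => j.elim) (fun j => j.elim)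
  let h1 : IsInitial (∐ (fun j : Empty => (j.elim : SSet.{0}))) :=
    IsInitial.ofUniqueHom (fun Z => Limits.Sigma.desc (fun j => j.elim))
      (fun Z m => Limits.Sigma.hom_ext _ _ (fun j => j.elim))
  let e : (∐ (fun j : Empty => (j.elim : SSet.{0}))) ≅ ((⊥ : X.Subcomplex) : SSet.{0}) :=
    h1.uniqueUpToIso Subcomplex.isInitialBot
  refine hiso _ _ e f ?_
  have h2 : e.hom ≫ f = Limits.Sigma.desc (fun j => j.elim) := h1.hom_ext _ _
  rw [h2]
  exact h

end SkInd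

theorem sk_ind : SK_IND_Stmt := by
  intro B C hiso hsimp hcop hpush hseq
  have key : ∀ (n : ℕ) (X : SSet.{0}) (f : X ⟶ B),
      C (SkInd.Sk X n : SSet.{0}) ((SkInd.Sk X n).ι ≫ f) := by
    intro n
    induction n with
    | zero =>
      intro X f
      exact SkInd.C_bot hiso hcop X _ (SkInd.Sk_zero X) _
    | succ n ih =>
      intro X f
      let i : ((⊥ : X.Subcomplex) : SSet.{0}) ⟶ X := Subcomplex.ι (⊥ : X.Subcomplex)
      have hp := (relativeCellComplexOfMono.isPushout i n).flip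
      refine hpush _ _ _ _ _ _ _ _ ((SkInd.Sk X (n + 1)).ι ≫ f) hp inferInstance ?_ ?_ ?_
      · have h1 : ∀ c : relativeCellComplexOfMono.Cell i n,
            C (∂Δ[n] : SSet.{0}) (c.ιSigmaBoundary ≫ relativeCellComplexOfMono.l i n ≫
              relativeCellComplexOfMono.b i n ≫ (SkInd.Sk X (n + 1)).ι ≫ f) := by
          intro c
          exact SkInd.C_of_eq_top hiso _ _ (SkInd.Sk_eq_top (∂Δ[n] : SSet.{0}) n) _ (ih _ _)
        have h2 := hcop _ _ _ h1
        have h3 : Limits.Sigma.desc (fun c : relativeCellComplexOfMono.Cell i n =>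
            c.ιSigmaBoundary ≫ relativeCellComplexOfMono.l i n ≫
              relativeCellComplexOfMono.b i n ≫ (SkInd.Sk X (n + 1)).ι ≫ f) =
            relativeCellComplexOfMono.l i n ≫
              relativeCellComplexOfMono.b i n ≫ (SkInd.Sk X (n + 1)).ι ≫ f := by
          apply Limits.Sigma.hom_ext
          intro c
          rw [Limits.Sigma.ι_desc]
        rw [h3] at h2
        exact h2
      · have h1 : ∀ c : relativeCellComplexOfMono.Cell i n,
            C Δ[n] (c.ιSigmaStdSimplex ≫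
              relativeCellComplexOfMono.b i n ≫ (SkInd.Sk X (n + 1)).ι ≫ f) :=
          fun c => hsimp _ _
        have h2 := hcop _ _ _ h1
        have h3 : Limits.Sigma.desc (fun c : relativeCellComplexOfMono.Cell i n =>
            c.ιSigmaStdSimplex ≫
              relativeCellComplexOfMono.b i n ≫ (SkInd.Sk X (n + 1)).ι ≫ f) =
              relativeCellComplexOfMono.b i n ≫ (SkInd.Sk X (n + 1)).ι ≫ f := by
          apply Limits.Sigma.hom_ext
          intro c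
          rw [Limits.Sigma.ι_desc]
        rw [h3] at h2
        exact h2
      · exact ih X f
  intro X f
  let i : ((⊥ : X.Subcomplex) : SSet.{0}) ⟶ X := Subcomplex.ι (⊥ : X.Subcomplex)
  exact hseq (relativeCellComplexOfMono i).F (Cocone.mk X (relativeCellComplexOfMono i).incl) f
    (relativeCellComplexOfMono i).isColimit (fun n => by
      change Mono (Subcomplex.homOfLE ((skeletonOfMono i).monotone (Nat.le_succ n)))
      infer_instance) (fun n => key n X f)

end Pool.Agent.SH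


end

section

/-!
# MP_2d0b73_an, simplicial vector spaces over `F_2`: statements (helper26)
-/

open CategoryTheory MonoidalCategory Simplicial SSet HomotopicalAlgebra Opposite Limits

namespace Pool.Agent.SH

/-- The simplicial set underlying a simplicial `F_2`-vector space. -/
noncomputable abbrev toSS (M : SimplicialObject (ModuleCat.{0} (ZMod 2))) : SSet.{0} :=
  M ⋙ forget (ModuleCat.{0} (ZMod 2))

/-- (SV0) over a field, a monomorphic quasi-isomorphism of chain complexes splits. -/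
def SV_CH_Stmt : Prop :=
  ∀ (K L : ChainComplex (ModuleCat.{0} (ZMod 2)) ℕ) (φ : K ⟶ L), Mono φ → QuasiIso φ →
    ∃ r : L ⟶ K, φ ≫ r = 𝟙 K

/-- (SV1) maps to simplicial `F_2`-vector spaces extend along monomorphisms which are
`F_2`-homology isomorphisms. -/
def SV_EXT_Stmt : Prop :=
  ∀ (M : SimplicialObject (ModuleCat.{0} (ZMod 2))) (A B : SSet.{0}) (i : A ⟶ B), Mono i →
    F2Iso i → ∀ u : A ⟶ toSS M, ∃ v : B ⟶ toSS M, i ≫ v = u

/-- (SV1') the same for a simplicial set with a levelwise linear structure. -/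
def SV_EXT'_Stmt : Prop :=
  ∀ (V : SSet.{0}) (_ : ∀ n, AddCommGroup (V.obj n)) (_ : ∀ n, Module (ZMod 2) (V.obj n)),
    (∀ (m n : SimplexCategoryᵒᵖ) (a : m ⟶ n) (x y : V.obj m), V.map a (x + y) =
      V.map a x + V.map a y) →
    ∀ (A B : SSet.{0}) (i : A ⟶ B), Mono i →
    F2Iso i → ∀ u : A ⟶ V, ∃ v : B ⟶ V, i ≫ v = u

end Pool.Agent.SH


end

section

/-!
# MP_2d0b73_an: over a field, a monomorphic quasi-isomorphism of chain complexes splits
-/

open CategoryTheory Limits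

namespace Pool.Agent.SH

namespace SvCh

abbrev k2 : Type := ZMod 2

/-- elements as morphisms -/
noncomputable def el {M : ModuleCat.{0} k2} (x : M) : ModuleCat.of k2 k2 ⟶ M :=
  ModuleCat.ofHom (LinearMap.toSpanSingleton k2 M x)

theorem el_one {M : ModuleCat.{0} k2} (x : M) : (el x).hom (1 : k2) = x := by
  simp [el]

theorem hom_ext1 {M : ModuleCat.{0} k2} {f g : ModuleCat.of k2 k2 ⟶ M}
    (h : f.hom (1 : k2) = g.hom (1 : k2)) : f = g := by
  apply ModuleCat.hom_ext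
  exact LinearMap.ext_ring h

/-- injectivity on homology, elementwise -/
theorem inj_hom {K L : ChainComplex (ModuleCat.{0} k2) ℕ} (φ : K ⟶ L) (hφ : QuasiIso φ)
    (hinj : ∀ n, Function.Injective (φ.f n).hom) (n : ℕ) (x : K.X n)
    (hx : (φ.f n).hom x ∈ LinearMap.range (L.d (n + 1) n).hom) :
    x ∈ LinearMap.range (K.d (n + 1) n).hom := by
  -- x is a cycle
  have hcyc : ∀ j, (K.d n j).hom x = 0 := by
    intro j
    apply hinj j
    obtain ⟨y, hy⟩ := hx
    have e1 : (φ.f j).hom ((K.d n j).hom x) = (L.d n j).hom ((φ.f n).hom x) := by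
      have := congrArg (fun f => f.hom x) (φ.comm n j)
      exact this.symm
    rw [e1, ← hy, map_zero]
    have := congrArg (fun f => f.hom y) (L.d_comp_d (n + 1) n j)
    exact this
  have hc : el x ≫ K.d n ((ComplexShape.down ℕ).next n) = 0 := by
    apply hom_ext1
    have e1 : (el x ≫ K.d n ((ComplexShape.down ℕ).next n)).hom (1 : k2) =
      (K.d n ((ComplexShape.down ℕ).next n)).hom ((el x).hom (1 : k2)) := rfl
    rw [e1, el_one, hcyc]
    rfl
  set z := K.liftCycles (el x) _ rfl hc with hz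
  have hL : (el x ≫ φ.f n) ≫ L.pOpcycles n = 0 := by
    obtain ⟨y, hy⟩ := hx
    have e : el x ≫ φ.f n = el y ≫ L.d (n + 1) n := by
      apply hom_ext1
      have e1 : (el x ≫ φ.f n).hom (1 : k2) = (φ.f n).hom ((el x).hom (1 : k2)) := rfl
      have e2 : (el y ≫ L.d (n + 1) n).hom (1 : k2) =
        (L.d (n + 1) n).hom ((el y).hom (1 : k2)) := rfl
      rw [e1, e2, el_one, el_one, hy]
    rw [e, Category.assoc, L.d_pOpcycles, comp_zero]
  have h1 : (z ≫ K.homologyπ n) ≫ HomologicalComplex.homologyMap φ n = 0 := by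
    rw [← cancel_mono (L.homologyι n), zero_comp, Category.assoc, Category.assoc,
      HomologicalComplex.homologyι_naturality]
    rw [← hL, ← Category.assoc (K.homologyπ n), HomologicalComplex.homology_π_ι]
    rw [Category.assoc, HomologicalComplex.p_opcyclesMap, ← Category.assoc, hz,
      HomologicalComplex.liftCycles_i, Category.assoc]
  have h2 : z ≫ K.homologyπ n = 0 := by
    have : IsIso (HomologicalComplex.homologyMap φ n) := inferInstance
    rw [← cancel_mono (HomologicalComplex.homologyMap φ n), h1, zero_comp]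
  have h3 : el x ≫ K.pOpcycles n = 0 := by
    have e : el x ≫ K.pOpcycles n = (z ≫ K.homologyπ n) ≫ K.homologyι n := by
      rw [Category.assoc, HomologicalComplex.homology_π_ι, ← Category.assoc, hz,
        HomologicalComplex.liftCycles_i]
    rw [e, h2, zero_comp]
  have h4 : (K.pOpcycles n).hom x = 0 := by
    have h := congrArg (fun f => f.hom (1 : k2)) h3
    have e1 : (el x ≫ K.pOpcycles n).hom (1 : k2) =
      (K.pOpcycles n).hom ((el x).hom (1 : k2)) := rfl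
    have h' : (el x ≫ K.pOpcycles n).hom (1 : k2) = 0 := h
    rw [e1, el_one] at h'
    exact h'
  have h5 := (ShortComplex.moduleCat_pOpcycles_eq_zero_iff (K.sc n) x).1 h4
  obtain ⟨y, hy⟩ := h5
  have hprev : (ComplexShape.down ℕ).prev n = n + 1 := by simp
  have key : ∀ (i : ℕ) (y : K.X i), i = n + 1 → (K.d i n).hom y = x →
      x ∈ LinearMap.range (K.d (n + 1) n).hom := by
    rintro i y rfl h
    exact ⟨y, h⟩
  exact key _ y hprev hy

/-- the linear algebra step -/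
theorem step {K L K' : Type} [AddCommGroup K] [Module k2 K] [AddCommGroup L] [Module k2 L]
    [AddCommGroup K'] [Module k2 K'] (i : K →ₗ[k2] L) (hi : Function.Injective i)
    (dK : K →ₗ[k2] K') (g : L →ₗ[k2] K') (hg : g ∘ₗ i = dK)
    (hr : LinearMap.range g ≤ LinearMap.range dK) (E : Submodule k2 L)
    (hE : Disjoint E (LinearMap.range i)) (hgE : ∀ e ∈ E, g e = 0) :
    ∃ r : L →ₗ[k2] K, r ∘ₗ i = LinearMap.id ∧ (∀ e ∈ E, r e = 0) ∧ dK ∘ₗ r = g := by
  -- a retraction vanishing on `E`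
  obtain ⟨r0, hr0, hr0E⟩ : ∃ r0 : L →ₗ[k2] K, r0 ∘ₗ i = LinearMap.id ∧ ∀ e ∈ E, r0 e = 0 := by
    have hinj : Function.Injective (E.mkQ ∘ₗ i) := by
      rw [← LinearMap.ker_eq_bot, LinearMap.ker_eq_bot']
      intro x hx
      have : i x ∈ E := by simpa using hx
      have h0 : i x = 0 := by
        have := (Submodule.disjoint_def.1 hE) _ this ⟨x, rfl⟩
        exact this
      exact hi (by rw [h0, map_zero])
    obtain ⟨s, hs⟩ := LinearMap.exists_leftInverse_of_injective (E.mkQ ∘ₗ i)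
      (LinearMap.ker_eq_bot.2 hinj)
    refine ⟨s ∘ₗ E.mkQ, by rw [LinearMap.comp_assoc, hs], ?_⟩
    intro e he
    have : E.mkQ e = 0 := by simpa using he
    simp only [LinearMap.comp_apply, this, map_zero]
  obtain ⟨s, hs⟩ := LinearMap.exists_rightInverse_of_surjective dK.rangeRestrict
    (LinearMap.range_rangeRestrict dK)
  have hmem : ∀ l, (g - dK ∘ₗ r0) l ∈ LinearMap.range dK := by
    intro l
    refine Submodule.sub_mem _ (hr ⟨l, rfl⟩) ⟨r0 l, rfl⟩
  let e : L →ₗ[k2] LinearMap.range dK := LinearMap.codRestrict _ (g - dK ∘ₗ r0) hmem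
  have hds : ∀ y : LinearMap.range dK, dK (s y) = y := by
    intro y
    have := LinearMap.congr_fun hs y
    exact congrArg Subtype.val this
  have ei : ∀ x, e (i x) = 0 := by
    intro x
    apply Subtype.ext
    have h1 : g (i x) = dK x := LinearMap.congr_fun hg x
    have h2 : r0 (i x) = x := LinearMap.congr_fun hr0 x
    simp [e, h1, h2]
  refine ⟨r0 + s ∘ₗ e, ?_, ?_, ?_⟩
  · apply LinearMap.ext
    intro x
    have h2 : r0 (i x) = x := LinearMap.congr_fun hr0 x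
    simp [h2, ei]
  · intro x hx
    have h1 : e x = 0 := by
      apply Subtype.ext
      simp [e, hgE x hx, hr0E x hx]
    simp [hr0E x hx, h1]
  · apply LinearMap.ext
    intro x
    have : dK (s (e x)) = g x - dK (r0 x) := by rw [hds]; rfl
    simp only [LinearMap.comp_apply, LinearMap.add_apply, map_add, this]
    abel

end SvCh

open SvCh in
/-- (SV0). -/
theorem sv_ch : SV_CH_Stmt := by
  intro K L φ hmono hq
  have hinj : ∀ n, Function.Injective (φ.f n).hom := by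
    intro n
    have : Mono (φ.f n) := inferInstance
    exact (ModuleCat.mono_iff_injective _).1 this
  have hcomm : ∀ i j (x : K.X i), (L.d i j).hom ((φ.f i).hom x) = (φ.f j).hom ((K.d i j).hom x) := by
    intro i j x
    have := congrArg (fun f => f.hom x) (φ.comm i j)
    exact this
  -- complements of the boundaries of `K` in the boundaries of `L`
  have hEx : ∀ n, ∃ E : Submodule k2 (L.X n), E ≤ LinearMap.range (L.d (n + 1) n).hom ∧
      Disjoint E (LinearMap.range (φ.f n).hom) ∧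
      LinearMap.range (L.d (n + 1) n).hom ≤
        E ⊔ (LinearMap.range (K.d (n + 1) n).hom).map (φ.f n).hom := by
    intro n
    set B := LinearMap.range (L.d (n + 1) n).hom
    set B' := (LinearMap.range (K.d (n + 1) n).hom).map (φ.f n).hom
    have hB' : B' ≤ B := by
      rintro _ ⟨_, ⟨y, rfl⟩, rfl⟩
      exact ⟨(φ.f (n + 1)).hom y, hcomm _ _ _⟩
    obtain ⟨C, hC⟩ := Submodule.exists_isCompl (B'.comap B.subtype)
    refine ⟨C.map B.subtype, ?_, ?_, ?_⟩
    · rintro _ ⟨y, _, rfl⟩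
      exact y.2
    · rw [Submodule.disjoint_def]
      rintro _ ⟨y, hy, rfl⟩ ⟨x, hx⟩
      have h1 : x ∈ LinearMap.range (K.d (n + 1) n).hom := by
        apply inj_hom φ hq hinj n x
        rw [hx]
        exact y.2
      have h2 : y ∈ B'.comap B.subtype := by
        change B.subtype y ∈ B'
        rw [← hx]
        exact ⟨x, h1, rfl⟩
      have h3 : y = 0 := (Submodule.disjoint_def.1 hC.disjoint) y h2 hy
      rw [h3, map_zero]
    · intro b hb
      have : (⟨b, hb⟩ : B) ∈ (B'.comap B.subtype) ⊔ C := by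
        rw [hC.sup_eq_top]; trivial
      obtain ⟨u, hu, v, hv, huv⟩ := Submodule.mem_sup.1 this
      refine Submodule.mem_sup.2 ⟨v, ⟨v, hv, rfl⟩, u, hu, ?_⟩
      have := congrArg Subtype.val huv
      simpa [add_comm] using this
  choose E hE1 hE2 hE3 using hEx
  let P : ℕ → Type := fun n => {r : L.X n →ₗ[k2] K.X n // r ∘ₗ (φ.f n).hom = LinearMap.id ∧
    ∀ e ∈ E n, r e = 0}
  have hP : ∀ n (r : P n), ∀ b ∈ LinearMap.range (L.d (n + 1) n).hom,
      r.1 b ∈ LinearMap.range (K.d (n + 1) n).hom := by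
    intro n r b hb
    obtain ⟨u, hu, v, ⟨w, hw, rfl⟩, rfl⟩ := Submodule.mem_sup.1 (hE3 n hb)
    rw [map_add, r.2.2 u hu, zero_add]
    have : r.1 ((φ.f n).hom w) = w := LinearMap.congr_fun r.2.1 w
    rw [this]
    exact hw
  obtain ⟨r0, -⟩ : ∃ r0 : P 0, True := by
    obtain ⟨r, h1, h2, -⟩ := step (φ.f 0).hom (hinj 0) (0 : K.X 0 →ₗ[k2] K.X 0) 0
      (by simp) (by simp) (E 0) (hE2 0) (by simp)
    exact ⟨⟨r, h1, h2⟩, trivial⟩
  have hstep : ∀ n (r : P n), ∃ r' : P (n + 1),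
      (K.d (n + 1) n).hom ∘ₗ r'.1 = r.1 ∘ₗ (L.d (n + 1) n).hom := by
    intro n r
    obtain ⟨r', h1, h2, h3⟩ := step (φ.f (n + 1)).hom (hinj (n + 1)) (K.d (n + 1) n).hom
      (r.1 ∘ₗ (L.d (n + 1) n).hom)
      (by
        apply LinearMap.ext
        intro x
        have e1 : (L.d (n + 1) n).hom ((φ.f (n + 1)).hom x) =
          (φ.f n).hom ((K.d (n + 1) n).hom x) := hcomm _ _ _
        have e2 : r.1 ((φ.f n).hom ((K.d (n + 1) n).hom x)) = (K.d (n + 1) n).hom x :=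
          LinearMap.congr_fun r.2.1 _
        simp only [LinearMap.comp_apply, e1, e2])
      (by
        rintro _ ⟨l, rfl⟩
        exact hP n r _ ⟨l, rfl⟩)
      (E (n + 1)) (hE2 (n + 1))
      (by
        intro e he
        obtain ⟨y, hy⟩ := hE1 (n + 1) he
        have : (L.d (n + 1) n).hom e = 0 := by
          rw [← hy]
          have := congrArg (fun f => f.hom y) (L.d_comp_d (n + 1 + 1) (n + 1) n)
          exact this
        simp only [LinearMap.comp_apply, this, map_zero])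
    exact ⟨⟨r', h1, h2⟩, h3⟩
  choose nxt hnxt using hstep
  let R : ∀ n, P n := fun n => Nat.rec r0 (fun n r => nxt n r) n
  have hR : ∀ n, (K.d (n + 1) n).hom ∘ₗ (R (n + 1)).1 = (R n).1 ∘ₗ (L.d (n + 1) n).hom :=
    fun n => hnxt n (R n)
  refine ⟨{ f := fun n => ModuleCat.ofHom (R n).1, comm' := ?_ }, ?_⟩
  · rintro i j (rfl : j + 1 = i)
    apply ModuleCat.hom_ext
    exact hR j
  · ext n x
    exact LinearMap.congr_fun (R n).2.1 x

end Pool.Agent.SH


end

section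

/-!
# MP_2d0b73_an: extension of maps to simplicial vector spaces over `F_2`
-/

open CategoryTheory MonoidalCategory Simplicial SSet HomotopicalAlgebra Opposite Limits

namespace Pool.Agent.SH.SvExt

/-- The free simplicial module on a simplicial set. -/
noncomputable abbrev FS : SSet.{0} ⥤ SimplicialObject (ModuleCat.{0} (ZMod 2)) :=
  (sigmaConst ⋙ SimplicialObject.whiskering (Type) (ModuleCat.{0} (ZMod 2))).obj F2

noncomputable abbrev gen {A : SSet.{0}} {m : SimplexCategoryᵒᵖ} (x : A.obj m) :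
    F2 ⟶ (FS.obj A).obj m :=
  Sigma.ι (fun _ : A.obj m => F2) x

theorem gen_map {A : SSet.{0}} {m n : SimplexCategoryᵒᵖ} (a : m ⟶ n) (x : A.obj m) :
    gen x ≫ (FS.obj A).map a = gen (A.map a x) := by
  have h := Sigma.ι_comp_map' (f := fun _ : A.obj m => F2) (g := fun _ : A.obj n => F2)
    (fun y => A.map a y) (fun _ => 𝟙 F2) x
  rw [Category.id_comp] at h
  exact h

theorem gen_app {A B : SSet.{0}} (i : A ⟶ B) (m : SimplexCategoryᵒᵖ) (x : A.obj m) :
    gen x ≫ (FS.map i).app m = gen (i.app m x) := by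
  have h := Sigma.ι_comp_map' (f := fun _ : A.obj m => F2) (g := fun _ : B.obj m => F2)
    (fun y => i.app m y) (fun _ => 𝟙 F2) x
  rw [Category.id_comp] at h
  exact h

/-- The linear map from the coefficients with prescribed value at `1`. -/
noncomputable def toM (M : ModuleCat.{0} (ZMod 2)) (y : M) : F2 ⟶ M :=
  ModuleCat.ofHom (LinearMap.toSpanSingleton (ZMod 2) M y)

theorem toM_one (M : ModuleCat.{0} (ZMod 2)) (y : M) :
    (toM M y) (1 : ZMod 2) = y := by
  change (LinearMap.toSpanSingleton (ZMod 2) M y) 1 = y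
  simp

theorem hom_ext_one {M : ModuleCat.{0} (ZMod 2)} (f g : F2 ⟶ M)
    (h : f (1 : ZMod 2) = g (1 : ZMod 2)) : f = g := by
  apply ModuleCat.hom_ext
  apply LinearMap.ext_ring
  exact h

/-- Linear extension on one level. -/
noncomputable def linM {A : SSet.{0}} {m : SimplexCategoryᵒᵖ} (N : ModuleCat.{0} (ZMod 2))
    (g : A.obj m → N) : (FS.obj A).obj m ⟶ N :=
  Sigma.desc (fun x : A.obj m => toM N (g x))

theorem gen_linM {A : SSet.{0}} {m : SimplexCategoryᵒᵖ} (N : ModuleCat.{0} (ZMod 2))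
    (g : A.obj m → N) (x : A.obj m) : gen x ≫ linM N g = toM N (g x) :=
  Sigma.ι_desc _ _

theorem FS_hom_ext {A : SSet.{0}} {m : SimplexCategoryᵒᵖ} {N : ModuleCat.{0} (ZMod 2)}
    (f g : (FS.obj A).obj m ⟶ N) (h : ∀ x : A.obj m, gen x ≫ f = gen x ≫ g) : f = g :=
  Sigma.hom_ext _ _ h

/-- The linear extension of a map to a simplicial module. -/
noncomputable def lin (M : SimplicialObject (ModuleCat.{0} (ZMod 2))) {A : SSet.{0}}
    (u : A ⟶ toSS M) : FS.obj A ⟶ M where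
  app m := linM (M.obj m) (fun x => u.app m x)
  naturality := by
    intro m n a
    apply FS_hom_ext
    intro x
    rw [← Category.assoc, gen_map a x, gen_linM, ← Category.assoc, gen_linM]
    apply hom_ext_one
    rw [toM_one]
    have h2 : (toM (M.obj m) (u.app m x) ≫ M.map a) (1 : ZMod 2) =
        M.map a ((toM (M.obj m) (u.app m x)) (1 : ZMod 2)) := rfl
    rw [h2, toM_one]
    exact ConcreteCategory.congr_hom (u.naturality a) x

theorem gen_lin (M : SimplicialObject (ModuleCat.{0} (ZMod 2))) {A : SSet.{0}}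
    (u : A ⟶ toSS M) (m : SimplexCategoryᵒᵖ) (x : A.obj m) :
    gen x ≫ (lin M u).app m = toM (M.obj m) (u.app m x) :=
  gen_linM (M.obj m) (fun x => u.app m x) x

/-- The map of simplicial sets belonging to a map from the free simplicial module. -/
noncomputable def unlin (M : SimplicialObject (ModuleCat.{0} (ZMod 2))) {A : SSet.{0}}
    (w : FS.obj A ⟶ M) : A ⟶ toSS M where
  app m := ↾ (fun x : A.obj m => (((gen x ≫ w.app m) (1 : ZMod 2) : M.obj m)))
  naturality := by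
    intro m n a
    apply ConcreteCategory.hom_ext
    intro x
    change ((gen (A.map a x) ≫ w.app n) (1 : ZMod 2) : M.obj n) =
      M.map a ((gen x ≫ w.app m) (1 : ZMod 2))
    rw [← gen_map, Category.assoc, w.naturality]
    rfl

theorem mono_FS {A B : SSet.{0}} (i : A ⟶ B) [Mono i] : Mono (FS.map i) := by
  have hi : ∀ m, Mono (i.app m) := (NatTrans.mono_iff_mono_app i).1 inferInstance
  have h : ∀ m, Mono ((FS.map i).app m) := by
    intro m
    have := hi m
    change Mono ((sigmaConst.obj F2).map (i.app m))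
    infer_instance
  exact NatTrans.mono_of_mono_app _

theorem quasi_N {A B : SSet.{0}} (i : A ⟶ B) (hi : F2Iso i) :
    QuasiIso ((AlgebraicTopology.normalizedMooreComplex (ModuleCat.{0} (ZMod 2))).map
      (FS.map i)) := by
  have h1 : QuasiIso (chainComplexMap i F2) := by
    rw [quasiIso_iff]
    intro n
    rw [quasiIsoAt_iff_isIso_homologyMap]
    exact hi n
  have h2 : QuasiIso ((AlgebraicTopology.alternatingFaceMapComplex
      (ModuleCat.{0} (ZMod 2))).map (FS.map i)) := h1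
  have h3 : ∀ Y : SimplicialObject (ModuleCat.{0} (ZMod 2)),
      QuasiIso ((AlgebraicTopology.inclusionOfMooreComplex (ModuleCat.{0} (ZMod 2))).app Y) :=
    fun Y => HomotopyEquiv.quasiIso_hom
      (AlgebraicTopology.DoldKan.homotopyEquivNormalizedMooreComplexAlternatingFaceMapComplex
        (Y := Y))
  have h4 := h3 (FS.obj A)
  have h5 := h3 (FS.obj B)
  have h6 := (AlgebraicTopology.inclusionOfMooreComplex (ModuleCat.{0} (ZMod 2))).naturality
    (FS.map i)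
  have h7 : QuasiIso ((AlgebraicTopology.normalizedMooreComplex
      (ModuleCat.{0} (ZMod 2))).map (FS.map i) ≫
      (AlgebraicTopology.inclusionOfMooreComplex (ModuleCat.{0} (ZMod 2))).app (FS.obj B)) := by
    rw [h6]
    infer_instance
  exact quasiIso_of_comp_right _
    ((AlgebraicTopology.inclusionOfMooreComplex (ModuleCat.{0} (ZMod 2))).app (FS.obj B))

end Pool.Agent.SH.SvExt

namespace Pool.Agent.SH

theorem sv_ext (h : SV_CH_Stmt) : SV_EXT_Stmt := by
  intro M A B i hi hF u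
  have h1 := SvExt.quasi_N i hF
  have h2 := SvExt.mono_FS i
  let E := Abelian.DoldKan.equivalence (A := ModuleCat.{0} (ZMod 2))
  have h3 : Mono (E.functor.map (SvExt.FS.map i)) := inferInstance
  obtain ⟨r, hr⟩ := h _ _ (E.functor.map (SvExt.FS.map i)) h3 h1
  obtain ⟨ρ, hρ⟩ := E.functor.map_surjective r
  have h4 : SvExt.FS.map i ≫ ρ = 𝟙 _ := by
    apply E.functor.map_injective
    rw [CategoryTheory.Functor.map_comp, hρ, hr, CategoryTheory.Functor.map_id]
  refine ⟨SvExt.unlin M (ρ ≫ SvExt.lin M u), ?_⟩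
  ext m x
  change ((SvExt.gen (i.app m x) ≫ (ρ ≫ SvExt.lin M u).app m) (1 : ZMod 2) : M.obj m) =
    u.app m x
  rw [← SvExt.gen_app]
  have h5 : (SvExt.gen x ≫ (SvExt.FS.map i).app m) ≫ (ρ ≫ SvExt.lin M u).app m =
      SvExt.toM (M.obj m) (u.app m x) := by
    rw [Category.assoc, ← NatTrans.comp_app, ← Category.assoc (SvExt.FS.map i), h4,
      Category.id_comp, SvExt.gen_lin]
  rw [h5, SvExt.toM_one]

theorem sv_ext' (h : SV_EXT_Stmt) : SV_EXT'_Stmt := by
  intro V hV1 hV2 hV A B i hi hF u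
  let M : SimplicialObject (ModuleCat.{0} (ZMod 2)) :=
    { obj := fun n => ModuleCat.of (ZMod 2) (V.obj n)
      map := fun {m n} a => ModuleCat.ofHom (AddMonoidHom.toZModLinearMap 2
        (AddMonoidHom.mk' (fun x : V.obj m => V.map a x) (fun x y => hV m n a x y)))
      map_id := by
        intro m
        apply ModuleCat.hom_ext
        apply LinearMap.ext
        intro x
        change V.map (𝟙 m) x = x
        simp
      map_comp := by
        intro l m n a b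
        apply ModuleCat.hom_ext
        apply LinearMap.ext
        intro x
        change V.map (a ≫ b) x = V.map b (V.map a x)
        simp }
  let u' : A ⟶ toSS M :=
    { app := fun m => ↾ (fun x : A.obj m => (u.app m x : V.obj m))
      naturality := by
        intro m n a
        apply ConcreteCategory.hom_ext
        intro x
        exact ConcreteCategory.congr_hom (u.naturality a) x }
  obtain ⟨v', hv'⟩ := h M A B i hi hF u'
  refine ⟨{ app := fun m => ↾ (fun y : B.obj m => (v'.app m y : V.obj m))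
            naturality := ?_ }, ?_⟩
  · intro m n a
    apply ConcreteCategory.hom_ext
    intro x
    exact ConcreteCategory.congr_hom (v'.naturality a) x
  · ext m x
    exact ConcreteCategory.congr_hom (congrArg (fun f => NatTrans.app f m) hv') x

end Pool.Agent.SH


end

section

/-!
# MP_2d0b73_an, block TE, module SH_F2_COPR: `F_2`-homology isomorphisms

Elementwise form `f2_elem` of `F2Iso`, and the fields `iso`, `comp`, `cancelL`, `cancelR`, `six`,
`proj`, `copr`, `seq` of `WClass F2Iso`.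
-/

open CategoryTheory MonoidalCategory Simplicial SSet HomotopicalAlgebra Opposite Limits
open SSet.modelCategoryQuillen

namespace Pool.Agent.SH.F2Copr

/-! ## Homology in `ModuleCat` by elements -/

section Elem

variable {R : Type} [Ring R] {K L : ChainComplex (ModuleCat.{0} R) ℕ} (φ : K ⟶ L)

/-- maps from the free module of rank one. -/
noncomputable def pt (M : ModuleCat.{0} R) (m : M) : ModuleCat.of R R ⟶ M :=
  ModuleCat.ofHom (LinearMap.toSpanSingleton R M m)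

@[simp] theorem pt_one (M : ModuleCat.{0} R) (m : M) : (ConcreteCategory.hom (pt M m)) 1 = m :=
  one_smul R m

theorem pt_ext {M : ModuleCat.{0} R} {f g : ModuleCat.of R R ⟶ M}
    (h : (ConcreteCategory.hom f) 1 = (ConcreteCategory.hom g) 1) : f = g :=
  ModuleCat.hom_ext (LinearMap.ext_ring h)

theorem mono_iff (i j k : ℕ) (hi : (ComplexShape.down ℕ).prev j = i)
    (hk : (ComplexShape.down ℕ).next j = k) :
    Mono (HomologicalComplex.homologyMap φ j) ↔
      ∀ x : K.X j, K.d j k x = 0 → (∃ w : L.X i, φ.f j x = L.d i j w) →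
        ∃ u : K.X i, x = K.d i j u := by
  rw [HomologicalComplex.mono_homologyMap_iff_up_to_refinements φ i j k hi hk]
  constructor
  · intro h x hx hw
    obtain ⟨w, hw⟩ := hw
    obtain ⟨A', π, hπ, x₁, e⟩ := h (pt _ x) (pt_ext (by
      rw [ConcreteCategory.comp_apply, pt_one]
      exact hx)) (pt _ w) (pt_ext (by
      rw [ConcreteCategory.comp_apply, ConcreteCategory.comp_apply, pt_one, pt_one]
      exact hw))
    obtain ⟨a, ha⟩ := (ModuleCat.epi_iff_surjective π).1 hπ 1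
    refine ⟨x₁ a, ?_⟩
    have := ConcreteCategory.congr_hom e a
    simp only [ConcreteCategory.comp_apply] at this
    rw [ha, pt_one] at this
    exact this
  · intro h A x₂ h2 y₁ h1
    have hx : ∀ a : A, ∃ u : K.X i, x₂ a = K.d i j u := by
      intro a
      apply h
      · have := ConcreteCategory.congr_hom h2 a
        simpa using this
      · refine ⟨y₁ a, ?_⟩
        have := ConcreteCategory.congr_hom h1 a
        simpa using this
    choose u hu using hx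
    refine ⟨ModuleCat.of R (A →₀ R), ModuleCat.ofHom (Finsupp.linearCombination R (fun a : A => a)),
      ?_, ModuleCat.ofHom (Finsupp.linearCombination R u), ?_⟩
    · rw [ModuleCat.epi_iff_surjective]
      intro a
      exact ⟨Finsupp.single a 1, by simp⟩
    · ext a
      simp [hu]

theorem epi_iff (i j k : ℕ) (hi : (ComplexShape.down ℕ).prev j = i)
    (hk : (ComplexShape.down ℕ).next j = k) :
    Epi (HomologicalComplex.homologyMap φ j) ↔
      ∀ y : L.X j, L.d j k y = 0 →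
        ∃ x : K.X j, K.d j k x = 0 ∧ ∃ w : L.X i, y = φ.f j x + L.d i j w := by
  rw [HomologicalComplex.epi_homologyMap_iff_up_to_refinements φ i j k hi hk]
  constructor
  · intro h y hy
    obtain ⟨A', π, hπ, x₂, hx₂, y₁, e⟩ := h (pt _ y) (pt_ext (by
      rw [ConcreteCategory.comp_apply, pt_one]
      exact hy))
    obtain ⟨a, ha⟩ := (ModuleCat.epi_iff_surjective π).1 hπ 1
    refine ⟨x₂ a, ?_, y₁ a, ?_⟩
    · have := ConcreteCategory.congr_hom hx₂ a
      simpa using this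
    · have := ConcreteCategory.congr_hom e a
      simp only [ConcreteCategory.comp_apply] at this
      rw [ha, pt_one] at this
      exact this
  · intro h A y₂ h2
    have hx : ∀ a : A, ∃ x : K.X j, K.d j k x = 0 ∧
        ∃ w : L.X i, y₂ a = φ.f j x + L.d i j w := by
      intro a
      apply h
      have := ConcreteCategory.congr_hom h2 a
      simpa using this
    choose u hu w hw using hx
    refine ⟨ModuleCat.of R (A →₀ R), ModuleCat.ofHom (Finsupp.linearCombination R (fun a : A => a)),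
      ?_, ModuleCat.ofHom (Finsupp.linearCombination R u), ?_,
      ModuleCat.ofHom (Finsupp.linearCombination R w), ?_⟩
    · rw [ModuleCat.epi_iff_surjective]
      intro a
      exact ⟨Finsupp.single a 1, by simp⟩
    · ext a
      simp [hu]
    · ext a
      simp [hw]

theorem iso_iff (i j k : ℕ) (hi : (ComplexShape.down ℕ).prev j = i)
    (hk : (ComplexShape.down ℕ).next j = k) :
    IsIso (HomologicalComplex.homologyMap φ j) ↔
      (∀ y : L.X j, L.d j k y = 0 →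
        ∃ x : K.X j, K.d j k x = 0 ∧ ∃ w : L.X i, y = φ.f j x + L.d i j w) ∧
      (∀ x : K.X j, K.d j k x = 0 → (∃ w : L.X i, φ.f j x = L.d i j w) →
        ∃ u : K.X i, x = K.d i j u) := by
  rw [← mono_iff φ i j k hi hk, ← epi_iff φ i j k hi hk]
  constructor
  · intro h
    exact ⟨inferInstance, inferInstance⟩
  · rintro ⟨h1, h2⟩
    exact isIso_of_mono_of_epi _

end Elem

/-! ## Chains as finitely supported functions -/

/-- `n`-chains of `X` with coefficients in `ZMod 2`. -/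
abbrev Ch (X : SSet.{0}) (n : ℕ) : Type := X _⦋n⦌ →₀ ZMod 2

/-- The boundary operator. -/
noncomputable def bd (X : SSet.{0}) (n : ℕ) : Ch X (n + 1) →ₗ[ZMod 2] Ch X n :=
  ∑ i : Fin (n + 2), Finsupp.lmapDomain (ZMod 2) (ZMod 2) (X.δ i)

/-- The map on chains. -/
noncomputable def push {X Y : SSet.{0}} (f : X ⟶ Y) (n : ℕ) : Ch X n →ₗ[ZMod 2] Ch Y n :=
  Finsupp.lmapDomain (ZMod 2) (ZMod 2) (f.app (op ⦋n⦌))

theorem push_single {X Y : SSet.{0}} (f : X ⟶ Y) (n : ℕ) (x : X _⦋n⦌) (r : ZMod 2) :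
    push f n (Finsupp.single x r) = Finsupp.single (f.app (op ⦋n⦌) x) r := by
  simp [push, Finsupp.mapDomain_single]

theorem bd_single {X : SSet.{0}} (n : ℕ) (x : X _⦋n + 1⦌) (r : ZMod 2) :
    bd X n (Finsupp.single x r) = ∑ i : Fin (n + 2), Finsupp.single (X.δ i x) r := by
  simp [bd, Finsupp.mapDomain_single]

/-- The comparison of the chain complex with finitely supported functions. -/
noncomputable def toF (X : SSet.{0}) (n : ℕ) :
    (X.chainComplex F2).X n ⟶ ModuleCat.of (ZMod 2) (Ch X n) :=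
  Cofan.IsColimit.desc (X.isColimitChainComplexXCofan F2 n)
    (fun x => ModuleCat.ofHom (Finsupp.lsingle x))

theorem ι_toF (X : SSet.{0}) (n : ℕ) (x : X _⦋n⦌) :
    X.ιChainComplex x ≫ toF X n = ModuleCat.ofHom (Finsupp.lsingle x) :=
  Cofan.IsColimit.fac (X.isColimitChainComplexXCofan F2 n) _ x

/-- The inverse comparison. -/
noncomputable def ofF (X : SSet.{0}) (n : ℕ) :
    ModuleCat.of (ZMod 2) (Ch X n) ⟶ (X.chainComplex F2).X n :=
  ModuleCat.ofHom (Finsupp.lsum (ZMod 2) (fun x => (X.ιChainComplex (R := F2) x).hom))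

theorem toF_ofF (X : SSet.{0}) (n : ℕ) : toF X n ≫ ofF X n = 𝟙 _ := by
  apply SSet.chainComplex_hom_ext
  intro x
  rw [← Category.assoc, ι_toF, Category.comp_id]
  apply pt_ext
  rw [ConcreteCategory.comp_apply]
  exact (Finsupp.lsum_single (ZMod 2) (fun x => (X.ιChainComplex (R := F2) x).hom) x 1)

theorem ofF_toF (X : SSet.{0}) (n : ℕ) : ofF X n ≫ toF X n = 𝟙 _ := by
  apply ModuleCat.hom_ext
  apply Finsupp.lhom_ext'
  intro x
  have := congrArg ModuleCat.Hom.hom (ι_toF X n x)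
  apply LinearMap.ext_ring
  have h2 : (ofF X n).hom (Finsupp.single x 1) = (X.ιChainComplex (R := F2) x).hom 1 :=
    Finsupp.lsum_single (ZMod 2) (fun x => (X.ιChainComplex (R := F2) x).hom) x 1
  have h3 := congrArg (fun φ => φ 1) this
  simp only [ModuleCat.hom_comp, ModuleCat.hom_ofHom, LinearMap.comp_apply,
    Finsupp.lsingle_apply, ModuleCat.hom_id, LinearMap.id_apply] at h3 ⊢
  rw [h2]
  exact h3

theorem map_toF {X Y : SSet.{0}} (f : X ⟶ Y) (n : ℕ) :
    (SSet.chainComplexMap f F2).f n ≫ toF Y n = toF X n ≫ ModuleCat.ofHom (push f n) := by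
  apply SSet.chainComplex_hom_ext
  intro x
  rw [ι_chainComplexMap_f_assoc, ι_toF, ← Category.assoc, ι_toF]
  ext
  simp [push_single]

theorem neg_one_pow_smul {A B : ModuleCat.{0} (ZMod 2)} (f : A ⟶ B) (j : ℕ) :
    ((-1 : ℤ) ^ j) • f = f := by
  have h2 : -f = f := by
    apply ModuleCat.hom_ext
    apply LinearMap.ext
    intro x
    have h3 : (2 : ZMod 2) • f.hom x = 0 := by
      rw [show (2 : ZMod 2) = 0 from rfl, zero_smul]
    rw [two_smul] at h3
    simp only [ModuleCat.hom_neg, LinearMap.neg_apply]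
    exact (eq_neg_of_add_eq_zero_left h3).symm
  rcases neg_one_pow_eq_or ℤ j with h | h
  · rw [h, one_smul]
  · rw [h, neg_smul, one_smul, h2]

theorem d_toF (X : SSet.{0}) (n : ℕ) :
    (X.chainComplex F2).d (n + 1) n ≫ toF X n = toF X (n + 1) ≫ ModuleCat.ofHom (bd X n) := by
  apply SSet.chainComplex_hom_ext
  intro x
  rw [ιChainComplex_d_assoc, Preadditive.sum_comp, ← Category.assoc, ι_toF]
  have h1 : ∀ j : Fin (n + 2),
      ((-1 : ℤ) ^ (j : ℕ) • X.ιChainComplex (R := F2) (X.δ j x)) ≫ toF X n =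
        ModuleCat.ofHom (Finsupp.lsingle (X.δ j x)) := by
    intro j
    rw [neg_one_pow_smul, ι_toF]
  rw [Finset.sum_congr rfl (fun j _ => h1 j)]
  apply ModuleCat.hom_ext
  apply LinearMap.ext
  intro r
  simp only [ModuleCat.hom_sum, ModuleCat.hom_comp, ModuleCat.hom_ofHom, LinearMap.comp_apply,
    LinearMap.sum_apply, Finsupp.lsingle_apply]
  exact (bd_single n x r).symm

/-- Cycles. -/
def Cyc (X : SSet.{0}) (n : ℕ) : Ch X n → Prop :=
  match n with
  | 0 => fun _ => True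
  | m + 1 => fun c => bd X m c = 0

/-- The comparison on elements. -/
noncomputable def tx (X : SSet.{0}) (n : ℕ) : (X.chainComplex F2).X n → Ch X n :=
  fun x => (toF X n).hom x

/-- The inverse comparison on elements. -/
noncomputable def sx (X : SSet.{0}) (n : ℕ) : Ch X n → (X.chainComplex F2).X n :=
  fun x => (ofF X n).hom x

theorem tx_sx (X : SSet.{0}) (n : ℕ) (c : Ch X n) : tx X n (sx X n c) = c :=
  ConcreteCategory.congr_hom (ofF_toF X n) c

theorem sx_tx (X : SSet.{0}) (n : ℕ) (c : (X.chainComplex F2).X n) : sx X n (tx X n c) = c :=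
  ConcreteCategory.congr_hom (toF_ofF X n) c

theorem tx_inj {X : SSet.{0}} {n : ℕ} {a b : (X.chainComplex F2).X n}
    (h : tx X n a = tx X n b) : a = b := by
  rw [← sx_tx X n a, ← sx_tx X n b, h]

theorem tx_add (X : SSet.{0}) (n : ℕ) (a b : (X.chainComplex F2).X n) :
    tx X n (a + b) = tx X n a + tx X n b :=
  map_add (toF X n).hom a b

theorem tx_zero (X : SSet.{0}) (n : ℕ) : tx X n 0 = 0 :=
  map_zero (toF X n).hom

theorem tx_map {X Y : SSet.{0}} (f : X ⟶ Y) (n : ℕ) (x : (X.chainComplex F2).X n) :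
    tx Y n ((SSet.chainComplexMap f F2).f n x) = push f n (tx X n x) :=
  ConcreteCategory.congr_hom (map_toF f n) x

theorem tx_d (X : SSet.{0}) (n : ℕ) (x : (X.chainComplex F2).X (n + 1)) :
    tx X n ((X.chainComplex F2).d (n + 1) n x) = bd X n (tx X (n + 1) x) :=
  ConcreteCategory.congr_hom (d_toF X n) x

theorem tx_cyc (X : SSet.{0}) (n : ℕ) (x : (X.chainComplex F2).X n) :
    (X.chainComplex F2).d n ((ComplexShape.down ℕ).next n) x = 0 ↔ Cyc X n (tx X n x) := by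
  cases n with
  | zero =>
    have h : (X.chainComplex F2).d 0 ((ComplexShape.down ℕ).next 0) = 0 := by
      apply (X.chainComplex F2).shape
      intro h
      simp [ComplexShape.down] at h
    rw [h]
    simp [Cyc]
  | succ m =>
    have h : (ComplexShape.down ℕ).next (m + 1) = m := ChainComplex.next_nat_succ m
    rw [h]
    show _ ↔ bd X m (tx X (m + 1) x) = 0
    rw [← tx_d]
    constructor
    · intro h
      rw [h, tx_zero]
    · intro h
      apply tx_inj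
      rw [h, tx_zero]

/-- Elementwise form of `F2Iso`. -/
theorem elem {X Y : SSet.{0}} (f : X ⟶ Y) : F2Iso f ↔ ∀ n : ℕ,
    (∀ y : Ch Y n, Cyc Y n y → ∃ x : Ch X n, Cyc X n x ∧ ∃ w : Ch Y (n + 1),
      y = push f n x + bd Y n w) ∧
    (∀ x : Ch X n, Cyc X n x → (∃ w : Ch Y (n + 1), push f n x = bd Y n w) →
      ∃ u : Ch X (n + 1), x = bd X n u) := by
  unfold F2Iso
  apply forall_congr'
  intro n
  rw [show IsIso (SSet.homologyMap f F2 n) ↔ _ from
    iso_iff (SSet.chainComplexMap f F2) (n + 1) n _ (ChainComplex.prev ℕ n) rfl]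
  constructor
  · rintro ⟨h1, h2⟩
    refine ⟨fun y hy => ?_, fun x hx hw => ?_⟩
    · obtain ⟨x, hx, w, hw⟩ := h1 (sx Y n y) ((tx_cyc Y n _).2 (by rwa [tx_sx]))
      refine ⟨tx X n x, (tx_cyc X n x).1 hx, tx Y (n + 1) w, ?_⟩
      rw [← tx_map, ← tx_d, ← tx_add, ← hw, tx_sx]
    · obtain ⟨w, hw⟩ := hw
      obtain ⟨u, hu⟩ := h2 (sx X n x) ((tx_cyc X n _).2 (by rwa [tx_sx])) ⟨sx Y (n + 1) w, by
        apply tx_inj
        rw [tx_map, tx_d, tx_sx, tx_sx, hw]⟩
      refine ⟨tx X (n + 1) u, ?_⟩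
      rw [← tx_d, ← hu, tx_sx]
  · rintro ⟨h1, h2⟩
    refine ⟨fun y hy => ?_, fun x hx hw => ?_⟩
    · obtain ⟨x, hx, w, hw⟩ := h1 (tx Y n y) ((tx_cyc Y n _).1 hy)
      refine ⟨sx X n x, (tx_cyc X n _).2 (by rwa [tx_sx]), sx Y (n + 1) w, ?_⟩
      apply tx_inj
      rw [tx_add, tx_map, tx_d, tx_sx, tx_sx, hw]
    · obtain ⟨w, hw⟩ := hw
      obtain ⟨u, hu⟩ := h2 (tx X n x) ((tx_cyc X n _).1 hx) ⟨tx Y (n + 1) w, by
        rw [← tx_map, ← tx_d, hw]⟩
      refine ⟨sx X (n + 1) u, ?_⟩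
      apply tx_inj
      rw [tx_d, tx_sx, hu]

/-! ## Formal properties -/

theorem f2c_iso {X Y : SSet.{0}} (f : X ⟶ Y) (hf : IsIso f) : F2Iso f := by
  intro n
  refine ⟨SSet.homologyMap (inv f) F2 n, ?_, ?_⟩
  · rw [← SSet.homologyMap_comp, IsIso.hom_inv_id, SSet.homologyMap_id]
  · rw [← SSet.homologyMap_comp, IsIso.inv_hom_id, SSet.homologyMap_id]

theorem f2c_comp {X Y Z : SSet.{0}} (f : X ⟶ Y) (g : Y ⟶ Z) (hf : F2Iso f) (hg : F2Iso g) :
    F2Iso (f ≫ g) := by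
  intro n
  have h1 := hf n
  have h2 := hg n
  rw [SSet.homologyMap_comp]
  exact IsIso.comp_isIso

theorem f2c_cancelL {X Y Z : SSet.{0}} (f : X ⟶ Y) (g : Y ⟶ Z) (hf : F2Iso f)
    (hg : F2Iso (f ≫ g)) : F2Iso g := by
  intro n
  have h1 := hf n
  have h2 := hg n
  rw [SSet.homologyMap_comp] at h2
  exact IsIso.of_isIso_comp_left (SSet.homologyMap f F2 n) (SSet.homologyMap g F2 n)

theorem f2c_cancelR {X Y Z : SSet.{0}} (f : X ⟶ Y) (g : Y ⟶ Z) (hf : F2Iso g)
    (hg : F2Iso (f ≫ g)) : F2Iso f := by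
  intro n
  have h1 := hf n
  have h2 := hg n
  rw [SSet.homologyMap_comp] at h2
  exact IsIso.of_isIso_comp_right (SSet.homologyMap f F2 n) (SSet.homologyMap g F2 n)

theorem f2c_six {X Y Z U : SSet.{0}} (f : X ⟶ Y) (g : Y ⟶ Z) (h : Z ⟶ U)
    (h1 : F2Iso (f ≫ g)) (h2 : F2Iso (g ≫ h)) : F2Iso g := by
  intro n
  have h3 := h1 n
  have h4 := h2 n
  rw [SSet.homologyMap_comp] at h3 h4
  have h5 : Mono (SSet.homologyMap g F2 n) := mono_of_mono _ (SSet.homologyMap h F2 n)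
  have h6 : Epi (SSet.homologyMap g F2 n) := epi_of_epi (SSet.homologyMap f F2 n) _
  exact isIso_of_mono_of_epi _

/-! ## Projections -/

/-- The contraction `Δ[n] ⊗ Δ[1] ⟶ Δ[n]` to the vertex `0`. -/
noncomputable def contr (n : ℕ) : (Δ[n] : SSet.{0}) ⊗ (Δ[1] : SSet.{0}) ⟶ (Δ[n] : SSet.{0}) where
  app m := ↾fun p => stdSimplex.objEquiv.symm (SimplexCategory.Hom.mk
    { toFun := fun i => if (stdSimplex.objEquiv p.2).toOrderHom i = 0 then 0 else
        (stdSimplex.objEquiv p.1).toOrderHom i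
      monotone' := by
        intro i j hij
        have h1 := (stdSimplex.objEquiv p.2).toOrderHom.monotone hij
        have h2 := (stdSimplex.objEquiv p.1).toOrderHom.monotone hij
        dsimp only
        split_ifs with h3 h4 h4
        · exact le_rfl
        · exact Fin.zero_le _
        · exfalso
          apply h3
          rw [h4] at h1
          exact le_antisymm h1 (Fin.zero_le _)
        · exact h2 })
  naturality := by
    intro a b g
    rfl

theorem ι₀_contr (n : ℕ) : ι₀ ≫ contr n = SSet.const (stdSimplex.obj₀Equiv.symm 0) := rfl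

theorem ι₁_contr (n : ℕ) : ι₁ ≫ contr n = 𝟙 _ := by
  apply NatTrans.ext
  funext m
  ext p
  apply stdSimplex.objEquiv.injective
  apply SimplexCategory.Hom.ext
  apply OrderHom.ext
  funext i
  rfl

/-- The section at the vertex `0`. -/
noncomputable def sec (X : SSet.{0}) (n : ℕ) : X ⟶ X ⊗ (Δ[n] : SSet.{0}) :=
  CartesianMonoidalCategory.lift (𝟙 X) (SSet.const (stdSimplex.obj₀Equiv.symm 0))

theorem f2c_proj (X : SSet.{0}) (n : ℕ) :
    F2Iso (CartesianMonoidalCategory.fst X (Δ[n] : SSet.{0})) := by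
  have h1 : sec X n ≫ CartesianMonoidalCategory.fst X (Δ[n] : SSet.{0}) = 𝟙 X :=
    CartesianMonoidalCategory.lift_fst _ _
  have h2 : Hty (CartesianMonoidalCategory.fst X (Δ[n] : SSet.{0}) ≫ sec X n) (𝟙 _) := by
    rw [Hty_iff]
    refine ⟨(α_ _ _ _).hom ≫ X ◁ contr n, ?_, ?_⟩
    · rfl
    · apply CartesianMonoidalCategory.hom_ext
      · rfl
      · exact congrArg (fun t => CartesianMonoidalCategory.snd X (Δ[n] : SSet.{0}) ≫ t)
          (ι₁_contr n)
  intro m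
  obtain ⟨H⟩ := h2
  have h3 := H.congr_homologyMap F2 m
  refine ⟨SSet.homologyMap (sec X n) F2 m, ?_, ?_⟩
  · rw [← SSet.homologyMap_comp, h3, SSet.homologyMap_id]
  · rw [← SSet.homologyMap_comp, h1, SSet.homologyMap_id]

/-! ## Levelwise facts -/

theorem seq_surj (F : ℕ ⥤ SSet.{0}) (c : Cocone F) (hc : IsColimit c) (m : SimplexCategoryᵒᵖ)
    (x : c.pt.obj m) : ∃ (k : ℕ) (y : (F.obj k).obj m), (c.ι.app k).app m y = x := by
  have h := isColimitOfPreserves ((evaluation SimplexCategoryᵒᵖ (Type)).obj m) hc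
  obtain ⟨k, y, hy⟩ := Types.jointly_surjective_of_isColimit h x
  exact ⟨k, y, hy⟩

theorem map_inj (F : ℕ ⥤ SSet.{0}) (hF : ∀ n : ℕ, Mono (F.map (homOfLE (Nat.le_succ n))))
    (m : SimplexCategoryᵒᵖ) {a b : ℕ} (g : a ⟶ b) :
    Function.Injective ((F.map g).app m) := by
  have h : ∀ (a b : ℕ) (hab : a ≤ b), Function.Injective ((F.map (homOfLE hab)).app m) := by
    intro a b hab
    induction b, hab using Nat.le_induction with
    | base =>
      have : (F.map (homOfLE (le_refl a))) = 𝟙 _ := F.map_id a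
      rw [this]
      exact fun x y h => h
    | succ n hn ih =>
      have h2 : F.map (homOfLE (hn.trans (Nat.le_succ n))) =
          F.map (homOfLE hn) ≫ F.map (homOfLE (Nat.le_succ n)) := by
        rw [← F.map_comp]
        rfl
      have h3 : Function.Injective ((F.map (homOfLE (Nat.le_succ n))).app m) := by
        have := hF n
        have h4 : Mono ((F.map (homOfLE (Nat.le_succ n))).app m) := inferInstance
        exact (mono_iff_injective _).1 h4
      rw [show F.map (homOfLE (Nat.le_succ_of_le hn)) = _ from h2]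
      intro x y hxy
      exact ih (h3 hxy)
  exact h a b (leOfHom g)

theorem ι_inj (F : ℕ ⥤ SSet.{0}) (hF : ∀ n : ℕ, Mono (F.map (homOfLE (Nat.le_succ n))))
    (c : Cocone F) (hc : IsColimit c) (m : SimplexCategoryᵒᵖ) (k : ℕ) :
    Function.Injective ((c.ι.app k).app m) := by
  have h := isColimitOfPreserves ((evaluation SimplexCategoryᵒᵖ (Type)).obj m) hc
  intro x y hxy
  obtain ⟨j, f, hf⟩ := (Types.FilteredColimit.isColimit_eq_iff'
    (F := F ⋙ (evaluation SimplexCategoryᵒᵖ (Type)).obj m) h x y).1 hxy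
  exact map_inj F hF m f hf

/-- The evaluated coproduct cofan is a colimit. -/
noncomputable def cofH (J : Type) (X : J → SSet.{0}) (m : SimplexCategoryᵒᵖ) :
    IsColimit (Cofan.mk ((∐ X).obj m) (fun j => (Sigma.ι X j).app m) :
      Cofan (fun j => (X j).obj m)) :=
  isColimitOfHasCoproductOfPreservesColimit ((evaluation SimplexCategoryᵒᵖ (Type)).obj m) X

theorem cof_surj (J : Type) (X : J → SSet.{0}) (m : SimplexCategoryᵒᵖ) (x : (∐ X).obj m) :
    ∃ (j : J) (y : (X j).obj m), (Sigma.ι X j).app m y = x :=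
  Cofan.inj_jointly_surjective_of_isColimit (cofH J X m) x

theorem cof_inj (J : Type) (X : J → SSet.{0}) (m : SimplexCategoryᵒᵖ) (j : J) :
    Function.Injective ((Sigma.ι X j).app m) :=
  Cofan.inj_injective_of_isColimit (cofH J X m) j

theorem cof_eq (J : Type) (X : J → SSet.{0}) (m : SimplexCategoryᵒᵖ) {i j : J}
    (x : (X i).obj m) (y : (X j).obj m) (h : (Sigma.ι X i).app m x = (Sigma.ι X j).app m y) :
    i = j :=
  Cofan.eq_of_inj_apply_eq_of_isColimit (cofH J X m) x y h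

/-! ## Chains -/

theorem push_comp {X Y Z : SSet.{0}} (f : X ⟶ Y) (g : Y ⟶ Z) (n : ℕ) (c : Ch X n) :
    push (f ≫ g) n c = push g n (push f n c) := by
  induction c using Finsupp.induction_linear with
  | zero => simp
  | add a b ha hb => simp [ha, hb]
  | single x r =>
    rw [push_single, push_single, push_single]
    rfl

theorem bd_push {X Y : SSet.{0}} (f : X ⟶ Y) (n : ℕ) (c : Ch X (n + 1)) :
    bd Y n (push f (n + 1) c) = push f n (bd X n c) := by
  induction c using Finsupp.induction_linear with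
  | zero => simp
  | add a b ha hb => simp [ha, hb]
  | single x r =>
    rw [push_single, bd_single, bd_single, map_sum]
    apply Finset.sum_congr rfl
    intro i _
    rw [push_single]
    congr 1
    exact (SSet.δ_naturality_apply f i x).symm

theorem push_inj {X Y : SSet.{0}} (f : X ⟶ Y) (n : ℕ)
    (hf : Function.Injective (f.app (op ⦋n⦌))) : Function.Injective (push f n) :=
  Finsupp.mapDomain_injective hf

theorem cyc_push {X Y : SSet.{0}} (f : X ⟶ Y) (n : ℕ) (c : Ch X n) (h : Cyc X n c) :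
    Cyc Y n (push f n c) := by
  cases n with
  | zero => trivial
  | succ m =>
    show bd Y m (push f (m + 1) c) = 0
    rw [bd_push, show bd X m c = 0 from h, map_zero]

theorem cyc_of_push {X Y : SSet.{0}} (f : X ⟶ Y)
    (hf : ∀ n : ℕ, Function.Injective (f.app (op ⦋n⦌))) (n : ℕ) (c : Ch X n)
    (h : Cyc Y n (push f n c)) : Cyc X n c := by
  cases n with
  | zero => trivial
  | succ m =>
    show bd X m c = 0
    apply push_inj f m (hf m)
    rw [← bd_push, map_zero]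
    exact h

/-! ## Sequential colimits -/

theorem stage_up (F : ℕ ⥤ SSet.{0}) (c : Cocone F) (n : ℕ) {k l : ℕ} (h : k ≤ l)
    (y : Ch (F.obj k) n) :
    push (c.ι.app l) n (push (F.map (homOfLE h)) n y) = push (c.ι.app k) n y := by
  rw [← push_comp, c.w]

theorem seq_chain (F : ℕ ⥤ SSet.{0}) (c : Cocone F) (hc : IsColimit c) (n : ℕ)
    (x : Ch c.pt n) : ∃ (k : ℕ) (y : Ch (F.obj k) n), push (c.ι.app k) n y = x := by
  induction x using Finsupp.induction_linear with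
  | zero => exact ⟨0, 0, map_zero _⟩
  | add a b ha hb =>
    obtain ⟨k, y, rfl⟩ := ha
    obtain ⟨l, z, rfl⟩ := hb
    refine ⟨max k l, push (F.map (homOfLE (le_max_left k l))) n y +
      push (F.map (homOfLE (le_max_right k l))) n z, ?_⟩
    rw [map_add, stage_up, stage_up]
  | single x r =>
    obtain ⟨k, y, hy⟩ := seq_surj F c hc (op ⦋n⦌) x
    exact ⟨k, Finsupp.single y r, by rw [push_single, hy]⟩

theorem f2c_seq (F G : ℕ ⥤ SSet.{0}) (α : F ⟶ G)
    (cF : Cocone F) (cG : Cocone G) (hF : IsColimit cF) (hG : IsColimit cG)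
    (mF : ∀ n : ℕ, Mono (F.map (homOfLE (Nat.le_succ n))))
    (mG : ∀ n : ℕ, Mono (G.map (homOfLE (Nat.le_succ n))))
    (hα : ∀ n : ℕ, F2Iso (α.app n)) (f : cF.pt ⟶ cG.pt)
    (hf : ∀ n : ℕ, cF.ι.app n ≫ f = α.app n ≫ cG.ι.app n) : F2Iso f := by
  rw [elem]
  intro n
  have hfp : ∀ (k m : ℕ) (x : Ch (F.obj k) m), push f m (push (cF.ι.app k) m x) =
      push (cG.ι.app k) m (push (α.app k) m x) := by
    intro k m x
    rw [← push_comp, hf, push_comp]
  constructor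
  · intro y hy
    obtain ⟨k, y', rfl⟩ := seq_chain G cG hG n y
    have hy' : Cyc (G.obj k) n y' :=
      cyc_of_push (cG.ι.app k) (fun m => ι_inj G mG cG hG (op ⦋m⦌) k) n y' hy
    obtain ⟨x, hx, w, hw⟩ := (((elem (α.app k)).1 (hα k)) n).1 y' hy'
    refine ⟨push (cF.ι.app k) n x, cyc_push _ _ _ hx, push (cG.ι.app k) (n + 1) w, ?_⟩
    rw [hw, map_add, hfp, bd_push]
  · intro x hx hw
    obtain ⟨w, hw⟩ := hw
    obtain ⟨k, x', rfl⟩ := seq_chain F cF hF n x
    obtain ⟨l, w', rfl⟩ := seq_chain G cG hG (n + 1) w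
    have hx' : Cyc (F.obj k) n x' :=
      cyc_of_push (cF.ι.app k) (fun m => ι_inj F mF cF hF (op ⦋m⦌) k) n x' hx
    set x2 := push (F.map (homOfLE (le_max_left k l))) n x' with hx2
    have hx2' : Cyc (F.obj (max k l)) n x2 := cyc_push _ _ _ hx'
    have e1 : push (α.app (max k l)) n x2 =
        bd _ n (push (G.map (homOfLE (le_max_right k l))) (n + 1) w') := by
      apply push_inj (cG.ι.app (max k l)) n (ι_inj G mG cG hG (op ⦋n⦌) _)
      rw [← hfp, hx2, stage_up, hw, ← bd_push, stage_up]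
      rfl
    obtain ⟨u, hu⟩ := (((elem (α.app (max k l))).1 (hα _)) n).2 x2 hx2' ⟨_, e1⟩
    refine ⟨push (cF.ι.app (max k l)) (n + 1) u, ?_⟩
    rw [bd_push, ← hu, hx2, stage_up]

/-! ## Coproducts -/

section Copr

variable {J : Type} (X : J → SSet.{0})

/-- Restriction of chains to a summand. -/
noncomputable def res (j : J) (n : ℕ) : Ch (∐ X) n →ₗ[ZMod 2] Ch (X j) n :=
  Finsupp.lcomapDomain ((Sigma.ι X j).app (op ⦋n⦌)) (cof_inj J X (op ⦋n⦌) j)

theorem res_self (j : J) (n : ℕ) (c : Ch (X j) n) :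
    res X j n (push (Sigma.ι X j) n c) = c := by
  ext x
  exact Finsupp.mapDomain_apply (cof_inj J X (op ⦋n⦌) j) c x

theorem res_of_ne {i j : J} (h : i ≠ j) (n : ℕ) (c : Ch (X i) n) :
    res X j n (push (Sigma.ι X i) n c) = 0 := by
  ext x
  apply Finsupp.mapDomain_of_notMem_range
  rintro ⟨y, hy⟩
  exact h (cof_eq J X (op ⦋n⦌) y x hy)

/-- Induction on chains of a coproduct. -/
theorem copr_ind (n : ℕ) {p : Ch (∐ X) n → Prop} (h0 : p 0) (h1 : ∀ a b, p a → p b → p (a + b))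
    (h2 : ∀ (j : J) (c : Ch (X j) n), p (push (Sigma.ι X j) n c)) (c : Ch (∐ X) n) : p c := by
  induction c using Finsupp.induction_linear with
  | zero => exact h0
  | add a b ha hb => exact h1 a b ha hb
  | single x r =>
    obtain ⟨j, y, rfl⟩ := cof_surj J X (op ⦋n⦌) x
    rw [← push_single]
    exact h2 j _

theorem res_bd (j : J) (n : ℕ) (c : Ch (∐ X) (n + 1)) :
    res X j n (bd _ n c) = bd _ n (res X j (n + 1) c) := by
  classical
  induction c using copr_ind X with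
  | h0 => simp
  | h1 a b ha hb => simp [ha, hb]
  | h2 i c =>
    rw [bd_push]
    by_cases h : i = j
    · subst h
      rw [res_self, res_self]
    · rw [res_of_ne X h, res_of_ne X h, map_zero]

theorem res_push {Y : J → SSet.{0}} (f : ∀ j, X j ⟶ Y j) (j : J) (n : ℕ) (c : Ch (∐ X) n) :
    res Y j n (push (Limits.Sigma.map f) n c) = push (f j) n (res X j n c) := by
  classical
  induction c using copr_ind X with
  | h0 => simp
  | h1 a b ha hb => simp [ha, hb]
  | h2 i c =>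
    rw [← push_comp, Sigma.ι_map, push_comp]
    by_cases h : i = j
    · subst h
      rw [res_self, res_self]
    · rw [res_of_ne Y h, res_of_ne X h, map_zero]

theorem res_sum (n : ℕ) (c : Ch (∐ X) n) :
    ∃ s : Finset J, ∀ t : Finset J, s ⊆ t →
      c = ∑ j ∈ t, push (Sigma.ι X j) n (res X j n c) := by
  classical
  induction c using copr_ind X with
  | h0 => exact ⟨∅, fun t _ => by simp⟩
  | h1 a b ha hb =>
    obtain ⟨s, hs⟩ := ha
    obtain ⟨s', hs'⟩ := hb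
    refine ⟨s ∪ s', fun t ht => ?_⟩
    conv_lhs => rw [hs t (Finset.union_subset_left ht), hs' t (Finset.union_subset_right ht)]
    rw [← Finset.sum_add_distrib]
    apply Finset.sum_congr rfl
    intro j _
    rw [map_add, map_add]
  | h2 i c =>
    refine ⟨{i}, fun t ht => ?_⟩
    rw [Finset.sum_eq_single i]
    · rw [res_self]
    · intro j _ hj
      rw [res_of_ne X (Ne.symm hj), map_zero]
    · intro hi
      exact absurd (ht (Finset.mem_singleton_self i)) hi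

theorem cyc_res (j : J) (n : ℕ) (c : Ch (∐ X) n) (h : Cyc _ n c) : Cyc _ n (res X j n c) := by
  cases n with
  | zero => trivial
  | succ m =>
    show bd _ m (res X j (m + 1) c) = 0
    rw [← res_bd, show bd _ m c = 0 from h, map_zero]

theorem cyc_sum {Z : SSet.{0}} (n : ℕ) (s : Finset J) (c : J → Ch Z n)
    (h : ∀ j, Cyc Z n (c j)) : Cyc Z n (∑ j ∈ s, c j) := by
  cases n with
  | zero => trivial
  | succ m =>
    show bd _ m _ = 0
    rw [map_sum]
    exact Finset.sum_eq_zero (fun j _ => h j)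

theorem f2c_copr (Y : J → SSet.{0}) (f : ∀ j, X j ⟶ Y j) (hf : ∀ j, F2Iso (f j)) :
    F2Iso (Limits.Sigma.map f) := by
  rw [elem]
  intro n
  constructor
  · intro y hy
    have h1 := fun j => (((elem (f j)).1 (hf j)) n).1 (res Y j n y) (cyc_res Y j n y hy)
    choose x hx w hw using h1
    obtain ⟨s, hs⟩ := res_sum Y n y
    refine ⟨∑ j ∈ s, push (Sigma.ι X j) n (x j), cyc_sum n s _ (fun j => cyc_push _ _ _ (hx j)),
      ∑ j ∈ s, push (Sigma.ι Y j) (n + 1) (w j), ?_⟩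
    conv_lhs => rw [hs s (Finset.Subset.refl s)]
    rw [map_sum, map_sum, ← Finset.sum_add_distrib]
    apply Finset.sum_congr rfl
    intro j _
    rw [hw j, map_add, ← push_comp, ← push_comp, Sigma.ι_map, bd_push]
  · intro x hx hw
    obtain ⟨w, hw⟩ := hw
    have h1 : ∀ j, ∃ u, res X j n x = bd _ n u := by
      intro j
      apply (((elem (f j)).1 (hf j)) n).2 (res X j n x) (cyc_res X j n x hx)
      refine ⟨res Y j (n + 1) w, ?_⟩
      rw [← res_push, hw, res_bd]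
    choose u hu using h1
    obtain ⟨s, hs⟩ := res_sum X n x
    refine ⟨∑ j ∈ s, push (Sigma.ι X j) (n + 1) (u j), ?_⟩
    conv_lhs => rw [hs s (Finset.Subset.refl s)]
    rw [map_sum]
    apply Finset.sum_congr rfl
    intro j _
    rw [hu j, bd_push]

end Copr

end Pool.Agent.SH.F2Copr

namespace Pool.Agent.SH

open F2Copr in
/-- Elementwise form of `F2Iso`: chains are finitely supported functions `X _⦋n⦌ →₀ ZMod 2`,
the boundary is `F2Copr.bd` (see `f2_bd_apply`), the map on chains is `F2Copr.push`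
(see `f2_push_apply`), `F2Copr.Cyc` is the predicate of being a cycle (see `f2_cyc_zero` and
`f2_cyc_succ`). -/
theorem f2_elem {X Y : SSet.{0}} (f : X ⟶ Y) : F2Iso f ↔ ∀ n : ℕ,
    (∀ y : Y _⦋n⦌ →₀ ZMod 2, Cyc Y n y → ∃ x : X _⦋n⦌ →₀ ZMod 2, Cyc X n x ∧
      ∃ w : Y _⦋n + 1⦌ →₀ ZMod 2, y = push f n x + bd Y n w) ∧
    (∀ x : X _⦋n⦌ →₀ ZMod 2, Cyc X n x →
      (∃ w : Y _⦋n + 1⦌ →₀ ZMod 2, push f n x = bd Y n w) →
      ∃ u : X _⦋n + 1⦌ →₀ ZMod 2, x = bd X n u) :=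
  F2Copr.elem f

theorem f2_bd_apply (X : SSet.{0}) (n : ℕ) (c : X _⦋n + 1⦌ →₀ ZMod 2) :
    F2Copr.bd X n c = ∑ i : Fin (n + 2), c.mapDomain (X.δ i) := by
  simp [F2Copr.bd]

theorem f2_push_apply {X Y : SSet.{0}} (f : X ⟶ Y) (n : ℕ) (c : X _⦋n⦌ →₀ ZMod 2) :
    F2Copr.push f n c = c.mapDomain (f.app (op ⦋n⦌)) := rfl

theorem f2_cyc_zero (X : SSet.{0}) (c : X _⦋0⦌ →₀ ZMod 2) : F2Copr.Cyc X 0 c ↔ True :=
  Iff.rfl

theorem f2_cyc_succ (X : SSet.{0}) (n : ℕ) (c : X _⦋n + 1⦌ →₀ ZMod 2) :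
    F2Copr.Cyc X (n + 1) c ↔ F2Copr.bd X n c = 0 := Iff.rfl

theorem f2_iso : ∀ {X Y : SSet.{0}} (f : X ⟶ Y), IsIso f → F2Iso f :=
  fun f h => F2Copr.f2c_iso f h

theorem f2_comp : ∀ {X Y Z : SSet.{0}} (f : X ⟶ Y) (g : Y ⟶ Z),
    F2Iso f → F2Iso g → F2Iso (f ≫ g) :=
  fun f g h1 h2 => F2Copr.f2c_comp f g h1 h2

theorem f2_cancelL : ∀ {X Y Z : SSet.{0}} (f : X ⟶ Y) (g : Y ⟶ Z),
    F2Iso f → F2Iso (f ≫ g) → F2Iso g :=
  fun f g h1 h2 => F2Copr.f2c_cancelL f g h1 h2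

theorem f2_cancelR : ∀ {X Y Z : SSet.{0}} (f : X ⟶ Y) (g : Y ⟶ Z),
    F2Iso g → F2Iso (f ≫ g) → F2Iso f :=
  fun f g h1 h2 => F2Copr.f2c_cancelR f g h1 h2

theorem f2_six : ∀ {X Y Z U : SSet.{0}} (f : X ⟶ Y) (g : Y ⟶ Z) (h : Z ⟶ U),
    F2Iso (f ≫ g) → F2Iso (g ≫ h) → F2Iso g :=
  fun f g h h1 h2 => F2Copr.f2c_six f g h h1 h2

theorem f2_proj : ∀ (X : SSet.{0}) (n : ℕ),
    F2Iso (CartesianMonoidalCategory.fst X (Δ[n] : SSet.{0})) :=
  fun X n => F2Copr.f2c_proj X n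

theorem f2_copr : ∀ (J : Type) (X Y : J → SSet.{0}) (f : ∀ j, X j ⟶ Y j), (∀ j, F2Iso (f j)) →
    F2Iso (Limits.Sigma.map f) :=
  fun _ X Y f hf => F2Copr.f2c_copr X Y f hf

theorem f2_seq : ∀ (F G : ℕ ⥤ SSet.{0}) (α : F ⟶ G)
    (cF : Cocone F) (cG : Cocone G), IsColimit cF → IsColimit cG →
    (∀ n : ℕ, Mono (F.map (homOfLE (Nat.le_succ n)))) →
    (∀ n : ℕ, Mono (G.map (homOfLE (Nat.le_succ n)))) →
    (∀ n : ℕ, F2Iso (α.app n)) →
    ∀ f : cF.pt ⟶ cG.pt, (∀ n : ℕ, cF.ι.app n ≫ f = α.app n ≫ cG.ι.app n) → F2Iso f :=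
  fun F G α cF cG hF hG mF mG hα f hf => F2Copr.f2c_seq F G α cF cG hF hG mF mG hα f hf

end Pool.Agent.SH


end

section

/-!
# The gluing lemma for isomorphisms on homology with coefficients in `F_2`
-/

open CategoryTheory MonoidalCategory Simplicial SSet HomotopicalAlgebra Opposite Limits
open SSet.modelCategoryQuillen

namespace Pool.Agent.SH

namespace F2Glue

/-- The functor of chains. -/
noncomputable abbrev Ch : SSet.{0} ⥤ ChainComplex (ModuleCat.{0} (ZMod 2)) ℕ :=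
  (SSet.chainComplexFunctor (ModuleCat.{0} (ZMod 2))).obj F2

theorem f2Iso_iff {X Y : SSet.{0}} (f : X ⟶ Y) : F2Iso f ↔ QuasiIso (Ch.map f) := by
  rw [quasiIso_iff]
  constructor
  · intro h n
    rw [quasiIsoAt_iff_isIso_homologyMap]
    exact h n
  · intro h n
    have := h n
    rw [quasiIsoAt_iff_isIso_homologyMap] at this
    exact this

instance presEval (n : ℕ) : PreservesColimitsOfShape WalkingSpan
    (Ch ⋙ HomologicalComplex.eval (ModuleCat.{0} (ZMod 2)) (ComplexShape.down ℕ) n) :=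
  inferInstanceAs (PreservesColimitsOfShape WalkingSpan
    ((CategoryTheory.evaluation _ _).obj (op ⦋n⦌) ⋙ sigmaConst.obj F2))

instance pres : PreservesColimitsOfShape WalkingSpan Ch :=
  HomologicalComplex.preservesColimitsOfShape_of_eval Ch fun n => presEval n

theorem mono_ch {X Y : SSet.{0}} (f : X ⟶ Y) [Mono f] : Mono (Ch.map f) := by
  apply HomologicalComplex.mono_of_mono_f
  intro n
  have h1 : Mono (f.app (op ⦋n⦌)) := inferInstance
  exact (inferInstance : Mono ((sigmaConst.obj F2).map (f.app (op ⦋n⦌))))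

/-- Direct sums of quasi-isomorphisms. -/
theorem quasiIso_biprod {K L K' L' : ChainComplex (ModuleCat.{0} (ZMod 2)) ℕ} (b : K ⟶ K')
    (c : L ⟶ L') (hb : QuasiIso b) (hc : QuasiIso c) : QuasiIso (biprod.map b c) := by
  rw [quasiIso_iff]
  intro n
  rw [quasiIsoAt_iff_isIso_homologyMap]
  have hb' : IsIso (HomologicalComplex.homologyMap b n) := inferInstance
  have hc' : IsIso (HomologicalComplex.homologyMap c n) := inferInstance
  refine ⟨HomologicalComplex.homologyMap biprod.fst n ≫ inv (HomologicalComplex.homologyMap b n) ≫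
    HomologicalComplex.homologyMap biprod.inl n +
    HomologicalComplex.homologyMap biprod.snd n ≫ inv (HomologicalComplex.homologyMap c n) ≫
    HomologicalComplex.homologyMap biprod.inr n, ?_, ?_⟩
  · rw [Preadditive.comp_add, ← HomologicalComplex.homologyMap_comp_assoc,
      ← HomologicalComplex.homologyMap_comp_assoc, biprod.map_fst, biprod.map_snd,
      HomologicalComplex.homologyMap_comp, HomologicalComplex.homologyMap_comp, Category.assoc,
      Category.assoc, IsIso.hom_inv_id_assoc, IsIso.hom_inv_id_assoc,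
      ← HomologicalComplex.homologyMap_comp, ← HomologicalComplex.homologyMap_comp,
      ← HomologicalComplex.homologyMap_add, biprod.total, HomologicalComplex.homologyMap_id]
  · rw [Preadditive.add_comp, Category.assoc, Category.assoc, Category.assoc, Category.assoc,
      ← HomologicalComplex.homologyMap_comp, ← HomologicalComplex.homologyMap_comp,
      biprod.inl_map, biprod.inr_map,
      HomologicalComplex.homologyMap_comp, HomologicalComplex.homologyMap_comp,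
      IsIso.inv_hom_id_assoc, IsIso.inv_hom_id_assoc,
      ← HomologicalComplex.homologyMap_comp, ← HomologicalComplex.homologyMap_comp,
      ← HomologicalComplex.homologyMap_add, biprod.total, HomologicalComplex.homologyMap_id]

/-- The short exact sequence of a pushout square. -/
theorem shortExact {K₁ K₂ K₃ K₄ : ChainComplex (ModuleCat.{0} (ZMod 2)) ℕ} {f : K₁ ⟶ K₂}
    {g : K₁ ⟶ K₃} {inl : K₂ ⟶ K₄} {inr : K₃ ⟶ K₄} (h : IsPushout f g inl inr) (hf : Mono f) :
    h.shortComplex.ShortExact := by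
  have h1 : Mono (biprod.lift f (-g) ≫ biprod.fst) := by
    rw [biprod.lift_fst]
    exact hf
  exact
    { exact := h.exact_shortComplex
      mono_f := mono_of_mono (biprod.lift f (-g)) biprod.fst
      epi_g := h.epi_shortComplex_g }

end F2Glue

open F2Glue

theorem f2_glue : ∀ {A B C D A' B' C' D' : SSet.{0}}
      (i : A ⟶ B) (f : A ⟶ C) (g : B ⟶ D) (j : C ⟶ D)
      (i' : A' ⟶ B') (f' : A' ⟶ C') (g' : B' ⟶ D') (j' : C' ⟶ D')
      (a : A ⟶ A') (b : B ⟶ B') (c : C ⟶ C') (d : D ⟶ D'),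
      IsPushout i f g j → IsPushout i' f' g' j' → Mono i → Mono i' →
      i ≫ b = a ≫ i' → f ≫ c = a ≫ f' → g ≫ d = b ≫ g' → j ≫ d = c ≫ j' →
      F2Iso a → F2Iso b → F2Iso c → F2Iso d := by
  intro A B C D A' B' C' D' i f g j i' f' g' j' a b c d hP hP' hi hi' e1 e2 e3 e4 ha hb hc
  rw [f2Iso_iff] at ha hb hc ⊢
  have hS := shortExact (hP.map Ch) (mono_ch i)
  have hS' := shortExact (hP'.map Ch) (mono_ch i')
  let φ : (hP.map Ch).shortComplex ⟶ (hP'.map Ch).shortComplex :=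
    { τ₁ := Ch.map a
      τ₂ := biprod.map (Ch.map b) (Ch.map c)
      τ₃ := Ch.map d
      comm₁₂ := by
        change Ch.map a ≫ biprod.lift (Ch.map i') (-Ch.map f') =
          biprod.lift (Ch.map i) (-Ch.map f) ≫ biprod.map (Ch.map b) (Ch.map c)
        apply biprod.hom_ext
        · rw [Category.assoc, biprod.lift_fst, Category.assoc, biprod.map_fst,
            biprod.lift_fst_assoc, ← Ch.map_comp, ← Ch.map_comp, e1]
        · rw [Category.assoc, biprod.lift_snd, Category.assoc, biprod.map_snd,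
            biprod.lift_snd_assoc, Preadditive.comp_neg, Preadditive.neg_comp,
            ← Ch.map_comp, ← Ch.map_comp, e2]
      comm₂₃ := by
        change biprod.map (Ch.map b) (Ch.map c) ≫ biprod.desc (Ch.map g') (Ch.map j') =
          biprod.desc (Ch.map g) (Ch.map j) ≫ Ch.map d
        apply biprod.hom_ext'
        · rw [biprod.inl_map_assoc, biprod.inl_desc, biprod.inl_desc_assoc,
            ← Ch.map_comp, ← Ch.map_comp, e3]
        · rw [biprod.inr_map_assoc, biprod.inr_desc, biprod.inr_desc_assoc,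
            ← Ch.map_comp, ← Ch.map_comp, e4] }
  exact HomologicalComplex.HomologySequence.quasiIso_τ₃ φ hS hS' ha
    (quasiIso_biprod _ _ hb hc)

end Pool.Agent.SH


end

section

/-!
# MP_2d0b73_an, block TE: `F_2`-homology isomorphisms form a `WClass` (F1)
-/

open CategoryTheory MonoidalCategory Simplicial SSet HomotopicalAlgebra Opposite Limits
open SSet.modelCategoryQuillen

namespace Pool.Agent.SH

/-- (F1) `F_2`-homology isomorphisms form a `WClass`. -/
theorem f2_wc : F2_WC_Stmt where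
  iso := f2_iso
  comp := f2_comp
  cancelL := f2_cancelL
  cancelR := f2_cancelR
  six := f2_six
  proj := f2_proj
  glue := f2_glue
  copr := f2_copr
  seq := f2_seq

end Pool.Agent.SH


end

section

/-!
# MP_2d0b73_an, block III-T (TT): the target `T = Ω Tot (X^•)` (definitions)

Everything is written with morphisms of `SimplexCategoryᵒᵖ`: an `l`-simplex of `Δ^t` is a
morphism `bx t ⟶ l`, and a simplicial operator `α : k ⟶ l` acts by `- ≫ α`.
-/

open CategoryTheory Simplicial SSet Opposite MonoidalCategory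

noncomputable section

namespace Pool.Agent.SH.TT

/-- The opposite simplex category. -/
abbrev Dop := SimplexCategoryᵒᵖ

/-- The object `[n]` of the opposite simplex category. -/
abbrev bx (n : ℕ) : Dop := op ⦋n⦌

/-- The coface `[n] → [n+1]` as a morphism of the opposite category. -/
abbrev dop {n : ℕ} (i : Fin (n + 2)) : bx (n + 1) ⟶ bx n := (SimplexCategory.δ i).op

/-- The codegeneracy `[n+1] → [n]` as a morphism of the opposite category. -/
abbrev sop {n : ℕ} (i : Fin (n + 1)) : bx n ⟶ bx (n + 1) := (SimplexCategory.σ i).op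

/-- The simplex `t` of `Δ^n` lies in the boundary. -/
def Bdy {n : ℕ} {k : Dop} (t : bx n ⟶ k) : Prop :=
  ¬ Function.Surjective t.unop.toOrderHom

/-- Simplicial `F_2`-vector spaces. -/
abbrev SV := SimplicialObject (ModuleCat.{0} (ZMod 2))

/-- The underlying simplicial set. -/
abbrev US (V : SV) : SSet.{0} := V ⋙ forget (ModuleCat.{0} (ZMod 2))

/-! ### Simplicial vector spaces: Moore cycles and boundaries -/

/-- Moore cycles: all faces vanish. -/
def MCyc (V : SV) (t : ℕ) (z : V.obj (bx t)) : Prop :=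
  ∀ (k : Dop) (α : bx t ⟶ k), Bdy α → V.map α z = 0

/-- Moore boundaries: `z = d_0 w`, all other faces of `w` vanish. -/
def MBd (V : SV) (t : ℕ) (z : V.obj (bx t)) : Prop :=
  ∃ w : V.obj (bx (t + 1)), V.map (dop 0) w = z ∧ ∀ i : Fin (t + 1), V.map (dop i.succ) w = 0

/-- The subspace of natural families vanishing on a subcomplex. -/
def mapSub (Z : SSet.{0}) (Z₀ : Z.Subcomplex) (V : SV) (q : Dop) :
    Submodule (ZMod 2) (∀ k : Dop, Z.obj k → (q ⟶ k) → V.obj k) where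
  carrier := {g | (∀ {k l : Dop} (α : k ⟶ l) (z : Z.obj k) (σ : q ⟶ k),
      g l (Z.map α z) (σ ≫ α) = V.map α (g k z σ)) ∧
    ∀ (k : Dop) (z : Z.obj k) (σ : q ⟶ k), z ∈ Z₀.obj k → g k z σ = 0}
  add_mem' := by
    rintro a b ⟨ha, ha'⟩ ⟨hb, hb'⟩
    refine ⟨fun α z σ => ?_, fun k z σ h => ?_⟩
    · simp only [Pi.add_apply, map_add, ha α z σ, hb α z σ]
    · simp only [Pi.add_apply, ha' k z σ h, hb' k z σ h, add_zero]
  zero_mem' := by
    refine ⟨fun α z σ => ?_, fun k z σ h => rfl⟩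
    simp only [Pi.zero_apply, map_zero]
  smul_mem' := by
    rintro c a ⟨ha, ha'⟩
    refine ⟨fun α z σ => ?_, fun k z σ h => ?_⟩
    · simp only [Pi.smul_apply, map_smul, ha α z σ]
    · simp only [Pi.smul_apply, ha' k z σ h, smul_zero]

/-- `Map((Z, Z₀), (V, 0))`: its `q`-simplices are the natural families
`Z × Δ^q → V` vanishing on `Z₀`. -/
def MapP (Z : SSet.{0}) (Z₀ : Z.Subcomplex) (V : SV) : SV where
  obj q := ModuleCat.of (ZMod 2) (mapSub Z Z₀ V q)
  map {q r} β := ModuleCat.ofHom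
    { toFun := fun g => ⟨fun k z σ => g.1 k z (β ≫ σ),
        ⟨fun α z σ => by
          show g.1 _ _ (β ≫ σ ≫ α) = _
          rw [← Category.assoc]; exact g.2.1 α z (β ≫ σ),
          fun k z σ h => g.2.2 k z (β ≫ σ) h⟩⟩
      map_add' := fun a b => rfl
      map_smul' := fun c a => rfl }
  map_id q := by
    ext g k z σ
    show g.1 k z (𝟙 q ≫ σ) = g.1 k z σ
    rw [Category.id_comp]
  map_comp β γ := by
    ext g k z σ
    show g.1 k z ((β ≫ γ) ≫ σ) = g.1 k z (β ≫ γ ≫ σ)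
    rw [Category.assoc]

/-- Evaluation of a simplex of `MapP`. -/
def MapP.ev {Z : SSet.{0}} {Z₀ : Z.Subcomplex} {V : SV} {q : Dop} (g : (MapP Z Z₀ V).obj q)
    (k : Dop) (z : Z.obj k) (σ : q ⟶ k) : V.obj k :=
  (show mapSub Z Z₀ V q from g).1 k z σ

/-- Constructor for simplices of `MapP`. -/
def MapP.mk {Z : SSet.{0}} {Z₀ : Z.Subcomplex} {V : SV} {q : Dop}
    (g : ∀ k : Dop, Z.obj k → (q ⟶ k) → V.obj k)
    (h : ∀ {k l : Dop} (α : k ⟶ l) (z : Z.obj k) (σ : q ⟶ k),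
      g l (Z.map α z) (σ ≫ α) = V.map α (g k z σ))
    (h' : ∀ (k : Dop) (z : Z.obj k) (σ : q ⟶ k), z ∈ Z₀.obj k → g k z σ = 0) :
    (MapP Z Z₀ V).obj q :=
  (⟨g, h, h'⟩ : mapSub Z Z₀ V q)

section
variable {Z : SSet.{0}} {Z₀ : Z.Subcomplex} {V : SV} {q : Dop}

theorem MapP.nat (g : (MapP Z Z₀ V).obj q) {k l : Dop} (α : k ⟶ l) (z : Z.obj k) (σ : q ⟶ k) :
    MapP.ev g l (Z.map α z) (σ ≫ α) = V.map α (MapP.ev g k z σ) :=
  (show mapSub Z Z₀ V q from g).2.1 α z σ

theorem MapP.van (g : (MapP Z Z₀ V).obj q) {k : Dop} (z : Z.obj k) (σ : q ⟶ k)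
    (h : z ∈ Z₀.obj k) : MapP.ev g k z σ = 0 :=
  (show mapSub Z Z₀ V q from g).2.2 k z σ h

theorem MapP.ext {g g' : (MapP Z Z₀ V).obj q} (h : ∀ k z σ, MapP.ev g k z σ = MapP.ev g' k z σ) :
    g = g' := by
  apply Subtype.ext
  funext k z σ
  exact h k z σ

@[simp] theorem MapP.ev_mk (g : ∀ k : Dop, Z.obj k → (q ⟶ k) → V.obj k) (h h') (k z σ) :
    MapP.ev (MapP.mk (Z₀ := Z₀) (V := V) g h h') k z σ = g k z σ := rfl

@[simp] theorem MapP.ev_map {r : Dop} (β : q ⟶ r) (g : (MapP Z Z₀ V).obj q) (k z σ) :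
    MapP.ev ((MapP Z Z₀ V).map β g) k z σ = MapP.ev g k z (β ≫ σ) := rfl

@[simp] theorem MapP.ev_add (g g' : (MapP Z Z₀ V).obj q) (k z σ) :
    MapP.ev (g + g') k z σ = MapP.ev g k z σ + MapP.ev g' k z σ := rfl

@[simp] theorem MapP.ev_zero (k : Dop) (z : Z.obj k) (σ : q ⟶ k) :
    MapP.ev (0 : (MapP Z Z₀ V).obj q) k z σ = 0 := rfl

end

/-! ### Cosimplicial data -/

/-- A semi-cosimplicial object: simplicial `F_2`-vector spaces `V s` and cofaces which are
pointed simplicial maps (not necessarily linear). -/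
structure CoV where
  /-- the levels -/
  V : ℕ → SV
  /-- the cofaces, as maps of simplicial sets -/
  cof : ∀ (s : ℕ), Fin (s + 2) → ∀ (k : Dop), (V s).obj k → (V (s + 1)).obj k
  cof_nat : ∀ (s : ℕ) (i : Fin (s + 2)) {k l : Dop} (α : k ⟶ l) (x : (V s).obj k),
    cof s i l ((V s).map α x) = (V (s + 1)).map α (cof s i k x)
  cof_zero : ∀ (s : ℕ) (i : Fin (s + 2)) (k : Dop), cof s i k 0 = 0
  cof_cof : ∀ (s : ℕ) (i j : Fin (s + 2)), i ≤ j → ∀ (k : Dop) (x : (V s).obj k),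
    cof (s + 1) j.succ k (cof s i k x) = cof (s + 1) i.castSucc k (cof s j k x)

/-- The sum of the cofaces. -/
def CoV.dl (D : CoV) (s : ℕ) {k : Dop} (z : (D.V s).obj k) : (D.V (s + 1)).obj k :=
  ∑ i : Fin (s + 2), D.cof s i k z

/-- Mapping objects, levelwise. -/
def CoV.mp (Z : SSet.{0}) (Z₀ : Z.Subcomplex) (D : CoV) : CoV where
  V s := MapP Z Z₀ (D.V s)
  cof s i q g := MapP.mk (fun k z σ => D.cof s i k (MapP.ev g k z σ))
    (fun α z σ => by rw [MapP.nat, D.cof_nat])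
    (fun k z σ h => by rw [MapP.van g z σ h, D.cof_zero])
  cof_nat s i {k l} α x := rfl
  cof_zero s i q := MapP.ext fun k z σ => D.cof_zero s i k
  cof_cof s i j h q x := MapP.ext fun k z σ => D.cof_cof s i j h k _

/-- Exactness of the complexes `s ↦ π_t (V s)` with differential the sum of the cofaces, for
all `t ≥ τ`. -/
def ExC (D : CoV) (τ : ℕ) : Prop :=
  ∀ t : ℕ, τ ≤ t →
    (∀ z : (D.V 0).obj (bx t), MCyc (D.V 0) t z → MBd (D.V 1) t (D.dl 0 z) →
      MBd (D.V 0) t z) ∧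
    (∀ (s : ℕ) (z : (D.V (s + 1)).obj (bx t)), MCyc (D.V (s + 1)) t z →
      MBd (D.V (s + 2)) t (D.dl (s + 1) z) →
        ∃ y : (D.V s).obj (bx t), MCyc (D.V s) t y ∧ MBd (D.V (s + 1)) t (z + D.dl s y))

/-- The cofaces are additive up to Moore boundaries. -/
def HAdd (D : CoV) : Prop :=
  ∀ (s : ℕ) (i : Fin (s + 2)) (t : ℕ) (a y : (D.V s).obj (bx t)), MCyc (D.V s) t y →
    MBd (D.V (s + 1)) t (D.cof s i _ (a + y) + D.cof s i _ a + D.cof s i _ y)

/-! ### Fat totalisation -/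

/-- Families `f_s : Z × Δ^s → V s` compatible with the cofaces: the maps `Z → Tot V`. -/
@[ext]
structure Fam (D : CoV) (Z : SSet.{0}) where
  /-- the family -/
  f : ∀ (s : ℕ) (k : Dop), Z.obj k → (bx s ⟶ k) → (D.V s).obj k
  nat : ∀ (s : ℕ) {k l : Dop} (α : k ⟶ l) (z : Z.obj k) (t : bx s ⟶ k),
    f s l (Z.map α z) (t ≫ α) = (D.V s).map α (f s k z t)
  cof : ∀ (s : ℕ) (i : Fin (s + 2)) (k : Dop) (z : Z.obj k) (t : bx s ⟶ k),
    f (s + 1) k z (dop i ≫ t) = D.cof s i k (f s k z t)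

/-- The `q`-simplices of `Tot`. -/
@[ext]
structure TotS (D : CoV) (q : Dop) where
  /-- the family -/
  f : ∀ (s : ℕ) (k : Dop), (q ⟶ k) → (bx s ⟶ k) → (D.V s).obj k
  nat : ∀ (s : ℕ) {k l : Dop} (α : k ⟶ l) (z : q ⟶ k) (t : bx s ⟶ k),
    f s l (z ≫ α) (t ≫ α) = (D.V s).map α (f s k z t)
  cof : ∀ (s : ℕ) (i : Fin (s + 2)) (k : Dop) (z : q ⟶ k) (t : bx s ⟶ k),
    f (s + 1) k z (dop i ≫ t) = D.cof s i k (f s k z t)

/-- The fat totalisation. -/
def Tot (D : CoV) : SSet.{0} where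
  obj q := TotS D q
  map {q r} β := TypeCat.ofHom (fun x =>
    { f := fun s k z t => x.f s k (β ≫ z) t
      nat := by
        intro s k l α z t
        rw [← Category.assoc]
        exact x.nat s α (β ≫ z) t
      cof := fun s i k z t => x.cof s i k (β ≫ z) t })
  map_id q := by
    ext x s k z t
    simp
  map_comp β γ := by
    ext x s k z t
    simp

/-- The base simplices of `Tot`. -/
def Tot.zero (D : CoV) (q : Dop) : (Tot D).obj q :=
  ({ f := fun _ _ _ _ => 0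
     nat := by
      intro s k l α z t
      simp
     cof := fun s i k z t => (D.cof_zero s i k).symm } : TotS D q)

/-- A family on `Z` gives a map `Z ⟶ Tot D`. -/
def Fam.toHom {D : CoV} {Z : SSet.{0}} (F : Fam D Z) : Z ⟶ Tot D where
  app q := TypeCat.ofHom (fun z =>
    { f := fun s k σ t => F.f s k (Z.map σ z) t
      nat := by
        intro s k l α σ t
        have h := F.nat s α (Z.map σ z) t
        rw [← h]
        simp
      cof := fun s i k σ t => F.cof s i k _ t })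
  naturality {q r} β := by
    ext z
    apply TotS.ext
    funext s k σ t
    simp [Tot]

/-- A map `Z ⟶ Tot D` gives a family on `Z`. -/
def Fam.ofHom {D : CoV} {Z : SSet.{0}} (φ : Z ⟶ Tot D) : Fam D Z where
  f s k z t := (φ.app k z : TotS D k).f s k (𝟙 k) t
  nat := by
    intro s k l α z t
    have h : (φ.app l (Z.map α z) : TotS D l) = (Tot D).map α (φ.app k z) :=
      NatTrans.naturality_apply φ α z
    rw [h]
    have h2 := (φ.app k z : TotS D k).nat s α (𝟙 k) t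
    rw [← h2]
    show (φ.app k z : TotS D k).f s l (α ≫ 𝟙 l) (t ≫ α) = _
    simp
  cof s i k z t := (φ.app k z : TotS D k).cof s i k (𝟙 k) t

/-! ### Loops -/

/-- A coherent family of base simplices of `Y`. -/
structure Base (Y : SSet.{0}) where
  /-- the base simplices -/
  pt : ∀ k : Dop, Y.obj k
  nat : ∀ {k l : Dop} (α : k ⟶ l), Y.map α (pt k) = pt l

/-- The base point of `Tot`. -/
def Tot.base (D : CoV) : Base (Tot D) where
  pt := Tot.zero D
  nat α := rfl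

/-- The `q`-simplices of the loop space. -/
@[ext]
structure OmS (Y : SSet.{0}) (b : Base Y) (q : Dop) where
  /-- the family `Δ^q × Δ^1 → Y` -/
  f : ∀ k : Dop, (q ⟶ k) → (bx 1 ⟶ k) → Y.obj k
  nat : ∀ {k l : Dop} (α : k ⟶ l) (z : q ⟶ k) (e : bx 1 ⟶ k),
    f l (z ≫ α) (e ≫ α) = Y.map α (f k z e)
  bd : ∀ (k : Dop) (z : q ⟶ k) (e : bx 1 ⟶ k), Bdy e → f k z e = b.pt k

/-- The loop space (simplicial model). -/
def Om (Y : SSet.{0}) (b : Base Y) : SSet.{0} where
  obj q := OmS Y b q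
  map {q r} β := TypeCat.ofHom (fun x =>
    { f := fun k z e => x.f k (β ≫ z) e
      nat := by
        intro k l α z e
        rw [← Category.assoc]
        exact x.nat α (β ≫ z) e
      bd := fun k z e h => x.bd k (β ≫ z) e h })
  map_id q := by
    ext x k z e
    simp
  map_comp β γ := by
    ext x k z e
    simp

/-- Maps `Z × Δ^1 → Y`, trivial over the ends. -/
@[ext]
structure FamL (Y : SSet.{0}) (b : Base Y) (Z : SSet.{0}) where
  /-- the family -/
  f : ∀ k : Dop, Z.obj k → (bx 1 ⟶ k) → Y.obj k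
  nat : ∀ {k l : Dop} (α : k ⟶ l) (z : Z.obj k) (e : bx 1 ⟶ k),
    f l (Z.map α z) (e ≫ α) = Y.map α (f k z e)
  bd : ∀ (k : Dop) (z : Z.obj k) (e : bx 1 ⟶ k), Bdy e → f k z e = b.pt k

/-- A family gives a map to the loop space. -/
def FamL.toHom {Y : SSet.{0}} {b : Base Y} {Z : SSet.{0}} (F : FamL Y b Z) : Z ⟶ Om Y b where
  app q := TypeCat.ofHom (fun z =>
    { f := fun k σ e => F.f k (Z.map σ z) e
      nat := by
        intro k l α σ e
        have h := F.nat α (Z.map σ z) e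
        rw [← h]
        simp
      bd := fun k σ e h => F.bd k _ e h })
  naturality {q r} β := by
    ext z
    apply OmS.ext
    funext k σ e
    simp [Om]

/-- A map to the loop space gives a family. -/
def FamL.ofHom {Y : SSet.{0}} {b : Base Y} {Z : SSet.{0}} (φ : Z ⟶ Om Y b) : FamL Y b Z where
  f k z e := (φ.app k z : OmS Y b k).f k (𝟙 k) e
  nat := by
    intro k l α z e
    have h : (φ.app l (Z.map α z) : OmS Y b l) = (Om Y b).map α (φ.app k z) :=
      NatTrans.naturality_apply φ α z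
    rw [h]
    have h2 := (φ.app k z : OmS Y b k).nat α (𝟙 k) e
    rw [← h2]
    show (φ.app k z : OmS Y b k).f l (α ≫ 𝟙 l) (e ≫ α) = _
    simp
  bd k z e h := (φ.app k z : OmS Y b k).bd k (𝟙 k) e h

/-- The target. -/
abbrev Target (D : CoV) : SSet.{0} := Om (Tot D) (Tot.base D)

/-! ### The classifying space of `Z/2` -/

/-- `B Z/2`: a `k`-simplex is a normalised `1`-cocycle of `Δ^k` with coefficients in `Z/2`. -/
def BZ : SSet.{0} where
  obj k := {c : Fin (k.unop.len + 1) → Fin (k.unop.len + 1) → ZMod 2 //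
    ∀ i j l, c i j + c j l = c i l}
  map {k l} α := TypeCat.ofHom (fun c =>
    ⟨fun i j => c.1 (α.unop.toOrderHom i) (α.unop.toOrderHom j), fun i j l => c.2 _ _ _⟩)
  map_id k := rfl
  map_comp α β := rfl

/-- The base point of `BZ`, as a subcomplex. -/
def BZ.b0 : BZ.Subcomplex where
  obj _ := {c | c.1 = 0}
  map α := by
    rintro c hc
    show (fun i j => c.1 (α.unop.toOrderHom i) (α.unop.toOrderHom j)) = 0
    have hc' : c.1 = 0 := hc
    rw [hc']
    rfl

/-- The vertex of `BZ`. -/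
def BZ.v : BZ _⦋0⦌ := ⟨fun _ _ => 0, fun _ _ _ => by simp⟩

end Pool.Agent.SH.TT

end

end

section

/-!
# Block III-Q (MP_2d0b73_an): simplicial objects, the theorem of Dold, Lemma Q: definitions

`SHE f` : `f` is a simplicial homotopy equivalence (Mathlib's combinatorial homotopies).
`QI f`, `Acyc X` : quasi-isomorphism, acyclicity, for the alternating sum complex.
`PGA k` : the category of polynomial graded connected commutative algebras over the field `k`.
`Pf p j` : degree `j` part of the `p`-th power of the augmentation ideal, `Gf p j` : its quotient by the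
degree `j` part of the `(p+1)`-st power; `Gf 1 j` = indecomposables in degree `j`.
`Phi p j` : symmetric powers of graded vector spaces.
-/

open CategoryTheory CategoryTheory.Limits AlgebraicTopology Opposite

namespace Pool.Agent.SHQ

/-- `f` is a simplicial homotopy equivalence. -/
def SHE {C : Type*} [Category C] {X Y : SimplicialObject C} (f : X ⟶ Y) : Prop :=
  ∃ g : Y ⟶ X, Nonempty (SimplicialObject.Homotopy (f ≫ g) (𝟙 X)) ∧
    Nonempty (SimplicialObject.Homotopy (g ≫ f) (𝟙 Y))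

/-- `X` is simplicially contractible (to the zero object). -/
def Ctr {C : Type*} [Category C] [Preadditive C] (X : SimplicialObject C) : Prop :=
  Nonempty (SimplicialObject.Homotopy (0 : X ⟶ X) (𝟙 X))

/-- `f` induces isomorphisms on the homology of the alternating sum complexes. -/
def QI {C : Type*} [Category C] [Abelian C] {X Y : SimplicialObject C} (f : X ⟶ Y) : Prop :=
  QuasiIso ((alternatingFaceMapComplex C).map f)

/-- The alternating sum complex of `X` is acyclic. -/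
def Acyc {C : Type*} [Category C] [Abelian C] (X : SimplicialObject C) : Prop :=
  ((alternatingFaceMapComplex C).obj X).Acyclic

/-- Levelwise application of a functor. -/
abbrev wh {C D : Type*} [Category C] [Category D] (F : C ⥤ D) :
    SimplicialObject C ⥤ SimplicialObject D := (SimplicialObject.whiskering C D).obj F

/-! ### graded algebras -/

section Alg
variable {k : Type} [Field k] {R : Type} [CommRing R] [Algebra k R]

/-- The grading `dg` is the one of a polynomial algebra on homogeneous generators of positive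
degrees. -/
def IsPolyGr (dg : ℕ → Submodule k R) : Prop :=
  ∃ (σ : Type) (x : σ → R) (w : σ → ℕ), (∀ s, 0 < w s) ∧
    Function.Bijective (MvPolynomial.aeval (R := k) x) ∧
    ∀ j, dg j = (MvPolynomial.weightedHomogeneousSubmodule k w j).map
      (MvPolynomial.aeval (R := k) x).toLinearMap

/-- The augmentation ideal: span of the homogeneous elements of positive degree. -/
def Aug (dg : ℕ → Submodule k R) : Submodule k R := ⨆ i : ℕ, dg (i + 1)

/-- Degree `j` part of the `p`-th power of the augmentation ideal. -/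
def Psub (dg : ℕ → Submodule k R) (p j : ℕ) : Submodule k R := Aug dg ^ p ⊓ dg j

end Alg

/-- Polynomial graded connected algebras. -/
structure PGA (k : Type) [Field k] where
  R : Type
  [cr : CommRing R]
  [al : Algebra k R]
  dg : ℕ → Submodule k R
  poly : IsPolyGr dg

attribute [instance] PGA.cr PGA.al

namespace PGA

variable {k : Type} [Field k]

/-- Graded algebra homomorphisms. -/
@[ext]
structure Hom (A B : PGA k) where
  toAlg : A.R →ₐ[k] B.R
  map_dg : ∀ j, ∀ a ∈ A.dg j, toAlg a ∈ B.dg j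

instance : Category (PGA k) where
  Hom A B := Hom A B
  id A := ⟨AlgHom.id k A.R, fun _ _ h => h⟩
  comp f g := ⟨g.toAlg.comp f.toAlg, fun j a h => g.map_dg j _ (f.map_dg j a h)⟩

@[simp] lemma id_toAlg (A : PGA k) : Hom.toAlg (𝟙 A) = AlgHom.id k A.R := rfl

@[simp] lemma comp_toAlg {A B C : PGA k} (f : A ⟶ B) (g : B ⟶ C) :
    Hom.toAlg (f ≫ g) = (Hom.toAlg g).comp (Hom.toAlg f) := rfl

lemma map_Psub {A B : PGA k} (f : A ⟶ B) (p j : ℕ) :
    ∀ a ∈ Psub A.dg p j, (Hom.toAlg f).toLinearMap a ∈ Psub B.dg p j := by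
  rintro a ⟨h1, h2⟩
  refine ⟨?_, f.map_dg j a h2⟩
  have h3 : (Aug A.dg).map (Hom.toAlg f).toLinearMap ≤ Aug B.dg := by
    unfold Aug
    rw [Submodule.map_iSup]
    refine iSup_mono fun i => ?_
    rintro _ ⟨b, hb, rfl⟩
    exact f.map_dg _ _ hb
  have h4 : (Aug A.dg ^ p).map (Hom.toAlg f).toLinearMap ≤ Aug B.dg ^ p := by
    rw [Submodule.map_pow]
    exact pow_le_pow_left' h3 p
  exact h4 ⟨a, h1, rfl⟩

end PGA

section functors
variable {k : Type} [Field k]

/-- Degree `j` part of the `p`-th power of the augmentation ideal, as a functor. -/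
noncomputable def Pf (p j : ℕ) : PGA k ⥤ ModuleCat.{0} k where
  obj A := ModuleCat.of k (Psub A.dg p j)
  map {A B} f := ModuleCat.ofHom ((PGA.Hom.toAlg f).toLinearMap.restrict (PGA.map_Psub f p j))
  map_id A := by ext x; rfl
  map_comp f g := by ext x; rfl

/-- The inclusion of the `(p+1)`-st power in the `p`-th power, on elements: the submodule. -/
def Gker (A : PGA k) (p j : ℕ) : Submodule k (Psub A.dg p j) :=
  (Psub A.dg (p + 1) j).comap (Psub A.dg p j).subtype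

lemma map_Gker {A B : PGA k} (f : A ⟶ B) (p j : ℕ) :
    Gker A p j ≤ (Gker B p j).comap
      ((PGA.Hom.toAlg f).toLinearMap.restrict (PGA.map_Psub f p j)) := by
  intro x hx
  exact PGA.map_Psub f (p + 1) j _ hx

/-- Degree `j` part of the `p`-th power modulo the `(p+1)`-st power of the augmentation ideal.
`Gf 1 j` is the functor of indecomposables in degree `j`. -/
noncomputable def Gf (p j : ℕ) : PGA k ⥤ ModuleCat.{0} k where
  obj A := ModuleCat.of k (Psub A.dg p j ⧸ Gker A p j)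
  map {A B} f := ModuleCat.ofHom (Submodule.mapQ (Gker A p j) (Gker B p j)
    ((PGA.Hom.toAlg f).toLinearMap.restrict (PGA.map_Psub f p j)) (map_Gker f p j))
  map_id A := by
    ext x
    rfl
  map_comp f g := by
    ext x
    rfl

/-- The projection `Pf p j ⟶ Gf p j`. -/
noncomputable def projG (p j : ℕ) : (Pf p j : PGA k ⥤ ModuleCat.{0} k) ⟶ Gf p j where
  app A := ModuleCat.ofHom (Gker A p j).mkQ
  naturality A B f := by ext x; rfl

/-- Indecomposables in degrees less than `j`. -/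
noncomputable def Qf (j : ℕ) : PGA k ⥤ (Fin j → ModuleCat.{0} k) :=
  Functor.pi' fun i => Gf 1 (i : ℕ)

/-- Symmetric powers of graded vector spaces: the part of weight `p` and degree `j` of the symmetric
algebra of `V`, where `V i` has degree `i` (only `1 ≤ i` is used). -/
noncomputable def PhiS (p j : ℕ) (V : Fin j → ModuleCat.{0} k) :
    Submodule k (SymmetricAlgebra k (∀ i, V i)) :=
  Submodule.span k {a | ∃ (i : Fin p → Fin j) (v : ∀ r, V (i r)), (∀ r, 1 ≤ (i r : ℕ)) ∧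
    ∑ r, (i r : ℕ) = j ∧ a = ∏ r, SymmetricAlgebra.ι k (∀ i, V i) (Pi.single (i r) (v r))}

/-- The linear map of products. -/
noncomputable def LF {j : ℕ} {V W : Fin j → ModuleCat.{0} k} (f : V ⟶ W) :
    (∀ i, V i) →ₗ[k] (∀ i, W i) := LinearMap.pi fun i => (f i).hom ∘ₗ LinearMap.proj i

/-- The algebra map of symmetric algebras. -/
noncomputable def SF {j : ℕ} {V W : Fin j → ModuleCat.{0} k} (f : V ⟶ W) :
    SymmetricAlgebra k (∀ i, V i) →ₐ[k] SymmetricAlgebra k (∀ i, W i) :=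
  SymmetricAlgebra.lift (SymmetricAlgebra.ι k (∀ i, W i) ∘ₗ LF f)

lemma LF_single {j : ℕ} {V W : Fin j → ModuleCat.{0} k} (f : V ⟶ W) (i : Fin j) (v : V i) :
    LF f (Pi.single i v) = Pi.single i ((f i).hom v) := by
  funext l
  show (f l).hom ((Pi.single i v : ∀ i, V i) l) = (Pi.single i ((f i).hom v) : ∀ i, W i) l
  by_cases h : l = i
  · subst h; simp
  · simp [h]

lemma SF_PhiS (p : ℕ) {j : ℕ} {V W : Fin j → ModuleCat.{0} k} (f : V ⟶ W) :
    ∀ a ∈ PhiS p j V, (SF f).toLinearMap a ∈ PhiS p j W := by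
  intro a ha
  have : (PhiS p j V) ≤ (PhiS p j W).comap (SF f).toLinearMap := by
    refine Submodule.span_le.2 ?_
    rintro _ ⟨i, v, h1, h2, rfl⟩
    refine Submodule.subset_span ⟨i, fun r => (f (i r)).hom (v r), h1, h2, ?_⟩
    show SF f _ = _
    rw [map_prod]
    refine Finset.prod_congr rfl fun r _ => ?_
    show SF f (SymmetricAlgebra.ι k _ _) = _
    rw [SF, SymmetricAlgebra.lift_ι_apply]
    show SymmetricAlgebra.ι k _ (LF f _) = _
    rw [LF_single]
  exact this ha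

/-- Symmetric powers of graded vector spaces, as a functor. -/
noncomputable def Phi (p j : ℕ) : (Fin j → ModuleCat.{0} k) ⥤ ModuleCat.{0} k where
  obj V := ModuleCat.of k (PhiS p j V)
  map {V W} f := ModuleCat.ofHom ((SF f).toLinearMap.restrict (SF_PhiS p f))
  map_id V := by
    ext x
    show SF (𝟙 V) x.1 = x.1
    have : SF (𝟙 V) = AlgHom.id k _ := by
      apply SymmetricAlgebra.algHom_ext
      ext v
      simp only [SF, LinearMap.comp_apply]
      show SymmetricAlgebra.lift _ (SymmetricAlgebra.ι k _ _) = SymmetricAlgebra.ι k _ _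
      rw [SymmetricAlgebra.lift_ι_apply]
      rfl
    rw [this]; rfl
  map_comp {U V W} f g := by
    ext x
    show SF (f ≫ g) x.1 = SF g (SF f x.1)
    have : SF (f ≫ g) = (SF g).comp (SF f) := by
      apply SymmetricAlgebra.algHom_ext
      apply LinearMap.ext
      intro v
      show SF (f ≫ g) (SymmetricAlgebra.ι k _ v) = SF g (SF f (SymmetricAlgebra.ι k _ v))
      simp only [SF]
      rw [SymmetricAlgebra.lift_ι_apply, SymmetricAlgebra.lift_ι_apply]
      show _ = SymmetricAlgebra.lift _ (SymmetricAlgebra.ι k _ (LF f v))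
      rw [SymmetricAlgebra.lift_ι_apply]
      rfl
    rw [this]; rfl

end functors

end Pool.Agent.SHQ


end

section

/-!
# Block III-Q (MP_2d0b73_an): statements
-/

open CategoryTheory CategoryTheory.Limits AlgebraicTopology Opposite Simplicial

namespace Pool.Agent.SHQ

/-! ## Simplicial homotopies -/

/-- (HAD) simplicial homotopies can be added. -/
def HAD_Stmt : Prop :=
  ∀ (C : Type 1) [Category.{0} C] [Preadditive C] (X Y : SimplicialObject C)
    (f g f' g' : X ⟶ Y), Nonempty (SimplicialObject.Homotopy f g) →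
    Nonempty (SimplicialObject.Homotopy f' g') →
    Nonempty (SimplicialObject.Homotopy (f + f') (g + g'))

/-- (SHEC) composition with an isomorphism on both sides, two maps homotopic to identities. -/
def SHEC_Stmt : Prop :=
  ∀ (C : Type 1) [Category.{0} C] (X E Y : SimplicialObject C)
    (i : X ⟶ E) (p : E ⟶ X) (q : E ⟶ Y) (s : Y ⟶ E), i ≫ p = 𝟙 X → s ≫ q = 𝟙 Y →
    Nonempty (SimplicialObject.Homotopy (p ≫ i) (𝟙 E)) →
    Nonempty (SimplicialObject.Homotopy (q ≫ s) (𝟙 E)) → SHE (i ≫ q)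

/-- (SHEW) levelwise application of a functor. -/
def SHEW_Stmt : Prop :=
  ∀ (C D : Type 1) [Category.{0} C] [Category.{0} D] (F : C ⥤ D) (X Y : SimplicialObject C)
    (f : X ⟶ Y), SHE f → SHE ((wh F).map f)

/-- (SHEQ) simplicial homotopy equivalences are quasi-isomorphisms. -/
def SHEQ_Stmt : Prop :=
  ∀ (C : Type 1) [Category.{0} C] [Abelian C] (X Y : SimplicialObject C) (f : X ⟶ Y),
    SHE f → QI f

/-- (CTRA) contractible objects: retracts, acyclicity. -/
def CTRA_Stmt : Prop :=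
  ∀ (C : Type 1) [Category.{0} C] [Abelian C] (X Y : SimplicialObject C),
    (∀ (r : X ⟶ Y) (i : Y ⟶ X), i ≫ r = 𝟙 Y → Ctr X → Ctr Y) ∧ (Ctr X → Acyc X)

/-! ## Dold -/

section
variable (k : Type) [Field k]

/-- (PRJ) acyclic complexes of vector spaces are projective and injective. -/
def PRJ_Stmt : Prop :=
  ∀ K : ChainComplex (ModuleCat.{0} k) ℕ, K.Acyclic → Projective K ∧ Injective K

/-- (DKP) acyclic simplicial vector spaces are projective and injective. -/
def DKP_Stmt : Prop :=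
  ∀ X : SimplicialObject (ModuleCat.{0} k), Acyc X → Projective X ∧ Injective X

/-- (DEC) the path object. -/
def DEC_Stmt : Prop :=
  ∀ Y : SimplicialObject (ModuleCat.{0} k), ∃ (P : SimplicialObject (ModuleCat.{0} k))
    (p : P ⟶ Y), Ctr P ∧ ∀ (n : ℕ) (y : Y.obj (op ⦋n⦌)),
      (∃ e : Y.obj (op ⦋1⦌), (Y.map (SimplexCategory.const ⦋0⦌ ⦋n⦌ 0).op).hom y =
        (Y.δ 0).hom e - (Y.δ 1).hom e) → ∃ a : P.obj (op ⦋n⦌), (p.app (op ⦋n⦌)).hom a = y

/-- (EPI) for a quasi-isomorphism `f : X ⟶ Y` the map `X ⊞ P ⟶ Y` is an epimorphism. -/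
def EPI_Stmt : Prop :=
  ∀ (X Y P : SimplicialObject (ModuleCat.{0} k)) (f : X ⟶ Y) (p : P ⟶ Y), QI f →
    (∀ (n : ℕ) (y : Y.obj (op ⦋n⦌)),
      (∃ e : Y.obj (op ⦋1⦌), (Y.map (SimplexCategory.const ⦋0⦌ ⦋n⦌ 0).op).hom y =
        (Y.δ 0).hom e - (Y.δ 1).hom e) → ∃ a : P.obj (op ⦋n⦌), (p.app (op ⦋n⦌)).hom a = y) →
    Epi (biprod.desc f p)

/-- (KER) the kernel of an epimorphism which is a quasi-isomorphism is acyclic. -/
def KER_Stmt : Prop :=
  ∀ (E Y : SimplicialObject (ModuleCat.{0} k)) (q : E ⟶ Y), Epi q → QI q → Acyc (kernel q)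

/-- (CTR) acyclic simplicial vector spaces are contractible. -/
def CTR_Stmt : Prop :=
  ∀ X : SimplicialObject (ModuleCat.{0} k), Acyc X → Ctr X

/-- (DOL) the theorem of Dold. -/
def DOL_Stmt : Prop :=
  ∀ (X Y : SimplicialObject (ModuleCat.{0} k)) (f : X ⟶ Y), QI f → SHE f

/-- (DPI) the theorem of Dold for families. -/
def DPI_Stmt : Prop :=
  ∀ (ι : Type) (X Y : SimplicialObject (ι → ModuleCat.{0} k)) (f : X ⟶ Y),
    (∀ i, QI ((wh (Pi.eval (fun _ : ι => ModuleCat.{0} k) i)).map f)) → SHE f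

/-! ## Polynomial graded algebras -/

/-- (PSB) the powers of the augmentation ideal. -/
def PSB_Stmt : Prop :=
  ∀ A : PGA k, (∀ p j, 1 ≤ p → Psub A.dg (p + 1) j ≤ Psub A.dg p j) ∧
    (∀ p j, j < p → Psub A.dg p j = ⊥) ∧ (∀ j, 1 ≤ j → Psub A.dg 1 j = A.dg j) ∧
    A.dg 0 = Submodule.span k {1} ∧ (∀ i j, A.dg i * A.dg j ≤ A.dg (i + j))

/-- (TOT) two out of three. -/
def TOT_Stmt : Prop :=
  ∀ (X Y : SimplicialObject (PGA k)) (f : X ⟶ Y) (p j : ℕ), 1 ≤ p →
    (QI ((wh (Pf (p + 1) j)).map f) → QI ((wh (Gf p j)).map f) → QI ((wh (Pf p j)).map f)) ∧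
    (QI ((wh (Pf (p + 1) j)).map f) → QI ((wh (Pf p j)).map f) → QI ((wh (Gf p j)).map f))

/-- (PHI) the associated graded algebra is the symmetric algebra of the indecomposables. -/
def PHI_Stmt : Prop :=
  ∀ p j : ℕ, 2 ≤ p → Nonempty ((Gf p j : PGA k ⥤ ModuleCat.{0} k) ≅ Qf j ⋙ Phi p j)

/-- (LMQ) Lemma Q. -/
def LMQ_Stmt : Prop :=
  ∀ (X Y : SimplicialObject (PGA k)) (f : X ⟶ Y),
    (∀ j, 1 ≤ j → QI ((wh (Pf 1 j)).map f)) → ∀ j, 1 ≤ j → QI ((wh (Gf 1 j)).map f)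

/-- The degree `m` part of `B` has the homology of a point, generated by the class of `x`. -/
def GenBy (B : SimplicialObject (PGA k)) (m : ℕ) (x : (B.obj (op ⦋0⦌)).R) : Prop :=
  x ∈ (B.obj (op ⦋0⦌)).dg m ∧
  (∀ b ∈ (B.obj (op ⦋0⦌)).dg m, ∃ (c : k), ∃ e ∈ (B.obj (op ⦋1⦌)).dg m,
    b - c • x = PGA.Hom.toAlg (B.δ 0) e - PGA.Hom.toAlg (B.δ 1) e) ∧
  (∀ c : k, (∃ e ∈ (B.obj (op ⦋1⦌)).dg m,
    c • x = PGA.Hom.toAlg (B.δ 0) e - PGA.Hom.toAlg (B.δ 1) e) → c = 0) ∧
  ∀ s, 1 ≤ s → ((alternatingFaceMapComplex _).obj ((wh (Pf 1 m)).obj B)).ExactAt s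

/-- (CMP) the comparison object `k[x, y_1, .., y_n]`. -/
def CMP_Stmt : Prop :=
  ∀ m : ℕ, 1 ≤ m → ∃ (C : SimplicialObject (PGA k)) (x0 : (C.obj (op ⦋0⦌)).R),
    GenBy k C m x0 ∧
    (∀ n j, 1 ≤ j → j ≠ m → j ≠ 2 * m → IsZero ((Gf 1 j).obj (C.obj n))) ∧
    (∀ j, 1 ≤ j → j ≠ m → Acyc ((wh (Pf 1 j)).obj C)) ∧
    ∀ (B : SimplicialObject (PGA k)), ∀ x ∈ (B.obj (op ⦋0⦌)).dg m,
      ∀ y ∈ (B.obj (op ⦋1⦌)).dg (2 * m), PGA.Hom.toAlg (B.δ 0) y = x ^ 2 →
      PGA.Hom.toAlg (B.δ 1) y = 0 → ∃ f : C ⟶ B, PGA.Hom.toAlg (f.app (op ⦋0⦌)) x0 = x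

/-- (GEN) comparison in degree `m`. -/
def GEN_Stmt : Prop :=
  ∀ (C B : SimplicialObject (PGA k)) (f : C ⟶ B) (m : ℕ) (x : (C.obj (op ⦋0⦌)).R), 1 ≤ m →
    GenBy k C m x → GenBy k B m (PGA.Hom.toAlg (f.app (op ⦋0⦌)) x) →
    QI ((wh (Pf 1 m)).map f)

/-- (FIN) boundedness of the derived indecomposables. -/
def FIN_Stmt : Prop :=
  ∀ (B : SimplicialObject (PGA k)) (m : ℕ) (x : (B.obj (op ⦋0⦌)).R), 1 ≤ m → GenBy k B m x →
    (∀ j, 1 ≤ j → j ≠ m → Acyc ((wh (Pf 1 j)).obj B)) →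
    ∀ j, 1 ≤ j → j ≠ m → j ≠ 2 * m → Acyc ((wh (Gf 1 j)).obj B)

end

end Pool.Agent.SHQ


end

section

/-!
# Block III-Q (MP_2d0b73_an): simplicial homotopy equivalences (SHEW, SHEQ, CTRA)
-/

open CategoryTheory CategoryTheory.Limits AlgebraicTopology Opposite Simplicial

namespace Pool.Agent.SHQ

namespace SHE

theorem cast_homotopy {C : Type*} [Category C] {X Y : SimplicialObject C} {f g f' g' : X ⟶ Y}
    (h : Nonempty (SimplicialObject.Homotopy f g)) (hf : f = f') (hg : g = g') :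
    Nonempty (SimplicialObject.Homotopy f' g') := by
  subst hf hg
  exact h

end SHE

theorem shew : SHEW_Stmt := by
  intro C D _ _ F X Y f ⟨g, ⟨H⟩, ⟨H'⟩⟩
  refine ⟨(wh F).map g, SHE.cast_homotopy ⟨H.whiskerRight F⟩ ?_ ?_,
    SHE.cast_homotopy ⟨H'.whiskerRight F⟩ ?_ ?_⟩
  · exact (wh F).map_comp f g
  · exact (wh F).map_id X
  · exact (wh F).map_comp g f
  · exact (wh F).map_id Y

theorem sheq : SHEQ_Stmt := by
  intro C _ _ X Y f ⟨g, ⟨H⟩, ⟨H'⟩⟩
  let e : HomotopyEquiv ((alternatingFaceMapComplex C).obj X)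
      ((alternatingFaceMapComplex C).obj Y) :=
    { hom := (alternatingFaceMapComplex C).map f
      inv := (alternatingFaceMapComplex C).map g
      homotopyHomInvId := (Homotopy.ofEq ((alternatingFaceMapComplex C).map_comp f g).symm).trans
        (H.toChainHomotopy.trans (Homotopy.ofEq ((alternatingFaceMapComplex C).map_id X)))
      homotopyInvHomId := (Homotopy.ofEq ((alternatingFaceMapComplex C).map_comp g f).symm).trans
        (H'.toChainHomotopy.trans (Homotopy.ofEq ((alternatingFaceMapComplex C).map_id Y))) }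
  have h : QuasiIso e.hom := ⟨fun n => e.quasiIsoAt_hom n⟩
  exact h

theorem ctra : CTRA_Stmt := by
  intro C _ _ X Y
  refine ⟨?_, ?_⟩
  · intro r i hir ⟨H⟩
    refine SHE.cast_homotopy ⟨(H.precomp i).postcomp r⟩ ?_ ?_
    · simp
    · simpa using hir
  · intro ⟨H⟩ n
    rw [HomologicalComplex.exactAt_iff_isZero_homology, IsZero.iff_id_eq_zero]
    have h1 := H.toChainHomotopy.homologyMap_eq n
    rw [CategoryTheory.Functor.map_id, HomologicalComplex.homologyMap_id] at h1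
    rw [← h1]
    have h2 : (alternatingFaceMapComplex C).map (0 : X ⟶ X) = 0 := by
      ext m
      simp
    rw [h2]
    simp

end Pool.Agent.SHQ


end

section

/-!
# Block III-Q (MP_2d0b73_an): acyclic simplicial vector spaces are projective and injective
-/

open CategoryTheory CategoryTheory.Limits AlgebraicTopology Opposite Simplicial

namespace Pool.Agent.SHQ

namespace DKP

/-- The normalized Moore complex of an acyclic object is acyclic. -/
theorem acyclic_moore {C : Type*} [Category C] [Abelian C] (X : SimplicialObject C)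
    (hX : Acyc X) : ((normalizedMooreComplex C).obj X).Acyclic := by
  intro i
  have h1 : ((alternatingFaceMapComplex C).obj X).ExactAt i := hX i
  rw [HomologicalComplex.exactAt_iff_isZero_homology] at h1 ⊢
  have e := (DoldKan.homotopyEquivNormalizedMooreComplexAlternatingFaceMapComplex
    (A := C) (Y := X)).toHomologyIso i
  exact h1.of_iso e

end DKP

theorem dkp (k : Type) [Field k] : PRJ_Stmt k → DKP_Stmt k := by
  intro h X hX
  obtain ⟨hp, hi⟩ := h _ (DKP.acyclic_moore X hX)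
  exact ⟨((Abelian.DoldKan.equivalence (A := ModuleCat.{0} k)).map_projective_iff X).1 hp,
    ((Abelian.DoldKan.equivalence (A := ModuleCat.{0} k)).map_injective_iff X).1 hi⟩

end Pool.Agent.SHQ


end

section

/-!
# Block III-Q (MP_2d0b73_an), module DEC: the path object
-/

open CategoryTheory CategoryTheory.Limits AlgebraicTopology Opposite Simplicial

namespace Pool.Agent.SHQ

namespace DEC

/-- `0 ↦ 0`, `succ i ↦ succ (f i)`. -/
def shF {m n : ℕ} (f : Fin (m + 1) →o Fin (n + 1)) : Fin (m + 1 + 1) →o Fin (n + 1 + 1) where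
  toFun i := Fin.cases 0 (fun j => (f j).succ) i
  monotone' := by
    intro i j hij
    cases i using Fin.cases with
    | zero => exact Fin.zero_le _
    | succ i =>
      cases j using Fin.cases with
      | zero => exact absurd hij (by simp)
      | succ j =>
        show (f i).succ ≤ (f j).succ
        rw [Fin.succ_le_succ_iff]
        exact f.monotone (Fin.succ_le_succ_iff.1 hij)

@[simp] lemma shF_zero {m n : ℕ} (f : Fin (m + 1) →o Fin (n + 1)) : shF f 0 = 0 := rfl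

@[simp] lemma shF_succ {m n : ℕ} (f : Fin (m + 1) →o Fin (n + 1)) (i : Fin (m + 1)) :
    shF f i.succ = (f i).succ := rfl

/-- The shift. -/
def sh {a b : SimplexCategory} (f : a ⟶ b) : ⦋a.len + 1⦌ ⟶ ⦋b.len + 1⦌ :=
  SimplexCategory.Hom.mk (shF f.toOrderHom)

lemma sh_id (a : SimplexCategory) : sh (𝟙 a) = 𝟙 _ := by
  ext i : 3
  cases i using Fin.cases with
  | zero => rfl
  | succ i => rfl

lemma sh_comp {a b e : SimplexCategory} (f : a ⟶ b) (g : b ⟶ e) : sh (f ≫ g) = sh f ≫ sh g := by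
  ext i : 3
  cases i using Fin.cases with
  | zero => rfl
  | succ i => rfl

/-- The vertex `0` of `⦋n + 1⦌`. -/
def c (a : SimplexCategory) : ⦋0⦌ ⟶ ⦋a.len + 1⦌ := SimplexCategory.const ⦋0⦌ ⦋a.len + 1⦌ 0

lemma c_sh {a b : SimplexCategory} (f : a ⟶ b) : c a ≫ sh f = c b := by
  ext i : 3
  rfl

/-- The face which omits the vertex `0`. -/
def d (a : SimplexCategory) : a ⟶ ⦋a.len + 1⦌ := SimplexCategory.δ (n := a.len) 0

lemma d_sh {a b : SimplexCategory} (f : a ⟶ b) : d a ≫ sh f = f ≫ d b := by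
  ext i : 3
  rfl

lemma sh_δ {n : ℕ} (i : Fin (n + 2)) :
    sh (SimplexCategory.δ i) = SimplexCategory.δ i.succ := by
  ext j : 3
  cases j using Fin.cases with
  | zero =>
    show (0 : Fin (n + 1 + 1 + 1)) = i.succ.succAbove 0
    simp
  | succ j =>
    show (i.succAbove j).succ = i.succ.succAbove j.succ
    simp

lemma sh_σ {n : ℕ} (i : Fin (n + 1)) :
    sh (SimplexCategory.σ i) = SimplexCategory.σ i.succ := by
  ext j : 3
  cases j using Fin.cases with
  | zero =>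
    show (0 : Fin (n + 1 + 1)) = i.succ.predAbove 0
    simp
  | succ j =>
    show (i.predAbove j).succ = i.succ.predAbove j.succ
    simp

variable {k : Type} [Field k] (Y : SimplicialObject (ModuleCat.{0} k))

lemma map_map {a b e : SimplexCategory} (f : a ⟶ b) (g : b ⟶ e) (y : Y.obj (op e)) :
    (Y.map f.op).hom ((Y.map g.op).hom y) = (Y.map (f ≫ g).op).hom y := by
  rw [op_comp, Y.map_comp]
  rfl

/-- Vertex `0`. -/
noncomputable def v (a : SimplexCategory) : Y.obj (op ⦋a.len + 1⦌) →ₗ[k] Y.obj (op ⦋0⦌) :=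
  (Y.map (c a).op).hom

lemma v_map {a b : SimplexCategory} (f : a ⟶ b) :
    ∀ y ∈ LinearMap.ker (v Y b), (Y.map (sh f).op).hom y ∈ LinearMap.ker (v Y a) := by
  intro y hy
  rw [LinearMap.mem_ker] at hy ⊢
  show (Y.map (c a).op).hom _ = 0
  rw [map_map, c_sh]
  exact hy

/-- The path object. -/
noncomputable def P : SimplicialObject (ModuleCat.{0} k) where
  obj A := ModuleCat.of k (LinearMap.ker (v Y A.unop))
  map {A B} g := ModuleCat.ofHom ((Y.map (sh g.unop).op).hom.restrict (v_map Y g.unop))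
  map_id A := by
    ext x
    show (Y.map (sh (𝟙 A.unop)).op).hom x.1 = x.1
    rw [sh_id]
    show (Y.map (𝟙 _)).hom x.1 = x.1
    rw [Y.map_id]
    rfl
  map_comp {A B C} f g := by
    ext x
    show (Y.map (sh (g.unop ≫ f.unop)).op).hom x.1 =
      (Y.map (sh g.unop).op).hom ((Y.map (sh f.unop).op).hom x.1)
    rw [map_map, sh_comp]

/-- The projection. -/
noncomputable def p : P Y ⟶ Y where
  app A := ModuleCat.ofHom ((Y.map (d A.unop).op).hom ∘ₗ Submodule.subtype _)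
  naturality A B g := by
    ext x
    show (Y.map (d B.unop).op).hom ((Y.map (sh g.unop).op).hom x.1) =
      (Y.map g).hom ((Y.map (d A.unop).op).hom x.1)
    have h : (Y.map g).hom ((Y.map (d A.unop).op).hom x.1) =
      (Y.map g.unop.op).hom ((Y.map (d A.unop).op).hom x.1) := rfl
    rw [h, map_map, map_map, d_sh]

lemma v_σ (n : ℕ) : ∀ y ∈ LinearMap.ker (v Y ⦋n⦌),
    (Y.σ (n := n + 1) 0).hom y ∈ LinearMap.ker (v Y ⦋n + 1⦌) := by
  intro y hy
  rw [LinearMap.mem_ker] at hy ⊢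
  show (Y.map (c ⦋n + 1⦌).op).hom ((Y.map (SimplexCategory.σ (n := n + 1) 0).op).hom y) = 0
  rw [map_map]
  have h : c ⦋n + 1⦌ ≫ SimplexCategory.σ (n := n + 1) 0 = c ⦋n⦌ := by
    ext i : 3
    rfl
  rw [h]
  exact hy

/-- The augmented object `P ⟶ 0`. -/
noncomputable def augP : SimplicialObject.Augmented (ModuleCat.{0} k) where
  left := P Y
  right := ModuleCat.of k PUnit
  hom := 0

/-- The extra degeneracy. -/
noncomputable def sP (n : ℕ) : (P Y).obj (op ⦋n⦌) ⟶ (P Y).obj (op ⦋n + 1⦌) :=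
  ModuleCat.ofHom ((Y.σ (n := n + 1) 0).hom.restrict (v_σ Y n))

lemma e1 (y : Y.obj (op ⦋1⦌)) (hy : (Y.map (c ⦋0⦌).op).hom y = 0) :
    (Y.map (sh (SimplexCategory.δ (n := 0) 1)).op).hom
      ((Y.map (SimplexCategory.σ (n := 1) 0).op).hom y) = 0 := by
  rw [map_map Y (sh (SimplexCategory.δ (n := 0) 1)) (SimplexCategory.σ (n := 1) 0)]
  have h : sh (SimplexCategory.δ (n := 0) 1) ≫ SimplexCategory.σ (n := 1) 0 =
      SimplexCategory.const ⦋1⦌ ⦋0⦌ 0 ≫ c ⦋0⦌ := by
    ext i : 3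
    fin_cases i <;> rfl
  rw [h, ← map_map Y (SimplexCategory.const ⦋1⦌ ⦋0⦌ 0) (c ⦋0⦌), hy, map_zero]

lemma e2 (n : ℕ) (y : Y.obj (op ⦋n + 1⦌)) :
    (Y.map (sh (SimplexCategory.δ (n := n) 0)).op).hom
      ((Y.map (SimplexCategory.σ (n := n + 1) 0).op).hom y) = y := by
  rw [map_map Y (sh (SimplexCategory.δ (n := n) 0)) (SimplexCategory.σ (n := n + 1) 0), sh_δ]
  have h : SimplexCategory.δ (n := n + 1) (Fin.succ 0) ≫ SimplexCategory.σ (n := n + 1) 0 =
      𝟙 _ := SimplexCategory.δ_comp_σ_succ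
  rw [h]
  show (Y.map (𝟙 _)).hom y = y
  rw [Y.map_id]
  rfl

lemma e3 (n : ℕ) (i : Fin (n + 2)) (y : Y.obj (op ⦋n + 1 + 1⦌)) :
    (Y.map (sh (SimplexCategory.δ (n := n + 1) i.succ)).op).hom
      ((Y.map (SimplexCategory.σ (n := n + 1 + 1) 0).op).hom y) =
      (Y.map (SimplexCategory.σ (n := n + 1) 0).op).hom
        ((Y.map (sh (SimplexCategory.δ (n := n) i)).op).hom y) := by
  rw [map_map Y (sh (SimplexCategory.δ (n := n + 1) i.succ))
      (SimplexCategory.σ (n := n + 1 + 1) 0),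
    map_map Y (SimplexCategory.σ (n := n + 1) 0) (sh (SimplexCategory.δ (n := n) i)),
    sh_δ, sh_δ]
  have h : SimplexCategory.δ (n := n + 1 + 1) i.succ.succ ≫
      SimplexCategory.σ (n := n + 1 + 1) (Fin.castSucc 0) =
      SimplexCategory.σ (n := n + 1) 0 ≫ SimplexCategory.δ (n := n + 1) i.succ :=
    SimplexCategory.δ_comp_σ_of_gt (by simp)
  have h' : (0 : Fin (n + 1 + 1 + 1)) = Fin.castSucc 0 := rfl
  rw [h', h]

lemma e4 (n : ℕ) (i : Fin (n + 1)) (y : Y.obj (op ⦋n + 1⦌)) :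
    (Y.map (sh (SimplexCategory.σ (n := n + 1) i.succ)).op).hom
      ((Y.map (SimplexCategory.σ (n := n + 1) 0).op).hom y) =
      (Y.map (SimplexCategory.σ (n := n + 1 + 1) 0).op).hom
        ((Y.map (sh (SimplexCategory.σ (n := n) i)).op).hom y) := by
  rw [map_map Y (sh (SimplexCategory.σ (n := n + 1) i.succ))
      (SimplexCategory.σ (n := n + 1) 0),
    map_map Y (SimplexCategory.σ (n := n + 1 + 1) 0) (sh (SimplexCategory.σ (n := n) i)),
    sh_σ, sh_σ]
  have h : SimplexCategory.σ (n := n + 1 + 1) (Fin.castSucc 0) ≫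
      SimplexCategory.σ (n := n + 1) i.succ =
      SimplexCategory.σ (n := n + 1 + 1) i.succ.succ ≫ SimplexCategory.σ (n := n + 1) 0 :=
    SimplexCategory.σ_comp_σ (by simp)
  have h' : (0 : Fin (n + 1 + 1 + 1)) = Fin.castSucc 0 := rfl
  rw [h', h]

lemma f1 : sP Y 0 ≫ (P Y).δ 1 = 0 := by
  ext x
  apply Subtype.ext
  exact e1 Y (Subtype.val (p := fun z => z ∈ LinearMap.ker (v Y ⦋0⦌)) x)
    (Subtype.property (p := fun z => z ∈ LinearMap.ker (v Y ⦋0⦌)) x)

lemma f2 (n : ℕ) : sP Y n ≫ (P Y).δ 0 = 𝟙 _ := by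
  ext x
  apply Subtype.ext
  exact e2 Y n (Subtype.val (p := fun z => z ∈ LinearMap.ker (v Y ⦋n⦌)) x)

lemma f3 (n : ℕ) (i : Fin (n + 2)) : sP Y (n + 1) ≫ (P Y).δ i.succ = (P Y).δ i ≫ sP Y n := by
  ext x
  apply Subtype.ext
  exact e3 Y n i (Subtype.val (p := fun z => z ∈ LinearMap.ker (v Y ⦋n + 1⦌)) x)

lemma f4 (n : ℕ) (i : Fin (n + 1)) : sP Y n ≫ (P Y).σ i.succ = (P Y).σ i ≫ sP Y (n + 1) := by
  ext x
  apply Subtype.ext
  exact e4 Y n i (Subtype.val (p := fun z => z ∈ LinearMap.ker (v Y ⦋n⦌)) x)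

/-- The extra degeneracy of `P ⟶ 0`. -/
noncomputable def ed : (augP Y).ExtraDegeneracy where
  s' := 0
  s n := sP Y n
  s'_comp_ε := by
    ext x
    rfl
  s₀_comp_δ₁ := by
    refine (f1 Y).trans ?_
    exact comp_zero.symm
  s_comp_δ₀ n := f2 Y n
  s_comp_δ n i := f3 Y n i
  s_comp_σ n i := f4 Y n i

theorem ctr_P : Ctr (P Y) := by
  have h := (ed Y).homotopy
  have h0 : (augP Y).hom ≫ (ed Y).section_ = 0 := by
    show (0 : P Y ⟶ _) ≫ _ = 0
    rw [zero_comp]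
  rw [h0] at h
  exact ⟨h⟩

theorem surj (n : ℕ) (y : Y.obj (op ⦋n⦌)) (e : Y.obj (op ⦋1⦌))
    (he : (Y.map (SimplexCategory.const ⦋0⦌ ⦋n⦌ 0).op).hom y =
        (Y.δ 0).hom e - (Y.δ 1).hom e) :
    ∃ a : (P Y).obj (op ⦋n⦌), ((p Y).app (op ⦋n⦌)).hom a = y := by
  set e' : Y.obj (op ⦋1⦌) := (Y.σ 0).hom ((Y.δ 0).hom e) - e with he'
  have h0 : (Y.δ 0).hom e' = 0 := by
    have h : (Y.δ 0).hom ((Y.σ (n := 0) 0).hom ((Y.δ 0).hom e)) = (Y.δ 0).hom e := by
      have h1 := Y.δ_comp_σ_self (n := 0) (i := 0)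
      exact congrArg (fun f => f.hom ((Y.δ 0).hom e)) h1
    rw [he', map_sub, h, sub_self]
  have h1 : (Y.δ 1).hom e' = (Y.δ 0).hom e - (Y.δ 1).hom e := by
    have h : (Y.δ 1).hom ((Y.σ (n := 0) 0).hom ((Y.δ 0).hom e)) = (Y.δ 0).hom e := by
      have h1 := Y.δ_comp_σ_succ (n := 0) (i := 0)
      exact congrArg (fun f => f.hom ((Y.δ 0).hom e)) h1
    rw [he', map_sub, h]
  set w : Y.obj (op ⦋n + 1⦌) :=
    (Y.map (sh (SimplexCategory.const ⦋n⦌ ⦋0⦌ 0)).op).hom e' with hw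
  have w1 : (Y.map (c ⦋n⦌).op).hom w = (Y.δ 1).hom e' := by
    rw [hw, map_map Y (c ⦋n⦌) (sh (SimplexCategory.const ⦋n⦌ ⦋0⦌ 0)), c_sh]
    have h3 : c ⦋0⦌ = SimplexCategory.δ (n := 0) 1 := by
      ext i : 3
      fin_cases i
      rfl
    rw [h3]
    rfl
  have w2 : (Y.map (d ⦋n⦌).op).hom w = 0 := by
    rw [hw, map_map Y (d ⦋n⦌) (sh (SimplexCategory.const ⦋n⦌ ⦋0⦌ 0)), d_sh,
      ← map_map Y (SimplexCategory.const ⦋n⦌ ⦋0⦌ 0) (d ⦋0⦌)]
    have h5 : (Y.map (d ⦋0⦌).op).hom e' = (Y.δ 0).hom e' := rfl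
    rw [h5, h0, map_zero]
  set u : Y.obj (op ⦋n + 1⦌) := (Y.map (SimplexCategory.σ (n := n) 0).op).hom y with hu
  have u1 : (Y.map (c ⦋n⦌).op).hom u =
      (Y.map (SimplexCategory.const ⦋0⦌ ⦋n⦌ 0).op).hom y := by
    rw [hu, map_map Y (c ⦋n⦌) (SimplexCategory.σ (n := n) 0)]
    have h2 : c ⦋n⦌ ≫ SimplexCategory.σ (n := n) 0 = SimplexCategory.const ⦋0⦌ ⦋n⦌ 0 := by
      ext i : 3
      rfl
    rw [h2]
  have u2 : (Y.map (d ⦋n⦌).op).hom u = y := by
    rw [hu, map_map Y (d ⦋n⦌) (SimplexCategory.σ (n := n) 0)]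
    have h6 : d ⦋n⦌ ≫ SimplexCategory.σ (n := n) 0 = 𝟙 _ :=
      SimplexCategory.δ_comp_σ_self (n := n) (i := 0)
    rw [h6]
    show (Y.map (𝟙 _)).hom y = y
    rw [Y.map_id]
    rfl
  have hv : u - w ∈ LinearMap.ker (v Y ⦋n⦌) := by
    rw [LinearMap.mem_ker]
    have h7 : v Y ⦋n⦌ u = v Y ⦋n⦌ w := by
      show (Y.map (c ⦋n⦌).op).hom u = (Y.map (c ⦋n⦌).op).hom w
      rw [u1, w1, he, h1]
    have h8 : v Y ⦋n⦌ (u - w) = v Y ⦋n⦌ u - v Y ⦋n⦌ w := map_sub (v Y ⦋n⦌) u w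
    rw [h8, h7, sub_self]
  refine ⟨⟨u - w, hv⟩, ?_⟩
  have h9 : (Y.map (d ⦋n⦌).op).hom (u - w) =
    (Y.map (d ⦋n⦌).op).hom u - (Y.map (d ⦋n⦌).op).hom w := map_sub (Y.map (d ⦋n⦌).op).hom u w
  show (Y.map (d ⦋n⦌).op).hom (u - w) = y
  rw [h9, u2, w2, sub_zero]

end DEC

/-- (DEC) the path object. -/
theorem dec (k : Type) [Field k] : DEC_Stmt k := fun Y =>
  ⟨DEC.P Y, DEC.p Y, DEC.ctr_P Y, fun n y ⟨e, he⟩ => DEC.surj Y n y e he⟩

end Pool.Agent.SHQ


end

section

/-! # Block III-Q: the map from the sum with the path object is an epimorphism -/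

open CategoryTheory CategoryTheory.Limits AlgebraicTopology Opposite Simplicial

namespace Pool.Agent.SHQ

namespace EPI

variable {k : Type} [Field k]

/-- Surjectivity on `H_0`, elementwise. -/
theorem surj_zero {K L : ChainComplex (ModuleCat.{0} k) ℕ} (φ : K ⟶ L) [QuasiIso φ] (y : L.X 0) :
    ∃ (x : K.X 0) (e : L.X 1), y = (φ.f 0).hom x + (L.d 1 0).hom e := by
  have h1 : HomologicalComplex.opcyclesMap φ 0 =
      K.isoHomologyι₀.inv ≫ HomologicalComplex.homologyMap φ 0 ≫ L.isoHomologyι₀.hom := by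
    rw [← Category.assoc, ChainComplex.isoHomologyι₀_inv_naturality, Category.assoc,
      Iso.inv_hom_id, Category.comp_id]
  have h2 : IsIso (HomologicalComplex.opcyclesMap φ 0) := by
    rw [h1]
    infer_instance
  have h3 : Function.Surjective (HomologicalComplex.opcyclesMap φ 0).hom :=
    (ModuleCat.epi_iff_surjective _).1 inferInstance
  have h4 : Function.Surjective (K.pOpcycles 0).hom :=
    (ModuleCat.epi_iff_surjective _).1 inferInstance
  obtain ⟨z, hz⟩ := h3 ((L.pOpcycles 0).hom y)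
  obtain ⟨x, rfl⟩ := h4 z
  have h5 : (HomologicalComplex.opcyclesMap φ 0).hom ((K.pOpcycles 0).hom x) =
      (L.pOpcycles 0).hom ((φ.f 0).hom x) := by
    have h6 := HomologicalComplex.p_opcyclesMap φ 0
    exact ConcreteCategory.congr_hom h6 x
  have hS : (ShortComplex.mk (L.d 1 0) (L.pOpcycles 0) (L.d_pOpcycles 1 0)).Exact :=
    ShortComplex.exact_of_g_is_cokernel _ (L.opcyclesIsCokernel 1 0 (by simp))
  rw [ShortComplex.moduleCat_exact_iff] at hS
  obtain ⟨e, he⟩ := hS (y - (φ.f 0).hom x) (by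
    show (L.pOpcycles 0).hom (y - (φ.f 0).hom x) = 0
    rw [map_sub, ← h5, hz, sub_self])
  refine ⟨x, e, ?_⟩
  have he' : (L.d 1 0).hom e = y - (φ.f 0).hom x := he
  rw [he', add_sub_cancel]

end EPI

/-- For a quasi-isomorphism `f : X ⟶ Y` the map `X ⊞ P ⟶ Y` is an epimorphism. -/
theorem epi (k : Type) [Field k] : EPI_Stmt k := by
  intro X Y P f p hf hp
  have h0 : ∀ y : Y.obj (op ⦋0⦌), ∃ (x : X.obj (op ⦋0⦌)) (e : Y.obj (op ⦋1⦌)),
      y = (f.app (op ⦋0⦌)).hom x + ((Y.δ 0).hom e - (Y.δ 1).hom e) := by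
    intro y
    have hq : QuasiIso ((alternatingFaceMapComplex (ModuleCat.{0} k)).map f) := hf
    obtain ⟨x, e, h⟩ := EPI.surj_zero ((alternatingFaceMapComplex (ModuleCat.{0} k)).map f) y
    refine ⟨x, e, ?_⟩
    have hd : ((alternatingFaceMapComplex (ModuleCat.{0} k)).obj Y).d 1 0 =
        Y.δ 0 - Y.δ 1 := by
      rw [alternatingFaceMapComplex_obj_d]
      simp [AlternatingFaceMapComplex.objD, Fin.sum_univ_two, sub_eq_add_neg]
    rw [hd] at h
    exact h
  have happ : ∀ Δ, Epi ((biprod.desc f p).app Δ) := by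
    rintro ⟨Δ⟩
    rw [ModuleCat.epi_iff_surjective]
    intro y
    induction Δ using SimplexCategory.rec with
    | _ n =>
    obtain ⟨x, e, h⟩ := h0 ((Y.map (SimplexCategory.const ⦋0⦌ ⦋n⦌ 0).op).hom y)
    have h1 : (Y.map (SimplexCategory.const ⦋0⦌ ⦋n⦌ 0).op).hom
        (y - (f.app (op ⦋n⦌)).hom ((X.map (SimplexCategory.const ⦋n⦌ ⦋0⦌ 0).op).hom x)) =
        (Y.δ 0).hom e - (Y.δ 1).hom e := by
      have h2 : (Y.map (SimplexCategory.const ⦋0⦌ ⦋n⦌ 0).op).hom
          ((f.app (op ⦋n⦌)).hom ((X.map (SimplexCategory.const ⦋n⦌ ⦋0⦌ 0).op).hom x)) =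
          (f.app (op ⦋0⦌)).hom x := by
        have h3 : X.map (SimplexCategory.const ⦋n⦌ ⦋0⦌ 0).op ≫ f.app (op ⦋n⦌) ≫
            Y.map (SimplexCategory.const ⦋0⦌ ⦋n⦌ 0).op = f.app (op ⦋0⦌) := by
          rw [← f.naturality, ← Category.assoc, ← X.map_comp, ← op_comp]
          have h4 : SimplexCategory.const ⦋0⦌ ⦋n⦌ 0 ≫ SimplexCategory.const ⦋n⦌ ⦋0⦌ 0 =
              𝟙 ⦋0⦌ := Subsingleton.elim _ _
          rw [h4, op_id, X.map_id, Category.id_comp]
        exact ConcreteCategory.congr_hom h3 x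
      rw [map_sub, h2, h, add_sub_cancel_left]
    obtain ⟨a, ha⟩ := hp n _ ⟨e, h1⟩
    refine ⟨((biprod.inl : X ⟶ X ⊞ P).app (op ⦋n⦌)).hom
        ((X.map (SimplexCategory.const ⦋n⦌ ⦋0⦌ 0).op).hom x) +
      ((biprod.inr : P ⟶ X ⊞ P).app (op ⦋n⦌)).hom a, ?_⟩
    rw [map_add]
    have e1 : (biprod.inl : X ⟶ X ⊞ P).app (op ⦋n⦌) ≫ (biprod.desc f p).app (op ⦋n⦌) =
        f.app (op ⦋n⦌) := by
      rw [← NatTrans.comp_app, biprod.inl_desc]
    have e2 : (biprod.inr : P ⟶ X ⊞ P).app (op ⦋n⦌) ≫ (biprod.desc f p).app (op ⦋n⦌) =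
        p.app (op ⦋n⦌) := by
      rw [← NatTrans.comp_app, biprod.inr_desc]
    have e1' := ConcreteCategory.congr_hom e1 ((X.map (SimplexCategory.const ⦋n⦌ ⦋0⦌ 0).op).hom x)
    have e2' := ConcreteCategory.congr_hom e2 a
    refine (congrArg₂ (· + ·) e1' e2').trans ?_
    have ha' : (p.app (op ⦋n⦌)) a = y - (f.app (op ⦋n⦌)).hom
        ((X.map (SimplexCategory.const ⦋n⦌ ⦋0⦌ 0).op).hom x) := ha
    show (f.app (op ⦋n⦌)) _ + (p.app (op ⦋n⦌)) a = y
    rw [ha']
    exact add_sub_cancel _ _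
  exact NatTrans.epi_of_epi_app _

end Pool.Agent.SHQ


end

section

/-!
# Block III-Q (MP_2d0b73_an): the kernel of an epimorphism which is a quasi-isomorphism is acyclic
-/

open CategoryTheory CategoryTheory.Limits AlgebraicTopology Opposite Simplicial

namespace Pool.Agent.SHQ

theorem ker (k : Type) [Field k] : KER_Stmt k := by
  intro E Y q hq hqi
  let S : ShortComplex (SimplicialObject (ModuleCat.{0} k)) :=
    ShortComplex.mk (kernel.ι q) q (kernel.condition q)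
  have hS : S.ShortExact :=
    { exact := ShortComplex.exact_of_f_is_kernel S (kernelIsKernel q)
      mono_f := inferInstanceAs (Mono (kernel.ι q))
      epi_g := hq }
  have hSF : (S.map (alternatingFaceMapComplex (ModuleCat.{0} k))).ShortExact := by
    apply HomologicalComplex.shortExact_of_degreewise_shortExact
    intro i
    exact hS.map_of_exact ((evaluation _ _).obj (op ⦋i⦌))
  have hq' : QuasiIso (S.map (alternatingFaceMapComplex (ModuleCat.{0} k))).g := hqi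
  intro i
  exact hSF.exactAt_X₁ i

end Pool.Agent.SHQ


end

section

/-!
# Block III-Q (MP_2d0b73_an), module CTR: acyclic simplicial vector spaces are contractible
-/

open CategoryTheory CategoryTheory.Limits AlgebraicTopology Opposite Simplicial

namespace Pool.Agent.SHQ

namespace CTR

variable {k : Type} [Field k]

/-- Exactness in degree zero. -/
theorem bdry (X : SimplicialObject (ModuleCat.{0} k)) (hX : Acyc X) (x : X.obj (op ⦋0⦌)) :
    ∃ e : X.obj (op ⦋1⦌), x = (X.δ 0).hom e - (X.δ 1).hom e := by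
  have h0 := hX 0
  rw [HomologicalComplex.exactAt_iff' _ 1 0 0 (by simp) (by simp)] at h0
  rw [ShortComplex.moduleCat_exact_iff] at h0
  have hz : ((alternatingFaceMapComplex (ModuleCat.{0} k)).obj X).d 0 0 = 0 :=
    ((alternatingFaceMapComplex (ModuleCat.{0} k)).obj X).shape 0 0 (by simp)
  obtain ⟨e, he⟩ := h0 x (by
    change (((alternatingFaceMapComplex (ModuleCat.{0} k)).obj X).d 0 0).hom x = 0
    rw [hz]
    rfl)
  refine ⟨e, ?_⟩
  have h1 : ((alternatingFaceMapComplex (ModuleCat.{0} k)).obj X).d 1 0 =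
      ∑ i : Fin 2, (-1 : ℤ) ^ (i : ℕ) • X.δ i := AlternatingFaceMapComplex.obj_d_eq X 0
  change (((alternatingFaceMapComplex (ModuleCat.{0} k)).obj X).d 1 0).hom e = x at he
  rw [h1, Fin.sum_univ_two] at he
  rw [← he]
  simp [sub_eq_add_neg]

end CTR

/-- (CTR) acyclic simplicial vector spaces are contractible. -/
theorem ctr (k : Type) [Field k] : CTRA_Stmt → DKP_Stmt k → DEC_Stmt k → CTR_Stmt k := by
  intro h1 h2 h3 X hX
  obtain ⟨P, p, hP, hp⟩ := h3 X
  have hproj : Projective X := (h2 X hX).1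
  have hepi : Epi p := by
    have : ∀ c, Epi (p.app c) := by
      intro c
      rw [ModuleCat.epi_iff_surjective]
      intro y
      exact hp c.unop.len y (CTR.bdry X hX _)
    exact NatTrans.epi_of_epi_app p
  exact (h1 _ P X).1 p (Projective.factorThru (𝟙 X) p) (Projective.factorThru_comp _ _) hP

end Pool.Agent.SHQ


end

section

/-!
# Block III-Q (MP_2d0b73_an): the theorem of Dold for families
-/

open CategoryTheory CategoryTheory.Limits AlgebraicTopology Opposite Simplicial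

namespace Pool.Agent.SHQ

namespace DPI

variable {k : Type} [Field k] {ι : Type}

/-- Evaluation at `i`. -/
abbrev ev (k : Type) [Field k] {ι : Type} (i : ι) :
    (ι → ModuleCat.{0} k) ⥤ ModuleCat.{0} k := Pi.eval (fun _ : ι => ModuleCat.{0} k) i

/-- A family of morphisms of the components is a morphism. -/
def mkHom {X Y : SimplicialObject (ι → ModuleCat.{0} k)}
    (g : ∀ i, (wh (ev k i)).obj X ⟶ (wh (ev k i)).obj Y) : X ⟶ Y where
  app n := fun i => (g i).app n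
  naturality m n a := by
    funext i
    exact (g i).naturality a

/-- A family of homotopies of the components is a homotopy. -/
def mkHty {X Y : SimplicialObject (ι → ModuleCat.{0} k)} {f g : X ⟶ Y}
    (H : ∀ i, SimplicialObject.Homotopy ((wh (ev k i)).map f) ((wh (ev k i)).map g)) :
    SimplicialObject.Homotopy f g where
  h j := fun i => (H i).h j
  h_zero_comp_δ_zero n := by
    funext i
    exact (H i).h_zero_comp_δ_zero n
  h_last_comp_δ_last n := by
    funext i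
    exact (H i).h_last_comp_δ_last n
  h_succ_comp_δ_castSucc_of_lt a b hab := by
    funext i
    exact (H i).h_succ_comp_δ_castSucc_of_lt a b hab
  h_succ_comp_δ_castSucc_succ j := by
    funext i
    exact (H i).h_succ_comp_δ_castSucc_succ j
  h_castSucc_comp_δ_succ_of_lt a b hab := by
    funext i
    exact (H i).h_castSucc_comp_δ_succ_of_lt a b hab
  h_comp_σ_castSucc_of_le a b hab := by
    funext i
    exact (H i).h_comp_σ_castSucc_of_le a b hab
  h_comp_σ_succ_of_lt a b hab := by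
    funext i
    exact (H i).h_comp_σ_succ_of_lt a b hab

end DPI

theorem dpi (k : Type) [Field k] : DOL_Stmt k → DPI_Stmt k := by
  intro hD ι X Y f hf
  choose g hg1 hg2 using fun i => hD _ _ _ (hf i)
  refine ⟨DPI.mkHom g, ⟨DPI.mkHty fun i => ?_⟩, ⟨DPI.mkHty fun i => ?_⟩⟩
  · have e1 : (wh (DPI.ev k i)).map (f ≫ DPI.mkHom g) = (wh (DPI.ev k i)).map f ≫ g i := rfl
    have e2 : (wh (DPI.ev k i)).map (𝟙 X) = 𝟙 _ := rfl
    rw [e1, e2]
    exact (hg1 i).some
  · have e1 : (wh (DPI.ev k i)).map (DPI.mkHom g ≫ f) = g i ≫ (wh (DPI.ev k i)).map f := rfl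
    have e2 : (wh (DPI.ev k i)).map (𝟙 Y) = 𝟙 _ := rfl
    rw [e1, e2]
    exact (hg2 i).some

end Pool.Agent.SHQ


end

section

/-!
# PSB: powers of the augmentation ideal of a polynomial graded algebra
-/

open CategoryTheory CategoryTheory.Limits AlgebraicTopology Opposite Simplicial

namespace Pool.Agent.SHQ

namespace PSB

variable {k : Type} [Field k] {R : Type} [CommRing R] [Algebra k R] {σ : Type} {x : σ → R}
  {w : σ → ℕ} {dg : ℕ → Submodule k R}

/-- Polynomials with all monomials of degree at least `p`. -/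
def D (k : Type) [Field k] (σ : Type) (p : ℕ) : Submodule k (MvPolynomial σ k) where
  carrier := {f | ∀ d, MvPolynomial.coeff d f ≠ 0 → p ≤ d.degree}
  zero_mem' := fun d hd => absurd (MvPolynomial.coeff_zero d) hd
  add_mem' := by
    intro f g hf hg d hd
    rw [MvPolynomial.coeff_add] at hd
    by_cases h : MvPolynomial.coeff d f = 0
    · rw [h, zero_add] at hd
      exact hg d hd
    · exact hf d h
  smul_mem' := by
    intro c f hf d hd
    rw [MvPolynomial.coeff_smul] at hd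
    exact hf d (fun h => hd (by rw [h, smul_zero]))

theorem mem_D {p : ℕ} {f : MvPolynomial σ k} :
    f ∈ D k σ p ↔ ∀ d, MvPolynomial.coeff d f ≠ 0 → p ≤ d.degree := Iff.rfl

theorem D_mul (p q : ℕ) : D k σ p * D k σ q ≤ D k σ (p + q) := by
  classical
  rw [Submodule.mul_le]
  intro f hf g hg d hd
  rw [MvPolynomial.coeff_mul] at hd
  obtain ⟨⟨a, b⟩, hab, h⟩ := Finset.exists_ne_zero_of_sum_ne_zero hd
  rw [Finset.HasAntidiagonal.mem_antidiagonal] at hab
  subst hab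
  rw [map_add]
  exact add_le_add (hf a (left_ne_zero_of_mul h)) (hg b (right_ne_zero_of_mul h))

theorem degree_le_weight (hw : ∀ s, 0 < w s) (d : σ →₀ ℕ) : d.degree ≤ Finsupp.weight w d := by
  rw [Finsupp.weight_apply, Finsupp.degree_apply]
  unfold Finsupp.sum
  refine Finset.sum_le_sum fun s _ => ?_
  show d s ≤ d s * w s
  exact Nat.le_mul_of_pos_right _ (hw s)

theorem whs_le_D (i : ℕ) :
    MvPolynomial.weightedHomogeneousSubmodule k w (i + 1) ≤ D k σ 1 := by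
  intro f hf d hd
  have h1 : Finsupp.weight w d = i + 1 := hf hd
  rw [Nat.one_le_iff_ne_zero]
  intro h2
  rw [Finsupp.degree_eq_zero_iff] at h2
  rw [h2, map_zero] at h1
  omega

theorem aug_le_D (hd : ∀ j, dg j = (MvPolynomial.weightedHomogeneousSubmodule k w j).map
      (MvPolynomial.aeval (R := k) x).toLinearMap) :
    Aug dg ≤ (D k σ 1).map (MvPolynomial.aeval (R := k) x).toLinearMap := by
  unfold Aug
  refine iSup_le fun i => ?_
  rw [hd]
  exact Submodule.map_mono (whs_le_D i)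

theorem augpow_le_D (hb : Function.Surjective (MvPolynomial.aeval (R := k) x))
    (hd : ∀ j, dg j = (MvPolynomial.weightedHomogeneousSubmodule k w j).map
      (MvPolynomial.aeval (R := k) x).toLinearMap) (p : ℕ) :
    Aug dg ^ p ≤ (D k σ p).map (MvPolynomial.aeval (R := k) x).toLinearMap := by
  induction p with
  | zero =>
    intro r _
    obtain ⟨f, rfl⟩ := hb r
    exact ⟨f, fun d _ => Nat.zero_le _, rfl⟩
  | succ p ih =>
    rw [pow_succ]
    refine (mul_le_mul' ih (aug_le_D hd)).trans ?_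
    rw [← Submodule.map_mul]
    exact Submodule.map_mono (D_mul p 1)

/-- Elements of the `p`-th power of the augmentation ideal only have monomials of degree at
least `p`. -/
theorem deg_of_mem (hb : Function.Bijective (MvPolynomial.aeval (R := k) x))
    (hd : ∀ j, dg j = (MvPolynomial.weightedHomogeneousSubmodule k w j).map
      (MvPolynomial.aeval (R := k) x).toLinearMap) (p : ℕ) (f : MvPolynomial σ k)
    (hf : MvPolynomial.aeval (R := k) x f ∈ Aug dg ^ p) :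
    ∀ d, MvPolynomial.coeff d f ≠ 0 → p ≤ d.degree := by
  obtain ⟨g, hg, e⟩ := augpow_le_D hb.2 hd p hf
  have : g = f := hb.1 e
  subst this
  exact hg

theorem dg_mul (hd : ∀ j, dg j = (MvPolynomial.weightedHomogeneousSubmodule k w j).map
      (MvPolynomial.aeval (R := k) x).toLinearMap) (i j : ℕ) : dg i * dg j ≤ dg (i + j) := by
  rw [hd, hd, hd, ← Submodule.map_mul]
  exact Submodule.map_mono (MvPolynomial.weightedHomogeneousSubmodule_mul w i j)

theorem aug_mul (hm : ∀ i j, dg i * dg j ≤ dg (i + j)) : Aug dg * Aug dg ≤ Aug dg := by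
  unfold Aug
  rw [Submodule.iSup_mul]
  refine iSup_le fun i => ?_
  rw [Submodule.mul_iSup]
  refine iSup_le fun j => ?_
  exact (hm (i + 1) (j + 1)).trans (le_iSup (fun i => dg (i + 1)) (i + 1 + j))

theorem augpow_succ (hm : ∀ i j, dg i * dg j ≤ dg (i + j)) {p : ℕ} (hp : 1 ≤ p) :
    Aug dg ^ (p + 1) ≤ Aug dg ^ p := by
  obtain ⟨q, rfl⟩ : ∃ q, p = q + 1 := ⟨p - 1, by omega⟩
  rw [pow_succ, pow_succ, mul_assoc]
  exact mul_le_mul' le_rfl (aug_mul hm)

theorem psub_bot (hw : ∀ s, 0 < w s) (hb : Function.Bijective (MvPolynomial.aeval (R := k) x))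
    (hd : ∀ j, dg j = (MvPolynomial.weightedHomogeneousSubmodule k w j).map
      (MvPolynomial.aeval (R := k) x).toLinearMap) {p j : ℕ} (h : j < p) :
    Psub dg p j = ⊥ := by
  rw [eq_bot_iff]
  rintro r ⟨h1, h2⟩
  rw [SetLike.mem_coe, hd] at h2
  obtain ⟨f, hf, rfl⟩ := h2
  have h3 := deg_of_mem hb hd p f h1
  have h4 : f = 0 := by
    apply MvPolynomial.ext
    intro d
    rw [MvPolynomial.coeff_zero]
    by_contra hne
    have h5 : Finsupp.weight w d = j := hf hne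
    have h6 := degree_le_weight hw d
    have h7 := h3 d hne
    omega
  rw [h4, map_zero]
  exact Submodule.zero_mem _

theorem dg_zero (hw : ∀ s, 0 < w s)
    (hd : ∀ j, dg j = (MvPolynomial.weightedHomogeneousSubmodule k w j).map
      (MvPolynomial.aeval (R := k) x).toLinearMap) : dg 0 = Submodule.span k {1} := by
  classical
  rw [hd]
  apply le_antisymm
  · rintro _ ⟨f, hf, rfl⟩
    have h1 : f = MvPolynomial.C (MvPolynomial.coeff 0 f) := by
      apply MvPolynomial.ext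
      intro d
      rw [MvPolynomial.coeff_C]
      split_ifs with h
      · rw [h]
      · by_contra hne
        have h5 : Finsupp.weight w d = 0 := hf hne
        have h6 := degree_le_weight hw d
        rw [h5, Nat.le_zero, Finsupp.degree_eq_zero_iff] at h6
        exact h h6.symm
    rw [h1, Submodule.mem_span_singleton]
    refine ⟨MvPolynomial.coeff 0 f, ?_⟩
    show _ = MvPolynomial.aeval (R := k) x (MvPolynomial.C (MvPolynomial.coeff 0 f))
    rw [MvPolynomial.aeval_C, Algebra.smul_def, mul_one]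
  · rw [Submodule.span_singleton_le_iff_mem]
    refine ⟨1, MvPolynomial.isWeightedHomogeneous_one k w, ?_⟩
    show MvPolynomial.aeval (R := k) x 1 = 1
    rw [map_one]

end PSB

theorem psb (k : Type) [Field k] : PSB_Stmt k := by
  intro A
  obtain ⟨σ, x, w, hw, hb, hd⟩ := A.poly
  have hm := PSB.dg_mul hd
  refine ⟨?_, fun p j h => PSB.psub_bot hw hb hd h, ?_, PSB.dg_zero hw hd, hm⟩
  · intro p j hp
    exact inf_le_inf_right _ (PSB.augpow_succ hm hp)
  · intro j hj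
    unfold Psub
    rw [pow_one, inf_eq_right]
    obtain ⟨i, rfl⟩ : ∃ i, j = i + 1 := ⟨j - 1, by omega⟩
    exact le_iSup (fun i => A.dg (i + 1)) i

end Pool.Agent.SHQ


end

section

/-!
# Block III-Q (MP_2d0b73_an): two out of three for the filtration by powers
-/

open CategoryTheory CategoryTheory.Limits AlgebraicTopology Opposite Simplicial

namespace Pool.Agent.SHQ

namespace TOT

open HomologicalComplex HomologicalComplex.HomologySequence ComposableArrows Abelian in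
/-- Two out of three, the middle term. -/
theorem quasiIso_two {C : Type*} [Category C] [Abelian C]
    {S₁ S₂ : ShortComplex (ChainComplex C ℕ)} (φ : S₁ ⟶ S₂) (hS₁ : S₁.ShortExact)
    (hS₂ : S₂.ShortExact) (h₁ : QuasiIso φ.τ₁) (h₃ : QuasiIso φ.τ₃) : QuasiIso φ.τ₂ := by
  have i₁ : ∀ i, IsIso (homologyMap φ.τ₁ i) := by
    intro i
    infer_instance
  have i₃ : ∀ i, IsIso (homologyMap φ.τ₃ i) := by
    intro i
    infer_instance
  rw [quasiIso_iff]
  intro i
  rw [quasiIsoAt_iff_isIso_homologyMap]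
  have hm : Mono (homologyMap φ.τ₂ i) := by
    have hij : (ComplexShape.down ℕ).Rel (i + 1) i := rfl
    apply mono_of_epi_of_mono_of_mono
      ((δ₀Functor ⋙ δ₀Functor).map (mapComposableArrows₅ φ hS₁ hS₂ (i + 1) i hij))
    · exact (composableArrows₅_exact hS₁ (i + 1) i hij).δ₀.δ₀
    · exact (composableArrows₅_exact hS₂ (i + 1) i hij).δ₀.δ₀
    · have := i₃ (i + 1)
      show Epi (homologyMap φ.τ₃ (i + 1))
      infer_instance
    · have := i₁ i
      show Mono (homologyMap φ.τ₁ i)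
      infer_instance
    · have := i₃ i
      show Mono (homologyMap φ.τ₃ i)
      infer_instance
  have he : Epi (homologyMap φ.τ₂ i) := by
    by_cases hi : ∃ j, (ComplexShape.down ℕ).Rel i j
    · obtain ⟨j, hij⟩ := hi
      apply epi_of_epi_of_epi_of_mono
        ((δlastFunctor ⋙ δlastFunctor).map (mapComposableArrows₅ φ hS₁ hS₂ i j hij))
      · exact (composableArrows₅_exact hS₁ i j hij).δlast.δlast
      · exact (composableArrows₅_exact hS₂ i j hij).δlast.δlast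
      · have := i₁ i
        show Epi (homologyMap φ.τ₁ i)
        infer_instance
      · have := i₃ i
        show Epi (homologyMap φ.τ₃ i)
        infer_instance
      · have := i₁ j
        show Mono (homologyMap φ.τ₁ j)
        infer_instance
    · refine epi_of_epi_of_epi_of_epi (mapComposableArrows₂ φ i)
        (composableArrows₂_exact hS₂ i) ?_ ?_ ?_
      · have := hS₁.epi_g
        apply epi_homologyMap_of_epi_of_not_rel
        intro j hj
        exact hi ⟨j, hj⟩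
      · have := i₁ i
        show Epi (homologyMap φ.τ₁ i)
        infer_instance
      · have := i₃ i
        show Epi (homologyMap φ.τ₃ i)
        infer_instance
  apply isIso_of_mono_of_epi

variable {k : Type} [Field k]

/-- The inclusion of the next power. -/
noncomputable def inc (h : PSB_Stmt k) (p j : ℕ) (hp : 1 ≤ p) :
    (Pf (p + 1) j : PGA k ⥤ ModuleCat.{0} k) ⟶ Pf p j where
  app A := ModuleCat.ofHom (Submodule.inclusion ((h A).1 p j hp))
  naturality A B f := by ext x; rfl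

/-- The short complex of alternating complexes. -/
noncomputable def S (h : PSB_Stmt k) (p j : ℕ) (hp : 1 ≤ p) (X : SimplicialObject (PGA k)) :
    ShortComplex (ChainComplex (ModuleCat.{0} k) ℕ) where
  X₁ := (alternatingFaceMapComplex _).obj ((wh (Pf (p + 1) j)).obj X)
  X₂ := (alternatingFaceMapComplex _).obj ((wh (Pf p j)).obj X)
  X₃ := (alternatingFaceMapComplex _).obj ((wh (Gf p j)).obj X)
  f := (alternatingFaceMapComplex _).map
    (((SimplicialObject.whiskering _ _).map (inc h p j hp)).app X)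
  g := (alternatingFaceMapComplex _).map
    (((SimplicialObject.whiskering _ _).map (projG p j)).app X)
  zero := by
    rw [← Functor.map_comp]
    have : ((SimplicialObject.whiskering _ _).map (inc h p j hp)).app X ≫
        ((SimplicialObject.whiskering _ _).map (projG p j)).app X = 0 := by
      ext n x
      show (Gker (X.obj n) p j).mkQ (Submodule.inclusion ((h (X.obj n)).1 p j hp) x) = 0
      rw [Submodule.mkQ_apply, Submodule.Quotient.mk_eq_zero]
      exact x.2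
    rw [this, Functor.map_zero]

theorem shortExact (h : PSB_Stmt k) (p j : ℕ) (hp : 1 ≤ p) (X : SimplicialObject (PGA k)) :
    (S h p j hp X).ShortExact := by
  apply HomologicalComplex.shortExact_of_degreewise_shortExact
  intro n
  refine { exact := ?_, mono_f := ?_, epi_g := ?_ }
  · rw [ShortComplex.moduleCat_exact_iff]
    intro x hx
    have hx' : (Gker (X.obj (op ⦋n⦌)) p j).mkQ x = 0 := hx
    rw [Submodule.mkQ_apply, Submodule.Quotient.mk_eq_zero] at hx'
    exact ⟨⟨x.1, hx'⟩, rfl⟩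
  · rw [ModuleCat.mono_iff_injective]
    exact Submodule.inclusion_injective ((h (X.obj (op ⦋n⦌))).1 p j hp)
  · rw [ModuleCat.epi_iff_surjective]
    exact Submodule.mkQ_surjective (Gker (X.obj (op ⦋n⦌)) p j)

/-- Functoriality. -/
noncomputable def SM (h : PSB_Stmt k) (p j : ℕ) (hp : 1 ≤ p) {X Y : SimplicialObject (PGA k)}
    (f : X ⟶ Y) : S h p j hp X ⟶ S h p j hp Y where
  τ₁ := (alternatingFaceMapComplex _).map ((wh (Pf (p + 1) j)).map f)
  τ₂ := (alternatingFaceMapComplex _).map ((wh (Pf p j)).map f)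
  τ₃ := (alternatingFaceMapComplex _).map ((wh (Gf p j)).map f)
  comm₁₂ := by
    dsimp only [S]
    rw [← Functor.map_comp, ← Functor.map_comp]
    exact congrArg _ (((SimplicialObject.whiskering _ _).map (inc h p j hp)).naturality f)
  comm₂₃ := by
    dsimp only [S]
    rw [← Functor.map_comp, ← Functor.map_comp]
    exact congrArg _ (((SimplicialObject.whiskering _ _).map (projG p j)).naturality f)

end TOT

open TOT in
theorem tot (k : Type) [Field k] : PSB_Stmt k → TOT_Stmt k := by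
  intro h X Y f p j hp
  constructor
  · intro h1 h3
    exact quasiIso_two (SM h p j hp f) (shortExact h p j hp X) (shortExact h p j hp Y) h1 h3
  · intro h1 h2
    exact HomologicalComplex.HomologySequence.quasiIso_τ₃ (SM h p j hp f)
      (shortExact h p j hp X) (shortExact h p j hp Y) h1 h2

end Pool.Agent.SHQ


end

section

/-!
# Block III-Q: comparison in degree `m`
-/

open CategoryTheory CategoryTheory.Limits AlgebraicTopology Opposite Simplicial

namespace Pool.Agent.SHQ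

namespace GEN

variable {k : Type} [Field k]

/-- The complex. -/
noncomputable abbrev Kc (B : SimplicialObject (PGA k)) (m : ℕ) :
    ChainComplex (ModuleCat.{0} k) ℕ :=
  (alternatingFaceMapComplex _).obj ((wh (Pf 1 m)).obj B)

lemma d10 (B : SimplicialObject (PGA k)) (m : ℕ) (e : Psub (B.obj (op ⦋1⦌)).dg 1 m) :
    (((Kc B m).d 1 0).hom e : Psub (B.obj (op ⦋0⦌)).dg 1 m).1 =
      PGA.Hom.toAlg (B.δ 0) e.1 - PGA.Hom.toAlg (B.δ 1) e.1 := by
  have h : (Kc B m).d 1 0 = ((wh (Pf 1 m)).obj B).δ 0 - ((wh (Pf 1 m)).obj B).δ 1 := by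
    show (AlternatingFaceMapComplex.obj ((wh (Pf 1 m)).obj B)).d (0 + 1) 0 = _
    rw [AlternatingFaceMapComplex.obj_d_eq, Fin.sum_univ_two]
    simp [sub_eq_add_neg]
  rw [h]
  rfl

/-- Elements of degree `m` give classes. -/
lemma exact0 (B : SimplicialObject (PGA k)) (m : ℕ) (b : Psub (B.obj (op ⦋0⦌)).dg 1 m)
    (hb : ((Kc B m).pOpcycles 0).hom b = 0) : ∃ e : Psub (B.obj (op ⦋1⦌)).dg 1 m,
      ((Kc B m).d 1 0).hom e = b := by
  have h1 := (Kc B m).opcyclesIsCokernel 1 0 (by simp)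
  have h2 := ShortComplex.exact_of_g_is_cokernel
    (ShortComplex.mk ((Kc B m).d 1 0) ((Kc B m).pOpcycles 0)
      (HomologicalComplex.d_pOpcycles _ _ _)) h1
  exact (ShortComplex.moduleCat_exact_iff _).1 h2 b hb

lemma p_d (B : SimplicialObject (PGA k)) (m : ℕ) (e : Psub (B.obj (op ⦋1⦌)).dg 1 m) :
    ((Kc B m).pOpcycles 0).hom (((Kc B m).d 1 0).hom e) = 0 := by
  have h : (Kc B m).d 1 0 ≫ (Kc B m).pOpcycles 0 = 0 := HomologicalComplex.d_pOpcycles _ _ _
  have h2 := congrArg (fun w => w.hom e) h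
  exact h2

lemma p_surj (B : SimplicialObject (PGA k)) (m : ℕ) :
    Function.Surjective ((Kc B m).pOpcycles 0).hom := by
  have h : Epi ((Kc B m).pOpcycles 0) := inferInstance
  exact (ModuleCat.epi_iff_surjective _).1 h

/-- The map of complexes. -/
noncomputable abbrev mc {C B : SimplicialObject (PGA k)} (f : C ⟶ B) (m : ℕ) : Kc C m ⟶ Kc B m :=
  (alternatingFaceMapComplex _).map ((wh (Pf 1 m)).map f)

lemma mc0 {C B : SimplicialObject (PGA k)} (f : C ⟶ B) (m : ℕ)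
    (b : Psub (C.obj (op ⦋0⦌)).dg 1 m) :
    (((mc f m).f 0).hom b : Psub (B.obj (op ⦋0⦌)).dg 1 m).1 =
      PGA.Hom.toAlg (f.app (op ⦋0⦌)) b.1 := by
  rw [alternatingFaceMapComplex_map_f]
  rfl

lemma nat {C B : SimplicialObject (PGA k)} (f : C ⟶ B) (m : ℕ)
    (b : Psub (C.obj (op ⦋0⦌)).dg 1 m) :
    (HomologicalComplex.opcyclesMap (mc f m) 0).hom (((Kc C m).pOpcycles 0).hom b) =
      ((Kc B m).pOpcycles 0).hom (((mc f m).f 0).hom b) := by
  have h := HomologicalComplex.p_opcyclesMap (mc f m) 0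
  have h2 := congrArg (fun w => w.hom b) h
  exact h2

/-- Every class is a multiple of the class of the generator. -/
lemma cls (hP : PSB_Stmt k) (B : SimplicialObject (PGA k)) (m : ℕ) (hm : 1 ≤ m)
    (x : Psub (B.obj (op ⦋0⦌)).dg 1 m) (hx : GenBy k B m x.1) (ξ : (Kc B m).opcycles 0) :
    ∃ c : k, ξ = c • ((Kc B m).pOpcycles 0).hom x := by
  obtain ⟨b, rfl⟩ := p_surj B m ξ
  have e0 := (hP (B.obj (op ⦋0⦌))).2.2.1 m hm
  have e1 := (hP (B.obj (op ⦋1⦌))).2.2.1 m hm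
  obtain ⟨c, e, he, hb⟩ := hx.2.1 b.1 (by rw [← e0]; exact b.2)
  refine ⟨c, ?_⟩
  have he' : e ∈ Psub (B.obj (op ⦋1⦌)).dg 1 m := by rw [e1]; exact he
  let d : Psub (B.obj (op ⦋0⦌)).dg 1 m :=
    ((Kc B m).d 1 0).hom (⟨e, he'⟩ : Psub (B.obj (op ⦋1⦌)).dg 1 m)
  have h2 : d.1 = PGA.Hom.toAlg (B.δ 0) e - PGA.Hom.toAlg (B.δ 1) e := d10 B m ⟨e, he'⟩
  have h1 : b = c • x + d := by
    apply Subtype.ext
    show b.1 = c • x.1 + d.1
    rw [h2, ← hb]
    abel
  rw [h1]
  have h3 : ((Kc B m).pOpcycles 0).hom d = 0 :=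
    p_d B m (⟨e, he'⟩ : Psub (B.obj (op ⦋1⦌)).dg 1 m)
  have h4 : ((Kc B m).pOpcycles 0).hom (c • x + d) = c • ((Kc B m).pOpcycles 0).hom x +
      ((Kc B m).pOpcycles 0).hom d := by
    refine (map_add _ _ _).trans ?_
    exact congrArg (fun w => w + ((Kc B m).pOpcycles 0).hom d) (map_smul _ _ _)
  exact h4.trans (by rw [h3, add_zero])

/-- The class of the generator is not zero. -/
lemma gen_ne (hP : PSB_Stmt k) (B : SimplicialObject (PGA k)) (m : ℕ) (hm : 1 ≤ m)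
    (x : Psub (B.obj (op ⦋0⦌)).dg 1 m) (hx : GenBy k B m x.1) (c : k)
    (hc : c • ((Kc B m).pOpcycles 0).hom x = 0) : c = 0 := by
  have e1 := (hP (B.obj (op ⦋1⦌))).2.2.1 m hm
  have h1 : ((Kc B m).pOpcycles 0).hom (c • x) = 0 := by
    have h2 : ((Kc B m).pOpcycles 0).hom (c • x) = c • ((Kc B m).pOpcycles 0).hom x :=
      map_smul _ _ _
    rw [h2, hc]
  obtain ⟨e, he⟩ := exact0 B m (c • x) h1
  refine hx.2.2.1 c ⟨e.1, by rw [← e1]; exact e.2, ?_⟩
  rw [← d10 B m e, he]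
  rfl

end GEN

theorem gen (k : Type) [Field k] : PSB_Stmt k → GEN_Stmt k := by
  intro hP C B f m x hm hC hB
  have e0 := (hP (C.obj (op ⦋0⦌))).2.2.1 m hm
  have hxm : x ∈ Psub (C.obj (op ⦋0⦌)).dg 1 m := by rw [e0]; exact hC.1
  let x' : Psub (C.obj (op ⦋0⦌)).dg 1 m := ⟨x, hxm⟩
  let y' : Psub (B.obj (op ⦋0⦌)).dg 1 m := ((GEN.mc f m).f 0).hom x'
  have hy' : y'.1 = PGA.Hom.toAlg (f.app (op ⦋0⦌)) x := GEN.mc0 f m x'
  have hB' : GenBy k B m y'.1 := by rw [hy']; exact hB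
  show QuasiIso (GEN.mc f m)
  rw [quasiIso_iff]
  intro s
  rcases Nat.eq_zero_or_pos s with rfl | hs
  · rw [quasiIsoAt_iff_isIso_homologyMap]
    have hiso : IsIso (HomologicalComplex.opcyclesMap (GEN.mc f m) 0) := by
      rw [ConcreteCategory.isIso_iff_bijective]
      constructor
      · show Function.Injective (HomologicalComplex.opcyclesMap (GEN.mc f m) 0).hom
        rw [injective_iff_map_eq_zero]
        intro ξ hξ
        obtain ⟨c, rfl⟩ := GEN.cls hP C m hm x' hC ξ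
        have h1 : (HomologicalComplex.opcyclesMap (GEN.mc f m) 0).hom
            (c • ((GEN.Kc C m).pOpcycles 0).hom x') =
            c • (HomologicalComplex.opcyclesMap (GEN.mc f m) 0).hom
              (((GEN.Kc C m).pOpcycles 0).hom x') := map_smul _ _ _
        rw [h1, GEN.nat] at hξ
        rw [GEN.gen_ne hP B m hm y' hB' c hξ, zero_smul]
      · intro η
        obtain ⟨c, rfl⟩ := GEN.cls hP B m hm y' hB' η
        refine ⟨c • ((GEN.Kc C m).pOpcycles 0).hom x', ?_⟩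
        have h1 : (HomologicalComplex.opcyclesMap (GEN.mc f m) 0).hom
            (c • ((GEN.Kc C m).pOpcycles 0).hom x') =
            c • (HomologicalComplex.opcyclesMap (GEN.mc f m) 0).hom
              (((GEN.Kc C m).pOpcycles 0).hom x') := map_smul _ _ _
        refine h1.trans ?_
        rw [GEN.nat]
    have h2 := ChainComplex.isoHomologyι₀_inv_naturality (GEN.mc f m)
    have h3 : HomologicalComplex.homologyMap (GEN.mc f m) 0 =
        (GEN.Kc C m).isoHomologyι₀.hom ≫ HomologicalComplex.opcyclesMap (GEN.mc f m) 0 ≫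
          (GEN.Kc B m).isoHomologyι₀.inv := by
      rw [← h2, Iso.hom_inv_id_assoc]
    rw [h3]
    infer_instance
  · rw [quasiIsoAt_iff_exactAt _ _ (hC.2.2.2 s hs)]
    exact hB.2.2.2 s hs

end Pool.Agent.SHQ


end

section

/-!
# Block III-Q (MP_2d0b73_an): the comparison object

`CO k m hm` : in level `Δ` the polynomial algebra on `x` (degree `m`) and on `y_φ` (degree `2 m`) for the
nonconstant maps `φ : Δ ⟶ ⦋1⦌`; with `uu φ = y_φ`, `uu 1 = x ^ 2`, `uu 0 = 0` a map `θ` sends `x` to `x` and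
`uu φ` to `uu (θ ≫ φ)`.
-/

open CategoryTheory CategoryTheory.Limits AlgebraicTopology Opposite Simplicial

namespace Pool.Agent.SHQ

/-- `φ` is constant with value `c`. -/
def CstE (c : Fin 2) {Δ : SimplexCategory} (φ : Δ ⟶ ⦋1⦌) : Prop := ∀ i, φ.toOrderHom i = c

lemma not_both {Δ : SimplexCategory} (φ : Δ ⟶ ⦋1⦌) (h0 : CstE 0 φ) (h1 : CstE 1 φ) : False := by
  have a := h0 0
  have b := h1 0
  rw [a] at b
  exact absurd b (by decide)

lemma CstE.comp {c : Fin 2} {Δ Δ' : SimplexCategory} {φ : Δ' ⟶ ⦋1⦌} (h : CstE c φ)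
    (θ : Δ ⟶ Δ') : CstE c (θ ≫ φ) := fun i => h (θ.toOrderHom i)

/-- Nonconstant maps to `⦋1⦌`. -/
abbrev NC (Δ : SimplexCategory) : Type := {φ : Δ ⟶ ⦋1⦌ // ¬ CstE 0 φ ∧ ¬ CstE 1 φ}

/-- The polynomial algebra. -/
abbrev CR (k : Type) [Field k] (Δ : SimplexCategory) : Type := MvPolynomial (Option (NC Δ)) k

/-- The degrees of the generators. -/
def wt (m : ℕ) (Δ : SimplexCategory) (t : Option (NC Δ)) : ℕ := t.elim m fun _ => 2 * m

section
variable (k : Type) [Field k]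

open Classical in
/-- The elements `u_φ`. -/
noncomputable def uu {Δ : SimplexCategory} (φ : Δ ⟶ ⦋1⦌) : CR k Δ :=
  if h0 : CstE 0 φ then 0
  else if h1 : CstE 1 φ then (MvPolynomial.X none) ^ 2
  else MvPolynomial.X (some ⟨φ, h0, h1⟩)

lemma uu_zero {Δ : SimplexCategory} {φ : Δ ⟶ ⦋1⦌} (h : CstE 0 φ) : uu k φ = 0 := by
  rw [uu, dif_pos h]

lemma uu_one {Δ : SimplexCategory} {φ : Δ ⟶ ⦋1⦌} (h : CstE 1 φ) :
    uu k φ = (MvPolynomial.X none) ^ 2 := by
  rw [uu, dif_neg (fun h0 => not_both φ h0 h), dif_pos h]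

lemma uu_some {Δ : SimplexCategory} (φ : NC Δ) : uu k φ.1 = MvPolynomial.X (some φ) := by
  rw [uu, dif_neg φ.2.1, dif_neg φ.2.2]

/-- The images of the generators. -/
noncomputable def CRgen {Δ Δ' : SimplexCategory} (θ : Δ ⟶ Δ') (t : Option (NC Δ')) : CR k Δ :=
  t.elim (MvPolynomial.X none) fun φ => uu k (θ ≫ φ.1)

/-- The algebra maps. -/
noncomputable def CRmap {Δ Δ' : SimplexCategory} (θ : Δ ⟶ Δ') : CR k Δ' →ₐ[k] CR k Δ :=
  MvPolynomial.aeval (CRgen k θ)

@[simp] lemma CRmap_none {Δ Δ' : SimplexCategory} (θ : Δ ⟶ Δ') :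
    CRmap k θ (MvPolynomial.X none) = MvPolynomial.X none := by
  rw [CRmap, MvPolynomial.aeval_X]; rfl

lemma CRmap_uu {Δ Δ' : SimplexCategory} (θ : Δ ⟶ Δ') (φ : Δ' ⟶ ⦋1⦌) :
    CRmap k θ (uu k φ) = uu k (θ ≫ φ) := by
  by_cases h0 : CstE 0 φ
  · rw [uu_zero k h0, uu_zero k (h0.comp θ), map_zero]
  by_cases h1 : CstE 1 φ
  · rw [uu_one k h1, uu_one k (h1.comp θ), map_pow, CRmap_none]
  · rw [uu_some k ⟨φ, h0, h1⟩, CRmap, MvPolynomial.aeval_X]; rfl

lemma CRmap_id (Δ : SimplexCategory) : CRmap k (𝟙 Δ) = AlgHom.id k (CR k Δ) := by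
  refine MvPolynomial.algHom_ext fun t => ?_
  cases t with
  | none => rw [CRmap_none]; rfl
  | some φ =>
    rw [← uu_some k φ, CRmap_uu, Category.id_comp]; rfl

lemma CRmap_comp {Δ Δ' Δ'' : SimplexCategory} (θ : Δ ⟶ Δ') (θ' : Δ' ⟶ Δ'') :
    CRmap k (θ ≫ θ') = (CRmap k θ).comp (CRmap k θ') := by
  refine MvPolynomial.algHom_ext fun t => ?_
  cases t with
  | none => rw [CRmap_none, AlgHom.comp_apply, CRmap_none, CRmap_none]
  | some φ =>
    rw [← uu_some k φ, CRmap_uu, AlgHom.comp_apply, CRmap_uu, CRmap_uu, Category.assoc]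

variable (m : ℕ)

lemma uu_mem {Δ : SimplexCategory} (φ : Δ ⟶ ⦋1⦌) :
    uu k φ ∈ MvPolynomial.weightedHomogeneousSubmodule k (wt m Δ) (2 * m) := by
  by_cases h0 : CstE 0 φ
  · rw [uu_zero k h0]; exact Submodule.zero_mem _
  by_cases h1 : CstE 1 φ
  · rw [uu_one k h1]
    have := (MvPolynomial.isWeightedHomogeneous_X k (wt m Δ) none).pow 2
    simpa [wt, two_mul] using this
  · rw [uu_some k ⟨φ, h0, h1⟩]
    exact MvPolynomial.isWeightedHomogeneous_X k (wt m Δ) _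

lemma CRmap_mem {Δ Δ' : SimplexCategory} (θ : Δ ⟶ Δ') (j : ℕ) :
    ∀ a ∈ MvPolynomial.weightedHomogeneousSubmodule k (wt m Δ') j,
      CRmap k θ a ∈ MvPolynomial.weightedHomogeneousSubmodule k (wt m Δ) j := by
  intro a ha
  rw [CRmap, MvPolynomial.aeval_def, MvPolynomial.eval₂_eq]
  refine Submodule.sum_mem _ fun d hd => ?_
  have hw : Finsupp.weight (wt m Δ') d = j := ha (MvPolynomial.mem_support_iff.1 hd)
  have h1 : (∏ i ∈ d.support, CRgen k θ i ^ d i) ∈
      MvPolynomial.weightedHomogeneousSubmodule k (wt m Δ) j := by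
    have h2 : MvPolynomial.IsWeightedHomogeneous (wt m Δ)
        (∏ i ∈ d.support, CRgen k θ i ^ d i) (∑ i ∈ d.support, d i • wt m Δ' i) := by
      refine MvPolynomial.IsWeightedHomogeneous.prod _ _ _ fun i _ => ?_
      refine MvPolynomial.IsWeightedHomogeneous.pow ?_ _
      cases i with
      | none => exact MvPolynomial.isWeightedHomogeneous_X k (wt m Δ) none
      | some φ => exact uu_mem k m _
    have h3 : ∑ i ∈ d.support, d i • wt m Δ' i = j := by
      rw [← hw, Finsupp.weight_apply]; rfl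
    rw [h3] at h2
    exact h2
  have h4 := (MvPolynomial.weightedHomogeneousSubmodule k (wt m Δ) j).smul_mem
    (MvPolynomial.coeff d a) h1
  rw [Algebra.smul_def] at h4
  exact h4

/-- The level `Δ` of the comparison object. -/
noncomputable def CO1 (hm : 1 ≤ m) (Δ : SimplexCategory) : PGA k where
  R := CR k Δ
  dg := MvPolynomial.weightedHomogeneousSubmodule k (wt m Δ)
  poly := by
    have hX : MvPolynomial.aeval (R := k) (MvPolynomial.X : Option (NC Δ) → CR k Δ) =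
        AlgHom.id k _ := MvPolynomial.aeval_X_left
    refine ⟨Option (NC Δ), MvPolynomial.X, wt m Δ, ?_, ?_, ?_⟩
    · intro s
      cases s with
      | none => show 0 < m; omega
      | some φ => show 0 < 2 * m; omega
    · rw [hX]; exact Function.bijective_id
    · intro j
      rw [hX]
      exact (Submodule.map_id _).symm

/-- The comparison object. -/
noncomputable def CO (hm : 1 ≤ m) : SimplicialObject (PGA k) where
  obj Δ := CO1 k m hm Δ.unop
  map {Δ Δ'} θ := (⟨CRmap k θ.unop, CRmap_mem k m θ.unop⟩ :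
    PGA.Hom (CO1 k m hm Δ.unop) (CO1 k m hm Δ'.unop))
  map_id Δ := PGA.Hom.ext (CRmap_id k Δ.unop)
  map_comp θ θ' := PGA.Hom.ext (CRmap_comp k θ'.unop θ.unop)

/-- The vertex `x`. -/
noncomputable def CO0 (hm : 1 ≤ m) : ((CO k m hm).obj (op ⦋0⦌)).R :=
  (MvPolynomial.X none : CR k ⦋0⦌)

/-- (CMA) acyclicity of the comparison object. -/
def CMA_Stmt : Prop := ∀ (m : ℕ) (hm : 1 ≤ m) (j : ℕ), 1 ≤ j → j ≠ m →
  Acyc ((wh (Pf 1 j)).obj (CO k m hm))

/-- (CMG) degree `m` of the comparison object. -/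
def CMG_Stmt : Prop := ∀ (m : ℕ) (hm : 1 ≤ m), GenBy k (CO k m hm) m (CO0 k m hm)

/-- (CMI) indecomposables of the comparison object. -/
def CMI_Stmt : Prop := ∀ (m : ℕ) (hm : 1 ≤ m) (Δ : SimplexCategoryᵒᵖ) (j : ℕ), 1 ≤ j → j ≠ m →
  j ≠ 2 * m → IsZero ((Gf 1 j).obj ((CO k m hm).obj Δ))

/-- (CMU) maps from the comparison object. -/
def CMU_Stmt : Prop := ∀ (m : ℕ) (hm : 1 ≤ m) (B : SimplicialObject (PGA k)),
  ∀ x ∈ (B.obj (op ⦋0⦌)).dg m, ∀ y ∈ (B.obj (op ⦋1⦌)).dg (2 * m),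
    PGA.Hom.toAlg (B.δ 0) y = x ^ 2 → PGA.Hom.toAlg (B.δ 1) y = 0 →
    ∃ f : CO k m hm ⟶ B, PGA.Hom.toAlg (f.app (op ⦋0⦌)) (CO0 k m hm) = x

theorem cmp (k : Type) [Field k] : CMA_Stmt k → CMG_Stmt k → CMI_Stmt k → CMU_Stmt k →
    CMP_Stmt k := by
  intro ha hg hi hu m hm
  exact ⟨CO k m hm, CO0 k m hm, hg m hm, fun n j h1 h2 h3 => hi m hm n j h1 h2 h3,
    fun j h1 h2 => ha m hm j h1 h2, fun B x hx y hy h1 h2 => hu m hm B x hx y hy h1 h2⟩

end

end Pool.Agent.SHQ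


end

section

/-!
# Block III-Q (MP_2d0b73_an): degree `m` of the comparison object (module SHQ_CMG)
-/

open CategoryTheory CategoryTheory.Limits AlgebraicTopology Opposite Simplicial

namespace Pool.Agent.SHQ

namespace CMG

variable (k : Type) [Field k]

/-- Elements of degree `m` are multiples of `x`. -/
theorem eq_smul {m : ℕ} (hm : 1 ≤ m) {Δ : SimplexCategory} {a : CR k Δ}
    (ha : a ∈ MvPolynomial.weightedHomogeneousSubmodule k (wt m Δ) m) :
    ∃ c : k, a = c • (MvPolynomial.X none : CR k Δ) := by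
  classical
  refine ⟨MvPolynomial.coeff (Finsupp.single none 1) a, ?_⟩
  ext d
  rw [MvPolynomial.coeff_smul, MvPolynomial.coeff_X']
  by_cases h : Finsupp.single none 1 = d
  · rw [if_pos h, ← h, smul_eq_mul, mul_one]
  · rw [if_neg h, smul_zero]
    by_contra hne
    have hw : Finsupp.weight (wt m Δ) d = m := ha hne
    apply h
    have h2 : ∀ φ : NC Δ, d (some φ) = 0 := by
      intro φ
      by_contra hφ
      have h3 : wt m Δ (some φ) ≤ Finsupp.weight (wt m Δ) d :=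
        Finsupp.le_weight_of_ne_zero' (wt m Δ) hφ
      rw [hw] at h3
      change 2 * m ≤ m at h3
      omega
    have h4 : d = Finsupp.single none (d none) := by
      ext t
      cases t with
      | none => rw [Finsupp.single_eq_same]
      | some φ => rw [h2, Finsupp.single_eq_of_ne (by simp)]
    have h5 : d none * m = m := by
      rw [h4, Finsupp.weight_single] at hw
      exact hw
    have h6 : d none = 1 := by
      have : d none * m = 1 * m := by rw [h5, one_mul]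
      exact Nat.eq_of_mul_eq_mul_right (by omega) this
    rw [h4, h6]

theorem X_ne {Δ : SimplexCategory} : (MvPolynomial.X none : CR k Δ) ≠ 0 := MvPolynomial.X_ne_zero _

theorem map_smul_X {Δ Δ' : SimplexCategory} (θ : Δ ⟶ Δ') (c : k) :
    CRmap k θ (c • (MvPolynomial.X none : CR k Δ')) = c • (MvPolynomial.X none : CR k Δ) := by
  rw [map_smul, CRmap_none]

theorem X_mem (m : ℕ) (Δ : SimplexCategory) (c : k) : c • (MvPolynomial.X none : CR k Δ) ∈
    MvPolynomial.weightedHomogeneousSubmodule k (wt m Δ) m :=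
  Submodule.smul_mem _ _ (MvPolynomial.isWeightedHomogeneous_X k (wt m Δ) none)

variable (hP : PSB_Stmt k) {m : ℕ} (hm : 1 ≤ m)

/-- The simplicial vector space of the elements of degree `m`. -/
noncomputable abbrev FF {m : ℕ} (hm : 1 ≤ m) : SimplicialObject (ModuleCat.{0} k) :=
  (wh (Pf 1 m)).obj (CO k m hm)

include hP in
theorem psub_iff (Δ : SimplexCategoryᵒᵖ) (a : ((CO k m hm).obj Δ).R) :
    a ∈ Psub ((CO k m hm).obj Δ).dg 1 m ↔ a ∈ ((CO k m hm).obj Δ).dg m := by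
  rw [(hP ((CO k m hm).obj Δ)).2.2.1 m hm]

/-- The comparison with the constant object. -/
noncomputable def al : (Functor.const SimplexCategoryᵒᵖ).obj ((FF k hm).obj (op ⦋0⦌)) ⟶ FF k hm where
  app Δ := (FF k hm).map (SimplexCategory.const Δ.unop ⦋0⦌ 0).op
  naturality Δ Δ' θ := by
    exact (Category.id_comp ((FF k hm).map (SimplexCategory.const Δ'.unop ⦋0⦌ 0).op)).trans
      (Functor.map_comp (FF k hm) (SimplexCategory.const Δ.unop ⦋0⦌ 0).op θ)

include hP in
theorem al_bij (Δ : SimplexCategoryᵒᵖ) : Function.Bijective ((al k hm).app Δ).hom := by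
  constructor
  · rw [← LinearMap.coe_coe, injective_iff_map_eq_zero]
    intro a ha
    have h1 := (psub_iff k hP hm _ _).1 a.2
    obtain ⟨c, hc⟩ := eq_smul k hm h1
    have h2 : CRmap k (SimplexCategory.const Δ.unop ⦋0⦌ 0) a.1 = 0 := congrArg Subtype.val ha
    rw [hc, map_smul_X] at h2
    have h3 : c = 0 := by
      rcases smul_eq_zero.1 h2 with h | h
      · exact h
      · exact absurd h (X_ne k)
    apply Subtype.ext
    rw [hc, h3, zero_smul]
    rfl
  · intro b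
    have h1 := (psub_iff k hP hm _ _).1 b.2
    obtain ⟨c, hc⟩ := eq_smul k hm h1
    refine ⟨⟨c • (MvPolynomial.X none : CR k ⦋0⦌), (psub_iff k hP hm _ _).2 (X_mem k m _ c)⟩, ?_⟩
    apply Subtype.ext
    exact (map_smul_X k _ c).trans hc.symm

end CMG

open CMG in
theorem cmg (k : Type) [Field k] : PSB_Stmt k → CMG_Stmt k := by
  intro hP m hm
  refine ⟨?_, ?_, ?_, ?_⟩
  · have h := X_mem k m ⦋0⦌ 1
    rw [one_smul] at h
    exact h
  · intro b hb
    obtain ⟨c, hc⟩ := eq_smul k hm hb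
    refine ⟨c, 0, Submodule.zero_mem _, ?_⟩
    rw [map_zero, map_zero, sub_zero]
    exact sub_eq_zero.2 hc
  · rintro c ⟨e, he, hce⟩
    obtain ⟨c', hc'⟩ := eq_smul k hm he
    have h1 : c • (MvPolynomial.X none : CR k ⦋0⦌) =
        CRmap k (SimplexCategory.δ 0) e - CRmap k (SimplexCategory.δ 1) e := hce
    rw [hc', map_smul_X, map_smul_X, sub_self] at h1
    rcases smul_eq_zero.1 h1 with h | h
    · exact h
    · exact absurd h (X_ne k)
  · intro s hs
    have hiso : IsIso (al k hm) := by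
      rw [NatTrans.isIso_iff_isIso_app]
      intro Δ
      exact (ConcreteCategory.isIso_iff_bijective _).2 (al_bij k hP hm Δ)
    have h1 := ChainComplex.alternatingConst_exactAt ((FF k hm).obj (op ⦋0⦌)) s (by omega)
    refine h1.of_iso ?_
    exact (alternatingFaceMapComplexConst.app ((FF k hm).obj (op ⦋0⦌))).symm ≪≫
      (alternatingFaceMapComplex _).mapIso (asIso (al k hm))

end Pool.Agent.SHQ


end

section

/-!
# Block III-Q: indecomposables of the comparison object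
-/

open CategoryTheory CategoryTheory.Limits AlgebraicTopology Opposite Simplicial

namespace Pool.Agent.SHQ

namespace CMI

lemma mem_Aug {k : Type} [Field k] {R : Type} [CommRing R] [Algebra k R] (dg : ℕ → Submodule k R)
    {n : ℕ} (hn : 1 ≤ n) {a : R} (ha : a ∈ dg n) : a ∈ Aug dg := by
  obtain ⟨i, rfl⟩ : ∃ i, n = i + 1 := ⟨n - 1, by omega⟩
  exact (le_iSup (fun i : ℕ => dg (i + 1)) i) ha

lemma wt_pos {m : ℕ} (hm : 1 ≤ m) (Δ : SimplexCategory) (t : Option (NC Δ)) : 1 ≤ wt m Δ t := by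
  cases t with
  | none => exact hm
  | some φ => show 1 ≤ 2 * m; omega

lemma wt_eq (m : ℕ) (Δ : SimplexCategory) (t : Option (NC Δ)) :
    wt m Δ t = m ∨ wt m Δ t = 2 * m := by
  cases t with
  | none => left; rfl
  | some φ => right; rfl

lemma monomial_mem (k : Type) [Field k] {m : ℕ} (hm : 1 ≤ m) (Δ : SimplexCategory) {j : ℕ}
    (hj : 1 ≤ j) (hjm : j ≠ m) (hj2 : j ≠ 2 * m) (d : Option (NC Δ) →₀ ℕ) (c : k)
    (hd : Finsupp.weight (wt m Δ) d = j) :
    MvPolynomial.monomial d c ∈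
      Aug (MvPolynomial.weightedHomogeneousSubmodule k (wt m Δ)) ^ 2 := by
  classical
  have hd0 : d ≠ 0 := by
    rintro rfl
    rw [map_zero] at hd
    omega
  obtain ⟨t, ht⟩ := Finsupp.support_nonempty_iff.2 hd0
  have ht1 : 1 ≤ d t := Nat.one_le_iff_ne_zero.2 (Finsupp.mem_support_iff.1 ht)
  have hdec : d = Finsupp.single t 1 + (d - Finsupp.single t 1) :=
    (add_tsub_cancel_of_le (Finsupp.single_le_iff.2 ht1)).symm
  set d' := d - Finsupp.single t 1 with hd'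
  have hw : wt m Δ t + Finsupp.weight (wt m Δ) d' = j := by
    rw [← hd]
    conv_rhs => rw [hdec]
    rw [map_add, Finsupp.weight_single]
    simp
  have hpos : 1 ≤ Finsupp.weight (wt m Δ) d' := by
    rcases wt_eq m Δ t with h | h <;> omega
  have hX : (MvPolynomial.X t : CR k Δ) ∈
      Aug (MvPolynomial.weightedHomogeneousSubmodule k (wt m Δ)) :=
    mem_Aug _ (wt_pos hm Δ t) (MvPolynomial.isWeightedHomogeneous_X k (wt m Δ) t)
  have hM : (MvPolynomial.monomial d' c : CR k Δ) ∈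
      Aug (MvPolynomial.weightedHomogeneousSubmodule k (wt m Δ)) :=
    mem_Aug _ hpos (MvPolynomial.isWeightedHomogeneous_monomial (wt m Δ) d' c rfl)
  have hprod : (MvPolynomial.monomial d c : CR k Δ) =
      MvPolynomial.X t * MvPolynomial.monomial d' c := by
    rw [MvPolynomial.X, MvPolynomial.monomial_mul, one_mul, ← hdec]
  rw [hprod, pow_two]
  exact Submodule.mul_mem_mul hX hM

end CMI

/-- (CMI) indecomposables of the comparison object. -/
theorem cmi (k : Type) [Field k] : PSB_Stmt k → CMI_Stmt k := by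
  intro _ m hm Δ j hj hjm hj2
  have htop : Gker ((CO k m hm).obj Δ) 1 j = ⊤ := by
    rw [eq_top_iff]
    rintro ⟨a, ha1, ha2⟩ -
    refine ⟨?_, ha2⟩
    have h : a ∈ MvPolynomial.weightedHomogeneousSubmodule k (wt m Δ.unop) j := ha2
    change (a : CR k Δ.unop) ∈
      Aug (MvPolynomial.weightedHomogeneousSubmodule k (wt m Δ.unop)) ^ (1 + 1)
    rw [MvPolynomial.as_sum a]
    refine Submodule.sum_mem _ fun d hd => ?_
    exact CMI.monomial_mem k hm Δ.unop hj hjm hj2 d _ (h (MvPolynomial.mem_support_iff.1 hd))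
  have hsub : Subsingleton (Psub ((CO k m hm).obj Δ).dg 1 j ⧸ Gker ((CO k m hm).obj Δ) 1 j) :=
    Submodule.Quotient.subsingleton_iff.2 htop
  have hsub' : Subsingleton ((Gf 1 j).obj ((CO k m hm).obj Δ)) := hsub
  exact ModuleCat.isZero_of_subsingleton _

end Pool.Agent.SHQ


end

section

/-!
# Block III-Q (MP_2d0b73_an): maps from the comparison object
-/

open CategoryTheory CategoryTheory.Limits AlgebraicTopology Opposite Simplicial

namespace Pool.Agent.SHQ

namespace CMU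

section graded
variable {k : Type} [Field k]

theorem one_mem (A : PGA k) : (1 : A.R) ∈ A.dg 0 := by
  obtain ⟨σ, x, w, -, -, h⟩ := A.poly
  rw [h 0]
  exact ⟨1, MvPolynomial.isWeightedHomogeneous_one k w, map_one (MvPolynomial.aeval x)⟩

theorem mul_mem (A : PGA k) {i j : ℕ} {a b : A.R} (ha : a ∈ A.dg i) (hb : b ∈ A.dg j) :
    a * b ∈ A.dg (i + j) := by
  obtain ⟨σ, x, w, -, -, h⟩ := A.poly
  rw [h i] at ha
  rw [h j] at hb
  rw [h (i + j)]
  obtain ⟨p, hp, rfl⟩ := ha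
  obtain ⟨q, hq, rfl⟩ := hb
  exact ⟨p * q, MvPolynomial.IsWeightedHomogeneous.mul hp hq, map_mul (MvPolynomial.aeval x) p q⟩

theorem pow_mem (A : PGA k) {i : ℕ} {a : A.R} (ha : a ∈ A.dg i) (d : ℕ) :
    a ^ d ∈ A.dg (d • i) := by
  induction d with
  | zero => rw [pow_zero, zero_smul]; exact one_mem A
  | succ d ih => rw [pow_succ, succ_nsmul]; exact mul_mem A ih ha

theorem prod_mem (A : PGA k) {σ : Type} (s : Finset σ) (g : σ → A.R) (n : σ → ℕ)
    (h : ∀ i ∈ s, g i ∈ A.dg (n i)) : ∏ i ∈ s, g i ∈ A.dg (∑ i ∈ s, n i) := by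
  classical
  induction s using Finset.induction_on with
  | empty => rw [Finset.prod_empty, Finset.sum_empty]; exact one_mem A
  | insert a s ha ih =>
    rw [Finset.prod_insert ha, Finset.sum_insert ha]
    exact mul_mem A (h a (Finset.mem_insert_self a s))
      (ih fun i hi => h i (Finset.mem_insert_of_mem hi))

/-- Algebra maps from polynomial algebras are graded if they are so on the generators. -/
theorem aeval_mem (A : PGA k) {σ : Type} (w : σ → ℕ) (g : σ → A.R) (hg : ∀ s, g s ∈ A.dg (w s))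
    (j : ℕ) : ∀ a ∈ MvPolynomial.weightedHomogeneousSubmodule k w j,
      MvPolynomial.aeval (R := k) g a ∈ A.dg j := by
  intro a ha
  rw [MvPolynomial.aeval_def, MvPolynomial.eval₂_eq]
  refine Submodule.sum_mem _ fun d hd => ?_
  have hw : Finsupp.weight w d = j := ha (MvPolynomial.mem_support_iff.1 hd)
  have h2 : (∏ i ∈ d.support, g i ^ d i) ∈ A.dg (∑ i ∈ d.support, d i • w i) :=
    prod_mem A _ _ _ fun i _ => pow_mem A (hg i) _
  have h3 : ∑ i ∈ d.support, d i • w i = j := by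
    rw [← hw, Finsupp.weight_apply]; rfl
  rw [h3] at h2
  have h4 := (A.dg j).smul_mem (MvPolynomial.coeff d a) h2
  rw [Algebra.smul_def] at h4
  exact h4

end graded

/-- The map to the point. -/
def pt (Δ : SimplexCategory) : Δ ⟶ ⦋0⦌ := SimplexCategory.isTerminalZero.from Δ

theorem pt_comp {Δ Δ' : SimplexCategory} (θ : Δ ⟶ Δ') : θ ≫ pt Δ' = pt Δ :=
  SimplexCategory.isTerminalZero.hom_ext _ _

theorem eq_of_cst {c : Fin 2} {Δ : SimplexCategory} {φ ψ : Δ ⟶ ⦋1⦌} (h : CstE c φ)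
    (h' : CstE c ψ) : φ = ψ := by
  apply SimplexCategory.Hom.ext
  apply OrderHom.ext
  funext i
  exact (h i).trans (h' i).symm

theorem cst_zero {Δ : SimplexCategory} {φ : Δ ⟶ ⦋1⦌} (h : CstE 0 φ) :
    φ = pt Δ ≫ SimplexCategory.δ 1 := by
  refine eq_of_cst h (CstE.comp ?_ _)
  intro i
  fin_cases i
  rfl

theorem cst_one {Δ : SimplexCategory} {φ : Δ ⟶ ⦋1⦌} (h : CstE 1 φ) :
    φ = pt Δ ≫ SimplexCategory.δ 0 := by
  refine eq_of_cst h (CstE.comp ?_ _)
  intro i
  fin_cases i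
  rfl

section
variable {k : Type} [Field k] (B : SimplicialObject (PGA k))

/-- The action of an operator. -/
noncomputable def act {Δ Δ' : SimplexCategory} (θ : Δ ⟶ Δ') :
    (B.obj (op Δ')).R →ₐ[k] (B.obj (op Δ)).R := PGA.Hom.toAlg (B.map θ.op)

theorem act_comp {Δ Δ' Δ'' : SimplexCategory} (θ : Δ ⟶ Δ') (θ' : Δ' ⟶ Δ'')
    (z : (B.obj (op Δ'')).R) : act B (θ ≫ θ') z = act B θ (act B θ' z) := by
  have h : B.map (θ ≫ θ').op = B.map θ'.op ≫ B.map θ.op := by
    rw [op_comp, B.map_comp]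
  rw [act, h]
  rfl

theorem act_id (Δ : SimplexCategory) (z : (B.obj (op Δ)).R) : act B (𝟙 Δ) z = z := by
  have h : B.map (𝟙 Δ).op = 𝟙 _ := by
    rw [op_id, B.map_id]
  rw [act, h]
  rfl

theorem act_mem {Δ Δ' : SimplexCategory} (θ : Δ ⟶ Δ') (j : ℕ) (z : (B.obj (op Δ')).R)
    (hz : z ∈ (B.obj (op Δ')).dg j) : act B θ z ∈ (B.obj (op Δ)).dg j :=
  PGA.Hom.map_dg (B.map θ.op) j z hz

variable (x : (B.obj (op ⦋0⦌)).R) (y : (B.obj (op ⦋1⦌)).R)

/-- Images of the generators. -/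
noncomputable def gen (Δ : SimplexCategory) (t : Option (NC Δ)) : (B.obj (op Δ)).R :=
  t.elim (act B (pt Δ) x) fun φ => act B φ.1 y

/-- The algebra map in level `Δ`. -/
noncomputable def fm (Δ : SimplexCategory) : CR k Δ →ₐ[k] (B.obj (op Δ)).R :=
  MvPolynomial.aeval (gen B x y Δ)

theorem fm_none (Δ : SimplexCategory) :
    fm B x y Δ (MvPolynomial.X none) = act B (pt Δ) x := by
  rw [fm, MvPolynomial.aeval_X]
  rfl

variable (h0 : act B (SimplexCategory.δ 0) y = x ^ 2)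
  (h1 : act B (SimplexCategory.δ 1) y = 0)

include h0 h1 in
theorem fm_uu {Δ : SimplexCategory} (φ : Δ ⟶ ⦋1⦌) : fm B x y Δ (uu k φ) = act B φ y := by
  by_cases c0 : CstE 0 φ
  · rw [uu_zero k c0, map_zero, cst_zero c0, act_comp, h1, map_zero]
  by_cases c1 : CstE 1 φ
  · rw [uu_one k c1, map_pow, fm_none, cst_one c1, act_comp, h0, map_pow]
  · rw [uu_some k ⟨φ, c0, c1⟩, fm, MvPolynomial.aeval_X]
    rfl

include h0 h1 in
theorem fm_nat {Δ Δ' : SimplexCategory} (θ : Δ ⟶ Δ') :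
    (fm B x y Δ).comp (CRmap k θ) = (act B θ).comp (fm B x y Δ') := by
  refine MvPolynomial.algHom_ext fun t => ?_
  cases t with
  | none =>
    rw [AlgHom.comp_apply, AlgHom.comp_apply, CRmap_none, fm_none, fm_none, ← act_comp, pt_comp]
  | some φ =>
    rw [AlgHom.comp_apply, AlgHom.comp_apply, ← uu_some k φ, CRmap_uu, fm_uu B x y h0 h1,
      fm_uu B x y h0 h1, act_comp]

theorem fm_mem (m : ℕ) (hx : x ∈ (B.obj (op ⦋0⦌)).dg m) (hy : y ∈ (B.obj (op ⦋1⦌)).dg (2 * m))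
    (Δ : SimplexCategory) (j : ℕ) :
    ∀ a ∈ MvPolynomial.weightedHomogeneousSubmodule k (wt m Δ) j,
      fm B x y Δ a ∈ (B.obj (op Δ)).dg j := by
  refine aeval_mem (B.obj (op Δ)) (wt m Δ) (gen B x y Δ) (fun t => ?_) j
  cases t with
  | none => exact act_mem B _ _ _ hx
  | some φ => exact act_mem B _ _ _ hy

end

end CMU

theorem cmu (k : Type) [Field k] : CMU_Stmt k := by
  intro m hm B x hx y hy h0 h1
  refine ⟨{ app := fun Δ => (⟨CMU.fm B x y Δ.unop, CMU.fm_mem B x y m hx hy Δ.unop⟩ :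
              PGA.Hom (CO1 k m hm Δ.unop) (B.obj Δ))
            naturality := fun Δ Δ' θ => ?_ }, ?_⟩
  · exact PGA.Hom.ext (CMU.fm_nat B x y h0 h1 θ.unop)
  · have h2 := CMU.fm_none B x y ⦋0⦌
    have h3 : CMU.pt ⦋0⦌ = 𝟙 ⦋0⦌ := SimplexCategory.isTerminalZero.hom_ext _ _
    rw [h3, CMU.act_id] at h2
    exact h2

end Pool.Agent.SHQ


end
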