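import Mathlib
import Pool.Agent.SH.DefsR

/-! Parts: SH.DefsI, SH.StmtsI, SH.StmtsR, SH.LEB, SH.BAD, SH.ITR, SH.RET, SH.Top, SH.ANE, SH.WALL, SH.PROD, SH.ITX, SH.SCAN, SH.STI, SH.SKE, SH.DefsT, SH.DefsII, SH.StmtsII, SH.StmtsT, SH.PARTII, SH.GXM, SH.GBO, SH.GWE, SH.GTW, SH.GLI, SH.GLC, SH.GLL, SH.GLE, SH.GLD, SH.GNX, SH.GST, SH.GCO, SH.GSD, SH.BRIDGE, SH.LTA, SH.LTB, SH.LTD, SH.LTF, SH.LTJ, SH.LTK, SH.LTL, SH.LTM, SH.LTN, SH.LTO, SH.LTP, SH.LTR, SH.LTY, SH.N.Lab, SH.N.Ev, SH.N.Rst -/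

section

/-!
# MP_2d0b73_an: definitions for parts I and II (compacta, mean dimension)

All polyhedra are realizations of posets: a point of the realization of a finite poset `Q` is a
function `p ≥ 0` on the ambient poset with sum `1` whose support is a chain contained in `Q`.
Cubes are the closed unit balls of `Fin n → ℝ` (sup norm), `Iv = [-1, 1]`.
-/

set_option autoImplicit false

open Set Topology

namespace Pool.Agent.SH

/-- The interval `[-1, 1]`. -/
abbrev Iv : Type := Set.Icc (-1 : ℝ) 1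

/-! ### Posets -/

/-- The points of the geometric realization of the finite subposet `Q` of `P`. -/
def Rz {P : Type} [PartialOrder P] (Q : Finset P) : Set (P → ℝ) :=
  {p | (∀ a, 0 ≤ p a) ∧ (∀ a, a ∉ Q → p a = 0) ∧ ∑ a ∈ Q, p a = 1 ∧
    ∀ a b, p a ≠ 0 → p b ≠ 0 → a ≤ b ∨ b ≤ a}

/-- The `k`-fold suspension of a poset: `k` levels of two incomparable elements on top. -/
inductive SusK (P : Type) (k : ℕ) : Type
  | base : P → SusK P k
  | pole : Fin k → Bool → SusK P k

namespace SusK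

variable {P : Type} {k : ℕ}

/-- The order of the suspension. -/
def le' [LE P] : SusK P k → SusK P k → Prop
  | base a, base b => a ≤ b
  | base _, pole _ _ => True
  | pole _ _, base _ => False
  | pole i e, pole j e' => i < j ∨ (i = j ∧ e = e')

instance [PartialOrder P] : PartialOrder (SusK P k) where
  le := le'
  le_refl x := by
    cases x with
    | base a => exact le_refl a
    | pole i e => exact Or.inr ⟨rfl, rfl⟩
  le_trans x y z hxy hyz := by
    cases x with
    | base a =>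
      cases z with
      | base c =>
        cases y with
        | base b => exact le_trans (show a ≤ b from hxy) hyz
        | pole j e => exact absurd hyz (fun h => h)
      | pole l e => trivial
    | pole i e =>
      cases y with
      | base b => exact absurd hxy (fun h => h)
      | pole j e' =>
        cases z with
        | base c => exact absurd hyz (fun h => h)
        | pole l e'' =>
          rcases hxy with h | ⟨rfl, rfl⟩
          · rcases hyz with h' | ⟨rfl, rfl⟩
            · exact Or.inl (lt_trans h h')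
            · exact Or.inl h
          · exact hyz
  le_antisymm x y hxy hyx := by
    cases x with
    | base a =>
      cases y with
      | base b => exact congrArg base (le_antisymm (show a ≤ b from hxy) hyx)
      | pole j e => exact absurd hyx (fun h => h)
    | pole i e =>
      cases y with
      | base b => exact absurd hxy (fun h => h)
      | pole j e' =>
        rcases hxy with h | ⟨rfl, rfl⟩
        · rcases hyx with h' | ⟨rfl, rfl⟩
          · exact absurd (lt_trans h h') (lt_irrefl _)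
          · exact absurd h (lt_irrefl _)
        · rfl

@[simp] theorem base_le_base [PartialOrder P] (a b : P) :
    (base a : SusK P k) ≤ base b ↔ a ≤ b := Iff.rfl

@[simp] theorem base_le_pole [PartialOrder P] (a : P) (i : Fin k) (e : Bool) :
    (base a : SusK P k) ≤ pole i e := trivial

@[simp] theorem pole_le_base [PartialOrder P] (a : P) (i : Fin k) (e : Bool) :
    (pole i e : SusK P k) ≤ base a ↔ False := Iff.rfl

@[simp] theorem pole_le_pole [PartialOrder P] (i j : Fin k) (e e' : Bool) :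
    (pole i e : SusK P k) ≤ pole j e' ↔ i < j ∨ (i = j ∧ e = e') := Iff.rfl

end SusK

/-- The sphere of dimension `n` as a poset: `n + 1` levels of two incomparable elements. -/
structure Sph (n : ℕ) : Type where
  /-- the level -/
  lev : Fin (n + 1)
  /-- which of the two elements -/
  sgn : Bool
deriving DecidableEq, Fintype

namespace Sph

variable {n : ℕ}

instance : PartialOrder (Sph n) where
  le x y := x.lev < y.lev ∨ x = y
  le_refl x := Or.inr rfl
  le_trans x y z hxy hyz := by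
    rcases hxy with h | rfl
    · rcases hyz with h' | rfl
      · exact Or.inl (lt_trans h h')
      · exact Or.inl h
    · exact hyz
  le_antisymm x y hxy hyx := by
    rcases hxy with h | h
    · rcases hyx with h' | h'
      · exact absurd (lt_trans h h') (lt_irrefl _)
      · exact h'.symm
    · exact h

theorem le_iff (x y : Sph n) : x ≤ y ↔ x.lev < y.lev ∨ x = y := Iff.rfl

/-- The base point: a minimal element. -/
instance : Zero (Sph n) := ⟨⟨0, false⟩⟩

theorem zero_def : (0 : Sph n) = ⟨0, false⟩ := rfl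

/-- The base point is minimal. -/
theorem eq_zero_of_le {x : Sph n} (h : x ≤ 0) : x = 0 := by
  rcases h with h | h
  · exact absurd h (Nat.not_lt_zero _)
  · exact h

end Sph

/-! ### Labelled configurations -/

/-- The restriction of a track to a set of times. -/
noncomputable def res (J : Finset ℕ) (a : ℕ →₀ ℕ) : ℕ →₀ ℕ := a.filter (· ∈ J)

theorem res_apply_mem {J : Finset ℕ} {a : ℕ →₀ ℕ} {j : ℕ} (h : j ∈ J) : res J a j = a j :=
  Finsupp.filter_apply_pos _ _ h

theorem res_apply_notMem {J : Finset ℕ} {a : ℕ →₀ ℕ} {j : ℕ} (h : j ∉ J) : res J a j = 0 :=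
  Finsupp.filter_apply_neg _ _ h

theorem support_res (J : Finset ℕ) (a : ℕ →₀ ℕ) : (res J a).support ⊆ J := by
  intro j hj
  by_contra h
  rw [Finsupp.mem_support_iff] at hj
  exact hj (res_apply_notMem h)

theorem res_eq_self {J : Finset ℕ} {a : ℕ →₀ ℕ} (h : a.support ⊆ J) : res J a = a := by
  ext j
  by_cases hj : j ∈ J
  · exact res_apply_mem hj
  · rw [res_apply_notMem hj]
    by_contra hne
    exact hj (h (Finsupp.mem_support_iff.2 (Ne.symm hne)))

theorem res_res {J J' : Finset ℕ} (h : J' ⊆ J) (a : ℕ →₀ ℕ) : res J' (res J a) = res J' a := by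
  ext j
  by_cases hj : j ∈ J'
  · rw [res_apply_mem hj, res_apply_mem hj, res_apply_mem (h hj)]
  · rw [res_apply_notMem hj, res_apply_notMem hj]

/-- Finite configurations of particles with labels in the pointed poset `S`: a nonempty finite set
`J` of times, and finitely many tracks `a : ℕ →₀ ℕ` (the position at each time of `J`), with labels
`C a ≠ 0`; different tracks have different positions at every time. -/
structure LL (S : Type) [PartialOrder S] [Zero S] : Type where
  /-- the times -/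
  J : Finset ℕ
  /-- the labels of the tracks (`0` if the track is not present) -/
  C : (ℕ →₀ ℕ) →₀ S
  ne : J.Nonempty
  sub : ∀ a ∈ C.support, a.support ⊆ J
  inj : ∀ a ∈ C.support, ∀ b ∈ C.support, a ≠ b → ∀ j ∈ J, a j ≠ b j

namespace LL

variable {S : Type} [PartialOrder S] [Zero S]

theorem ext' {x y : LL S} (hJ : x.J = y.J) (hC : x.C = y.C) : x = y := by
  cases x
  cases y
  cases hJ
  cases hC
  rfl

/-- The face relation: restrict the times, take faces of the labels, drop the particles whose new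
label is the base point `0`. -/
def le' (x y : LL S) : Prop :=
  x.J ⊆ y.J ∧ (∀ a ∈ y.C.support, x.C (res x.J a) ≤ y.C a) ∧
    ∀ b ∈ x.C.support, ∃ a ∈ y.C.support, res x.J a = b

theorem le'_trans {x y z : LL S} (hxy : le' x y) (hyz : le' y z) : le' x z := by
  obtain ⟨h1, h2, h3⟩ := hxy
  obtain ⟨h4, h5, h6⟩ := hyz
  refine ⟨h1.trans h4, ?_, ?_⟩
  · intro a ha
    have e : res x.J (res y.J a) = res x.J a := res_res h1 a
    by_cases hy : res y.J a ∈ y.C.support
    · have := h2 _ hy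
      rw [e] at this
      exact this.trans (h5 a ha)
    · have hx : x.C (res x.J a) = 0 := by
        by_contra hne
        obtain ⟨b, hb, hb'⟩ := h3 _ (Finsupp.mem_support_iff.2 hne)
        obtain ⟨a', ha', rfl⟩ := h6 b hb
        rw [res_res h1] at hb'
        obtain ⟨j, hj⟩ := x.ne
        have h7 : a' j = a j := by
          have := DFunLike.congr_fun hb' j
          rwa [res_apply_mem hj, res_apply_mem hj] at this
        have h8 : a' = a := by
          by_contra hne'
          exact z.inj a' ha' a ha hne' j (h4 (h1 hj)) h7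
        exact hy (h8 ▸ hb)
      have h9 := h5 a ha
      rw [Finsupp.notMem_support_iff.1 hy] at h9
      rw [hx]
      exact h9
  · intro b hb
    obtain ⟨a, ha, hab⟩ := h3 b hb
    obtain ⟨a', ha', rfl⟩ := h6 a ha
    exact ⟨a', ha', by rw [← hab, res_res h1]⟩

instance : PartialOrder (LL S) where
  le := le'
  le_refl x := by
    refine ⟨Finset.Subset.refl _, ?_, ?_⟩
    · intro a ha
      rw [res_eq_self (x.sub a ha)]
    · intro b hb
      exact ⟨b, hb, res_eq_self (x.sub b hb)⟩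
  le_trans x y z hxy hyz := le'_trans hxy hyz
  le_antisymm x y hxy hyx := by
    obtain ⟨h1, h2, h3⟩ := hxy
    obtain ⟨h4, h5, h6⟩ := hyx
    have hJ : x.J = y.J := Finset.Subset.antisymm h1 h4
    refine ext' hJ ?_
    have key : ∀ a, a ∈ y.C.support → x.C a = y.C a := by
      intro a ha
      have e1 := h2 a ha
      rw [res_eq_self (hJ ▸ y.sub a ha)] at e1
      obtain ⟨b, hb, hb'⟩ := h6 a ha
      have hb2 : b = a := by rw [← hb', res_eq_self (hJ ▸ x.sub b hb)]
      subst hb2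
      have e2 := h5 b hb
      rw [res_eq_self (hJ ▸ x.sub b hb)] at e2
      exact le_antisymm e1 e2
    have key2 : ∀ a, a ∈ x.C.support → a ∈ y.C.support := by
      intro a ha
      obtain ⟨b, hb, hb'⟩ := h3 a ha
      have hb2 : b = a := by rw [← hb', res_eq_self (hJ ▸ y.sub b hb)]
      exact hb2 ▸ hb
    ext a
    by_cases ha : a ∈ y.C.support
    · exact key a ha
    · rw [Finsupp.notMem_support_iff.1 ha]
      by_contra hne
      exact ha (key2 a (Finsupp.mem_support_iff.2 hne))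

theorem le_iff (x y : LL S) : x ≤ y ↔ x.J ⊆ y.J ∧
    (∀ a ∈ y.C.support, x.C (res x.J a) ≤ y.C a) ∧
    ∀ b ∈ x.C.support, ∃ a ∈ y.C.support, res x.J a = b := Iff.rfl

/-- One particle with label `s` at time `0` and position `0`, or no particle if `s = 0`. -/
noncomputable def one (s : S) : LL S where
  J := {0}
  C := Finsupp.single 0 s
  ne := ⟨0, Finset.mem_singleton_self 0⟩
  sub := by
    intro a ha
    have : a = 0 := by
      have := Finsupp.support_single_subset ha
      simpa using this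
    subst this
    simp
  inj := by
    intro a ha b hb hab
    exfalso
    have h1 : a = 0 := by simpa using Finsupp.support_single_subset ha
    have h2 : b = 0 := by simpa using Finsupp.support_single_subset hb
    exact hab (h1.trans h2.symm)

end LL

/-! ### Extension property -/

/-- `Z τ P`: every continuous map from a closed subset of `Z` to the realization of a finite part of
`P` extends to a continuous map from `Z` to the realization of a larger finite part of `P`. -/
def Ext (Z P : Type) [TopologicalSpace Z] [PartialOrder P] : Prop :=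
  ∀ (A : Set Z) (Q : Finset P) (f : Z → P → ℝ), IsClosed A → ContinuousOn f A →
    (∀ z ∈ A, f z ∈ Rz Q) → ∃ (Q' : Finset P) (g : Z → P → ℝ), Q ⊆ Q' ∧ Continuous g ∧
      (∀ z, g z ∈ Rz Q') ∧ ∀ z ∈ A, g z = f z

/-! ### Stable inessentiality, skeleta, covers -/

/-- The stable cohomological bound used for mean dimension: every map from a closed subset `Y` of
`[-1,1]^k × X` to a cube of dimension `N ≥ k + c + 1` is stably inessential: its product with the
cube of dimension `R` is homotopic, relative to the preimage of the boundary, to a map to the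
boundary, for all large `R`. -/
def StInes (X : Type) [TopologicalSpace X] (c : ℕ) : Prop :=
  ∀ (k N : ℕ) (Y : Set ((Fin k → Iv) × X)) (v : (Fin k → Iv) × X → Fin N → ℝ), k + c + 1 ≤ N →
    IsClosed Y → ContinuousOn v Y → (∀ y ∈ Y, ‖v y‖ ≤ 1) → ∃ R₀ : ℕ, ∀ R, R₀ ≤ R →
    ∃ w : ((Fin k → Iv) × X) × (Fin R → Iv) → (Fin N → ℝ) × (Fin R → ℝ),
      ContinuousOn w (Y ×ˢ univ) ∧ (∀ z ∈ Y ×ˢ univ, ‖w z‖ = 1) ∧
      ∀ y ∈ Y, ∀ r : Fin R → Iv, ‖((v y, fun i => (r i : ℝ)) : (Fin N → ℝ) × (Fin R → ℝ))‖ = 1 →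
        w (y, r) = (v y, fun i => (r i : ℝ))

/-- Stable compression to the skeleton of dimension `k + c` of the cube, preserving the faces of the
cube. -/
def StSkel (X : Type) [TopologicalSpace X] (c : ℕ) : Prop :=
  ∀ (m : ℕ) (φ : X → Fin m → ℝ), Continuous φ → (∀ x v, |φ x v| ≤ 1) → ∃ k₀ : ℕ, ∀ k, k₀ ≤ k →
    ∃ Φ : (Fin k → Iv) × X → (Fin k ⊕ Fin m) → ℝ, Continuous Φ ∧ (∀ z j, |Φ z j| ≤ 1) ∧
      (∀ (q : Fin k → Iv) (x : X) (j : Fin k), |(q j : ℝ)| = 1 → Φ (q, x) (Sum.inl j) = q j) ∧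
      (∀ (q : Fin k → Iv) (x : X) (v : Fin m), |φ x v| = 1 → Φ (q, x) (Sum.inr v) = φ x v) ∧
      ∀ z, {j | |Φ z j| < 1}.ncard ≤ k + c

/-- Linear growth, with slope `c`, of the orders of the covers `U^n` of `X^n`. -/
def DBound (X : Type) [TopologicalSpace X] (c : ℕ) : Prop :=
  ∀ (ι : Type) [Finite ι] (U : ι → Set X), (∀ i, IsOpen (U i)) → (∀ x, ∃ i, x ∈ U i) →
    ∃ K : ℕ, ∀ n : ℕ, ∃ (κ : Type) (_ : Finite κ) (W : κ → Set (Fin n → X)),
      (∀ a, IsOpen (W a)) ∧ (∀ x, ∃ a, x ∈ W a) ∧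
      (∀ a, ∃ i : Fin n → ι, ∀ x ∈ W a, ∀ j, x j ∈ U (i j)) ∧
      ∀ x, {a | x ∈ W a}.ncard ≤ K + c * n

/-- Covering dimension at most `n` (for finite open covers). -/
def DimLE (X : Type) [TopologicalSpace X] (n : ℕ) : Prop :=
  ∀ (ι : Type) [Finite ι] (U : ι → Set X), (∀ i, IsOpen (U i)) → (∀ x, ∃ i, x ∈ U i) →
    ∃ (κ : Type) (_ : Finite κ) (W : κ → Set X), (∀ a, IsOpen (W a)) ∧ (∀ x, ∃ a, x ∈ W a) ∧
      (∀ a, ∃ i, W a ⊆ U i) ∧ ∀ x, {a | x ∈ W a}.ncard ≤ n + 1

/-! ### Subdivision, spheres -/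

/-- The barycentric subdivision of a poset: nonempty finite chains. -/
structure Sd (P : Type) [PartialOrder P] : Type where
  /-- the chain -/
  c : Finset P
  ne : c.Nonempty
  chain : ∀ a ∈ c, ∀ b ∈ c, a ≤ b ∨ b ≤ a

instance (P : Type) [PartialOrder P] : PartialOrder (Sd P) where
  le x y := x.c ⊆ y.c
  le_refl x := Finset.Subset.refl _
  le_trans x y z h h' := Finset.Subset.trans h h'
  le_antisymm x y h h' := by
    have := Finset.Subset.antisymm h h'
    cases x
    cases y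
    simp_all

/-- `m` is the greatest element of the finite set `c`. -/
def IsMax' {P : Type} [PartialOrder P] (c : Finset P) (m : P) : Prop := m ∈ c ∧ ∀ a ∈ c, a ≤ m

/-- The greatest element of a chain. -/
noncomputable def Sd.top {P : Type} [PartialOrder P] (x : Sd P) : P :=
  Classical.epsilon (h := ⟨x.ne.choose⟩) (IsMax' x.c)

/-- The faces of the boundary of the simplex of dimension `M + 1`: a sphere of dimension `M`. -/
structure P0 (M : ℕ) : Type where
  /-- the face -/
  s : Finset (Fin (M + 2))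
  ne : s.Nonempty
  ne_univ : s ≠ Finset.univ
deriving DecidableEq

instance (M : ℕ) : PartialOrder (P0 M) where
  le x y := x.s ⊆ y.s
  le_refl x := Finset.Subset.refl _
  le_trans x y z h h' := Finset.Subset.trans h h'
  le_antisymm x y h h' := by
    have := Finset.Subset.antisymm h h'
    cases x
    cases y
    simp_all

end Pool.Agent.SH


end

section

/-!
# MP_2d0b73_an: statements of part I and the interface to part II

Part I: `Ext X (LL (Sph 2)) → DBound X 3`.  Part II: a compactum `X` with `Ext X (LL (Sph 2))` which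
is infinite-dimensional.
-/

set_option autoImplicit false

open Set Topology

namespace Pool.Agent.SH

/-! ### Part I, tools for realizations -/

/-- The `ε`-neighbourhood of the realization, in the coordinates of `Q`. -/
def NB {P : Type} [PartialOrder P] (Q : Finset P) (ε : ℝ) : Set (P → ℝ) :=
  {p | ∃ p' ∈ Rz Q, ∀ a ∈ Q, |p a - p' a| < ε}

/-- RET: neighbourhood retraction. -/
def Stmt_RET : Prop := ∀ (P : Type) [PartialOrder P] (Q : Finset P), ∃ ε : ℝ, 0 < ε ∧
  ∃ r : (P → ℝ) → P → ℝ, ContinuousOn r (NB Q ε) ∧ (∀ p ∈ NB Q ε, r p ∈ Rz Q) ∧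
    (∀ p ∈ Rz Q, r p = p) ∧ ∀ δ : ℝ, 0 < δ → ∃ η : ℝ, 0 < η ∧ η ≤ ε ∧ ∀ p, ∀ p' ∈ Rz Q,
      (∀ a ∈ Q, |p a - p' a| < η) → ∀ a ∈ Q, |r p a - p' a| < δ

/-- HEP: homotopy extension for maps to the realization of a finite poset. -/
def Stmt_HEP : Prop := ∀ (Z : Type) [TopologicalSpace Z] [CompactSpace Z]
  [TopologicalSpace.MetrizableSpace Z] (P : Type) [PartialOrder P] (Q : Finset P) (A : Set Z)
  (H : Z × Set.Icc (0 : ℝ) 1 → P → ℝ) (g : Z → P → ℝ), IsClosed A → ContinuousOn H (A ×ˢ univ) →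
  (∀ z ∈ A ×ˢ univ, H z ∈ Rz Q) → Continuous g → (∀ z, g z ∈ Rz Q) →
  (∀ z ∈ A, g z = H (z, 1)) → ∃ g' : Z → P → ℝ, Continuous g' ∧ (∀ z, g' z ∈ Rz Q) ∧
    ∀ z ∈ A, g' z = H (z, 0)

/-- CLS: close maps to the realization of a finite poset are homotopic. -/
def Stmt_CLS : Prop := ∀ (P : Type) [PartialOrder P] (Q : Finset P), ∃ ε : ℝ, 0 < ε ∧
  ∀ (Z : Type) [TopologicalSpace Z] (A : Set Z) (f g : Z → P → ℝ), ContinuousOn f A →
  ContinuousOn g A → (∀ z ∈ A, f z ∈ Rz Q) → (∀ z ∈ A, g z ∈ Rz Q) →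
  (∀ z ∈ A, ∀ a ∈ Q, |f z a - g z a| < ε) →
  ∃ H : Z × Set.Icc (0 : ℝ) 1 → P → ℝ, ContinuousOn H (A ×ˢ univ) ∧
    (∀ z ∈ A ×ˢ univ, H z ∈ Rz Q) ∧ ∀ z ∈ A, H (z, 0) = f z ∧ H (z, 1) = g z

/-- FAC: a map whose oscillation on the fibres of a surjection of compacta is small factors
approximately. -/
def Stmt_FAC : Prop := ∀ (P : Type) [PartialOrder P] (Q : Finset P) (ε : ℝ), 0 < ε →
  ∃ η : ℝ, 0 < η ∧ ∀ (A B : Type) [TopologicalSpace A] [CompactSpace A]
  [TopologicalSpace.MetrizableSpace A] [TopologicalSpace B] [CompactSpace B]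
  [TopologicalSpace.MetrizableSpace B] (pr : A → B) (f : A → P → ℝ), Continuous pr →
  Function.Surjective pr → Continuous f → (∀ z, f z ∈ Rz Q) →
  (∀ z z', pr z = pr z' → ∀ a ∈ Q, |f z a - f z' a| < η) →
  ∃ f' : B → P → ℝ, Continuous f' ∧ (∀ b, f' b ∈ Rz Q) ∧
    ∀ z, ∀ a ∈ Q, |f z a - f' (pr z) a| < ε

/-- CON: the realization of a finite poset with a greatest element is an absolute extensor. -/
def Stmt_CON : Prop := ∀ (Z : Type) [TopologicalSpace Z] [CompactSpace Z]
  [TopologicalSpace.MetrizableSpace Z] (P : Type) [PartialOrder P] (Q : Finset P) (t : P)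
  (A : Set Z) (f : Z → P → ℝ), t ∈ Q → (∀ a ∈ Q, a ≤ t) → IsClosed A → ContinuousOn f A →
  (∀ z ∈ A, f z ∈ Rz Q) → ∃ g : Z → P → ℝ, Continuous g ∧ (∀ z, g z ∈ Rz Q) ∧ ∀ z ∈ A, g z = f z

/-! ### Part I, the product theorem -/

/-- BOX: extension over thin slabs. -/
def Stmt_BOX : Prop := ∀ (Z : Type) [TopologicalSpace Z] [CompactSpace Z]
  [TopologicalSpace.MetrizableSpace Z] (P : Type) [PartialOrder P], Ext Z P →
  ∀ (A : Set (Z × Iv)) (Q : Finset P) (κ : Z × Iv → P → ℝ), IsClosed A → ContinuousOn κ A →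
  (∀ z ∈ A, κ z ∈ Rz Q) → ∃ η : ℝ, 0 < η ∧ ∀ a b : ℝ, b ≤ a + η → ∃ (Q' : Finset P)
    (g : Z × Iv → P → ℝ), Q ⊆ Q' ∧ ContinuousOn g {z | a ≤ (z.2 : ℝ) ∧ (z.2 : ℝ) ≤ b} ∧
    (∀ z : Z × Iv, a ≤ (z.2 : ℝ) → (z.2 : ℝ) ≤ b → g z ∈ Rz Q') ∧
    ∀ z ∈ A, a ≤ (z.2 : ℝ) → (z.2 : ℝ) ≤ b → g z = κ z

/-- WALL: a wall which separates `Np` and `Nm` and to which `κ` extends. -/
def Stmt_WALL : Prop := ∀ (Z : Type) [TopologicalSpace Z] [CompactSpace Z]
  [TopologicalSpace.MetrizableSpace Z] (P : Type) [PartialOrder P], Ext Z P →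
  ∀ (Np Nm A : Set (Z × Iv)) (Q : Finset P) (κ : Z × Iv → P → ℝ), IsClosed Np → IsClosed Nm →
  Disjoint Np Nm → IsClosed A → ContinuousOn κ A → (∀ z ∈ A, κ z ∈ Rz Q) →
  ∃ (Bp Bm : Set (Z × Iv)) (Q' : Finset P) (g : Z × Iv → P → ℝ), IsClosed Bp ∧ IsClosed Bm ∧
    Bp ∪ Bm = univ ∧ Disjoint Np Bm ∧ Disjoint Nm Bp ∧ Q ⊆ Q' ∧ ContinuousOn g (Bp ∩ Bm) ∧
    (∀ z ∈ Bp ∩ Bm, g z ∈ Rz Q') ∧ ∀ z ∈ A ∩ (Bp ∩ Bm), g z = κ z

/-- PROD: the product theorem. -/
def Stmt_PROD : Prop := ∀ (Z : Type) [TopologicalSpace Z] [CompactSpace Z]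
  [TopologicalSpace.MetrizableSpace Z] (P : Type) [PartialOrder P] [Nonempty P],
  Ext Z P → Ext (Z × Iv) (SusK P 1)

/-- ITX: the iterated product theorem. -/
def Stmt_ITX : Prop := ∀ (X : Type) [TopologicalSpace X] [CompactSpace X]
  [TopologicalSpace.MetrizableSpace X] (P : Type) [PartialOrder P] [Nonempty P],
  Ext X P → ∀ k : ℕ, Ext ((Fin k → Iv) × X) (SusK P k)

/-! ### Part I, scanning -/

/-- Octahedral coordinates of a point of the sphere. -/
def octa (h : Sph 2 → ℝ) : Fin 3 → ℝ := fun i => h ⟨i, true⟩ - h ⟨i, false⟩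

open Classical in
/-- The point of the realization of `LL` given by a point of the sphere (one particle). -/
noncomputable def push (h : Sph 2 → ℝ) (l : LL (Sph 2)) : ℝ := ∑ s, if LL.one s = l then h s else 0

/-- `- e_0`. -/
def me0 (R : ℕ) : (Fin 3 → ℝ) × (Fin R → ℝ) := (fun i => if i = 0 then -1 else 0, fun _ => 0)

/-- SCAN: the scanning map. -/
def Stmt_SCAN : Prop := ∀ Q : Finset (LL (Sph 2)), ∃ R₀ : ℕ, ∀ R, R₀ ≤ R →
  ∃ s : (LL (Sph 2) → ℝ) × (Fin R → Iv) → (Fin 3 → ℝ) × (Fin R → ℝ),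
    ContinuousOn s (Rz Q ×ˢ univ) ∧ (∀ z ∈ Rz Q ×ˢ univ, s z ≠ 0) ∧
    (∀ h ∈ Rz (Finset.univ : Finset (Sph 2)), push h ∈ Rz Q → ∀ (r : Fin R → Iv) (μ c : ℝ),
      0 ≤ μ → 0 < c → s (push h, r) ≠ -(μ • ((c • octa h, fun i => (r i : ℝ)) :
        (Fin 3 → ℝ) × (Fin R → ℝ)))) ∧
    ∀ g ∈ Rz Q, ∀ r : Fin R → Iv, (∃ i, |(r i : ℝ)| = 1) → s (g, r) = me0 R

/-- HEC: homotopy extension for spheres, non-antipodal form. -/
def Stmt_HEC : Prop := ∀ (N R : ℕ) (Z : Type) [TopologicalSpace Z] [CompactSpace Z]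
  [TopologicalSpace.MetrizableSpace Z] (B : Set Z) (b₀ b₁ : Z → (Fin N → ℝ) × (Fin R → ℝ)),
  IsClosed B → ContinuousOn b₀ B → Continuous b₁ → (∀ z, b₁ z ≠ 0) → (∀ z ∈ B, ‖b₀ z‖ = 1) →
  (∀ z ∈ B, ∀ μ : ℝ, 0 ≤ μ → b₁ z ≠ -(μ • b₀ z)) →
  ∃ w : Z → (Fin N → ℝ) × (Fin R → ℝ), Continuous w ∧ (∀ z, ‖w z‖ = 1) ∧ ∀ z ∈ B, w z = b₀ z

/-- STI: stable inessentiality from the extension property. -/
def Stmt_STI : Prop := ∀ (X : Type) [TopologicalSpace X] [CompactSpace X]
  [TopologicalSpace.MetrizableSpace X], (∀ k, Ext ((Fin k → Iv) × X) (SusK (LL (Sph 2)) k)) →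
  StInes X 2

/-! ### Part I, compression and iteration -/

/-- SKE: compression by downward induction over the skeleta. -/
def Stmt_SKE : Prop := ∀ (X : Type) [TopologicalSpace X] [CompactSpace X]
  [TopologicalSpace.MetrizableSpace X] (c : ℕ), StInes X c → StSkel X c

/-- ITR: the recursion for the covers of `X^n`. -/
def Stmt_ITR : Prop := ∀ (X : Type) [TopologicalSpace X] [CompactSpace X]
  [TopologicalSpace.MetrizableSpace X] (c : ℕ), StSkel X c → DBound X (c + 1)

/-- The theorem of part I. -/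
def Stmt_PARTI : Prop := ∀ (X : Type) [TopologicalSpace X] [CompactSpace X]
  [TopologicalSpace.MetrizableSpace X], Ext X (LL (Sph 2)) → DBound X 3

/-! ### Part II -/

/-- The theorem of part II (it uses part III): the compactum. -/
def Stmt_CPT : Prop := ∃ (X : Type) (_ : TopologicalSpace X) (_ : CompactSpace X)
  (_ : TopologicalSpace.MetrizableSpace X), Ext X (LL (Sph 2)) ∧ ∀ n, ¬ DimLE X n

end Pool.Agent.SH


end

section

/-!
# MP_2d0b73_an: from `DBound K c` to `mdim (K^G) ≤ c`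
-/

set_option autoImplicit false

open Set Topology Filter

namespace Pool.Agent.SH

/-- LEB: reduction of a cover of the full shift to a cover of the alphabet. -/
def Stmt_LEB : Prop := ∀ (K : Type) [TopologicalSpace K] [CompactSpace K]
  [TopologicalSpace.MetrizableSpace K] [Nonempty K] (G : Type) [Group G]
  (ρ : FullShift G K → FullShift G K → ℝ) (U : Set (Set (FullShift G K))), IsCompatMetric ρ →
  IsFCover U → ∃ (F : Finset G) (ι : Type) (_ : Finite ι) (V : ι → Set K) (τ : ℝ), 0 < τ ∧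
    (∀ i, IsOpen (V i)) ∧ (∀ k, ∃ i, k ∈ V i) ∧ ∀ c : G → ι, ∃ u ∈ U, ∀ x : FullShift G K,
      (∀ s ∈ F, ∃ y : FullShift G K, ρ y (s • x) < 2 * τ ∧ y 1 ∈ V (c s)) → x ∈ u

/-- BAD: few bad vertices. -/
def Stmt_BAD : Prop := ∀ (X G : Type) [Group G] [MulAction G X] (ρ : X → X → ℝ) (F : Finset G)
  (δ τ : ℝ) (d : ℕ) (σ : G → Equiv.Perm (Fin d)), (∀ x y, 0 ≤ ρ x y) → 0 < δ → 0 < τ →
  ∀ φ ∈ SMap ρ F δ σ,
    ({v | τ < ∑ s ∈ F, ρ (φ (σ s v)) (s • φ v)}.ncard : ℝ) ≤ F.card * δ / τ * d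

/-- MAPD: the bound for one map `σ`. -/
def Stmt_MAPD : Prop := ∀ (K : Type) [TopologicalSpace K] [CompactSpace K]
  [TopologicalSpace.MetrizableSpace K] [Nonempty K] (G : Type) [Group G]
  (ρ : FullShift G K → FullShift G K → ℝ) (U : Set (Set (FullShift G K))), IsCompatMetric ρ →
  IsFCover U → ∀ (F : Finset G) (ι : Type) [Finite ι] (V : ι → Set K) (τ : ℝ), 0 < τ →
  (∀ c : G → ι, ∃ u ∈ U, ∀ x : FullShift G K,
    (∀ s ∈ F, ∃ y : FullShift G K, ρ y (s • x) < 2 * τ ∧ y 1 ∈ V (c s)) → x ∈ u) →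
  ∀ (δ : ℝ) (d N b : ℕ) (σ : G → Equiv.Perm (Fin d)), 0 < δ →
  (∀ φ ∈ SMap ρ F δ σ, {v | τ < ∑ s ∈ F, ρ (φ (σ s v)) (s • φ v)}.ncard ≤ b) →
  (∃ (κ : Type) (_ : Finite κ) (W : κ → Set (Fin d → K)), (∀ a, IsOpen (W a)) ∧
    (∀ x, ∃ a, x ∈ W a) ∧ (∀ a, ∃ i : Fin d → ι, ∀ x ∈ W a, ∀ j, x j ∈ V (i j)) ∧
    ∀ x, {a | x ∈ W a}.ncard ≤ N) →
  DD (SMap ρ F δ σ) (powCover U d) ≤ (((N : ℝ) + b * (U.ncard + 1) : ℝ) : EReal)

/-- FIN: the upper bound for sofic mean dimension. -/
def Stmt_FIN : Prop := ∀ (K : Type) [TopologicalSpace K] [CompactSpace K]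
  [TopologicalSpace.MetrizableSpace K] [Nonempty K] (c : ℕ), DBound K c →
  ∀ (G : Type) [Group G] (S : SoficSeq G) (ρ : FullShift G K → FullShift G K → ℝ),
    IsCompatMetric ρ → mdim ρ S ≤ ((c : ℝ) : EReal)

/-- The theorem: there is an infinite-dimensional compact metrizable `K` such that the sofic mean
dimension of `K^G` is at most `3` for all countable sofic groups `G` and all sofic approximation
sequences. -/
def Stmt_MAIN : Prop := (∃ (K : Type) (_ : TopologicalSpace K) (_ : CompactSpace K)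
    (_ : TopologicalSpace.MetrizableSpace K), InfDim K ∧
    ∀ (G : Type) [Group G] (S : SoficSeq G) (ρ : FullShift G K → FullShift G K → ℝ),
      IsCompatMetric ρ → mdim ρ S ≤ ((3 : ℝ) : EReal)) ∧ ¬ Q1

end Pool.Agent.SH


end

section

/-!
# MP_2d0b73_an: LEB, reduction of a cover of the full shift to a cover of the alphabet
-/

set_option autoImplicit false

open Set Topology Filter

namespace Pool.Agent.SH

namespace LEB

/-- Basic neighbourhoods in a product of metric spaces. -/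
theorem basic {G K : Type} [MetricSpace K] (u : Set (G → K)) (hu : IsOpen u) (x : G → K)
    (hx : x ∈ u) : ∃ (F : Finset G) (e : ℝ), 0 < e ∧
      ∀ x' : G → K, (∀ s ∈ F, dist (x s) (x' s) < e) → x' ∈ u := by
  obtain ⟨I, w, hw, hI⟩ := isOpen_pi_iff.1 hu x hx
  have h1 : ∀ᶠ e in 𝓝[>] (0 : ℝ), ∀ a ∈ I, Metric.ball (x a) e ⊆ w a := by
    rw [Filter.eventually_all_finset]
    intro a ha
    obtain ⟨e, he, hb⟩ := Metric.isOpen_iff.1 (hw a ha).1 (x a) (hw a ha).2
    filter_upwards [Ioo_mem_nhdsGT he] with e' he'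
    exact (Metric.ball_subset_ball he'.2.le).trans hb
  obtain ⟨e, he, he0⟩ := (h1.and self_mem_nhdsWithin).exists
  refine ⟨I, e, he0, fun x' hx' => hI ?_⟩
  intro a ha
  refine he a ha ?_
  rw [Metric.mem_ball, dist_comm]
  exact hx' a ha

/-- Lebesgue number of a cover of a product. -/
theorem leb {G K : Type} [MetricSpace K] [CompactSpace K] (U : Set (Set (G → K)))
    (hU : ∀ u ∈ U, IsOpen u) (hc : ⋃₀ U = univ) : ∃ (F : Finset G) (e : ℝ), 0 < e ∧
      ∀ x : G → K, ∃ u ∈ U, ∀ x' : G → K, (∀ s ∈ F, dist (x s) (x' s) < e) → x' ∈ u := by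
  classical
  have h1 : ∀ x : G → K, ∃ u ∈ U, ∃ (F : Finset G) (e : ℝ), 0 < e ∧
      ∀ x' : G → K, (∀ s ∈ F, dist (x s) (x' s) < e + e) → x' ∈ u := by
    intro x
    have hx : x ∈ ⋃₀ U := by rw [hc]; exact mem_univ x
    obtain ⟨u, hu, hxu⟩ := hx
    obtain ⟨F, e, he, h⟩ := basic u (hU u hu) x hxu
    exact ⟨u, hu, F, e / 2, half_pos he, fun x' hx' => h x' (by simpa using hx')⟩
  choose u hu F e he h using h1
  have hopen : ∀ x : G → K, IsOpen {x' : G → K | ∀ s ∈ F x, dist (x s) (x' s) < e x} := by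
    intro x
    have : {x' : G → K | ∀ s ∈ F x, dist (x s) (x' s) < e x} =
        ⋂ s ∈ F x, {x' : G → K | dist (x s) (x' s) < e x} := by
      ext x'
      simp
    rw [this]
    refine isOpen_biInter_finset fun s _ => ?_
    exact isOpen_lt (continuous_const.dist (continuous_apply s)) continuous_const
  obtain ⟨t, ht⟩ := isCompact_univ.elim_finite_subcover _ hopen (fun x _ =>
    mem_iUnion.2 ⟨x, fun s _ => by simpa using he x⟩)
  have hpos : ∃ e' : ℝ, 0 < e' ∧ ∀ x ∈ t, e' ≤ e x := by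
    rcases t.eq_empty_or_nonempty with rfl | hne
    · exact ⟨1, one_pos, by simp⟩
    · obtain ⟨x, hx, hmin⟩ := t.exists_min_image e hne
      exact ⟨e x, he x, hmin⟩
  obtain ⟨e', he', hle⟩ := hpos
  refine ⟨t.biUnion F, e', he', fun x => ?_⟩
  obtain ⟨x0, hx0, hxx⟩ := mem_iUnion₂.1 (ht (mem_univ x))
  refine ⟨u x0, hu x0, fun x' hx' => h x0 x' fun s hs => ?_⟩
  calc dist (x0 s) (x' s) ≤ dist (x0 s) (x s) + dist (x s) (x' s) := dist_triangle _ _ _
    _ < e x0 + e x0 := add_lt_add (hxx s hs)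
        ((hx' s (Finset.mem_biUnion.2 ⟨x0, hx0, hs⟩)).trans_le (hle x0 hx0))

/-- Uniform continuity with respect to a compatible metric. -/
theorem unif {X K : Type} [t : TopologicalSpace X] [CompactSpace X] [MetricSpace K]
    (ρ : X → X → ℝ) (h : IsCompatMetric ρ) (f : X → K) (hf : Continuous f) (e : ℝ) (he : 0 < e) :
    ∃ τ : ℝ, 0 < τ ∧ ∀ x y, ρ x y < 2 * τ → dist (f x) (f y) < e := by
  obtain ⟨m, rfl, hρ⟩ := h
  have h1 : UniformContinuous f := CompactSpace.uniformContinuous_of_continuous hf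
  obtain ⟨δ, hδ, h2⟩ := Metric.uniformContinuous_iff.1 h1 e he
  refine ⟨δ / 2, half_pos hδ, fun x y hxy => h2 ?_⟩
  rw [← hρ]
  linarith

end LEB

theorem LEB : Stmt_LEB := by
  intro K _ _ _ _ G _ ρ U hρ hU
  let _ : MetricSpace K := TopologicalSpace.metrizableSpaceMetric K
  have : CompactSpace (FullShift G K) := inferInstanceAs (CompactSpace (G → K))
  obtain ⟨hfin, hopen, hcov⟩ := hU
  obtain ⟨F, e, he, hF⟩ := LEB.leb (G := G) (K := K) U hopen hcov
  have hev : Continuous (fun x : FullShift G K => x 1) := continuous_apply (1 : G)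
  obtain ⟨τ, hτ, hu⟩ := LEB.unif ρ hρ (fun x : FullShift G K => x 1) hev (e / 3) (by positivity)
  obtain ⟨t, -, htf, ht⟩ := Metric.finite_approx_of_totallyBounded
    (isCompact_univ (X := K)).totallyBounded (e / 7) (by positivity)
  have : Finite t := htf
  refine ⟨F, t, inferInstance, fun i => Metric.ball (i : K) (e / 7), τ, hτ,
    fun i => Metric.isOpen_ball, fun k => ?_, fun c => ?_⟩
  · obtain ⟨i, hi, hk⟩ := mem_iUnion₂.1 (ht (mem_univ k))
    exact ⟨⟨i, hi⟩, hk⟩
  · by_cases hne : ∃ x : FullShift G K, ∀ s ∈ F, ∃ y : FullShift G K, ρ y (s • x) < 2 * τ ∧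
        y 1 ∈ Metric.ball (c s : K) (e / 7)
    · obtain ⟨x, hx⟩ := hne
      obtain ⟨u, huU, hxu⟩ := hF x
      refine ⟨u, huU, fun x' hx' => hxu x' fun s hs => ?_⟩
      obtain ⟨y, hy1, hy2⟩ := hx s hs
      obtain ⟨y', hy1', hy2'⟩ := hx' s hs
      have h1 : dist (y 1) (x s) < e / 3 := by
        have := hu y (s • x) hy1
        simpa [smul_apply] using this
      have h2 : dist (y' 1) (x' s) < e / 3 := by
        have := hu y' (s • x') hy1'
        simpa [smul_apply] using this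
      rw [Metric.mem_ball] at hy2 hy2'
      have h3 : dist (x s) (x' s) ≤ dist (y 1) (x s) + dist (y 1) (c s : K) +
          dist (y' 1) (c s : K) + dist (y' 1) (x' s) := by
        have a1 := dist_triangle (x s) (y 1) (x' s)
        have a2 := dist_triangle (y 1) (c s : K) (x' s)
        have a3 := dist_triangle (c s : K) (y' 1) (x' s)
        rw [dist_comm (x s) (y 1)] at a1
        rw [dist_comm (c s : K) (y' 1)] at a3
        linarith
      linarith
    · obtain ⟨k⟩ := ‹Nonempty K›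
      have hmem : (fun _ => k : FullShift G K) ∈ ⋃₀ U := by rw [hcov]; exact mem_univ _
      obtain ⟨u, huU, -⟩ := hmem
      exact ⟨u, huU, fun x hx => absurd ⟨x, hx⟩ hne⟩

end Pool.Agent.SH


end

section

/-!
# MP_2d0b73_an: BAD, few bad vertices
-/

set_option autoImplicit false

open Set Topology Filter

namespace Pool.Agent.SH

namespace BAD

theorem sum_le_of_sqrt {d : ℕ} {δ : ℝ} (hδ : 0 < δ) (f : Fin d → ℝ)
    (h : Real.sqrt (1 / (d : ℝ) * ∑ v, f v ^ 2) ≤ δ) : ∑ v, f v ≤ d * δ := by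
  rcases Nat.eq_zero_or_pos d with rfl | hd
  · simp
  have hd' : (0 : ℝ) < d := by exact_mod_cast hd
  have h1 : 1 / (d : ℝ) * ∑ v, f v ^ 2 ≤ δ ^ 2 := (Real.sqrt_le_left hδ.le).1 h
  have h2 : ∑ v, f v ^ 2 ≤ d * δ ^ 2 := by
    have := mul_le_mul_of_nonneg_left h1 hd'.le
    calc ∑ v, f v ^ 2 = d * (1 / (d : ℝ) * ∑ v, f v ^ 2) := by field_simp
      _ ≤ d * δ ^ 2 := this
  have h3 : (∑ v, f v) ^ 2 ≤ d * ∑ v, f v ^ 2 := by
    have := sq_sum_le_card_mul_sum_sq (s := (Finset.univ : Finset (Fin d))) (f := f)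
    simpa using this
  have h4 : (∑ v, f v) ^ 2 ≤ (d * δ) ^ 2 := by
    calc (∑ v, f v) ^ 2 ≤ d * ∑ v, f v ^ 2 := h3
      _ ≤ d * (d * δ ^ 2) := mul_le_mul_of_nonneg_left h2 hd'.le
      _ = (d * δ) ^ 2 := by ring
  exact le_trans (le_abs_self _) (abs_le_of_sq_le_sq h4 (by positivity))

end BAD

theorem BAD : Stmt_BAD := by
  classical
  intro X G _ _ ρ F δ τ d σ hρ hδ hτ φ hφ
  set b : Fin d → ℝ := fun v => ∑ s ∈ F, ρ (φ (σ s v)) (s • φ v) with hb
  have hb0 (v : Fin d) : 0 ≤ b v := Finset.sum_nonneg fun s _ => hρ _ _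
  have h1 : ∑ v, b v ≤ F.card * (d * δ) := by
    rw [hb, Finset.sum_comm]
    calc ∑ s ∈ F, ∑ v, ρ (φ (σ s v)) (s • φ v) ≤ ∑ s ∈ F, (d * δ : ℝ) :=
          Finset.sum_le_sum fun s hs => BAD.sum_le_of_sqrt hδ _ (hφ s hs)
      _ = F.card * (d * δ) := by rw [Finset.sum_const, nsmul_eq_mul]
  have h2 : ({v | τ < b v}.ncard : ℝ) * τ ≤ ∑ v, b v := by
    have e : {v | τ < b v}.ncard = (Finset.univ.filter fun v => τ < b v).card := by
      rw [Set.ncard_eq_toFinset_card']
      congr 1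
      ext v
      simp
    rw [e]
    calc ((Finset.univ.filter fun v => τ < b v).card : ℝ) * τ
        = ∑ v ∈ Finset.univ.filter (fun v => τ < b v), τ := by
          rw [Finset.sum_const, nsmul_eq_mul]
      _ ≤ ∑ v ∈ Finset.univ.filter (fun v => τ < b v), b v :=
          Finset.sum_le_sum fun v hv => (Finset.mem_filter.1 hv).2.le
      _ ≤ ∑ v, b v := Finset.sum_le_sum_of_subset_of_nonneg (Finset.filter_subset _ _)
          fun v _ _ => hb0 v
  have h3 : ({v | τ < b v}.ncard : ℝ) * τ ≤ F.card * (d * δ) := h2.trans h1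
  calc ({v | τ < b v}.ncard : ℝ) ≤ F.card * (d * δ) / τ := by
        rw [le_div_iff₀ hτ]
        exact h3
    _ = F.card * δ / τ * d := by ring

end Pool.Agent.SH


end

section

/-!
# MP_2d0b73_an, part I: the recursion for the covers of `X ^ n`
-/

set_option autoImplicit false

open Set Topology

namespace Pool.Agent.SH

namespace ITR

/-- Normalisation: the greatest coordinate becomes `1`, the smallest possible value is `-1`. -/
theorem norm_exists {Z C : Type} [TopologicalSpace Z] [Fintype C] (μ : Z → C → ℝ)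
    (hc : ∀ c, Continuous fun z => μ z c) (h0 : ∀ z c, 0 ≤ μ z c) (hp : ∀ z, ∃ c, 0 < μ z c) :
    ∃ θ : Z → C → ℝ, Continuous θ ∧ (∀ z c, -1 ≤ θ z c) ∧ (∀ z c, θ z c ≤ 1) ∧
      (∀ z, ∃ c, θ z c = 1) ∧ ∀ z c, -1 < θ z c → 0 < μ z c := by
  have hs : ∀ z, 0 < ∑ c, μ z c := by
    intro z
    obtain ⟨c, hc⟩ := hp z
    exact lt_of_lt_of_le hc (Finset.single_le_sum (fun i _ => h0 z i) (Finset.mem_univ c))
  refine ⟨fun z c => 2 * min 1 (Fintype.card C * μ z c / ∑ c, μ z c) - 1, ?_, ?_, ?_, ?_, ?_⟩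
  · refine continuous_pi fun c => ?_
    refine (continuous_const.mul (continuous_const.min ?_)).sub continuous_const
    exact (continuous_const.mul (hc c)).div (continuous_finset_sum _ fun i _ => hc i)
      fun z => (hs z).ne'
  · intro z c
    have : 0 ≤ min 1 (Fintype.card C * μ z c / ∑ c, μ z c) := by
      refine le_min zero_le_one ?_
      exact div_nonneg (mul_nonneg (Nat.cast_nonneg _) (h0 z c)) (hs z).le
    show -1 ≤ 2 * min 1 (Fintype.card C * μ z c / ∑ c, μ z c) - 1
    linarith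
  · intro z c
    have : min 1 (Fintype.card C * μ z c / ∑ c, μ z c) ≤ 1 := min_le_left _ _
    show 2 * min 1 (Fintype.card C * μ z c / ∑ c, μ z c) - 1 ≤ 1
    linarith
  · intro z
    obtain ⟨c0, -⟩ := hp z
    have hne : (Finset.univ : Finset C).Nonempty := ⟨c0, Finset.mem_univ _⟩
    obtain ⟨c, -, h⟩ := Finset.exists_le_of_sum_le (s := (Finset.univ : Finset C))
      (f := fun _ => ∑ c, μ z c) (g := fun c => (Fintype.card C : ℝ) * μ z c) hne (by
        rw [Finset.sum_const, Finset.card_univ, nsmul_eq_mul, ← Finset.mul_sum])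
    refine ⟨c, ?_⟩
    have : 1 ≤ Fintype.card C * μ z c / ∑ c, μ z c := by
      rw [le_div_iff₀ (hs z), one_mul]
      exact h
    show 2 * min 1 (Fintype.card C * μ z c / ∑ c, μ z c) - 1 = 1
    rw [min_eq_left this]
    norm_num
  · intro z c h
    have h' : -1 < 2 * min 1 (Fintype.card C * μ z c / ∑ c, μ z c) - 1 := h
    by_contra hneg
    have h1 : μ z c = 0 := le_antisymm (not_lt.1 hneg) (h0 z c)
    rw [h1] at h'
    have : min 1 ((Fintype.card C : ℝ) * 0 / ∑ c, μ z c) ≤ 0 := by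
      refine (min_le_right _ _).trans ?_
      simp
    linarith

open Classical in
/-- The weight of the cell `(O, F)`. -/
noncomputable def mu {W : Type} [Fintype W] (g : W → ℝ) (O F : Finset W) : ℝ :=
  (∏ w ∈ F, ∏ u ∈ Fᶜ, max 0 (|g u| - |g w|)) * (∏ w ∈ O, max 0 (g w)) *
    ∏ w ∈ (O ∪ F)ᶜ, max 0 (-g w)

theorem mu_nonneg {W : Type} [Fintype W] (g : W → ℝ) (O F : Finset W) : 0 ≤ mu g O F := by
  classical
  unfold mu
  refine mul_nonneg (mul_nonneg ?_ ?_) ?_
  · exact Finset.prod_nonneg fun w _ => Finset.prod_nonneg fun u _ => le_max_left _ _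
  · exact Finset.prod_nonneg fun w _ => le_max_left _ _
  · exact Finset.prod_nonneg fun w _ => le_max_left _ _

theorem mu_pos_iff {W : Type} [Fintype W] (g : W → ℝ) (O F : Finset W) :
    0 < mu g O F ↔ (∀ w ∈ F, ∀ u, u ∉ F → |g w| < |g u|) ∧ (∀ w ∈ O, 0 < g w) ∧
      ∀ w, w ∉ O → w ∉ F → g w < 0 := by
  classical
  have hmax : ∀ a : ℝ, max 0 a ≠ 0 ↔ 0 < a := by
    intro a
    constructor
    · intro h
      by_contra hn
      exact h (max_eq_left (not_lt.1 hn))
    · intro h
      rw [max_eq_right h.le]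
      exact h.ne'
  rw [(mu_nonneg g O F).lt_iff_ne, ne_comm]
  unfold mu
  rw [mul_ne_zero_iff, mul_ne_zero_iff, Finset.prod_ne_zero_iff, Finset.prod_ne_zero_iff,
    Finset.prod_ne_zero_iff, and_assoc]
  refine and_congr ?_ (and_congr ?_ ?_)
  · refine forall_congr' fun w => forall_congr' fun hw => ?_
    rw [Finset.prod_ne_zero_iff]
    refine forall_congr' fun u => ?_
    rw [Finset.mem_compl, hmax, sub_pos]
  · refine forall_congr' fun w => forall_congr' fun hw => ?_
    rw [hmax]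
  · refine forall_congr' fun w => ?_
    rw [Finset.mem_compl, Finset.mem_union, hmax, not_or, and_imp, neg_pos]

theorem cells {Z S M : Type} [TopologicalSpace Z] [Fintype S] [Fintype M] (g : Z → S ⊕ M → ℝ)
    (hg : ∀ w, Continuous fun z => g z w) (hb : ∀ z w, |g z w| ≤ 1) (N : ℕ)
    (hN : ∀ z, {w | |g z w| < 1}.ncard ≤ N) (hS : ∀ z, ∃ s, g z (Sum.inl s) = 1)
    (hM : ∀ z, ∃ v, g z (Sum.inr v) = 1) :
    ∃ (C : Type) (_ : Fintype C) (τ : C → Fin (N + 1)) (θ : Z → C → ℝ), Continuous θ ∧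
      (∀ z c, -1 ≤ θ z c) ∧ (∀ z c, θ z c ≤ 1) ∧ (∀ z, ∃ c, θ z c = 1) ∧
      (∀ z c c', -1 < θ z c → -1 < θ z c' → τ c = τ c' → c = c') ∧
      ∀ c, ∃ s v, ∀ z, -1 < θ z c → 0 < g z (Sum.inl s) ∧ 0 < g z (Sum.inr v) := by
  classical
  let C := {p : Finset (S ⊕ M) × Finset (S ⊕ M) // Disjoint p.1 p.2 ∧ p.2.card < N + 1 ∧
    (∃ s, Sum.inl s ∈ p.1) ∧ ∃ v, Sum.inr v ∈ p.1}
  letI : Fintype C := Fintype.ofFinite C
  obtain ⟨θ, h1, h2, h3, h4, h5⟩ := norm_exists (Z := Z) (C := C)
    (fun z c => mu (g z) c.1.1 c.1.2) (by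
      intro c
      unfold mu
      refine (Continuous.mul ?_ ?_).mul ?_
      · refine continuous_finset_prod _ fun w _ => continuous_finset_prod _ fun u _ => ?_
        exact continuous_const.max ((hg u).abs.sub (hg w).abs)
      · exact continuous_finset_prod _ fun w _ => continuous_const.max (hg w)
      · exact continuous_finset_prod _ fun w _ => continuous_const.max (hg w).neg)
    (fun z c => mu_nonneg _ _ _) (by
      intro z
      obtain ⟨s, hs⟩ := hS z
      obtain ⟨v, hv⟩ := hM z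
      refine ⟨⟨(Finset.univ.filter (fun w => g z w = 1),
        Finset.univ.filter (fun w => |g z w| < 1)), ?_, ?_, ⟨s, by simpa using hs⟩,
        ⟨v, by simpa using hv⟩⟩, ?_⟩
      · rw [Finset.disjoint_left]
        intro w hw hw'
        simp only [Finset.mem_filter, Finset.mem_univ, true_and] at hw hw'
        rw [hw] at hw'
        norm_num at hw'
      · show (Finset.univ.filter (fun w => |g z w| < 1)).card < N + 1
        have := hN z
        rw [Set.ncard_eq_toFinset_card'] at this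
        have e : {w | |g z w| < 1}.toFinset = Finset.univ.filter (fun w => |g z w| < 1) := by
          ext w
          simp
        rw [e] at this
        omega
      · rw [mu_pos_iff]
        refine ⟨?_, ?_, ?_⟩
        · intro w hw u hu
          simp only [Finset.mem_filter, Finset.mem_univ, true_and] at hw hu
          linarith
        · intro w hw
          simp only [Finset.mem_filter, Finset.mem_univ, true_and] at hw
          rw [hw]
          exact one_pos
        · intro w hw hw'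
          simp only [Finset.mem_filter, Finset.mem_univ, true_and, not_lt] at hw hw'
          have h1 : |g z w| = 1 := le_antisymm (hb z w) hw'
          rcases eq_or_eq_neg_of_abs_eq h1 with h | h
          · exact absurd h hw
          · rw [h]
            norm_num)
  refine ⟨C, inferInstance, fun c => ⟨c.1.2.card, c.2.2.1⟩, θ, h1, h2, h3, h4, ?_, ?_⟩
  · intro z c c' hc hc' hcc
    obtain ⟨a1, a2, a3⟩ := (mu_pos_iff _ _ _).1 (h5 z c hc)
    obtain ⟨b1, b2, b3⟩ := (mu_pos_iff _ _ _).1 (h5 z c' hc')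
    have hcard : c.1.2.card = c'.1.2.card := by simpa using hcc
    have hF : c.1.2 = c'.1.2 := by
      by_contra hne
      have h6 : ¬ c.1.2 ⊆ c'.1.2 := fun h => hne (Finset.eq_of_subset_of_card_le h hcard.ge)
      have h7 : ¬ c'.1.2 ⊆ c.1.2 := fun h => hne (Finset.eq_of_subset_of_card_le h hcard.le).symm
      obtain ⟨w, hw, hw'⟩ := Finset.not_subset.1 h6
      obtain ⟨u, hu, hu'⟩ := Finset.not_subset.1 h7
      have := a1 w hw u hu'
      have := b1 u hu w hw'
      linarith
    have hO : c.1.1 = c'.1.1 := by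
      ext w
      constructor
      · intro hw
        by_contra hn
        have h8 : w ∉ c'.1.2 := by
          rw [← hF]
          exact Finset.disjoint_left.1 c.2.1 hw
        have := a2 w hw
        have := b3 w hn h8
        linarith
      · intro hw
        by_contra hn
        have h8 : w ∉ c.1.2 := by
          rw [hF]
          exact Finset.disjoint_left.1 c'.2.1 hw
        have := b2 w hw
        have := a3 w hn h8
        linarith
    exact Subtype.ext (Prod.ext hO hF)
  · intro c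
    obtain ⟨s, hs⟩ := c.2.2.2.1
    obtain ⟨v, hv⟩ := c.2.2.2.2
    refine ⟨s, v, fun z hz => ?_⟩
    obtain ⟨a1, a2, a3⟩ := (mu_pos_iff _ _ _).1 (h5 z c hz)
    exact ⟨a2 _ hs, a2 _ hv⟩

/-- The data of the recursion. -/
def Dat {X ι : Type} [TopologicalSpace X] (U : ι → Set X) (n K : ℕ) : Prop :=
  ∃ (S : Type) (_ : Fintype S) (τ : S → Fin K) (θ : (Fin n → X) → S → ℝ), Continuous θ ∧
    (∀ x s, -1 ≤ θ x s) ∧ (∀ x s, θ x s ≤ 1) ∧ (∀ x, ∃ s, θ x s = 1) ∧
    (∀ x s s', -1 < θ x s → -1 < θ x s' → τ s = τ s' → s = s') ∧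
    ∀ s, ∃ i : Fin n → ι, ∀ x, -1 < θ x s → ∀ j, x j ∈ U (i j)

theorem start {X ι : Type} [TopologicalSpace X] (U : ι → Set X) (K : ℕ) : Dat U 0 (K + 1) := by
  refine ⟨Unit, inferInstance, fun _ => 0, fun _ _ => 1, continuous_const, ?_, ?_, ?_, ?_, ?_⟩
  · intro x s
    norm_num
  · intro x s
    exact le_refl _
  · intro x
    exact ⟨(), rfl⟩
  · intro x s s' _ _ _
    rfl
  · intro s
    exact ⟨Fin.elim0, fun x _ j => j.elim0⟩

/-- Projection to the interval. -/
noncomputable def pI (a : ℝ) : Iv := Set.projIcc (-1 : ℝ) 1 (by norm_num) a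

theorem pI_cont : Continuous pI := continuous_projIcc (h := by norm_num)

theorem pI_val {a : ℝ} (h : -1 ≤ a) (h' : a ≤ 1) : (pI a : ℝ) = a := by
  unfold pI
  rw [Set.projIcc_of_mem _ ⟨h, h'⟩]

theorem step {X ι : Type} [TopologicalSpace X] (U : ι → Set X) (m c n K : ℕ) (e : Fin m → ι)
    (φ : X → Fin m → ℝ) (hφ1 : ∀ x, ∃ v, φ x v = 1) (hφ0 : ∀ x v, -1 ≤ φ x v)
    (hφU : ∀ x v, -1 < φ x v → x ∈ U (e v))
    (Φ : (Fin K → Iv) × X → (Fin K ⊕ Fin m) → ℝ) (hΦ : Continuous Φ) (hΦ1 : ∀ z j, |Φ z j| ≤ 1)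
    (hf1 : ∀ (q : Fin K → Iv) (x : X) (j : Fin K), |(q j : ℝ)| = 1 → Φ (q, x) (Sum.inl j) = q j)
    (hf2 : ∀ (q : Fin K → Iv) (x : X) (v : Fin m), |φ x v| = 1 → Φ (q, x) (Sum.inr v) = φ x v)
    (hcard : ∀ z, {j | |Φ z j| < 1}.ncard ≤ K + c) (h : Dat U n K) :
    Dat U (n + 1) (K + c + 1) := by
  classical
  obtain ⟨S, fS, τ, θ, h1, h2, h3, h4, h5, h6⟩ := h
  -- the projection of the old data to the cube of types
  let zz : (Fin n → X) → Fin K → Iv := fun x t =>
    pI (-1 + ∑ s, if τ s = t then θ x s + 1 else 0)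
  let zs : (Fin n → X) → S → Fin K → Iv := fun x s => Function.update (zz x) (τ s) (pI (θ x s))
  have hzz : Continuous zz := by
    refine continuous_pi fun t => pI_cont.comp ?_
    refine continuous_const.add (continuous_finset_sum _ fun s _ => ?_)
    by_cases hs : τ s = t
    · simp only [hs, if_true]
      exact ((continuous_apply s).comp h1).add continuous_const
    · simp only [hs, if_false]
      exact continuous_const
  have hzs : ∀ s, Continuous fun x => zs x s := by
    intro s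
    exact hzz.update (τ s) (pI_cont.comp ((continuous_apply s).comp h1))
  have hzeq : ∀ x s, -1 < θ x s → zs x s = zz x := by
    intro x s hs
    have hsum : (∑ s', if τ s' = τ s then θ x s' + 1 else 0) = θ x s + 1 := by
      rw [Finset.sum_eq_single s]
      · simp
      · intro s' _ hne
        by_cases ht : τ s' = τ s
        · rw [if_pos ht]
          by_contra hn
          have : -1 < θ x s' := by
            rcases lt_or_eq_of_le (h2 x s') with h | h
            · exact h
            · exact absurd (by rw [← h]; ring) hn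
          exact hne (h5 x s' s this hs ht)
        · rw [if_neg ht]
      · intro hn
        exact absurd (Finset.mem_univ s) hn
    have : zz x (τ s) = pI (θ x s) := by
      show pI (-1 + ∑ s', if τ s' = τ s then θ x s' + 1 else 0) = _
      rw [hsum]
      congr 1
      ring
    show Function.update (zz x) (τ s) (pI (θ x s)) = zz x
    rw [← this, Function.update_eq_self]
  have hzval : ∀ x s, ((zs x s (τ s) : Iv) : ℝ) = θ x s := by
    intro x s
    show ((Function.update (zz x) (τ s) (pI (θ x s)) (τ s) : Iv) : ℝ) = θ x s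
    rw [Function.update_self, pI_val (h2 x s) (h3 x s)]
  let g : (Fin (n + 1) → X) → S ⊕ Fin m → ℝ := fun x w => match w with
    | Sum.inl s => Φ (zs (Fin.init x) s, x (Fin.last n)) (Sum.inl (τ s))
    | Sum.inr v => Φ (zz (Fin.init x), x (Fin.last n)) (Sum.inr v)
  have hinit : Continuous (fun x : Fin (n + 1) → X => (Fin.init x : Fin n → X)) := by
    refine continuous_pi fun j => ?_
    exact continuous_apply (Fin.castSucc j)
  have hg : ∀ w, Continuous fun z => g z w := by
    intro w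
    cases w with
    | inl s =>
      exact (continuous_apply _).comp (hΦ.comp (((hzs s).comp hinit).prodMk
        (continuous_apply (Fin.last n))))
    | inr v =>
      exact (continuous_apply _).comp (hΦ.comp ((hzz.comp hinit).prodMk
        (continuous_apply (Fin.last n))))
  have hgl : ∀ x s, g x (Sum.inl s) = Φ (zs (Fin.init x) s, x (Fin.last n)) (Sum.inl (τ s)) :=
    fun _ _ => rfl
  have hgr : ∀ x v, g x (Sum.inr v) = Φ (zz (Fin.init x), x (Fin.last n)) (Sum.inr v) :=
    fun _ _ => rfl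
  have hlow : ∀ x s, θ (Fin.init x) s = -1 → g x (Sum.inl s) = -1 := by
    intro x s hs
    rw [hgl, hf1 _ _ _ (by rw [hzval, hs]; norm_num), hzval, hs]
  have hlow' : ∀ x v, φ (x (Fin.last n)) v = -1 → g x (Sum.inr v) = -1 := by
    intro x v hv
    rw [hgr, hf2 _ _ _ (by rw [hv]; norm_num), hv]
  obtain ⟨C, fC, τ', θ', k1, k2, k3, k4, k5, k6⟩ := cells g hg (by
      intro z w
      cases w with
      | inl s => exact hΦ1 _ _
      | inr v => exact hΦ1 _ _) (K + c) (by
      intro x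
      refine le_trans ?_ (hcard (zz (Fin.init x), x (Fin.last n)))
      have key : ∀ s, |g x (Sum.inl s)| < 1 → -1 < θ (Fin.init x) s ∧
          g x (Sum.inl s) = Φ (zz (Fin.init x), x (Fin.last n)) (Sum.inl (τ s)) := by
        intro s hs
        have a : -1 < θ (Fin.init x) s := by
          rcases lt_or_eq_of_le (h2 (Fin.init x) s) with h | h
          · exact h
          · rw [hlow x s h.symm] at hs
            norm_num at hs
        refine ⟨a, ?_⟩
        rw [hgl, hzeq _ _ a]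
      refine Set.ncard_le_ncard_of_injOn (fun w => match w with
        | Sum.inl s => Sum.inl (τ s)
        | Sum.inr v => Sum.inr v) ?_ ?_ (Set.toFinite _)
      · intro w hw
        cases w with
        | inl s =>
          have hw' : |g x (Sum.inl s)| < 1 := hw
          have := (key s hw').2
          show |Φ (zz (Fin.init x), x (Fin.last n)) (Sum.inl (τ s))| < 1
          rw [← this]
          exact hw'
        | inr v => exact hw
      · intro w hw w' hw' hww
        cases w with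
        | inl s =>
          cases w' with
          | inl s' =>
            have h7 : (Sum.inl (τ s) : Fin K ⊕ Fin m) = Sum.inl (τ s') := hww
            have h8 : τ s = τ s' := Sum.inl_injective h7
            rw [h5 _ s s' (key s hw).1 (key s' hw').1 h8]
          | inr v' =>
            have h7 : (Sum.inl (τ s) : Fin K ⊕ Fin m) = Sum.inr v' := hww
            exact absurd h7 (by simp)
        | inr v =>
          cases w' with
          | inl s' =>
            have h7 : (Sum.inr v : Fin K ⊕ Fin m) = Sum.inl (τ s') := hww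
            exact absurd h7 (by simp)
          | inr v' =>
            have h7 : (Sum.inr v : Fin K ⊕ Fin m) = Sum.inr v' := hww
            rw [Sum.inr_injective h7]) (by
      intro x
      obtain ⟨s, hs⟩ := h4 (Fin.init x)
      refine ⟨s, ?_⟩
      rw [hgl, hf1 _ _ _ (by rw [hzval, hs]; norm_num), hzval, hs]) (by
      intro x
      obtain ⟨v, hv⟩ := hφ1 (x (Fin.last n))
      refine ⟨v, ?_⟩
      rw [hgr, hf2 _ _ _ (by rw [hv]; norm_num), hv])
  refine ⟨C, fC, τ', θ', k1, k2, k3, k4, k5, ?_⟩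
  intro c'
  obtain ⟨s, v, hsv⟩ := k6 c'
  obtain ⟨i, hi⟩ := h6 s
  refine ⟨Fin.snoc (α := fun _ => ι) i (e v), ?_⟩
  intro x hx j
  obtain ⟨q1, q2⟩ := hsv x hx
  have r1 : -1 < θ (Fin.init x) s := by
    rcases lt_or_eq_of_le (h2 (Fin.init x) s) with h | h
    · exact h
    · rw [hlow x s h.symm] at q1
      norm_num at q1
  have r2 : -1 < φ (x (Fin.last n)) v := by
    rcases lt_or_eq_of_le (hφ0 (x (Fin.last n)) v) with h | h
    · exact h
    · rw [hlow' x v h.symm] at q2
      norm_num at q2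
  refine Fin.lastCases ?_ (fun j => ?_) j
  · rw [Fin.snoc_last]
    exact hφU _ _ r2
  · rw [Fin.snoc_castSucc]
    exact hi (Fin.init x) r1 j

theorem bump {X : Type} [TopologicalSpace X] [TopologicalSpace.MetrizableSpace X] (V : Set X)
    (hV : IsOpen V) : ∃ f : X → ℝ, Continuous f ∧ (∀ x, 0 ≤ f x) ∧ ∀ x, 0 < f x ↔ x ∈ V := by
  letI : MetricSpace X := TopologicalSpace.metrizableSpaceMetric X
  by_cases h : (Vᶜ).Nonempty
  · refine ⟨fun x => Metric.infDist x Vᶜ, Metric.continuous_infDist_pt _,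
      fun x => Metric.infDist_nonneg, fun x => ?_⟩
    rw [← hV.isClosed_compl.notMem_iff_infDist_pos h]
    simp
  · have : V = univ := by
      rw [Set.not_nonempty_iff_eq_empty, Set.compl_empty_iff] at h
      exact h
    refine ⟨fun _ => 1, continuous_const, fun _ => zero_le_one, fun x => ?_⟩
    simp [this]

end ITR

open ITR in
theorem ITR : Stmt_ITR := by
  intro X _ _ _ c hX ι _ U hU hcov
  classical
  obtain ⟨m, ⟨e⟩⟩ := Finite.exists_equiv_fin ι
  choose f hf1 hf2 hf3 using fun v : Fin m => bump (U (e.symm v)) (hU (e.symm v))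
  obtain ⟨φ, p1, p2, p3, p4, p5⟩ := norm_exists (Z := X) (C := Fin m) (fun x v => f v x)
    (fun v => hf1 v) (fun x v => hf2 v x) (by
      intro x
      obtain ⟨i, hi⟩ := hcov x
      refine ⟨e i, ?_⟩
      rw [hf3]
      simpa using hi)
  obtain ⟨k₀, hk⟩ := hX m φ p1 (fun x v => abs_le.2 ⟨p2 x v, p3 x v⟩)
  have main : ∀ n : ℕ, Dat U n (k₀ + 1 + (c + 1) * n) := by
    intro n
    induction n with
    | zero => exact start U k₀
    | succ n ih =>
      obtain ⟨Φ, a1, a2, a3, a4, a5⟩ := hk (k₀ + 1 + (c + 1) * n) (by omega)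
      have := step U m c n _ (fun v => e.symm v) φ p4 p2 (fun x v hv => (hf3 v x).1 (p5 x v hv))
        Φ a1 a2 a3 a4 a5 ih
      have e1 : k₀ + 1 + (c + 1) * n + c + 1 = k₀ + 1 + (c + 1) * (n + 1) := by ring
      rwa [e1] at this
  refine ⟨k₀ + 1, fun n => ?_⟩
  obtain ⟨S, fS, τ, θ, h1, h2, h3, h4, h5, h6⟩ := main n
  refine ⟨S, inferInstance, fun s => {x | -1 < θ x s}, ?_, ?_, ?_, ?_⟩
  · intro s
    exact isOpen_lt continuous_const ((continuous_apply s).comp h1)
  · intro x
    obtain ⟨s, hs⟩ := h4 x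
    refine ⟨s, ?_⟩
    show -1 < θ x s
    rw [hs]
    norm_num
  · intro s
    obtain ⟨i, hi⟩ := h6 s
    exact ⟨i, fun x hx => hi x hx⟩
  · intro x
    have : {a | x ∈ {x | -1 < θ x a}}.ncard ≤ (univ : Set (Fin (k₀ + 1 + (c + 1) * n))).ncard := by
      refine Set.ncard_le_ncard_of_injOn τ (fun _ _ => mem_univ _) ?_ (Set.toFinite _)
      intro s hs s' hs' hss
      exact h5 x s s' hs hs' hss
    rwa [Set.ncard_univ, Nat.card_eq_fintype_card, Fintype.card_fin] at this

end Pool.Agent.SH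


end

section

/-!
# Realizations of finite posets are neighbourhood retracts
-/

set_option autoImplicit false

open Set Topology

namespace Pool.Agent.SH

open Classical in
/-- The maximum over incomparable pairs of the smaller coordinate. -/
noncomputable def mmx {P : Type} [PartialOrder P] (Q : Finset P) (p : P → ℝ) : NNReal :=
  (Q ×ˢ Q).sup fun ab => if ab.1 ≤ ab.2 ∨ ab.2 ≤ ab.1 then 0 else Real.toNNReal (min (p ab.1) (p ab.2))

theorem continuous_mmx {P : Type} [PartialOrder P] (Q : Finset P) :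
    Continuous (mmx Q) := by
  classical
  unfold mmx
  refine Continuous.finset_sup_apply ?_
  intro ab _
  by_cases h : ab.1 ≤ ab.2 ∨ ab.2 ≤ ab.1
  · simp only [h, if_true]
    exact continuous_const
  · simp only [h, if_false]
    exact continuous_real_toNNReal.comp ((continuous_apply _).min (continuous_apply _))

theorem min_le_mmx {P : Type} [PartialOrder P] {Q : Finset P} {p : P → ℝ} {a b : P} (ha : a ∈ Q)
    (hb : b ∈ Q) (h : ¬ (a ≤ b ∨ b ≤ a)) : min (p a) (p b) ≤ mmx Q p := by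
  classical
  have h1 : Real.toNNReal (min (p a) (p b)) ≤ mmx Q p := by
    unfold mmx
    have := Finset.le_sup (f := fun ab : P × P => if ab.1 ≤ ab.2 ∨ ab.2 ≤ ab.1 then 0 else
      Real.toNNReal (min (p ab.1) (p ab.2))) (b := (a, b)) (Finset.mk_mem_product ha hb)
    simpa only [h, if_false] using this
  exact (Real.le_coe_toNNReal _).trans (NNReal.coe_le_coe.2 h1)

theorem mmx_lt {P : Type} [PartialOrder P] {Q : Finset P} {p : P → ℝ} {ε : ℝ} (hε : 0 < ε)
    (h : ∀ a ∈ Q, ∀ b ∈ Q, ¬ (a ≤ b ∨ b ≤ a) → min (p a) (p b) < ε) : (mmx Q p : ℝ) < ε := by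
  classical
  have h1 : mmx Q p < Real.toNNReal ε := by
    unfold mmx
    rw [Finset.sup_lt_iff (by simpa using hε)]
    rintro ⟨a, b⟩ hab
    rw [Finset.mem_product] at hab
    by_cases hc : a ≤ b ∨ b ≤ a
    · simp only [hc, if_true]
      simpa using hε
    · simp only [hc, if_false]
      exact (Real.toNNReal_lt_toNNReal_iff hε).2 (h a hab.1 b hab.2 hc)
  have := NNReal.coe_lt_coe.2 h1
  rwa [Real.coe_toNNReal _ hε.le] at this

theorem mmx_eq_zero {P : Type} [PartialOrder P] {Q : Finset P} {p : P → ℝ} (h : p ∈ Rz Q) :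
    mmx Q p = 0 := by
  have : ∀ ε : ℝ, 0 < ε → (mmx Q p : ℝ) < ε := by
    intro ε hε
    refine mmx_lt hε ?_
    intro a _ b _ hab
    obtain ⟨h0, _, _, hc⟩ := h
    by_cases ha : p a = 0
    · exact lt_of_le_of_lt (min_le_left _ _) (ha ▸ hε)
    · by_cases hb : p b = 0
      · exact lt_of_le_of_lt (min_le_right _ _) (hb ▸ hε)
      · exact absurd (hc a b ha hb) hab
  by_contra hne
  have hpos : (0 : ℝ) < mmx Q p := lt_of_le_of_ne NNReal.zero_le_coe
    (fun h => hne (NNReal.coe_eq_zero.1 h.symm))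
  exact lt_irrefl _ (this _ hpos)

/-- The sum of the truncated coordinates. -/
noncomputable def ssx {P : Type} [PartialOrder P] (Q : Finset P) (p : P → ℝ) : ℝ :=
  ∑ b ∈ Q, max (p b - mmx Q p) 0

theorem continuous_ssx {P : Type} [PartialOrder P] (Q : Finset P) :
    Continuous (ssx Q) := by
  unfold ssx
  refine continuous_finsetSum _ ?_
  intro b _
  exact ((continuous_apply b).sub (NNReal.continuous_coe.comp (continuous_mmx Q))).max
    continuous_const

open Classical in
/-- The retraction. -/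
noncomputable def rrx {P : Type} [PartialOrder P] (Q : Finset P) (p : P → ℝ) (a : P) : ℝ :=
  if a ∈ Q then max (p a - mmx Q p) 0 / ssx Q p else 0

theorem ssx_close {P : Type} [PartialOrder P] {Q : Finset P} {p p' : P → ℝ} {η : ℝ} (hη : 0 < η)
    (hp' : p' ∈ Rz Q) (h : ∀ a ∈ Q, |p a - p' a| < η) : (mmx Q p : ℝ) < η ∧
    (∀ a ∈ Q, |max (p a - mmx Q p) 0 - p' a| ≤ 2 * η) ∧ |ssx Q p - 1| ≤ Q.card * (2 * η) := by
  have h1 : (mmx Q p : ℝ) < η := by
    refine mmx_lt hη ?_
    intro a ha b hb hab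
    by_cases ha' : p' a = 0
    · have := h a ha
      rw [ha', sub_zero] at this
      exact lt_of_le_of_lt (min_le_left _ _) (abs_lt.1 this).2
    · by_cases hb' : p' b = 0
      · have := h b hb
        rw [hb', sub_zero] at this
        exact lt_of_le_of_lt (min_le_right _ _) (abs_lt.1 this).2
      · exact absurd (hp'.2.2.2 a b ha' hb') hab
  have h2 : ∀ a ∈ Q, |max (p a - mmx Q p) 0 - p' a| ≤ 2 * η := by
    intro a ha
    have h3 := abs_lt.1 (h a ha)
    have h4 : (0 : ℝ) ≤ mmx Q p := NNReal.zero_le_coe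
    have h5 := hp'.1 a
    rw [abs_le]
    constructor
    · have := le_max_left (p a - mmx Q p) 0
      linarith
    · have : max (p a - mmx Q p) 0 ≤ p' a + 2 * η := max_le (by linarith) (by linarith)
      linarith
  refine ⟨h1, h2, ?_⟩
  have h3 : ssx Q p - 1 = ∑ b ∈ Q, (max (p b - mmx Q p) 0 - p' b) := by
    unfold ssx
    rw [Finset.sum_sub_distrib, hp'.2.2.1]
  rw [h3]
  refine (Finset.abs_sum_le_sum_abs _ _).trans ?_
  refine (Finset.sum_le_card_nsmul _ _ (2 * η) h2).trans ?_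
  rw [nsmul_eq_mul]

theorem RET : Stmt_RET := by
  intro P _ Q
  classical
  have hq : (0 : ℝ) < (Q.card : ℝ) + 1 := by positivity
  refine ⟨1 / (4 * (Q.card + 1)), by positivity, rrx Q, ?_, ?_, ?_, ?_⟩
  · have hS : ∀ p ∈ NB Q (1 / (4 * ((Q.card : ℝ) + 1))), ssx Q p ≠ 0 := by
      rintro p ⟨p', hp', h⟩
      have := (ssx_close (by positivity) hp' h).2.2
      have h2 : (Q.card : ℝ) * (2 * (1 / (4 * ((Q.card : ℝ) + 1)))) ≤ 1 / 2 := by
        rw [show (Q.card : ℝ) * (2 * (1 / (4 * ((Q.card : ℝ) + 1)))) =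
          (Q.card : ℝ) / (2 * ((Q.card : ℝ) + 1)) by field_simp; ring]
        rw [div_le_div_iff₀ (by positivity) (by norm_num)]
        linarith
      have h3 := abs_le.1 this
      intro h0
      rw [h0] at h3
      linarith [h3.1]
    rw [continuousOn_pi]
    intro a
    unfold rrx
    by_cases ha : a ∈ Q
    · simp only [ha, if_true]
      refine ContinuousOn.div ?_ (continuous_ssx Q).continuousOn hS
      exact (((continuous_apply a).sub (NNReal.continuous_coe.comp (continuous_mmx Q))).max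
        continuous_const).continuousOn
    · simp only [ha, if_false]
      exact continuousOn_const
  · rintro p ⟨p', hp', h⟩
    have h1 := (ssx_close (by positivity) hp' h).2.2
    have h2 : (Q.card : ℝ) * (2 * (1 / (4 * ((Q.card : ℝ) + 1)))) ≤ 1 / 2 := by
      rw [show (Q.card : ℝ) * (2 * (1 / (4 * ((Q.card : ℝ) + 1)))) =
        (Q.card : ℝ) / (2 * ((Q.card : ℝ) + 1)) by field_simp; ring]
      rw [div_le_div_iff₀ (by positivity) (by norm_num)]
      linarith
    have h3 := abs_le.1 h1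
    have hS : 0 < ssx Q p := by linarith [h3.1]
    refine ⟨?_, ?_, ?_, ?_⟩
    · intro a
      unfold rrx
      split_ifs
      · exact div_nonneg (le_max_right _ _) hS.le
      · exact le_refl _
    · intro a ha
      unfold rrx
      rw [if_neg ha]
    · have : ∑ a ∈ Q, rrx Q p a = ∑ a ∈ Q, max (p a - mmx Q p) 0 / ssx Q p :=
        Finset.sum_congr rfl fun a ha => by unfold rrx; rw [if_pos ha]
      rw [this, ← Finset.sum_div]
      exact div_self hS.ne'
    · intro a b ha hb
      have key : ∀ a, rrx Q p a ≠ 0 → a ∈ Q ∧ (mmx Q p : ℝ) < p a := by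
        intro a ha
        unfold rrx at ha
        split_ifs at ha with haQ
        · refine ⟨haQ, ?_⟩
          by_contra hle
          apply ha
          rw [max_eq_right (by linarith), zero_div]
        · exact absurd rfl ha
      by_contra hab
      have := min_le_mmx (p := p) (key a ha).1 (key b hb).1 hab
      exact absurd (lt_min (key a ha).2 (key b hb).2) (not_lt.2 this)
  · intro p hp
    have h0 := mmx_eq_zero hp
    have hS : ssx Q p = 1 := by
      unfold ssx
      rw [h0]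
      rw [← hp.2.2.1]
      refine Finset.sum_congr rfl fun b _ => ?_
      rw [NNReal.coe_zero, sub_zero, max_eq_left (hp.1 b)]
    ext a
    unfold rrx
    split_ifs with ha
    · rw [hS, h0, NNReal.coe_zero, sub_zero, max_eq_left (hp.1 a), div_one]
    · exact (hp.2.1 a ha).symm
  · intro δ hδ
    refine ⟨min (1 / (4 * ((Q.card : ℝ) + 1))) (δ / (8 * ((Q.card : ℝ) + 1))),
      lt_min (by positivity) (by positivity), min_le_left _ _, ?_⟩
    intro p p' hp' h a ha
    set η := min (1 / (4 * ((Q.card : ℝ) + 1))) (δ / (8 * ((Q.card : ℝ) + 1))) with hη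
    have hη0 : 0 < η := lt_min (by positivity) (by positivity)
    obtain ⟨_, h2, h3⟩ := ssx_close hη0 hp' h
    have e1 : η * (4 * ((Q.card : ℝ) + 1)) ≤ 1 := by
      have := min_le_left (1 / (4 * ((Q.card : ℝ) + 1))) (δ / (8 * ((Q.card : ℝ) + 1)))
      rw [← hη] at this
      calc η * (4 * ((Q.card : ℝ) + 1)) ≤ 1 / (4 * ((Q.card : ℝ) + 1)) * (4 * ((Q.card : ℝ) + 1)) :=
            mul_le_mul_of_nonneg_right this (by positivity)
        _ = 1 := by field_simp
    have e2 : η * (8 * ((Q.card : ℝ) + 1)) ≤ δ := by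
      have := min_le_right (1 / (4 * ((Q.card : ℝ) + 1))) (δ / (8 * ((Q.card : ℝ) + 1)))
      rw [← hη] at this
      calc η * (8 * ((Q.card : ℝ) + 1)) ≤ δ / (8 * ((Q.card : ℝ) + 1)) * (8 * ((Q.card : ℝ) + 1)) :=
            mul_le_mul_of_nonneg_right this (by positivity)
        _ = δ := by field_simp
    have e3 := abs_le.1 h3
    have hS : 1 / 2 ≤ ssx Q p := by nlinarith [e3.1]
    have hS0 : 0 < ssx Q p := by linarith
    have e4 := h2 a ha
    have e5 : p' a ≤ 1 := by
      rw [← hp'.2.2.1]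
      exact Finset.single_le_sum (fun i _ => hp'.1 i) ha
    have e6 := hp'.1 a
    have e7 : rrx Q p a - p' a = (max (p a - mmx Q p) 0 - p' a * ssx Q p) / ssx Q p := by
      unfold rrx
      rw [if_pos ha]
      field_simp
    rw [e7, abs_div, abs_of_pos hS0, div_lt_iff₀ hS0]
    have e8 : max (p a - mmx Q p) 0 - p' a * ssx Q p =
      (max (p a - mmx Q p) 0 - p' a) - p' a * (ssx Q p - 1) := by ring
    rw [e8]
    have e9 : |(max (p a - mmx Q p) 0 - p' a) - p' a * (ssx Q p - 1)| ≤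
        2 * η + Q.card * (2 * η) := by
      refine (abs_sub _ _).trans ?_
      rw [abs_mul, abs_of_nonneg e6]
      have := mul_le_mul e5 h3 (abs_nonneg _) zero_le_one
      linarith
    have e10 : 2 * η + (Q.card : ℝ) * (2 * η) < δ * ssx Q p := by
      have : δ * (1 / 2) ≤ δ * ssx Q p := mul_le_mul_of_nonneg_left hS hδ.le
      have : 2 * η + (Q.card : ℝ) * (2 * η) = (η * (8 * ((Q.card : ℝ) + 1))) / 4 := by ring
      linarith
    linarith

end Pool.Agent.SH


end

section

/-!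
# Topological tools (Tietze, Urysohn, tube lemma, gluing)
-/

set_option autoImplicit false

open Set Topology

namespace Pool.Agent.SH

theorem tietze {Z V : Type} [TopologicalSpace Z] [NormalSpace Z] {C : Set Z} (hC : IsClosed C)
    {f : Z → V → ℝ} (hf : ContinuousOn f C) : ∃ F : Z → V → ℝ, Continuous F ∧ ∀ z ∈ C, F z = f z := by
  obtain ⟨F, hF⟩ := ContinuousMap.exists_restrict_eq hC
    (⟨C.domRestrict f, continuousOn_iff_continuous_domRestrict.1 hf⟩ : C(C, V → ℝ))
  refine ⟨F, F.continuous, ?_⟩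
  intro z hz
  exact DFunLike.congr_fun hF ⟨z, hz⟩

theorem tietzeR {Z : Type} [TopologicalSpace Z] [NormalSpace Z] {C : Set Z} (hC : IsClosed C)
    {f : Z → ℝ} (hf : ContinuousOn f C) : ∃ F : Z → ℝ, Continuous F ∧ ∀ z ∈ C, F z = f z := by
  obtain ⟨F, hF⟩ := ContinuousMap.exists_restrict_eq hC
    (⟨C.domRestrict f, continuousOn_iff_continuous_domRestrict.1 hf⟩ : C(C, ℝ))
  refine ⟨F, F.continuous, ?_⟩
  intro z hz
  exact DFunLike.congr_fun hF ⟨z, hz⟩

/-- The union of finitely many closed sets: gluing. -/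
theorem glue {Z Y ι : Type} [TopologicalSpace Z] [TopologicalSpace Y] [Finite ι]
    (F : ι → Set Z) (hF : ∀ i, IsClosed (F i)) (f : ι → Z → Y) (hf : ∀ i, ContinuousOn (f i) (F i))
    (g : Z → Y)
    (hg : ∀ i, ∀ z ∈ F i, g z = f i z) : ContinuousOn g (⋃ i, F i) := by
  refine LocallyFinite.continuousOn_iUnion (locallyFinite_of_finite F) hF ?_
  intro i
  exact (hf i).congr (hg i)

theorem glue_exists {Z Y ι : Type} [TopologicalSpace Z] [TopologicalSpace Y] [Finite ι] [Nonempty Y]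
    (F : ι → Set Z) (hF : ∀ i, IsClosed (F i)) (f : ι → Z → Y) (hf : ∀ i, ContinuousOn (f i) (F i))
    (hfij : ∀ i j, ∀ z ∈ F i, z ∈ F j → f i z = f j z) :
    ∃ g : Z → Y, (∀ i, ∀ z ∈ F i, g z = f i z) ∧ ContinuousOn g (⋃ i, F i) := by
  classical
  have : ∀ z, ∃ y : Y, ∀ i, z ∈ F i → y = f i z := by
    intro z
    by_cases h : ∃ i, z ∈ F i
    · obtain ⟨i, hi⟩ := h
      exact ⟨f i z, fun j hj => hfij i j z hi hj⟩
    · exact ⟨Classical.arbitrary Y, fun i hi => absurd ⟨i, hi⟩ h⟩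
  choose g hg using this
  exact ⟨g, fun i z hz => hg z i hz, glue F hF f hf g fun i z hz => hg z i hz⟩

/-- Gluing on two closed sets. -/
theorem glue2 {Z Y : Type} [TopologicalSpace Z] [TopologicalSpace Y] {A B : Set Z}
    (hA : IsClosed A) (hB : IsClosed B) {f g h : Z → Y} (hf : ContinuousOn f A)
    (hg : ContinuousOn g B) (h1 : ∀ z ∈ A, h z = f z) (h2 : ∀ z ∈ B, h z = g z) :
    ContinuousOn h (A ∪ B) :=
  (hf.congr h1).union_of_isClosed (hg.congr h2) hA hB

theorem isOpen_NB {P : Type} [PartialOrder P] (Q : Finset P) (ε : ℝ) : IsOpen (NB Q ε) := by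
  have : NB Q ε = ⋃ p' ∈ Rz Q, ⋂ a ∈ Q, {p : P → ℝ | |p a - p' a| < ε} := by
    ext p
    simp [NB]
  rw [this]
  refine isOpen_biUnion fun p' _ => ?_
  refine isOpen_biInter_finset fun a _ => ?_
  exact isOpen_lt ((continuous_apply a).sub continuous_const).abs continuous_const

theorem Rz_subset_NB {P : Type} [PartialOrder P] (Q : Finset P) {ε : ℝ} (hε : 0 < ε) :
    Rz Q ⊆ NB Q ε := by
  intro p hp
  exact ⟨p, hp, fun a _ => by rw [sub_self, abs_zero]; exact hε⟩

theorem isClosed_Rz {P : Type} [PartialOrder P] (Q : Finset P) : IsClosed (Rz Q) := by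
  have : Rz Q = {p : P → ℝ | ∀ a, 0 ≤ p a} ∩ {p | ∀ a, a ∉ Q → p a = 0} ∩
      {p | ∑ a ∈ Q, p a = 1} ∩ {p | ∀ a b, ¬ (a ≤ b ∨ b ≤ a) → p a = 0 ∨ p b = 0} := by
    ext p
    constructor
    · rintro ⟨h1, h2, h3, h4⟩
      refine ⟨⟨⟨h1, h2⟩, h3⟩, fun a b hab => ?_⟩
      by_contra hn
      rw [not_or] at hn
      exact hab (h4 a b hn.1 hn.2)
    · rintro ⟨⟨⟨h1, h2⟩, h3⟩, h4⟩
      refine ⟨h1, h2, h3, fun a b ha hb => ?_⟩
      by_contra hab
      rcases h4 a b hab with h | h
      · exact ha h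
      · exact hb h
  rw [this]
  refine IsClosed.inter (IsClosed.inter (IsClosed.inter ?_ ?_) ?_) ?_
  · simp only [Set.ofPred_forall]
    exact isClosed_iInter fun a => isClosed_le continuous_const (continuous_apply a)
  · simp only [Set.ofPred_forall]
    exact isClosed_iInter fun a => isClosed_iInter fun _ =>
      isClosed_eq (continuous_apply a) continuous_const
  · exact isClosed_eq (continuous_finsetSum _ fun a _ => continuous_apply a) continuous_const
  · simp only [Set.ofPred_forall]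
    refine isClosed_iInter fun a => isClosed_iInter fun b => isClosed_iInter fun _ => ?_
    rw [Set.ofPred_or]
    exact (isClosed_eq (continuous_apply a) continuous_const).union
      (isClosed_eq (continuous_apply b) continuous_const)

theorem Rz_le_one {P : Type} [PartialOrder P] {Q : Finset P} {p : P → ℝ} (hp : p ∈ Rz Q) (a : P) :
    p a ≤ 1 := by
  classical
  by_cases ha : a ∈ Q
  · rw [← hp.2.2.1]
    exact Finset.single_le_sum (fun i _ => hp.1 i) ha
  · rw [hp.2.1 a ha]
    exact zero_le_one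

theorem Rz_mono {P : Type} [PartialOrder P] {Q Q' : Finset P} (h : Q ⊆ Q') : Rz Q ⊆ Rz Q' := by
  rintro p ⟨h1, h2, h3, h4⟩
  refine ⟨h1, fun a ha => h2 a fun ha' => ha (h ha'), ?_, h4⟩
  rw [← h3]
  exact (Finset.sum_subset h fun a _ ha => h2 a ha).symm

theorem isCompact_Rz {P : Type} [PartialOrder P] (Q : Finset P) : IsCompact (Rz Q) := by
  have h : Rz Q ⊆ Set.pi univ fun _ : P => Set.Icc (0 : ℝ) 1 := by
    intro p hp a _
    exact ⟨hp.1 a, Rz_le_one hp a⟩
  exact (isCompact_univ_pi fun _ => isCompact_Icc).of_isClosed_subset (isClosed_Rz Q) h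

/-- Tube lemma in the form used for homotopy extension. -/
theorem tube {Z T Y : Type} [TopologicalSpace Z] [TopologicalSpace T] [CompactSpace T]
    [TopologicalSpace Y] {F : Z × T → Y} (hF : Continuous F) {O : Set Y} (hO : IsOpen O) :
    IsOpen {z : Z | ∀ t, F (z, t) ∈ O} := by
  have h1 : IsClosed (Prod.fst '' (F ⁻¹' Oᶜ) : Set Z) :=
    isClosedMap_fst_of_compactSpace _ (hO.isClosed_compl.preimage hF)
  have h2 : {z : Z | ∀ t, F (z, t) ∈ O} = (Prod.fst '' (F ⁻¹' Oᶜ) : Set Z)ᶜ := by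
    ext z
    constructor
    · rintro h ⟨⟨z', t⟩, h3, rfl⟩
      exact h3 (h t)
    · intro h t
      by_contra h3
      exact h ⟨(z, t), h3, rfl⟩
  rw [h2]
  exact h1.isOpen_compl

/-- From a continuous function on a subtype to a function continuous on the set. -/
theorem exists_of_subtype {Z Y : Type} [TopologicalSpace Z] [TopologicalSpace Y] [Nonempty Y]
    {C : Set Z} {g : C → Y} (hg : Continuous g) : ∃ f : Z → Y, ContinuousOn f C ∧
      ∀ z (hz : z ∈ C), f z = g ⟨z, hz⟩ := by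
  classical
  refine ⟨fun z => if hz : z ∈ C then g ⟨z, hz⟩ else Classical.arbitrary Y, ?_, ?_⟩
  · rw [continuousOn_iff_continuous_domRestrict]
    refine hg.congr ?_
    rintro ⟨z, hz⟩
    show g ⟨z, hz⟩ = if hz : z ∈ C then g ⟨z, hz⟩ else Classical.arbitrary Y
    rw [dif_pos hz]
  · intro z hz
    exact dif_pos hz

end Pool.Agent.SH


end

section

/-!
# Homotopy extension and related statements for realizations of finite posets
-/

set_option autoImplicit false

open Set Topology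

namespace Pool.Agent.SH

theorem HEP (hR : Stmt_RET) : Stmt_HEP := by
  classical
  intro Z _ _ _ P _ Q A H g hA hH hHQ hg hgQ hgH
  obtain ⟨ε, hε, r, hrc, hrQ, hrid, _⟩ := hR P Q
  set e1 : Set.Icc (0 : ℝ) 1 := ⟨1, zero_le_one, le_refl 1⟩ with he1
  have hC1 : IsClosed (A ×ˢ (univ : Set (Set.Icc (0 : ℝ) 1))) := hA.prod isClosed_univ
  have hC2 : IsClosed ((univ : Set Z) ×ˢ ({e1} : Set (Set.Icc (0 : ℝ) 1))) := isClosed_univ.prod isClosed_singleton
  set f : Z × Set.Icc (0 : ℝ) 1 → P → ℝ := fun z => if z.1 ∈ A then H z else g z.1 with hf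
  have hfc : ContinuousOn f ((A ×ˢ univ) ∪ (univ ×ˢ {e1})) := by
    refine glue2 hC1 hC2 hH (g := fun z => g z.1) (hg.comp continuous_fst).continuousOn ?_ ?_
    · rintro ⟨z, t⟩ hz
      rw [hf]
      exact if_pos hz.1
    · rintro ⟨z, t⟩ hz
      have ht : t = e1 := hz.2
      subst ht
      rw [hf]
      by_cases hzA : z ∈ A
      · simp only [hzA, if_true]
        exact (hgH z hzA).symm
      · simp only [hzA, if_false]
  obtain ⟨F, hFc, hF⟩ := tietze (hC1.union hC2) hfc
  have hO := tube (F := F) hFc (isOpen_NB Q ε)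
  set V : Set Z := {z | ∀ t, F (z, t) ∈ NB Q ε} with hV
  have hAV : A ⊆ V := by
    intro z hz t
    rw [hF (z, t) (Or.inl ⟨hz, mem_univ t⟩)]
    have : f (z, t) = H (z, t) := by
      rw [hf]
      exact if_pos hz
    rw [this]
    exact Rz_subset_NB Q hε (hHQ (z, t) ⟨hz, mem_univ t⟩)
  have hdisj : Disjoint A Vᶜ := disjoint_compl_right_iff_subset.2 hAV
  obtain ⟨u, hu0, hu1, hu⟩ := exists_continuous_zero_one_of_isClosed hA hO.isClosed_compl hdisj
  have hmem : ∀ z, F (z, ⟨u z, hu z⟩) ∈ NB Q ε := by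
    intro z
    by_cases hz : z ∈ V
    · exact hz _
    · have h1 : u z = 1 := hu1 hz
      have h2 : (⟨u z, hu z⟩ : Set.Icc (0 : ℝ) 1) = e1 := Subtype.ext h1
      rw [h2, hF (z, e1) (Or.inr ⟨mem_univ z, rfl⟩)]
      have : f (z, e1) = g z := by
        rw [hf]
        by_cases hzA : z ∈ A
        · simp only [hzA, if_true]
          exact (hgH z hzA).symm
        · simp only [hzA, if_false]
      rw [this]
      exact Rz_subset_NB Q hε (hgQ z)
  refine ⟨fun z => r (F (z, ⟨u z, hu z⟩)), ?_, ?_, ?_⟩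
  · refine hrc.comp_continuous ?_ hmem
    exact hFc.comp (continuous_id.prodMk (Continuous.subtype_mk u.continuous _))
  · intro z
    exact hrQ _ (hmem z)
  · intro z hz
    have h1 : u z = 0 := hu0 hz
    have h2 : (⟨u z, hu z⟩ : Set.Icc (0 : ℝ) 1) = 0 := Subtype.ext h1
    have h3 : F (z, ⟨u z, hu z⟩) = H (z, 0) := by
      rw [h2, hF (z, 0) (Or.inl ⟨hz, mem_univ _⟩)]
      rw [hf]
      exact if_pos hz
    show r (F (z, ⟨u z, hu z⟩)) = H (z, 0)
    rw [h3]
    exact hrid _ (hHQ (z, 0) ⟨hz, mem_univ _⟩)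

theorem CLS (hR : Stmt_RET) : Stmt_CLS := by
  intro P _ Q
  obtain ⟨ε, hε, r, hrc, hrQ, hrid, _⟩ := hR P Q
  refine ⟨ε, hε, ?_⟩
  intro Z _ A f g hf hg hfQ hgQ hfg
  have hmem : ∀ z ∈ A ×ˢ (univ : Set (Set.Icc (0 : ℝ) 1)),
      (fun a => (1 - (z.2 : ℝ)) * f z.1 a + z.2 * g z.1 a) ∈ NB Q ε := by
    rintro ⟨z, t⟩ ⟨hz, -⟩
    refine ⟨f z, hfQ z hz, ?_⟩
    intro a ha
    have h1 := hfg z hz a ha
    have h2 : (1 - (t : ℝ)) * f z a + t * g z a - f z a = - ((t : ℝ) * (f z a - g z a)) := by ring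
    show |(1 - (t : ℝ)) * f z a + t * g z a - f z a| < ε
    rw [h2, abs_neg, abs_mul, abs_of_nonneg t.2.1]
    calc (t : ℝ) * |f z a - g z a| ≤ 1 * |f z a - g z a| :=
          mul_le_mul_of_nonneg_right t.2.2 (abs_nonneg _)
      _ < ε := by rw [one_mul]; exact h1
  refine ⟨fun z => r (fun a => (1 - (z.2 : ℝ)) * f z.1 a + z.2 * g z.1 a), ?_, ?_, ?_⟩
  · refine hrc.comp ?_ hmem
    rw [continuousOn_pi]
    intro a
    have h1 : ContinuousOn (fun z : Z × Set.Icc (0 : ℝ) 1 => f z.1 a) (A ×ˢ univ) := by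
      refine (continuous_apply a).comp_continuousOn ?_
      exact hf.comp continuous_fst.continuousOn fun z hz => hz.1
    have h2 : ContinuousOn (fun z : Z × Set.Icc (0 : ℝ) 1 => g z.1 a) (A ×ˢ univ) := by
      refine (continuous_apply a).comp_continuousOn ?_
      exact hg.comp continuous_fst.continuousOn fun z hz => hz.1
    have h3 : Continuous fun z : Z × Set.Icc (0 : ℝ) 1 => (z.2 : ℝ) :=
      continuous_subtype_val.comp continuous_snd
    exact ((continuous_const.sub h3).continuousOn.mul h1).add (h3.continuousOn.mul h2)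
  · intro z hz
    exact hrQ _ (hmem z hz)
  · intro z hz
    constructor
    · have : (fun a => (1 - ((0 : Set.Icc (0 : ℝ) 1) : ℝ)) * f z a +
          ((0 : Set.Icc (0 : ℝ) 1) : ℝ) * g z a) = f z := by
        ext a
        simp
      show r (fun a => (1 - ((0 : Set.Icc (0 : ℝ) 1) : ℝ)) * f z a +
          ((0 : Set.Icc (0 : ℝ) 1) : ℝ) * g z a) = f z
      rw [this]
      exact hrid _ (hfQ z hz)
    · have : (fun a => (1 - ((1 : Set.Icc (0 : ℝ) 1) : ℝ)) * f z a +
          ((1 : Set.Icc (0 : ℝ) 1) : ℝ) * g z a) = g z := by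
        ext a
        simp
      show r (fun a => (1 - ((1 : Set.Icc (0 : ℝ) 1) : ℝ)) * f z a +
          ((1 : Set.Icc (0 : ℝ) 1) : ℝ) * g z a) = g z
      rw [this]
      exact hrid _ (hgQ z hz)

theorem CON (hR : Stmt_RET) : Stmt_CON := by
  classical
  intro Z _ _ _ P _ Q t A f htQ htop hA hf hfQ
  obtain ⟨ε, hε, r, hrc, hrQ, hrid, _⟩ := hR P Q
  obtain ⟨F, hFc, hF⟩ := tietze hA hf
  have hO : IsOpen (F ⁻¹' (NB Q ε)) := (isOpen_NB Q ε).preimage hFc
  have hAO : A ⊆ F ⁻¹' (NB Q ε) := by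
    intro z hz
    show F z ∈ NB Q ε
    rw [hF z hz]
    exact Rz_subset_NB Q hε (hfQ z hz)
  obtain ⟨W, hWo, hAW, hWO⟩ := normal_exists_closure_subset hA hO hAO
  have hdisj : Disjoint A Wᶜ := disjoint_compl_right_iff_subset.2 hAW
  obtain ⟨u, hu0, hu1, hu⟩ := exists_continuous_zero_one_of_isClosed hA hWo.isClosed_compl hdisj
  set g : Z → P → ℝ := fun z a => u z * (if a = t then 1 else 0) +
    (if z ∈ closure W then (1 - u z) * r (F z) a else 0) with hg
  have hcl : ∀ z, z ∉ closure W → u z = 1 := fun z hz =>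
    hu1 (fun h => hz (subset_closure h))
  refine ⟨g, ?_, ?_, ?_⟩
  · rw [continuous_pi_iff]
    intro a
    refine Continuous.add (u.continuous.mul continuous_const) ?_
    rw [← continuousOn_univ]
    have hun : (univ : Set Z) = closure W ∪ Wᶜ := by
      ext z
      simp only [mem_univ, mem_union, mem_compl_iff, true_iff]
      by_cases hz : z ∈ W
      · exact Or.inl (subset_closure hz)
      · exact Or.inr hz
    rw [hun]
    refine glue2 isClosed_closure hWo.isClosed_compl (f := fun z => (1 - u z) * r (F z) a)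
      (g := fun _ => 0) ?_ continuousOn_const ?_ ?_
    · refine ContinuousOn.mul (continuous_const.sub u.continuous).continuousOn ?_
      refine (continuous_apply a).comp_continuousOn ?_
      exact hrc.comp hFc.continuousOn hWO
    · intro z hz
      exact if_pos hz
    · intro z hz
      by_cases hz' : z ∈ closure W
      · rw [if_pos hz', hu1 hz]
        simp
      · rw [if_neg hz']
  · intro z
    by_cases hz : z ∈ closure W
    · have hr := hrQ _ (hWO hz)
      obtain ⟨r1, r2, r3, r4⟩ := hr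
      have hgz : ∀ a, g z a = u z * (if a = t then 1 else 0) + (1 - u z) * r (F z) a := by
        intro a
        rw [hg]
        simp only [hz, if_true]
      refine ⟨?_, ?_, ?_, ?_⟩
      · intro a
        rw [hgz]
        have := hu z
        refine add_nonneg (mul_nonneg this.1 ?_) (mul_nonneg (by linarith [this.2]) (r1 a))
        split_ifs <;> norm_num
      · intro a ha
        rw [hgz, r2 a ha, if_neg (fun h : a = t => ha (h ▸ htQ))]
        ring
      · simp only [hgz]
        rw [Finset.sum_add_distrib, ← Finset.mul_sum, ← Finset.mul_sum, r3]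
        rw [Finset.sum_ite_eq' Q t (fun _ => (1 : ℝ)), if_pos htQ]
        ring
      · intro a b ha hb
        by_cases hat : a = t
        · subst hat
          by_cases hbQ : b ∈ Q
          · exact Or.inr (htop b hbQ)
          · exfalso
            apply hb
            rw [hgz, r2 b hbQ, if_neg (fun h : b = a => hbQ (h ▸ htQ))]
            ring
        · by_cases hbt : b = t
          · subst hbt
            by_cases haQ : a ∈ Q
            · exact Or.inl (htop a haQ)
            · exfalso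
              apply ha
              rw [hgz, r2 a haQ, if_neg hat]
              ring
          · refine r4 a b ?_ ?_
            · intro h
              apply ha
              rw [hgz, h, if_neg hat]
              ring
            · intro h
              apply hb
              rw [hgz, h, if_neg hbt]
              ring
    · have hgz : ∀ a, g z a = if a = t then 1 else 0 := by
        intro a
        rw [hg]
        simp only [hz, if_false, hcl z hz]
        ring
      refine ⟨?_, ?_, ?_, ?_⟩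
      · intro a
        rw [hgz]
        split_ifs <;> norm_num
      · intro a ha
        rw [hgz, if_neg (fun h : a = t => ha (h ▸ htQ))]
      · simp only [hgz]
        rw [Finset.sum_ite_eq' Q t (fun _ => (1 : ℝ)), if_pos htQ]
      · intro a b ha hb
        rw [hgz] at ha hb
        have h1 : a = t := by
          by_contra h
          exact ha (if_neg h)
        have h2 : b = t := by
          by_contra h
          exact hb (if_neg h)
        rw [h1, h2]
        exact Or.inl (le_refl t)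
  · intro z hz
    have hzW : z ∈ closure W := subset_closure (hAW hz)
    have hu0' : u z = 0 := hu0 hz
    ext a
    rw [hg]
    simp only [hzW, if_true, hu0']
    rw [hF z hz, hrid _ (hfQ z hz)]
    ring

end Pool.Agent.SH


end

section

/-!
# Walls
-/

set_option autoImplicit false

open Set Topology

namespace Pool.Agent.SH

theorem WALL (hBox : Stmt_BOX) : Stmt_WALL := by
  classical
  intro Z _ _ _ P _ hExt Np Nm A Q κ hNp hNm hdis hA hκ hκQ
  letI := TopologicalSpace.metrizableSpaceMetric Z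
  obtain ⟨η, hη, hbox⟩ := hBox Z P hExt A Q κ hA hκ hκQ
  obtain ⟨r₀, hr₀, hr₀'⟩ := Metric.exists_pos_forall_lt_edist hNp.isCompact hNm hdis
  obtain ⟨r, hr⟩ : ∃ r : ℝ, r = (r₀ : ℝ) := ⟨_, rfl⟩
  have hrpos : 0 < r := by
    rw [hr]
    exact_mod_cast hr₀
  have hsep : ∀ x ∈ Np, ∀ y ∈ Nm, r < dist x y := by
    intro x hx y hy
    have := hr₀' x hx y hy
    rw [edist_dist] at this
    rw [ENNReal.lt_ofReal_iff_toReal_lt ENNReal.coe_ne_top] at this
    rw [hr]
    exact this
  -- the number of slabs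
  obtain ⟨n, hn⟩ := exists_nat_gt (max 1 (max (2 / η) (4 / r)))
  have hn1 : (1 : ℝ) < n := lt_of_le_of_lt (le_max_left _ _) hn
  have hn2 : 2 / η < n := lt_of_le_of_lt ((le_max_left _ _).trans (le_max_right _ _)) hn
  have hn3 : 4 / r < n := lt_of_le_of_lt ((le_max_right _ _).trans (le_max_right _ _)) hn
  have hn0 : (0 : ℝ) < n := by linarith
  have hnN : 0 < n := by exact_mod_cast hn0
  have hstepη : 2 / (n : ℝ) ≤ η := by
    rw [div_le_iff₀ hn0]
    rw [div_lt_iff₀ hη] at hn2
    linarith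
  have hstepr : 2 * (2 / (n : ℝ)) < r := by
    rw [div_lt_iff₀ hrpos] at hn3
    have : 2 * (2 / (n : ℝ)) = 4 / n := by ring
    rw [this, div_lt_iff₀ hn0]
    linarith
  set t : ℕ → ℝ := fun i => -1 + i * (2 / (n : ℝ)) with ht
  have htpos : 0 < 2 / (n : ℝ) := by positivity
  have htsucc : ∀ i, t (i + 1) = t i + 2 / (n : ℝ) := by
    intro i
    rw [ht]
    push_cast
    ring
  have htmono : ∀ i j, i ≤ j → t i ≤ t j := by
    intro i j hij
    have : (i : ℝ) ≤ j := by exact_mod_cast hij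
    have := mul_le_mul_of_nonneg_right this htpos.le
    show -1 + (i : ℝ) * (2 / (n : ℝ)) ≤ -1 + j * (2 / (n : ℝ))
    linarith
  have htlt : ∀ i j, t i ≤ t j → i ≤ j := by
    intro i j hij
    by_contra hlt
    have h1 : j + 1 ≤ i := by omega
    have h2 := htmono _ _ h1
    rw [htsucc] at h2
    linarith
  have htn : t n = 1 := by
    rw [ht]
    field_simp
    ring
  have ht0 : t 0 = -1 := by
    rw [ht]
    simp
  set S : ℕ → Set (Z × Iv) := fun i => {z | t i ≤ (z.2 : ℝ) ∧ (z.2 : ℝ) ≤ t (i + 1)} with hS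
  have hv : Continuous fun z : Z × Iv => (z.2 : ℝ) := continuous_subtype_val.comp continuous_snd
  have hSc : ∀ i, IsClosed (S i) := fun i =>
    (isClosed_le continuous_const hv).inter (isClosed_le hv continuous_const)
  have hScov : ∀ z, ∃ i < n, z ∈ S i := by
    intro z
    by_cases h1 : (z.2 : ℝ) = 1
    · refine ⟨n - 1, by omega, ?_⟩
      have h2 : n - 1 + 1 = n := by omega
      refine ⟨?_, ?_⟩
      · rw [h1, ← htn]
        exact htmono _ _ (by omega)
      · rw [h1, h2, htn]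
    · have h2 : (z.2 : ℝ) < 1 := lt_of_le_of_ne z.2.2.2 h1
      have h3 : -1 ≤ (z.2 : ℝ) := z.2.2.1
      -- the last i with t i ≤ z.2
      have hex : ∃ i, (z.2 : ℝ) < t (i + 1) := by
        refine ⟨n - 1, ?_⟩
        have h4 : n - 1 + 1 = n := by omega
        rw [h4, htn]
        exact h2
      set i := Nat.find hex with hi
      have hi1 : (z.2 : ℝ) < t (i + 1) := Nat.find_spec hex
      have hi2 : t i ≤ (z.2 : ℝ) := by
        rcases Nat.eq_zero_or_pos i with h0 | h0
        · rw [h0, ht0]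
          exact h3
        · have h4 := Nat.find_min hex (m := i - 1) (by omega)
          have h5 : i - 1 + 1 = i := by omega
          rw [h5] at h4
          exact not_lt.1 h4
      refine ⟨i, ?_, hi2, hi1.le⟩
      by_contra hle
      have h4 := htmono n i (by omega)
      rw [htn] at h4
      linarith
  have hSadj : ∀ i j, i < j → ∀ z, z ∈ S i → z ∈ S j → j = i + 1 ∧ (z.2 : ℝ) = t j := by
    intro i j hij z hzi hzj
    have h1 : t j ≤ t (i + 1) := hzj.1.trans hzi.2
    have h2 := htlt _ _ h1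
    have h3 : j = i + 1 := by omega
    exact ⟨h3, le_antisymm (h3 ▸ hzi.2) hzj.1⟩
  -- thickenings
  set Mp : ℕ → Set Z := fun i => Prod.fst '' (Np ∩ S i) with hMp
  set Mm : ℕ → Set Z := fun i => Prod.fst '' (Nm ∩ S i) with hMm
  have hδ : 0 < r / 3 := by positivity
  -- key separation
  have hkey : ∀ i j, i ≤ j + 1 → j ≤ i + 1 → ∀ x, x ∈ Metric.cthickening (r / 3) (Mp i) →
      x ∈ Metric.cthickening (r / 3) (Mm j) → False := by
    intro i j hij hji x hx hx'
    have h1 := Metric.cthickening_subset_thickening' (by positivity : 0 < r / 2) (by linarith) _ hx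
    have h2 := Metric.cthickening_subset_thickening' (by positivity : 0 < r / 2) (by linarith) _ hx'
    rw [Metric.mem_thickening_iff] at h1 h2
    obtain ⟨_, ⟨z, hz, rfl⟩, h1⟩ := h1
    obtain ⟨_, ⟨z', hz', rfl⟩, h2⟩ := h2
    have h3 := hsep z hz.1 z' hz'.1
    rw [Prod.dist_eq, lt_max_iff] at h3
    rcases h3 with h3 | h3
    · have := dist_triangle_left z.1 z'.1 x
      linarith
    · rw [Subtype.dist_eq, Real.dist_eq] at h3
      have e1 := hz.2.1
      have e2 := hz.2.2
      have e3 := hz'.2.1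
      have e4 := hz'.2.2
      have e5 := htmono _ _ hij
      have e6 := htmono _ _ hji
      rw [htsucc] at e2 e4 e5 e6
      have e7 : |(z.2 : ℝ) - z'.2| ≤ 2 * (2 / (n : ℝ)) := by
        rw [abs_le]
        constructor <;> linarith
      linarith
  -- the sets of the slabs
  set T : ℕ → Set Z := fun i =>
    if Even i then Metric.cthickening (r / 3) (Mp i) else Metric.cthickening (r / 3) (Mm i) with hT
  set U : ℕ → Set Z := fun i =>
    if Even i then (Metric.thickening (r / 3) (Mp i))ᶜ else (Metric.thickening (r / 3) (Mm i))ᶜ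
    with hU
  set bp : ℕ → Set Z := fun i => if Even i then T i else U i with hbp
  set bm : ℕ → Set Z := fun i => if Even i then U i else T i with hbm
  have hTc : ∀ i, IsClosed (T i) := by
    intro i
    rw [hT]
    by_cases h : Even i
    · simp only [h, if_true]
      exact Metric.isClosed_cthickening
    · simp only [h, if_false]
      exact Metric.isClosed_cthickening
  have hUc : ∀ i, IsClosed (U i) := by
    intro i
    rw [hU]
    by_cases h : Even i
    · simp only [h, if_true]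
      exact Metric.isOpen_thickening.isClosed_compl
    · simp only [h, if_false]
      exact Metric.isOpen_thickening.isClosed_compl
  have hTU : ∀ i, ∀ x, x ∈ T i ∨ x ∈ U i := by
    intro i x
    rw [hT, hU]
    by_cases h : Even i
    · simp only [h, if_true]
      by_cases hx : x ∈ Metric.thickening (r / 3) (Mp i)
      · exact Or.inl (Metric.thickening_subset_cthickening _ _ hx)
      · exact Or.inr hx
    · simp only [h, if_false]
      by_cases hx : x ∈ Metric.thickening (r / 3) (Mm i)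
      · exact Or.inl (Metric.thickening_subset_cthickening _ _ hx)
      · exact Or.inr hx
  have hbpc : ∀ i, IsClosed (bp i) := by
    intro i
    by_cases h : Even i
    · simp only [hbp, h, if_true]
      exact hTc i
    · simp only [hbp, h, if_false]
      exact hUc i
  have hbmc : ∀ i, IsClosed (bm i) := by
    intro i
    by_cases h : Even i
    · simp only [hbm, h, if_true]
      exact hUc i
    · simp only [hbm, h, if_false]
      exact hTc i
  have hbcov : ∀ i x, x ∈ bp i ∨ x ∈ bm i := by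
    intro i x
    by_cases h : Even i
    · simp only [hbp, hbm, h, if_true]
      exact hTU i x
    · simp only [hbp, hbm, h, if_false]
      exact (hTU i x).symm
  have hbpm : ∀ i x, x ∈ bp i → x ∈ bm i → x ∈ T i ∩ U i := by
    intro i x h1 h2
    by_cases h : Even i
    · simp only [hbp, hbm, h, if_true] at h1 h2
      exact ⟨h1, h2⟩
    · simp only [hbp, hbm, h, if_false] at h1 h2
      exact ⟨h2, h1⟩
  have hNpb : ∀ i, ∀ z ∈ Np, z ∈ S i → z.1 ∉ bm i := by
    intro i z hz hzi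
    have hzM : z.1 ∈ Mp i := ⟨z, ⟨hz, hzi⟩, rfl⟩
    by_cases h : Even i
    · simp only [hbm, hU, h, if_true]
      intro h1
      exact h1 (Metric.self_subset_thickening hδ _ hzM)
    · simp only [hbm, hT, h, if_false]
      intro h1
      exact hkey i i (by omega) (by omega) z.1 (Metric.self_subset_cthickening _ hzM) h1
  have hNmb : ∀ i, ∀ z ∈ Nm, z ∈ S i → z.1 ∉ bp i := by
    intro i z hz hzi
    have hzM : z.1 ∈ Mm i := ⟨z, ⟨hz, hzi⟩, rfl⟩
    by_cases h : Even i
    · simp only [hbp, hT, h, if_true]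
      intro h1
      exact hkey i i (by omega) (by omega) z.1 h1 (Metric.self_subset_cthickening _ hzM)
    · simp only [hbp, hU, h, if_false]
      intro h1
      exact h1 (Metric.self_subset_thickening hδ _ hzM)
  have hwall : ∀ i x, x ∈ T i → x ∈ T (i + 1) → False := by
    intro i x h1 h2
    by_cases h : Even i
    · have h' : ¬ Even (i + 1) := by
        rw [Nat.even_add_one, not_not]
        exact h
      simp only [hT, h, h', if_true, if_false] at h1 h2
      exact hkey i (i + 1) (by omega) (by omega) x h1 h2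
    · have h' : Even (i + 1) := by
        rw [Nat.even_add_one]
        exact h
      simp only [hT, h, h', if_true, if_false] at h1 h2
      exact hkey (i + 1) i (by omega) (by omega) x h2 h1
  -- extension over the vertical walls
  have hb : ∀ i : Fin n, ∃ (Q' : Finset P) (g : Z × Iv → P → ℝ), Q ⊆ Q' ∧
      ContinuousOn g (S i) ∧ (∀ z ∈ S i, g z ∈ Rz Q') ∧ ∀ z ∈ A, z ∈ S i → g z = κ z := by
    intro i
    obtain ⟨Q', g, h1, h2, h3, h4⟩ := hbox (t i) (t (i + 1)) (by rw [htsucc]; linarith)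
    exact ⟨Q', g, h1, h2, fun z hz => h3 z hz.1 hz.2, fun z hz hzi => h4 z hz hzi.1 hzi.2⟩
  choose Qi gi hQi hgic hgiQ hgiκ using hb
  set V : Fin n → Set (Z × Iv) := fun i => {z | z ∈ S i ∧ z.1 ∈ T i ∩ U i} with hV
  have hVc : ∀ i, IsClosed (V i) := fun i =>
    (hSc i).inter (((hTc i).inter (hUc i)).preimage continuous_fst)
  set Q₁ : Finset P := Q ∪ Finset.univ.biUnion Qi with hQ₁
  have hQQ₁ : Q ⊆ Q₁ := Finset.subset_union_left
  have hQiQ₁ : ∀ i, Qi i ⊆ Q₁ := by
    intro i a ha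
    exact Finset.mem_union_right _ (Finset.mem_biUnion.2 ⟨i, Finset.mem_univ i, ha⟩)
  obtain ⟨κ₁, hκ₁, hκ₁c⟩ := glue_exists (ι := Option (Fin n))
    (fun o => match o with | none => A | some i => V i)
    (by
      rintro (_ | i)
      · exact hA
      · exact hVc i)
    (fun o => match o with | none => κ | some i => gi i)
    (by
      rintro (_ | i)
      · exact hκ
      · exact (hgic i).mono fun z hz => hz.1)
    (by
      rintro (_ | i) (_ | j) z hz hz'
      · rfl
      · exact (hgiκ j z hz hz'.1).symm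
      · exact hgiκ i z hz' hz.1
      · rcases lt_trichotomy i j with hij | rfl | hij
        · exfalso
          have h1 := (hSadj i j hij z hz.1 hz'.1).1
          exact hwall i z.1 hz.2.1 (h1 ▸ hz'.2.1)
        · rfl
        · exfalso
          have h1 := (hSadj j i hij z hz'.1 hz.1).1
          exact hwall j z.1 hz'.2.1 (h1 ▸ hz.2.1))
  set AV : Set (Z × Iv) := ⋃ o : Option (Fin n), (match o with | none => A | some i => V i) with hAV
  have hAAV : A ⊆ AV := fun z hz => mem_iUnion.2 ⟨none, hz⟩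
  have hVAV : ∀ i, V i ⊆ AV := fun i z hz => mem_iUnion.2 ⟨some i, hz⟩
  have hAVc : IsClosed AV := by
    refine isClosed_iUnion_of_finite ?_
    rintro (_ | i)
    · exact hA
    · exact hVc i
  have hκ₁Q : ∀ z ∈ AV, κ₁ z ∈ Rz Q₁ := by
    intro z hz
    obtain ⟨o, ho⟩ := mem_iUnion.1 hz
    have h1 := hκ₁ o z ho
    rcases o with _ | i
    · rw [h1]
      exact Rz_mono hQQ₁ (hκQ z ho)
    · rw [h1]
      exact Rz_mono (hQiQ₁ i) (hgiQ i z ho.1)
  -- extension over the horizontal walls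
  have htI : ∀ i : Fin n, t i ∈ Icc (-1 : ℝ) 1 := by
    intro i
    rw [← ht0, ← htn]
    exact ⟨htmono _ _ (by omega), htmono _ _ i.2.le⟩
  have hh : ∀ i : Fin n, ∃ (R : Finset P) (h : Z → P → ℝ), Q₁ ⊆ R ∧ Continuous h ∧
      (∀ x, h x ∈ Rz R) ∧ ∀ x, (x, (⟨t i, htI i⟩ : Iv)) ∈ AV → h x = κ₁ (x, ⟨t i, htI i⟩) := by
    intro i
    have hj : Continuous fun x : Z => (x, (⟨t i, htI i⟩ : Iv)) :=
      continuous_id.prodMk continuous_const
    obtain ⟨R, h, h1, h2, h3, h4⟩ := hExt {x | (x, (⟨t i, htI i⟩ : Iv)) ∈ AV} Q₁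
      (fun x => κ₁ (x, ⟨t i, htI i⟩)) (hAVc.preimage hj)
      (hκ₁c.comp hj.continuousOn fun x hx => hx) (fun x hx => hκ₁Q _ hx)
    exact ⟨R, h, h1, h2, h3, h4⟩
  choose R h hQR hhc hhR hhκ using hh
  set F : Fin n → Set (Z × Iv) := fun i => {z | (z.2 : ℝ) = t i} with hF
  have hFc : ∀ i, IsClosed (F i) := fun i => isClosed_eq hv continuous_const
  obtain ⟨g, hg, hgc⟩ := glue_exists (ι := Option (Fin n))
    (fun o => match o with | none => AV | some i => F i)
    (by
      rintro (_ | i)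
      · exact hAVc
      · exact hFc i)
    (fun o => match o with | none => κ₁ | some i => fun z => h i z.1)
    (by
      rintro (_ | i)
      · exact hκ₁c
      · exact ((hhc i).comp continuous_fst).continuousOn)
    (by
      have hcase : ∀ (i : Fin n) (z : Z × Iv), z ∈ AV → z ∈ F i → κ₁ z = h i z.1 := by
        rintro i ⟨x, s⟩ hz hz'
        have hs : s = ⟨t i, htI i⟩ := Subtype.ext hz'
        subst hs
        exact (hhκ i x hz).symm
      rintro (_ | i) (_ | j) z hz hz'
      · rfl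
      · exact hcase j z hz hz'
      · exact (hcase i z hz' hz).symm
      · have h1 : t i = t j := hz.symm.trans hz'
        have h2 : i = j := Fin.ext (le_antisymm (htlt _ _ h1.le) (htlt _ _ h1.ge))
        subst h2
        rfl)
  set Q' : Finset P := Q₁ ∪ Finset.univ.biUnion R with hQ'
  refine ⟨⋃ i : Fin n, {z | z ∈ S i ∧ z.1 ∈ bp i}, ⋃ i : Fin n, {z | z ∈ S i ∧ z.1 ∈ bm i}, Q', g,
    ?_, ?_, ?_, ?_, ?_, ?_, ?_, ?_, ?_⟩
  · exact isClosed_iUnion_of_finite fun i => (hSc i).inter ((hbpc i).preimage continuous_fst)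
  · exact isClosed_iUnion_of_finite fun i => (hSc i).inter ((hbmc i).preimage continuous_fst)
  · refine eq_univ_of_forall fun z => ?_
    obtain ⟨i, hi, hzi⟩ := hScov z
    rcases hbcov i z.1 with h1 | h1
    · exact Or.inl (mem_iUnion.2 ⟨⟨i, hi⟩, hzi, h1⟩)
    · exact Or.inr (mem_iUnion.2 ⟨⟨i, hi⟩, hzi, h1⟩)
  · rw [Set.disjoint_left]
    intro z hz hz'
    obtain ⟨i, h1, h2⟩ := mem_iUnion.1 hz'
    exact hNpb i z hz h1 h2
  · rw [Set.disjoint_left]
    intro z hz hz'
    obtain ⟨i, h1, h2⟩ := mem_iUnion.1 hz'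
    exact hNmb i z hz h1 h2
  · exact hQQ₁.trans Finset.subset_union_left
  all_goals
    have hcov : ∀ z, z ∈ (⋃ i : Fin n, {z | z ∈ S i ∧ z.1 ∈ bp i}) ∩
        (⋃ i : Fin n, {z | z ∈ S i ∧ z.1 ∈ bm i}) → z ∈ AV ∨ ∃ i, z ∈ F i := by
      rintro z ⟨h1, h2⟩
      obtain ⟨i, h1, h1'⟩ := mem_iUnion.1 h1
      obtain ⟨j, h2, h2'⟩ := mem_iUnion.1 h2
      rcases lt_trichotomy i j with hij | rfl | hij
      · exact Or.inr ⟨j, (hSadj i j hij z h1 h2).2⟩
      · exact Or.inl (hVAV i ⟨h1, hbpm i z.1 h1' h2'⟩)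
      · exact Or.inr ⟨i, (hSadj j i hij z h2 h1).2⟩
  · refine hgc.mono ?_
    intro z hz
    rcases hcov z hz with h1 | ⟨i, h1⟩
    · exact mem_iUnion.2 ⟨none, h1⟩
    · exact mem_iUnion.2 ⟨some i, h1⟩
  · intro z hz
    rcases hcov z hz with h1 | ⟨i, h1⟩
    · rw [hg none z h1]
      exact Rz_mono Finset.subset_union_left (hκ₁Q z h1)
    · rw [hg (some i) z h1]
      refine Rz_mono (fun a ha => ?_) (hhR i z.1)
      exact Finset.mem_union_right _ (Finset.mem_biUnion.2 ⟨i, Finset.mem_univ i, ha⟩)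
  · intro z hz
    rw [hg none z (hAAV hz.1)]
    exact hκ₁ none z hz.1

end Pool.Agent.SH


end

section

/-!
# The product theorem
-/

set_option autoImplicit false

open Set Topology

namespace Pool.Agent.SH

section sus

variable {P : Type} [PartialOrder P]

theorem base_inj : Function.Injective (SusK.base : P → SusK P 1) := by
  intro a b h
  cases h
  rfl

/-- The upper pole. -/
def pT : SusK P 1 := SusK.pole 0 true

/-- The lower pole. -/
def pF : SusK P 1 := SusK.pole 0 false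

open Classical in
/-- The suspension of a finite set. -/
noncomputable def Qh (Q : Finset P) : Finset (SusK P 1) :=
  insert pT (insert pF (Q.map ⟨SusK.base, base_inj⟩))

open Classical in
/-- The upper cone. -/
noncomputable def QhT (Q : Finset P) : Finset (SusK P 1) := insert pT (Q.map ⟨SusK.base, base_inj⟩)

open Classical in
/-- The lower cone. -/
noncomputable def QhF (Q : Finset P) : Finset (SusK P 1) := insert pF (Q.map ⟨SusK.base, base_inj⟩)

theorem sus_cases (x : SusK P 1) : (∃ a, x = SusK.base a) ∨ x = pT ∨ x = pF := by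
  cases x with
  | base a => exact Or.inl ⟨a, rfl⟩
  | pole i e =>
    have hi : i = 0 := Subsingleton.elim _ _
    subst hi
    cases e with
    | true => exact Or.inr (Or.inl rfl)
    | false => exact Or.inr (Or.inr rfl)

theorem mem_Qh {Q : Finset P} {a : P} : (SusK.base a : SusK P 1) ∈ Qh Q ↔ a ∈ Q := by
  classical
  unfold Qh pT pF
  simp

theorem mem_QhT {Q : Finset P} {a : P} : (SusK.base a : SusK P 1) ∈ QhT Q ↔ a ∈ Q := by
  classical
  unfold QhT pT
  simp

theorem mem_QhF {Q : Finset P} {a : P} : (SusK.base a : SusK P 1) ∈ QhF Q ↔ a ∈ Q := by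
  classical
  unfold QhF pF
  simp

theorem pT_mem_Qh (Q : Finset P) : pT ∈ Qh Q := by
  classical
  unfold Qh
  exact Finset.mem_insert_self _ _

theorem pF_mem_Qh (Q : Finset P) : pF ∈ Qh Q := by
  classical
  unfold Qh
  exact Finset.mem_insert_of_mem (Finset.mem_insert_self _ _)

theorem pT_mem_QhT (Q : Finset P) : pT ∈ QhT Q := by
  classical
  unfold QhT
  exact Finset.mem_insert_self _ _

theorem pF_mem_QhF (Q : Finset P) : pF ∈ QhF Q := by
  classical
  unfold QhF
  exact Finset.mem_insert_self _ _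

theorem pT_ne_pF : (pT : SusK P 1) ≠ pF := by
  intro h
  unfold pT pF at h
  simp at h

theorem pT_notMem_map {Q : Finset P} : (pT : SusK P 1) ∉ Q.map ⟨SusK.base, base_inj⟩ := by
  unfold pT
  simp

theorem pF_notMem_map {Q : Finset P} : (pF : SusK P 1) ∉ Q.map ⟨SusK.base, base_inj⟩ := by
  unfold pF
  simp

theorem sum_Qh {Q : Finset P} (f : SusK P 1 → ℝ) :
    ∑ x ∈ Qh Q, f x = f pT + (f pF + ∑ a ∈ Q, f (SusK.base a)) := by
  classical
  unfold Qh
  rw [Finset.sum_insert, Finset.sum_insert pF_notMem_map, Finset.sum_map]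
  · rfl
  · rw [Finset.mem_insert, not_or]
    exact ⟨pT_ne_pF, pT_notMem_map⟩

theorem sum_QhT {Q : Finset P} (f : SusK P 1 → ℝ) :
    ∑ x ∈ QhT Q, f x = f pT + ∑ a ∈ Q, f (SusK.base a) := by
  classical
  unfold QhT
  rw [Finset.sum_insert pT_notMem_map, Finset.sum_map]
  rfl

theorem sum_QhF {Q : Finset P} (f : SusK P 1 → ℝ) :
    ∑ x ∈ QhF Q, f x = f pF + ∑ a ∈ Q, f (SusK.base a) := by
  classical
  unfold QhF
  rw [Finset.sum_insert pF_notMem_map, Finset.sum_map]
  rfl

theorem QhT_subset (Q : Finset P) : QhT Q ⊆ Qh Q := by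
  classical
  unfold QhT Qh
  exact Finset.insert_subset_insert _ (Finset.subset_insert _ _)

theorem QhF_subset (Q : Finset P) : QhF Q ⊆ Qh Q := by
  classical
  unfold QhF Qh
  exact Finset.subset_insert _ _

theorem Qh_mono {Q Q' : Finset P} (h : Q ⊆ Q') : Qh Q ⊆ Qh Q' := by
  classical
  unfold Qh
  exact Finset.insert_subset_insert _ (Finset.insert_subset_insert _ (Finset.map_subset_map.2 h))

theorem exists_Qh (R : Finset (SusK P 1)) : ∃ Q : Finset P, R ⊆ Qh Q := by
  classical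
  refine ⟨R.preimage SusK.base base_inj.injOn, ?_⟩
  intro x hx
  rcases sus_cases x with ⟨a, rfl⟩ | rfl | rfl
  · rw [mem_Qh, Finset.mem_preimage]
    exact hx
  · unfold Qh
    exact Finset.mem_insert_self _ _
  · unfold Qh
    exact Finset.mem_insert_of_mem (Finset.mem_insert_self _ _)

/-- The point with base part `c` and height `h`. -/
noncomputable def susf (c : P → ℝ) (h : ℝ) : SusK P 1 → ℝ
  | SusK.base a => c a
  | SusK.pole _ e => if e then max h 0 else max (-h) 0

@[simp] theorem susf_base (c : P → ℝ) (h : ℝ) (a : P) : susf c h (SusK.base a) = c a := rfl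

@[simp] theorem susf_pT (c : P → ℝ) (h : ℝ) : susf c h pT = max h 0 := rfl

@[simp] theorem susf_pF (c : P → ℝ) (h : ℝ) : susf c h pF = max (-h) 0 := by
  show (if false = true then max h 0 else max (-h) 0) = max (-h) 0
  simp

theorem max_add_max_neg (h : ℝ) : max h 0 + max (-h) 0 = |h| := by
  rcases le_total 0 h with h0 | h0
  · rw [max_eq_left h0, max_eq_right (by linarith), abs_of_nonneg h0, add_zero]
  · rw [max_eq_right h0, max_eq_left (by linarith), abs_of_nonpos h0, zero_add]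

theorem susf_mem {Q : Finset P} {c : P → ℝ} {h : ℝ} (h1 : ∀ a, 0 ≤ c a) (h2 : ∀ a, a ∉ Q → c a = 0)
    (h3 : ∑ a ∈ Q, c a = 1 - |h|) (h4 : ∀ a b, c a ≠ 0 → c b ≠ 0 → a ≤ b ∨ b ≤ a) :
    susf c h ∈ Rz (Qh Q) := by
  refine ⟨?_, ?_, ?_, ?_⟩
  · intro x
    rcases sus_cases x with ⟨a, rfl⟩ | rfl | rfl
    · exact h1 a
    · rw [susf_pT]
      exact le_max_right _ _
    · rw [susf_pF]
      exact le_max_right _ _
  · intro x hx
    rcases sus_cases x with ⟨a, rfl⟩ | rfl | rfl
    · exact h2 a fun ha => hx (mem_Qh.2 ha)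
    · exact absurd (pT_mem_Qh Q) hx
    · exact absurd (pF_mem_Qh Q) hx
  · rw [sum_Qh]
    simp only [susf_base, susf_pT, susf_pF]
    rw [h3, ← add_assoc, max_add_max_neg]
    ring
  · intro x y hx hy
    rcases sus_cases x with ⟨a, rfl⟩ | rfl | rfl
    · rcases sus_cases y with ⟨b, rfl⟩ | rfl | rfl
      · exact h4 a b hx hy
      · exact Or.inl trivial
      · exact Or.inl trivial
    · rcases sus_cases y with ⟨b, rfl⟩ | rfl | rfl
      · exact Or.inr trivial
      · exact Or.inl (le_refl _)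
      · exfalso
        rw [susf_pT] at hx
        rw [susf_pF] at hy
        rcases le_total 0 h with h0 | h0
        · exact hy (max_eq_right (by linarith))
        · exact hx (max_eq_right h0)
    · rcases sus_cases y with ⟨b, rfl⟩ | rfl | rfl
      · exact Or.inr trivial
      · exfalso
        rw [susf_pF] at hx
        rw [susf_pT] at hy
        rcases le_total 0 h with h0 | h0
        · exact hx (max_eq_right (by linarith))
        · exact hy (max_eq_right h0)
      · exact Or.inl (le_refl _)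

theorem mem_QhT_of {Q : Finset P} {p : SusK P 1 → ℝ} (hp : p ∈ Rz (Qh Q)) (h0 : p pF = 0) :
    p ∈ Rz (QhT Q) := by
  obtain ⟨h1, h2, h3, h4⟩ := hp
  refine ⟨h1, ?_, ?_, h4⟩
  · intro x hx
    rcases sus_cases x with ⟨a, rfl⟩ | rfl | rfl
    · exact h2 _ fun ha => hx (mem_QhT.2 (mem_Qh.1 ha))
    · exact absurd (pT_mem_QhT Q) hx
    · exact h0
  · rw [sum_QhT]
    rw [sum_Qh, h0] at h3
    linarith

theorem mem_QhF_of {Q : Finset P} {p : SusK P 1 → ℝ} (hp : p ∈ Rz (Qh Q)) (h0 : p pT = 0) :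
    p ∈ Rz (QhF Q) := by
  obtain ⟨h1, h2, h3, h4⟩ := hp
  refine ⟨h1, ?_, ?_, h4⟩
  · intro x hx
    rcases sus_cases x with ⟨a, rfl⟩ | rfl | rfl
    · exact h2 _ fun ha => hx (mem_QhF.2 (mem_Qh.1 ha))
    · exact h0
    · exact absurd (pF_mem_QhF Q) hx
  · rw [sum_QhF]
    rw [sum_Qh, h0] at h3
    linarith

theorem continuousOn_susf {Z : Type} [TopologicalSpace Z] {A : Set Z} {c : Z → P → ℝ} {h : Z → ℝ}
    (hc : ContinuousOn c A) (hh : ContinuousOn h A) : ContinuousOn (fun z => susf (c z) (h z)) A := by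
  rw [continuousOn_pi]
  intro x
  rcases sus_cases x with ⟨a, rfl⟩ | rfl | rfl
  · exact (continuous_apply a).comp_continuousOn hc
  · simp only [susf_pT]
    exact fun z hz => (hh z hz).max continuousWithinAt_const
  · simp only [susf_pF]
    exact fun z hz => (hh z hz).neg.max continuousWithinAt_const

end sus

theorem PROD (hW : Stmt_WALL) (hCon : Stmt_CON) (hHep : Stmt_HEP) : Stmt_PROD := by
  classical
  intro Z _ _ _ P _ _ hExt A R f hA hf hfR
  obtain ⟨Q, hRQ⟩ := exists_Qh R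
  have hfQ : ∀ z ∈ A, f z ∈ Rz (Qh Q) := fun z hz => Rz_mono hRQ (hfR z hz)
  -- height
  set h : Z × Iv → ℝ := fun z => f z pT - f z pF with hh
  have hhc : ContinuousOn h A :=
    ((continuous_apply _).comp_continuousOn hf).sub ((continuous_apply _).comp_continuousOn hf)
  have hpole : ∀ z ∈ A, f z pT = max (h z) 0 ∧ f z pF = max (-(h z)) 0 := by
    intro z hz
    have h1 := (hfQ z hz).1 pT
    have h2 := (hfQ z hz).1 pF
    have h3 : f z pT = 0 ∨ f z pF = 0 := by
      by_contra hn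
      rw [not_or] at hn
      rcases (hfQ z hz).2.2.2 _ _ hn.1 hn.2 with h4 | h4
      · unfold pT pF at h4
        simp at h4
      · unfold pT pF at h4
        simp at h4
    rw [hh]
    rcases h3 with h3 | h3
    · simp only [h3]
      rw [zero_sub, neg_neg]
      exact ⟨(max_eq_right (by linarith)).symm, (max_eq_left h2).symm⟩
    · simp only [h3]
      rw [sub_zero]
      exact ⟨(max_eq_left h1).symm, (max_eq_right (by linarith)).symm⟩
  have hsum : ∀ z ∈ A, ∑ a ∈ Q, f z (SusK.base a) = 1 - |h z| := by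
    intro z hz
    have h1 := (hfQ z hz).2.2.1
    rw [sum_Qh, (hpole z hz).1, (hpole z hz).2] at h1
    have h2 := max_add_max_neg (h z)
    linarith
  have hle1 : ∀ z ∈ A, |h z| ≤ 1 := by
    intro z hz
    have h1 := hsum z hz
    have h2 : 0 ≤ ∑ a ∈ Q, f z (SusK.base a) := Finset.sum_nonneg fun a _ => (hfQ z hz).1 _
    linarith
  have hfeq : ∀ z ∈ A, f z = susf (fun a => f z (SusK.base a)) (h z) := by
    intro z hz
    ext x
    rcases sus_cases x with ⟨a, rfl⟩ | rfl | rfl
    · rfl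
    · rw [susf_pT]
      exact (hpole z hz).1
    · rw [susf_pF]
      exact (hpole z hz).2
  -- the closed sets
  have hcl : ∀ C : Set ℝ, IsClosed C → IsClosed {z | z ∈ A ∧ h z ∈ C} := fun C hC =>
    hhc.preimage_isClosed_of_isClosed hA hC
  set Np : Set (Z × Iv) := {z | z ∈ A ∧ h z ∈ Ici (1 / 2 : ℝ)} with hNp
  set Nm : Set (Z × Iv) := {z | z ∈ A ∧ h z ∈ Iic (-(1 / 2) : ℝ)} with hNm
  set A₀ : Set (Z × Iv) := {z | z ∈ A ∧ h z ∈ Icc (-(1 / 2) : ℝ) (1 / 2)} with hA₀
  have hNpc : IsClosed Np := hcl _ isClosed_Ici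
  have hNmc : IsClosed Nm := hcl _ isClosed_Iic
  have hA₀c : IsClosed A₀ := hcl _ isClosed_Icc
  have hAcov : ∀ z ∈ A, z ∈ A₀ ∨ z ∈ Np ∨ z ∈ Nm := by
    intro z hz
    rcases le_total (1 / 2) (h z) with h1 | h1
    · exact Or.inr (Or.inl ⟨hz, h1⟩)
    · rcases le_total (h z) (-(1 / 2)) with h2 | h2
      · exact Or.inr (Or.inr ⟨hz, h2⟩)
      · exact Or.inl ⟨hz, h2, h1⟩
  have hdis : Disjoint Np Nm := by
    rw [Set.disjoint_left]
    rintro z ⟨_, h1⟩ ⟨_, h2⟩
    rw [mem_Ici] at h1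
    rw [mem_Iic] at h2
    linarith
  -- the base coordinate
  set κ : Z × Iv → P → ℝ := fun z a => f z (SusK.base a) / (1 - |h z|) with hκ
  have hA₀lt : ∀ z ∈ A₀, |h z| < 1 := by
    rintro z ⟨_, h1, h2⟩
    rw [abs_lt]
    constructor <;> linarith
  have hκc : ContinuousOn κ A₀ := by
    rw [continuousOn_pi]
    intro a
    have h1 : ContinuousOn (fun z => f z (SusK.base a)) A₀ :=
      ((continuous_apply _).comp_continuousOn hf).mono fun z hz => hz.1
    refine h1.div (continuousOn_const.sub (hhc.mono fun z hz => hz.1).abs) ?_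
    intro z hz
    have := hA₀lt z hz
    linarith
  have hκQ : ∀ z ∈ A₀, κ z ∈ Rz Q := by
    intro z hz
    have hz1 := hA₀lt z hz
    have hpos : 0 < 1 - |h z| := by linarith
    refine ⟨fun a => div_nonneg ((hfQ z hz.1).1 _) hpos.le, ?_, ?_, ?_⟩
    · intro a ha
      show f z (SusK.base a) / (1 - |h z|) = 0
      rw [(hfQ z hz.1).2.1 _ (fun h => ha (mem_Qh.1 h)), zero_div]
    · show ∑ a ∈ Q, f z (SusK.base a) / (1 - |h z|) = 1
      rw [← Finset.sum_div, hsum z hz.1, div_self hpos.ne']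
    · intro a b ha hb
      refine (hfQ z hz.1).2.2.2 (SusK.base a) (SusK.base b) ?_ ?_
      · intro h0
        exact ha (by show f z (SusK.base a) / (1 - |h z|) = 0; rw [h0, zero_div])
      · intro h0
        exact hb (by show f z (SusK.base b) / (1 - |h z|) = 0; rw [h0, zero_div])
  obtain ⟨Bp, Bm, Q', k, hBpc, hBmc, hBB, hNpBm, hNmBp, hQQ', hkc, hkQ, hkκ⟩ :=
    hW Z P hExt Np Nm A₀ Q κ hNpc hNmc hdis hA₀c hκc hκQ
  -- the new height
  obtain ⟨up, hup0, hup1, hup⟩ := exists_continuous_zero_one_of_isClosed hBmc hNpc hNpBm.symm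
  obtain ⟨um, hum0, hum1, hum⟩ := exists_continuous_zero_one_of_isClosed hBpc hNmc hNmBp.symm
  set H : Z × Iv → ℝ := fun z => up z - um z with hH
  have hHc : Continuous H := up.continuous.sub um.continuous
  have hHle : ∀ z, |H z| ≤ 1 := by
    intro z
    have h1 := hup z
    have h2 := hum z
    rw [abs_le]
    constructor
    · show -1 ≤ up z - um z
      linarith [h1.1, h2.2]
    · show up z - um z ≤ 1
      linarith [h1.2, h2.1]
  have hHBp : ∀ z ∈ Bp, 0 ≤ H z := by
    intro z hz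
    have h1 : um z = 0 := hum0 hz
    show 0 ≤ up z - um z
    rw [h1, sub_zero]
    exact (hup z).1
  have hHBm : ∀ z ∈ Bm, H z ≤ 0 := by
    intro z hz
    have h1 : up z = 0 := hup0 hz
    show up z - um z ≤ 0
    rw [h1, zero_sub]
    linarith [(hum z).1]
  have hHB : ∀ z ∈ Bp ∩ Bm, H z = 0 := fun z hz => le_antisymm (hHBm z hz.2) (hHBp z hz.1)
  have hBun : ∀ z, z ∈ Bp ∨ z ∈ Bm := fun z => by
    have : z ∈ Bp ∪ Bm := by rw [hBB]; exact mem_univ z
    exact this
  have hHNp : ∀ z ∈ Np, H z = 1 := by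
    intro z hz
    have hzBm : z ∉ Bm := fun hm => Set.disjoint_left.1 hNpBm hz hm
    have hzBp : z ∈ Bp := (hBun z).resolve_right hzBm
    have h1 : up z = 1 := hup1 hz
    have h2 : um z = 0 := hum0 hzBp
    show up z - um z = 1
    rw [h1, h2, sub_zero]
  have hHNm : ∀ z ∈ Nm, H z = -1 := by
    intro z hz
    have hzBp : z ∉ Bp := fun hm => Set.disjoint_left.1 hNmBp hz hm
    have hzBm : z ∈ Bm := (hBun z).resolve_left hzBp
    have h1 : um z = 1 := hum1 hz
    have h2 : up z = 0 := hup0 hzBm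
    show up z - um z = -1
    rw [h1, h2, zero_sub]
  have hB0A : ∀ z ∈ A, z ∈ Bp ∩ Bm → z ∈ A₀ := by
    intro z hz hzB
    rcases hAcov z hz with h1 | h1 | h1
    · exact h1
    · exact absurd hzB.2 (Set.disjoint_left.1 hNpBm h1)
    · exact absurd hzB.1 (Set.disjoint_left.1 hNmBp h1)
  -- the map on A ∪ B0
  set F₁ : Z × Iv → SusK P 1 → ℝ := fun z =>
    susf (fun a => (1 - |H z|) * (if z ∈ A then κ z a else k z a)) (H z) with hF₁
  have hF₁N : ∀ z, (z ∈ Np ∨ z ∈ Nm) → |H z| = 1 := by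
    rintro z (h1 | h1)
    · rw [hHNp z h1, abs_one]
    · rw [hHNm z h1, abs_neg, abs_one]
  have hF₁Q : ∀ z, z ∈ A ∨ z ∈ Bp ∩ Bm → F₁ z ∈ Rz (Qh Q') := by
    intro z hz
    by_cases hN : z ∈ Np ∨ z ∈ Nm
    · have h1 := hF₁N z hN
      have h2 : (fun a => (1 - |H z|) * (if z ∈ A then κ z a else k z a)) = fun _ => 0 := by
        ext a
        rw [h1]
        ring
      show susf (fun a => (1 - |H z|) * (if z ∈ A then κ z a else k z a)) (H z) ∈ Rz (Qh Q')
      rw [h2]
      refine susf_mem (fun _ => le_refl _) (fun _ _ => rfl) ?_ (fun a b ha => absurd rfl ha)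
      rw [h1, Finset.sum_const_zero]
      ring
    · have hc : (fun a => if z ∈ A then κ z a else k z a) ∈ Rz Q' := by
        by_cases hzA : z ∈ A
        · have h2 : z ∈ A₀ := (hAcov z hzA).resolve_right hN
          have h3 : (fun a => if z ∈ A then κ z a else k z a) = κ z := by
            ext a
            rw [if_pos hzA]
          rw [h3]
          exact Rz_mono hQQ' (hκQ z h2)
        · have h3 : (fun a => if z ∈ A then κ z a else k z a) = k z := by
            ext a
            rw [if_neg hzA]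
          rw [h3]
          exact hkQ z (hz.resolve_left hzA)
      obtain ⟨c1, c2, c3, c4⟩ := hc
      have hpos : 0 ≤ 1 - |H z| := by linarith [hHle z]
      refine susf_mem (fun a => mul_nonneg hpos (c1 a)) ?_ ?_ ?_
      · intro a ha
        have h5 : (if z ∈ A then κ z a else k z a) = 0 := c2 a ha
        show (1 - |H z|) * (if z ∈ A then κ z a else k z a) = 0
        rw [h5, mul_zero]
      · rw [← Finset.mul_sum, c3, mul_one]
      · intro a b ha hb
        exact c4 a b (right_ne_zero_of_mul ha) (right_ne_zero_of_mul hb)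
  have hF₁c : ContinuousOn F₁ (A ∪ (Bp ∩ Bm)) := by
    have e : A ∪ (Bp ∩ Bm) = (A₀ ∪ Np ∪ Nm) ∪ (Bp ∩ Bm) := by
      ext z
      constructor
      · rintro (hz | hz)
        · rcases hAcov z hz with h1 | h1 | h1
          · exact Or.inl (Or.inl (Or.inl h1))
          · exact Or.inl (Or.inl (Or.inr h1))
          · exact Or.inl (Or.inr h1)
        · exact Or.inr hz
      · rintro (((hz | hz) | hz) | hz)
        · exact Or.inl hz.1
        · exact Or.inl hz.1
        · exact Or.inl hz.1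
        · exact Or.inr hz
    rw [e]
    have hA₀1 : ContinuousOn F₁ A₀ := by
      refine ContinuousOn.congr (f := fun z => susf (fun a => (1 - |H z|) * κ z a) (H z)) ?_ ?_
      · refine continuousOn_susf ?_ hHc.continuousOn
        rw [continuousOn_pi]
        intro a
        exact (continuous_const.sub hHc.abs).continuousOn.mul
          ((continuous_apply a).comp_continuousOn hκc)
      · intro z hz
        show susf (fun a => (1 - |H z|) * (if z ∈ A then κ z a else k z a)) (H z) = _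
        simp only [hz.1, if_true]
    have hNp1 : ContinuousOn F₁ Np := by
      refine ContinuousOn.congr (f := fun _ => susf (fun _ => 0) 1) continuousOn_const ?_
      intro z hz
      show susf (fun a => (1 - |H z|) * (if z ∈ A then κ z a else k z a)) (H z) = _
      rw [hHNp z hz, abs_one]
      simp only [sub_self, zero_mul]
    have hNm1 : ContinuousOn F₁ Nm := by
      refine ContinuousOn.congr (f := fun _ => susf (fun _ => 0) (-1)) continuousOn_const ?_
      intro z hz
      show susf (fun a => (1 - |H z|) * (if z ∈ A then κ z a else k z a)) (H z) = _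
      rw [hHNm z hz, abs_neg, abs_one]
      simp only [sub_self, zero_mul]
    have hB1 : ContinuousOn F₁ (Bp ∩ Bm) := by
      refine ContinuousOn.congr (f := fun z => susf (k z) 0) (continuousOn_susf hkc
        continuousOn_const) ?_
      intro z hz
      show susf (fun a => (1 - |H z|) * (if z ∈ A then κ z a else k z a)) (H z) = _
      rw [hHB z hz, abs_zero]
      simp only [sub_zero, one_mul]
      congr 1
      ext a
      split_ifs with hzA
      · rw [hkκ z ⟨hB0A z hzA hz, hz⟩]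
      · rfl
    exact ((hA₀1.union_of_isClosed hNp1 hA₀c hNpc).union_of_isClosed hNm1 (hA₀c.union hNpc)
      hNmc).union_of_isClosed hB1 ((hA₀c.union hNpc).union hNmc) (hBpc.inter hBmc)
  have hABc : IsClosed (A ∪ (Bp ∩ Bm)) := hA.union (hBpc.inter hBmc)
  -- extension over the two halves
  obtain ⟨Gp, hGpc, hGpQ, hGp⟩ := hCon (Z × Iv) (SusK P 1) (QhT Q') pT
    ((A ∪ (Bp ∩ Bm)) ∩ Bp) F₁ (Finset.mem_insert_self _ _) (by
      intro x hx
      rcases sus_cases x with ⟨a, rfl⟩ | rfl | rfl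
      · exact trivial
      · exact le_refl _
      · exfalso
        rcases Finset.mem_insert.1 hx with h1 | h1
        · exact pT_ne_pF h1.symm
        · exact pF_notMem_map h1)
    (hABc.inter hBpc) (hF₁c.mono inter_subset_left) (by
      intro z hz
      refine mem_QhT_of (hF₁Q z hz.1) ?_
      show susf _ (H z) pF = 0
      rw [susf_pF]
      exact max_eq_right (by linarith [hHBp z hz.2]))
  obtain ⟨Gm, hGmc, hGmQ, hGm⟩ := hCon (Z × Iv) (SusK P 1) (QhF Q') pF
    ((A ∪ (Bp ∩ Bm)) ∩ Bm) F₁ (Finset.mem_insert_self _ _) (by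
      intro x hx
      rcases sus_cases x with ⟨a, rfl⟩ | rfl | rfl
      · exact trivial
      · exfalso
        rcases Finset.mem_insert.1 hx with h1 | h1
        · exact pT_ne_pF h1
        · exact pT_notMem_map h1
      · exact le_refl _)
    (hABc.inter hBmc) (hF₁c.mono inter_subset_left) (by
      intro z hz
      refine mem_QhF_of (hF₁Q z hz.1) ?_
      show susf _ (H z) pT = 0
      rw [susf_pT]
      exact max_eq_right (hHBm z hz.2))
  set G : Z × Iv → SusK P 1 → ℝ := fun z => if z ∈ Bp then Gp z else Gm z with hG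
  have hGBp : ∀ z ∈ Bp, G z = Gp z := fun z hz => if_pos hz
  have hGBm : ∀ z ∈ Bm, G z = Gm z := by
    intro z hz
    by_cases h1 : z ∈ Bp
    · rw [hGBp z h1, hGp z ⟨Or.inr ⟨h1, hz⟩, h1⟩, hGm z ⟨Or.inr ⟨h1, hz⟩, hz⟩]
    · exact if_neg h1
  have hGc : Continuous G := by
    rw [← continuousOn_univ, ← hBB]
    exact glue2 hBpc hBmc hGpc.continuousOn hGmc.continuousOn hGBp hGBm
  have hGQ : ∀ z, G z ∈ Rz (Qh Q') := by
    intro z
    rcases hBun z with h1 | h1
    · rw [hGBp z h1]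
      exact Rz_mono (QhT_subset Q') (hGpQ z)
    · rw [hGBm z h1]
      exact Rz_mono (QhF_subset Q') (hGmQ z)
  have hGA : ∀ z ∈ A, G z = F₁ z := by
    intro z hz
    rcases hBun z with h1 | h1
    · rw [hGBp z h1, hGp z ⟨Or.inl hz, h1⟩]
    · rw [hGBm z h1, hGm z ⟨Or.inl hz, h1⟩]
  -- the homotopy
  set Hs : (Z × Iv) × Set.Icc (0 : ℝ) 1 → ℝ := fun w => (1 - (w.2 : ℝ)) * h w.1 + w.2 * H w.1
    with hHs
  have hHsc : ContinuousOn Hs (A ×ˢ univ) := by
    have h1 : ContinuousOn (fun w : (Z × Iv) × Set.Icc (0 : ℝ) 1 => h w.1) (A ×ˢ univ) :=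
      hhc.comp continuous_fst.continuousOn fun w hw => hw.1
    have h2 : Continuous fun w : (Z × Iv) × Set.Icc (0 : ℝ) 1 => (w.2 : ℝ) :=
      continuous_subtype_val.comp continuous_snd
    exact ((continuous_const.sub h2).continuousOn.mul h1).add
      (h2.mul (hHc.comp continuous_fst)).continuousOn
  have hHsle : ∀ w ∈ A ×ˢ (univ : Set (Set.Icc (0 : ℝ) 1)), |Hs w| ≤ 1 := by
    rintro ⟨z, s⟩ ⟨hz, -⟩
    have h1 := hle1 z hz
    have h2 := hHle z
    have h3 := s.2.1
    have h4 := s.2.2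
    show |(1 - (s : ℝ)) * h z + s * H z| ≤ 1
    refine (abs_add_le _ _).trans ?_
    rw [abs_mul, abs_mul, abs_of_nonneg h3, abs_of_nonneg (by linarith : 0 ≤ 1 - (s : ℝ))]
    nlinarith
  set K : (Z × Iv) × Set.Icc (0 : ℝ) 1 → SusK P 1 → ℝ := fun w =>
    susf (fun a => if w.1 ∈ A₀ then (1 - |Hs w|) * κ w.1 a else
      (1 - (w.2 : ℝ)) * f w.1 (SusK.base a)) (Hs w) with hK
  have hHsN : ∀ z s, (z ∈ Np ∨ z ∈ Nm) → 1 - |Hs (z, s)| = (1 - (s : ℝ)) * (1 - |h z|) := by
    intro z s hz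
    have h3 := s.2.1
    have h4 := s.2.2
    rcases hz with hz | hz
    · have h5 : (1 / 2 : ℝ) ≤ h z := hz.2
      have h6 := hHNp z hz
      have h7 : Hs (z, s) = (1 - (s : ℝ)) * h z + s := by
        show (1 - (s : ℝ)) * h z + s * H z = _
        rw [h6, mul_one]
      have h8 : 0 ≤ (1 - (s : ℝ)) * h z := mul_nonneg (by linarith) (by linarith)
      rw [h7, abs_of_nonneg (by linarith), abs_of_nonneg (by linarith)]
      ring
    · have h5 : h z ≤ -(1 / 2 : ℝ) := hz.2
      have h6 := hHNm z hz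
      have h7 : Hs (z, s) = (1 - (s : ℝ)) * h z - s := by
        show (1 - (s : ℝ)) * h z + s * H z = _
        rw [h6]
        ring
      have h8 : (1 - (s : ℝ)) * h z ≤ 0 := mul_nonpos_of_nonneg_of_nonpos (by linarith) (by linarith)
      rw [h7, abs_of_nonpos (by linarith), abs_of_nonpos (by linarith)]
      ring
  have hKeq : ∀ z s, (z ∈ Np ∨ z ∈ Nm) → K (z, s) = susf (fun a => (1 - (s : ℝ)) *
      f z (SusK.base a)) (Hs (z, s)) := by
    intro z s hz
    show susf (fun a => if z ∈ A₀ then (1 - |Hs (z, s)|) * κ z a else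
      (1 - (s : ℝ)) * f z (SusK.base a)) (Hs (z, s)) = _
    congr 1
    ext a
    split_ifs with h0
    · rw [hHsN z s hz]
      have h1 : 1 - |h z| ≠ 0 := by
        have := hA₀lt z h0
        linarith
      show (1 - (s : ℝ)) * (1 - |h z|) * (f z (SusK.base a) / (1 - |h z|)) = _
      field_simp
    · rfl
  have hKQ : ∀ w ∈ A ×ˢ (univ : Set (Set.Icc (0 : ℝ) 1)), K w ∈ Rz (Qh Q') := by
    rintro ⟨z, s⟩ hw
    have hz : z ∈ A := hw.1
    have hpos : 0 ≤ 1 - |Hs (z, s)| := by linarith [hHsle _ hw]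
    rcases hAcov z hz with h1 | h1
    · have e : K (z, s) = susf (fun a => (1 - |Hs (z, s)|) * κ z a) (Hs (z, s)) := by
        show susf (fun a => if z ∈ A₀ then (1 - |Hs (z, s)|) * κ z a else
          (1 - (s : ℝ)) * f z (SusK.base a)) (Hs (z, s)) = _
        simp only [h1, if_true]
      rw [e]
      obtain ⟨c1, c2, c3, c4⟩ := Rz_mono hQQ' (hκQ z h1)
      refine susf_mem (fun a => mul_nonneg hpos (c1 a)) ?_ ?_ ?_
      · intro a ha
        show (1 - |Hs (z, s)|) * κ z a = 0
        rw [c2 a ha, mul_zero]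
      · rw [← Finset.mul_sum, c3, mul_one]
      · intro a b ha hb
        exact c4 a b (right_ne_zero_of_mul ha) (right_ne_zero_of_mul hb)
    · rw [hKeq z s h1]
      have hs : 0 ≤ 1 - (s : ℝ) := by linarith [s.2.2]
      refine susf_mem (fun a => mul_nonneg hs ((hfQ z hz).1 _)) ?_ ?_ ?_
      · intro a ha
        show (1 - (s : ℝ)) * f z (SusK.base a) = 0
        rw [(hfQ z hz).2.1 _ (fun h2 => ha (hQQ' (mem_Qh.1 h2))), mul_zero]
      · rw [← Finset.mul_sum, hHsN z s h1]
        congr 1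
        rw [← hsum z hz]
        symm
        refine Finset.sum_subset hQQ' fun a _ ha => ?_
        exact (hfQ z hz).2.1 _ fun h2 => ha (mem_Qh.1 h2)
      · intro a b ha hb
        exact (hfQ z hz).2.2.2 (SusK.base a) (SusK.base b) (right_ne_zero_of_mul ha)
          (right_ne_zero_of_mul hb)
  have hKc : ContinuousOn K (A ×ˢ univ) := by
    have e : A ×ˢ (univ : Set (Set.Icc (0 : ℝ) 1)) = (A₀ ×ˢ univ) ∪ ((Np ∪ Nm) ×ˢ univ) := by
      ext ⟨z, s⟩
      constructor
      · rintro ⟨hz, -⟩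
        rcases hAcov z hz with h1 | h1
        · exact Or.inl ⟨h1, mem_univ _⟩
        · exact Or.inr ⟨h1, mem_univ _⟩
      · rintro (⟨hz, -⟩ | ⟨hz | hz, -⟩)
        · exact ⟨hz.1, mem_univ _⟩
        · exact ⟨hz.1, mem_univ _⟩
        · exact ⟨hz.1, mem_univ _⟩
    rw [e]
    have hsub1 : A₀ ×ˢ (univ : Set (Set.Icc (0 : ℝ) 1)) ⊆ A ×ˢ univ := fun w hw => ⟨hw.1.1, hw.2⟩
    have hsub2 : (Np ∪ Nm) ×ˢ (univ : Set (Set.Icc (0 : ℝ) 1)) ⊆ A ×ˢ univ := by
      rintro w ⟨h1 | h1, h2⟩
      · exact ⟨h1.1, h2⟩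
      · exact ⟨h1.1, h2⟩
    refine glue2 (hA₀c.prod isClosed_univ) ((hNpc.union hNmc).prod isClosed_univ)
      (f := fun w => susf (fun a => (1 - |Hs w|) * κ w.1 a) (Hs w))
      (g := fun w => susf (fun a => (1 - (w.2 : ℝ)) * f w.1 (SusK.base a)) (Hs w)) ?_ ?_ ?_ ?_
    · refine continuousOn_susf ?_ (hHsc.mono hsub1)
      rw [continuousOn_pi]
      intro a
      refine (continuousOn_const.sub (hHsc.mono hsub1).abs).mul ?_
      exact ((continuous_apply a).comp_continuousOn hκc).comp continuous_fst.continuousOn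
        fun w hw => hw.1
    · refine continuousOn_susf ?_ (hHsc.mono hsub2)
      rw [continuousOn_pi]
      intro a
      have h2 : Continuous fun w : (Z × Iv) × Set.Icc (0 : ℝ) 1 => (w.2 : ℝ) :=
        continuous_subtype_val.comp continuous_snd
      refine (continuous_const.sub h2).continuousOn.mul ?_
      exact ((continuous_apply _).comp_continuousOn hf).comp continuous_fst.continuousOn
        fun w hw => (hsub2 hw).1
    · rintro ⟨z, s⟩ hw
      have h1 : z ∈ A₀ := hw.1
      show susf (fun a => if z ∈ A₀ then (1 - |Hs (z, s)|) * κ z a else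
        (1 - (s : ℝ)) * f z (SusK.base a)) (Hs (z, s)) = _
      simp only [h1, if_true]
    · rintro ⟨z, s⟩ hw
      exact hKeq z s hw.1
  obtain ⟨g', hg'c, hg'Q, hg'⟩ := hHep (Z × Iv) (SusK P 1) (Qh Q') A K G hA hKc hKQ hGc hGQ (by
    intro z hz
    rw [hGA z hz]
    have hs1 : Hs (z, 1) = H z := by
      show (1 - ((1 : Set.Icc (0 : ℝ) 1) : ℝ)) * h z + ((1 : Set.Icc (0 : ℝ) 1) : ℝ) * H z = H z
      simp
    rcases hAcov z hz with h1 | h1
    · show susf (fun a => (1 - |H z|) * (if z ∈ A then κ z a else k z a)) (H z) =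
        susf (fun a => if z ∈ A₀ then (1 - |Hs (z, 1)|) * κ z a else
          (1 - ((1 : Set.Icc (0 : ℝ) 1) : ℝ)) * f z (SusK.base a)) (Hs (z, 1))
      rw [hs1]
      simp only [h1, hz, if_true]
    · rw [hKeq z 1 h1, hs1]
      show susf (fun a => (1 - |H z|) * (if z ∈ A then κ z a else k z a)) (H z) = _
      rw [hF₁N z h1]
      congr 1
      ext a
      simp)
  refine ⟨Qh Q', g', hRQ.trans (Qh_mono hQQ'), hg'c, hg'Q, ?_⟩
  intro z hz
  rw [hg' z hz]
  have hs0 : Hs (z, 0) = h z := by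
    show (1 - ((0 : Set.Icc (0 : ℝ) 1) : ℝ)) * h z + ((0 : Set.Icc (0 : ℝ) 1) : ℝ) * H z = h z
    simp
  rcases hAcov z hz with h1 | h1
  · rw [hfeq z hz]
    show susf (fun a => if z ∈ A₀ then (1 - |Hs (z, 0)|) * κ z a else
      (1 - ((0 : Set.Icc (0 : ℝ) 1) : ℝ)) * f z (SusK.base a)) (Hs (z, 0)) = _
    rw [hs0]
    congr 1
    ext a
    rw [if_pos h1]
    have h2 : 1 - |h z| ≠ 0 := by
      have := hA₀lt z h1
      linarith
    show (1 - |h z|) * (f z (SusK.base a) / (1 - |h z|)) = f z (SusK.base a)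
    field_simp
  · rw [hKeq z 0 h1, hs0]
    conv_rhs => rw [hfeq z hz]
    congr 1
    ext a
    simp

end Pool.Agent.SH


end

section

/-!
# The iterated product theorem
-/

set_option autoImplicit false

open Set Topology

namespace Pool.Agent.SH

theorem Rz_comp_iff {P P' : Type} [PartialOrder P] [PartialOrder P'] (e : P ≃o P') (Q : Finset P')
    (p : P' → ℝ) : (fun a => p (e a)) ∈ Rz (Q.map e.symm.toEquiv.toEmbedding) ↔ p ∈ Rz Q := by
  constructor
  · rintro ⟨h1, h2, h3, h4⟩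
    refine ⟨?_, ?_, ?_, ?_⟩
    · intro a
      have h5 : 0 ≤ p (e (e.symm a)) := h1 (e.symm a)
      rwa [e.apply_symm_apply] at h5
    · intro a ha
      have h5 : p (e (e.symm a)) = 0 := h2 (e.symm a) (by
        intro h
        rw [Finset.mem_map] at h
        obtain ⟨b, hb, hb'⟩ := h
        have : b = a := e.symm.injective hb'
        exact ha (this ▸ hb))
      rwa [e.apply_symm_apply] at h5
    · rw [Finset.sum_map] at h3
      rw [← h3]
      refine Finset.sum_congr rfl fun a _ => ?_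
      show p a = p (e (e.symm a))
      rw [e.apply_symm_apply]
    · intro a b ha hb
      have := h4 (e.symm a) (e.symm b)
        (by show p (e (e.symm a)) ≠ 0; rwa [e.apply_symm_apply])
        (by show p (e (e.symm b)) ≠ 0; rwa [e.apply_symm_apply])
      simpa using this
  · rintro ⟨h1, h2, h3, h4⟩
    refine ⟨?_, ?_, ?_, ?_⟩
    · intro a
      exact h1 _
    · intro a ha
      refine h2 _ ?_
      intro h
      apply ha
      rw [Finset.mem_map]
      exact ⟨e a, h, e.symm_apply_apply a⟩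
    · rw [Finset.sum_map]
      rw [← h3]
      refine Finset.sum_congr rfl fun a _ => ?_
      show p (e (e.symm a)) = p a
      rw [e.apply_symm_apply]
    · intro a b ha hb
      have := h4 (e a) (e b) ha hb
      simpa using this

/-- The extension property is invariant under order isomorphisms. -/
theorem Ext.congr_order {Z P P' : Type} [TopologicalSpace Z] [PartialOrder P] [PartialOrder P']
    (e : P ≃o P') (h : Ext Z P) : Ext Z P' := by
  intro A Q f hA hf hfQ
  obtain ⟨R, g, hR, hg, hgR, hgA⟩ := h A (Q.map e.symm.toEquiv.toEmbedding)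
    (fun z a => f z (e a)) hA (by
      rw [continuousOn_pi]
      intro a
      exact (continuous_apply (e a)).comp_continuousOn hf)
    (fun z hz => (Rz_comp_iff e Q (f z)).2 (hfQ z hz))
  refine ⟨R.map e.toEquiv.toEmbedding, fun z a => g z (e.symm a), ?_, ?_, ?_, ?_⟩
  · intro a ha
    rw [Finset.mem_map]
    refine ⟨e.symm a, hR ?_, e.apply_symm_apply a⟩
    rw [Finset.mem_map]
    exact ⟨a, ha, rfl⟩
  · rw [continuous_pi_iff]
    intro a
    exact (continuous_apply _).comp hg
  · intro z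
    exact (Rz_comp_iff e.symm R (g z)).2 (hgR z)
  · intro z hz
    ext a
    show g z (e.symm a) = f z a
    rw [hgA z hz]
    show f z (e (e.symm a)) = f z a
    rw [e.apply_symm_apply]

/-- The extension property is invariant under homeomorphisms. -/
theorem Ext.congr_homeo {Z Z' P : Type} [TopologicalSpace Z] [TopologicalSpace Z']
    [PartialOrder P] (e : Z ≃ₜ Z') (h : Ext Z P) : Ext Z' P := by
  intro A Q f hA hf hfQ
  obtain ⟨R, g, hR, hg, hgR, hgA⟩ := h (e ⁻¹' A) Q (fun z => f (e z)) (hA.preimage e.continuous)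
    (hf.comp e.continuous.continuousOn fun z hz => hz) (fun z hz => hfQ _ hz)
  refine ⟨R, fun z => g (e.symm z), hR, hg.comp e.symm.continuous, fun z => hgR _, ?_⟩
  intro z hz
  show g (e.symm z) = f z
  rw [hgA (e.symm z) (by
    show e (e.symm z) ∈ A
    rw [e.apply_symm_apply]
    exact hz)]
  show f (e (e.symm z)) = f z
  rw [e.apply_symm_apply]

/-- No suspension. -/
def susZero (P : Type) [PartialOrder P] : P ≃o SusK P 0 where
  toFun := SusK.base
  invFun := fun x => match x with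
    | SusK.base a => a
    | SusK.pole i _ => i.elim0
  left_inv := fun a => rfl
  right_inv := by
    rintro (a | ⟨i, e⟩)
    · rfl
    · exact i.elim0
  map_rel_iff' := Iff.rfl

/-- One more suspension. -/
def susSucc (P : Type) [PartialOrder P] (k : ℕ) : SusK (SusK P k) 1 ≃o SusK P (k + 1) where
  toFun := fun x => match x with
    | SusK.base (SusK.base a) => SusK.base a
    | SusK.base (SusK.pole i e) => SusK.pole i.castSucc e
    | SusK.pole _ e => SusK.pole (Fin.last k) e
  invFun := fun x => match x with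
    | SusK.base a => SusK.base (SusK.base a)
    | SusK.pole i e => if h : (i : ℕ) < k then SusK.base (SusK.pole ⟨i, h⟩ e) else SusK.pole 0 e
  left_inv := by
    rintro ((a | ⟨i, e⟩) | ⟨i, e⟩)
    · rfl
    · show (if h : ((i.castSucc : Fin (k + 1)) : ℕ) < k then
        (SusK.base (SusK.pole ⟨i.castSucc, h⟩ e) : SusK (SusK P k) 1) else SusK.pole 0 e) = _
      have h : ((i.castSucc : Fin (k + 1)) : ℕ) < k := i.2
      rw [dif_pos h]
      rfl
    · show (if h : ((Fin.last k : Fin (k + 1)) : ℕ) < k then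
        (SusK.base (SusK.pole ⟨Fin.last k, h⟩ e) : SusK (SusK P k) 1) else SusK.pole 0 e) = _
      have h : ¬ ((Fin.last k : Fin (k + 1)) : ℕ) < k := by simp
      rw [dif_neg h]
      have : i = 0 := Subsingleton.elim _ _
      rw [this]
  right_inv := by
    rintro (a | ⟨i, e⟩)
    · rfl
    · by_cases h : (i : ℕ) < k
      · simp only [h, dif_pos]
        rfl
      · simp only [h, dif_neg, not_false_eq_true]
        have : i = Fin.last k := by
          apply Fin.ext
          have := i.2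
          simp only [Fin.val_last]
          omega
        rw [this]
  map_rel_iff' := by
    rintro ((a | ⟨i, e⟩) | ⟨i, e⟩) ((b | ⟨j, e'⟩) | ⟨j, e'⟩)
    · exact Iff.rfl
    · exact Iff.rfl
    · exact Iff.rfl
    · exact Iff.rfl
    · show (i.castSucc < j.castSucc ∨ (i.castSucc = j.castSucc ∧ e = e')) ↔
        (i < j ∨ (i = j ∧ e = e'))
      simp
    · show (i.castSucc < Fin.last k ∨ (i.castSucc = Fin.last k ∧ e = e')) ↔ True
      simp [Fin.castSucc_lt_last]
    · exact Iff.rfl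
    · show (Fin.last k < j.castSucc ∨ (Fin.last k = j.castSucc ∧ e = e')) ↔ False
      have h1 : j.castSucc < Fin.last k := Fin.castSucc_lt_last j
      constructor
      · rintro (h | ⟨h, -⟩)
        · exact lt_asymm h h1
        · exact h1.ne' h
      · exact False.elim
    · show (Fin.last k < Fin.last k ∨ (Fin.last k = Fin.last k ∧ e = e')) ↔
        (i < j ∨ (i = j ∧ e = e'))
      have hi : i = 0 := Subsingleton.elim _ _
      have hj : j = 0 := Subsingleton.elim _ _
      subst hi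
      subst hj
      simp

/-- The cube of dimension `k + 1`. -/
def cubeSucc (X : Type) [TopologicalSpace X] (k : ℕ) :
    ((Fin k → Iv) × X) × Iv ≃ₜ (Fin (k + 1) → Iv) × X where
  toFun := fun z => (Fin.snoc (α := fun _ => Iv) z.1.1 z.2, z.1.2)
  invFun := fun z => ((fun i => z.1 i.castSucc, z.2), z.1 (Fin.last k))
  left_inv := by
    rintro ⟨⟨q, x⟩, t⟩
    simp
  right_inv := by
    rintro ⟨q, x⟩
    ext i
    · refine Fin.lastCases ?_ (fun j => ?_) i
      · simp
      · simp
    · rfl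
  continuous_toFun := by
    refine Continuous.prodMk ?_ (continuous_snd.comp continuous_fst)
    rw [continuous_pi_iff]
    intro i
    refine Fin.lastCases ?_ (fun j => ?_) i
    · simp only [Fin.snoc_last]
      exact continuous_snd
    · simp only [Fin.snoc_castSucc]
      exact (continuous_apply j).comp (continuous_fst.comp continuous_fst)
  continuous_invFun := by
    refine Continuous.prodMk (Continuous.prodMk ?_ continuous_snd) ?_
    · rw [continuous_pi_iff]
      intro i
      exact (continuous_apply i.castSucc).comp continuous_fst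
    · exact (continuous_apply (Fin.last k)).comp continuous_fst

theorem ITX (hP : Stmt_PROD) : Stmt_ITX := by
  intro X _ _ _ P _ _ hExt k
  induction k with
  | zero =>
    have h1 : Ext X (SusK P 0) := Ext.congr_order (susZero P) hExt
    exact Ext.congr_homeo ((Homeomorph.uniqueProd (Fin 0 → Iv) X).symm) h1
  | succ k ih =>
    haveI : Nonempty (SusK P k) := ⟨SusK.base (Classical.arbitrary P)⟩
    have h1 := hP ((Fin k → Iv) × X) (SusK P k) ih
    exact Ext.congr_homeo (cubeSucc X k) (Ext.congr_order (susSucc P k) h1)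

end Pool.Agent.SH


end

section

/-!
# MP_2d0b73_an: module SCAN (the scanning map for labelled configurations)
-/

set_option autoImplicit false

open Set Topology

namespace Pool.Agent.SH

namespace SCAN

/-! ### Chains -/

theorem exists_top {P : Type} [PartialOrder P] (s : Finset P) (hs : s.Nonempty)
    (hc : ∀ a ∈ s, ∀ b ∈ s, a ≤ b ∨ b ≤ a) : ∃ m ∈ s, ∀ a ∈ s, a ≤ m := by
  obtain ⟨m, hm⟩ := s.exists_maximal hs
  refine ⟨m, hm.1, fun a ha => ?_⟩
  rcases hc a ha m hm.1 with h | h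
  · exact h
  · exact hm.2 ha h

theorem exists_bot {P : Type} [PartialOrder P] (s : Finset P) (hs : s.Nonempty)
    (hc : ∀ a ∈ s, ∀ b ∈ s, a ≤ b ∨ b ≤ a) : ∃ m ∈ s, ∀ a ∈ s, m ≤ a := by
  obtain ⟨m, hm⟩ := s.exists_minimal hs
  refine ⟨m, hm.1, fun a ha => ?_⟩
  rcases hc m hm.1 a ha with h | h
  · exact h
  · exact hm.2 ha h

theorem isClosed_Rz {P : Type} [PartialOrder P] (Q : Finset P) : IsClosed (Rz Q) := by
  have e : Rz Q = {p : P → ℝ | ∀ a, 0 ≤ p a} ∩ ({p | ∀ a, a ∉ Q → p a = 0} ∩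
      ({p | ∑ a ∈ Q, p a = 1} ∩ {p | ∀ a b, p a ≠ 0 → p b ≠ 0 → a ≤ b ∨ b ≤ a})) := rfl
  rw [e]
  refine IsClosed.inter ?_ (IsClosed.inter ?_ (IsClosed.inter ?_ ?_))
  · rw [Set.ofPred_forall]
    exact isClosed_iInter fun a => isClosed_le continuous_const (continuous_apply a)
  · rw [Set.ofPred_forall]
    refine isClosed_iInter fun a => ?_
    by_cases ha : a ∈ Q
    · simp [ha]
    · simp only [ha, not_false_eq_true, true_imp_iff]
      exact isClosed_eq (continuous_apply a) continuous_const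
  · exact isClosed_eq (continuous_finsetSum _ fun a _ => continuous_apply a) continuous_const
  · rw [Set.ofPred_forall]
    refine isClosed_iInter fun a => ?_
    rw [Set.ofPred_forall]
    refine isClosed_iInter fun b => ?_
    by_cases hab : a ≤ b ∨ b ≤ a
    · simp [hab]
    · have e2 : {p : P → ℝ | p a ≠ 0 → p b ≠ 0 → a ≤ b ∨ b ≤ a} =
          {p | p a = 0} ∪ {p | p b = 0} := by
        ext p
        simp only [hab, Set.mem_ofPred_eq, Set.mem_union]
        tauto
      rw [e2]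
      exact (isClosed_eq (continuous_apply a) continuous_const).union
        (isClosed_eq (continuous_apply b) continuous_const)

theorem supp_top {P : Type} [PartialOrder P] {Q : Finset P} {g : P → ℝ} (hg : g ∈ Rz Q) :
    ∃ m ∈ Q, g m ≠ 0 ∧ ∀ e ∈ Q, g e ≠ 0 → e ≤ m := by
  classical
  have hne : (Q.filter fun e => g e ≠ 0).Nonempty := by
    rw [Finset.nonempty_iff_ne_empty]
    intro h
    have h1 : ∑ a ∈ Q, g a = 0 := by
      refine Finset.sum_eq_zero fun a ha => ?_
      by_contra hne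
      have : a ∈ Q.filter fun e => g e ≠ 0 := Finset.mem_filter.2 ⟨ha, hne⟩
      rw [h] at this
      simp at this
    rw [hg.2.2.1] at h1
    exact one_ne_zero h1
  obtain ⟨m, hm, hm'⟩ := exists_top _ hne fun a ha b hb =>
    hg.2.2.2 a b (Finset.mem_filter.1 ha).2 (Finset.mem_filter.1 hb).2
  exact ⟨m, (Finset.mem_filter.1 hm).1, (Finset.mem_filter.1 hm).2,
    fun e he he' => hm' e (Finset.mem_filter.2 ⟨he, he'⟩)⟩

theorem supp_bot {P : Type} [PartialOrder P] {Q : Finset P} {g : P → ℝ} (hg : g ∈ Rz Q) :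
    ∃ m ∈ Q, g m ≠ 0 ∧ ∀ e ∈ Q, g e ≠ 0 → m ≤ e := by
  classical
  obtain ⟨m0, h0, h0', -⟩ := supp_top hg
  obtain ⟨m, hm, hm'⟩ := exists_bot (Q.filter fun e => g e ≠ 0)
    ⟨m0, Finset.mem_filter.2 ⟨h0, h0'⟩⟩ fun a ha b hb =>
    hg.2.2.2 a b (Finset.mem_filter.1 ha).2 (Finset.mem_filter.1 hb).2
  exact ⟨m, (Finset.mem_filter.1 hm).1, (Finset.mem_filter.1 hm).2,
    fun e he he' => hm' e (Finset.mem_filter.2 ⟨he, he'⟩)⟩

/-! ### Labels along chains -/

theorem lab_mono {S : Type} [PartialOrder S] [Zero S] {e' e'' e : LL S} (h1 : e' ≤ e'')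
    (h2 : e'' ≤ e) {c : ℕ →₀ ℕ} (hc : c ∈ e.C.support) :
    e'.C (res e'.J c) ≤ e''.C (res e''.J c) := by
  by_cases hb : res e''.J c ∈ e''.C.support
  · have := h1.2.1 _ hb
    rwa [res_res h1.1] at this
  · have h0 : e'.C (res e'.J c) = 0 := by
      by_contra hne
      obtain ⟨a, ha, ha'⟩ := h1.2.2 _ (Finsupp.mem_support_iff.2 hne)
      obtain ⟨a', ha2, rfl⟩ := h2.2.2 a ha
      rw [res_res h1.1] at ha'
      obtain ⟨j, hj⟩ := e'.ne
      have h7 : a' j = c j := by
        have := DFunLike.congr_fun ha' j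
        rwa [res_apply_mem hj, res_apply_mem hj] at this
      have h8 : a' = c := by
        by_contra hne'
        exact e.inj a' ha2 c hc hne' j (h2.1 (h1.1 hj)) h7
      exact hb (h8 ▸ ha)
    rw [h0, Finsupp.notMem_support_iff.1 hb]

/-! ### The map `F` -/

/-- The size of the transversal part. -/
noncomputable def rho {R : ℕ} (x : Fin 3 → ℝ) (v : Fin R → ℝ) : ℝ :=
  max (max |x 1| |x 2|) (max ‖v‖ (1 - x 0))

/-- The map `F`. -/
noncomputable def FF {R : ℕ} (x : Fin 3 → ℝ) (v : Fin R → ℝ) : (Fin 3 → ℝ) × (Fin R → ℝ) :=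
  (fun i => if i = 0 then max (1 - 4 * rho x v) (-1) else max (1 - 2 * rho x v) 0 * x i,
    fun j => max (1 - 2 * rho x v) 0 * v j)

theorem continuous_rho (R : ℕ) :
    Continuous fun q : (Fin 3 → ℝ) × (Fin R → ℝ) => rho q.1 q.2 := by
  unfold rho
  fun_prop

theorem continuous_FF (R : ℕ) :
    Continuous fun q : (Fin 3 → ℝ) × (Fin R → ℝ) => FF q.1 q.2 := by
  have h := continuous_rho R
  unfold FF
  refine Continuous.prodMk (continuous_pi fun i => ?_) (continuous_pi fun j => ?_)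
  · by_cases hi : i = 0
    · simp only [hi, if_true]
      exact (continuous_const.sub (continuous_const.mul h)).max continuous_const
    · simp only [hi, if_false]
      exact ((continuous_const.sub (continuous_const.mul h)).max continuous_const).mul
        ((continuous_apply i).comp continuous_fst)
  · exact ((continuous_const.sub (continuous_const.mul h)).max continuous_const).mul
      ((continuous_apply j).comp continuous_snd)

theorem FF_of_le {R : ℕ} {x : Fin 3 → ℝ} {v : Fin R → ℝ} (h : 1 / 2 ≤ rho x v) :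
    FF x v = me0 R := by
  have h1 : max (1 - 2 * rho x v) 0 = 0 := max_eq_right (by linarith)
  have h2 : max (1 - 4 * rho x v) (-1) = -1 := max_eq_right (by linarith)
  unfold FF me0
  rw [h1, h2]
  simp

theorem rho_ge_x0 {R : ℕ} (x : Fin 3 → ℝ) (v : Fin R → ℝ) : 1 - x 0 ≤ rho x v :=
  (le_max_right _ _).trans (le_max_right _ _)

theorem rho_ge_v {R : ℕ} (x : Fin 3 → ℝ) (v : Fin R → ℝ) : ‖v‖ ≤ rho x v :=
  (le_max_left _ _).trans (le_max_right _ _)

theorem rho_ge_x1 {R : ℕ} (x : Fin 3 → ℝ) (v : Fin R → ℝ) : |x 1| ≤ rho x v :=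
  (le_max_left _ _).trans (le_max_left _ _)

theorem rho_ge_x2 {R : ℕ} (x : Fin 3 → ℝ) (v : Fin R → ℝ) : |x 2| ≤ rho x v :=
  (le_max_right _ _).trans (le_max_left _ _)

/-- If `‖x‖ = 1` and `x_1 = x_2 = 0 < x_0` and `v = 0` then `rho = 0`. -/
theorem rho_eq_zero {R : ℕ} {x : Fin 3 → ℝ} {v : Fin R → ℝ} (hx : ‖x‖ = 1) (h0 : 0 < x 0)
    (h1 : x 1 = 0) (h2 : x 2 = 0) (hv : v = 0) : rho x v = 0 ∧ x 0 = 1 := by
  have h3 : |x 0| ≤ 1 := by
    have := norm_le_pi_norm x 0
    rwa [hx] at this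
  have h4 : x 0 = 1 := by
    apply le_antisymm ((le_abs_self _).trans h3)
    by_contra hlt
    push Not at hlt
    have h5 : ‖x‖ < 1 := by
      rw [pi_norm_lt_iff one_pos]
      intro i
      fin_cases i
      · show |x 0| < 1
        rw [abs_of_pos h0]
        exact hlt
      · show |x 1| < 1
        rw [h1, abs_zero]
        exact one_pos
      · show |x 2| < 1
        rw [h2, abs_zero]
        exact one_pos
    rw [hx] at h5
    exact lt_irrefl _ h5
  refine ⟨?_, h4⟩
  unfold rho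
  rw [h1, h2, h4, hv]
  simp

theorem x0_pos_of_rho {R : ℕ} {x : Fin 3 → ℝ} {v : Fin R → ℝ} (h : rho x v < 1 / 2) :
    0 < x 0 := by
  have := rho_ge_x0 x v
  linarith

theorem me0_ne (R : ℕ) : me0 R ≠ 0 := by
  intro h
  have h1 := congrFun (congrArg Prod.fst h) 0
  simp [me0] at h1

theorem FF_ne {R : ℕ} {x : Fin 3 → ℝ} (hx : ‖x‖ = 1) (v : Fin R → ℝ) : FF x v ≠ 0 := by
  intro h
  rcases le_or_gt (1 / 2) (rho x v) with h1 | h1
  · rw [FF_of_le h1] at h
    exact me0_ne R h
  · have hk : 0 < max (1 - 2 * rho x v) 0 := lt_max_of_lt_left (by linarith)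
    have hx1 : x 1 = 0 := by
      have := congrFun (congrArg Prod.fst h) 1
      simp only [FF, Prod.fst_zero, Pi.zero_apply] at this
      rw [if_neg (by decide)] at this
      exact (mul_eq_zero.1 this).resolve_left hk.ne'
    have hx2 : x 2 = 0 := by
      have := congrFun (congrArg Prod.fst h) 2
      simp only [FF, Prod.fst_zero, Pi.zero_apply] at this
      rw [if_neg (by decide)] at this
      exact (mul_eq_zero.1 this).resolve_left hk.ne'
    have hv : v = 0 := by
      funext j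
      have := congrFun (congrArg Prod.snd h) j
      simp only [FF, Prod.snd_zero, Pi.zero_apply] at this
      exact (mul_eq_zero.1 this).resolve_left hk.ne'
    have hr := (rho_eq_zero hx (x0_pos_of_rho h1) hx1 hx2 hv).1
    have h3 := congrFun (congrArg Prod.fst h) 0
    simp only [FF, if_true, hr, Prod.fst_zero, Pi.zero_apply] at h3
    norm_num at h3

theorem FF_anti {R : ℕ} {x : Fin 3 → ℝ} (hx : ‖x‖ = 1) {lam : ℝ} (hlam : 0 < lam)
    (r : Fin R → ℝ) {μ d : ℝ} (hμ : 0 ≤ μ) (hd : 0 < d) :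
    FF x (fun j => lam * r j) ≠ -(μ • ((d • x, r) : (Fin 3 → ℝ) × (Fin R → ℝ))) := by
  intro h
  set v : Fin R → ℝ := fun j => lam * r j with hvdef
  have hμd : 0 ≤ μ * d := mul_nonneg hμ hd.le
  have c0 : (FF x v).1 0 = -(μ * (d * x 0)) := by rw [h]; rfl
  have c1 : (FF x v).1 1 = -(μ * (d * x 1)) := by rw [h]; rfl
  have c2 : (FF x v).1 2 = -(μ * (d * x 2)) := by rw [h]; rfl
  have c3 : ∀ j, (FF x v).2 j = -(μ * r j) := fun j => by rw [h]; rfl
  rcases le_or_gt (1 / 2) (rho x v) with h1 | h1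
  · rw [FF_of_le h1] at c0 c1 c2 c3
    simp only [me0, if_true] at c0
    have e1 : (1 : Fin 3) ≠ 0 := by decide
    have e2 : (2 : Fin 3) ≠ 0 := by decide
    simp only [me0, if_neg e1] at c1
    simp only [me0, if_neg e2] at c2
    have hμ0 : μ ≠ 0 := by
      rintro rfl
      norm_num at c0
    have hpos : 0 < μ * d := lt_of_le_of_ne hμd (mul_ne_zero hμ0 hd.ne').symm
    have hx0 : 0 < x 0 := by
      have : μ * d * x 0 = 1 := by linarith
      by_contra hcon
      push Not at hcon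
      nlinarith
    have hx1 : x 1 = 0 := by
      have : μ * d * x 1 = 0 := by linarith
      exact (mul_eq_zero.1 this).resolve_left hpos.ne'
    have hx2 : x 2 = 0 := by
      have : μ * d * x 2 = 0 := by linarith
      exact (mul_eq_zero.1 this).resolve_left hpos.ne'
    have hv : v = 0 := by
      funext j
      have h2 := c3 j
      simp only [me0] at h2
      have h3 : μ * r j = 0 := by linarith
      have h4 : r j = 0 := (mul_eq_zero.1 h3).resolve_left hμ0
      simp [hvdef, h4]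
    have hr := (rho_eq_zero hx hx0 hx1 hx2 hv).1
    rw [hr] at h1
    norm_num at h1
  · have hk : 0 < max (1 - 2 * rho x v) 0 := lt_max_of_lt_left (by linarith)
    have hx1 : x 1 = 0 := by
      simp only [FF] at c1
      rw [if_neg (by decide)] at c1
      have : (max (1 - 2 * rho x v) 0 + μ * d) * x 1 = 0 := by linarith
      exact (mul_eq_zero.1 this).resolve_left (by positivity)
    have hx2 : x 2 = 0 := by
      simp only [FF] at c2
      rw [if_neg (by decide)] at c2
      have : (max (1 - 2 * rho x v) 0 + μ * d) * x 2 = 0 := by linarith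
      exact (mul_eq_zero.1 this).resolve_left (by positivity)
    have hv : v = 0 := by
      funext j
      have h2 := c3 j
      simp only [FF] at h2
      have h3 : (max (1 - 2 * rho x v) 0 * lam + μ) * r j = 0 := by
        have : v j = lam * r j := rfl
        rw [this] at h2
        linarith
      have h4 : r j = 0 := (mul_eq_zero.1 h3).resolve_left (by positivity)
      simp [hvdef, h4]
    obtain ⟨hr, hx0⟩ := rho_eq_zero hx (x0_pos_of_rho h1) hx1 hx2 hv
    simp only [FF, if_true, hr, hx0] at c0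
    norm_num at c0
    linarith

/-! ### Octahedral coordinates -/

theorem octa_ne {z : Sph 2 → ℝ} (hz : z ∈ Rz (Finset.univ : Finset (Sph 2))) : octa z ≠ 0 := by
  intro h
  obtain ⟨⟨i, b⟩, -, hm, -⟩ := supp_top hz
  have h1 : z ⟨i, true⟩ - z ⟨i, false⟩ = 0 := congrFun h i
  have hnc : ¬ ((⟨i, true⟩ : Sph 2) ≤ ⟨i, false⟩ ∨ (⟨i, false⟩ : Sph 2) ≤ ⟨i, true⟩) := by
    simp [Sph.le_iff]
  have h2 := hz.2.2.2 ⟨i, true⟩ ⟨i, false⟩
  cases b
  · by_cases h3 : z ⟨i, true⟩ = 0
    · rw [h3] at h1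
      apply hm
      linarith
    · exact hnc (h2 h3 hm)
  · by_cases h3 : z ⟨i, false⟩ = 0
    · rw [h3] at h1
      apply hm
      linarith
    · exact hnc (h2 hm h3)

/-- Normalised octahedral coordinates. -/
noncomputable def iota (z : Sph 2 → ℝ) : Fin 3 → ℝ := ‖octa z‖⁻¹ • octa z

theorem norm_iota {z : Sph 2 → ℝ} (hz : z ∈ Rz (Finset.univ : Finset (Sph 2))) :
    ‖iota z‖ = 1 := by
  unfold iota
  rw [norm_smul, norm_inv, norm_norm, inv_mul_cancel₀ (norm_ne_zero_iff.2 (octa_ne hz))]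

theorem continuous_octa : Continuous octa := by
  unfold octa
  exact continuous_pi fun i => (continuous_apply _).sub (continuous_apply _)

/-! ### Labels and positions of a track -/

/-- The labels of the track `c`. -/
noncomputable def zc (Q : Finset (LL (Sph 2))) (c : ℕ →₀ ℕ) (g : LL (Sph 2) → ℝ) : Sph 2 → ℝ :=
  fun σ => ∑ e ∈ Q, if e.C (res e.J c) = σ then g e else 0

/-- The position of the track `c`. -/
noncomputable def pc (Q : Finset (LL (Sph 2))) (R : ℕ) (c : ℕ →₀ ℕ) (g : LL (Sph 2) → ℝ) :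
    Fin R → ℝ :=
  fun j => ∑ e ∈ Q, if (j : ℕ) ∈ e.J then g e * c j else 0

/-- The contribution of the track `c`. -/
noncomputable def TT (Q : Finset (LL (Sph 2))) (R : ℕ) (lam : ℝ) (c : ℕ →₀ ℕ)
    (z : (LL (Sph 2) → ℝ) × (Fin R → Iv)) : (Fin 3 → ℝ) × (Fin R → ℝ) :=
  FF (iota (zc Q c z.1)) (fun j => lam * (z.2 j : ℝ) - pc Q R c z.1 j) - me0 R

/-- The scanning map for configurations which are faces of `e`. -/
noncomputable def sE (Q : Finset (LL (Sph 2))) (R : ℕ) (lam : ℝ) (e : LL (Sph 2))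
    (z : (LL (Sph 2) → ℝ) × (Fin R → Iv)) : (Fin 3 → ℝ) × (Fin R → ℝ) :=
  me0 R + ∑ c ∈ e.C.support, TT Q R lam c z

variable {Q : Finset (LL (Sph 2))} {R : ℕ} {lam : ℝ} {g : LL (Sph 2) → ℝ}

theorem continuous_zc (c : ℕ →₀ ℕ) : Continuous (zc Q c) := by
  refine continuous_pi fun σ => continuous_finsetSum _ fun e _ => ?_
  by_cases h : e.C (res e.J c) = σ
  · simp only [h, if_true]
    exact continuous_apply e
  · simp only [h, if_false]
    exact continuous_const

theorem continuous_pc (c : ℕ →₀ ℕ) : Continuous (pc Q R c) := by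
  refine continuous_pi fun j => continuous_finsetSum _ fun e _ => ?_
  by_cases h : (j : ℕ) ∈ e.J
  · simp only [h, if_true]
    exact (continuous_apply e).mul continuous_const
  · simp only [h, if_false]
    exact continuous_const

theorem zc_mem (hg : g ∈ Rz Q) {e : LL (Sph 2)} (he : ∀ e' ∈ Q, g e' ≠ 0 → e' ≤ e)
    {c : ℕ →₀ ℕ} (hc : c ∈ e.C.support) : zc Q c g ∈ Rz (Finset.univ : Finset (Sph 2)) := by
  have hex : ∀ σ, zc Q c g σ ≠ 0 → ∃ e' ∈ Q, g e' ≠ 0 ∧ e'.C (res e'.J c) = σ := by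
    intro σ hσ
    obtain ⟨e', he', hne⟩ := Finset.exists_ne_zero_of_sum_ne_zero hσ
    by_cases h : e'.C (res e'.J c) = σ
    · rw [if_pos h] at hne
      exact ⟨e', he', hne, h⟩
    · rw [if_neg h] at hne
      exact absurd rfl hne
  refine ⟨fun σ => ?_, fun σ h => absurd (Finset.mem_univ σ) h, ?_, ?_⟩
  · refine Finset.sum_nonneg fun e' _ => ?_
    split_ifs
    · exact hg.1 e'
    · exact le_rfl
  · unfold zc
    rw [Finset.sum_comm]
    rw [← hg.2.2.1]
    refine Finset.sum_congr rfl fun e' _ => ?_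
    rw [Finset.sum_ite_eq]
    simp
  · intro σ σ' h1 h2
    obtain ⟨e1, a1, b1, c1⟩ := hex σ h1
    obtain ⟨e2, a2, b2, c2⟩ := hex σ' h2
    rw [← c1, ← c2]
    rcases hg.2.2.2 e1 e2 b1 b2 with h | h
    · exact Or.inl (lab_mono h (he e2 a2 b2) hc)
    · exact Or.inr (lab_mono h (he e1 a1 b1) hc)

theorem TT_of_norm {c : ℕ →₀ ℕ} {r : Fin R → Iv}
    (h : 1 / 2 ≤ ‖fun j => lam * (r j : ℝ) - pc Q R c g j‖) : TT Q R lam c (g, r) = 0 := by
  unfold TT
  rw [FF_of_le (h.trans (rho_ge_v _ _)), sub_self]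

theorem TT_of_lab (hg : g ∈ Rz Q) {c : ℕ →₀ ℕ} {r : Fin R → Iv}
    (h : ∀ e ∈ Q, g e ≠ 0 → e.C (res e.J c) = 0) : TT Q R lam c (g, r) = 0 := by
  have h1 : zc Q c g ⟨0, true⟩ = 0 := by
    refine Finset.sum_eq_zero fun e he => ?_
    by_cases h0 : g e = 0
    · simp [h0]
    · rw [if_neg]
      rw [h e he h0, Sph.zero_def]
      intro h2
      cases h2
  have h2 : 0 ≤ zc Q c g ⟨0, false⟩ := by
    refine Finset.sum_nonneg fun e' _ => ?_
    split_ifs
    · exact hg.1 e'
    · exact le_rfl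
  have h3 : iota (zc Q c g) 0 ≤ 0 := by
    unfold iota
    rw [Pi.smul_apply, smul_eq_mul]
    refine mul_nonpos_of_nonneg_of_nonpos (by positivity) ?_
    unfold octa
    rw [h1]
    linarith
  unfold TT
  rw [FF_of_le, sub_self]
  have := rho_ge_x0 (iota (zc Q c g)) (fun j => lam * (r j : ℝ) - pc Q R c g j)
  linarith

theorem TT_res {m : LL (Sph 2)} (hm : ∀ e' ∈ Q, g e' ≠ 0 → e' ≤ m) (c : ℕ →₀ ℕ)
    (r : Fin R → Iv) : TT Q R lam c (g, r) = TT Q R lam (res m.J c) (g, r) := by
  have e1 : zc Q c g = zc Q (res m.J c) g := by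
    funext σ
    refine Finset.sum_congr rfl fun e he => ?_
    by_cases h0 : g e = 0
    · simp [h0]
    · rw [res_res (hm e he h0).1]
  have e2 : pc Q R c g = pc Q R (res m.J c) g := by
    funext j
    refine Finset.sum_congr rfl fun e he => ?_
    by_cases h0 : g e = 0
    · simp [h0]
    · by_cases hj : (j : ℕ) ∈ e.J
      · rw [if_pos hj, if_pos hj, res_apply_mem ((hm e he h0).1 hj)]
      · rw [if_neg hj, if_neg hj]
  unfold TT
  rw [e1, e2]

theorem sE_indep (hg : g ∈ Rz Q) {m e : LL (Sph 2)} (hm : ∀ e' ∈ Q, g e' ≠ 0 → e' ≤ m)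
    (hme : m ≤ e) (r : Fin R → Iv) : sE Q R lam e (g, r) = sE Q R lam m (g, r) := by
  classical
  unfold sE
  congr 1
  rw [← Finset.sum_filter_add_sum_filter_not e.C.support
    (fun c => res m.J c ∈ m.C.support)]
  have h2 : ∑ c ∈ e.C.support.filter (fun c => ¬ res m.J c ∈ m.C.support),
      TT Q R lam c (g, r) = 0 := by
    refine Finset.sum_eq_zero fun c hc => ?_
    rw [Finset.mem_filter] at hc
    refine TT_of_lab hg fun e' he' hne => ?_
    have := lab_mono (hm e' he' hne) hme hc.1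
    rw [Finsupp.notMem_support_iff.1 hc.2] at this
    exact Sph.eq_zero_of_le this
  rw [h2, add_zero]
  have himg : m.C.support =
      (e.C.support.filter (fun c => res m.J c ∈ m.C.support)).image (res m.J) := by
    ext b
    rw [Finset.mem_image]
    constructor
    · intro hb
      obtain ⟨a, ha, rfl⟩ := hme.2.2 b hb
      exact ⟨a, Finset.mem_filter.2 ⟨ha, hb⟩, rfl⟩
    · rintro ⟨a, ha, rfl⟩
      exact (Finset.mem_filter.1 ha).2
  have hinj : Set.InjOn (res m.J)
      (e.C.support.filter (fun c => res m.J c ∈ m.C.support) : Finset (ℕ →₀ ℕ)) := by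
    intro c hc c' hc' hcc
    have hc1 := (Finset.mem_filter.1 (Finset.mem_coe.1 hc)).1
    have hc2 := (Finset.mem_filter.1 (Finset.mem_coe.1 hc')).1
    by_contra hne
    obtain ⟨j, hj⟩ := m.ne
    have h7 : c j = c' j := by
      have := DFunLike.congr_fun hcc j
      rwa [res_apply_mem hj, res_apply_mem hj] at this
    exact e.inj c hc1 c' hc2 hne j (hme.1 hj) h7
  conv_rhs => rw [himg]
  rw [Finset.sum_image hinj]
  exact Finset.sum_congr rfl fun c _ => TT_res hm c r

open Classical in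
/-- The scanning map. -/
noncomputable def sS (Q : Finset (LL (Sph 2))) (R : ℕ) (lam : ℝ)
    (z : (LL (Sph 2) → ℝ) × (Fin R → Iv)) : (Fin 3 → ℝ) × (Fin R → ℝ) :=
  if h : ∃ e ∈ Q, ∀ e' ∈ Q, z.1 e' ≠ 0 → e' ≤ e then sE Q R lam h.choose z else 0

theorem sS_eq (hg : g ∈ Rz Q) {e : LL (Sph 2)} (heQ : e ∈ Q)
    (he : ∀ e' ∈ Q, g e' ≠ 0 → e' ≤ e) (r : Fin R → Iv) :
    sS Q R lam (g, r) = sE Q R lam e (g, r) := by
  have h : ∃ e ∈ Q, ∀ e' ∈ Q, g e' ≠ 0 → e' ≤ e := ⟨e, heQ, he⟩
  obtain ⟨m, hmQ, hm0, hm⟩ := supp_top hg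
  have h1 : sS Q R lam (g, r) = sE Q R lam h.choose (g, r) := dif_pos h
  rw [h1, sE_indep hg hm (h.choose_spec.2 m hmQ hm0) r, sE_indep hg hm (he m hmQ hm0) r]

/-- The closed pieces. -/
def KK (Q : Finset (LL (Sph 2))) (e : LL (Sph 2)) : Set (LL (Sph 2) → ℝ) :=
  {g | g ∈ Rz Q ∧ ∀ e' ∈ Q, g e' ≠ 0 → e' ≤ e}

theorem isClosed_KK (e : LL (Sph 2)) : IsClosed (KK Q e) := by
  have e1 : KK Q e = Rz Q ∩ {g | ∀ e' ∈ Q, g e' ≠ 0 → e' ≤ e} := rfl
  rw [e1]
  refine (isClosed_Rz Q).inter ?_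
  rw [Set.ofPred_forall]
  refine isClosed_iInter fun e' => ?_
  rw [Set.ofPred_forall]
  refine isClosed_iInter fun _ => ?_
  by_cases h : e' ≤ e
  · simp [h]
  · have e2 : {g : LL (Sph 2) → ℝ | g e' ≠ 0 → e' ≤ e} = {g | g e' = 0} := by
      ext g
      simp [h]
    rw [e2]
    exact isClosed_eq (continuous_apply e') continuous_const

theorem continuousOn_iota {c : ℕ →₀ ℕ} {e : LL (Sph 2)} (hc : c ∈ e.C.support) :
    ContinuousOn (fun z : (LL (Sph 2) → ℝ) × (Fin R → Iv) => iota (zc Q c z.1))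
      (KK Q e ×ˢ (univ : Set (Fin R → Iv))) := by
  have h1 : Continuous fun z : (LL (Sph 2) → ℝ) × (Fin R → Iv) => octa (zc Q c z.1) :=
    continuous_octa.comp ((continuous_zc c).comp continuous_fst)
  unfold iota
  refine ContinuousOn.smul (ContinuousOn.inv₀ h1.norm.continuousOn fun z hz => ?_)
    h1.continuousOn
  exact norm_ne_zero_iff.2 (octa_ne (zc_mem hz.1.1 hz.1.2 hc))

theorem continuous_arg (c : ℕ →₀ ℕ) : Continuous fun z : (LL (Sph 2) → ℝ) × (Fin R → Iv) =>
    (fun j => lam * (z.2 j : ℝ) - pc Q R c z.1 j : Fin R → ℝ) := by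
  refine continuous_pi fun j => (continuous_const.mul ?_).sub ?_
  · exact continuous_subtype_val.comp ((continuous_apply j).comp continuous_snd)
  · exact (continuous_apply j).comp ((continuous_pc c).comp continuous_fst)

theorem continuousOn_TT {c : ℕ →₀ ℕ} {e : LL (Sph 2)} (hc : c ∈ e.C.support) :
    ContinuousOn (TT Q R lam c) (KK Q e ×ˢ (univ : Set (Fin R → Iv))) := by
  have h2 := continuousOn_iota (Q := Q) (R := R) hc
  have h3 := (continuous_arg (Q := Q) (R := R) (lam := lam) c).continuousOn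
    (s := KK Q e ×ˢ (univ : Set (Fin R → Iv)))
  have h4 : ContinuousOn (fun z : (LL (Sph 2) → ℝ) × (Fin R → Iv) =>
      ((iota (zc Q c z.1), fun j => lam * (z.2 j : ℝ) - pc Q R c z.1 j) :
        (Fin 3 → ℝ) × (Fin R → ℝ))) (KK Q e ×ˢ (univ : Set (Fin R → Iv))) := h2.prodMk h3
  have h5 := (continuous_FF R).comp_continuousOn h4
  exact h5.sub continuousOn_const

theorem continuousOn_sE (e : LL (Sph 2)) :
    ContinuousOn (sE Q R lam e) (KK Q e ×ˢ (univ : Set (Fin R → Iv))) := by
  have h : ContinuousOn (fun z => ∑ c ∈ e.C.support, TT Q R lam c z)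
      (KK Q e ×ˢ (univ : Set (Fin R → Iv))) :=
    continuousOn_finsetSum _ fun c hc => continuousOn_TT hc
  exact continuousOn_const.add h

theorem continuousOn_sS : ContinuousOn (sS Q R lam) (Rz Q ×ˢ (univ : Set (Fin R → Iv))) := by
  have hcov : Rz Q ×ˢ (univ : Set (Fin R → Iv)) =
      ⋃ e : Q, KK Q e.1 ×ˢ (univ : Set (Fin R → Iv)) := by
    ext z
    simp only [Set.mem_iUnion]
    constructor
    · rintro ⟨h1, h2⟩
      obtain ⟨m, hmQ, -, hm⟩ := supp_top h1
      exact ⟨⟨m, hmQ⟩, ⟨h1, hm⟩, h2⟩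
    · rintro ⟨e, h1, h2⟩
      exact ⟨h1.1, h2⟩
  rw [hcov]
  refine LocallyFinite.continuousOn_iUnion (locallyFinite_of_finite _)
    (fun e => (isClosed_KK e.1).prod isClosed_univ) fun e => ?_
  refine (continuousOn_sE (Q := Q) (R := R) (lam := lam) e.1).congr fun z hz => ?_
  exact sS_eq hz.1.1 e.2 hz.1.2 z.2

/-! ### One particle -/

theorem one_inj {s s' : Sph 2} (h : LL.one s = LL.one s') : s = s' := by
  have h1 : (LL.one s).C 0 = (LL.one s').C 0 := by rw [h]
  simpa [LL.one] using h1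

theorem one_lab (s : Sph 2) : (LL.one s).C (res (LL.one s).J 0) = s := by
  have h1 : res (LL.one s).J 0 = 0 := Finsupp.filter_zero _
  rw [h1]
  simp [LL.one]

theorem push_one (h : Sph 2 → ℝ) (s : Sph 2) : push h (LL.one s) = h s := by
  classical
  unfold push
  rw [Finset.sum_eq_single s]
  · rw [if_pos rfl]
  · intro b _ hb
    rw [if_neg fun h1 => hb (one_inj h1)]
  · intro h1
    exact absurd (Finset.mem_univ s) h1

theorem push_ne {h : Sph 2 → ℝ} {l : LL (Sph 2)} (hl : push h l ≠ 0) : ∃ s, l = LL.one s := by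
  classical
  obtain ⟨s, -, hs⟩ := Finset.exists_ne_zero_of_sum_ne_zero hl
  by_cases h1 : LL.one s = l
  · exact ⟨s, h1.symm⟩
  · rw [if_neg h1] at hs
    exact absurd rfl hs

theorem zc_push {h : Sph 2 → ℝ} (hQ : push h ∈ Rz Q) : zc Q 0 (push h) = h := by
  funext σ
  unfold zc
  rw [Finset.sum_eq_single (LL.one σ)]
  · rw [if_pos (one_lab σ), push_one]
  · intro e _ hne
    by_cases h0 : push h e = 0
    · simp [h0]
    · obtain ⟨s, rfl⟩ := push_ne h0
      rw [if_neg]
      rw [one_lab]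
      rintro rfl
      exact hne rfl
  · intro h1
    rw [hQ.2.1 _ h1]
    simp

theorem sS_push {h : Sph 2 → ℝ} (hQ : push h ∈ Rz Q) (r : Fin R → Iv) :
    sS Q R lam (push h, r) = FF (iota h) (fun j => lam * (r j : ℝ)) := by
  obtain ⟨m, hmQ, hm0, hm⟩ := supp_top hQ
  obtain ⟨s, rfl⟩ := push_ne hm0
  rw [sS_eq hQ hmQ hm r]
  have hT : TT Q R lam 0 (push h, r) = FF (iota h) (fun j => lam * (r j : ℝ)) - me0 R := by
    unfold TT
    rw [zc_push hQ]
    have hp : pc Q R 0 (push h) = 0 := by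
      funext j
      simp [pc]
    simp only [hp, Pi.zero_apply, sub_zero]
  have hS : ∑ c ∈ (LL.one s).C.support, TT Q R lam c (push h, r) = TT Q R lam 0 (push h, r) := by
    by_cases hs : s = 0
    · have h1 : (LL.one s).C.support = ∅ := by simp [LL.one, hs]
      rw [h1, Finset.sum_empty]
      symm
      refine TT_of_lab hQ fun e he hne => ?_
      obtain ⟨s', rfl⟩ := push_ne hne
      have h2 := hm _ he hne
      have h3 := (LL.le_iff _ _).1 h2
      rw [one_lab]
      by_contra hs'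
      have h4 : (0 : ℕ →₀ ℕ) ∈ (LL.one s').C.support := by simp [LL.one, hs']
      obtain ⟨a, ha, -⟩ := h3.2.2 _ h4
      rw [h1] at ha
      simp at ha
    · have h1 : (LL.one s).C.support = {0} := by
        show (Finsupp.single (0 : ℕ →₀ ℕ) s).support = {0}
        exact Finsupp.support_single_ne_zero _ hs
      rw [h1, Finset.sum_singleton]
  unfold sE
  rw [hS, hT]
  abel

end SCAN

open SCAN in
/-- SCAN. -/
theorem SCAN : Stmt_SCAN := by
  intro Q
  -- bounds for positions and times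
  obtain ⟨A, hA⟩ : ∃ A : ℕ, ∀ e ∈ Q, ∀ c ∈ e.C.support, ∀ j, c j ≤ A := by
    refine ⟨Q.sup fun e => e.C.support.sup fun c => c.support.sup fun j => c j, ?_⟩
    intro e he c hc j
    by_cases hj : j ∈ c.support
    · have h1 : c j ≤ c.support.sup fun j => c j := Finset.le_sup (f := fun j => c j) hj
      have h2 : (c.support.sup fun j => c j) ≤
          e.C.support.sup fun c => c.support.sup fun j => c j :=
        Finset.le_sup (f := fun c : ℕ →₀ ℕ => c.support.sup fun j => c j) hc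
      have h3 : (e.C.support.sup fun c => c.support.sup fun j => c j) ≤
          Q.sup fun e => e.C.support.sup fun c => c.support.sup fun j => c j :=
        Finset.le_sup (f := fun e : LL (Sph 2) => e.C.support.sup fun c =>
          c.support.sup fun j => c j) he
      exact h1.trans (h2.trans h3)
    · rw [Finsupp.notMem_support_iff.1 hj]
      exact Nat.zero_le _
  obtain ⟨R₀, hR₀⟩ : ∃ R₀ : ℕ, ∀ e ∈ Q, ∀ j ∈ e.J, j < R₀ := by
    refine ⟨(Q.sup fun e => e.J.sup id) + 1, ?_⟩
    intro e he j hj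
    have h1 : j ≤ e.J.sup id := Finset.le_sup (f := id) hj
    have h2 : e.J.sup id ≤ Q.sup fun e => e.J.sup id :=
      Finset.le_sup (f := fun e : LL (Sph 2) => e.J.sup id) he
    omega
  refine ⟨R₀, fun R hR => ?_⟩
  let lam : ℝ := 2 * (A + 1)
  have hlam : 0 < lam := by positivity
  refine ⟨sS Q R lam, continuousOn_sS, ?_, ?_, ?_⟩
  · -- no zeros
    rintro ⟨g, r⟩ ⟨hg, -⟩
    have hg' : g ∈ Rz Q := hg
    obtain ⟨m, hmQ, hm0, hm⟩ := supp_top hg'
    rw [sS_eq hg' hmQ hm r]
    obtain ⟨e1, he1Q, he10, he1⟩ := supp_bot hg'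
    obtain ⟨j, hj⟩ := e1.ne
    have hjR : j < R := (hR₀ e1 he1Q j hj).trans_le hR
    have hp : ∀ c : ℕ →₀ ℕ, pc Q R c g ⟨j, hjR⟩ = c j := by
      intro c
      have h1 : pc Q R c g ⟨j, hjR⟩ = ∑ e ∈ Q, g e * c j := by
        refine Finset.sum_congr rfl fun e he => ?_
        by_cases h0 : g e = 0
        · simp [h0]
        · rw [if_pos ((he1 e he h0).1 hj)]
      rw [h1, ← Finset.sum_mul, hg'.2.2.1, one_mul]
    by_cases hall : ∀ c ∈ m.C.support, TT Q R lam c (g, r) = 0
    · unfold sE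
      rw [Finset.sum_eq_zero hall, add_zero]
      exact me0_ne R
    · push Not at hall
      obtain ⟨c, hc, hcne⟩ := hall
      have hlt : ∀ c : ℕ →₀ ℕ, TT Q R lam c (g, r) ≠ 0 →
          |lam * (r ⟨j, hjR⟩ : ℝ) - c j| < 1 / 2 := by
        intro c hne
        by_contra hcon
        push Not at hcon
        apply hne
        apply TT_of_norm
        have h1 := norm_le_pi_norm (fun j => lam * (r j : ℝ) - pc Q R c g j) ⟨j, hjR⟩
        rw [hp c] at h1
        exact hcon.trans h1
      have hsingle : ∑ c ∈ m.C.support, TT Q R lam c (g, r) = TT Q R lam c (g, r) := by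
        refine Finset.sum_eq_single c ?_ fun h => absurd hc h
        intro c' hc' hne
        by_contra hT
        have h1 := hlt c hcne
        have h2 := hlt c' hT
        have h3 : c' j ≠ c j := m.inj c' hc' c hc hne j ((hm e1 he1Q he10).1 hj)
        have h4 : (1 : ℝ) ≤ |(c' j : ℝ) - c j| := by
          have h5 : (1 : ℤ) ≤ |(c' j : ℤ) - c j| := by
            apply Int.one_le_abs
            rw [sub_ne_zero]
            exact_mod_cast h3
          exact_mod_cast h5
        have h6 : |(c' j : ℝ) - c j| ≤ |lam * (r ⟨j, hjR⟩ : ℝ) - c j| +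
            |lam * (r ⟨j, hjR⟩ : ℝ) - c' j| := by
          have e : (c' j : ℝ) - c j = (lam * (r ⟨j, hjR⟩ : ℝ) - c j) -
            (lam * (r ⟨j, hjR⟩ : ℝ) - c' j) := by ring
          rw [e]
          exact abs_sub _ _
        linarith
      unfold sE
      rw [hsingle]
      unfold TT
      rw [add_sub_cancel]
      exact FF_ne (norm_iota (zc_mem hg' hm hc)) _
  · -- one particle
    intro h hh hQ r μ c hμ hc
    rw [sS_push hQ]
    have hn : 0 < ‖octa h‖ := norm_pos_iff.2 (octa_ne hh)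
    have h1 : c • octa h = (c * ‖octa h‖) • iota h := by
      unfold iota
      rw [smul_smul, mul_assoc, mul_inv_cancel₀ hn.ne', mul_one]
    rw [h1]
    exact FF_anti (norm_iota hh) hlam _ hμ (by positivity)
  · -- boundary
    rintro g hg r ⟨i, hi⟩
    obtain ⟨m, hmQ, hm0, hm⟩ := supp_top hg
    rw [sS_eq hg hmQ hm r]
    unfold sE
    rw [Finset.sum_eq_zero, add_zero]
    intro c hc
    apply TT_of_norm
    have h0 : 0 ≤ pc Q R c g i := by
      refine Finset.sum_nonneg fun e _ => ?_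
      split_ifs
      · exact mul_nonneg (hg.1 e) (Nat.cast_nonneg _)
      · exact le_rfl
    have h1 : pc Q R c g i ≤ A := by
      have h2 : pc Q R c g i ≤ ∑ e ∈ Q, g e * A := by
        refine Finset.sum_le_sum fun e _ => ?_
        have h3 : (c i : ℝ) ≤ A := by exact_mod_cast hA m hmQ c hc i
        split_ifs
        · exact mul_le_mul_of_nonneg_left h3 (hg.1 e)
        · exact mul_nonneg (hg.1 e) (Nat.cast_nonneg _)
      rwa [← Finset.sum_mul, hg.2.2.1, one_mul] at h2
    have h4 := norm_le_pi_norm (fun j => lam * (r j : ℝ) - pc Q R c g j) i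
    refine le_trans ?_ h4
    have hA0 : (0 : ℝ) ≤ A := Nat.cast_nonneg _
    rw [Real.norm_eq_abs]
    rcases eq_or_eq_neg_of_abs_eq hi with h5 | h5
    · rw [h5, mul_one]
      refine le_trans ?_ (le_abs_self _)
      show 1 / 2 ≤ 2 * ((A : ℝ) + 1) - pc Q R c g i
      linarith
    · rw [h5]
      refine le_trans ?_ (neg_le_abs _)
      show 1 / 2 ≤ -(2 * ((A : ℝ) + 1) * -1 - pc Q R c g i)
      linarith

end Pool.Agent.SH


end

section

/-!
# Stable inessentiality from the extension property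
-/

set_option autoImplicit false

open Set Topology

namespace Pool.Agent.SH

namespace STIaux

/-! ### Realizations -/

theorem rz_closed {P : Type} [PartialOrder P] (Q : Finset P) : IsClosed (Rz Q) := by
  have e : Rz Q = (⋂ a : P, {p : P → ℝ | 0 ≤ p a}) ∩ (⋂ a : P, ⋂ (_ : a ∉ Q), {p : P → ℝ | p a = 0}) ∩
      {p : P → ℝ | ∑ a ∈ Q, p a = 1} ∩
      (⋂ a : P, ⋂ b : P, ⋂ (_ : ¬ (a ≤ b ∨ b ≤ a)), {p : P → ℝ | p a * p b = 0}) := by
    ext p
    simp only [Rz, mem_ofPred_eq, mem_inter_iff, mem_iInter, mul_eq_zero]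
    constructor
    · rintro ⟨h1, h2, h3, h4⟩
      refine ⟨⟨⟨h1, h2⟩, h3⟩, fun a b hab => ?_⟩
      by_contra hne
      push Not at hne
      exact hab (h4 a b hne.1 hne.2)
    · rintro ⟨⟨⟨h1, h2⟩, h3⟩, h4⟩
      refine ⟨h1, h2, h3, fun a b ha hb => ?_⟩
      by_contra hne
      rcases h4 a b hne with h | h
      · exact ha h
      · exact hb h
  rw [e]
  refine IsClosed.inter (IsClosed.inter (IsClosed.inter ?_ ?_) ?_) ?_
  · exact isClosed_iInter fun a => isClosed_le continuous_const (continuous_apply a)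
  · exact isClosed_iInter fun a => isClosed_iInter fun _ =>
      isClosed_eq (continuous_apply a) continuous_const
  · exact isClosed_eq (continuous_finsetSum _ fun a _ => continuous_apply a) continuous_const
  · exact isClosed_iInter fun a => isClosed_iInter fun b => isClosed_iInter fun _ =>
      isClosed_eq ((continuous_apply a).mul (continuous_apply b)) continuous_const

theorem rz_le_one {P : Type} [PartialOrder P] {Q : Finset P} {p : P → ℝ} (hp : p ∈ Rz Q) (a : P) :
    p a ≤ 1 := by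
  obtain ⟨h1, h2, h3, -⟩ := hp
  by_cases ha : a ∈ Q
  · rw [← h3]
    exact Finset.single_le_sum (fun b _ => h1 b) ha
  · rw [h2 a ha]
    exact zero_le_one

theorem rz_compact {P : Type} [PartialOrder P] (Q : Finset P) : IsCompact (Rz Q) := by
  refine IsCompact.of_isClosed_subset (isCompact_univ_pi (s := fun _ : P => Icc (0 : ℝ) 1)
    fun _ => isCompact_Icc) (rz_closed Q) ?_
  intro p hp a _
  exact ⟨hp.1 a, rz_le_one hp a⟩

/-- A continuous factor times a bounded factor which is continuous off the zeros of the first. -/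
theorem cont_smul {Z E : Type} [TopologicalSpace Z] [NormedAddCommGroup E] [NormedSpace ℝ E]
    {m : Z → ℝ} {φ : Z → E} (hm : Continuous m) (hφ : ContinuousOn φ {z | m z ≠ 0}) (C : ℝ)
    (hC : ∀ z, m z ≠ 0 → ‖φ z‖ ≤ C) : Continuous fun z => m z • φ z := by
  have ho : IsOpen {z | m z ≠ 0} := isOpen_ne_fun hm continuous_const
  rw [continuous_iff_continuousAt]
  intro z
  by_cases hz : m z = 0
  · have h0 : m z • φ z = 0 := by rw [hz, zero_smul]
    rw [ContinuousAt, h0]
    have h1 : Filter.Tendsto (fun z => |m z| * |C|) (𝓝 z) (𝓝 0) := by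
      have : Continuous fun z => |m z| * |C| := (hm.abs).mul continuous_const
      have h2 := this.tendsto z
      simpa [hz] using h2
    refine squeeze_zero_norm (fun z' => ?_) h1
    by_cases hz' : m z' = 0
    · simp [hz']
    · rw [norm_smul, Real.norm_eq_abs]
      exact mul_le_mul_of_nonneg_left ((hC z' hz').trans (le_abs_self C)) (abs_nonneg _)
  · exact (hm.continuousAt).smul (hφ.continuousAt (ho.mem_nhds hz))

/-! ### Spheres -/

/-- The sign. -/
def sg (b : Bool) : ℝ := if b then 1 else -1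

theorem sum_sph {F : Sph 2 → ℝ} : ∑ s, F s = ∑ i : Fin 3, (F ⟨i, true⟩ + F ⟨i, false⟩) := by
  let e : Sph 2 ≃ Fin 3 × Bool :=
    { toFun := fun s => (s.lev, s.sgn)
      invFun := fun p => ⟨p.1, p.2⟩
      left_inv := fun s => rfl
      right_inv := fun p => rfl }
  rw [Fintype.sum_equiv e F (fun p => F ⟨p.1, p.2⟩) (fun s => rfl), Fintype.sum_prod_type]
  simp

theorem one_mono {s s' : Sph 2} (h : s ≤ s') : LL.one s ≤ LL.one s' := by
  classical
  rw [LL.le_iff]
  refine ⟨Finset.Subset.refl _, ?_, ?_⟩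
  · intro a ha
    have h0 : a = 0 := by simpa using Finsupp.support_single_subset ha
    subst h0
    have e : res (LL.one s).J (0 : ℕ →₀ ℕ) = 0 := res_eq_self (by simp)
    rw [e]
    change (Finsupp.single (0 : ℕ →₀ ℕ) s) 0 ≤ (Finsupp.single (0 : ℕ →₀ ℕ) s') 0
    simpa using h
  · intro b hb
    have hb' : b ∈ (Finsupp.single (0 : ℕ →₀ ℕ) s).support := hb
    have h0 : b = 0 := by simpa using Finsupp.support_single_subset hb'
    subst h0
    have hs : s ≠ 0 := by
      rw [Finsupp.mem_support_iff] at hb'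
      simpa using hb'
    have hs' : s' ≠ 0 := by
      rintro rfl
      exact hs (Sph.eq_zero_of_le h)
    refine ⟨0, ?_, res_eq_self (by simp)⟩
    change 0 ∈ (Finsupp.single (0 : ℕ →₀ ℕ) s').support
    rw [Finsupp.mem_support_iff]
    simpa using hs'

section

variable {M : ℕ}

/-- The `ℓ¹`-norm. -/
def n1 (t : Fin (3 + M) → ℝ) : ℝ := ∑ i, |t i|

/-- The weights of the levels. -/
noncomputable def W (t : Fin (3 + M) → ℝ) : Sph 2 ⊕ Fin M × Bool → ℝ
  | .inl s => max (sg s.sgn * t (Fin.castAdd M s.lev)) 0 / n1 t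
  | .inr p => max (sg p.2 * t (Fin.natAdd 3 p.1)) 0 / n1 t

/-- The vertices. -/
noncomputable def vtx : Sph 2 ⊕ Fin M × Bool → SusK (LL (Sph 2)) M
  | .inl s => .base (LL.one s)
  | .inr p => .pole p.1 p.2

open Classical in
/-- The point of the realization. -/
noncomputable def u (t : Fin (3 + M) → ℝ) (a : SusK (LL (Sph 2)) M) : ℝ :=
  ∑ b, if vtx b = a then W t b else 0

open Classical in
/-- The finite subposet. -/
noncomputable def Q0 (M : ℕ) : Finset (SusK (LL (Sph 2)) M) := Finset.univ.image vtx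

theorem n1_nonneg (t : Fin (3 + M) → ℝ) : 0 ≤ n1 t := Finset.sum_nonneg fun _ _ => abs_nonneg _

theorem n1_pos {t : Fin (3 + M) → ℝ} (ht : ‖t‖ = 1) : 0 < n1 t := by
  rcases (n1_nonneg t).lt_or_eq with h | h
  · exact h
  · exfalso
    have h1 : ∀ i, t i = 0 := by
      intro i
      have := (Finset.sum_eq_zero_iff_of_nonneg (fun i _ => abs_nonneg (t i))).1 h.symm i
        (Finset.mem_univ i)
      exact abs_eq_zero.1 this
    have h2 : t = 0 := funext h1
    rw [h2, norm_zero] at ht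
    exact zero_ne_one ht

theorem W_nonneg (t : Fin (3 + M) → ℝ) (b : Sph 2 ⊕ Fin M × Bool) : 0 ≤ W t b := by
  rcases b with s | p
  · exact div_nonneg (le_max_right _ _) (n1_nonneg t)
  · exact div_nonneg (le_max_right _ _) (n1_nonneg t)

theorem max_add (x : ℝ) : max (sg true * x) 0 + max (sg false * x) 0 = |x| := by
  simp only [sg]
  rcases le_total 0 x with h | h
  · simp [h, abs_of_nonneg h]
  · simp [h, abs_of_nonpos h]

theorem max_sub (x : ℝ) : max (sg true * x) 0 - max (sg false * x) 0 = x := by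
  simp only [sg]
  rcases le_total 0 x with h | h
  · simp [h]
  · simp [h]

theorem W_sum {t : Fin (3 + M) → ℝ} (ht : 0 < n1 t) : ∑ b, W t b = 1 := by
  rw [Fintype.sum_sum_type, sum_sph, Fintype.sum_prod_type]
  have h1 : ∀ i : Fin 3, W t (.inl ⟨i, true⟩) + W t (.inl ⟨i, false⟩) =
      |t (Fin.castAdd M i)| / n1 t := by
    intro i
    change max (sg true * _) 0 / n1 t + max (sg false * _) 0 / n1 t = _
    rw [← add_div, max_add]
  have h2 : ∀ i : Fin M, ∑ b : Bool, W t (.inr (i, b)) = |t (Fin.natAdd 3 i)| / n1 t := by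
    intro i
    rw [Fintype.sum_bool]
    change max (sg true * _) 0 / n1 t + max (sg false * _) 0 / n1 t = _
    rw [← add_div, max_add]
  rw [Finset.sum_congr rfl fun i _ => h1 i, Finset.sum_congr rfl fun i _ => h2 i,
    ← Finset.sum_div, ← Finset.sum_div, ← add_div]
  have h3 : n1 t = ∑ i : Fin 3, |t (Fin.castAdd M i)| + ∑ i : Fin M, |t (Fin.natAdd 3 i)| := by
    unfold n1
    rw [Fin.sum_univ_add]
  rw [← h3, div_self ht.ne']

theorem u_ne {t : Fin (3 + M) → ℝ} {a : SusK (LL (Sph 2)) M} (h : u t a ≠ 0) :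
    ∃ b, vtx b = a ∧ W t b ≠ 0 := by
  classical
  by_contra hne
  push Not at hne
  refine h (Finset.sum_eq_zero fun b _ => ?_)
  split_ifs with hb
  · exact hne b hb
  · rfl

theorem sg_eq {x : ℝ} {b b' : Bool} (h : max (sg b * x) 0 ≠ 0) (h' : max (sg b' * x) 0 ≠ 0) :
    b = b' := by
  have h1 : 0 < sg b * x := by
    by_contra hc
    exact h (max_eq_right (not_lt.1 hc))
  have h2 : 0 < sg b' * x := by
    by_contra hc
    exact h' (max_eq_right (not_lt.1 hc))
  cases b <;> cases b' <;> simp [sg] at h1 h2 ⊢ <;> linarith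

theorem W_sph {t : Fin (3 + M) → ℝ} {s s' : Sph 2} (h : W t (.inl s) ≠ 0)
    (h' : W t (.inl s') ≠ 0) : s ≤ s' ∨ s' ≤ s := by
  rcases lt_trichotomy s.lev s'.lev with hl | hl | hl
  · exact Or.inl (Or.inl hl)
  · left
    right
    have h1 : max (sg s.sgn * t (Fin.castAdd M s.lev)) 0 ≠ 0 := fun h0 => h (by simp [W, h0])
    have h2 : max (sg s'.sgn * t (Fin.castAdd M s.lev)) 0 ≠ 0 := fun h0 => h' (by
      simp [W, ← hl, h0])
    have h3 := sg_eq h1 h2
    cases s
    cases s'
    simp only at hl h3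
    rw [hl, h3]
  · exact Or.inr (Or.inl hl)

theorem u_mem {t : Fin (3 + M) → ℝ} (ht : ‖t‖ = 1) : u t ∈ Rz (Q0 M) := by
  classical
  refine ⟨fun a => Finset.sum_nonneg fun b _ => ?_, fun a ha => ?_, ?_, fun a a' ha ha' => ?_⟩
  · split_ifs
    · exact W_nonneg t b
    · exact le_refl _
  · by_contra h
    obtain ⟨b, rfl, -⟩ := u_ne h
    exact ha (Finset.mem_image_of_mem _ (Finset.mem_univ b))
  · unfold u
    rw [Finset.sum_comm, ← W_sum (n1_pos ht)]
    refine Finset.sum_congr rfl fun b _ => ?_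
    have hb : vtx b ∈ Q0 M := Finset.mem_image_of_mem _ (Finset.mem_univ b)
    rw [Finset.sum_ite_eq, if_pos hb]
  · obtain ⟨b, rfl, hb⟩ := u_ne ha
    obtain ⟨b', rfl, hb'⟩ := u_ne ha'
    rcases b with s | p
    · rcases b' with s' | p'
      · rcases W_sph hb hb' with h | h
        · exact Or.inl (show SusK.base _ ≤ SusK.base _ from (SusK.base_le_base _ _).2 (one_mono h))
        · exact Or.inr (show SusK.base _ ≤ SusK.base _ from (SusK.base_le_base _ _).2 (one_mono h))
      · exact Or.inl (show SusK.base _ ≤ SusK.pole _ _ from SusK.base_le_pole _ _ _)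
    · rcases b' with s' | p'
      · exact Or.inr (show SusK.base _ ≤ SusK.pole _ _ from SusK.base_le_pole _ _ _)
      · rcases lt_trichotomy p.1 p'.1 with hl | hl | hl
        · exact Or.inl ((SusK.pole_le_pole _ _ _ _).2 (Or.inl hl))
        · left
          have h1 : max (sg p.2 * t (Fin.natAdd 3 p.1)) 0 ≠ 0 := fun h0 => hb (by simp [W, h0])
          have h2 : max (sg p'.2 * t (Fin.natAdd 3 p.1)) 0 ≠ 0 := fun h0 => hb' (by
            simp [W, hl ▸ h0])
          exact (SusK.pole_le_pole _ _ _ _).2 (Or.inr ⟨hl, sg_eq h1 h2⟩)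
        · exact Or.inr ((SusK.pole_le_pole _ _ _ _).2 (Or.inl hl))

theorem u_pole (t : Fin (3 + M) → ℝ) (i : Fin M) (b : Bool) :
    u t (.pole i b) = W t (.inr (i, b)) := by
  classical
  unfold u
  rw [Finset.sum_eq_single (Sum.inr (i, b))]
  · exact if_pos rfl
  · intro b' _ hne
    rw [if_neg]
    intro h
    rcases b' with s | ⟨i', c⟩
    · change SusK.base _ = SusK.pole _ _ at h
      cases h
    · apply hne
      change SusK.pole i' c = SusK.pole i b at h
      injection h with h1 h2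
      rw [h1, h2]
  · intro h
    exact absurd (Finset.mem_univ _) h

/-- The weights on the sphere. -/
noncomputable def hh (t : Fin (3 + M) → ℝ) (s : Sph 2) : ℝ := W t (.inl s)

theorem u_base (t : Fin (3 + M) → ℝ) (l : LL (Sph 2)) : u t (.base l) = push (hh t) l := by
  classical
  unfold u push
  rw [Fintype.sum_sum_type]
  have h2 : ∑ p : Fin M × Bool, (if vtx (.inr p) = SusK.base l then W t (.inr p) else 0) = 0 := by
    refine Finset.sum_eq_zero fun p _ => ?_
    rw [if_neg]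
    intro h
    change SusK.pole _ _ = SusK.base _ at h
    cases h
  rw [h2, add_zero]
  refine Finset.sum_congr rfl fun s _ => ?_
  by_cases h : LL.one s = l
  · rw [if_pos (by rw [vtx, h]), if_pos h]
    rfl
  · rw [if_neg, if_neg h]
    intro h'
    apply h
    change SusK.base (LL.one s) = SusK.base l at h'
    injection h'

theorem cont_u {Z : Type} [TopologicalSpace Z] {K : Set Z} {v : Z → Fin (3 + M) → ℝ}
    (hv : ContinuousOn v K) (h1 : ∀ z ∈ K, ‖v z‖ = 1) : ContinuousOn (fun z => u (v z)) K := by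
  classical
  rw [continuousOn_pi]
  intro a
  refine continuousOn_finsetSum _ fun b _ => ?_
  split_ifs
  · have hn : ContinuousOn (fun z => n1 (v z)) K := by
      unfold n1
      exact continuousOn_finsetSum _ fun i _ => ((continuousOn_pi.1 hv) i).abs
    have hn0 : ∀ z ∈ K, n1 (v z) ≠ 0 := fun z hz => (n1_pos (h1 z hz)).ne'
    rcases b with s | p
    · exact ((continuousOn_const.mul ((continuousOn_pi.1 hv) _)).sup continuousOn_const).div hn hn0
    · exact ((continuousOn_const.mul ((continuousOn_pi.1 hv) _)).sup continuousOn_const).div hn hn0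
  · exact continuousOn_const

end

/-! ### The base part of a point of the suspension -/

section

variable {M : ℕ} (Qt : Finset (SusK (LL (Sph 2)) M))

open Classical in
/-- The base part. -/
noncomputable def Qb : Finset (LL (Sph 2)) :=
  Qt.preimage SusK.base fun a _ b _ h => by injection h

theorem mem_Qb {e : LL (Sph 2)} : e ∈ Qb Qt ↔ SusK.base e ∈ Qt := by
  classical
  unfold Qb
  exact Finset.mem_preimage

/-- The total weight of the base. -/
noncomputable def mm (p : SusK (LL (Sph 2)) M → ℝ) : ℝ := ∑ e ∈ Qb Qt, p (.base e)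

theorem cont_mm : Continuous (mm Qt) := by
  unfold mm
  exact continuous_finsetSum _ fun _ _ => continuous_apply _

/-- The weights of the base. -/
def gg (p : SusK (LL (Sph 2)) M → ℝ) (e : LL (Sph 2)) : ℝ := p (.base e)

theorem cont_gg : Continuous (gg (M := M)) := by
  unfold gg
  exact continuous_pi fun _ => continuous_apply _

variable {Qt}

theorem mm_nonneg {p : SusK (LL (Sph 2)) M → ℝ} (hp : p ∈ Rz Qt) : 0 ≤ mm Qt p :=
  Finset.sum_nonneg fun _ _ => hp.1 _

theorem gg_mem {p : SusK (LL (Sph 2)) M → ℝ} (hp : p ∈ Rz Qt) (h : mm Qt p ≠ 0) :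
    (mm Qt p)⁻¹ • gg p ∈ Rz (Qb Qt) := by
  have h0 := mm_nonneg hp
  refine ⟨fun a => mul_nonneg (inv_nonneg.2 h0) (hp.1 _), fun a ha => ?_, ?_, fun a b ha hb => ?_⟩
  · have : p (.base a) = 0 := hp.2.1 _ fun hc => ha ((mem_Qb Qt).2 hc)
    simp [gg, this]
  · have : ∑ a ∈ Qb Qt, ((mm Qt p)⁻¹ • gg p) a = (mm Qt p)⁻¹ * mm Qt p := by
      unfold mm
      rw [Finset.mul_sum]
      rfl
    rw [this, inv_mul_cancel₀ h]
  · have ha' : p (.base a) ≠ 0 := fun hc => ha (by simp [gg, hc])
    have hb' : p (.base b) ≠ 0 := fun hc => hb (by simp [gg, hc])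
    rcases hp.2.2.2 _ _ ha' hb' with h | h
    · exact Or.inl ((SusK.base_le_base _ _).1 h)
    · exact Or.inr ((SusK.base_le_base _ _).1 h)

theorem pole_ne {p : SusK (LL (Sph 2)) M → ℝ} (hp : p ∈ Rz Qt) (h : mm Qt p = 0) :
    ∃ i : Fin M, p (.pole i true) - p (.pole i false) ≠ 0 := by
  have h1 : ∀ e, p (.base e) = 0 := by
    intro e
    by_cases he : e ∈ Qb Qt
    · exact (Finset.sum_eq_zero_iff_of_nonneg (fun i _ => hp.1 _)).1 h e he
    · exact hp.2.1 _ fun hc => he ((mem_Qb Qt).2 hc)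
  have h2 : ∃ a, p a ≠ 0 := by
    by_contra hne
    push Not at hne
    have h3 := hp.2.2.1
    rw [Finset.sum_eq_zero fun a _ => hne a] at h3
    exact zero_ne_one h3
  obtain ⟨a, ha⟩ := h2
  cases a with
  | base e => exact absurd (h1 e) ha
  | pole i b =>
    refine ⟨i, ?_⟩
    have h4 : ∀ c, c ≠ b → p (.pole i c) = 0 := by
      intro c hc
      by_contra hne
      rcases hp.2.2.2 _ _ ha hne with h5 | h5
      · rcases (SusK.pole_le_pole _ _ _ _).1 h5 with h6 | h6
        · exact lt_irrefl _ h6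
        · exact hc h6.2.symm
      · rcases (SusK.pole_le_pole _ _ _ _).1 h5 with h6 | h6
        · exact lt_irrefl _ h6
        · exact hc h6.2
    cases b
    · rw [h4 true (by decide), zero_sub]
      exact neg_ne_zero.2 ha
    · rw [h4 false (by decide), sub_zero]
      exact ha

theorem hh_mem {t : Fin (3 + M) → ℝ} (ht : ‖t‖ = 1) (h0 : ∀ i : Fin M, t (Fin.natAdd 3 i) = 0) :
    hh t ∈ Rz (Finset.univ : Finset (Sph 2)) := by
  refine ⟨fun s => W_nonneg t _, fun s hs => absurd (Finset.mem_univ s) hs, ?_,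
    fun a b ha hb => W_sph ha hb⟩
  have h1 := W_sum (n1_pos ht)
  rw [Fintype.sum_sum_type] at h1
  have h2 : ∑ p : Fin M × Bool, W t (.inr p) = 0 := by
    refine Finset.sum_eq_zero fun p _ => ?_
    simp [W, h0]
  rw [h2, add_zero] at h1
  exact h1

theorem octa_hh (t : Fin (3 + M) → ℝ) (i : Fin 3) :
    octa (hh t) i = t (Fin.castAdd M i) / n1 t := by
  change max (sg true * _) 0 / n1 t - max (sg false * _) 0 / n1 t = _
  rw [← sub_div, max_sub]

theorem u_pole_sub (t : Fin (3 + M) → ℝ) (i : Fin M) :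
    u t (.pole i true) - u t (.pole i false) = t (Fin.natAdd 3 i) / n1 t := by
  rw [u_pole, u_pole]
  change max (sg true * _) 0 / n1 t - max (sg false * _) 0 / n1 t = _
  rw [← sub_div, max_sub]

theorem mm_u {t : Fin (3 + M) → ℝ} (h0 : ∀ i : Fin M, t (Fin.natAdd 3 i) = 0)
    (hp : u t ∈ Rz Qt) : mm Qt (u t) = 1 := by
  classical
  have h1 := hp.2.2.1
  have h2 : ∀ i b, u t (.pole i b) = 0 := by
    intro i b
    rw [u_pole]
    simp [W, h0]
  have h3 : mm Qt (u t) = ∑ a ∈ (Qb Qt).image SusK.base, u t a := by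
    rw [Finset.sum_image fun a _ b _ h => by injection h]
    rfl
  rw [h3, ← h1]
  refine Finset.sum_subset ?_ ?_
  · intro a ha
    obtain ⟨e, he, rfl⟩ := Finset.mem_image.1 ha
    exact (mem_Qb Qt).1 he
  · intro a ha hne
    cases a with
    | base e => exact absurd (Finset.mem_image_of_mem _ ((mem_Qb Qt).2 ha)) hne
    | pole i b => exact h2 i b

end

end STIaux

open STIaux

theorem STI (h1 : Stmt_SCAN) (h2 : Stmt_HEC) : Stmt_STI := by
  intro X _ _ _ hE k N Y v hN hY hv hv1
  obtain ⟨M, rfl⟩ : ∃ M, N = 3 + M := ⟨N - 3, by omega⟩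
  have hkM : k ≤ M := by omega
  let pr : (Fin M → Iv) × X → (Fin k → Iv) × X := fun z => (fun i => z.1 (Fin.castLE hkM i), z.2)
  let j : (Fin k → Iv) × X → (Fin M → Iv) × X :=
    fun y => (fun i => if h : i.1 < k then y.1 ⟨i.1, h⟩ else ⟨0, by norm_num⟩, y.2)
  have hprj : ∀ y, pr (j y) = y := by
    intro y
    refine Prod.ext ?_ rfl
    funext i
    change (if h : i.1 < k then y.1 ⟨i.1, h⟩ else _) = y.1 i
    rw [dif_pos i.2]
  have hpr : Continuous pr :=
    (continuous_pi fun i => (continuous_apply _).comp continuous_fst).prodMk continuous_snd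
  have hj : Continuous j := by
    refine (continuous_pi fun i => ?_).prodMk continuous_snd
    by_cases h : i.1 < k
    · simp only [h, dif_pos]
      exact (continuous_apply _).comp continuous_fst
    · simp only [h, dif_neg, not_false_iff]
      exact continuous_const
  have hK : IsClosed (Y ∩ (fun y => ‖v y‖) ⁻¹' {1}) :=
    hv.norm.preimage_isClosed_of_isClosed hY isClosed_singleton
  obtain ⟨Qt, U, hQt, hUc, hUR, hUA⟩ := hE M (pr ⁻¹' (Y ∩ (fun y => ‖v y‖) ⁻¹' {1})) (Q0 M)
    (fun z => u (v (pr z))) (hK.preimage hpr)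
    ((cont_u (hv.mono inter_subset_left) fun z hz => hz.2).comp hpr.continuousOn
      (mapsTo_preimage _ _)) (fun z hz => u_mem hz.2)
  obtain ⟨R₀, hR₀⟩ := h1 (Qb Qt)
  refine ⟨R₀, fun R hR => ?_⟩
  obtain ⟨s, hs1, hs2, hs3, hs4⟩ := hR₀ R hR
  obtain ⟨C, hC⟩ := ((rz_compact (Qb Qt)).prod (isCompact_univ (X := Fin R → Iv))).exists_bound_of_continuousOn hs1
  -- the scanned base
  let φ : ((Fin M → Iv) × X) × (Fin R → Iv) → (Fin 3 → ℝ) × (Fin R → ℝ) :=
    fun p => s ((mm Qt (U p.1))⁻¹ • gg (U p.1), p.2)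
  have hmc : Continuous fun p : ((Fin M → Iv) × X) × (Fin R → Iv) => mm Qt (U p.1) :=
    (cont_mm Qt).comp (hUc.comp continuous_fst)
  have hφm : ∀ p : ((Fin M → Iv) × X) × (Fin R → Iv), mm Qt (U p.1) ≠ 0 →
      ((mm Qt (U p.1))⁻¹ • gg (U p.1), p.2) ∈ Rz (Qb Qt) ×ˢ (univ : Set (Fin R → Iv)) :=
    fun p hp => ⟨gg_mem (hUR p.1) hp, mem_univ _⟩
  have hφ : ContinuousOn φ {p | mm Qt (U p.1) ≠ 0} := by
    refine hs1.comp (f := fun p : ((Fin M → Iv) × X) × (Fin R → Iv) =>
      ((mm Qt (U p.1))⁻¹ • gg (U p.1), p.2)) ?_ hφm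
    refine ContinuousOn.prodMk ?_ continuous_snd.continuousOn
    exact (hmc.continuousOn.inv₀ fun p hp => hp).smul
      (cont_gg.comp (hUc.comp continuous_fst)).continuousOn
  have hS : Continuous fun p => mm Qt (U p.1) • φ p :=
    cont_smul hmc hφ C fun p hp => hC _ (hφm p hp)
  let b₁' : ((Fin M → Iv) × X) × (Fin R → Iv) → (Fin (3 + M) → ℝ) × (Fin R → ℝ) := fun p =>
    (Fin.addCases (fun i => (mm Qt (U p.1) • φ p).1 i)
      (fun i => U p.1 (.pole i true) - U p.1 (.pole i false)), (mm Qt (U p.1) • φ p).2)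
  have hb₁' : Continuous b₁' := by
    refine (continuous_pi fun i => ?_).prodMk (continuous_snd.comp hS)
    refine Fin.addCases (fun i => ?_) (fun i => ?_) i
    · simp only [Fin.addCases_left]
      exact (continuous_apply i).comp (continuous_fst.comp hS)
    · simp only [Fin.addCases_right]
      exact ((continuous_apply _).comp (hUc.comp continuous_fst)).sub
        ((continuous_apply _).comp (hUc.comp continuous_fst))
  have hb₁'0 : ∀ p, b₁' p ≠ 0 := by
    intro p hp
    have e1 : ∀ i : Fin 3, (mm Qt (U p.1) • φ p).1 i = 0 := by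
      intro i
      have := congrFun (congrArg Prod.fst hp) (Fin.castAdd M i)
      simpa [b₁'] using this
    have e2 : ∀ i : Fin M, U p.1 (.pole i true) - U p.1 (.pole i false) = 0 := by
      intro i
      have := congrFun (congrArg Prod.fst hp) (Fin.natAdd 3 i)
      simpa [b₁'] using this
    have e3 : (mm Qt (U p.1) • φ p).2 = 0 := congrArg Prod.snd hp
    by_cases hm : mm Qt (U p.1) = 0
    · obtain ⟨i, hi⟩ := pole_ne (hUR p.1) hm
      exact hi (e2 i)
    · have e4 : mm Qt (U p.1) • φ p = 0 := Prod.ext (funext e1) e3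
      rcases smul_eq_zero.1 e4 with h | h
      · exact hm h
      · exact hs2 _ (hφm p hm) h
  -- the compact space
  have : CompactSpace Y := isCompact_iff_compactSpace.1 hY.isCompact
  have hvY : Continuous fun y : Y => v y := continuousOn_iff_continuous_domRestrict.1 hv
  have hinc : Continuous fun r : Fin R → Iv => (fun i => (r i : ℝ)) :=
    continuous_pi fun i => continuous_subtype_val.comp (continuous_apply i)
  let b₀ : Y × (Fin R → Iv) → (Fin (3 + M) → ℝ) × (Fin R → ℝ) :=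
    fun p => (v p.1, fun i => (p.2 i : ℝ))
  have hb₀ : Continuous b₀ := (hvY.comp continuous_fst).prodMk (hinc.comp continuous_snd)
  have hjY : Continuous fun p : Y × (Fin R → Iv) => ((j p.1, p.2) :
      ((Fin M → Iv) × X) × (Fin R → Iv)) :=
    (hj.comp (continuous_subtype_val.comp continuous_fst)).prodMk continuous_snd
  obtain ⟨w, hwc, hw1, hwB⟩ := h2 (3 + M) R (Y × (Fin R → Iv)) {p | ‖b₀ p‖ = 1} b₀
    (fun p => b₁' (j p.1, p.2)) (isClosed_eq hb₀.norm continuous_const) hb₀.continuousOn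
    (hb₁'.comp hjY) (fun p => hb₁'0 _) (fun p hp => hp) (by
      rintro ⟨y, r⟩ hp μ hμ heq
      have hp' : ‖(v y, fun i => (r i : ℝ))‖ = 1 := hp
      have e1 : ∀ i : Fin 3, (mm Qt (U (j y)) • φ (j y, r)).1 i =
          -(μ * v y (Fin.castAdd M i)) := by
        intro i
        have := congrFun (congrArg Prod.fst heq) (Fin.castAdd M i)
        simpa [b₁', b₀] using this
      have e2 : ∀ i : Fin M, U (j y) (.pole i true) - U (j y) (.pole i false) =
          -(μ * v y (Fin.natAdd 3 i)) := by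
        intro i
        have := congrFun (congrArg Prod.fst heq) (Fin.natAdd 3 i)
        simpa [b₁', b₀] using this
      have e3 : ∀ i : Fin R, (mm Qt (U (j y)) • φ (j y, r)).2 i = -(μ * (r i : ℝ)) := by
        intro i
        have := congrFun (congrArg Prod.snd heq) i
        simpa [b₁', b₀] using this
      by_cases hr : ∃ i, |(r i : ℝ)| = 1
      · -- a face of the new coordinates
        obtain ⟨i, hi⟩ := hr
        have e4 : (mm Qt (U (j y)) • φ (j y, r)).2 i = 0 := by
          by_cases hm : mm Qt (U (j y)) = 0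
          · simp [hm]
          · have e5 : φ (j y, r) = me0 R := hs4 _ (hφm (j y, r) hm).1 r ⟨i, hi⟩
            rw [e5]
            simp [me0]
        have e6 : μ = 0 := by
          rw [e3 i] at e4
          rcases mul_eq_zero.1 (neg_eq_zero.1 e4) with h | h
          · exact h
          · rw [h] at hi
            simp at hi
        refine hb₁'0 (j y, r) ?_
        refine heq.trans ?_
        rw [e6, zero_smul, neg_zero]
      · -- a face of the old coordinates
        have hr' : ‖(fun i => (r i : ℝ) : Fin R → ℝ)‖ < 1 := by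
          rw [pi_norm_lt_iff zero_lt_one]
          intro i
          have h3 : |(r i : ℝ)| ≤ 1 := abs_le.2 ⟨(r i).2.1, (r i).2.2⟩
          exact lt_of_le_of_ne h3 fun h => hr ⟨i, h⟩
        have hvy : ‖v y‖ = 1 := by
          rw [Prod.norm_def] at hp'
          rcases max_choice ‖v y‖ ‖(fun i => (r i : ℝ) : Fin R → ℝ)‖ with h | h
          · exact h.symm.trans hp'
          · exact absurd (h.symm.trans hp') hr'.ne
        have hn := n1_pos hvy
        have hjA : j y ∈ pr ⁻¹' (Y ∩ (fun y => ‖v y‖) ⁻¹' {1}) := by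
          rw [mem_preimage, hprj]
          exact ⟨y.2, hvy⟩
        have hU : U (j y) = u (v y) := by
          rw [hUA _ hjA]
          change u (v (pr (j y))) = _
          rw [hprj]
        have e4 : ∀ i : Fin M, v y (Fin.natAdd 3 i) = 0 := by
          intro i
          have h3 := e2 i
          rw [hU, u_pole_sub] at h3
          have h4 : v y (Fin.natAdd 3 i) * ((n1 (v y))⁻¹ + μ) = 0 := by
            rw [div_eq_mul_inv] at h3
            linarith
          rcases mul_eq_zero.1 h4 with h | h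
          · exact h
          · have : 0 < (n1 (v y))⁻¹ + μ := add_pos_of_pos_of_nonneg (inv_pos.2 hn) hμ
            exact absurd h this.ne'
        have hm1 : mm Qt (U (j y)) = 1 := by
          rw [hU]
          exact mm_u e4 (hU ▸ hUR (j y))
        have hgg : (mm Qt (U (j y)))⁻¹ • gg (U (j y)) = push (hh (v y)) := by
          rw [hm1, inv_one, one_smul, hU]
          funext l
          exact u_base _ l
        have hgm := (hφm (j y, r) (by rw [hm1]; exact one_ne_zero)).1
        have hpush : push (hh (v y)) ∈ Rz (Qb Qt) := by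
          rw [← hgg]
          exact hgm
        refine hs3 (hh (v y)) (hh_mem hvy e4) hpush r μ (n1 (v y)) hμ hn ?_
        have e5 : s (push (hh (v y)), r) = mm Qt (U (j y)) • φ (j y, r) := by
          rw [hm1, one_smul]
          change _ = s ((mm Qt (U (j y)))⁻¹ • gg (U (j y)), r)
          rw [hgg]
        rw [e5]
        refine Prod.ext (funext fun i => ?_) (funext fun i => ?_)
        · rw [e1 i]
          change _ = -(μ * (n1 (v y) * octa (hh (v y)) i))
          rw [octa_hh, mul_div_cancel₀ _ hn.ne']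
        · rw [e3 i]
          rfl)
  classical
  refine ⟨fun z => if h : z.1 ∈ Y then w (⟨z.1, h⟩, z.2) else 0, ?_, ?_, ?_⟩
  · rw [continuousOn_iff_continuous_domRestrict]
    have h3 : Continuous fun z : (Y ×ˢ (univ : Set (Fin R → Iv))) =>
        w (⟨z.1.1, z.2.1⟩, z.1.2) := by
      refine hwc.comp ?_
      exact ((continuous_fst.comp continuous_subtype_val).subtype_mk _).prodMk
        (continuous_snd.comp continuous_subtype_val)
    refine h3.congr fun z => ?_
    change _ = if h : z.1.1 ∈ Y then w (⟨z.1.1, h⟩, z.1.2) else 0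
    rw [dif_pos z.2.1]
  · intro z hz
    change ‖if h : z.1 ∈ Y then w (⟨z.1, h⟩, z.2) else 0‖ = 1
    rw [dif_pos hz.1]
    exact hw1 _
  · intro y hy r hr
    change (if h : y ∈ Y then w (⟨y, h⟩, r) else 0) = _
    rw [dif_pos hy]
    exact hwB (⟨y, hy⟩, r) hr

end Pool.Agent.SH


end

section

/-!
# SKE: compression by downward induction over the skeleta of the cube
-/

set_option autoImplicit false

open Set Topology

namespace Pool.Agent.SH

namespace SKE

variable {ι : Type}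

theorem count1 {R : ℕ} (S : Finset ι) (A : Set (ι ⊕ Fin R)) (hA : ∀ j, Sum.inl j ∈ A → j ∈ S) :
    A.ncard ≤ S.card + R := by
  classical
  have hsub : A ⊆ ((S.disjSum (Finset.univ : Finset (Fin R)) : Finset (ι ⊕ Fin R)) :
      Set (ι ⊕ Fin R)) := by
    intro b hb
    rcases b with j | l
    · exact Finset.mem_coe.2 (Finset.inl_mem_disjSum.2 (hA j hb))
    · exact Finset.mem_coe.2 (Finset.inr_mem_disjSum.2 (Finset.mem_univ _))
  have h1 := Set.ncard_le_ncard hsub (Finset.finite_toSet _)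
  rw [Set.ncard_coe_finset, Finset.card_disjSum, Finset.card_univ, Fintype.card_fin] at h1
  exact h1

theorem count2 {R : ℕ} (S : Finset ι) (A : Set (ι ⊕ Fin R)) (hA : ∀ j, Sum.inl j ∈ A → j ∈ S)
    (b : ι ⊕ Fin R) (hb : ∀ j, b = Sum.inl j → j ∈ S) (hbA : b ∉ A) :
    A.ncard + 1 ≤ S.card + R := by
  classical
  have hbS : b ∈ (S.disjSum (Finset.univ : Finset (Fin R)) : Finset (ι ⊕ Fin R)) := by
    rcases b with j | l
    · exact Finset.inl_mem_disjSum.2 (hb j rfl)
    · exact Finset.inr_mem_disjSum.2 (Finset.mem_univ _)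
  have hsub : A ⊆ (((S.disjSum (Finset.univ : Finset (Fin R))).erase b : Finset (ι ⊕ Fin R)) :
      Set (ι ⊕ Fin R)) := by
    intro b' hb'
    refine Finset.mem_coe.2 (Finset.mem_erase.2 ⟨?_, ?_⟩)
    · rintro rfl
      exact hbA hb'
    · rcases b' with j | l
      · exact Finset.inl_mem_disjSum.2 (hA j hb')
      · exact Finset.inr_mem_disjSum.2 (Finset.mem_univ _)
  have h1 := Set.ncard_le_ncard hsub (Finset.finite_toSet _)
  rw [Set.ncard_coe_finset, Finset.card_erase_of_mem hbS, Finset.card_disjSum, Finset.card_univ,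
    Fintype.card_fin] at h1
  have h2 : 0 < (S.disjSum (Finset.univ : Finset (Fin R))).card := Finset.card_pos.2 ⟨b, hbS⟩
  rw [Finset.card_disjSum, Finset.card_univ, Fintype.card_fin] at h2
  omega

variable [Fintype ι]

omit [Fintype ι] in
/-- If `‖w‖ = 1` some coordinate has absolute value `1`. -/
theorem exists_one {N R : ℕ} {w : (Fin N → ℝ) × (Fin R → ℝ)} (hw : ‖w‖ = 1) :
    (∃ a, ¬ |w.1 a| < 1) ∨ ∃ l, ¬ |w.2 l| < 1 := by
  by_contra hcon
  push Not at hcon
  have h1 : ‖w.1‖ < 1 := (pi_norm_lt_iff one_pos).2 fun a => hcon.1 a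
  have h2 : ‖w.2‖ < 1 := (pi_norm_lt_iff one_pos).2 fun a => hcon.2 a
  rw [Prod.norm_def] at hw
  exact absurd hw (max_lt h1 h2).ne

theorem le_one {N R : ℕ} {w : (Fin N → ℝ) × (Fin R → ℝ)} (hw : ‖w‖ = 1) :
    (∀ a, |w.1 a| ≤ 1) ∧ ∀ l, |w.2 l| ≤ 1 := by
  rw [Prod.norm_def] at hw
  constructor
  · intro a
    have h1 := norm_le_pi_norm w.1 a
    rw [Real.norm_eq_abs] at h1
    exact h1.trans ((le_max_left _ _).trans hw.le)
  · intro a
    have h1 := norm_le_pi_norm w.2 a
    rw [Real.norm_eq_abs] at h1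
    exact h1.trans ((le_max_right _ _).trans hw.le)

/-- The coordinates `j` with `|p j| < 1`. -/
noncomputable def fr (p : ι → ℝ) : Finset ι := by
  classical
  exact Finset.univ.filter fun j => |p j| < 1

omit [Fintype ι] in
theorem mem_fr [Fintype ι] {p : ι → ℝ} {j : ι} : j ∈ fr p ↔ |p j| < 1 := by
  classical
  unfold fr
  simp

/-- The equivalence of index sets. -/
def EE (k R m : ℕ) : Fin (k + R) ⊕ Fin m ≃ (Fin k ⊕ Fin m) ⊕ Fin R :=
  ((Equiv.sumCongr finSumFinEquiv.symm (Equiv.refl (Fin m))).trans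
    (Equiv.sumAssoc (Fin k) (Fin R) (Fin m))).trans
    ((Equiv.sumCongr (Equiv.refl (Fin k)) (Equiv.sumComm (Fin R) (Fin m))).trans
      (Equiv.sumAssoc (Fin k) (Fin m) (Fin R)).symm)

theorem EE_castAdd (k R m : ℕ) (j : Fin k) :
    EE k R m (Sum.inl (Fin.castAdd R j)) = Sum.inl (Sum.inl j) := by
  simp [EE]

theorem EE_natAdd (k R m : ℕ) (l : Fin R) :
    EE k R m (Sum.inl (Fin.natAdd k l)) = Sum.inr l := by
  simp [EE]

theorem EE_inr (k R m : ℕ) (v : Fin m) :
    EE k R m (Sum.inr v) = Sum.inl (Sum.inr v) := by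
  simp [EE]

/-- One step on the level of a space `Z` with a map to a cube. -/
theorem step {Z : Type} [TopologicalSpace Z] (Φ : Z → ι → ℝ) (hΦ : Continuous Φ)
    (hΦ1 : ∀ z j, |Φ z j| ≤ 1) (N R : ℕ) (hN : ∀ z, (fr (Φ z)).card ≤ N)
    (hw : ∀ (T : Finset ι) (hT : T.card = N),
      ∃ w : Z × (Fin R → Iv) → (Fin N → ℝ) × (Fin R → ℝ),
        ContinuousOn w ({z | ∀ j, j ∉ T → |Φ z j| = 1} ×ˢ univ) ∧
        (∀ z ∈ {z | ∀ j, j ∉ T → |Φ z j| = 1} ×ˢ (univ : Set (Fin R → Iv)), ‖w z‖ = 1) ∧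
        ∀ z, (∀ j, j ∉ T → |Φ z j| = 1) → ∀ r : Fin R → Iv,
          ‖((fun a => Φ z ((T.equivFinOfCardEq hT).symm a : ι), fun i => (r i : ℝ)) :
            (Fin N → ℝ) × (Fin R → ℝ))‖ = 1 →
          w (z, r) = (fun a => Φ z ((T.equivFinOfCardEq hT).symm a : ι), fun i => (r i : ℝ))) :
    ∃ G : Z × (Fin R → Iv) → (ι → ℝ) × (Fin R → ℝ), Continuous G ∧
      (∀ z j, |(G z).1 j| ≤ 1) ∧ (∀ z l, |(G z).2 l| ≤ 1) ∧
      (∀ z r j, |Φ z j| = 1 → (G (z, r)).1 j = Φ z j) ∧
      (∀ z (r : Fin R → Iv) l, |(r l : ℝ)| = 1 → (G (z, r)).2 l = r l) ∧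
      ∀ z, {b : ι ⊕ Fin R | |Sum.elim (G z).1 (G z).2 b| < 1}.ncard + 1 ≤ N + R ∨
        ({b : ι ⊕ Fin R | |Sum.elim (G z).1 (G z).2 b| < 1}.ncard ≤ (fr (Φ z.1)).card + R ∧
          (fr (Φ z.1)).card < N) := by
  classical
  choose w hwc hw1 hw2 using hw
  -- the values on the pieces
  let val : ∀ (T : Finset ι) (_ : T.card = N), Z × (Fin R → Iv) → (ι → ℝ) × (Fin R → ℝ) :=
    fun T hT z => (fun j => if h : j ∈ T then (w T hT z).1 (T.equivFinOfCardEq hT ⟨j, h⟩)
      else Φ z.1 j, (w T hT z).2)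
  let val0 : Z × (Fin R → Iv) → (ι → ℝ) × (Fin R → ℝ) := fun z => (Φ z.1, fun i => (z.2 i : ℝ))
  let G : Z × (Fin R → Iv) → (ι → ℝ) × (Fin R → ℝ) := fun z =>
    if h : (fr (Φ z.1)).card = N then val (fr (Φ z.1)) h z else val0 z
  have hG1 : ∀ z (h : (fr (Φ z.1)).card = N), G z = val (fr (Φ z.1)) h z := fun z h => dif_pos h
  have hG0 : ∀ z, (fr (Φ z.1)).card ≠ N → G z = val0 z := fun z h => dif_neg h
  -- points of `Y_T`
  have hsub : ∀ (T : Finset ι) (z : Z), (∀ j, j ∉ T → |Φ z j| = 1) → fr (Φ z) ⊆ T := by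
    intro T z hz j hj
    by_contra hjT
    exact absurd (hz j hjT) (mem_fr.1 hj).ne
  have hself : ∀ z j, j ∉ fr (Φ z) → |Φ z j| = 1 := by
    intro z j hj
    rw [mem_fr] at hj
    exact le_antisymm (hΦ1 z j) (not_lt.1 hj)
  -- the two definitions agree if a coordinate has absolute value one
  have hnormv : ∀ (T : Finset ι) (hT : T.card = N) (z : Z),
      ‖(fun a => Φ z ((T.equivFinOfCardEq hT).symm a : ι) : Fin N → ℝ)‖ ≤ 1 := by
    intro T hT z
    refine (pi_norm_le_iff_of_nonneg zero_le_one).2 fun a => ?_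
    exact hΦ1 z _
  have hnormr : ∀ r : Fin R → Iv, ‖(fun i => (r i : ℝ) : Fin R → ℝ)‖ ≤ 1 := by
    intro r
    refine (pi_norm_le_iff_of_nonneg zero_le_one).2 fun i => ?_
    exact abs_le.2 (r i).2
  have hagree : ∀ (T : Finset ι) (hT : T.card = N) (z : Z) (r : Fin R → Iv),
      (∀ j, j ∉ T → |Φ z j| = 1) → (fr (Φ z)).card ≠ N → val T hT (z, r) = val0 (z, r) := by
    intro T hT z r hz hc
    have hss : fr (Φ z) ⊂ T := by
      refine (Finset.ssubset_iff_subset_ne).2 ⟨hsub T z hz, ?_⟩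
      intro h
      exact hc (by rw [h, hT])
    obtain ⟨j, hjT, hj⟩ := Finset.exists_of_ssubset hss
    have hj1 := hself z j hj
    have hone : ‖((fun a => Φ z ((T.equivFinOfCardEq hT).symm a : ι), fun i => (r i : ℝ)) :
        (Fin N → ℝ) × (Fin R → ℝ))‖ = 1 := by
      rw [Prod.norm_def]
      refine le_antisymm (max_le (hnormv T hT z) (hnormr r)) (le_max_of_le_left ?_)
      have h1 := norm_le_pi_norm (fun a => Φ z ((T.equivFinOfCardEq hT).symm a : ι) : Fin N → ℝ)
        (T.equivFinOfCardEq hT ⟨j, hjT⟩)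
      rw [Equiv.symm_apply_apply, Real.norm_eq_abs] at h1
      exact hj1.ge.trans h1
    have hval := hw2 T hT z hz r hone
    refine Prod.ext ?_ ?_
    · funext i
      show (if h : i ∈ T then (w T hT (z, r)).1 (T.equivFinOfCardEq hT ⟨i, h⟩)
        else Φ z i) = Φ z i
      by_cases h : i ∈ T
      · rw [dif_pos h, hval]
        show Φ z ((T.equivFinOfCardEq hT).symm (T.equivFinOfCardEq hT ⟨i, h⟩) : ι) = Φ z i
        rw [Equiv.symm_apply_apply]
      · rw [dif_neg h]
    · show (w T hT (z, r)).2 = fun i => (r i : ℝ)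
      rw [hval]
  have hGT : ∀ (T : Finset ι) (hT : T.card = N) (z : Z) (r : Fin R → Iv),
      (∀ j, j ∉ T → |Φ z j| = 1) → G (z, r) = val T hT (z, r) := by
    intro T hT z r hz
    by_cases hc : (fr (Φ z)).card = N
    · have hTf : fr (Φ z) = T := Finset.eq_of_subset_of_card_le (hsub T z hz) (by rw [hc, hT])
      rw [hG1 (z, r) hc]
      subst hTf
      rfl
    · rw [hG0 (z, r) hc, hagree T hT z r hz hc]
  -- continuity
  have hcY : ∀ T : Finset ι, IsClosed {z : Z | ∀ j, j ∉ T → |Φ z j| = 1} := by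
    intro T
    have : {z : Z | ∀ j, j ∉ T → |Φ z j| = 1} = ⋂ j, ⋂ (_ : j ∉ T), {z : Z | |Φ z j| = 1} := by
      ext z
      simp
    rw [this]
    exact isClosed_iInter fun j => isClosed_iInter fun _ =>
      isClosed_eq (continuous_abs.comp ((continuous_apply j).comp hΦ)) continuous_const
  have hcL : IsClosed {z : Z | (fr (Φ z)).card < N} := by
    rw [← isOpen_compl_iff]
    have : {z : Z | (fr (Φ z)).card < N}ᶜ =
        ⋃ T : {T : Finset ι // T.card = N}, ⋂ j ∈ T.1, {z : Z | |Φ z j| < 1} := by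
      ext z
      simp only [mem_compl_iff, Set.mem_ofPred_eq, not_lt, mem_iUnion, mem_iInter, Subtype.exists,
        exists_prop]
      constructor
      · intro h
        obtain ⟨T, hT, hTc⟩ := Finset.exists_subset_card_eq h
        exact ⟨T, hTc, fun j hj => mem_fr.1 (hT hj)⟩
      · rintro ⟨T, hT, hz⟩
        rw [← hT]
        exact Finset.card_le_card fun j hj => mem_fr.2 (hz j hj)
    rw [this]
    refine isOpen_iUnion fun T => isOpen_biInter_finset fun j _ => ?_
    exact isOpen_lt (continuous_abs.comp ((continuous_apply j).comp hΦ)) continuous_const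
  have hGc : Continuous G := by
    let C : Option {T : Finset ι // T.card = N} → Set (Z × (Fin R → Iv)) := fun o =>
      match o with
      | none => {z : Z | (fr (Φ z)).card < N} ×ˢ univ
      | some T => {z : Z | ∀ j, j ∉ T.1 → |Φ z j| = 1} ×ˢ univ
    refine LocallyFinite.continuous (f := C) (locallyFinite_of_finite C) ?_ ?_ ?_
    · refine eq_univ_of_forall fun z => mem_iUnion.2 ?_
      by_cases hc : (fr (Φ z.1)).card = N
      · exact ⟨some ⟨_, hc⟩, fun j hj => hself z.1 j hj, trivial⟩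
      · exact ⟨none, lt_of_le_of_ne (hN z.1) hc, trivial⟩
    · intro o
      rcases o with _ | T
      · exact hcL.prod isClosed_univ
      · exact (hcY T.1).prod isClosed_univ
    · intro o
      rcases o with _ | T
      · have h0 : ContinuousOn val0 (C none) := by
          refine Continuous.continuousOn ?_
          exact (hΦ.comp continuous_fst).prodMk (continuous_pi fun i =>
            continuous_subtype_val.comp ((continuous_apply i).comp continuous_snd))
        refine h0.congr fun z hz => hG0 z ?_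
        exact (show (fr (Φ z.1)).card < N from hz.1).ne
      · have h0 : ContinuousOn (val T.1 T.2) (C (some T)) := by
          refine ContinuousOn.prodMk ?_ ?_
          · refine continuousOn_pi.2 fun j => ?_
            by_cases h : j ∈ T.1
            · have h1 : ContinuousOn (fun z => (w T.1 T.2 z).1
                  (T.1.equivFinOfCardEq T.2 ⟨j, h⟩)) (C (some T)) :=
                (continuous_apply _).comp_continuousOn
                  (continuous_fst.comp_continuousOn (hwc T.1 T.2))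
              exact h1.congr fun z _ => dif_pos h
            · have h1 : Continuous (fun z : Z × (Fin R → Iv) => Φ z.1 j) :=
                (continuous_apply j).comp (hΦ.comp continuous_fst)
              exact h1.continuousOn.congr fun z _ => dif_neg h
          · exact continuous_snd.comp_continuousOn (hwc T.1 T.2)
        exact h0.congr fun z hz => hGT T.1 T.2 z.1 z.2 hz.1
  refine ⟨G, hGc, ?_, ?_, ?_, ?_, ?_⟩
  · rintro ⟨z, r⟩ j
    by_cases hc : (fr (Φ z)).card = N
    · rw [hG1 (z, r) hc]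
      show |if h : j ∈ fr (Φ z) then (w (fr (Φ z)) hc (z, r)).1
        ((fr (Φ z)).equivFinOfCardEq hc ⟨j, h⟩) else Φ z j| ≤ 1
      by_cases h : j ∈ fr (Φ z)
      · rw [dif_pos h]
        exact (le_one (hw1 _ hc (z, r) ⟨hself z, trivial⟩)).1 _
      · rw [dif_neg h]
        exact hΦ1 z j
    · rw [hG0 (z, r) hc]
      exact hΦ1 z j
  · rintro ⟨z, r⟩ l
    by_cases hc : (fr (Φ z)).card = N
    · rw [hG1 (z, r) hc]
      exact (le_one (hw1 _ hc (z, r) ⟨hself z, trivial⟩)).2 _
    · rw [hG0 (z, r) hc]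
      exact abs_le.2 (r l).2
  · intro z r j hj
    by_cases hc : (fr (Φ z)).card = N
    · rw [hG1 (z, r) hc]
      have h : j ∉ fr (Φ z) := fun h => absurd hj (mem_fr.1 h).ne
      exact dif_neg h
    · rw [hG0 (z, r) hc]
  · intro z r l hl
    by_cases hc : (fr (Φ z)).card = N
    · rw [hG1 (z, r) hc]
      have hone : ‖((fun a => Φ z (((fr (Φ z)).equivFinOfCardEq hc).symm a : ι),
          fun i => (r i : ℝ)) : (Fin N → ℝ) × (Fin R → ℝ))‖ = 1 := by
        rw [Prod.norm_def]
        refine le_antisymm (max_le (hnormv _ hc z) (hnormr r)) (le_max_of_le_right ?_)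
        have h1 := norm_le_pi_norm (fun i => (r i : ℝ) : Fin R → ℝ) l
        rw [Real.norm_eq_abs] at h1
        exact hl.ge.trans h1
      show (w (fr (Φ z)) hc (z, r)).2 l = r l
      rw [hw2 _ hc z (hself z) r hone]
    · rw [hG0 (z, r) hc]
  · rintro ⟨z, r⟩
    by_cases hc : (fr (Φ z)).card = N
    · left
      have hA : ∀ j, Sum.inl j ∈ {b : ι ⊕ Fin R | |Sum.elim (G (z, r)).1 (G (z, r)).2 b| < 1} →
          j ∈ fr (Φ z) := by
        intro j hj
        have hj' : |(G (z, r)).1 j| < 1 := hj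
        by_contra h
        rw [hG1 (z, r) hc] at hj'
        have h2 : (val (fr (Φ z)) hc (z, r)).1 j = Φ z j := dif_neg h
        rw [h2] at hj'
        exact h (mem_fr.2 hj')
      rcases exists_one (hw1 _ hc (z, r) ⟨hself z, trivial⟩) with ⟨a, ha⟩ | ⟨l, hl⟩
      · have hmem := (((fr (Φ z)).equivFinOfCardEq hc).symm a).2
        have := count2 (fr (Φ z)) _ hA
          (Sum.inl (((fr (Φ z)).equivFinOfCardEq hc).symm a : ι)) (by
            intro j hj
            have := Sum.inl.inj hj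
            rw [← this]
            exact hmem) (by
            intro hb
            have hb' : |(G (z, r)).1 (((fr (Φ z)).equivFinOfCardEq hc).symm a : ι)| < 1 := hb
            rw [hG1 (z, r) hc] at hb'
            have h2 : (val (fr (Φ z)) hc (z, r)).1 (((fr (Φ z)).equivFinOfCardEq hc).symm a : ι) =
                (w (fr (Φ z)) hc (z, r)).1 ((fr (Φ z)).equivFinOfCardEq hc
                  ⟨(((fr (Φ z)).equivFinOfCardEq hc).symm a : ι), hmem⟩) := dif_pos hmem
            rw [h2] at hb'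
            have h3 : (fr (Φ z)).equivFinOfCardEq hc
                ⟨(((fr (Φ z)).equivFinOfCardEq hc).symm a : ι), hmem⟩ = a :=
              Equiv.apply_symm_apply _ a
            rw [h3] at hb'
            exact ha hb')
        rwa [hc] at this
      · have := count2 (fr (Φ z)) _ hA (Sum.inr l) (by intro j hj; cases hj) (by
            intro hb
            have hb' : |(G (z, r)).2 l| < 1 := hb
            rw [hG1 (z, r) hc] at hb'
            exact hl hb')
        rwa [hc] at this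
    · right
      refine ⟨count1 _ _ ?_, lt_of_le_of_ne (hN z) hc⟩
      intro j hj
      have hj' : |(G (z, r)).1 j| < 1 := hj
      rw [hG0 (z, r) hc] at hj'
      exact mem_fr.2 hj'

/-- The claim of the induction. -/
def Cl (X : Type) [TopologicalSpace X] (c m : ℕ) (φ : X → Fin m → ℝ) (i : ℕ) : Prop :=
  ∃ k₀ : ℕ, ∀ k, k₀ ≤ k →
    ∃ Φ : (Fin k → Iv) × X → (Fin k ⊕ Fin m) → ℝ, Continuous Φ ∧ (∀ z j, |Φ z j| ≤ 1) ∧
      (∀ (q : Fin k → Iv) (x : X) (j : Fin k), |(q j : ℝ)| = 1 → Φ (q, x) (Sum.inl j) = q j) ∧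
      (∀ (q : Fin k → Iv) (x : X) (v : Fin m), |φ x v| = 1 → Φ (q, x) (Sum.inr v) = φ x v) ∧
      ∀ z, {j | |Φ z j| < 1}.ncard ≤ k + c + i

theorem ncard_fr (p : ι → ℝ) : {j | |p j| < 1}.ncard = (fr p).card := by
  classical
  rw [← Set.ncard_coe_finset]
  congr 1
  ext j
  exact mem_fr.symm

theorem Cl_step (X : Type) [TopologicalSpace X] (c m : ℕ) (φ : X → Fin m → ℝ) (i : ℕ)
    (hX : StInes X c) (h : Cl X c m φ (i + 1)) : Cl X c m φ i := by
  classical
  obtain ⟨k, hk⟩ := h
  obtain ⟨Φ, hΦ, hΦ1, hq, hφ, hc⟩ := hk k le_rfl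
  obtain ⟨N, hNdef⟩ : ∃ N, N = k + c + i + 1 := ⟨_, rfl⟩
  have hN : ∀ z, (fr (Φ z)).card ≤ N := by
    intro z
    have := hc z
    rw [ncard_fr] at this
    omega
  have hcY : ∀ T : Finset (Fin k ⊕ Fin m),
      IsClosed {z : (Fin k → Iv) × X | ∀ j, j ∉ T → |Φ z j| = 1} := by
    intro T
    have : {z : (Fin k → Iv) × X | ∀ j, j ∉ T → |Φ z j| = 1} =
        ⋂ j, ⋂ (_ : j ∉ T), {z : (Fin k → Iv) × X | |Φ z j| = 1} := by
      ext z
      simp
    rw [this]
    exact isClosed_iInter fun j => isClosed_iInter fun _ =>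
      isClosed_eq (continuous_abs.comp ((continuous_apply j).comp hΦ)) continuous_const
  have hT : ∀ T : {T : Finset (Fin k ⊕ Fin m) // T.card = N}, ∃ R₀ : ℕ, ∀ R, R₀ ≤ R →
      ∃ w : ((Fin k → Iv) × X) × (Fin R → Iv) → (Fin N → ℝ) × (Fin R → ℝ),
        ContinuousOn w ({z | ∀ j, j ∉ T.1 → |Φ z j| = 1} ×ˢ univ) ∧
        (∀ z ∈ {z | ∀ j, j ∉ T.1 → |Φ z j| = 1} ×ˢ (univ : Set (Fin R → Iv)), ‖w z‖ = 1) ∧
        ∀ z, (∀ j, j ∉ T.1 → |Φ z j| = 1) → ∀ r : Fin R → Iv,
          ‖((fun a => Φ z ((T.1.equivFinOfCardEq T.2).symm a : Fin k ⊕ Fin m),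
            fun i => (r i : ℝ)) : (Fin N → ℝ) × (Fin R → ℝ))‖ = 1 →
          w (z, r) = (fun a => Φ z ((T.1.equivFinOfCardEq T.2).symm a : Fin k ⊕ Fin m),
            fun i => (r i : ℝ)) := by
    intro T
    exact hX k N {z | ∀ j, j ∉ T.1 → |Φ z j| = 1}
      (fun z a => Φ z ((T.1.equivFinOfCardEq T.2).symm a : Fin k ⊕ Fin m)) (by omega) (hcY T.1)
      (Continuous.continuousOn (continuous_pi fun a => (continuous_apply _).comp hΦ))
      (fun z _ => (pi_norm_le_iff_of_nonneg zero_le_one).2 fun a => hΦ1 z _)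
  choose R₀ hR₀ using hT
  refine ⟨k + Finset.univ.sup R₀, ?_⟩
  intro k' hk'
  obtain ⟨R, rfl⟩ := Nat.exists_eq_add_of_le (show k ≤ k' by omega)
  have hR : ∀ T, R₀ T ≤ R := fun T => by
    have : R₀ T ≤ Finset.univ.sup R₀ := Finset.le_sup (Finset.mem_univ T)
    omega
  obtain ⟨G, hGc, hG1, hG2, hG3, hG4, hG5⟩ := step Φ hΦ hΦ1 N R hN
    (fun T hT => hR₀ ⟨T, hT⟩ R (hR ⟨T, hT⟩))
  let pr : (Fin (k + R) → Iv) × X → ((Fin k → Iv) × X) × (Fin R → Iv) := fun z =>
    ((fun j => z.1 (Fin.castAdd R j), z.2), fun l => z.1 (Fin.natAdd k l))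
  have hpr : Continuous pr :=
    ((continuous_pi fun j => (continuous_apply _).comp continuous_fst).prodMk
      continuous_snd).prodMk (continuous_pi fun l => (continuous_apply _).comp continuous_fst)
  refine ⟨fun z b => Sum.elim (G (pr z)).1 (G (pr z)).2 (EE k R m b), ?_, ?_, ?_, ?_, ?_⟩
  · refine continuous_pi fun b => ?_
    rcases hb : EE k R m b with j | l
    · simp only [Sum.elim_inl]
      exact (continuous_apply j).comp (continuous_fst.comp (hGc.comp hpr))
    · simp only [Sum.elim_inr]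
      exact (continuous_apply l).comp (continuous_snd.comp (hGc.comp hpr))
  · intro z b
    show |Sum.elim (G (pr z)).1 (G (pr z)).2 (EE k R m b)| ≤ 1
    rcases EE k R m b with j | l
    · exact hG1 (pr z) j
    · exact hG2 (pr z) l
  · intro q x j hj
    refine Fin.addCases (motive := fun j => |(q j : ℝ)| = 1 →
      Sum.elim (G (pr (q, x))).1 (G (pr (q, x))).2 (EE k R m (Sum.inl j)) = q j) ?_ ?_ j hj
    · intro j0 hj0
      rw [EE_castAdd]
      have h1 := hq (fun j => q (Fin.castAdd R j)) x j0 hj0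
      show (G (pr (q, x))).1 (Sum.inl j0) = _
      have h2 := hG3 (pr (q, x)).1 (pr (q, x)).2 (Sum.inl j0) (by
        show |Φ (fun j => q (Fin.castAdd R j), x) (Sum.inl j0)| = 1
        rw [h1]; exact hj0)
      rw [show pr (q, x) = ((pr (q, x)).1, (pr (q, x)).2) from rfl, h2]
      exact h1
    · intro l hl
      rw [EE_natAdd]
      exact hG4 (pr (q, x)).1 (pr (q, x)).2 l hl
  · intro q x v hv
    show Sum.elim (G (pr (q, x))).1 (G (pr (q, x))).2 (EE k R m (Sum.inr v)) = _
    rw [EE_inr]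
    have h1 := hφ (fun j => q (Fin.castAdd R j)) x v hv
    have h2 := hG3 (pr (q, x)).1 (pr (q, x)).2 (Sum.inr v) (by
      show |Φ (fun j => q (Fin.castAdd R j), x) (Sum.inr v)| = 1
      rw [h1]; exact hv)
    show (G (pr (q, x))).1 (Sum.inr v) = _
    rw [show pr (q, x) = ((pr (q, x)).1, (pr (q, x)).2) from rfl, h2]
    exact h1
  · intro z
    have himg : {b | |Sum.elim (G (pr z)).1 (G (pr z)).2 (EE k R m b)| < 1} =
        (EE k R m).symm '' {b | |Sum.elim (G (pr z)).1 (G (pr z)).2 b| < 1} := by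
      ext b
      constructor
      · intro hb
        exact ⟨EE k R m b, hb, Equiv.symm_apply_apply _ b⟩
      · rintro ⟨b', hb', rfl⟩
        show |Sum.elim (G (pr z)).1 (G (pr z)).2 (EE k R m ((EE k R m).symm b'))| < 1
        rw [Equiv.apply_symm_apply]
        exact hb'
    rw [himg, Set.ncard_image_of_injective _ (EE k R m).symm.injective]
    rcases hG5 (pr z) with h | ⟨h, h'⟩ <;> omega

theorem Cl_top (X : Type) [TopologicalSpace X] (c m : ℕ) (φ : X → Fin m → ℝ) (hφ : Continuous φ)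
    (hφ1 : ∀ x v, |φ x v| ≤ 1) : Cl X c m φ m := by
  refine ⟨0, fun k _ => ⟨fun z => Sum.elim (fun j => (z.1 j : ℝ)) (φ z.2), ?_, ?_, ?_, ?_, ?_⟩⟩
  · refine continuous_pi fun b => ?_
    rcases b with j | v
    · exact continuous_subtype_val.comp ((continuous_apply j).comp continuous_fst)
    · exact (continuous_apply v).comp (hφ.comp continuous_snd)
  · intro z b
    rcases b with j | v
    · exact abs_le.2 (z.1 j).2
    · exact hφ1 z.2 v
  · intro q x j _
    rfl
  · intro q x v _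
    rfl
  · intro z
    have h1 : {j | |Sum.elim (fun j => (z.1 j : ℝ)) (φ z.2) j| < 1}.ncard ≤
        (univ : Set (Fin k ⊕ Fin m)).ncard := Set.ncard_le_ncard (subset_univ _) finite_univ
    rw [Set.ncard_univ, Nat.card_eq_fintype_card, Fintype.card_sum, Fintype.card_fin,
      Fintype.card_fin] at h1
    show {j | |Sum.elim (fun j => (z.1 j : ℝ)) (φ z.2) j| < 1}.ncard ≤ k + c + m
    omega

end SKE

open SKE in
theorem SKE : Stmt_SKE := by
  intro X _ _ _ c hX m φ hφ hφ1
  have key : ∀ d i, i + d = m → Cl X c m φ i := by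
    intro d
    induction d with
    | zero =>
      intro i hi
      have : i = m := by omega
      rw [this]
      exact Cl_top X c m φ hφ hφ1
    | succ d ih =>
      intro i hi
      exact Cl_step X c m φ i hX (ih (i + 1) (by omega))
  exact key m 0 (by omega)

end Pool.Agent.SH


end

section

/-!
# MP_2d0b73_an, PART II: definitions, homotopical part (helper38)

Simplicial sets are Mathlib's `SSet.{0}`; `T` is a fixed target.
-/

noncomputable section

namespace Pool.Agent.SH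

open CategoryTheory Simplicial MonoidalCategory Limits Opposite

/-- `LT T i`: the map `i : A ⟶ B` is a monomorphism and every map
`(B × ∂Δ[n]) ∪ (A × Δ[n]) ⟶ T` extends to `B × Δ[n]`. -/
def LT (T : SSet.{0}) {A B : SSet.{0}} (i : A ⟶ B) : Prop :=
  Mono i ∧ ∀ (n : ℕ) (u : B ⊗ (∂Δ[n] : SSet.{0}) ⟶ T) (v : A ⊗ Δ[n] ⟶ T),
    i ▷ (∂Δ[n] : SSet.{0}) ≫ u = A ◁ ∂Δ[n].ι ≫ v →
      ∃ w : B ⊗ Δ[n] ⟶ T, B ◁ ∂Δ[n].ι ≫ w = u ∧ i ▷ Δ[n] ≫ w = v

/-- The vertex `x` of `X` as a map `Δ[0] ⟶ X`. -/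
def vert {X : SSet.{0}} (x : X _⦋0⦌) : (Δ[0] : SSet.{0}) ⟶ X := SSet.yonedaEquiv.symm x

/-- `X` is acyclic for `T`: it has a vertex whose inclusion is in `LT T`. -/
def TAcyclic (T X : SSet.{0}) : Prop := ∃ x : X _⦋0⦌, LT T (vert x)

/-- Compactness of `T`: a map from a subcomplex `A` of `B` extends to `B` as soon as for each
finite subcomplex `F` its restriction to `A ⊓ F` extends to `F`. -/
def TCompact (T : SSet.{0}) : Prop :=
  ∀ (B : SSet.{0}) (A : B.Subcomplex) (u : (A : SSet.{0}) ⟶ T),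
    (∀ F : B.Subcomplex, (F : SSet.{0}).Finite →
      ∃ w : (F : SSet.{0}) ⟶ T,
        SSet.Subcomplex.homOfLE (inf_le_right : A ⊓ F ≤ F) ≫ w =
          SSet.Subcomplex.homOfLE (inf_le_left : A ⊓ F ≤ A) ≫ u) →
    ∃ w : B ⟶ T, A.ι ≫ w = u

/-- A map `f : X ⟶ T` is null homotopic (to some vertex `t`). -/
def Null {X T : SSet.{0}} (f : X ⟶ T) : Prop :=
  ∃ t : T _⦋0⦌, Nonempty (SSet.Homotopy f (SSet.const t))

/-- Nerve of a partially ordered type. -/
abbrev NP (P : Type) [Preorder P] : SSet.{0} := nerve P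

/-- Nerve of an order preserving map. -/
abbrev NMap {P Q : Type} [Preorder P] [Preorder Q] (f : P →o Q) : NP P ⟶ NP Q :=
  nerveMap f.monotone.functor

/-- the subcomplex of the nerve of `R` of the simplices all whose vertices are in `U`. -/
def subN {R : Type} [Preorder R] (U : Set R) : (NP R).Subcomplex where
  obj _ := {x | ∀ i, x.obj i ∈ U}
  map _ _ hx _ := hx _

/-- `LTS T A B`: for subcomplexes `A`, `B` of a simplicial set: `A ≤ B` and the inclusion is in
`LT T`. -/
def LTS (T : SSet.{0}) {X : SSet.{0}} (A B : X.Subcomplex) : Prop :=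
  ∃ h : A ≤ B, LT T (SSet.Subcomplex.homOfLE h)

/-- the part `U` of `R` (a set of elements) is acyclic for `T`. -/
def AcyS (T : SSet.{0}) {R : Type} [Preorder R] (U : Set R) : Prop :=
  ∃ a ∈ U, LTS T (subN {a}) (subN U)

end Pool.Agent.SH

end

end

section

/-!
# MP_2d0b73_an, PART II: definitions, combinatorial and geometric part (helper38)
-/

noncomputable section

namespace Pool.Agent.SH

/-! ## Posets -/

theorem Sd.ext' {P : Type} [PartialOrder P] {x y : Sd P} (h : x.c = y.c) : x = y := by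
  cases x
  cases y
  cases h
  rfl

theorem Sd.le_def {P : Type} [PartialOrder P] (x y : Sd P) : x ≤ y ↔ x.c ⊆ y.c := Iff.rfl

instance (P : Type) [PartialOrder P] [Finite P] : Finite (Sd P) := by
  classical
  have : Finite (Finset P) := inferInstance
  exact Finite.of_injective (fun x : Sd P => x.c) (fun x y h => Sd.ext' h)

instance (P : Type) [PartialOrder P] [Fintype P] : Fintype (Sd P) := Fintype.ofFinite _

theorem Sd.exists_max {P : Type} [PartialOrder P] (s : Sd P) : ∃ m, IsMax' s.c m := by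
  classical
  obtain ⟨m, hm, hmax⟩ := s.c.exists_maximal s.ne
  refine ⟨m, hm, fun x hx => ?_⟩
  rcases s.chain x hx m hm with h | h
  · exact h
  · exact hmax hx h

theorem Sd.top_spec {P : Type} [PartialOrder P] (s : Sd P) : IsMax' s.c s.top :=
  Classical.epsilon_spec s.exists_max

theorem Sd.top_mem {P : Type} [PartialOrder P] (s : Sd P) : s.top ∈ s.c := s.top_spec.1

theorem Sd.le_top {P : Type} [PartialOrder P] (s : Sd P) {x : P} (hx : x ∈ s.c) : x ≤ s.top :=
  s.top_spec.2 x hx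

/-- the last vertex map, order preserving. -/
def topHom (P : Type) [PartialOrder P] : Sd P →o P where
  toFun := Sd.top
  monotone' s t hst := t.le_top (hst s.top_mem)

theorem P0.ext' {M : ℕ} {x y : P0 M} (h : x.s = y.s) : x = y := by
  cases x
  cases y
  cases h
  rfl

instance (M : ℕ) : Finite (P0 M) :=
  Finite.of_injective (fun x : P0 M => x.s) (fun _ _ h => P0.ext' h)

instance (M : ℕ) : Fintype (P0 M) := Fintype.ofFinite _

/-- The step: solutions of the extension problem `f : D → L`. -/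
def StepP {P L : Type} [PartialOrder P] [PartialOrder L] (D : Set P) (f : P → L) : Type :=
  {x : P × L // x.1 ∈ D → x.2 = f x.1}

instance {P L : Type} [PartialOrder P] [PartialOrder L] (D : Set P) (f : P → L) :
    PartialOrder (StepP D f) :=
  inferInstanceAs (PartialOrder {x : P × L // x.1 ∈ D → x.2 = f x.1})

/-- the projection of the step. -/
def StepP.pr {P L : Type} [PartialOrder P] [PartialOrder L] (D : Set P) (f : P → L) :
    StepP D f →o P where
  toFun x := x.1.1
  monotone' _ _ h := h.1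

/-- the finite parts of the step: labels in `Λ`. -/
def StepF {P L : Type} [PartialOrder P] [PartialOrder L] (D : Set P) (f : P → L)
    (Λ : Finset L) : Type :=
  {x : P × L // x.2 ∈ Λ ∧ (x.1 ∈ D → x.2 = f x.1)}

instance {P L : Type} [PartialOrder P] [PartialOrder L] (D : Set P) (f : P → L) (Λ : Finset L) :
    PartialOrder (StepF D f Λ) :=
  inferInstanceAs (PartialOrder {x : P × L // x.2 ∈ Λ ∧ (x.1 ∈ D → x.2 = f x.1)})

instance {P L : Type} [PartialOrder P] [PartialOrder L] [Finite P] (D : Set P) (f : P → L)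
    (Λ : Finset L) : Finite (StepF D f Λ) := by
  have : Function.Injective (fun x : StepF D f Λ => ((x.1.1, ⟨x.1.2, x.2.1⟩) : P × Λ)) := by
    rintro ⟨⟨a, b⟩, h⟩ ⟨⟨a', b'⟩, h'⟩ hh
    simp only [Prod.mk.injEq, Subtype.mk.injEq] at hh
    apply Subtype.ext
    exact Prod.ext hh.1 hh.2
  exact Finite.of_injective _ this

/-- the projection of the finite step. -/
def StepF.pr {P L : Type} [PartialOrder P] [PartialOrder L] (D : Set P) (f : P → L)
    (Λ : Finset L) : StepF D f Λ →o P where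
  toFun x := x.1.1
  monotone' _ _ h := h.1

/-- the label of the finite step. -/
def StepF.lab {P L : Type} [PartialOrder P] [PartialOrder L] (D : Set P) (f : P → L)
    (Λ : Finset L) : StepF D f Λ →o L where
  toFun x := x.1.2
  monotone' _ _ h := h.2

/-! ## The essentiality predicate -/

/-- What the geometric half of PART II uses of the target `T`: a predicate on pairs (poset `P`,
order preserving `g : P → P0 M`). `L` is the poset of labelled configurations. -/
structure EssAx (M : ℕ) (L : Type) [PartialOrder L] where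
  Ess : ∀ (P : Type) [PartialOrder P], (P →o P0 M) → Prop
  base : Ess (P0 M) OrderHom.id
  comparable : ∀ (P : Type) [PartialOrder P] [Finite P] (g g' : P →o P0 M),
    (g ≤ g' ∨ g' ≤ g) → Ess P g → Ess P g'
  sd : ∀ (P : Type) [PartialOrder P] [Finite P] (g : P →o P0 M),
    Ess P g → Ess (Sd P) (g.comp (topHom P))
  facet : ∀ (P : Type) [PartialOrder P] [Finite P] (g : P →o P0 M) (F : P0 M),
    F.s.card = M + 1 → (∀ p, g p ≠ F) → ¬ Ess P g
  step : ∀ (P : Type) [PartialOrder P] [Finite P] (g : P →o P0 M) (D : Set P) (f : P → L)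
    (Λ₀ : Finset L), IsLowerSet D → MonotoneOn f D → Ess P g →
    ∃ Λ : Finset L, Λ₀ ⊆ Λ ∧ Ess (StepF D f Λ) (g.comp (StepF.pr D f Λ))

/-! ## Realisations, stage maps, towers -/

/-- The realisation of a finite poset. -/
abbrev Pol (P : Type) [PartialOrder P] [Fintype P] : Set (P → ℝ) := Rz (Finset.univ : Finset P)

/-- Affine extension of a map from the vertices. -/
def lin {P' P : Type} [Fintype P'] (geo : P' → P → ℝ) (w : P' → ℝ) : P → ℝ :=
  fun p => ∑ p', w p' * geo p' p

/-- Stage maps of the tower: `c p'` is the carrier of the image `geo p'` of the vertex `p'`. -/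
structure SM (P' P : Type) [PartialOrder P'] [PartialOrder P] [Fintype P'] [Fintype P] where
  c : P' →o Sd P
  geo : P' → P → ℝ
  geo_nonneg : ∀ p' p, 0 ≤ geo p' p
  geo_sum : ∀ p', ∑ p, geo p' p = 1
  geo_supp : ∀ p' p, geo p' p ≠ 0 ↔ p ∈ (c p').c
  surj : ∀ w ∈ Pol P, ∃ w' ∈ Pol P', lin geo w' = w

/-- the order preserving map `P' → P` of a stage map. -/
def SM.h {P' P : Type} [PartialOrder P'] [PartialOrder P] [Fintype P'] [Fintype P]
    (s : SM P' P) : P' →o P := (topHom P).comp s.c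

/-- mesh of a stage map, `l¹` distance. -/
def SM.MeshLE {P' P : Type} [PartialOrder P'] [PartialOrder P] [Fintype P'] [Fintype P]
    (s : SM P' P) (ε : ℝ) : Prop :=
  ∀ p' q', p' ≤ q' → ∑ p, |s.geo p' p - s.geo q' p| ≤ ε

/-- Towers of finite posets and stage maps. -/
structure Tower where
  P : ℕ → Type
  po : ∀ k, PartialOrder (P k)
  ft : ∀ k, Fintype (P k)
  sm : ∀ k, SM (P (k + 1)) (P k)

attribute [instance] Tower.po Tower.ft

/-- composite order preserving maps `P (k+d) → P k` of a tower. -/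
def Tower.H (τ : Tower) (k d : ℕ) : τ.P (k + d) →o τ.P k :=
  Nat.rec (motive := fun d => τ.P (k + d) →o τ.P k) OrderHom.id
    (fun d ih => ih.comp (τ.sm (k + d)).h) d

theorem Tower.H_zero (τ : Tower) (k : ℕ) : τ.H k 0 = OrderHom.id := rfl

theorem Tower.H_succ (τ : Tower) (k d : ℕ) :
    τ.H k (d + 1) = (τ.H k d).comp (τ.sm (k + d)).h := rfl

/-- The inverse limit of the realisations of a tower. -/
def Tower.Lim (τ : Tower) : Type :=
  {x : ∀ k, τ.P k → ℝ // ∀ k, x k ∈ Pol (τ.P k) ∧ lin (τ.sm k).geo (x (k + 1)) = x k}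

instance (τ : Tower) : TopologicalSpace τ.Lim := inferInstanceAs (TopologicalSpace
  {x : ∀ k, τ.P k → ℝ // ∀ k, x k ∈ Pol (τ.P k) ∧ lin (τ.sm k).geo (x (k + 1)) = x k})

/-- meshes tend to `0`. -/
def Tower.Fine (τ : Tower) : Prop := ∀ k, (τ.sm k).MeshLE ((1 / 2 : ℝ) ^ k)

/-- every combinatorial extension problem is solved at a later stage. -/
def Tower.Solves (τ : Tower) (L : Type) [PartialOrder L] : Prop :=
  ∀ (k : ℕ) (D : Set (τ.P k)) (f : τ.P k → L), IsLowerSet D → MonotoneOn f D →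
    ∃ (d : ℕ) (F : τ.P (k + d) →o L), ∀ p, τ.H k d p ∈ D → F p = f (τ.H k d p)

end Pool.Agent.SH

end

end

section

/-!
# MP_2d0b73_an, PART II: statements of the combinatorial and geometric modules (helper38)
-/

noncomputable section

namespace Pool.Agent.SH

open CategoryTheory

/-! ### Maps into realisations -/

/-- GAN: maps into `Rz Q` extend to a neighbourhood. -/
def Stmt_GAN : Prop :=
  ∀ (L : Type) [PartialOrder L] (X : Type) [TopologicalSpace X] [CompactSpace X]
    [TopologicalSpace.MetrizableSpace X] (A : Set X) (Q : Finset L) (f : X → L → ℝ),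
    IsClosed A → ContinuousOn f A → (∀ a ∈ A, f a ∈ Rz Q) →
    ∃ (W : Set X) (F : X → L → ℝ), IsOpen W ∧ A ⊆ W ∧ ContinuousOn F W ∧
      (∀ x ∈ W, F x ∈ Rz Q) ∧ ∀ a ∈ A, F a = f a

/-- GBO: Borsuk's homotopy extension, in the form used: if `G : X → Rz Q` and `f : A → Rz Q`
have for each `a ∈ A` supports contained in a common chain, then `f` extends to `X`. -/
def Stmt_GBO : Prop :=
  ∀ (L : Type) [PartialOrder L] (X : Type) [TopologicalSpace X] [CompactSpace X]
    [TopologicalSpace.MetrizableSpace X] (A : Set X) (Q : Finset L) (f G : X → L → ℝ),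
    IsClosed A → ContinuousOn f A → Continuous G → (∀ a ∈ A, f a ∈ Rz Q) →
    (∀ x, G x ∈ Rz Q) → (∀ a ∈ A, ∀ l, G a l ≠ 0 → f a l ≠ 0) →
    ∃ F : X → L → ℝ, Continuous F ∧ (∀ x, F x ∈ Rz Q) ∧ ∀ a ∈ A, F a = f a

/-! ### Stage maps -/

/-- GLI: `lin geo` maps `Pol P'` to `Pol P`, does not increase the `l¹` distance and its support
is the chain `c` of the largest element of the support. -/
def Stmt_GLI : Prop :=
  ∀ (P' P : Type) [PartialOrder P'] [PartialOrder P] [Fintype P'] [Fintype P] (s : SM P' P),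
    (∀ w ∈ Pol P', lin s.geo w ∈ Pol P) ∧
    (∀ v w : P' → ℝ, ∑ p, |lin s.geo v p - lin s.geo w p| ≤ ∑ p', |v p' - w p'|) ∧
    (∀ w ∈ Pol P', ∀ q, w q ≠ 0 → (∀ q', w q' ≠ 0 → q' ≤ q) →
      ∀ p, lin s.geo w p ≠ 0 ↔ p ∈ (s.c q).c)

/-- GSD: the barycentric subdivision as a stage map. -/
def Stmt_GSD : Prop :=
  ∀ (P : Type) [PartialOrder P] [Fintype P],
    ∃ s : SM (Sd P) P, s.c = OrderHom.id ∧
      (∀ (σ : Sd P) (p : P), p ∈ σ.c → s.geo σ p = 1 / (σ.c.card : ℝ))

/-- GCO: composition of stage maps; its mesh is at most the mesh of each of the two. -/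
def Stmt_GCO : Prop :=
  ∀ (P'' P' P : Type) [PartialOrder P''] [PartialOrder P'] [PartialOrder P]
    [Fintype P''] [Fintype P'] [Fintype P] (s' : SM P'' P') (s : SM P' P),
    ∃ t : SM P'' P, t.h = s.h.comp s'.h ∧ (∀ p'', t.geo p'' = lin s.geo (s'.geo p'')) ∧
      (∀ ε, s'.MeshLE ε → t.MeshLE ε) ∧ (∀ ε, 0 ≤ ε → s.MeshLE ε → t.MeshLE ε)

/-- GME: one barycentric subdivision reduces the oscillation of affine maps, and does not increase
the lengths of chains. -/
def Stmt_GME : Prop :=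
  ∀ (P : Type) [PartialOrder P] [Fintype P] (N : ℕ) (s : SM (Sd P) P),
    s.c = OrderHom.id →
    (∀ (σ : Sd P) (p : P), p ∈ σ.c → s.geo σ p = 1 / (σ.c.card : ℝ)) →
    (∀ σ : Sd P, σ.c.card ≤ N) →
    (∀ S : Sd (Sd P), S.c.card ≤ N) ∧
    ∀ (V : Type) [Fintype V] (φ : P → V → ℝ) (δ : ℝ), 0 ≤ δ →
      (∀ p q, p ≤ q → ∑ v, |φ p v - φ q v| ≤ δ) →
      ∀ σ τ : Sd P, σ ≤ τ →
        ∑ v, |lin φ (s.geo σ) v - lin φ (s.geo τ) v| ≤ (1 - 1 / (N : ℝ)) * δ

/-- GRF: subdivisions of arbitrarily small mesh keeping essentiality. -/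
def Stmt_GRF : Prop :=
  ∀ (M : ℕ) (L : Type) [PartialOrder L] (E : EssAx M L) (P : Type) [PartialOrder P] [Fintype P]
    (g : P →o P0 M) (ε : ℝ), 0 < ε → E.Ess P g →
    ∃ (P' : Type) (_ : PartialOrder P') (_ : Fintype P') (s : SM P' P),
      s.MeshLE ε ∧ E.Ess P' (g.comp s.h)

/-- GST: the step (over the subdivision of `P`) as a stage map. -/
def Stmt_GST : Prop :=
  ∀ (P L : Type) [PartialOrder P] [PartialOrder L] [Fintype P] (D : Set (Sd P)) (f : Sd P → L)
    (Λ : Finset L) [Fintype (StepF D f Λ)], IsLowerSet D → MonotoneOn f D →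
    (∀ σ ∈ D, f σ ∈ Λ) → Λ.Nonempty →
    ∃ s : SM (StepF D f Λ) P, s.c = StepF.pr D f Λ

/-- GNX: the next stage of the tower. -/
def Stmt_GNX : Prop :=
  ∀ (M : ℕ) (L : Type) [PartialOrder L] [Nonempty L] (E : EssAx M L) (P : Type) [PartialOrder P]
    [Fintype P] (g : P →o P0 M) (D : Set P) (f : P → L) (ε : ℝ), 0 < ε → IsLowerSet D →
    MonotoneOn f D → E.Ess P g →
    ∃ (P' : Type) (_ : PartialOrder P') (_ : Fintype P') (s : SM P' P) (F : P' →o L),
      s.MeshLE ε ∧ E.Ess P' (g.comp s.h) ∧ ∀ p, s.h p ∈ D → F p = f (s.h p)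

/-- GTW: the tower. -/
def Stmt_GTW : Prop :=
  ∀ (M : ℕ) (L : Type) [PartialOrder L] [Nonempty L] [Countable L] (E : EssAx M L),
    ∃ (τ : Tower) (g : τ.P 0 →o P0 M), τ.Fine ∧ τ.Solves L ∧
      ∀ k, E.Ess (τ.P (0 + k)) (g.comp (τ.H 0 k))

/-! ### The inverse limit -/

/-- GLC: the inverse limit is compact and metrizable. -/
def Stmt_GLC : Prop :=
  ∀ τ : Tower, CompactSpace τ.Lim ∧ TopologicalSpace.MetrizableSpace τ.Lim

/-- GLS: the projections of the inverse limit are surjective. -/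
def Stmt_GLS : Prop :=
  ∀ (τ : Tower) (k : ℕ), ∀ w ∈ Pol (τ.P k), ∃ x : τ.Lim, x.1 k = w

/-- GLP: supports. -/
def Stmt_GLP : Prop :=
  ∀ (τ : Tower) (x : τ.Lim) (k : ℕ),
    (∀ p, x.1 (k + 1) p ≠ 0 → ∀ q ∈ ((τ.sm k).c p).c, x.1 k q ≠ 0) ∧
    (∀ (d : ℕ) (p : τ.P (k + d)), x.1 (k + d) p ≠ 0 → x.1 k (τ.H k d p) ≠ 0) ∧
    (∀ (d : ℕ) (p : τ.P (k + d)), x.1 (k + d) p ≠ 0 → (∀ q, x.1 (k + d) q ≠ 0 → q ≤ p) →
      ∀ q, x.1 k q ≠ 0 → q ≤ τ.H k d p)

/-- GLL: stars of late stages are small. -/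
def Stmt_GLL : Prop :=
  ∀ (τ : Tower), τ.Fine → ∀ (ι : Type) (U : ι → Set τ.Lim), (∀ i, IsOpen (U i)) →
    (∀ x, ∃ i, x ∈ U i) →
    ∃ k₀ : ℕ, ∀ k, k₀ ≤ k → ∀ v : τ.P k, ∃ i, ∀ x : τ.Lim, x.1 k v ≠ 0 → x ∈ U i

/-- GLE: the extension property of the limit. -/
def Stmt_GLE : Prop :=
  ∀ (τ : Tower) (L : Type) [PartialOrder L] [Nonempty L], τ.Fine → τ.Solves L → Ext τ.Lim L

/-- GLD: lower bound of the dimension of the limit. -/
def Stmt_GLD : Prop :=
  ∀ (M : ℕ) (L : Type) [PartialOrder L] (E : EssAx M L) (τ : Tower) (g : τ.P 0 →o P0 M),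
    τ.Fine → (∀ k, E.Ess (τ.P (0 + k)) (g.comp (τ.H 0 k))) →
    ∀ (κ : Type) [Finite κ] (V : κ → Set τ.Lim), (∀ j, IsOpen (V j)) → (∀ x, ∃ j, x ∈ V j) →
      (∀ j, ∃ v : τ.P 0, V j ⊆ {x | x.1 0 v ≠ 0}) →
      ∃ x, M < Set.ncard {j | x ∈ V j}

/-! ### The final compactum -/

/-- the space `X` has a finite open cover such that every finite open refinement has order
`≥ M` (some point is in more than `M` members). -/
def BigCov (X : Type) [TopologicalSpace X] (M : ℕ) : Prop :=
  ∃ (ι : Type) (_ : Finite ι) (U : ι → Set X), (∀ i, IsOpen (U i)) ∧ (∀ x, ∃ i, x ∈ U i) ∧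
    ∀ (κ : Type) [Finite κ] (V : κ → Set X), (∀ j, IsOpen (V j)) → (∀ x, ∃ j, x ∈ V j) →
      (∀ j, ∃ i, V j ⊆ U i) → ∃ x, M < Set.ncard {j | x ∈ V j}

/-- GXM: one compactum for each `M`. -/
def Stmt_GXM : Prop :=
  ∀ (M : ℕ) (L : Type) [PartialOrder L] [Nonempty L] [Countable L] (_ : EssAx M L),
    ∃ (X : Type) (_ : TopologicalSpace X), CompactSpace X ∧ TopologicalSpace.MetrizableSpace X ∧
      Ext X L ∧ BigCov X M

/-- GWE: the one point compactification of the disjoint union. -/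
def Stmt_GWE : Prop :=
  ∀ (L : Type) [PartialOrder L] [Nonempty L] (X : ℕ → Type) [∀ M, TopologicalSpace (X M)],
    (∀ M, CompactSpace (X M)) → (∀ M, TopologicalSpace.MetrizableSpace (X M)) →
    (∀ M, Ext (X M) L) → (∀ M, BigCov (X M) M) →
    ∃ (K : Type) (_ : TopologicalSpace K), CompactSpace K ∧ TopologicalSpace.MetrizableSpace K ∧
      Ext K L ∧ ∀ M, BigCov K M

/-- PARTII: the output of PART II. -/
def Stmt_PARTII : Prop :=
  ∀ (L : Type) [PartialOrder L] [Nonempty L] [Countable L],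
    (∀ M, 3 ≤ M → Nonempty (EssAx M L)) →
    ∃ (K : Type) (_ : TopologicalSpace K) (_ : CompactSpace K)
      (_ : TopologicalSpace.MetrizableSpace K), Ext K L ∧ ∀ n, ¬ DimLE K n

/-- PARTIII: what PART III delivers. -/
def Stmt_PARTIII : Prop :=
  ∀ M, 3 ≤ M → ∃ (T : SSet.{0}) (e : NP (P0 M) ⟶ T), SSet.KanComplex T ∧ TCompact T ∧
    TAcyclic T (NP (LL (Sph 2))) ∧ ¬ Null e

end Pool.Agent.SH

end

end

section

/-!
# MP_2d0b73_an, PART II: statements of the homotopical modules (helper38)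
-/

noncomputable section

namespace Pool.Agent.SH

open CategoryTheory Simplicial MonoidalCategory Limits Opposite

/-- LTA: composition. -/
def Stmt_LTA : Prop :=
  ∀ (T A B C : SSet.{0}) (i : A ⟶ B) (j : B ⟶ C), LT T i → LT T j → LT T (i ≫ j)

/-- LTB: extension along arbitrary monomorphisms `Z₀ ⟶ Z` in the parameter. -/
def Stmt_LTB : Prop :=
  ∀ (T A B : SSet.{0}) (i : A ⟶ B), LT T i →
    ∀ (Z₀ Z : SSet.{0}) (j : Z₀ ⟶ Z) (_ : Mono j) (u : B ⊗ Z₀ ⟶ T) (v : A ⊗ Z ⟶ T),
      i ▷ Z₀ ≫ u = A ◁ j ≫ v → ∃ w : B ⊗ Z ⟶ T, B ◁ j ≫ w = u ∧ i ▷ Z ≫ w = v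

/-- LTC: cancellation (`T` Kan). -/
def Stmt_LTC : Prop :=
  ∀ (T A B C : SSet.{0}) (i : A ⟶ B) (j : B ⟶ C), SSet.KanComplex T → Mono j →
    LT T i → LT T (i ≫ j) → LT T j

/-- LTD: pushout, in the form of a union of two subcomplexes. -/
def Stmt_LTD : Prop :=
  ∀ (T X : SSet.{0}) (U V : X.Subcomplex), LTS T (U ⊓ V) V → LTS T U (U ⊔ V)

/-- LTE: anodyne extensions are in `LT T`, `T` Kan. -/
def Stmt_LTE : Prop :=
  ∀ (T A B : SSet.{0}) (i : A ⟶ B), SSet.KanComplex T → Mono i → SSet.anodyneExtensions i → LT T i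

/-- LTF: strong deformation retracts (simplicial homotopy in one of the two directions)
are anodyne extensions. -/
def Stmt_LTF : Prop :=
  ∀ (A B : SSet.{0}) (i : A ⟶ B) (r : B ⟶ A), i ≫ r = 𝟙 A →
    ((∃ H : SSet.Homotopy (r ≫ i) (𝟙 B),
        i ▷ Δ[1] ≫ H.h = CartesianMonoidalCategory.fst A Δ[1] ≫ i) ∨
      (∃ H : SSet.Homotopy (𝟙 B) (r ≫ i),
        i ▷ Δ[1] ≫ H.h = CartesianMonoidalCategory.fst A Δ[1] ≫ i)) →
    SSet.anodyneExtensions i

/-- LTX: `LT T` is invariant under isomorphisms of arrows. -/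
def Stmt_LTX : Prop :=
  ∀ (T A B A' B' : SSet.{0}) (i : A ⟶ B) (i' : A' ⟶ B') (a : A ≅ A') (b : B ≅ B'),
    a.hom ≫ i' = i ≫ b.hom → LT T i → LT T i'

/-- LTY: transport of parts of nerves along an order embedding. -/
def Stmt_LTY : Prop :=
  ∀ (T : SSet.{0}) (R' R : Type) [PartialOrder R'] [PartialOrder R] (φ : R' ↪o R) (A B : Set R'),
    LTS T (subN A) (subN B) ↔ LTS T (subN (φ '' A)) (subN (φ '' B))

/-- LTZ: whole nerves and their parts. -/
def Stmt_LTZ : Prop :=
  ∀ (T : SSet.{0}) (R : Type) [PartialOrder R],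
    (∀ A : Set R, LTS T (subN A) (subN Set.univ) ↔ LT T (subN A).ι) ∧
    (TAcyclic T (NP R) → AcyS T (Set.univ : Set R))

/-- LTG: comparable monotone maps give homotopic maps of nerves, relatively to the part on
which they agree. -/
def Stmt_LTG : Prop :=
  ∀ (P R : Type) [PartialOrder P] [PartialOrder R] (f g : P →o R), f ≤ g →
    ∃ H : SSet.Homotopy (NMap f) (NMap g),
      ∀ U : Set P, (∀ x ∈ U, f x = g x) →
        (subN U).ι ▷ Δ[1] ≫ H.h =
          CartesianMonoidalCategory.fst _ Δ[1] ≫ (subN U).ι ≫ NMap f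

/-- LTH: a monotone retraction of the part `V` of `R` onto the part `V₀`, comparable with the
identity, puts the inclusion in `LT T`. -/
def Stmt_LTH : Prop :=
  ∀ (T : SSet.{0}) (R : Type) [PartialOrder R] (V₀ V : Set R) (r : R → R),
    SSet.KanComplex T → V₀ ⊆ V → MonotoneOn r V → Set.MapsTo r V V₀ → (∀ x ∈ V₀, r x = x) →
    ((∀ x ∈ V, x ≤ r x) ∨ (∀ x ∈ V, r x ≤ x)) → LTS T (subN V₀) (subN V)

/-- LTI: a part with a largest element is acyclic, with respect to each of its vertices. -/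
def Stmt_LTI : Prop :=
  ∀ (T : SSet.{0}) (R : Type) [PartialOrder R] (V : Set R) (p : R),
    SSet.KanComplex T → p ∈ V → (∀ x ∈ V, x ≤ p) → ∀ a ∈ V, LTS T (subN {a}) (subN V)

/-- LTJ: adding one element `p` on top of an acyclic part. -/
def Stmt_LTJ : Prop :=
  ∀ (T : SSet.{0}) (R : Type) [PartialOrder R] (U : Set R) (p : R),
    SSet.KanComplex T → p ∉ U → (∀ u ∈ U, ¬ p ≤ u) → AcyS T {u | u ∈ U ∧ u < p} →
    LTS T (subN U) (subN (insert p U))

/-- LTK: adding finitely many elements one after the other (Quillen's Theorem A). -/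
def Stmt_LTK : Prop :=
  ∀ (T : SSet.{0}) (R : Type) [PartialOrder R] (A U : Set R),
    SSet.KanComplex T → U.Finite → (∀ a ∈ A, ∀ u ∈ U, ¬ u ≤ a) →
    (∀ u ∈ U, AcyS T {a | a ∈ A ∧ a < u}) → LTS T (subN A) (subN (A ∪ U))

/-- LTL: symmetric-transitive calculus of null homotopic maps for `T` Kan. -/
def Stmt_LTL : Prop :=
  ∀ (X T : SSet.{0}) (f g : X ⟶ T), SSet.KanComplex T →
    (Nonempty (SSet.Homotopy f g) ∨ Nonempty (SSet.Homotopy g f)) → Null f → Null g

/-- LTR: a null homotopic map is homotopic to the constant map at each of its values. -/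
def Stmt_LTR : Prop :=
  ∀ (X T : SSet.{0}) (f : X ⟶ T) (x : X _⦋0⦌), SSet.KanComplex T → Null f →
    Nonempty (SSet.Homotopy f (SSet.const (f.app _ x)))

/-- LTM: null homotopies descend along `h : P' → P` with acyclic fibres. -/
def Stmt_LTM : Prop :=
  ∀ (T : SSet.{0}) (P' P : Type) [PartialOrder P'] [PartialOrder P] [Finite P] (h : P' →o P)
    (g : NP P ⟶ T), SSet.KanComplex T → (∀ p, AcyS T {p' | h p' ≤ p}) →
    Null (NMap h ≫ g) → Null g

/-- LTN: the fibres of the last vertex map are acyclic. -/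
def Stmt_LTN : Prop :=
  ∀ (T : SSet.{0}) (P : Type) [PartialOrder P] (p : P), SSet.KanComplex T →
    AcyS T ({s | s.top ≤ p} : Set (Sd P))

/-- LTO: the fibres of the step are acyclic, if `L` is. -/
def Stmt_LTO : Prop :=
  ∀ (T : SSet.{0}) (P L : Type) [PartialOrder P] [PartialOrder L] (D : Set P) (f : P → L) (p : P),
    SSet.KanComplex T → TAcyclic T (NP L) → IsLowerSet D → MonotoneOn f D →
    AcyS T ({x | StepP.pr D f x ≤ p} : Set (StepP D f))

/-- LTP: compactness: if the restrictions to all finite steps (with labels in `Λ ⊇ Λ₀`) are null,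
then the map on the step is null. -/
def Stmt_LTP : Prop :=
  ∀ (T : SSet.{0}) (P L : Type) [PartialOrder P] [PartialOrder L] [Finite P] (D : Set P)
    (f : P → L) (g : NP P ⟶ T) (Λ₀ : Finset L), SSet.KanComplex T → TCompact T →
    (∀ Λ : Finset L, Λ₀ ⊆ Λ → Null (NMap (StepF.pr D f Λ) ≫ g)) →
    Null (NMap (StepP.pr D f) ≫ g)

/-- LTQ: a map into the boundary of the simplex which misses a facet is null. -/
def Stmt_LTQ : Prop :=
  ∀ (T : SSet.{0}) (M : ℕ) (e : NP (P0 M) ⟶ T) (P : Type) [PartialOrder P] (g : P →o P0 M)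
    (F : P0 M), SSet.KanComplex T → F.s.card = M + 1 → (∀ p, g p ≠ F) → Null (NMap g ≫ e)

/-- BRIDGE: the essentiality predicate of PART II from PART III. -/
def Stmt_BRIDGE : Prop :=
  ∀ (M : ℕ) (L : Type) [PartialOrder L] (T : SSet.{0}) (e : NP (P0 M) ⟶ T),
    SSet.KanComplex T → TCompact T → TAcyclic T (NP L) → ¬ Null e → Nonempty (EssAx M L)

end Pool.Agent.SH

end

end

section

noncomputable section

namespace Pool.Agent.SH

theorem PARTII (h1 : Stmt_GXM) (h2 : Stmt_GWE) : Stmt_PARTII := by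
  intro L _ _ _ hE
  have h3 : ∀ M : ℕ, ∃ (X : Type) (_ : TopologicalSpace X), CompactSpace X ∧
      TopologicalSpace.MetrizableSpace X ∧ Ext X L ∧ BigCov X M := by
    intro M
    obtain ⟨X, _, hc, hm, he, hb⟩ := h1 (M + 3) L (hE (M + 3) (by omega)).some
    refine ⟨X, inferInstance, hc, hm, he, ?_⟩
    obtain ⟨ι, hι, U, hU, hcov, hV⟩ := hb
    refine ⟨ι, hι, U, hU, hcov, ?_⟩
    intro κ _ V hVo hVc hVr
    obtain ⟨x, hx⟩ := hV κ V hVo hVc hVr
    exact ⟨x, by omega⟩
  choose X hT hc hm he hb using h3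
  obtain ⟨K, _, hKc, hKm, hKe, hKb⟩ := h2 L X hc hm he hb
  refine ⟨K, inferInstance, hKc, hKm, hKe, ?_⟩
  intro n hn
  obtain ⟨ι, hι, U, hU, hcov, hV⟩ := hKb (n + 1)
  obtain ⟨κ, hκ, W, hWo, hWc, hWr, hWn⟩ := hn ι U hU hcov
  obtain ⟨x, hx⟩ := hV κ W hWo hWc hWr
  have := hWn x
  omega

instance : Countable (Sph 2) := inferInstance

theorem countable_LL : Countable (LL (Sph 2)) := by
  have h : Function.Injective (fun x : LL (Sph 2) => (x.J, x.C)) := by
    intro x y hxy
    simp only [Prod.mk.injEq] at hxy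
    exact LL.ext' hxy.1 hxy.2
  exact h.countable

theorem CPT (h1 : Stmt_PARTII) (h2 : Stmt_BRIDGE) (h3 : Stmt_PARTIII) : Stmt_CPT := by
  have := countable_LL
  have : Nonempty (LL (Sph 2)) := ⟨LL.one 0⟩
  obtain ⟨K, i1, i2, i3, hE, hD⟩ := h1 (LL (Sph 2)) (by
    intro M hM
    obtain ⟨T, e, hK, hC, hA, he⟩ := h3 M hM
    exact h2 M (LL (Sph 2)) T e hK hC hA he)
  exact ⟨K, i1, i2, i3, hE, hD⟩

end Pool.Agent.SH

end

end

section

noncomputable section

namespace Pool.Agent.SH

theorem GXM (h1 : Stmt_GTW) (h2 : Stmt_GLC) (h3 : Stmt_GLE) (h4 : Stmt_GLD) : Stmt_GXM := by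
  intro M L _ _ _ E
  obtain ⟨τ, g, hfine, hsol, hess⟩ := h1 M L E
  obtain ⟨hc, hm⟩ := h2 τ
  refine ⟨τ.Lim, inferInstance, hc, hm, h3 τ L hfine hsol, ?_⟩
  refine ⟨τ.P 0, inferInstance, fun v => {x | x.1 0 v ≠ 0}, ?_, ?_, ?_⟩
  · intro v
    have hcont : Continuous fun x : τ.Lim => x.1 0 v :=
      (continuous_apply v).comp ((continuous_apply 0).comp continuous_subtype_val)
    exact isOpen_ne_fun hcont continuous_const
  · intro x
    by_contra hcon
    push Not at hcon
    have h5 := (x.2 0).1.2.2.1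
    have h6 : ∀ v, x.1 0 v = 0 := by
      intro v
      by_contra h
      exact hcon v h
    simp [h6] at h5
  · intro κ _ V hVo hVc hVr
    exact h4 M L E τ g hfine hess κ V hVo hVc hVr

end Pool.Agent.SH

end

end

section

/-!
# Maps into realisations: extension to a neighbourhood, homotopy extension
-/

set_option autoImplicit false

noncomputable section

open Set Topology

namespace Pool.Agent.SH

theorem GAN : Stmt_GAN := by
  intro L _ X _ _ _ A Q f hA hf hfQ
  obtain ⟨ε, hε, r, hrc, hrQ, hrid, _⟩ := RET L Q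
  obtain ⟨F, hF, hFf⟩ := tietze hA hf
  refine ⟨F ⁻¹' NB Q ε, fun x => r (F x), (isOpen_NB Q ε).preimage hF, ?_, ?_, ?_, ?_⟩
  · intro a ha
    rw [mem_preimage, hFf a ha]
    exact Rz_subset_NB Q hε (hfQ a ha)
  · exact hrc.comp hF.continuousOn (fun x hx => hx)
  · intro x hx
    exact hrQ _ hx
  · intro a ha
    show r (F a) = f a
    rw [hFf a ha]
    exact hrid _ (hfQ a ha)

theorem GBO : Stmt_GBO := by
  intro L _ X _ _ _ A Q f G hA hf hG hfQ hGQ hsupp
  have hE : Stmt_HEP := HEP RET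
  let H : X × Set.Icc (0 : ℝ) 1 → L → ℝ := fun z l =>
    (1 - (z.2 : ℝ)) * f z.1 l + (z.2 : ℝ) * G z.1 l
  have k1 : ContinuousOn H (A ×ˢ univ) := by
    have h1 : ContinuousOn (fun z : X × Set.Icc (0 : ℝ) 1 => f z.1) (A ×ˢ univ) :=
      hf.comp continuous_fst.continuousOn (fun z hz => hz.1)
    have h2 : ContinuousOn (fun z : X × Set.Icc (0 : ℝ) 1 => G z.1) (A ×ˢ univ) :=
      (hG.comp continuous_fst).continuousOn
    have h3 : ContinuousOn (fun z : X × Set.Icc (0 : ℝ) 1 => (z.2 : ℝ)) (A ×ˢ univ) :=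
      (continuous_subtype_val.comp continuous_snd).continuousOn
    rw [continuousOn_pi] at h1 h2 ⊢
    intro l
    exact ((continuousOn_const.sub h3).mul (h1 l)).add (h3.mul (h2 l))
  have k2 : ∀ z ∈ A ×ˢ (univ : Set (Set.Icc (0 : ℝ) 1)), H z ∈ Rz Q := by
    rintro ⟨z, t⟩ hz
    have hzA : z ∈ A := hz.1
    obtain ⟨f1, f2, f3, f4⟩ := hfQ z hzA
    obtain ⟨g1, g2, g3, _⟩ := hGQ z
    have ht0 : 0 ≤ (t : ℝ) := t.2.1
    have ht1 : 0 ≤ 1 - (t : ℝ) := sub_nonneg.2 t.2.2
    have hne : ∀ l, H (z, t) l ≠ 0 → f z l ≠ 0 := by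
      intro l hl hfl
      apply hl
      have hGl : G z l = 0 := by
        by_contra h
        exact hsupp z hzA l h hfl
      show (1 - (t : ℝ)) * f z l + (t : ℝ) * G z l = 0
      rw [hfl, hGl]
      ring
    refine ⟨fun l => ?_, fun l hl => ?_, ?_, fun a b ha hb => f4 a b (hne a ha) (hne b hb)⟩
    · exact add_nonneg (mul_nonneg ht1 (f1 l)) (mul_nonneg ht0 (g1 l))
    · show (1 - (t : ℝ)) * f z l + (t : ℝ) * G z l = 0
      rw [f2 l hl, g2 l hl]
      ring
    · show ∑ l ∈ Q, ((1 - (t : ℝ)) * f z l + (t : ℝ) * G z l) = 1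
      rw [Finset.sum_add_distrib, ← Finset.mul_sum, ← Finset.mul_sum, f3, g3]
      ring
  have k3 : ∀ z ∈ A, G z = H (z, 1) := by
    intro z _
    funext l
    show G z l = (1 - (1 : ℝ)) * f z l + (1 : ℝ) * G z l
    ring
  obtain ⟨g', hg', hgQ, hgf⟩ := hE X L Q A H G hA k1 k2 hG hGQ k3
  refine ⟨g', hg', hgQ, fun a ha => ?_⟩
  rw [hgf a ha]
  funext l
  show (1 - (0 : ℝ)) * f a l + (0 : ℝ) * G a l = f a l
  ring

end Pool.Agent.SH

end

end

section

/-!
# The one point compactification of a sequence of compacta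
-/

set_option autoImplicit false

noncomputable section

open Set Topology

namespace Pool.Agent.SH

namespace W

/-- The one point compactification of the disjoint union of the `X M`. -/
def K (X : ℕ → Type) : Type :=
  {x : ∀ M, X M ⊕ Unit // ∀ M M', M ≠ M' → x M = Sum.inr () ∨ x M' = Sum.inr ()}

variable {X : ℕ → Type} [∀ M, TopologicalSpace (X M)]

instance : TopologicalSpace (K X) := inferInstanceAs (TopologicalSpace
  {x : ∀ M, X M ⊕ Unit // ∀ M M', M ≠ M' → x M = Sum.inr () ∨ x M' = Sum.inr ()})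

theorem secondCountable {Y : Type} [TopologicalSpace Y] [CompactSpace Y]
    [TopologicalSpace.MetrizableSpace Y] : SecondCountableTopology Y := by
  let := TopologicalSpace.metrizableSpaceMetric Y
  infer_instance

theorem isClopen_inr (M : ℕ) : IsClopen {x : ∀ M, X M ⊕ Unit | x M = Sum.inr ()} := by
  have h : {x : ∀ M, X M ⊕ Unit | x M = Sum.inr ()} =
      (fun x : ∀ M, X M ⊕ Unit => x M) ⁻¹' (Set.range Sum.inr) := by
    ext x
    constructor
    · intro hx
      exact ⟨(), hx.symm⟩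
    · rintro ⟨u, hu⟩
      exact hu.symm
  rw [h]
  exact (isClopen_range_inr).preimage (continuous_apply M)

/-- The underlying set. -/
def kset (X : ℕ → Type) : Set (∀ M, X M ⊕ Unit) :=
  {x | ∀ M M', M ≠ M' → x M = Sum.inr () ∨ x M' = Sum.inr ()}

theorem compact_metrizable (h1 : ∀ M, CompactSpace (X M))
    (h2 : ∀ M, TopologicalSpace.MetrizableSpace (X M)) :
    CompactSpace (K X) ∧ TopologicalSpace.MetrizableSpace (K X) := by
  have h3 : ∀ M, SecondCountableTopology (X M) := fun M => secondCountable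
  have hcl : IsClosed {x : ∀ M, X M ⊕ Unit | ∀ M M', M ≠ M' → x M = Sum.inr () ∨
      x M' = Sum.inr ()} := by
    have : {x : ∀ M, X M ⊕ Unit | ∀ M M', M ≠ M' → x M = Sum.inr () ∨ x M' = Sum.inr ()} =
        ⋂ (M) (M') (_ : M ≠ M'), ({x : ∀ M, X M ⊕ Unit | x M = Sum.inr ()} ∪
          {x | x M' = Sum.inr ()}) := by
      ext x
      simp
    rw [this]
    exact isClosed_iInter fun M => isClosed_iInter fun M' => isClosed_iInter fun _ =>
      (isClopen_inr M).isClosed.union (isClopen_inr M').isClosed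
  have hc : CompactSpace (K X) := isCompact_iff_compactSpace.1 hcl.isCompact
  have ht : T2Space (K X) := inferInstanceAs (T2Space
    {x : ∀ M, X M ⊕ Unit // ∀ M M', M ≠ M' → x M = Sum.inr () ∨ x M' = Sum.inr ()})
  have hs : SecondCountableTopology (K X) := inferInstanceAs (SecondCountableTopology
    {x : ∀ M, X M ⊕ Unit // x ∈ kset X})
  exact ⟨hc, inferInstance⟩

/-- The point at infinity. -/
def inf : K X := ⟨fun _ => Sum.inr (), fun _ _ _ => Or.inl rfl⟩

open Classical in
/-- The inclusion of `X M`. -/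
def e (M : ℕ) (y : X M) : K X :=
  ⟨Function.update (fun _ => Sum.inr ()) M (Sum.inl y), fun M₁ M₂ h => by
    by_cases h1 : M₁ = M
    · right
      rw [Function.update_of_ne (fun h2 => h (h1.trans h2.symm))]
    · left
      rw [Function.update_of_ne h1]⟩

/-- The projection to `X M`. -/
def p (M : ℕ) [Nonempty (X M)] (x : K X) : X M :=
  Sum.elim id (fun _ => Classical.arbitrary (X M)) (x.1 M)

/-- The part `X M`. -/
def U (M : ℕ) : Set (K X) := {x | x.1 M ≠ Sum.inr ()}

theorem continuous_e (M : ℕ) : Continuous (e M : X M → K X) := by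
  classical
  refine Continuous.subtype_mk ?_ _
  exact continuous_const.update M continuous_inl

theorem continuous_p (M : ℕ) [Nonempty (X M)] : Continuous (p M : K X → X M) :=
  (Continuous.sumElim continuous_id continuous_const).comp
    ((continuous_apply M).comp continuous_subtype_val)

theorem isClopen_U (M : ℕ) : IsClopen (U M : Set (K X)) :=
  ((isClopen_inr M).preimage continuous_subtype_val).compl

omit [∀ M, TopologicalSpace (X M)] in
theorem e_mem (M : ℕ) (y : X M) : e M y ∈ U M := by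
  classical
  show Function.update (fun _ => Sum.inr ()) M (Sum.inl y) M ≠ Sum.inr ()
  rw [Function.update_self]
  exact Sum.inl_ne_inr

omit [∀ M, TopologicalSpace (X M)] in
theorem p_e (M : ℕ) [Nonempty (X M)] (y : X M) : p M (e M y) = y := by
  classical
  show Sum.elim id (fun _ => Classical.arbitrary (X M))
    (Function.update (fun _ => Sum.inr ()) M (Sum.inl y) M) = y
  rw [Function.update_self]
  rfl

omit [∀ M, TopologicalSpace (X M)] in
theorem e_p (M : ℕ) [Nonempty (X M)] {x : K X} (hx : x ∈ U M) : e M (p M x) = x := by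
  classical
  apply Subtype.ext
  funext M'
  show Function.update (fun _ => Sum.inr ()) M (Sum.inl (p M x)) M' = x.1 M'
  by_cases h : M' = M
  · subst h
    rw [Function.update_self]
    unfold p
    cases h1 : x.1 M' with
    | inl y => rfl
    | inr u => exact absurd h1 hx
  · rw [Function.update_of_ne h]
    rcases x.2 M M' (Ne.symm h) with h1 | h1
    · exact absurd h1 hx
    · exact h1.symm

/-- A neighbourhood of infinity contains almost all `X M`. -/
theorem nhds_inf {W : Set (K X)} (hW : IsOpen W) (h : (inf : K X) ∈ W) :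
    ∃ N : ℕ, ∀ x : K X, (∀ M, M < N → x.1 M = Sum.inr ()) → x ∈ W := by
  obtain ⟨W', hW', rfl⟩ := isOpen_induced_iff.1 hW
  obtain ⟨I, u, hu, hsub⟩ := isOpen_pi_iff.1 hW' _ h
  obtain ⟨N, hN⟩ := I.bddAbove
  refine ⟨N + 1, fun x hx => hsub ?_⟩
  intro a ha
  have h1 : x.1 a = Sum.inr () := hx a (Nat.lt_succ_of_le (hN ha))
  rw [h1]
  exact (hu a ha).2

theorem bigCov_nonempty {Y : Type} [TopologicalSpace Y] {M : ℕ} (h : BigCov Y M) : Nonempty Y := by
  obtain ⟨ι, hι, U, h1, h2, h3⟩ := h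
  obtain ⟨x, _⟩ := h3 ι U h1 h2 (fun j => ⟨j, subset_rfl⟩)
  exact ⟨x⟩

theorem bigCov (M : ℕ) (h : BigCov (X M) M) : BigCov (K X) M := by
  have hne : Nonempty (X M) := bigCov_nonempty h
  obtain ⟨ι, hι, U', h1, h2, h3⟩ := h
  refine ⟨Option ι, inferInstance, fun o => match o with
    | some i => U M ∩ p M ⁻¹' U' i
    | none => (U M)ᶜ, ?_, ?_, ?_⟩
  · intro o
    cases o with
    | none => exact (isClopen_U M).compl.isOpen
    | some i => exact (isClopen_U M).isOpen.inter ((h1 i).preimage (continuous_p M))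
  · intro x
    by_cases hx : x ∈ (U M : Set (K X))
    · obtain ⟨i, hi⟩ := h2 (p M x)
      exact ⟨some i, hx, hi⟩
    · exact ⟨none, hx⟩
  · intro κ _ V hV hcov href
    obtain ⟨i₀, _⟩ := h2 (Classical.arbitrary (X M))
    obtain ⟨x, hx⟩ := h3 κ (fun j => e M ⁻¹' V j) (fun j => (hV j).preimage (continuous_e M))
      (fun x => hcov (e M x)) (by
        intro j
        obtain ⟨o, ho⟩ := href j
        cases o with
        | none =>
          refine ⟨i₀, fun y hy => ?_⟩
          exact absurd (e_mem M y) (ho hy)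
        | some i =>
          refine ⟨i, fun y hy => ?_⟩
          have h4 : p M (e M y) ∈ U' i := (ho hy).2
          rwa [p_e] at h4)
    exact ⟨e M x, hx⟩

theorem ext (L : Type) [PartialOrder L] [Nonempty L] (hne : ∀ M, Nonempty (X M))
    (h1 : ∀ M, CompactSpace (X M)) (h2 : ∀ M, TopologicalSpace.MetrizableSpace (X M))
    (hE : ∀ M, Ext (X M) L) : Ext (K X) L := by
  classical
  obtain ⟨hc, hm⟩ := compact_metrizable h1 h2
  -- the case that `inf` is in `A`
  have key : ∀ (A : Set (K X)) (Q : Finset L) (f : K X → L → ℝ), IsClosed A →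
      ContinuousOn f A → (∀ z ∈ A, f z ∈ Rz Q) → inf ∈ A → ∃ (Q' : Finset L) (g : K X → L → ℝ),
      Q ⊆ Q' ∧ Continuous g ∧ (∀ z, g z ∈ Rz Q') ∧ ∀ z ∈ A, g z = f z := by
    intro A Q f hA hf hfQ hinf
    obtain ⟨W, F, hW, hAW, hF, hFQ, hFf⟩ := GAN L (K X) A Q f hA hf hfQ
    obtain ⟨N, hN⟩ := nhds_inf hW (hAW hinf)
    have hex : ∀ M, ∃ (Q' : Finset L) (g : X M → L → ℝ), Q ⊆ Q' ∧ Continuous g ∧
        (∀ z, g z ∈ Rz Q') ∧ ∀ z ∈ e M ⁻¹' A, g z = f (e M z) := by
      intro M
      exact hE M (e M ⁻¹' A) Q (fun y => f (e M y)) (hA.preimage (continuous_e M))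
        (hf.comp (continuous_e M).continuousOn (fun y hy => hy)) (fun y hy => hfQ _ hy)
    choose Q1 g1 hQ1 hg1 hgQ1 hgf1 using hex
    let Q' : Finset L := Q ∪ (Finset.range N).biUnion Q1
    let g : K X → L → ℝ := fun x =>
      if h : ∃ M, M < N ∧ x.1 M ≠ Sum.inr () then g1 h.choose (p h.choose x) else F x
    have hg1' : ∀ M, M < N → ∀ x ∈ (U M : Set (K X)), g x = g1 M (p M x) := by
      intro M hM x hx
      have h : ∃ M, M < N ∧ x.1 M ≠ Sum.inr () := ⟨M, hM, hx⟩
      have h3 : h.choose = M := by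
        by_contra hne'
        rcases x.2 _ _ hne' with h4 | h4
        · exact h.choose_spec.2 h4
        · exact hx h4
      show (if h : ∃ M, M < N ∧ x.1 M ≠ Sum.inr () then g1 h.choose (p h.choose x) else F x) = _
      rw [dif_pos h]
      rw [h3]
    have hgF : ∀ x : K X, (∀ M, M < N → x.1 M = Sum.inr ()) → g x = F x := by
      intro x hx
      have h : ¬ ∃ M, M < N ∧ x.1 M ≠ Sum.inr () := by
        rintro ⟨M, hM, h⟩
        exact h (hx M hM)
      exact dif_neg h
    have hopen : IsOpen {x : K X | ∀ M, M < N → x.1 M = Sum.inr ()} := by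
      have : {x : K X | ∀ M, M < N → x.1 M = Sum.inr ()} =
          ⋂ M ∈ Set.Iio N, {x : K X | x.1 M = Sum.inr ()} := by
        ext x
        simp
      rw [this]
      exact (Set.finite_Iio N).isOpen_biInter fun M _ =>
        ((isClopen_inr M).preimage continuous_subtype_val).isOpen
    refine ⟨Q', g, Finset.subset_union_left, ?_, ?_, ?_⟩
    · rw [continuous_iff_continuousAt]
      intro x
      by_cases hx : ∃ M, M < N ∧ x ∈ (U M : Set (K X))
      · obtain ⟨M, hM, hx⟩ := hx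
        have h3 : ContinuousOn g (U M) :=
          ((hg1 M).comp (continuous_p M)).continuousOn.congr (fun y hy => hg1' M hM y hy)
        exact h3.continuousAt ((isClopen_U M).isOpen.mem_nhds hx)
      · have hx' : ∀ M, M < N → x.1 M = Sum.inr () := by
          intro M hM
          by_contra h
          exact hx ⟨M, hM, h⟩
        have h3 : ContinuousOn g {x : K X | ∀ M, M < N → x.1 M = Sum.inr ()} :=
          (hF.mono (fun y hy => hN y hy)).congr (fun y hy => hgF y hy)
        exact h3.continuousAt (hopen.mem_nhds hx')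
    · intro x
      by_cases hx : ∃ M, M < N ∧ x ∈ (U M : Set (K X))
      · obtain ⟨M, hM, hx⟩ := hx
        rw [hg1' M hM x hx]
        refine Rz_mono ?_ (hgQ1 M _)
        exact (Finset.subset_biUnion_of_mem Q1 (Finset.mem_range.2 hM)).trans
          Finset.subset_union_right
      · have hx' : ∀ M, M < N → x.1 M = Sum.inr () := by
          intro M hM
          by_contra h
          exact hx ⟨M, hM, h⟩
        rw [hgF x hx']
        exact Rz_mono Finset.subset_union_left (hFQ x (hN x hx'))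
    · intro x hxA
      by_cases hx : ∃ M, M < N ∧ x ∈ (U M : Set (K X))
      · obtain ⟨M, hM, hx⟩ := hx
        rw [hg1' M hM x hx]
        have h3 : e M (p M x) ∈ A := by rwa [e_p M hx]
        rw [hgf1 M _ h3, e_p M hx]
      · have hx' : ∀ M, M < N → x.1 M = Sum.inr () := by
          intro M hM
          by_contra h
          exact hx ⟨M, hM, h⟩
        rw [hgF x hx', hFf x hxA]
  intro A Q f hA hf hfQ
  by_cases hinf : (inf : K X) ∈ A
  · exact key A Q f hA hf hfQ hinf
  · obtain ⟨l₀⟩ := ‹Nonempty L›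
    let v : L → ℝ := fun l => if l = l₀ then 1 else 0
    let f' : K X → L → ℝ := fun x => if x = inf then v else f x
    have hf'1 : ∀ z ∈ A, f' z = f z := by
      intro z hz
      refine if_neg (fun h : z = inf => hinf ?_)
      rw [← h]
      exact hz
    have hf'2 : ∀ z ∈ ({inf} : Set (K X)), f' z = v := by
      intro z hz
      exact if_pos hz
    have hcl : IsClosed ({inf} : Set (K X)) := isClosed_singleton
    obtain ⟨Q', g, h3, h4, h5, h6⟩ := key (A ∪ {inf}) (insert l₀ Q) f' (hA.union hcl)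
      (glue2 hA hcl hf (g := fun _ => v) continuousOn_const hf'1 hf'2) (by
        intro z hz
        rcases hz with hz | hz
        · rw [hf'1 z hz]
          exact Rz_mono (Finset.subset_insert _ _) (hfQ z hz)
        · rw [hf'2 z hz]
          refine ⟨fun l => ?_, fun l hl => ?_, ?_, fun a b ha hb => ?_⟩
          · show (0 : ℝ) ≤ if l = l₀ then 1 else 0
            split_ifs <;> norm_num
          · refine if_neg (fun h : l = l₀ => hl ?_)
            rw [h]
            exact Finset.mem_insert_self _ _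
          · show ∑ l ∈ insert l₀ Q, (if l = l₀ then (1 : ℝ) else 0) = 1
            rw [Finset.sum_ite_eq' _ l₀ (fun _ => (1 : ℝ)), if_pos (Finset.mem_insert_self _ _)]
          · have ha' : a = l₀ := by
              by_contra h
              exact ha (if_neg h)
            have hb' : b = l₀ := by
              by_contra h
              exact hb (if_neg h)
            rw [ha', hb']
            exact Or.inl le_rfl) (Or.inr rfl)
    refine ⟨Q', g, (Finset.subset_insert _ _).trans h3, h4, h5, fun z hz => ?_⟩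
    rw [h6 z (Or.inl hz), hf'1 z hz]

end W

theorem GWE : Stmt_GWE := by
  intro L _ _ X _ h1 h2 hE hB
  obtain ⟨hc, hm⟩ := W.compact_metrizable h1 h2
  exact ⟨W.K X, inferInstance, hc, hm,
    W.ext L (fun M => W.bigCov_nonempty (hB M)) h1 h2 hE, fun M => W.bigCov M (hB M)⟩

end Pool.Agent.SH

end

end

section

/-!
# The tower
-/

set_option autoImplicit false

noncomputable section

open Set

namespace Pool.Agent.SH

namespace G

/-- Combinatorial extension problems on `P`. -/
def Task (P L : Type) [PartialOrder P] [PartialOrder L] : Type :=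
  {t : Set P × (P → L) // IsLowerSet t.1 ∧ MonotoneOn t.2 t.1}

instance {P L : Type} [PartialOrder P] [PartialOrder L] [Nonempty L] : Nonempty (Task P L) :=
  ⟨⟨(∅, fun _ => Classical.arbitrary L), isLowerSet_empty, fun _ h => h.elim⟩⟩

instance {P L : Type} [PartialOrder P] [PartialOrder L] [Finite P] [Countable L] :
    Countable (Task P L) := by
  unfold Task
  infer_instance

/-- Pull back of extension problems. -/
def Task.pull {P P' L : Type} [PartialOrder P] [PartialOrder P'] [PartialOrder L] (h : P' →o P)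
    (t : Task P L) : Task P' L :=
  ⟨(h ⁻¹' t.1.1, fun p => t.1.2 (h p)), fun _ _ hle hp => t.2.1 (h.monotone hle) hp,
    fun _ hp _ hq hle => t.2.2 hp hq (h.monotone hle)⟩

variable {M : ℕ} {L : Type} [PartialOrder L]

/-- A stage, with the list of the pull backs of the previous extension problems. -/
structure St (E : EssAx M L) where
  P : Type
  po : PartialOrder P
  ft : Fintype P
  g : P →o P0 M
  ess : E.Ess P g
  t : ℕ → ℕ → Task P L

attribute [instance] St.po St.ft

/-- The next stage. -/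
structure Nx {E : EssAx M L} (n : ℕ) (S : St E) where
  S' : St E
  s : SM S'.P S.P
  F : S'.P →o L
  mesh : s.MeshLE ((1 / 2 : ℝ) ^ n)
  hg : S'.g = S.g.comp s.h
  hF : ∀ p, s.h p ∈ (S.t n.unpair.1 n.unpair.2).1.1 → F p = (S.t n.unpair.1 n.unpair.2).1.2 (s.h p)
  ht : ∀ k i, k ≠ n + 1 → S'.t k i = (S.t k i).pull s.h
  hen : Function.Surjective (S'.t (n + 1))

theorem exists_nx [Nonempty L] [Countable L] (hN : Stmt_GNX) (E : EssAx M L) (n : ℕ) (S : St E) :
    Nonempty (Nx n S) := by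
  classical
  obtain ⟨P', po, ft, s, F, h1, h2, h3⟩ := hN M L E S.P S.g (S.t n.unpair.1 n.unpair.2).1.1
    (S.t n.unpair.1 n.unpair.2).1.2 ((1 / 2 : ℝ) ^ n) (by positivity)
    (S.t n.unpair.1 n.unpair.2).2.1 (S.t n.unpair.1 n.unpair.2).2.2 S.ess
  obtain ⟨e, he⟩ := exists_surjective_nat (Task P' L)
  refine ⟨{ S' := ⟨P', po, ft, S.g.comp s.h, h2,
              fun k i => if k = n + 1 then e i else (S.t k i).pull s.h⟩
            s := s
            F := F
            mesh := h1
            hg := rfl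
            hF := h3
            ht := fun k i hk => if_neg hk
            hen := ?_ }⟩
  intro t
  obtain ⟨i, hi⟩ := he t
  exact ⟨i, (if_pos rfl).trans hi⟩

end G

theorem GTW (hN : Stmt_GNX) : Stmt_GTW := by
  classical
  intro M L _ _ _ E
  have hne : ∀ (n : ℕ) (S : G.St E), Nonempty (G.Nx n S) := fun n S => G.exists_nx hN E n S
  let nx : ∀ (n : ℕ) (S : G.St E), G.Nx n S := fun n S => (hne n S).some
  obtain ⟨e, he⟩ := exists_surjective_nat (G.Task (P0 M) L)
  let S0 : G.St E := ⟨P0 M, inferInstance, inferInstance, OrderHom.id, E.base, fun _ i => e i⟩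
  let Sq : ℕ → G.St E := fun n => Nat.rec (motive := fun _ => G.St E) S0 (fun n S => (nx n S).S') n
  have hSq : ∀ n, Sq (n + 1) = (nx n (Sq n)).S' := fun n => rfl
  let τ : Tower :=
    { P := fun n => (Sq n).P
      po := fun n => (Sq n).po
      ft := fun n => (Sq n).ft
      sm := fun n => (nx n (Sq n)).s }
  have hen : ∀ k, Function.Surjective ((Sq k).t k) := by
    intro k
    cases k with
    | zero => exact he
    | succ k => exact (nx k (Sq k)).hen
  have hpull : ∀ k d i, (Sq (k + d)).t k i = ((Sq k).t k i).pull (τ.H k d) := by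
    intro k d i
    induction d with
    | zero => rfl
    | succ d ih =>
      have h1 := (nx (k + d) (Sq (k + d))).ht k i (by omega)
      have h2 : (Sq (k + (d + 1))).t k i =
        ((Sq (k + d)).t k i).pull (nx (k + d) (Sq (k + d))).s.h := h1
      rw [h2, ih]
      rfl
  have hg : ∀ k, (Sq (0 + k)).g = (Sq 0).g.comp (τ.H 0 k) := by
    intro k
    induction k with
    | zero => rfl
    | succ k ih =>
      have h1 : (Sq (0 + (k + 1))).g = (Sq (0 + k)).g.comp (nx (0 + k) (Sq (0 + k))).s.h :=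
        (nx (0 + k) (Sq (0 + k))).hg
      rw [h1, ih]
      rfl
  refine ⟨τ, (Sq 0).g, fun k => (nx k (Sq k)).mesh, ?_, ?_⟩
  · intro k D f hD hf
    obtain ⟨i, hi⟩ := hen k ⟨(D, f), hD, hf⟩
    obtain ⟨d, hd⟩ : ∃ d, Nat.pair k i = k + d :=
      ⟨Nat.pair k i - k, (Nat.add_sub_cancel' (Nat.left_le_pair k i)).symm⟩
    refine ⟨d + 1, (nx (k + d) (Sq (k + d))).F, ?_⟩
    intro p hp
    have h1 := (nx (k + d) (Sq (k + d))).hF p
    have h2 : (Nat.unpair (k + d)).1 = k := by rw [← hd, Nat.unpair_pair]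
    have h3 : (Nat.unpair (k + d)).2 = i := by rw [← hd, Nat.unpair_pair]
    rw [h2, h3, hpull k d i, hi] at h1
    exact h1 hp
  · intro k
    have h1 := (Sq (0 + k)).ess
    rw [hg k] at h1
    exact h1

end Pool.Agent.SH

end

end

section

/-!
# Affine maps between realisations (GLI), supports of threads (GLP)
-/

set_option autoImplicit false

noncomputable section

namespace Pool.Agent.SH

namespace G

variable {P' P : Type} [PartialOrder P'] [PartialOrder P] [Fintype P'] [Fintype P]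

theorem mem_pol {w : P → ℝ} : w ∈ Pol P ↔ (∀ a, 0 ≤ w a) ∧ ∑ a, w a = 1 ∧
    ∀ a b, w a ≠ 0 → w b ≠ 0 → a ≤ b ∨ b ≤ a := by
  constructor
  · rintro ⟨h1, _, h2, h3⟩
    exact ⟨h1, h2, h3⟩
  · rintro ⟨h1, h2, h3⟩
    exact ⟨h1, fun a ha => absurd (Finset.mem_univ a) ha, h2, h3⟩

/-- The support of a point. -/
theorem exists_supp {w : P → ℝ} (hw : w ∈ Pol P) : ∃ q, w q ≠ 0 := by
  by_contra h
  push Not at h
  have := (mem_pol.1 hw).2.1
  rw [Finset.sum_eq_zero (fun a _ => h a)] at this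
  exact zero_ne_one this

/-- The greatest element of the support. -/
theorem exists_top {w : P → ℝ} (hw : w ∈ Pol P) : ∃ q, w q ≠ 0 ∧ ∀ q', w q' ≠ 0 → q' ≤ q := by
  classical
  obtain ⟨q, hq⟩ := exists_supp hw
  obtain ⟨m, hm, hmax⟩ := (Finset.univ.filter (fun a => w a ≠ 0)).exists_maximal
    ⟨q, Finset.mem_filter.2 ⟨Finset.mem_univ _, hq⟩⟩
  refine ⟨m, (Finset.mem_filter.1 hm).2, fun q' hq' => ?_⟩
  rcases (mem_pol.1 hw).2.2 q' m hq' (Finset.mem_filter.1 hm).2 with h | h
  · exact h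
  · exact hmax (Finset.mem_filter.2 ⟨Finset.mem_univ _, hq'⟩) h

theorem lin_nonneg (s : SM P' P) {w : P' → ℝ} (hw : ∀ a, 0 ≤ w a) (p : P) :
    0 ≤ lin s.geo w p :=
  Finset.sum_nonneg fun a _ => mul_nonneg (hw a) (s.geo_nonneg a p)

theorem lin_ne_zero (s : SM P' P) {w : P' → ℝ} (hw : ∀ a, 0 ≤ w a) (p : P) :
    lin s.geo w p ≠ 0 ↔ ∃ a, w a ≠ 0 ∧ p ∈ (s.c a).c := by
  unfold lin
  rw [Ne, Finset.sum_eq_zero_iff_of_nonneg (fun a _ => mul_nonneg (hw a) (s.geo_nonneg a p))]
  constructor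
  · intro h
    push Not at h
    obtain ⟨a, _, ha⟩ := h
    refine ⟨a, left_ne_zero_of_mul ha, (s.geo_supp a p).1 (right_ne_zero_of_mul ha)⟩
  · rintro ⟨a, ha, hp⟩ h
    exact mul_ne_zero ha ((s.geo_supp a p).2 hp) (h a (Finset.mem_univ _))

theorem lin_sum (s : SM P' P) (w : P' → ℝ) : ∑ p, lin s.geo w p = ∑ a, w a := by
  unfold lin
  rw [Finset.sum_comm]
  refine Finset.sum_congr rfl fun a _ => ?_
  rw [← Finset.mul_sum, s.geo_sum, mul_one]

theorem lin_top (s : SM P' P) {w : P' → ℝ} (hw : w ∈ Pol P') (q : P') (hq : w q ≠ 0)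
    (hmax : ∀ q', w q' ≠ 0 → q' ≤ q) (p : P) : lin s.geo w p ≠ 0 ↔ p ∈ (s.c q).c := by
  rw [lin_ne_zero s (mem_pol.1 hw).1]
  constructor
  · rintro ⟨a, ha, hp⟩
    exact s.c.monotone (hmax a ha) hp
  · intro hp
    exact ⟨q, hq, hp⟩

theorem lin_mem (s : SM P' P) {w : P' → ℝ} (hw : w ∈ Pol P') : lin s.geo w ∈ Pol P := by
  obtain ⟨q, hq, hmax⟩ := exists_top hw
  rw [mem_pol]
  refine ⟨lin_nonneg s (mem_pol.1 hw).1, ?_, ?_⟩
  · rw [lin_sum, (mem_pol.1 hw).2.1]
  · intro a b ha hb
    rw [lin_top s hw q hq hmax] at ha hb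
    exact (s.c q).chain a ha b hb

theorem lin_lip (s : SM P' P) (v w : P' → ℝ) :
    ∑ p, |lin s.geo v p - lin s.geo w p| ≤ ∑ p', |v p' - w p'| := by
  have h1 : ∀ p, |lin s.geo v p - lin s.geo w p| ≤ ∑ p', |v p' - w p'| * s.geo p' p := by
    intro p
    have : lin s.geo v p - lin s.geo w p = ∑ p', (v p' - w p') * s.geo p' p := by
      unfold lin
      rw [← Finset.sum_sub_distrib]
      exact Finset.sum_congr rfl fun a _ => by ring
    rw [this]
    refine (Finset.abs_sum_le_sum_abs _ _).trans (Finset.sum_le_sum fun a _ => ?_)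
    rw [abs_mul, abs_of_nonneg (s.geo_nonneg a p)]
  refine (Finset.sum_le_sum fun p _ => h1 p).trans ?_
  rw [Finset.sum_comm]
  refine Finset.sum_le_sum fun a _ => ?_
  rw [← Finset.mul_sum, s.geo_sum, mul_one]

end G

theorem GLI : Stmt_GLI := fun _ _ _ _ _ _ s =>
  ⟨fun _ hw => G.lin_mem s hw, G.lin_lip s, fun _ hw q hq hmax p => G.lin_top s hw q hq hmax p⟩

namespace G

variable (τ : Tower) (x : τ.Lim)

theorem h_mem {k : ℕ} {p : τ.P (k + 1)} (hp : x.1 (k + 1) p ≠ 0) {q : τ.P k}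
    (hq : q ∈ ((τ.sm k).c p).c) : x.1 k q ≠ 0 := by
  rw [← (x.2 k).2, lin_ne_zero _ (mem_pol.1 (x.2 (k + 1)).1).1]
  exact ⟨p, hp, hq⟩

theorem H_mem (k d : ℕ) : ∀ p : τ.P (k + d), x.1 (k + d) p ≠ 0 → x.1 k (τ.H k d p) ≠ 0 := by
  induction d with
  | zero =>
    intro p hp
    exact hp
  | succ d ih =>
    intro p hp
    rw [Tower.H_succ]
    refine ih _ ?_
    exact h_mem τ x hp (Sd.top_mem _)

theorem H_top (k d : ℕ) : ∀ p : τ.P (k + d), x.1 (k + d) p ≠ 0 →
    (∀ q, x.1 (k + d) q ≠ 0 → q ≤ p) → ∀ q, x.1 k q ≠ 0 → q ≤ τ.H k d p := by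
  induction d with
  | zero =>
    intro p _ hmax q hq
    exact hmax q hq
  | succ d ih =>
    intro p hp hmax q hq
    rw [Tower.H_succ]
    refine ih _ (h_mem τ x hp (Sd.top_mem _)) ?_ q hq
    intro q' hq'
    rw [← (x.2 (k + d)).2, lin_top _ (x.2 (k + d + 1)).1 p hp hmax] at hq'
    exact Sd.le_top _ hq'

end G

theorem GLP : Stmt_GLP := fun τ x k =>
  ⟨fun _ hp _ hq => G.h_mem τ x hp hq, fun d p hp => G.H_mem τ x k d p hp,
    fun d p hp hmax q hq => G.H_top τ x k d p hp hmax q hq⟩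

end Pool.Agent.SH

end

end

section

/-!
# The inverse limit: compact, metrizable, surjective projections
-/

set_option autoImplicit false

noncomputable section

open Set Topology

namespace Pool.Agent.SH

namespace G

theorem continuous_lin {P' P : Type} [Fintype P'] (geo : P' → P → ℝ) :
    Continuous (lin geo : (P' → ℝ) → P → ℝ) := by
  refine continuous_pi fun p => ?_
  unfold lin
  exact continuous_finsetSum _ fun a _ => (continuous_apply a).mul continuous_const

/-- The set of threads. -/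
def thr (τ : Tower) : Set (∀ k, τ.P k → ℝ) :=
  {x | ∀ k, x k ∈ Pol (τ.P k) ∧ lin (τ.sm k).geo (x (k + 1)) = x k}

theorem isCompact_thr (τ : Tower) : IsCompact (thr τ) := by
  have h1 : IsCompact (Set.pi univ fun k => (Pol (τ.P k) : Set (τ.P k → ℝ))) :=
    isCompact_univ_pi fun k => isCompact_Rz _
  refine h1.of_isClosed_subset ?_ ?_
  · have h2 : thr τ = ⋂ k, {x | x k ∈ Pol (τ.P k)} ∩ {x | lin (τ.sm k).geo (x (k + 1)) = x k} := by
      ext x
      simp [thr]
    rw [h2]
    refine isClosed_iInter fun k => IsClosed.inter ?_ ?_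
    · exact (isClosed_Rz _).preimage (continuous_apply k)
    · exact isClosed_eq ((continuous_lin _).comp (continuous_apply (k + 1))) (continuous_apply k)
  · intro x hx k _
    exact (hx k).1

end G

theorem GLC : Stmt_GLC := by
  intro τ
  have h1 : CompactSpace τ.Lim := isCompact_iff_compactSpace.1 (G.isCompact_thr τ)
  have h2 : T2Space τ.Lim := inferInstanceAs (T2Space {x // x ∈ G.thr τ})
  have h3 : SecondCountableTopology τ.Lim :=
    inferInstanceAs (SecondCountableTopology {x // x ∈ G.thr τ})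
  refine ⟨h1, ?_⟩
  infer_instance

namespace G

/-- The tower without its first stage. -/
def shift (τ : Tower) : Tower :=
  ⟨fun k => τ.P (k + 1), fun k => τ.po (k + 1), fun k => τ.ft (k + 1), fun k => τ.sm (k + 1)⟩

theorem surj_aux (k : ℕ) : ∀ (τ : Tower), ∀ w ∈ Pol (τ.P k), ∃ x : τ.Lim, x.1 k = w := by
  induction k with
  | zero =>
    intro τ w hw
    have hl : ∀ (j : ℕ) (v : {v : τ.P j → ℝ // v ∈ Pol (τ.P j)}),
        ∃ v' : {v : τ.P (j + 1) → ℝ // v ∈ Pol (τ.P (j + 1))}, lin (τ.sm j).geo v'.1 = v.1 := by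
      intro j v
      obtain ⟨v', h1, h2⟩ := (τ.sm j).surj v.1 v.2
      exact ⟨⟨v', h1⟩, h2⟩
    choose l hl using hl
    let x : ∀ j, {v : τ.P j → ℝ // v ∈ Pol (τ.P j)} := fun j =>
      Nat.rec (motive := fun j => {v : τ.P j → ℝ // v ∈ Pol (τ.P j)}) ⟨w, hw⟩ (fun j v => l j v) j
    exact ⟨⟨fun j => (x j).1, fun j => ⟨(x j).2, hl j (x j)⟩⟩, rfl⟩
  | succ k ih =>
    intro τ w hw
    obtain ⟨x', hx'⟩ := ih (shift τ) w hw
    refine ⟨⟨fun j => match j with
      | 0 => lin (τ.sm 0).geo (x'.1 0)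
      | j + 1 => x'.1 j, ?_⟩, hx'⟩
    intro j
    cases j with
    | zero => exact ⟨lin_mem (τ.sm 0) (x'.2 0).1, rfl⟩
    | succ j => exact ⟨(x'.2 j).1, (x'.2 j).2⟩

end G

theorem GLS : Stmt_GLS := fun τ k w hw => G.surj_aux k τ w hw

end Pool.Agent.SH

end

end

section

/-!
# Stars of late stages are small
-/

set_option autoImplicit false

noncomputable section

open Set Topology Uniformity

namespace Pool.Agent.SH

namespace G

/-- The distance of two threads at stage `k`. -/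
def ds (τ : Tower) (k : ℕ) (x y : τ.Lim) : ℝ := ∑ p, |x.1 k p - y.1 k p|

theorem ds_mono (τ : Tower) (x y : τ.Lim) {j k : ℕ} (h : j ≤ k) : ds τ j x y ≤ ds τ k x y := by
  induction k, h using Nat.le_induction with
  | base => exact le_refl _
  | succ k _ ih =>
    refine ih.trans ?_
    unfold ds
    rw [← (x.2 k).2, ← (y.2 k).2]
    exact lin_lip _ _ _

/-- A point in the star of `v` is close to the image of `v`. -/
theorem close_geo {P' P : Type} [PartialOrder P'] [PartialOrder P] [Fintype P'] [Fintype P]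
    (s : SM P' P) {ε : ℝ} (hs : s.MeshLE ε) {w : P' → ℝ} (hw : w ∈ Pol P') {v : P'}
    (hv : w v ≠ 0) : ∑ p, |lin s.geo w p - s.geo v p| ≤ ε := by
  have h0 := mem_pol.1 hw
  have h1 : ∀ p, |lin s.geo w p - s.geo v p| ≤ ∑ a, w a * |s.geo a p - s.geo v p| := by
    intro p
    have e : lin s.geo w p - s.geo v p = ∑ a, w a * (s.geo a p - s.geo v p) := by
      have : s.geo v p = ∑ a, w a * s.geo v p := by
        rw [← Finset.sum_mul, h0.2.1, one_mul]
      rw [this]
      unfold lin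
      rw [← Finset.sum_sub_distrib]
      exact Finset.sum_congr rfl fun a _ => by rw [← this]; ring
    rw [e]
    refine (Finset.abs_sum_le_sum_abs _ _).trans (Finset.sum_le_sum fun a _ => ?_)
    rw [abs_mul, abs_of_nonneg (h0.1 a)]
  refine (Finset.sum_le_sum fun p _ => h1 p).trans ?_
  rw [Finset.sum_comm]
  have h2 : ∀ a, ∑ p, w a * |s.geo a p - s.geo v p| ≤ w a * ε := by
    intro a
    rw [← Finset.mul_sum]
    by_cases ha : w a = 0
    · rw [ha, zero_mul, zero_mul]
    · refine mul_le_mul_of_nonneg_left ?_ (h0.1 a)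
      rcases h0.2.2 a v ha hv with h | h
      · exact hs a v h
      · have := hs v a h
        refine le_trans (le_of_eq ?_) this
        exact Finset.sum_congr rfl fun p _ => abs_sub_comm _ _
  refine (Finset.sum_le_sum fun a _ => h2 a).trans ?_
  rw [← Finset.sum_mul, h0.2.1, one_mul]

theorem ds_star (τ : Tower) (hτ : τ.Fine) (k : ℕ) (x y : τ.Lim) (v : τ.P (k + 1))
    (hx : x.1 (k + 1) v ≠ 0) (hy : y.1 (k + 1) v ≠ 0) : ds τ k x y ≤ 2 * (1 / 2) ^ k := by
  have h1 := close_geo (τ.sm k) (hτ k) (x.2 (k + 1)).1 hx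
  have h2 := close_geo (τ.sm k) (hτ k) (y.2 (k + 1)).1 hy
  rw [(x.2 k).2] at h1
  rw [(y.2 k).2] at h2
  have h3 : ds τ k x y ≤ ∑ p, (|x.1 k p - (τ.sm k).geo v p| + |y.1 k p - (τ.sm k).geo v p|) := by
    refine Finset.sum_le_sum fun p _ => ?_
    have := abs_sub_le (x.1 k p) ((τ.sm k).geo v p) (y.1 k p)
    rwa [abs_sub_comm ((τ.sm k).geo v p) (y.1 k p)] at this
  rw [Finset.sum_add_distrib] at h3
  linarith

instance (τ : Tower) : UniformSpace τ.Lim := inferInstanceAs (UniformSpace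
  {x : ∀ k, τ.P k → ℝ // ∀ k, x k ∈ Pol (τ.P k) ∧ lin (τ.sm k).geo (x (k + 1)) = x k})

theorem exists_lower {I : Type} [Finite I] (e : I → ℝ) (he : ∀ i, 0 < e i) :
    ∃ ε : ℝ, 0 < ε ∧ ∀ i, ε ≤ e i := by
  cases isEmpty_or_nonempty I with
  | inl h => exact ⟨1, one_pos, fun i => (h.false i).elim⟩
  | inr h =>
    obtain ⟨i, hi⟩ := Finite.exists_min e
    exact ⟨e i, he i, hi⟩

theorem dist_le_ds (τ : Tower) (x y : τ.Lim) (k : ℕ) : dist (x.1 k) (y.1 k) ≤ ds τ k x y := by
  unfold ds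
  rw [dist_pi_le_iff (Finset.sum_nonneg fun p _ => abs_nonneg _)]
  intro p
  rw [Real.dist_eq]
  exact Finset.single_le_sum (f := fun p => |x.1 k p - y.1 k p|)
    (fun p _ => abs_nonneg _) (Finset.mem_univ p)

/-- The stage distances generate the uniformity. -/
theorem exists_ds (τ : Tower) {V : Set (τ.Lim × τ.Lim)} (hV : V ∈ 𝓤 τ.Lim) :
    ∃ (n : ℕ) (ε : ℝ), 0 < ε ∧ ∀ x y : τ.Lim, ds τ n x y < ε → (x, y) ∈ V := by
  have h1 : V ∈ Filter.comap (fun q : τ.Lim × τ.Lim => (q.1.1, q.2.1))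
    (𝓤 (∀ k, τ.P k → ℝ)) := hV
  obtain ⟨W, hW, hWV⟩ := Filter.mem_comap.1 h1
  rw [Pi.uniformity, Filter.mem_iInf] at hW
  obtain ⟨I, hI, v, hv, rfl⟩ := hW
  have hfin : Finite I := hI
  have h2 : ∀ i : I, ∃ ε : ℝ, 0 < ε ∧ ∀ a b : (∀ k, τ.P k → ℝ), dist (a i) (b i) < ε →
      (a, b) ∈ v i := by
    intro i
    obtain ⟨W, hW, hWv⟩ := Filter.mem_comap.1 (hv i)
    obtain ⟨ε, hε, hW⟩ := Metric.mem_uniformity_dist.1 hW
    exact ⟨ε, hε, fun a b hab => hWv (hW hab)⟩
  choose e he hev using h2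
  obtain ⟨ε, hε, hle⟩ := exists_lower e he
  obtain ⟨n, hn⟩ := hI.bddAbove
  refine ⟨n, ε, hε, fun x y hxy => hWV ?_⟩
  rw [mem_preimage, mem_iInter]
  intro i
  refine hev i _ _ (lt_of_le_of_lt ?_ (lt_of_lt_of_le hxy (hle i)))
  exact le_trans (dist_le_ds τ x y i) (ds_mono τ x y (hn i.2))

/-- Points of the star of a vertex of a late stage are close. -/
theorem late (τ : Tower) (hτ : τ.Fine) {V : Set (τ.Lim × τ.Lim)} (hV : V ∈ 𝓤 τ.Lim) :
    ∃ k₀ : ℕ, ∀ k, k₀ ≤ k → ∀ v : τ.P k, ∀ x y : τ.Lim, x.1 k v ≠ 0 → y.1 k v ≠ 0 →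
      (x, y) ∈ V := by
  obtain ⟨n, ε, hε, h⟩ := exists_ds τ hV
  obtain ⟨m, hm⟩ := exists_pow_lt_of_lt_one (half_pos hε) (by norm_num : (1 / 2 : ℝ) < 1)
  refine ⟨max n m + 1, fun k hk v x y hx hy => h x y ?_⟩
  obtain ⟨l, rfl⟩ : ∃ l, k = l + 1 := ⟨k - 1, by omega⟩
  have hl : max n m ≤ l := by omega
  have hn : n ≤ l := le_trans (le_max_left _ _) hl
  have hml : m ≤ l := le_trans (le_max_right _ _) hl
  refine lt_of_le_of_lt ((ds_mono τ x y hn).trans (ds_star τ hτ l x y v hx hy)) ?_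
  have h3 : (1 / 2 : ℝ) ^ l ≤ (1 / 2) ^ m :=
    pow_le_pow_of_le_one (by norm_num) (by norm_num) hml
  linarith

/-- The vertex `v` as a point. -/
theorem delta_mem {P : Type} [PartialOrder P] [Fintype P] [DecidableEq P] (v : P) :
    (fun p => if p = v then (1 : ℝ) else 0) ∈ Pol P := by
  rw [mem_pol]
  refine ⟨fun a => ?_, ?_, ?_⟩
  · split_ifs <;> norm_num
  · rw [Finset.sum_ite_eq' Finset.univ v (fun _ => (1 : ℝ)), if_pos (Finset.mem_univ _)]
  · intro a b ha hb
    have ha' : a = v := by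
      by_contra h
      exact ha (if_neg h)
    have hb' : b = v := by
      by_contra h
      exact hb (if_neg h)
    rw [ha', hb']
    exact Or.inl le_rfl

end G

theorem GLL : Stmt_GLL := by
  classical
  intro τ hτ ι U hU hcov
  have hc : CompactSpace τ.Lim := (GLC τ).1
  obtain ⟨V, hV, hVU⟩ := lebesgue_number_lemma (isCompact_univ (X := τ.Lim)) hU
    (fun x _ => mem_iUnion.2 (hcov x))
  obtain ⟨k₀, hk₀⟩ := G.late τ hτ hV
  refine ⟨k₀, fun k hk v => ?_⟩
  obtain ⟨x₀, hx₀⟩ := GLS τ k _ (G.delta_mem v)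
  obtain ⟨i, hi⟩ := hVU x₀ (mem_univ _)
  refine ⟨i, fun x hx => hi ?_⟩
  refine hk₀ k hk v x₀ x ?_ hx
  rw [hx₀]
  simp

end Pool.Agent.SH

end

end

section

/-!
# The extension property of the inverse limit
-/

set_option autoImplicit false

noncomputable section

open Set Topology Uniformity

namespace Pool.Agent.SH

namespace G

open Classical in
/-- Push forward of weights along a map of the vertices. -/
def pf {P L : Type} [Fintype P] (F : P → L) (w : P → ℝ) : L → ℝ :=
  fun l => ∑ p, if F p = l then w p else 0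

theorem continuous_pf {P L : Type} [Fintype P] (F : P → L) :
    Continuous (pf F : (P → ℝ) → L → ℝ) := by
  classical
  refine continuous_pi fun l => ?_
  unfold pf
  refine continuous_finsetSum _ fun p _ => ?_
  by_cases h : F p = l
  · simp only [h, if_true]
    exact continuous_apply p
  · simp only [h, if_false]
    exact continuous_const

theorem pf_ne_zero {P L : Type} [Fintype P] {F : P → L} {w : P → ℝ} {l : L}
    (h : pf F w l ≠ 0) : ∃ p, w p ≠ 0 ∧ F p = l := by
  classical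
  unfold pf at h
  obtain ⟨p, _, hp⟩ := Finset.exists_ne_zero_of_sum_ne_zero h
  by_cases hF : F p = l
  · rw [if_pos hF] at hp
    exact ⟨p, hp, hF⟩
  · rw [if_neg hF] at hp
    exact absurd rfl hp

theorem pf_mem {P L : Type} [PartialOrder P] [Fintype P] [PartialOrder L] (F : P →o L)
    (Q : Finset L) (hQ : ∀ p, F p ∈ Q) {w : P → ℝ} (hw : w ∈ Pol P) : pf F w ∈ Rz Q := by
  classical
  have h0 := mem_pol.1 hw
  refine ⟨fun l => ?_, fun l hl => ?_, ?_, fun a b ha hb => ?_⟩
  · unfold pf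
    refine Finset.sum_nonneg fun p _ => ?_
    split_ifs
    · exact h0.1 p
    · exact le_refl _
  · by_contra h
    obtain ⟨p, _, rfl⟩ := pf_ne_zero h
    exact hl (hQ p)
  · unfold pf
    rw [Finset.sum_comm]
    rw [← h0.2.1]
    refine Finset.sum_congr rfl fun p _ => ?_
    rw [Finset.sum_ite_eq Q (F p) (fun _ => w p), if_pos (hQ p)]
  · obtain ⟨p, hp, rfl⟩ := pf_ne_zero ha
    obtain ⟨q, hq, rfl⟩ := pf_ne_zero hb
    rcases h0.2.2 p q hp hq with h | h
    · exact Or.inl (F.monotone h)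
    · exact Or.inr (F.monotone h)

/-- A vertex map which is carried by `f`. -/
theorem exists_vertex (τ : Tower) (L : Type) [PartialOrder L] [Nonempty L] (hτ : τ.Fine)
    (A : Set τ.Lim) (Q : Finset L) (f : τ.Lim → L → ℝ) (hA : IsClosed A)
    (hf : ContinuousOn f A) (hfQ : ∀ z ∈ A, f z ∈ Rz Q) :
    ∃ (k : ℕ) (a : τ.P k → L), ∀ y ∈ A, ∀ p, y.1 k p ≠ 0 → f y (a p) ≠ 0 := by
  classical
  have hc : CompactSpace τ.Lim := (GLC τ).1
  have hu := hA.isCompact.uniformContinuousOn_of_continuous hf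
  set ε : ℝ := 1 / (Q.card : ℝ) with hεd
  by_cases hQ : Q.card = 0
  · refine ⟨0, fun _ => Classical.arbitrary L, fun y hy => ?_⟩
    have h1 := (hfQ y hy).2.2.1
    rw [Finset.card_eq_zero.1 hQ, Finset.sum_empty] at h1
    exact absurd h1 zero_ne_one
  have hQ' : (0 : ℝ) < Q.card := by exact_mod_cast Nat.pos_of_ne_zero hQ
  have hε : 0 < ε := by positivity
  have hW : {q : (L → ℝ) × (L → ℝ) | ∀ l ∈ Q, |q.1 l - q.2 l| < ε} ∈ 𝓤 (L → ℝ) := by
    have h1 : ∀ l ∈ Q, {q : (L → ℝ) × (L → ℝ) | |q.1 l - q.2 l| < ε} ∈ 𝓤 (L → ℝ) := by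
      intro l _
      have h2 : {q : ℝ × ℝ | dist q.1 q.2 < ε} ∈ 𝓤 ℝ := Metric.dist_mem_uniformity hε
      exact (Pi.uniformContinuous_proj (fun _ : L => ℝ) l) h2
    have h2 := (Filter.biInter_finset_mem Q).2 h1
    refine Filter.mem_of_superset h2 ?_
    intro q hq l hl
    exact mem_iInter₂.1 hq l hl
  have hV : {q : τ.Lim × τ.Lim | q ∈ A ×ˢ A → ∀ l ∈ Q, |f q.1 l - f q.2 l| < ε} ∈ 𝓤 τ.Lim := by
    have h1 := hu hW
    rw [Filter.mem_map, Filter.mem_inf_principal] at h1
    exact h1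
  obtain ⟨k, hk⟩ := late τ hτ hV
  have hl : ∀ y ∈ A, ∃ l ∈ Q, ε ≤ f y l := by
    intro y hy
    refine Finset.exists_le_of_sum_le (Finset.card_pos.1 (Nat.pos_of_ne_zero hQ)) ?_
    rw [Finset.sum_const, (hfQ y hy).2.2.1, nsmul_eq_mul, hεd, mul_one_div_cancel hQ'.ne']
  refine ⟨k, fun p => if h : ∃ y ∈ A, y.1 k p ≠ 0 then (hl h.choose h.choose_spec.1).choose else
    Classical.arbitrary L, fun y hy p hp => ?_⟩
  have h : ∃ y ∈ A, y.1 k p ≠ 0 := ⟨y, hy, hp⟩
  simp only [dif_pos h]
  set l := (hl h.choose h.choose_spec.1).choose with hld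
  obtain ⟨hlQ, hlε⟩ := (hl h.choose h.choose_spec.1).choose_spec
  have h1 := hk k le_rfl p y h.choose hp h.choose_spec.2 ⟨hy, h.choose_spec.1⟩ l hlQ
  intro h0
  have h2 : |f y l - f h.choose l| < ε := h1
  rw [h0, zero_sub, abs_neg] at h2
  exact absurd (lt_of_le_of_lt (le_abs_self _) h2) (not_lt.2 hlε)

end G

theorem GLE : Stmt_GLE := by
  classical
  intro τ L _ _ hτ hS A Q f hA hf hfQ
  obtain ⟨k, a, ha⟩ := G.exists_vertex τ L hτ A Q f hA hf hfQ
  let D : Set (τ.P (k + 1)) := {p | ∃ y ∈ A, ∀ q ∈ ((τ.sm k).c p).c, y.1 k q ≠ 0}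
  have hD : IsLowerSet D := by
    intro p p' hle hp
    obtain ⟨y, hy, h⟩ := hp
    exact ⟨y, hy, fun q hq => h q ((τ.sm k).c.monotone hle hq)⟩
  have hm : ∀ p ∈ D, ∃ m ∈ ((τ.sm k).c p).c, ∀ q ∈ ((τ.sm k).c p).c, a q ≤ a m := by
    intro p hp
    obtain ⟨y, hy, h⟩ := hp
    obtain ⟨_, _, _, hch⟩ := hfQ y hy
    have h1 : ∀ s : Finset (τ.P k), s.Nonempty → (∀ q ∈ s, y.1 k q ≠ 0) →
        ∃ m ∈ s, ∀ q ∈ s, a q ≤ a m := by
      intro s hs
      induction hs using Finset.Nonempty.cons_induction with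
      | singleton b =>
        intro _
        refine ⟨b, Finset.mem_singleton_self b, fun q hq => ?_⟩
        rw [Finset.mem_singleton.1 hq]
      | cons b s hb hs ih =>
        intro hq
        obtain ⟨m, hms, hmax⟩ := ih fun q hqs => hq q (Finset.mem_cons_of_mem hqs)
        rcases hch (a b) (a m) (ha y hy b (hq b (Finset.mem_cons_self b s)))
          (ha y hy m (hq m (Finset.mem_cons_of_mem hms))) with h2 | h2
        · refine ⟨m, Finset.mem_cons_of_mem hms, fun q hqs => ?_⟩
          rcases Finset.mem_cons.1 hqs with rfl | hqs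
          · exact h2
          · exact hmax q hqs
        · refine ⟨b, Finset.mem_cons_self b s, fun q hqs => ?_⟩
          rcases Finset.mem_cons.1 hqs with rfl | hqs
          · exact le_rfl
          · exact (hmax q hqs).trans h2
    exact h1 _ ((τ.sm k).c p).ne h
  let f0 : τ.P (k + 1) → L := fun p =>
    if h : ∃ m ∈ ((τ.sm k).c p).c, ∀ q ∈ ((τ.sm k).c p).c, a q ≤ a m then a h.choose
    else Classical.arbitrary L
  have hf0 : ∀ p ∈ D, ∃ m ∈ ((τ.sm k).c p).c, f0 p = a m ∧ ∀ q ∈ ((τ.sm k).c p).c, a q ≤ a m := by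
    intro p hp
    have h := hm p hp
    refine ⟨h.choose, h.choose_spec.1, ?_, h.choose_spec.2⟩
    show (if h : ∃ m ∈ ((τ.sm k).c p).c, ∀ q ∈ ((τ.sm k).c p).c, a q ≤ a m then a h.choose
      else Classical.arbitrary L) = a h.choose
    rw [dif_pos h]
  have hf0m : MonotoneOn f0 D := by
    intro p hp p' hp' hle
    obtain ⟨m, hm1, hm2, _⟩ := hf0 p hp
    obtain ⟨m', _, hm2', hm3'⟩ := hf0 p' hp'
    rw [hm2, hm2']
    exact hm3' m ((τ.sm k).c.monotone hle hm1)
  obtain ⟨d, F, hF⟩ := hS (k + 1) D f0 hD hf0m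
  set Q' : Finset L := Q ∪ Finset.univ.image F with hQ'
  have hsub : Q ⊆ Q' := Finset.subset_union_left
  have hFQ : ∀ p, F p ∈ Q' := fun p =>
    Finset.mem_union_right _ (Finset.mem_image_of_mem F (Finset.mem_univ p))
  have hc : CompactSpace τ.Lim := (GLC τ).1
  have hmet : TopologicalSpace.MetrizableSpace τ.Lim := (GLC τ).2
  obtain ⟨g, hg, hgQ, hgf⟩ := GBO L τ.Lim A Q' f (fun x => G.pf F (x.1 (k + 1 + d))) hA hf
    ((G.continuous_pf F).comp ((continuous_apply (k + 1 + d)).comp continuous_subtype_val))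
    (fun y hy => Rz_mono hsub (hfQ y hy))
    (fun x => G.pf_mem F Q' hFQ (x.2 (k + 1 + d)).1)
    (by
      intro y hy l hl
      obtain ⟨p, hp, rfl⟩ := G.pf_ne_zero hl
      have h1 := G.H_mem τ y (k + 1) d p hp
      have h2 : τ.H (k + 1) d p ∈ D := ⟨y, hy, fun q hq => G.h_mem τ y h1 hq⟩
      rw [hF p h2]
      obtain ⟨m, hm1, hm2, _⟩ := hf0 _ h2
      rw [hm2]
      exact ha y hy m (G.h_mem τ y h1 hm1))
  exact ⟨Q', g, hsub, hg, hgQ, hgf⟩

end Pool.Agent.SH

end

end

section

/-!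
# Lower bound of the dimension of the inverse limit
-/

set_option autoImplicit false

noncomputable section

open Set Topology

namespace Pool.Agent.SH

namespace G

open Classical in
/-- The barycentre of a chain. -/
def bary {P : Type} [PartialOrder P] (σ : Sd P) : P → ℝ :=
  fun p => if p ∈ σ.c then 1 / (σ.c.card : ℝ) else 0

theorem bary_ne_zero {P : Type} [PartialOrder P] (σ : Sd P) (p : P) :
    bary σ p ≠ 0 ↔ p ∈ σ.c := by
  unfold bary
  have hc : (0 : ℝ) < σ.c.card := by exact_mod_cast σ.ne.card_pos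
  by_cases h : p ∈ σ.c
  · rw [if_pos h]
    exact ⟨fun _ => h, fun _ => by positivity⟩
  · rw [if_neg h]
    exact ⟨fun h' => absurd rfl h', fun h' => absurd h' h⟩

theorem bary_mem {P : Type} [PartialOrder P] [Fintype P] (σ : Sd P) : bary σ ∈ Pol P := by
  classical
  have hc : (0 : ℝ) < σ.c.card := by exact_mod_cast σ.ne.card_pos
  rw [mem_pol]
  refine ⟨fun a => ?_, ?_, fun a b ha hb => ?_⟩
  · unfold bary
    split_ifs
    · positivity
    · exact le_refl _
  · unfold bary
    rw [Finset.sum_ite_mem, Finset.univ_inter, Finset.sum_const, nsmul_eq_mul,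
      mul_one_div_cancel hc.ne']
  · rw [bary_ne_zero] at ha hb
    exact σ.chain a ha b hb

end G

theorem GLD : Stmt_GLD := by
  classical
  intro M L _ E τ g hτ hE κ _ V hV hcov hstar
  by_contra hcon
  push Not at hcon
  obtain ⟨k₀, hk₀⟩ := GLL τ hτ κ V hV hcov
  choose w hw using hstar
  set k : ℕ := k₀ with hk
  have hj : ∀ v : τ.P (0 + k), ∃ i, ∀ x : τ.Lim, x.1 (0 + k) v ≠ 0 → x ∈ V i :=
    hk₀ (0 + k) (by omega)
  choose j hj using hj
  -- the largest element of the face
  let m : τ.P (0 + k) → Fin (M + 2) := fun v => (g (w (j v))).s.max' (g (w (j v))).ne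
  have hpt : ∀ σ : Sd (τ.P (0 + k)), ∃ x : τ.Lim, ∀ v, x.1 (0 + k) v ≠ 0 ↔ v ∈ σ.c := by
    intro σ
    obtain ⟨x, hx⟩ := GLS τ (0 + k) _ (G.bary_mem σ)
    refine ⟨x, fun v => ?_⟩
    rw [hx]
    exact G.bary_ne_zero σ v
  have hcard : ∀ σ : Sd (τ.P (0 + k)), (σ.c.image m).card ≤ M := by
    intro σ
    obtain ⟨x, hx⟩ := hpt σ
    have h1 : σ.c.image m = (σ.c.image j).image
        (fun i => (g (w i)).s.max' (g (w i)).ne) := by
      rw [Finset.image_image]
      rfl
    rw [h1]
    refine Finset.card_image_le.trans ?_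
    refine le_trans ?_ (hcon x)
    rw [← Set.ncard_coe_finset]
    refine Set.ncard_le_ncard ?_ (Set.toFinite _)
    intro i hi
    obtain ⟨v, hv, rfl⟩ := Finset.mem_image.1 (Finset.mem_coe.1 hi)
    exact hj v x ((hx v).2 hv)
  have hle : ∀ σ : Sd (τ.P (0 + k)), σ.c.image m ⊆ (g (τ.H 0 k σ.top)).s := by
    intro σ i hi
    obtain ⟨x, hx⟩ := hpt σ
    obtain ⟨v, hv, rfl⟩ := Finset.mem_image.1 hi
    have h1 : x ∈ V (j v) := hj v x ((hx v).2 hv)
    have h2 : x.1 0 (w (j v)) ≠ 0 := hw (j v) h1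
    have h3 := (GLP τ x 0).2.2 k σ.top ((hx _).2 σ.top_mem)
      (fun q hq => σ.le_top ((hx q).1 hq)) _ h2
    exact (g.monotone h3) (Finset.max'_mem _ _)
  let φ : Sd (τ.P (0 + k)) →o P0 M :=
    { toFun := fun σ => ⟨σ.c.image m, σ.ne.image m, by
        intro h
        have h1 := hcard σ
        rw [h, Finset.card_univ, Fintype.card_fin] at h1
        omega⟩
      monotone' := fun σ σ' h => Finset.image_subset_image h }
  have hess : E.Ess (Sd (τ.P (0 + k))) φ := by
    refine E.comparable _ ((g.comp (τ.H 0 k)).comp (topHom _)) φ (Or.inr ?_) (E.sd _ _ (hE k))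
    intro σ
    exact hle σ
  have hF : (Finset.univ.erase (0 : Fin (M + 2))).card = M + 1 := by
    rw [Finset.card_erase_of_mem (Finset.mem_univ _), Finset.card_univ, Fintype.card_fin]
    rfl
  refine E.facet _ φ ⟨Finset.univ.erase (0 : Fin (M + 2)), ?_, ?_⟩ hF ?_ hess
  · exact Finset.card_pos.1 (by rw [hF]; omega)
  · intro h
    have := Finset.mem_univ (0 : Fin (M + 2))
    rw [← h] at this
    exact Finset.notMem_erase _ _ this
  · intro σ h
    have h1 : σ.c.image m = Finset.univ.erase (0 : Fin (M + 2)) := congrArg P0.s h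
    have h2 := hcard σ
    rw [h1, hF] at h2
    omega

end Pool.Agent.SH

end

end

section

noncomputable section

namespace Pool.Agent.SH

theorem GNX (h1 : Stmt_GRF) (h2 : Stmt_GST) (h3 : Stmt_GCO) : Stmt_GNX := by
  classical
  intro M L _ _ E P _ _ g D f ε hε hD hf hE
  obtain ⟨P₁, _, _, s₁, hm, hess⟩ := h1 M L E P g ε hε hE
  set D₂ : Set (Sd P₁) := {σ | s₁.h σ.top ∈ D} with hD₂
  set f₂ : Sd P₁ → L := fun σ => f (s₁.h σ.top) with hf₂
  have hmono : ∀ σ τ : Sd P₁, σ ≤ τ → s₁.h σ.top ≤ s₁.h τ.top := fun σ τ h =>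
    s₁.h.monotone ((topHom P₁).monotone h)
  have hlow : IsLowerSet D₂ := fun τ σ h hτ => hD (hmono σ τ h) hτ
  have hmon : MonotoneOn f₂ D₂ := fun σ hσ τ hτ h => hf hσ hτ (hmono σ τ h)
  have hsd := E.sd P₁ (g.comp s₁.h) hess
  let l₀ : L := Classical.arbitrary L
  obtain ⟨Λ, hΛ, hess₂⟩ := E.step (Sd P₁) ((g.comp s₁.h).comp (topHom P₁)) D₂ f₂
    (insert l₀ (Finset.univ.image f₂)) hlow hmon hsd
  letI : Fintype (StepF D₂ f₂ Λ) := Fintype.ofFinite _
  obtain ⟨s₂, hs₂⟩ := h2 P₁ L D₂ f₂ Λ hlow hmon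
    (fun σ _ => hΛ (Finset.mem_insert_of_mem (Finset.mem_image_of_mem _ (Finset.mem_univ _))))
    ⟨l₀, hΛ (Finset.mem_insert_self _ _)⟩
  obtain ⟨t, th, -, -, tm⟩ := h3 (StepF D₂ f₂ Λ) P₁ P s₂ s₁
  have e : s₂.h = (topHom P₁).comp (StepF.pr D₂ f₂ Λ) := by
    unfold SM.h
    rw [hs₂]
  refine ⟨StepF D₂ f₂ Λ, inferInstance, inferInstance, t, StepF.lab D₂ f₂ Λ, tm ε hε.le hm, ?_, ?_⟩
  · rw [th, e]
    exact hess₂
  · intro p hp
    rw [th, e] at hp ⊢
    exact p.2.2 hp

end Pool.Agent.SH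

end

end

section

/-!
# MP_2d0b73_an, PART II: the step as a stage map
-/

noncomputable section

namespace Pool.Agent.SH

open CategoryTheory

theorem GST (h1 : Stmt_GSD) : Stmt_GST := by
  classical
  intro P L _ _ _ D f Λ _ hD hf hΛ hne
  obtain ⟨s0, hc, -⟩ := h1 P
  refine ⟨{ c := StepF.pr D f Λ
            geo := fun x => s0.geo (StepF.pr D f Λ x)
            geo_nonneg := fun x p => s0.geo_nonneg _ p
            geo_sum := fun x => s0.geo_sum _
            geo_supp := ?_
            surj := ?_ }, rfl⟩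
  · intro x p
    have := s0.geo_supp (StepF.pr D f Λ x) p
    rw [hc] at this
    exact this
  · intro w hw
    obtain ⟨y, hy, hyw⟩ := s0.surj w hw
    obtain ⟨hy0, -, hy1, hych⟩ := hy
    -- the label outside of `D`
    obtain ⟨l, hl, hlD⟩ : ∃ l ∈ Λ, ∀ σ, y σ ≠ 0 → σ ∈ D → f σ ≤ l := by
      let S : Finset (Sd P) := Finset.univ.filter (fun σ => y σ ≠ 0 ∧ σ ∈ D)
      by_cases hS : S.Nonempty
      · obtain ⟨m, hm, hmax⟩ := S.exists_maximal hS
        have hm' : y m ≠ 0 ∧ m ∈ D := (Finset.mem_filter.1 hm).2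
        refine ⟨f m, hΛ m hm'.2, fun σ h2 h3 => ?_⟩
        have h4 : σ ∈ S := Finset.mem_filter.2 ⟨Finset.mem_univ _, h2, h3⟩
        refine hf h3 hm'.2 ?_
        rcases hych σ m h2 hm'.1 with h5 | h5
        · exact h5
        · exact hmax h4 h5
      · obtain ⟨l, hl⟩ := hne
        refine ⟨l, hl, fun σ h2 h3 => ?_⟩
        exact absurd ⟨σ, Finset.mem_filter.2 ⟨Finset.mem_univ _, h2, h3⟩⟩ hS
    let lab : Sd P → L := fun σ => if σ ∈ D then f σ else l
    have lab_in : ∀ σ, σ ∈ D → lab σ = f σ := fun σ h => if_pos h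
    have lab_out : ∀ σ, σ ∉ D → lab σ = l := fun σ h => if_neg h
    have lab_mem : ∀ σ, lab σ ∈ Λ := by
      intro σ
      by_cases h : σ ∈ D
      · rw [lab_in σ h]
        exact hΛ σ h
      · rw [lab_out σ h]
        exact hl
    have lab_mono : ∀ σ τ, y σ ≠ 0 → y τ ≠ 0 → σ ≤ τ → lab σ ≤ lab τ := by
      intro σ τ h2 h3 h4
      by_cases h5 : τ ∈ D
      · have h6 : σ ∈ D := hD h4 h5
        rw [lab_in σ h6, lab_in τ h5]
        exact hf h6 h5 h4
      · rw [lab_out τ h5]
        by_cases h6 : σ ∈ D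
        · rw [lab_in σ h6]
          exact hlD σ h2 h6
        · rw [lab_out σ h6]
    let sct : Sd P → StepF D f Λ := fun σ => ⟨(σ, lab σ), lab_mem σ, lab_in σ⟩
    have hpr : ∀ σ, StepF.pr D f Λ (sct σ) = σ := fun σ => rfl
    have hinj : Function.Injective sct := fun σ τ h => by
      rw [← hpr σ, ← hpr τ, h]
    let y' : StepF D f Λ → ℝ := fun x =>
      if sct (StepF.pr D f Λ x) = x then y (StepF.pr D f Λ x) else 0
    have hy'1 : ∀ σ, y' (sct σ) = y σ := fun σ => if_pos rfl
    have hy'0 : ∀ x, x ∉ Set.range sct → y' x = 0 := by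
      intro x hx
      refine if_neg fun h => hx ⟨_, h⟩
    have hy'ne : ∀ x, y' x ≠ 0 → ∃ σ, sct σ = x ∧ y σ ≠ 0 := by
      intro x hx
      by_contra h
      push Not at h
      by_cases h2 : x ∈ Set.range sct
      · obtain ⟨σ, rfl⟩ := h2
        rw [hy'1] at hx
        exact hx (h σ rfl)
      · exact hx (hy'0 x h2)
    have hsum : ∀ G : Sd P → ℝ, ∑ x, y' x * G (StepF.pr D f Λ x) = ∑ σ, y σ * G σ := by
      intro G
      symm
      refine Fintype.sum_of_injective sct hinj _ _ ?_ ?_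
      · intro x hx
        rw [hy'0 x hx, zero_mul]
      · intro σ
        rw [hy'1, hpr]
    refine ⟨y', ⟨?_, ?_, ?_, ?_⟩, ?_⟩
    · intro x
      by_cases h : sct (StepF.pr D f Λ x) = x
      · have : y' x = y (StepF.pr D f Λ x) := if_pos h
        rw [this]
        exact hy0 _
      · have : y' x = 0 := if_neg h
        rw [this]
    · intro x hx
      exact absurd (Finset.mem_univ x) hx
    · have := hsum (fun _ => 1)
      simp only [mul_one] at this
      rw [this]
      exact hy1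
    · intro a b ha hb
      obtain ⟨σ, rfl, h2⟩ := hy'ne a ha
      obtain ⟨τ, rfl, h3⟩ := hy'ne b hb
      rcases hych σ τ h2 h3 with h4 | h4
      · exact Or.inl ⟨h4, lab_mono σ τ h2 h3 h4⟩
      · exact Or.inr ⟨h4, lab_mono τ σ h3 h2 h4⟩
    · rw [← hyw]
      funext p
      exact hsum (fun σ => s0.geo σ p)

end Pool.Agent.SH

end

end

section

/-!
# MP_2d0b73_an, PART II: composition of stage maps
-/

namespace Pool.Agent.SH

namespace GCO

variable {P'' P' P : Type} [PartialOrder P''] [PartialOrder P'] [PartialOrder P]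
  [Fintype P''] [Fintype P'] [Fintype P]

/-- Vertex images are points of the realisation. -/
theorem geo_mem_Pol (s : SM P' P) (p' : P') : s.geo p' ∈ Pol P := by
  refine ⟨s.geo_nonneg p', fun a ha => absurd (Finset.mem_univ a) ha, s.geo_sum p', ?_⟩
  intro a b ha hb
  exact (s.c p').chain a ((s.geo_supp p' a).1 ha) b ((s.geo_supp p' b).1 hb)

theorem lin_lin (g' : P'' → P' → ℝ) (g : P' → P → ℝ) (w : P'' → ℝ) :
    lin (fun p'' => lin g (g' p'')) w = lin g (lin g' w) := by
  funext p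
  simp only [lin, Finset.mul_sum, Finset.sum_mul]
  rw [Finset.sum_comm]
  refine Finset.sum_congr rfl fun x _ => Finset.sum_congr rfl fun y _ => ?_
  ring

theorem lin_nonneg (g : P' → P → ℝ) (hg : ∀ p' p, 0 ≤ g p' p) (w : P' → ℝ)
    (hw : ∀ p', 0 ≤ w p') (p : P) : 0 ≤ lin g w p :=
  Finset.sum_nonneg fun x _ => mul_nonneg (hw x) (hg x p)

theorem lin_sum (g : P' → P → ℝ) (hg : ∀ p', ∑ p, g p' p = 1) (w : P' → ℝ) :
    ∑ p, lin g w p = ∑ p', w p' := by
  simp only [lin]
  rw [Finset.sum_comm]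
  refine Finset.sum_congr rfl fun x _ => ?_
  rw [← Finset.mul_sum, hg, mul_one]

/-- The composite of two stage maps. -/
noncomputable def comp (h1 : Stmt_GLI) (s' : SM P'' P') (s : SM P' P) : SM P'' P where
  c := s.c.comp s'.h
  geo p'' := lin s.geo (s'.geo p'')
  geo_nonneg p'' p := lin_nonneg _ s.geo_nonneg _ (s'.geo_nonneg p'') p
  geo_sum p'' := by rw [lin_sum _ s.geo_sum, s'.geo_sum]
  geo_supp p'' p := by
    have h2 := (h1 P' P s).2.2 (s'.geo p'') (geo_mem_Pol s' p'') (s'.c p'').top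
      ((s'.geo_supp p'' _).2 (s'.c p'').top_mem)
      (fun q' hq' => (s'.c p'').le_top ((s'.geo_supp p'' q').1 hq')) p
    exact h2
  surj w hw := by
    obtain ⟨w', hw', e'⟩ := s.surj w hw
    obtain ⟨w'', hw'', e''⟩ := s'.surj w' hw'
    refine ⟨w'', hw'', ?_⟩
    rw [lin_lin, e'', e']

theorem mesh2 (s' : SM P'' P') (s : SM P' P) (ε : ℝ) (hε : 0 ≤ ε) (hs : s.MeshLE ε)
    (p'' q'' : P'') (h : p'' ≤ q'') :
    ∑ p, |lin s.geo (s'.geo p'') p - lin s.geo (s'.geo q'') p| ≤ ε := by
  have key : ∀ p, lin s.geo (s'.geo p'') p - lin s.geo (s'.geo q'') p =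
      ∑ x, ∑ y, s'.geo p'' x * s'.geo q'' y * (s.geo x p - s.geo y p) := by
    intro p
    have e1 : ∑ x, ∑ y, s'.geo p'' x * s'.geo q'' y * (s.geo x p - s.geo y p) =
        ∑ x, ∑ y, (s'.geo p'' x * s.geo x p * s'.geo q'' y) -
          ∑ x, ∑ y, (s'.geo p'' x * (s'.geo q'' y * s.geo y p)) := by
      rw [← Finset.sum_sub_distrib]
      refine Finset.sum_congr rfl fun x _ => ?_
      rw [← Finset.sum_sub_distrib]
      refine Finset.sum_congr rfl fun y _ => ?_
      ring
    rw [e1]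
    have e2 : ∑ x, ∑ y, (s'.geo p'' x * s.geo x p * s'.geo q'' y) =
        lin s.geo (s'.geo p'') p := by
      simp only [← Finset.mul_sum, s'.geo_sum, mul_one, lin]
    have e3 : ∑ x, ∑ y, (s'.geo p'' x * (s'.geo q'' y * s.geo y p)) =
        lin s.geo (s'.geo q'') p := by
      simp only [← Finset.mul_sum, ← Finset.sum_mul, s'.geo_sum, one_mul, lin]
    rw [e2, e3]
  have step : ∀ x y, s'.geo p'' x * s'.geo q'' y * ∑ p, |s.geo x p - s.geo y p| ≤
      s'.geo p'' x * s'.geo q'' y * ε := by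
    intro x y
    by_cases hx : s'.geo p'' x = 0
    · simp [hx]
    by_cases hy : s'.geo q'' y = 0
    · simp [hy]
    have hx1 : x ∈ (s'.c q'').c := s'.c.monotone h ((s'.geo_supp p'' x).1 hx)
    have hy1 : y ∈ (s'.c q'').c := (s'.geo_supp q'' y).1 hy
    refine mul_le_mul_of_nonneg_left ?_ (mul_nonneg (s'.geo_nonneg _ _) (s'.geo_nonneg _ _))
    rcases (s'.c q'').chain x hx1 y hy1 with h3 | h3
    · exact hs x y h3
    · refine le_trans (le_of_eq ?_) (hs y x h3)
      exact Finset.sum_congr rfl fun p _ => abs_sub_comm _ _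
  calc ∑ p, |lin s.geo (s'.geo p'') p - lin s.geo (s'.geo q'') p|
      ≤ ∑ p, ∑ x, ∑ y, s'.geo p'' x * s'.geo q'' y * |s.geo x p - s.geo y p| := by
        refine Finset.sum_le_sum fun p _ => ?_
        rw [key p]
        refine (Finset.abs_sum_le_sum_abs _ _).trans (Finset.sum_le_sum fun x _ => ?_)
        refine (Finset.abs_sum_le_sum_abs _ _).trans (Finset.sum_le_sum fun y _ => ?_)
        rw [abs_mul, abs_of_nonneg (mul_nonneg (s'.geo_nonneg _ _) (s'.geo_nonneg _ _))]
    _ = ∑ x, ∑ y, s'.geo p'' x * s'.geo q'' y * ∑ p, |s.geo x p - s.geo y p| := by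
        rw [Finset.sum_comm]
        refine Finset.sum_congr rfl fun x _ => ?_
        rw [Finset.sum_comm]
        refine Finset.sum_congr rfl fun y _ => ?_
        rw [Finset.mul_sum]
    _ ≤ ∑ x, ∑ y, s'.geo p'' x * s'.geo q'' y * ε :=
        Finset.sum_le_sum fun x _ => Finset.sum_le_sum fun y _ => step x y
    _ = ε := by
        simp only [← Finset.sum_mul, ← Finset.mul_sum, s'.geo_sum, mul_one, one_mul]

end GCO

theorem GCO (h1 : Stmt_GLI) : Stmt_GCO := by
  intro P'' P' P _ _ _ _ _ _ s' s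
  refine ⟨GCO.comp h1 s' s, rfl, fun _ => rfl, ?_, ?_⟩
  · intro ε hε p'' q'' h
    exact ((h1 P' P s).2.1 _ _).trans (hε p'' q'' h)
  · intro ε h0 hε p'' q'' h
    exact GCO.mesh2 s' s ε h0 hε p'' q'' h

end Pool.Agent.SH


end

section

/-!
# GSD: the barycentric subdivision as a stage map
-/

noncomputable section

namespace Pool.Agent.SH

namespace GSD

open Classical in
/-- The barycentre of the chain `σ`. -/
def bar {P : Type} [PartialOrder P] (σ : Sd P) (p : P) : ℝ :=
  if p ∈ σ.c then 1 / (σ.c.card : ℝ) else 0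

variable {P : Type} [PartialOrder P]

theorem card_pos (σ : Sd P) : (0 : ℝ) < (σ.c.card : ℝ) := by
  exact_mod_cast Finset.card_pos.2 σ.ne

theorem bar_mem {σ : Sd P} {p : P} (h : p ∈ σ.c) : bar σ p = 1 / (σ.c.card : ℝ) := by
  unfold bar
  rw [if_pos h]

theorem bar_notMem {σ : Sd P} {p : P} (h : p ∉ σ.c) : bar σ p = 0 := by
  unfold bar
  rw [if_neg h]

theorem bar_nonneg (σ : Sd P) (p : P) : 0 ≤ bar σ p := by
  by_cases h : p ∈ σ.c
  · rw [bar_mem h]
    have := card_pos σ
    positivity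
  · rw [bar_notMem h]

theorem bar_sum [Fintype P] (σ : Sd P) : ∑ p, bar σ p = 1 := by
  classical
  have h1 : ∑ p, bar σ p = ∑ p ∈ σ.c, bar σ p := by
    symm
    apply Finset.sum_subset (Finset.subset_univ _)
    intro p _ hp
    exact bar_notMem hp
  rw [h1, Finset.sum_congr rfl (fun p hp => bar_mem hp), Finset.sum_const, nsmul_eq_mul,
    mul_one_div, div_self (card_pos σ).ne']

theorem bar_supp (σ : Sd P) (p : P) : bar σ p ≠ 0 ↔ p ∈ σ.c := by
  constructor
  · intro h
    by_contra h'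
    exact h (bar_notMem h')
  · intro h
    rw [bar_mem h]
    have := card_pos σ
    positivity

/-- Decomposition of weight functions with chain support. -/
theorem decomp [Fintype P] (τ : Finset P) : ∀ (w : P → ℝ), (∀ p, 0 ≤ w p) →
    (∀ p, w p ≠ 0 ↔ p ∈ τ) → (∀ a ∈ τ, ∀ b ∈ τ, a ≤ b ∨ b ≤ a) →
    ∃ y : Sd P → ℝ, (∀ σ, 0 ≤ y σ) ∧ (∀ σ, y σ ≠ 0 → σ.c ⊆ τ) ∧
      (∀ σ σ', y σ ≠ 0 → y σ' ≠ 0 → σ ≤ σ' ∨ σ' ≤ σ) ∧ ∑ σ, y σ = ∑ p, w p ∧
      ∀ p, ∑ σ, y σ * bar σ p = w p := by
  classical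
  induction τ using Finset.strongInduction with
  | H τ ih =>
    intro w hw hs hc
    by_cases hτ : τ.Nonempty
    · obtain ⟨p0, hp0, hmin⟩ := τ.exists_min_image w hτ
      have hm : 0 < w p0 := lt_of_le_of_ne (hw p0) (Ne.symm ((hs p0).2 hp0))
      have hss : τ.filter (fun p => w p0 < w p) ⊂ τ := by
        refine (Finset.filter_subset _ _).ssubset_of_ne ?_
        intro e
        have : p0 ∈ τ.filter (fun p => w p0 < w p) := by
          rw [e]
          exact hp0
        exact lt_irrefl _ (Finset.mem_filter.1 this).2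
      obtain ⟨y, h1, h2, h3, h4, h5⟩ := ih _ hss
        (fun p => w p - if p ∈ τ then w p0 else 0) (by
          intro p
          show 0 ≤ w p - if p ∈ τ then w p0 else 0
          split_ifs with h
          · exact sub_nonneg.2 (hmin p h)
          · rw [sub_zero]
            exact hw p) (by
          intro p
          show w p - (if p ∈ τ then w p0 else 0) ≠ 0 ↔ _
          rw [Finset.mem_filter]
          split_ifs with h
          · constructor
            · intro h'
              exact ⟨h, lt_of_le_of_ne (hmin p h) (fun e => h' (by rw [e, sub_self]))⟩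
            · rintro ⟨-, h'⟩
              exact (sub_pos.2 h').ne'
          · rw [sub_zero]
            constructor
            · intro h'
              exact absurd ((hs p).1 h') h
            · rintro ⟨h', -⟩
              exact absurd h' h)
        (fun a ha b hb => hc a (hss.1 ha) b (hss.1 hb))
      have hcard : (0 : ℝ) < (τ.card : ℝ) := by exact_mod_cast Finset.card_pos.2 hτ
      let σ₀ : Sd P := ⟨τ, hτ, hc⟩
      have hle : ∀ σ : Sd P, y σ ≠ 0 → σ ≤ σ₀ := fun σ hσ => (h2 σ hσ).trans hss.1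
      have hy : ∀ σ : Sd P, y σ + (if σ = σ₀ then w p0 * (τ.card : ℝ) else 0) ≠ 0 →
          σ ≤ σ₀ := by
        intro σ hσ
        by_cases e : σ = σ₀
        · exact e.le
        · rw [if_neg e, add_zero] at hσ
          exact hle σ hσ
      refine ⟨fun σ => y σ + (if σ = σ₀ then w p0 * (τ.card : ℝ) else 0), ?_, ?_, ?_, ?_, ?_⟩
      · intro σ
        show 0 ≤ y σ + (if σ = σ₀ then w p0 * (τ.card : ℝ) else 0)
        refine add_nonneg (h1 σ) ?_
        split_ifs
        · positivity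
        · exact le_rfl
      · intro σ hσ
        exact hy σ hσ
      · intro σ σ' hσ hσ'
        by_cases e : σ = σ₀
        · subst e
          exact Or.inr (hy σ' hσ')
        · by_cases e' : σ' = σ₀
          · subst e'
            exact Or.inl (hy σ hσ)
          · have k : y σ ≠ 0 := by
              have k : y σ + (if σ = σ₀ then w p0 * (τ.card : ℝ) else 0) ≠ 0 := hσ
              rw [if_neg e, add_zero] at k
              exact k
            have k' : y σ' ≠ 0 := by
              have k : y σ' + (if σ' = σ₀ then w p0 * (τ.card : ℝ) else 0) ≠ 0 := hσ'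
              rw [if_neg e', add_zero] at k
              exact k
            exact h3 σ σ' k k'
      · rw [Finset.sum_add_distrib, h4, Finset.sum_sub_distrib, Finset.sum_ite_eq',
          if_pos (Finset.mem_univ _), ← Finset.sum_filter, Finset.sum_const, nsmul_eq_mul]
        have e : Finset.univ.filter (fun p => p ∈ τ) = τ := by
          ext p
          simp
        rw [e]
        ring
      · intro p
        have e : ∀ σ : Sd P, (y σ + (if σ = σ₀ then w p0 * (τ.card : ℝ) else 0)) * bar σ p =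
            y σ * bar σ p + (if σ = σ₀ then w p0 * (τ.card : ℝ) * bar σ p else 0) := by
          intro σ
          rw [add_mul, ite_mul, zero_mul]
        rw [Finset.sum_congr rfl (fun σ _ => e σ), Finset.sum_add_distrib, h5,
          Finset.sum_ite_eq', if_pos (Finset.mem_univ _)]
        by_cases hp : p ∈ τ
        · have e2 : bar σ₀ p = 1 / (τ.card : ℝ) := bar_mem (σ := σ₀) hp
          rw [if_pos hp, e2]
          field_simp
          ring
        · have e2 : bar σ₀ p = 0 := bar_notMem (σ := σ₀) hp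
          rw [if_neg hp, e2]
          ring
    · have h0 : ∀ p, w p = 0 := by
        intro p
        by_contra h
        exact hτ ⟨p, (hs p).1 h⟩
      refine ⟨fun _ => 0, fun _ => le_rfl, fun _ h => absurd rfl h, fun _ _ h => absurd rfl h,
        ?_, ?_⟩
      · simp [h0]
      · intro p
        simp [h0]

end GSD

theorem GSD : Stmt_GSD := by
  classical
  intro P _ _
  refine ⟨{ c := OrderHom.id
            geo := GSD.bar
            geo_nonneg := GSD.bar_nonneg
            geo_sum := GSD.bar_sum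
            geo_supp := fun σ p => GSD.bar_supp σ p
            surj := ?_ }, rfl, fun σ p hp => GSD.bar_mem hp⟩
  rintro w ⟨hw1, -, hw3, hw4⟩
  obtain ⟨y, h1, -, h3, h4, h5⟩ := GSD.decomp (Finset.univ.filter (fun p => w p ≠ 0)) w hw1
    (fun p => by simp) (fun a ha b hb => hw4 a b (Finset.mem_filter.1 ha).2
      (Finset.mem_filter.1 hb).2)
  refine ⟨y, ⟨h1, fun a ha => absurd (Finset.mem_univ a) ha, ?_, h3⟩, ?_⟩
  · rw [h4]
    exact hw3
  · funext p
    exact h5 p

end Pool.Agent.SH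

end

end

section

noncomputable section

namespace Pool.Agent.SH

open CategoryTheory Simplicial MonoidalCategory Limits Opposite

namespace BRIDGE

theorem nmap_comp {P Q R : Type} [PartialOrder P] [PartialOrder Q] [PartialOrder R]
    (g : Q →o R) (f : P →o Q) : NMap (g.comp f) = NMap f ≫ NMap g := rfl

theorem nmap_id {P : Type} [PartialOrder P] : NMap (OrderHom.id : P →o P) = 𝟙 (NP P) := rfl

def postH {X Y Z : SSet.{0}} {f g : X ⟶ Y} (H : SSet.Homotopy f g) (e : Y ⟶ Z) :
    SSet.Homotopy (f ≫ e) (g ≫ e) where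
  h := H.h ≫ e
  h₀ := by
    rw [← Category.assoc, SSet.Homotopy.h₀]
    rfl
  h₁ := by
    rw [← Category.assoc, SSet.Homotopy.h₁]
    rfl
  rel := by
    ext n ⟨⟨_, h⟩, _⟩
    exact absurd h (fun h => h)

theorem null_of_le (h1 : Stmt_LTG) (h2 : Stmt_LTL) {T : SSet.{0}} [SSet.KanComplex T] {Q : Type}
    [PartialOrder Q] (e : NP Q ⟶ T) {P : Type} [PartialOrder P] (g g' : P →o Q)
    (h : g ≤ g' ∨ g' ≤ g) (hn : Null (NMap g' ≫ e)) : Null (NMap g ≫ e) := by
  have hK : SSet.KanComplex T := inferInstance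
  rcases h with h | h
  · obtain ⟨H, -⟩ := h1 P Q g g' h
    refine h2 _ T (NMap g' ≫ e) (NMap g ≫ e) hK (Or.inr ⟨?_⟩) hn
    exact postH H e
  · obtain ⟨H, -⟩ := h1 P Q g' g h
    refine h2 _ T (NMap g' ≫ e) (NMap g ≫ e) hK (Or.inl ⟨?_⟩) hn
    exact postH H e

end BRIDGE

theorem BRIDGE (h1 : Stmt_LTG) (h2 : Stmt_LTL) (h3 : Stmt_LTM) (h4 : Stmt_LTN) (h5 : Stmt_LTO)
    (h6 : Stmt_LTP) (h7 : Stmt_LTQ) : Stmt_BRIDGE := by
  intro M L _ T e hK hC hA he
  refine ⟨⟨fun P _ g => ¬ Null (NMap g ≫ e), ?_, ?_, ?_, ?_, ?_⟩⟩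
  · rw [BRIDGE.nmap_id, Category.id_comp]
    exact he
  · intro P _ _ g g' hgg' hg hg'
    exact hg (BRIDGE.null_of_le h1 h2 e g g' hgg' hg')
  · intro P _ _ g hg hn
    rw [BRIDGE.nmap_comp, Category.assoc] at hn
    exact hg (h3 T (Sd P) P (topHom P) (NMap g ≫ e) hK (fun p => h4 T P p hK) hn)
  · intro P _ _ g F hF hgF hn
    exact hn (h7 T M e P g F hK hF hgF)
  · intro P _ _ g D f Λ₀ hD hf hg
    by_contra hcon
    push Not at hcon
    apply hg
    have h8 : ∀ Λ : Finset L, Λ₀ ⊆ Λ → Null (NMap (StepF.pr D f Λ) ≫ NMap g ≫ e) := by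
      intro Λ hΛ
      have := hcon Λ hΛ
      rw [BRIDGE.nmap_comp, Category.assoc] at this
      exact this
    have h9 := h6 T P L D f (NMap g ≫ e) Λ₀ hK hC h8
    exact h3 T (StepP D f) P (StepP.pr D f) (NMap g ≫ e) hK
      (fun p => h5 T P L D f p hK hA hD hf) h9

end Pool.Agent.SH

end

end

section

/-!
# MP_2d0b73_an, PART II: composition of `LT` maps
-/

noncomputable section

namespace Pool.Agent.SH

open CategoryTheory Simplicial MonoidalCategory Limits Opposite

theorem LTA : Stmt_LTA := by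
  intro T A B C i j hi hj
  have := hi.1
  have := hj.1
  refine ⟨mono_comp i j, ?_⟩
  intro n u v huv
  obtain ⟨w1, h1, h2⟩ := hi.2 n (j ▷ (∂Δ[n] : SSet.{0}) ≫ u) v (by
    rw [← MonoidalCategory.comp_whiskerRight_assoc, huv])
  obtain ⟨w, h3, h4⟩ := hj.2 n u w1 h1.symm
  refine ⟨w, h3, ?_⟩
  rw [MonoidalCategory.comp_whiskerRight, Category.assoc, h4, h2]

end Pool.Agent.SH

end

end

section

/-!
# MP_2d0b73_an, PART II: extension along arbitrary monomorphisms in the parameter
-/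

noncomputable section

namespace Pool.Agent.SH

open CategoryTheory Simplicial MonoidalCategory Limits Opposite

namespace LTB

/-- Lifting against the restriction map `T^B ⟶ T^A` in curried form. -/
theorem lift_iff {T A B Z₀ Z : SSet.{0}} (i : A ⟶ B) (j : Z₀ ⟶ Z) :
    HasLiftingProperty j ((MonoidalClosed.pre i).app T) ↔
      ∀ (u : B ⊗ Z₀ ⟶ T) (v : A ⊗ Z ⟶ T), i ▷ Z₀ ≫ u = A ◁ j ≫ v →
        ∃ w : B ⊗ Z ⟶ T, B ◁ j ≫ w = u ∧ i ▷ Z ≫ w = v := by
  constructor
  · intro h u v huv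
    have sq : CommSq (MonoidalClosed.curry u) j ((MonoidalClosed.pre i).app T)
        (MonoidalClosed.curry v) := by
      constructor
      rw [MonoidalClosed.curry_pre_app, huv, MonoidalClosed.curry_natural_left]
    refine ⟨MonoidalClosed.uncurry sq.lift, ?_, ?_⟩
    · rw [← MonoidalClosed.uncurry_natural_left, sq.fac_left, MonoidalClosed.uncurry_curry]
    · apply MonoidalClosed.curry_injective
      rw [← MonoidalClosed.curry_pre_app, MonoidalClosed.curry_uncurry, sq.fac_right]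
  · intro h
    constructor
    intro f g sq
    obtain ⟨w, h1, h2⟩ := h (MonoidalClosed.uncurry f) (MonoidalClosed.uncurry g) (by
      apply MonoidalClosed.curry_injective
      rw [← MonoidalClosed.curry_pre_app, MonoidalClosed.curry_uncurry,
        MonoidalClosed.curry_natural_left, MonoidalClosed.curry_uncurry, sq.w])
    refine ⟨⟨{ l := MonoidalClosed.curry w, fac_left := ?_, fac_right := ?_ }⟩⟩
    · rw [← MonoidalClosed.curry_natural_left, h1, MonoidalClosed.curry_uncurry]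
    · rw [MonoidalClosed.curry_pre_app, h2, MonoidalClosed.curry_uncurry]

end LTB

theorem LTB : Stmt_LTB := by
  intro T A B i hi Z₀ Z j hj
  rw [← LTB.lift_iff]
  have h : (MorphismProperty.monomorphisms SSet.{0}).rlp ((MonoidalClosed.pre i).app T) := by
    rw [SSet.rlp_monomorphisms]
    rintro _ _ _ ⟨n⟩
    rw [LTB.lift_iff]
    exact hi.2 n
  exact h j hj

end Pool.Agent.SH

end

end

section

/-!
# SH_LTD: union of two subcomplexes
-/

noncomputable section

namespace Pool.Agent.SH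

open CategoryTheory Simplicial MonoidalCategory Limits Opposite

namespace LTD

theorem bicart {X : SSet.{0}} (U V : X.Subcomplex) :
    SSet.Subcomplex.BicartSq (U ⊓ V) U V (U ⊔ V) where
  sup_eq := rfl
  inf_eq := rfl

theorem push {X : SSet.{0}} (U V : X.Subcomplex) (K : SSet.{0}) :
    IsPushout (SSet.Subcomplex.homOfLE (inf_le_left : U ⊓ V ≤ U) ▷ K)
      (SSet.Subcomplex.homOfLE (inf_le_right : U ⊓ V ≤ V) ▷ K)
      (SSet.Subcomplex.homOfLE (le_sup_left : U ≤ U ⊔ V) ▷ K)
      (SSet.Subcomplex.homOfLE (le_sup_right : V ≤ U ⊔ V) ▷ K) :=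
  (bicart U V).isPushout.map (tensorRight K)

end LTD

theorem LTD : Stmt_LTD := by
  rintro T X U V ⟨h, hm, hV⟩
  refine ⟨le_sup_left, inferInstance, ?_⟩
  intro n u v huv
  have hu' := hV n (SSet.Subcomplex.homOfLE (le_sup_right : V ≤ U ⊔ V) ▷ (∂Δ[n] : SSet.{0}) ≫ u)
    (SSet.Subcomplex.homOfLE (inf_le_left : U ⊓ V ≤ U) ▷ Δ[n] ≫ v) (by
      rw [whisker_exchange_assoc, ← huv, ← comp_whiskerRight_assoc, ← comp_whiskerRight_assoc]
      rfl)
  obtain ⟨w1, hw1, hw2⟩ := hu'
  have hp := LTD.push U V (Δ[n] : SSet.{0})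
  have hp' := LTD.push U V (∂Δ[n] : SSet.{0})
  refine ⟨hp.desc v w1 (by rw [hw2]), ?_, hp.inl_desc _ _ _⟩
  apply hp'.hom_ext
  · rw [← whisker_exchange_assoc, hp.inl_desc, huv]
  · rw [← whisker_exchange_assoc, hp.inr_desc, hw1]

end Pool.Agent.SH

end

end

section

/-!
# MP_2d0b73_an, PART II: strong deformation retracts are anodyne extensions
-/

noncomputable section

namespace Pool.Agent.SH

open CategoryTheory Simplicial MonoidalCategory Limits Opposite

namespace LTF

open CartesianMonoidalCategory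

theorem const_eq (k : Fin 2) {m : ℕ} (s : (Δ[1] : SSet.{0}) _⦋m⦌)
    (hs : s ∈ (Λ[1, k] : (Δ[1] : SSet.{0}).Subcomplex).obj (op ⦋m⦌)) (t : Fin (m + 1)) :
    s t = k := by
  rw [SSet.mem_horn_iff_notMem_range] at hs
  obtain ⟨j, hj, h⟩ := hs
  have h1 : s t ≠ j := fun e => h ⟨t, e⟩
  have h2 : ∀ a b c : Fin 2, b ≠ c → a ≠ b → a = c := by decide
  exact h2 _ j k hj h1

theorem key0 (X : SSet.{0}) : X ◁ (Λ[1, 0] : (Δ[1] : SSet.{0}).Subcomplex).ι =
    fst X _ ≫ SSet.ι₀ := by
  ext ⟨m⟩ x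
  · rfl
  · induction m using SimplexCategory.rec with | _ m
    apply SSet.stdSimplex.ext
    intro t
    exact (const_eq 0 x.2.1 x.2.2 t).trans (SSet.ι₀_app_snd_apply x.1 t).symm

theorem key1 (X : SSet.{0}) : X ◁ (Λ[1, 1] : (Δ[1] : SSet.{0}).Subcomplex).ι =
    fst X _ ≫ SSet.ι₁ := by
  ext ⟨m⟩ x
  · rfl
  · induction m using SimplexCategory.rec with | _ m
    apply SSet.stdSimplex.ext
    intro t
    exact (const_eq 1 x.2.1 x.2.2 t).trans (SSet.ι₁_app_snd_apply x.1 t).symm

theorem main (k : Fin 2) (e e' : ∀ X : SSet.{0}, X ⟶ X ⊗ Δ[1])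
    (h' : ∀ X, e' X ≫ fst X _ = 𝟙 X)
    (nat' : ∀ (X Y : SSet.{0}) (f : X ⟶ Y), e' X ≫ f ▷ Δ[1] = f ≫ e' Y)
    (key : ∀ X : SSet.{0}, X ◁ (Λ[1, k] : (Δ[1] : SSet.{0}).Subcomplex).ι = fst X _ ≫ e X)
    {A B : SSet.{0}} (i : A ⟶ B) (r : B ⟶ A) (hir : i ≫ r = 𝟙 A) (H : B ⊗ Δ[1] ⟶ B)
    (hH : e B ≫ H = r ≫ i) (hH' : e' B ≫ H = 𝟙 B)
    (hc : i ▷ Δ[1] ≫ H = fst A Δ[1] ≫ i) : SSet.anodyneExtensions i := by
  intro E S p hp
  constructor
  intro a b sq
  have hi : Mono i := mono_of_mono_fac hir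
  let sq12 := Functor.PushoutObjObj.ofHasPushout (curriedTensor SSet.{0}) i
    (Λ[1, k] : (Δ[1] : SSet.{0}).Subcomplex).ι
  have han := SSet.anodyneExtensions_pushoutObjObjι sq12 (SSet.anodyneExtensions.horn_ι k)
  let t : sq12.pt ⟶ E := sq12.isPushout.desc (fst B _ ≫ r ≫ a) (fst A _ ≫ a) (by
    change i ▷ _ ≫ fst B _ ≫ r ≫ a = A ◁ _ ≫ fst A _ ≫ a
    rw [whiskerRight_fst_assoc, reassoc_of% hir, whiskerLeft_fst_assoc])
  have e1 : sq12.inl ≫ t = fst B _ ≫ r ≫ a := sq12.isPushout.inl_desc _ _ _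
  have e2 : sq12.inr ≫ t = fst A _ ≫ a := sq12.isPushout.inr_desc _ _ _
  have sq' : CommSq t sq12.ι p (H ≫ b) := by
    constructor
    apply sq12.isPushout.hom_ext
    · refine Eq.trans ?_ (sq12.inl_ι_assoc (H ≫ b)).symm
      change _ = B ◁ (Λ[1, k] : (Δ[1] : SSet.{0}).Subcomplex).ι ≫ H ≫ b
      rw [reassoc_of% e1, key, Category.assoc, sq.w, reassoc_of% hH]
    · refine Eq.trans ?_ (sq12.inr_ι_assoc (H ≫ b)).symm
      change _ = i ▷ Δ[1] ≫ H ≫ b
      rw [reassoc_of% e2, reassoc_of% hc, sq.w]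
  have hl : HasLiftingProperty sq12.ι p := han p hp
  refine ⟨⟨{ l := e' B ≫ sq'.lift, fac_left := ?_, fac_right := ?_ }⟩⟩
  · have e3 : i ▷ Δ[1] ≫ sq'.lift = fst A _ ≫ a := by
      refine (sq12.inr_ι_assoc sq'.lift).symm.trans (Eq.trans ?_ e2)
      rw [sq'.fac_left]
    rw [← Category.assoc, ← nat', Category.assoc, e3, reassoc_of% h']
  · rw [Category.assoc, sq'.fac_right, reassoc_of% hH']

end LTF

theorem LTF : Stmt_LTF := by
  intro A B i r hir h
  rcases h with ⟨H, hH⟩ | ⟨H, hH⟩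
  · exact LTF.main 0 (fun _ => SSet.ι₀) (fun _ => SSet.ι₁) (fun X => SSet.ι₁_fst X)
      (fun _ _ f => SSet.ι₁_comp f) LTF.key0 i r hir H.h H.h₀ H.h₁ hH
  · exact LTF.main 1 (fun _ => SSet.ι₁) (fun _ => SSet.ι₀) (fun X => SSet.ι₀_fst X)
      (fun _ _ f => SSet.ι₀_comp f) LTF.key1 i r hir H.h H.h₁ H.h₀ hH

end Pool.Agent.SH

end

end

section

/-!
# SH_LTJ: adding one element on top of an acyclic part
-/

noncomputable section

namespace Pool.Agent.SH

open CategoryTheory Simplicial MonoidalCategory Limits Opposite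

namespace LTJ

variable {R : Type} [PartialOrder R]

theorem mem_subN (U : Set R) (n : SimplexCategoryᵒᵖ) (x : (NP R).obj n) :
    x ∈ (subN U).obj n ↔ ∀ i, x.obj i ∈ U := Iff.rfl

theorem subN_mono {U V : Set R} (h : U ⊆ V) : subN U ≤ subN V :=
  fun _ _ hx i => h (hx i)

theorem inf_eq (U : Set R) (p : R) (hp : p ∉ U) :
    subN U ⊓ subN (insert p {u | u ∈ U ∧ u < p}) = subN {u | u ∈ U ∧ u < p} := by
  apply le_antisymm
  · rintro n x ⟨h1, h2⟩ i
    have a1 : x.obj i ∈ U := h1 i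
    have a2 : x.obj i ∈ insert p {u | u ∈ U ∧ u < p} := h2 i
    rcases a2 with h | h
    · exact absurd (h ▸ a1) hp
    · exact h
  · refine le_inf (subN_mono fun x hx => hx.1) (subN_mono fun x hx => Set.mem_insert_of_mem _ hx)

theorem sup_eq (U : Set R) (p : R) (hU : ∀ u ∈ U, ¬ p ≤ u) :
    subN U ⊔ subN (insert p {u | u ∈ U ∧ u < p}) = subN (insert p U) := by
  apply le_antisymm
  · refine sup_le (subN_mono (Set.subset_insert _ _)) (subN_mono ?_)
    rintro x (hx | hx)
    · exact Or.inl hx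
    · exact Or.inr hx.1
  · intro n x hx
    have hx' : ∀ i, x.obj i ∈ insert p U := hx
    by_cases h : ∃ k, x.obj k = p
    · right
      obtain ⟨k, hk⟩ := h
      intro i
      have key : x.obj i = p ∨ (x.obj i ∈ U ∧ x.obj i < p) := by
        rcases hx' i with h | h
        · exact Or.inl h
        · right
          refine ⟨h, ?_⟩
          rcases le_total i k with hik | hik
          · have h3 : x.obj i ≤ x.obj k := x.monotone hik
            rw [hk] at h3
            refine lt_of_le_of_ne h3 ?_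
            intro he
            exact hU _ h (le_of_eq he.symm)
          · have h3 : x.obj k ≤ x.obj i := x.monotone hik
            rw [hk] at h3
            exact absurd h3 (hU _ h)
      exact key
    · left
      intro i
      rcases hx' i with h1 | h1
      · exact absurd ⟨i, h1⟩ h
      · exact h1

end LTJ

theorem LTJ (h1 : Stmt_LTC) (h2 : Stmt_LTD) (h3 : Stmt_LTI) : Stmt_LTJ := by
  intro T R _ U p hT hp hU hA
  obtain ⟨a, haW, hle, hLT⟩ := hA
  obtain ⟨hle2, hLT2⟩ := h3 T R (insert p {u | u ∈ U ∧ u < p}) p hT (Set.mem_insert _ _)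
    (by
      rintro x (hx | hx)
      · exact le_of_eq hx
      · exact hx.2.le) a (Set.mem_insert_of_mem _ haW)
  have hle3 : subN {u | u ∈ U ∧ u < p} ≤ subN (insert p {u | u ∈ U ∧ u < p}) :=
    LTJ.subN_mono (Set.subset_insert _ _)
  have hLT3 : LT T (SSet.Subcomplex.homOfLE hle3) :=
    h1 T _ _ _ (SSet.Subcomplex.homOfLE hle) (SSet.Subcomplex.homOfLE hle3) hT inferInstance hLT
      hLT2
  have hS : LTS T (subN {u | u ∈ U ∧ u < p}) (subN (insert p {u | u ∈ U ∧ u < p})) :=
    ⟨hle3, hLT3⟩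
  rw [← LTJ.inf_eq U p hp] at hS
  have h4 := h2 T _ _ _ hS
  rw [LTJ.sup_eq U p hU] at h4
  exact h4

end Pool.Agent.SH

end

end

section

/-!
# MP_2d0b73_an, PART II, module LTK (Quillen's Theorem A for finitely many elements)
-/

noncomputable section

namespace Pool.Agent.SH

open CategoryTheory Simplicial MonoidalCategory Limits Opposite

namespace LTK

theorem lts_refl (T : SSet.{0}) {X : SSet.{0}} (A : X.Subcomplex) : LTS T A A := by
  refine ⟨le_rfl, ?_⟩
  have h : SSet.Subcomplex.homOfLE (le_refl A) = 𝟙 (A : SSet.{0}) := rfl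
  rw [h]
  refine ⟨inferInstance, fun n u v huv => ⟨v, ?_, ?_⟩⟩
  · rw [MonoidalCategory.id_whiskerRight, Category.id_comp] at huv
    exact huv.symm
  · rw [MonoidalCategory.id_whiskerRight, Category.id_comp]

theorem lts_trans (h1 : Stmt_LTA) (T : SSet.{0}) {X : SSet.{0}} {A B C : X.Subcomplex}
    (h : LTS T A B) (h' : LTS T B C) : LTS T A C := by
  obtain ⟨hab, h⟩ := h
  obtain ⟨hbc, h'⟩ := h'
  exact ⟨hab.trans hbc, h1 T _ _ _ _ _ h h'⟩

theorem key (h1 : Stmt_LTA) (h2 : Stmt_LTJ) (T : SSet.{0}) (R : Type) [PartialOrder R]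
    (hT : SSet.KanComplex T) (n : ℕ) :
    ∀ (A U : Set R), U.Finite → U.ncard = n → (∀ a ∈ A, ∀ u ∈ U, ¬ u ≤ a) →
    (∀ u ∈ U, AcyS T {a | a ∈ A ∧ a < u}) → LTS T (subN A) (subN (A ∪ U)) := by
  induction n using Nat.strong_induction_on with
  | _ n ih =>
    intro A U hU hn hA hac
    rcases U.eq_empty_or_nonempty with rfl | hne
    · rw [Set.union_empty]
      exact lts_refl T _
    obtain ⟨b, hb⟩ := hU.exists_maximal hne
    have hbU : b ∈ U := hb.prop
    have hfin' : (U \ {b}).Finite := hU.subset Set.sdiff_subset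
    have hcard : (U \ {b}).ncard < n := by
      rw [← hn]
      exact Set.ncard_sdiff_singleton_lt_of_mem hbU hU
    have s1 : LTS T (subN A) (subN (A ∪ (U \ {b}))) :=
      ih _ hcard A (U \ {b}) hfin' rfl (fun a ha u hu => hA a ha u hu.1) (fun u hu => hac u hu.1)
    have hsub : {u | u ∈ U \ {b} ∧ u < b} ⊆ U \ {b} := fun u hu => hu.1
    have hcard2 : ({u | u ∈ U \ {b} ∧ u < b} : Set R).ncard < n :=
      lt_of_le_of_lt (Set.ncard_le_ncard hsub hfin') hcard
    have s2 : LTS T (subN {a | a ∈ A ∧ a < b})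
        (subN ({a | a ∈ A ∧ a < b} ∪ {u | u ∈ U \ {b} ∧ u < b})) := by
      refine ih _ hcard2 _ _ (hfin'.subset hsub) rfl ?_ ?_
      · intro a ha u hu
        exact hA a ha.1 u hu.1.1
      · intro u hu
        have he : {a | a ∈ ({a | a ∈ A ∧ a < b} : Set R) ∧ a < u} = {a | a ∈ A ∧ a < u} := by
          ext a
          constructor
          · rintro ⟨⟨h3, -⟩, h4⟩
            exact ⟨h3, h4⟩
          · rintro ⟨h3, h4⟩
            exact ⟨⟨h3, h4.trans hu.2⟩, h4⟩
        rw [he]
        exact hac u hu.1.1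
    have s3 : AcyS T {x | x ∈ A ∪ (U \ {b}) ∧ x < b} := by
      obtain ⟨a, ha, h3⟩ := hac b hbU
      have he : ({x | x ∈ A ∪ (U \ {b}) ∧ x < b} : Set R) =
          {a | a ∈ A ∧ a < b} ∪ {u | u ∈ U \ {b} ∧ u < b} := by
        ext x
        constructor
        · rintro ⟨h4 | h4, h5⟩
          · exact Or.inl ⟨h4, h5⟩
          · exact Or.inr ⟨h4, h5⟩
        · rintro (⟨h4, h5⟩ | ⟨h4, h5⟩)
          · exact ⟨Or.inl h4, h5⟩
          · exact ⟨Or.inr h4, h5⟩
      rw [he]
      exact ⟨a, Or.inl ha, lts_trans h1 T h3 s2⟩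
    have s4 : LTS T (subN (A ∪ (U \ {b}))) (subN (insert b (A ∪ (U \ {b})))) := by
      refine h2 T R _ b hT ?_ ?_ s3
      · rintro (h | h)
        · exact hA b h b hbU le_rfl
        · exact h.2 rfl
      · rintro u (h | h) hle
        · exact hA u h b hbU hle
        · exact h.2 (le_antisymm (hb.2 h.1 hle) hle)
    have he : insert b (A ∪ (U \ {b})) = A ∪ U := by
      ext x
      constructor
      · rintro (h | h | h)
        · rw [h]
          exact Or.inr hbU
        · exact Or.inl h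
        · exact Or.inr h.1
      · rintro (h | h)
        · exact Or.inr (Or.inl h)
        · by_cases hx : x = b
          · exact Or.inl hx
          · exact Or.inr (Or.inr ⟨h, hx⟩)
    rw [he] at s4
    exact lts_trans h1 T s1 s4

end LTK

/-- LTK: adding finitely many elements one after the other (Quillen's Theorem A). -/
theorem LTK (h1 : Stmt_LTA) (h2 : Stmt_LTJ) : Stmt_LTK := by
  intro T R _ A U hT hU hA hac
  exact LTK.key h1 h2 T R hT _ A U hU rfl hA hac

end Pool.Agent.SH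

end

end

section

/-!
# LTL: calculus of null homotopic maps into a Kan complex
-/

noncomputable section

namespace Pool.Agent.SH

open CategoryTheory Simplicial MonoidalCategory Limits Opposite CartesianMonoidalCategory

namespace LTL

theorem horn0 (K : SSet.{0}) [SSet.KanComplex K] (a b : (Δ[1] : SSet.{0}) ⟶ K)
    (h : (SSet.stdSimplex.δ 1 : (Δ[0] : SSet.{0}) ⟶ Δ[1]) ≫ a = SSet.stdSimplex.δ 1 ≫ b) :
    ∃ e : (Δ[1] : SSet.{0}) ⟶ K,
      (SSet.stdSimplex.δ 1 : (Δ[0] : SSet.{0}) ⟶ Δ[1]) ≫ e = SSet.stdSimplex.δ 0 ≫ a ∧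
      (SSet.stdSimplex.δ 0 : (Δ[0] : SSet.{0}) ⟶ Δ[1]) ≫ e = SSet.stdSimplex.δ 0 ≫ b := by
  let f : ∀ (j : Fin 3) (_ : j ≠ 0), (Δ[1] : SSet.{0}) ⟶ K := fun j _ => if j = 1 then b else a
  have hf : SSet.horn.IsCompatible f := by
    rw [SSet.horn.isCompatible_iff]
    intro j k hj hk hjk
    have h1 : j = 1 := by grind
    have h2 : k = 2 := by grind
    subst h1
    subst h2
    change SSet.stdSimplex.δ 1 ≫ b = SSet.stdSimplex.δ 1 ≫ a
    exact h.symm
  obtain ⟨φ, hφ⟩ := hf.exists_lift_of_kanComplex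
  have p1 : (SSet.stdSimplex.δ 1 : (Δ[1] : SSet.{0}) ⟶ Δ[2]) ≫ φ = b := hφ 1 (by decide)
  have p2 : (SSet.stdSimplex.δ 2 : (Δ[1] : SSet.{0}) ⟶ Δ[2]) ≫ φ = a := hφ 2 (by decide)
  refine ⟨SSet.stdSimplex.δ 0 ≫ φ, ?_, ?_⟩
  · rw [← p2, ← Category.assoc, ← Category.assoc]
    exact congrArg (· ≫ φ) (SSet.stdSimplex.δ_comp_δ (i := 0) (j := 1) (by decide)).symm
  · rw [← p1, ← Category.assoc, ← Category.assoc]
    exact congrArg (· ≫ φ) (SSet.stdSimplex.δ_comp_δ (i := 0) (j := 0) (by decide)).symm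

theorem horn1 (K : SSet.{0}) [SSet.KanComplex K] (a b : (Δ[1] : SSet.{0}) ⟶ K)
    (h : (SSet.stdSimplex.δ 0 : (Δ[0] : SSet.{0}) ⟶ Δ[1]) ≫ a = SSet.stdSimplex.δ 1 ≫ b) :
    ∃ e : (Δ[1] : SSet.{0}) ⟶ K,
      (SSet.stdSimplex.δ 1 : (Δ[0] : SSet.{0}) ⟶ Δ[1]) ≫ e = SSet.stdSimplex.δ 1 ≫ a ∧
      (SSet.stdSimplex.δ 0 : (Δ[0] : SSet.{0}) ⟶ Δ[1]) ≫ e = SSet.stdSimplex.δ 0 ≫ b := by
  let f : ∀ (j : Fin 3) (_ : j ≠ 1), (Δ[1] : SSet.{0}) ⟶ K := fun j _ => if j = 0 then b else a
  have hf : SSet.horn.IsCompatible f := by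
    rw [SSet.horn.isCompatible_iff]
    intro j k hj hk hjk
    have h1 : j = 0 := by grind
    have h2 : k = 2 := by grind
    subst h1
    subst h2
    change SSet.stdSimplex.δ 1 ≫ b = SSet.stdSimplex.δ 0 ≫ a
    exact h.symm
  obtain ⟨φ, hφ⟩ := hf.exists_lift_of_kanComplex
  have p0 : (SSet.stdSimplex.δ 0 : (Δ[1] : SSet.{0}) ⟶ Δ[2]) ≫ φ = b := hφ 0 (by decide)
  have p2 : (SSet.stdSimplex.δ 2 : (Δ[1] : SSet.{0}) ⟶ Δ[2]) ≫ φ = a := hφ 2 (by decide)
  refine ⟨SSet.stdSimplex.δ 1 ≫ φ, ?_, ?_⟩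
  · rw [← p2, ← Category.assoc, ← Category.assoc]
    exact congrArg (· ≫ φ) (SSet.stdSimplex.δ_comp_δ (i := 1) (j := 1) (by decide)).symm
  · rw [← p0, ← Category.assoc, ← Category.assoc]
    exact congrArg (· ≫ φ) (SSet.stdSimplex.δ_comp_δ (i := 0) (j := 0) (by decide))

variable {X T : SSet.{0}}

/-- A map as a vertex of the function complex. -/
def pt (f : X ⟶ T) : (Δ[0] : SSet.{0}) ⟶ (ihom X).obj T :=
  MonoidalClosed.curry (fst X Δ[0] ≫ f)

theorem w0 : X ◁ (SSet.stdSimplex.δ 1 : (Δ[0] : SSet.{0}) ⟶ Δ[1]) =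
    fst X Δ[0] ≫ SSet.ι₀ := by
  apply CartesianMonoidalCategory.hom_ext
  · rw [whiskerLeft_fst, Category.assoc, SSet.ι₀_fst, Category.comp_id]
  · rw [whiskerLeft_snd, Category.assoc, SSet.ι₀_snd, SSet.stdSimplex.δ_one_eq_const]
    rfl

theorem w1 : X ◁ (SSet.stdSimplex.δ 0 : (Δ[0] : SSet.{0}) ⟶ Δ[1]) =
    fst X Δ[0] ≫ SSet.ι₁ := by
  apply CartesianMonoidalCategory.hom_ext
  · rw [whiskerLeft_fst, Category.assoc, SSet.ι₁_fst, Category.comp_id]
  · rw [whiskerLeft_snd, Category.assoc, SSet.ι₁_snd, SSet.stdSimplex.δ_zero_eq_const]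
    rfl

theorem fst_cancel {f g : X ⟶ T} (h : fst X (Δ[0] : SSet.{0}) ≫ f = fst X Δ[0] ≫ g) : f = g := by
  have h1 : lift (𝟙 X) (SSet.const (SSet.stdSimplex.obj₀Equiv.symm 0)) ≫ fst X (Δ[0] : SSet.{0}) =
      𝟙 X := lift_fst _ _
  rw [← Category.id_comp f, ← Category.id_comp g, ← h1, Category.assoc, Category.assoc, h]

theorem src_iff (h : X ⊗ Δ[1] ⟶ T) (f : X ⟶ T) :
    (SSet.stdSimplex.δ 1 : (Δ[0] : SSet.{0}) ⟶ Δ[1]) ≫ MonoidalClosed.curry h = pt f ↔
      SSet.ι₀ ≫ h = f := by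
  rw [← MonoidalClosed.curry_natural_left, w0, pt]
  constructor
  · intro H
    have := MonoidalClosed.curry_injective H
    rw [Category.assoc] at this
    exact fst_cancel this
  · rintro rfl
    rw [Category.assoc]

theorem tgt_iff (h : X ⊗ Δ[1] ⟶ T) (f : X ⟶ T) :
    (SSet.stdSimplex.δ 0 : (Δ[0] : SSet.{0}) ⟶ Δ[1]) ≫ MonoidalClosed.curry h = pt f ↔
      SSet.ι₁ ≫ h = f := by
  rw [← MonoidalClosed.curry_natural_left, w1, pt]
  constructor
  · intro H
    have := MonoidalClosed.curry_injective H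
    rw [Category.assoc] at this
    exact fst_cancel this
  · rintro rfl
    rw [Category.assoc]

/-- A homotopy from a map on the cylinder. -/
def mkH {f g : X ⟶ T} (h : X ⊗ Δ[1] ⟶ T) (h0 : SSet.ι₀ ≫ h = f) (h1 : SSet.ι₁ ≫ h = g) :
    SSet.Homotopy f g where
  h := h
  h₀ := h0
  h₁ := h1
  rel := by
    ext m ⟨⟨x, hx⟩, y⟩
    exact hx.elim

end LTL

theorem LTL : Stmt_LTL := by
  intro X T f g hT hfg hf
  obtain ⟨t, ⟨Hc⟩⟩ := hf
  refine ⟨t, ?_⟩
  have c0 := (LTL.src_iff Hc.h f).2 Hc.h₀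
  have c1 := (LTL.tgt_iff Hc.h _).2 Hc.h₁
  have key : ∃ e : (Δ[1] : SSet.{0}) ⟶ (ihom X).obj T,
      (SSet.stdSimplex.δ 1 : (Δ[0] : SSet.{0}) ⟶ Δ[1]) ≫ e = LTL.pt g ∧
      (SSet.stdSimplex.δ 0 : (Δ[0] : SSet.{0}) ⟶ Δ[1]) ≫ e = LTL.pt (SSet.const t) := by
    rcases hfg with ⟨⟨H⟩⟩ | ⟨⟨H⟩⟩
    · have a0 := (LTL.src_iff H.h f).2 H.h₀
      have a1 := (LTL.tgt_iff H.h g).2 H.h₁
      obtain ⟨e, h1, h2⟩ := LTL.horn0 _ (MonoidalClosed.curry H.h) (MonoidalClosed.curry Hc.h)
        (a0.trans c0.symm)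
      exact ⟨e, h1.trans a1, h2.trans c1⟩
    · have a0 := (LTL.src_iff H.h g).2 H.h₀
      have a1 := (LTL.tgt_iff H.h f).2 H.h₁
      obtain ⟨e, h1, h2⟩ := LTL.horn1 _ (MonoidalClosed.curry H.h) (MonoidalClosed.curry Hc.h)
        (a1.trans c0.symm)
      exact ⟨e, h1.trans a0, h2.trans c1⟩
  obtain ⟨e, he0, he1⟩ := key
  obtain ⟨w, rfl⟩ : ∃ w : X ⊗ Δ[1] ⟶ T, MonoidalClosed.curry w = e :=
    ⟨MonoidalClosed.uncurry e, MonoidalClosed.curry_uncurry e⟩
  exact ⟨LTL.mkH w ((LTL.src_iff w g).1 he0) ((LTL.tgt_iff w _).1 he1)⟩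

end Pool.Agent.SH

end

end

section

/-!
# SH_LTM: null homotopies descend along maps with acyclic fibres (mapping cylinder)
-/

noncomputable section

namespace Pool.Agent.SH

namespace LTM

/-- The mapping cylinder. -/
inductive Cyl {P' P : Type} [PartialOrder P'] [PartialOrder P] (h : P' →o P) : Type
  | l : P' → Cyl h
  | r : P → Cyl h

variable {P' P : Type} [PartialOrder P'] [PartialOrder P] {h : P' →o P}

/-- The order of the mapping cylinder. -/
def le' : Cyl h → Cyl h → Prop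
  | .l a, .l b => a ≤ b
  | .l a, .r p => h a ≤ p
  | .r _, .l _ => False
  | .r p, .r q => p ≤ q

instance : PartialOrder (Cyl h) where
  le := le'
  le_refl x := by
    cases x with
    | l a => exact le_refl a
    | r p => exact le_refl p
  le_trans x y z hxy hyz := by
    cases x with
    | l a =>
      cases y with
      | l b =>
        cases z with
        | l c => exact le_trans (show a ≤ b from hxy) hyz
        | r q => exact le_trans (h.monotone (show a ≤ b from hxy)) hyz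
      | r p =>
        cases z with
        | l c => exact absurd hyz (fun h => h)
        | r q => exact le_trans (show h a ≤ p from hxy) hyz
    | r p =>
      cases y with
      | l b => exact absurd hxy (fun h => h)
      | r q =>
        cases z with
        | l c => exact absurd hyz (fun h => h)
        | r s => exact le_trans (show p ≤ q from hxy) hyz
  le_antisymm x y hxy hyx := by
    cases x with
    | l a =>
      cases y with
      | l b => exact congrArg Cyl.l (le_antisymm (show a ≤ b from hxy) hyx)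
      | r p => exact absurd hyx (fun h => h)
    | r p =>
      cases y with
      | l b => exact absurd hxy (fun h => h)
      | r q => exact congrArg Cyl.r (le_antisymm (show p ≤ q from hxy) hyx)

variable (h)

/-- The inclusion of the source. -/
def lE : P' ↪o Cyl h where
  toFun := Cyl.l
  inj' := fun a b hab => by cases hab; rfl
  map_rel_iff' := Iff.rfl

/-- The inclusion of the target. -/
def rO : P →o Cyl h where
  toFun := Cyl.r
  monotone' := fun _ _ hab => hab

/-- The retraction onto the target. -/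
def rho : Cyl h →o P where
  toFun x := Cyl.rec (motive := fun _ => P) (fun a => h a) (fun p => p) x
  monotone' := by
    intro x y hxy
    cases x with
    | l a =>
      cases y with
      | l b => exact h.monotone hxy
      | r p => exact hxy
    | r p =>
      cases y with
      | l b => exact absurd hxy (fun h => h)
      | r q => exact hxy

variable {h}

theorem not_r_le_l (p : P) (a : P') : ¬ (Cyl.r p : Cyl h) ≤ Cyl.l a := fun h => h

theorem l_le_r (p : P) (a : P') : (Cyl.l a : Cyl h) ≤ Cyl.r p ↔ h a ≤ p := Iff.rfl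

theorem union_eq : Set.range (Cyl.l : P' → Cyl h) ∪ Set.range (Cyl.r : P → Cyl h) = Set.univ := by
  ext x
  simp only [Set.mem_union, Set.mem_range, Set.mem_univ, iff_true]
  cases x with
  | l a => exact Or.inl ⟨a, rfl⟩
  | r p => exact Or.inr ⟨p, rfl⟩

theorem below_eq (p : P) :
    ({a | a ∈ Set.range (Cyl.l : P' → Cyl h) ∧ a < Cyl.r p} : Set (Cyl h)) =
      lE h '' {p' | h p' ≤ p} := by
  ext x
  simp only [Set.mem_ofPred_eq, Set.mem_image, Set.mem_range]
  constructor
  · rintro ⟨⟨a, rfl⟩, ha⟩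
    exact ⟨a, (l_le_r p a).1 ha.le, rfl⟩
  · rintro ⟨a, ha, rfl⟩
    refine ⟨⟨a, rfl⟩, lt_of_le_of_ne ((l_le_r p a).2 ha) ?_⟩
    intro he
    cases he

open CategoryTheory Simplicial MonoidalCategory Limits Opposite

theorem acyS_image (h3 : Stmt_LTY) {T : SSet.{0}} {R' R : Type} [PartialOrder R'] [PartialOrder R]
    (φ : R' ↪o R) {U : Set R'} (hU : AcyS T U) : AcyS T (φ '' U) := by
  obtain ⟨a, ha, h⟩ := hU
  refine ⟨φ a, ⟨a, ha, rfl⟩, ?_⟩
  have h1 := (h3 T R' R φ {a} U).1 h
  rwa [Set.image_singleton] at h1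

theorem lt_cyl (h2 : Stmt_LTK) (h3 : Stmt_LTY) (h4 : Stmt_LTZ) {T : SSet.{0}} [Finite P]
    (hT : SSet.KanComplex T) (hf : ∀ p, AcyS T ({p' | h p' ≤ p} : Set P')) :
    LT T (subN (Set.range (Cyl.l : P' → Cyl h))).ι := by
  rw [← (h4 T (Cyl h)).1, ← union_eq]
  apply h2 T (Cyl h) _ _ hT (Set.finite_range _)
  · rintro _ ⟨a, rfl⟩ _ ⟨p, rfl⟩
    exact not_r_le_l p a
  · rintro _ ⟨p, rfl⟩
    rw [below_eq]
    exact acyS_image h3 (lE h) (hf p)

/-! ### The identification of the nerve of the source -/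

/-- The map from the nerve of the source. -/
def fwd : NP P' ⟶ (subN (Set.range (Cyl.l : P' → Cyl h)) : SSet.{0}) :=
  SSet.Subcomplex.lift (NMap (lE h : P' →o Cyl h)) (by
    rw [← SSet.Subcomplex.preimage_eq_top_iff, eq_top_iff]
    intro m x _ i
    exact ⟨_, rfl⟩)

theorem fwd_ι : fwd ≫ (subN (Set.range (Cyl.l : P' → Cyl h))).ι = NMap (lE h : P' →o Cyl h) := rfl

instance isIso_fwd : IsIso (fwd (h := h)) := by
  rw [NatTrans.isIso_iff_isIso_app]
  intro m
  rw [isIso_iff_bijective]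
  constructor
  · intro x y hxy
    have h1 : (NMap (lE h : P' →o Cyl h)).app m x = (NMap (lE h : P' →o Cyl h)).app m y :=
      congrArg Subtype.val hxy
    refine nerve.ext_of_isThin (funext fun i => ?_)
    have h2 : lE h (x.obj i) = lE h (y.obj i) := congrArg (fun t => t.obj i) h1
    exact (lE h).injective h2
  · rintro ⟨x, hx⟩
    have hx' : ∀ i, ∃ z : P', lE h z = x.obj i := fun i => hx i
    choose y hy using hx'
    have hmono : Monotone y := by
      intro i j hij
      rw [← (lE h).le_iff_le, hy, hy]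
      exact leOfHom (x.map (homOfLE hij))
    exact ⟨hmono.functor, Subtype.ext (nerve.ext_of_isThin (funext fun i => hy i))⟩

/-! ### Gluing two maps on the boundary of the interval -/

theorem const_of_mem {m : SimplexCategoryᵒᵖ} (s : (Δ[1] : SSet.{0}).obj m)
    (hs : s ∈ (∂Δ[1] : (Δ[1] : SSet.{0}).Subcomplex).obj m) (k l : Fin (m.unop.len + 1)) :
    SSet.stdSimplex.asOrderHom s k = SSet.stdSimplex.asOrderHom s l := by
  by_contra hne
  apply hs
  intro b
  by_cases h1 : SSet.stdSimplex.asOrderHom s k = b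
  · exact ⟨k, h1⟩
  · refine ⟨l, ?_⟩
    by_contra h2
    have e1 := Fin.val_ne_of_ne h1
    have e2 := Fin.val_ne_of_ne h2
    have e3 := Fin.val_ne_of_ne hne
    have l1 := (SSet.stdSimplex.asOrderHom s k).isLt
    have l2 := (SSet.stdSimplex.asOrderHom s l).isLt
    have l3 := b.isLt
    omega

/-- The map which is `f` at the end `0` and `g` at the end `1`. -/
def glue {B T : SSet.{0}} (f g : B ⟶ T) : B ⊗ (∂Δ[1] : SSet.{0}) ⟶ T where
  app m := ↾fun p =>
    if SSet.stdSimplex.asOrderHom (p.2 : (Δ[1] : SSet.{0}).obj m) 0 = 0 then f.app m p.1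
    else g.app m p.1
  naturality m m' θ := by
    ext p
    have h1 : SSet.stdSimplex.asOrderHom (((B ⊗ (∂Δ[1] : SSet.{0})).map θ p).2 :
        (Δ[1] : SSet.{0}).obj m') 0 =
        SSet.stdSimplex.asOrderHom (p.2 : (Δ[1] : SSet.{0}).obj m) 0 :=
      const_of_mem (p.2 : (Δ[1] : SSet.{0}).obj m) p.2.2 _ _
    have h2 : ∀ f : B ⟶ T, f.app m' ((B.map θ) p.1) = T.map θ (f.app m p.1) := by
      intro f
      exact NatTrans.naturality_apply f θ p.1
    show (if SSet.stdSimplex.asOrderHom (((B ⊗ (∂Δ[1] : SSet.{0})).map θ p).2 :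
        (Δ[1] : SSet.{0}).obj m') 0 = 0 then f.app m' ((B.map θ) p.1)
      else g.app m' ((B.map θ) p.1)) = T.map θ (if SSet.stdSimplex.asOrderHom
        (p.2 : (Δ[1] : SSet.{0}).obj m) 0 = 0 then f.app m p.1 else g.app m p.1)
    rw [h1]
    by_cases h3 : SSet.stdSimplex.asOrderHom (p.2 : (Δ[1] : SSet.{0}).obj m) 0 = 0
    · rw [if_pos h3, if_pos h3, h2]
    · rw [if_neg h3, if_neg h3, h2]

theorem glue_app {B T : SSet.{0}} (f g : B ⟶ T) (m : SimplexCategoryᵒᵖ)
    (p : (B ⊗ (∂Δ[1] : SSet.{0})).obj m) : (glue f g).app m p =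
      if SSet.stdSimplex.asOrderHom (p.2 : (Δ[1] : SSet.{0}).obj m) 0 = 0 then f.app m p.1
      else g.app m p.1 := rfl

theorem asOrderHom_inj {m : SimplexCategoryᵒᵖ} {s s' : (Δ[1] : SSet.{0}).obj m}
    (hs : ∀ k, SSet.stdSimplex.asOrderHom s k = SSet.stdSimplex.asOrderHom s' k) : s = s' := by
  apply SSet.stdSimplex.objEquiv.injective
  apply SimplexCategory.Hom.ext
  apply OrderHom.ext
  funext k
  exact hs k

/-- A map from `B × Δ[1]` which is `f` at the end `0` and `g` at the end `1` restricts to the glued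
map on the boundary. -/
theorem restr_eq {B T : SSet.{0}} {f g : B ⟶ T} {H : B ⊗ Δ[1] ⟶ T} (h0 : SSet.ι₀ ≫ H = f)
    (h1 : SSet.ι₁ ≫ H = g) : B ◁ ∂Δ[1].ι ≫ H = glue f g := by
  ext m p
  show H.app m (p.1, (p.2 : (Δ[1] : SSet.{0}).obj m)) =
    if SSet.stdSimplex.asOrderHom (p.2 : (Δ[1] : SSet.{0}).obj m) 0 = 0 then f.app m p.1
      else g.app m p.1
  have hc := const_of_mem (p.2 : (Δ[1] : SSet.{0}).obj m) p.2.2
  by_cases h3 : SSet.stdSimplex.asOrderHom (p.2 : (Δ[1] : SSet.{0}).obj m) 0 = 0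
  · rw [if_pos h3, ← h0]
    show H.app m (p.1, (p.2 : (Δ[1] : SSet.{0}).obj m)) = H.app m (SSet.ι₀.app m p.1)
    congr 1
    refine Prod.ext rfl (asOrderHom_inj fun k => ?_)
    rw [hc k 0, h3]
    rfl
  · rw [if_neg h3, ← h1]
    show H.app m (p.1, (p.2 : (Δ[1] : SSet.{0}).obj m)) = H.app m (SSet.ι₁.app m p.1)
    congr 1
    refine Prod.ext rfl (asOrderHom_inj fun k => ?_)
    rw [hc k 0]
    have h4 : SSet.stdSimplex.asOrderHom (p.2 : (Δ[1] : SSet.{0}).obj m) 0 = 1 := by
      have := Fin.val_ne_of_ne h3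
      have l1 := (SSet.stdSimplex.asOrderHom (p.2 : (Δ[1] : SSet.{0}).obj m) 0).isLt
      apply Fin.ext
      show _ = 1
      have h5 : ((0 : Fin (1 + 1)) : ℕ) = 0 := rfl
      omega
    rw [h4]
    rfl

theorem glue_eq {B T : SSet.{0}} {f g : B ⟶ T} {H : B ⊗ Δ[1] ⟶ T}
    (hH : B ◁ ∂Δ[1].ι ≫ H = glue f g) (m : SimplexCategoryᵒᵖ) (b : B.obj m)
    (s : (Δ[1] : SSet.{0}).obj m) (hs : s ∈ (∂Δ[1] : (Δ[1] : SSet.{0}).Subcomplex).obj m) :
    H.app m (b, s) = if SSet.stdSimplex.asOrderHom s 0 = 0 then f.app m b else g.app m b := by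
  have h1 : (B ◁ ∂Δ[1].ι ≫ H).app m ((b, ⟨s, hs⟩) : (B ⊗ (∂Δ[1] : SSet.{0})).obj m) =
      (glue f g).app m ((b, ⟨s, hs⟩) : (B ⊗ (∂Δ[1] : SSet.{0})).obj m) := by rw [hH]
  exact h1

/-- The converse. -/
theorem ends {B T : SSet.{0}} {f g : B ⟶ T} {H : B ⊗ Δ[1] ⟶ T}
    (hH : B ◁ ∂Δ[1].ι ≫ H = glue f g) : SSet.ι₀ ≫ H = f ∧ SSet.ι₁ ≫ H = g := by
  constructor
  · ext m b
    have hm : (SSet.ι₀.app m b).2 ∈ (∂Δ[1] : (Δ[1] : SSet.{0}).Subcomplex).obj m := by
      intro hs
      obtain ⟨k, hk⟩ := hs 1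
      exact absurd hk (by
        show (0 : Fin 2) ≠ 1
        decide)
    exact (glue_eq hH m b _ hm).trans (if_pos rfl)
  · ext m b
    have hm : (SSet.ι₁.app m b).2 ∈ (∂Δ[1] : (Δ[1] : SSet.{0}).Subcomplex).obj m := by
      intro hs
      obtain ⟨k, hk⟩ := hs 0
      exact absurd hk (by
        show (1 : Fin 2) ≠ 0
        decide)
    exact (glue_eq hH m b _ hm).trans (if_neg (by
      show ¬ (1 : Fin 2) = 0
      decide))

end LTM

open CategoryTheory Simplicial MonoidalCategory Limits Opposite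

theorem LTM (h2 : Stmt_LTK) (h3 : Stmt_LTY) (h4 : Stmt_LTZ) : Stmt_LTM := by
  intro T P' P _ _ _ h g hT hf hN
  obtain ⟨t, ⟨H⟩⟩ := hN
  obtain ⟨_, hlt⟩ := LTM.lt_cyl h2 h3 h4 hT hf
  -- the homotopy on the source part
  let κ := inv (LTM.fwd (h := h))
  have hκ : (subN (Set.range (LTM.Cyl.l : P' → LTM.Cyl h))).ι ≫ NMap (LTM.rho h) =
      κ ≫ NMap h := by
    rw [IsIso.eq_inv_comp, ← Category.assoc, LTM.fwd_ι]
    rfl
  have e0 : SSet.ι₀ ≫ (κ ▷ Δ[1] ≫ H.h) = κ ≫ NMap h ≫ g := by
    rw [SSet.ι₀_comp_assoc, H.h₀]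
  have e1 : SSet.ι₁ ≫ (κ ▷ Δ[1] ≫ H.h) = SSet.const t := by
    rw [SSet.ι₁_comp_assoc, H.h₁, SSet.comp_const]
  obtain ⟨w, hw, -⟩ := hlt 1 (LTM.glue (NMap (LTM.rho h) ≫ g) (SSet.const t)) (κ ▷ Δ[1] ≫ H.h) (by
    rw [LTM.restr_eq e0 e1, ← Category.assoc, ← hκ]
    rfl)
  obtain ⟨w0, w1⟩ := LTM.ends hw
  refine ⟨t, ⟨?_⟩⟩
  exact
    { h := NMap (LTM.rO h) ▷ Δ[1] ≫ w
      h₀ := by
        rw [SSet.ι₀_comp_assoc, w0]
        rfl
      h₁ := by
        rw [SSet.ι₁_comp_assoc, w1]
        rfl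
      rel := by
        ext m p
        exact absurd p.1.2 (fun h => h) }

end Pool.Agent.SH

end

end

section

/-!
# MP_2d0b73_an, PART II, LTN: the fibres of the last vertex map are acyclic
-/

noncomputable section

namespace Pool.Agent.SH

open CategoryTheory Simplicial MonoidalCategory Limits Opposite

namespace LTN

theorem trans (h1 : Stmt_LTA) (T X : SSet.{0}) (A B C : X.Subcomplex) (h : LTS T A B)
    (h' : LTS T B C) : LTS T A C := by
  obtain ⟨h, hh⟩ := h
  obtain ⟨h', hh'⟩ := h'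
  refine ⟨h.trans h', ?_⟩
  have h3 := h1 T _ _ _ _ _ hh hh'
  exact h3

variable {P : Type} [PartialOrder P]

/-- The chain `{p}`. -/
def sg (p : P) : Sd P where
  c := {p}
  ne := ⟨p, Finset.mem_singleton_self p⟩
  chain := by
    intro a ha b hb
    rw [Finset.mem_singleton] at ha hb
    rw [ha, hb]
    exact Or.inl le_rfl

theorem sg_top (p : P) : (sg p).top = p := by
  have h := (sg p).top_mem
  exact Finset.mem_singleton.1 h

open Classical in
/-- Add `p` to the chain `s` if the top of `s` is at most `p`. -/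
def add (p : P) (s : Sd P) : Sd P :=
  if h : s.top ≤ p then
    { c := insert p s.c
      ne := ⟨p, Finset.mem_insert_self p _⟩
      chain := by
        intro a ha b hb
        rcases Finset.mem_insert.1 ha with ha | ha
        · rcases Finset.mem_insert.1 hb with hb | hb
          · rw [ha, hb]
            exact Or.inl le_rfl
          · rw [ha]
            exact Or.inr ((s.le_top hb).trans h)
        · rcases Finset.mem_insert.1 hb with hb | hb
          · rw [hb]
            exact Or.inl ((s.le_top ha).trans h)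
          · exact s.chain a ha b hb }
  else s

open Classical in
theorem add_c (p : P) (s : Sd P) (h : s.top ≤ p) : (add p s).c = insert p s.c := by
  unfold add
  rw [dif_pos h]

end LTN

theorem LTN (h1 : Stmt_LTA) (h2 : Stmt_LTH) : Stmt_LTN := by
  classical
  intro T P _ p hT
  have hsg : LTN.sg p ∈ ({s | s.top ≤ p} : Set (Sd P)) := (LTN.sg_top p).le
  refine ⟨LTN.sg p, hsg, ?_⟩
  refine LTN.trans h1 T _ _ (subN ({s | s.top ≤ p ∧ p ∈ s.c} : Set (Sd P))) _ ?_ ?_
  · refine h2 T (Sd P) _ _ (fun _ => LTN.sg p) hT ?_ ?_ ?_ ?_ (Or.inr ?_)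
    · intro s hs
      rw [Set.mem_singleton_iff] at hs
      rw [hs]
      exact ⟨hsg, Finset.mem_singleton_self p⟩
    · intro s _ t _ _
      exact le_rfl
    · intro s _
      exact Set.mem_singleton _
    · intro s hs
      exact (Set.mem_singleton_iff.1 hs).symm
    · intro s hs
      show ({p} : Finset P) ⊆ s.c
      exact Finset.singleton_subset_iff.2 hs.2
  · refine h2 T (Sd P) _ _ (LTN.add p) hT ?_ ?_ ?_ ?_ (Or.inl ?_)
    · exact fun s hs => hs.1
    · intro s hs t ht hst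
      have hs' : s.top ≤ p := hs
      have ht' : t.top ≤ p := ht
      have hst' : s.c ⊆ t.c := hst
      show (LTN.add p s).c ⊆ (LTN.add p t).c
      rw [LTN.add_c p s hs', LTN.add_c p t ht']
      exact Finset.insert_subset_insert p hst'
    · intro s hs
      have hs' : s.top ≤ p := hs
      have hp : p ∈ (LTN.add p s).c := by
        rw [LTN.add_c p s hs']
        exact Finset.mem_insert_self p _
      refine ⟨?_, hp⟩
      have h3 := (LTN.add p s).top_mem
      rw [LTN.add_c p s hs'] at h3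
      rcases Finset.mem_insert.1 h3 with h3 | h3
      · exact h3.le
      · exact (s.le_top h3).trans hs'
    · intro s hs
      refine Sd.ext' ?_
      rw [LTN.add_c p s hs.1]
      exact Finset.insert_eq_of_mem hs.2
    · intro s hs
      have hs' : s.top ≤ p := hs
      show s.c ⊆ (LTN.add p s).c
      rw [LTN.add_c p s hs']
      exact Finset.subset_insert p _

end Pool.Agent.SH

end

end

section

/-!
# LTO: the fibres of the step are acyclic (MP_2d0b73_an, PART II)
-/

noncomputable section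

namespace Pool.Agent.SH

open CategoryTheory Simplicial MonoidalCategory Limits Opposite

namespace LTO

/-- Transitivity of `LTS`. -/
theorem trans (h1 : Stmt_LTA) {T X : SSet.{0}} {A B C : X.Subcomplex} (hAB : LTS T A B)
    (hBC : LTS T B C) : LTS T A C := by
  obtain ⟨i, hi⟩ := hAB
  obtain ⟨j, hj⟩ := hBC
  exact ⟨i.trans j, h1 T _ _ _ _ _ hi hj⟩

/-- The elements of the step over `p`, if `p` is not in `D`. -/
def emb {P L : Type} [PartialOrder P] [PartialOrder L] (D : Set P) (f : P → L) (p : P)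
    (hp : p ∉ D) : L ↪o StepP D f where
  toFun l := ⟨(p, l), fun h => absurd h hp⟩
  inj' l l' h := congrArg (fun x : StepP D f => x.1.2) h
  map_rel_iff' := by
    intro l l'
    exact ⟨fun h => h.2, fun h => ⟨le_rfl, h⟩⟩

end LTO

theorem LTO (h1 : Stmt_LTA) (h2 : Stmt_LTH) (h3 : Stmt_LTI) (h4 : Stmt_LTY) (h5 : Stmt_LTZ) :
    Stmt_LTO := by
  intro T P L _ _ D f p hT hL hD hf
  by_cases hp : p ∈ D
  · obtain ⟨x₀, hx₀⟩ : ∃ x₀ : StepP D f, x₀ = ⟨(p, f p), fun _ => rfl⟩ := ⟨_, rfl⟩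
    have hx : x₀ ∈ ({x | StepP.pr D f x ≤ p} : Set (StepP D f)) := by
      rw [hx₀]
      exact le_rfl
    refine ⟨x₀, hx, h3 T (StepP D f) _ x₀ hT hx ?_ x₀ hx⟩
    intro x hxp
    have hxp' : x.1.1 ≤ p := hxp
    have hxD : x.1.1 ∈ D := hD hxp' hp
    have h6 : x.1.2 = f x.1.1 := x.2 hxD
    rw [hx₀]
    refine ⟨hxp', ?_⟩
    change x.1.2 ≤ f p
    rw [h6]
    exact hf hxD hp hxp'
  · obtain ⟨a, -, ha⟩ := (h5 T L).2 hL
    have h6 := (h4 T L (StepP D f) (LTO.emb D f p hp) {a} Set.univ).1 ha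
    rw [Set.image_singleton] at h6
    refine ⟨LTO.emb D f p hp a, le_refl p, LTO.trans h1 h6 ?_⟩
    refine h2 T (StepP D f) _ _ (fun x => LTO.emb D f p hp x.1.2) hT ?_ ?_ ?_ ?_ (Or.inl ?_)
    · rintro _ ⟨l, -, rfl⟩
      exact le_refl p
    · intro x _ y _ hxy
      exact (LTO.emb D f p hp).monotone hxy.2
    · intro x _
      exact ⟨x.1.2, Set.mem_univ _, rfl⟩
    · rintro _ ⟨l, -, rfl⟩
      rfl
    · intro x hx
      exact ⟨hx, le_rfl⟩

end Pool.Agent.SH

end

end

section

/-!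
# MP_2d0b73_an, PART II, module LTP: compactness for the step
-/

noncomputable section

set_option autoImplicit false

namespace Pool.Agent.SH

open CategoryTheory Simplicial MonoidalCategory Limits Opposite

namespace LTP

/-- The values of a simplex of `Δ[1]`. -/
def ac {n : SimplexCategoryᵒᵖ} (α : (Δ[1] : SSet.{0}).obj n) (i : Fin (n.unop.len + 1)) : Fin 2 :=
  (SSet.stdSimplex.objEquiv α).toOrderHom i

theorem ac_map {n m : SimplexCategoryᵒᵖ} (θ : n ⟶ m) (α : (Δ[1] : SSet.{0}).obj n)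
    (i : Fin (m.unop.len + 1)) : ac ((Δ[1] : SSet.{0}).map θ α) i = ac α (θ.unop.toOrderHom i) := rfl

theorem ac_ext {n : SimplexCategoryᵒᵖ} {α β : (Δ[1] : SSet.{0}).obj n} (h : ∀ i, ac α i = ac β i) :
    α = β := by
  apply SSet.stdSimplex.objEquiv.injective
  exact SimplexCategory.Hom.ext _ _ (OrderHom.ext _ _ (funext h))

/-- The ends of the cylinder. -/
def cst (X : SSet.{0}) : (X ⊗ (Δ[1] : SSet.{0})).Subcomplex where
  obj n := {p | ∀ i, ac p.2 i = ac p.2 0}
  map {n m} θ p hp i := (hp (θ.unop.toOrderHom i)).trans (hp (θ.unop.toOrderHom 0)).symm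

variable {X T : SSet.{0}}

/-- `F` at the end `0`, `G` at the end `1`. -/
def um (F G : X ⟶ T) : (cst X : SSet.{0}) ⟶ T where
  app n := TypeCat.ofHom (fun p => if ac p.1.2 0 = 0 then F.app n p.1.1 else G.app n p.1.1)
  naturality n m θ := by
    refine ConcreteCategory.hom_ext _ _ fun p => ?_
    change (if ac ((Δ[1] : SSet.{0}).map θ p.1.2) 0 = 0 then F.app m (X.map θ p.1.1)
      else G.app m (X.map θ p.1.1)) = T.map θ (if ac p.1.2 0 = 0 then F.app n p.1.1
        else G.app n p.1.1)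
    rw [ac_map, p.2 (θ.unop.toOrderHom 0)]
    split_ifs
    · exact NatTrans.naturality_apply F θ p.1.1
    · exact NatTrans.naturality_apply G θ p.1.1

theorem um_zero (F G : X ⟶ T) {n : SimplexCategoryᵒᵖ} (p : (cst X : SSet.{0}).obj n)
    (h : ac p.1.2 0 = 0) : (um F G).app n p = F.app n p.1.1 := if_pos h

theorem um_one (F G : X ⟶ T) {n : SimplexCategoryᵒᵖ} (p : (cst X : SSet.{0}).obj n)
    (h : ac p.1.2 0 ≠ 0) : (um F G).app n p = G.app n p.1.1 := if_neg h

theorem hty_zero {F G : X ⟶ T} (H : SSet.Homotopy F G) {n : SimplexCategoryᵒᵖ} (x : X.obj n)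
    (α : (Δ[1] : SSet.{0}).obj n) (h : ∀ i, ac α i = 0) : H.h.app n (x, α) = F.app n x := by
  have h1 : (x, α) = (SSet.ι₀ : X ⟶ X ⊗ Δ[1]).app n x := by
    refine Prod.ext rfl ?_
    exact ac_ext h
  rw [h1]
  exact ConcreteCategory.congr_hom (NatTrans.congr_app H.h₀ n) x

theorem hty_one {F G : X ⟶ T} (H : SSet.Homotopy F G) {n : SimplexCategoryᵒᵖ} (x : X.obj n)
    (α : (Δ[1] : SSet.{0}).obj n) (h : ∀ i, ac α i = 1) : H.h.app n (x, α) = G.app n x := by
  have h1 : (x, α) = (SSet.ι₁ : X ⟶ X ⊗ Δ[1]).app n x := by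
    refine Prod.ext rfl ?_
    exact ac_ext h
  rw [h1]
  exact ConcreteCategory.congr_hom (NatTrans.congr_app H.h₁ n) x

theorem mk_hty {F G : X ⟶ T} (w : X ⊗ (Δ[1] : SSet.{0}) ⟶ T) (h : (cst X).ι ≫ w = um F G) :
    Nonempty (SSet.Homotopy F G) := by
  refine ⟨{ h := w, h₀ := ?_, h₁ := ?_, rel := ?_ }⟩
  · refine NatTrans.ext (funext fun n => ConcreteCategory.hom_ext _ _ fun x => ?_)
    have hp : (SSet.ι₀ : X ⟶ X ⊗ Δ[1]).app n x ∈ (cst X).obj n := fun i => rfl
    have h1 := ConcreteCategory.congr_hom (NatTrans.congr_app h n) ⟨_, hp⟩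
    exact h1.trans (um_zero F G ⟨_, hp⟩ rfl)
  · refine NatTrans.ext (funext fun n => ConcreteCategory.hom_ext _ _ fun x => ?_)
    have hp : (SSet.ι₁ : X ⟶ X ⊗ Δ[1]).app n x ∈ (cst X).obj n := fun i => rfl
    have h1 := ConcreteCategory.congr_hom (NatTrans.congr_app h n) ⟨_, hp⟩
    refine h1.trans (um_one F G ⟨_, hp⟩ ?_)
    intro h0
    exact absurd h0 (by decide : (1 : Fin 2) ≠ 0)
  · ext n x
    exact x.1.2.elim

/-- The lift of a simplex of the step all whose labels are in `Λ`. -/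
def lft {P L : Type} [PartialOrder P] [PartialOrder L] (D : Set P) (f : P → L) (Λ : Finset L)
    {k : ℕ} (x : ComposableArrows (StepP D f) k) (hx : ∀ i, (x.obj i).1.2 ∈ Λ) :
    ComposableArrows (StepF D f Λ) k :=
  Monotone.functor (f := fun i => (⟨(x.obj i).1, hx i, (x.obj i).2⟩ : StepF D f Λ))
    (fun _ _ h => leOfHom (x.map (homOfLE h)))

theorem lft_obj {P L : Type} [PartialOrder P] [PartialOrder L] (D : Set P) (f : P → L)
    (Λ : Finset L) {k : ℕ} (x : ComposableArrows (StepP D f) k) (hx : ∀ i, (x.obj i).1.2 ∈ Λ)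
    (i : Fin (k + 1)) : ((lft D f Λ x hx).obj i).1 = (x.obj i).1 := rfl

end LTP

open LTP in
theorem LTP (h1 : Stmt_LTR) : Stmt_LTP := by
  classical
  intro T P L _ _ _ D f g Λ₀ hK hC hN
  by_cases hne : Nonempty (StepP D f)
  swap
  · obtain ⟨t, _⟩ := hN Λ₀ (Finset.Subset.refl _)
    refine ⟨t, mk_hty ?_ ?_⟩
    · exact { app := fun n => TypeCat.ofHom (fun p =>
                (hne ⟨ComposableArrows.obj' p.1 0 (Nat.zero_le _)⟩).elim)
              naturality := fun n m θ => by
                refine ConcreteCategory.hom_ext _ _ fun p => ?_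
                exact (hne ⟨ComposableArrows.obj' p.1 0 (Nat.zero_le _)⟩).elim }
    · refine NatTrans.ext (funext fun n => ConcreteCategory.hom_ext _ _ fun p => ?_)
      exact (hne ⟨ComposableArrows.obj' p.1.1 0 (Nat.zero_le _)⟩).elim
  · obtain ⟨x₀⟩ := hne
    set F : NP (StepP D f) ⟶ T := NMap (StepP.pr D f) ≫ g with hF
    let t₀ : T _⦋0⦌ := g.app (op ⦋0⦌) (ComposableArrows.mk₀ x₀.1.1)
    refine ⟨t₀, ?_⟩
    have key : ∃ w : NP (StepP D f) ⊗ (Δ[1] : SSet.{0}) ⟶ T,
        (cst (NP (StepP D f))).ι ≫ w = um F (SSet.const t₀) := by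
      refine hC _ _ _ fun F' hF' => ?_
      have : Finite ((F' : SSet.{0}).obj (op ⦋0⦌)) := by
        have := hF'
        infer_instance
      have := Fintype.ofFinite ((F' : SSet.{0}).obj (op ⦋0⦌))
      let Λ : Finset L := Λ₀ ∪ {x₀.1.2} ∪ Finset.univ.image
        (fun v : (F' : SSet.{0}).obj (op ⦋0⦌) => (ComposableArrows.obj' v.1.1 0 (Nat.zero_le _)).1.2)
      have hΛ₀ : Λ₀ ⊆ Λ := by
        intro a ha
        simp [Λ, ha]
      have hx₀ : x₀.1.2 ∈ Λ := by simp [Λ]
      have hF'' : ∀ (n : SimplexCategoryᵒᵖ) (p : (NP (StepP D f) ⊗ (Δ[1] : SSet.{0})).obj n),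
          p ∈ F'.obj n → ∀ i : Fin (n.unop.len + 1),
            (p.1.obj i : StepP D f).1.2 ∈ Λ := by
        intro n p hp i
        have h2 := F'.map (SimplexCategory.const ⦋0⦌ n.unop i).op hp
        have h3 : (Finset.univ.image
          (fun v : (F' : SSet.{0}).obj (op ⦋0⦌) =>
            (ComposableArrows.obj' v.1.1 0 (Nat.zero_le _) : StepP D f).1.2)) ⊆ Λ :=
          Finset.subset_union_right
        apply h3
        rw [Finset.mem_image]
        exact ⟨⟨_, h2⟩, Finset.mem_univ _, rfl⟩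
      let y₀ : StepF D f Λ := ⟨x₀.1, hx₀, x₀.2⟩
      obtain ⟨H⟩ := h1 (NP (StepF D f Λ)) T (NMap (StepF.pr D f Λ) ≫ g) (ComposableArrows.mk₀ y₀)
        hK (hN Λ hΛ₀)
      have ht : (NMap (StepF.pr D f Λ) ≫ g).app (op ⦋0⦌) (ComposableArrows.mk₀ y₀) = t₀ := by
        change g.app (op ⦋0⦌) ((NMap (StepF.pr D f Λ)).app (op ⦋0⦌) (ComposableArrows.mk₀ y₀)) = _
        congr 1
      rw [ht] at H
      let q : (F' : SSet.{0}) ⟶ NP (StepF D f Λ) ⊗ (Δ[1] : SSet.{0}) :=
        { app := fun n => TypeCat.ofHom (fun p =>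
            (lft D f Λ p.1.1 (hF'' n p.1 p.2), p.1.2))
          naturality := fun n m θ => by
            refine ConcreteCategory.hom_ext _ _ fun p => ?_
            refine Prod.ext ?_ rfl
            exact nerve.ext_of_isThin (C := StepF D f Λ) rfl }
      refine ⟨q ≫ H.h, ?_⟩
      refine NatTrans.ext (funext fun n => ConcreteCategory.hom_ext _ _ fun p => ?_)
      have hA : ∀ i, ac p.1.2 i = ac p.1.2 0 := p.2.1
      change H.h.app n (lft D f Λ p.1.1 (hF'' n p.1 p.2.2), p.1.2) =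
        (um F (SSet.const t₀)).app n ⟨p.1, p.2.1⟩
      by_cases h0 : ac p.1.2 0 = 0
      · rw [um_zero _ _ _ h0, hty_zero H _ _ (fun i => (hA i).trans h0)]
        change g.app n ((NMap (StepF.pr D f Λ)).app n _) = g.app n ((NMap (StepP.pr D f)).app n _)
        congr 1
      · have h0' : ac p.1.2 0 = 1 := by
          have : ∀ a : Fin 2, a ≠ 0 → a = 1 := by decide
          exact this _ h0
        rw [um_one _ _ _ h0, hty_one H _ _ (fun i => (hA i).trans h0')]
        rfl
    obtain ⟨w, hw⟩ := key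
    exact mk_hty w hw

end Pool.Agent.SH

end

end

section

/-!
# MP_2d0b73_an, PART II: null homotopic maps and their values
-/

noncomputable section

namespace Pool.Agent.SH

open CategoryTheory Simplicial MonoidalCategory Limits Opposite
open SSet CartesianMonoidalCategory

namespace LTR

/-! ### Edges -/

section Edges

variable {M : SSet.{0}}

/-- There is an edge from `x` to `y`. -/
def Edg (x y : (Δ[0] : SSet.{0}) ⟶ M) : Prop :=
  ∃ e : (Δ[1] : SSet.{0}) ⟶ M, stdSimplex.δ (1 : Fin 2) ≫ e = x ∧ stdSimplex.δ (0 : Fin 2) ≫ e = y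

theorem δσ (j : Fin 2) (x : (Δ[0] : SSet.{0}) ⟶ M) :
    stdSimplex.δ j ≫ stdSimplex.σ (0 : Fin 1) ≫ x = x := by
  have h : stdSimplex.δ j ≫ stdSimplex.σ (0 : Fin 1) = 𝟙 (Δ[0] : SSet.{0}) :=
    stdSimplex.isTerminalObj₀.hom_ext _ _
  rw [← Category.assoc, h, Category.id_comp]

theorem d02 (φ : (Δ[2] : SSet.{0}) ⟶ M) :
    stdSimplex.δ (1 : Fin 2) ≫ stdSimplex.δ (0 : Fin 3) ≫ φ =
      stdSimplex.δ (0 : Fin 2) ≫ stdSimplex.δ (2 : Fin 3) ≫ φ := by
  have h : stdSimplex.δ (0 : Fin 2) ≫ stdSimplex.δ (2 : Fin 3) =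
      stdSimplex.δ (1 : Fin 2) ≫ (stdSimplex.δ (0 : Fin 3) : (Δ[1] : SSet.{0}) ⟶ Δ[2]) :=
    stdSimplex.δ_comp_δ (i := (0 : Fin 2)) (j := (1 : Fin 2)) (by decide)
  rw [← Category.assoc, ← h, Category.assoc]

theorem d01 (φ : (Δ[2] : SSet.{0}) ⟶ M) :
    stdSimplex.δ (0 : Fin 2) ≫ stdSimplex.δ (0 : Fin 3) ≫ φ =
      stdSimplex.δ (0 : Fin 2) ≫ stdSimplex.δ (1 : Fin 3) ≫ φ := by
  have h : stdSimplex.δ (0 : Fin 2) ≫ stdSimplex.δ (1 : Fin 3) =
      stdSimplex.δ (0 : Fin 2) ≫ (stdSimplex.δ (0 : Fin 3) : (Δ[1] : SSet.{0}) ⟶ Δ[2]) :=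
    stdSimplex.δ_comp_δ (i := (0 : Fin 2)) (j := (0 : Fin 2)) (by decide)
  rw [← Category.assoc, ← h, Category.assoc]

/-- Two edges with the same source in a Kan complex: their targets are joined by an edge. -/
theorem edg_span (hM : SSet.KanComplex M) {x y z : (Δ[0] : SSet.{0}) ⟶ M} (h : Edg x y)
    (h' : Edg x z) : Edg y z := by
  obtain ⟨e, h1, h0⟩ := h
  obtain ⟨e', h1', h0'⟩ := h'
  let f : ∀ (j : Fin 3) (_ : j ≠ 0), (Δ[1] : SSet.{0}) ⟶ M :=
    fun j _ => if j = 1 then e' else e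
  have hf : horn.IsCompatible f := by
    rw [horn.isCompatible_iff]
    intro j k hj hk hjk
    fin_cases j
    · exact absurd rfl hj
    · fin_cases k
      · exact absurd rfl hk
      · exact absurd hjk (by decide)
      · change stdSimplex.δ (1 : Fin 2) ≫ e' = stdSimplex.δ (1 : Fin 2) ≫ e
        rw [h1, h1']
    · fin_cases k
      · exact absurd rfl hk
      · exact absurd hjk (by decide)
      · exact absurd hjk (by decide)
  obtain ⟨φ, hφ⟩ := hf.exists_lift_of_kanComplex
  have hφ1 : stdSimplex.δ (1 : Fin 3) ≫ φ = e' := hφ 1 (by decide)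
  have hφ2 : stdSimplex.δ (2 : Fin 3) ≫ φ = e := hφ 2 (by decide)
  refine ⟨stdSimplex.δ (0 : Fin 3) ≫ φ, ?_, ?_⟩
  · rw [d02, hφ2, h0]
  · rw [d01, hφ1, h0']

theorem edg_refl (x : (Δ[0] : SSet.{0}) ⟶ M) : Edg x x :=
  ⟨stdSimplex.σ 0 ≫ x, δσ 1 x, δσ 0 x⟩

end Edges

/-! ### Homotopies -/

section Hty

variable {A B T : SSet.{0}}

/-- Homotopic maps. -/
def Hty (f g : A ⟶ T) : Prop := Nonempty (SSet.Homotopy f g)

theorem hty_iff (f g : A ⟶ T) :
    Hty f g ↔ ∃ h : A ⊗ Δ[1] ⟶ T, ι₀ ≫ h = f ∧ ι₁ ≫ h = g := by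
  constructor
  · rintro ⟨H⟩
    exact ⟨H.h, H.h₀, H.h₁⟩
  · rintro ⟨h, h0, h1⟩
    refine ⟨{ h := h, h₀ := h0, h₁ := h1, rel := ?_ }⟩
    ext n x
    exact x.1.2.elim

theorem hty_pre {f g : B ⟶ T} (h : Hty f g) (u : A ⟶ B) : Hty (u ≫ f) (u ≫ g) := by
  obtain ⟨H, h0, h1⟩ := (hty_iff f g).1 h
  refine (hty_iff _ _).2 ⟨u ▷ Δ[1] ≫ H, ?_, ?_⟩
  · rw [← Category.assoc, ι₀_comp, Category.assoc, h0]
  · rw [← Category.assoc, ι₁_comp, Category.assoc, h1]

/-- A map as a point of the mapping complex. -/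
def pt (f : A ⟶ T) : (Δ[0] : SSet.{0}) ⟶ (ihom A).obj T :=
  MonoidalClosed.curry (fst A (Δ[0] : SSet.{0}) ≫ f)

theorem pt_inj {f g : A ⟶ T} (h : pt f = pt g) : f = g := by
  have h1 : fst A (Δ[0] : SSet.{0}) ≫ f = fst A (Δ[0] : SSet.{0}) ≫ g :=
    MonoidalClosed.curry_injective h
  have h2 := congrArg (fun u => lift (𝟙 A) (stdSimplex.isTerminalObj₀.from A) ≫ u) h1
  simpa using h2

theorem w1 (A : SSet.{0}) : A ◁ (stdSimplex.δ (1 : Fin 2)) = fst A (Δ[0] : SSet.{0}) ≫ ι₀ := by
  apply CartesianMonoidalCategory.hom_ext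
  · simp
  · rw [Category.assoc, ι₀_snd, whiskerLeft_snd, stdSimplex.δ_one_eq_const]
    simp

theorem w0 (A : SSet.{0}) : A ◁ (stdSimplex.δ (0 : Fin 2)) = fst A (Δ[0] : SSet.{0}) ≫ ι₁ := by
  apply CartesianMonoidalCategory.hom_ext
  · simp
  · rw [Category.assoc, ι₁_snd, whiskerLeft_snd, stdSimplex.δ_zero_eq_const]
    simp

theorem δ1_curry (h : A ⊗ (Δ[1] : SSet.{0}) ⟶ T) :
    stdSimplex.δ (1 : Fin 2) ≫ MonoidalClosed.curry h = pt (ι₀ ≫ h) := by
  rw [← MonoidalClosed.curry_natural_left, w1, Category.assoc]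
  rfl

theorem δ0_curry (h : A ⊗ (Δ[1] : SSet.{0}) ⟶ T) :
    stdSimplex.δ (0 : Fin 2) ≫ MonoidalClosed.curry h = pt (ι₁ ≫ h) := by
  rw [← MonoidalClosed.curry_natural_left, w0, Category.assoc]
  rfl

theorem hty_iff_edg (f g : A ⟶ T) : Hty f g ↔ Edg (pt f) (pt g) := by
  rw [hty_iff]
  constructor
  · rintro ⟨h, h0, h1⟩
    exact ⟨MonoidalClosed.curry h, by rw [δ1_curry, h0], by rw [δ0_curry, h1]⟩
  · rintro ⟨e, h1, h0⟩
    obtain ⟨h, rfl⟩ : ∃ h, MonoidalClosed.curry h = e :=
      ⟨MonoidalClosed.uncurry e, MonoidalClosed.curry_uncurry e⟩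
    rw [δ1_curry] at h1
    rw [δ0_curry] at h0
    exact ⟨h, pt_inj h1, pt_inj h0⟩

theorem hty_refl (f : A ⟶ T) : Hty f f := (hty_iff_edg f f).mpr (edg_refl _)

theorem hty_span (hT : SSet.KanComplex T) {f g k : A ⟶ T} (h : Hty f g) (h' : Hty f k) :
    Hty g k := by
  have hM : SSet.KanComplex ((ihom A).obj T) := inferInstance
  rw [hty_iff_edg] at h h' ⊢
  exact edg_span hM h h'

theorem hty_symm (hT : SSet.KanComplex T) {f g : A ⟶ T} (h : Hty f g) : Hty g f :=
  hty_span hT h (hty_refl f)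

end Hty

end LTR

open LTR in
theorem LTR : Stmt_LTR := by
  intro X T f x hT hf
  obtain ⟨t, ht⟩ := hf
  have h1 : Hty f (SSet.const t) := ht
  have h2 := hty_pre h1 (SSet.const x : X ⟶ X)
  have e1 : (SSet.const x : X ⟶ X) ≫ f = SSet.const (f.app _ x) := by
    rw [SSet.const_comp]
  have e2 : (SSet.const x : X ⟶ X) ≫ (SSet.const t : X ⟶ T) = SSet.const t := by
    rw [SSet.comp_const]
  rw [e1, e2] at h2
  exact hty_span hT (hty_symm hT h1) (hty_symm hT h2)

end Pool.Agent.SH

end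

end

section

/-!
# MP_2d0b73_an, PART II: transport of parts of nerves along an order embedding
-/

open CategoryTheory Simplicial MonoidalCategory Limits Opposite

namespace Pool.Agent.SH

namespace LTY

variable {R' R : Type} [PartialOrder R'] [PartialOrder R]

theorem subN_le_iff {A B : Set R} : subN A ≤ subN B ↔ A ⊆ B := by
  constructor
  · intro h a ha
    let x : (nerve R) _⦋0⦌ := ComposableArrows.mk₀ a
    have hx : x ∈ (subN A).obj (op ⦋0⦌) := fun _ => ha
    exact h _ hx 0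
  · intro h m x hx i
    exact h (hx i)

/-- The map of parts of nerves induced by an order embedding. -/
noncomputable def fwd (φ : R' ↪o R) (A : Set R') :
    (subN A : SSet.{0}) ⟶ (subN (φ '' A) : SSet.{0}) :=
  SSet.Subcomplex.lift ((subN A).ι ≫ NMap (φ : R' →o R)) (by
    rw [← SSet.Subcomplex.preimage_eq_top_iff, SSet.Subcomplex.preimage_comp, eq_top_iff]
    intro m x _ i
    exact ⟨_, x.2 i, rfl⟩)

theorem fwd_ι (φ : R' ↪o R) (A : Set R') :
    fwd φ A ≫ (subN (φ '' A)).ι = (subN A).ι ≫ NMap (φ : R' →o R) := rfl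

theorem isIso_fwd (φ : R' ↪o R) (A : Set R') : IsIso (fwd φ A) := by
  rw [NatTrans.isIso_iff_isIso_app]
  intro m
  rw [isIso_iff_bijective]
  constructor
  · rintro ⟨x, hx⟩ ⟨y, hy⟩ hxy
    have h1 : (NMap (φ : R' →o R)).app m x = (NMap (φ : R' →o R)).app m y :=
      congrArg Subtype.val hxy
    refine Subtype.ext (nerve.ext_of_isThin (funext fun i => ?_))
    have h2 : φ (x.obj i) = φ (y.obj i) := congrArg (fun t => t.obj i) h1
    exact φ.injective h2
  · rintro ⟨x, hx⟩
    have hx' : ∀ i, ∃ z : R', z ∈ A ∧ φ z = x.obj i := fun i => hx i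
    choose y hyA hy using hx'
    have hmono : Monotone y := by
      intro i j hij
      rw [← φ.le_iff_le, hy, hy]
      exact leOfHom (x.map (homOfLE hij))
    refine ⟨⟨hmono.functor, hyA⟩, Subtype.ext (nerve.ext_of_isThin (funext fun i => hy i))⟩

end LTY

theorem LTY (h1 : Stmt_LTX) : Stmt_LTY := by
  intro T R' R _ _ φ A B
  have := LTY.isIso_fwd φ A
  have := LTY.isIso_fwd φ B
  constructor
  · rintro ⟨h, h2⟩
    have h3 : φ '' A ⊆ φ '' B := Set.image_mono (LTY.subN_le_iff.1 h)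
    refine ⟨LTY.subN_le_iff.2 h3, ?_⟩
    exact h1 T _ _ _ _ _ _ (asIso (LTY.fwd φ A)) (asIso (LTY.fwd φ B)) rfl h2
  · rintro ⟨h, h2⟩
    have h3 : A ⊆ B := (Set.image_subset_image_iff φ.injective).1 (LTY.subN_le_iff.1 h)
    refine ⟨LTY.subN_le_iff.2 h3, ?_⟩
    refine h1 T _ _ _ _ _ _ (asIso (LTY.fwd φ A)).symm (asIso (LTY.fwd φ B)).symm ?_ h2
    simp only [Iso.symm_hom, asIso_inv]
    rw [IsIso.inv_comp_eq, ← Category.assoc, IsIso.eq_comp_inv]
    rfl

end Pool.Agent.SH


end

section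

/-!
# MP_2d0b73_an, III-N: labels of tracks in `LL S`, evaluation of simplex labels
-/

set_option autoImplicit false

open CategoryTheory Simplicial Opposite

namespace Pool.Agent.SH

namespace LL

variable {S : Type} [PartialOrder S] [Zero S]

/-- The label, in `x`, of the restriction of the track `a`. -/
noncomputable def lb (x : LL S) (a : ℕ →₀ ℕ) : S := x.C (res x.J a)

theorem lb_self {x : LL S} {a : ℕ →₀ ℕ} (ha : a ∈ x.C.support) : x.lb a = x.C a := by
  rw [lb, res_eq_self (x.sub a ha)]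

theorem lb_res {x y : LL S} (h : x.J ⊆ y.J) (a : ℕ →₀ ℕ) : x.lb (res y.J a) = x.lb a := by
  rw [lb, lb, res_res h]

/-- Two tracks of `y` with the same restriction to a nonempty set of times are equal. -/
theorem res_inj {y : LL S} {J : Finset ℕ} (hJ : J.Nonempty) (h : J ⊆ y.J) {a b : ℕ →₀ ℕ}
    (ha : a ∈ y.C.support) (hb : b ∈ y.C.support) (hab : res J a = res J b) : a = b := by
  obtain ⟨j, hj⟩ := hJ
  by_contra hne
  have h7 := DFunLike.congr_fun hab j
  rw [res_apply_mem hj, res_apply_mem hj] at h7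
  exact y.inj a ha b hb hne j (h hj) h7

theorem lb_le_lb {x y z : LL S} (hxy : x ≤ y) (hyz : y ≤ z) {a : ℕ →₀ ℕ} (ha : a ∈ z.C.support) :
    x.lb a ≤ y.lb a := by
  obtain ⟨h1, h2, h3⟩ := hxy
  obtain ⟨h4, h5, h6⟩ := hyz
  by_cases hy : res y.J a ∈ y.C.support
  · have := h2 _ hy
    rw [res_res h1] at this
    exact this
  · have hx : x.C (res x.J a) = 0 := by
      by_contra hne
      obtain ⟨b, hb, hb'⟩ := h3 _ (Finsupp.mem_support_iff.2 hne)
      obtain ⟨a', ha', rfl⟩ := h6 b hb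
      rw [res_res h1] at hb'
      have h8 : a' = a := z.res_inj x.ne (h1.trans h4) ha' ha hb'
      exact hy (h8 ▸ hb)
    rw [lb, lb, hx, Finsupp.notMem_support_iff.1 hy]

/-- Every track of `x ≤ y` is the restriction of a track of `y`. -/
theorem exists_track {x y : LL S} (hxy : x ≤ y) {b : ℕ →₀ ℕ} (hb : b ∈ x.C.support) :
    ∃ a ∈ y.C.support, res x.J a = b := hxy.2.2 b hb

/-- Sums over the tracks of `x ≤ y`. -/
theorem sum_track {M : Type*} [AddCommMonoid M] {x y : LL S} (hxy : x ≤ y)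
    (g : (ℕ →₀ ℕ) → M) [DecidablePred fun a : ℕ →₀ ℕ => x.lb a ≠ 0] :
    ∑ b ∈ x.C.support, g b = ∑ a ∈ y.C.support with x.lb a ≠ 0, g (res x.J a) := by
  symm
  refine Finset.sum_nbij (res x.J) ?_ ?_ ?_ ?_
  · intro a ha
    rw [Finset.mem_filter] at ha
    exact Finsupp.mem_support_iff.2 ha.2
  · intro a ha b hb hab
    rw [Finset.mem_coe, Finset.mem_filter] at ha hb
    exact y.res_inj x.ne hxy.1 ha.1 hb.1 hab
  · intro b hb
    obtain ⟨a, ha, rfl⟩ := exists_track hxy hb
    refine ⟨a, ?_, rfl⟩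
    rw [Finset.mem_coe, Finset.mem_filter]
    exact ⟨ha, Finsupp.mem_support_iff.1 hb⟩
  · intro a _
    rfl

end LL

/-! ### Discrete labels -/

/-- The set `Z` with base point `z₀` and the discrete order. -/
structure Dsc (Z : Type) (z₀ : Z) : Type where
  /-- the underlying element -/
  v : Z

namespace Dsc

variable {Z : Type} {z₀ : Z}

instance : Zero (Dsc Z z₀) := ⟨⟨z₀⟩⟩

theorem zero_v : (0 : Dsc Z z₀).v = z₀ := rfl

theorem ext' {a b : Dsc Z z₀} (h : a.v = b.v) : a = b := by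
  cases a; cases b; cases h; rfl

theorem ne_zero_iff (a : Dsc Z z₀) : a ≠ 0 ↔ a.v ≠ z₀ :=
  ⟨fun h h' => h (ext' h'), fun h h' => h (by rw [h']; rfl)⟩

instance : PartialOrder (Dsc Z z₀) where
  le a b := a = b
  le_refl a := rfl
  le_trans a b c h h' := h.trans h'
  le_antisymm a b h _ := h

theorem le_iff {a b : Dsc Z z₀} : a ≤ b ↔ a = b := Iff.rfl

end Dsc

open Classical in
/-- The multiset of labels. -/
noncomputable def LL.lab {Z : Type} {z₀ : Z} (y : LL (Dsc Z z₀)) : Z →₀ ℕ :=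
  ∑ a ∈ y.C.support, Finsupp.single (y.C a).v 1

theorem LL.lb_eq {Z : Type} {z₀ : Z} {x y : LL (Dsc Z z₀)} (h : x ≤ y) {a : ℕ →₀ ℕ}
    (ha : a ∈ y.C.support) : x.lb a = y.C a := by
  have := lb_le_lb h le_rfl ha
  rw [lb_self ha] at this
  exact this

theorem LL.lab_eq {Z : Type} {z₀ : Z} {x y : LL (Dsc Z z₀)} (h : x ≤ y) : x.lab = y.lab := by
  classical
  rw [lab, lab, sum_track h]
  have h1 : (y.C.support.filter fun a => x.lb a ≠ 0) = y.C.support := by
    refine Finset.filter_true_of_mem fun a ha => ?_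
    rw [lb_eq h ha]
    exact Finsupp.mem_support_iff.1 ha
  rw [h1]
  refine Finset.sum_congr rfl fun a ha => ?_
  have h2 := lb_eq h ha
  rw [lb] at h2
  rw [h2]

end Pool.Agent.SH


end

section

/-!
# MP_2d0b73_an, III-N: evaluation of simplex labels
-/

set_option autoImplicit false

open CategoryTheory Simplicial Opposite

namespace Pool.Agent.SH

/-- The constant chain at the base point. -/
def c0 (S : Type) [PartialOrder S] [Zero S] (n : ℕ) : Fin (n + 1) →o S := OrderHom.const _ 0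

theorem c0_obj (S : Type) [PartialOrder S] [Zero S] (n : ℕ) (i : Fin (n + 1)) :
    c0 S n i = 0 := rfl

variable {S : Type} [PartialOrder S] [Zero S]

/-- Labels which are `n`-simplices. -/
abbrev Lz (S : Type) [PartialOrder S] [Zero S] (n : ℕ) : Type := Dsc (Fin (n + 1) →o S) (c0 S n)

theorem Lz.last_ne (h0 : ∀ s : S, s ≤ 0 → s = 0) {n : ℕ} {z : Lz S n} (hz : z ≠ 0) :
    z.v (Fin.last n) ≠ 0 := by
  intro h
  apply hz
  apply Dsc.ext'
  refine OrderHom.ext _ _ (funext fun i => ?_)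
  have h1 := z.v.monotone (Fin.le_last i)
  rw [h] at h1
  exact h0 _ h1

/-- Evaluation of the labels at the vertex `j`. -/
noncomputable def ev {n : ℕ} (y : LL (Lz S n)) (j : Fin (n + 1)) : LL S where
  J := y.J
  C := y.C.mapRange (fun z => z.v j) rfl
  ne := y.ne
  sub := fun a ha => y.sub a (Finsupp.support_mapRange ha)
  inj := fun a ha b hb => y.inj a (Finsupp.support_mapRange ha) b (Finsupp.support_mapRange hb)

theorem ev_J {n : ℕ} (y : LL (Lz S n)) (j : Fin (n + 1)) : (ev y j).J = y.J := rfl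

theorem ev_C {n : ℕ} (y : LL (Lz S n)) (j : Fin (n + 1)) (a : ℕ →₀ ℕ) :
    (ev y j).C a = (y.C a).v j := rfl

theorem ev_lb {n : ℕ} (y : LL (Lz S n)) (j : Fin (n + 1)) (a : ℕ →₀ ℕ) :
    (ev y j).lb a = (y.lb a).v j := rfl

theorem ev_support {n : ℕ} {y : LL (Lz S n)} {j : Fin (n + 1)} {a : ℕ →₀ ℕ}
    (ha : a ∈ (ev y j).C.support) : a ∈ y.C.support := by
  rw [Finsupp.mem_support_iff] at ha ⊢
  intro h
  apply ha
  rw [ev_C, h]
  rfl

theorem ev_le (h0 : ∀ s : S, s ≤ 0 → s = 0) {n : ℕ} {y y' : LL (Lz S n)} {j j' : Fin (n + 1)}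
    (h : y ≤ y') (hj : j ≤ j') : ev y j ≤ ev y' j' := by
  refine ⟨h.1, ?_, ?_⟩
  · intro a ha
    have ha' : a ∈ y'.C.support := ev_support ha
    have h1 := LL.lb_eq h ha'
    change (y.lb a).v j ≤ (y'.C a).v j'
    rw [h1]
    exact OrderHom.monotone _ hj
  · intro b hb
    have hb' : b ∈ y.C.support := ev_support hb
    obtain ⟨a, ha, rfl⟩ := LL.exists_track h hb'
    refine ⟨a, ?_, rfl⟩
    rw [Finsupp.mem_support_iff, ev_C]
    intro h2
    have h1 := LL.lb_eq h ha
    rw [Finsupp.mem_support_iff, ev_C] at hb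
    apply hb
    change (y.lb a).v j = 0
    rw [h1]
    have h3 := (y'.C a).v.monotone hj
    rw [h2] at h3
    exact h0 _ h3

/-- The tracks of `ev y n` (last vertex) are the tracks of `y`. -/
theorem ev_last_support (h0 : ∀ s : S, s ≤ 0 → s = 0) {n : ℕ} (y : LL (Lz S n)) :
    (ev y (Fin.last n)).C.support = y.C.support := by
  ext a
  rw [Finsupp.mem_support_iff, Finsupp.mem_support_iff, ev_C]
  constructor
  · intro h h'
    rw [h'] at h
    exact h rfl
  · intro h
    exact Lz.last_ne h0 h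

/-- The configurations with prescribed multiset of simplex labels. -/
structure PF {n : ℕ} (b : (Fin (n + 1) →o S) →₀ ℕ) : Type where
  /-- the configuration -/
  y : LL (Lz S n)
  lab : y.lab = b

namespace PF

variable {n : ℕ} {b : (Fin (n + 1) →o S) →₀ ℕ}

theorem ext' {x y : PF b} (h : x.y = y.y) : x = y := by
  cases x; cases y; cases h; rfl

instance : PartialOrder (PF b) where
  le x y := x.y ≤ y.y
  le_refl x := le_refl x.y
  le_trans x y z h h' := le_trans (α := LL (Lz S n)) h h'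
  le_antisymm x y h h' := ext' (le_antisymm (α := LL (Lz S n)) h h')

theorem le_iff {x y : PF b} : x ≤ y ↔ x.y ≤ y.y := Iff.rfl

end PF

end Pool.Agent.SH


end

section

/-!
# MP_2d0b73_an, III-N: restriction of configurations with discrete labels
-/

set_option autoImplicit false

open CategoryTheory Simplicial Opposite

namespace Pool.Agent.SH

namespace LL

variable {Z : Type} {z₀ : Z}

open Classical in
/-- The label of the restricted track `c`. -/
noncomputable def rstFun (y : LL (Dsc Z z₀)) (J' : Finset ℕ) (c : ℕ →₀ ℕ) : Dsc Z z₀ :=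
  if h : ∃ a ∈ y.C.support, res J' a = c then y.C h.choose else 0

theorem rstFun_res (y : LL (Dsc Z z₀)) {J' : Finset ℕ} (h1 : J' ⊆ y.J) (h2 : J'.Nonempty)
    {a : ℕ →₀ ℕ} (ha : a ∈ y.C.support) : y.rstFun J' (res J' a) = y.C a := by
  have h : ∃ a' ∈ y.C.support, res J' a' = res J' a := ⟨a, ha, rfl⟩
  rw [rstFun, dif_pos h]
  have h3 := y.res_inj h2 h1 h.choose_spec.1 ha h.choose_spec.2
  rw [h3]

theorem rstFun_of_not (y : LL (Dsc Z z₀)) {J' : Finset ℕ} {c : ℕ →₀ ℕ}
    (h : ¬ ∃ a ∈ y.C.support, res J' a = c) : y.rstFun J' c = 0 := by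
  rw [rstFun, dif_neg h]

open Classical in
/-- Restriction to a smaller set of times. -/
noncomputable def rst (y : LL (Dsc Z z₀)) (J' : Finset ℕ) (h1 : J' ⊆ y.J) (h2 : J'.Nonempty) :
    LL (Dsc Z z₀) where
  J := J'
  C := Finsupp.onFinset (y.C.support.image (res J')) (y.rstFun J') (by
    intro c hc
    by_contra hne
    apply hc
    apply rstFun_of_not
    rintro ⟨a, ha, rfl⟩
    exact hne (Finset.mem_image_of_mem _ ha))
  ne := h2
  sub := by
    intro c hc
    have h3 := Finsupp.support_onFinset_subset hc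
    obtain ⟨a, _, rfl⟩ := Finset.mem_image.1 h3
    exact support_res _ _
  inj := by
    intro c hc d hd hcd j hj
    obtain ⟨a, ha, rfl⟩ := Finset.mem_image.1 (Finsupp.support_onFinset_subset hc)
    obtain ⟨b, hb, rfl⟩ := Finset.mem_image.1 (Finsupp.support_onFinset_subset hd)
    rw [res_apply_mem hj, res_apply_mem hj]
    exact y.inj a ha b hb (fun h => hcd (by rw [h])) j (h1 hj)

theorem rst_J (y : LL (Dsc Z z₀)) (J' : Finset ℕ) (h1 : J' ⊆ y.J) (h2 : J'.Nonempty) :
    (y.rst J' h1 h2).J = J' := rfl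

theorem rst_C (y : LL (Dsc Z z₀)) (J' : Finset ℕ) (h1 : J' ⊆ y.J) (h2 : J'.Nonempty)
    (c : ℕ →₀ ℕ) : (y.rst J' h1 h2).C c = y.rstFun J' c := rfl

theorem mem_rst {y : LL (Dsc Z z₀)} {J' : Finset ℕ} {h1 : J' ⊆ y.J} {h2 : J'.Nonempty}
    {c : ℕ →₀ ℕ} : c ∈ (y.rst J' h1 h2).C.support ↔ ∃ a ∈ y.C.support, res J' a = c := by
  constructor
  · intro hc
    by_contra hne
    rw [Finsupp.mem_support_iff] at hc
    exact hc (y.rstFun_of_not hne)
  · rintro ⟨a, ha, rfl⟩
    rw [Finsupp.mem_support_iff, rst_C, y.rstFun_res h1 h2 ha]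
    exact Finsupp.mem_support_iff.1 ha

theorem rst_le (y : LL (Dsc Z z₀)) (J' : Finset ℕ) (h1 : J' ⊆ y.J) (h2 : J'.Nonempty) :
    y.rst J' h1 h2 ≤ y := by
  refine ⟨h1, ?_, ?_⟩
  · intro a ha
    exact Dsc.le_iff.2 (y.rstFun_res h1 h2 ha)
  · intro b hb
    exact mem_rst.1 hb

theorem rst_le_rst (y : LL (Dsc Z z₀)) {J' J'' : Finset ℕ} (h1 : J' ⊆ y.J) (h2 : J'.Nonempty)
    (h3 : J'' ⊆ y.J) (h4 : J''.Nonempty) (h : J' ⊆ J'') :
    y.rst J' h1 h2 ≤ y.rst J'' h3 h4 := by
  refine ⟨h, ?_, ?_⟩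
  · intro c hc
    obtain ⟨a, ha, rfl⟩ := mem_rst.1 hc
    have e : res J' (res J'' a) = res J' a := res_res h a
    apply Dsc.le_iff.2
    change y.rstFun J' (res J' (res J'' a)) = y.rstFun J'' (res J'' a)
    rw [e, y.rstFun_res h1 h2 ha, y.rstFun_res h3 h4 ha]
  · intro b hb
    obtain ⟨a, ha, rfl⟩ := mem_rst.1 hb
    exact ⟨res J'' a, mem_rst.2 ⟨a, ha, rfl⟩, res_res h a⟩

/-- `x ≤ y` is the restriction of `y`. -/
theorem eq_rst {x y : LL (Dsc Z z₀)} (h : x ≤ y) : x = y.rst x.J h.1 x.ne := by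
  refine ext' rfl ?_
  ext1 c
  rw [rst_C]
  by_cases hc : ∃ a ∈ y.C.support, res x.J a = c
  · obtain ⟨a, ha, rfl⟩ := hc
    rw [y.rstFun_res h.1 x.ne ha]
    exact lb_eq h ha
  · rw [y.rstFun_of_not hc]
    by_contra hne
    exact hc (exists_track h (Finsupp.mem_support_iff.2 hne))

theorem rst_self (y : LL (Dsc Z z₀)) (h1 : y.J ⊆ y.J) (h2 : y.J.Nonempty) :
    y.rst y.J h1 h2 = y := (eq_rst (le_refl y)).symm

end LL

end Pool.Agent.SH


end
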