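import Mathlib

/-! Parts: SH.S.Defs, SH.S.Basic, SH.S.Ring, SH.S.Coho, SH.S.Cup, SH.S.Defs2, SH.S.Classes, SH.S.Deg, SH.S.StmtsA, SH.S.Awc, SH.S.Kunp, SH.S.Hbe, SH.S.Hty, SH.S.StmtsB, SH.S.Tools, SH.S.Pow, SH.S.K1, SH.S.Popd, SH.S.Sqp, SH.S.Msi, SH.S.Emu, SH.S.Mu, SH.S.StmtsC, SH.S.Lam, SH.S.E2s, SH.S.StmtsD, SH.S.Sca, SH.S.StmtsV, SH.S.StmtsW, SH.S.Fpr, SH.S.Gen, SH.S.Shift, SH.S.Poly, SH.L.Defs, SH.L.Ph, SH.L.Moore -/

section

/-!
Block III-S (Serre-Cartan) of MP_2d0b73_an: common definitions.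
Everything is over the field with two elements, so there are no signs.
Levels of all objects are honest types; simplicial operators are monotone maps
Fin (m + 1) →o Fin (n + 1).
-/

namespace Pool.Agent.SHS

/-- The field with two elements. -/
abbrev k : Type := ZMod 2

/-- Monotone maps [m] → [n]. -/
abbrev Mor (m n : ℕ) : Type := Fin (m + 1) →o Fin (n + 1)

/-- The `i`-th coface [n] → [n+1] (it misses `i`). -/
def cof {n : ℕ} (i : Fin (n + 2)) : Mor n (n + 1) := (Fin.succAboveOrderEmb i).toOrderHom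

/-- The `i`-th codegeneracy [n+1] → [n] (it takes the value `i` twice). -/
def cod {n : ℕ} (i : Fin (n + 1)) : Mor (n + 1) n := Fin.predAboveOrderHom i

/-- Front face [p] → [n] (first vertices); used for `p ≤ n`. -/
def fr (p n : ℕ) : Mor p n where
  toFun i := ⟨min i.1 n, by omega⟩
  monotone' := by
    intro a b h
    have h' : a.1 ≤ b.1 := h
    show min a.1 n ≤ min b.1 n
    omega

/-- Back face [q] → [n] (last vertices); used for `q ≤ n`. -/
def bk (q n : ℕ) : Mor q n where
  toFun i := ⟨min (i.1 + (n - q)) n, by omega⟩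
  monotone' := by
    intro a b h
    have h' : a.1 ≤ b.1 := h
    show min (a.1 + (n - q)) n ≤ min (b.1 + (n - q)) n
    omega

/-- Constant monotone map with value `v`. -/
def cst {m n : ℕ} (v : Fin (n + 1)) : Mor m n := ⟨fun _ => v, fun _ _ _ => le_refl v⟩

/-- Simplicial sets. -/
structure SS where
  X : ℕ → Type
  map : ∀ {m n : ℕ}, Mor m n → X n → X m
  map_id : ∀ {n : ℕ} (x : X n), map OrderHom.id x = x
  map_comp : ∀ {l m n : ℕ} (f : Mor l m) (g : Mor m n) (x : X n),
    map (g.comp f) x = map f (map g x)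

/-- All levels are finite. -/
def SS.LF (X : SS) : Prop := ∀ n, Finite (X.X n)

/-- Simplicial maps. -/
structure SS.Hom (X Y : SS) where
  f : ∀ n : ℕ, X.X n → Y.X n
  nat : ∀ {m n : ℕ} (a : Mor m n) (x : X.X n), f m (X.map a x) = Y.map a (f n x)

def SS.Hom.id (X : SS) : SS.Hom X X := ⟨fun _ x => x, fun _ _ => rfl⟩

def SS.Hom.comp {X Y Z : SS} (g : SS.Hom Y Z) (f : SS.Hom X Y) : SS.Hom X Z :=
  ⟨fun n x => g.f n (f.f n x), fun a x => by rw [f.nat, g.nat]⟩

/-- Product of simplicial sets. -/
abbrev SS.prod (X Y : SS) : SS where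
  X n := X.X n × Y.X n
  map a x := (X.map a x.1, Y.map a x.2)
  map_id x := by rw [X.map_id, Y.map_id]
  map_comp f g x := by rw [X.map_comp, Y.map_comp]

def SS.fst (X Y : SS) : SS.Hom (X.prod Y) X := ⟨fun _ x => x.1, fun _ _ => rfl⟩
def SS.snd (X Y : SS) : SS.Hom (X.prod Y) Y := ⟨fun _ x => x.2, fun _ _ => rfl⟩
def SS.Hom.pair {W X Y : SS} (f : SS.Hom W X) (g : SS.Hom W Y) : SS.Hom W (X.prod Y) :=
  ⟨fun n x => (f.f n x, g.f n x), fun a x => by
    show (f.f _ _, g.f _ _) = (X.map a (f.f _ x), Y.map a (g.f _ x))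
    rw [f.nat, g.nat]⟩

/-- The standard simplex Δ^d. -/
abbrev SS.simplex (d : ℕ) : SS where
  X n := Mor n d
  map a x := x.comp a
  map_id x := by ext; rfl
  map_comp f g x := by ext; rfl

/-- A homotopy between simplicial maps `f` and `g`, in the form of a family indexed by
`n`-simplices of Δ^1. -/
structure SS.Homotopy {X Y : SS} (f g : SS.Hom X Y) where
  h : ∀ n : ℕ, Mor n 1 → X.X n → Y.X n
  nat : ∀ {m n : ℕ} (a : Mor m n) (t : Mor n 1) (x : X.X n),
    h m (t.comp a) (X.map a x) = Y.map a (h n t x)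
  zero : ∀ (n : ℕ) (x : X.X n), h n (cst 0) x = f.f n x
  one : ∀ (n : ℕ) (x : X.X n), h n (cst 1) x = g.f n x

/-- Pointed simplicial sets: `X n` is the set of simplices different from the base point,
`none` is the base point. -/
structure PS where
  X : ℕ → Type
  map : ∀ {m n : ℕ}, Mor m n → X n → Option (X m)
  map_id : ∀ {n : ℕ} (x : X n), map OrderHom.id x = some x
  map_comp : ∀ {l m n : ℕ} (f : Mor l m) (g : Mor m n) (x : X n),
    map (g.comp f) x = (map g x).bind (map f)

def PS.LF (X : PS) : Prop := ∀ n, Finite (X.X n)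

/-- The underlying simplicial set of a pointed simplicial set. -/
abbrev PS.toSS (P : PS) : SS where
  X n := Option (P.X n)
  map a x := x.bind (P.map a)
  map_id x := by
    cases x with
    | none => rfl
    | some x => exact P.map_id x
  map_comp f g x := by
    cases x with
    | none => rfl
    | some x => exact P.map_comp f g x

/-- Adding a disjoint base point. -/
abbrev SS.plus (X : SS) : PS where
  X := X.X
  map a x := some (X.map a x)
  map_id x := by rw [X.map_id]
  map_comp f g x := by rw [X.map_comp]; rfl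

/-- Smash product. -/
abbrev PS.smash (P Q : PS) : PS where
  X n := P.X n × Q.X n
  map a x := Option.map₂ Prod.mk (P.map a x.1) (Q.map a x.2)
  map_id x := by rw [P.map_id, Q.map_id]; rfl
  map_comp f g x := by
    rw [P.map_comp, Q.map_comp]
    cases h1 : P.map g x.1 with
    | none => simp
    | some y =>
      cases h2 : Q.map g x.2 with
      | none => simp
      | some z => simp

/-- The sphere Δ^t / boundary: simplices different from the base point are the surjective
monotone maps onto [t]. -/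
abbrev PS.sphere (t : ℕ) : PS where
  X n := {a : Mor n t // Function.Surjective a}
  map {m n} a x := open Classical in
    if h : Function.Surjective (x.1.comp a) then some ⟨x.1.comp a, h⟩ else none
  map_id x := by
    have h : Function.Surjective (x.1.comp OrderHom.id) := x.2
    rw [dif_pos h]; rfl
  map_comp {l m n} f g x := by
    by_cases h : Function.Surjective (x.1.comp g)
    · rw [dif_pos h]; rfl
    · rw [dif_neg h]
      have h' : ¬ Function.Surjective (x.1.comp (g.comp f)) := by
        intro hs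
        apply h
        intro y
        obtain ⟨z, hz⟩ := hs y
        exact ⟨f z, hz⟩
      rw [dif_neg h']; rfl

/-- Simplicial vector spaces. -/
structure SV where
  X : ℕ → Type
  [grp : ∀ n, AddCommGroup (X n)]
  [mod : ∀ n, Module k (X n)]
  map : ∀ {m n : ℕ}, Mor m n → X n →ₗ[k] X m
  map_id : ∀ {n : ℕ} (x : X n), map OrderHom.id x = x
  map_comp : ∀ {l m n : ℕ} (f : Mor l m) (g : Mor m n) (x : X n),
    map (g.comp f) x = map f (map g x)

attribute [instance] SV.grp SV.mod

abbrev SV.toSS (V : SV) : SS where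
  X := V.X
  map a x := V.map a x
  map_id := V.map_id
  map_comp := V.map_comp

def SV.LF (V : SV) : Prop := ∀ n, Finite (V.X n)

/-- Linear simplicial maps. -/
structure SV.Hom (V W : SV) where
  f : ∀ n : ℕ, V.X n →ₗ[k] W.X n
  nat : ∀ {m n : ℕ} (a : Mor m n) (x : V.X n), f m (V.map a x) = W.map a (f n x)

def SV.Hom.toSS {V W : SV} (g : SV.Hom V W) : SS.Hom V.toSS W.toSS :=
  ⟨fun n x => g.f n x, fun a x => g.nat a x⟩

/-- Cosimplicial vector spaces. -/
structure CM where
  X : ℕ → Type
  [grp : ∀ n, AddCommGroup (X n)]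
  [mod : ∀ n, Module k (X n)]
  map : ∀ {m n : ℕ}, Mor m n → X m →ₗ[k] X n
  map_id : ∀ {n : ℕ} (x : X n), map OrderHom.id x = x
  map_comp : ∀ {l m n : ℕ} (f : Mor l m) (g : Mor m n) (x : X l),
    map (g.comp f) x = map g (map f x)

attribute [instance] CM.grp CM.mod

/-- Bicosimplicial vector spaces. -/
structure BCM where
  X : ℕ → ℕ → Type
  [grp : ∀ p q, AddCommGroup (X p q)]
  [mod : ∀ p q, Module k (X p q)]
  map : ∀ {p p' q q' : ℕ}, Mor p p' → Mor q q' → X p q →ₗ[k] X p' q'
  map_id : ∀ {p q : ℕ} (x : X p q), map OrderHom.id OrderHom.id x = x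
  map_comp : ∀ {p p' p'' q q' q'' : ℕ} (f : Mor p p') (f' : Mor p' p'') (g : Mor q q')
    (g' : Mor q' q'') (x : X p q), map (f'.comp f) (g'.comp g) x = map f' g' (map f g x)

attribute [instance] BCM.grp BCM.mod

/-- Cochain complexes of vector spaces, in degrees 0, 1, 2, ... -/
structure CC where
  X : ℕ → Type
  [grp : ∀ n, AddCommGroup (X n)]
  [mod : ∀ n, Module k (X n)]
  d : ∀ n, X n →ₗ[k] X (n + 1)
  dd : ∀ (n : ℕ) (x : X n), d (n + 1) (d n x) = 0

attribute [instance] CC.grp CC.mod

/-- Cocycles. -/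
def CC.Z (C : CC) (n : ℕ) : Submodule k (C.X n) := LinearMap.ker (C.d n)

/-- Coboundaries. -/
def CC.B (C : CC) : ∀ n : ℕ, Submodule k (C.X n)
  | 0 => ⊥
  | n + 1 => LinearMap.range (C.d n)

/-- Cohomology. -/
abbrev CC.H (C : CC) (n : ℕ) : Type := (C.Z n) ⧸ (C.B n).submoduleOf (C.Z n)

/-- A graded family `z n : I n → C.X n` of cocycles whose classes form a basis of the
cohomology in every degree. -/
structure CC.IsBasis (C : CC) {I : ℕ → Type} (z : ∀ n, I n → C.X n) : Prop where
  cocycle : ∀ n i, C.d n (z n i) = 0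
  span : ∀ (n : ℕ) (w : C.X n), C.d n w = 0 →
    ∃ c : I n →₀ k, w - (c.sum fun i a => a • z n i) ∈ C.B n
  indep : ∀ (n : ℕ) (c : I n →₀ k), (c.sum fun i a => a • z n i) ∈ C.B n → c = 0

/-- The (unnormalised) cochain complex of a cosimplicial vector space: sum of all cofaces. -/
def CM.delta (M : CM) (n : ℕ) : M.X n →ₗ[k] M.X (n + 1) := ∑ i : Fin (n + 2), M.map (cof i)

/-- Double complexes with commuting differentials. -/
structure DC where
  X : ℕ → ℕ → Type
  [grp : ∀ p q, AddCommGroup (X p q)]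
  [mod : ∀ p q, Module k (X p q)]
  dh : ∀ p q, X p q →ₗ[k] X (p + 1) q
  dv : ∀ p q, X p q →ₗ[k] X p (q + 1)
  dhh : ∀ p q x, dh (p + 1) q (dh p q x) = 0
  dvv : ∀ p q x, dv p (q + 1) (dv p q x) = 0
  comm : ∀ p q x, dv (p + 1) q (dh p q x) = dh p (q + 1) (dv p q x)

attribute [instance] DC.grp DC.mod

/-- Elements of total degree `n` of a double complex: families supported on p + q = n. -/
def DC.Tot (D : DC) (n : ℕ) : Submodule k (∀ p q, D.X p q) where
  carrier := {x | ∀ p q, p + q ≠ n → x p q = 0}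
  zero_mem' := fun _ _ _ => rfl
  add_mem' := fun {a b} ha hb p q h => by
    show a p q + b p q = 0
    rw [ha p q h, hb p q h, add_zero]
  smul_mem' := fun c a ha p q h => by
    show c • a p q = 0
    rw [ha p q h, smul_zero]

/-- The total differential. -/
def DC.D (D : DC) (x : ∀ p q, D.X p q) : ∀ p q, D.X p q
  | 0, 0 => 0
  | p + 1, 0 => D.dh p 0 (x p 0)
  | 0, q + 1 => D.dv 0 q (x 0 q)
  | p + 1, q + 1 => D.dh p (q + 1) (x p (q + 1)) + D.dv (p + 1) q (x (p + 1) q)

end Pool.Agent.SHS


end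

section

namespace Pool.Agent.SHS

theorem cof_apply {n : ℕ} (i : Fin (n + 2)) (j : Fin (n + 1)) : cof i j = i.succAbove j := rfl

theorem cof_comp_cof {n : ℕ} (i : Fin (n + 3)) (j : Fin (n + 2)) :
    (cof i).comp (cof j) = (cof (i.succAbove j)).comp (cof (j.predAbove i)) := by
  ext x
  show ((i.succAbove (j.succAbove x)) : ℕ) = (((i.succAbove j).succAbove ((j.predAbove i).succAbove x)) : ℕ)
  rw [Fin.succAbove_succAbove_succAbove_predAbove]

theorem k_two (x : k) : x + x = 0 := CharTwo.add_self_eq_zero x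

theorem mod_two {M : Type*} [AddCommGroup M] [Module k M] (x : M) : x + x = 0 := by
  have h : ((1 : k) + 1) • x = x + x := by rw [add_smul, one_smul]
  rw [← h, k_two, zero_smul]

theorem mod_two_sub {M : Type*} [AddCommGroup M] [Module k M] (x y : M) : x - y = x + y := by
  rw [sub_eq_iff_eq_add, add_assoc, mod_two, add_zero]

theorem mod_two_neg {M : Type*} [AddCommGroup M] [Module k M] (x : M) : -x = x := by
  rw [neg_eq_iff_add_eq_zero, mod_two]

theorem mod_two_eq {M : Type*} [AddCommGroup M] [Module k M] {x y : M} (h : x + y = 0) : x = y := by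
  rw [← mod_two_sub] at h
  exact sub_eq_zero.mp h

/-- double sums over pairs of cofaces vanish -/
theorem sum_cof_cof {M : Type*} [AddCommGroup M] [Module k M] {n : ℕ}
    (F : Mor n (n + 2) → M) :
    ∑ i : Fin (n + 3), ∑ j : Fin (n + 2), F ((cof i).comp (cof j)) = 0 := by
  have h2 : ∑ i : Fin (n + 3), ∑ j : Fin (n + 2), F ((cof i).comp (cof j))
      = ∑ p : Fin (n + 3) × Fin (n + 2), F ((cof p.1).comp (cof p.2)) := by
    rw [Fintype.sum_prod_type]
  rw [h2]
  apply Finset.sum_involution
    (fun (p : Fin (n + 3) × Fin (n + 2)) _ => (p.1.succAbove p.2, p.2.predAbove p.1))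
  · rintro ⟨i, j⟩ _
    simp only
    rw [cof_comp_cof i j]
    exact mod_two _
  · rintro ⟨i, j⟩ _ _ h
    exact Fin.succAbove_ne i j (congrArg Prod.fst h)
  · simp
  · rintro ⟨i, j⟩ _
    show ((i.succAbove j).succAbove (j.predAbove i), (j.predAbove i).predAbove (i.succAbove j)) = (i, j)
    rw [Fin.succAbove_succAbove_predAbove, Fin.predAbove_predAbove_succAbove]

theorem CM.delta_apply (M : CM) (n : ℕ) (x : M.X n) :
    M.delta n x = ∑ i : Fin (n + 2), M.map (cof i) x := by
  simp only [CM.delta, LinearMap.sum_apply]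

theorem CM.delta_delta (M : CM) (n : ℕ) (x : M.X n) : M.delta (n + 1) (M.delta n x) = 0 := by
  have h1 : M.delta (n + 1) (M.delta n x)
      = ∑ i : Fin (n + 3), ∑ j : Fin (n + 2), M.map ((cof i).comp (cof j)) x := by
    rw [CM.delta_apply, CM.delta_apply]
    simp only [map_sum, CM.map_comp]
  rw [h1]
  exact sum_cof_cof (fun a => M.map a x)

/-- The cochain complex of a cosimplicial vector space. -/
abbrev CM.cc (M : CM) : CC where
  X := M.X
  d := M.delta
  dd := M.delta_delta

/-- The diagonal. -/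
abbrev BCM.diag (M : BCM) : CM where
  X n := M.X n n
  map a := M.map a a
  map_id := M.map_id
  map_comp f g x := M.map_comp f g f g x

/-- For fixed `p`, the cosimplicial vector space in the second (vertical) direction. -/
abbrev BCM.col (M : BCM) (p : ℕ) : CM where
  X q := M.X p q
  map a := M.map OrderHom.id a
  map_id := M.map_id
  map_comp f g x := M.map_comp OrderHom.id OrderHom.id f g x

/-- For fixed `q`, the cosimplicial vector space in the first (horizontal) direction. -/
abbrev BCM.row (M : BCM) (q : ℕ) : CM where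
  X p := M.X p q
  map a := M.map a OrderHom.id
  map_id := M.map_id
  map_comp f g x := M.map_comp f g OrderHom.id OrderHom.id x

/-- The double complex of a bicosimplicial vector space. -/
abbrev BCM.dc (M : BCM) : DC where
  X := M.X
  dh p q := (M.row q).delta p
  dv p q := (M.col p).delta q
  dhh p q x := (M.row q).delta_delta p x
  dvv p q x := (M.col p).delta_delta q x
  comm p q x := by
    show (M.col (p + 1)).delta q ((M.row q).delta p x) = (M.row (q + 1)).delta p ((M.col p).delta q x)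
    rw [CM.delta_apply, CM.delta_apply, CM.delta_apply, CM.delta_apply]
    have h1 : ∀ i : Fin (q + 2), (M.col (p + 1)).map (cof i) (∑ j : Fin (p + 2), (M.row q).map (cof j) x)
        = ∑ j : Fin (p + 2), M.map (cof j) (cof i) x := by
      intro i
      rw [map_sum]
      apply Finset.sum_congr rfl
      intro j _
      show M.map OrderHom.id (cof i) (M.map (cof j) OrderHom.id x) = _
      rw [← M.map_comp]; rfl
    have h2 : ∀ j : Fin (p + 2), (M.row (q + 1)).map (cof j) (∑ i : Fin (q + 2), (M.col p).map (cof i) x)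
        = ∑ i : Fin (q + 2), M.map (cof j) (cof i) x := by
      intro j
      rw [map_sum]
      apply Finset.sum_congr rfl
      intro i _
      show M.map (cof j) OrderHom.id (M.map OrderHom.id (cof i) x) = _
      rw [← M.map_comp]; rfl
    rw [Finset.sum_congr rfl fun i _ => h1 i, Finset.sum_congr rfl fun j _ => h2 j, Finset.sum_comm]

/-- The Alexander-Whitney map from the total complex to the diagonal. -/
def BCM.AW (M : BCM) (n : ℕ) (x : ∀ p q, M.X p q) : M.X n n :=
  ∑ p ∈ Finset.range (n + 1), M.map (fr p n) (bk (n - p) n) (x p (n - p))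

/-- Cochains of a pointed simplicial set (vanishing at the base point). -/
abbrev PS.cm (P : PS) : CM where
  X n := P.X n → k
  map {m n} a :=
    { toFun := fun φ y => (P.map a y).elim 0 φ
      map_add' := fun φ ψ => by
        funext y
        show (P.map a y).elim 0 (φ + ψ) = (P.map a y).elim 0 φ + (P.map a y).elim 0 ψ
        cases P.map a y <;> simp
      map_smul' := fun c φ => by
        funext y
        show (P.map a y).elim 0 (c • φ) = c • (P.map a y).elim 0 φ
        cases P.map a y <;> simp }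
  map_id φ := by
    funext y
    show (P.map OrderHom.id y).elim 0 φ = φ y
    rw [P.map_id]; rfl
  map_comp f g φ := by
    funext y
    show (P.map (g.comp f) y).elim 0 φ = (P.map g y).elim 0 (fun z => (P.map f z).elim 0 φ)
    rw [P.map_comp]
    cases P.map g y <;> simp

/-- Cochains of a simplicial set. -/
abbrev SS.cm (X : SS) : CM where
  X n := X.X n → k
  map {m n} a :=
    { toFun := fun φ y => φ (X.map a y)
      map_add' := fun φ ψ => rfl
      map_smul' := fun c φ => rfl }
  map_id φ := by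
    funext y
    show φ (X.map OrderHom.id y) = φ y
    rw [X.map_id]
  map_comp f g φ := by
    funext y
    show φ (X.map (g.comp f) y) = φ (X.map f (X.map g y))
    rw [X.map_comp]

/-- Functions on `P_p × Q_q`. -/
abbrev PS.bcm (P Q : PS) : BCM where
  X p q := P.X p × Q.X q → k
  map {p p' q q'} a b :=
    { toFun := fun φ y => (Option.map₂ Prod.mk (P.map a y.1) (Q.map b y.2)).elim 0 φ
      map_add' := fun φ ψ => by
        funext y
        show (Option.map₂ Prod.mk (P.map a y.1) (Q.map b y.2)).elim 0 (φ + ψ)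
          = (Option.map₂ Prod.mk (P.map a y.1) (Q.map b y.2)).elim 0 φ
            + (Option.map₂ Prod.mk (P.map a y.1) (Q.map b y.2)).elim 0 ψ
        cases Option.map₂ Prod.mk (P.map a y.1) (Q.map b y.2) <;> simp
      map_smul' := fun c φ => by
        funext y
        show (Option.map₂ Prod.mk (P.map a y.1) (Q.map b y.2)).elim 0 (c • φ)
          = c • (Option.map₂ Prod.mk (P.map a y.1) (Q.map b y.2)).elim 0 φ
        cases Option.map₂ Prod.mk (P.map a y.1) (Q.map b y.2) <;> simp }
  map_id φ := by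
    funext y
    show (Option.map₂ Prod.mk (P.map OrderHom.id y.1) (Q.map OrderHom.id y.2)).elim 0 φ = φ y
    rw [P.map_id, Q.map_id]; rfl
  map_comp {p p' p'' q q' q''} f f' g g' φ := by
    funext y
    show (Option.map₂ Prod.mk (P.map (f'.comp f) y.1) (Q.map (g'.comp g) y.2)).elim 0 φ
      = (Option.map₂ Prod.mk (P.map f' y.1) (Q.map g' y.2)).elim 0
          (fun z => (Option.map₂ Prod.mk (P.map f z.1) (Q.map g z.2)).elim 0 φ)
    rw [P.map_comp, Q.map_comp]
    cases h1 : P.map f' y.1 with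
    | none => simp
    | some u =>
      cases h2 : Q.map g' y.2 with
      | none => simp
      | some z => simp

/-- The cross product of cochains. -/
def PS.cross (P Q : PS) (p q n : ℕ) (f : P.X p → k) (g : Q.X q → k) : (P.smash Q).X n → k :=
  fun x => (P.map (fr p n) x.1).elim 0 f * (Q.map (bk q n) x.2).elim 0 g

end Pool.Agent.SHS


end

section

/-!
The ring of total cochains of a simplicial set, the coboundary, the Leibniz rule, and the
cohomology ring `H X` (total cohomology: product over all degrees).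
-/

namespace Pool.Agent.SHS

/-- coface with a natural number as index -/
def cofN (i n : ℕ) : Mor n (n + 1) where
  toFun j := ⟨if j.1 < i then j.1 else j.1 + 1, by split <;> omega⟩
  monotone' := by
    intro a b h
    have h' : a.1 ≤ b.1 := h
    show (if a.1 < i then a.1 else a.1 + 1) ≤ (if b.1 < i then b.1 else b.1 + 1)
    split_ifs <;> omega

theorem fr_val (p n : ℕ) (i : Fin (p + 1)) : ((fr p n) i : ℕ) = min i.1 n := rfl
theorem bk_val (q n : ℕ) (i : Fin (q + 1)) : ((bk q n) i : ℕ) = min (i.1 + (n - q)) n := rfl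
theorem cofN_val (i n : ℕ) (j : Fin (n + 1)) :
    ((cofN i n) j : ℕ) = if j.1 < i then j.1 else j.1 + 1 := rfl

theorem cof_eq_cofN {n : ℕ} (i : Fin (n + 2)) : cof i = cofN i.1 n := by
  ext j
  rw [cofN_val, cof_apply]
  simp only [Fin.succAbove, Fin.lt_def, Fin.val_castSucc]
  split_ifs <;> simp

theorem sum_cof {M : Type*} [AddCommMonoid M] {n : ℕ} (G : Mor n (n + 1) → M) :
    ∑ i : Fin (n + 2), G (cof i) = ∑ i ∈ Finset.range (n + 2), G (cofN i n) := by
  rw [Finset.sum_range]
  exact Finset.sum_congr rfl fun i _ => by rw [cof_eq_cofN]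

theorem mor_ext {m n : ℕ} {f g : Mor m n} (h : ∀ i : Fin (m + 1), (f i : ℕ) = g i) : f = g := by
  ext i
  exact h i

theorem comp_val {l m n : ℕ} (g : Mor m n) (f : Mor l m) (i : Fin (l + 1)) :
    ((g.comp f) i : ℕ) = g (f i) := rfl

theorem fr_self (n : ℕ) : fr n n = OrderHom.id := by
  apply mor_ext; intro i; rw [fr_val]; have := i.2
  show min i.1 n = i.1
  omega

theorem bk_self (n : ℕ) : bk n n = OrderHom.id := by
  apply mor_ext; intro i; rw [bk_val]; have := i.2
  show min (i.1 + (n - n)) n = i.1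
  omega

theorem fr_fr {p a n : ℕ} (h : p ≤ a) : (fr a n).comp (fr p a) = fr p n := by
  apply mor_ext; intro i; have := i.2
  rw [comp_val, fr_val, fr_val, fr_val]; omega

theorem bk_bk {r b n : ℕ} (h : r ≤ b) (h' : b ≤ n) : (bk b n).comp (bk r b) = bk r n := by
  apply mor_ext; intro i; have := i.2
  rw [comp_val, bk_val, bk_val, bk_val]; omega

theorem fr_bk (p q r : ℕ) :
    (fr (p + q) (p + q + r)).comp (bk q (p + q)) = (bk (q + r) (p + q + r)).comp (fr q (q + r)) := by
  apply mor_ext; intro i; have := i.2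
  rw [comp_val, comp_val, fr_val, bk_val, bk_val, fr_val]; omega

theorem cofN_fr_le {p q i : ℕ} (h : i ≤ p) :
    (cofN i (p + q)).comp (fr p (p + q)) = (fr (p + 1) (p + q + 1)).comp (cofN i p) := by
  apply mor_ext; intro j; have := j.2
  rw [comp_val, comp_val, cofN_val, fr_val, fr_val, cofN_val]; split_ifs <;> omega

theorem cofN_bk_le {p q i : ℕ} (h : i ≤ p) :
    (cofN i (p + q)).comp (bk q (p + q)) = bk q (p + q + 1) := by
  apply mor_ext; intro j; have := j.2
  rw [comp_val, cofN_val, bk_val, bk_val]; split_ifs <;> omega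

theorem cofN_fr_gt {p q i : ℕ} (h : p < i) :
    (cofN i (p + q)).comp (fr p (p + q)) = fr p (p + q + 1) := by
  apply mor_ext; intro j; have := j.2
  rw [comp_val, cofN_val, fr_val, fr_val]; split_ifs <;> omega

theorem cofN_bk_gt {p q j : ℕ} :
    (cofN (p + 1 + j) (p + q)).comp (bk q (p + q)) = (bk (q + 1) (p + q + 1)).comp (cofN (j + 1) q) := by
  apply mor_ext; intro i; have := i.2
  rw [comp_val, comp_val, cofN_val, bk_val, bk_val, cofN_val]; split_ifs <;> omega

theorem fr_cofN_last {p q : ℕ} : (fr (p + 1) (p + q + 1)).comp (cofN (p + 1) p) = fr p (p + q + 1) := by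
  apply mor_ext; intro j; have := j.2
  rw [comp_val, fr_val, cofN_val, fr_val]; split_ifs <;> omega

theorem bk_cofN_zero {p q : ℕ} : (bk (q + 1) (p + q + 1)).comp (cofN 0 q) = bk q (p + q + 1) := by
  apply mor_ext; intro j; have := j.2
  rw [comp_val, bk_val, cofN_val, bk_val]; split_ifs <;> omega

/-- Total cochains. -/
structure Coch (X : SS) where
  v : ∀ n : ℕ, X.X n → k

namespace Coch
variable {X : SS}

instance : CoeFun (Coch X) (fun _ => ∀ n : ℕ, X.X n → k) := ⟨Coch.v⟩

theorem v_inj : Function.Injective (Coch.v (X := X)) := by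
  rintro ⟨f⟩ ⟨g⟩ h
  exact congrArg Coch.mk h

@[ext] theorem ext {f g : Coch X} (h : ∀ n x, f n x = g n x) : f = g :=
  v_inj (funext fun n => funext fun x => h n x)

instance : Zero (Coch X) := ⟨⟨fun _ _ => 0⟩⟩
instance : Add (Coch X) := ⟨fun f g => ⟨fun n x => f n x + g n x⟩⟩
instance : Neg (Coch X) := ⟨fun f => ⟨fun n x => - f n x⟩⟩
instance : Sub (Coch X) := ⟨fun f g => ⟨fun n x => f n x - g n x⟩⟩
instance : SMul k (Coch X) := ⟨fun c f => ⟨fun n x => c * f n x⟩⟩
instance : SMul ℕ (Coch X) := ⟨fun c f => ⟨fun n x => c • f n x⟩⟩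
instance : SMul ℤ (Coch X) := ⟨fun c f => ⟨fun n x => c • f n x⟩⟩

instance : AddCommGroup (Coch X) :=
  Function.Injective.addCommGroup Coch.v v_inj rfl (fun _ _ => rfl) (fun _ => rfl)
    (fun _ _ => rfl) (fun _ _ => rfl) (fun _ _ => rfl)

instance : Module k (Coch X) :=
  Function.Injective.module k
    ({ toFun := Coch.v, map_zero' := rfl, map_add' := fun _ _ => rfl } : Coch X →+ (∀ n : ℕ, X.X n → k))
    v_inj (fun _ _ => rfl)

@[simp] theorem cadd_apply (f g : Coch X) (n : ℕ) (x : X.X n) : (f + g) n x = f n x + g n x := rfl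
@[simp] theorem czero_apply (n : ℕ) (x : X.X n) : (0 : Coch X) n x = 0 := rfl
@[simp] theorem csmul_apply (c : k) (f : Coch X) (n : ℕ) (x : X.X n) : (c • f) n x = c * f n x := rfl
@[simp] theorem cneg_apply (f : Coch X) (n : ℕ) (x : X.X n) : (-f) n x = - f n x := rfl
@[simp] theorem csub_apply (f g : Coch X) (n : ℕ) (x : X.X n) : (f - g) n x = f n x - g n x := rfl

instance : One (Coch X) := ⟨⟨fun n _ => if n = 0 then 1 else 0⟩⟩

instance : Mul (Coch X) := ⟨fun f g => ⟨fun n x =>
  ∑ p ∈ Finset.HasAntidiagonal.antidiagonal n, f p.1 (X.map (fr p.1 n) x) * g p.2 (X.map (bk p.2 n) x)⟩⟩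

theorem cone_apply (n : ℕ) (x : X.X n) : (1 : Coch X) n x = if n = 0 then 1 else 0 := rfl

theorem cmul_apply (f g : Coch X) (n : ℕ) (x : X.X n) : (f * g) n x =
    ∑ p ∈ Finset.HasAntidiagonal.antidiagonal n, f p.1 (X.map (fr p.1 n) x) * g p.2 (X.map (bk p.2 n) x) := rfl

protected theorem mul_assoc (f g h : Coch X) : f * g * h = f * (g * h) := by
  ext n x
  rw [cmul_apply, cmul_apply]
  simp only [cmul_apply, Finset.sum_mul, Finset.mul_sum]
  rw [Finset.sum_sigma', Finset.sum_sigma']
  refine Finset.sum_nbij' (fun s => ⟨(s.2.1, s.2.2 + s.1.2), (s.2.2, s.1.2)⟩)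
    (fun s => ⟨(s.1.1 + s.2.1, s.2.2), (s.1.1, s.2.1)⟩) ?_ ?_ ?_ ?_ ?_
  · rintro ⟨⟨a, r⟩, ⟨p, q⟩⟩ hs
    simp only [Finset.mem_sigma, Finset.HasAntidiagonal.mem_antidiagonal] at hs ⊢
    refine ⟨?_, trivial⟩
    omega
  · rintro ⟨⟨a, r⟩, ⟨p, q⟩⟩ hs
    simp only [Finset.mem_sigma, Finset.HasAntidiagonal.mem_antidiagonal] at hs ⊢
    refine ⟨?_, trivial⟩
    omega
  · rintro ⟨⟨a, r⟩, ⟨p, q⟩⟩ hs
    simp only [Finset.mem_sigma, Finset.HasAntidiagonal.mem_antidiagonal] at hs
    obtain ⟨h1, h2⟩ := hs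
    subst h2; rfl
  · rintro ⟨⟨a, r⟩, ⟨p, q⟩⟩ hs
    simp only [Finset.mem_sigma, Finset.HasAntidiagonal.mem_antidiagonal] at hs
    obtain ⟨h1, h2⟩ := hs
    subst h2; rfl
  · rintro ⟨⟨a, r⟩, ⟨p, q⟩⟩ hs
    simp only [Finset.mem_sigma, Finset.HasAntidiagonal.mem_antidiagonal] at hs
    obtain ⟨h1, h2⟩ := hs
    subst h2; subst h1
    simp only
    rw [← X.map_comp, ← X.map_comp, ← X.map_comp, ← X.map_comp, fr_fr (by omega), fr_bk,
      bk_bk (by omega) (by omega), mul_assoc]

protected theorem one_mul (f : Coch X) : 1 * f = f := by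
  ext n x
  rw [cmul_apply, Finset.sum_eq_single (0, n)]
  · simp only [cone_apply, if_true, bk_self, X.map_id, one_mul]
  · rintro ⟨p, q⟩ hp hne
    simp only [Finset.HasAntidiagonal.mem_antidiagonal] at hp
    have : p ≠ 0 := by rintro rfl; exact hne (by rw [← hp, zero_add])
    simp only [cone_apply, if_neg this, zero_mul]
  · intro h; exact absurd (by simp) h

protected theorem mul_one (f : Coch X) : f * 1 = f := by
  ext n x
  rw [cmul_apply, Finset.sum_eq_single (n, 0)]
  · simp only [cone_apply, if_true, fr_self, X.map_id, mul_one]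
  · rintro ⟨p, q⟩ hp hne
    simp only [Finset.HasAntidiagonal.mem_antidiagonal] at hp
    have : q ≠ 0 := by rintro rfl; exact hne (by rw [← hp, add_zero])
    simp only [cone_apply, if_neg this, mul_zero]
  · intro h; exact absurd (by simp) h

protected theorem left_distrib (f g h : Coch X) : f * (g + h) = f * g + f * h := by
  ext n x
  simp only [cmul_apply, cadd_apply, mul_add, Finset.sum_add_distrib]

protected theorem right_distrib (f g h : Coch X) : (f + g) * h = f * h + g * h := by
  ext n x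
  simp only [cmul_apply, cadd_apply, add_mul, Finset.sum_add_distrib]

instance : Ring (Coch X) :=
  { (inferInstance : AddCommGroup (Coch X)) with
    mul := (· * ·)
    one := 1
    mul_assoc := Coch.mul_assoc
    one_mul := Coch.one_mul
    mul_one := Coch.mul_one
    left_distrib := Coch.left_distrib
    right_distrib := Coch.right_distrib
    zero_mul := fun f => by ext n x; simp [cmul_apply]
    mul_zero := fun f => by ext n x; simp [cmul_apply] }

instance : Algebra k (Coch X) := Algebra.ofModule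
  (fun c f g => by
    ext n x
    simp only [cmul_apply, csmul_apply, Finset.mul_sum]
    exact Finset.sum_congr rfl fun p _ => by ring)
  (fun c f g => by
    ext n x
    simp only [cmul_apply, csmul_apply, Finset.mul_sum]
    exact Finset.sum_congr rfl fun p _ => by ring)

/-- The coboundary, as a function. -/
def dltFun (f : Coch X) : ∀ n, X.X n → k
  | 0 => fun _ => 0
  | n + 1 => fun x => ∑ i : Fin (n + 2), f n (X.map (cof i) x)

/-- The coboundary. -/
def dlt : Coch X →ₗ[k] Coch X where
  toFun f := ⟨dltFun f⟩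
  map_add' f g := by
    ext n x
    cases n with
    | zero => simp [dltFun]
    | succ n => simp [dltFun, Finset.sum_add_distrib]
  map_smul' c f := by
    ext n x
    cases n with
    | zero => simp [dltFun]
    | succ n => simp [dltFun, Finset.mul_sum]

theorem dlt_zero (f : Coch X) (x : X.X 0) : dlt f 0 x = 0 := rfl

theorem dlt_succ (f : Coch X) (n : ℕ) (x : X.X (n + 1)) :
    dlt f (n + 1) x = ∑ i : Fin (n + 2), f n (X.map (cof i) x) := rfl

theorem dlt_succ' (f : Coch X) (n : ℕ) (x : X.X (n + 1)) :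
    dlt f (n + 1) x = ∑ i ∈ Finset.range (n + 2), f n (X.map (cofN i n) x) := by
  rw [dlt_succ, sum_cof (fun a => f n (X.map a x))]

theorem dlt_dlt (f : Coch X) : dlt (dlt f) = 0 := by
  ext n x
  cases n with
  | zero => rfl
  | succ n =>
    cases n with
    | zero => simp [dlt_succ, dlt_zero]
    | succ n =>
      rw [dlt_succ]
      simp only [dlt_succ, ← X.map_comp]
      exact sum_cof_cof (fun a => f n (X.map a x))

theorem leibniz (f g : Coch X) : dlt (f * g) = dlt f * g + f * dlt g := by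
  ext n x
  cases n with
  | zero => simp [dlt_zero, cmul_apply]
  | succ n =>
    rw [cadd_apply, cmul_apply, cmul_apply, dlt_succ', Finset.Nat.sum_antidiagonal_succ,
      Finset.Nat.sum_antidiagonal_succ']
    simp only [dlt_zero, zero_mul, mul_zero, zero_add]
    rw [← Finset.sum_add_distrib]
    simp only [cmul_apply]
    rw [Finset.sum_comm]
    apply Finset.sum_congr rfl
    rintro ⟨p, q⟩ hpq
    simp only [Finset.HasAntidiagonal.mem_antidiagonal] at hpq
    subst hpq
    simp only
    rw [dlt_succ', dlt_succ', show p + q + 2 = (p + 1) + (q + 1) by ring, Finset.sum_range_add]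
    rw [show p + 2 = (p + 1) + 1 by ring, Finset.sum_range_succ (n := p + 1)]
    rw [Finset.sum_range_succ' (n := q + 1)]
    simp only [← X.map_comp]
    rw [fr_cofN_last, bk_cofN_zero, add_mul, mul_add]
    have e1 : ∑ i ∈ Finset.range (p + 1), f p (X.map ((cofN i (p + q)).comp (fr p (p + q))) x)
          * g q (X.map ((cofN i (p + q)).comp (bk q (p + q))) x)
        = (∑ i ∈ Finset.range (p + 1), f p (X.map ((fr (p + 1) (p + q + 1)).comp (cofN i p)) x))
          * g q (X.map (bk q (p + q + 1)) x) := by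
      rw [Finset.sum_mul]
      apply Finset.sum_congr rfl
      intro i hi
      rw [Finset.mem_range] at hi
      rw [cofN_fr_le (by omega), cofN_bk_le (by omega)]
    have e2 : ∑ j ∈ Finset.range (q + 1), f p (X.map ((cofN (p + 1 + j) (p + q)).comp (fr p (p + q))) x)
          * g q (X.map ((cofN (p + 1 + j) (p + q)).comp (bk q (p + q))) x)
        = f p (X.map (fr p (p + q + 1)) x) *
          ∑ j ∈ Finset.range (q + 1), g q (X.map ((bk (q + 1) (p + q + 1)).comp (cofN (j + 1) q)) x) := by
      rw [Finset.mul_sum]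
      apply Finset.sum_congr rfl
      intro j hj
      rw [cofN_fr_gt (by omega), cofN_bk_gt]
    rw [e1, e2]
    have := k_two (f p (X.map (fr p (p + q + 1)) x) * g q (X.map (bk q (p + q + 1)) x))
    linear_combination (-1 : k) * this

end Coch

end Pool.Agent.SHS


end

section

/-!
The cohomology ring `H X`, first only as a (non-commutative) ring; functoriality.
-/

namespace Pool.Agent.SHS

open Coch

theorem Coch.dlt_one {X : SS} : dlt (1 : Coch X) = 0 := by
  ext n x
  cases n with
  | zero => rfl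
  | succ n =>
    rw [dlt_succ]
    simp only [cone_apply, czero_apply]
    cases n with
    | zero =>
      simp only [if_true]
      rw [Fin.sum_univ_two]
      exact k_two 1
    | succ n => simp

/-- Cocycles form a subalgebra. -/
def Cocyc (X : SS) : Subalgebra k (Coch X) where
  carrier := {f | dlt f = 0}
  mul_mem' := fun {f g} hf hg => by
    show dlt (f * g) = 0
    rw [leibniz, show dlt f = 0 from hf, show dlt g = 0 from hg, zero_mul, mul_zero, add_zero]
  add_mem' := fun {f g} hf hg => by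
    show dlt (f + g) = 0
    rw [map_add, show dlt f = 0 from hf, show dlt g = 0 from hg, add_zero]
  algebraMap_mem' := fun c => by
    show dlt (algebraMap k (Coch X) c) = 0
    rw [Algebra.algebraMap_eq_smul_one, map_smul, dlt_one, smul_zero]

/-- Coboundaries form a two-sided ideal of the algebra of cocycles. -/
def Cobd (X : SS) : Ideal (Cocyc X) where
  carrier := {f | ∃ g : Coch X, dlt g = f.1}
  zero_mem' := ⟨0, map_zero _⟩
  add_mem' := by
    rintro a b ⟨g, hg⟩ ⟨h, hh⟩
    exact ⟨g + h, by rw [map_add, hg, hh]; rfl⟩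
  smul_mem' := by
    rintro c a ⟨g, hg⟩
    refine ⟨c.1 * g, ?_⟩
    rw [leibniz, show dlt c.1 = 0 from c.2, zero_mul, zero_add, hg]
    rfl

instance (X : SS) : (Cobd X).IsTwoSided where
  mul_mem_of_left := by
    rintro a b ⟨g, hg⟩
    refine ⟨g * b.1, ?_⟩
    rw [leibniz, show dlt b.1 = 0 from b.2, mul_zero, add_zero, hg]
    rfl

/-- The total cohomology ring (product of all cohomology groups). -/
def H (X : SS) : Type := Cocyc X ⧸ Cobd X

noncomputable instance (X : SS) : Ring (H X) := inferInstanceAs (Ring (Cocyc X ⧸ Cobd X))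
noncomputable instance (X : SS) : Algebra k (H X) := inferInstanceAs (Algebra k (Cocyc X ⧸ Cobd X))

/-- The class of a cocycle. -/
noncomputable def cls {X : SS} : Cocyc X →ₐ[k] H X := Ideal.Quotient.mkₐ k (Cobd X)

theorem cls_surjective {X : SS} : Function.Surjective (cls (X := X)) :=
  Ideal.Quotient.mkₐ_surjective k (Cobd X)

theorem cls_eq_zero {X : SS} (f : Cocyc X) : cls f = 0 ↔ ∃ g : Coch X, dlt g = f.1 :=
  Ideal.Quotient.eq_zero_iff_mem

theorem cls_eq {X : SS} (f g : Cocyc X) : cls f = cls g ↔ ∃ h : Coch X, dlt h = f.1 - g.1 := by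
  rw [← sub_eq_zero, ← map_sub, cls_eq_zero]; rfl

/-- Cochains of degree `n`. -/
def CochD (X : SS) (n : ℕ) : Submodule k (Coch X) where
  carrier := {f | ∀ m, m ≠ n → ∀ x, f m x = 0}
  zero_mem' := fun _ _ _ => rfl
  add_mem' := fun {f g} hf hg m hm x => by
    show f m x + g m x = 0
    rw [hf m hm, hg m hm, add_zero]
  smul_mem' := fun c f hf m hm x => by
    show c * f m x = 0
    rw [hf m hm, mul_zero]

/-- The degree `n` part of the cohomology ring. -/
noncomputable def Hn (X : SS) (n : ℕ) : Submodule k (H X) :=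
  ((CochD X n).comap (Cocyc X).val.toLinearMap).map (cls (X := X)).toLinearMap

theorem mem_Hn {X : SS} {n : ℕ} {a : H X} :
    a ∈ Hn X n ↔ ∃ f : Cocyc X, f.1 ∈ CochD X n ∧ cls f = a := Iff.rfl

/-- The cochain of degree `n` given by a function on `n`-simplices. -/
def Coch.single {X : SS} (n : ℕ) (φ : X.X n → k) : Coch X :=
  ⟨fun m x => if h : m = n then φ (h ▸ x) else 0⟩

theorem Coch.single_self {X : SS} (n : ℕ) (φ : X.X n → k) (x : X.X n) : single n φ n x = φ x := by
  show (if h : n = n then φ (h ▸ x) else 0) = φ x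
  rw [dif_pos rfl]

theorem Coch.single_ne {X : SS} {m n : ℕ} (h : m ≠ n) (φ : X.X n → k) (x : X.X m) :
    single n φ m x = 0 := dif_neg h

theorem Coch.single_mem {X : SS} (n : ℕ) (φ : X.X n → k) : single n φ ∈ CochD X n :=
  fun _ h x => single_ne h φ x

theorem Coch.eq_single {X : SS} {n : ℕ} {f : Coch X} (hf : f ∈ CochD X n) : f = single n (f n) := by
  ext m x
  by_cases h : m = n
  · subst h; rw [single_self]
  · rw [single_ne h, hf m h]

/-- Pull back of cochains. -/
def Coch.pull {X Y : SS} (φ : SS.Hom X Y) : Coch Y →ₐ[k] Coch X where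
  toFun f := ⟨fun n x => f n (φ.f n x)⟩
  map_one' := rfl
  map_mul' f g := by
    ext n x
    show (f * g) n (φ.f n x) = _
    rw [cmul_apply, cmul_apply]
    simp only [φ.nat]
  map_zero' := rfl
  map_add' f g := rfl
  commutes' c := rfl

theorem Coch.pull_apply {X Y : SS} (φ : SS.Hom X Y) (f : Coch Y) (n : ℕ) (x : X.X n) :
    pull φ f n x = f n (φ.f n x) := rfl

theorem Coch.dlt_pull {X Y : SS} (φ : SS.Hom X Y) (f : Coch Y) : dlt (pull φ f) = pull φ (dlt f) := by
  ext n x
  cases n with
  | zero => rfl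
  | succ n =>
    rw [dlt_succ, pull_apply, dlt_succ]
    simp only [pull_apply, φ.nat]

/-- Pull back of cocycles. -/
def Cocyc.pull {X Y : SS} (φ : SS.Hom X Y) : Cocyc Y →ₐ[k] Cocyc X :=
  ((Coch.pull φ).comp (Cocyc Y).val).codRestrict (Cocyc X) (fun f => by
    show dlt (Coch.pull φ f.1) = 0
    rw [dlt_pull, show dlt f.1 = 0 from f.2, map_zero])

/-- The ring homomorphism induced in cohomology. -/
noncomputable def H.map {X Y : SS} (φ : SS.Hom X Y) : H Y →ₐ[k] H X :=
  Ideal.Quotient.liftₐ (Cobd Y) ((cls (X := X)).comp (Cocyc.pull φ)) (by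
    rintro a ⟨g, hg⟩
    show cls (Cocyc.pull φ a) = 0
    rw [cls_eq_zero]
    exact ⟨Coch.pull φ g, by rw [dlt_pull, hg]; rfl⟩)

theorem H.map_cls {X Y : SS} (φ : SS.Hom X Y) (f : Cocyc Y) :
    H.map φ (cls f) = cls (Cocyc.pull φ f) := rfl

theorem H.map_id {X : SS} (a : H X) : H.map (SS.Hom.id X) a = a := by
  obtain ⟨f, rfl⟩ := cls_surjective a
  rfl

theorem H.map_comp {X Y Z : SS} (g : SS.Hom Y Z) (f : SS.Hom X Y) (a : H Z) :
    H.map (g.comp f) a = H.map f (H.map g a) := by
  obtain ⟨z, rfl⟩ := cls_surjective a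
  rfl

theorem H.map_mem {X Y : SS} (φ : SS.Hom X Y) {n : ℕ} {a : H Y} (h : a ∈ Hn Y n) :
    H.map φ a ∈ Hn X n := by
  obtain ⟨f, hf, rfl⟩ := mem_Hn.mp h
  refine mem_Hn.mpr ⟨Cocyc.pull φ f, ?_, rfl⟩
  intro m hm x
  exact hf m hm (φ.f m x)

end Pool.Agent.SHS


end

section

/-!
Cup-i products by a two-state automaton, and their coboundary formula.
`E m L Φ` runs through the list of vertices `L`; letters go to the first list; at `m` switch
points the letter goes to both lists and the roles are exchanged.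
-/

namespace Pool.Agent.SHS

section automaton
variable {V : Type*}

def E : ℕ → List V → (List V → List V → k) → k
  | 0, [], Φ => Φ [] []
  | _ + 1, [], _ => 0
  | 0, v :: L, Φ => E 0 L (fun a b => Φ (v :: a) b)
  | m + 1, v :: L, Φ => E (m + 1) L (fun a b => Φ (v :: a) b) + E m L (fun a b => Φ (v :: b) (v :: a))

theorem E_add (m : ℕ) (L : List V) (Φ Ψ : List V → List V → k) :
    E m L (fun a b => Φ a b + Ψ a b) = E m L Φ + E m L Ψ := by
  induction L generalizing m Φ Ψ with
  | nil => cases m <;> simp [E]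
  | cons v L ih =>
    cases m with
    | zero => simp only [E]; rw [ih]
    | succ m => simp only [E]; rw [ih, ih]; ring

theorem E_smul (m : ℕ) (L : List V) (c : k) (Φ : List V → List V → k) :
    E m L (fun a b => c * Φ a b) = c * E m L Φ := by
  induction L generalizing m Φ with
  | nil => cases m <;> simp [E]
  | cons v L ih =>
    cases m with
    | zero => simp only [E]; rw [ih]
    | succ m => simp only [E]; rw [ih, ih]; ring

theorem E_congr (m : ℕ) (L : List V) (Φ Ψ : List V → List V → k)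
    (h : ∀ a b, a.Sublist L → b.Sublist L → Φ a b = Ψ a b) : E m L Φ = E m L Ψ := by
  induction L generalizing m Φ Ψ with
  | nil =>
    cases m with
    | zero => exact h [] [] (List.Sublist.refl _) (List.Sublist.refl _)
    | succ m => rfl
  | cons v L ih =>
    cases m with
    | zero =>
      simp only [E]
      exact ih 0 _ _ fun a b ha hb => h _ _ (ha.cons_cons v) (hb.cons v)
    | succ m =>
      simp only [E]
      rw [ih (m + 1) _ _ fun a b ha hb => h _ _ (ha.cons_cons v) (hb.cons v),
        ih m _ _ fun a b ha hb => h _ _ (hb.cons_cons v) (ha.cons_cons v)]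

theorem E_map {W : Type*} (g : V → W) (m : ℕ) (L : List V) (Φ : List W → List W → k) :
    E m (L.map g) Φ = E m L (fun a b => Φ (a.map g) (b.map g)) := by
  induction L generalizing m Φ with
  | nil => cases m <;> rfl
  | cons v L ih =>
    cases m with
    | zero => simp only [E, List.map_cons]; rw [ih]
    | succ m => simp only [E, List.map_cons]; rw [ih, ih]

theorem E_zero (L : List V) (Φ : List V → List V → k) : E 0 L Φ = Φ L [] := by
  induction L generalizing Φ with
  | nil => rfl
  | cons v L ih => simp only [E]; rw [ih]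

theorem E_one (L : List V) (Φ : List V → List V → k) :
    E 1 L Φ = ∑ j ∈ Finset.range L.length, Φ (L.take (j + 1)) (L.drop j) := by
  induction L generalizing Φ with
  | nil => rfl
  | cons v L ih =>
    simp only [E]
    rw [ih, E_zero, List.length_cons, Finset.sum_range_succ']
    rfl

/-- boundary of a function of two lists -/
def bd (Φ : List V → List V → k) (a b : List V) : k :=
  (∑ j ∈ Finset.range a.length, Φ (a.eraseIdx j) b) + ∑ j ∈ Finset.range b.length, Φ a (b.eraseIdx j)

theorem bd_swap (Φ : List V → List V → k) (a b : List V) :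
    bd (fun a b => Φ b a) a b = bd Φ b a := by
  unfold bd; rw [add_comm]

theorem bd_cons_left (Φ : List V → List V → k) (v : V) (a b : List V) :
    bd Φ (v :: a) b = Φ a b + bd (fun a b => Φ (v :: a) b) a b := by
  unfold bd
  rw [List.length_cons, Finset.sum_range_succ']
  simp only [List.eraseIdx_cons_succ, List.eraseIdx_cons_zero]
  ring

theorem bd_cons_both (Φ : List V → List V → k) (v : V) (a b : List V) :
    bd Φ (v :: a) (v :: b)
      = Φ a (v :: b) + Φ (v :: a) b + bd (fun a b => Φ (v :: a) (v :: b)) a b := by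
  unfold bd
  rw [List.length_cons, List.length_cons, Finset.sum_range_succ', Finset.sum_range_succ']
  simp only [List.eraseIdx_cons_succ, List.eraseIdx_cons_zero]
  ring

theorem E_bd_zero (L : List V) (Φ : List V → List V → k) :
    E 0 L (bd Φ) + ∑ j ∈ Finset.range L.length, E 0 (L.eraseIdx j) Φ = 0 := by
  rw [E_zero]
  simp only [E_zero, bd, List.length_nil, Finset.range_zero, Finset.sum_empty, add_zero]
  exact k_two _

theorem E_bd (m : ℕ) (L : List V) (Φ : List V → List V → k) :
    E (m + 1) L (bd Φ) + ∑ j ∈ Finset.range L.length, E (m + 1) (L.eraseIdx j) Φ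
      = E m L Φ + E m L (fun a b => Φ b a) := by
  induction L generalizing m Φ with
  | nil =>
    cases m with
    | zero =>
      simp only [E, List.length_nil, Finset.range_zero, Finset.sum_empty, add_zero]
      exact (k_two _).symm
    | succ m => simp only [E, List.length_nil, Finset.range_zero, Finset.sum_empty]
  | cons v L ih =>
    rw [List.length_cons, Finset.sum_range_succ']
    simp only [List.eraseIdx_cons_succ, List.eraseIdx_cons_zero]
    simp only [E, Finset.sum_add_distrib]
    have i1 := ih m (fun a b => Φ (v :: a) b)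
    have e1 : E (m + 1) L (fun a b => bd Φ (v :: a) b)
        = E (m + 1) L Φ + E (m + 1) L (bd fun a b => Φ (v :: a) b) := by
      simp only [bd_cons_left]
      exact E_add _ _ _ _
    have e2 : E m L (fun a b => bd Φ (v :: b) (v :: a))
        = E m L (fun a b => Φ b (v :: a)) + E m L (fun a b => Φ (v :: b) a)
          + E m L (bd fun a b => Φ (v :: b) (v :: a)) := by
      simp only [bd_cons_both]
      rw [E_add, E_add]
      congr 1
      apply E_congr
      intro a b _ _
      exact (bd_swap (fun a b => Φ (v :: a) (v :: b)) a b).symm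
    rw [e1, e2]
    cases m with
    | zero =>
      have i2 := E_bd_zero L (fun a b => Φ (v :: b) (v :: a))
      have t1 := k_two (E 1 L Φ)
      have t2 := k_two (E 0 L (fun a b => Φ (v :: b) a))
      simp only [zero_add] at i1 ⊢
      simp only [E] at i1 i2 t1 t2 ⊢
      linear_combination i1 + i2 + t1 + t2
    | succ m =>
      have i2 := ih m (fun a b => Φ (v :: b) (v :: a))
      have t1 := k_two (E (m + 1 + 1) L Φ)
      have t2 := k_two (E (m + 1) L (fun a b => Φ (v :: b) a))
      simp only [E] at i1 i2 t1 t2 ⊢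
      linear_combination i1 + i2 + t1 + t2

end automaton

section ev
variable {X : SS} {n : ℕ}

theorem ofFn_eq {p p' : ℕ} {u : Mor p n} {u' : Mor p' n} (h : List.ofFn u = List.ofFn u')
    (f : Coch X) (x : X.X n) : f p (X.map u x) = f p' (X.map u' x) := by
  have hl : p = p' := by
    have := congrArg List.length h
    rw [List.length_ofFn, List.length_ofFn] at this
    omega
  subst hl
  have : u = u' := by
    apply OrderHom.ext
    exact List.ofFn_injective h
  rw [this]

/-- Value of a cochain on the face of `x` given by a list of vertices (0 for the empty list and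
for lists which are not monotone). -/
noncomputable def evl (f : Coch X) (x : X.X n) (a : List (Fin (n + 1))) : k :=
  open Classical in
  if h : ∃ (p : ℕ) (u : Mor p n), a = List.ofFn u then
    f h.choose (X.map h.choose_spec.choose x) else 0

theorem evl_ofFn (f : Coch X) (x : X.X n) {p : ℕ} (u : Mor p n) :
    evl f x (List.ofFn u) = f p (X.map u x) := by
  have h : ∃ (p' : ℕ) (u' : Mor p' n), List.ofFn u = List.ofFn u' := ⟨p, u, rfl⟩
  unfold evl
  rw [dif_pos h]
  exact (ofFn_eq h.choose_spec.choose_spec f x).symm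

theorem evl_nil (f : Coch X) (x : X.X n) : evl f x [] = 0 := by
  unfold evl
  rw [dif_neg]
  rintro ⟨p, u, hu⟩
  have := congrArg List.length hu
  rw [List.length_ofFn] at this
  simp at this

theorem sub_cases (a : List (Fin (n + 1))) (h : a.Sublist (List.finRange (n + 1))) :
    a = [] ∨ ∃ (p : ℕ) (u : Mor p n), a = List.ofFn u := by
  rcases Nat.eq_zero_or_pos a.length with h0 | h0
  · left; exact List.eq_nil_of_length_eq_zero h0
  · right
    have hs : a.Pairwise (· < ·) := List.Pairwise.sublist h (List.pairwise_lt_finRange (n + 1))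
    have hp : a.length = (a.length - 1) + 1 := by omega
    refine ⟨a.length - 1, ⟨fun i => a.get (Fin.cast hp.symm i), ?_⟩, ?_⟩
    · intro i j hij
      rcases eq_or_lt_of_le hij with h1 | h1
      · rw [h1]
      · apply le_of_lt
        exact List.pairwise_iff_get.mp hs _ _ (by simpa using h1)
    · apply List.ext_getElem
      · rw [List.length_ofFn]; exact hp
      · intro i h1 h2
        rw [List.getElem_ofFn]
        rfl

theorem ofFn_eraseIdx {p : ℕ} (u : Mor (p + 1) n) (j : ℕ) (hj : j < p + 2) :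
    (List.ofFn u).eraseIdx j = List.ofFn (u.comp (cofN j p)) := by
  apply List.ext_getElem
  · rw [List.length_eraseIdx, List.length_ofFn, List.length_ofFn, if_pos hj]; rfl
  · intro i h1 h2
    rw [List.getElem_eraseIdx]
    simp only [List.getElem_ofFn]
    rw [List.length_ofFn] at h2
    split_ifs with h
    · show u _ = u (cofN j p ⟨i, h2⟩)
      congr 1
      ext
      rw [cofN_val]
      simp [h]
    · show u _ = u (cofN j p ⟨i, h2⟩)
      congr 1
      ext
      rw [cofN_val]
      simp [h]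

theorem evl_dlt (f : Coch X) (x : X.X n) (a : List (Fin (n + 1)))
    (h : a.Sublist (List.finRange (n + 1))) :
    evl (Coch.dlt f) x a = ∑ j ∈ Finset.range a.length, evl f x (a.eraseIdx j) := by
  rcases sub_cases a h with rfl | ⟨p, u, rfl⟩
  · rw [evl_nil]; rfl
  · rw [evl_ofFn, List.length_ofFn]
    cases p with
    | zero =>
      rw [Coch.dlt_zero, show Finset.range (0 + 1) = {0} from rfl, Finset.sum_singleton]
      have : (List.ofFn u).eraseIdx 0 = [] := by
        apply List.eq_nil_of_length_eq_zero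
        rw [List.length_eraseIdx, List.length_ofFn]
        simp
      rw [this, evl_nil]
    | succ p =>
      rw [Coch.dlt_succ']
      apply Finset.sum_congr rfl
      intro j hj
      rw [Finset.mem_range] at hj
      rw [ofFn_eraseIdx u j hj, evl_ofFn, X.map_comp]

theorem finRange_eraseIdx (c : ℕ) (hc : c < n + 2) :
    (List.finRange (n + 2)).eraseIdx c = (List.finRange (n + 1)).map (cofN c n) := by
  apply List.ext_getElem
  · rw [List.length_eraseIdx]; simp [hc]
  · intro i h1 h2
    rw [List.getElem_eraseIdx]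
    simp only [List.length_map, List.length_finRange] at h2
    simp only [List.getElem_finRange, List.getElem_map]
    ext
    rw [cofN_val]
    by_cases h : i < c <;> simp [h]

theorem finRange_take (j : ℕ) (hj : j < n + 1) :
    (List.finRange (n + 1)).take (j + 1) = List.ofFn (fr j n) := by
  apply List.ext_getElem
  · rw [List.length_take, List.length_ofFn, List.length_finRange]; omega
  · intro i h1 h2
    rw [List.length_ofFn] at h2
    simp only [List.getElem_take, List.getElem_finRange, List.getElem_ofFn]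
    ext
    rw [fr_val]
    simp; omega

theorem finRange_drop (j : ℕ) (hj : j < n + 1) :
    (List.finRange (n + 1)).drop j = List.ofFn (bk (n - j) n) := by
  apply List.ext_getElem
  · rw [List.length_drop, List.length_ofFn, List.length_finRange]; omega
  · intro i h1 h2
    rw [List.length_ofFn] at h2
    simp only [List.getElem_drop, List.getElem_finRange, List.getElem_ofFn]
    ext
    rw [bk_val]
    simp; omega

theorem evl_map {m : ℕ} (f : Coch X) (g : Mor m n) (x : X.X n) (a : List (Fin (m + 1)))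
    (h : a.Sublist (List.finRange (m + 1))) :
    evl f (X.map g x) a = evl f x (a.map g) := by
  rcases sub_cases a h with rfl | ⟨p, u, rfl⟩
  · rw [evl_nil, List.map_nil, evl_nil]
  · have : (List.ofFn u).map g = List.ofFn (g.comp u) := by
      rw [List.map_ofFn]; rfl
    rw [this, evl_ofFn, evl_ofFn, X.map_comp]

end ev

/-- Cup products with `m` switch points: `cupS 1` is the cup product, `cupS (i+1)` is cup-i. -/
noncomputable def cupS {X : SS} (m : ℕ) (f g : Coch X) : Coch X :=
  ⟨fun n x => E m (List.finRange (n + 1)) (fun a b => evl f x a * evl g x b)⟩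

theorem cupS_apply {X : SS} (m : ℕ) (f g : Coch X) (n : ℕ) (x : X.X n) :
    cupS m f g n x = E m (List.finRange (n + 1)) (fun a b => evl f x a * evl g x b) := rfl

theorem cupS_zero {X : SS} (f g : Coch X) : cupS 0 f g = 0 := by
  ext n x
  rw [cupS_apply, E_zero, evl_nil, mul_zero]; rfl

theorem cupS_one {X : SS} (f g : Coch X) : cupS 1 f g = f * g := by
  ext n x
  rw [cupS_apply, E_one, Coch.cmul_apply, Finset.Nat.sum_antidiagonal_eq_sum_range_succ
    (fun p q => f p (X.map (fr p n) x) * g q (X.map (bk q n) x)), List.length_finRange]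
  apply Finset.sum_congr rfl
  intro j hj
  rw [Finset.mem_range] at hj
  rw [finRange_take j hj, finRange_drop j hj, evl_ofFn, evl_ofFn]

/-- The coboundary formula for cup-i products. -/
theorem dlt_cupS {X : SS} (m : ℕ) (f g : Coch X) :
    Coch.dlt (cupS (m + 1) f g) = cupS (m + 1) (Coch.dlt f) g + cupS (m + 1) f (Coch.dlt g)
      + cupS m f g + cupS m g f := by
  have key : ∀ (n : ℕ) (x : X.X n),
      (cupS (m + 1) (Coch.dlt f) g + cupS (m + 1) f (Coch.dlt g)) n x
        + ∑ j ∈ Finset.range (n + 1), E (m + 1) ((List.finRange (n + 1)).eraseIdx j)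
            (fun a b => evl f x a * evl g x b)
      = (cupS m f g + cupS m g f) n x := by
    intro n x
    have h := E_bd m (List.finRange (n + 1)) (fun a b => evl f x a * evl g x b)
    rw [List.length_finRange] at h
    have h2 : E (m + 1) (List.finRange (n + 1)) (bd fun a b => evl f x a * evl g x b)
        = (cupS (m + 1) (Coch.dlt f) g + cupS (m + 1) f (Coch.dlt g)) n x := by
      rw [Coch.cadd_apply, cupS_apply, cupS_apply, ← E_add]
      apply E_congr
      intro a b ha hb
      unfold bd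
      rw [evl_dlt f x a ha, evl_dlt g x b hb, Finset.sum_mul, Finset.mul_sum]
    rw [← h2, h, Coch.cadd_apply, cupS_apply, cupS_apply]
    congr 1
    apply E_congr
    intro a b _ _
    exact mul_comm _ _
  ext n x
  have hk := key n x
  cases n with
  | zero =>
    rw [Coch.dlt_zero]
    have e : ∑ j ∈ Finset.range (0 + 1), E (m + 1) ((List.finRange (0 + 1)).eraseIdx j)
            (fun a b => evl f x a * evl g x b) = 0 := by
      simp only [zero_add, Finset.range_one, Finset.sum_singleton]
      have : (List.finRange 1).eraseIdx 0 = [] := by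
        apply List.eq_nil_of_length_eq_zero
        simp
      rw [this]; rfl
    rw [e, add_zero] at hk
    rw [Coch.cadd_apply, Coch.cadd_apply, hk, Coch.cadd_apply]
    have t1 := k_two ((cupS m f g) 0 x)
    have t2 := k_two ((cupS m g f) 0 x)
    linear_combination (-1 : k) * t1 - t2
  | succ n =>
    rw [Coch.dlt_succ']
    have e : ∀ j ∈ Finset.range (n + 2), (cupS (m + 1) f g) n (X.map (cofN j n) x)
        = E (m + 1) ((List.finRange (n + 2)).eraseIdx j) (fun a b => evl f x a * evl g x b) := by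
      intro j hj
      rw [Finset.mem_range] at hj
      rw [finRange_eraseIdx j hj, E_map, cupS_apply]
      apply E_congr
      intro a b ha hb
      rw [evl_map f (cofN j n) x a ha, evl_map g (cofN j n) x b hb]
    rw [Finset.sum_congr rfl e]
    rw [Coch.cadd_apply, Coch.cadd_apply]
    rw [Coch.cadd_apply (cupS m f g)] at hk
    have t := k_two ((cupS (m + 1) (Coch.dlt f) g + cupS (m + 1) f (Coch.dlt g)) (n + 1) x)
    linear_combination hk - t

theorem cls_mul_comm {X : SS} (f g : Cocyc X) : cls f * cls g = cls g * cls f := by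
  rw [← map_mul, ← map_mul, cls_eq]
  refine ⟨cupS 2 f.1 g.1, ?_⟩
  rw [dlt_cupS 1, show Coch.dlt f.1 = 0 from f.2, show Coch.dlt g.1 = 0 from g.2]
  have z1 : cupS 2 0 g.1 = 0 := by
    ext n x
    have h := E_smul 2 (List.finRange (n + 1)) 0 (fun a b => evl (0 : Coch X) x a * evl g.1 x b)
    rw [cupS_apply]
    have h0 : ∀ a : List (Fin (n + 1)), evl (0 : Coch X) x a = 0 := by
      intro a; unfold evl; split_ifs <;> rfl
    simp only [h0, zero_mul] at h ⊢
    exact h
  have z2 : cupS 2 f.1 0 = 0 := by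
    ext n x
    have h := E_smul 2 (List.finRange (n + 1)) 0 (fun a b => evl f.1 x a * evl (0 : Coch X) x b)
    rw [cupS_apply]
    have h0 : ∀ a : List (Fin (n + 1)), evl (0 : Coch X) x a = 0 := by
      intro a; unfold evl; split_ifs <;> rfl
    simp only [h0, mul_zero, zero_mul] at h ⊢
    exact h
  rw [z1, z2, cupS_one, cupS_one, zero_add, zero_add]
  show f.1 * g.1 + g.1 * f.1 = f.1 * g.1 - g.1 * f.1
  rw [mod_two_sub]

noncomputable instance (X : SS) : CommRing (H X) :=
  { (inferInstance : Ring (H X)) with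
    mul_comm := fun a b => by
      obtain ⟨f, rfl⟩ := cls_surjective a
      obtain ⟨g, rfl⟩ := cls_surjective b
      exact cls_mul_comm f g }

end Pool.Agent.SHS


end

section

/-!
Block III-S: further definitions: powers, the circle, constant and bar constructions,
Eilenberg-MacLane objects, homogeneous bases, the operations `P s`.
-/

namespace Pool.Agent.SHS

/-! ### Homogeneous bases -/

/-- `b` is a homogeneous basis of the cohomology of `X` (in the sense that for every `n` the
elements of degree `n` form a basis of `Hn X n`). -/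
structure HB (X : SS) {I : Type} (deg : I → ℕ) (b : I → H X) : Prop where
  mem : ∀ i, b i ∈ Hn X (deg i)
  indep : LinearIndependent k b
  span : ∀ n, Hn X n ≤ Submodule.span k (b '' {i | deg i = n})

/-- Positive degree classes which vanish in degree 0 and products of two of them: the
decomposable classes. -/
noncomputable def Hpos (X : SS) : Submodule k (H X) := ⨆ n : ℕ, Hn X (n + 1)

noncomputable def Dec (X : SS) : Submodule k (H X) :=
  Submodule.span k {c | ∃ (m n : ℕ) (a b : H X), a ∈ Hn X (m + 1) ∧ b ∈ Hn X (n + 1) ∧ c = a * b}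

/-- `Z` modulo `B` is spanned by at most `N` elements. -/
def SpanLE {M : Type*} [AddCommGroup M] [Module k M] (Z B : Submodule k M) (N : ℕ) : Prop :=
  ∃ s : Finset M, s.card ≤ N ∧ Z ≤ B ⊔ Submodule.span k (s : Set M)

/-! ### Total complexes -/

/-- Cocycles of total degree `n`. -/
def DC.ZT (D : DC) (n : ℕ) : Submodule k (∀ p q, D.X p q) where
  carrier := {x | x ∈ D.Tot n ∧ D.D x = 0}
  zero_mem' := ⟨(D.Tot n).zero_mem, by
    funext p q
    cases p <;> cases q <;> simp [DC.D]⟩
  add_mem' := by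
    rintro a b ⟨ha, ha'⟩ ⟨hb, hb'⟩
    refine ⟨(D.Tot n).add_mem ha hb, ?_⟩
    have : D.D (a + b) = D.D a + D.D b := by
      funext p q
      cases p <;> cases q <;> simp [DC.D] <;> abel
    rw [this, ha', hb', add_zero]
  smul_mem' := by
    rintro c a ⟨ha, ha'⟩
    refine ⟨(D.Tot n).smul_mem c ha, ?_⟩
    have : D.D (c • a) = c • D.D a := by
      funext p q
      cases p <;> cases q <;> simp [DC.D]
    rw [this, ha', smul_zero]

/-- Coboundaries of total degree `n`. -/
def DC.BT (D : DC) : ∀ n : ℕ, Submodule k (∀ p q, D.X p q)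
  | 0 => ⊥
  | n + 1 => Submodule.span k {x | ∃ y ∈ D.Tot n, D.D y = x}

/-- Vertical cocycles at `(p,q)` whose vertical class is a horizontal cocycle. -/
def DC.Z2 (D : DC) (p : ℕ) : ∀ q : ℕ, Submodule k (D.X p q)
  | 0 => LinearMap.ker (D.dv p 0) ⊓ LinearMap.ker (D.dh p 0)
  | q + 1 => LinearMap.ker (D.dv p (q + 1)) ⊓
      (LinearMap.range (D.dv (p + 1) q)).comap (D.dh p (q + 1))

/-- Horizontal images of vertical cocycles. -/
def DC.B2h (D : DC) : ∀ p q : ℕ, Submodule k (D.X p q)
  | 0, _ => ⊥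
  | p + 1, q => (LinearMap.ker (D.dv p q)).map (D.dh p q)

/-- Vertical coboundaries. -/
def DC.B2v (D : DC) : ∀ p q : ℕ, Submodule k (D.X p q)
  | _, 0 => ⊥
  | p, q + 1 => LinearMap.range (D.dv p q)

/-! ### Powers, circle -/

/-- The `d`-fold product. -/
abbrev SS.pow (X : SS) (d : ℕ) : SS where
  X n := Fin d → X.X n
  map a x := fun i => X.map a (x i)
  map_id x := by funext i; exact X.map_id _
  map_comp f g x := by funext i; exact X.map_comp _ _ _

def SS.proj (X : SS) (d : ℕ) (i : Fin d) : SS.Hom (X.pow d) X := ⟨fun _ x => x i, fun _ _ => rfl⟩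

/-- The simplicial circle, Δ^1 / boundary. -/
abbrev S1 : SS := (PS.sphere 1).toSS

/-! ### Simplicial vector spaces -/

/-- The constant simplicial vector space. -/
abbrev SV.const (A : Type) [AddCommGroup A] [Module k A] : SV where
  X _ := A
  map _ := LinearMap.id
  map_id _ := rfl
  map_comp _ _ _ := rfl

/-- Functions on [p] with values in `A` vanishing at 0. -/
def Nrm (p : ℕ) (A : Type*) [AddCommGroup A] [Module k A] : Submodule k (Fin (p + 1) → A) where
  carrier := {g | g 0 = 0}
  zero_mem' := rfl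
  add_mem' := fun {a b} ha hb => by
    show a 0 + b 0 = 0
    rw [show a 0 = 0 from ha, show b 0 = 0 from hb, add_zero]
  smul_mem' := fun c a ha => by
    show c • a 0 = 0
    rw [show a 0 = 0 from ha, smul_zero]

/-- The horizontal operators of the bar construction: pull back and renormalise. -/
def Nrm.map {p p' : ℕ} (a : Mor p p') (A : Type*) [AddCommGroup A] [Module k A] :
    Nrm p' A →ₗ[k] Nrm p A where
  toFun g := ⟨fun i => g.1 (a i) - g.1 (a 0), sub_self _⟩
  map_add' g h := by
    apply Subtype.ext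
    funext i
    show (g.1 (a i) + h.1 (a i)) - (g.1 (a 0) + h.1 (a 0)) = (g.1 (a i) - g.1 (a 0)) + (h.1 (a i) - h.1 (a 0))
    abel
  map_smul' c g := by
    apply Subtype.ext
    funext i
    show c • g.1 (a i) - c • g.1 (a 0) = c • (g.1 (a i) - g.1 (a 0))
    rw [smul_sub]

theorem Nrm.map_apply {p p' : ℕ} (a : Mor p p') (A : Type*) [AddCommGroup A] [Module k A]
    (g : Nrm p' A) (i : Fin (p + 1)) : (Nrm.map a A g).1 i = g.1 (a i) - g.1 (a 0) := rfl

/-- Coefficient maps. -/
def Nrm.coef (p : ℕ) {A B : Type*} [AddCommGroup A] [Module k A] [AddCommGroup B] [Module k B]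
    (f : A →ₗ[k] B) : Nrm p A →ₗ[k] Nrm p B where
  toFun g := ⟨fun i => f (g.1 i), by
    show f (g.1 0) = 0
    rw [show g.1 0 = 0 from g.2, map_zero]⟩
  map_add' g h := by
    apply Subtype.ext
    funext i
    exact map_add f _ _
  map_smul' c g := by
    apply Subtype.ext
    funext i
    exact map_smul f _ _

theorem Nrm.coef_apply (p : ℕ) {A B : Type*} [AddCommGroup A] [Module k A] [AddCommGroup B]
    [Module k B] (f : A →ₗ[k] B) (g : Nrm p A) (i : Fin (p + 1)) :
    (Nrm.coef p f g).1 i = f (g.1 i) := rfl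

/-- The bar construction of a simplicial vector space (diagonal). -/
abbrev SV.bar (G : SV) : SV where
  X n := Nrm n (G.X n)
  map {m n} a := (Nrm.coef m (G.map a)).comp (Nrm.map a (G.X n))
  map_id x := by
    apply Subtype.ext
    funext i
    show G.map OrderHom.id (x.1 i - x.1 0) = x.1 i
    rw [G.map_id, show x.1 0 = 0 from x.2, sub_zero]
  map_comp f g x := by
    apply Subtype.ext
    funext i
    show G.map (g.comp f) (x.1 (g (f i)) - x.1 (g (f 0)))
      = G.map f (G.map g (x.1 (g (f i)) - x.1 (g 0)) - G.map g (x.1 (g (f 0)) - x.1 (g 0)))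
    rw [← map_sub, G.map_comp]
    congr 2
    abel

/-- For fixed `p`: the simplicial set q ↦ (normalised functions on [p] with values in G_q). -/
abbrev SV.BX (G : SV) (p : ℕ) : SS where
  X q := Nrm p (G.X q)
  map a := Nrm.coef p (G.map a)
  map_id x := by
    apply Subtype.ext
    funext i
    exact G.map_id _
  map_comp f g x := by
    apply Subtype.ext
    funext i
    exact G.map_comp _ _ _

/-- Horizontal operators as simplicial maps. -/
def SV.BXmap (G : SV) {p p' : ℕ} (a : Mor p p') : SS.Hom (G.BX p') (G.BX p) where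
  f q x := Nrm.map a (G.X q) x
  nat b x := by
    apply Subtype.ext
    funext i
    show G.map b (x.1 (a i)) - G.map b (x.1 (a 0)) = G.map b (x.1 (a i) - x.1 (a 0))
    rw [map_sub]

/-- The `j`-th bar coordinate G^p → G. -/
def SV.BXbar (G : SV) {p : ℕ} (j : Fin p) : SS.Hom (G.BX p) G.toSS where
  f _ x := x.1 j.succ - x.1 j.castSucc
  nat b x := by
    show G.map b (x.1 j.succ) - G.map b (x.1 j.castSucc) = G.map b (x.1 j.succ - x.1 j.castSucc)
    rw [map_sub]

/-- The bicosimplicial vector space of functions on G_q^p. -/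
abbrev SV.bcm (G : SV) : BCM where
  X p q := Nrm p (G.X q) → k
  map {p p' q q'} a b :=
    { toFun := fun φ x => φ (Nrm.coef p (G.map b) (Nrm.map a (G.X q') x))
      map_add' := fun _ _ => rfl
      map_smul' := fun _ _ => rfl }
  map_id {p q} φ := by
    funext x
    show φ _ = φ x
    congr 1
    apply Subtype.ext
    funext i
    show G.map OrderHom.id (x.1 i - x.1 0) = x.1 i
    rw [G.map_id, show x.1 0 = 0 from x.2, sub_zero]
  map_comp f f' g g' φ := by
    funext x
    show φ _ = φ _
    congr 1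
    apply Subtype.ext
    funext i
    show G.map (g'.comp g) (x.1 (f' (f i)) - x.1 (f' (f 0)))
      = G.map g (G.map g' (x.1 (f' (f i)) - x.1 (f' 0)) - G.map g' (x.1 (f' (f 0)) - x.1 (f' 0)))
    rw [← map_sub, G.map_comp]
    congr 2
    abel

/-- The classifying space of the field with two elements (= nerve). -/
abbrev BB : SS := (SV.const k).bar.toSS

/-- The fundamental 1-cocycle of `BB`. -/
def uC : Coch BB := Coch.single 1 (fun g : Nrm 1 k => g.1 1)

/-- Addition and projections on V × V, zero map. -/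
def SV.addHom (V : SV) : SS.Hom (V.toSS.prod V.toSS) V.toSS where
  f _ x := x.1 + x.2
  nat a x := by
    show V.map a x.1 + V.map a x.2 = V.map a (x.1 + x.2)
    rw [map_add]

/-- A class is primitive. -/
def Prim {V : SV} (μ : H V.toSS) : Prop :=
  H.map V.addHom μ = H.map (SS.fst V.toSS V.toSS) μ + H.map (SS.snd V.toSS V.toSS) μ

/-- Normalised `n`-cocycles on Δ^q. -/
def EMsub (n q : ℕ) : Submodule k (Mor n q → k) where
  carrier := {z | (∀ s : Mor n q, ¬ Function.Injective s → z s = 0) ∧
    ∀ t : Mor (n + 1) q, ∑ i : Fin (n + 2), z (t.comp (cof i)) = 0}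
  zero_mem' := ⟨fun _ _ => rfl, fun _ => by simp⟩
  add_mem' := by
    rintro a b ⟨h1, h2⟩ ⟨h3, h4⟩
    refine ⟨fun s hs => ?_, fun t => ?_⟩
    · show a s + b s = 0
      rw [h1 s hs, h3 s hs, add_zero]
    · show ∑ i : Fin (n + 2), (a (t.comp (cof i)) + b (t.comp (cof i))) = 0
      rw [Finset.sum_add_distrib, h2 t, h4 t, add_zero]
  smul_mem' := by
    rintro c a ⟨h1, h2⟩
    refine ⟨fun s hs => ?_, fun t => ?_⟩
    · show c * a s = 0
      rw [h1 s hs, mul_zero]
    · show ∑ i : Fin (n + 2), c * a (t.comp (cof i)) = 0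
      rw [← Finset.mul_sum, h2 t, mul_zero]

/-- The Eilenberg-MacLane object K(F_2,n): normalised `n`-cocycles on the simplices. -/
abbrev EM (n : ℕ) : SV where
  X q := EMsub n q
  map {m q} a :=
    { toFun := fun z => ⟨fun s => z.1 (a.comp s), by
        refine ⟨fun s hs => z.2.1 _ fun h => hs fun x y hxy => h (congrArg a hxy), fun t => ?_⟩
        exact z.2.2 (a.comp t)⟩
      map_add' := fun _ _ => rfl
      map_smul' := fun _ _ => rfl }
  map_id z := rfl
  map_comp f g z := rfl

/-- The fundamental cocycle. -/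
def iotaC (n : ℕ) : Coch (EM n).toSS :=
  Coch.single n (fun z : EMsub n n => z.1 OrderHom.id)

/-! ### Natural operations -/

/-- Natural linear endomorphisms of total cohomology. -/
structure NOp where
  f : ∀ X : SS, H X →ₗ[k] H X
  nat : ∀ {X Y : SS} (φ : SS.Hom X Y) (a : H Y), f X (H.map φ a) = H.map φ (f Y a)

/-- The operation has degree `n - m` on degree `m` classes. -/
def NOp.Maps (T : NOp) (m n : ℕ) : Prop := ∀ X : SS, ∀ a ∈ Hn X m, T.f X a ∈ Hn X n

end Pool.Agent.SHS


end

section

/-!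
Block III-S: the classes `uu`, `ee`, `iota n`, the operations `P s`, polynomial evaluation.
-/

namespace Pool.Agent.SHS

open Coch

theorem dlt_uC : dlt uC = 0 := by
  ext n x
  cases n with
  | zero => rfl
  | succ n =>
    rw [dlt_succ]
    by_cases h : n = 1
    · subst h
      simp only [uC, single_self, czero_apply]
      show ∑ i : Fin 3, (x.1 (cof i 1) - x.1 (cof i 0)) = 0
      rw [Fin.sum_univ_three]
      have e1 : (cof (0 : Fin 3) : Mor 1 2) 1 = 2 := rfl
      have e2 : (cof (0 : Fin 3) : Mor 1 2) 0 = 1 := rfl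
      have e3 : (cof (1 : Fin 3) : Mor 1 2) 1 = 2 := rfl
      have e4 : (cof (1 : Fin 3) : Mor 1 2) 0 = 0 := rfl
      have e5 : (cof (2 : Fin 3) : Mor 1 2) 1 = 1 := rfl
      have e6 : (cof (2 : Fin 3) : Mor 1 2) 0 = 0 := rfl
      rw [e1, e2, e3, e4, e5, e6]
      have t1 := k_two (x.1 2)
      have t2 := k_two (x.1 0)
      linear_combination t1 - t2
    · rw [Finset.sum_eq_zero]
      · rfl
      · intro i _
        exact single_ne h _ _

/-- The generator of the cohomology ring of `BB`. -/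
noncomputable def uu : H BB := cls ⟨uC, dlt_uC⟩

theorem uu_mem : uu ∈ Hn BB 1 := by
  refine mem_Hn.mpr ⟨⟨uC, dlt_uC⟩, ?_, rfl⟩
  show uC ∈ CochD BB 1
  unfold uC
  exact single_mem 1 _

/-- The map from the circle to `BB`. -/
def s1 : SS.Hom S1 BB where
  f n o := match o with
    | none => 0
    | some a => ⟨fun i => if a.1 i = 0 then 0 else 1, by
        show (if a.1 0 = 0 then (0 : k) else 1) = 0
        obtain ⟨j, hj⟩ := a.2 0
        have h1 : a.1 0 ≤ a.1 j := a.1.monotone (Fin.zero_le _)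
        rw [hj] at h1
        rw [if_pos (le_antisymm h1 (Fin.zero_le _))]⟩
  nat {m n} b o := by
    cases o with
    | none =>
      show (0 : Nrm m k) = (SV.const k).bar.map b 0
      rw [map_zero]
    | some a =>
      by_cases h : Function.Surjective (a.1.comp b)
      · have e : (PS.sphere 1).map b a = some ⟨a.1.comp b, h⟩ := dif_pos h
        show (match (PS.sphere 1).map b a with
          | none => (0 : Nrm m k)
          | some a => _) = _
        rw [e]
        apply Subtype.ext
        funext i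
        show (if a.1 (b i) = 0 then (0 : k) else 1)
          = (if a.1 (b i) = 0 then 0 else 1) - (if a.1 (b 0) = 0 then 0 else 1)
        obtain ⟨j, hj⟩ := h 0
        have h1 : a.1 (b 0) ≤ a.1 (b j) := a.1.monotone (b.monotone (Fin.zero_le _))
        rw [show a.1 (b j) = 0 from hj] at h1
        rw [if_pos (le_antisymm h1 (Fin.zero_le _)), sub_zero]
      · have e : (PS.sphere 1).map b a = none := dif_neg h
        show (match (PS.sphere 1).map b a with
          | none => (0 : Nrm m k)
          | some a => _) = _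
        rw [e]
        apply Subtype.ext
        funext i
        show (0 : k) = (if a.1 (b i) = 0 then 0 else 1) - (if a.1 (b 0) = 0 then 0 else 1)
        have key : (a.1 (b i) = 0) ↔ (a.1 (b 0) = 0) := by
          by_contra hne
          apply h
          have h2 : ∀ j : Fin 2, j = 0 ∨ j = 1 := by decide
          have h3 : a.1 (b 0) ≤ a.1 (b i) := a.1.monotone (b.monotone (Fin.zero_le _))
          have h4 : a.1 (b 0) = 0 ∧ a.1 (b i) = 1 := by
            rcases h2 (a.1 (b 0)) with h5 | h5
            · rcases h2 (a.1 (b i)) with h6 | h6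
              · exact absurd ⟨fun _ => h5, fun _ => h6⟩ hne
              · exact ⟨h5, h6⟩
            · rcases h2 (a.1 (b i)) with h6 | h6
              · rw [h5, h6] at h3
                exact absurd h3 (by decide)
              · refine absurd ⟨fun h7 => ?_, fun h7 => ?_⟩ hne
                · rw [h6] at h7; exact absurd h7 (by decide)
                · rw [h5] at h7; exact absurd h7 (by decide)
          intro j
          rcases h2 j with h5 | h5
          · exact ⟨0, by rw [h5]; exact h4.1⟩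
          · exact ⟨i, by rw [h5]; exact h4.2⟩
        simp only [key, sub_self]

/-- The generator of the cohomology of the circle. -/
noncomputable def ee : H S1 := H.map s1 uu

theorem dlt_iotaC (n : ℕ) : dlt (iotaC n) = 0 := by
  ext m x
  cases m with
  | zero => rfl
  | succ m =>
    rw [dlt_succ]
    by_cases h : m = n
    · subst h
      simp only [iotaC, single_self, czero_apply]
      exact x.2.2 OrderHom.id
    · rw [Finset.sum_eq_zero]
      · rfl
      · intro i _
        exact single_ne h _ _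

/-- The fundamental class of `EM n`. -/
noncomputable def iota (n : ℕ) : H (EM n).toSS := cls ⟨iotaC n, dlt_iotaC n⟩

theorem iota_mem (n : ℕ) : iota n ∈ Hn (EM n).toSS n := by
  refine mem_Hn.mpr ⟨⟨iotaC n, dlt_iotaC n⟩, ?_, rfl⟩
  show iotaC n ∈ CochD (EM n).toSS n
  unfold iotaC
  exact single_mem n _

/-! ### bilinearity of cup-i -/

theorem evl_add {X : SS} {n : ℕ} (f g : Coch X) (x : X.X n) (a : List (Fin (n + 1))) :
    evl (f + g) x a = evl f x a + evl g x a := by
  unfold evl; split_ifs <;> simp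

theorem evl_smul {X : SS} {n : ℕ} (c : k) (f : Coch X) (x : X.X n) (a : List (Fin (n + 1))) :
    evl (c • f) x a = c * evl f x a := by
  unfold evl; split_ifs <;> simp

theorem evl_pull {X Y : SS} (φ : SS.Hom X Y) {n : ℕ} (f : Coch Y) (x : X.X n)
    (a : List (Fin (n + 1))) : evl (pull φ f) x a = evl f (φ.f n x) a := by
  unfold evl; split_ifs
  · rw [pull_apply, φ.nat]
  · rfl

theorem cupS_add_left {X : SS} (m : ℕ) (f f' g : Coch X) :
    cupS m (f + f') g = cupS m f g + cupS m f' g := by
  ext n x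
  rw [cadd_apply, cupS_apply, cupS_apply, cupS_apply, ← E_add]
  simp only [evl_add, add_mul]

theorem cupS_add_right {X : SS} (m : ℕ) (f g g' : Coch X) :
    cupS m f (g + g') = cupS m f g + cupS m f g' := by
  ext n x
  rw [cadd_apply, cupS_apply, cupS_apply, cupS_apply, ← E_add]
  simp only [evl_add, mul_add]

theorem cupS_smul_left {X : SS} (m : ℕ) (c : k) (f g : Coch X) :
    cupS m (c • f) g = c • cupS m f g := by
  ext n x
  rw [csmul_apply, cupS_apply, cupS_apply, ← E_smul]
  simp only [evl_smul, mul_assoc]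

theorem cupS_smul_right {X : SS} (m : ℕ) (c : k) (f g : Coch X) :
    cupS m f (c • g) = c • cupS m f g := by
  ext n x
  rw [csmul_apply, cupS_apply, cupS_apply, ← E_smul]
  simp only [evl_smul, mul_left_comm]

theorem cupS_zero_left {X : SS} (m : ℕ) (g : Coch X) : cupS m 0 g = 0 := by
  have := cupS_smul_left m 0 (0 : Coch X) g
  rwa [zero_smul, zero_smul] at this

theorem cupS_zero_right {X : SS} (m : ℕ) (f : Coch X) : cupS m f 0 = 0 := by
  have := cupS_smul_right m 0 f (0 : Coch X)
  rwa [zero_smul, zero_smul] at this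

theorem pull_cupS {X Y : SS} (φ : SS.Hom X Y) (m : ℕ) (f g : Coch Y) :
    pull φ (cupS m f g) = cupS m (pull φ f) (pull φ g) := by
  ext n x
  rw [pull_apply, cupS_apply, cupS_apply]
  simp only [evl_pull]

theorem dlt_cupS_self {X : SS} (s : ℕ) (f : Coch X) (hf : dlt f = 0) : dlt (cupS s f f) = 0 := by
  cases s with
  | zero => rw [cupS_zero, map_zero]
  | succ s =>
    rw [dlt_cupS, hf, cupS_zero_left, cupS_zero_right, zero_add, zero_add, mod_two]

/-- cup-i square of a coboundary is a coboundary -/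
theorem cupS_bd {X : SS} (s : ℕ) (g : Coch X) :
    ∃ h : Coch X, dlt h = cupS s (dlt g) (dlt g) := by
  cases s with
  | zero => exact ⟨0, by rw [map_zero, cupS_zero]⟩
  | succ s =>
    refine ⟨cupS (s + 1) g (dlt g) + cupS s g g, ?_⟩
    rw [map_add, dlt_cupS, dlt_dlt, cupS_zero_right]
    cases s with
    | zero =>
      rw [cupS_zero, cupS_zero, cupS_zero, map_zero, add_zero, add_zero, add_zero, add_zero]
    | succ s =>
      rw [dlt_cupS]
      have t1 := mod_two (cupS (s + 1) g (dlt g))
      have t2 := mod_two (cupS (s + 1) (dlt g) g)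
      have t3 := mod_two (cupS s g g)
      calc cupS (s + 1 + 1) (dlt g) (dlt g) + 0 + cupS (s + 1) g (dlt g) + cupS (s + 1) (dlt g) g
            + (cupS (s + 1) (dlt g) g + cupS (s + 1) g (dlt g) + cupS s g g + cupS s g g)
          = cupS (s + 1 + 1) (dlt g) (dlt g)
            + (cupS (s + 1) g (dlt g) + cupS (s + 1) g (dlt g))
            + (cupS (s + 1) (dlt g) g + cupS (s + 1) (dlt g) g) + (cupS s g g + cupS s g g) := by abel
        _ = cupS (s + 1 + 1) (dlt g) (dlt g) := by rw [t1, t2, t3]; abel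

/-- The operation [f] ↦ [f cup_(s-1) f], on cocycles. -/
noncomputable def PC (X : SS) (s : ℕ) : Cocyc X →ₗ[k] H X where
  toFun f := cls ⟨cupS s f.1 f.1, dlt_cupS_self s f.1 f.2⟩
  map_add' f g := by
    rw [← map_add, cls_eq]
    refine ⟨cupS (s + 1) f.1 g.1, ?_⟩
    rw [dlt_cupS, show dlt f.1 = 0 from f.2, show dlt g.1 = 0 from g.2, cupS_zero_left,
      cupS_zero_right, zero_add, zero_add]
    show _ = cupS s (f.1 + g.1) (f.1 + g.1) - (cupS s f.1 f.1 + cupS s g.1 g.1)
    rw [cupS_add_left, cupS_add_right, cupS_add_right]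
    abel
  map_smul' c f := by
    have hc : c = 0 ∨ c = 1 := by
      have : ∀ c : ZMod 2, c = 0 ∨ c = 1 := by decide
      exact this c
    rcases hc with rfl | rfl
    · rw [RingHom.id_apply, zero_smul, zero_smul, cls_eq_zero]
      exact ⟨0, by
        show dlt 0 = cupS s (0 : Coch X) 0
        rw [map_zero, cupS_zero_left]⟩
    · rw [RingHom.id_apply, one_smul, one_smul]

/-- The operation `P s` : [f] ↦ [f cup_(s-1) f]; on degree m it is Sq^(m+1-s); `P 1 a = a ^ 2`. -/
noncomputable def Pop (s : ℕ) : NOp where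
  f X := Submodule.liftQ ((Cobd X).restrictScalars k) (PC X s) (by
    rintro a ⟨g, hg⟩
    show cls _ = 0
    rw [cls_eq_zero]
    obtain ⟨h, hh⟩ := cupS_bd s g
    exact ⟨h, by rw [hh, hg]⟩)
  nat {X Y} φ a := by
    obtain ⟨f, rfl⟩ := cls_surjective a
    show cls _ = cls _
    congr 1
    apply Subtype.ext
    exact (pull_cupS φ s f.1 f.1).symm

theorem Pop_cls {X : SS} (s : ℕ) (f : Cocyc X) :
    (Pop s).f X (cls f) = cls ⟨cupS s f.1 f.1, dlt_cupS_self s f.1 f.2⟩ := rfl

theorem Pop_one {X : SS} (a : H X) : (Pop 1).f X a = a ^ 2 := by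
  obtain ⟨f, rfl⟩ := cls_surjective a
  rw [Pop_cls, pow_two, ← map_mul]
  congr 1
  apply Subtype.ext
  exact cupS_one f.1 f.1

noncomputable def NOp.id : NOp := ⟨fun _ => LinearMap.id, fun _ _ => rfl⟩
noncomputable def NOp.zero : NOp := ⟨fun _ => 0, fun φ _ => (map_zero (H.map φ)).symm⟩
noncomputable def NOp.comp (S T : NOp) : NOp := ⟨fun X => (S.f X).comp (T.f X), fun φ a => by
  show (S.f _) ((T.f _) _) = H.map φ ((S.f _) ((T.f _) a))
  rw [T.nat, S.nat]⟩
noncomputable def NOp.add (S T : NOp) : NOp := ⟨fun X => S.f X + T.f X, fun φ a => by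
  show (S.f _) _ + (T.f _) _ = H.map φ ((S.f _) a + (T.f _) a)
  rw [T.nat, S.nat, map_add]⟩

/-- Evaluation of polynomials in the classes u_1, ..., u_d of B(F_2^d). -/
noncomputable def evB (d : ℕ) : MvPolynomial (Fin d) k →ₐ[k] H (BB.pow d) :=
  MvPolynomial.aeval (fun i => H.map (BB.proj d i) uu)

end Pool.Agent.SHS


end

section

/-!
Block III-S: degree components of total cohomology.
-/

namespace Pool.Agent.SHS

open Coch

/-- The degree `n` component of a cochain. -/
def Coch.prn {X : SS} (n : ℕ) : Coch X →ₗ[k] Coch X where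
  toFun f := ⟨fun m x => if m = n then f m x else 0⟩
  map_add' f g := by
    ext m x
    show (if m = n then f m x + g m x else 0) = (if m = n then f m x else 0) + (if m = n then g m x else 0)
    split_ifs <;> simp
  map_smul' c f := by
    ext m x
    show (if m = n then c * f m x else 0) = c * (if m = n then f m x else 0)
    split_ifs <;> simp

theorem Coch.prn_apply {X : SS} (n : ℕ) (f : Coch X) (m : ℕ) (x : X.X m) :
    prn n f m x = if m = n then f m x else 0 := rfl

theorem Coch.prn_mem {X : SS} (n : ℕ) (f : Coch X) : prn n f ∈ CochD X n :=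
  fun m h x => by rw [prn_apply, if_neg h]

theorem Coch.prn_eq {X : SS} {n : ℕ} {f : Coch X} (h : f ∈ CochD X n) : prn n f = f := by
  ext m x
  rw [prn_apply]
  split_ifs with h1
  · rfl
  · exact (h m h1 x).symm

theorem Coch.prn_ne {X : SS} {m n : ℕ} (hmn : m ≠ n) {f : Coch X} (h : f ∈ CochD X m) :
    prn n f = 0 := by
  ext l x
  rw [prn_apply]
  split_ifs with h1
  · subst h1
    exact h l (fun h2 => hmn h2.symm) x
  · rfl

theorem Coch.dlt_prn {X : SS} (n : ℕ) (f : Coch X) : dlt (prn n f) = prn (n + 1) (dlt f) := by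
  ext m x
  cases m with
  | zero => rw [dlt_zero, prn_apply, if_neg (by omega)]
  | succ m =>
    rw [dlt_succ, prn_apply, dlt_succ]
    simp only [prn_apply]
    by_cases h : m = n
    · simp [h]
    · simp [h]

theorem Coch.prn_zero_dlt {X : SS} (f : Coch X) : prn 0 (dlt f) = 0 := by
  ext m x
  rw [prn_apply]
  split_ifs with h
  · subst h; rfl
  · rfl

theorem Coch.dlt_prn_self {X : SS} (n : ℕ) (f : Coch X) (h : dlt f = 0) : dlt (prn n f) = 0 := by
  rw [dlt_prn, h, map_zero]

/-- The projection onto degree `n` in cohomology. -/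
noncomputable def Hpr {X : SS} (n : ℕ) : H X →ₗ[k] H X :=
  Submodule.liftQ ((Cobd X).restrictScalars k)
    ({ toFun := fun f => cls ⟨prn n f.1, dlt_prn_self n f.1 f.2⟩
       map_add' := fun f g => by
         rw [← map_add]; congr 1; apply Subtype.ext; exact map_add (prn n) f.1 g.1
       map_smul' := fun c f => by
         rw [RingHom.id_apply, ← map_smul]; congr 1; apply Subtype.ext
         exact map_smul (prn n) c f.1 } : Cocyc X →ₗ[k] H X) (by
    rintro a ⟨g, hg⟩
    show cls _ = 0
    rw [cls_eq_zero]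
    cases n with
    | zero =>
      refine ⟨0, ?_⟩
      show dlt 0 = prn 0 a.1
      rw [← hg, prn_zero_dlt, map_zero]
    | succ n =>
      refine ⟨prn n g, ?_⟩
      show dlt (prn n g) = prn (n + 1) a.1
      rw [← hg, dlt_prn])

theorem Hpr_cls {X : SS} (n : ℕ) (f : Cocyc X) :
    Hpr n (cls f) = cls ⟨prn n f.1, dlt_prn_self n f.1 f.2⟩ := rfl

theorem Hpr_mem {X : SS} (n : ℕ) (a : H X) : Hpr n a ∈ Hn X n := by
  obtain ⟨f, rfl⟩ := cls_surjective a
  exact mem_Hn.mpr ⟨_, prn_mem n f.1, rfl⟩

theorem Hpr_eq {X : SS} {n : ℕ} {a : H X} (h : a ∈ Hn X n) : Hpr n a = a := by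
  obtain ⟨f, hf, rfl⟩ := mem_Hn.mp h
  rw [Hpr_cls]
  congr 1
  apply Subtype.ext
  exact prn_eq hf

theorem Hpr_ne {X : SS} {m n : ℕ} (hmn : m ≠ n) {a : H X} (h : a ∈ Hn X m) : Hpr n a = 0 := by
  obtain ⟨f, hf, rfl⟩ := mem_Hn.mp h
  rw [Hpr_cls, cls_eq_zero]
  refine ⟨0, ?_⟩
  rw [map_zero]
  exact (prn_ne hmn hf).symm

theorem Hpr_map {X Y : SS} (φ : SS.Hom X Y) (n : ℕ) (a : H Y) :
    Hpr n (H.map φ a) = H.map φ (Hpr n a) := by
  obtain ⟨f, rfl⟩ := cls_surjective a
  rfl

/-- `cls` of the cochain given by a function on `n`-simplices. -/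
theorem dlt_single {X : SS} (n : ℕ) (φ : X.X n → k) :
    dlt (single n φ) = single (n + 1) (X.cm.delta n φ) := by
  ext m x
  cases m with
  | zero => rw [dlt_zero, single_ne (by omega)]
  | succ m =>
    by_cases h : m = n
    · subst h
      rw [dlt_succ, single_self, CM.delta_apply, Finset.sum_apply]
      apply Finset.sum_congr rfl
      intro i _
      rw [single_self]
      rfl
    · rw [dlt_succ, single_ne (by omega)]
      apply Finset.sum_eq_zero
      intro i _
      exact single_ne h _ _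

theorem single_add {X : SS} (n : ℕ) (φ ψ : X.X n → k) :
    (single n (φ + ψ) : Coch X) = single n φ + single n ψ := by
  ext m x
  by_cases h : m = n
  · subst h; rw [cadd_apply, single_self, single_self, single_self]; rfl
  · rw [cadd_apply, single_ne h, single_ne h, single_ne h, add_zero]

theorem single_sub {X : SS} (n : ℕ) (φ ψ : X.X n → k) :
    (single n (φ - ψ) : Coch X) = single n φ - single n ψ := by
  ext m x
  by_cases h : m = n
  · subst h; rw [csub_apply, single_self, single_self, single_self]; rfl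
  · rw [csub_apply, single_ne h, single_ne h, single_ne h, sub_zero]

theorem single_smul {X : SS} (n : ℕ) (c : k) (φ : X.X n → k) :
    (single n (c • φ) : Coch X) = c • single n φ := by
  ext m x
  by_cases h : m = n
  · subst h; rw [csmul_apply, single_self, single_self]; rfl
  · rw [csmul_apply, single_ne h, single_ne h, mul_zero]

theorem single_zero {X : SS} (n : ℕ) : (single n (0 : X.X n → k) : Coch X) = 0 := by
  ext m x
  by_cases h : m = n
  · subst h; rw [single_self]; rfl
  · rw [single_ne h]; rfl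

theorem single_inj {X : SS} {n : ℕ} {φ ψ : X.X n → k} (h : (single n φ : Coch X) = single n ψ) :
    φ = ψ := by
  funext x
  rw [← single_self n φ x, h, single_self]

/-- Classes of degree `n` from functions on `n`-simplices. -/
noncomputable def clsN {X : SS} (n : ℕ) (φ : X.X n → k) (h : X.cm.delta n φ = 0) : H X :=
  cls ⟨single n φ, by
    show dlt (single n φ) = 0
    rw [dlt_single, h, single_zero]⟩

theorem clsN_mem {X : SS} (n : ℕ) (φ : X.X n → k) (h : X.cm.delta n φ = 0) :
    clsN n φ h ∈ Hn X n := mem_Hn.mpr ⟨_, single_mem n φ, rfl⟩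

theorem exists_clsN {X : SS} {n : ℕ} {a : H X} (ha : a ∈ Hn X n) :
    ∃ (φ : X.X n → k) (h : X.cm.delta n φ = 0), clsN n φ h = a := by
  obtain ⟨f, hf, rfl⟩ := mem_Hn.mp ha
  have e : f.1 = single n (f.1 n) := eq_single hf
  have h : X.cm.delta n (f.1 n) = 0 := by
    have h1 : dlt f.1 = 0 := f.2
    rw [e, dlt_single] at h1
    exact single_inj (h1.trans (single_zero _).symm)
  refine ⟨f.1 n, h, ?_⟩
  unfold clsN
  congr 1
  apply Subtype.ext
  exact e.symm

theorem clsN_eq_zero {X : SS} {n : ℕ} (φ : X.X n → k) (h : X.cm.delta n φ = 0) :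
    clsN n φ h = 0 ↔ φ ∈ X.cm.cc.B n := by
  unfold clsN
  rw [cls_eq_zero]
  constructor
  · rintro ⟨g, hg⟩
    change dlt g = single n φ at hg
    cases n with
    | zero =>
      show φ ∈ (⊥ : Submodule k _)
      rw [Submodule.mem_bot]
      funext x
      have := congrArg (fun f : Coch X => f 0 x) hg
      simp only [dlt_zero, single_self] at this
      exact this.symm
    | succ n =>
      show φ ∈ LinearMap.range (X.cm.delta n)
      refine ⟨g n, ?_⟩
      funext x
      have := congrArg (fun f : Coch X => f (n + 1) x) hg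
      simp only [single_self] at this
      rw [← this, dlt_succ, CM.delta_apply, Finset.sum_apply]
      rfl
  · intro hB
    cases n with
    | zero =>
      have h0 : φ ∈ (⊥ : Submodule k _) := hB
      rw [Submodule.mem_bot] at h0
      refine ⟨0, ?_⟩
      rw [map_zero]
      show 0 = single 0 φ
      rw [h0, single_zero]
    | succ n =>
      have h0 : φ ∈ LinearMap.range (X.cm.delta n) := hB
      obtain ⟨g, rfl⟩ := h0
      exact ⟨single n g, dlt_single n g⟩

theorem clsN_add {X : SS} {n : ℕ} (φ ψ : X.X n → k) (h : X.cm.delta n φ = 0)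
    (h' : X.cm.delta n ψ = 0) :
    clsN n (φ + ψ) (by rw [map_add, h, h', add_zero]) = clsN n φ h + clsN n ψ h' := by
  unfold clsN
  rw [← map_add cls]
  congr 1
  apply Subtype.ext
  exact single_add n φ ψ

theorem clsN_smul {X : SS} {n : ℕ} (c : k) (φ : X.X n → k) (h : X.cm.delta n φ = 0) :
    clsN n (c • φ) (by rw [map_smul, h, smul_zero]) = c • clsN n φ h := by
  unfold clsN
  rw [← map_smul cls]
  congr 1
  apply Subtype.ext
  exact single_smul n c φ

theorem CochD_mul {X : SS} {m n : ℕ} {f g : Coch X} (hf : f ∈ CochD X m) (hg : g ∈ CochD X n) :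
    f * g ∈ CochD X (m + n) := by
  intro l hl x
  rw [cmul_apply]
  apply Finset.sum_eq_zero
  rintro ⟨p, q⟩ hpq
  simp only [Finset.HasAntidiagonal.mem_antidiagonal] at hpq
  by_cases hp : p = m
  · have hq : q ≠ n := by omega
    simp only
    rw [hg q hq, mul_zero]
  · simp only
    rw [hf p hp, zero_mul]

theorem Hn_mul {X : SS} {m n : ℕ} {a b : H X} (ha : a ∈ Hn X m) (hb : b ∈ Hn X n) :
    a * b ∈ Hn X (m + n) := by
  obtain ⟨f, hf, rfl⟩ := mem_Hn.mp ha
  obtain ⟨g, hg, rfl⟩ := mem_Hn.mp hb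
  exact mem_Hn.mpr ⟨f * g, CochD_mul hf hg, map_mul _ _ _⟩

theorem Hn_one {X : SS} : (1 : H X) ∈ Hn X 0 :=
  mem_Hn.mpr ⟨1, fun m h x => by
    show (1 : Coch X) m x = 0
    rw [cone_apply, if_neg h], map_one _⟩

theorem Hn_pow {X : SS} {m : ℕ} {a : H X} (ha : a ∈ Hn X m) (r : ℕ) : a ^ r ∈ Hn X (r * m) := by
  induction r with
  | zero => rw [pow_zero, zero_mul]; exact Hn_one
  | succ r ih =>
    rw [pow_succ, add_mul, one_mul]
    exact Hn_mul ih ha

theorem Hn_prod {X : SS} {ι : Type*} (s : Finset ι) (a : ι → H X) (d : ι → ℕ)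
    (h : ∀ i ∈ s, a i ∈ Hn X (d i)) : ∏ i ∈ s, a i ∈ Hn X (∑ i ∈ s, d i) := by
  classical
  induction s using Finset.induction_on with
  | empty => rw [Finset.prod_empty, Finset.sum_empty]; exact Hn_one
  | insert i s hi ih =>
    rw [Finset.prod_insert hi, Finset.sum_insert hi]
    exact Hn_mul (h i (Finset.mem_insert_self i s))
      (ih fun j hj => h j (Finset.mem_insert_of_mem hj))

end Pool.Agent.SHS


end

section

/-!
Block III-S, statements A: Eilenberg-Zilber, normalisation, double complex bound, Kuenneth,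
homotopy invariance.
-/

namespace Pool.Agent.SHS

/-- The Alexander-Whitney map commutes with the differentials. -/
def AWC_Stmt : Prop := ∀ (M : BCM) (n : ℕ) (x : ∀ p q, M.X p q), x ∈ M.dc.Tot n →
  M.AW (n + 1) (M.dc.D x) = M.diag.delta n (M.AW n x)

/-- Eilenberg-Zilber for bicosimplicial vector spaces: the Alexander-Whitney map from the total
complex to the complex of the diagonal is a quasi-isomorphism. -/
def EZ_Stmt : Prop := ∀ (M : BCM) (n : ℕ),
  (∀ z : M.X n n, M.diag.delta n z = 0 → ∃ x ∈ M.dc.ZT n, z - M.AW n x ∈ M.diag.cc.B n) ∧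
  (∀ x ∈ M.dc.ZT n, M.AW n x ∈ M.diag.cc.B n → x ∈ M.dc.BT n)

/-- Normalisation of cosimplicial vector spaces. -/
def NORM_Stmt : Prop := ∀ (M : CM) (m : ℕ) (x : M.X (m + 1)),
  (∀ i : Fin (m + 2), M.map (cod i) (M.delta (m + 1) x) = 0) →
  ∃ v : M.X m, ∀ i : Fin (m + 1), M.map (cod i) (x + M.delta m v) = 0

/-- Bound for the total cohomology of a double complex by the second page. -/
def TB_Stmt : Prop := ∀ (D : DC) (n : ℕ) (N : ℕ → ℕ),
  (∀ q ≤ n, SpanLE (D.Z2 (n - q) q) (D.B2h (n - q) q ⊔ D.B2v (n - q) q) (N q)) →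
  SpanLE (D.ZT n) (D.BT n) (∑ q ∈ Finset.range (n + 1), N q)

/-- Graded product of index sets. -/
def prodI (I J : ℕ → Type) (n : ℕ) : Type :=
  {t : (Σ p : ℕ, I p) × (Σ q : ℕ, J q) // t.1.1 + t.2.1 = n}

/-- Cross products of two graded families of cochains. -/
def crossB (P Q : PS) {I J : ℕ → Type} (z : ∀ n, I n → P.X n → k) (w : ∀ n, J n → Q.X n → k)
    (n : ℕ) (t : prodI I J n) : (P.smash Q).X n → k :=
  PS.cross P Q t.1.1.1 t.1.2.1 n (z _ t.1.1.2) (w _ t.1.2.2)

/-- Kuenneth for pointed simplicial sets with finite levels, in terms of cocycles. -/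
def KUNP_Stmt : Prop := ∀ (P Q : PS), P.LF → Q.LF → ∀ {I J : ℕ → Type}
  (z : ∀ n, I n → P.X n → k) (w : ∀ n, J n → Q.X n → k),
  P.cm.cc.IsBasis z → Q.cm.cc.IsBasis w → (P.smash Q).cm.cc.IsBasis (crossB P Q z w)

/-- Kuenneth for cohomology rings. -/
def KUN_Stmt : Prop := ∀ (X Y : SS), X.LF → Y.LF → ∀ {I J : Type} (di : I → ℕ) (dj : J → ℕ)
  (b : I → H X) (c : J → H Y), HB X di b → HB Y dj c →
  HB (X.prod Y) (fun p : I × J => di p.1 + dj p.2)
    (fun p => H.map (SS.fst X Y) (b p.1) * H.map (SS.snd X Y) (c p.2))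

/-- Homogeneous bases exist. -/
def HBE_Stmt : Prop := ∀ X : SS, ∃ (I : Type) (di : I → ℕ) (b : I → H X), HB X di b

/-- Homotopy invariance. -/
def HTY_Stmt : Prop := ∀ (X Y : SS) (f g : SS.Hom X Y), Nonempty (SS.Homotopy f g) →
  ∀ a : H Y, H.map f a = H.map g a

end Pool.Agent.SHS


end

section

/-!
Block III-S: the Alexander-Whitney map commutes with the differentials.
-/

namespace Pool.Agent.SHS

namespace Awc

variable (M : BCM)

theorem AW_anti (n : ℕ) (x : ∀ p q, M.X p q) : M.AW n x =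
    ∑ p ∈ Finset.HasAntidiagonal.antidiagonal n, M.map (fr p.1 n) (bk p.2 n) (x p.1 p.2) := by
  rw [BCM.AW]
  exact (Finset.Nat.sum_antidiagonal_eq_sum_range_succ_mk
    (fun p : ℕ × ℕ => M.map (fr p.1 n) (bk p.2 n) (x p.1 p.2)) n).symm

/-- horizontal part of the differential -/
def Dh (x : ∀ p q, M.X p q) : ∀ p q, M.X p q
  | 0, _ => 0
  | p + 1, q => M.dc.dh p q (x p q)

/-- vertical part of the differential -/
def Dv (x : ∀ p q, M.X p q) : ∀ p q, M.X p q
  | _, 0 => 0
  | p, q + 1 => M.dc.dv p q (x p q)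

theorem D_eq (x : ∀ p q, M.X p q) : ∀ p q, M.dc.D x p q = Dh M x p q + Dv M x p q
  | 0, 0 => (add_zero (0 : M.X 0 0)).symm
  | p + 1, 0 => (add_zero (M.dc.dh p 0 (x p 0))).symm
  | 0, q + 1 => (zero_add (M.dc.dv 0 q (x 0 q))).symm
  | p + 1, q + 1 => rfl

theorem dh_eq (p q : ℕ) (y : M.X p q) :
    M.dc.dh p q y = ∑ i ∈ Finset.range (p + 2), M.map (cofN i p) OrderHom.id y := by
  show (M.row q).delta p y = _
  rw [CM.delta_apply]
  exact sum_cof (fun a => M.map a OrderHom.id y)

theorem dv_eq (p q : ℕ) (y : M.X p q) :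
    M.dc.dv p q y = ∑ i ∈ Finset.range (q + 2), M.map OrderHom.id (cofN i q) y := by
  show (M.col p).delta q y = _
  rw [CM.delta_apply]
  exact sum_cof (fun a => M.map OrderHom.id a y)

theorem diag_eq (n : ℕ) (y : M.X n n) :
    M.diag.delta n y = ∑ i ∈ Finset.range (n + 2), M.map (cofN i n) (cofN i n) y := by
  rw [CM.delta_apply]
  exact sum_cof (fun a => M.map a a y)

theorem map_hor {p q p' q' p'' : ℕ} (f : Mor p p') (f' : Mor p' p'') (g : Mor q q') (y : M.X p q) :
    M.map f' g (M.map f OrderHom.id y) = M.map (f'.comp f) g y := by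
  rw [← M.map_comp]; rfl

theorem map_ver {p q p' q' q'' : ℕ} (f : Mor p p') (g : Mor q q') (g' : Mor q' q'') (y : M.X p q) :
    M.map f g' (M.map OrderHom.id g y) = M.map f (g'.comp g) y := by
  rw [← M.map_comp]; rfl

theorem term (p q : ℕ) (y : M.X p q) :
    M.map (fr (p + 1) (p + q + 1)) (bk q (p + q + 1)) (M.dc.dh p q y)
      + M.map (fr p (p + q + 1)) (bk (q + 1) (p + q + 1)) (M.dc.dv p q y)
    = M.diag.delta (p + q) (M.map (fr p (p + q)) (bk q (p + q)) y) := by
  rw [dh_eq, dv_eq, diag_eq, map_sum, map_sum]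
  have e1 : ∀ i, M.map (fr (p + 1) (p + q + 1)) (bk q (p + q + 1))
      (M.map (cofN i p) OrderHom.id y)
      = M.map ((fr (p + 1) (p + q + 1)).comp (cofN i p)) (bk q (p + q + 1)) y :=
    fun i => map_hor M _ _ _ y
  have e2 : ∀ j, M.map (fr p (p + q + 1)) (bk (q + 1) (p + q + 1))
      (M.map OrderHom.id (cofN j q) y)
      = M.map (fr p (p + q + 1)) ((bk (q + 1) (p + q + 1)).comp (cofN j q)) y :=
    fun j => map_ver M _ _ _ y
  have e3 : ∀ i, M.map (cofN i (p + q)) (cofN i (p + q)) (M.map (fr p (p + q)) (bk q (p + q)) y)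
      = M.map ((cofN i (p + q)).comp (fr p (p + q))) ((cofN i (p + q)).comp (bk q (p + q))) y :=
    fun i => (M.map_comp _ _ _ _ y).symm
  rw [Finset.sum_congr rfl fun i _ => e1 i, Finset.sum_congr rfl fun i _ => e2 i,
    Finset.sum_congr rfl fun i _ => e3 i]
  have hr : Finset.range (p + q + 2) = Finset.range ((p + 1) + (q + 1)) := by
    congr 1; omega
  rw [Finset.sum_range_succ (n := p + 1)]
  rw [hr, Finset.sum_range_add _ (p + 1) (q + 1)]
  rw [Finset.sum_range_succ' (n := q + 1)]
  rw [fr_cofN_last, bk_cofN_zero]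
  have s1 : ∑ i ∈ Finset.range (p + 1), M.map ((cofN i (p + q)).comp (fr p (p + q)))
        ((cofN i (p + q)).comp (bk q (p + q))) y
      = ∑ i ∈ Finset.range (p + 1),
        M.map ((fr (p + 1) (p + q + 1)).comp (cofN i p)) (bk q (p + q + 1)) y := by
    apply Finset.sum_congr rfl
    intro i hi
    rw [Finset.mem_range] at hi
    rw [cofN_fr_le (by omega), cofN_bk_le (by omega)]
  have s2 : ∑ j ∈ Finset.range (q + 1), M.map ((cofN (p + 1 + j) (p + q)).comp (fr p (p + q)))
        ((cofN (p + 1 + j) (p + q)).comp (bk q (p + q))) y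
      = ∑ j ∈ Finset.range (q + 1),
        M.map (fr p (p + q + 1)) ((bk (q + 1) (p + q + 1)).comp (cofN (j + 1) q)) y := by
    apply Finset.sum_congr rfl
    intro j hj
    rw [cofN_fr_gt (by omega), cofN_bk_gt]
  rw [s1, s2]
  have := mod_two (M.map (fr p (p + q + 1)) (bk q (p + q + 1)) y)
  generalize M.map (fr p (p + q + 1)) (bk q (p + q + 1)) y = w at this ⊢
  have h2 : ∀ a b : M.X (p + q + 1) (p + q + 1), a + w + (b + w) = a + b := by
    intro a b
    rw [add_add_add_comm, this, add_zero]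
  exact h2 _ _

end Awc

open Awc in
theorem AWC : AWC_Stmt := by
  intro M n x _
  have h : M.AW (n + 1) (M.dc.D x)
      = M.AW (n + 1) (Dh M x) + M.AW (n + 1) (Dv M x) := by
    rw [AW_anti, AW_anti, AW_anti, ← Finset.sum_add_distrib]
    apply Finset.sum_congr rfl
    rintro ⟨p, q⟩ _
    simp only
    rw [D_eq, map_add]
  rw [h, AW_anti, AW_anti, AW_anti, Finset.Nat.sum_antidiagonal_succ,
    Finset.Nat.sum_antidiagonal_succ']
  have z1 : M.map (fr 0 (n + 1)) (bk (n + 1) (n + 1)) (Dh M x 0 (n + 1)) = 0 := by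
    show M.map _ _ (0 : M.X 0 (n + 1)) = 0
    exact map_zero _
  have z2 : M.map (fr (n + 1) (n + 1)) (bk 0 (n + 1)) (Dv M x (n + 1) 0) = 0 := by
    have : Dv M x (n + 1) 0 = 0 := by
      cases n <;> rfl
    rw [this]
    exact map_zero _
  simp only
  rw [z1, z2, zero_add, zero_add, ← Finset.sum_add_distrib, map_sum]
  apply Finset.sum_congr rfl
  rintro ⟨p, q⟩ hpq
  simp only [Finset.HasAntidiagonal.mem_antidiagonal] at hpq
  subst hpq
  have e : Dv M x p (q + 1) = M.dc.dv p q (x p q) := by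
    cases p <;> rfl
  simp only
  rw [e]
  exact term M p q (x p q)

end Pool.Agent.SHS


end

section

/-!
Block III-S: Kuenneth for pointed simplicial sets with finite levels.
-/

namespace Pool.Agent.SHS

namespace Kunp

/-! ### Linear algebra -/

section lin

variable {F V V' : Type*} [Field F] [AddCommGroup V] [Module F V] [AddCommGroup V'] [Module F V']

theorem gen_inv (T : V →ₗ[F] V') : ∃ g : V' →ₗ[F] V, ∀ v, T (g (T v)) = T v := by
  obtain ⟨s, hs⟩ := LinearMap.exists_rightInverse_of_surjective T.rangeRestrict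
    (LinearMap.range_rangeRestrict _)
  obtain ⟨g, hg⟩ := LinearMap.exists_extend s
  refine ⟨g, fun v => ?_⟩
  have h1 : g (T v) = s ⟨T v, ⟨v, rfl⟩⟩ := LinearMap.congr_fun hg ⟨T v, ⟨v, rfl⟩⟩
  rw [h1]
  exact congrArg Subtype.val (LinearMap.congr_fun hs ⟨T v, ⟨v, rfl⟩⟩)

theorem split (B : Submodule F V) {I : Type*} (z : I → V)
    (hi : ∀ c : I →₀ F, Finsupp.linearCombination F z c ∈ B → c = 0) :
    ∃ (β : V →ₗ[F] V) (pr : V →ₗ[F] (I →₀ F)), (∀ x, β x ∈ B) ∧
      ∀ b ∈ B, ∀ c, β (b + Finsupp.linearCombination F z c) = b ∧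
        pr (b + Finsupp.linearCombination F z c) = c := by
  have hinj : LinearMap.ker (B.subtype.coprod (Finsupp.linearCombination F z)) = ⊥ := by
    rw [LinearMap.ker_eq_bot']
    rintro ⟨b, c⟩ h
    rw [LinearMap.coprod_apply] at h
    have hc : c = 0 := by
      apply hi c
      have h3 : Finsupp.linearCombination F z c = -(B.subtype b) :=
        eq_neg_of_add_eq_zero_right h
      rw [h3]
      exact neg_mem b.2
    subst hc
    rw [map_zero, add_zero] at h
    have h4 : b = 0 := Subtype.ext h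
    rw [h4]
    rfl
  obtain ⟨Ψ, hΨ⟩ := LinearMap.exists_leftInverse_of_injective _ hinj
  refine ⟨B.subtype.comp ((LinearMap.fst F _ _).comp Ψ), (LinearMap.snd F _ _).comp Ψ,
    fun x => (Ψ x).1.2, fun b hb c => ?_⟩
  have h5 : Ψ (b + Finsupp.linearCombination F z c) = (⟨b, hb⟩, c) :=
    LinearMap.congr_fun hΨ (⟨b, hb⟩, c)
  constructor
  · show ((Ψ (b + Finsupp.linearCombination F z c)).1 : V) = b
    rw [h5]
  · show (Ψ (b + Finsupp.linearCombination F z c)).2 = c
    rw [h5]

end lin

/-! ### Contraction of a complex onto its cohomology -/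

/-- Contraction onto the cohomology. -/
structure Contr (C : CC) {I : ℕ → Type} (z : ∀ n, I n → C.X n) where
  pr : ∀ n, C.X n →ₗ[k] (I n →₀ k)
  h : ∀ n, C.X (n + 1) →ₗ[k] C.X n
  pr_d : ∀ n f, pr (n + 1) (C.d n f) = 0
  pr_z : ∀ n i, pr n (z n i) = Finsupp.single i 1
  zero : ∀ f : C.X 0, f = Finsupp.linearCombination k (z 0) (pr 0 f) + h 0 (C.d 0 f)
  succ : ∀ n (f : C.X (n + 1)), f = Finsupp.linearCombination k (z (n + 1)) (pr (n + 1) f) +
    (C.d n (h n f) + h (n + 1) (C.d (n + 1) f))

theorem exists_contr (C : CC) {I : ℕ → Type} (z : ∀ n, I n → C.X n) (hz : C.IsBasis z) :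
    Nonempty (Contr C z) := by
  have hi : ∀ n (c : I n →₀ k), Finsupp.linearCombination k (z n) c ∈ C.B n → c = 0 := by
    intro n c hc
    rw [Finsupp.linearCombination_apply] at hc
    exact hz.indep n c hc
  choose β pr hβ hΨ using fun n => split (C.B n) (z n) (hi n)
  choose g hg using fun n => gen_inv (C.d n)
  have hΨ1 : ∀ n (f : C.X n), C.d n f = 0 →
      f = β n f + Finsupp.linearCombination k (z n) (pr n f) := by
    intro n f hf
    obtain ⟨c, hc⟩ := hz.span n f hf
    have e : f = (f - Finsupp.linearCombination k (z n) c) +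
        Finsupp.linearCombination k (z n) c := (sub_add_cancel _ _).symm
    rw [← Finsupp.linearCombination_apply] at hc
    obtain ⟨h1, h2⟩ := hΨ n _ hc c
    rw [← e] at h1 h2
    rw [h1, h2]
    exact e
  have hdB : ∀ n, ∀ b ∈ C.B n, C.d n b = 0 := by
    intro n b hb
    cases n with
    | zero =>
      have h0 : b = 0 := hb
      rw [h0, map_zero]
    | succ n =>
      obtain ⟨g, hg⟩ : ∃ g, C.d n g = b := hb
      rw [← hg, C.dd]
  have hdz : ∀ n (c : I n →₀ k), C.d n (Finsupp.linearCombination k (z n) c) = 0 := by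
    intro n c
    rw [Finsupp.linearCombination_apply, map_finsuppSum]
    simp only [map_smul, hz.cocycle, smul_zero]
    exact Finsupp.sum_fun_zero _
  obtain ⟨s, hs⟩ : ∃ s : ∀ n, C.X (n + 1) →ₗ[k] C.X n, ∀ n x, s n x =
      g n x - (β n (g n x) + Finsupp.linearCombination k (z n) (pr n (g n x))) :=
    ⟨fun n => g n - (((β n).comp (g n)) +
      (Finsupp.linearCombination k (z n)).comp ((pr n).comp (g n))), fun n x => rfl⟩
  have hs1 : ∀ n f, C.d n (s n (C.d n f)) = C.d n f := by
    intro n f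
    rw [hs, map_sub, map_add, hg, hdB _ _ (hβ _ _), hdz, add_zero, sub_zero]
  have hs2 : ∀ n x, β n (s n x) = 0 ∧ pr n (s n x) = 0 := by
    intro n x
    obtain ⟨h1, h2⟩ := hΨ n _ (hβ n (g n x)) (pr n (g n x))
    rw [hs, map_sub, map_sub, h1, h2, sub_self, sub_self]
    exact ⟨rfl, rfl⟩
  have hdmem : ∀ n f, C.d n f ∈ C.B (n + 1) := fun n f => ⟨f, rfl⟩
  have hβd : ∀ n f, β (n + 1) (C.d n f) = C.d n f ∧ pr (n + 1) (C.d n f) = 0 := by
    intro n f
    have h1 := hΨ (n + 1) _ (hdmem n f) 0
    rw [map_zero, add_zero] at h1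
    exact h1
  -- the formula
  have hf : ∀ n (f : C.X n), f = β n f + Finsupp.linearCombination k (z n) (pr n f) +
      s n (C.d n f) := by
    intro n f
    have h1 : C.d n (f - s n (C.d n f)) = 0 := by
      rw [map_sub, hs1, sub_self]
    have h2 := hΨ1 n _ h1
    rw [map_sub, map_sub, (hs2 _ _).1, (hs2 _ _).2, sub_zero, sub_zero] at h2
    rw [← h2, sub_add_cancel]
  refine ⟨{
    pr := pr
    h := fun n => (s n).comp (β (n + 1))
    pr_d := fun n f => (hβd n f).2
    pr_z := ?_
    zero := ?_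
    succ := ?_ }⟩
  · intro n i
    have h1 := (hΨ n 0 (zero_mem _) (Finsupp.single i 1)).2
    rw [Finsupp.linearCombination_single, one_smul, zero_add] at h1
    exact h1
  · intro f
    have h1 := hf 0 f
    have h2 : β 0 f = 0 := hβ 0 f
    rw [h2, zero_add] at h1
    show f = Finsupp.linearCombination k (z 0) (pr 0 f) + s 0 (β 1 (C.d 0 f))
    rw [(hβd 0 f).1]
    exact h1
  · intro n f
    have h1 := hf (n + 1) f
    show f = Finsupp.linearCombination k (z (n + 1)) (pr (n + 1) f) +
      (C.d n (s n (β (n + 1) f)) + s (n + 1) (β (n + 2) (C.d (n + 1) f)))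
    obtain ⟨f', hf'⟩ : ∃ f', C.d n f' = β (n + 1) f := hβ (n + 1) f
    rw [(hβd (n + 1) f).1, ← hf', hs1, hf']
    conv_lhs => rw [h1]
    abel

/-! ### Operators on functions of two variables -/

section two

variable {A A' A'' B B' B'' : Type}

/-- An operator acting on the first variable. -/
def lf (T : (A → k) →ₗ[k] (A' → k)) (F : A × B → k) : A' × B → k :=
  fun x => T (fun a => F (a, x.2)) x.1

/-- An operator acting on the second variable. -/
def rt (S : (B → k) →ₗ[k] (B' → k)) (F : A × B → k) : A × B' → k :=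
  fun x => S (fun b => F (x.1, b)) x.2

/-- A functional acting on the first variable. -/
def pl (T : (A → k) →ₗ[k] k) (F : A × B → k) : B → k := fun b => T (fun a => F (a, b))

theorem lf_lf (T : (A → k) →ₗ[k] (A' → k)) (T' : (A' → k) →ₗ[k] (A'' → k)) (F : A × B → k) :
    lf T' (lf T F) = lf (T'.comp T) F := rfl

theorem rt_rt (T : (B → k) →ₗ[k] (B' → k)) (T' : (B' → k) →ₗ[k] (B'' → k)) (F : A × B → k) :
    rt T' (rt T F) = rt (T'.comp T) F := rfl

theorem lf_zero (T : (A → k) →ₗ[k] (A' → k)) : lf T (0 : A × B → k) = 0 := by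
  funext x
  show T 0 x.1 = 0
  rw [map_zero]
  rfl

theorem rt_zero (T : (B → k) →ₗ[k] (B' → k)) : rt T (0 : A × B → k) = 0 := by
  funext x
  show T 0 x.2 = 0
  rw [map_zero]
  rfl

theorem pl_zero (T : (A → k) →ₗ[k] k) : pl T (0 : A × B → k) = 0 := by
  funext x
  show T 0 = 0
  rw [map_zero]

theorem pl_lf (T : (A → k) →ₗ[k] (A' → k)) (T' : (A' → k) →ₗ[k] k) (F : A × B → k) :
    pl T' (lf T F) = pl (T'.comp T) F := rfl

variable [Finite A]

theorem pl_rt (T : (A → k) →ₗ[k] k) (S : (B → k) →ₗ[k] (B' → k)) (F : A × B → k) :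
    pl T (rt S F) = S (pl T F) := by
  classical
  have := Fintype.ofFinite A
  have hT : ∀ f : A → k, T f = ∑ a, f a * T (fun j => if a = j then 1 else 0) := fun f =>
    LinearMap.pi_apply_eq_sum_univ T f
  funext y
  show T (fun a => S (fun b => F (a, b)) y) = S (fun b => T (fun a => F (a, b))) y
  rw [hT]
  have e : (fun b => T (fun a => F (a, b))) =
      ∑ a, T (fun j => if a = j then 1 else 0) • (fun b => F (a, b)) := by
    funext b
    rw [hT, Finset.sum_apply]
    exact Finset.sum_congr rfl fun a _ => mul_comm _ _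
  rw [e, map_sum, Finset.sum_apply]
  refine Finset.sum_congr rfl fun a _ => ?_
  rw [map_smul]
  exact mul_comm _ _

theorem lf_rt (T : (A → k) →ₗ[k] (A' → k)) (S : (B → k) →ₗ[k] (B' → k)) (F : A × B → k) :
    lf T (rt S F) = rt S (lf T F) := by
  funext x
  exact congrFun (pl_rt ((LinearMap.proj x.1).comp T) S F) x.2

end two

/-! ### Tensors -/

section tensors

variable {A A' B B' : Type}

/-- The tensor product of two functions. -/
def tn (f : A → k) (g : B → k) : A × B → k := fun x => f x.1 * g x.2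

theorem lf_tn (T : (A → k) →ₗ[k] (A' → k)) (f : A → k) (g : B → k) :
    lf T (tn f g) = tn (T f) g := by
  funext x
  show T (fun a => f a * g x.2) x.1 = T f x.1 * g x.2
  have e : (fun a => f a * g x.2) = g x.2 • f := by
    funext a
    exact mul_comm _ _
  rw [e, map_smul]
  exact mul_comm _ _

theorem rt_tn (T : (B → k) →ₗ[k] (B' → k)) (f : A → k) (g : B → k) :
    rt T (tn f g) = tn f (T g) := by
  funext x
  show T (fun b => f x.1 * g b) x.2 = f x.1 * T g x.2
  have e : (fun b => f x.1 * g b) = f x.1 • g := rfl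
  rw [e, map_smul]
  rfl

theorem pl_tn (T : (A → k) →ₗ[k] k) (f : A → k) (g : B → k) : pl T (tn f g) = T f • g := by
  funext x
  show T (fun a => f a * g x) = T f * g x
  have e : (fun a => f a * g x) = g x • f := by
    funext a
    exact mul_comm _ _
  rw [e, map_smul]
  exact mul_comm _ _

theorem tn_zero_left (g : B → k) : tn (0 : A → k) g = 0 := by
  funext x
  exact zero_mul _

theorem tn_zero_right (f : A → k) : tn f (0 : B → k) = 0 := by
  funext x
  exact mul_zero _

/-- The product of the two projections. -/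
theorem mem_span_tn {I J : Type} (z : I → A → k) (w : J → B → k)
    (T : (A → k) →ₗ[k] (I →₀ k)) (S : (B → k) →ₗ[k] (J →₀ k)) [Finite I] (F : A × B → k) :
    rt ((Finsupp.linearCombination k w).comp S) (lf ((Finsupp.linearCombination k z).comp T) F) ∈
      Submodule.span k (Set.range fun t : I × J => tn (z t.1) (w t.2)) := by
  classical
  have := Fintype.ofFinite I
  have e1 : lf ((Finsupp.linearCombination k z).comp T) F =
      ∑ i, tn (z i) (fun b => T (fun a => F (a, b)) i) := by
    funext x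
    show Finsupp.linearCombination k z (T (fun a => F (a, x.2))) x.1 = _
    rw [Finsupp.linearCombination_apply, Finsupp.sum_fintype _ _ (fun i => zero_smul k (z i)),
      Finset.sum_apply, Finset.sum_apply]
    refine Finset.sum_congr rfl fun i _ => ?_
    exact mul_comm _ _
  have e2 : ∀ (f : A → k) (g : B → k), rt ((Finsupp.linearCombination k w).comp S) (tn f g) =
      tn f (Finsupp.linearCombination k w (S g)) := fun f g => rt_tn _ f g
  have e3 : rt ((Finsupp.linearCombination k w).comp S) (∑ i, tn (z i)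
      (fun b => T (fun a => F (a, b)) i)) = ∑ i, rt ((Finsupp.linearCombination k w).comp S)
      (tn (z i) (fun b => T (fun a => F (a, b)) i)) := by
    funext x
    rw [Finset.sum_apply]
    show ((Finsupp.linearCombination k w).comp S)
      (fun b => (∑ i, tn (z i) (fun b => T (fun a => F (a, b)) i)) (x.1, b)) x.2 = _
    have e4 : (fun b => (∑ i, tn (z i) (fun b => T (fun a => F (a, b)) i)) (x.1, b)) =
        ∑ i, (fun b => tn (z i) (fun b => T (fun a => F (a, b)) i) (x.1, b)) := by
      funext b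
      rw [Finset.sum_apply, Finset.sum_apply]
    rw [e4, map_sum, Finset.sum_apply]
    rfl
  rw [e1, e3]
  refine Submodule.sum_mem _ fun i _ => ?_
  rw [e2, Finsupp.linearCombination_apply]
  have e5 : tn (z i) ((S (fun b => T (fun a => F (a, b)) i)).sum fun j a => a • w j) =
      (S (fun b => T (fun a => F (a, b)) i)).sum fun j a => a • tn (z i) (w j) := by
    funext x
    show z i x.1 * ((S (fun b => T (fun a => F (a, b)) i)).sum fun j a => a • w j) x.2 = _
    rw [Finsupp.sum, Finsupp.sum, Finset.sum_apply, Finset.sum_apply, Finset.mul_sum]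
    refine Finset.sum_congr rfl fun j _ => ?_
    exact mul_left_comm _ _ _
  rw [e5]
  refine Submodule.sum_mem _ fun j _ => Submodule.smul_mem _ _ (Submodule.subset_span ⟨(i, j), rfl⟩)

end tensors

/-! ### The double complex of functions on `P × Q` -/

variable (P Q : PS)

theorem dh_eq (p q : ℕ) (F : (PS.bcm P Q).X p q) :
    (PS.bcm P Q).dc.dh p q F = lf (P.cm.delta p) F := by
  funext x
  show ((PS.bcm P Q).row q).delta p F x = P.cm.delta p (fun a => F (a, x.2)) x.1
  rw [CM.delta_apply, CM.delta_apply, Finset.sum_apply, Finset.sum_apply]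
  refine Finset.sum_congr rfl fun i _ => ?_
  show (Option.map₂ Prod.mk (P.map (cof i) x.1) (Q.map OrderHom.id x.2)).elim 0 F =
    (P.map (cof i) x.1).elim 0 (fun a => F (a, x.2))
  rw [Q.map_id]
  cases P.map (cof i) x.1 <;> rfl

theorem dv_eq (p q : ℕ) (F : (PS.bcm P Q).X p q) :
    (PS.bcm P Q).dc.dv p q F = rt (Q.cm.delta q) F := by
  funext x
  show ((PS.bcm P Q).col p).delta q F x = Q.cm.delta q (fun b => F (x.1, b)) x.2
  rw [CM.delta_apply, CM.delta_apply, Finset.sum_apply, Finset.sum_apply]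
  refine Finset.sum_congr rfl fun i _ => ?_
  show (Option.map₂ Prod.mk (P.map OrderHom.id x.1) (Q.map (cof i) x.2)).elim 0 F =
    (Q.map (cof i) x.2).elim 0 (fun b => F (x.1, b))
  rw [P.map_id]
  cases Q.map (cof i) x.2 <;> rfl

theorem diag_eq : (PS.bcm P Q).diag = (P.smash Q).cm := rfl

theorem AW_cross (p q n : ℕ) (f : P.X p → k) (g : Q.X q → k) :
    (PS.bcm P Q).map (fr p n) (bk q n) (tn f g) = PS.cross P Q p q n f g := by
  funext x
  show (Option.map₂ Prod.mk (P.map (fr p n) x.1) (Q.map (bk q n) x.2)).elim 0 (tn f g) =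
    (P.map (fr p n) x.1).elim 0 f * (Q.map (bk q n) x.2).elim 0 g
  cases P.map (fr p n) x.1 with
  | none => simp
  | some a =>
    cases Q.map (bk q n) x.2 with
    | none => simp
    | some b => rfl

/-- The tensor product as an element of the total complex. -/
def tt (p q : ℕ) (f : P.X p → k) (g : Q.X q → k) : ∀ p' q', (PS.bcm P Q).X p' q' :=
  fun p' q' => if h : p = p' ∧ q = q' then
    fun x => f (h.1 ▸ x.1) * g (h.2 ▸ x.2) else 0

theorem tt_same (p q : ℕ) (f : P.X p → k) (g : Q.X q → k) : tt P Q p q f g p q = tn f g := by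
  unfold tt
  rw [dif_pos ⟨rfl, rfl⟩]
  rfl

theorem tt_ne {p q p' q' : ℕ} (f : P.X p → k) (g : Q.X q → k) (h : ¬ (p = p' ∧ q = q')) :
    tt P Q p q f g p' q' = 0 := by
  unfold tt
  rw [dif_neg h]

theorem tt_tot {p q n : ℕ} (h : p + q = n) (f : P.X p → k) (g : Q.X q → k) :
    tt P Q p q f g ∈ (PS.bcm P Q).dc.Tot n := by
  intro p' q' h'
  apply tt_ne
  rintro ⟨rfl, rfl⟩
  exact h' h

theorem AW_tt {p q n : ℕ} (h : p + q = n) (f : P.X p → k) (g : Q.X q → k) :
    (PS.bcm P Q).AW n (tt P Q p q f g) = PS.cross P Q p q n f g := by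
  unfold BCM.AW
  rw [Finset.sum_eq_single p]
  · have key : ∀ q', q' = q → (PS.bcm P Q).map (fr p n) (bk q' n) (tt P Q p q f g p q') =
        PS.cross P Q p q n f g := by
      rintro _ rfl
      rw [tt_same]
      exact AW_cross P Q p _ n f g
    exact key _ (by omega)
  · intro p' _ hne
    rw [tt_ne P Q f g (fun h => hne h.1.symm), map_zero]
  · intro hp
    exact absurd (Finset.mem_range.2 (by omega)) hp

theorem dh_tt {p q : ℕ} {f : P.X p → k} (g : Q.X q → k) (hf : P.cm.delta p f = 0) (p' q' : ℕ) :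
    (PS.bcm P Q).dc.dh p' q' (tt P Q p q f g p' q') = 0 := by
  by_cases h : p = p' ∧ q = q'
  · obtain ⟨rfl, rfl⟩ := h
    rw [tt_same, dh_eq, lf_tn, hf, tn_zero_left]
  · rw [tt_ne P Q f g h, map_zero]

theorem dv_tt {p q : ℕ} (f : P.X p → k) {g : Q.X q → k} (hg : Q.cm.delta q g = 0) (p' q' : ℕ) :
    (PS.bcm P Q).dc.dv p' q' (tt P Q p q f g p' q') = 0 := by
  by_cases h : p = p' ∧ q = q'
  · obtain ⟨rfl, rfl⟩ := h
    rw [tt_same, dv_eq, rt_tn, hg, tn_zero_right]
  · rw [tt_ne P Q f g h, map_zero]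

/-- Vanishing of the total differential, in terms of the two differentials. -/
theorem D_eq_zero {D : DC} {F : ∀ p q, D.X p q} (h1 : ∀ p q, D.dh p q (F p q) = 0)
    (h2 : ∀ p q, D.dv p q (F p q) = 0) : D.D F = 0 := by
  funext p q
  cases p with
  | zero =>
    cases q with
    | zero => rfl
    | succ q => exact h2 0 q
  | succ p =>
    cases q with
    | zero => exact h1 p 0
    | succ q =>
      show D.dh p (q + 1) (F p (q + 1)) + D.dv (p + 1) q (F (p + 1) q) = 0
      rw [h1, h2, add_zero]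

theorem tt_ZT {p q n : ℕ} (h : p + q = n) {f : P.X p → k} {g : Q.X q → k}
    (hf : P.cm.delta p f = 0) (hg : Q.cm.delta q g = 0) :
    tt P Q p q f g ∈ (PS.bcm P Q).dc.ZT n :=
  ⟨tt_tot P Q h f g, D_eq_zero (dh_tt P Q g hf) (dv_tt P Q f hg)⟩

/-- The Alexander-Whitney map is linear. -/
def AWl (M : BCM) (n : ℕ) : (∀ p q, M.X p q) →ₗ[k] M.X n n where
  toFun := M.AW n
  map_add' x y := by
    unfold BCM.AW
    rw [← Finset.sum_add_distrib]
    exact Finset.sum_congr rfl fun p _ => map_add _ _ _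
  map_smul' c x := by
    unfold BCM.AW
    rw [RingHom.id_apply, Finset.smul_sum]
    exact Finset.sum_congr rfl fun p _ => map_smul _ _ _

theorem D_zero (D : DC) : D.D 0 = 0 :=
  D_eq_zero (fun _ _ => map_zero _) (fun _ _ => map_zero _)

/-! ### Spanning -/

section main

variable {P Q} {I J : ℕ → Type} {z : ∀ n, I n → P.X n → k} {w : ∀ n, J n → Q.X n → k}
  (cz : Contr P.cm.cc z) (cw : Contr Q.cm.cc w)

/-- The projection onto the span of the representatives. -/
noncomputable def Pr (cz : Contr P.cm.cc z) (p : ℕ) : (P.X p → k) →ₗ[k] (P.X p → k) :=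
  (Finsupp.linearCombination k (z p)).comp (cz.pr p)

theorem decA0 {B : Type} (F : P.X 0 × B → k) :
    F = lf (Pr cz 0) F + lf (cz.h 0) (lf (P.cm.delta 0) F) := by
  funext x
  exact congrFun (cz.zero (fun a => F (a, x.2))) x.1

theorem decA1 {B : Type} (p : ℕ) (F : P.X (p + 1) × B → k) :
    F = lf (Pr cz (p + 1)) F + (lf (P.cm.delta p) (lf (cz.h p) F) +
      lf (cz.h (p + 1)) (lf (P.cm.delta (p + 1)) F)) := by
  funext x
  exact congrFun (cz.succ p (fun a => F (a, x.2))) x.1

theorem decB0 {A : Type} (F : A × Q.X 0 → k) :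
    F = rt (Pr cw 0) F + rt (cw.h 0) (rt (Q.cm.delta 0) F) := by
  funext x
  exact congrFun (cw.zero (fun b => F (x.1, b))) x.2

theorem decB1 {A : Type} (q : ℕ) (F : A × Q.X (q + 1) → k) :
    F = rt (Pr cw (q + 1)) F + (rt (Q.cm.delta q) (rt (cw.h q) F) +
      rt (cw.h (q + 1)) (rt (Q.cm.delta (q + 1)) F)) := by
  funext x
  exact congrFun (cw.succ q (fun b => F (x.1, b))) x.2

theorem stepA (hP : P.LF) {F : ∀ p q, (PS.bcm P Q).X p q} (hF : (PS.bcm P Q).dc.D F = 0) :
    F = (fun p q => lf (Pr cz p) (F p q)) +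
      (PS.bcm P Q).dc.D (fun p q => lf (cz.h p) (F (p + 1) q)) := by
  have h1 : ∀ p, lf (P.cm.delta p) (F p 0) = 0 := by
    intro p
    rw [← dh_eq]
    exact congrFun (congrFun hF (p + 1)) 0
  have h3 : ∀ p q, rt (Q.cm.delta q) (F (p + 1) q) = lf (P.cm.delta p) (F p (q + 1)) := by
    intro p q
    rw [← dh_eq, ← dv_eq]
    have h4 : (PS.bcm P Q).dc.dh p (q + 1) (F p (q + 1)) +
      (PS.bcm P Q).dc.dv (p + 1) q (F (p + 1) q) = 0 := congrFun (congrFun hF (p + 1)) (q + 1)
    exact (mod_two_eq h4).symm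
  funext p q
  cases p with
  | zero =>
    have := hP 0
    have := hP 1
    have e := decA0 cz (F 0 q)
    cases q with
    | zero =>
      rw [h1, lf_zero] at e
      exact e
    | succ q =>
      rw [← h3, lf_rt, ← dv_eq] at e
      exact e
  | succ p =>
    have := hP (p + 1)
    have := hP (p + 2)
    have e := decA1 cz p (F (p + 1) q)
    cases q with
    | zero =>
      rw [h1, lf_zero, add_zero, ← dh_eq] at e
      exact e
    | succ q =>
      rw [← h3, lf_rt, ← dv_eq, ← dh_eq] at e
      exact e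

theorem stepB (hP : P.LF) {F : ∀ p q, (PS.bcm P Q).X p q}
    (h1 : ∀ p q, (PS.bcm P Q).dc.dh p q (F p q) = 0)
    (h2 : ∀ p q, (PS.bcm P Q).dc.dv p q (F p q) = 0) :
    F = (fun p q => rt (Pr cw q) (F p q)) +
      (PS.bcm P Q).dc.D (fun p q => rt (cw.h q) (F p (q + 1))) := by
  have h3 : ∀ p q, (PS.bcm P Q).dc.dh p q (rt (cw.h q) (F p (q + 1))) = 0 := by
    intro p q
    have := hP p
    rw [dh_eq, lf_rt, ← dh_eq, h1, rt_zero]
  funext p q
  cases q with
  | zero =>
    have e := decB0 cw (F p 0)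
    rw [← dv_eq, h2, rt_zero] at e
    cases p with
    | zero => exact e
    | succ p =>
      rw [← h3 p 0] at e
      exact e
  | succ q =>
    have e := decB1 cw q (F p (q + 1))
    rw [← dv_eq, ← dv_eq, h2, rt_zero, add_zero] at e
    cases p with
    | zero => exact e
    | succ p =>
      rw [← zero_add ((PS.bcm P Q).dc.dv (p + 1) q _), ← h3 p (q + 1)] at e
      exact e

theorem d_Pr (hz : P.cm.cc.IsBasis z) (p : ℕ) (f : P.X p → k) :
    P.cm.delta p (Pr cz p f) = 0 := by
  show P.cm.cc.d p (Finsupp.linearCombination k (z p) (cz.pr p f)) = 0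
  rw [Finsupp.linearCombination_apply, map_finsuppSum]
  simp only [map_smul, hz.cocycle, smul_zero]
  exact Finsupp.sum_fun_zero _

theorem Pr_d (p : ℕ) (f : P.X p → k) : Pr cz (p + 1) (P.cm.delta p f) = 0 := by
  show Finsupp.linearCombination k (z (p + 1)) (cz.pr (p + 1) (P.cm.cc.d p f)) = 0
  rw [cz.pr_d, map_zero]

theorem lf_eq_zero {A A' B : Type} {T : (A → k) →ₗ[k] (A' → k)} {F : A × B → k}
    (h : ∀ b, T (fun a => F (a, b)) = 0) : lf T F = 0 := by
  funext x
  exact congrFun (h x.2) x.1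

theorem dh_Pr (hz : P.cm.cc.IsBasis z) (p q : ℕ) (F : (PS.bcm P Q).X p q) :
    (PS.bcm P Q).dc.dh p q (lf (Pr cz p) F) = 0 := by
  rw [dh_eq]
  exact lf_eq_zero (A := P.X p) (T := (P.cm.delta p).comp (Pr cz p)) (F := F)
    fun b => d_Pr cz hz p (fun a => F (a, b))

theorem dv_Pr (hP : P.LF) {F : ∀ p q, (PS.bcm P Q).X p q} (hF : (PS.bcm P Q).dc.D F = 0)
    (p q : ℕ) : (PS.bcm P Q).dc.dv p q (lf (Pr cz p) (F p q)) = 0 := by
  have := hP p
  rw [dv_eq, ← lf_rt, ← dv_eq]
  cases p with
  | zero =>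
    have h1 : (PS.bcm P Q).dc.dv 0 q (F 0 q) = 0 := congrFun (congrFun hF 0) (q + 1)
    rw [h1, lf_zero]
  | succ p =>
    have h4 : (PS.bcm P Q).dc.dh p (q + 1) (F p (q + 1)) +
      (PS.bcm P Q).dc.dv (p + 1) q (F (p + 1) q) = 0 := congrFun (congrFun hF (p + 1)) (q + 1)
    rw [← mod_two_eq h4, dh_eq]
    exact lf_eq_zero (A := P.X p) (T := (Pr cz (p + 1)).comp (P.cm.delta p)) (F := F p (q + 1))
      fun b => Pr_d cz p (fun a => F p (q + 1) (a, b))

/-- Every total cocycle is a sum of tensors of representatives and coboundaries. -/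
theorem decomp (hP : P.LF) (hz : P.cm.cc.IsBasis z) {F : ∀ p q, (PS.bcm P Q).X p q}
    (hF : (PS.bcm P Q).dc.D F = 0) :
    F = (fun p q => rt (Pr cw q) (lf (Pr cz p) (F p q))) +
      (PS.bcm P Q).dc.D (fun p q => rt (cw.h q) (lf (Pr cz p) (F p (q + 1)))) +
      (PS.bcm P Q).dc.D (fun p q => lf (cz.h p) (F (p + 1) q)) := by
  rw [← stepB cw hP (F := fun p q => lf (Pr cz p) (F p q)) (fun p q => dh_Pr cz hz p q (F p q))
    (fun p q => dv_Pr cz hP hF p q)]
  exact stepA cz hP hF

end main

/-- The images of total coboundaries. -/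
theorem AW_D_mem (h2 : AWC_Stmt) (M : BCM) (n : ℕ) {G : ∀ p q, M.X p q}
    (hG : ∀ p q, p + q + 1 ≠ n → G p q = 0) : M.AW n (M.dc.D G) ∈ M.diag.cc.B n := by
  cases n with
  | zero =>
    have h : G = 0 := by
      funext p q
      exact hG p q (by omega)
    rw [h, D_zero]
    exact (AWl M 0).map_zero
  | succ m =>
    rw [h2 M m G (fun p q h => hG p q (by omega))]
    exact ⟨M.AW m G, rfl⟩

theorem finite_index {C : CC} {I : ℕ → Type} {z : ∀ n, I n → C.X n} (hz : C.IsBasis z) (n : ℕ)
    [Finite (C.X n)] : Finite (I n) := by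
  refine Finite.of_injective (z n) fun i j hij => ?_
  by_contra hne
  have h1 := hz.indep n (Finsupp.single i 1 - Finsupp.single j 1) (by
    rw [← Finsupp.linearCombination_apply, map_sub, Finsupp.linearCombination_single,
      Finsupp.linearCombination_single, hij, sub_self]
    exact zero_mem _)
  have h2 := DFunLike.congr_fun h1 i
  rw [Finsupp.sub_apply, Finsupp.single_eq_same, Finsupp.single_eq_of_ne hne, sub_zero] at h2
  exact one_ne_zero h2

section final

variable {P Q} {I J : ℕ → Type} {z : ∀ n, I n → P.X n → k} {w : ∀ n, J n → Q.X n → k}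

theorem span_part (h1 : EZ_Stmt) (h2 : AWC_Stmt) (hP : P.LF)
    (hz : P.cm.cc.IsBasis z) (hw : Q.cm.cc.IsBasis w) (n : ℕ) (v : (P.smash Q).cm.X n)
    (hv : (P.smash Q).cm.delta n v = 0) :
    ∃ c : prodI I J n →₀ k, v - (c.sum fun i a => a • crossB P Q z w n i) ∈
      (P.smash Q).cm.cc.B n := by
  obtain ⟨cz⟩ := exists_contr P.cm.cc z hz
  obtain ⟨cw⟩ := exists_contr Q.cm.cc w hw
  obtain ⟨F, hF, hvF⟩ := (h1 (PS.bcm P Q) n).1 v hv
  obtain ⟨hFt, hFD⟩ := hF
  have hdec := decomp cz cw hP hz hFD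
  have hFz : ∀ p q, p + q ≠ n → F p q = 0 := hFt
  have e1 : (PS.bcm P Q).AW n F = (PS.bcm P Q).AW n
      (fun p q => rt (Pr cw q) (lf (Pr cz p) (F p q))) +
      (PS.bcm P Q).AW n ((PS.bcm P Q).dc.D
        (fun p q => rt (cw.h q) (lf (Pr cz p) (F p (q + 1))))) +
      (PS.bcm P Q).AW n ((PS.bcm P Q).dc.D (fun p q => lf (cz.h p) (F (p + 1) q))) := by
    conv_lhs => rw [hdec]
    exact (map_add (AWl (PS.bcm P Q) n) _ _).trans
      (congrArg (· + _) (map_add (AWl (PS.bcm P Q) n) _ _))
  have hB1 : (PS.bcm P Q).AW n ((PS.bcm P Q).dc.D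
      (fun p q => rt (cw.h q) (lf (Pr cz p) (F p (q + 1))))) ∈ (PS.bcm P Q).diag.cc.B n := by
    apply AW_D_mem h2
    intro p q h
    rw [hFz p (q + 1) (by omega), lf_zero, rt_zero]
  have hB2 : (PS.bcm P Q).AW n ((PS.bcm P Q).dc.D
      (fun p q => lf (cz.h p) (F (p + 1) q))) ∈ (PS.bcm P Q).diag.cc.B n := by
    apply AW_D_mem h2
    intro p q h
    rw [hFz (p + 1) q (by omega), lf_zero]
  have hspan : (PS.bcm P Q).AW n (fun p q => rt (Pr cw q) (lf (Pr cz p) (F p q))) ∈
      Submodule.span k (Set.range (crossB P Q z w n)) := by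
    unfold BCM.AW
    refine Submodule.sum_mem _ fun p hp => ?_
    have := hP p
    have : Finite (P.cm.cc.X p) := inferInstanceAs (Finite (P.X p → k))
    have := finite_index hz p
    have h5 := mem_span_tn (z p) (w (n - p)) (cz.pr p) (cw.pr (n - p)) (F p (n - p))
    have h6 := Submodule.mem_map_of_mem (f := (PS.bcm P Q).map (fr p n) (bk (n - p) n)) h5
    rw [Submodule.map_span] at h6
    refine Submodule.span_mono ?_ h6
    rintro _ ⟨_, ⟨t, rfl⟩, rfl⟩
    refine ⟨⟨(⟨p, t.1⟩, ⟨n - p, t.2⟩), ?_⟩, ?_⟩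
    · have := Finset.mem_range.1 hp
      show p + (n - p) = n
      omega
    · exact (AW_cross P Q p (n - p) n (z p t.1) (w (n - p) t.2)).symm
  obtain ⟨c, hc⟩ := Finsupp.mem_span_range_iff_exists_finsupp.1 hspan
  refine ⟨c, ?_⟩
  rw [hc]
  have e2 : v - (PS.bcm P Q).AW n (fun p q => rt (Pr cw q) (lf (Pr cz p) (F p q))) =
      (v - (PS.bcm P Q).AW n F) + ((PS.bcm P Q).AW n ((PS.bcm P Q).dc.D
        (fun p q => rt (cw.h q) (lf (Pr cz p) (F p (q + 1))))) +
      (PS.bcm P Q).AW n ((PS.bcm P Q).dc.D (fun p q => lf (cz.h p) (F (p + 1) q)))) := by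
    rw [e1]
    abel
  rw [e2]
  exact add_mem hvF (add_mem hB1 hB2)

/-- The coefficient functional. -/
noncomputable def Lam (cz : Contr P.cm.cc z) (cw : Contr Q.cm.cc w) (p q : ℕ) (i : I p) (j : J q)
    (F : ∀ p q, (PS.bcm P Q).X p q) : k :=
  cw.pr q (pl ((Finsupp.lapply i).comp (cz.pr p)) (F p q)) j

theorem Lam_add (cz : Contr P.cm.cc z) (cw : Contr Q.cm.cc w) (p q : ℕ) (i : I p) (j : J q)
    (F G : ∀ p q, (PS.bcm P Q).X p q) :
    Lam cz cw p q i j (F + G) = Lam cz cw p q i j F + Lam cz cw p q i j G := by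
  have e : pl ((Finsupp.lapply i).comp (cz.pr p)) ((F + G) p q) =
      pl ((Finsupp.lapply i).comp (cz.pr p)) (F p q) +
        pl ((Finsupp.lapply i).comp (cz.pr p)) (G p q) := by
    funext b
    exact map_add ((Finsupp.lapply i).comp (cz.pr p)) (fun a => F p q (a, b))
      (fun a => G p q (a, b))
  show cw.pr q (pl ((Finsupp.lapply i).comp (cz.pr p)) ((F + G) p q)) j = _
  rw [e, map_add]
  rfl

theorem Lam_smul (cz : Contr P.cm.cc z) (cw : Contr Q.cm.cc w) (p q : ℕ) (i : I p) (j : J q)
    (c : k) (F : ∀ p q, (PS.bcm P Q).X p q) :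
    Lam cz cw p q i j (c • F) = c * Lam cz cw p q i j F := by
  have e : pl ((Finsupp.lapply i).comp (cz.pr p)) ((c • F) p q) =
      c • pl ((Finsupp.lapply i).comp (cz.pr p)) (F p q) := by
    funext b
    exact map_smul ((Finsupp.lapply i).comp (cz.pr p)) c (fun a => F p q (a, b))
  show cw.pr q (pl ((Finsupp.lapply i).comp (cz.pr p)) ((c • F) p q)) j = _
  rw [e, map_smul]
  rfl

/-- The coefficient functional as a linear map. -/
noncomputable def LamL (cz : Contr P.cm.cc z) (cw : Contr Q.cm.cc w) (p q : ℕ) (i : I p)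
    (j : J q) : (∀ p q, (PS.bcm P Q).X p q) →ₗ[k] k where
  toFun := Lam cz cw p q i j
  map_add' := Lam_add cz cw p q i j
  map_smul' := Lam_smul cz cw p q i j

theorem pl_lf_d (cz : Contr P.cm.cc z) (p : ℕ) (i : I (p + 1)) {B : Type} (F : P.X p × B → k) :
    pl ((Finsupp.lapply i).comp (cz.pr (p + 1))) (lf (P.cm.delta p) F) = 0 := by
  funext b
  show cz.pr (p + 1) (P.cm.cc.d p (fun a => F (a, b))) i = 0
  rw [cz.pr_d]
  rfl

theorem pr_rt_d (hP : P.LF) (cz : Contr P.cm.cc z) (cw : Contr Q.cm.cc w) (p q : ℕ) (i : I p)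
    (F : P.X p × Q.X q → k) :
    cw.pr (q + 1) (pl ((Finsupp.lapply i).comp (cz.pr p)) (rt (Q.cm.delta q) F)) = 0 := by
  have := hP p
  rw [pl_rt]
  exact cw.pr_d q _

theorem Lam_D (hP : P.LF) (cz : Contr P.cm.cc z) (cw : Contr Q.cm.cc w) (p q : ℕ) (i : I p)
    (j : J q) (F : ∀ p q, (PS.bcm P Q).X p q) :
    Lam cz cw p q i j ((PS.bcm P Q).dc.D F) = 0 := by
  cases p with
  | zero =>
    cases q with
    | zero =>
      show cw.pr 0 (pl ((Finsupp.lapply i).comp (cz.pr 0)) 0) j = 0
      rw [pl_zero, map_zero]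
      rfl
    | succ q =>
      show cw.pr (q + 1) (pl ((Finsupp.lapply i).comp (cz.pr 0))
        ((PS.bcm P Q).dc.dv 0 q (F 0 q))) j = 0
      rw [dv_eq, pr_rt_d hP]
      rfl
  | succ p =>
    cases q with
    | zero =>
      show cw.pr 0 (pl ((Finsupp.lapply i).comp (cz.pr (p + 1)))
        ((PS.bcm P Q).dc.dh p 0 (F p 0))) j = 0
      rw [dh_eq, pl_lf_d, map_zero]
      rfl
    | succ q =>
      have e : pl ((Finsupp.lapply i).comp (cz.pr (p + 1)))
          ((PS.bcm P Q).dc.dh p (q + 1) (F p (q + 1)) +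
            (PS.bcm P Q).dc.dv (p + 1) q (F (p + 1) q)) =
          pl ((Finsupp.lapply i).comp (cz.pr (p + 1)))
            ((PS.bcm P Q).dc.dh p (q + 1) (F p (q + 1))) +
          pl ((Finsupp.lapply i).comp (cz.pr (p + 1)))
            ((PS.bcm P Q).dc.dv (p + 1) q (F (p + 1) q)) := by
        funext b
        exact map_add ((Finsupp.lapply i).comp (cz.pr (p + 1)))
          (fun a => (PS.bcm P Q).dc.dh p (q + 1) (F p (q + 1)) (a, b))
          (fun a => (PS.bcm P Q).dc.dv (p + 1) q (F (p + 1) q) (a, b))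
      show cw.pr (q + 1) (pl ((Finsupp.lapply i).comp (cz.pr (p + 1)))
        ((PS.bcm P Q).dc.dh p (q + 1) (F p (q + 1)) +
          (PS.bcm P Q).dc.dv (p + 1) q (F (p + 1) q))) j = 0
      rw [e, map_add, dh_eq, dv_eq, pl_lf_d, map_zero, zero_add, pr_rt_d hP]
      rfl

theorem Lam_tt (cz : Contr P.cm.cc z) (cw : Contr Q.cm.cc w) (s t : (Σ p : ℕ, I p) × (Σ q : ℕ, J q))
    [Decidable (t = s)] :
    Lam cz cw s.1.1 s.2.1 s.1.2 s.2.2 (tt P Q t.1.1 t.2.1 (z _ t.1.2) (w _ t.2.2)) =
      if t = s then 1 else 0 := by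
  classical
  obtain ⟨⟨p, i⟩, ⟨q, j⟩⟩ := s
  obtain ⟨⟨p', i'⟩, ⟨q', j'⟩⟩ := t
  show cw.pr q (pl ((Finsupp.lapply i).comp (cz.pr p)) (tt P Q p' q' (z p' i') (w q' j') p q)) j = _
  by_cases h : p' = p ∧ q' = q
  · obtain ⟨rfl, rfl⟩ := h
    rw [tt_same, pl_tn, map_smul, cw.pr_z]
    show cz.pr p' (z p' i') i • (Finsupp.single j' (1 : k)) j = _
    rw [cz.pr_z]
    by_cases hi : i' = i
    · subst hi
      by_cases hj : j' = j
      · subst hj
        rw [Finsupp.single_eq_same, Finsupp.single_eq_same, if_pos rfl]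
        exact mul_one _
      · rw [if_neg (fun h => hj (by simpa using h)), Finsupp.single_apply, Finsupp.single_apply,
          if_neg hj]
        exact mul_zero _
    · rw [if_neg (fun h => hi (by
        have := congrArg Prod.fst h
        simpa using this)), Finsupp.single_apply, if_neg hi]
      exact zero_mul _
  · rw [tt_ne P Q _ _ h, pl_zero, map_zero, if_neg]
    · rfl
    · intro h'
      apply h
      have h1 := congrArg (fun x => x.1.1) h'
      have h2 := congrArg (fun x => x.2.1) h'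
      exact ⟨h1, h2⟩

theorem indep_part (h1 : EZ_Stmt) (hP : P.LF)
    (hz : P.cm.cc.IsBasis z) (hw : Q.cm.cc.IsBasis w) (n : ℕ) (c : prodI I J n →₀ k)
    (hc : (c.sum fun i a => a • crossB P Q z w n i) ∈ (P.smash Q).cm.cc.B n) : c = 0 := by
  classical
  obtain ⟨cz⟩ := exists_contr P.cm.cc z hz
  obtain ⟨cw⟩ := exists_contr Q.cm.cc w hw
  have e1 : (c.sum fun i a => a • crossB P Q z w n i) = (PS.bcm P Q).AW n
      (c.sum fun t a => a • tt P Q t.1.1.1 t.1.2.1 (z _ t.1.1.2) (w _ t.1.2.2)) := by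
    have e2 := map_finsuppSum (AWl (PS.bcm P Q) n) c
      (fun t a => a • tt P Q t.1.1.1 t.1.2.1 (z _ t.1.1.2) (w _ t.1.2.2))
    refine Eq.trans ?_ e2.symm
    refine Finsupp.sum_congr fun t _ => ?_
    rw [map_smul]
    congr 1
    exact (AW_tt P Q t.2 (z _ t.1.1.2) (w _ t.1.2.2)).symm
  rw [e1] at hc
  have hZ : (c.sum fun t a => a • tt P Q t.1.1.1 t.1.2.1 (z _ t.1.1.2) (w _ t.1.2.2)) ∈
      (PS.bcm P Q).dc.ZT n := by
    refine Submodule.sum_mem _ fun t _ => Submodule.smul_mem _ _ ?_
    exact tt_ZT P Q t.2 (hz.cocycle _ _) (hw.cocycle _ _)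
  have hB := (h1 (PS.bcm P Q) n).2 _ hZ hc
  ext s
  have hle : (PS.bcm P Q).dc.BT n ≤
      LinearMap.ker (LamL cz cw s.1.1.1 s.1.2.1 s.1.1.2 s.1.2.2) := by
    cases n with
    | zero => exact bot_le
    | succ m =>
      refine Submodule.span_le.2 ?_
      rintro _ ⟨y, _, rfl⟩
      exact Lam_D hP cz cw _ _ _ _ y
  have h3 := LinearMap.mem_ker.1 (hle hB)
  rw [map_finsuppSum] at h3
  rw [Finsupp.sum_eq_single s] at h3
  · rw [map_smul] at h3
    have h4 : LamL cz cw s.1.1.1 s.1.2.1 s.1.1.2 s.1.2.2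
        (tt P Q s.1.1.1 s.1.2.1 (z _ s.1.1.2) (w _ s.1.2.2)) = 1 := by
      refine (Lam_tt cz cw s.1 s.1).trans (if_pos rfl)
    rw [h4] at h3
    exact (mul_one _).symm.trans h3
  · intro t _ hts
    rw [map_smul]
    have h4 : LamL cz cw s.1.1.1 s.1.2.1 s.1.1.2 s.1.2.2
        (tt P Q t.1.1.1 t.1.2.1 (z _ t.1.1.2) (w _ t.1.2.2)) = 0 := by
      refine (Lam_tt cz cw s.1 t.1).trans (if_neg fun h => hts (Subtype.ext h))
    rw [h4, smul_zero]
  · intro _
    rw [zero_smul, map_zero]

theorem cocycle_part (h2 : AWC_Stmt) (hz : P.cm.cc.IsBasis z) (hw : Q.cm.cc.IsBasis w) (n : ℕ)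
    (t : prodI I J n) : (P.smash Q).cm.delta n (crossB P Q z w n t) = 0 := by
  have h3 := h2 (PS.bcm P Q) n _ (tt_tot P Q t.2 (z _ t.1.1.2) (w _ t.1.2.2))
  rw [AW_tt P Q t.2, (tt_ZT P Q t.2 (hz.cocycle _ _) (hw.cocycle _ _)).2] at h3
  refine Eq.trans h3.symm ?_
  exact (AWl (PS.bcm P Q) (n + 1)).map_zero

end final

end Kunp

theorem KUNP (h1 : EZ_Stmt) (h2 : AWC_Stmt) : KUNP_Stmt := by
  intro P Q hP _ I J z w hz hw
  exact {
    cocycle := Kunp.cocycle_part h2 hz hw
    span := Kunp.span_part h1 h2 hP hz hw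
    indep := Kunp.indep_part h1 hP hz hw }

end Pool.Agent.SHS


end

section

namespace Pool.Agent.SHS

theorem HBE : HBE_Stmt := by
  classical
  intro X
  let B : ∀ n : ℕ, Module.Basis (Module.Basis.ofVectorSpaceIndex k (Hn X n)) k (Hn X n) :=
    fun n => Module.Basis.ofVectorSpace k (Hn X n)
  refine ⟨Σ n : ℕ, Module.Basis.ofVectorSpaceIndex k (Hn X n), fun i => i.1,
    fun i => ((B i.1 i.2 : Hn X i.1) : H X), ⟨fun i => (B i.1 i.2).2, ?_, ?_⟩⟩
  · rw [linearIndependent_iff']
    rintro s g hg ⟨n, v⟩ hi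
    have h1 := congrArg (Hpr n) hg
    rw [map_sum, map_zero] at h1
    have h2 : ∑ i ∈ s.filter (fun i => i.1 = n), g i • ((B i.1 i.2 : Hn X i.1) : H X) = 0 := by
      rw [← h1, Finset.sum_filter]
      refine Finset.sum_congr rfl fun i _ => ?_
      rw [map_smul]
      split_ifs with h
      · subst h
        rw [Hpr_eq (B i.1 i.2).2]
      · rw [Hpr_ne h (B i.1 i.2).2, smul_zero]
    have hinj : Set.InjOn (fun w : Module.Basis.ofVectorSpaceIndex k (Hn X n) =>
        (⟨n, w⟩ : Σ n : ℕ, Module.Basis.ofVectorSpaceIndex k (Hn X n)))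
        ((fun w : Module.Basis.ofVectorSpaceIndex k (Hn X n) =>
        (⟨n, w⟩ : Σ n : ℕ, Module.Basis.ofVectorSpaceIndex k (Hn X n))) ⁻¹' (s : Set _)) := by
      intro a _ b _ hab
      simpa using hab
    let sn := s.preimage (fun w : Module.Basis.ofVectorSpaceIndex k (Hn X n) =>
        (⟨n, w⟩ : Σ n : ℕ, Module.Basis.ofVectorSpaceIndex k (Hn X n))) hinj
    have h3 : ∑ w ∈ sn, g ⟨n, w⟩ • (B n w) = 0 := by
      apply Subtype.ext
      rw [Submodule.coe_zero, ← h2, Submodule.coe_sum]
      refine Finset.sum_bij (fun w _ => ⟨n, w⟩) ?_ ?_ ?_ ?_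
      · intro w hw
        rw [Finset.mem_filter]
        exact ⟨Finset.mem_preimage.1 hw, rfl⟩
      · intro a _ b _ hab
        simpa using hab
      · rintro ⟨m, w⟩ hw
        rw [Finset.mem_filter] at hw
        obtain ⟨hw1, hw2⟩ := hw
        subst hw2
        exact ⟨w, Finset.mem_preimage.2 hw1, rfl⟩
      · intro w _
        rfl
    have h4 := (linearIndependent_iff'.1 (B n).linearIndependent) sn (fun w => g ⟨n, w⟩) h3 v
      (Finset.mem_preimage.2 hi)
    exact h4
  · intro n a ha
    have h1 : (⟨a, ha⟩ : Hn X n) ∈ Submodule.span k (Set.range (B n)) := by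
      rw [(B n).span_eq]
      trivial
    have h2 := Submodule.mem_map_of_mem (f := (Hn X n).subtype) h1
    rw [Submodule.map_span] at h2
    refine Submodule.span_mono ?_ h2
    rintro _ ⟨_, ⟨w, rfl⟩, rfl⟩
    exact ⟨⟨n, w⟩, rfl, rfl⟩

end Pool.Agent.SHS


end

section

/-!
Homotopy invariance of the cohomology ring (prism operator).
-/

namespace Pool.Agent.SHS

open Coch

namespace Hty

/-- Codegeneracy with a natural number as index. -/
def codN (i n : ℕ) : Mor (n + 1) n where
  toFun v := ⟨min (if v.1 ≤ i then v.1 else v.1 - 1) n, by omega⟩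
  monotone' := by
    intro a b h
    have h' : a.1 ≤ b.1 := h
    show min (if a.1 ≤ i then a.1 else a.1 - 1) n ≤ min (if b.1 ≤ i then b.1 else b.1 - 1) n
    split_ifs <;> omega

/-- The simplex of Δ^1 with `i` vertices 0. -/
def tN (i n : ℕ) : Mor n 1 where
  toFun v := ⟨if v.1 < i then 0 else 1, by split <;> omega⟩
  monotone' := by
    intro a b h
    have h' : a.1 ≤ b.1 := h
    show (if a.1 < i then 0 else 1) ≤ (if b.1 < i then 0 else 1)
    split_ifs <;> omega

theorem codN_val (i n : ℕ) (v : Fin (n + 2)) :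
    ((codN i n) v : ℕ) = min (if v.1 ≤ i then v.1 else v.1 - 1) n := rfl

theorem tN_val (i n : ℕ) (v : Fin (n + 1)) : ((tN i n) v : ℕ) = if v.1 < i then 0 else 1 := rfl

theorem tN_zero (n : ℕ) : tN 0 n = cst 1 := by
  apply mor_ext; intro v; rw [tN_val, if_neg (by omega)]; rfl

theorem tN_last (n : ℕ) : tN (n + 1) n = cst 0 := by
  apply mor_ext; intro v; have := v.2; rw [tN_val, if_pos (by omega)]; rfl

theorem t_cof_le {n i j : ℕ} (h : j ≤ i) :
    (tN (i + 1) (n + 1)).comp (cofN j n) = tN i n := by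
  apply mor_ext; intro v
  rw [comp_val, tN_val, cofN_val, tN_val]
  split_ifs <;> omega

theorem t_cof_gt {n i j : ℕ} (h : i < j) :
    (tN (i + 1) (n + 1)).comp (cofN j n) = tN (i + 1) n := by
  apply mor_ext; intro v
  rw [comp_val, tN_val, cofN_val, tN_val]
  split_ifs <;> omega

theorem cod_cof_self {n i : ℕ} : (codN i n).comp (cofN i n) = OrderHom.id := by
  apply mor_ext; intro v; have := v.2
  rw [comp_val, codN_val, cofN_val]
  show _ = v.1
  split_ifs <;> omega

theorem cod_cof_succ {n i : ℕ} : (codN i n).comp (cofN (i + 1) n) = OrderHom.id := by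
  apply mor_ext; intro v; have := v.2
  rw [comp_val, codN_val, cofN_val]
  show _ = v.1
  split_ifs <;> omega

theorem cod_cof_le {m i j : ℕ} (h : j ≤ i) (hi : i ≤ m) :
    (codN (i + 1) (m + 1)).comp (cofN j (m + 1)) = (cofN j m).comp (codN i m) := by
  apply mor_ext; intro v; have := v.2
  rw [comp_val, codN_val, cofN_val, comp_val, cofN_val, codN_val]
  split_ifs <;> omega

theorem cod_cof_gt {m i j : ℕ} (h : i < j) (hj : j ≤ m + 1) :
    (codN i (m + 1)).comp (cofN (j + 1) (m + 1)) = (cofN j m).comp (codN i m) := by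
  apply mor_ext; intro v; have := v.2
  rw [comp_val, codN_val, cofN_val, comp_val, cofN_val, codN_val]
  split_ifs <;> omega

theorem sumlem (n : ℕ) (A B : ℕ → ℕ → k) (C : ℕ → k)
    (h1 : ∀ i j, j ≤ i → i < n → A (i + 1) j = B i j)
    (h2 : ∀ i j, i < j → j ≤ n → A i (j + 1) = B i j)
    (h3 : ∀ i, i ≤ n → A i i = C i) (h4 : ∀ i, i ≤ n → A i (i + 1) = C (i + 1)) :
    ∑ i ∈ Finset.range (n + 1), ∑ j ∈ Finset.range (n + 2), A i j
      = C 0 + C (n + 1) + ∑ i ∈ Finset.range n, ∑ j ∈ Finset.range (n + 1), B i j := by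
  have e0 : ∀ i ∈ Finset.range (n + 1), ∑ j ∈ Finset.range (n + 2), A i j
      = ∑ j ∈ Finset.range i, A i j + (C i + C (i + 1))
        + ∑ j ∈ Finset.Ico (i + 2) (n + 2), A i j := by
    intro i hi
    rw [Finset.mem_range] at hi
    rw [← Finset.sum_range_add_sum_Ico (fun j => A i j) (show i + 2 ≤ n + 2 by omega),
      Finset.sum_range_succ, Finset.sum_range_succ, h3 i (by omega), h4 i (by omega)]
    ring
  rw [Finset.sum_congr rfl e0, Finset.sum_add_distrib, Finset.sum_add_distrib]
  have e1 : ∑ i ∈ Finset.range (n + 1), ∑ j ∈ Finset.range i, A i j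
      = ∑ i ∈ Finset.range n, ∑ j ∈ Finset.range (i + 1), B i j := by
    rw [Finset.sum_range_succ']
    rw [Finset.sum_range_zero, add_zero]
    apply Finset.sum_congr rfl
    intro i hi
    rw [Finset.mem_range] at hi
    apply Finset.sum_congr rfl
    intro j hj
    rw [Finset.mem_range] at hj
    exact h1 i j (by omega) hi
  have e2 : ∑ i ∈ Finset.range (n + 1), ∑ j ∈ Finset.Ico (i + 2) (n + 2), A i j
      = ∑ i ∈ Finset.range n, ∑ j ∈ Finset.Ico (i + 1) (n + 1), B i j := by
    rw [Finset.sum_range_succ, Finset.Ico_self, Finset.sum_empty, add_zero]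
    apply Finset.sum_congr rfl
    intro i hi
    rw [Finset.mem_range] at hi
    rw [show i + 2 = (i + 1) + 1 by ring, show n + 2 = (n + 1) + 1 by ring,
      ← Finset.sum_Ico_add' (fun j => A i j) (i + 1) (n + 1) 1]
    apply Finset.sum_congr rfl
    intro j hj
    rw [Finset.mem_Ico] at hj
    exact h2 i j (by omega) (by omega)
  have e3 : ∑ i ∈ Finset.range (n + 1), (C i + C (i + 1)) = C 0 + C (n + 1) := by
    clear e0 e1 e2 h1 h2 h3 h4
    induction n with
    | zero => simp
    | succ n ih =>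
      rw [Finset.sum_range_succ, ih]
      have := k_two (C (n + 1))
      linear_combination this
  have e4 : ∑ i ∈ Finset.range n, ∑ j ∈ Finset.range (n + 1), B i j
      = ∑ i ∈ Finset.range n, ∑ j ∈ Finset.range (i + 1), B i j
        + ∑ i ∈ Finset.range n, ∑ j ∈ Finset.Ico (i + 1) (n + 1), B i j := by
    rw [← Finset.sum_add_distrib]
    apply Finset.sum_congr rfl
    intro i hi
    rw [Finset.mem_range] at hi
    rw [Finset.sum_range_add_sum_Ico (fun j => B i j) (show i + 1 ≤ n + 1 by omega)]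
  rw [e1, e2, e3, e4]
  ring

/-- The prism operator. -/
def prism {X Y : SS} {f g : SS.Hom X Y} (η : SS.Homotopy f g) (φ : Coch Y) : Coch X :=
  ⟨fun n x => ∑ i ∈ Finset.range (n + 1),
    φ (n + 1) (η.h (n + 1) (tN (i + 1) (n + 1)) (X.map (codN i n) x))⟩

theorem prism_apply {X Y : SS} {f g : SS.Hom X Y} (η : SS.Homotopy f g) (φ : Coch Y) (n : ℕ)
    (x : X.X n) : prism η φ n x = ∑ i ∈ Finset.range (n + 1),
      φ (n + 1) (η.h (n + 1) (tN (i + 1) (n + 1)) (X.map (codN i n) x)) := rfl

theorem prism_dlt {X Y : SS} {f g : SS.Hom X Y} (η : SS.Homotopy f g) (φ : Coch Y) :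
    prism η (dlt φ) = pull g φ + pull f φ + dlt (prism η φ) := by
  ext n x
  rw [prism_apply, cadd_apply, cadd_apply, pull_apply, pull_apply, ← η.zero, ← η.one]
  simp only [dlt_succ', ← η.nat]
  let G : Mor n 1 → Mor n n → k := fun t a => φ n (η.h n t (X.map a x))
  let A : ℕ → ℕ → k := fun i j =>
    G ((tN (i + 1) (n + 1)).comp (cofN j n)) ((codN i n).comp (cofN j n))
  have eA : ∀ i j, φ n (η.h n ((tN (i + 1) (n + 1)).comp (cofN j n))
      (X.map (cofN j n) (X.map (codN i n) x))) = A i j := by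
    intro i j
    show _ = φ n (η.h n _ (X.map ((codN i n).comp (cofN j n)) x))
    rw [X.map_comp]
  simp only [eA]
  have h3 : ∀ i, i ≤ n → A i i = G (tN i n) OrderHom.id := by
    intro i _
    show G _ _ = _
    rw [t_cof_le le_rfl, cod_cof_self]
  have h4 : ∀ i, i ≤ n → A i (i + 1) = G (tN (i + 1) n) OrderHom.id := by
    intro i _
    show G _ _ = _
    rw [t_cof_gt (by omega), cod_cof_succ]
  have c0 : G (tN 0 n) OrderHom.id = φ n (η.h n (cst 1) x) := by
    show φ n (η.h n (tN 0 n) (X.map OrderHom.id x)) = _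
    rw [tN_zero, X.map_id]
  have c1 : G (tN (n + 1) n) OrderHom.id = φ n (η.h n (cst 0) x) := by
    show φ n (η.h n (tN (n + 1) n) (X.map OrderHom.id x)) = _
    rw [tN_last, X.map_id]
  cases n with
  | zero =>
    rw [sumlem 0 A (fun _ _ => 0) (fun i => G (tN i 0) OrderHom.id)
      (fun i j _ h => absurd h (by omega)) (fun i j h h' => absurd h (by omega)) h3 h4]
    rw [c0, c1, Finset.sum_range_zero]
    rfl
  | succ m =>
    rw [sumlem (m + 1) A (fun i j => G (tN (i + 1) (m + 1)) ((cofN j m).comp (codN i m)))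
      (fun i => G (tN i (m + 1)) OrderHom.id) ?_ ?_ h3 h4]
    · rw [c0, c1]
      congr 1
      rw [dlt_succ', Finset.sum_comm]
      apply Finset.sum_congr rfl
      intro j _
      rw [prism_apply]
      apply Finset.sum_congr rfl
      intro i _
      show φ (m + 1) (η.h (m + 1) _ (X.map ((cofN j m).comp (codN i m)) x)) = _
      rw [X.map_comp]
    · intro i j hj hi
      show G _ _ = G _ _
      rw [t_cof_le (by omega), cod_cof_le hj (by omega)]
    · intro i j hj hi
      show G _ _ = G _ _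
      rw [t_cof_gt (by omega), cod_cof_gt hj hi]

theorem prism_zero {X Y : SS} {f g : SS.Hom X Y} (η : SS.Homotopy f g) :
    prism η (0 : Coch Y) = 0 := by
  ext n x
  rw [prism_apply]
  exact Finset.sum_eq_zero fun i _ => rfl

end Hty

open Hty in
theorem HTY : HTY_Stmt := by
  rintro X Y f g ⟨η⟩ a
  obtain ⟨z, rfl⟩ := cls_surjective a
  rw [H.map_cls, H.map_cls, cls_eq]
  refine ⟨prism η z.1, ?_⟩
  show dlt (prism η z.1) = pull f z.1 - pull g z.1
  have h1 := prism_dlt η z.1
  rw [show dlt z.1 = 0 from z.2, prism_zero] at h1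
  rw [mod_two_sub]
  apply mod_two_eq
  rw [h1]
  abel

end Pool.Agent.SHS


end

section

/-!
Block III-S, statements B: cohomology of B(F_2^d), the operations `Pop s` on it, additive
operations, primitive classes of Eilenberg-MacLane objects, their independence.
-/

namespace Pool.Agent.SHS

/-- Weight of a multiset of exponents. -/
def wgt (J : Multiset ℕ) : ℕ := (J.map (fun i => 2 ^ i)).sum

/-- Bases of powers. -/
def POW_Stmt : Prop := ∀ (X : SS), X.LF → ∀ {I : Type} (di : I → ℕ) (b : I → H X), HB X di b →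
  ∀ d : ℕ, HB (X.pow d) (fun e : Fin d → I => ∑ i, di (e i))
    (fun e => ∏ i, H.map (X.proj d i) (b (e i)))

/-- Cohomology of BB: powers of `uu`. -/
def K1A_Stmt : Prop := HB BB (fun m : ℕ => m) (fun m => uu ^ m)

/-- Cohomology of B(F_2^d): polynomial ring. -/
def K1_Stmt : Prop := ∀ d : ℕ, Function.Injective (evB d) ∧
  ∀ (n : ℕ) (a : H (BB.pow d)), a ∈ Hn (BB.pow d) n →
    ∃ p : MvPolynomial (Fin d) k, p.IsHomogeneous n ∧ evB d p = a

/-- evB maps homogeneous polynomials of degree n to degree n (easy direction). -/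
def K1H_Stmt : Prop := ∀ (d n : ℕ) (p : MvPolynomial (Fin d) k), p.IsHomogeneous n →
  evB d p ∈ Hn (BB.pow d) n

/-- Kuenneth for the circle. -/
def SK_Stmt : Prop := ee * ee = 0 ∧ ∀ Y : SS, Y.LF →
  (∀ (n : ℕ), ∀ a ∈ Hn (S1.prod Y) (n + 1), ∃ b ∈ Hn Y n, ∃ c ∈ Hn Y (n + 1),
    a = H.map (SS.fst S1 Y) ee * H.map (SS.snd S1 Y) b + H.map (SS.snd S1 Y) c) ∧
  (∀ (n : ℕ), ∀ b ∈ Hn Y n, ∀ c ∈ Hn Y (n + 1),
    H.map (SS.fst S1 Y) ee * H.map (SS.snd S1 Y) b + H.map (SS.snd S1 Y) c = 0 → b = 0 ∧ c = 0)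

/-- Suspension formula for the operations. -/
def SUS_Stmt : Prop := ∀ (Y : SS) (s : ℕ) (b : H Y),
  (Pop (s + 2)).f (S1.prod Y) (H.map (SS.fst S1 Y) ee * H.map (SS.snd S1 Y) b)
    = H.map (SS.fst S1 Y) ee * H.map (SS.snd S1 Y) ((Pop (s + 1)).f Y b)

/-- Degrees of the operations. -/
def POPD_Stmt : Prop := ∀ (X : SS) (s m : ℕ) (a : H X), a ∈ Hn X m →
  (∀ n, n + s = 2 * m + 1 → (Pop s).f X a ∈ Hn X n) ∧ (2 * m + 1 < s → (Pop s).f X a = 0)

/-- The total square on polynomials: X_j ↦ X_j + t X_j^2. -/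
noncomputable def St (d : ℕ) : MvPolynomial (Fin d) k →ₐ[k] Polynomial (MvPolynomial (Fin d) k) :=
  MvPolynomial.aeval (fun j => Polynomial.C (MvPolynomial.X j)
    + Polynomial.X * Polynomial.C (MvPolynomial.X j ^ 2))

/-- An algebraic criterion. -/
def ADD_Stmt : Prop := ∀ (m n : ℕ) (P Q : MvPolynomial (Fin (m + 1)) k), n < 2 * (m + 1) →
  P.IsHomogeneous n → Q.IsHomogeneous n →
  (∀ s : Equiv.Perm (Fin (m + 1)), MvPolynomial.rename s P = P) →
  (∀ s : Equiv.Perm (Fin (m + 1)), MvPolynomial.rename s Q = Q) →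
  (∀ e ∈ P.support, ∀ j, ∃ l : ℕ, e j = 2 ^ l) → (∀ e ∈ Q.support, ∀ j, ∃ l : ℕ, e j = 2 ^ l) →
  (∀ e : Fin (m + 1) →₀ ℕ, e 0 = 1 → P.coeff e = Q.coeff e) → P = Q

/-- A polynomial which is additive in the variable 0 only contains powers of 2 as exponents of
that variable. -/
def PW2_Stmt : Prop := ∀ (m : ℕ) (P : MvPolynomial (Fin (m + 1)) k),
  MvPolynomial.aeval (Fin.cons (MvPolynomial.X 0 + MvPolynomial.X 1)
      (fun j => MvPolynomial.X j.succ.succ) : Fin (m + 1) → MvPolynomial (Fin (m + 2)) k) P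
    = MvPolynomial.aeval (Fin.cons (MvPolynomial.X 0)
        (fun j => MvPolynomial.X j.succ.succ) : Fin (m + 1) → MvPolynomial (Fin (m + 2)) k) P
      + MvPolynomial.aeval (Fin.cons (MvPolynomial.X 1)
        (fun j => MvPolynomial.X j.succ.succ) : Fin (m + 1) → MvPolynomial (Fin (m + 2)) k) P →
  ∀ e ∈ P.support, ∃ l : ℕ, e 0 = 2 ^ l

/-- The operations on u_1 ... u_m. -/
def SQU_Stmt : Prop := ∀ (m i : ℕ), i ≤ m →
  (Pop (m + 1 - i)).f (BB.pow m) (evB m (∏ j, MvPolynomial.X j))
    = evB m ((St m (∏ j, MvPolynomial.X j)).coeff i)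

/-- The operations on all polynomials. -/
def SQP_Stmt : Prop := ∀ (d n i : ℕ) (p : MvPolynomial (Fin d) k), p.IsHomogeneous n → i ≤ n →
  (Pop (n + 1 - i)).f (BB.pow d) (evB d p) = evB d ((St d p).coeff i)

/-- Polynomials which can be reached from u_1 ... u_d by the operations. -/
inductive Reach (d : ℕ) : ℕ → MvPolynomial (Fin d) k → Prop
  | base : Reach d d (∏ j, MvPolynomial.X j)
  | step {n : ℕ} {p : MvPolynomial (Fin d) k} (i : ℕ) (hi : i ≤ n) (h : Reach d n p) :
      Reach d (n + i) ((St d p).coeff i)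
  | add {n : ℕ} {p q : MvPolynomial (Fin d) k} (h : Reach d n p) (h' : Reach d n q) :
      Reach d n (p + q)
  | zero (n : ℕ) : Reach d n 0

/-- Symmetric sum of u_1^(2^i_1) ... u_d^(2^i_d) over the distinct arrangements of `J`. -/
noncomputable def msym (d : ℕ) (J : Multiset ℕ) : MvPolynomial (Fin d) k :=
  ∑ i ∈ (Fintype.piFinset (fun _ : Fin d => J.toFinset)).filter
      (fun i => Multiset.ofList (List.ofFn i) = J), ∏ j, MvPolynomial.X j ^ (2 ^ (i j))

/-- All symmetric sums can be reached. -/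
def GENA_Stmt : Prop := ∀ J : Multiset ℕ,
  Reach (Multiset.card J) (wgt J) (msym (Multiset.card J) J)

/-- All symmetric sums are values of natural additive operations. -/
def OPS_Stmt : Prop := ∀ J : Multiset ℕ, ∃ T : NOp, T.Maps (Multiset.card J) (wgt J) ∧
  T.f (BB.pow (Multiset.card J)) (evB (Multiset.card J) (∏ j, MvPolynomial.X j))
    = evB (Multiset.card J) (msym (Multiset.card J) J)

/-- Symmetric sums are independent (algebra). -/
def MSI_Stmt : Prop := ∀ (n : ℕ), LinearIndependent k
  (fun J : {J : Multiset ℕ // Multiset.card J = n} => msym n J.1)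

/-- Fundamental classes: primitive, and restriction to B(F_2^n). -/
def EMU_Stmt : Prop := ∀ n : ℕ, ∃ ρ : SS.Hom (BB.pow n) (EM n).toSS,
  H.map ρ (iota n) = evB n (∏ j, MvPolynomial.X j)
def IOP_Stmt : Prop := ∀ n : ℕ, Prim (iota n)

/-- The levels of EM n are finite. -/
def EMF_Stmt : Prop := ∀ n : ℕ, (EM n).LF

/-- The family of primitive classes mu_J of `EM n`, J a multiset of n exponents. -/
structure MuFam (n : ℕ) (μ : Multiset ℕ → H (EM n).toSS) : Prop where
  mem : ∀ J, Multiset.card J = n → μ J ∈ Hn (EM n).toSS (wgt J)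
  prim : ∀ J, Multiset.card J = n → Prim (μ J)
  res : ∃ ρ : SS.Hom (BB.pow n) (EM n).toSS, H.map ρ (iota n) = evB n (∏ j, MvPolynomial.X j) ∧
    ∀ J, Multiset.card J = n → H.map ρ (μ J) = evB n (msym n J)
  sq : ∀ J, Multiset.card J = n → μ (J.map (· + 1)) = μ J ^ 2
  op : ∀ J, Multiset.card J = n → 0 ∈ J → ∃ T : NOp, T.Maps n (wgt J) ∧
    T.f (BB.pow n) (evB n (∏ j, MvPolynomial.X j)) = evB n (msym n J) ∧
    μ J = T.f (EM n).toSS (iota n)

def MU_Stmt : Prop := ∀ n : ℕ, 1 ≤ n → ∃ μ, MuFam n μ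

/-- Products of independent homogeneous families are independent. -/
def INDX_Stmt : Prop := ∀ (X Y : SS), X.LF → Y.LF → ∀ {I J : Type} (di : I → ℕ) (dj : J → ℕ)
  (b : I → H X) (c : J → H Y), (∀ i, b i ∈ Hn X (di i)) → (∀ j, c j ∈ Hn Y (dj j)) →
  LinearIndependent k b → LinearIndependent k c →
  LinearIndependent k
    (fun p : I × J => H.map (SS.fst X Y) (b p.1) * H.map (SS.snd X Y) (c p.2))

/-- The square free products of the mu_J are independent. -/
def INDEP_Stmt : Prop := ∀ (n : ℕ) (μ : Multiset ℕ → H (EM n).toSS), 1 ≤ n → MuFam n μ →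
  LinearIndependent k
    (fun S : Finset {J : Multiset ℕ // Multiset.card J = n} => ∏ J ∈ S, μ J.1)

end Pool.Agent.SHS


end

section

/-!
Block III-S: small tools (proved): transport of homogeneous bases, reindexing of powers,
primitive classes.
-/

namespace Pool.Agent.SHS

open Coch

theorem HB.transport {X Y : SS} (φ : SS.Hom X Y) (ψ : SS.Hom Y X)
    (h1 : ∀ a : H Y, H.map ψ (H.map φ a) = a) (h2 : ∀ a : H X, H.map φ (H.map ψ a) = a)
    {I : Type} {di : I → ℕ} {b : I → H Y} (hb : HB Y di b) :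
    HB X di (fun i => H.map φ (b i)) where
  mem i := H.map_mem φ (hb.mem i)
  indep := by
    have hinj : Function.Injective (H.map φ).toLinearMap := by
      intro a a' h
      rw [← h1 a, ← h1 a']
      exact congrArg (H.map ψ) h
    exact hb.indep.map' (H.map φ).toLinearMap (LinearMap.ker_eq_bot.mpr hinj)
  span n := by
    intro a ha
    have h3 : H.map ψ a ∈ Submodule.span k (b '' {i | di i = n}) := hb.span n (H.map_mem ψ ha)
    have h4 := Submodule.mem_map_of_mem (f := (H.map φ).toLinearMap) h3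
    rw [Submodule.map_span, ← Set.image_comp] at h4
    have h5 : (H.map φ).toLinearMap (H.map ψ a) = a := h2 a
    rw [h5] at h4
    exact h4

theorem HB.iso {X Y : SS} (φ : SS.Hom X Y) (ψ : SS.Hom Y X)
    (h1 : ∀ n x, ψ.f n (φ.f n x) = x) (h2 : ∀ n y, φ.f n (ψ.f n y) = y)
    {I : Type} {di : I → ℕ} {b : I → H Y} (hb : HB Y di b) :
    HB X di (fun i => H.map φ (b i)) := by
  apply hb.transport φ ψ
  · intro a
    rw [← H.map_comp]
    have : φ.comp ψ = SS.Hom.id Y := by
      unfold SS.Hom.comp SS.Hom.id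
      congr 1
      funext n y
      exact h2 n y
    rw [this, H.map_id]
  · intro a
    rw [← H.map_comp]
    have : ψ.comp φ = SS.Hom.id X := by
      unfold SS.Hom.comp SS.Hom.id
      congr 1
      funext n x
      exact h1 n x
    rw [this, H.map_id]

theorem SS.Hom.ext' {X Y : SS} {f g : SS.Hom X Y} (h : ∀ n x, f.f n x = g.f n x) : f = g := by
  cases f; cases g
  congr
  funext n x
  exact h n x

/-- Reindexing of powers. -/
def SS.reidx (X : SS) {n d : ℕ} (c : Fin n → Fin d) : SS.Hom (X.pow d) (X.pow n) :=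
  ⟨fun _ x i => x (c i), fun _ _ => rfl⟩

theorem evB_reidx {n d : ℕ} (c : Fin n → Fin d) (p : MvPolynomial (Fin n) k) :
    H.map (BB.reidx c) (evB n p) = evB d (MvPolynomial.rename c p) := by
  have h : (H.map (BB.reidx c)).comp (evB n) = (evB d).comp (MvPolynomial.rename c) := by
    apply MvPolynomial.algHom_ext
    intro i
    rw [AlgHom.comp_apply, AlgHom.comp_apply, MvPolynomial.rename_X]
    unfold evB
    rw [MvPolynomial.aeval_X, MvPolynomial.aeval_X, ← H.map_comp]
    rfl
  exact DFunLike.congr_fun h p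

theorem evB_mem (d n : ℕ) (p : MvPolynomial (Fin d) k) (hp : p.IsHomogeneous n) :
    evB d p ∈ Hn (BB.pow d) n := by
  rw [p.as_sum, map_sum]
  apply Submodule.sum_mem
  intro e he
  have he' : e.degree = n := by
    have := hp (MvPolynomial.mem_support_iff.mp he)
    rw [Finsupp.degree_eq_weight_one]
    exact this
  rw [MvPolynomial.monomial_eq, map_mul]
  unfold evB
  rw [MvPolynomial.aeval_C, ← Algebra.smul_def]
  apply Submodule.smul_mem
  rw [Finsupp.prod, map_prod]
  have h1 : ∀ i ∈ e.support, (MvPolynomial.aeval (R := k) fun i => H.map (BB.proj d i) uu)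
      (MvPolynomial.X i ^ e i) ∈ Hn (BB.pow d) (e i * 1) := by
    intro i _
    rw [map_pow, MvPolynomial.aeval_X]
    exact Hn_pow (H.map_mem _ uu_mem) (e i)
  have h2 := Hn_prod e.support _ _ h1
  have h3 : ∑ i ∈ e.support, e i * 1 = n := by
    rw [← he', Finsupp.degree_apply]
    exact Finset.sum_congr rfl fun i _ => mul_one _
  rw [h3] at h2
  exact h2

/-- natural additive operations preserve primitive classes -/
theorem Prim.op {V : SV} {μ : H V.toSS} (h : Prim μ) (T : NOp) : Prim (T.f V.toSS μ) := by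
  unfold Prim at h ⊢
  rw [← T.nat, h, map_add, T.nat, T.nat]

theorem Prim.add {V : SV} {μ ν : H V.toSS} (h : Prim μ) (h' : Prim ν) : Prim (μ + ν) := by
  unfold Prim at h h' ⊢
  rw [map_add, map_add, map_add, h, h']
  abel

theorem Prim.sq {V : SV} {μ : H V.toSS} (h : Prim μ) : Prim (μ ^ 2) := by
  rw [← Pop_one]
  exact h.op (Pop 1)

theorem IOP : IOP_Stmt := by
  intro n
  unfold Prim iota
  rw [H.map_cls, H.map_cls, H.map_cls, ← map_add]
  congr 1
  apply Subtype.ext
  ext m x
  show iotaC n m (x.1 + x.2) = iotaC n m x.1 + iotaC n m x.2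
  unfold iotaC
  by_cases h : m = n
  · subst h
    rw [single_self, single_self, single_self]
    rfl
  · rw [single_ne h, single_ne h, single_ne h, add_zero]

theorem EMF : EMF_Stmt := by
  intro n q
  show Finite (EMsub n q)
  have h1 : Finite (Mor n q) := Finite.of_injective (fun f : Mor n q => (f : Fin (n+1) → Fin (q+1)))
    (fun f g h => OrderHom.ext _ _ h)
  have h2 : Finite k := inferInstanceAs (Finite (ZMod 2))
  have h3 : Finite (Mor n q → k) := Pi.finite
  exact Subtype.finite

/-- The simplicial map to `EM n` given by a normalised cocycle. -/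
def EMlift {X : SS} (n : ℕ) (f : X.X n → k)
    (hn' : ∀ (m : ℕ) (s : Mor n m), ¬ Function.Injective s → ∀ x : X.X m, f (X.map s x) = 0)
    (hc : X.cm.delta n f = 0) : SS.Hom X (EM n).toSS where
  f q x := ⟨fun s => f (X.map s x), fun s hs => hn' q s hs x, fun t => by
    have h := congrFun hc (X.map t x)
    rw [CM.delta_apply, Finset.sum_apply] at h
    refine Eq.trans (Finset.sum_congr rfl ?_) h
    intro i _
    show f (X.map (t.comp (cof i)) x) = f (X.map (cof i) (X.map t x))
    rw [X.map_comp]⟩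
  nat a x := by
    apply Subtype.ext
    funext s
    show f (X.map s (X.map a x)) = f (X.map (a.comp s) x)
    rw [X.map_comp]

end Pool.Agent.SHS


end

section

namespace Pool.Agent.SHS

open Coch

namespace Pow

theorem reindex {X : SS} {I J : Type} {di : I → ℕ} {b : I → H X} (hb : HB X di b) (σ : J ≃ I) :
    HB X (fun j => di (σ j)) (fun j => b (σ j)) where
  mem j := hb.mem (σ j)
  indep := hb.indep.comp σ σ.injective
  span n := by
    refine (hb.span n).trans (Submodule.span_mono ?_)
    rintro _ ⟨i, hi, rfl⟩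
    exact ⟨σ.symm i, by
      show di (σ (σ.symm i)) = n
      rw [σ.apply_symm_apply]
      exact hi, by
      show b (σ (σ.symm i)) = b i
      rw [σ.apply_symm_apply]⟩

theorem one_ne {X : SS} (x : X.X 0) : (1 : H X) ≠ 0 := by
  intro h
  have h1 : cls (1 : Cocyc X) = 0 := by rw [map_one]; exact h
  rw [cls_eq_zero] at h1
  obtain ⟨g, hg⟩ := h1
  have h2 := congrArg (fun f : Coch X => f 0 x) hg
  change (0 : k) = (1 : Coch X) 0 x at h2
  rw [cone_apply, if_pos rfl] at h2
  exact absurd h2.symm one_ne_zero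

theorem point {X : SS} (hs : ∀ n, Subsingleton (X.X n)) (hne : ∀ n, Nonempty (X.X n)) (n : ℕ)
    (a : H X) (ha : a ∈ Hn X n) : (n = 0 ∧ ∃ c : k, a = c • (1 : H X)) ∨ a = 0 := by
  obtain ⟨f, hf, rfl⟩ := mem_Hn.mp ha
  cases n with
  | zero =>
    left
    refine ⟨rfl, ?_⟩
    obtain ⟨x⟩ := hne 0
    refine ⟨f.1 0 x, ?_⟩
    rw [← map_one (cls (X := X)), ← map_smul]
    congr 1
    apply Subtype.ext
    ext m y
    show f.1 m y = f.1 0 x * (1 : Coch X) m y
    rw [cone_apply]
    split_ifs with h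
    · subst h
      rw [mul_one]
      congr 1
      exact (hs 0).elim _ _
    · rw [mul_zero]
      exact hf m h y
  | succ n =>
    right
    rw [cls_eq_zero]
    obtain ⟨x⟩ := hne (n + 1)
    obtain ⟨z⟩ := hne (n + 2)
    have h1 : ∀ y, f.1 (n + 1) y = f.1 (n + 1) x := fun y => by rw [(hs (n + 1)).elim y x]
    have h2 : ∀ c : k, c = 0 ∨ c = 1 := by
      have : ∀ c : ZMod 2, c = 0 ∨ c = 1 := by decide
      exact this
    have h3 : ((n + 3 : ℕ) : k) * f.1 (n + 1) x = 0 := by
      have h4 : dlt f.1 (n + 2) z = 0 := by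
        rw [show dlt f.1 = 0 from f.2]
        rfl
      rw [dlt_succ, Finset.sum_congr rfl (fun i _ => h1 _)] at h4
      rw [Finset.sum_const, Finset.card_univ, Fintype.card_fin, nsmul_eq_mul] at h4
      exact_mod_cast h4
    rcases h2 (f.1 (n + 1) x) with h4 | h4
    · refine ⟨0, ?_⟩
      rw [map_zero]
      ext m y
      rw [czero_apply]
      by_cases h : m = n + 1
      · subst h
        rw [h1, h4]
      · exact (hf m h y).symm
    · refine ⟨single n (fun _ => 1), ?_⟩
      rw [h4, mul_one] at h3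
      ext m y
      by_cases h : m = n + 1
      · subst h
        rw [dlt_succ, h1, h4]
        simp only [single_self]
        rw [Finset.sum_const, Finset.card_univ, Fintype.card_fin, nsmul_eq_mul, mul_one]
        have h5 : ((n + 3 : ℕ) : k) = ((n + 2 : ℕ) : k) + 1 := by push_cast; ring
        rw [h5] at h3
        have h6 := k_two (1 : k)
        linear_combination h3 - h6
      · rw [hf m h y]
        cases m with
        | zero => exact dlt_zero _ _
        | succ m =>
          rw [dlt_succ]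
          apply Finset.sum_eq_zero
          intro i _
          exact single_ne (by omega) _ _

end Pow

open Pool.Agent.SHS.Pow in
theorem POW (h : KUN_Stmt) : POW_Stmt := by
  intro X hX I di b hb d
  induction d with
  | zero =>
    have hs : ∀ n, Subsingleton ((X.pow 0).X n) := fun n => inferInstanceAs
      (Subsingleton (Fin 0 → X.X n))
    have hne : ∀ n, Nonempty ((X.pow 0).X n) := fun n => ⟨(fun i => i.elim0 : Fin 0 → X.X n)⟩
    have hb1 : ∀ e : Fin 0 → I, (∏ i, H.map (X.proj 0 i) (b (e i))) = (1 : H (X.pow 0)) :=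
      fun e => by
        rw [Finset.univ_eq_empty, Finset.prod_empty]
    have hd1 : ∀ e : Fin 0 → I, (∑ i, di (e i)) = 0 := fun e => by
      rw [Finset.univ_eq_empty, Finset.sum_empty]
    refine ⟨?_, ?_, ?_⟩
    · intro e
      rw [hb1, hd1]
      exact Hn_one
    · rw [show (fun e : Fin 0 → I => ∏ i, H.map (X.proj 0 i) (b (e i))) =
        fun _ => (1 : H (X.pow 0)) from funext hb1]
      rw [linearIndependent_unique_iff]
      exact one_ne (hne 0).some
    · intro n a ha
      rcases point hs hne n a ha with ⟨rfl, c, rfl⟩ | rfl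
      · apply Submodule.smul_mem
        apply Submodule.subset_span
        exact ⟨fun i => i.elim0, hd1 _, hb1 _⟩
      · exact Submodule.zero_mem _
  | succ d ih =>
    have hXd : (X.pow d).LF := by
      intro n
      have := hX n
      show Finite (Fin d → X.X n)
      infer_instance
    have h1 := h X (X.pow d) hX hXd di _ b _ hb ih
    let φ : SS.Hom (X.pow (d + 1)) (X.prod (X.pow d)) :=
      ⟨fun _ x => (x 0, fun i => x i.succ), fun _ _ => rfl⟩
    let ψ : SS.Hom (X.prod (X.pow d)) (X.pow (d + 1)) :=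
      ⟨fun _ y => Fin.cons y.1 y.2, fun a y => by
        funext i
        refine Fin.cases ?_ (fun j => ?_) i
        · rfl
        · rfl⟩
    have h2 := HB.iso φ ψ (fun n x => by
      funext i
      refine Fin.cases ?_ (fun j => ?_) i
      · rfl
      · rfl) (fun n y => rfl) h1
    let σ : (Fin (d + 1) → I) ≃ I × (Fin d → I) :=
      { toFun := fun e => (e 0, fun i => e i.succ)
        invFun := fun p => Fin.cons p.1 p.2
        left_inv := fun e => by
          funext i
          refine Fin.cases ?_ (fun j => ?_) i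
          · rfl
          · rfl
        right_inv := fun p => rfl }
    have h3 := reindex h2 σ
    have e1 : (fun e : Fin (d + 1) → I => ∑ i, di (e i)) = fun e =>
        di (σ e).1 + ∑ i, di ((σ e).2 i) := by
      funext e
      rw [Fin.sum_univ_succ]
      rfl
    have e2 : (fun e : Fin (d + 1) → I => ∏ i, H.map (X.proj (d + 1) i) (b (e i))) = fun e =>
        H.map φ (H.map (SS.fst X (X.pow d)) (b (σ e).1) *
          H.map (SS.snd X (X.pow d)) (∏ i, H.map (X.proj d i) (b ((σ e).2 i)))) := by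
      funext e
      rw [Fin.prod_univ_succ, map_mul, ← H.map_comp, ← H.map_comp, map_prod]
      congr 1
      refine Finset.prod_congr rfl fun i _ => ?_
      rw [← H.map_comp]
      rfl
    rw [e1, e2]
    exact h3

end Pool.Agent.SHS


end

section

/-!
Block III-S: the cohomology of B(F_2^d) is a polynomial ring.
-/

namespace Pool.Agent.SHS

namespace K1

theorem BB_LF : BB.LF := by
  intro n
  show Finite (Nrm n k)
  have h2 : Finite k := inferInstanceAs (Finite (ZMod 2))
  have h3 : Finite (Fin (n + 1) → k) := Pi.finite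
  exact Subtype.finite

/-- The basis elements. -/
noncomputable def bb (d : ℕ) (e : Fin d → ℕ) : H (BB.pow d) :=
  ∏ i, H.map (BB.proj d i) (uu ^ e i)

theorem evB_prod (d : ℕ) (e : Fin d → ℕ) :
    evB d (∏ i, MvPolynomial.X i ^ e i) = bb d e := by
  rw [map_prod, bb]
  refine Finset.prod_congr rfl fun i _ => ?_
  rw [map_pow, map_pow]
  congr 1
  unfold evB
  rw [MvPolynomial.aeval_X]

theorem evB_eq (d : ℕ) (p : MvPolynomial (Fin d) k) :
    evB d p = ∑ e ∈ p.support, p.coeff e • bb d e := by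
  conv_lhs => rw [p.as_sum]
  rw [map_sum]
  refine Finset.sum_congr rfl fun e _ => ?_
  rw [← evB_prod, ← map_smul]
  congr 1
  rw [MvPolynomial.monomial_eq, MvPolynomial.smul_eq_C_mul]
  congr 1
  exact Finsupp.prod_fintype e _ (fun i => pow_zero _)

end K1

theorem K1 (h1 : K1A_Stmt) (h2 : POW_Stmt) : K1_Stmt := by
  intro d
  have hb : HB (BB.pow d) (fun e : Fin d → ℕ => ∑ i, e i) (K1.bb d) :=
    h2 BB K1.BB_LF (fun m : ℕ => m) (fun m => uu ^ m) h1 d
  constructor
  · rw [injective_iff_map_eq_zero]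
    intro p hp
    have hli : LinearIndependent k (fun e : Fin d →₀ ℕ => K1.bb d e) :=
      hb.indep.comp (fun e : Fin d →₀ ℕ => (e : Fin d → ℕ)) DFunLike.coe_injective
    rw [linearIndependent_iff'] at hli
    rw [K1.evB_eq] at hp
    have h3 := hli p.support (fun e => p.coeff e) hp
    ext e
    rw [MvPolynomial.coeff_zero]
    by_contra h4
    exact h4 (h3 e (MvPolynomial.mem_support_iff.2 h4))
  · intro n a ha
    have h3 := hb.span n ha
    have h4 : Submodule.span k (K1.bb d '' {e | ∑ i, e i = n}) ≤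
        (MvPolynomial.homogeneousSubmodule (Fin d) k n).map (evB d).toLinearMap := by
      refine Submodule.span_le.2 ?_
      rintro _ ⟨e, he, rfl⟩
      refine ⟨∏ i, MvPolynomial.X i ^ e i, ?_, K1.evB_prod d e⟩
      have h5 : (∏ i, (MvPolynomial.X i : MvPolynomial (Fin d) k) ^ e i).IsHomogeneous
          (∑ i, 1 * e i) :=
        MvPolynomial.IsHomogeneous.prod _ _ _ fun i _ =>
          (MvPolynomial.isHomogeneous_X k i).pow (e i)
      have h6 : ∑ i, 1 * e i = n := by
        simpa using he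
      rw [h6] at h5
      exact h5
    obtain ⟨p, hp, hpa⟩ := h4 h3
    exact ⟨p, hp, hpa⟩

end Pool.Agent.SHS


end

section

namespace Pool.Agent.SHS

open Coch

namespace Popd

theorem E_len {V : Type*} (m : ℕ) (L : List V) (Φ : List V → List V → k)
    (h : ∀ a b, a.length + b.length = L.length + m → Φ a b = 0) : E m L Φ = 0 := by
  induction L generalizing m Φ with
  | nil =>
    cases m with
    | zero => exact h [] [] rfl
    | succ m => rfl
  | cons v L ih =>
    cases m with
    | zero =>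
      simp only [E]
      refine ih 0 _ fun a b hab => h _ _ ?_
      simp only [List.length_cons]
      omega
    | succ m =>
      simp only [E]
      rw [ih (m + 1) _ fun a b hab => h _ _ (by simp only [List.length_cons]; omega),
        ih m _ fun a b hab => h _ _ (by simp only [List.length_cons]; omega), add_zero]

theorem evl_len {X : SS} {m n : ℕ} {f : Coch X} (hf : f ∈ CochD X m) (x : X.X n)
    (a : List (Fin (n + 1))) (ha : a.length ≠ m + 1) : evl f x a = 0 := by
  by_cases h : ∃ (p : ℕ) (u : Mor p n), a = List.ofFn u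
  · obtain ⟨p, u, rfl⟩ := h
    rw [evl_ofFn]
    rw [List.length_ofFn] at ha
    exact hf p (fun hp => ha (by rw [hp])) _
  · unfold evl
    rw [dif_neg h]

theorem cupS_deg {X : SS} {m n s : ℕ} {f : Coch X} (hf : f ∈ CochD X m)
    (h : n + 1 + s ≠ 2 * (m + 1)) (x : X.X n) : cupS s f f n x = 0 := by
  rw [cupS_apply]
  apply E_len
  intro a b hab
  rw [List.length_finRange] at hab
  by_cases ha : a.length = m + 1
  · have hb : b.length ≠ m + 1 := by omega
    rw [evl_len hf x b hb, mul_zero]
  · rw [evl_len hf x a ha, zero_mul]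

end Popd

open Pool.Agent.SHS.Popd in
theorem POPD : POPD_Stmt := by
  intro X s m a ha
  obtain ⟨f, hf, rfl⟩ := mem_Hn.mp ha
  constructor
  · intro n hn
    rw [Pop_cls]
    refine mem_Hn.mpr ⟨_, ?_, rfl⟩
    intro n' hn' x
    exact cupS_deg hf (by omega) x
  · intro hs
    rw [Pop_cls, cls_eq_zero]
    refine ⟨0, ?_⟩
    rw [map_zero]
    ext n x
    rw [czero_apply]
    exact (cupS_deg hf (by omega) x).symm

end Pool.Agent.SHS


end

section

/-!
Block III-S: the operations on all polynomials from the operations on u_1 ... u_m.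
-/

namespace Pool.Agent.SHS.Sqp

open MvPolynomial

/-- Every monomial of degree `n` comes from u_1 ... u_n by a renaming. -/
theorem exists_rename {d n : ℕ} (e : Fin d →₀ ℕ) (he : e.degree = n) :
    ∃ c : Fin n → Fin d,
      rename c (∏ j : Fin n, X j : MvPolynomial (Fin n) k) = monomial e 1 := by
  have hcard : Fintype.card (Σ j : Fin d, Fin (e j)) = n := by
    rw [Fintype.card_sigma, ← he, Finsupp.degree_eq_sum]
    exact Finset.sum_congr rfl fun j _ => Fintype.card_fin _
  let φ : Fin n ≃ (Σ j : Fin d, Fin (e j)) := (Fintype.equivFinOfCardEq hcard).symm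
  refine ⟨fun i => (φ i).1, ?_⟩
  rw [map_prod]
  have h1 : ∏ i : Fin n, rename (fun i => (φ i).1) (X i : MvPolynomial (Fin n) k)
      = ∏ x : (Σ j : Fin d, Fin (e j)), (X x.1 : MvPolynomial (Fin d) k) := by
    rw [← Equiv.prod_comp φ]
    exact Finset.prod_congr rfl fun i _ => rename_X _ _
  rw [h1, Fintype.prod_sigma, monomial_eq, C_1, one_mul,
    Finsupp.prod_fintype _ _ (fun j => pow_zero _)]
  refine Finset.prod_congr rfl fun j _ => ?_
  show ∏ _y : Fin (e j), (X j : MvPolynomial (Fin d) k) = X j ^ e j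
  rw [Finset.prod_const, Finset.card_univ, Fintype.card_fin]

/-- The total square is compatible with renamings. -/
theorem St_rename {d n : ℕ} (c : Fin n → Fin d) (p : MvPolynomial (Fin n) k) :
    St d (rename c p) = Polynomial.map (rename c : MvPolynomial (Fin n) k →ₐ[k] _).toRingHom
      (St n p) := by
  have h : (St d).comp (rename c)
      = (Polynomial.mapAlgHom (rename c : MvPolynomial (Fin n) k →ₐ[k] MvPolynomial (Fin d) k)).comp
        (St n) := by
    apply MvPolynomial.algHom_ext
    intro i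
    rw [AlgHom.comp_apply, AlgHom.comp_apply, rename_X]
    unfold St
    rw [aeval_X, aeval_X, map_add, map_mul]
    simp only [Polynomial.coe_mapAlgHom, Polynomial.map_C, Polynomial.map_X, RingHom.coe_coe,
      rename_X, map_pow]
  exact DFunLike.congr_fun h p

end Pool.Agent.SHS.Sqp

namespace Pool.Agent.SHS

open MvPolynomial

theorem SQP (h : SQU_Stmt) : SQP_Stmt := by
  intro d n i p hp hi
  rw [p.as_sum, map_sum, map_sum, map_sum, Polynomial.finsetSum_coeff, map_sum]
  refine Finset.sum_congr rfl fun e he => ?_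
  have he' : e.degree = n := by
    have := hp (MvPolynomial.mem_support_iff.mp he)
    rw [Finsupp.degree_eq_weight_one]
    exact this
  have h1 : (monomial e (coeff e p) : MvPolynomial (Fin d) k) = coeff e p • monomial e 1 := by
    rw [smul_monomial, smul_eq_mul, mul_one]
  rw [h1, map_smul, map_smul, map_smul, Polynomial.coeff_smul, map_smul]
  congr 1
  obtain ⟨c, hc⟩ := Sqp.exists_rename e he'
  rw [← hc, ← evB_reidx, NOp.nat, h n i hi, evB_reidx, Sqp.St_rename, Polynomial.coeff_map]
  rfl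

end Pool.Agent.SHS


end

section

/-! # MP_2d0b73_an, block III-S: the symmetric sums are linearly independent -/

set_option autoImplicit false

namespace Pool.Agent.SHS

open Finset

namespace Msi

/-- exponent vector -/
noncomputable def ev {n : ℕ} (i : Fin n → ℕ) : Fin n →₀ ℕ :=
  Finsupp.equivFunOnFinite.symm (fun j => 2 ^ (i j))

theorem ev_inj {n : ℕ} {i i' : Fin n → ℕ} (h : ev i = ev i') : i = i' := by
  funext j
  have h1 := DFunLike.congr_fun h j
  have h2 : 2 ^ (i j) = 2 ^ (i' j) := h1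
  exact Nat.pow_right_injective (le_refl 2) h2

theorem prod_eq {n : ℕ} (i : Fin n → ℕ) :
    (∏ j, (MvPolynomial.X j : MvPolynomial (Fin n) k) ^ (2 ^ (i j))) =
      MvPolynomial.monomial (ev i) 1 := by
  rw [MvPolynomial.monomial_eq]
  simp only [MvPolynomial.C_1, one_mul]
  rw [Finsupp.prod_fintype _ _ (fun j => pow_zero _)]
  rfl

theorem coeff_msym {n : ℕ} (i : Fin n → ℕ) (J : Multiset ℕ) :
    MvPolynomial.coeff (ev i) (msym n J) =
      if Multiset.ofList (List.ofFn i) = J then 1 else 0 := by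
  classical
  unfold msym
  rw [MvPolynomial.coeff_sum]
  have h1 : ∀ i' : Fin n → ℕ, MvPolynomial.coeff (ev i)
      (∏ j, (MvPolynomial.X j : MvPolynomial (Fin n) k) ^ (2 ^ (i' j))) =
      if i' = i then 1 else 0 := by
    intro i'
    rw [prod_eq, MvPolynomial.coeff_monomial]
    by_cases h : i' = i
    · rw [if_pos h, if_pos (by rw [h])]
    · rw [if_neg h, if_neg (fun h' => h (ev_inj h'))]
  rw [Finset.sum_congr rfl fun i' _ => h1 i', Finset.sum_ite_eq']
  by_cases h : Multiset.ofList (List.ofFn i) = J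
  · rw [if_pos h, if_pos]
    rw [Finset.mem_filter]
    refine ⟨?_, h⟩
    rw [Fintype.mem_piFinset]
    intro j
    rw [Multiset.mem_toFinset, ← h, Multiset.mem_coe, List.mem_ofFn]
    exact ⟨j, rfl⟩
  · rw [if_neg h, if_neg]
    rw [Finset.mem_filter]
    exact fun h' => h h'.2

theorem exists_enum {n : ℕ} (J : Multiset ℕ) (hJ : Multiset.card J = n) :
    ∃ i : Fin n → ℕ, Multiset.ofList (List.ofFn i) = J := by
  subst hJ
  have h : J.toList.length = Multiset.card J := Multiset.length_toList J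
  refine ⟨fun j => J.toList.get (Fin.cast h.symm j), ?_⟩
  have h2 : List.ofFn (fun j => J.toList.get (Fin.cast h.symm j)) = J.toList := by
    apply List.ext_get
    · rw [List.length_ofFn, h]
    · intro m h3 h4
      simp
  rw [h2]
  exact Multiset.coe_toList J

end Msi

open Msi in
/-- Symmetric sums are independent. -/
theorem MSI : MSI_Stmt := by
  classical
  intro n
  rw [linearIndependent_iff']
  intro s g hg J hJ
  obtain ⟨i, hi⟩ := exists_enum J.1 J.2
  have h1 := congrArg (MvPolynomial.coeff (ev i)) hg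
  rw [MvPolynomial.coeff_sum, MvPolynomial.coeff_zero] at h1
  have h2 : ∀ J' ∈ s, MvPolynomial.coeff (ev i) (g J' • msym n J'.1) =
      if J' = J then g J' else 0 := by
    intro J' _
    rw [MvPolynomial.coeff_smul, coeff_msym, hi]
    by_cases h : J' = J
    · rw [if_pos h, if_pos (by rw [h]), smul_eq_mul, mul_one]
    · rw [if_neg h, if_neg (fun h' => h (Subtype.ext h'.symm)), smul_zero]
  rw [Finset.sum_congr rfl h2, Finset.sum_ite_eq', if_pos hJ] at h1
  exact h1

end Pool.Agent.SHS


end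

section

/-!
Block III-S: the class `u_1 ... u_n` of `B(F_2^n)` is the restriction of the fundamental class of
the Eilenberg-MacLane object.
-/

namespace Pool.Agent.SHS

open Coch

namespace Emu

/-- The edge from `j` to `j + 1` (for `j < n`). -/
def eg (j n : ℕ) : Mor 1 n where
  toFun i := ⟨min (j + i.1) n, by omega⟩
  monotone' := by
    intro a b h
    have h' : a.1 ≤ b.1 := h
    show min (j + a.1) n ≤ min (j + b.1) n
    omega

theorem eg_val (j n : ℕ) (i : Fin 2) : ((eg j n) i : ℕ) = min (j + i.1) n := rfl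

theorem fr_one (n : ℕ) : fr 1 (n + 1) = eg 0 (n + 1) := by
  apply mor_ext
  intro i
  rw [fr_val, eg_val]
  omega

theorem bk_eg (j n : ℕ) : (bk n (n + 1)).comp (eg j n) = eg (j + 1) (n + 1) := by
  apply mor_ext
  intro i
  rw [comp_val, bk_val, eg_val, eg_val]
  omega

variable {X : SS}

theorem prod_mem {n : ℕ} (c : Fin n → Coch X) (hc : ∀ j, c j ∈ CochD X 1) :
    (List.ofFn c).prod ∈ CochD X n := by
  induction n with
  | zero =>
    rw [List.ofFn_zero, List.prod_nil]
    intro m hm x
    exact if_neg hm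
  | succ n ih =>
    rw [List.ofFn_succ, List.prod_cons]
    have h := CochD_mul (hc 0) (ih _ fun j => hc j.succ)
    intro m hm x
    exact h m (fun h' => hm (h'.trans (add_comm 1 n))) x

/-- The value of a product of cochains of degree one. -/
theorem prod_val {n : ℕ} (c : Fin n → Coch X) (hc : ∀ j, c j ∈ CochD X 1) (x : X.X n) :
    (List.ofFn c).prod n x = ∏ j : Fin n, c j 1 (X.map (eg j.1 n) x) := by
  induction n with
  | zero =>
    rw [List.ofFn_zero, List.prod_nil, Fin.prod_univ_zero]
    rfl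
  | succ n ih =>
    rw [List.ofFn_succ, List.prod_cons, cmul_apply, Finset.sum_eq_single (1, n)]
    · rw [ih _ fun j => hc j.succ, Fin.prod_univ_succ, fr_one]
      congr 1
      refine Finset.prod_congr rfl fun j _ => ?_
      rw [← X.map_comp, bk_eg]
      rfl
    · rintro ⟨p, q⟩ hp hne
      rw [Finset.HasAntidiagonal.mem_antidiagonal] at hp
      have hp1 : p ≠ 1 := by
        rintro rfl
        apply hne
        have : q = n := by
          have h' : 1 + q = n + 1 := hp
          omega
        rw [this]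
      show c 0 p _ * _ = 0
      rw [hc 0 p hp1, zero_mul]
    · intro h
      exact absurd (by rw [Finset.HasAntidiagonal.mem_antidiagonal]; exact add_comm 1 n) h

/-- A monotone map which is not injective is constant on some edge. -/
theorem exists_edge {n m : ℕ} (s : Mor n m) (hs : ¬ Function.Injective s) :
    ∃ j : Fin n, s ((eg j.1 n) 1) = s ((eg j.1 n) 0) := by
  have h1 : ∃ a b : Fin (n + 1), s a = s b ∧ a < b := by
    unfold Function.Injective at hs
    push Not at hs
    obtain ⟨a, b, hab, hne⟩ := hs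
    rcases lt_or_gt_of_ne hne with h | h
    · exact ⟨a, b, hab, h⟩
    · exact ⟨b, a, hab.symm, h⟩
  obtain ⟨a, b, hab, hlt⟩ := h1
  have hlt' : a.1 < b.1 := hlt
  have hb : b.1 < n + 1 := b.2
  refine ⟨⟨a.1, by omega⟩, ?_⟩
  have e0 : (eg a.1 n) 0 = a := by
    apply Fin.ext
    rw [eg_val]
    show min (a.1 + 0) n = a.1
    omega
  have e1 : (eg a.1 n) 1 ≤ b := by
    show ((eg a.1 n) 1).1 ≤ b.1
    rw [eg_val]
    show min (a.1 + 1) n ≤ b.1
    omega
  have e2 : a ≤ (eg a.1 n) 1 := by
    show a.1 ≤ ((eg a.1 n) 1).1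
    rw [eg_val]
    show a.1 ≤ min (a.1 + 1) n
    omega
  show s ((eg a.1 n) 1) = s ((eg a.1 n) 0)
  rw [e0]
  apply le_antisymm
  · rw [hab]
    exact s.monotone e1
  · exact s.monotone e2

/-- The cocycles `u_j`. -/
noncomputable def cc (n : ℕ) (j : Fin n) : Cocyc (BB.pow n) :=
  Cocyc.pull (BB.proj n j) ⟨uC, dlt_uC⟩

theorem cc_mem (n : ℕ) (j : Fin n) : (cc n j).1 ∈ CochD (BB.pow n) 1 := by
  intro m hm x
  show (single 1 (fun g : Nrm 1 k => g.1 1) : Coch BB) m (x j) = 0
  exact single_ne hm _ _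

theorem cc_val (n : ℕ) (j : Fin n) (m : ℕ) (a : Mor 1 m) (x : (BB.pow n).X m) :
    (cc n j).1 1 ((BB.pow n).map a x) = (x j).1 (a 1) - (x j).1 (a 0) := by
  show (single 1 (fun g : Nrm 1 k => g.1 1) : Coch BB) 1 (BB.map a (x j)) = _
  rw [single_self]
  rfl

theorem cc_const (n : ℕ) (j : Fin n) (m : ℕ) (a : Mor 1 m) (h : a 1 = a 0)
    (x : (BB.pow n).X m) : (cc n j).1 1 ((BB.pow n).map a x) = 0 := by
  rw [cc_val, h, sub_self]

/-- The product of the cocycles. -/
noncomputable def pp (n : ℕ) : Cocyc (BB.pow n) := (List.ofFn (cc n)).prod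

theorem pp_val (n : ℕ) : (pp n).1 = (List.ofFn fun j => (cc n j).1).prod := by
  unfold pp
  have h : (Cocyc (BB.pow n)).val ((List.ofFn (cc n)).prod) =
      ((List.ofFn (cc n)).map (Cocyc (BB.pow n)).val).prod := map_list_prod _ _
  rw [List.map_ofFn] at h
  exact h

theorem pp_mem (n : ℕ) : (pp n).1 ∈ CochD (BB.pow n) n := by
  rw [pp_val]
  exact prod_mem _ (cc_mem n)

theorem pp_apply (n : ℕ) (x : (BB.pow n).X n) :
    (pp n).1 n x = ∏ j : Fin n, (cc n j).1 1 ((BB.pow n).map (eg j.1 n) x) := by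
  rw [pp_val, prod_val _ (cc_mem n)]

theorem pp_norm (n m : ℕ) (s : Mor n m) (hs : ¬ Function.Injective s) (x : (BB.pow n).X m) :
    (pp n).1 n ((BB.pow n).map s x) = 0 := by
  rw [pp_apply]
  obtain ⟨j, hj⟩ := exists_edge s hs
  refine Finset.prod_eq_zero (Finset.mem_univ j) ?_
  rw [← (BB.pow n).map_comp]
  exact cc_const n j m (s.comp (eg j.1 n)) hj x

theorem pp_delta (n : ℕ) : (BB.pow n).cm.delta n ((pp n).1 n) = 0 := by
  funext x
  rw [CM.delta_apply, Finset.sum_apply]
  have h : dlt (pp n).1 = 0 := (pp n).2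
  have h2 : dlt (pp n).1 (n + 1) x = 0 := by rw [h]; rfl
  rw [dlt_succ] at h2
  exact h2

end Emu

theorem EMU : EMU_Stmt := by
  intro n
  refine ⟨EMlift n ((Emu.pp n).1 n) (Emu.pp_norm n) (Emu.pp_delta n), ?_⟩
  have h1 : evB n (∏ j, MvPolynomial.X j) = cls (Emu.pp n) := by
    unfold Emu.pp
    rw [map_prod, map_list_prod, List.map_ofFn, List.prod_ofFn]
    refine Finset.prod_congr rfl fun j _ => ?_
    unfold evB
    rw [MvPolynomial.aeval_X]
    rfl
  rw [h1]
  unfold iota
  rw [H.map_cls]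
  congr 1
  apply Subtype.ext
  ext m x
  show iotaC n m _ = (Emu.pp n).1 m x
  by_cases h : m = n
  · subst h
    unfold iotaC
    rw [single_self]
    show (Emu.pp m).1 m ((BB.pow m).map OrderHom.id x) = _
    rw [(BB.pow m).map_id]
  · unfold iotaC
    rw [single_ne h, Emu.pp_mem n m h]

end Pool.Agent.SHS


end

section

/-!
Block III-S: the family of primitive classes `mu_J` of the Eilenberg-MacLane objects.

For a multiset `J` of exponents containing 0 the class is the value of the operation which maps the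
product of the `u_i` to the symmetric sum of `J`, at the fundamental class; in general it is an
iterated square of such a class.
-/

set_option autoImplicit false

namespace Pool.Agent.SHS.Mu

/-! ### The minimal exponent -/

/-- The minimal element of a multiset of natural numbers. -/
noncomputable def mn (J : Multiset ℕ) : ℕ := sInf {x | x ∈ J}

theorem mn_mem {J : Multiset ℕ} (h : J ≠ 0) : mn J ∈ J := by
  obtain ⟨x, hx⟩ := Multiset.exists_mem_of_ne_zero h
  exact Nat.sInf_mem (s := {x | x ∈ J}) ⟨x, hx⟩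

theorem mn_le {J : Multiset ℕ} {x : ℕ} (h : x ∈ J) : mn J ≤ x :=
  Nat.sInf_le (s := {x | x ∈ J}) h

theorem mn_zero {J : Multiset ℕ} (h : 0 ∈ J) : mn J = 0 := Nat.le_zero.1 (mn_le h)

theorem mn_succ {J : Multiset ℕ} (h : J ≠ 0) : mn (J.map (· + 1)) = mn J + 1 := by
  apply le_antisymm
  · exact mn_le (Multiset.mem_map_of_mem _ (mn_mem h))
  · have h1 : J.map (· + 1) ≠ 0 := by
      intro h2
      exact h (Multiset.map_eq_zero.1 h2)
    obtain ⟨x, hx, hx'⟩ := Multiset.mem_map.1 (mn_mem h1)
    rw [← hx']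
    exact Nat.succ_le_succ (mn_le hx)

/-- The multiset with the minimal exponent subtracted. -/
noncomputable def low (J : Multiset ℕ) : Multiset ℕ := J.map (· - mn J)

theorem low_succ {J : Multiset ℕ} (h : J ≠ 0) : low (J.map (· + 1)) = low J := by
  unfold low
  rw [mn_succ h, Multiset.map_map]
  apply Multiset.map_congr rfl
  intro x _
  show x + 1 - (mn J + 1) = x - mn J
  omega

theorem zero_mem_low {J : Multiset ℕ} (h : J ≠ 0) : 0 ∈ low J :=
  Multiset.mem_map.2 ⟨mn J, mn_mem h, Nat.sub_self _⟩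

theorem low_eq {J : Multiset ℕ} (h : 0 ∈ J) : low J = J := by
  unfold low
  rw [mn_zero h]
  simp

theorem low_add (J : Multiset ℕ) : (low J).map (· + mn J) = J := by
  unfold low
  rw [Multiset.map_map]
  have : J.map ((· + mn J) ∘ (· - mn J)) = J.map id := by
    apply Multiset.map_congr rfl
    intro x hx
    exact Nat.sub_add_cancel (mn_le hx)
  rw [this, Multiset.map_id]

theorem card_low (J : Multiset ℕ) : Multiset.card (low J) = Multiset.card J :=
  Multiset.card_map _ _

theorem wgt_add (J : Multiset ℕ) (m : ℕ) : wgt (J.map (· + m)) = 2 ^ m * wgt J := by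
  unfold wgt
  rw [Multiset.map_map, ← Multiset.sum_map_mul_left]
  congr 1
  apply Multiset.map_congr rfl
  intro x _
  show 2 ^ (x + m) = 2 ^ m * 2 ^ x
  rw [pow_add, mul_comm]

/-! ### Squares of symmetric sums -/

theorem msym_succ (d : ℕ) (J : Multiset ℕ) : msym d (J.map (· + 1)) = (msym d J) ^ 2 := by
  unfold msym
  rw [CharTwo.sum_sq]
  refine Finset.sum_nbij' (fun i j => i j - 1) (fun i j => i j + 1) ?_ ?_ ?_ ?_ ?_
  · intro i hi
    rw [Finset.mem_filter, Fintype.mem_piFinset] at hi ⊢
    obtain ⟨h1, h2⟩ := hi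
    have h3 : ∀ j, ∃ x ∈ J, x + 1 = i j := fun j =>
      Multiset.mem_map.1 (Multiset.mem_toFinset.1 (h1 j))
    refine ⟨fun j => ?_, ?_⟩
    · obtain ⟨x, hx, hx'⟩ := h3 j
      rw [← hx', Nat.add_sub_cancel]
      exact Multiset.mem_toFinset.2 hx
    · apply Multiset.map_injective (f := fun x : ℕ => x + 1) (add_left_injective 1)
      rw [← h2, Multiset.map_coe, List.map_ofFn]
      congr 2
      funext j
      obtain ⟨x, hx, hx'⟩ := h3 j
      show i j - 1 + 1 = i j
      omega
  · intro i hi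
    rw [Finset.mem_filter, Fintype.mem_piFinset] at hi ⊢
    obtain ⟨h1, h2⟩ := hi
    refine ⟨fun j => ?_, ?_⟩
    · exact Multiset.mem_toFinset.2 (Multiset.mem_map_of_mem _ (Multiset.mem_toFinset.1 (h1 j)))
    · rw [← h2, Multiset.map_coe, List.map_ofFn]
      rfl
  · intro i hi
    rw [Finset.mem_filter, Fintype.mem_piFinset] at hi
    funext j
    obtain ⟨x, hx, hx'⟩ := Multiset.mem_map.1 (Multiset.mem_toFinset.1 (hi.1 j))
    show i j - 1 + 1 = i j
    omega
  · intro i _
    funext j
    exact Nat.add_sub_cancel (i j) 1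
  · intro i hi
    rw [Finset.mem_filter, Fintype.mem_piFinset] at hi
    rw [← Finset.prod_pow]
    apply Finset.prod_congr rfl
    intro j _
    obtain ⟨x, hx, hx'⟩ := Multiset.mem_map.1 (Multiset.mem_toFinset.1 (hi.1 j))
    rw [← pow_mul, ← pow_succ]
    congr 2
    show i j = i j - 1 + 1
    omega

theorem msym_add (d : ℕ) (J : Multiset ℕ) (m : ℕ) :
    msym d (J.map (· + m)) = (msym d J) ^ (2 ^ m) := by
  induction m with
  | zero => simp
  | succ m ih =>
    have h1 : J.map (· + (m + 1)) = (J.map (· + m)).map (· + 1) := by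
      rw [Multiset.map_map]
      rfl
    rw [h1, msym_succ, ih, ← pow_mul, pow_succ]

/-! ### The family -/

theorem ops (h1 : OPS_Stmt) (n : ℕ) (J : Multiset ℕ) : ∃ T : NOp, Multiset.card J = n →
    T.Maps n (wgt J) ∧
      T.f (BB.pow n) (evB n (∏ j, MvPolynomial.X j)) = evB n (msym n J) := by
  by_cases h : Multiset.card J = n
  · subst h
    obtain ⟨T, hT⟩ := h1 J
    exact ⟨T, fun _ => hT⟩
  · exact ⟨NOp.id, fun h' => absurd h' h⟩

theorem prim_pow {V : SV} {μ : H V.toSS} (h : Prim μ) (m : ℕ) : Prim (μ ^ (2 ^ m)) := by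
  induction m with
  | zero => rw [pow_zero, pow_one]; exact h
  | succ m ih =>
    rw [pow_succ, pow_mul]
    exact ih.sq

end Pool.Agent.SHS.Mu

namespace Pool.Agent.SHS

open Mu in
/-- **The family of the classes `mu_J`.** -/
theorem MU (h1 : OPS_Stmt) (h2 : EMU_Stmt) : MU_Stmt := by
  intro n hn
  choose T hT using ops h1 n
  have hne : ∀ J : Multiset ℕ, Multiset.card J = n → J ≠ 0 := by
    intro J hJ h0
    rw [h0, Multiset.card_zero] at hJ
    omega
  refine ⟨fun J => ((T (low J)).f (EM n).toSS (iota n)) ^ (2 ^ mn J), ?_, ?_, ?_, ?_, ?_⟩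
  · intro J hJ
    have h3 := (hT (low J) (by rw [card_low, hJ])).1 _ _ (iota_mem n)
    have h4 := Hn_pow h3 (2 ^ mn J)
    rw [← wgt_add, low_add] at h4
    exact h4
  · intro J _
    exact prim_pow ((IOP n).op _) _
  · obtain ⟨ρ, hρ⟩ := h2 n
    refine ⟨ρ, hρ, fun J hJ => ?_⟩
    have h3 := (hT (low J) (by rw [card_low, hJ])).2
    show H.map ρ (((T (low J)).f (EM n).toSS (iota n)) ^ (2 ^ mn J)) = evB n (msym n J)
    rw [map_pow, ← (T (low J)).nat, hρ, h3, ← map_pow, ← msym_add, low_add]
  · intro J hJ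
    show ((T (low (J.map (· + 1)))).f (EM n).toSS (iota n)) ^ (2 ^ mn (J.map (· + 1))) =
      (((T (low J)).f (EM n).toSS (iota n)) ^ (2 ^ mn J)) ^ 2
    rw [low_succ (hne J hJ), mn_succ (hne J hJ), ← pow_mul, pow_succ]
  · intro J hJ h0
    refine ⟨T J, (hT J hJ).1, (hT J hJ).2, ?_⟩
    show ((T (low J)).f (EM n).toSS (iota n)) ^ (2 ^ mn J) = (T J).f (EM n).toSS (iota n)
    rw [low_eq h0, mn_zero h0, pow_zero, pow_one]

end Pool.Agent.SHS


end

section

/-!
Block III-S, statements C: the upper bound for the cohomology of the bar construction.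
-/

namespace Pool.Agent.SHS

theorem SV.BXmap_id (G : SV) (p : ℕ) : G.BXmap (OrderHom.id : Mor p p) = SS.Hom.id _ := by
  apply SS.Hom.ext'
  intro n x
  apply Subtype.ext
  funext i
  show x.1 i - x.1 0 = x.1 i
  rw [show x.1 0 = 0 from x.2, sub_zero]

theorem SV.BXmap_comp (G : SV) {l m n : ℕ} (f : Mor l m) (g : Mor m n) :
    G.BXmap (g.comp f) = (G.BXmap f).comp (G.BXmap g) := by
  apply SS.Hom.ext'
  intro q x
  apply Subtype.ext
  funext i
  show x.1 (g (f i)) - x.1 (g (f 0)) = (x.1 (g (f i)) - x.1 (g 0)) - (x.1 (g (f 0)) - x.1 (g 0))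
  abel

/-- The cosimplicial vector space p ↦ H^q(G^p). -/
noncomputable abbrev HqCM (G : SV) (q : ℕ) : CM where
  X p := Hn (G.BX p) q
  map a := (H.map (G.BXmap a)).toLinearMap.restrict (fun _ hx => H.map_mem _ hx)
  map_id x := by
    apply Subtype.ext
    show H.map (G.BXmap OrderHom.id) x.1 = x.1
    rw [SV.BXmap_id, H.map_id]
  map_comp f g x := by
    apply Subtype.ext
    show H.map (G.BXmap (g.comp f)) x.1 = H.map (G.BXmap g) (H.map (G.BXmap f) x.1)
    rw [SV.BXmap_comp, H.map_comp]

/-- A family of primitive homogeneous classes whose square free products form a homogeneous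
basis of the cohomology. -/
structure ExtFam (V : SV) {A : Type} (deg : A → ℕ) (μ : A → H V.toSS) : Prop where
  pos : ∀ a, 1 ≤ deg a
  fin : ∀ n, {a | deg a ≤ n}.Finite
  mem : ∀ a, μ a ∈ Hn V.toSS (deg a)
  prim : ∀ a, Prim (μ a)
  hb : HB V.toSS (fun S : Finset A => ∑ a ∈ S, deg a) (fun S => ∏ a ∈ S, μ a)

/-- Homogeneous basis of G^p. -/
def BXHB_Stmt : Prop := ∀ (G : SV), G.LF → ∀ {A : Type} (deg : A → ℕ) (μ : A → H G.toSS),
  ExtFam G deg μ → ∀ p : ℕ,
  HB (G.BX p) (fun T : Fin p → Finset A => ∑ j, ∑ a ∈ T j, deg a)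
    (fun T => ∏ j, ∏ a ∈ T j, H.map (G.BXbar j) (μ a))

/-- Jumps of a monotone map. -/
def jumps {p m : ℕ} (a : Mor p m) : Finset (Fin p) :=
  Finset.univ.filter (fun j => a j.castSucc ≠ a j.succ)

/-- Product of the bar coordinates of `μ` over the jumps. -/
noncomputable def lam (G : SV) {p m : ℕ} (μ : H G.toSS) (a : Mor p m) : H (G.BX p) :=
  ∏ j ∈ jumps a, H.map (G.BXbar j) μ

/-- Structure formula for one letter. -/
def LAM_Stmt : Prop := ∀ (G : SV) (μ : H G.toSS), Prim μ → ∀ (p p' m : ℕ) (b : Mor p p')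
  (a : Mor p m), Function.Surjective a → ∀ (s : Finset (Mor p' m)),
  (∀ a' : Mor p' m, a' ∈ s ↔ Function.Surjective a' ∧ a'.comp b = a) →
  H.map (G.BXmap b) (lam G μ a) = ∑ a' ∈ s, lam G μ a'

/-- The pointed simplicial set S^0. -/
abbrev PS.unit : PS where
  X _ := Unit
  map _ _ := some ()
  map_id _ := rfl
  map_comp _ _ _ := rfl

/-- Smash product of a list of spheres. -/
def SPH : List ℕ → PS
  | [] => PS.unit
  | m :: l => (PS.sphere m).smash (SPH l)

/-- Cohomology of smash products of spheres. -/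
def SPHC_Stmt : Prop := ∀ (l : List ℕ) (p : ℕ),
  SpanLE ((SPH l).cm.cc.Z p) ((SPH l).cm.cc.B p) (if p = l.sum then 1 else 0)

/-- The product of `lam` over the letters of a list. -/
noncomputable def Lf (G : SV) {A : Type} (μ : A → H G.toSS) (f : A → ℕ) {p : ℕ} :
    (c : List A) → (SPH (c.map f)).X p → H (G.BX p)
  | [], _ => 1
  | a :: c, y =>
    let y' : (PS.sphere (f a)).X p × (SPH (c.map f)).X p := y
    lam G (μ a) y'.1.1 * Lf G μ f c y'.2

/-- Structure formula for several letters. -/
def E2S_Stmt : Prop := ∀ (G : SV) {A : Type} (μ : A → H G.toSS), (∀ a, Prim (μ a)) →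
  ∀ (f : A → ℕ) (c : List A) (p p' : ℕ) (b : Mor p p') (y : (SPH (c.map f)).X p)
    (s : Finset ((SPH (c.map f)).X p')),
  (∀ y', y' ∈ s ↔ (SPH (c.map f)).map b y' = some y) →
  H.map (G.BXmap b) (Lf G μ f c y) = ∑ y' ∈ s, Lf G μ f c y'

/-- The products `Lf` form a basis of H^q(G^p). -/
def E2B_Stmt : Prop := ∀ (G : SV), G.LF → ∀ {A : Type} (deg : A → ℕ) (μ : A → H G.toSS),
  ExtFam G deg μ → ∀ p q : ℕ,
  let b : (Σ f : {f : A →₀ ℕ // (f.sum fun a m => m * deg a) = q},
      (SPH (f.1.support.toList.map f.1)).X p) → H (G.BX p) :=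
    fun t => Lf G μ t.1.1 t.1.1.support.toList t.2
  LinearIndependent k b ∧ (∀ t, b t ∈ Hn (G.BX p) q) ∧ Hn (G.BX p) q ≤ Submodule.span k (Set.range b)

/-- Number of monomials. -/
noncomputable def NumE2 {A : Type} (deg : A → ℕ) (p q : ℕ) : ℕ :=
  Nat.card {f : A →₀ ℕ // (f.sum fun a m => m * deg a) = q ∧ (f.sum fun _ m => m) = p}

/-- The second page. -/
def E2_Stmt : Prop := ∀ (G : SV), G.LF → ∀ {A : Type} (deg : A → ℕ) (μ : A → H G.toSS),
  ExtFam G deg μ → ∀ p q : ℕ,
  SpanLE ((HqCM G q).cc.Z p) ((HqCM G q).cc.B p) (NumE2 deg p q)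

/-- Link between the double complex and the second page. -/
def LINK_Stmt : Prop := ∀ (G : SV) (p q N : ℕ),
  SpanLE ((HqCM G q).cc.Z p) ((HqCM G q).cc.B p) N →
  SpanLE (G.bcm.dc.Z2 p q) (G.bcm.dc.B2h p q ⊔ G.bcm.dc.B2v p q) N

/-- The upper bound for the bar construction. -/
def BARB_Stmt : Prop := ∀ (G : SV), G.LF → ∀ {A : Type} (deg : A → ℕ) (μ : A → H G.toSS),
  ExtFam G deg μ → ∀ d : ℕ, ∃ s : Finset (H G.bar.toSS),
    s.card ≤ Nat.card {f : A →₀ ℕ // (f.sum fun a m => m * (deg a + 1)) = d} ∧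
    Hn G.bar.toSS d ≤ Submodule.span k (s : Set (H G.bar.toSS))

end Pool.Agent.SHS


end

section

/-!
Block III-S: the structure formula for one letter (LAM).
-/

namespace Pool.Agent.SHS

namespace Lam

open Finset

/-! ### Counting functions of finite sets of bars -/

/-- The number of elements of `J` before the vertex `v`. -/
def cnt {p : ℕ} (J : Finset (Fin p)) (v : Fin (p + 1)) : ℕ :=
  (J.filter (fun l => l.castSucc < v)).card

theorem cnt_mono {p : ℕ} (J : Finset (Fin p)) : Monotone (cnt J) := by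
  intro v w h
  apply card_le_card
  intro l hl
  rw [mem_filter] at hl ⊢
  exact ⟨hl.1, hl.2.trans_le h⟩

theorem cnt_zero {p : ℕ} (J : Finset (Fin p)) : cnt J 0 = 0 := by
  unfold cnt
  rw [card_eq_zero, filter_eq_empty_iff]
  intro l _
  exact not_lt.mpr (Fin.zero_le _)

theorem cnt_last {p : ℕ} (J : Finset (Fin p)) : cnt J (Fin.last p) = J.card := by
  unfold cnt
  rw [filter_true_of_mem]
  intro l _
  exact Fin.castSucc_lt_last l

theorem cnt_succ {p : ℕ} (J : Finset (Fin p)) (l : Fin p) :
    cnt J l.succ = cnt J l.castSucc + if l ∈ J then 1 else 0 := by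
  unfold cnt
  have h1 : J.filter (fun x => x.castSucc < l.succ) =
      J.filter (fun x => x.castSucc < l.castSucc) ∪ J.filter (fun x => x = l) := by
    ext x
    simp only [mem_filter, mem_union, Fin.castSucc_lt_succ_iff, Fin.castSucc_lt_castSucc_iff]
    constructor
    · rintro ⟨h1, h2⟩
      rcases h2.lt_or_eq with h3 | h3
      · exact Or.inl ⟨h1, h3⟩
      · exact Or.inr ⟨h1, h3⟩
    · rintro (⟨h1, h2⟩ | ⟨h1, h2⟩)
      · exact ⟨h1, h2.le⟩
      · exact ⟨h1, h2.le⟩
  rw [h1, card_union_of_disjoint]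
  · congr 1
    by_cases h : l ∈ J
    · rw [if_pos h, filter_eq' J l, if_pos h, card_singleton]
    · rw [if_neg h, filter_eq' J l, if_neg h, card_empty]
  · rw [disjoint_left]
    intro x hx hx'
    rw [mem_filter] at hx hx'
    rw [hx'.2] at hx
    exact lt_irrefl _ hx.2

theorem mem_jumps {p m : ℕ} {a : Mor p m} {l : Fin p} :
    l ∈ jumps a ↔ a l.castSucc ≠ a l.succ := by
  unfold jumps
  rw [mem_filter]
  exact ⟨fun h => h.2, fun h => ⟨mem_univ _, h⟩⟩

theorem surj_zero {p m : ℕ} {a : Mor p m} (ha : Function.Surjective a) : a 0 = 0 := by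
  obtain ⟨v, hv⟩ := ha 0
  have h := a.monotone (Fin.zero_le v)
  rw [hv] at h
  exact le_antisymm h (Fin.zero_le _)

theorem surj_last {p m : ℕ} {a : Mor p m} (ha : Function.Surjective a) :
    a (Fin.last p) = Fin.last m := by
  obtain ⟨v, hv⟩ := ha (Fin.last m)
  have h := a.monotone (Fin.le_last v)
  rw [hv] at h
  exact le_antisymm (Fin.le_last _) h

/-- A surjective monotone map counts its jumps. -/
theorem val_eq_cnt {p m : ℕ} {a : Mor p m} (ha : Function.Surjective a) (v : Fin (p + 1)) :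
    (a v : ℕ) = cnt (jumps a) v := by
  induction v using Fin.induction with
  | zero => rw [surj_zero ha, cnt_zero]; rfl
  | succ l ih =>
    rw [cnt_succ, ← ih]
    have hmono : a l.castSucc ≤ a l.succ := a.monotone (Fin.castSucc_lt_succ).le
    have hmono' : (a l.castSucc : ℕ) ≤ a l.succ := hmono
    by_cases h : l ∈ jumps a
    · rw [if_pos h]
      have hne : (a l.castSucc : ℕ) ≠ a l.succ := fun e => mem_jumps.mp h (Fin.ext e)
      by_contra hcon
      have hlt : (a l.castSucc : ℕ) + 1 < a l.succ := by omega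
      obtain ⟨v, hv⟩ := ha ⟨(a l.castSucc : ℕ) + 1, by
        have := (a l.succ).isLt
        omega⟩
      have hv' : (a v : ℕ) = (a l.castSucc : ℕ) + 1 := by rw [hv]
      rcases le_or_gt v l.castSucc with h1 | h1
      · have h2 : (a v : ℕ) ≤ a l.castSucc := a.monotone h1
        omega
      · have h2 : (a l.succ : ℕ) ≤ a v := a.monotone (Fin.castSucc_lt_iff_succ_le.mp h1)
        omega
    · rw [if_neg h]
      have : a l.castSucc = a l.succ := by
        by_contra hcon
        exact h (mem_jumps.mpr hcon)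
      rw [this, add_zero]

theorem card_jumps {p m : ℕ} {a : Mor p m} (ha : Function.Surjective a) : (jumps a).card = m := by
  rw [← cnt_last, ← val_eq_cnt ha, surj_last ha]
  rfl

/-- The map with given jumps. -/
def toM {p : ℕ} (m : ℕ) (J : Finset (Fin p)) : Mor p m where
  toFun v := ⟨min (cnt J v) m, by omega⟩
  monotone' := by
    intro v w h
    have h1 := cnt_mono J h
    show min (cnt J v) m ≤ min (cnt J w) m
    omega

theorem toM_val {p m : ℕ} {J : Finset (Fin p)} (hJ : J.card = m) (v : Fin (p + 1)) :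
    (toM m J v : ℕ) = cnt J v := by
  show min (cnt J v) m = cnt J v
  have h1 := cnt_mono J (Fin.le_last v)
  rw [cnt_last, hJ] at h1
  omega

theorem exists_cnt {p : ℕ} (J : Finset (Fin p)) (v : Fin (p + 1)) :
    ∀ y ≤ cnt J v, ∃ w, cnt J w = y := by
  induction v using Fin.induction with
  | zero =>
    intro y hy
    rw [cnt_zero] at hy
    exact ⟨0, by rw [cnt_zero]; omega⟩
  | succ l ih =>
    intro y hy
    by_cases h : y ≤ cnt J l.castSucc
    · exact ih y h
    · refine ⟨l.succ, ?_⟩
      rw [cnt_succ] at hy ⊢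
      split_ifs at hy ⊢ <;> omega

theorem toM_surj {p m : ℕ} {J : Finset (Fin p)} (hJ : J.card = m) :
    Function.Surjective (toM m J) := by
  intro y
  obtain ⟨w, hw⟩ := exists_cnt J (Fin.last p) y.1 (by
    rw [cnt_last, hJ]
    exact Nat.lt_succ_iff.mp y.isLt)
  refine ⟨w, Fin.ext ?_⟩
  rw [toM_val hJ, hw]

theorem jumps_toM {p m : ℕ} {J : Finset (Fin p)} (hJ : J.card = m) : jumps (toM m J) = J := by
  ext l
  rw [mem_jumps]
  have h1 : toM m J l.castSucc ≠ toM m J l.succ ↔ cnt J l.castSucc ≠ cnt J l.succ := by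
    rw [not_iff_not, Fin.ext_iff, toM_val hJ, toM_val hJ]
  rw [h1, cnt_succ]
  by_cases h : l ∈ J
  · rw [if_pos h]
    exact ⟨fun _ => h, fun _ => by omega⟩
  · rw [if_neg h]
    exact ⟨fun h' => absurd rfl h', fun h' => absurd h' h⟩

theorem toM_jumps {p m : ℕ} {a : Mor p m} (ha : Function.Surjective a) : toM m (jumps a) = a := by
  apply mor_ext
  intro v
  rw [toM_val (card_jumps ha), val_eq_cnt ha]

/-! ### Blocks -/

/-- The bars of [p'] between the images of the end points of the bar `j`. -/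
def block {p p' : ℕ} (b : Mor p p') (j : Fin p) : Finset (Fin p') :=
  univ.filter (fun l => b j.castSucc ≤ l.castSucc ∧ l.castSucc < b j.succ)

theorem mem_block {p p' : ℕ} {b : Mor p p'} {j : Fin p} {l : Fin p'} :
    l ∈ block b j ↔ b j.castSucc ≤ l.castSucc ∧ l.castSucc < b j.succ := by
  unfold block
  rw [mem_filter]
  exact ⟨fun h => h.2, fun h => ⟨mem_univ _, h⟩⟩

theorem block_lt {p p' : ℕ} {b : Mor p p'} {j : Fin p} {l : Fin p'} (h : l ∈ block b j)
    (i : Fin (p + 1)) : l.castSucc < b i ↔ j.castSucc < i := by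
  rw [mem_block] at h
  constructor
  · intro h1
    by_contra hcon
    rw [not_lt] at hcon
    exact absurd (h1.trans_le ((b.monotone hcon).trans h.1)) (lt_irrefl _)
  · intro h1
    exact h.2.trans_le (b.monotone (Fin.castSucc_lt_iff_succ_le.mp h1))

theorem block_disj {p p' : ℕ} {b : Mor p p'} {j j' : Fin p} {l : Fin p'} (h : l ∈ block b j)
    (h' : l ∈ block b j') : j = j' := by
  rcases lt_trichotomy j j' with h1 | h1 | h1
  · have := (block_lt h j'.castSucc).mpr (Fin.castSucc_lt_castSucc_iff.mpr h1)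
    exact absurd this (not_lt.mpr (mem_block.mp h').1)
  · exact h1
  · have := (block_lt h' j.castSucc).mpr (Fin.castSucc_lt_castSucc_iff.mpr h1)
    exact absurd this (not_lt.mpr (mem_block.mp h).1)

/-! ### Primitive classes -/

theorem prim_add {X : SS} {G : SV} {μ : H G.toSS} (hμ : Prim μ) (g h : SS.Hom X G.toSS) :
    H.map (G.addHom.comp (SS.Hom.pair g h)) μ = H.map g μ + H.map h μ := by
  rw [H.map_comp, show H.map G.addHom μ = _ from hμ, map_add, ← H.map_comp, ← H.map_comp]
  rfl

/-- The difference of two vertices. -/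
def dif (G : SV) {p : ℕ} (u v : Fin (p + 1)) : SS.Hom (G.BX p) G.toSS where
  f _ x := x.1 v - x.1 u
  nat b x := by
    show G.map b (x.1 v) - G.map b (x.1 u) = G.map b (x.1 v - x.1 u)
    rw [map_sub]

theorem map_dif_self {G : SV} {μ : H G.toSS} (hμ : Prim μ) {p : ℕ} (u : Fin (p + 1)) :
    H.map (dif G u u) μ = 0 := by
  have h1 := prim_add hμ (dif G u u) (dif G u u)
  have h2 : G.addHom.comp (SS.Hom.pair (dif G u u) (dif G u u)) = dif G u u := by
    apply SS.Hom.ext'
    intro n x
    show (x.1 u - x.1 u) + (x.1 u - x.1 u) = x.1 u - x.1 u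
    rw [sub_self, add_zero]
  rw [h2] at h1
  have h3 : H.map (dif G u u) μ + 0 = H.map (dif G u u) μ + H.map (dif G u u) μ := by
    rw [add_zero]; exact h1
  exact (add_left_cancel h3).symm

theorem map_dif_succ {G : SV} {μ : H G.toSS} (hμ : Prim μ) {p : ℕ} (u : Fin (p + 1)) (l : Fin p) :
    H.map (dif G u l.succ) μ = H.map (dif G u l.castSucc) μ + H.map (G.BXbar l) μ := by
  rw [← prim_add hμ]
  congr 2
  apply SS.Hom.ext'
  intro n x
  show x.1 l.succ - x.1 u = (x.1 l.castSucc - x.1 u) + (x.1 l.succ - x.1 l.castSucc)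
  abel

theorem map_dif {G : SV} {μ : H G.toSS} (hμ : Prim μ) {p : ℕ} (u v : Fin (p + 1)) :
    u ≤ v → H.map (dif G u v) μ =
      ∑ l ∈ univ.filter (fun l : Fin p => u ≤ l.castSucc ∧ l.castSucc < v),
        H.map (G.BXbar l) μ := by
  induction v using Fin.induction with
  | zero =>
    intro h
    have hu : u = 0 := le_antisymm h (Fin.zero_le _)
    rw [hu, map_dif_self hμ, filter_false_of_mem, sum_empty]
    rintro l _ ⟨_, h2⟩
    exact absurd h2 (not_lt.mpr (Fin.zero_le _))
  | succ w ih =>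
    intro h
    rcases h.lt_or_eq with h1 | h1
    · have h2 : u ≤ w.castSucc := Fin.le_castSucc_iff.mpr h1
      rw [map_dif_succ hμ, ih h2]
      have h3 : univ.filter (fun l : Fin p => u ≤ l.castSucc ∧ l.castSucc < w.succ) =
          insert w (univ.filter (fun l : Fin p => u ≤ l.castSucc ∧ l.castSucc < w.castSucc)) := by
        ext l
        simp only [mem_filter, mem_univ, true_and, mem_insert, Fin.castSucc_lt_succ_iff,
          Fin.castSucc_lt_castSucc_iff]
        constructor
        · rintro ⟨h3, h4⟩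
          rcases h4.lt_or_eq with h5 | h5
          · exact Or.inr ⟨h3, h5⟩
          · exact Or.inl h5
        · rintro (h3 | ⟨h3, h4⟩)
          · rw [h3]
            exact ⟨h2, le_rfl⟩
          · exact ⟨h3, h4.le⟩
      rw [h3, sum_insert, add_comm]
      intro h4
      rw [mem_filter] at h4
      exact lt_irrefl _ h4.2.2
    · rw [← h1, map_dif_self hμ, filter_false_of_mem, sum_empty]
      rintro l _ ⟨h2, h3⟩
      exact absurd (h2.trans_lt h3) (lt_irrefl _)

theorem map_bar {G : SV} {μ : H G.toSS} (hμ : Prim μ) {p p' : ℕ} (b : Mor p p') (j : Fin p) :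
    H.map (G.BXmap b) (H.map (G.BXbar j) μ) = ∑ l ∈ block b j, H.map (G.BXbar l) μ := by
  rw [← H.map_comp]
  have h1 : (G.BXbar j).comp (G.BXmap b) = dif G (b j.castSucc) (b j.succ) := by
    apply SS.Hom.ext'
    intro n x
    show (x.1 (b j.succ) - x.1 (b 0)) - (x.1 (b j.castSucc) - x.1 (b 0)) =
      x.1 (b j.succ) - x.1 (b j.castSucc)
    abel
  rw [h1]
  exact map_dif hμ _ _ (b.monotone (Fin.castSucc_lt_succ).le)

end Lam

open Lam Finset in
/-- **LAM.** -/
theorem LAM : LAM_Stmt := by
  classical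
  intro G μ hμ p p' m b a ha s hs
  have hJ := card_jumps ha
  -- expansion
  have h1 : H.map (G.BXmap b) (lam G μ a) =
      ∑ c ∈ Fintype.piFinset (fun j : {j // j ∈ jumps a} => block b j.1),
        ∏ j : {j // j ∈ jumps a}, H.map (G.BXbar (c j)) μ := by
    unfold lam
    rw [map_prod, ← prod_coe_sort]
    rw [prod_congr rfl fun j _ => map_bar hμ b j.1]
    exact prod_univ_sum _ _
  -- choice functions are injective
  have hinj : ∀ c ∈ Fintype.piFinset (fun j : {j // j ∈ jumps a} => block b j.1),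
      Function.Injective c := by
    intro c hc j j' h
    rw [Fintype.mem_piFinset] at hc
    have h2 := hc j'
    rw [← h] at h2
    exact Subtype.ext (block_disj (hc j) h2)
  have hcard : ∀ c ∈ Fintype.piFinset (fun j : {j // j ∈ jumps a} => block b j.1),
      (univ.image c).card = m := by
    intro c hc
    rw [card_image_of_injective _ (hinj c hc), card_univ, Fintype.card_coe, hJ]
  rw [h1]
  refine sum_bij (fun c _ => toM m (univ.image c)) ?_ ?_ ?_ ?_
  · intro c hc
    rw [hs]
    refine ⟨toM_surj (hcard c hc), ?_⟩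
    apply mor_ext
    intro i
    have hc' := Fintype.mem_piFinset.mp hc
    show (toM m (univ.image c) (b i) : ℕ) = a i
    rw [toM_val (hcard c hc), val_eq_cnt ha]
    unfold cnt
    have h2 : (univ.image c).filter (fun l => l.castSucc < b i) =
        (univ.filter (fun j : {j // j ∈ jumps a} => j.1.castSucc < i)).image c := by
      ext l
      simp only [mem_filter, mem_image, mem_univ, true_and]
      constructor
      · rintro ⟨⟨j, rfl⟩, h3⟩
        exact ⟨j, (block_lt (hc' j) i).mp h3, rfl⟩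
      · rintro ⟨j, h3, rfl⟩
        exact ⟨⟨j, rfl⟩, (block_lt (hc' j) i).mpr h3⟩
    have h3 : (jumps a).filter (fun l => l.castSucc < i) =
        (univ.filter (fun j : {j // j ∈ jumps a} => j.1.castSucc < i)).image Subtype.val := by
      ext l
      simp only [mem_filter, mem_image, mem_univ, true_and]
      constructor
      · rintro ⟨h3, h4⟩
        exact ⟨⟨l, h3⟩, h4, rfl⟩
      · rintro ⟨j, h3, rfl⟩
        exact ⟨j.2, h3⟩
    rw [h2, h3, card_image_of_injective _ (hinj c hc),
      card_image_of_injective _ Subtype.val_injective]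
  · intro c hc c' hc' h
    have h2 : univ.image c = univ.image c' := by
      have := congrArg jumps h
      rwa [jumps_toM (hcard c hc), jumps_toM (hcard c' hc')] at this
    funext j
    have h3 : c j ∈ univ.image c' := by
      rw [← h2]
      exact mem_image_of_mem _ (mem_univ j)
    obtain ⟨j', _, hj'⟩ := mem_image.mp h3
    have h4 := Fintype.mem_piFinset.mp hc' j'
    rw [hj'] at h4
    have h5 : j = j' := Subtype.ext (block_disj (Fintype.mem_piFinset.mp hc j) h4)
    rw [h5, ← h5]
    rw [← hj', ← h5]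
  · intro a' ha'
    obtain ⟨hs1, hs2⟩ := (hs a').mp ha'
    have h2 : ∀ j : {j // j ∈ jumps a}, ∃ l, l ∈ block b j.1 ∧ l ∈ jumps a' := by
      intro j
      by_contra hcon
      push Not at hcon
      have hval : ∀ i, a i = a' (b i) := fun i => by rw [← hs2]; rfl
      apply mem_jumps.mp j.2
      rw [hval, hval]
      apply Fin.ext
      rw [val_eq_cnt hs1, val_eq_cnt hs1]
      unfold cnt
      congr 1
      apply filter_congr
      intro l hl
      constructor
      · intro h3
        exact h3.trans_le (b.monotone (Fin.castSucc_lt_succ).le)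
      · intro h3
        by_contra h4
        exact hcon l (mem_block.mpr ⟨not_lt.mp h4, h3⟩) hl
    choose c hc hc' using h2
    have hcm : c ∈ Fintype.piFinset (fun j : {j // j ∈ jumps a} => block b j.1) :=
      Fintype.mem_piFinset.mpr hc
    refine ⟨c, hcm, ?_⟩
    have h3 : univ.image c = jumps a' := by
      apply eq_of_subset_of_card_le
      · intro l hl
        obtain ⟨j, _, rfl⟩ := mem_image.mp hl
        exact hc' j
      · rw [hcard c hcm, card_jumps hs1]
    rw [h3]
    exact toM_jumps hs1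
  · intro c hc
    unfold lam
    rw [jumps_toM (hcard c hc), prod_image (fun x _ y _ h => hinj c hc h)]

end Pool.Agent.SHS


end

section

/-!
Block III-S, E2S: structure formula for several letters.
-/

namespace Pool.Agent.SHS

namespace E2s

theorem finite_SPH (l : List ℕ) (n : ℕ) : Finite ((SPH l).X n) := by
  induction l with
  | nil => exact (inferInstance : Finite Unit)
  | cons m l ih =>
    have h1 : Finite (Mor n m) := DFunLike.finite _
    have h2 : Finite {a : Mor n m // Function.Surjective a} := inferInstance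
    exact (inferInstance : Finite ({a : Mor n m // Function.Surjective a} × (SPH l).X n))

theorem sphere_map_iff {m p p' : ℕ} (b : Mor p p') (x : (PS.sphere m).X p')
    (y : (PS.sphere m).X p) : (PS.sphere m).map b x = some y ↔ x.1.comp b = y.1 := by
  by_cases h : Function.Surjective (x.1.comp b)
  · have e : (PS.sphere m).map b x = some ⟨x.1.comp b, h⟩ := dif_pos h
    rw [e, Option.some_inj]
    constructor
    · rintro rfl
      rfl
    · intro h1
      exact Subtype.ext h1
  · have e : (PS.sphere m).map b x = none := dif_neg h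
    rw [e]
    constructor
    · intro h1
      exact absurd h1 (by simp)
    · intro h1
      exact absurd (h1 ▸ y.2) h

end E2s

open E2s in
theorem E2S (h : LAM_Stmt) : E2S_Stmt := by
  classical
  intro G A μ hμ f c
  induction c with
  | nil =>
    intro p p' b y s hs
    obtain ⟨u0, hu0⟩ : ∃ u0 : (SPH (List.map f [])).X p', ∀ u, u = u0 :=
      ⟨(() : Unit), fun (_ : Unit) => rfl⟩
    have hs' : s = {u0} := by
      ext u
      rw [Finset.mem_singleton]
      constructor
      · intro _
        exact hu0 u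
      · intro _
        exact (hs u).2 rfl
    rw [hs', Finset.sum_singleton]
    exact map_one _
  | cons a c ih =>
    intro p p' b y s hs
    obtain ⟨y1, y2⟩ : (PS.sphere (f a)).X p × (SPH (c.map f)).X p := y
    have hfin1 : Finite (Mor p' (f a)) := DFunLike.finite _
    have hfin2 : Finite ((SPH (c.map f)).X p') := finite_SPH _ _
    let s1 : Finset (Mor p' (f a)) :=
      (Set.toFinite {a' : Mor p' (f a) | Function.Surjective a' ∧ a'.comp b = y1.1}).toFinset
    let s2 : Finset ((SPH (c.map f)).X p') :=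
      (Set.toFinite {y' | (SPH (c.map f)).map b y' = some y2}).toFinset
    have hs1 : ∀ a', a' ∈ s1 ↔ Function.Surjective a' ∧ a'.comp b = y1.1 := fun a' =>
      Set.Finite.mem_toFinset _
    have hs2 : ∀ y', y' ∈ s2 ↔ (SPH (c.map f)).map b y' = some y2 := fun y' =>
      Set.Finite.mem_toFinset _
    have e1 := h G (μ a) (hμ a) p p' (f a) b y1.1 y1.2 s1 hs1
    have e2 := ih p p' b y2 s2 hs2
    have e3 : H.map (G.BXmap b) (Lf G μ f (a :: c) (y1, y2)) =
        H.map (G.BXmap b) (lam G (μ a) y1.1) * H.map (G.BXmap b) (Lf G μ f c y2) :=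
      map_mul _ _ _
    rw [e3, e1, e2, Finset.sum_mul_sum, ← Finset.sum_product']
    refine Finset.sum_bij' (fun t ht => (⟨t.1, ((hs1 _).1 (Finset.mem_product.1 ht).1).1⟩, t.2))
      (fun y' _ => (y'.1.1, y'.2)) ?_ ?_ ?_ ?_ ?_
    · intro t ht
      obtain ⟨h1, h2⟩ := Finset.mem_product.1 ht
      refine (hs _).2 ?_
      show Option.map₂ Prod.mk ((PS.sphere (f a)).map b _) ((SPH (c.map f)).map b t.2) =
        some (y1, y2)
      rw [(sphere_map_iff b ⟨t.1, _⟩ y1).2 ((hs1 _).1 h1).2, (hs2 _).1 h2]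
      rfl
    · intro y' hy'
      have h1 : Option.map₂ Prod.mk ((PS.sphere (f a)).map b y'.1)
        ((SPH (c.map f)).map b y'.2) = some (y1, y2) := (hs _).1 hy'
      rw [Option.map₂_eq_some_iff] at h1
      obtain ⟨u, v, hu, hv, huv⟩ := h1
      obtain ⟨rfl, rfl⟩ := Prod.mk.inj huv
      refine Finset.mem_product.2 ⟨(hs1 _).2 ⟨y'.1.2, (sphere_map_iff b y'.1 _).1 hu⟩,
        (hs2 _).2 hv⟩
    · intro t ht
      rfl
    · intro y' hy'
      rfl
    · intro t ht
      rfl

end Pool.Agent.SHS


end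

section

/-!
Block III-S, statements D: Serre-Cartan theorem for Eilenberg-MacLane objects (assembly).
-/

namespace Pool.Agent.SHS

/-- Homotopy equivalence (on cohomology) between EM (n+1) and the bar construction of EM n. -/
def EMBAR_Stmt : Prop := ∀ n : ℕ, 1 ≤ n → ∃ (φ : SS.Hom (EM (n + 1)).toSS (EM n).bar.toSS)
  (ψ : SS.Hom (EM n).bar.toSS (EM (n + 1)).toSS),
  (∀ a : H (EM n).bar.toSS, H.map ψ (H.map φ a) = a) ∧
  (∀ a : H (EM (n + 1)).toSS, H.map φ (H.map ψ a) = a)

/-- The square free products of the mu_J form a homogeneous basis (Serre, Cartan). -/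
def SCn (n : ℕ) : Prop := ∀ μ : Multiset ℕ → H (EM n).toSS, MuFam n μ →
  HB (EM n).toSS
    (fun S : Finset {J : Multiset ℕ // Multiset.card J = n} => ∑ J ∈ S, wgt J.1)
    (fun S => ∏ J ∈ S, μ J.1)

/-- The case n = 1. -/
def SC1_Stmt : Prop := SCn 1

/-- Finiteness. -/
def WF_Stmt : Prop := ∀ n d : ℕ, {J : {J : Multiset ℕ // Multiset.card J = n} | wgt J.1 ≤ d}.Finite

/-- The two sets of monomials have the same number of elements. -/
def CNT_Stmt : Prop := ∀ n d : ℕ,
  Nat.card {f : {J : Multiset ℕ // Multiset.card J = n} →₀ ℕ //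
      (f.sum fun J m => m * (wgt J.1 + 1)) = d}
    = Nat.card {S : Finset {J : Multiset ℕ // Multiset.card J = n + 1} // ∑ J ∈ S, wgt J.1 = d}

/-- The theorem of Serre and Cartan. -/
def SC_Stmt : Prop := ∀ n : ℕ, 1 ≤ n → SCn n

end Pool.Agent.SHS


end

section

/-!
Block III-S: the theorem of Serre and Cartan for Eilenberg-MacLane objects (induction).
-/

namespace Pool.Agent.SHS

namespace Sca

theorem card_le_wgt (J : Multiset ℕ) : Multiset.card J ≤ wgt J := by
  induction J using Multiset.induction_on with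
  | empty => simp [wgt]
  | cons a J ih =>
    have h1 : wgt (a ::ₘ J) = 2 ^ a + wgt J := by
      simp [wgt]
    have h2 : 1 ≤ 2 ^ a := Nat.one_le_two_pow
    rw [h1, Multiset.card_cons]
    omega

/-- A linearly independent family of `N` elements inside a subspace which is spanned by `N`
elements spans it. -/
theorem span_of_card {M : Type*} [AddCommGroup M] [Module k M] {I : Type*} [Finite I]
    (b : I → M) (hb : LinearIndependent k b) (V : Submodule k M) (hV : ∀ i, b i ∈ V)
    (s : Finset M) (hs : s.card ≤ Nat.card I) (hs' : V ≤ Submodule.span k (s : Set M)) :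
    V ≤ Submodule.span k (Set.range b) := by
  have : Fintype I := Fintype.ofFinite I
  have h1 : Submodule.span k (Set.range b) ≤ Submodule.span k (s : Set M) := by
    refine Submodule.span_le.2 ?_
    rintro _ ⟨i, rfl⟩
    exact hs' (hV i)
  have h2 : Module.finrank k (Submodule.span k (Set.range b)) = Fintype.card I :=
    finrank_span_eq_card hb
  have h3 : Module.finrank k (Submodule.span k (s : Set M)) ≤ s.card :=
    finrank_span_finset_le_card s
  have : FiniteDimensional k (Submodule.span k (s : Set M)) :=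
    FiniteDimensional.span_finset k s
  have h4 : Submodule.span k (Set.range b) = Submodule.span k (s : Set M) := by
    refine Submodule.eq_of_le_of_finrank_le h1 ?_
    rw [h2, ← Nat.card_eq_fintype_card]
    exact h3.trans hs
  rw [h4]
  exact hs'

theorem finite_deg (h2 : WF_Stmt) (n d : ℕ) :
    Finite {S : Finset {J : Multiset ℕ // Multiset.card J = n} // ∑ J ∈ S, wgt J.1 = d} := by
  classical
  have h3 : ∀ S : Finset {J : Multiset ℕ // Multiset.card J = n}, ∑ J ∈ S, wgt J.1 = d →
      S ∈ (h2 n d).toFinset.powerset := by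
    intro S hS
    rw [Finset.mem_powerset]
    intro J hJ
    rw [Set.Finite.mem_toFinset]
    show wgt J.1 ≤ d
    rw [← hS]
    exact Finset.single_le_sum (f := fun J : {J : Multiset ℕ // Multiset.card J = n} => wgt J.1)
      (fun _ _ => Nat.zero_le _) hJ
  exact Finite.of_injective
    (fun S : {S : Finset {J : Multiset ℕ // Multiset.card J = n} // ∑ J ∈ S, wgt J.1 = d} =>
      (⟨S.1, h3 S.1 S.2⟩ : (h2 n d).toFinset.powerset))
    (fun S T hST => Subtype.ext (congrArg (fun t => t.1) hST))

end Sca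

theorem SCA (h1 : SC1_Stmt) (h2 : WF_Stmt) (h3 : CNT_Stmt) (h4 : EMBAR_Stmt) (h5 : BARB_Stmt)
    (h6 : INDEP_Stmt) (h7 : MU_Stmt) : SC_Stmt := by
  classical
  intro n hn
  induction n, hn using Nat.le_induction with
  | base => exact h1
  | succ n hn ih =>
    intro μ' hμ'
    obtain ⟨μ, hμ⟩ := h7 n hn
    have hE : ExtFam (EM n) (fun J : {J : Multiset ℕ // Multiset.card J = n} => wgt J.1)
        (fun J => μ J.1) :=
      { pos := fun J => by
          have := Sca.card_le_wgt J.1
          rw [J.2] at this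
          exact hn.trans this
        fin := h2 n
        mem := fun J => hμ.mem J.1 J.2
        prim := fun J => hμ.prim J.1 J.2
        hb := ih μ hμ }
    have hmem : ∀ S : Finset {J : Multiset ℕ // Multiset.card J = n + 1},
        ∏ J ∈ S, μ' J.1 ∈ Hn (EM (n + 1)).toSS (∑ J ∈ S, wgt J.1) :=
      fun S => Hn_prod S _ _ fun J _ => hμ'.mem J.1 J.2
    have hind := h6 (n + 1) μ' (Nat.le_add_left 1 n) hμ'
    refine ⟨hmem, hind, fun d => ?_⟩
    obtain ⟨s, hs, hs'⟩ := h5 (EM n) (EMF n) _ _ hE d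
    obtain ⟨φ, ψ, hφ, hψ⟩ := h4 n hn
    have hfin := Sca.finite_deg h2 (n + 1) d
    have hle : Hn (EM (n + 1)).toSS d ≤
        Submodule.span k ((s.image (H.map φ) : Finset (H (EM (n + 1)).toSS)) : Set _) := by
      intro a ha
      have e1 : H.map ψ a ∈ Submodule.span k (s : Set (H (EM n).bar.toSS)) :=
        hs' (H.map_mem ψ ha)
      have e2 := Submodule.mem_map_of_mem (f := (H.map φ).toLinearMap) e1
      rw [Submodule.map_span] at e2
      have e3 : (H.map φ).toLinearMap (H.map ψ a) = a := hψ a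
      rw [e3] at e2
      rw [Finset.coe_image]
      exact e2
    have hspan := Sca.span_of_card
      (fun S : {S : Finset {J : Multiset ℕ // Multiset.card J = n + 1} //
        ∑ J ∈ S, wgt J.1 = d} => ∏ J ∈ S.1, μ' J.1)
      (hind.comp _ Subtype.val_injective) (Hn (EM (n + 1)).toSS d)
      (fun S => by
        have e4 := hmem S.1
        rw [S.2] at e4
        exact e4) (s.image (H.map φ))
      (by
        rw [← h3 n d]
        exact (Finset.card_image_le).trans hs) hle
    refine hspan.trans (Submodule.span_mono ?_)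
    rintro _ ⟨S, rfl⟩
    exact ⟨S.1, S.2, rfl⟩

end Pool.Agent.SHS


end

section

/-!
Block III-S, statements V: simplicial vector spaces with finite levels are products of
Eilenberg-MacLane objects; their cohomology is a polynomial algebra.
-/

namespace Pool.Agent.SHS

/-- Product of simplicial vector spaces. -/
abbrev SV.pi {A : Type} (W : A → SV) : SV where
  X n := ∀ a, (W a).X n
  map f := LinearMap.pi fun a => ((W a).map f).comp (LinearMap.proj a)
  map_id x := by funext a; exact (W a).map_id _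
  map_comp f g x := by funext a; exact (W a).map_comp f g _

/-- The map to a product. -/
def SV.Hom.lift {A : Type} {V : SV} {W : A → SV} (f : ∀ a, SV.Hom V (W a)) :
    SV.Hom V (SV.pi W) where
  f n := LinearMap.pi fun a => (f a).f n
  nat a x := by funext b; exact (f b).nat a x

/-- The projections. -/
def SV.Hom.pr {A : Type} (W : A → SV) (a : A) : SV.Hom (SV.pi W) (W a) where
  f n := LinearMap.proj a
  nat _ _ := rfl

def SV.Hom.id (V : SV) : SV.Hom V V := ⟨fun _ => LinearMap.id, fun _ _ => rfl⟩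

def SV.Hom.comp {V W U : SV} (g : SV.Hom W U) (f : SV.Hom V W) : SV.Hom V U :=
  ⟨fun n => (g.f n).comp (f.f n), fun a x => by
    show g.f _ (f.f _ (V.map a x)) = U.map a (g.f _ (f.f _ x))
    rw [f.nat, g.nat]⟩

/-- Linear homotopies. -/
structure SV.LHty {V W : SV} (f g : SV.Hom V W) where
  h : ∀ n : ℕ, Mor n 1 → (V.X n →ₗ[k] W.X n)
  nat : ∀ {m n : ℕ} (a : Mor m n) (t : Mor n 1) (x : V.X n),
    h m (t.comp a) (V.map a x) = W.map a (h n t x)
  zero : ∀ (n : ℕ) (x : V.X n), h n (cst 0) x = f.f n x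
  one : ∀ (n : ℕ) (x : V.X n), h n (cst 1) x = g.f n x

/-- Moore cycles: all operators which are not surjective vanish. -/
def SV.ZM (V : SV) (n : ℕ) : Submodule k (V.X n) where
  carrier := {v | ∀ (m : ℕ) (a : Mor m n), ¬ Function.Surjective a → V.map a v = 0}
  zero_mem' := fun m a _ => map_zero _
  add_mem' := fun {v w} hv hw m a ha => by rw [map_add, hv m a ha, hw m a ha, add_zero]
  smul_mem' := fun c v hv m a ha => by rw [map_smul, hv m a ha, smul_zero]

/-- Moore boundaries. -/
def SV.BM (V : SV) (n : ℕ) : Submodule k (V.X n) where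
  carrier := {v | ∃ w : V.X (n + 1), V.map (cof 0) w = v ∧
    ∀ i : Fin (n + 1), V.map (cof i.succ) w = 0}
  zero_mem' := ⟨0, map_zero _, fun _ => map_zero _⟩
  add_mem' := by
    rintro _ _ ⟨v, rfl, hv⟩ ⟨w, rfl, hw⟩
    exact ⟨v + w, map_add _ _ _, fun i => by rw [map_add, hv i, hw i, add_zero]⟩
  smul_mem' := by
    rintro c _ ⟨v, rfl, hv⟩
    exact ⟨c • v, map_smul _ _ _, fun i => by rw [map_smul, hv i, smul_zero]⟩

/-- A family of linear simplicial maps to Eilenberg-MacLane objects inducing an isomorphism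
on homotopy groups. -/
structure LinBasis (V : SV) {I : ℕ → Type} (x : ∀ j, I j → SV.Hom V (EM j)) : Prop where
  fin : ∀ j, Finite (I j)
  inj : ∀ (n : ℕ) (v : V.X n), v ∈ V.ZM n → (∀ i, ((x n i).f n v).1 OrderHom.id = 0) →
    v ∈ V.BM n
  surj : ∀ (n : ℕ) (c : I n → k), ∃ v ∈ V.ZM n, ∀ i, ((x n i).f n v).1 OrderHom.id = c i

/-- The target of the map given by a family `x`. -/
abbrev EMpi (I : ℕ → Type) : SV := SV.pi fun p : (Σ j, I j) => EM p.1

/-- The map given by a family `x`. -/
abbrev Lam {V : SV} {I : ℕ → Type} (x : ∀ j, I j → SV.Hom V (EM j)) : SV.Hom V (EMpi I) :=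
  SV.Hom.lift fun p : (Σ j, I j) => x p.1 p.2

/-- Existence of a linear basis. -/
def LBE_Stmt : Prop := ∀ V : SV, V.LF → ∃ (I : ℕ → Type) (x : ∀ j, I j → SV.Hom V (EM j)),
  LinBasis V x

/-- Splitting: the map to the product of Eilenberg-MacLane objects is a linear homotopy
equivalence (with a strict right inverse). -/
def SPLIT_Stmt : Prop := ∀ (V : SV), V.LF → ∀ {I : ℕ → Type} (x : ∀ j, I j → SV.Hom V (EM j)),
  LinBasis V x → ∃ Γ : SV.Hom (EMpi I) V, (∀ n w, (Lam x).f n (Γ.f n w) = w) ∧
    Nonempty (SV.LHty (SV.Hom.id V) (Γ.comp (Lam x)))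

/-- The classes of linear cocycles are spanned by the classes of a linear basis. -/
def LCS_Stmt : Prop := ∀ (V : SV), V.LF → ∀ {I : ℕ → Type} (x : ∀ j, I j → SV.Hom V (EM j)),
  LinBasis V x → ∀ (j : ℕ) (l : V.X j →ₗ[k] k) (h : V.toSS.cm.delta j l = 0),
    clsN j l h ∈ Submodule.span k (Set.range fun i => H.map (x j i).toSS (iota j))

/-- Levelwise finite product of Eilenberg-MacLane objects of positive degrees: homogeneous
basis of the cohomology (Kuenneth). -/
def GENP_Stmt : Prop := ∀ (I : ℕ → Type), (∀ j, Finite (I j)) → IsEmpty (I 0) →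
  ∀ μ : ∀ n, Multiset ℕ → H (EM n).toSS, (∀ n, 1 ≤ n → MuFam n (μ n)) →
  HB (EMpi I).toSS
    (fun S : Finset (Σ j, I j × {J : Multiset ℕ // Multiset.card J = j}) =>
      ∑ p ∈ S, wgt p.2.2.1)
    (fun S => ∏ p ∈ S,
      H.map (SV.Hom.pr (fun p : (Σ j, I j) => EM p.1) ⟨p.1, p.2.1⟩).toSS (μ p.1 p.2.2.1))

/-- Cohomology of a simplicial vector space with finite levels and V_0 = 0. -/
def GENV_Stmt : Prop := ∀ (V : SV), V.LF → (∀ v : V.X 0, v = 0) →
  ∀ {I : ℕ → Type} (x : ∀ j, I j → SV.Hom V (EM j)), LinBasis V x →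
  ∀ μ : ∀ n, Multiset ℕ → H (EM n).toSS, (∀ n, 1 ≤ n → MuFam n (μ n)) →
  HB V.toSS
    (fun S : Finset (Σ j, I j × {J : Multiset ℕ // Multiset.card J = j}) =>
      ∑ p ∈ S, wgt p.2.2.1)
    (fun S => ∏ p ∈ S, H.map (x p.1 p.2.1).toSS (μ p.1 p.2.2.1))

/-- The cohomology of `X` is a polynomial algebra on homogeneous generators `g` of positive
degrees `w`. -/
structure PolyGen (X : SS) {σ : Type} (w : σ → ℕ) (g : σ → H X) : Prop where
  pos : ∀ s, 0 < w s
  fin : ∀ n, {s | w s ≤ n}.Finite
  inj : Function.Injective (MvPolynomial.aeval (R := k) g)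
  deg : ∀ n, Hn X n = (MvPolynomial.weightedHomogeneousSubmodule k w n).map
    (MvPolynomial.aeval (R := k) g).toLinearMap

/-- Polynomial form of GENV: generators mu(x, J) with J a multiset of j exponents containing 0. -/
def POLY_Stmt : Prop := ∀ (V : SV), V.LF → (∀ v : V.X 0, v = 0) →
  ∀ {I : ℕ → Type} (x : ∀ j, I j → SV.Hom V (EM j)), LinBasis V x →
  ∀ μ : ∀ n, Multiset ℕ → H (EM n).toSS, (∀ n, 1 ≤ n → MuFam n (μ n)) →
  PolyGen V.toSS
    (fun p : (Σ j, I j × {J : Multiset ℕ // Multiset.card J = j ∧ 0 ∈ J}) => wgt p.2.2.1)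
    (fun p => H.map (x p.1 p.2.1).toSS (μ p.1 p.2.2.1))

end Pool.Agent.SHS


end

section

/-!
Block III-S, statements W (parts of GENP, GENV, POLY).
-/

namespace Pool.Agent.SHS

/-- Square free basis: the products of the finite subsets of the family `g` form a homogeneous
basis of the cohomology of `X`. -/
abbrev SFB (X : SS) {L : Type} (d : L → ℕ) (g : L → H X) : Prop :=
  HB X (fun S : Finset L => ∑ p ∈ S, d p) (fun S => ∏ p ∈ S, g p)

/-- Product of simplicial sets. -/
abbrev SS.pi {A : Type} (W : A → SS) : SS where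
  X n := ∀ a, (W a).X n
  map f x := fun a => (W a).map f (x a)
  map_id x := by funext a; exact (W a).map_id _
  map_comp f g x := by funext a; exact (W a).map_comp f g _

/-- The projections. -/
def SS.pr {A : Type} (W : A → SS) (a : A) : SS.Hom (SS.pi W) (W a) := ⟨fun _ x => x a, fun _ _ => rfl⟩

/-- Finite products (Kuenneth). -/
def FPR_Stmt : Prop := ∀ (A : Type), Finite A → ∀ (W : A → SS), (∀ a, (W a).LF) →
  ∀ (L : A → Type) (d : ∀ a, L a → ℕ) (g : ∀ a, L a → H (W a)), (∀ a, SFB (W a) (d a) (g a)) →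
  SFB (SS.pi W) (fun p : (Σ a, L a) => d p.1 p.2) (fun p => H.map (SS.pr W p.1) (g p.1 p.2))

/-- Binary digits: finite sets of pairs (g, r) correspond to monomials, r a digit of the
exponent of g. -/
def BIN_Stmt : Prop := ∀ (G : Type), ∃ e : Finset (G × ℕ) ≃ (G →₀ ℕ),
  (∀ (M : Type) [CommMonoid M] (g : G → M) (S : Finset (G × ℕ)),
    ∏ p ∈ S, g p.1 ^ (2 ^ p.2) = (e S).prod (fun s m => g s ^ m)) ∧
  (∀ (w : G → ℕ) (S : Finset (G × ℕ)),
    ∑ p ∈ S, 2 ^ p.2 * w p.1 = (e S).sum (fun s m => m * w s))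

/-- Shifting a multiset of exponents. -/
def shJ {j : ℕ} (p : {J : Multiset ℕ // Multiset.card J = j ∧ 0 ∈ J} × ℕ) :
    {J : Multiset ℕ // Multiset.card J = j} :=
  ⟨p.1.1.map (· + p.2), by rw [Multiset.card_map]; exact p.1.2.1⟩

/-- Every nonempty multiset of natural numbers is uniquely the shift of one which contains 0. -/
def SHIFT_Stmt : Prop := (∀ j : ℕ, 1 ≤ j → Function.Bijective (shJ (j := j))) ∧
  ∀ (J : Multiset ℕ) (r : ℕ), wgt (J.map (· + r)) = 2 ^ r * wgt J

end Pool.Agent.SHS


end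

section

/-!
Block III-S: finite products of simplicial sets with square free bases (Kuenneth).
-/

namespace Pool.Agent.SHS

open Coch

namespace Fpr

/-- change of the letters along an equivalence -/
theorem sfb_reindex {X : SS} {L L' : Type} {d : L → ℕ} {g : L → H X} (h : SFB X d g)
    (σ : L' ≃ L) : SFB X (fun l => d (σ l)) (fun l => g (σ l)) := by
  have h1 := Pow.reindex h (Equiv.finsetCongr σ)
  have e1 : (fun S : Finset L' => ∑ p ∈ S, d (σ p)) =
      fun S => ∑ p ∈ (Equiv.finsetCongr σ) S, d p := by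
    funext S
    rw [Equiv.finsetCongr_apply, Finset.sum_map]
    rfl
  have e2 : (fun S : Finset L' => ∏ p ∈ S, g (σ p)) =
      fun S => ∏ p ∈ (Equiv.finsetCongr σ) S, g p := by
    funext S
    rw [Equiv.finsetCongr_apply, Finset.prod_map]
    rfl
  show HB X (fun S : Finset L' => ∑ p ∈ S, d (σ p)) (fun S => ∏ p ∈ S, g (σ p))
  rw [e1, e2]
  exact h1

/-- change of the letters and of their names -/
theorem sfb_congr {X : SS} {L L' : Type} {d : L → ℕ} {g : L → H X} (h : SFB X d g)
    (σ : L' ≃ L) (d' : L' → ℕ) (g' : L' → H X) (hd : ∀ l, d' l = d (σ l))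
    (hg : ∀ l, g' l = g (σ l)) : SFB X d' g' := by
  have e1 : d' = fun l => d (σ l) := funext hd
  have e2 : g' = fun l => g (σ l) := funext hg
  rw [e1, e2]
  exact sfb_reindex h σ

/-- isomorphisms -/
theorem sfb_iso {X Y : SS} (φ : SS.Hom X Y) (ψ : SS.Hom Y X)
    (h1 : ∀ n x, ψ.f n (φ.f n x) = x) (h2 : ∀ n y, φ.f n (ψ.f n y) = y)
    {L : Type} {d : L → ℕ} {g : L → H Y} (h : SFB Y d g) :
    SFB X d (fun l => H.map φ (g l)) := by
  have h3 := HB.iso φ ψ h1 h2 h
  have e2 : (fun S : Finset L => ∏ p ∈ S, H.map φ (g p)) = fun S => H.map φ (∏ p ∈ S, g p) := by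
    funext S
    rw [map_prod]
  show HB X (fun S : Finset L => ∑ p ∈ S, d p) (fun S => ∏ p ∈ S, H.map φ (g p))
  rw [e2]
  exact h3

/-- products of two -/
theorem sfb_prod (hK : KUN_Stmt) {X Y : SS} (hX : X.LF) (hY : Y.LF) {L L' : Type} {d : L → ℕ}
    {d' : L' → ℕ} {g : L → H X} {g' : L' → H Y} (h : SFB X d g) (h' : SFB Y d' g') :
    SFB (X.prod Y) (Sum.elim d d')
      (Sum.elim (fun l => H.map (SS.fst X Y) (g l)) (fun l => H.map (SS.snd X Y) (g' l))) := by
  classical
  have h1 := hK X Y hX hY _ _ _ _ h h'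
  have h2 := Pow.reindex h1 (Finset.sumEquiv (α := L) (β := L')).toEquiv
  have e1 : (fun S : Finset (L ⊕ L') => ∑ p ∈ S, Sum.elim d d' p) =
      fun S => ∑ p ∈ ((Finset.sumEquiv (α := L) (β := L')).toEquiv S).1, d p +
        ∑ p ∈ ((Finset.sumEquiv (α := L) (β := L')).toEquiv S).2, d' p := by
    funext S
    conv_lhs => rw [← Finset.toLeft_disjSum_toRight (u := S)]
    rw [Finset.sum_disjSum]
    rfl
  have e2 : (fun S : Finset (L ⊕ L') => ∏ p ∈ S,
      Sum.elim (fun l => H.map (SS.fst X Y) (g l)) (fun l => H.map (SS.snd X Y) (g' l)) p) =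
      fun S => H.map (SS.fst X Y) (∏ p ∈ ((Finset.sumEquiv (α := L) (β := L')).toEquiv S).1, g p) *
        H.map (SS.snd X Y) (∏ p ∈ ((Finset.sumEquiv (α := L) (β := L')).toEquiv S).2, g' p) := by
    funext S
    conv_lhs => rw [← Finset.toLeft_disjSum_toRight (u := S)]
    rw [Finset.prod_disjSum, map_prod, map_prod]
    rfl
  show HB (X.prod Y) (fun S : Finset (L ⊕ L') => ∑ p ∈ S, Sum.elim d d' p)
    (fun S => ∏ p ∈ S,
      Sum.elim (fun l => H.map (SS.fst X Y) (g l)) (fun l => H.map (SS.snd X Y) (g' l)) p)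
  rw [e1, e2]
  exact h2

/-- the empty product -/
theorem sfb_point {X : SS} (hs : ∀ n, Subsingleton (X.X n)) (hne : ∀ n, Nonempty (X.X n))
    {L : Type} [IsEmpty L] (d : L → ℕ) (g : L → H X) : SFB X d g := by
  have hS : ∀ S : Finset L, S = ∅ := fun S => Finset.eq_empty_of_isEmpty S
  refine ⟨?_, ?_, ?_⟩
  · intro S
    rw [hS S, Finset.sum_empty, Finset.prod_empty]
    exact Hn_one
  · have e : (fun S : Finset L => ∏ p ∈ S, g p) = fun _ => (1 : H X) := by
      funext S
      rw [hS S, Finset.prod_empty]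
    rw [e, linearIndependent_unique_iff]
    exact Pow.one_ne (hne 0).some
  · intro n a ha
    rcases Pow.point hs hne n a ha with ⟨rfl, c, rfl⟩ | rfl
    · apply Submodule.smul_mem
      apply Submodule.subset_span
      exact ⟨∅, Finset.sum_empty, Finset.prod_empty⟩
    · exact Submodule.zero_mem _

end Fpr

open Pool.Agent.SHS.Fpr in
theorem FPR (hK : KUN_Stmt) : FPR_Stmt := by
  intro A hA
  refine Finite.induction_empty_option (P := fun A : Type => ∀ (W : A → SS), (∀ a, (W a).LF) →
    ∀ (L : A → Type) (d : ∀ a, L a → ℕ) (g : ∀ a, L a → H (W a)), (∀ a, SFB (W a) (d a) (g a)) →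
    SFB (SS.pi W) (fun p : (Σ a, L a) => d p.1 p.2) (fun p => H.map (SS.pr W p.1) (g p.1 p.2)))
    ?_ ?_ ?_ A
  · intro α β e ih W hW L d g h
    have h1 := ih (fun a => W (e a)) (fun a => hW _)
      (fun a => L (e a)) (fun a => d (e a)) (fun a => g (e a)) (fun a => h _)
    let φ : SS.Hom (SS.pi W) (SS.pi fun a => W (e a)) := ⟨fun _ x a => x (e a), fun _ _ => rfl⟩
    let ψ : SS.Hom (SS.pi fun a => W (e a)) (SS.pi W) :=
      ⟨fun n => Equiv.piCongrLeft (fun b => (W b).X n) e, fun f x => by
        funext b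
        obtain ⟨a, rfl⟩ := e.surjective b
        rw [Equiv.piCongrLeft_apply_apply]
        show _ = (W (e a)).map f ((Equiv.piCongrLeft (fun b => (W b).X _) e) x (e a))
        rw [Equiv.piCongrLeft_apply_apply]⟩
    have h2 := sfb_iso φ ψ (fun n x => by
      funext b
      obtain ⟨a, rfl⟩ := e.surjective b
      exact Equiv.piCongrLeft_apply_apply (fun b => (W b).X n) e _ a) (fun n y => by
      funext a
      exact Equiv.piCongrLeft_apply_apply (fun b => (W b).X n) e _ a) h1
    let σ : (Σ b, L b) ≃ (Σ a, L (e a)) := (Equiv.sigmaCongrLeft (β := L) e).symm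
    refine sfb_congr h2 σ _ _ ?_ ?_
    · intro l
      obtain ⟨l', rfl⟩ := σ.symm.surjective l
      rw [Equiv.apply_symm_apply]
      rfl
    · intro l
      obtain ⟨l', rfl⟩ := σ.symm.surjective l
      rw [Equiv.apply_symm_apply, ← H.map_comp]
      rfl
  · intro W hW L d g h
    exact sfb_point (fun n => ⟨fun x y => by funext a; exact a.elim⟩) (fun n => ⟨fun a => a.elim⟩)
      _ _
  · intro α _ ih W hW L d g h
    have h1 := ih (fun a => W (some a)) (fun a => hW _)
      (fun a => L (some a)) (fun a => d (some a)) (fun a => g (some a)) (fun a => h _)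
    have hl : (SS.pi fun a => W (some a)).LF := by
      intro n
      have := fun a => hW (some a) n
      show Finite (∀ a, (W (some a)).X n)
      exact Pi.finite
    have h2 := sfb_prod hK (hW none) hl (h none) h1
    let φ : SS.Hom (SS.pi W) ((W none).prod (SS.pi fun a => W (some a))) :=
      ⟨fun _ x => (x none, fun a => x (some a)), fun _ _ => rfl⟩
    let ψ : SS.Hom ((W none).prod (SS.pi fun a => W (some a))) (SS.pi W) :=
      ⟨fun n y o => Option.rec y.1 y.2 o, fun f y => by
        funext o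
        cases o <;> rfl⟩
    have h3 := sfb_iso φ ψ (fun n x => by
      funext o
      cases o <;> rfl) (fun n y => rfl) h2
    let σ : (Σ o, L o) ≃ L none ⊕ (Σ a, L (some a)) :=
      { toFun := fun p => match p with
          | ⟨none, l⟩ => Sum.inl l
          | ⟨some a, l⟩ => Sum.inr ⟨a, l⟩
        invFun := fun q => match q with
          | Sum.inl l => ⟨none, l⟩
          | Sum.inr ⟨a, l⟩ => ⟨some a, l⟩
        left_inv := fun p => by
          obtain ⟨o, l⟩ := p
          cases o <;> rfl
        right_inv := fun q => by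
          rcases q with l | ⟨a, l⟩ <;> rfl }
    refine sfb_congr h3 σ _ _ ?_ ?_
    · rintro ⟨o, l⟩
      cases o <;> rfl
    · rintro ⟨o, l⟩
      cases o with
      | none =>
        show _ = H.map φ (H.map (SS.fst _ _) (g none l))
        rw [← H.map_comp]
        rfl
      | some a =>
        show _ = H.map φ (H.map (SS.snd _ _) (H.map (SS.pr (fun a => W (some a)) a) (g (some a) l)))
        rw [← H.map_comp, ← H.map_comp]
        rfl

end Pool.Agent.SHS


end

section

/-!
Block III-S: cohomology of locally finite products of Eilenberg-MacLane objects (GENP) and of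
simplicial vector spaces with finite levels (GENV).
-/

namespace Pool.Agent.SHS

open Coch

namespace Gen

section
variable {A : Type} (W : A → SV) (r : A → ℕ)

/-- restriction to the factors with `r ≤ q` -/
def res (q : ℕ) : SS.Hom (SV.pi W).toSS (SS.pi fun a : {a // r a ≤ q} => (W a.1).toSS) :=
  ⟨fun _ x a => x a.1, fun _ _ => rfl⟩

/-- extension by zero -/
def ext0 (q : ℕ) : SS.Hom (SS.pi fun a : {a // r a ≤ q} => (W a.1).toSS) (SV.pi W).toSS :=
  ⟨fun n y a => if h : r a ≤ q then y ⟨a, h⟩ else 0, fun {m n} f y => by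
    funext a
    show (if h : r a ≤ q then (W a).map f (y ⟨a, h⟩) else 0) =
      (W a).map f (if h : r a ≤ q then y ⟨a, h⟩ else 0)
    split_ifs with h
    · rfl
    · rw [map_zero]⟩

theorem map_res_ext {q n : ℕ} (hpt : ∀ a, q < r a → ∀ x : (W a).X n, x = 0)
    (a : H (SV.pi W).toSS) (ha : a ∈ Hn (SV.pi W).toSS n) :
    H.map (res W r q) (H.map (ext0 W r q) a) = a := by
  obtain ⟨f, hf, rfl⟩ := mem_Hn.mp ha
  rw [← H.map_comp, H.map_cls]
  congr 1
  apply Subtype.ext
  ext m x
  show f.1 m (((ext0 W r q).comp (res W r q)).f m x) = f.1 m x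
  by_cases h : m = n
  · subst h
    congr 1
    funext a
    show (if h : r a ≤ q then x a else 0) = x a
    split_ifs with h
    · rfl
    · exact (hpt a (by omega) _).symm
  · rw [hf m h, hf m h]

/-- inclusion of the letters -/
def io (L : A → Type) (q : ℕ) (p : Σ a : {a // r a ≤ q}, L a.1) : Σ a, L a := ⟨p.1.1, p.2⟩

theorem io_inj (L : A → Type) (q : ℕ) : Function.Injective (io r L q) := by
  rintro ⟨⟨a, ha⟩, l⟩ ⟨⟨b, hb⟩, l'⟩ h
  unfold io at h
  simp only [Sigma.mk.injEq] at h
  obtain ⟨h1, h2⟩ := h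
  subst h1
  simp only [heq_eq_eq] at h2
  subst h2
  rfl

theorem ext0_pr (L : A → Type) (g : ∀ a, L a → H (W a).toSS) (q : ℕ)
    (p : Σ a : {a // r a ≤ q}, L a.1) :
    H.map (ext0 W r q) (H.map (SV.Hom.pr W (io r L q p).1).toSS (g (io r L q p).1 (io r L q p).2))
      = H.map (SS.pr (fun a : {a // r a ≤ q} => (W a.1).toSS) p.1) (g p.1.1 p.2) := by
  rw [← H.map_comp]
  have h : ((SV.Hom.pr W (io r L q p).1).toSS).comp (ext0 W r q)
      = SS.pr (fun a : {a // r a ≤ q} => (W a.1).toSS) p.1 := by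
    apply SS.Hom.ext'
    intro n y
    exact dif_pos p.1.2
  rw [h]
  rfl

theorem res_pr (L : A → Type) (g : ∀ a, L a → H (W a).toSS) (q : ℕ)
    (p : Σ a : {a // r a ≤ q}, L a.1) :
    H.map (res W r q) (H.map (SS.pr (fun a : {a // r a ≤ q} => (W a.1).toSS) p.1) (g p.1.1 p.2))
      = H.map (SV.Hom.pr W (io r L q p).1).toSS (g (io r L q p).1 (io r L q p).2) := by
  rw [← H.map_comp]
  rfl

end

theorem inf (hF : FPR_Stmt) {A : Type} (W : A → SV) (r : A → ℕ) (hW : ∀ a, (W a).LF)
    (hfin : ∀ q, Finite {a // r a ≤ q}) (hpt : ∀ a n, n < r a → ∀ x : (W a).X n, x = 0)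
    (L : A → Type) (d : ∀ a, L a → ℕ) (g : ∀ a, L a → H (W a).toSS)
    (h : ∀ a, SFB (W a).toSS (d a) (g a)) :
    SFB (SV.pi W).toSS (fun p : (Σ a, L a) => d p.1 p.2)
      (fun p => H.map (SV.Hom.pr W p.1).toSS (g p.1 p.2)) := by
  classical
  have hq : ∀ q, SFB (SS.pi fun a : {a // r a ≤ q} => (W a.1).toSS)
      (fun p : (Σ a : {a // r a ≤ q}, L a.1) => d p.1.1 p.2)
      (fun p => H.map (SS.pr (fun a : {a // r a ≤ q} => (W a.1).toSS) p.1) (g p.1.1 p.2)) :=
    fun q => hF _ (hfin q) (fun a => (W a.1).toSS) (fun a => hW _) (fun a => L a.1)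
      (fun a => d a.1) (fun a => g a.1) (fun a => h _)
  refine ⟨?_, ?_, ?_⟩
  · intro S
    apply Hn_prod
    intro p _
    apply H.map_mem
    have h1 := (h p.1).mem {p.2}
    rw [Finset.prod_singleton, Finset.sum_singleton] at h1
    exact h1
  · rw [linearIndependent_iff_finset_linearIndependent]
    intro s
    let q : ℕ := s.sup (fun S => S.sup (fun p => r p.1))
    have hle : ∀ S ∈ s, ∀ p ∈ S, r p.1 ≤ q := by
      intro S hS p hp
      exact le_trans (Finset.le_sup (f := fun p : (Σ a, L a) => r p.1) hp)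
        (Finset.le_sup (f := fun S : Finset (Σ a, L a) => S.sup (fun p => r p.1)) hS)
    let pull : s → Finset (Σ a : {a // r a ≤ q}, L a.1) :=
      fun S => S.1.preimage (io r L q) ((io_inj r L q).injOn)
    have hmem : ∀ (S : s) (p : Σ a, L a) (hp : r p.1 ≤ q),
        p ∈ S.1 ↔ (⟨⟨p.1, hp⟩, p.2⟩ : Σ a : {a // r a ≤ q}, L a.1) ∈ pull S := by
      intro S p hp
      show _ ↔ _ ∈ S.1.preimage (io r L q) ((io_inj r L q).injOn)
      rw [Finset.mem_preimage]
      rfl
    have hinj : Function.Injective pull := by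
      intro S S' hSS
      apply Subtype.ext
      apply Finset.ext
      intro p
      constructor
      · intro hp
        have h1 := hle S.1 S.2 p hp
        rw [hmem S' p h1, ← hSS, ← hmem S p h1]
        exact hp
      · intro hp
        have h1 := hle S'.1 S'.2 p hp
        rw [hmem S p h1, hSS, ← hmem S' p h1]
        exact hp
    apply LinearIndependent.of_comp (H.map (ext0 W r q)).toLinearMap
    have h1 := (hq q).indep.comp pull hinj
    have e : (⇑(H.map (ext0 W r q)).toLinearMap ∘
        (fun S : Finset (Σ a, L a) => ∏ p ∈ S, H.map (SV.Hom.pr W p.1).toSS (g p.1 p.2)) ∘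
          (Subtype.val : s → Finset (Σ a, L a))) =
        (fun S : Finset (Σ a : {a // r a ≤ q}, L a.1) => ∏ p ∈ S,
          H.map (SS.pr (fun a : {a // r a ≤ q} => (W a.1).toSS) p.1) (g p.1.1 p.2)) ∘ pull := by
      funext S
      show H.map (ext0 W r q) (∏ p ∈ S.1, H.map (SV.Hom.pr W p.1).toSS (g p.1 p.2)) =
        ∏ p ∈ pull S, H.map (SS.pr (fun a : {a // r a ≤ q} => (W a.1).toSS) p.1) (g p.1.1 p.2)
      rw [map_prod]
      rw [← Finset.prod_preimage (io r L q) S.1 ((io_inj r L q).injOn)]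
      · exact Finset.prod_congr rfl fun p _ => ext0_pr W r L g q p
      · intro p hp hn
        exact absurd ⟨⟨⟨p.1, hle S.1 S.2 p hp⟩, p.2⟩, rfl⟩ hn
    have e' : (⇑(H.map (ext0 W r q)).toLinearMap ∘
        ((fun S : Finset (Σ a, L a) => ∏ p ∈ S, H.map (SV.Hom.pr W p.1).toSS (g p.1 p.2)) ∘
          (Subtype.val : s → Finset (Σ a, L a)))) =
        (fun S : Finset (Σ a : {a // r a ≤ q}, L a.1) => ∏ p ∈ S,
          H.map (SS.pr (fun a : {a // r a ≤ q} => (W a.1).toSS) p.1) (g p.1.1 p.2)) ∘ pull := e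
    exact e' ▸ h1
  · intro n a ha
    have h1 := (hq n).span n (H.map_mem (ext0 W r n) ha)
    have h2 := Submodule.mem_map_of_mem (f := (H.map (res W r n)).toLinearMap) h1
    have h3 : (H.map (res W r n)).toLinearMap (H.map (ext0 W r n) a) = a :=
      map_res_ext W r (fun b hb x => hpt b n hb x) a ha
    rw [h3, Submodule.map_span] at h2
    refine Submodule.span_mono ?_ h2
    rintro _ ⟨_, ⟨S, hS, rfl⟩, rfl⟩
    refine ⟨S.map ⟨io r L n, io_inj r L n⟩, ?_, ?_⟩
    · show ∑ p ∈ S.map ⟨io r L n, io_inj r L n⟩, d p.1 p.2 = n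
      rw [Finset.sum_map]
      exact hS
    · show ∏ p ∈ S.map ⟨io r L n, io_inj r L n⟩, H.map (SV.Hom.pr W p.1).toSS (g p.1 p.2) =
        H.map (res W r n) (∏ p ∈ S,
          H.map (SS.pr (fun a : {a // r a ≤ n} => (W a.1).toSS) p.1) (g p.1.1 p.2))
      rw [Finset.prod_map, map_prod]
      exact Finset.prod_congr rfl fun p _ => (res_pr W r L g n p).symm

end Gen

open Pool.Agent.SHS.Gen Pool.Agent.SHS.Fpr in
theorem GENP (hF : FPR_Stmt) (hSC : SC_Stmt) : GENP_Stmt := by
  intro I hI h0 μ hμ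
  have hpos : ∀ p : (Σ j, I j), 1 ≤ p.1 := by
    rintro ⟨j, i⟩
    rcases Nat.eq_zero_or_pos j with h | h
    · subst h
      exact (h0.false i).elim
    · exact h
  have h1 := inf hF (fun p : (Σ j, I j) => EM p.1) (fun p => p.1) (fun p => EMF p.1)
    (fun q => by
      have h2 : Finite (Σ j : Fin (q + 1), I j.1) := by
        have := fun j : Fin (q + 1) => hI j.1
        infer_instance
      refine Finite.of_injective
        (fun a : {a : (Σ j, I j) // a.1 ≤ q} =>
          (⟨⟨a.1.1, Nat.lt_succ_of_le a.2⟩, a.1.2⟩ : Σ j : Fin (q + 1), I j.1)) ?_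
      rintro ⟨⟨j, i⟩, hj⟩ ⟨⟨j', i'⟩, hj'⟩ h
      simp only [Sigma.mk.injEq, Fin.mk.injEq] at h
      obtain ⟨h3, h4⟩ := h
      subst h3
      simp only [heq_eq_eq] at h4
      subst h4
      rfl)
    (fun p n hn x => by
      apply Subtype.ext
      funext s
      refine x.2.1 s ?_
      intro hs
      have h3 := Fintype.card_le_of_injective s hs
      rw [Fintype.card_fin, Fintype.card_fin] at h3
      omega)
    (fun p => {J : Multiset ℕ // Multiset.card J = p.1}) (fun p J => wgt J.1)
    (fun p J => μ p.1 J.1) (fun p => hSC p.1 (hpos p) (μ p.1) (hμ p.1 (hpos p)))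
  exact sfb_congr h1 (⟨fun x => ⟨⟨x.1, x.2.1⟩, x.2.2⟩, fun y => ⟨y.1.1, y.1.2, y.2⟩,
    fun _ => rfl, fun _ => rfl⟩ : (Σ j, I j × {J : Multiset ℕ // Multiset.card J = j}) ≃
      (Σ p : (Σ j, I j), {J : Multiset ℕ // Multiset.card J = p.1})) _ _
    (fun _ => rfl) (fun _ => rfl)

theorem GENV (hP : GENP_Stmt) (hS : SPLIT_Stmt) (hH : HTY_Stmt) : GENV_Stmt := by
  intro V hV hV0 I x hx μ hμ
  have h0 : IsEmpty (I 0) := by
    constructor
    intro i
    obtain ⟨v, _, hv⟩ := hx.surj 0 (fun _ => 1)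
    have h1 := hv i
    rw [hV0 v, map_zero] at h1
    exact zero_ne_one h1
  obtain ⟨Γ, hΓ, ⟨hh⟩⟩ := hS V hV x hx
  have h1 := hP I hx.fin h0 μ hμ
  have h2 := h1.transport (Lam x).toSS Γ.toSS (by
    intro a
    rw [← H.map_comp]
    have : (Lam x).toSS.comp Γ.toSS = SS.Hom.id (EMpi I).toSS := by
      apply SS.Hom.ext'
      intro n w
      exact hΓ n w
    rw [this, H.map_id]) (by
    intro a
    rw [← H.map_comp]
    rw [← hH V.toSS V.toSS (SS.Hom.id V.toSS) (Γ.toSS.comp (Lam x).toSS)
      ⟨⟨fun n t v => hh.h n t v, fun f t v => hh.nat f t v, fun n v => hh.zero n v,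
        fun n v => hh.one n v⟩⟩ a, H.map_id])
  have e : (fun S : Finset (Σ j, I j × {J : Multiset ℕ // Multiset.card J = j}) =>
      ∏ p ∈ S, H.map (x p.1 p.2.1).toSS (μ p.1 p.2.2.1)) = fun S =>
      H.map (Lam x).toSS (∏ p ∈ S,
      H.map (SV.Hom.pr (fun p : (Σ j, I j) => EM p.1) ⟨p.1, p.2.1⟩).toSS (μ p.1 p.2.2.1)) := by
    funext S
    rw [map_prod]
    refine Finset.prod_congr rfl fun p _ => ?_
    rw [← H.map_comp]
    rfl
  rw [e]
  exact h2

end Pool.Agent.SHS


end

section

/-!
# Block III-S, SHIFT: shifts of multisets of exponents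
-/

set_option autoImplicit false

namespace Pool.Agent.SHS

namespace Shift

theorem mem_map_add {J : Multiset ℕ} {r x : ℕ} : x ∈ J.map (· + r) ↔ ∃ a ∈ J, a + r = x :=
  Multiset.mem_map

theorem le_of_mem {J : Multiset ℕ} {r x : ℕ} (h : x ∈ J.map (· + r)) : r ≤ x := by
  obtain ⟨a, _, rfl⟩ := mem_map_add.1 h
  exact Nat.le_add_left r a

theorem base_mem {J : Multiset ℕ} {r : ℕ} (h : 0 ∈ J) : r ∈ J.map (· + r) :=
  mem_map_add.2 ⟨0, h, Nat.zero_add r⟩

theorem inj {j : ℕ} : Function.Injective (shJ (j := j)) := by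
  rintro ⟨⟨J, hJ⟩, r⟩ ⟨⟨J', hJ'⟩, r'⟩ h
  have h1 : J.map (· + r) = J'.map (· + r') := congrArg Subtype.val h
  have hr : r = r' := by
    apply le_antisymm
    · apply le_of_mem (J := J)
      rw [h1]
      exact base_mem hJ'.2
    · apply le_of_mem (J := J')
      rw [← h1]
      exact base_mem hJ.2
  subst hr
  have hJJ : J = J' := Multiset.map_injective (add_left_injective r) h1
  subst hJJ
  rfl

theorem surj {j : ℕ} (hj : 1 ≤ j) : Function.Surjective (shJ (j := j)) := by
  rintro ⟨K, hK⟩
  have hne : ∃ x, x ∈ K := by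
    by_contra hcon
    push Not at hcon
    have : K = 0 := Multiset.eq_zero_of_forall_notMem hcon
    rw [this, Multiset.card_zero] at hK
    omega
  classical
  have hmin := Nat.find_spec hne
  have hle : ∀ x ∈ K, Nat.find hne ≤ x := fun x hx => Nat.find_min' hne hx
  generalize Nat.find hne = r at hmin hle
  refine ⟨⟨⟨K.map (· - r), ?_, ?_⟩, r⟩, ?_⟩
  · rw [Multiset.card_map]; exact hK
  · exact Multiset.mem_map.2 ⟨r, hmin, Nat.sub_self r⟩
  · apply Subtype.ext
    show (K.map (· - r)).map (· + r) = K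
    rw [Multiset.map_map]
    have : K.map ((· + r) ∘ (· - r)) = K.map id := by
      apply Multiset.map_congr rfl
      intro x hx
      exact Nat.sub_add_cancel (hle x hx)
    rw [this, Multiset.map_id]

end Shift

theorem SHIFT : SHIFT_Stmt := by
  refine ⟨fun j hj => ⟨Shift.inj, Shift.surj hj⟩, ?_⟩
  intro J r
  unfold wgt
  rw [Multiset.map_map, ← Multiset.sum_map_mul_left]
  congr 1
  apply Multiset.map_congr rfl
  intro x _
  simp only [Function.comp, pow_add, mul_comm]

end Pool.Agent.SHS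


end

section

/-!
Block III-S: the cohomology of a simplicial vector space is a polynomial algebra.
-/

namespace Pool.Agent.SHS

namespace POLYm

theorem mu_shift {n : ℕ} {μ : Multiset ℕ → H (EM n).toSS} (h : MuFam n μ) (J : Multiset ℕ)
    (hJ : Multiset.card J = n) (r : ℕ) : μ (J.map (· + r)) = μ J ^ (2 ^ r) := by
  induction r with
  | zero => simp
  | succ r ih =>
    have h1 : J.map (· + (r + 1)) = (J.map (· + r)).map (· + 1) := by
      rw [Multiset.map_map]
      rfl
    rw [h1, h.sq _ (by rw [Multiset.card_map]; exact hJ), ih, ← pow_mul, pow_succ]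

theorem card_le_wgt (J : Multiset ℕ) : Multiset.card J ≤ wgt J := by
  induction J using Multiset.induction_on with
  | empty => simp [wgt]
  | cons a J ih =>
    have h1 : wgt (a ::ₘ J) = 2 ^ a + wgt J := by simp [wgt]
    have h2 : 0 < 2 ^ a := by positivity
    rw [h1, Multiset.card_cons]
    omega

/-- Letters. -/
abbrev Let (I : ℕ → Type) : Type := Σ j, I j × {J : Multiset ℕ // Multiset.card J = j}

/-- Generators. -/
abbrev Gen (I : ℕ → Type) : Type := Σ j, I j × {J : Multiset ℕ // Multiset.card J = j ∧ 0 ∈ J}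

/-- The letter of a generator and a power of the Frobenius. -/
def kap {I : ℕ → Type} (q : Gen I × ℕ) : Let I := ⟨q.1.1, q.1.2.1, shJ (q.1.2.2, q.2)⟩

theorem kap_bij {I : ℕ → Type} (h0 : IsEmpty (I 0)) (hS : SHIFT_Stmt) :
    Function.Bijective (kap (I := I)) := by
  have hpos : ∀ j, I j → 1 ≤ j := by
    intro j i
    rcases Nat.eq_zero_or_pos j with h | h
    · subst h
      exact h0.elim i
    · exact h
  constructor
  · rintro ⟨⟨j, i, J⟩, r⟩ ⟨⟨j', i', J'⟩, r'⟩ h
    obtain rfl : j = j' := congrArg Sigma.fst h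
    have h2 : (i, shJ (J, r)) = (i', shJ (J', r')) := eq_of_heq (Sigma.mk.inj h).2
    have h3 : i = i' := congrArg Prod.fst h2
    have h4 : shJ (J, r) = shJ (J', r') := congrArg Prod.snd h2
    have h5 := (hS.1 j (hpos j i)).1 h4
    have h6 : J = J' := congrArg Prod.fst h5
    have h7 : r = r' := congrArg Prod.snd h5
    subst h3 h6 h7
    rfl
  · rintro ⟨j, i, J⟩
    obtain ⟨⟨J', r⟩, h⟩ := (hS.1 j (hpos j i)).2 J
    refine ⟨(⟨j, i, J'⟩, r), ?_⟩
    show (⟨j, i, shJ (J', r)⟩ : Let I) = ⟨j, i, J⟩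
    rw [h]

/-- A linear map which is independent on a basis is injective. -/
theorem inj_of_indep {M N ι : Type} [AddCommGroup M] [Module k M] [AddCommGroup N] [Module k N]
    (B : Module.Basis ι k M) (L : M →ₗ[k] N) (h : LinearIndependent k (fun i => L (B i))) :
    Function.Injective L := by
  have h1 : ∀ x, L x = Finsupp.linearCombination k (fun i => L (B i)) (B.repr x) := by
    intro x
    conv_lhs => rw [← B.linearCombination_repr x]
    exact Finsupp.apply_linearCombination k L B (B.repr x)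
  intro x y hxy
  rw [h1, h1] at hxy
  exact B.repr.injective (h hxy)

/-- From a homogeneous basis of monomials to a polynomial algebra. -/
theorem polyGen_of {X : SS} {σ : Type} (w : σ → ℕ) (g : σ → H X) (hpos : ∀ s, 0 < w s)
    (hfin : ∀ n, {s | w s ≤ n}.Finite)
    (hb : HB X (fun f : σ →₀ ℕ => f.sum fun s m => m * w s)
      (fun f => f.prod fun s m => g s ^ m)) : PolyGen X w g := by
  have hmon : ∀ f : σ →₀ ℕ, MvPolynomial.aeval (R := k) g (MvPolynomial.monomial f (1 : k)) =
      f.prod fun s m => g s ^ m := by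
    intro f
    rw [MvPolynomial.aeval_monomial, map_one, one_mul]
  have hwt : ∀ f : σ →₀ ℕ, Finsupp.weight w f = f.sum fun s m => m * w s := by
    intro f
    rw [Finsupp.weight_apply]
    rfl
  refine ⟨hpos, hfin, ?_, ?_⟩
  · have h1 := inj_of_indep (MvPolynomial.basisMonomials σ k)
      (MvPolynomial.aeval (R := k) g).toLinearMap (by
        have h2 : (fun f : σ →₀ ℕ => (MvPolynomial.aeval (R := k) g).toLinearMap
            (MvPolynomial.basisMonomials σ k f)) = fun f => f.prod fun s m => g s ^ m := by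
          funext f
          rw [MvPolynomial.coe_basisMonomials]
          exact hmon f
        rw [h2]
        exact hb.indep)
    exact h1
  · intro n
    apply le_antisymm
    · refine (hb.span n).trans (Submodule.span_le.2 ?_)
      rintro _ ⟨f, hf, rfl⟩
      refine ⟨MvPolynomial.monomial f (1 : k), ?_, hmon f⟩
      exact MvPolynomial.isWeightedHomogeneous_monomial w f 1 ((hwt f).trans hf)
    · rintro _ ⟨p, hp, rfl⟩
      have h1 : MvPolynomial.IsWeightedHomogeneous w p n := hp
      show MvPolynomial.aeval (R := k) g p ∈ Hn X n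
      rw [MvPolynomial.as_sum p, map_sum]
      refine Submodule.sum_mem _ fun f hf => ?_
      have h2 : Finsupp.weight w f = n := h1 (MvPolynomial.mem_support_iff.1 hf)
      have h3 : MvPolynomial.monomial f (MvPolynomial.coeff f p) =
          MvPolynomial.coeff f p • MvPolynomial.monomial f (1 : k) := by
        rw [MvPolynomial.smul_monomial, smul_eq_mul, mul_one]
      rw [h3, map_smul, hmon]
      apply Submodule.smul_mem
      rw [← h2, hwt]
      exact hb.mem f

end POLYm

open POLYm in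
theorem POLY (hG : GENV_Stmt) (hW : WF_Stmt) (hB : BIN_Stmt) (hS : SHIFT_Stmt) : POLY_Stmt := by
  intro V hV h0 I x hx μ hμ
  have hI0 : IsEmpty (I 0) := by
    refine ⟨fun i => ?_⟩
    obtain ⟨v, -, h⟩ := hx.surj 0 (fun _ => 1)
    have h1 := h i
    rw [h0 v, map_zero] at h1
    exact zero_ne_one h1
  have hpos : ∀ j, I j → 1 ≤ j := by
    intro j i
    rcases Nat.eq_zero_or_pos j with h | h
    · subst h
      exact hI0.elim i
    · exact h
  have hbij := kap_bij hI0 hS
  obtain ⟨κ, hκ⟩ : ∃ κ : Gen I × ℕ ≃ Let I, ∀ q, κ q = kap q :=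
    ⟨Equiv.ofBijective kap hbij, fun _ => rfl⟩
  obtain ⟨e, he1, he2⟩ := hB (Gen I)
  have hb := hG V hV h0 x hx μ hμ
  have hb2 := Pow.reindex hb (e.symm.trans (Equiv.finsetCongr κ))
  refine polyGen_of _ _ ?_ ?_ ?_
  · intro s
    have h1 := card_le_wgt s.2.2.1
    have h2 : 0 < Multiset.card s.2.2.1 := Multiset.card_pos_iff_exists_mem.2 ⟨0, s.2.2.2.2⟩
    omega
  · intro n
    have h1 : ∀ j, (((fun p : I j × {J : Multiset ℕ // Multiset.card J = j ∧ 0 ∈ J} =>
        (⟨j, p⟩ : Gen I)) '' (Set.univ ×ˢ {J | wgt J.1 ≤ n})).Finite) := by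
      intro j
      have := hx.fin j
      refine Set.Finite.image _ (Set.Finite.prod Set.finite_univ ?_)
      have h2 := hW j n
      refine Set.Finite.preimage (f := fun J : {J : Multiset ℕ // Multiset.card J = j ∧ 0 ∈ J} =>
        (⟨J.1, J.2.1⟩ : {J : Multiset ℕ // Multiset.card J = j})) ?_ h2
      intro a _ b _ hab
      have h3 := congrArg (fun J : {J : Multiset ℕ // Multiset.card J = j} => J.1) hab
      exact Subtype.ext h3
    refine Set.Finite.subset (Set.Finite.biUnion (Finset.range (n + 1)).finite_toSet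
      fun j _ => h1 j) ?_
    rintro ⟨j, i, J⟩ hs
    have hs' : wgt J.1 ≤ n := hs
    have h2 := card_le_wgt J.1
    rw [J.2.1] at h2
    rw [Set.mem_iUnion₂]
    refine ⟨j, ?_, (i, J), ⟨Set.mem_univ _, hs'⟩, rfl⟩
    rw [Finset.mem_coe, Finset.mem_range]
    omega
  · have hd : (fun f : Gen I →₀ ℕ => ∑ p ∈ (e.symm.trans (Equiv.finsetCongr κ)) f,
        wgt p.2.2.1) = fun f => f.sum fun s m => m * wgt s.2.2.1 := by
      funext f
      have h1 : (e.symm.trans (Equiv.finsetCongr κ)) f = (e.symm f).map κ.toEmbedding := rfl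
      rw [h1, Finset.sum_map]
      have h2 := he2 (fun s : Gen I => wgt s.2.2.1) (e.symm f)
      rw [e.apply_symm_apply] at h2
      rw [← h2]
      refine Finset.sum_congr rfl fun q _ => ?_
      rw [Equiv.coe_toEmbedding, hκ]
      exact hS.2 _ _
    have hp : (fun f : Gen I →₀ ℕ => ∏ p ∈ (e.symm.trans (Equiv.finsetCongr κ)) f,
        H.map (x p.1 p.2.1).toSS (μ p.1 p.2.2.1)) = fun f => f.prod fun s m =>
          (H.map (x s.1 s.2.1).toSS (μ s.1 s.2.2.1)) ^ m := by
      funext f
      have h1 : (e.symm.trans (Equiv.finsetCongr κ)) f = (e.symm f).map κ.toEmbedding := rfl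
      rw [h1, Finset.prod_map]
      have h2 := he1 (H V.toSS) (fun s : Gen I => H.map (x s.1 s.2.1).toSS (μ s.1 s.2.2.1))
        (e.symm f)
      rw [e.apply_symm_apply] at h2
      rw [← h2]
      refine Finset.prod_congr rfl fun q _ => ?_
      rw [Equiv.coe_toEmbedding, hκ]
      show H.map (x q.1.1 q.1.2.1).toSS (μ q.1.1 (q.1.2.2.1.map (· + q.2))) = _
      rw [mu_shift (hμ q.1.1 (hpos _ q.1.2.1)) _ q.1.2.2.2.1, map_pow]
    rw [hd, hp] at hb2
    exact hb2

end Pool.Agent.SHS


end

section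

/-!
LINK between block III-S / III-Q and the algebra of block III-U of MP_2d0b73_an:
mapping spaces into simplicial vector spaces, Moore cycles and boundaries, linear classes,
final statement.
-/

namespace Pool.Agent.SHL

open Pool.Agent.SHS

/-! ### Simplicial maps into a simplicial vector space -/

/-- The vector space of simplicial maps from `X` into the simplicial vector space `V`. -/
def HV (X : SS) (V : SV) : Submodule k (∀ n, X.X n → V.X n) where
  carrier := {f | ∀ (m n : ℕ) (a : Mor m n) (x : X.X n), f m (X.map a x) = V.map a (f n x)}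
  zero_mem' := fun m n a x => (map_zero (V.map a)).symm
  add_mem' := by
    intro f g hf hg m n a x
    show f m (X.map a x) + g m (X.map a x) = V.map a (f n x + g n x)
    rw [hf, hg, map_add]
  smul_mem' := by
    intro c f hf m n a x
    show c • f m (X.map a x) = V.map a (c • f n x)
    rw [hf, map_smul]

namespace HV

variable {X Y Z : SS} {V W U : SV}

theorem ext {f g : HV X V} (h : ∀ n x, f.1 n x = g.1 n x) : f = g := by
  apply Subtype.ext
  funext n x
  exact h n x

theorem nat (f : HV X V) {m n : ℕ} (a : Mor m n) (x : X.X n) :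
    f.1 m (X.map a x) = V.map a (f.1 n x) := f.2 m n a x

/-- the underlying simplicial map -/
def hom (f : HV X V) : SS.Hom X V.toSS := ⟨f.1, fun a x => f.2 _ _ a x⟩

/-- from simplicial maps -/
def of (f : SS.Hom X V.toSS) : HV X V := ⟨f.f, fun _ _ a x => f.nat a x⟩

theorem add_apply (f g : HV X V) (n : ℕ) (x : X.X n) : (f + g).1 n x = f.1 n x + g.1 n x := rfl
theorem zero_apply (n : ℕ) (x : X.X n) : (0 : HV X V).1 n x = 0 := rfl
theorem smul_apply (c : k) (f : HV X V) (n : ℕ) (x : X.X n) : (c • f).1 n x = c • f.1 n x := rfl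

theorem sum_apply {ι : Type*} (s : Finset ι) (f : ι → HV X V) (n : ℕ) (x : X.X n) :
    (∑ i ∈ s, f i).1 n x = ∑ i ∈ s, (f i).1 n x := by
  classical
  induction s using Finset.induction_on with
  | empty => rfl
  | insert a s ha ih => rw [Finset.sum_insert ha, Finset.sum_insert ha, add_apply, ih]

/-- precomposition with a simplicial map -/
def pre (φ : SS.Hom X Y) : HV Y V →ₗ[k] HV X V where
  toFun f := ⟨fun n x => f.1 n (φ.f n x), fun m n a x => by
    show f.1 m (φ.f m (X.map a x)) = V.map a (f.1 n (φ.f n x))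
    rw [φ.nat, nat]⟩
  map_add' _ _ := rfl
  map_smul' _ _ := rfl

theorem pre_apply (φ : SS.Hom X Y) (f : HV Y V) (n : ℕ) (x : X.X n) :
    (pre φ f).1 n x = f.1 n (φ.f n x) := rfl

/-- postcomposition with a linear simplicial map -/
def post (L : SV.Hom V W) : HV X V →ₗ[k] HV X W where
  toFun f := ⟨fun n x => L.f n (f.1 n x), fun m n a x => by
    show L.f m (f.1 m (X.map a x)) = W.map a (L.f n (f.1 n x))
    rw [nat, L.nat]⟩
  map_add' f g := by
    apply ext
    intro n x
    exact map_add (L.f n) _ _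
  map_smul' c f := by
    apply ext
    intro n x
    exact map_smul (L.f n) _ _

theorem post_apply (L : SV.Hom V W) (f : HV X V) (n : ℕ) (x : X.X n) :
    (post L f).1 n x = L.f n (f.1 n x) := rfl

/-- postcomposition with an arbitrary simplicial map -/
def app (g : SS.Hom V.toSS W.toSS) (f : HV X V) : HV X W :=
  ⟨fun n x => g.f n (f.1 n x), fun m n a x => by
    show g.f m (f.1 m (X.map a x)) = W.map a (g.f n (f.1 n x))
    rw [nat]
    exact g.nat a _⟩

theorem app_apply (g : SS.Hom V.toSS W.toSS) (f : HV X V) (n : ℕ) (x : X.X n) :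
    (app g f).1 n x = g.f n (f.1 n x) := rfl

end HV

/-! ### Mapping spaces -/

/-- `Δ^a × id`. -/
def dmap {m n : ℕ} (a : Mor m n) (Y : SS) :
    SS.Hom ((SS.simplex m).prod Y) ((SS.simplex n).prod Y) where
  f _ x := (a.comp x.1, x.2)
  nat _ _ := rfl

/-- The simplicial vector space `Map(Y,V)`: an `r`-simplex is a simplicial map `Δ^r × Y → V`. -/
abbrev MapS (Y : SS) (V : SV) : SV where
  X r := HV ((SS.simplex r).prod Y) V
  map a := HV.pre (dmap a Y)
  map_id _ := rfl
  map_comp _ _ _ := rfl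

/-- Moore cycles of dimension `t`: simplices all of whose faces are zero. -/
def ZM (U : SV) (t : ℕ) : Submodule k (U.X t) where
  carrier := {z | ∀ (r : ℕ) (a : Mor r t), ¬ Function.Surjective a → U.map a z = 0}
  zero_mem' := fun _ a _ => map_zero (U.map a)
  add_mem' := by
    intro x y hx hy r a ha
    rw [map_add, hx r a ha, hy r a ha, add_zero]
  smul_mem' := by
    intro c x hx r a ha
    rw [map_smul, hx r a ha, smul_zero]

/-- Moore boundaries: the `0`-th face of a `(t+1)`-simplex whose other faces are zero. -/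
def BM (U : SV) (t : ℕ) : Submodule k (U.X t) where
  carrier := {z | ∃ w : U.X (t + 1), U.map (cof 0) w = z ∧
    ∀ i : Fin (t + 2), i ≠ 0 → U.map (cof i) w = 0}
  zero_mem' := ⟨0, map_zero _, fun _ _ => map_zero _⟩
  add_mem' := by
    rintro x y ⟨w, h1, h2⟩ ⟨w', h1', h2'⟩
    exact ⟨w + w', by rw [map_add, h1, h1'], fun i hi => by rw [map_add, h2 i hi, h2' i hi, add_zero]⟩
  smul_mem' := by
    rintro c x ⟨w, h1, h2⟩
    exact ⟨c • w, by rw [map_smul, h1], fun i hi => by rw [map_smul, h2 i hi, smul_zero]⟩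

/-! ### Linear classes -/

/-- Classes of linear cocycles of degree `j`. -/
def LC (V : SV) (j : ℕ) : Submodule k (H V.toSS) where
  carrier := {a | ∃ (l : V.X j →ₗ[k] k) (h : V.toSS.cm.delta j (fun x => l x) = 0),
    clsN j (fun x => l x) h = a}
  zero_mem' := ⟨0, map_zero _, by
    unfold clsN
    rw [cls_eq_zero]
    refine ⟨0, ?_⟩
    rw [map_zero]
    exact (single_zero j).symm⟩
  add_mem' := by
    rintro a b ⟨l, h, rfl⟩ ⟨l', h', rfl⟩
    exact ⟨l + l', by
      have := map_add (V.toSS.cm.delta j) (fun x => l x) (fun x => l' x)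
      rw [h, h', add_zero] at this
      exact this, clsN_add _ _ h h'⟩
  smul_mem' := by
    rintro c a ⟨l, h, rfl⟩
    exact ⟨c • l, by
      have := map_smul (V.toSS.cm.delta j) c (fun x => l x)
      rw [h, smul_zero] at this
      exact this, clsN_smul c _ h⟩

/-! ### Cosimplicial simplicial vector spaces with pointed non linear operators -/

/-- A cosimplicial object in simplicial sets, all of whose terms are simplicial vector spaces and
all of whose operators preserve 0 (but need not be linear). -/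
structure CSV where
  V : ℕ → SV
  op : ∀ {a b : ℕ}, Mor a b → SS.Hom (V a).toSS (V b).toSS
  op_comp : ∀ {a b c : ℕ} (f : Mor a b) (g : Mor b c) (n : ℕ) (x : (V a).X n),
    (op (g.comp f)).f n x = (op g).f n ((op f).f n x)
  op_zero : ∀ {a b : ℕ} (f : Mor a b) (n : ℕ), (op f).f n 0 = 0
  lf : ∀ s, (V s).LF
  z0 : ∀ s (x : (V s).X 0), x = 0

/-- The alternating sum of the coface operators in cohomology. -/
noncomputable def CSV.dl (C : CSV) (s : ℕ) : H (C.V (s + 1)).toSS →ₗ[k] H (C.V s).toSS :=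
  ∑ i : Fin (s + 2), (H.map (C.op (cof i))).toLinearMap

/-- Exactness of the indecomposables in degree `j`. -/
def CSV.QE (C : CSV) (j : ℕ) : Prop :=
  (∀ a ∈ Hn (C.V 0).toSS j, ∃ b ∈ Hn (C.V 1).toSS j, a + C.dl 0 b ∈ Dec (C.V 0).toSS) ∧
  ∀ s, ∀ a ∈ Hn (C.V (s + 1)).toSS j, C.dl s a ∈ Dec (C.V s).toSS →
    ∃ b ∈ Hn (C.V (s + 2)).toSS j, a + C.dl (s + 1) b ∈ Dec (C.V (s + 1)).toSS

/-- Simplices of `Map_*(BB,V)`: those vanishing at the base point of `BB` (the simplices 0). -/
def PT (V : SV) (t : ℕ) : Submodule k ((MapS BB V).X t) where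
  carrier := {f | ∀ (r : ℕ) (a : Mor r t), f.1 r (a, 0) = 0}
  zero_mem' := fun _ _ => rfl
  add_mem' := by
    intro f g hf hg r a
    rw [HV.add_apply, hf, hg, add_zero]
  smul_mem' := by
    intro c f hf r a
    rw [HV.smul_apply, hf, smul_zero]

/-- Moore boundaries of `Map_*(BB,V)`. -/
def PB (V : SV) (t : ℕ) (z : (MapS BB V).X t) : Prop :=
  ∃ w ∈ PT V (t + 1), (MapS BB V).map (cof 0) w = z ∧
    ∀ i : Fin (t + 2), i ≠ 0 → (MapS BB V).map (cof i) w = 0

/-- The sum of all cofaces of a `t`-simplex of a mapping space. -/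
noncomputable def CSV.cf (C : CSV) {X : SS} (s : ℕ) (z : HV X (C.V s)) : HV X (C.V (s + 1)) :=
  ∑ i : Fin (s + 2), HV.app (C.op (cof i)) z

/-- The final statement: exactness of the homotopy groups of the cosimplicial space
`Map_*(BB,V)`. -/
def CSV.FINAL (C : CSV) : Prop := ∀ t, 1 ≤ t →
  (∀ z : (MapS BB (C.V 0)).X t, z ∈ ZM (MapS BB (C.V 0)) t → z ∈ PT (C.V 0) t →
    PB (C.V 1) t (C.cf 0 z) → PB (C.V 0) t z) ∧
  ∀ s, ∀ z : (MapS BB (C.V (s + 1))).X t, z ∈ ZM (MapS BB (C.V (s + 1))) t →
    z ∈ PT (C.V (s + 1)) t → PB (C.V (s + 2)) t (C.cf (s + 1) z) →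
    ∃ y : (MapS BB (C.V s)).X t, y ∈ ZM (MapS BB (C.V s)) t ∧ y ∈ PT (C.V s) t ∧
      PB (C.V (s + 1)) t (z + C.cf s y)

/-- What block LINK proves. -/
def LINK_Stmt : Prop := ∀ C : CSV, (∃ N, ∀ j ≥ N, C.QE j) → C.FINAL

end Pool.Agent.SHL


end

section

/-!
LINK: spheres, the map `S^t × Y → V` defined by a Moore cycle of `Map(Y,V)`, the suspension
`mulE` and the slant product `Ph`.
-/

namespace Pool.Agent.SHL

open Pool.Agent.SHS

/-- The simplicial sphere of dimension `t`. -/
abbrev Sph (t : ℕ) : SS := (PS.sphere t).toSS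

/-- The fundamental cochain of the sphere: 1 on the non degenerate simplex. -/
def epsC (t : ℕ) : (Sph t).X t → k
  | none => 0
  | some _ => 1

open Classical in
/-- The fundamental class of the sphere (`epsC` is a cocycle, see `EPS_Stmt`). -/
noncomputable def eps (t : ℕ) : H (Sph t) :=
  if h : (Sph t).cm.delta t (epsC t) = 0 then clsN t (epsC t) h else 0

/-- The simplicial map `S^t × Y → V` defined by a Moore cycle. -/
def sphFun {Y : SS} {V : SV} {t : ℕ} (z : (MapS Y V).X t) (n : ℕ) :
    ((Sph t).prod Y).X n → V.X n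
  | (none, _) => 0
  | (some a, y) => z.1 n (a.1, y)

theorem mem_ZM_val {Y : SS} {V : SV} {t : ℕ} {z : (MapS Y V).X t} (hz : z ∈ ZM (MapS Y V) t)
    {n : ℕ} (a : Mor n t) (ha : ¬ Function.Surjective a) (y : Y.X n) : z.1 n (a, y) = 0 := by
  have h := hz n a ha
  have h2 := congrArg (fun F : HV ((SS.simplex n).prod Y) V => F.1 n (OrderHom.id, y)) h
  exact h2

theorem sphere_map_pos {t m n : ℕ} (a : Mor m n) (b : {b : Mor n t // Function.Surjective b})
    (h : Function.Surjective (b.1.comp a)) : (PS.sphere t).map a b = some ⟨b.1.comp a, h⟩ :=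
  dif_pos h

theorem sphere_map_neg {t m n : ℕ} (a : Mor m n) (b : {b : Mor n t // Function.Surjective b})
    (h : ¬ Function.Surjective (b.1.comp a)) : (PS.sphere t).map a b = none :=
  dif_neg h

theorem sphFun_nat {Y : SS} {V : SV} {t : ℕ} {z : (MapS Y V).X t} (hz : z ∈ ZM (MapS Y V) t)
    (m n : ℕ) (a : Mor m n) (x : ((Sph t).prod Y).X n) :
    sphFun z m (((Sph t).prod Y).map a x) = V.map a (sphFun z n x) := by
  obtain ⟨o, y⟩ := x
  cases o with
  | none => exact (map_zero (V.map a)).symm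
  | some b =>
    show sphFun z m ((PS.sphere t).map a b, Y.map a y) = V.map a (z.1 n (b.1, y))
    rw [← HV.nat]
    by_cases h : Function.Surjective (b.1.comp a)
    · rw [sphere_map_pos a b h]
      rfl
    · rw [sphere_map_neg a b h]
      exact (mem_ZM_val hz _ h _).symm

/-- The simplicial map `S^t × Y → V` defined by a Moore cycle, as a linear map. -/
def sph {Y : SS} {V : SV} {t : ℕ} : ZM (MapS Y V) t →ₗ[k] HV ((Sph t).prod Y) V where
  toFun z := ⟨sphFun z.1, fun m n a x => sphFun_nat z.2 m n a x⟩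
  map_add' z w := by
    apply HV.ext
    rintro n ⟨o, y⟩
    cases o with
    | none => exact (add_zero (0 : V.X n)).symm
    | some b => rfl
  map_smul' c z := by
    apply HV.ext
    rintro n ⟨o, y⟩
    cases o with
    | none => exact (smul_zero c).symm
    | some b => rfl

/-- `b ↦ eps × b`. -/
noncomputable def mulE (t : ℕ) (Y : SS) : H Y →ₗ[k] H ((Sph t).prod Y) :=
  (LinearMap.mulLeft k (H.map (SS.fst (Sph t) Y) (eps t))).comp
    (H.map (SS.snd (Sph t) Y)).toLinearMap

theorem mulE_apply (t : ℕ) (Y : SS) (b : H Y) :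
    mulE t Y b = H.map (SS.fst (Sph t) Y) (eps t) * H.map (SS.snd (Sph t) Y) b := rfl

open Classical in
/-- A left inverse of `mulE`. -/
noncomputable def mulEinv (t : ℕ) (Y : SS) : H ((Sph t).prod Y) →ₗ[k] H Y :=
  if h : Function.Injective (mulE t Y) then
    (LinearMap.exists_leftInverse_of_injective (mulE t Y) (LinearMap.ker_eq_bot.mpr h)).choose
  else 0

theorem mulEinv_mulE {t : ℕ} {Y : SS} (h : Function.Injective (mulE t Y)) (b : H Y) :
    mulEinv t Y (mulE t Y b) = b := by
  unfold mulEinv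
  rw [dif_pos h]
  have := (LinearMap.exists_leftInverse_of_injective (mulE t Y)
    (LinearMap.ker_eq_bot.mpr h)).choose_spec
  exact LinearMap.congr_fun this b

/-- The slant product of classes of `V` with a Moore cycle of `Map(Y,V)`. -/
noncomputable def Ph {Y : SS} {V : SV} {t : ℕ} (z : ZM (MapS Y V) t) : H V.toSS →ₗ[k] H Y :=
  (mulEinv t Y).comp (H.map (HV.hom (sph z))).toLinearMap

/-- The inclusion of the base point. -/
def bpt (t : ℕ) (Y : SS) : SS.Hom Y ((Sph t).prod Y) := ⟨fun _ y => (none, y), fun _ _ => rfl⟩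

/-- The zero map. -/
def zmap (Y : SS) (V : SV) : SS.Hom Y V.toSS := HV.hom (0 : HV Y V)

/-- Composition of Moore cycles with a pointed simplicial map. -/
def appZ {Y : SS} {V W : SV} {t : ℕ} (g : SS.Hom V.toSS W.toSS) (hg : ∀ n, g.f n 0 = 0)
    (z : ZM (MapS Y V) t) : ZM (MapS Y W) t :=
  ⟨HV.app g z.1, by
    intro r a ha
    have h := z.2 r a ha
    show HV.app g ((MapS Y V).map a z.1) = 0
    rw [h]
    apply HV.ext
    intro n x
    exact hg n⟩

/-- Composition of Moore cycles with a linear simplicial map. -/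
def postZ {Y : SS} {V W : SV} {t : ℕ} (L : SV.Hom V W) : ZM (MapS Y V) t →ₗ[k] ZM (MapS Y W) t where
  toFun z := ⟨HV.post L z.1, by
    intro r a ha
    have h := z.2 r a ha
    show HV.post L ((MapS Y V).map a z.1) = 0
    rw [h, map_zero]⟩
  map_add' z w := Subtype.ext (map_add (HV.post L) z.1 w.1)
  map_smul' c z := Subtype.ext (map_smul (HV.post L) c z.1)

/-- Precomposition of Moore cycles with a simplicial map. -/
def preZ {Y Y' : SS} {V : SV} {t : ℕ} (φ : SS.Hom Y' Y) :
    ZM (MapS Y V) t →ₗ[k] ZM (MapS Y' V) t where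
  toFun z := ⟨⟨fun n x => z.1.1 n (x.1, φ.f n x.2), fun m n a x => by
      show z.1.1 m (x.1.comp a, φ.f m (Y'.map a x.2)) = V.map a (z.1.1 n (x.1, φ.f n x.2))
      rw [φ.nat, ← HV.nat]⟩, by
    intro r a ha
    apply HV.ext
    rintro n ⟨b, y⟩
    have h := z.2 r a ha
    have h2 := congrArg (fun F : HV ((SS.simplex r).prod Y) V => F.1 n (b, φ.f n y)) h
    exact h2⟩
  map_add' z w := rfl
  map_smul' c z := rfl

/-- The `EM`-valued map given by a normalised cocycle `α` on `V`. -/
def NormC {X : SS} (n : ℕ) (α : X.X n → k) : Prop :=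
  ∀ (m : ℕ) (s : Mor n m), ¬ Function.Injective s → ∀ x : X.X m, α (X.map s x) = 0

/-- Reduced classes: those restricting to 0 along the zero map from the point. -/
noncomputable def RC (V : SV) : Submodule k (H V.toSS) :=
  LinearMap.ker (H.map (zmap (SS.simplex 0) V)).toLinearMap

/-! ### The comparison of `S^t × S^1` with `S^(t+1)` -/

/-- `[n] → [t]` and `[n] → [1]` give `[n] → [t+1]`: `v ↦ a v` if `a v < t`, and
`v ↦ t + e v` if `a v = t`. -/
def joinF {n t : ℕ} (a : Mor n t) (e : Mor n 1) : Mor n (t + 1) where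
  toFun v := ⟨if (a v).1 < t then (a v).1 else t + (e v).1, by
    have := (e v).2
    split_ifs <;> omega⟩
  monotone' := by
    intro v w hvw
    have h1 : (a v).1 ≤ (a w).1 := a.monotone hvw
    have h2 : (e v).1 ≤ (e w).1 := e.monotone hvw
    have h3 := (a v).2
    have h4 := (a w).2
    show (if (a v).1 < t then (a v).1 else t + (e v).1)
      ≤ (if (a w).1 < t then (a w).1 else t + (e w).1)
    split_ifs <;> omega

/-- `w ↦ w'`, a `t`-simplex of `Map(S^1 × Y, V)`: `w'(a, e, y) = w(joinF a e, y)`. -/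
def hhFun {Y : SS} {V : SV} {t : ℕ} (z : (MapS Y V).X (t + 1)) (n : ℕ) :
    ((SS.simplex t).prod (S1.prod Y)).X n → V.X n
  | (_, none, _) => 0
  | (a, some e, y) => z.1 n (joinF a e.1, y)

theorem joinF_comp {m n t : ℕ} (c : Mor m n) (a : Mor n t) (e : Mor n 1) :
    (joinF a e).comp c = joinF (a.comp c) (e.comp c) := rfl

theorem joinF_left {n t : ℕ} (a : Mor n t) (e : Mor n 1) (h : Function.Surjective (joinF a e)) :
    Function.Surjective a := by
  intro i
  obtain ⟨v, hv⟩ := h ⟨i.1, by omega⟩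
  refine ⟨v, Fin.ext ?_⟩
  have h1 := congrArg Fin.val hv
  change (if (a v).1 < t then (a v).1 else t + (e v).1) = i.1 at h1
  have h2 := (a v).2
  have h3 := i.2
  split_ifs at h1 <;> omega

theorem joinF_right {n t : ℕ} (a : Mor n t) (e : Mor n 1) (h : Function.Surjective (joinF a e)) :
    Function.Surjective e := by
  intro i
  obtain ⟨v, hv⟩ := h ⟨t + i.1, by omega⟩
  refine ⟨v, Fin.ext ?_⟩
  have h1 := congrArg Fin.val hv
  change (if (a v).1 < t then (a v).1 else t + (e v).1) = t + i.1 at h1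
  split_ifs at h1 <;> omega

theorem hhFun_nat {Y : SS} {V : SV} {t : ℕ} {z : (MapS Y V).X (t + 1)}
    (hz : z ∈ ZM (MapS Y V) (t + 1))
    (m n : ℕ) (c : Mor m n) (x : ((SS.simplex t).prod (S1.prod Y)).X n) :
    hhFun z m (((SS.simplex t).prod (S1.prod Y)).map c x) = V.map c (hhFun z n x) := by
  obtain ⟨a, o, y⟩ := x
  cases o with
  | none => exact (map_zero (V.map c)).symm
  | some e =>
    show hhFun z m (a.comp c, (PS.sphere 1).map c e, Y.map c y) = V.map c (z.1 n (joinF a e.1, y))
    rw [← HV.nat]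
    by_cases h : Function.Surjective (e.1.comp c)
    · rw [sphere_map_pos c e h]
      rfl
    · rw [sphere_map_neg c e h]
      show (0 : V.X m) = z.1 m ((joinF a e.1).comp c, Y.map c y)
      rw [joinF_comp]
      exact (mem_ZM_val hz _ (fun hs => h (joinF_right _ _ hs)) _).symm

/-- From Moore cycles of dimension `t + 1` of `Map(Y,V)` to Moore cycles of dimension `t` of
`Map(S^1 × Y, V)`. -/
def hh {Y : SS} {V : SV} {t : ℕ} (z : ZM (MapS Y V) (t + 1)) : ZM (MapS (S1.prod Y) V) t :=
  ⟨⟨hhFun z.1, fun m n c x => hhFun_nat z.2 m n c x⟩, by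
    intro r a ha
    apply HV.ext
    rintro n ⟨b, o, y⟩
    cases o with
    | none => rfl
    | some e =>
      show z.1.1 n (joinF (a.comp b) e.1, y) = 0
      apply mem_ZM_val z.2
      intro hs
      apply ha
      intro i
      obtain ⟨v, hv⟩ := joinF_left _ _ hs i
      exact ⟨b v, hv⟩⟩

/-! ### Maps between powers of BB -/

/-- The homomorphism `B(F_2^d) → B(F_2^d')` given by the matrix `L`. -/
def BL {d' d : ℕ} (L : Fin d' → Fin d → ZMod 2) : SS.Hom (BB.pow d) (BB.pow d') where
  f n x j := ∑ i, L j i • x i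
  nat {m n} a x := by
    funext j
    show ∑ i, L j i • (SV.const k).bar.map a (x i) = (SV.const k).bar.map a (∑ i, L j i • x i)
    rw [map_sum]
    simp only [map_smul]

/-- `S^1 × B^d → B^(d+1)`. -/
def qB (d : ℕ) : SS.Hom (S1.prod (BB.pow d)) (BB.pow (d + 1)) where
  f n x := Fin.cons (s1.f n x.1) x.2
  nat {m n} a x := by
    funext j
    refine Fin.cases ?_ (fun j => ?_) j
    · exact s1.nat a x.1
    · rfl

end Pool.Agent.SHL


end

section

/-! Moore cycles and boundaries: basic lemmas. -/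

namespace Pool.Agent.SHL

open Pool.Agent.SHS Pool.Agent.SHS.Hty

theorem not_surj_cof {r t i : ℕ} (hi : i ≤ t + 1) (a : Mor r t) :
    ¬ Function.Surjective ((cofN i t).comp a) := by
  intro h
  obtain ⟨v, hv⟩ := h ⟨i, by omega⟩
  have := congrArg Fin.val hv
  rw [comp_val, cofN_val] at this
  have h2 := (a v).2
  simp only at this
  split_ifs at this <;> omega

/-- a non surjective monotone map factors through a coface -/
theorem factor_cof {r t : ℕ} (a : Mor r (t + 1)) (ha : ¬ Function.Surjective a) :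
    ∃ (i : ℕ) (b : Mor r t), i ≤ t + 1 ∧ a = (cofN i t).comp b := by
  have h : ∃ i : Fin (t + 2), ∀ v, a v ≠ i := by
    by_contra hc
    push Not at hc
    exact ha hc
  obtain ⟨i, hi⟩ := h
  have hi2 := i.2
  refine ⟨i.1, ⟨fun v => ⟨if (a v).1 < i.1 then (a v).1 else (a v).1 - 1, ?_⟩, ?_⟩, by omega, ?_⟩
  · have := (a v).2
    have h2 : (a v).1 ≠ i.1 := fun hh => hi v (Fin.ext hh)
    split_ifs <;> omega
  · intro v w hvw
    have h1 : (a v).1 ≤ (a w).1 := a.monotone hvw
    show (if (a v).1 < i.1 then (a v).1 else (a v).1 - 1)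
      ≤ (if (a w).1 < i.1 then (a w).1 else (a w).1 - 1)
    split_ifs <;> omega
  · apply mor_ext
    intro v
    have h2 : (a v).1 ≠ i.1 := fun hh => hi v (Fin.ext hh)
    rw [comp_val, cofN_val]
    show _ = if (if (a v).1 < i.1 then (a v).1 else (a v).1 - 1) < i.1 then _ else _
    show _ = if (if (a v).1 < i.1 then (a v).1 else (a v).1 - 1) < i.1
      then (if (a v).1 < i.1 then (a v).1 else (a v).1 - 1)
      else (if (a v).1 < i.1 then (a v).1 else (a v).1 - 1) + 1
    split_ifs <;> omega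

/-- criterion for Moore cycles -/
theorem mem_ZM_iff {U : SV} {t : ℕ} (z : U.X (t + 1)) :
    z ∈ ZM U (t + 1) ↔ ∀ i ≤ t + 1, U.map (cofN i t) z = 0 := by
  constructor
  · intro h i hi
    apply h
    have := not_surj_cof hi (OrderHom.id : Mor t t)
    exact this
  · intro h r a ha
    obtain ⟨i, b, hi, rfl⟩ := factor_cof a ha
    rw [U.map_comp, h i hi, map_zero]

theorem cod_cof_nsurj {t i j : ℕ} (hj : j ≤ t) (hi : i ≤ t + 1) (h1 : i ≠ j) (h2 : i ≠ j + 1) :
    ¬ Function.Surjective ((codN j t).comp (cofN i t)) := by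
  intro h
  obtain ⟨v, hv⟩ := h ⟨if i ≤ j then i else i - 1, by split_ifs <;> omega⟩
  have := congrArg Fin.val hv
  rw [comp_val, codN_val, cofN_val] at this
  have h3 := v.2
  simp only at this
  split_ifs at this <;> omega

theorem face_deg {U : SV} {t i j : ℕ} (hj : j ≤ t) (hi : i ≤ t + 1) {z : U.X t}
    (hz : z ∈ ZM U t) :
    U.map (cofN i t) (U.map (codN j t) z) = if i = j ∨ i = j + 1 then z else 0 := by
  rw [← U.map_comp]
  split_ifs with h
  · rcases h with h | h
    · subst h
      rw [cod_cof_self, U.map_id]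
    · subst h
      rw [cod_cof_succ, U.map_id]
  · exact hz _ _ (cod_cof_nsurj hj hi (fun h' => h (Or.inl h')) (fun h' => h (Or.inr h')))

theorem mem_BM_iff {U : SV} {t : ℕ} (z : U.X t) : z ∈ BM U t ↔
    ∃ w : U.X (t + 1), U.map (cofN 0 t) w = z ∧ ∀ i, 0 < i → i ≤ t + 1 → U.map (cofN i t) w = 0 := by
  constructor
  · rintro ⟨w, h1, h2⟩
    refine ⟨w, ?_, ?_⟩
    · rw [← h1, cof_eq_cofN]; rfl
    · intro i hi hi'
      have := h2 ⟨i, by omega⟩ (fun h => by
        have := congrArg Fin.val h
        simp only [Fin.val_zero] at this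
        omega)
      rwa [cof_eq_cofN] at this
  · rintro ⟨w, h1, h2⟩
    refine ⟨w, ?_, ?_⟩
    · rw [← h1, cof_eq_cofN]; rfl
    · intro i hi
      rw [cof_eq_cofN]
      apply h2
      · rcases Nat.eq_zero_or_pos i.1 with h | h
        · exact absurd (Fin.ext h) hi
        · exact h
      · omega

/-- the sum of the faces of a simplex, all of whose faces are Moore cycles, is a Moore boundary -/
theorem BM_sum {U : SV} {t : ℕ} (w : U.X (t + 1))
    (hw : ∀ i ≤ t + 1, U.map (cofN i t) w ∈ ZM U t) :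
    ∑ i ∈ Finset.range (t + 2), U.map (cofN i t) w ∈ BM U t := by
  have key : ∀ m ≤ t + 1, ∃ w' : U.X (t + 1),
      (∀ i, t + 1 - m < i → i ≤ t + 1 → U.map (cofN i t) w' = 0) ∧
      (∀ i, i < t + 1 - m → U.map (cofN i t) w' = U.map (cofN i t) w) ∧
      U.map (cofN (t + 1 - m) t) w' =
        ∑ i ∈ Finset.Ico (t + 1 - m) (t + 2), U.map (cofN i t) w := by
    intro m
    induction m with
    | zero =>
      intro _
      refine ⟨w, ?_, ?_, ?_⟩
      · intro i h1 h2; omega
      · intro i _; rfl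
      · rw [Nat.sub_zero, Finset.sum_Ico_succ_top (by omega), Finset.Ico_self, Finset.sum_empty,
          zero_add]
    | succ m ih =>
      intro hm
      obtain ⟨w', h1, h2, h3⟩ := ih (by omega)
      set j := t + 1 - (m + 1) with hj
      have hj1 : t + 1 - m = j + 1 := by omega
      rw [hj1] at h1 h2 h3
      set b := ∑ i ∈ Finset.Ico (j + 1) (t + 2), U.map (cofN i t) w with hb
      have hbz : b ∈ ZM U t := by
        rw [hb]
        apply Submodule.sum_mem
        intro i hi
        rw [Finset.mem_Ico] at hi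
        exact hw i (by omega)
      refine ⟨w' + U.map (codN j t) b, ?_, ?_, ?_⟩
      · intro i hi hi'
        rw [map_add, face_deg (by omega) hi' hbz]
        by_cases hij : i = j + 1
        · subst hij
          rw [h3, if_pos (Or.inr rfl), mod_two]
        · rw [h1 i (by omega) hi', if_neg (by omega), add_zero]
      · intro i hi
        rw [map_add, face_deg (by omega) (by omega) hbz, if_neg (by omega), add_zero,
          h2 i (by omega)]
      · rw [map_add, face_deg (by omega) (by omega) hbz, if_pos (Or.inl rfl), h2 j (by omega), hb,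
          Finset.sum_eq_sum_Ico_succ_bot (show j < t + 2 by omega)]
  obtain ⟨w', h1, h2, h3⟩ := key (t + 1) (le_refl _)
  rw [Nat.sub_self] at h1 h2 h3
  rw [mem_BM_iff]
  refine ⟨w', ?_, h1⟩
  rw [h3, Finset.range_eq_Ico]

/-- pointed maps preserve Moore cycles -/
theorem ZM_app {U W : SV} (g : SS.Hom U.toSS W.toSS) (hg : ∀ n, g.f n 0 = 0) {t : ℕ} {z : U.X t}
    (hz : z ∈ ZM U t) : g.f t z ∈ ZM W t := by
  intro r a ha
  have h1 : g.f r (U.map a z) = W.map a (g.f t z) := g.nat a z
  rw [← h1, hz r a ha, hg]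

/-- pointed maps preserve Moore boundaries -/
theorem BM_app {U W : SV} (g : SS.Hom U.toSS W.toSS) (hg : ∀ n, g.f n 0 = 0) {t : ℕ} {z : U.X t}
    (hz : z ∈ BM U t) : g.f t z ∈ BM W t := by
  rw [mem_BM_iff] at hz ⊢
  obtain ⟨w, h1, h2⟩ := hz
  refine ⟨g.f (t + 1) w, ?_, ?_⟩
  · have h3 : g.f t (U.map (cofN 0 t) w) = W.map (cofN 0 t) (g.f (t + 1) w) := g.nat _ w
    rw [← h3, h1]
  · intro i hi hi'
    have h3 : g.f t (U.map (cofN i t) w) = W.map (cofN i t) (g.f (t + 1) w) := g.nat _ w
    rw [← h3, h2 i hi hi', hg]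

/-- additivity of pointed maps up to Moore boundaries, in positive dimensions -/
theorem app_add {U W : SV} (g : SS.Hom U.toSS W.toSS) (hg : ∀ n, g.f n 0 = 0) {t : ℕ}
    {z z' : U.X (t + 1)} (hz : z ∈ ZM U (t + 1)) (hz' : z' ∈ ZM U (t + 1)) :
    g.f (t + 1) (z + z') + g.f (t + 1) z + g.f (t + 1) z' ∈ BM W (t + 1) := by
  set w := U.map (codN 0 (t + 1)) z + U.map (codN 1 (t + 1)) z' with hw
  have hf : ∀ i ≤ t + 2, U.map (cofN i (t + 1)) w =
      (if i = 0 ∨ i = 0 + 1 then z else 0) + (if i = 1 ∨ i = 1 + 1 then z' else 0) := by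
    intro i hi
    rw [hw, map_add, face_deg (by omega) hi hz, face_deg (by omega) hi hz']
  have hgf : ∀ i ≤ t + 2, W.map (cofN i (t + 1)) (g.f (t + 2) w) =
      g.f (t + 1) ((if i = 0 ∨ i = 0 + 1 then z else 0) + (if i = 1 ∨ i = 1 + 1 then z' else 0)) := by
    intro i hi
    have h3 : g.f (t + 1) (U.map (cofN i (t + 1)) w) = W.map (cofN i (t + 1)) (g.f (t + 2) w) :=
      g.nat _ w
    rw [← h3, hf i hi]
  have h1 := BM_sum (U := W) (g.f (t + 2) w) (by
    intro i hi
    rw [hgf i hi]
    apply ZM_app g hg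
    apply Submodule.add_mem
    · split_ifs
      · exact hz
      · exact Submodule.zero_mem _
    · split_ifs
      · exact hz'
      · exact Submodule.zero_mem _)
  rw [Finset.sum_congr rfl (fun i hi => hgf i (by rw [Finset.mem_range] at hi; omega))] at h1
  rw [Finset.sum_range_succ', Finset.sum_range_succ', Finset.sum_range_succ'] at h1
  rw [Finset.sum_eq_zero] at h1
  · simp only [zero_add, if_true, true_or, or_true, one_ne_zero,
      or_false, zero_ne_one] at h1
    norm_num at h1
    convert h1 using 1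
    abel
  · intro i _
    rw [if_neg (by omega), if_neg (by omega), add_zero, hg]

/-! ### Linear homotopies -/

/-- `f` and `g` are linearly homotopic. -/
def LHty {V W : SV} (f g : SV.Hom V W) : Prop :=
  ∃ Ht : ∀ n : ℕ, Mor n 1 → V.X n →ₗ[k] W.X n,
    (∀ (m n : ℕ) (a : Mor m n) (τ : Mor n 1) (x : V.X n),
      Ht m (τ.comp a) (V.map a x) = W.map a (Ht n τ x)) ∧
    (∀ n x, Ht n (cst 0) x = f.f n x) ∧ (∀ n x, Ht n (cst 1) x = g.f n x)

theorem LHty.BM {V W : SV} {f g : SV.Hom V W} (h : LHty f g) {t : ℕ} {z : V.X t}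
    (hz : z ∈ ZM V t) : f.f t z + g.f t z ∈ BM W t := by
  obtain ⟨Ht, hn, h0, h1⟩ := h
  have hZ : ∀ τ : Mor t 1, Ht t τ z ∈ ZM W t := by
    intro τ r a ha
    rw [← hn, hz r a ha, map_zero]
  have step : ∀ i ≤ t, Ht t (tN i t) z + Ht t (tN (i + 1) t) z ∈ SHL.BM W t := by
    intro i hi
    set w := Ht (t + 1) (tN (i + 1) (t + 1)) (V.map (codN i t) z) with hw
    have hf : ∀ j ≤ t + 1, W.map (cofN j t) w =
        if j = i ∨ j = i + 1 then Ht t (tN j t) z else 0 := by
      intro j hj
      rw [hw, ← hn, face_deg hi hj hz]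
      split_ifs with hij
      · rcases hij with rfl | rfl
        · rw [t_cof_le (le_refl _)]
        · rw [t_cof_gt (Nat.lt_succ_self _)]
      · rw [map_zero]
    have h2 := BM_sum (U := W) w (by
      intro j hj
      rw [hf j hj]
      split_ifs
      · exact hZ _
      · exact Submodule.zero_mem _)
    rw [Finset.sum_congr rfl (fun j hj => hf j (by rw [Finset.mem_range] at hj; omega))] at h2
    rw [← Finset.sum_filter] at h2
    have h3 : (Finset.range (t + 2)).filter (fun j => j = i ∨ j = i + 1) = {i, i + 1} := by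
      ext j
      simp only [Finset.mem_filter, Finset.mem_range, Finset.mem_insert, Finset.mem_singleton]
      omega
    rw [h3, Finset.sum_pair (by omega)] at h2
    exact h2
  have tel : ∀ m ≤ t + 1, Ht t (tN 0 t) z + Ht t (tN m t) z ∈ SHL.BM W t := by
    intro m
    induction m with
    | zero =>
      intro _
      rw [mod_two]
      exact Submodule.zero_mem _
    | succ m ih =>
      intro hm
      have h3 := Submodule.add_mem _ (ih (by omega)) (step m (by omega))
      have h4 : Ht t (tN 0 t) z + Ht t (tN m t) z + (Ht t (tN m t) z + Ht t (tN (m + 1) t) z)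
          = Ht t (tN 0 t) z + Ht t (tN (m + 1) t) z + (Ht t (tN m t) z + Ht t (tN m t) z) := by
        abel
      rwa [h4, mod_two, add_zero] at h3
  have h5 := tel (t + 1) (le_refl _)
  rw [tN_zero, tN_last, h0, h1, add_comm] at h5
  exact h5

/-! ### Maps of mapping spaces -/

/-- composition with a simplicial map as a map of mapping spaces -/
def mapApp (Y : SS) {V W : SV} (g : SS.Hom V.toSS W.toSS) :
    SS.Hom (MapS Y V).toSS (MapS Y W).toSS where
  f _ z := HV.app g z
  nat _ _ := rfl

/-- composition with a linear simplicial map as a linear map of mapping spaces -/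
def mapPost (Y : SS) {V W : SV} (L : SV.Hom V W) : SV.Hom (MapS Y V) (MapS Y W) where
  f _ := HV.post L
  nat _ _ := rfl

theorem mapApp_zero (Y : SS) {V W : SV} (g : SS.Hom V.toSS W.toSS) (hg : ∀ n, g.f n 0 = 0)
    (n : ℕ) : (mapApp Y g).f n 0 = 0 := by
  apply HV.ext
  intro r x
  exact hg r

theorem LHty.map (Y : SS) {V W : SV} {f g : SV.Hom V W} (h : LHty f g) :
    LHty (mapPost Y f) (mapPost Y g) := by
  obtain ⟨Ht, hn, h0, h1⟩ := h
  refine ⟨fun n τ =>
    { toFun := fun F => ⟨fun r x => Ht r (τ.comp x.1) (F.1 r x), ?_⟩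
      map_add' := ?_
      map_smul' := ?_ }, ?_, ?_, ?_⟩
  · intro m n' a x
    show Ht m (τ.comp (x.1.comp a)) (F.1 m (((SS.simplex n).prod Y).map a x)) = _
    rw [HV.nat]
    exact hn _ _ a (τ.comp x.1) (F.1 n' x)
  · intro F G
    apply HV.ext
    intro r x
    exact map_add (Ht r (τ.comp x.1)) _ _
  · intro c F
    apply HV.ext
    intro r x
    exact map_smul (Ht r (τ.comp x.1)) _ _
  · intro m n a τ F
    rfl
  · intro n F
    apply HV.ext
    intro r x
    exact h0 r _
  · intro n F
    apply HV.ext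
    intro r x
    exact h1 r _

end Pool.Agent.SHL


end
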