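import Mathlib
import Pool.Agent.SHM.C01
import Pool.Agent.SHM.C02
import Pool.Agent.SHM.C03

/-! Parts: SH.GME, SH.LTC, SH.LTG, SH.TeAcy, SH.DefsN, SH.DefsN2, SH.StmtsN, SH.N.Pmap, SH.N.Open, SH.N.PP, SH.N.Quo, SH.N.Acy, SH.N.N3, SH.NMain, SH.NBd, SH.NBdq, SH.NCone, SH.NCtr, SH.NDy, SH.NEE, SH.NExc, SH.NFmd, SH.NInv, SH.NNn, SH.NNoh, SH.NOrb, SH.NQex, SH.NQproj, SH.NQy, SH.NRes, SH.NSyl, SH.NTwo, SH.NUd, SH.ASM3, SH.Reso, SH.DefsX, SH.StmtsV, SH.TTAsm, SH.TTSE, SH.TTOmX, SH.TTXpm, SH.TTTotC, SH.TTOmC, SH.TTCone, SH.TTHadd, SH.TTNul, SH.TTOmW, SH.TTFin, SH.Prism, SH.Ess, SH.S.Gena, SH.S.Ops, SH.Q.DOL, SH.L.XS -/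

section

/-!
# MP_2d0b73_an, PART II: mesh of the barycentric subdivision
-/

noncomputable section

namespace Pool.Agent.SH

namespace GME

theorem card_le {P : Type} [PartialOrder P] {N : ℕ} (hN : ∀ σ : Sd P, σ.c.card ≤ N)
    (S : Sd (Sd P)) : S.c.card ≤ N := by
  have h : S.c.card ≤ (Finset.Icc 1 N).card := by
    refine Finset.card_le_card_of_injOn (fun σ : Sd P => σ.c.card) ?_ ?_
    · intro σ _
      rw [Finset.coe_Icc]
      exact ⟨σ.ne.card_pos, hN σ⟩
    · intro σ hσ τ hτ h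
      have h0 : σ.c.card = τ.c.card := h
      rcases S.chain σ hσ τ hτ with h' | h'
      · exact Sd.ext' (Finset.eq_of_subset_of_card_le h' h0.ge)
      · exact (Sd.ext' (Finset.eq_of_subset_of_card_le h' h0.le)).symm
  rwa [Nat.card_Icc, Nat.add_sub_cancel] at h

theorem lin_geo {P V : Type} [PartialOrder P] [Fintype P] (s : SM (Sd P) P)
    (hc : s.c = OrderHom.id)
    (hgeo : ∀ (σ : Sd P) (p : P), p ∈ σ.c → s.geo σ p = 1 / (σ.c.card : ℝ))
    (φ : P → V → ℝ) (σ : Sd P) (v : V) :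
    lin φ (s.geo σ) v = 1 / (σ.c.card : ℝ) * ∑ p ∈ σ.c, φ p v := by
  have h1 : lin φ (s.geo σ) v = ∑ p, s.geo σ p * φ p v := rfl
  rw [h1, Finset.mul_sum, ← Finset.sum_subset (Finset.subset_univ σ.c)]
  · exact Finset.sum_congr rfl fun p hp => by rw [hgeo σ p hp]
  · intro p _ hp
    have h2 : s.geo σ p = 0 := by
      by_contra h
      have h3 := (s.geo_supp σ p).1 h
      rw [hc] at h3
      exact hp h3
    rw [h2, zero_mul]

theorem diff_eq {P V : Type} (A B : Finset P) (hA : A.Nonempty) (hB : B.Nonempty)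
    (φ : P → V → ℝ) (v : V) :
    1 / (A.card : ℝ) * ∑ p ∈ A, φ p v - 1 / (B.card : ℝ) * ∑ p ∈ B, φ p v =
      1 / ((A.card : ℝ) * B.card) * ∑ p ∈ A, ∑ q ∈ B, (φ p v - φ q v) := by
  have hA' : (A.card : ℝ) ≠ 0 := Nat.cast_ne_zero.2 hA.card_ne_zero
  have hB' : (B.card : ℝ) ≠ 0 := Nat.cast_ne_zero.2 hB.card_ne_zero
  have h1 : ∑ p ∈ A, ∑ q ∈ B, (φ p v - φ q v) =
      B.card * ∑ p ∈ A, φ p v - A.card * ∑ q ∈ B, φ q v := by
    have h2 : ∀ p ∈ A, ∑ q ∈ B, (φ p v - φ q v) = B.card * φ p v - ∑ q ∈ B, φ q v := by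
      intro p _
      rw [Finset.sum_sub_distrib, Finset.sum_const, nsmul_eq_mul]
    rw [Finset.sum_congr rfl h2, Finset.sum_sub_distrib, Finset.sum_const, nsmul_eq_mul,
      ← Finset.mul_sum]
  rw [h1]
  field_simp

end GME

open GME in
theorem GME : Stmt_GME := by
  intro P _ _ N s hc hgeo hN
  refine ⟨card_le hN, ?_⟩
  intro V _ φ δ hδ hφ σ τ hστ
  have hsub : σ.c ⊆ τ.c := hστ
  have hσ : (0 : ℝ) < σ.c.card := Nat.cast_pos.2 σ.ne.card_pos
  have hτ : (0 : ℝ) < τ.c.card := Nat.cast_pos.2 τ.ne.card_pos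
  have hN' : (τ.c.card : ℝ) ≤ N := Nat.cast_le.2 (hN τ)
  have h1 : ∀ v, |lin φ (s.geo σ) v - lin φ (s.geo τ) v| ≤
      1 / ((σ.c.card : ℝ) * τ.c.card) * ∑ p ∈ σ.c, ∑ q ∈ τ.c, |φ p v - φ q v| := by
    intro v
    rw [lin_geo s hc hgeo, lin_geo s hc hgeo, diff_eq _ _ σ.ne τ.ne, abs_mul,
      abs_of_nonneg (by positivity : (0 : ℝ) ≤ 1 / ((σ.c.card : ℝ) * τ.c.card))]
    refine mul_le_mul_of_nonneg_left ?_ (by positivity)
    refine (Finset.abs_sum_le_sum_abs _ _).trans (Finset.sum_le_sum fun p _ => ?_)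
    exact Finset.abs_sum_le_sum_abs _ _
  have h2 : ∀ p ∈ σ.c, ∑ q ∈ τ.c, ∑ v, |φ p v - φ q v| ≤ ((τ.c.card : ℝ) - 1) * δ := by
    classical
    intro p hp
    have h3 : ∑ q ∈ τ.c, ∑ v, |φ p v - φ q v| = ∑ q ∈ τ.c.erase p, ∑ v, |φ p v - φ q v| := by
      rw [← Finset.add_sum_erase τ.c _ (hsub hp)]
      simp
    rw [h3]
    have h4 : ∀ q ∈ τ.c.erase p, ∑ v, |φ p v - φ q v| ≤ δ := by
      intro q hq
      rcases τ.chain p (hsub hp) q (Finset.mem_of_mem_erase hq) with h | h
      · exact hφ p q h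
      · refine le_trans (le_of_eq ?_) (hφ q p h)
        exact Finset.sum_congr rfl fun v _ => abs_sub_comm _ _
    refine (Finset.sum_le_card_nsmul _ _ _ h4).trans (le_of_eq ?_)
    rw [Finset.card_erase_of_mem (hsub hp), nsmul_eq_mul, Nat.cast_sub τ.ne.card_pos, Nat.cast_one]
  calc ∑ v, |lin φ (s.geo σ) v - lin φ (s.geo τ) v|
      ≤ ∑ v, 1 / ((σ.c.card : ℝ) * τ.c.card) * ∑ p ∈ σ.c, ∑ q ∈ τ.c, |φ p v - φ q v| :=
        Finset.sum_le_sum fun v _ => h1 v
    _ = 1 / ((σ.c.card : ℝ) * τ.c.card) * ∑ p ∈ σ.c, ∑ q ∈ τ.c, ∑ v, |φ p v - φ q v| := by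
        rw [← Finset.mul_sum, Finset.sum_comm]
        congr 1
        exact Finset.sum_congr rfl fun p _ => Finset.sum_comm
    _ ≤ 1 / ((σ.c.card : ℝ) * τ.c.card) * ((σ.c.card : ℝ) * (((τ.c.card : ℝ) - 1) * δ)) := by
        refine mul_le_mul_of_nonneg_left ?_ (by positivity)
        refine (Finset.sum_le_card_nsmul _ _ _ h2).trans (le_of_eq ?_)
        rw [nsmul_eq_mul]
    _ = (1 - 1 / (τ.c.card : ℝ)) * δ := by
        field_simp
    _ ≤ (1 - 1 / (N : ℝ)) * δ := by
        refine mul_le_mul_of_nonneg_right ?_ hδ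
        have := one_div_le_one_div_of_le hτ hN'
        linarith

end Pool.Agent.SH

end

end

section

/-!
# MP_2d0b73_an, PART II: cancellation for `LT` maps
-/

noncomputable section

namespace Pool.Agent.SH

open CategoryTheory Simplicial MonoidalCategory Limits Opposite HomotopicalAlgebra
open scoped SSet.modelCategoryQuillen

namespace LTC

/-- The simplex `t` of `Δ[1]` is constant with value `1`. -/
def IsOne {m : SimplexCategoryᵒᵖ} (t : (Δ[1] : SSet.{0}).obj m) : Prop :=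
  ∀ i, SSet.stdSimplex.asOrderHom t i = 1

/-- The two ends of `Δ[1]`. -/
def ends : (Δ[1] : SSet.{0}).Subcomplex where
  obj _ := Set.ofPred (fun t => (∀ i, SSet.stdSimplex.asOrderHom t i = 0) ∨
    (∀ i, SSet.stdSimplex.asOrderHom t i = 1))
  map _ _ ht := Or.imp (fun h _ => h _) (fun h _ => h _) ht

theorem mem_ends {m : SimplexCategoryᵒᵖ} (t : (Δ[1] : SSet.{0}).obj m) :
    t ∈ ends.obj m ↔ (∀ i, SSet.stdSimplex.asOrderHom t i = 0) ∨ IsOne t := Iff.rfl

theorem isOne_map {m m' : SimplexCategoryᵒᵖ} (f : m ⟶ m') {t : (Δ[1] : SSet.{0}).obj m}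
    (h : IsOne t) : IsOne ((Δ[1] : SSet.{0}).map f t) := fun _ => h _

theorem mem_of_isOne_map {m m' : SimplexCategoryᵒᵖ} (f : m ⟶ m') {t : (Δ[1] : SSet.{0}).obj m}
    (h : IsOne ((Δ[1] : SSet.{0}).map f t)) (h' : ¬ IsOne t) : t ∉ ends.obj m := by
  rintro (h0 | h1)
  · have h2 := h 0
    have h3 := h0 (f.unop.toOrderHom 0)
    have h4 : SSet.stdSimplex.asOrderHom ((Δ[1] : SSet.{0}).map f t) 0 =
        SSet.stdSimplex.asOrderHom t (f.unop.toOrderHom 0) := rfl
    rw [h4, h3] at h2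
    exact absurd h2 (by decide)
  · exact h' h1

theorem fin_two (x : Fin (1 + 1)) : x = 0 ∨ x = 1 := Fin.exists_fin_two.mp ⟨x, rfl⟩

theorem not_isOne_of_horn {m : SimplexCategoryᵒᵖ} {t : (Δ[1] : SSet.{0}).obj m}
    (h : t ∈ (SSet.horn 1 0).obj m) : ¬ IsOne t := by
  intro h1
  rw [SSet.mem_horn_iff] at h
  apply h
  rw [Set.eq_univ_iff_forall]
  intro x
  rcases fin_two x with hx | hx
  · right
    exact hx
  · left
    exact ⟨0, (h1 0).trans hx.symm⟩

theorem mem_ends_of_horn {m : SimplexCategoryᵒᵖ} {t : (Δ[1] : SSet.{0}).obj m}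
    (h : t ∈ (SSet.horn 1 0).obj m) : t ∈ ends.obj m := by
  left
  intro i
  rw [SSet.mem_horn_iff] at h
  by_contra hi
  apply h
  rw [Set.eq_univ_iff_forall]
  intro x
  have h2 : SSet.stdSimplex.asOrderHom t i = 1 := by
    rcases fin_two (SSet.stdSimplex.asOrderHom t i) with hx | hx
    · exact absurd hx hi
    · exact hx
  rcases fin_two x with hx | hx
  · right
    exact hx
  · left
    exact ⟨i, h2.trans hx.symm⟩

theorem mem_horn_zero {m : SimplexCategoryᵒᵖ} {t : (Δ[1] : SSet.{0}).obj m}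
    (h : ∀ i, SSet.stdSimplex.asOrderHom t i = 0) : t ∈ (SSet.horn 1 0).obj m := by
  rw [SSet.mem_horn_iff]
  intro h1
  have h2 := Set.eq_univ_iff_forall.mp h1 1
  rcases h2 with ⟨i, hi⟩ | h2
  · rw [h i] at hi
    exact absurd hi (by decide)
  · exact absurd h2 (by decide)

variable {A B C T L : SSet.{0}}

open Classical in
/-- The map `v` at the end `1` of the interval and `w` elsewhere. -/
def glue (S : L.Subcomplex) (j : B ⟶ C) (v : B ⊗ L ⟶ T) (w : C ⊗ L ⟶ T)
    (h : ∀ (m : SimplexCategoryᵒᵖ) (b : B.obj m) (x : L.obj m), x ∈ S.obj m →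
      v.app m ⟨b, x⟩ = w.app m ⟨j.app m b, x⟩) :
    B ⊗ (S.unionProd ends : SSet.{0}) ⟶ T where
  app m := ↾fun z => if IsOne z.2.1.2 then v.app m ⟨z.1, z.2.1.1⟩
    else w.app m ⟨j.app m z.1, z.2.1.1⟩
  naturality m m' f := by
    ext z
    obtain ⟨b, ⟨⟨x, t⟩, hz⟩⟩ := z
    change (if IsOne ((Δ[1] : SSet.{0}).map f t) then v.app m' ⟨B.map f b, L.map f x⟩
      else w.app m' ⟨j.app m' (B.map f b), L.map f x⟩) =
      T.map f (if IsOne t then v.app m ⟨b, x⟩ else w.app m ⟨j.app m b, x⟩)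
    have hv : v.app m' ⟨B.map f b, L.map f x⟩ = T.map f (v.app m ⟨b, x⟩) :=
      NatTrans.naturality_apply v f (⟨b, x⟩ : (B ⊗ L).obj m)
    have hw : w.app m' ⟨j.app m' (B.map f b), L.map f x⟩ = T.map f (w.app m ⟨j.app m b, x⟩) := by
      have h1 : j.app m' (B.map f b) = C.map f (j.app m b) := NatTrans.naturality_apply j f b
      rw [h1]
      exact NatTrans.naturality_apply w f (⟨j.app m b, x⟩ : (C ⊗ L).obj m)
    by_cases ht : IsOne t
    · rw [if_pos ht, if_pos (isOne_map f ht), hv]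
    · rw [if_neg ht]
      by_cases ht' : IsOne ((Δ[1] : SSet.{0}).map f t)
      · rw [if_pos ht', hv]
        have hx : x ∈ S.obj m := by
          rcases (SSet.Subcomplex.mem_unionProd_iff S ends (⟨x, t⟩ : (L ⊗ Δ[1]).obj m)).mp hz with
            h1 | h1
          · exact absurd h1 (mem_of_isOne_map f ht' ht)
          · exact h1
        rw [h m b x hx]
      · rw [if_neg ht', hw]

open Classical in
theorem glue_app (S : L.Subcomplex) (j : B ⟶ C) (v : B ⊗ L ⟶ T) (w : C ⊗ L ⟶ T)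
    (h : ∀ (m : SimplexCategoryᵒᵖ) (b : B.obj m) (x : L.obj m), x ∈ S.obj m →
      v.app m ⟨b, x⟩ = w.app m ⟨j.app m b, x⟩) (m : SimplexCategoryᵒᵖ) (b : B.obj m)
    (x : L.obj m) (t : (Δ[1] : SSet.{0}).obj m)
    (hz : (⟨x, t⟩ : (L ⊗ Δ[1]).obj m) ∈ (S.unionProd ends).obj m) :
    (glue S j v w h).app m (⟨b, ⟨⟨x, t⟩, hz⟩⟩ : (B ⊗ (S.unionProd ends : SSet.{0})).obj m) =
      if IsOne t then v.app m ⟨b, x⟩ else w.app m ⟨j.app m b, x⟩ := rfl

/-- Extension along anodyne maps in the parameter. -/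
theorem extend_anodyne (T : SSet.{0}) [SSet.KanComplex T] {B C Z₀ Z : SSet.{0}} (j : B ⟶ C) [Mono j]
    (k : Z₀ ⟶ Z) (hk : SSet.anodyneExtensions k) (u : C ⊗ Z₀ ⟶ T) (v : B ⊗ Z ⟶ T)
    (h : j ▷ Z₀ ≫ u = B ◁ k ≫ v) : ∃ G : C ⊗ Z ⟶ T, C ◁ k ≫ G = u ∧ j ▷ Z ≫ G = v := by
  have hf : Fibration ((MonoidalClosed.pre j).app T) := inferInstance
  have hl := hk _ ((HomotopicalAlgebra.fibration_iff _).mp hf)
  have sq : CommSq (MonoidalClosed.curry u) k ((MonoidalClosed.pre j).app T)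
      (MonoidalClosed.curry v) := ⟨by
    rw [MonoidalClosed.curry_pre_app, h, MonoidalClosed.curry_natural_left]⟩
  refine ⟨MonoidalClosed.uncurry sq.lift, ?_, ?_⟩
  · rw [← MonoidalClosed.uncurry_natural_left, sq.fac_left, MonoidalClosed.uncurry_curry]
  · rw [← MonoidalClosed.uncurry_pre_app, sq.fac_right, MonoidalClosed.uncurry_curry]

end LTC

theorem LTC (h1 : Stmt_LTB) : Stmt_LTC := by
  intro T A B C i j hT hj hi hij
  refine ⟨hj, ?_⟩
  intro n u v huv
  -- a first extension of `u` which agrees with `v` on `A`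
  obtain ⟨w, hw1, hw2⟩ := hij.2 n u (i ▷ Δ[n] ≫ v) (by
    rw [MonoidalCategory.comp_whiskerRight, Category.assoc, huv, whisker_exchange_assoc])
  have hu : ∀ (m : SimplexCategoryᵒᵖ) (c : C.obj m) (x : (Δ[n] : SSet.{0}).obj m)
      (hx : x ∈ (∂Δ[n] : (Δ[n] : SSet.{0}).Subcomplex).obj m),
      w.app m ⟨c, x⟩ = u.app m ⟨c, ⟨x, hx⟩⟩ := by
    intro m c x hx
    rw [← hw1]
    rfl
  have hel : ∀ (m : SimplexCategoryᵒᵖ) (b : B.obj m) (x : (Δ[n] : SSet.{0}).obj m),
      x ∈ (∂Δ[n] : (Δ[n] : SSet.{0}).Subcomplex).obj m →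
      v.app m ⟨b, x⟩ = w.app m ⟨j.app m b, x⟩ := by
    intro m b x hx
    rw [hu m _ x hx]
    exact (congrArg (fun f : B ⊗ (∂Δ[n] : SSet.{0}) ⟶ T => f.app m ⟨b, ⟨x, hx⟩⟩) huv).symm
  have hA : ∀ (m : SimplexCategoryᵒᵖ) (a : A.obj m) (x : (Δ[n] : SSet.{0}).obj m),
      w.app m ⟨j.app m (i.app m a), x⟩ = v.app m ⟨i.app m a, x⟩ := by
    intro m a x
    exact congrArg (fun f : A ⊗ Δ[n] ⟶ T => f.app m ⟨a, x⟩) hw2
  -- the homotopy
  let W := (∂Δ[n] : (Δ[n] : SSet.{0}).Subcomplex).unionProd LTC.ends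
  let W₀ := (∂Δ[n] : (Δ[n] : SSet.{0}).Subcomplex).unionProd (SSet.horn 1 0)
  obtain ⟨H, hH, -⟩ := h1 T A B i hi (W : SSet.{0}) (Δ[n] ⊗ Δ[1]) W.ι inferInstance
    (LTC.glue (∂Δ[n]) j v w hel) (A ◁ CartesianMonoidalCategory.fst Δ[n] Δ[1] ≫ i ▷ Δ[n] ≫ v)
    (by
      ext m z
      obtain ⟨a, ⟨⟨x, t⟩, hz⟩⟩ := z
      change (LTC.glue (∂Δ[n]) j v w hel).app m ⟨i.app m a, ⟨⟨x, t⟩, hz⟩⟩ =
        v.app m ⟨i.app m a, x⟩
      rw [LTC.glue_app]
      split_ifs with ht
      · rfl
      · exact hA m a x)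
  have hHv : ∀ (m : SimplexCategoryᵒᵖ) (b : B.obj m) (x : (Δ[n] : SSet.{0}).obj m)
      (t : (Δ[1] : SSet.{0}).obj m), LTC.IsOne t → H.app m ⟨b, ⟨x, t⟩⟩ = v.app m ⟨b, x⟩ := by
    intro m b x t ht
    have hz : (⟨x, t⟩ : (Δ[n] ⊗ Δ[1] : SSet.{0}).obj m) ∈ W.obj m :=
      (SSet.Subcomplex.mem_unionProd_iff _ _ _).mpr (Or.inl (Or.inr ht))
    have h2 := congrArg (fun f : B ⊗ (W : SSet.{0}) ⟶ T => f.app m ⟨b, ⟨⟨x, t⟩, hz⟩⟩) hH
    refine Eq.trans h2 ?_
    exact (LTC.glue_app _ _ _ _ _ m b x t hz).trans (if_pos ht)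
  have hHw : ∀ (m : SimplexCategoryᵒᵖ) (b : B.obj m) (x : (Δ[n] : SSet.{0}).obj m)
      (t : (Δ[1] : SSet.{0}).obj m), (⟨x, t⟩ : (Δ[n] ⊗ Δ[1] : SSet.{0}).obj m) ∈ W₀.obj m →
      H.app m ⟨b, ⟨x, t⟩⟩ = w.app m ⟨j.app m b, x⟩ := by
    intro m b x t h0
    have h0' := (SSet.Subcomplex.mem_unionProd_iff _ _ _).mp h0
    have hz : (⟨x, t⟩ : (Δ[n] ⊗ Δ[1] : SSet.{0}).obj m) ∈ W.obj m :=
      (SSet.Subcomplex.mem_unionProd_iff _ _ _).mpr (h0'.imp LTC.mem_ends_of_horn id)
    have h2 := congrArg (fun f : B ⊗ (W : SSet.{0}) ⟶ T => f.app m ⟨b, ⟨⟨x, t⟩, hz⟩⟩) hH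
    refine Eq.trans h2 ?_
    refine (LTC.glue_app _ _ _ _ _ m b x t hz).trans ?_
    split_ifs with ht
    · rcases h0' with h3 | h3
      · exact absurd ht (LTC.not_isOne_of_horn h3)
      · exact hel m b x h3
    · rfl
  -- the extension
  obtain ⟨G, hG1, hG2⟩ := LTC.extend_anodyne T j W₀.ι
    (SSet.anodyneExtensions_unionProd_ι _ _ (SSet.anodyneExtensions.horn_ι 0))
    (C ◁ (W₀.ι ≫ CartesianMonoidalCategory.fst Δ[n] Δ[1]) ≫ w) H (by
      ext m z
      obtain ⟨b, ⟨⟨x, t⟩, hz⟩⟩ := z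
      exact (hHw m b x t hz).symm)
  refine ⟨C ◁ SSet.ι₁ ≫ G, ?_, ?_⟩
  · ext m z
    obtain ⟨c, ⟨x, hx⟩⟩ := z
    refine Eq.trans ?_ (hu m c x hx)
    have hz : (⟨x, (SSet.ι₁.app m x).2⟩ : (Δ[n] ⊗ Δ[1] : SSet.{0}).obj m) ∈ W₀.obj m :=
      (SSet.Subcomplex.mem_unionProd_iff _ _ _).mpr (Or.inr hx)
    exact congrArg (fun f : C ⊗ (W₀ : SSet.{0}) ⟶ T => f.app m ⟨c, ⟨_, hz⟩⟩) hG1
  · ext m z
    obtain ⟨b, x⟩ := z
    have h2 := congrArg (fun f : B ⊗ (Δ[n] ⊗ Δ[1]) ⟶ T => f.app m ⟨b, SSet.ι₁.app m x⟩) hG2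
    refine Eq.trans h2 ?_
    exact hHv m b x _ (fun i => rfl)

end Pool.Agent.SH

end

end

section

/-!
# MP_2d0b73_an, PART II, module LTG (comparable monotone maps give homotopic nerve maps)
-/

noncomputable section

namespace Pool.Agent.SH

open CategoryTheory Simplicial MonoidalCategory Limits Opposite

namespace LTG

variable {P R : Type} [PartialOrder P] [PartialOrder R] (f g : P →o R)

theorem mono_aux (hfg : f ≤ g) (n : ℕ) (x : ComposableArrows P n) (t : Fin (n + 1) →o Fin 2) :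
    Monotone (fun k : Fin (n + 1) => if t k = 0 then f (x.obj k) else g (x.obj k)) := by
  intro k l hkl
  have hx : x.obj k ≤ x.obj l := (x.map (homOfLE hkl)).le
  have ht : t k ≤ t l := t.monotone hkl
  dsimp only
  by_cases h1 : t k = 0
  · rw [if_pos h1]
    by_cases h2 : t l = 0
    · rw [if_pos h2]
      exact f.monotone hx
    · rw [if_neg h2]
      exact (f.monotone hx).trans (hfg _)
  · rw [if_neg h1, if_neg]
    · exact g.monotone hx
    · intro h2
      apply h1
      rw [h2] at ht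
      exact le_antisymm ht (Fin.zero_le _)

/-- The homotopy on simplices. -/
def hfun (hfg : f ≤ g) (n : ℕ) (x : ComposableArrows P n) (t : Fin (n + 1) →o Fin 2) :
    ComposableArrows R n :=
  (mono_aux f g hfg n x t).functor

theorem hfun_obj (hfg : f ≤ g) (n : ℕ) (x : ComposableArrows P n) (t : Fin (n + 1) →o Fin 2)
    (k : Fin (n + 1)) :
    (hfun f g hfg n x t).obj k = if t k = 0 then f (x.obj k) else g (x.obj k) := rfl

/-- The homotopy. -/
def hmap (hfg : f ≤ g) : NP P ⊗ Δ[1] ⟶ NP R where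
  app n := TypeCat.ofHom fun x => hfun f g hfg n.unop.len x.1 (SSet.stdSimplex.asOrderHom x.2)
  naturality n m φ := by
    ext x k
    rfl

end LTG

theorem LTG : Stmt_LTG := by
  intro P R _ _ f g hfg
  refine ⟨{ h := LTG.hmap f g hfg, h₀ := ?_, h₁ := ?_, rel := ?_ }, ?_⟩
  · ext n x k
    rfl
  · ext n x k
    rfl
  · ext n x
    exact x.1.2.elim
  · intro U hU
    ext n x k
    change (if (SSet.stdSimplex.asOrderHom x.2) k = 0 then f (x.1.1.obj k) else g (x.1.1.obj k)) =
      f (x.1.1.obj k)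
    by_cases h : (SSet.stdSimplex.asOrderHom x.2) k = 0
    · rw [if_pos h]
    · rw [if_neg h]
      exact (hU _ (x.1.2 k)).symm

end Pool.Agent.SH

end

end

section

/-!
# MP_2d0b73_an, block TE: acyclic simplicial sets, bridge to `TAcyclic`
-/

open CategoryTheory MonoidalCategory Simplicial SSet HomotopicalAlgebra Opposite Limits

namespace Pool.Agent.SH

namespace TeAcy

theorem lt_iff {T A B : SSet.{0}} (i : A ⟶ B) : LT T i ↔ Mono i ∧ REXTB T i := Iff.rfl

theorem rextb_of_rext {T A B : SSet.{0}} {i : A ⟶ B} (h : REXT T i) : REXTB T i := by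
  intro n u v huv
  exact h _ _ _ u v huv

instance mono_vert {X : SSet.{0}} (x : X _⦋0⦌) : Mono (vert x) :=
  stdSimplex.isTerminalObj₀.mono_from _

end TeAcy

/-- For a Kan complex `T` and a monomorphism `i`: `LT T i` iff `W T i`. -/
theorem lt_iff_w (hB : TE_BDRY_Stmt) (hE : TE_KEYE_Stmt) (hK : TE_KEY_Stmt)
    (T : SSet.{0}) (hT : SSet.KanComplex T) {A B : SSet.{0}} (i : A ⟶ B) :
    LT T i ↔ Mono i ∧ W T i := by
  constructor
  · rintro ⟨h1, h2⟩
    exact ⟨h1, hE T hT A B i (hB T A B i h2)⟩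
  · rintro ⟨h1, h2⟩
    exact ⟨h1, TeAcy.rextb_of_rext (hK T hT A B i h1 h2)⟩

/-- `X` is acyclic for `T` iff `X ⟶ pt` is a `T`-equivalence (and `X` is nonempty). -/
theorem tacyclic_iff (hB : TE_BDRY_Stmt) (hE : TE_KEYE_Stmt) (hK : TE_KEY_Stmt)
    (h23 : TE_23_Stmt) (T : SSet.{0}) (hT : SSet.KanComplex T) (X : SSet.{0}) :
    TAcyclic T X ↔ Nonempty (X _⦋0⦌) ∧ W T (CartesianMonoidalCategory.toUnit X) := by
  obtain ⟨h1, h2, h3, h4, -⟩ := h23 T hT
  have iso0 : IsIso (CartesianMonoidalCategory.toUnit (Δ[0] : SSet.{0})) :=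
    isIso_of_isTerminal stdSimplex.isTerminalObj₀
      SemiCartesianMonoidalCategory.isTerminalTensorUnit _
  have key : ∀ x : X _⦋0⦌, W T (vert x) ↔ W T (CartesianMonoidalCategory.toUnit X) := by
    intro x
    have e : vert x ≫ CartesianMonoidalCategory.toUnit X =
      CartesianMonoidalCategory.toUnit (Δ[0] : SSet.{0}) := CartesianMonoidalCategory.toUnit_unique _ _
    have e' : W T (vert x ≫ CartesianMonoidalCategory.toUnit X) := by
      rw [e]; exact h1 _ _ _ iso0
    exact ⟨fun h => h3 _ _ _ _ _ h e', fun h => h4 _ _ _ _ _ h e'⟩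
  constructor
  · rintro ⟨x, hx⟩
    exact ⟨⟨x⟩, (key x).1 ((lt_iff_w hB hE hK T hT _).1 hx).2⟩
  · rintro ⟨⟨x⟩, hx⟩
    exact ⟨x, (lt_iff_w hB hE hK T hT _).2 ⟨inferInstance, (key x).2 hx⟩⟩

end Pool.Agent.SH


end

section

/-!
# MP_2d0b73_an, Part III-N (null closure of the labelled configurations): definitions

Simplicial sets with group actions, their quotients, the simplicial sets `EE X` (all sequences), the
simplicial sets `FM A A₀ Y W Z` of finitely supported functions on the simplices of `X` (free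
commutative monoids on pointed simplicial sets, and mixed coefficients), nerves of posets.
-/

set_option autoImplicit false

open CategoryTheory MonoidalCategory CartesianMonoidalCategory Simplicial Opposite

namespace Pool.Agent.SH

/-! ### `F₂`-acyclic simplicial sets, Moore form -/

/-- the face `d_i` on `F₂`-chains -/
noncomputable def dF {X : SSet.{0}} {n : ℕ} (i : Fin (n + 2)) (z : X _⦋n + 1⦌ →₀ ZMod 2) :
    X _⦋n⦌ →₀ ZMod 2 := z.mapDomain (X.δ i)

/-- `X` is nonempty and `F₂`-acyclic: every Moore cycle is a Moore boundary -/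
structure Ac2 (X : SSet.{0}) : Prop where
  ne : Nonempty (X _⦋0⦌)
  zero : ∀ z : X _⦋0⦌ →₀ ZMod 2, z.sum (fun _ a => a) = 0 →
    ∃ w : X _⦋1⦌ →₀ ZMod 2, dF 0 w = z ∧ dF 1 w = 0
  succ : ∀ (n : ℕ) (z : X _⦋n + 1⦌ →₀ ZMod 2), (∀ i : Fin (n + 2), dF i z = 0) →
    ∃ w : X _⦋n + 2⦌ →₀ ZMod 2, dF 0 w = z ∧ ∀ i : Fin (n + 2), dF i.succ w = 0

/-! ### Group actions and quotients -/

/-- an action of the group `G` on the simplicial set `W` -/
structure Act (G : Type) [Group G] (W : SSet.{0}) where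
  act : G → (W ⟶ W)
  one : act 1 = 𝟙 W
  mul : ∀ g h, act (g * h) = act h ≫ act g

namespace Act

variable {G : Type} [Group G] {W W' : SSet.{0}}

/-- the action on simplices -/
def ap (a : Act G W) (g : G) {n : SimplexCategoryᵒᵖ} (x : W.obj n) : W.obj n := (a.act g).app n x

theorem ap_one (a : Act G W) {n : SimplexCategoryᵒᵖ} (x : W.obj n) : a.ap 1 x = x := by
  rw [ap, a.one]
  rfl

theorem ap_mul (a : Act G W) (g h : G) {n : SimplexCategoryᵒᵖ} (x : W.obj n) :
    a.ap (g * h) x = a.ap g (a.ap h x) := by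
  rw [ap, a.mul]
  rfl

theorem ap_map (a : Act G W) (g : G) {n m : SimplexCategoryᵒᵖ} (θ : n ⟶ m) (x : W.obj n) :
    a.ap g (W.map θ x) = W.map θ (a.ap g x) := NatTrans.naturality_apply (a.act g) θ x

/-- free actions -/
def Free (a : Act G W) : Prop :=
  ∀ (n : SimplexCategoryᵒᵖ) (x : W.obj n) (g : G), a.ap g x = x → g = 1

/-- the diagonal action on a product -/
def prod (a : Act G W) (b : Act G W') : Act G (W ⊗ W') where
  act g := a.act g ⊗ₘ b.act g
  one := by rw [a.one, b.one]; simp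
  mul g h := by rw [a.mul, b.mul]; simp

/-- restriction to a subgroup -/
def restr (a : Act G W) (H : Subgroup G) : Act H W where
  act g := a.act g
  one := a.one
  mul g h := a.mul g h

end Act

/-- `q : W ⟶ V` is the quotient of `W` by the action of `G` -/
structure IsQuo {G : Type} [Group G] {W V : SSet.{0}} (a : Act G W) (q : W ⟶ V) : Prop where
  surj : ∀ n, Function.Surjective (q.app n)
  fib : ∀ (n : SimplexCategoryᵒᵖ) (x y : W.obj n), q.app n x = q.app n y ↔ ∃ g, a.ap g x = y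

/-- the simplicial set of all sequences in `X` -/
def EE (X : Type) : SSet.{0} where
  obj n := Fin (n.unop.len + 1) → X
  map f := TypeCat.ofHom (fun x i => x (f.unop.toOrderHom i))

/-- the action of `G` on `EE X` for a `G`-set `X` -/
def EEact (G X : Type) [Group G] [MulAction G X] : Act G (EE X) where
  act g := { app := fun n => TypeCat.ofHom (fun (x : Fin (n.unop.len + 1) → X) i => g • x i) }
  one := by
    ext n x
    funext i
    exact one_smul G (x i)
  mul g h := by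
    ext n x
    funext i
    exact mul_smul g h (x i)

/-! ### Nerves of posets -/

/-- the nerve of a poset: monotone sequences -/
def NO (P : Type) [PartialOrder P] : SSet.{0} where
  obj n := Fin (n.unop.len + 1) →o P
  map f := TypeCat.ofHom (fun x => x.comp f.unop.toOrderHom)

/-- the sequences in the nerve with all terms in `U` -/
def NOs {P : Type} [PartialOrder P] (U : Set P) : (NO P).Subcomplex where
  obj n := Set.ofPred (fun x : Fin (n.unop.len + 1) →o P => ∀ i, x i ∈ U)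
  map _ _ hx _ := hx _

/-- monotone maps induce maps of nerves -/
def NOmap {P Q : Type} [PartialOrder P] [PartialOrder Q] (f : P →o Q) : NO P ⟶ NO Q where
  app n := TypeCat.ofHom (fun x => f.comp x)

/-! ### Finitely supported functions on the simplices -/

theorem FM_supp {A : Type} [AddCommMonoid A] {X : SSet.{0}} {n m : SimplexCategoryᵒᵖ} (θ : n ⟶ m)
    (f : X.obj n →₀ A) (x : X.obj m) (h : f.mapDomain (X.map θ) x ≠ 0) :
    ∃ y, f y ≠ 0 ∧ X.map θ y = x := by
  classical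
  by_contra hc
  push Not at hc
  apply h
  rw [Finsupp.mapDomain, Finsupp.sum_apply, Finsupp.sum]
  refine Finset.sum_eq_zero fun y hy => ?_
  rw [Finsupp.single_apply, if_neg (hc y (Finsupp.mem_support_iff.1 hy))]

theorem FM_mem {A : Type} [AddCommMonoid A] (A₀ : AddSubmonoid A) {X : SSet.{0}}
    {n m : SimplexCategoryᵒᵖ} (θ : n ⟶ m)
    (f : X.obj n →₀ A) (x : X.obj m) (h : ∀ y, X.map θ y = x → f y ∈ A₀) :
    f.mapDomain (X.map θ) x ∈ A₀ := by
  classical
  rw [Finsupp.mapDomain, Finsupp.sum_apply, Finsupp.sum]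
  refine AddSubmonoid.sum_mem _ fun y hy => ?_
  rw [Finsupp.single_apply]
  split_ifs with h'
  · exact h y h'
  · exact A₀.zero_mem

open scoped Classical in
theorem FM_filter {A : Type} [AddCommMonoid A] {X : SSet.{0}} (Z : X.Subcomplex)
    {n m : SimplexCategoryᵒᵖ} (θ : n ⟶ m) (f : X.obj n →₀ A) :
    ((f.filter (fun x => x ∉ Z.obj n)).mapDomain (X.map θ)).filter (fun x => x ∉ Z.obj m)
      = (f.mapDomain (X.map θ)).filter (fun x => x ∉ Z.obj m) := by
  have e := Finsupp.filter_add_filter_not f (fun x => x ∉ Z.obj n)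
  conv_rhs => rw [← e]
  rw [Finsupp.mapDomain_add, Finsupp.filter_add]
  have h0 : ((f.filter (fun x => ¬ x ∉ Z.obj n)).mapDomain (X.map θ)).filter
      (fun x => x ∉ Z.obj m) = 0 := by
    ext x
    rw [Finsupp.filter_apply]
    by_cases h : x ∉ Z.obj m
    · rw [if_pos h]
      by_contra hc
      obtain ⟨y, hy, rfl⟩ := FM_supp θ _ _ hc
      rw [Finsupp.filter_apply] at hy
      by_cases h' : ¬ y ∉ Z.obj n
      · exact h (Z.map θ (not_not.1 h'))
      · rw [if_neg h'] at hy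
        exact hy rfl
    · rw [if_neg h]
      rfl
  rw [h0, add_zero]

open scoped Classical in
/-- Functions `f` with finite support on the simplices of `X`, with support in `W` and off `Z`, with
values in `A`, and in `A₀` off `Y`. With `Y = ⊤` this is `A[W/Z]`, with `Y = ⊥` it is `A₀[W/Z]`. -/
noncomputable def FM (A : Type) [AddCommMonoid A] (A₀ : AddSubmonoid A) {X : SSet.{0}}
    (Y W Z : X.Subcomplex) : SSet.{0} where
  obj n := {f : X.obj n →₀ A // (∀ x, f x ≠ 0 → x ∈ W.obj n ∧ x ∉ Z.obj n) ∧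
    ∀ x, x ∉ Y.obj n → f x ∈ A₀}
  map {n m} θ := TypeCat.ofHom (fun f =>
    ⟨(f.1.mapDomain (X.map θ)).filter (fun x => x ∉ Z.obj m), by
      refine ⟨fun x hx => ?_, fun x hx => ?_⟩
      · rw [Finsupp.filter_apply] at hx
        by_cases h : x ∉ Z.obj m
        · rw [if_pos h] at hx
          obtain ⟨y, hy, rfl⟩ := FM_supp θ _ _ hx
          exact ⟨W.map θ (f.2.1 y hy).1, h⟩
        · rw [if_neg h] at hx
          exact absurd rfl hx
      · rw [Finsupp.filter_apply]
        by_cases h : x ∉ Z.obj m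
        · rw [if_pos h]
          refine FM_mem A₀ θ _ _ fun y hy => f.2.2 y fun hY => hx ?_
          rw [← hy]
          exact Y.map θ hY
        · rw [if_neg h]
          exact A₀.zero_mem⟩)
  map_id n := by
    refine ConcreteCategory.hom_ext _ _ fun f => Subtype.ext ?_
    show (f.1.mapDomain (X.map (𝟙 n))).filter (fun x => x ∉ Z.obj n) = f.1
    have e : (X.map (𝟙 n) : X.obj n → X.obj n) = id := by
      rw [X.map_id]
      rfl
    rw [e, Finsupp.mapDomain_id, Finsupp.filter_eq_self_iff]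
    exact fun x hx => (f.2.1 x hx).2
  map_comp {n m k} θ η := by
    refine ConcreteCategory.hom_ext _ _ fun f => Subtype.ext ?_
    show (f.1.mapDomain (X.map (θ ≫ η))).filter (fun x => x ∉ Z.obj k)
      = (((f.1.mapDomain (X.map θ)).filter (fun x => x ∉ Z.obj m)).mapDomain (X.map η)).filter
        (fun x => x ∉ Z.obj k)
    rw [FM_filter, ← Finsupp.mapDomain_comp]
    congr 1
    rw [X.map_comp]
    rfl


/-- the underlying function of a simplex of `FM` -/
def FM.fn {A : Type} [AddCommMonoid A] {A₀ : AddSubmonoid A} {X : SSet.{0}}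
    {Y W Z : X.Subcomplex} {n : SimplexCategoryᵒᵖ} (f : (FM A A₀ Y W Z).obj n) : X.obj n →₀ A := f.1

end Pool.Agent.SH


end

section

/-!
# MP_2d0b73_an, Part III-N: maps of the simplicial sets `FM`, coefficients
-/

set_option autoImplicit false

open CategoryTheory MonoidalCategory CartesianMonoidalCategory Simplicial Opposite

namespace Pool.Agent.SH

section maps

variable {A : Type} [AddCommMonoid A] {X X' : SSet.{0}}

theorem FM_supp' (u : X ⟶ X') {n : SimplexCategoryᵒᵖ} (f : X.obj n →₀ A) (x : X'.obj n)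
    (h : f.mapDomain (u.app n) x ≠ 0) : ∃ y, f y ≠ 0 ∧ u.app n y = x := by
  classical
  by_contra hc
  push Not at hc
  apply h
  rw [Finsupp.mapDomain, Finsupp.sum_apply, Finsupp.sum]
  refine Finset.sum_eq_zero fun y hy => ?_
  rw [Finsupp.single_apply, if_neg (hc y (Finsupp.mem_support_iff.1 hy))]

theorem FM_mem' (A₀ : AddSubmonoid A) (u : X ⟶ X') {n : SimplexCategoryᵒᵖ}
    (f : X.obj n →₀ A) (x : X'.obj n) (h : ∀ y, u.app n y = x → f y ∈ A₀) :
    f.mapDomain (u.app n) x ∈ A₀ := by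
  classical
  rw [Finsupp.mapDomain, Finsupp.sum_apply, Finsupp.sum]
  refine AddSubmonoid.sum_mem _ fun y hy => ?_
  rw [Finsupp.single_apply]
  split_ifs with h'
  · exact h y h'
  · exact A₀.zero_mem

open scoped Classical in
theorem FM_filter' (u : X ⟶ X') {Z : X.Subcomplex} {Z' : X'.Subcomplex} (hZ : Z ≤ Z'.preimage u)
    {n : SimplexCategoryᵒᵖ} (f : X.obj n →₀ A) :
    ((f.filter (fun x => x ∉ Z.obj n)).mapDomain (u.app n)).filter (fun x => x ∉ Z'.obj n)
      = (f.mapDomain (u.app n)).filter (fun x => x ∉ Z'.obj n) := by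
  have e := Finsupp.filter_add_filter_not f (fun x => x ∉ Z.obj n)
  conv_rhs => rw [← e]
  rw [Finsupp.mapDomain_add, Finsupp.filter_add]
  have h0 : ((f.filter (fun x => ¬ x ∉ Z.obj n)).mapDomain (u.app n)).filter
      (fun x => x ∉ Z'.obj n) = 0 := by
    ext x
    rw [Finsupp.filter_apply]
    by_cases h : x ∉ Z'.obj n
    · rw [if_pos h]
      by_contra hc
      obtain ⟨y, hy, rfl⟩ := FM_supp' u _ _ hc
      rw [Finsupp.filter_apply] at hy
      by_cases h' : ¬ y ∉ Z.obj n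
      · exact h (hZ n (not_not.1 h'))
      · rw [if_neg h'] at hy
        exact hy rfl
    · rw [if_neg h]
      rfl
  rw [h0, add_zero]

open scoped Classical in
/-- A map `u` of simplicial sets induces a map of the simplicial sets `FM` (push forward, then
restrict off `Z'`).  With `u = 𝟙` these are the inclusions and projections. -/
noncomputable def FMmap (A₀ : AddSubmonoid A) (u : X ⟶ X') {Y W Z : X.Subcomplex}
    {Y' W' Z' : X'.Subcomplex} (hY : Y ≤ Y'.preimage u) (hW : W ≤ W'.preimage u)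
    (hZ : Z ≤ Z'.preimage u) : FM A A₀ Y W Z ⟶ FM A A₀ Y' W' Z' where
  app n := TypeCat.ofHom (fun f =>
    ⟨(f.1.mapDomain (u.app n)).filter (fun x => x ∉ Z'.obj n), by
      refine ⟨fun x hx => ?_, fun x hx => ?_⟩
      · rw [Finsupp.filter_apply] at hx
        by_cases h : x ∉ Z'.obj n
        · rw [if_pos h] at hx
          obtain ⟨y, hy, rfl⟩ := FM_supp' u _ _ hx
          exact ⟨hW n (f.2.1 y hy).1, h⟩
        · rw [if_neg h] at hx
          exact absurd rfl hx
      · rw [Finsupp.filter_apply]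
        by_cases h : x ∉ Z'.obj n
        · rw [if_pos h]
          refine FM_mem' A₀ u _ _ fun y hy => f.2.2 y fun hYy => hx ?_
          rw [← hy]
          exact hY n hYy
        · rw [if_neg h]
          exact A₀.zero_mem⟩)
  naturality n m θ := by
    refine ConcreteCategory.hom_ext _ _ fun f => Subtype.ext ?_
    show (((f.1.mapDomain (X.map θ)).filter (fun x => x ∉ Z.obj m)).mapDomain (u.app m)).filter
        (fun x => x ∉ Z'.obj m)
      = (((f.1.mapDomain (u.app n)).filter (fun x => x ∉ Z'.obj n)).mapDomain (X'.map θ)).filter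
        (fun x => x ∉ Z'.obj m)
    rw [FM_filter, FM_filter' u hZ, ← Finsupp.mapDomain_comp, ← Finsupp.mapDomain_comp]
    congr 2
    funext x
    exact NatTrans.naturality_apply u θ x

end maps

/-- A homomorphism of coefficients which kills `A₀`. -/
noncomputable def FMco {A B : Type} [AddCommMonoid A] [AddCommMonoid B] (A₀ : AddSubmonoid A)
    (φ : A →+ B) (hφ : ∀ a ∈ A₀, φ a = 0) {X : SSet.{0}} (Y W Z : X.Subcomplex) :
    FM A A₀ Y W Z ⟶ FM B ⊤ ⊤ (W ⊓ Y) Z where
  app n := TypeCat.ofHom (fun f =>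
    ⟨f.1.mapRange φ φ.map_zero, by
      refine ⟨fun x hx => ?_, fun x _ => AddSubmonoid.mem_top _⟩
      rw [Finsupp.mapRange_apply] at hx
      have h1 : f.1 x ≠ 0 := fun h => hx (by rw [h, map_zero])
      refine ⟨⟨(f.2.1 x h1).1, ?_⟩, (f.2.1 x h1).2⟩
      by_contra hY
      exact hx (hφ _ (f.2.2 x hY))⟩)
  naturality n m θ := by
    classical
    refine ConcreteCategory.hom_ext _ _ fun f => Subtype.ext ?_
    obtain ⟨f, hf⟩ := f
    show (((f.mapDomain (X.map θ)).filter (fun x => x ∉ Z.obj m)).mapRange φ φ.map_zero)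
      = ((f.mapRange φ φ.map_zero).mapDomain (X.map θ)).filter (fun x => x ∉ Z.obj m)
    rw [Finsupp.mapDomain_mapRange _ _ _ φ.map_zero φ.map_add]
    ext x
    rw [Finsupp.mapRange_apply, Finsupp.filter_apply, Finsupp.filter_apply]
    by_cases h : x ∉ Z.obj m
    · rw [if_pos h, if_pos h, Finsupp.mapRange_apply]
    · rw [if_neg h, if_neg h, map_zero]

/-! ### Coefficients: nonnegative dyadic numbers, and dyadic numbers modulo `1` -/

/-- the nonnegative dyadic numbers -/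
def Qd : AddSubmonoid ℚ where
  carrier := {q | 0 ≤ q ∧ ∃ k m : ℕ, q * 2 ^ k = m}
  zero_mem' := ⟨le_refl 0, 0, 0, by simp⟩
  add_mem' := by
    rintro a b ⟨ha, k, m, hk⟩ ⟨hb, l, p, hl⟩
    refine ⟨add_nonneg ha hb, k + l, m * 2 ^ l + p * 2 ^ k, ?_⟩
    push_cast
    rw [← hk, ← hl]
    ring

/-- the natural numbers inside `Qd` -/
def Nd : AddSubmonoid Qd where
  carrier := {q | ∃ m : ℕ, (q : ℚ) = m}
  zero_mem' := ⟨0, by simp⟩
  add_mem' := by
    rintro a b ⟨m, hm⟩ ⟨p, hp⟩
    exact ⟨m + p, by push_cast; rw [hm, hp]⟩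

/-- the elements of `ℚ / ℤ` whose order is a power of two -/
def Dd : AddSubgroup (ℚ ⧸ AddSubgroup.zmultiples (1 : ℚ)) where
  carrier := {d | ∃ k : ℕ, 2 ^ k • d = 0}
  zero_mem' := ⟨0, by simp⟩
  add_mem' := by
    rintro a b ⟨k, hk⟩ ⟨l, hl⟩
    refine ⟨k + l, ?_⟩
    rw [smul_add, pow_add, mul_comm (2 ^ k) (2 ^ l), mul_smul, hk, mul_comm (2 ^ l) (2 ^ k),
      mul_smul, hl]
    simp
  neg_mem' := by
    rintro a ⟨k, hk⟩
    exact ⟨k, by rw [smul_neg, hk, neg_zero]⟩

/-- reduction modulo one -/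
def md : Qd →+ Dd where
  toFun q := ⟨QuotientAddGroup.mk (q : ℚ), by
    obtain ⟨k, m, hk⟩ := q.2.2
    refine ⟨k, ?_⟩
    rw [← QuotientAddGroup.mk_nsmul, QuotientAddGroup.eq_zero_iff]
    refine ⟨m, ?_⟩
    simp only [zsmul_eq_mul, mul_one, nsmul_eq_mul, Nat.cast_pow, Nat.cast_ofNat, Int.cast_natCast]
    rw [← hk, mul_comm]⟩
  map_zero' := rfl
  map_add' a b := rfl

theorem md_Nd (a : Qd) (ha : a ∈ Nd) : md a = 0 := by
  obtain ⟨m, hm⟩ := ha
  apply Subtype.ext
  show (QuotientAddGroup.mk (a : ℚ) : ℚ ⧸ AddSubgroup.zmultiples (1 : ℚ)) = 0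
  rw [QuotientAddGroup.eq_zero_iff]
  exact ⟨m, by simp [hm]⟩

/-! ### The label space -/

/-- the elements of `Sph 2` of level at most one: a circle -/
def US : Set (Sph 2) := {x | x.lev ≠ Fin.last 2}

/-- the circle together with one pole -/
def UC (e : Bool) : Set (Sph 2) := {x | x.lev = Fin.last 2 → x.sgn = e}

/-- the base point -/
def UZ : Set (Sph 2) := {0}

end Pool.Agent.SH


end

section

/-!
# MP_2d0b73_an, Part III-N: statements

Every statement is about a class `P` of maps with the closure properties `WClass P` (DefsTE).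
-/

set_option autoImplicit false

open CategoryTheory MonoidalCategory CartesianMonoidalCategory Simplicial Opposite

namespace Pool.Agent.SH

/-- `X` is acyclic for the class `P`. -/
def Acy (P : MorphismProperty SSet.{0}) (X : SSet.{0}) : Prop := P (toUnit X)

/-- The input: `B ℤ/2` is acyclic (the quotient of the simplicial set of all sequences of Booleans by
the simultaneous negation). -/
def BInput (P : MorphismProperty SSet.{0}) : Prop :=
  ∀ (V : SSet.{0}) (q : EE Bool ⟶ V), (∀ n, Function.Surjective (q.app n)) →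
    (∀ (n : SimplexCategoryᵒᵖ) (x y : Fin (n.unop.len + 1) → Bool),
      q.app n x = q.app n y ↔ y = x ∨ y = fun i => !(x i)) → Acy P V

/-- The stabiliser of a simplex. -/
def Act.stab {G : Type} [Group G] {Y : SSet.{0}} (b : Act G Y) {n : SimplexCategoryᵒᵖ}
    (y : Y.obj n) : Subgroup G where
  carrier := {g | b.ap g y = y}
  one_mem' := b.ap_one y
  mul_mem' := by
    intro g h hg hh
    show b.ap (g * h) y = y
    rw [b.ap_mul, show b.ap h y = y from hh]
    exact hg
  inv_mem' := by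
    intro g hg
    show b.ap g⁻¹ y = y
    have h : b.ap g y = y := hg
    conv_lhs => rw [← h]
    rw [← b.ap_mul, inv_mul_cancel, b.ap_one]

/-! ## Groups -/

/-- (N1) quotients exist. -/
def N_QEX_Stmt : Prop := ∀ (G : Type) [Group G] (W : SSet.{0}) (a : Act G W),
  ∃ (V : SSet.{0}) (q : W ⟶ V), IsQuo a q

/-- (N2) invariant maps descend to the quotient; two maps on the quotient which agree on `W` are
equal. -/
def N_QDESC_Stmt : Prop := ∀ (G : Type) [Group G] (W V U : SSet.{0}) (a : Act G W) (q : W ⟶ V),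
  IsQuo a q → (∀ f : W ⟶ U, (∀ g, a.act g ≫ f = f) → ∃ f' : V ⟶ U, q ≫ f' = f) ∧
    ∀ f g : V ⟶ U, q ≫ f = q ≫ g → f = g

/-- (N3) the simplicial set of all sequences is acyclic. -/
def N_EE_Stmt : Prop := ∀ P : MorphismProperty SSet.{0}, WClass P → ∀ (X : Type), Nonempty X →
  Acy P (EE X)

/-- (N4) the projections of `(W₁ × W₂) / G`. -/
def N_QPROJ_Stmt : Prop := ∀ P : MorphismProperty SSet.{0}, WClass P → ∀ (G : Type) [Group G]
  (W₁ W₂ : SSet.{0}) (a₁ : Act G W₁) (a₂ : Act G W₂) (Q : SSet.{0}) (q : W₁ ⊗ W₂ ⟶ Q),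
  IsQuo (a₁.prod a₂) q →
  (∀ (V : SSet.{0}) (p : W₁ ⟶ V) (π : Q ⟶ V), a₁.Free → IsQuo a₁ p → q ≫ π = fst W₁ W₂ ≫ p →
    Acy P W₂ → P π) ∧
  (∀ (V : SSet.{0}) (p : W₂ ⟶ V) (π : Q ⟶ V), a₂.Free → IsQuo a₂ p → q ≫ π = snd W₁ W₂ ≫ p →
    Acy P W₁ → P π)

/-- (N5) quotients by free involutions. -/
def N_INV_Stmt : Prop := ∀ P : MorphismProperty SSet.{0}, WClass P → BInput P →
  ∀ (V V' : SSet.{0}) (τ : V ⟶ V) (q : V ⟶ V'), τ ≫ τ = 𝟙 V →
  (∀ (n : SimplexCategoryᵒᵖ) (x : V.obj n), τ.app n x ≠ x) →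
  (∀ n, Function.Surjective (q.app n)) →
  (∀ (n : SimplexCategoryᵒᵖ) (x y : V.obj n), q.app n x = q.app n y ↔ y = x ∨ y = τ.app n x) →
  Acy P V → Acy P V'

/-- (N6) quotients by free actions of finite `2`-groups. -/
def N_TWO_Stmt : Prop := ∀ P : MorphismProperty SSet.{0}, WClass P → BInput P →
  ∀ (G : Type) [Group G] (k : ℕ), Nat.card G = 2 ^ k → ∀ (W V : SSet.{0}) (a : Act G W)
  (q : W ⟶ V), a.Free → IsQuo a q → Acy P W → Acy P V

/-- (N7) `(W × Y) / G → Y / G`, whose open fibres are the quotients of `W` by stabilisers. -/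
def N_ORB_Stmt : Prop := ∀ P : MorphismProperty SSet.{0}, WClass P → ∀ (G : Type) [Group G]
  (W Y : SSet.{0}) (a : Act G W) (b : Act G Y) (E B : SSet.{0}) (q : W ⊗ Y ⟶ E) (r : Y ⟶ B)
  (π : E ⟶ B), a.Free → IsQuo (a.prod b) q → IsQuo b r → q ≫ π = snd W Y ≫ r →
  (∀ (n : SimplexCategoryᵒᵖ) (y : Y.obj n) (V : SSet.{0}) (p : W ⟶ V),
    IsQuo (a.restr (b.stab y)) p → Acy P V) → P π

/-- (N8) the quotient of the simplicial set of all sequences in `G ⧸ S` is `F₂`-acyclic if the index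
is odd. -/
def N_SYL_Stmt : Prop := ∀ (G : Type) [Group G] [Finite G] (S : Subgroup G), Odd S.index →
  ∀ (V : SSet.{0}) (q : EE (G ⧸ S) ⟶ V), IsQuo (EEact G (G ⧸ S)) q → Ac2 V

/-- (N9) quotients by free actions of finite groups. -/
def N_FIN_Stmt : Prop := ∀ P : MorphismProperty SSet.{0}, WClass P →
  (∀ X : SSet.{0}, Ac2 X → Acy P X) → BInput P →
  ∀ (G : Type) [Group G] [Finite G] (W V : SSet.{0}) (a : Act G W) (q : W ⟶ V), a.Free →
  IsQuo a q → Acy P W → Acy P V

/-! ## The simplicial sets `FM` -/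

/-- (F1) the projection `A[W/Z] → A[W/Z']` has open fibres `A[Z'/Z]`. -/
def N_FMC_Stmt : Prop := ∀ P : MorphismProperty SSet.{0}, WClass P → ∀ (A : Type)
  [AddCommMonoid A] (A₀ : AddSubmonoid A) (X : SSet.{0}) (Y W Z Z' : X.Subcomplex) (h : Z ≤ Z'),
  Acy P (FM A A₀ Y (W ⊓ Z') Z) →
  P (FMmap A₀ (𝟙 X) (le_refl Y) (le_refl W) h : FM A A₀ Y W Z ⟶ FM A A₀ Y W Z')

/-- (F2) reduction modulo one: open fibres with integral coefficients. -/
def N_FMD_Stmt : Prop := ∀ P : MorphismProperty SSet.{0}, WClass P → ∀ (X : SSet.{0})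
  (Y W Z : X.Subcomplex), Acy P (FM Qd Nd ⊥ W Z) → P (FMco Nd md md_Nd Y W Z)

/-- (F3) excision: `A[W/Z]` only depends on the simplices in `W` and off `Z`. -/
def N_EXC_Stmt : Prop := ∀ (A : Type) [AddCommMonoid A] (A₀ : AddSubmonoid A) (X : SSet.{0})
  (Y Y' W W' Z Z' : X.Subcomplex) (hY : Y ≤ Y') (hW : W ≤ W') (hZ : Z ≤ Z'),
  (∀ (n : SimplexCategoryᵒᵖ) (x : X.obj n), (x ∈ W.obj n ∧ x ∉ Z.obj n) ↔
    (x ∈ W'.obj n ∧ x ∉ Z'.obj n)) →
  (∀ (n : SimplexCategoryᵒᵖ) (x : X.obj n), x ∈ W.obj n → x ∉ Z.obj n →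
    (x ∈ Y.obj n ↔ x ∈ Y'.obj n)) →
  IsIso (FMmap A₀ (𝟙 X) hY hW hZ : FM A A₀ Y W Z ⟶ FM A A₀ Y' W' Z')

/-- (F4) change of coefficients: `ℕ` and the submonoid `Nd` of `Qd`. -/
def N_COEF_Stmt : Prop := ∀ (X : SSet.{0}) (W Z : X.Subcomplex),
  Nonempty (FM ℕ ⊤ ⊤ W Z ≅ FM Qd Nd ⊥ W Z)

/-- Homotopies of endomorphisms which preserve `Y` and `Z`. -/
def PHty {X : SSet.{0}} (Y Z : X.Subcomplex) (u v : X ⟶ X) : Prop :=
  ∃ h : X ⊗ Δ[1] ⟶ X, SSet.ι₀ ≫ h = u ∧ SSet.ι₁ ≫ h = v ∧
    ∀ (n : SimplexCategoryᵒᵖ) (x : X.obj n) (t : (Δ[1] : SSet.{0}).obj n),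
      (x ∈ Y.obj n → h.app n (x, t) ∈ Y.obj n) ∧ (x ∈ Z.obj n → h.app n (x, t) ∈ Z.obj n)

/-- (F5) contractible pairs. -/
def N_CTR_Stmt : Prop := ∀ P : MorphismProperty SSet.{0}, WClass P → ∀ (A : Type)
  [AddCommMonoid A] (A₀ : AddSubmonoid A) (X : SSet.{0}) (Y Z : X.Subcomplex) (u : X ⟶ X),
  Relation.EqvGen (PHty Y Z) (𝟙 X) u → SSet.Subcomplex.range u ≤ Z →
  Acy P (FM A A₀ Y ⊤ Z)

/-- (F6) the simplicial set `FM` of a subcomplex `W`, inside `W`. -/
def N_RES_Stmt : Prop := ∀ (A : Type) [AddCommMonoid A] (A₀ : AddSubmonoid A) (X X' : SSet.{0})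
  (i : X' ⟶ X) (Y Z : X.Subcomplex), Mono i →
  Nonempty (FM A A₀ (Y.preimage i) ⊤ (Z.preimage i) ≅ FM A A₀ Y (SSet.Subcomplex.range i) Z)

/-- (F7a) comparable order preserving maps induce homotopic maps of nerves. -/
def N_NOH_Stmt : Prop := ∀ (S S' : Type) [PartialOrder S] [PartialOrder S'] (f g : S →o S'),
  f ≤ g → ∃ h : NO S ⊗ Δ[1] ⟶ NO S', SSet.ι₀ ≫ h = NOmap f ∧ SSet.ι₁ ≫ h = NOmap g ∧
    ∀ (n : SimplexCategoryᵒᵖ) (x : Fin (n.unop.len + 1) →o S) (t : (Δ[1] : SSet.{0}).obj n)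
      (y : Fin (n.unop.len + 1) →o S'), h.app n (x, t) = y →
      ∀ i, y i = f (x i) ∨ y i = g (x i)

/-- (F7) contractible pairs of posets: a zigzag of order preserving maps of `U` which preserve `E`,
from the identity to a map with values in `E`. -/
def N_PCTR_Stmt : Prop := ∀ P : MorphismProperty SSet.{0}, WClass P → ∀ (A : Type)
  [AddCommMonoid A] (A₀ : AddSubmonoid A) (S : Type) [PartialOrder S] (U E : Set S)
  (f : U →o U), Relation.EqvGen (fun g g' : U →o U => g ≤ g' ∧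
    ∀ x : U, (x : S) ∈ E → ((g x : U) : S) ∈ E ∧ ((g' x : U) : S) ∈ E) OrderHom.id f →
  (∀ x : U, ((f x : U) : S) ∈ E) → ∀ Y : (NO S).Subcomplex, (Y = ⊥ ∨ Y = ⊤) →
  Acy P (FM A A₀ Y (NOs U) (NOs E))

/-- (F8) cones: the circle with one pole, pointed by `0`. -/
def N_CONE_Stmt : Prop := ∀ P : MorphismProperty SSet.{0}, WClass P → ∀ (A : Type)
  [AddCommMonoid A] (A₀ : AddSubmonoid A) (e : Bool),
  Acy P (FM A A₀ ⊥ (NOs (UC e)) (NOs UZ))

/-- (F9) a simplicial commutative monoid in which multiplication by two is bijective has no Moore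
cycles over `F₂` in positive degrees, up to boundaries. -/
def N_UD_Stmt : Prop := ∀ (X : SSet.{0}) (_ : ∀ n, AddCommMonoid (X.obj n)),
  (∀ (n m : SimplexCategoryᵒᵖ) (θ : n ⟶ m) (x y : X.obj n), X.map θ (x + y) = X.map θ x + X.map θ y) →
  (∀ n, Function.Bijective (fun x : X.obj n => x + x)) →
  ∀ (n : ℕ) (z : X _⦋n + 1⦌ →₀ ZMod 2), (∀ i : Fin (n + 2), dF i z = 0) →
    ∃ w : X _⦋n + 2⦌ →₀ ZMod 2, dF 0 w = z ∧ ∀ i : Fin (n + 2), dF i.succ w = 0

/-- (F10) the dyadic coefficients on the circle. -/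
def N_QY_Stmt : Prop := Ac2 (FM Qd Nd (NOs US) (NOs US) (NOs UZ))

/-- the edge of the circle which does not touch the base point, with its two ends -/
def U3 : Set (Sph 2) := {x | x.sgn = true ∧ x.lev ≠ Fin.last 2}

/-- the two ends of the edge -/
def Z3 : (NO (Sph 2)).Subcomplex := NOs {x | x.sgn = true ∧ x.lev = 0} ⊔
  NOs {x | x.sgn = true ∧ x.lev = 1}

/-- (F11) `D[Δ¹/∂Δ¹]` is the quotient of all sequences in `D` by translations. -/
def N_BDQ_Stmt : Prop := ∀ (D : Type) [AddCommGroup D],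
  ∃ q : EE (Multiplicative D) ⟶ FM D ⊤ ⊤ (NOs U3) Z3,
    IsQuo (EEact (Multiplicative D) (Multiplicative D)) q

/-- (F12) `B D` is acyclic for `D = ℤ[1/2]/ℤ`. -/
def N_BD_Stmt : Prop := ∀ P : MorphismProperty SSet.{0}, WClass P → BInput P →
  Acy P (FM Dd ⊤ ⊤ (NOs U3) Z3)

/-- (F13) `D[circle]` is acyclic. -/
def N_DY_Stmt : Prop := ∀ P : MorphismProperty SSet.{0}, WClass P → BInput P →
  Acy P (FM Dd ⊤ ⊤ (NOs US) (NOs UZ))

/-- (F14) the free commutative monoid on the sphere of dimension two is acyclic. -/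
def N_NN_Stmt : Prop := ∀ P : MorphismProperty SSet.{0}, WClass P →
  (∀ X : SSet.{0}, Ac2 X → Acy P X) → BInput P → Acy P (FM ℕ ⊤ ⊤ ⊤ (NOs UZ))

/-! ## Result of part III-N -/

/-- the labelled configurations are acyclic -/
def N_MAIN_Stmt : Prop := ∀ P : MorphismProperty SSet.{0}, WClass P →
  (∀ (X Y : SSet.{0}) (f : X ⟶ Y), F2Iso f → P f) → BInput P → Acy P (NO (LL (Sph 2)))

end Pool.Agent.SH


end

section

/-!
# MP_2d0b73_an, III-N: the map from the nerve of `LL S` to the free monoid on the nerve of `S`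
-/

set_option autoImplicit false

open CategoryTheory Simplicial Opposite

namespace Pool.Agent.SH

variable {S : Type} [PartialOrder S] [Zero S]

open Classical in
/-- The chain of labels of the track `a`. -/
noncomputable def chl {n : ℕ} (x : Fin (n + 1) →o LL S) (a : ℕ →₀ ℕ) : Fin (n + 1) →o S :=
  if h : Monotone fun i => (x i).lb a then ⟨_, h⟩ else c0 S n

theorem chl_apply {n : ℕ} (x : Fin (n + 1) →o LL S) {a : ℕ →₀ ℕ}
    (ha : a ∈ (x (Fin.last n)).C.support) (i : Fin (n + 1)) : chl x a i = (x i).lb a := by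
  have h : Monotone fun i => (x i).lb a := fun i j hij =>
    LL.lb_le_lb (x.monotone hij) (x.monotone (Fin.le_last j)) ha
  rw [chl, dif_pos h]
  rfl

theorem chl_last {n : ℕ} (x : Fin (n + 1) →o LL S) {a : ℕ →₀ ℕ}
    (ha : a ∈ (x (Fin.last n)).C.support) : chl x a (Fin.last n) ≠ 0 := by
  rw [chl_apply x ha, LL.lb_self ha]
  exact Finsupp.mem_support_iff.1 ha

/-- The multiset of label chains. -/
noncomputable def pfun {n : ℕ} (x : Fin (n + 1) →o LL S) : (Fin (n + 1) →o S) →₀ ℕ :=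
  ∑ a ∈ (x (Fin.last n)).C.support, Finsupp.single (chl x a) 1

theorem pfun_ne {n : ℕ} {x : Fin (n + 1) →o LL S} {c : Fin (n + 1) →o S} (h : pfun x c ≠ 0) :
    ∃ a ∈ (x (Fin.last n)).C.support, chl x a = c := by
  classical
  by_contra hc
  push Not at hc
  apply h
  rw [pfun, Finsupp.finsetSum_apply]
  refine Finset.sum_eq_zero fun a ha => ?_
  rw [Finsupp.single_apply, if_neg (hc a ha)]

theorem pfun_ne_iff {n : ℕ} {x : Fin (n + 1) →o LL S} {c : Fin (n + 1) →o S} :
    pfun x c ≠ 0 ↔ ∃ a ∈ (x (Fin.last n)).C.support, chl x a = c := by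
  classical
  refine ⟨pfun_ne, ?_⟩
  rintro ⟨a, ha, rfl⟩
  rw [pfun, Finsupp.finsetSum_apply]
  have h1 : 1 ≤ ∑ i ∈ (x (Fin.last n)).C.support, (Finsupp.single (chl x i) 1) (chl x a) := by
    refine le_trans ?_ (Finset.single_le_sum
      (f := fun i => (Finsupp.single (chl x i) 1) (chl x a)) (fun i _ => Nat.zero_le _) ha)
    simp
  omega

/-- The subcomplex of the base point. -/
abbrev Z0 (S : Type) [PartialOrder S] [Zero S] : (NO S).Subcomplex := NOs {0}

theorem notMem_Z0 {n : ℕ} {c : Fin (n + 1) →o S} (h : c (Fin.last n) ≠ 0) :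
    c ∉ (Z0 S).obj (op ⦋n⦌) := fun h' => h (h' (Fin.last n))

theorem mem_Z0_iff (h0 : ∀ s : S, s ≤ 0 → s = 0) {n : ℕ} {c : Fin (n + 1) →o S} :
    c ∈ (Z0 S).obj (op ⦋n⦌) ↔ c (Fin.last n) = 0 := by
  refine ⟨fun h => h (Fin.last n), fun h i => h0 _ ?_⟩
  rw [← h]
  exact c.monotone (Fin.le_last i)

/-- The free commutative monoid on the nerve of `S`, with the base point as zero. -/
noncomputable abbrev NN (S : Type) [PartialOrder S] [Zero S] : SSet.{0} :=
  FM ℕ (⊤ : AddSubmonoid ℕ) (X := NO S) ⊤ ⊤ (Z0 S)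

theorem filter_sum_single {α β : Type} (s : Finset α) (g : α → β) (P : β → Prop) [DecidablePred P]
    [DecidablePred fun a => P (g a)] :
    (∑ a ∈ s, Finsupp.single (g a) 1).filter P =
      ∑ a ∈ s with P (g a), (Finsupp.single (g a) 1 : β →₀ ℕ) := by
  classical
  induction s using Finset.induction_on with
  | empty => exact Finsupp.filter_zero P
  | insert a s ha ih =>
    rw [Finset.sum_insert ha, Finsupp.filter_add, ih, Finset.filter_insert]
    by_cases h : P (g a)
    · rw [if_pos h, Finset.sum_insert (by simp [ha]), Finsupp.filter_single_of_pos _ h]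
    · rw [if_neg h, Finsupp.filter_single_of_neg _ h, zero_add]

theorem pfun_nat (h0 : ∀ s : S, s ≤ 0 → s = 0) {n m : ℕ} (x : Fin (n + 1) →o LL S)
    (θ : Fin (m + 1) →o Fin (n + 1)) [DecidablePred fun c : Fin (m + 1) →o S => c (Fin.last m) ≠ 0] :
    ((pfun x).mapDomain fun c => c.comp θ).filter (fun c => c (Fin.last m) ≠ 0) =
      pfun (x.comp θ) := by
  classical
  rw [pfun, Finsupp.mapDomain_finset_sum]
  simp only [Finsupp.mapDomain_single]
  rw [filter_sum_single]
  have hle : x (θ (Fin.last m)) ≤ x (Fin.last n) := x.monotone (Fin.le_last _)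
  rw [pfun]
  change _ = ∑ a ∈ (x (θ (Fin.last m))).C.support, Finsupp.single (chl (x.comp θ) a) 1
  rw [LL.sum_track hle, Finset.sum_filter, Finset.sum_filter]
  refine Finset.sum_congr rfl fun a ha => ?_
  have hiff : (((chl x a).comp θ) (Fin.last m) ≠ 0) ↔ (x (θ (Fin.last m))).lb a ≠ 0 := by
    change ¬ chl x a (θ (Fin.last m)) = 0 ↔ _
    rw [chl_apply x ha]
  by_cases h : (x (θ (Fin.last m))).lb a ≠ 0
  · rw [if_pos h, if_pos (hiff.2 h)]
    congr 1
    refine OrderHom.ext _ _ (funext fun i => ?_)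
    have hmem : res (x (θ (Fin.last m))).J a ∈ ((x.comp θ) (Fin.last m)).C.support :=
      Finsupp.mem_support_iff.2 h
    rw [chl_apply _ hmem]
    change chl x a (θ i) = (x (θ i)).lb (res (x (θ (Fin.last m))).J a)
    rw [chl_apply x ha, LL.lb_res]
    exact (x.monotone (θ.monotone (Fin.le_last i))).1
  · rw [if_neg h, if_neg (fun h' => h (hiff.1 h'))]

theorem pfun_nat' (h0 : ∀ s : S, s ≤ 0 → s = 0) {n m : ℕ} (x : Fin (n + 1) →o LL S)
    (θ : Fin (m + 1) →o Fin (n + 1)) (c : Fin (m + 1) →o S) :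
    (c (Fin.last m) ≠ 0 → pfun (x.comp θ) c = (pfun x).mapDomain (fun c => c.comp θ) c) ∧
      (c (Fin.last m) = 0 → pfun (x.comp θ) c = 0) := by
  classical
  have h := pfun_nat h0 x θ
  have h2 := DFunLike.congr_fun h c
  rw [Finsupp.filter_apply] at h2
  constructor
  · intro hc
    rw [if_pos hc] at h2
    exact h2.symm
  · intro hc
    rw [if_neg (fun h' => h' hc)] at h2
    exact h2.symm

/-- The map from the nerve of `LL S` to the free monoid on the nerve of `S`. -/
noncomputable def pmap (h0 : ∀ s : S, s ≤ 0 → s = 0) : NO (LL S) ⟶ NN S where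
  app n := TypeCat.ofHom (fun x => ⟨pfun (n := n.unop.len) x, by
    refine ⟨fun c hc => ⟨trivial, ?_⟩, fun _ _ => trivial⟩
    obtain ⟨a, ha, rfl⟩ := pfun_ne hc
    exact notMem_Z0 (chl_last x ha)⟩)
  naturality n m θ := by
    classical
    refine ConcreteCategory.hom_ext _ _ fun x => Subtype.ext (Finsupp.ext fun c => ?_)
    have h := pfun_nat' h0 (n := n.unop.len) (m := m.unop.len) x θ.unop.toOrderHom c
    have key : pfun (n := m.unop.len) (OrderHom.comp (β := Fin (n.unop.len + 1)) x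
        θ.unop.toOrderHom) c =
        (Finsupp.filter (fun c => c ∉ (Z0 S).obj m)
          (Finsupp.mapDomain ((NO S).map θ) (pfun (n := n.unop.len) x))) c := by
      rw [Finsupp.filter_apply]
      by_cases hc : c ∉ (Z0 S).obj m
      · rw [if_pos hc]
        exact h.1 fun h' => hc ((mem_Z0_iff h0 (n := m.unop.len)).2 h')
      · rw [if_neg hc]
        exact h.2 ((mem_Z0_iff h0 (n := m.unop.len)).1 (not_not.1 hc))
    exact key

theorem pmap_fn (h0 : ∀ s : S, s ≤ 0 → s = 0) {n : ℕ} (x : (NO (LL S)).obj (op ⦋n⦌)) :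
    ((pmap h0).app (op ⦋n⦌) x).1 = pfun (n := n) x := rfl

end Pool.Agent.SH


end

section

/-!
# MP_2d0b73_an, III-N: open fibres of the map from the nerve of `LL S` to the free monoid
-/

set_option autoImplicit false

open CategoryTheory Simplicial Opposite MonoidalCategory

namespace Pool.Agent.SH

variable {S : Type} [PartialOrder S] [Zero S]

section

variable {n : ℕ} {b : (Fin (n + 1) →o S) →₀ ℕ}

/-- Evaluation of a chain of configurations with simplex labels along `α`. -/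
noncomputable def evc (h0 : ∀ s : S, s ≤ 0 → s = 0) {m : ℕ} (y : Fin (m + 1) →o PF b)
    (α : Fin (m + 1) →o Fin (n + 1)) : Fin (m + 1) →o LL S where
  toFun i := ev (y i).y (α i)
  monotone' _ _ hij := ev_le h0 (y.monotone hij) (α.monotone hij)

theorem evc_apply (h0 : ∀ s : S, s ≤ 0 → s = 0) {m : ℕ} (y : Fin (m + 1) →o PF b)
    (α : Fin (m + 1) →o Fin (n + 1)) (i : Fin (m + 1)) : evc h0 y α i = ev (y i).y (α i) := rfl

theorem chl_evc (h0 : ∀ s : S, s ≤ 0 → s = 0) {m : ℕ} (y : Fin (m + 1) →o PF b)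
    (α : Fin (m + 1) →o Fin (n + 1)) {a : ℕ →₀ ℕ}
    (ha : a ∈ (evc h0 y α (Fin.last m)).C.support) :
    chl (evc h0 y α) a = ((y (Fin.last m)).y.C a).v.comp α := by
  refine OrderHom.ext _ _ (funext fun i => ?_)
  rw [chl_apply _ ha, evc_apply, ev_lb]
  have h1 : (y i).y ≤ (y (Fin.last m)).y := y.monotone (Fin.le_last i)
  rw [LL.lb_eq h1 (ev_support ha)]
  rfl

theorem pfun_evc (h0 : ∀ s : S, s ≤ 0 → s = 0) {m : ℕ} (y : Fin (m + 1) →o PF b)
    (α : Fin (m + 1) →o Fin (n + 1)) [DecidablePred fun c : Fin (m + 1) →o S => c (Fin.last m) ≠ 0] :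
    (b.mapDomain fun c => c.comp α).filter (fun c => c (Fin.last m) ≠ 0) =
      pfun (evc h0 y α) := by
  classical
  conv_lhs => rw [← (y (Fin.last m)).lab]
  rw [LL.lab, Finsupp.mapDomain_finset_sum]
  simp only [Finsupp.mapDomain_single]
  rw [filter_sum_single, pfun]
  have hs : (evc h0 y α (Fin.last m)).C.support = (y (Fin.last m)).y.C.support.filter
      (fun a => (((y (Fin.last m)).y.C a).v.comp α) (Fin.last m) ≠ 0) := by
    ext a
    rw [Finset.mem_filter, Finsupp.mem_support_iff]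
    constructor
    · intro h
      exact ⟨ev_support (Finsupp.mem_support_iff.2 h), h⟩
    · intro h
      exact h.2
  rw [hs]
  refine Finset.sum_congr rfl fun a ha => ?_
  rw [← hs] at ha
  rw [chl_evc h0 y α ha]

/-- The chain `e` is determined by the chain of times and its last configuration. -/
theorem evc_inj (h0 : ∀ s : S, s ≤ 0 → s = 0) {m : ℕ} (y y' : Fin (m + 1) →o PF b)
    (α : Fin (m + 1) →o Fin (n + 1)) (hα : Function.Surjective α)
    (h : evc h0 y α = evc h0 y' α) : y = y' := by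
  have hlast : α (Fin.last m) = Fin.last n := by
    obtain ⟨i, hi⟩ := hα (Fin.last n)
    refine le_antisymm (Fin.le_last _) ?_
    rw [← hi]
    exact α.monotone (Fin.le_last i)
  have hi (i : Fin (m + 1)) : ev (y i).y (α i) = ev (y' i).y (α i) := DFunLike.congr_fun h i
  have hJ (i : Fin (m + 1)) : (y i).y.J = (y' i).y.J := by
    have h1 := congrArg LL.J (hi i)
    exact h1
  have hsupp : (y (Fin.last m)).y.C.support = (y' (Fin.last m)).y.C.support := by
    rw [← ev_last_support h0, ← ev_last_support h0, ← hlast, hi]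
  have hle (i : Fin (m + 1)) : (y i).y ≤ (y (Fin.last m)).y := y.monotone (Fin.le_last i)
  have hle' (i : Fin (m + 1)) : (y' i).y ≤ (y' (Fin.last m)).y := y'.monotone (Fin.le_last i)
  have hC : (y (Fin.last m)).y.C = (y' (Fin.last m)).y.C := by
    ext1 a
    by_cases ha : a ∈ (y (Fin.last m)).y.C.support
    · apply Dsc.ext'
      refine OrderHom.ext _ _ (funext fun j => ?_)
      obtain ⟨i, rfl⟩ := hα j
      have h1 := LL.lb_eq (hle i) ha
      have h2 := LL.lb_eq (hle' i) (hsupp ▸ ha)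
      rw [← h1, ← h2]
      have h3 := congrArg (fun x => LL.lb x a) (hi i)
      exact h3
    · rw [Finsupp.notMem_support_iff.1 ha, Finsupp.notMem_support_iff.1 (hsupp ▸ ha)]
  have hL : (y (Fin.last m)).y = (y' (Fin.last m)).y := LL.ext' (hJ _) hC
  refine OrderHom.ext _ _ (funext fun i => PF.ext' ?_)
  rw [LL.eq_rst (hle i), LL.eq_rst (hle' i)]
  refine LL.ext' (hJ i) ?_
  ext1 c
  rw [LL.rst_C, LL.rst_C, hL, hJ i]

/-- Existence of the lift. -/
theorem evc_surj (h0 : ∀ s : S, s ≤ 0 → s = 0) (hb : b (c0 S n) = 0) {m : ℕ}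
    (e : Fin (m + 1) →o LL S) (α : Fin (m + 1) →o Fin (n + 1)) (hα : Function.Surjective α)
    (h : pfun e = b.mapDomain fun c => c.comp α) : ∃ y : Fin (m + 1) →o PF b, evc h0 y α = e := by
  classical
  have hinj : Function.Injective fun c : Fin (n + 1) →o S => c.comp α := by
    intro c c' hc
    refine OrderHom.ext _ _ (funext fun j => ?_)
    obtain ⟨i, rfl⟩ := hα j
    exact DFunLike.congr_fun hc i
  set L := e (Fin.last m) with hL
  have hz : ∀ a ∈ L.C.support, ∃ z : Fin (n + 1) →o S, z.comp α = chl e a ∧ z ≠ c0 S n := by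
    intro a ha
    have h1 : pfun e (chl e a) ≠ 0 := pfun_ne_iff.2 ⟨a, ha, rfl⟩
    rw [h] at h1
    have h2 := Finsupp.mapDomain_support (Finsupp.mem_support_iff.2 h1)
    obtain ⟨z, hz, hz'⟩ := Finset.mem_image.1 h2
    refine ⟨z, hz', ?_⟩
    rintro rfl
    exact Finsupp.mem_support_iff.1 hz hb
  haveI : Nonempty (Fin (n + 1) →o S) := ⟨c0 S n⟩
  choose! z hz1 hz2 using hz
  let C' : (ℕ →₀ ℕ) →₀ Lz S n := Finsupp.onFinset L.C.support
    (fun a => if a ∈ L.C.support then ⟨z a⟩ else 0) (by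
      intro a ha
      by_contra hne
      exact ha (if_neg hne))
  have hC' (a : ℕ →₀ ℕ) (ha : a ∈ L.C.support) : C' a = ⟨z a⟩ := if_pos ha
  have hsupp : C'.support = L.C.support := by
    ext a
    rw [Finsupp.mem_support_iff]
    constructor
    · intro hne
      by_contra hne'
      exact hne (if_neg hne')
    · intro ha
      rw [hC' a ha, Dsc.ne_zero_iff]
      exact hz2 a ha
  let Y : LL (Lz S n) :=
    { J := L.J
      C := C'
      ne := L.ne
      sub := fun a ha => L.sub a (hsupp ▸ ha)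
      inj := fun a ha b hb => L.inj a (hsupp ▸ ha) b (hsupp ▸ hb) }
  have hYs : Y.C.support = L.C.support := hsupp
  have hlab : Y.lab = b := by
    apply Finsupp.mapDomain_injective hinj
    rw [← h, pfun, LL.lab, Finsupp.mapDomain_finset_sum, hYs]
    refine Finset.sum_congr rfl fun a ha => ?_
    rw [Finsupp.mapDomain_single]
    change Finsupp.single ((C' a).v.comp α) 1 = _
    rw [hC' a ha]
    change Finsupp.single ((z a).comp α) 1 = _
    rw [hz1 a ha]
  have hJ (i : Fin (m + 1)) : (e i).J ⊆ Y.J := (e.monotone (Fin.le_last i)).1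
  have hlabi (i : Fin (m + 1)) : (Y.rst (e i).J (hJ i) (e i).ne).lab = b := by
    rw [LL.lab_eq (Y.rst_le _ (hJ i) (e i).ne), hlab]
  let y : Fin (m + 1) →o PF b :=
    { toFun := fun i => ⟨Y.rst (e i).J (hJ i) (e i).ne, hlabi i⟩
      monotone' := fun i j hij => Y.rst_le_rst (hJ i) _ (hJ j) _ (e.monotone hij).1 }
  refine ⟨y, OrderHom.ext _ _ (funext fun i => ?_)⟩
  refine LL.ext' rfl ?_
  ext1 c
  change ((Y.rstFun (e i).J c).v) (α i) = (e i).C c
  by_cases hc : ∃ a ∈ Y.C.support, res (e i).J a = c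
  · obtain ⟨a, ha, rfl⟩ := hc
    rw [Y.rstFun_res (hJ i) (e i).ne ha]
    have ha' : a ∈ L.C.support := hYs ▸ ha
    change (C' a).v (α i) = _
    rw [hC' a ha']
    have h1 := DFunLike.congr_fun (hz1 a ha') i
    rw [chl_apply e ha'] at h1
    exact h1
  · rw [Y.rstFun_of_not hc]
    by_contra hne
    apply hc
    obtain ⟨a, ha, hac⟩ := LL.exists_track (e.monotone (Fin.le_last i))
      (Finsupp.mem_support_iff.2 fun h' => hne h'.symm)
    exact ⟨a, hYs ▸ ha, hac⟩

end

/-- The maps `F × Δ[n] ⟶ NO (LL S)` over the simplices `b`. -/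
noncomputable def phi (h0 : ∀ s : S, s ≤ 0 → s = 0) {n : ℕ} (b : (Fin (n + 1) →o S) →₀ ℕ) :
    NO (PF b) ⊗ Δ[n] ⟶ NO (LL S) where
  app m := TypeCat.ofHom (fun x => evc h0 (m := m.unop.len) x.1
    (SSet.stdSimplex.objEquiv x.2).toOrderHom)
  naturality m k θ := by
    refine ConcreteCategory.hom_ext _ _ fun x => ?_
    rfl

theorem phi_app (h0 : ∀ s : S, s ≤ 0 → s = 0) {n m : ℕ} (b : (Fin (n + 1) →o S) →₀ ℕ)
    (y : (NO (PF b)).obj (op ⦋m⦌)) (a : ⦋m⦌ ⟶ ⦋n⦌) :
    (phi h0 b).app (op ⦋m⦌) (y, SSet.stdSimplex.objEquiv.symm a) =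
      evc h0 (m := m) y a.toOrderHom := rfl

theorem phi_pmap_aux (h0 : ∀ s : S, s ≤ 0 → s = 0) {n m : ℕ} (b : (Fin (n + 1) →o S) →₀ ℕ)
    (y : Fin (m + 1) →o PF b) (α : Fin (m + 1) →o Fin (n + 1)) (c : Fin (m + 1) →o S) :
    (c (Fin.last m) ≠ 0 → pfun (evc h0 y α) c = (b.mapDomain fun c => c.comp α) c) ∧
      (c (Fin.last m) = 0 → pfun (evc h0 y α) c = 0) := by
  classical
  have h := pfun_evc h0 y α
  have h2 := DFunLike.congr_fun h c
  rw [Finsupp.filter_apply] at h2
  constructor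
  · intro hc
    rw [if_pos hc] at h2
    exact h2.symm
  · intro hc
    rw [if_neg (fun h' => h' hc)] at h2
    exact h2.symm

theorem phi_pmap (h0 : ∀ s : S, s ≤ 0 → s = 0) {n : ℕ} (b : (NN S) _⦋n⦌) :
    phi h0 b.1 ≫ pmap h0 = CartesianMonoidalCategory.snd (NO (PF b.1)) Δ[n] ≫
      SSet.yonedaEquiv.symm b := by
  classical
  ext m x
  refine Subtype.ext (Finsupp.ext fun c => ?_)
  have h := phi_pmap_aux h0 (m := m.unop.len) b.1 x.1 (SSet.stdSimplex.objEquiv x.2).toOrderHom c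
  have key : pfun (n := m.unop.len) (evc h0 (m := m.unop.len) x.1
        (SSet.stdSimplex.objEquiv x.2).toOrderHom) c =
      (Finsupp.filter (fun c => c ∉ (Z0 S).obj m)
        (Finsupp.mapDomain ((NO S).map (SSet.stdSimplex.objEquiv x.2).op) b.1)) c := by
    by_cases hc : c ∉ (Z0 S).obj m
    · refine (h.1 fun h' => hc ((mem_Z0_iff h0 (n := m.unop.len)).2 h')).trans ?_
      exact (Finsupp.filter_apply_pos (fun c => c ∉ (Z0 S).obj m) _ hc).symm
    · refine (h.2 ((mem_Z0_iff h0 (n := m.unop.len)).1 (not_not.1 hc))).trans ?_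
      exact (Finsupp.filter_apply_neg (fun c => c ∉ (Z0 S).obj m) _ hc).symm
  exact key

theorem base_of_mem {n : ℕ} (b : (NN S) _⦋n⦌) : b.1 (c0 S n) = 0 := by
  by_contra h
  exact (b.2.1 _ h).2 (fun i => rfl)

theorem phi_open (h0 : ∀ s : S, s ≤ 0 → s = 0) {n : ℕ} (b : (NN S) _⦋n⦌) (m : ℕ)
    (a : ⦋m⦌ ⟶ ⦋n⦌) (ha : Epi a) (e : (NO (LL S)) _⦋m⦌)
    (he : (pmap h0).app (op ⦋m⦌) e = (NN S).map a.op b) :
    ∃! f : (NO (PF b.1)) _⦋m⦌, (phi h0 b.1).app (op ⦋m⦌) (f, SSet.stdSimplex.objEquiv.symm a) = e := by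
  classical
  have hs : Function.Surjective a.toOrderHom := SimplexCategory.epi_iff_surjective.1 ha
  have h1 : pfun (n := m) e = (b.1).mapDomain fun c => OrderHom.comp (β := Fin (n + 1)) c
      a.toOrderHom := by
    refine Finsupp.ext fun c => ?_
    have h2 := DFunLike.congr_fun (congrArg Subtype.val he) c
    have h3 : pfun (n := m) e c = (Finsupp.filter (fun c => c ∉ (Z0 S).obj (op ⦋m⦌))
        (Finsupp.mapDomain ((NO S).map a.op) b.1)) c := h2
    by_cases hc : c ∉ (Z0 S).obj (op ⦋m⦌)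
    · exact h3.trans (Finsupp.filter_apply_pos (fun c => c ∉ (Z0 S).obj (op ⦋m⦌)) _ hc)
    · refine (h3.trans (Finsupp.filter_apply_neg (fun c => c ∉ (Z0 S).obj (op ⦋m⦌)) _ hc)).trans ?_
      by_contra hne
      obtain ⟨z, hz, hz'⟩ := FM_supp (X := NO S) a.op b.1 c (fun h' => hne h'.symm)
      apply (b.2.1 z hz).2
      intro j
      obtain ⟨i, rfl⟩ := hs j
      have h4 : c ∈ (Z0 S).obj (op ⦋m⦌) := not_not.1 hc
      have h5 := h4 i
      rw [← hz'] at h5
      exact h5
  obtain ⟨y, hy⟩ := evc_surj h0 (base_of_mem b) (m := m) e a.toOrderHom hs h1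
  refine ⟨y, hy, fun y' hy' => ?_⟩
  exact evc_inj h0 (m := m) y' y a.toOrderHom hs (hy'.trans hy.symm)

end Pool.Agent.SH


end

section

/-!
# MP_2d0b73_an, III-N: ordered configurations, action of the permutations, the quotient map
-/

set_option autoImplicit false

open CategoryTheory Simplicial Opposite MonoidalCategory

namespace Pool.Agent.SH

/-- A simplex of the nerve as a monotone map. -/
def oh {P : Type} [PartialOrder P] {n : SimplexCategoryᵒᵖ} (x : (NO P).obj n) :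
    Fin (n.unop.len + 1) →o P := x

theorem oh_ext {P : Type} [PartialOrder P] {n : SimplexCategoryᵒᵖ} {x y : (NO P).obj n}
    (h : ∀ i, oh x i = oh y i) : x = y := OrderHom.ext (oh x) (oh y) (funext h)

/-- Ordered configurations of `m` particles. -/
structure PP (m : ℕ) : Type where
  /-- the times -/
  J : Finset ℕ
  /-- the tracks -/
  a : Fin m → (ℕ →₀ ℕ)
  ne : J.Nonempty
  sub : ∀ k, (a k).support ⊆ J
  inj : ∀ j ∈ J, ∀ k l, a k j = a l j → k = l

namespace PP

variable {m : ℕ}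

theorem ext' {x y : PP m} (hJ : x.J = y.J) (ha : ∀ k, x.a k = y.a k) : x = y := by
  have ha' : x.a = y.a := funext ha
  cases x; cases y; cases hJ; cases ha'; rfl

instance : PartialOrder (PP m) where
  le x y := x.J ⊆ y.J ∧ ∀ k, res x.J (y.a k) = x.a k
  le_refl x := ⟨Finset.Subset.refl _, fun k => res_eq_self (x.sub k)⟩
  le_trans x y z h h' := ⟨h.1.trans h'.1, fun k => by rw [← res_res h.1, h'.2, h.2]⟩
  le_antisymm x y h h' := by
    have hJ := Finset.Subset.antisymm h.1 h'.1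
    refine ext' hJ fun k => ?_
    rw [← h.2 k, hJ, res_eq_self (y.sub k)]

theorem le_iff {x y : PP m} : x ≤ y ↔ x.J ⊆ y.J ∧ ∀ k, res x.J (y.a k) = x.a k := Iff.rfl

theorem a_inj (x : PP m) {k l : Fin m} (h : x.a k = x.a l) : k = l := by
  obtain ⟨j, hj⟩ := x.ne
  exact x.inj j hj k l (by rw [h])

/-- The action of permutations. -/
def sm (g : Equiv.Perm (Fin m)) (x : PP m) : PP m where
  J := x.J
  a k := x.a (g⁻¹ k)
  ne := x.ne
  sub k := x.sub _
  inj j hj k l h := g⁻¹.injective (x.inj j hj _ _ h)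

/-- The action of permutations as monotone maps. -/
def smo (g : Equiv.Perm (Fin m)) : PP m →o PP m where
  toFun := sm g
  monotone' _ _ h := ⟨h.1, fun k => h.2 (g⁻¹ k)⟩

/-- The action of permutations on the nerve. -/
def actP (m : ℕ) : Act (Equiv.Perm (Fin m)) (NO (PP m)) where
  act g := NOmap (smo g)
  one := by
    ext n x
    refine OrderHom.ext _ _ (funext fun i => ext' rfl fun k => rfl)
  mul g h := by
    ext n x
    refine OrderHom.ext _ _ (funext fun i => ext' rfl fun k => ?_)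
    change (oh x i).a ((g * h)⁻¹ k) = (oh x i).a (h⁻¹ (g⁻¹ k))
    rw [mul_inv_rev]
    rfl

/-- The stabiliser of a labelling. -/
def stb {Z : Type} (l : Fin m → Z) : Subgroup (Equiv.Perm (Fin m)) where
  carrier := {g | ∀ k, l (g k) = l k}
  one_mem' := fun k => rfl
  mul_mem' := by
    intro g h hg hh k
    rw [Equiv.Perm.mul_apply, hg, hh]
  inv_mem' := by
    intro g hg k
    have := hg (g⁻¹ k)
    have e : g (g⁻¹ k) = k := g.apply_symm_apply k
    rw [e] at this
    exact this.symm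

theorem mem_stb {Z : Type} {l : Fin m → Z} {g : Equiv.Perm (Fin m)} :
    g ∈ stb l ↔ ∀ k, l (g k) = l k := Iff.rfl

theorem ap_apply {Z : Type} (l : Fin m → Z) (g : stb l) {n : SimplexCategoryᵒᵖ}
    (x : (NO (PP m)).obj n) (i : Fin (n.unop.len + 1)) :
    oh (((actP m).restr (stb l)).ap g x) i = sm g.1 (oh x i) := rfl

theorem actP_free {Z : Type} (l : Fin m → Z) : ((actP m).restr (stb l)).Free := by
  intro n x g h
  have h1 : oh (((actP m).restr (stb l)).ap g x) 0 = oh x 0 := by rw [h]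
  rw [ap_apply] at h1
  apply Subtype.ext
  have h2 : g.1⁻¹ = 1 := by
    ext1 k
    have h3 : (sm g.1 (oh x 0)).a k = (oh x 0).a k := by rw [h1]
    exact PP.a_inj _ h3
  exact inv_eq_one.1 h2

/-! ### The quotient map -/

variable {Z : Type} {z₀ : Z}

open Classical in
/-- The label of the track `c`. -/
noncomputable def cfun (l : Fin m → Z) (x : PP m) (c : ℕ →₀ ℕ) : Dsc Z z₀ :=
  if h : ∃ k, x.a k = c then ⟨l h.choose⟩ else 0

theorem cfun_a (l : Fin m → Z) (x : PP m) (k : Fin m) :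
    (cfun l x (x.a k) : Dsc Z z₀) = ⟨l k⟩ := by
  have h : ∃ k', x.a k' = x.a k := ⟨k, rfl⟩
  rw [cfun, dif_pos h, x.a_inj h.choose_spec]

theorem cfun_not (l : Fin m → Z) (x : PP m) {c : ℕ →₀ ℕ} (h : ¬ ∃ k, x.a k = c) :
    (cfun l x c : Dsc Z z₀) = 0 := by
  rw [cfun, dif_neg h]

open Classical in
/-- The configuration of `x` with labels `l`. -/
noncomputable def cf (l : Fin m → Z) (x : PP m) : LL (Dsc Z z₀) where
  J := x.J
  C := Finsupp.onFinset (Finset.univ.image x.a) (cfun l x) (by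
    intro c hc
    by_contra hne
    apply hc
    apply cfun_not
    rintro ⟨k, rfl⟩
    exact hne (Finset.mem_image_of_mem _ (Finset.mem_univ _)))
  ne := x.ne
  sub := by
    intro c hc
    obtain ⟨k, _, rfl⟩ := Finset.mem_image.1 (Finsupp.support_onFinset_subset hc)
    exact x.sub k
  inj := by
    intro c hc d hd hcd j hj h
    obtain ⟨k, _, rfl⟩ := Finset.mem_image.1 (Finsupp.support_onFinset_subset hc)
    obtain ⟨k', _, rfl⟩ := Finset.mem_image.1 (Finsupp.support_onFinset_subset hd)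
    exact hcd (by rw [x.inj j hj k k' h])

theorem cf_J (l : Fin m → Z) (x : PP m) : (cf l x : LL (Dsc Z z₀)).J = x.J := rfl

theorem cf_C (l : Fin m → Z) (x : PP m) (c : ℕ →₀ ℕ) :
    (cf l x : LL (Dsc Z z₀)).C c = cfun l x c := rfl

theorem mem_cf {l : Fin m → Z} (hl : ∀ k, l k ≠ z₀) {x : PP m} {c : ℕ →₀ ℕ} :
    c ∈ (cf l x : LL (Dsc Z z₀)).C.support ↔ ∃ k, x.a k = c := by
  rw [Finsupp.mem_support_iff, cf_C]
  constructor
  · intro h
    by_contra hne
    exact h (cfun_not l x hne)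
  · rintro ⟨k, rfl⟩
    rw [cfun_a, Dsc.ne_zero_iff]
    exact hl k

theorem cf_le {l : Fin m → Z} (hl : ∀ k, l k ≠ z₀) {x y : PP m} (h : x ≤ y) :
    (cf l x : LL (Dsc Z z₀)) ≤ cf l y := by
  refine ⟨h.1, ?_, ?_⟩
  · intro c hc
    obtain ⟨k, rfl⟩ := (mem_cf hl).1 hc
    apply Dsc.le_iff.2
    rw [cf_J, h.2 k, cf_C, cf_C, cfun_a, cfun_a]
  · intro c hc
    obtain ⟨k, rfl⟩ := (mem_cf hl).1 hc
    exact ⟨y.a k, (mem_cf hl).2 ⟨k, rfl⟩, h.2 k⟩

theorem cf_lab {l : Fin m → Z} (hl : ∀ k, l k ≠ z₀) (x : PP m) :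
    (cf l x : LL (Dsc Z z₀)).lab = ∑ k, Finsupp.single (l k) 1 := by
  classical
  rw [LL.lab]
  symm
  refine Finset.sum_nbij x.a ?_ ?_ ?_ ?_
  · intro k _
    exact (mem_cf hl).2 ⟨k, rfl⟩
  · intro k _ k' _ h
    exact x.a_inj h
  · intro c hc
    obtain ⟨k, rfl⟩ := (mem_cf hl).1 hc
    exact ⟨k, Finset.mem_coe.2 (Finset.mem_univ _), rfl⟩
  · intro k _
    rw [cf_C, cfun_a]

end PP

end Pool.Agent.SH


end

section

/-!
# MP_2d0b73_an, III-N: the fibre is the quotient of the ordered configurations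
-/

set_option autoImplicit false

open CategoryTheory Simplicial Opposite MonoidalCategory

namespace Pool.Agent.SH

namespace PP

variable {m : ℕ} {Z : Type} {z₀ : Z}

theorem exists_enum {α : Type} (s : Finset α) (f : α → Z) (l : Fin m → Z)
    (h : ∑ a ∈ s, Finsupp.single (f a) 1 = ∑ k, (Finsupp.single (l k) 1 : Z →₀ ℕ)) :
    ∃ e : Fin m ≃ s, ∀ k, f (e k) = l k := by
  classical
  have hcard (z : Z) : Fintype.card {k : Fin m // l k = z} =
      Fintype.card {a : s // f a = z} := by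
    have h1 := DFunLike.congr_fun h z
    rw [Finsupp.finsetSum_apply, Finsupp.finsetSum_apply] at h1
    simp only [Finsupp.single_apply] at h1
    rw [Finset.sum_boole, Finset.sum_boole] at h1
    rw [Fintype.card_subtype, Fintype.card_subtype]
    have h2 : (Finset.univ.filter fun a : s => f a = z).card = (s.filter fun a => f a = z).card := by
      rw [Finset.univ_eq_attach, ← Finset.card_map (Function.Embedding.subtype _)]
      congr 1
      ext a
      simp
      tauto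
    rw [h2]
    exact_mod_cast h1.symm
  refine ⟨Equiv.ofFiberEquiv (f := l) (g := fun a : s => f a) fun z =>
    Fintype.equivOfCardEq (hcard z), fun k => ?_⟩
  exact Equiv.ofFiberEquiv_map (f := l) (g := fun a : s => f a) _ k

/-- Restriction of an ordered configuration. -/
noncomputable def rs (x : PP m) (J' : Finset ℕ) (h1 : J' ⊆ x.J) (h2 : J'.Nonempty) : PP m where
  J := J'
  a k := res J' (x.a k)
  ne := h2
  sub k := support_res _ _
  inj j hj k l h := by
    rw [res_apply_mem hj, res_apply_mem hj] at h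
    exact x.inj j (h1 hj) k l h

variable {S : Type} [PartialOrder S] [Zero S]

section

variable {n : ℕ} {b : (Fin (n + 1) →o S) →₀ ℕ} {l : Fin m → (Fin (n + 1) →o S)}

/-- The quotient map. -/
noncomputable def qmo (hl : ∀ k, l k ≠ c0 S n) (hb : ∑ k, Finsupp.single (l k) 1 = b) :
    PP m →o PF b where
  toFun x := ⟨cf l x, by rw [cf_lab hl, hb]⟩
  monotone' _ _ h := cf_le hl h

theorem qmo_y (hl : ∀ k, l k ≠ c0 S n) (hb : ∑ k, Finsupp.single (l k) 1 = b) (x : PP m) :
    (qmo hl hb x).y = cf l x := rfl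

/-- The quotient map on nerves. -/
noncomputable def qP (hl : ∀ k, l k ≠ c0 S n) (hb : ∑ k, Finsupp.single (l k) 1 = b) :
    NO (PP m) ⟶ NO (PF b) := NOmap (qmo hl hb)

theorem qP_apply (hl : ∀ k, l k ≠ c0 S n) (hb : ∑ k, Finsupp.single (l k) 1 = b)
    {r : SimplexCategoryᵒᵖ} (x : (NO (PP m)).obj r) (i : Fin (r.unop.len + 1)) :
    oh ((qP hl hb).app r x) i = qmo hl hb (oh x i) := rfl

theorem cf_rs (hl : ∀ k, l k ≠ c0 S n) (x : PP m) (y : LL (Lz S n)) (h : cf l x = y) (J' : Finset ℕ)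
    (h1 : J' ⊆ x.J) (h2 : J'.Nonempty) (h3 : J' ⊆ y.J) :
    cf l (x.rs J' h1 h2) = y.rst J' h3 h2 := by
  subst h
  refine LL.ext' rfl ?_
  ext1 c
  rw [LL.rst_C, cf_C]
  by_cases hc : ∃ k, (x.rs J' h1 h2).a k = c
  · obtain ⟨k, rfl⟩ := hc
    rw [cfun_a]
    change _ = (cf l x).rstFun J' (res J' (x.a k))
    rw [LL.rstFun_res _ h1 h2 ((mem_cf hl).2 ⟨k, rfl⟩), cf_C, cfun_a]
  · rw [cfun_not _ _ hc, LL.rstFun_of_not]
    rintro ⟨a, ha, rfl⟩
    obtain ⟨k, rfl⟩ := (mem_cf hl).1 ha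
    exact hc ⟨k, rfl⟩

theorem qP_surj (hl : ∀ k, l k ≠ c0 S n) (hb : ∑ k, Finsupp.single (l k) 1 = b)
    (r : SimplexCategoryᵒᵖ) : Function.Surjective ((qP hl hb).app r) := by
  classical
  intro y
  set L : LL (Lz S n) := (oh y (Fin.last _)).y with hL
  obtain ⟨e, he⟩ := exists_enum L.C.support (fun a => (L.C a).v) l
    (((oh y (Fin.last _)).lab.trans hb.symm))
  let X : PP m :=
    { J := L.J
      a := fun k => (e k).1
      ne := L.ne
      sub := fun k => L.sub _ (e k).2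
      inj := fun j hj k k' h => by
        by_contra hne
        exact L.inj _ (e k).2 _ (e k').2 (fun h' => hne (e.injective (Subtype.ext h'))) j hj h }
  have hX : cf l X = L := by
    refine LL.ext' rfl ?_
    ext1 c
    rw [cf_C]
    by_cases hc : ∃ k, X.a k = c
    · obtain ⟨k, rfl⟩ := hc
      rw [cfun_a]
      exact Dsc.ext' (he k).symm
    · rw [cfun_not _ _ hc]
      by_contra hne
      have hc' : c ∈ L.C.support := Finsupp.mem_support_iff.2 fun h => hne h.symm
      apply hc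
      refine ⟨e.symm ⟨c, hc'⟩, ?_⟩
      change (e (e.symm ⟨c, hc'⟩)).1 = c
      rw [Equiv.apply_symm_apply]
  have hle (i : Fin (r.unop.len + 1)) : (oh y i).y ≤ L := (oh y).monotone (Fin.le_last i)
  let x : Fin (r.unop.len + 1) →o PP m :=
    { toFun := fun i => X.rs (oh y i).y.J (hle i).1 (oh y i).y.ne
      monotone' := fun i j hij => by
        have h1 : (oh y i).y.J ⊆ (oh y j).y.J := ((oh y).monotone hij).1
        exact ⟨h1, fun k => res_res h1 _⟩ }
  refine ⟨x, oh_ext fun i => ?_⟩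
  refine PF.ext' ?_
  rw [LL.eq_rst (hle i)]
  exact cf_rs hl X L hX (oh y i).y.J (hle i).1 (oh y i).y.ne (hle i).1

theorem qP_fib (hl : ∀ k, l k ≠ c0 S n) (hb : ∑ k, Finsupp.single (l k) 1 = b)
    (r : SimplexCategoryᵒᵖ) (x y : (NO (PP m)).obj r) :
    (qP hl hb).app r x = (qP hl hb).app r y ↔ ∃ g, ((actP m).restr (stb l)).ap g x = y := by
  classical
  constructor
  · intro h
    have hi (i : Fin (r.unop.len + 1)) : (cf l (oh x i) : LL (Lz S n)) = cf l (oh y i) := by
      have h1 : oh ((qP hl hb).app r x) i = oh ((qP hl hb).app r y) i := by rw [h]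
      exact congrArg PF.y h1
    have hJ (i : Fin (r.unop.len + 1)) : (oh x i).J = (oh y i).J := by
      have h1 := congrArg LL.J (hi i)
      exact h1
    have hex : ∀ k, ∃ k', (oh y (Fin.last _)).a k' = (oh x (Fin.last _)).a k := by
      intro k
      have h1 : (oh x (Fin.last _)).a k ∈ (cf l (oh x (Fin.last _)) : LL (Lz S n)).C.support :=
        (mem_cf hl).2 ⟨k, rfl⟩
      rw [hi] at h1
      exact (mem_cf hl).1 h1
    choose s hs using hex
    have hsi : Function.Injective s := by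
      intro k k' hk
      apply (oh x (Fin.last _)).a_inj
      rw [← hs k, ← hs k', hk]
    let g : Equiv.Perm (Fin m) := Equiv.ofBijective s (Finite.injective_iff_bijective.1 hsi)
    have hg : g ∈ stb l := by
      intro k
      have h1 : (cf l (oh x (Fin.last _)) : LL (Lz S n)).C ((oh x (Fin.last _)).a k) =
          (cf l (oh y (Fin.last _)) : LL (Lz S n)).C ((oh y (Fin.last _)).a (s k)) := by
        rw [hs k, hi]
      rw [cf_C, cf_C, cfun_a, cfun_a] at h1
      exact (congrArg Dsc.v h1).symm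
    refine ⟨⟨g, hg⟩, oh_ext fun i => ?_⟩
    rw [ap_apply]
    refine ext' (hJ i) fun k => ?_
    have hx := ((oh x).monotone (Fin.le_last i)).2 (g⁻¹ k)
    have hy := ((oh y).monotone (Fin.le_last i)).2 k
    change (oh x i).a (g⁻¹ k) = (oh y i).a k
    rw [← hx, ← hy, hJ i, ← hs (g⁻¹ k)]
    have e : s (g⁻¹ k) = k := g.apply_symm_apply k
    rw [e]
  · rintro ⟨g, rfl⟩
    refine oh_ext fun i => PF.ext' ?_
    rw [qP_apply, qP_apply, ap_apply, qmo_y, qmo_y]
    refine LL.ext' rfl ?_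
    ext1 c
    rw [cf_C, cf_C]
    by_cases hc : ∃ k, (oh x i).a k = c
    · obtain ⟨k, rfl⟩ := hc
      rw [cfun_a]
      have h1 : (sm g.1 (oh x i)).a (g.1 k) = (oh x i).a k := by
        change (oh x i).a (g.1⁻¹ (g.1 k)) = _
        have e : g.1⁻¹ (g.1 k) = k := g.1.symm_apply_apply k
        rw [e]
      rw [← h1, cfun_a]
      exact Dsc.ext' (g.2 k).symm
    · rw [cfun_not _ _ hc, cfun_not]
      rintro ⟨k, rfl⟩
      exact hc ⟨g.1⁻¹ k, rfl⟩

/-- The fibre is the quotient of the ordered configurations by the stabiliser of the labelling. -/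
theorem qP_isQuo (hl : ∀ k, l k ≠ c0 S n) (hb : ∑ k, Finsupp.single (l k) 1 = b) :
    IsQuo ((actP m).restr (stb l)) (qP hl hb) :=
  ⟨qP_surj hl hb, qP_fib hl hb⟩

end

/-- Every multiset of nonzero labels has an enumeration. -/
theorem exists_labels (b : Z →₀ ℕ) (hb : b z₀ = 0) :
    ∃ (m : ℕ) (l : Fin m → Z), (∀ k, l k ≠ z₀) ∧ ∑ k, Finsupp.single (l k) 1 = b := by
  classical
  induction b using Finsupp.induction with
  | zero => exact ⟨0, Fin.elim0, fun k => k.elim0, by simp⟩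
  | single_add z c f hz hc ih =>
    have h1 : f z₀ = 0 := by
      rw [Finsupp.add_apply] at hb
      omega
    have h2 : z ≠ z₀ := by
      rintro rfl
      rw [Finsupp.add_apply, Finsupp.single_eq_same] at hb
      omega
    obtain ⟨m, l, hl, hs⟩ := ih h1
    refine ⟨c + m, Fin.append (fun _ => z) l, ?_, ?_⟩
    · intro k
      refine Fin.addCases (fun i => ?_) (fun i => ?_) k
      · rw [Fin.append_left]
        exact h2
      · rw [Fin.append_right]
        exact hl i
    · rw [Fin.sum_univ_add]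
      simp only [Fin.append_left, Fin.append_right]
      rw [hs, Finset.sum_const, Finset.card_univ, Fintype.card_fin, Finsupp.smul_single]
      simp

end PP

end Pool.Agent.SH


end

section

/-!
# MP_2d0b73_an, III-N: the ordered configurations are acyclic
-/

set_option autoImplicit false

open CategoryTheory Simplicial Opposite MonoidalCategory

namespace Pool.Agent.SH

section hty

variable {P Q : Type} [PartialOrder P] [PartialOrder Q]

/-- The homotopy between the nerves of comparable monotone maps. -/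
noncomputable def NOhty (f g : P →o Q) (h : ∀ x, f x ≤ g x) : NO P ⊗ Δ[1] ⟶ NO Q where
  app n := TypeCat.ofHom (fun x =>
    ({ toFun := fun i => if (SSet.stdSimplex.objEquiv x.2).toOrderHom i = 0 then f (oh x.1 i)
          else g (oh x.1 i)
       monotone' := by
        intro i j hij
        have h1 := (SSet.stdSimplex.objEquiv x.2).toOrderHom.monotone hij
        have h2 := (oh x.1).monotone hij
        dsimp only
        by_cases hj : (SSet.stdSimplex.objEquiv x.2).toOrderHom j = 0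
        · have hi : (SSet.stdSimplex.objEquiv x.2).toOrderHom i = 0 := by
            rw [hj] at h1
            exact le_antisymm h1 (Fin.zero_le _)
          rw [if_pos hi, if_pos hj]
          exact f.monotone h2
        · rw [if_neg hj]
          split_ifs
          · exact (f.monotone h2).trans (h _)
          · exact g.monotone h2 } : Fin (n.unop.len + 1) →o Q))
  naturality n m θ := by
    refine ConcreteCategory.hom_ext _ _ fun x => ?_
    rfl

theorem NOmap_hty (f g : P →o Q) (h : ∀ x, f x ≤ g x) : Hty (NOmap f) (NOmap g) := by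
  refine (Hty_iff _ _).2 ⟨NOhty f g h, ?_, ?_⟩
  · ext n x
    rfl
  · ext n x
    rfl

end hty

/-- A poset with a monotone map `g` with `x ≤ g x ≥ c` is acyclic. -/
theorem NO_acyclic (hH : WC_HEQ_Stmt) {Pr : MorphismProperty SSet.{0}} (hP : WClass Pr)
    {P : Type} [PartialOrder P] (g : P →o P) (c : P) (h1 : ∀ x, x ≤ g x) (h2 : ∀ x, c ≤ g x) :
    Pr (CartesianMonoidalCategory.toUnit (NO P)) := by
  let v : (NO P) _⦋0⦌ := (OrderHom.const (Fin (0 + 1)) c : Fin (0 + 1) →o P)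
  let s : 𝟙_ SSet.{0} ⟶ NO P := (SSet.unitHomEquiv (NO P)).symm v
  have e1 : CartesianMonoidalCategory.toUnit (NO P) ≫ s = NOmap (OrderHom.const P c) := by
    ext n x
    rfl
  have e2 : 𝟙 (NO P) = NOmap OrderHom.id := by
    ext n x
    rfl
  refine (hH Pr hP (NO P) (𝟙_ SSet.{0}) (CartesianMonoidalCategory.toUnit (NO P)) s ?_ ?_).1
  · rw [e1, e2]
    refine Relation.EqvGen.trans _ (NOmap g) _ ?_ ?_
    · exact Relation.EqvGen.rel _ _ (NOmap_hty _ _ h2)
    · exact Relation.EqvGen.symm _ _ (Relation.EqvGen.rel _ _ (NOmap_hty _ _ h1))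
  · have : s ≫ CartesianMonoidalCategory.toUnit (NO P) = 𝟙 _ :=
      CartesianMonoidalCategory.toUnit_unique _ _
    rw [this]
    exact Relation.EqvGen.refl _

/-- The nerve of a subset. -/
def NOsIso {P : Type} [PartialOrder P] (U : Set P) : NO U ≅ (NOs U : SSet.{0}) where
  hom := { app := fun n => TypeCat.ofHom (fun x =>
    (⟨({ toFun := fun i => ((oh x i : U) : P)
         monotone' := fun i j hij => (oh x).monotone hij } : Fin (n.unop.len + 1) →o P),
      fun i => (oh x i).2⟩ : (NOs U).obj n)) }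
  inv := { app := fun n => TypeCat.ofHom (fun x =>
    ({ toFun := fun i => ⟨oh x.1 i, x.2 i⟩
       monotone' := fun i j hij => (oh x.1).monotone hij } : Fin (n.unop.len + 1) →o U)) }
  hom_inv_id := by
    ext n x
    rfl
  inv_hom_id := by
    ext n x
    rfl

namespace PP

variable {m : ℕ}

/-- Configurations with times `≤ i`, in standard position at time `i`. -/
def GG (m i : ℕ) : Set (PP m) :=
  {x | x.J ⊆ Finset.range (i + 1) ∧ (i ∈ x.J → ∀ k, x.a k i = k)}

theorem GG_mono (m : ℕ) : Monotone (GG m) := by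
  refine monotone_nat_of_le_succ fun i => ?_
  rintro x ⟨h1, _⟩
  refine ⟨h1.trans (Finset.range_mono (Nat.le_succ _)), fun h => ?_⟩
  have := Finset.mem_range.1 (h1 h)
  omega

theorem exists_GG (x : PP m) : ∃ i, ∀ y : PP m, y.J ⊆ x.J → y ∈ GG m i := by
  obtain ⟨i, hi⟩ := x.J.bddAbove
  refine ⟨i + 1, fun y hy => ⟨fun j hj => ?_, fun h => ?_⟩⟩
  · rw [Finset.mem_range]
    have : j ≤ i := hi (hy hj)
    omega
  · have : i + 1 ≤ i := hi (hy h)
    omega

/-- Add the time `i` in standard position. -/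
noncomputable def gg (i : ℕ) (x : GG m i) : PP m where
  J := insert i x.1.J
  a k := (x.1.a k).update i k
  ne := ⟨i, Finset.mem_insert_self _ _⟩
  sub k := by
    intro j hj
    by_cases hji : j = i
    · subst hji
      exact Finset.mem_insert_self _ _
    · rw [Finsupp.mem_support_iff, Finsupp.coe_update, Function.update_of_ne hji] at hj
      exact Finset.mem_insert_of_mem (x.1.sub k (Finsupp.mem_support_iff.2 hj))
  inj j hj k l h := by
    by_cases hji : j = i
    · subst hji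
      simp only [Finsupp.coe_update, Function.update_self] at h
      exact Fin.ext h
    · simp only [Finsupp.coe_update, Function.update_of_ne hji] at h
      exact x.1.inj j (Finset.mem_of_mem_insert_of_ne hj hji) k l h

theorem gg_mem (i : ℕ) (x : GG m i) : gg i x ∈ GG m i := by
  refine ⟨?_, fun _ k => ?_⟩
  · intro j hj
    rcases Finset.mem_insert.1 hj with rfl | hj
    · exact Finset.self_mem_range_succ _
    · exact x.2.1 hj
  · change (x.1.a k).update i k i = k
    rw [Finsupp.coe_update, Function.update_self]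

/-- `gg` as a monotone map. -/
noncomputable def ggo (m i : ℕ) : GG m i →o GG m i where
  toFun x := ⟨gg i x, gg_mem i x⟩
  monotone' := by
    intro x y h
    refine ⟨Finset.insert_subset_insert _ h.1, fun k => ?_⟩
    ext j
    by_cases hj : j ∈ insert i x.1.J
    · change res (insert i x.1.J) ((y.1.a k).update i k) j = (x.1.a k).update i k j
      rw [res_apply_mem hj, Finsupp.coe_update, Finsupp.coe_update]
      by_cases hji : j = i
      · subst hji
        rw [Function.update_self, Function.update_self]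
      · rw [Function.update_of_ne hji, Function.update_of_ne hji, ← h.2 k]
        rw [res_apply_mem (Finset.mem_of_mem_insert_of_ne hj hji)]
    · change res (insert i x.1.J) ((y.1.a k).update i k) j = (gg i x).a k j
      rw [res_apply_notMem hj]
      symm
      by_contra hne
      exact hj ((gg i x).sub k (Finsupp.mem_support_iff.2 hne))

/-- The configuration at the single time `i`, in standard position. -/
noncomputable def cc (m i : ℕ) : PP m where
  J := {i}
  a k := Finsupp.single i k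
  ne := ⟨i, Finset.mem_singleton_self _⟩
  sub k := Finsupp.support_single_subset
  inj j hj k l h := by
    rw [Finset.mem_singleton] at hj
    subst hj
    rw [Finsupp.single_eq_same, Finsupp.single_eq_same] at h
    exact Fin.ext h

theorem cc_mem (m i : ℕ) : cc m i ∈ GG m i := by
  refine ⟨?_, fun _ k => ?_⟩
  · intro j hj
    rw [show j = i from Finset.mem_singleton.1 hj]
    exact Finset.self_mem_range_succ _
  · change (Finsupp.single i (k : ℕ)) i = k
    rw [Finsupp.single_eq_same]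

theorem le_gg (i : ℕ) (x : GG m i) : x ≤ ggo m i x := by
  refine ⟨Finset.subset_insert _ _, fun k => ?_⟩
  ext j
  by_cases hj : j ∈ x.1.J
  · rw [res_apply_mem hj]
    change (x.1.a k).update i k j = x.1.a k j
    by_cases hji : j = i
    · subst hji
      rw [Finsupp.coe_update, Function.update_self, x.2.2 hj k]
    · rw [Finsupp.coe_update, Function.update_of_ne hji]
  · rw [res_apply_notMem hj]
    symm
    by_contra hne
    exact hj (x.1.sub k (Finsupp.mem_support_iff.2 hne))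

theorem cc_le (i : ℕ) (x : GG m i) : (⟨cc m i, cc_mem m i⟩ : GG m i) ≤ ggo m i x := by
  refine ⟨?_, fun k => ?_⟩
  · intro j hj
    rw [show j = i from Finset.mem_singleton.1 hj]
    exact Finset.mem_insert_self _ _
  · ext j
    change res {i} ((x.1.a k).update i k) j = (Finsupp.single i (k : ℕ)) j
    by_cases hji : j = i
    · subst hji
      rw [res_apply_mem (Finset.mem_singleton_self _), Finsupp.coe_update, Function.update_self,
        Finsupp.single_eq_same]
    · rw [res_apply_notMem (fun h => hji (Finset.mem_singleton.1 h)),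
        Finsupp.single_eq_of_ne hji]

theorem GG_acyclic (hH : WC_HEQ_Stmt) {Pr : MorphismProperty SSet.{0}} (hP : WClass Pr)
    (m i : ℕ) : Pr (CartesianMonoidalCategory.toUnit (NOs (GG m i) : SSet.{0})) := by
  have h1 := NO_acyclic hH hP (ggo m i) ⟨cc m i, cc_mem m i⟩ (le_gg i) (cc_le i)
  have h2 : (NOsIso (GG m i)).inv ≫ CartesianMonoidalCategory.toUnit (NO (GG m i)) =
      CartesianMonoidalCategory.toUnit _ := CartesianMonoidalCategory.toUnit_unique _ _
  rw [← h2]
  exact hP.comp _ _ (hP.iso _ inferInstance) h1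

/-- The ordered configurations are acyclic. -/
theorem acyclic (hH : WC_HEQ_Stmt) (hU : WC_UACY_Stmt) {Pr : MorphismProperty SSet.{0}}
    (hP : WClass Pr) (m : ℕ) : Pr (CartesianMonoidalCategory.toUnit (NO (PP m))) := by
  refine hU Pr hP (NO (PP m))
    ⟨fun i => NOs (GG m i), fun i j hij n x hx k => GG_mono m hij (hx k)⟩ ?_
    (fun i => GG_acyclic hH hP m i)
  rw [← top_le_iff]
  intro n x _
  obtain ⟨i, hi⟩ := exists_GG (oh x (Fin.last _))
  have h1 : x ∈ (NOs (GG m i)).obj n := fun k => hi _ ((oh x).monotone (Fin.le_last k)).1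
  exact (le_iSup (fun i => (NOs (GG m i) : (NO (PP m)).Subcomplex)) i) n h1

end PP

end Pool.Agent.SH


end

section

/-!
# MP_2d0b73_an, III-N, N3: the nerve of `LL S` and the free commutative monoid
-/

set_option autoImplicit false

open CategoryTheory Simplicial Opposite MonoidalCategory

namespace Pool.Agent.SH

/-- Quotients of acyclic simplicial sets by free actions of finite groups are acyclic. -/
def GrpAcy (Pr : MorphismProperty SSet.{0}) : Prop :=
  ∀ (G : Type) [Group G] [Finite G] (V F : SSet.{0}) (a : Act G V) (q : V ⟶ F), a.Free →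
    IsQuo a q → Pr (CartesianMonoidalCategory.toUnit V) →
    Pr (CartesianMonoidalCategory.toUnit F)

/-- N3: `NO (LL S) ⟶ ℕ[NO S]` is an equivalence. -/
theorem pmap_mem (hO : WC_OPEN_Stmt) (hH : WC_HEQ_Stmt) (hU : WC_UACY_Stmt)
    {Pr : MorphismProperty SSet.{0}} (hP : WClass Pr) (hG : GrpAcy Pr)
    {S : Type} [PartialOrder S] [Zero S] (h0 : ∀ s : S, s ≤ 0 → s = 0) : Pr (pmap h0) := by
  refine hO Pr hP _ _ _ fun n b _ => ?_
  obtain ⟨m, l, hl, hlb⟩ := PP.exists_labels (z₀ := c0 S n) b.1 (base_of_mem b)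
  refine ⟨NO (PF b.1), phi h0 b.1, ?_, phi_pmap h0 b, fun k a ha e he => phi_open h0 b k a ha e he⟩
  exact hG (PP.stb l) (NO (PP m)) (NO (PF b.1)) ((PP.actP m).restr (PP.stb l))
    (PP.qP hl hlb) (PP.actP_free l) (PP.qP_isQuo hl hlb) (PP.acyclic hH hU hP m)

/-- The nerve of monotone sequences is Mathlib's nerve. -/
def NOnerve (P : Type) [PartialOrder P] : NO P ≅ nerve P where
  hom := { app := fun n => TypeCat.ofHom (fun x => (oh x).monotone.functor)
           naturality := by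
             intro n m θ
             refine ConcreteCategory.hom_ext _ _ fun x => ?_
             exact nerve.ext_of_isThin rfl }
  inv := { app := fun n => TypeCat.ofHom (fun x =>
    ({ toFun := fun i => x.obj i
       monotone' := fun i j hij => leOfHom (x.map (homOfLE hij)) } : Fin (n.unop.len + 1) →o P)) }
  hom_inv_id := by
    ext n x
    rfl
  inv_hom_id := by
    refine NatTrans.ext (funext fun n => ConcreteCategory.hom_ext _ _ fun x => ?_)
    exact nerve.ext_of_isThin (C := P) rfl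

end Pool.Agent.SH


end

section

/-!
# MP_2d0b73_an, Part III-N: the labelled configurations are acyclic
-/

set_option autoImplicit false

open CategoryTheory MonoidalCategory CartesianMonoidalCategory Simplicial Opposite

namespace Pool.Agent.SH

theorem acy_of_ac2 (hM : F2_MOORE_Stmt) {P : MorphismProperty SSet.{0}}
    (hF : ∀ (X Y : SSet.{0}) (f : X ⟶ Y), F2Iso f → P f) (X : SSet.{0}) (h : Ac2 X) :
    Acy P X := by
  refine hF _ _ _ (hM X h.ne h.zero ?_)
  intro n z hz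
  obtain ⟨w, h0, h1⟩ := h.succ n z hz
  refine ⟨w, h0, ?_⟩
  intro i hi
  obtain ⟨j, rfl⟩ := Fin.exists_succ_eq.2 hi
  exact h1 j

theorem n_main (hO : WC_OPEN_Stmt) (hH : WC_HEQ_Stmt) (hU : WC_UACY_Stmt)
    (hM : F2_MOORE_Stmt) (hfin : N_FIN_Stmt) (hnn : N_NN_Stmt) : N_MAIN_Stmt := by
  intro P hP hF hB
  have hA : ∀ X : SSet.{0}, Ac2 X → Acy P X := acy_of_ac2 hM hF
  have hG : GrpAcy P := by
    intro G _ _ V F a q ha hq hV
    exact hfin P hP hA hB G V F a q ha hq hV
  have h0 : ∀ s : Sph 2, s ≤ 0 → s = 0 := fun s hs => Sph.eq_zero_of_le hs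
  have h1 : P (pmap h0) := pmap_mem hO hH hU hP hG h0
  have h2 : P (toUnit (FM ℕ ⊤ ⊤ ⊤ (NOs (UZ : Set (Sph 2))))) := hnn P hP hA hB
  have e : pmap h0 ≫ toUnit _ = toUnit (NO (LL (Sph 2))) := toUnit_unique _ _
  show P (toUnit (NO (LL (Sph 2))))
  rw [← e]
  exact hP.comp _ _ h1 h2

end Pool.Agent.SH


end

section

/-!
# MP_2d0b73_an, Part III-N, (F12): `B D` is acyclic for `D = ℤ[1/2]/ℤ`
-/

set_option autoImplicit false

open CategoryTheory MonoidalCategory CartesianMonoidalCategory Simplicial Opposite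

namespace Pool.Agent.SH

namespace NBd

/-! ### The elements killed by a power of two -/

/-- the elements of `Dd` killed by `2 ^ k` -/
def Dk (k : ℕ) : AddSubgroup Dd where
  carrier := {d | 2 ^ k • d = 0}
  zero_mem' := smul_zero _
  add_mem' := by
    intro a b ha hb
    have ha' : 2 ^ k • a = 0 := ha
    have hb' : 2 ^ k • b = 0 := hb
    show 2 ^ k • (a + b) = 0
    rw [smul_add, ha', hb', add_zero]
  neg_mem' := by
    intro a ha
    have ha' : 2 ^ k • a = 0 := ha
    show 2 ^ k • (-a) = 0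
    rw [smul_neg, ha', neg_zero]

theorem mem_Dk {k : ℕ} {d : Dd} : d ∈ Dk k ↔ 2 ^ k • d = 0 := Iff.rfl

theorem Dk_mono {k l : ℕ} (h : k ≤ l) {d : Dd} (hd : 2 ^ k • d = 0) : 2 ^ l • d = 0 := by
  obtain ⟨m, rfl⟩ := Nat.exists_eq_add_of_le h
  rw [pow_add, mul_comm, mul_smul, hd, smul_zero]

theorem exists_k (d : Dd) : ∃ k : ℕ, 2 ^ k • d = 0 := by
  obtain ⟨k, hk⟩ := d.2
  exact ⟨k, Subtype.ext hk⟩

instance finite_Dk (k : ℕ) : Finite (Dk k) := by
  have h : (Set.ofPred (fun u : AddCircle (1 : ℚ) => (2 ^ k) • u = 0)).Finite :=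
    AddCircle.finite_torsion (1 : ℚ) (n := 2 ^ k) (by positivity)
  have h' : Finite (Set.ofPred (fun u : AddCircle (1 : ℚ) => (2 ^ k) • u = 0)) := h.to_subtype
  refine Finite.of_injective (fun d : Dk k =>
    (⟨d.1.1, congrArg Subtype.val d.2⟩ :
      (Set.ofPred (fun u : AddCircle (1 : ℚ) => (2 ^ k) • u = 0)))) ?_
  intro a b hab
  simp only [Subtype.mk.injEq] at hab
  exact Subtype.ext (Subtype.ext hab)

theorem card_Dk (k : ℕ) : ∃ j, Nat.card (Multiplicative (Dk k)) = 2 ^ j := by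
  have h : IsPGroup 2 (Multiplicative (Dk k)) := by
    intro g
    refine ⟨k, ?_⟩
    apply Multiplicative.toAdd.injective
    rw [toAdd_pow, toAdd_one]
    exact Subtype.ext g.toAdd.2
  have : Finite (Multiplicative (Dk k)) := finite_Dk k
  exact IsPGroup.iff_card.1 h

/-! ### Change of coefficients -/

/-- A homomorphism of coefficients. -/
noncomputable def chg {A B : Type} [AddCommMonoid A] [AddCommMonoid B] (φ : A →+ B)
    {X : SSet.{0}} (W Z : X.Subcomplex) : FM A ⊤ ⊤ W Z ⟶ FM B ⊤ ⊤ W Z where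
  app n := TypeCat.ofHom (fun f =>
    ⟨f.1.mapRange φ φ.map_zero, by
      refine ⟨fun x hx => ?_, fun x _ => AddSubmonoid.mem_top _⟩
      rw [Finsupp.mapRange_apply] at hx
      exact f.2.1 x fun h => hx (by rw [h, map_zero])⟩)
  naturality n m θ := by
    classical
    refine ConcreteCategory.hom_ext _ _ fun f => Subtype.ext ?_
    obtain ⟨f, hf⟩ := f
    show (((f.mapDomain (X.map θ)).filter (fun x => x ∉ Z.obj m)).mapRange φ φ.map_zero)
      = ((f.mapRange φ φ.map_zero).mapDomain (X.map θ)).filter (fun x => x ∉ Z.obj m)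
    rw [Finsupp.mapDomain_mapRange _ _ _ φ.map_zero φ.map_add]
    ext x
    rw [Finsupp.mapRange_apply, Finsupp.filter_apply, Finsupp.filter_apply]
    by_cases h : x ∉ Z.obj m
    · rw [if_pos h, if_pos h, Finsupp.mapRange_apply]
    · rw [if_neg h, if_neg h, map_zero]

theorem chg_app {A B : Type} [AddCommMonoid A] [AddCommMonoid B] (φ : A →+ B)
    {X : SSet.{0}} (W Z : X.Subcomplex) {n : SimplexCategoryᵒᵖ} (f : (FM A ⊤ ⊤ W Z).obj n) :
    ((chg φ W Z).app n f).1 = f.1.mapRange φ φ.map_zero := rfl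

theorem chg_mono {A B : Type} [AddCommMonoid A] [AddCommMonoid B] (φ : A →+ B)
    (hφ : Function.Injective φ) {X : SSet.{0}} (W Z : X.Subcomplex) : Mono (chg φ W Z) := by
  have : ∀ n, Mono ((chg φ W Z).app n) := by
    intro n
    rw [mono_iff_injective]
    intro f g hfg
    have h1 : f.1.mapRange φ φ.map_zero = g.1.mapRange φ φ.map_zero := congrArg Subtype.val hfg
    exact Subtype.ext (Finsupp.mapRange_injective φ φ.map_zero hφ h1)
  exact NatTrans.mono_of_mono_app _

/-! ### The subcomplexes -/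

/-- the simplicial set `B D` -/
noncomputable abbrev XX : SSet.{0} := FM Dd ⊤ ⊤ (NOs U3) Z3

/-- the functions with values in `Dk k` -/
noncomputable def Ak (k : ℕ) : XX.Subcomplex where
  obj n := Set.ofPred (fun f : XX.obj n => ∀ x, 2 ^ k • f.1 x = 0)
  map {n m} θ f hf := by
    classical
    show ∀ x, 2 ^ k • (XX.map θ f).1 x = 0
    intro x
    have hf' : ∀ x, 2 ^ k • f.1 x = 0 := hf
    have e : (XX.map θ f).1 = (f.1.mapDomain ((NO (Sph 2)).map θ)).filter
        (fun x => x ∉ Z3.obj m) := by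
      congr
    rw [e, Finsupp.filter_apply]
    by_cases h : x ∉ Z3.obj m
    · rw [if_pos h]
      exact FM_mem (Dk k).toAddSubmonoid θ f.1 x fun y _ => hf' y
    · rw [if_neg h]
      exact smul_zero _

theorem mem_Ak {k : ℕ} {n : SimplexCategoryᵒᵖ} {f : XX.obj n} :
    f ∈ (Ak k).obj n ↔ ∀ x, 2 ^ k • f.1 x = 0 := Iff.rfl

/-- the increasing sequence of the subcomplexes -/
noncomputable def AA : ℕ →o XX.Subcomplex where
  toFun := Ak
  monotone' := by
    intro k l h n f hf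
    exact mem_Ak.2 fun x => Dk_mono h (mem_Ak.1 hf x)

theorem AA_top : ⨆ k, AA k = ⊤ := by
  apply CategoryTheory.Subfunctor.ext
  funext n
  rw [CategoryTheory.Subfunctor.iSup_obj]
  refine Set.eq_univ_of_forall fun f => ?_
  choose K hK using fun x => exists_k (f.1 x)
  refine Set.mem_iUnion.2 ⟨f.1.support.sup K, mem_Ak.2 fun x => ?_⟩
  by_cases hx : f.1 x = 0
  · rw [hx, smul_zero]
  · exact Dk_mono (Finset.le_sup (f := K) (Finsupp.mem_support_iff.2 hx)) (hK x)

theorem range_chg (k : ℕ) :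
    SSet.Subcomplex.range (chg (Dk k).subtype (NOs U3) Z3) = AA k := by
  apply CategoryTheory.Subfunctor.ext
  funext n
  ext f
  constructor
  · rintro ⟨g, rfl⟩
    refine mem_Ak.2 fun x => ?_
    rw [chg_app, Finsupp.mapRange_apply]
    exact (g.1 x).2
  · intro hf
    have hf' := mem_Ak.1 hf
    let g : (NO (Sph 2)).obj n →₀ Dk k := Finsupp.onFinset f.1.support
      (fun x => ⟨f.1 x, hf' x⟩) (fun x hx => Finsupp.mem_support_iff.2 fun h =>
        hx (Subtype.ext h))
    have hg : ∀ x, (g x : Dd) = f.1 x := fun x => rfl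
    refine ⟨⟨g, fun x hx => f.2.1 x fun h => hx (Subtype.ext ((hg x).trans h)),
      fun x _ => AddSubmonoid.mem_top _⟩, ?_⟩
    apply Subtype.ext
    rw [chg_app]
    ext x
    rw [Finsupp.mapRange_apply]
    rfl

theorem free (G : Type) [Group G] : (EEact G G).Free := by
  intro n x g h
  have h1 : g * x 0 = x 0 := congrFun h 0
  exact mul_eq_right.1 h1

end NBd

open NBd in
theorem n_bd (h1 : WC_UACY_Stmt) (h2 : N_TWO_Stmt) (h3 : N_EE_Stmt) (h4 : N_BDQ_Stmt) :
    N_BD_Stmt := by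
  intro P hP hB
  refine h1 P hP XX AA AA_top fun k => ?_
  obtain ⟨q, hq⟩ := h4 (Dk k)
  obtain ⟨j, hj⟩ := card_Dk k
  have h5 : Acy P (FM (Dk k) ⊤ ⊤ (NOs U3) Z3) :=
    h2 P hP hB (Multiplicative (Dk k)) j hj _ _ _ q (free _) hq (h3 P hP _ ⟨1⟩)
  have hm := chg_mono (Dk k).subtype Subtype.val_injective (NOs U3) Z3
  have h6 : P (SSet.Subcomplex.toRange (chg (Dk k).subtype (NOs U3) Z3)) :=
    hP.iso _ inferInstance
  have h7 : P (toUnit (SSet.Subcomplex.range (chg (Dk k).subtype (NOs U3) Z3) : SSet.{0})) := by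
    refine hP.cancelL _ _ h6 ?_
    have e : SSet.Subcomplex.toRange (chg (Dk k).subtype (NOs U3) Z3) ≫ toUnit _ =
      toUnit (FM (Dk k) ⊤ ⊤ (NOs U3) Z3) := toUnit_unique _ _
    rw [e]
    exact h5
  rw [range_chg] at h7
  exact h7

end Pool.Agent.SH


end

section

/-!
# MP_2d0b73_an, Part III-N, (F11): `D[Δ¹/∂Δ¹]` is the quotient of all sequences by translations
-/

set_option autoImplicit false

open CategoryTheory MonoidalCategory CartesianMonoidalCategory Simplicial Opposite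

namespace Pool.Agent.SH

namespace NBdq

/-- The cut after the index `i`. -/
def cut (N i : ℕ) : Fin (N + 1) →o Sph 2 where
  toFun j := if j.val ≤ i then ⟨0, true⟩ else ⟨1, true⟩
  monotone' := by
    intro j j' h
    show (if j.val ≤ i then (⟨0, true⟩ : Sph 2) else ⟨1, true⟩) ≤
      (if j'.val ≤ i then (⟨0, true⟩ : Sph 2) else ⟨1, true⟩)
    have h' : j.val ≤ j'.val := h
    by_cases h1 : j'.val ≤ i
    · rw [if_pos h1, if_pos (h'.trans h1)]
    · rw [if_neg h1]
      by_cases h2 : j.val ≤ i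
      · rw [if_pos h2]
        exact Or.inl (by decide)
      · rw [if_neg h2]

theorem cut_lo {N i : ℕ} {j : Fin (N + 1)} (h : j.val ≤ i) : cut N i j = ⟨0, true⟩ := if_pos h

theorem cut_hi {N i : ℕ} {j : Fin (N + 1)} (h : ¬ j.val ≤ i) : cut N i j = ⟨1, true⟩ := if_neg h

theorem cut_lo_iff {N i : ℕ} {j : Fin (N + 1)} : cut N i j = ⟨0, true⟩ ↔ j.val ≤ i := by
  constructor
  · intro h
    by_contra h1
    rw [cut_hi h1] at h
    exact absurd (congrArg Sph.lev h) (by decide)
  · exact cut_lo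

theorem cut_mem (N i : ℕ) (j : Fin (N + 1)) : cut N i j ∈ U3 := by
  by_cases h : j.val ≤ i
  · rw [cut_lo h]
    exact ⟨rfl, by decide⟩
  · rw [cut_hi h]
    exact ⟨rfl, by decide⟩

theorem cut_inj {N i i' : ℕ} (hi : i < N) (hi' : i' < N) (h : cut N i = cut N i') : i = i' := by
  rcases lt_trichotomy i i' with h1 | h1 | h1
  · exfalso
    have h2 : cut N i' ⟨i + 1, by omega⟩ = ⟨0, true⟩ := cut_lo h1
    rw [← h, cut_lo_iff] at h2
    exact absurd h2 (by simp)
  · exact h1
  · exfalso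
    have h2 : cut N i ⟨i' + 1, by omega⟩ = ⟨0, true⟩ := cut_lo h1
    rw [h, cut_lo_iff] at h2
    exact absurd h2 (by simp)

theorem U3_val {x : Sph 2} (h : x ∈ U3) : x = ⟨0, true⟩ ∨ x = ⟨1, true⟩ := by
  obtain ⟨l, s⟩ := x
  obtain ⟨h1, h2⟩ := h
  have h1' : s = true := h1
  have h2' : l ≠ Fin.last 2 := h2
  subst h1'
  have h3 : l = 0 ∨ l = 1 := by
    revert h2'
    revert l
    decide
  rcases h3 with rfl | rfl
  · exact Or.inl rfl
  · exact Or.inr rfl

theorem exists_cut {N : ℕ} (x : Fin (N + 1) →o Sph 2) (h1 : ∀ j, x j ∈ U3)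
    (h2 : ¬ ∀ j, (x j).sgn = true ∧ (x j).lev = 0)
    (h3 : ¬ ∀ j, (x j).sgn = true ∧ (x j).lev = 1) : ∃ i < N, x = cut N i := by
  classical
  have hv : ∀ j, x j = ⟨0, true⟩ ∨ x j = ⟨1, true⟩ := fun j => U3_val (h1 j)
  have hne : (Finset.univ.filter (fun j => x j = ⟨0, true⟩)).Nonempty := by
    by_contra hc
    apply h3
    intro j
    rcases hv j with h | h
    · exact absurd ⟨j, Finset.mem_filter.2 ⟨Finset.mem_univ _, h⟩⟩ hc
    · rw [h]
      exact ⟨rfl, rfl⟩
  obtain ⟨i, hi, hmax⟩ := Finset.exists_max_image _ (fun j => j) hne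
  have hi0 : x i = ⟨0, true⟩ := (Finset.mem_filter.1 hi).2
  have hlo : ∀ j, j ≤ i → x j = ⟨0, true⟩ := by
    intro j hj
    rcases hv j with h | h
    · exact h
    · exfalso
      have h4 := x.monotone hj
      rw [h, hi0] at h4
      rcases h4 with h4 | h4
      · exact absurd h4 (by decide)
      · exact absurd (congrArg Sph.lev h4) (by decide)
  have hhi : ∀ j, ¬ j ≤ i → x j = ⟨1, true⟩ := by
    intro j hj
    rcases hv j with h | h
    · exact absurd (hmax j (Finset.mem_filter.2 ⟨Finset.mem_univ _, h⟩)) hj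
    · exact h
  refine ⟨i.val, ?_, ?_⟩
  · by_contra hc
    apply h2
    intro j
    have h5 : j ≤ i := by
      have := j.2
      show j.val ≤ i.val
      omega
    rw [hlo j h5]
    exact ⟨rfl, rfl⟩
  · apply OrderHom.ext
    funext j
    by_cases hj : j ≤ i
    · rw [hlo j hj]
      exact (cut_lo hj).symm
    · rw [hhi j hj]
      exact (cut_hi hj).symm

theorem mem_Z3 {n : SimplexCategoryᵒᵖ} (x : Fin (n.unop.len + 1) →o Sph 2) :
    (x : (NO (Sph 2)).obj n) ∈ Z3.obj n ↔ (∀ j, (x j).sgn = true ∧ (x j).lev = 0) ∨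
      ∀ j, (x j).sgn = true ∧ (x j).lev = 1 := Iff.rfl

/-- The cut after the index `i`, as a simplex. -/
def cutS (n : SimplexCategoryᵒᵖ) (i : ℕ) : (NO (Sph 2)).obj n := cut n.unop.len i

theorem cutS_notMem {n : SimplexCategoryᵒᵖ} {i : ℕ} (hi : i < n.unop.len) :
    cutS n i ∉ Z3.obj n := by
  intro h
  rcases (mem_Z3 (cut n.unop.len i)).1 h with h | h
  · have h1 := (h (Fin.last _)).2
    rw [cut_hi (by simp [hi])] at h1
    exact absurd h1 (by decide)
  · have h1 := (h 0).2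
    rw [cut_lo (by simp)] at h1
    exact absurd h1 (by decide)

theorem cutS_mem (n : SimplexCategoryᵒᵖ) (i : ℕ) : cutS n i ∈ (NOs U3).obj n :=
  fun j => cut_mem _ _ j

theorem cutS_inj {n : SimplexCategoryᵒᵖ} {i i' : ℕ} (hi : i < n.unop.len)
    (hi' : i' < n.unop.len) (h : cutS n i = cutS n i') : i = i' := cut_inj hi hi' h

theorem exists_cutS' {n : SimplexCategoryᵒᵖ} (x : Fin (n.unop.len + 1) →o Sph 2)
    (h1 : (x : (NO (Sph 2)).obj n) ∈ (NOs U3).obj n)
    (h2 : (x : (NO (Sph 2)).obj n) ∉ Z3.obj n) : ∃ i < n.unop.len, x = cut n.unop.len i := by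
  have h3 : ¬ ((∀ j, (x j).sgn = true ∧ (x j).lev = 0) ∨
      ∀ j, (x j).sgn = true ∧ (x j).lev = 1) := fun h => h2 ((mem_Z3 x).2 h)
  rw [not_or] at h3
  exact exists_cut x h1 h3.1 h3.2

theorem exists_cutS {n : SimplexCategoryᵒᵖ} (x : (NO (Sph 2)).obj n)
    (h1 : x ∈ (NOs U3).obj n) (h2 : x ∉ Z3.obj n) : ∃ i < n.unop.len, x = cutS n i :=
  exists_cutS' x h1 h2

section

variable {D : Type} [AddCommGroup D]

/-- The differences of a sequence, as a function on the cuts. -/
noncomputable def F (n : SimplexCategoryᵒᵖ) (g : Fin (n.unop.len + 1) → Multiplicative D) :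
    (NO (Sph 2)).obj n →₀ D :=
  ∑ i : Fin n.unop.len, Finsupp.single (cutS n i)
    (Multiplicative.toAdd (g i.succ) - Multiplicative.toAdd (g i.castSucc))

theorem F_cut {n : SimplexCategoryᵒᵖ} (g : Fin (n.unop.len + 1) → Multiplicative D)
    (i : Fin n.unop.len) : F n g (cutS n i) =
      Multiplicative.toAdd (g i.succ) - Multiplicative.toAdd (g i.castSucc) := by
  classical
  unfold F
  rw [Finsupp.finsetSum_apply, Finset.sum_eq_single i]
  · rw [Finsupp.single_eq_same]
  · intro j _ hj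
    rw [Finsupp.single_apply, if_neg]
    intro h
    exact hj (Fin.ext (cutS_inj j.2 i.2 h))
  · intro h
    exact absurd (Finset.mem_univ i) h

theorem F_not {n : SimplexCategoryᵒᵖ} (g : Fin (n.unop.len + 1) → Multiplicative D)
    (x : (NO (Sph 2)).obj n) (hx : ¬ ∃ i < n.unop.len, x = cutS n i) : F n g x = 0 := by
  classical
  unfold F
  rw [Finsupp.finsetSum_apply]
  refine Finset.sum_eq_zero fun i _ => ?_
  rw [Finsupp.single_apply, if_neg]
  exact fun h => hx ⟨i.val, i.2, h.symm⟩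

theorem tele (G : ℕ → D) (N a b : ℕ) (hab : a ≤ b) (hb : b ≤ N) :
    ∑ i : Fin N, (if a ≤ i.val ∧ i.val < b then G (i.val + 1) - G i.val else 0) = G b - G a := by
  rw [Fin.sum_univ_eq_sum_range
    (fun i => if a ≤ i ∧ i < b then G (i + 1) - G i else 0) N, ← Finset.sum_filter]
  have e : (Finset.range N).filter (fun i => a ≤ i ∧ i < b) = Finset.Ico a b := by
    ext i
    rw [Finset.mem_filter, Finset.mem_range, Finset.mem_Ico]
    constructor
    · exact fun h => h.2
    · exact fun h => ⟨by omega, h⟩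
  rw [e]
  induction b, hab using Nat.le_induction with
  | base => simp
  | succ b hab ih =>
    rw [Finset.sum_Ico_succ_top hab, ih (by omega) (by
      ext i
      rw [Finset.mem_filter, Finset.mem_range, Finset.mem_Ico]
      constructor
      · exact fun h => h.2
      · exact fun h => ⟨by omega, h⟩)]
    abel

/-- When the pull back of a cut is a given cut. -/
theorem comp_cut {N M : ℕ} (t : Fin (M + 1) →o Fin (N + 1)) (i : ℕ) (j : Fin M) :
    (cut N i).comp t = cut M j ↔ (t j.castSucc).val ≤ i ∧ i < (t j.succ).val := by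
  constructor
  · intro h
    constructor
    · have h1 : (cut N i).comp t j.castSucc = ⟨0, true⟩ := by
        rw [h]
        exact cut_lo le_rfl
      exact cut_lo_iff.1 h1
    · by_contra hc
      have h1 : (cut N i).comp t j.succ = ⟨0, true⟩ := cut_lo (not_lt.1 hc)
      rw [h, cut_lo_iff] at h1
      exact absurd h1 (by simp)
  · rintro ⟨h1, h2⟩
    apply OrderHom.ext
    funext l
    show cut N i (t l) = cut M j l
    by_cases hl : l.val ≤ j.val
    · rw [cut_lo hl, cut_lo]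
      have h3 : t l ≤ t j.castSucc := t.monotone hl
      exact le_trans (show (t l).val ≤ (t j.castSucc).val from h3) h1
    · rw [cut_hi hl, cut_hi]
      have h3 : t j.succ ≤ t l := t.monotone (by
        show j.val + 1 ≤ l.val
        omega)
      have h4 : (t j.succ).val ≤ (t l).val := h3
      omega

theorem map_cutS {n m : SimplexCategoryᵒᵖ} (θ : n ⟶ m) (i : ℕ) (j : Fin m.unop.len) :
    (NO (Sph 2)).map θ (cutS n i) = cutS m j ↔
      (θ.unop.toOrderHom j.castSucc).val ≤ i ∧ i < (θ.unop.toOrderHom j.succ).val :=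
  comp_cut θ.unop.toOrderHom i j

open scoped Classical in
theorem nat_aux {n m : SimplexCategoryᵒᵖ} (θ : n ⟶ m)
    (g : Fin (n.unop.len + 1) → Multiplicative D) :
    F m (fun j => g (θ.unop.toOrderHom j)) =
      ((F n g).mapDomain ((NO (Sph 2)).map θ)).filter (fun x => x ∉ Z3.obj m) := by
  have hmap : (F n g).mapDomain ((NO (Sph 2)).map θ) =
      ∑ i : Fin n.unop.len, Finsupp.single ((NO (Sph 2)).map θ (cutS n i))
        (Multiplicative.toAdd (g i.succ) - Multiplicative.toAdd (g i.castSucc)) := by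
    unfold F
    refine (Finsupp.mapDomain_finsetSum).trans ?_
    refine Finset.sum_congr rfl fun i _ => ?_
    exact Finsupp.mapDomain_single
  rw [hmap]
  refine Finsupp.ext fun x => ?_
  rw [Finsupp.filter_apply]
  by_cases hx : ∃ j < m.unop.len, x = cutS m j
  · obtain ⟨j, hj, rfl⟩ := hx
    rw [if_pos (cutS_notMem hj), Finsupp.finsetSum_apply]
    refine (F_cut (fun j => g (θ.unop.toOrderHom j)) ⟨j, hj⟩).trans ?_
    let G : ℕ → D := fun i => if h : i < n.unop.len + 1 then Multiplicative.toAdd (g ⟨i, h⟩) else 0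
    have hG : ∀ l : Fin (n.unop.len + 1), G l.val = Multiplicative.toAdd (g l) := fun l => by
      show (if h : l.val < n.unop.len + 1 then Multiplicative.toAdd (g ⟨l.val, h⟩) else 0) = _
      rw [dif_pos l.2]
    have ht : (θ.unop.toOrderHom (Fin.castSucc ⟨j, hj⟩)).val ≤
        (θ.unop.toOrderHom (Fin.succ ⟨j, hj⟩)).val :=
      θ.unop.toOrderHom.monotone (Fin.castSucc_lt_succ).le
    have h1 := tele G n.unop.len _ _ ht (Nat.lt_succ_iff.1 (θ.unop.toOrderHom (Fin.succ ⟨j, hj⟩)).2)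
    rw [hG, hG] at h1
    refine h1.symm.trans ?_
    refine Finset.sum_congr rfl fun i _ => ?_
    rw [Finsupp.single_apply]
    have h2 := map_cutS θ i.val ⟨j, hj⟩
    by_cases h3 : (θ.unop.toOrderHom (Fin.castSucc ⟨j, hj⟩)).val ≤ i.val ∧
        i.val < (θ.unop.toOrderHom (Fin.succ ⟨j, hj⟩)).val
    · rw [if_pos h3, if_pos (h2.2 h3), ← hG i.succ, ← hG i.castSucc]
      rfl
    · rw [if_neg h3, if_neg fun h4 => h3 (h2.1 h4)]
  · rw [F_not _ x hx]
    by_cases hZ : x ∉ Z3.obj m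
    · rw [if_pos hZ, Finsupp.finsetSum_apply]
      refine (Finset.sum_eq_zero fun i _ => ?_).symm
      rw [Finsupp.single_apply, if_neg]
      intro h
      apply hx
      refine exists_cutS x ?_ hZ
      rw [← h]
      exact (NOs U3).map θ (cutS_mem n i)
    · rw [if_neg hZ]

theorem F_mem {n : SimplexCategoryᵒᵖ} (g : Fin (n.unop.len + 1) → Multiplicative D)
    (x : (NO (Sph 2)).obj n) (hx : F n g x ≠ 0) :
    x ∈ (NOs U3).obj n ∧ x ∉ Z3.obj n := by
  have h : ∃ i < n.unop.len, x = cutS n i := by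
    by_contra hc
    exact hx (F_not g x hc)
  obtain ⟨i, hi, rfl⟩ := h
  exact ⟨cutS_mem n i, cutS_notMem hi⟩

/-- The quotient map. -/
noncomputable def q (D : Type) [AddCommGroup D] :
    EE (Multiplicative D) ⟶ FM D ⊤ ⊤ (NOs U3) Z3 where
  app n := TypeCat.ofHom (fun g => ⟨F n g, fun x hx => F_mem g x hx,
    fun _ _ => AddSubmonoid.mem_top _⟩)
  naturality n m θ := by
    refine ConcreteCategory.hom_ext _ _ fun g => Subtype.ext ?_
    exact nat_aux θ g

theorem q_eq_iff (n : SimplexCategoryᵒᵖ) (g g' : Fin (n.unop.len + 1) → Multiplicative D) :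
    (q D).app n g = (q D).app n g' ↔ F n g = F n g' := by
  constructor
  · intro h
    exact congrArg Subtype.val h
  · intro h
    exact Subtype.ext h

theorem F_surj {n : SimplexCategoryᵒᵖ} (f : (NO (Sph 2)).obj n →₀ D)
    (hf : ∀ x, f x ≠ 0 → x ∈ (NOs U3).obj n ∧ x ∉ Z3.obj n) : ∃ g, F n g = f := by
  let G : ℕ → D := fun i => ∑ l ∈ Finset.range i, f (cutS n l)
  refine ⟨fun i => Multiplicative.ofAdd (G i.val), Finsupp.ext fun x => ?_⟩
  by_cases hx : ∃ i < n.unop.len, x = cutS n i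
  · obtain ⟨i, hi, rfl⟩ := hx
    refine (F_cut _ ⟨i, hi⟩).trans ?_
    show ∑ l ∈ Finset.range (i + 1), f (cutS n l) - ∑ l ∈ Finset.range i, f (cutS n l) = _
    rw [Finset.sum_range_succ, add_sub_cancel_left]
  · rw [F_not _ x hx]
    by_contra hc
    obtain ⟨h1, h2⟩ := hf x (fun h => hc h.symm)
    exact hx (exists_cutS x h1 h2)

theorem F_fib {n : SimplexCategoryᵒᵖ} (g g' : Fin (n.unop.len + 1) → Multiplicative D) :
    F n g = F n g' ↔ ∃ h : Multiplicative D, (fun i => h * g i) = g' := by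
  constructor
  · intro h
    refine ⟨g' 0 * (g 0)⁻¹, ?_⟩
    have key : ∀ i : Fin (n.unop.len + 1), g' i * (g i)⁻¹ = g' 0 * (g 0)⁻¹ := by
      intro i
      induction i using Fin.induction with
      | zero => rfl
      | succ i ih =>
        rw [← ih]
        have h1 := DFunLike.congr_fun h (cutS n i)
        rw [F_cut, F_cut] at h1
        have h2 : g i.succ * (g i.castSucc)⁻¹ = g' i.succ * (g' i.castSucc)⁻¹ := by
          apply Multiplicative.toAdd.injective
          rw [toAdd_mul, toAdd_mul, toAdd_inv, toAdd_inv, ← sub_eq_add_neg, ← sub_eq_add_neg]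
          exact h1
        have h3 : g' i.succ = g i.succ * (g i.castSucc)⁻¹ * g' i.castSucc := by
          rw [h2, inv_mul_cancel_right]
        rw [h3, mul_assoc, mul_comm (g i.succ * (g i.castSucc)⁻¹), mul_assoc,
          mul_comm (g i.succ)⁻¹, mul_comm (g i.succ), mul_inv_cancel_right]
    funext i
    rw [← key i, inv_mul_cancel_right]
  · rintro ⟨h, rfl⟩
    refine Finsupp.ext fun x => ?_
    by_cases hx : ∃ i < n.unop.len, x = cutS n i
    · obtain ⟨i, hi, rfl⟩ := hx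
      refine (F_cut g ⟨i, hi⟩).trans ((F_cut _ ⟨i, hi⟩).trans ?_).symm
      rw [toAdd_mul, toAdd_mul]
      abel
    · rw [F_not _ x hx, F_not _ x hx]

end

end NBdq

theorem n_bdq : N_BDQ_Stmt := by
  intro D _
  refine ⟨NBdq.q D, ?_, ?_⟩
  · rintro n ⟨f, hf, hf'⟩
    obtain ⟨g, hg⟩ := NBdq.F_surj f hf
    exact ⟨g, Subtype.ext hg⟩
  · intro n g g'
    exact (NBdq.q_eq_iff n g g').trans (NBdq.F_fib g g')

end Pool.Agent.SH


end

section

/-!
# MP_2d0b73_an, Part III-N, module SH_N_CONE: cones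
-/

set_option autoImplicit false

open CategoryTheory MonoidalCategory CartesianMonoidalCategory Simplicial Opposite

namespace Pool.Agent.SH

namespace NCone

/-- the pole -/
def top (e : Bool) : Sph 2 := ⟨Fin.last 2, e⟩

theorem top_mem (e : Bool) : top e ∈ UC e := fun _ => rfl

theorem zero_mem (e : Bool) : (0 : Sph 2) ∈ UC e := by
  intro h
  exact absurd h (by decide)

theorem le_top (e : Bool) (x : Sph 2) (hx : x ∈ UC e) : x ≤ top e := by
  by_cases h : x.lev = Fin.last 2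
  · refine Or.inr ?_
    have h2 : x.sgn = e := hx h
    cases x
    simp only at h h2
    subst h h2
    rfl
  · exact Or.inl (lt_of_le_of_ne (Fin.le_last _) h)

theorem zero_le_top (e : Bool) : (0 : Sph 2) ≤ top e := le_top e _ (zero_mem e)

/-- the base point and the pole -/
def EE' (e : Bool) : Set (Sph 2) := {0, top e}

theorem EE'_sub (e : Bool) : EE' e ⊆ UC e := by
  rintro x (rfl | rfl)
  · exact zero_mem e
  · exact top_mem e

theorem step_a (h1 : N_PCTR_Stmt) (P : MorphismProperty SSet.{0}) (hP : WClass P) (A : Type)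
    [AddCommMonoid A] (A₀ : AddSubmonoid A) (e : Bool) :
    Acy P (FM A A₀ ⊥ (NOs (UC e)) (NOs (EE' e))) := by
  refine h1 P hP A A₀ (Sph 2) (UC e) (EE' e) (OrderHom.const _ ⟨top e, top_mem e⟩) ?_ ?_ ⊥
    (Or.inl rfl)
  · refine Relation.EqvGen.rel _ _ ⟨?_, ?_⟩
    · intro x
      exact le_top e x.1 x.2
    · intro x hx
      exact ⟨hx, Or.inr rfl⟩
  · intro x
    exact Or.inr rfl

theorem step_b (h1 : N_PCTR_Stmt) (P : MorphismProperty SSet.{0}) (hP : WClass P) (A : Type)
    [AddCommMonoid A] (A₀ : AddSubmonoid A) (e : Bool) :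
    Acy P (FM A A₀ ⊥ (NOs (EE' e)) (NOs UZ)) := by
  refine h1 P hP A A₀ (Sph 2) (EE' e) UZ (OrderHom.const _ ⟨0, Or.inl rfl⟩) ?_ ?_ ⊥ (Or.inl rfl)
  · refine Relation.EqvGen.symm _ _ (Relation.EqvGen.rel _ _ ⟨?_, ?_⟩)
    · rintro ⟨x, hx⟩
      show (0 : Sph 2) ≤ x
      rcases hx with rfl | rfl
      · exact le_rfl
      · exact zero_le_top e
    · intro x hx
      exact ⟨rfl, hx⟩
  · intro x
    exact rfl

end NCone

/-- (F8) cones: the circle with one pole, pointed by `0`. -/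
theorem n_cone (h1 : N_PCTR_Stmt) (h2 : N_FMC_Stmt) : N_CONE_Stmt := by
  intro P hP A _ A₀ e
  have hle : NOs UZ ≤ NOs (NCone.EE' e) := by
    intro n x hx i
    exact Or.inl (hx i)
  have hinf : NOs (UC e) ⊓ NOs (NCone.EE' e) = NOs (NCone.EE' e) := by
    apply inf_eq_right.2
    intro n x hx i
    exact NCone.EE'_sub e (hx i)
  have hb := NCone.step_b h1 P hP A A₀ e
  rw [← hinf] at hb
  have h3 := h2 P hP A A₀ (NO (Sph 2)) ⊥ (NOs (UC e)) (NOs UZ) (NOs (NCone.EE' e)) hle hb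
  have h4 := hP.comp _ _ h3 (NCone.step_a h1 P hP A A₀ e)
  rw [comp_toUnit] at h4
  exact h4

end Pool.Agent.SH


end

section

/-!
# MP_2d0b73_an, Part III-N (F5): contractible pairs
-/

set_option autoImplicit false

open CategoryTheory MonoidalCategory CartesianMonoidalCategory Simplicial Opposite

namespace Pool.Agent.SH

namespace NCtr

section fin

variable {A α β : Type} [AddCommMonoid A]

theorem supp (φ : α → β) (f : α →₀ A) (x : β) (h : f.mapDomain φ x ≠ 0) :
    ∃ y, f y ≠ 0 ∧ φ y = x := by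
  classical
  by_contra hc
  push Not at hc
  apply h
  rw [Finsupp.mapDomain, Finsupp.sum_apply, Finsupp.sum]
  refine Finset.sum_eq_zero fun y hy => ?_
  rw [Finsupp.single_apply, if_neg (hc y (Finsupp.mem_support_iff.1 hy))]

theorem mem (A₀ : AddSubmonoid A) (φ : α → β) (f : α →₀ A) (x : β)
    (h : ∀ y, φ y = x → f y ∈ A₀) : f.mapDomain φ x ∈ A₀ := by
  classical
  rw [Finsupp.mapDomain, Finsupp.sum_apply, Finsupp.sum]
  refine AddSubmonoid.sum_mem _ fun y hy => ?_
  rw [Finsupp.single_apply]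
  split_ifs with h'
  · exact h y h'
  · exact A₀.zero_mem

open scoped Classical in
theorem filt (φ : α → β) {Z : Set α} {Z' : Set β} (hZ : ∀ x ∈ Z, φ x ∈ Z') (f : α →₀ A) :
    ((f.filter (fun x => x ∉ Z)).mapDomain φ).filter (fun x => x ∉ Z')
      = (f.mapDomain φ).filter (fun x => x ∉ Z') := by
  have e := Finsupp.filter_add_filter_not f (fun x => x ∉ Z)
  conv_rhs => rw [← e]
  rw [Finsupp.mapDomain_add, Finsupp.filter_add]
  have h0 : ((f.filter (fun x => ¬ x ∉ Z)).mapDomain φ).filter (fun x => x ∉ Z') = 0 := by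
    ext x
    rw [Finsupp.filter_apply]
    by_cases h : x ∉ Z'
    · rw [if_pos h]
      by_contra hc
      obtain ⟨y, hy, rfl⟩ := supp φ _ _ hc
      rw [Finsupp.filter_apply] at hy
      by_cases h' : ¬ y ∉ Z
      · exact h (hZ y (not_not.1 h'))
      · rw [if_neg h'] at hy
        exact hy rfl
    · rw [if_neg h]
      rfl
  rw [h0, add_zero]

end fin

variable {A : Type} [AddCommMonoid A] {A₀ : AddSubmonoid A} {X : SSet.{0}} {Y Z : X.Subcomplex}

open scoped Classical in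
/-- The value of the push forward along a function which preserves `Y` and `Z`. -/
noncomputable def psh {n : SimplexCategoryᵒᵖ} (φ : X.obj n → X.obj n)
    (hY : ∀ x ∈ Y.obj n, φ x ∈ Y.obj n) (f : (FM A A₀ Y ⊤ Z).obj n) :
    (FM A A₀ Y ⊤ Z).obj n :=
  ⟨(f.1.mapDomain φ).filter (fun x => x ∉ Z.obj n), by
    refine ⟨fun x hx => ?_, fun x hx => ?_⟩
    · rw [Finsupp.filter_apply] at hx
      by_cases h : x ∉ Z.obj n
      · exact ⟨trivial, h⟩
      · rw [if_neg h] at hx
        exact absurd rfl hx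
    · rw [Finsupp.filter_apply]
      by_cases h : x ∉ Z.obj n
      · rw [if_pos h]
        refine mem A₀ φ _ _ fun y hy => f.2.2 y fun hYy => hx ?_
        rw [← hy]
        exact hY y hYy
      · rw [if_neg h]
        exact A₀.zero_mem⟩

open scoped Classical in
theorem psh_nat {n m : SimplexCategoryᵒᵖ} (θ : n ⟶ m) (φ : X.obj n → X.obj n)
    (ψ : X.obj m → X.obj m) (hY : ∀ x ∈ Y.obj n, φ x ∈ Y.obj n)
    (hY' : ∀ x ∈ Y.obj m, ψ x ∈ Y.obj m) (hZ' : ∀ x ∈ Z.obj m, ψ x ∈ Z.obj m)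
    (hn : ∀ x, X.map θ (φ x) = ψ (X.map θ x)) (f : (FM A A₀ Y ⊤ Z).obj n) :
    psh ψ hY' ((FM A A₀ Y ⊤ Z).map θ f) = (FM A A₀ Y ⊤ Z).map θ (psh φ hY f) := by
  obtain ⟨f, hf⟩ := f
  apply Subtype.ext
  show (((f.mapDomain (X.map θ)).filter (fun x => x ∉ Z.obj m)).mapDomain ψ).filter
      (fun x => x ∉ Z.obj m) = (((f.mapDomain φ).filter (fun x => x ∉ Z.obj n)).mapDomain
      (X.map θ)).filter (fun x => x ∉ Z.obj m)
  have e1 := filt ψ hZ' (f.mapDomain (X.map θ))
  have e2 := filt (Z := Z.obj n) (Z' := Z.obj m) (X.map θ) (fun x hx => Z.map θ hx)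
    (f.mapDomain φ)
  rw [← Finsupp.mapDomain_comp] at e1 e2
  refine e1.trans (Eq.trans ?_ e2.symm)
  congr 2
  funext x
  exact (hn x).symm

/-- `u` preserves `Y` and `Z`. -/
def Pres (Y Z : X.Subcomplex) (u : X ⟶ X) : Prop :=
  ∀ (n : SimplexCategoryᵒᵖ) (x : X.obj n),
    (x ∈ Y.obj n → u.app n x ∈ Y.obj n) ∧ (x ∈ Z.obj n → u.app n x ∈ Z.obj n)

/-- The endomorphism of `FM` induced by `u`. -/
noncomputable def fe (A₀ : AddSubmonoid A) {u : X ⟶ X} (hu : Pres Y Z u) :
    FM A A₀ Y ⊤ Z ⟶ FM A A₀ Y ⊤ Z where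
  app n := TypeCat.ofHom (fun f => psh (u.app n) (fun x hx => (hu n x).1 hx) f)
  naturality n m θ := by
    refine ConcreteCategory.hom_ext _ _ fun f => ?_
    exact psh_nat θ (u.app n) (u.app m) (fun x hx => (hu n x).1 hx) (fun x hx => (hu m x).1 hx)
      (fun x hx => (hu m x).2 hx) (fun x => (NatTrans.naturality_apply u θ x).symm) f

/-- The homotopy of endomorphisms of `FM` induced by a homotopy. -/
noncomputable def hmt (A₀ : AddSubmonoid A) (h : X ⊗ Δ[1] ⟶ X)
    (hp : ∀ (n : SimplexCategoryᵒᵖ) (x : X.obj n) (t : (Δ[1] : SSet.{0}).obj n),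
      (x ∈ Y.obj n → h.app n (x, t) ∈ Y.obj n) ∧ (x ∈ Z.obj n → h.app n (x, t) ∈ Z.obj n)) :
    FM A A₀ Y ⊤ Z ⊗ Δ[1] ⟶ FM A A₀ Y ⊤ Z where
  app n := TypeCat.ofHom (fun (p : (FM A A₀ Y ⊤ Z).obj n × (Δ[1] : SSet.{0}).obj n) =>
    psh (fun x => h.app n (x, p.2)) (fun x hx => (hp n x p.2).1 hx) p.1)
  naturality n m θ := by
    refine ConcreteCategory.hom_ext _ _ fun p => ?_
    obtain ⟨f, t⟩ := p
    exact psh_nat θ (fun x => h.app n (x, t)) (fun x => h.app m (x, (Δ[1] : SSet.{0}).map θ t))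
      (fun x hx => (hp n x t).1 hx) (fun x hx => (hp m x _).1 hx) (fun x hx => (hp m x _).2 hx)
      (fun x => (NatTrans.naturality_apply h θ
        (show (X ⊗ Δ[1] : SSet.{0}).obj n from (x, t))).symm) f

theorem phty {u v : X ⟶ X} (h : PHty Y Z u v) : ∃ (hu : Pres Y Z u) (hv : Pres Y Z v),
    Hty (fe A₀ hu) (fe A₀ hv) := by
  obtain ⟨h, rfl, rfl, hp⟩ := h
  refine ⟨fun n x => hp n x _, fun n x => hp n x _, (Hty_iff _ _).2 ⟨hmt A₀ h hp, ?_, ?_⟩⟩
  · rfl
  · rfl

theorem eqv {u v : X ⟶ X} (h : Relation.EqvGen (PHty Y Z) u v) : (Pres Y Z u ↔ Pres Y Z v) ∧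
    ∀ (hu : Pres Y Z u) (hv : Pres Y Z v), Relation.EqvGen Hty (fe A₀ hu) (fe A₀ hv) := by
  induction h with
  | rel u v h =>
    obtain ⟨hu, hv, h⟩ := phty (A₀ := A₀) h
    exact ⟨⟨fun _ => hv, fun _ => hu⟩, fun _ _ => Relation.EqvGen.rel _ _ h⟩
  | refl u => exact ⟨Iff.rfl, fun _ _ => Relation.EqvGen.refl _⟩
  | symm u v _ ih => exact ⟨ih.1.symm, fun hu hv => (ih.2 hv hu).symm⟩
  | trans u v w _ _ ih ih' =>
    exact ⟨ih.1.trans ih'.1, fun hu hw =>
      (ih.2 hu (ih.1.1 hu)).trans _ _ _ (ih'.2 (ih.1.1 hu) hw)⟩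

theorem fe_id (h : Pres Y Z (𝟙 X)) : fe A₀ h = 𝟙 (FM A A₀ Y ⊤ Z) := by
  ext n f
  apply Subtype.ext
  classical
  show (f.1.mapDomain (id : X.obj n → X.obj n)).filter (fun x => x ∉ Z.obj n) = f.1
  rw [Finsupp.mapDomain_id, Finsupp.filter_eq_self_iff]
  exact fun x hx => (f.2.1 x hx).2

/-- The zero vertex. -/
def zer : 𝟙_ SSet.{0} ⟶ FM A A₀ Y ⊤ Z where
  app n := TypeCat.ofHom (fun _ => ⟨0, fun x hx => absurd rfl hx, fun _ _ => A₀.zero_mem⟩)
  naturality n m θ := by
    refine ConcreteCategory.hom_ext _ _ fun p => ?_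
    apply Subtype.ext
    classical
    show (0 : X.obj m →₀ A) = ((0 : X.obj n →₀ A).mapDomain (X.map θ)).filter
      (fun x => x ∉ Z.obj m)
    rw [Finsupp.mapDomain_zero, Finsupp.filter_zero]

theorem fe_zer {u : X ⟶ X} (h : Pres Y Z u) (hr : SSet.Subcomplex.range u ≤ Z) :
    fe A₀ h = toUnit (FM A A₀ Y ⊤ Z) ≫ zer := by
  ext n f
  apply Subtype.ext
  classical
  show (f.1.mapDomain (u.app n)).filter (fun x => x ∉ Z.obj n) = 0
  ext x
  rw [Finsupp.filter_apply]
  by_cases hx : x ∉ Z.obj n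
  · rw [if_pos hx]
    by_contra hc
    obtain ⟨y, -, rfl⟩ := supp _ _ _ hc
    exact hx (hr n ⟨y, rfl⟩)
  · rw [if_neg hx]
    rfl

end NCtr

open NCtr in
/-- (F5) contractible pairs. -/
theorem n_ctr (h : WC_HEQ_Stmt) : N_CTR_Stmt := by
  intro P hP A _ A₀ X Y Z u hu hr
  have h1 : Pres Y Z (𝟙 X) := fun n x => ⟨fun hx => hx, fun hx => hx⟩
  obtain ⟨e1, e2⟩ := eqv (A₀ := A₀) hu
  have h2 := e2 h1 (e1.1 h1)
  rw [fe_id, fe_zer _ hr] at h2
  refine (h P hP _ _ (toUnit (FM A A₀ Y ⊤ Z)) zer h2.symm ?_).1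
  have h3 : (zer : 𝟙_ SSet.{0} ⟶ FM A A₀ Y ⊤ Z) ≫ toUnit (FM A A₀ Y ⊤ Z) = 𝟙 _ :=
    toUnit_unique _ _
  rw [h3]
  exact Relation.EqvGen.refl _

end Pool.Agent.SH


end

section

/-!
# MP_2d0b73_an, Part III-N, (F13): the simplicial set `D[circle]` is acyclic
-/

set_option autoImplicit false

open CategoryTheory MonoidalCategory CartesianMonoidalCategory Simplicial Opposite

namespace Pool.Agent.SH

namespace NDy

/-! ### Acyclicity along maps of the class -/

theorem acy_of {P : MorphismProperty SSet.{0}} (hP : WClass P) {X Y : SSet.{0}} (f : X ⟶ Y)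
    (hf : P f) (hY : Acy P Y) : Acy P X := by
  have e : f ≫ toUnit Y = toUnit X := toUnit_unique _ _
  have h := hP.comp f (toUnit Y) hf hY
  rw [e] at h
  exact h

theorem acy_to {P : MorphismProperty SSet.{0}} (hP : WClass P) {X Y : SSet.{0}} (f : X ⟶ Y)
    (hf : P f) (hX : Acy P X) : Acy P Y := by
  have e : f ≫ toUnit Y = toUnit X := toUnit_unique _ _
  refine hP.cancelL f (toUnit Y) hf ?_
  rw [e]
  exact hX

/-! ### Subcomplexes of the nerve -/

theorem mem_NOs {S : Type} [PartialOrder S] (U : Set S) {n : SimplexCategoryᵒᵖ}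
    (x : Fin (n.unop.len + 1) →o S) : x ∈ (NOs U).obj n ↔ ∀ i, x i ∈ U := Iff.rfl

theorem mem_sup {X : SSet.{0}} (A B : X.Subcomplex) {n : SimplexCategoryᵒᵖ} (x : X.obj n) :
    x ∈ (A ⊔ B).obj n ↔ x ∈ A.obj n ∨ x ∈ B.obj n := Iff.rfl

theorem mem_inf {X : SSet.{0}} (A B : X.Subcomplex) {n : SimplexCategoryᵒᵖ} (x : X.obj n) :
    x ∈ (A ⊓ B).obj n ↔ x ∈ A.obj n ∧ x ∈ B.obj n := Iff.rfl

theorem NOs_mono {S : Type} [PartialOrder S] {U V : Set S} (h : U ⊆ V) : NOs U ≤ NOs V :=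
  fun _ _ hx i => h (hx i)

/-! ### The sets -/

/-- the base point and the two points of level one -/
def U1 : Set (Sph 2) := {x | x = ⟨0, false⟩ ∨ x = ⟨1, false⟩ ∨ x = ⟨1, true⟩}

/-- the edge from `(0, true)` to `(1, false)` -/
def U2 : Set (Sph 2) := {x | x = ⟨0, true⟩ ∨ x = ⟨1, false⟩}

/-- one end of the edge -/
def P0 : Set (Sph 2) := {x | x.sgn = true ∧ x.lev = 0}

/-- the other end of the edge -/
def P1 : Set (Sph 2) := {x | x.sgn = true ∧ x.lev = 1}

theorem Z3_eq : Z3 = NOs P0 ⊔ NOs P1 := rfl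

/-- one point of level one -/
def UF : Set (Sph 2) := {x | x = ⟨1, false⟩}

theorem US_cases : ∀ x : Sph 2, x.lev ≠ Fin.last 2 →
    x = ⟨0, false⟩ ∨ x = ⟨0, true⟩ ∨ x = ⟨1, false⟩ ∨ x = ⟨1, true⟩ := by decide

theorem U1_sub : U1 ⊆ US := by
  rintro x (rfl | rfl | rfl)
  · exact (by decide : (0 : Fin 3) ≠ Fin.last 2)
  · exact (by decide : (1 : Fin 3) ≠ Fin.last 2)
  · exact (by decide : (1 : Fin 3) ≠ Fin.last 2)

theorem U2_sub : U2 ⊆ US := by
  rintro x (rfl | rfl)
  · exact (by decide : (0 : Fin 3) ≠ Fin.last 2)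
  · exact (by decide : (1 : Fin 3) ≠ Fin.last 2)

theorem U3_sub : U3 ⊆ US := fun _ hx => hx.2

theorem UZ_sub : UZ ⊆ U1 := by
  intro x hx
  left
  exact hx

theorem UF_sub1 : UF ⊆ U1 := by
  intro x hx
  right
  left
  exact hx

theorem UF_sub2 : UF ⊆ U2 := by
  intro x hx
  right
  exact hx

theorem zero_le_U1 (x : Sph 2) (hx : x ∈ U1) : (0 : Sph 2) ≤ x := by
  rcases hx with rfl | rfl | rfl
  · exact le_refl _
  · exact Or.inl (by decide)
  · exact Or.inl (by decide)

theorem U2_le (x : Sph 2) (hx : x ∈ U2) : x ≤ (⟨1, false⟩ : Sph 2) := by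
  rcases hx with rfl | rfl
  · exact Or.inl (by decide)
  · exact le_refl _

/-- comparable elements in a chain -/
theorem comp {n : ℕ} (x : Fin n →o Sph 2) (i j : Fin n) : x i ≤ x j ∨ x j ≤ x i := by
  rcases le_total i j with h | h
  · exact Or.inl (x.monotone h)
  · exact Or.inr (x.monotone h)

theorem inc0 : ¬ ((⟨0, false⟩ : Sph 2) ≤ ⟨0, true⟩ ∨ (⟨0, true⟩ : Sph 2) ≤ ⟨0, false⟩) := by
  rw [Sph.le_iff, Sph.le_iff]
  decide

theorem inc1 : ¬ ((⟨1, false⟩ : Sph 2) ≤ ⟨1, true⟩ ∨ (⟨1, true⟩ : Sph 2) ≤ ⟨1, false⟩) := by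
  rw [Sph.le_iff, Sph.le_iff]
  decide

/-- the chains in the third edge which are not constant -/
theorem key {k : ℕ} (x : Fin k →o Sph 2) :
    ((∀ i, x i ∈ U3) ∧ ¬ ((∀ i, x i ∈ P0) ∨ ∀ i, x i ∈ P1)) ↔
      ((∀ i, x i ∈ US) ∧ ¬ ((∀ i, x i ∈ U1) ∨ ∀ i, x i ∈ U2)) := by
  constructor
  · rintro ⟨ha, hb⟩
    refine ⟨fun i => U3_sub (ha i), ?_⟩
    rintro (hc | hc)
    · apply hb
      right
      intro i
      have h1 := ha i
      have h2 := hc i
      refine ⟨h1.1, ?_⟩
      rcases h2 with h | h | h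
      · rw [h] at h1
        exact absurd h1.1 (by decide)
      · rw [h]
      · rw [h]
    · apply hb
      left
      intro i
      have h1 := ha i
      have h2 := hc i
      refine ⟨h1.1, ?_⟩
      rcases h2 with h | h
      · rw [h]
      · rw [h] at h1
        exact absurd h1.1 (by decide)
  · rintro ⟨ha, hb⟩
    rw [not_or, not_forall, not_forall] at hb
    obtain ⟨⟨i, hi⟩, ⟨j, hj⟩⟩ := hb
    have hi' : x i = ⟨0, true⟩ := by
      rcases US_cases _ (ha i) with h | h | h | h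
      · exact absurd (Or.inl h) hi
      · exact h
      · exact absurd (Or.inr (Or.inl h)) hi
      · exact absurd (Or.inr (Or.inr h)) hi
    have hj' : x j = ⟨1, true⟩ := by
      rcases US_cases _ (ha j) with h | h | h | h
      · have := comp x j i
        rw [h, hi'] at this
        exact absurd this inc0
      · exact absurd (Or.inl h) hj
      · exact absurd (Or.inr h) hj
      · exact h
    refine ⟨fun k => ?_, ?_⟩
    · rcases US_cases _ (ha k) with h | h | h | h
      · have := comp x k i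
        rw [h, hi'] at this
        exact absurd this inc0
      · rw [h]
        exact ⟨rfl, by decide⟩
      · have := comp x k j
        rw [h, hj'] at this
        exact absurd this inc1
      · rw [h]
        exact ⟨rfl, by decide⟩
    · rintro (hc | hc)
      · have := (hc j).2
        rw [hj'] at this
        exact absurd this (by decide)
      · have := (hc i).2
        rw [hi'] at this
        exact absurd this (by decide)

/-! ### The three steps -/

theorem stepA (h3 : N_PCTR_Stmt) {P : MorphismProperty SSet.{0}} (hP : WClass P) :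
    Acy P (FM Dd ⊤ ⊤ (NOs U1) (NOs UZ)) := by
  have h0 : (⟨0, false⟩ : Sph 2) ∈ U1 := Or.inl rfl
  let f : U1 →o U1 := ⟨fun _ => ⟨⟨0, false⟩, h0⟩, fun _ _ _ => le_refl _⟩
  refine h3 P hP Dd ⊤ (Sph 2) U1 UZ f ?_ (fun _ => rfl) ⊤ (Or.inr rfl)
  refine Relation.EqvGen.symm _ _ (Relation.EqvGen.rel _ _ ⟨?_, ?_⟩)
  · intro x
    exact zero_le_U1 x.1 x.2
  · intro x hx
    exact ⟨rfl, hx⟩

theorem stepB (h3 : N_PCTR_Stmt) {P : MorphismProperty SSet.{0}} (hP : WClass P) :
    Acy P (FM Dd ⊤ ⊤ (NOs U2) (NOs UF)) := by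
  have h0 : (⟨1, false⟩ : Sph 2) ∈ U2 := Or.inr rfl
  let f : U2 →o U2 := ⟨fun _ => ⟨⟨1, false⟩, h0⟩, fun _ _ _ => le_refl _⟩
  refine h3 P hP Dd ⊤ (Sph 2) U2 UF f ?_ (fun _ => rfl) ⊤ (Or.inr rfl)
  refine Relation.EqvGen.rel _ _ ⟨?_, ?_⟩
  · intro x
    exact U2_le x.1 x.2
  · intro x hx
    exact ⟨hx, rfl⟩

end NDy

open NDy in
/-- (F13) `D[circle]` is acyclic. -/
theorem n_dy (h1 : N_FMC_Stmt) (h2 : N_EXC_Stmt) (h3 : N_PCTR_Stmt) (h4 : N_BD_Stmt) :
    N_DY_Stmt := by
  intro P hP hB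
  -- the subcomplexes
  have hZ1 : NOs UZ ≤ NOs U1 := NOs_mono UZ_sub
  have hZ2 : NOs U1 ≤ NOs U1 ⊔ NOs U2 := le_sup_left
  have e1 : (NOs US ⊓ NOs U1 : (NO (Sph 2)).Subcomplex) = NOs U1 :=
    inf_eq_right.2 (NOs_mono U1_sub)
  have e2 : (NOs US ⊓ (NOs U1 ⊔ NOs U2) : (NO (Sph 2)).Subcomplex) = NOs U1 ⊔ NOs U2 :=
    inf_eq_right.2 (sup_le (NOs_mono U1_sub) (NOs_mono U2_sub))
  -- first projection
  have s1 := h1 P hP Dd ⊤ (NO (Sph 2)) ⊤ (NOs US) (NOs UZ) (NOs U1) hZ1 (by
    rw [e1]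
    exact stepA h3 hP)
  refine acy_of hP _ s1 ?_
  -- second projection
  have i2 := h2 Dd ⊤ (NO (Sph 2)) ⊤ ⊤ (NOs U2) (NOs U1 ⊔ NOs U2) (NOs UF) (NOs U1) (le_refl _)
    le_sup_right (NOs_mono UF_sub1) (by
      intro n x
      rw [mem_sup]
      constructor
      · rintro ⟨ha, hb⟩
        refine ⟨Or.inr ha, fun hc => hb fun i => ?_⟩
        rcases ha i with h | h
        · have := hc i
          rw [h] at this
          rcases this with h' | h' | h' <;> exact absurd h' (by decide)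
        · exact h
      · rintro ⟨ha, hb⟩
        rcases ha with ha | ha
        · exact absurd ha hb
        · exact ⟨ha, fun hc => hb (NOs_mono UF_sub1 n hc)⟩) (by
      intro n x _ _
      exact Iff.rfl)
  have s2 := h1 P hP Dd ⊤ (NO (Sph 2)) ⊤ (NOs US) (NOs U1) (NOs U1 ⊔ NOs U2) hZ2 (by
    rw [e2]
    exact acy_to hP _ (hP.iso _ i2) (stepB h3 hP))
  refine acy_of hP _ s2 ?_
  -- excision
  have hZ3 : Z3 ≤ NOs U1 ⊔ NOs U2 := by
    refine sup_le ?_ ?_
    · refine le_trans (NOs_mono ?_) le_sup_right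
      rintro ⟨l, s⟩ ⟨ha, hb⟩
      left
      simp only at ha hb
      rw [ha, hb]
    · refine le_trans (NOs_mono ?_) le_sup_left
      rintro ⟨l, s⟩ ⟨ha, hb⟩
      right
      right
      simp only at ha hb
      rw [ha, hb]
  have i3 := h2 Dd ⊤ (NO (Sph 2)) ⊤ ⊤ (NOs U3) (NOs US) Z3 (NOs U1 ⊔ NOs U2) (le_refl _)
    (NOs_mono U3_sub) hZ3 (by
      intro n x
      rw [mem_sup, Z3_eq, mem_sup]
      exact key (k := n.unop.len + 1) x) (by
      intro n x _ _
      exact Iff.rfl)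
  exact acy_to hP _ (hP.iso _ i3) (h4 P hP hB)

end Pool.Agent.SH


end

section

/-!
# MP_2d0b73_an, Part III-N: the simplicial set of all sequences is acyclic
-/

set_option autoImplicit false

open CategoryTheory MonoidalCategory CartesianMonoidalCategory Simplicial Opposite

namespace Pool.Agent.SH

namespace NEE

/-- the constant map -/
def cst (X : Type) (x0 : X) : 𝟙_ SSet.{0} ⟶ EE X where
  app n := TypeCat.ofHom (fun _ _ => x0)

open scoped Classical in
/-- the homotopy -/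
noncomputable def hmt (X : Type) (x0 : X) : EE X ⊗ Δ[1] ⟶ EE X where
  app n := TypeCat.ofHom (fun (p : (EE X ⊗ Δ[1]).obj n) k =>
    if (SSet.stdSimplex.objEquiv p.2).toOrderHom k = 0 then
      (show Fin (n.unop.len + 1) → X from p.1) k else x0)

end NEE

theorem n_ee (h : WC_HEQ_Stmt) : N_EE_Stmt := by
  intro P hP X hX
  obtain ⟨x0⟩ := hX
  refine (h P hP (EE X) (𝟙_ SSet.{0}) (toUnit (EE X)) (NEE.cst X x0) ?_ ?_).1
  · refine Relation.EqvGen.symm _ _ (Relation.EqvGen.rel _ _ ?_)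
    refine (Hty_iff _ _).2 ⟨NEE.hmt X x0, ?_, ?_⟩
    · ext n x
      funext k
      show (if (0 : Fin 2) = 0 then (show Fin (n.unop.len + 1) → X from x) k else x0) =
        (show Fin (n.unop.len + 1) → X from x) k
      exact if_pos rfl
    · ext n x
      funext k
      show (if (1 : Fin 2) = 0 then (show Fin (n.unop.len + 1) → X from x) k else x0) = x0
      exact if_neg (by decide)
  · rw [toUnit_unique (NEE.cst X x0 ≫ toUnit (EE X)) (𝟙 _)]
    exact Relation.EqvGen.refl _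

end Pool.Agent.SH


end

section

/-!
# MP_2d0b73_an, Part III-N: excision and change of coefficients
-/

set_option autoImplicit false

open CategoryTheory MonoidalCategory CartesianMonoidalCategory Simplicial Opposite

namespace Pool.Agent.SH

namespace NExc

theorem isIso_of_bij {X Y : SSet.{0}} (f : X ⟶ Y) (h : ∀ n, Function.Bijective (f.app n)) :
    IsIso f := by
  rw [NatTrans.isIso_iff_isIso_app]
  intro n
  rw [isIso_iff_bijective]
  exact h n

theorem map_id_val {A : Type} [AddCommMonoid A] (A₀ : AddSubmonoid A) {X : SSet.{0}}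
    {Y Y' W W' Z Z' : X.Subcomplex} (hY : Y ≤ Y') (hW : W ≤ W') (hZ : Z ≤ Z')
    (h1 : ∀ (n : SimplexCategoryᵒᵖ) (x : X.obj n), (x ∈ W.obj n ∧ x ∉ Z.obj n) ↔
      (x ∈ W'.obj n ∧ x ∉ Z'.obj n)) (n : SimplexCategoryᵒᵖ) (f : (FM A A₀ Y W Z).obj n) :
    FM.fn ((FMmap A₀ (𝟙 X) hY hW hZ : FM A A₀ Y W Z ⟶ FM A A₀ Y' W' Z').app n f) =
      FM.fn f := by
  classical
  change (f.1.mapDomain ((𝟙 X : X ⟶ X).app n)).filter (fun x => x ∉ Z'.obj n) = f.1
  have e : ((𝟙 X : X ⟶ X).app n : X.obj n → X.obj n) = id := rfl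
  rw [e, Finsupp.mapDomain_id, Finsupp.filter_eq_self_iff]
  exact fun x hx => ((h1 n x).1 (f.2.1 x hx)).2

/-- The inclusion of the natural numbers. -/
def inc : ℕ →+ Qd where
  toFun n := ⟨n, Nat.cast_nonneg n, 0, n, by simp⟩
  map_zero' := by
    apply Subtype.ext
    exact Nat.cast_zero
  map_add' a b := by
    apply Subtype.ext
    exact Nat.cast_add a b

theorem inc_inj : Function.Injective inc := by
  intro a b h
  have h1 : (a : ℚ) = b := congrArg Subtype.val h
  exact_mod_cast h1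

theorem inc_mem (n : ℕ) : inc n ∈ Nd := ⟨n, rfl⟩

/-- The change of coefficients. -/
noncomputable def co {X : SSet.{0}} (W Z : X.Subcomplex) : FM ℕ ⊤ ⊤ W Z ⟶ FM Qd Nd ⊥ W Z where
  app n := TypeCat.ofHom (fun f =>
    ⟨f.1.mapRange inc inc.map_zero, by
      refine ⟨fun x hx => ?_, fun x _ => ?_⟩
      · rw [Finsupp.mapRange_apply] at hx
        exact f.2.1 x (fun h => hx (by rw [h, map_zero]))
      · rw [Finsupp.mapRange_apply]
        exact inc_mem _⟩)
  naturality n m θ := by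
    classical
    refine ConcreteCategory.hom_ext _ _ fun f => Subtype.ext ?_
    obtain ⟨f, hf⟩ := f
    show (((f.mapDomain (X.map θ)).filter (fun x => x ∉ Z.obj m)).mapRange inc inc.map_zero)
      = ((f.mapRange inc inc.map_zero).mapDomain (X.map θ)).filter (fun x => x ∉ Z.obj m)
    rw [Finsupp.mapDomain_mapRange _ _ _ inc.map_zero inc.map_add]
    ext x
    rw [Finsupp.mapRange_apply, Finsupp.filter_apply, Finsupp.filter_apply]
    by_cases h : x ∉ Z.obj m
    · rw [if_pos h, if_pos h, Finsupp.mapRange_apply]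
    · rw [if_neg h, if_neg h, map_zero]

/-- The inverse on the coefficients. -/
noncomputable def fl (q : Qd) : ℕ := ⌊(q : ℚ)⌋₊

theorem fl_zero : fl 0 = 0 := by simp [fl]

theorem inc_fl (q : Qd) (hq : q ∈ Nd) : inc (fl q) = q := by
  obtain ⟨m, hm⟩ := hq
  apply Subtype.ext
  change ((fl q : ℕ) : ℚ) = q
  rw [fl, hm, Nat.floor_natCast]

end NExc

theorem n_exc : N_EXC_Stmt := by
  intro A _ A₀ X Y Y' W W' Z Z' hY hW hZ h1 h2
  refine NExc.isIso_of_bij _ fun n => ⟨?_, ?_⟩
  · intro f g hfg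
    apply Subtype.ext
    change FM.fn f = FM.fn g
    rw [← NExc.map_id_val A₀ hY hW hZ h1 n f, ← NExc.map_id_val A₀ hY hW hZ h1 n g, hfg]
  · intro g
    refine ⟨⟨g.1, fun x hx => (h1 n x).2 (g.2.1 x hx), fun x hx => ?_⟩, ?_⟩
    · by_cases h0 : g.1 x = 0
      · rw [h0]
        exact A₀.zero_mem
      · have h3 := (h1 n x).2 (g.2.1 x h0)
        exact g.2.2 x (fun h => hx ((h2 n x h3.1 h3.2).2 h))
    · apply Subtype.ext
      exact NExc.map_id_val A₀ hY hW hZ h1 n _

theorem n_coef : N_COEF_Stmt := by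
  intro X W Z
  have h : IsIso (NExc.co W Z) := by
    refine NExc.isIso_of_bij _ fun n => ⟨?_, ?_⟩
    · intro f g hfg
      apply Subtype.ext
      exact Finsupp.mapRange_injective _ NExc.inc.map_zero NExc.inc_inj
        (congrArg Subtype.val hfg)
    · intro g
      refine ⟨⟨g.1.mapRange NExc.fl NExc.fl_zero, ?_, fun _ _ => AddSubmonoid.mem_top _⟩, ?_⟩
      · intro x hx
        rw [Finsupp.mapRange_apply] at hx
        exact g.2.1 x (fun h => hx (by rw [h, NExc.fl_zero]))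
      · apply Subtype.ext
        change (g.1.mapRange NExc.fl NExc.fl_zero).mapRange NExc.inc NExc.inc.map_zero = g.1
        ext x
        rw [Finsupp.mapRange_apply, Finsupp.mapRange_apply, NExc.inc_fl]
        exact g.2.2 x (fun h => h)
  exact ⟨asIso (NExc.co W Z)⟩

end Pool.Agent.SH


end

section

/-!
# MP_2d0b73_an, Part III-N, module N_FMD: reduction of the coefficients modulo one
-/

set_option autoImplicit false

open CategoryTheory MonoidalCategory CartesianMonoidalCategory Simplicial Opposite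

namespace Pool.Agent.SH

namespace NFmd

/-! ### Coefficients -/

theorem md_eq (p q : Qd) (h : md p = md q) : ∃ m : ℤ, (p : ℚ) = q + m := by
  have h1 : (QuotientAddGroup.mk (p : ℚ) : ℚ ⧸ AddSubgroup.zmultiples (1 : ℚ)) =
      QuotientAddGroup.mk (q : ℚ) := congrArg Subtype.val h
  rw [QuotientAddGroup.eq_iff_sub_mem, AddSubgroup.mem_zmultiples_iff] at h1
  obtain ⟨m, hm⟩ := h1
  refine ⟨m, ?_⟩
  have : (m : ℚ) = p - q := by
    rw [← hm]
    simp
  rw [this]
  ring

theorem ex_sec (d : Dd) : ∃ q : Qd, md q = d ∧ (q : ℚ) < 1 := by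
  obtain ⟨d, k, hk⟩ := d
  obtain ⟨r, rfl⟩ := QuotientAddGroup.mk_surjective d
  rw [← QuotientAddGroup.mk_nsmul, QuotientAddGroup.eq_zero_iff,
    AddSubgroup.mem_zmultiples_iff] at hk
  obtain ⟨m, hm⟩ := hk
  have hm' : r * 2 ^ k = m := by
    have : (m : ℚ) = 2 ^ k * r := by
      have h2 := hm
      simp only [zsmul_eq_mul, mul_one, nsmul_eq_mul, Nat.cast_pow, Nat.cast_ofNat] at h2
      exact h2
    rw [this, mul_comm]
  have h3 : Int.fract r * 2 ^ k = ((m - ⌊r⌋ * 2 ^ k : ℤ) : ℚ) := by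
    rw [Int.fract, sub_mul, hm']
    push_cast
    ring
  have h4 : (0 : ℤ) ≤ m - ⌊r⌋ * 2 ^ k := by
    have : (0 : ℚ) ≤ ((m - ⌊r⌋ * 2 ^ k : ℤ) : ℚ) := by
      rw [← h3]
      exact mul_nonneg (Int.fract_nonneg r) (by positivity)
    exact_mod_cast this
  refine ⟨⟨Int.fract r, Int.fract_nonneg r, k, (m - ⌊r⌋ * 2 ^ k).toNat, ?_⟩, ?_,
    Int.fract_lt_one r⟩
  · rw [h3]
    have : (((m - ⌊r⌋ * 2 ^ k).toNat : ℤ) : ℚ) = ((m - ⌊r⌋ * 2 ^ k : ℤ) : ℚ) := by
      rw [Int.toNat_of_nonneg h4]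
    rw [← this]
    exact Int.cast_natCast _
  · apply Subtype.ext
    show (QuotientAddGroup.mk (Int.fract r) : ℚ ⧸ AddSubgroup.zmultiples (1 : ℚ)) =
      QuotientAddGroup.mk r
    rw [QuotientAddGroup.eq_iff_sub_mem, AddSubgroup.mem_zmultiples_iff]
    refine ⟨-⌊r⌋, ?_⟩
    rw [Int.fract]
    simp

/-- the representative in `[0, 1)` -/
noncomputable def sec (d : Dd) : Qd := (ex_sec d).choose

theorem md_sec (d : Dd) : md (sec d) = d := (ex_sec d).choose_spec.1

theorem sec_lt (d : Dd) : (sec d : ℚ) < 1 := (ex_sec d).choose_spec.2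

theorem ex_fl (q : Qd) : ∃ z : Qd, z ∈ Nd ∧ q = z + sec (md q) := by
  obtain ⟨m, hm⟩ := md_eq q (sec (md q)) (md_sec (md q)).symm
  have h0 : (-1 : ℚ) < m := by
    have h1 := sec_lt (md q)
    have h2 : (0 : ℚ) ≤ q := q.2.1
    rw [hm] at h2
    linarith
  have h0' : (0 : ℤ) ≤ m := by
    have : (-1 : ℤ) < m := by exact_mod_cast h0
    omega
  have hc : ((m.toNat : ℕ) : ℚ) = m := by
    have : (((m.toNat : ℕ) : ℤ) : ℚ) = ((m : ℤ) : ℚ) := by rw [Int.toNat_of_nonneg h0']
    rw [← this]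
    exact (Int.cast_natCast _).symm
  refine ⟨⟨(m.toNat : ℚ), Nat.cast_nonneg _, 0, m.toNat, by simp⟩, ⟨m.toNat, rfl⟩, ?_⟩
  apply Subtype.ext
  show (q : ℚ) = (m.toNat : ℚ) + (sec (md q) : ℚ)
  rw [hc, hm, add_comm]

/-- the integral part -/
noncomputable def fl (q : Qd) : Qd := (ex_fl q).choose

theorem fl_mem (q : Qd) : fl q ∈ Nd := (ex_fl q).choose_spec.1

theorem fl_add (q : Qd) : fl q + sec (md q) = q := (ex_fl q).choose_spec.2.symm

theorem Qd_cancel {a b c : Qd} (h : a + c = b + c) : a = b := by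
  apply Subtype.ext
  have h1 : (a : ℚ) + c = b + c := congrArg Subtype.val h
  linarith

theorem sum_zero {a b : Qd} (h : a + b = 0) : a = 0 ∧ b = 0 := by
  have h1 : (a : ℚ) + b = 0 := congrArg Subtype.val h
  have h2 : (0 : ℚ) ≤ a := a.2.1
  have h3 : (0 : ℚ) ≤ b := b.2.1
  constructor
  · apply Subtype.ext
    show (a : ℚ) = 0
    linarith
  · apply Subtype.ext
    show (b : ℚ) = 0
    linarith

theorem fl_zero : fl 0 = 0 := (sum_zero (fl_add 0)).1

theorem sec_zero : sec 0 = 0 := by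
  have := (sum_zero (fl_add 0)).2
  rwa [map_zero] at this

/-! ### Simplicial sets -/

variable {A : Type} [AddCommMonoid A] {A₀ : AddSubmonoid A} {X : SSet.{0}}

theorem fn_inj {Y W Z : X.Subcomplex} {n : SimplexCategoryᵒᵖ} {f g : (FM A A₀ Y W Z).obj n}
    (h : FM.fn f = FM.fn g) : f = g := Subtype.ext h

/-- addition -/
noncomputable def addm (A₀ : AddSubmonoid A) (Y W Z : X.Subcomplex) :
    FM A A₀ Y W Z ⊗ FM A A₀ Y W Z ⟶ FM A A₀ Y W Z where
  app n := TypeCat.ofHom (fun p => ⟨FM.fn p.1 + FM.fn p.2, by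
    obtain ⟨⟨f, hf, hf'⟩, ⟨g, hg, hg'⟩⟩ := p
    refine ⟨fun x hx => ?_, fun x hx => ?_⟩
    · by_cases h : f x = 0
      · refine hg x fun h' => hx ?_
        show f x + g x = 0
        rw [h, h', add_zero]
      · exact hf x h
    · exact A₀.add_mem (hf' x hx) (hg' x hx)⟩)
  naturality n m θ := by
    classical
    refine ConcreteCategory.hom_ext _ _ fun p => Subtype.ext ?_
    show ((FM.fn p.1).mapDomain (X.map θ)).filter (fun x => x ∉ Z.obj m) +
        ((FM.fn p.2).mapDomain (X.map θ)).filter (fun x => x ∉ Z.obj m) =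
      ((FM.fn p.1 + FM.fn p.2).mapDomain (X.map θ)).filter (fun x => x ∉ Z.obj m)
    rw [Finsupp.mapDomain_add, Finsupp.filter_add]

theorem epi_inj {m n : SimplexCategory} (a : m ⟶ n) (ha : Epi a) :
    ∃ s : n ⟶ m, s ≫ a = 𝟙 n := by
  have : IsSplitEpi a := by
    have := ha
    exact isSplitEpi_of_epi a
  exact ⟨section_ a, IsSplitEpi.id a⟩

theorem map_inj {m n : SimplexCategory} (a : m ⟶ n) (s : n ⟶ m) (hs : s ≫ a = 𝟙 n) :
    ∀ x : X.obj (op n), X.map s.op (X.map a.op x) = x := by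
  intro x
  have : X.map a.op ≫ X.map s.op = 𝟙 _ := by
    rw [← X.map_comp, ← op_comp, hs, op_id, X.map_id]
  exact ConcreteCategory.congr_hom this x

end NFmd

open NFmd

theorem n_fmd (h : WC_OPEN_Stmt) : N_FMD_Stmt := by
  intro P hP X Y W Z hF
  refine h P hP _ _ _ ?_
  intro n b _
  classical
  have hcx : ∀ x, (FM.fn b).mapRange sec sec_zero x ≠ 0 → x ∈ W.obj _ ∧ x ∉ Z.obj _ := by
    intro x hx
    rw [Finsupp.mapRange_apply] at hx
    have hb : FM.fn b x ≠ 0 := fun h0 => hx (by rw [h0, sec_zero])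
    exact ⟨(b.2.1 x hb).1.1, (b.2.1 x hb).2⟩
  have hcy : ∀ x, x ∉ Y.obj _ → (FM.fn b).mapRange sec sec_zero x ∈ Nd := by
    intro x hx
    rw [Finsupp.mapRange_apply]
    have hb : FM.fn b x = 0 := by
      by_contra h0
      exact hx (b.2.1 x h0).1.2
    rw [hb, sec_zero]
    exact Nd.zero_mem
  let c : (FM Qd Nd Y W Z).obj (op ⦋n⦌) := ⟨(FM.fn b).mapRange sec sec_zero, hcx, hcy⟩
  have hc : FM.fn c = (FM.fn b).mapRange sec sec_zero := rfl
  let i : FM Qd Nd ⊥ W Z ⟶ FM Qd Nd Y W Z :=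
    FMmap Nd (𝟙 X) (bot_le : (⊥ : X.Subcomplex) ≤ Y) (le_refl W) (le_refl Z)
  have hi : ∀ (m : SimplexCategoryᵒᵖ) (z : (FM Qd Nd ⊥ W Z).obj m),
      FM.fn (i.app m z) = FM.fn z := by
    intro m z
    show ((FM.fn z).mapDomain (id : X.obj m → X.obj m)).filter (fun x => x ∉ Z.obj m) = FM.fn z
    rw [Finsupp.mapDomain_id, Finsupp.filter_eq_self_iff]
    exact fun x hx => (z.2.1 x hx).2
  have hp : ∀ (m : SimplexCategoryᵒᵖ) (e : (FM Qd Nd Y W Z).obj m),
      FM.fn ((FMco Nd md md_Nd Y W Z).app m e) = (FM.fn e).mapRange md md.map_zero :=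
    fun _ _ => rfl
  have hpc : (FMco Nd md md_Nd Y W Z).app _ c = b := by
    apply fn_inj
    refine (hp _ _).trans ?_
    rw [hc]
    ext1 x
    rw [Finsupp.mapRange_apply, Finsupp.mapRange_apply, md_sec]
  refine ⟨FM Qd Nd ⊥ W Z, (i ⊗ₘ SSet.yonedaEquiv.symm c) ≫ addm Nd Y W Z, hF, ?_, ?_⟩
  · ext m p
    apply fn_inj
    obtain ⟨z, β⟩ := p
    show (FM.fn (i.app m z) + FM.fn ((SSet.yonedaEquiv.symm c).app m β)).mapRange md md.map_zero =
      FM.fn ((SSet.yonedaEquiv.symm b).app m β)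
    rw [Finsupp.mapRange_add md.map_add, hi]
    have e1 : (FM.fn z).mapRange md md.map_zero = 0 := by
      ext1 x
      rw [Finsupp.mapRange_apply]
      exact md_Nd _ (z.2.2 x (fun h => h))
    rw [e1, zero_add, ← hpc, ← SSet.yonedaEquiv_symm_comp]
    rfl
  · intro m a ha e he
    obtain ⟨s, hs⟩ := epi_inj a ha
    have hinj : Function.Injective (X.map a.op) :=
      Function.LeftInverse.injective (map_inj (X := X) a s hs)
    -- the values
    have hac : ∀ x, FM.fn ((FM Qd Nd Y W Z).map a.op c) x = sec (md (FM.fn e x)) := by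
      intro x
      have h1 : md (FM.fn e x) =
          ((FM.fn b).mapDomain (X.map a.op)).filter (fun x => x ∉ Z.obj (op ⦋m⦌)) x := by
        have h2 := congrArg (fun f => FM.fn f x) he
        exact h2
      rw [h1]
      show (((FM.fn b).mapRange sec sec_zero).mapDomain (X.map a.op)).filter
        (fun x => x ∉ Z.obj (op ⦋m⦌)) x = _
      rw [Finsupp.filter_apply, Finsupp.filter_apply]
      by_cases hx : x ∉ Z.obj (op ⦋m⦌)
      · rw [if_pos hx, if_pos hx]
        by_cases hr : x ∈ Set.range (X.map a.op)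
        · obtain ⟨y, rfl⟩ := hr
          rw [Finsupp.mapDomain_apply hinj, Finsupp.mapDomain_apply hinj, Finsupp.mapRange_apply]
        · rw [Finsupp.mapDomain_of_notMem_range _ _ hr, Finsupp.mapDomain_of_notMem_range _ _ hr, sec_zero]
      · rw [if_neg hx, if_neg hx, sec_zero]
    have hval : ∀ z : (FM Qd Nd ⊥ W Z).obj (op ⦋m⦌), ∀ x,
        FM.fn (((i ⊗ₘ SSet.yonedaEquiv.symm c) ≫ addm Nd Y W Z).app (op ⦋m⦌)
          ((z, SSet.stdSimplex.objEquiv.symm a) :
            (FM Qd Nd ⊥ W Z ⊗ Δ[n]).obj (op ⦋m⦌))) x =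
        FM.fn z x + sec (md (FM.fn e x)) := by
      intro z x
      rw [← hac]
      show FM.fn (i.app _ z) x + FM.fn ((SSet.yonedaEquiv.symm c).app (op ⦋m⦌)
        (SSet.stdSimplex.objEquiv.symm a)) x = _
      rw [hi]
      rfl
    refine ⟨⟨(FM.fn e).mapRange fl fl_zero, ?_, ?_⟩, ?_, ?_⟩
    · intro x hx
      rw [Finsupp.mapRange_apply] at hx
      exact e.2.1 x (fun h0 => hx (by
        show fl (FM.fn e x) = 0
        rw [show FM.fn e x = 0 from h0, fl_zero]))
    · intro x _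
      rw [Finsupp.mapRange_apply]
      exact fl_mem _
    · apply fn_inj
      ext1 x
      refine (hval _ x).trans ?_
      show (FM.fn e).mapRange fl fl_zero x + _ = _
      rw [Finsupp.mapRange_apply]
      exact fl_add _
    · intro z hz
      apply fn_inj
      ext1 x
      have h2 := hval z x
      rw [hz] at h2
      show FM.fn z x = (FM.fn e).mapRange fl fl_zero x
      rw [Finsupp.mapRange_apply]
      apply Qd_cancel (c := sec (md (FM.fn e x)))
      rw [← h2, fl_add]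

end Pool.Agent.SH


end

section

/-!
# MP_2d0b73_an, Part III-N: quotients by free involutions
-/

set_option autoImplicit false

open CategoryTheory MonoidalCategory CartesianMonoidalCategory Simplicial Opposite

namespace Pool.Agent.SH.NInv

/-- The group of order two. -/
abbrev G2 : Type := Multiplicative (ZMod 2)

theorem G2_cases (g : G2) : g = 1 ∨ g = Multiplicative.ofAdd (1 : ZMod 2) := by
  revert g
  decide

theorem ofAdd_ne : (Multiplicative.ofAdd (1 : ZMod 2) : G2) ≠ 1 := by decide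

theorem ofAdd_mul : (Multiplicative.ofAdd (1 : ZMod 2) : G2) *
    Multiplicative.ofAdd (1 : ZMod 2) = 1 := by decide

/-- The action given by an involution. -/
def invAct (W : SSet.{0}) (τ : W ⟶ W) (hτ : τ ≫ τ = 𝟙 W) : Act G2 W where
  act g := if g = 1 then 𝟙 W else τ
  one := if_pos rfl
  mul g h := by
    rcases G2_cases g with rfl | rfl <;> rcases G2_cases h with rfl | rfl
    · rw [mul_one, if_pos rfl, Category.comp_id]
    · rw [one_mul, if_neg ofAdd_ne, if_pos rfl, Category.comp_id]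
    · rw [mul_one, if_neg ofAdd_ne, if_pos rfl, Category.id_comp]
    · rw [ofAdd_mul, if_pos rfl, if_neg ofAdd_ne, hτ]

theorem invAct_ap_one (W : SSet.{0}) (τ : W ⟶ W) (hτ : τ ≫ τ = 𝟙 W)
    {n : SimplexCategoryᵒᵖ} (x : W.obj n) : (invAct W τ hτ).ap 1 x = x :=
  (invAct W τ hτ).ap_one x

theorem invAct_ap (W : SSet.{0}) (τ : W ⟶ W) (hτ : τ ≫ τ = 𝟙 W)
    {n : SimplexCategoryᵒᵖ} (x : W.obj n) :
    (invAct W τ hτ).ap (Multiplicative.ofAdd (1 : ZMod 2)) x = τ.app n x := by
  have h : (invAct W τ hτ).act (Multiplicative.ofAdd (1 : ZMod 2)) = τ := by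
    change (if (Multiplicative.ofAdd (1 : ZMod 2) : G2) = 1 then 𝟙 W else τ) = τ
    rw [if_neg ofAdd_ne]
  rw [Act.ap, h]

theorem invAct_orbit (W : SSet.{0}) (τ : W ⟶ W) (hτ : τ ≫ τ = 𝟙 W)
    {n : SimplexCategoryᵒᵖ} (x y : W.obj n) :
    (∃ g, (invAct W τ hτ).ap g x = y) ↔ y = x ∨ y = τ.app n x := by
  constructor
  · rintro ⟨g, hg⟩
    rcases G2_cases g with rfl | rfl
    · rw [invAct_ap_one] at hg
      exact Or.inl hg.symm
    · rw [invAct_ap] at hg
      exact Or.inr hg.symm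
  · rintro (h | h)
    · exact ⟨1, by rw [invAct_ap_one, h]⟩
    · exact ⟨_, by rw [invAct_ap, h]⟩

theorem invAct_free (W : SSet.{0}) (τ : W ⟶ W) (hτ : τ ≫ τ = 𝟙 W)
    (h : ∀ (n : SimplexCategoryᵒᵖ) (x : W.obj n), τ.app n x ≠ x) : (invAct W τ hτ).Free := by
  intro n x g hg
  rcases G2_cases g with rfl | rfl
  · rfl
  · rw [invAct_ap] at hg
    exact absurd hg (h n x)

/-- The negation. -/
def neg : EE Bool ⟶ EE Bool where
  app n := TypeCat.ofHom (fun (x : Fin (n.unop.len + 1) → Bool) i => !(x i))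

theorem neg_neg : neg ≫ neg = 𝟙 (EE Bool) := by
  ext n x
  funext i
  change (!(!(x i))) = x i
  simp

theorem neg_ne (n : SimplexCategoryᵒᵖ) (x : (EE Bool).obj n) : neg.app n x ≠ x := by
  intro h
  have h0 := congrFun h (0 : Fin (n.unop.len + 1))
  change (!(x 0)) = x 0 at h0
  simp at h0

end Pool.Agent.SH.NInv

namespace Pool.Agent.SH

theorem n_inv (h1 : N_QEX_Stmt) (h2 : N_QDESC_Stmt) (h3 : N_EE_Stmt) (h4 : N_QPROJ_Stmt) :
    N_INV_Stmt := by
  intro P hP hB V V' τ q hτ hfree hsurj hfib hV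
  let a1 := NInv.invAct V τ hτ
  let a2 := NInv.invAct (EE Bool) NInv.neg NInv.neg_neg
  have f1 : a1.Free := NInv.invAct_free V τ hτ hfree
  have f2 : a2.Free := NInv.invAct_free (EE Bool) NInv.neg NInv.neg_neg NInv.neg_ne
  have q1 : IsQuo a1 q := ⟨hsurj, fun n x y => by
    rw [hfib, NInv.invAct_orbit]⟩
  obtain ⟨Q, qQ, hQ⟩ := h1 NInv.G2 (V ⊗ EE Bool) (a1.prod a2)
  obtain ⟨B, qB, hqB⟩ := h1 NInv.G2 (EE Bool) a2
  have hAB : Acy P B := by
    apply hB B qB hqB.surj
    intro n x y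
    rw [hqB.fib n x y]
    exact NInv.invAct_orbit (EE Bool) NInv.neg NInv.neg_neg x y
  have inv1 : ∀ g, a1.act g ≫ q = q := by
    intro g
    ext n x
    change q.app n (a1.ap g x) = q.app n x
    exact ((q1.fib n x (a1.ap g x)).2 ⟨g, rfl⟩).symm
  have inv2 : ∀ g, a2.act g ≫ qB = qB := by
    intro g
    ext n x
    change qB.app n (a2.ap g x) = qB.app n x
    exact ((hqB.fib n x (a2.ap g x)).2 ⟨g, rfl⟩).symm
  obtain ⟨π1, hπ1⟩ := (h2 NInv.G2 (V ⊗ EE Bool) Q V' (a1.prod a2) qQ hQ).1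
    (fst V (EE Bool) ≫ q) (by
      intro g
      change (a1.act g ⊗ₘ a2.act g) ≫ fst V (EE Bool) ≫ q = _
      rw [← Category.assoc, CartesianMonoidalCategory.tensorHom_fst, Category.assoc, inv1])
  obtain ⟨π2, hπ2⟩ := (h2 NInv.G2 (V ⊗ EE Bool) Q B (a1.prod a2) qQ hQ).1
    (snd V (EE Bool) ≫ qB) (by
      intro g
      change (a1.act g ⊗ₘ a2.act g) ≫ snd V (EE Bool) ≫ qB = _
      rw [← Category.assoc, CartesianMonoidalCategory.tensorHom_snd, Category.assoc, inv2])
  have hp := h4 P hP NInv.G2 V (EE Bool) a1 a2 Q qQ hQ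
  have hP1 : P π1 := hp.1 V' q π1 f1 q1 hπ1 (h3 P hP Bool ⟨true⟩)
  have hP2 : P π2 := hp.2 B qB π2 f2 hqB hπ2 hV
  have hAQ : P (toUnit Q) := by
    have h := hP.comp _ _ hP2 hAB
    rwa [comp_toUnit] at h
  have h := hP.cancelL π1 (toUnit V') hP1 (by rw [comp_toUnit]; exact hAQ)
  exact h

end Pool.Agent.SH


end

section

/-!
# MP_2d0b73_an, part III-N, NN: the free commutative monoid on the sphere of dimension two
-/

set_option autoImplicit false

open CategoryTheory MonoidalCategory CartesianMonoidalCategory Simplicial Opposite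

namespace Pool.Agent.SH

namespace NNn

variable {P : MorphismProperty SSet.{0}}

theorem acy_of_map (hP : WClass P) {X Y : SSet.{0}} (f : X ⟶ Y) (hf : P f) (hY : Acy P Y) :
    Acy P X := by
  have e : toUnit X = f ≫ toUnit Y := toUnit_unique _ _
  unfold Acy
  rw [e]
  exact hP.comp f _ hf hY

theorem acy_of_map' (hP : WClass P) {X Y : SSet.{0}} (f : X ⟶ Y) (hf : P f) (hX : Acy P X) :
    Acy P Y := by
  have e : toUnit X = f ≫ toUnit Y := toUnit_unique _ _
  unfold Acy at hX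
  rw [e] at hX
  exact hP.cancelL f _ hf hX

theorem NOs_mono {S : Type} [PartialOrder S] {U V : Set S} (h : U ⊆ V) : NOs U ≤ NOs V :=
  fun _ _ hx i => h (hx i)

theorem UZ_sub (e : Bool) : UZ ⊆ UC e := by
  intro x hx h
  rw [show x = 0 from hx, Sph.zero_def] at h
  exact absurd h (by decide)

theorem US_sub (e : Bool) : US ⊆ UC e := fun _ hx h => absurd h hx

theorem UZ_sub_US : UZ ⊆ US := by
  intro x hx
  rw [show x = 0 from hx, Sph.zero_def]
  show (0 : Fin 3) ≠ Fin.last 2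
  decide

theorem key (n : SimplexCategoryᵒᵖ) (x : Fin (n.unop.len + 1) →o Sph 2) :
    ((∀ i, x i ∈ UC true) ∧ ¬ ∀ i, x i ∈ US) ↔ ¬ ∀ i, x i ∈ UC false := by
  constructor
  · rintro ⟨h1, h2⟩ h3
    apply h2
    intro i hi
    have h4 := h1 i hi
    have h5 := h3 i hi
    rw [h4] at h5
    exact absurd h5 (by decide)
  · intro h
    rw [not_forall] at h
    obtain ⟨i, hi⟩ := h
    have hi' : ¬ ((x i).lev = Fin.last 2 → (x i).sgn = false) := hi
    rw [Classical.not_imp] at hi'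
    obtain ⟨h1, h2⟩ := hi'
    have h3 : (x i).sgn = true := by
      cases h4 : (x i).sgn with
      | false => exact absurd h4 h2
      | true => rfl
    refine ⟨?_, fun h4 => h4 i h1⟩
    intro j hj
    have h5 : x j = x i := by
      rcases le_total i j with h | h
      · rcases x.monotone h with h6 | h6
        · rw [h1, hj] at h6
          exact absurd h6 (lt_irrefl _)
        · exact h6.symm
      · rcases x.monotone h with h6 | h6
        · rw [h1, hj] at h6
          exact absurd h6 (lt_irrefl _)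
        · exact h6
    rw [h5]
    exact h3

end NNn

open NNn in
theorem n_nn (h1 : N_COEF_Stmt) (h2 : N_FMC_Stmt) (h3 : N_FMD_Stmt) (h4 : N_EXC_Stmt)
    (h5 : N_CONE_Stmt) (h6 : N_QY_Stmt) (h7 : N_DY_Stmt) : N_NN_Stmt := by
  intro P hP hAc hB
  obtain ⟨e0⟩ := h1 (NO (Sph 2)) ⊤ (NOs UZ)
  refine acy_of_map hP e0.hom (hP.iso _ inferInstance) ?_
  -- (d)
  have eC : NOs (UC true) ⊓ NOs US = NOs US := inf_eq_right.2 (NOs_mono (US_sub true))
  have hd : Acy P (FM Qd Nd (NOs US) (NOs (UC true)) (NOs UZ)) := by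
    refine acy_of_map hP _ (h3 P hP _ (NOs US) (NOs (UC true)) (NOs UZ) (h5 P hP Qd Nd true)) ?_
    rw [eC]
    exact h7 P hP hB
  -- (c)
  have hc : Acy P (FM Qd Nd (NOs US) (NOs (UC true)) (NOs US)) := by
    refine acy_of_map' hP _ (h2 P hP Qd Nd _ (NOs US) (NOs (UC true)) (NOs UZ) (NOs US)
      (NOs_mono UZ_sub_US) ?_) hd
    rw [eC]
    exact hAc _ h6
  -- (b)
  have i1 := h4 Qd Nd (NO (Sph 2)) ⊥ (NOs US) (NOs (UC true)) (NOs (UC true)) (NOs US) (NOs US)
    bot_le le_rfl le_rfl (fun n x => Iff.rfl) (fun n x _ h => ⟨fun h' => h'.elim, fun h' => absurd h' h⟩)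
  have hb1 : Acy P (FM Qd Nd (⊥ : (NO (Sph 2)).Subcomplex) (NOs (UC true)) (NOs US)) :=
    acy_of_map hP _ (hP.iso _ i1) hc
  have i2 := h4 Qd Nd (NO (Sph 2)) ⊥ ⊥ (NOs (UC true)) ⊤ (NOs US) (NOs (UC false))
    le_rfl le_top (NOs_mono (US_sub false)) (fun n x => (key n x).trans (by
      constructor
      · intro h
        exact ⟨trivial, h⟩
      · intro h
        exact h.2)) (fun n x _ _ => Iff.rfl)
  have hb2 : Acy P (FM Qd Nd (⊥ : (NO (Sph 2)).Subcomplex) ⊤ (NOs (UC false))) :=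
    acy_of_map' hP _ (hP.iso _ i2) hb1
  -- (a)
  refine acy_of_map hP _ (h2 P hP Qd Nd _ ⊥ ⊤ (NOs UZ) (NOs (UC false))
    (NOs_mono (UZ_sub false)) ?_) hb2
  rw [top_inf_eq]
  exact h5 P hP Qd Nd false

end Pool.Agent.SH


end

section

/-!
# (F7a) comparable order preserving maps induce homotopic maps of nerves
-/

set_option autoImplicit false

open CategoryTheory MonoidalCategory CartesianMonoidalCategory Simplicial Opposite

namespace Pool.Agent.SH

namespace NNoh

/-- The order preserving map of a simplex of `Δ[1]`. -/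
noncomputable def tt {n : SimplexCategoryᵒᵖ} (t : (Δ[1] : SSet.{0}).obj n) :
    Fin (n.unop.len + 1) →o Fin 2 := (SSet.stdSimplex.objEquiv t).toOrderHom

theorem tt_map {n m : SimplexCategoryᵒᵖ} (θ : n ⟶ m) (t : (Δ[1] : SSet.{0}).obj n)
    (i : Fin (m.unop.len + 1)) :
    tt ((Δ[1] : SSet.{0}).map θ t) i = tt t (θ.unop.toOrderHom i) := rfl

theorem tt_zero {X : SSet.{0}} {n : SimplexCategoryᵒᵖ} (x : X.obj n)
    (i : Fin (n.unop.len + 1)) : tt ((SSet.ι₀ (X := X)).app n x).2 i = 0 := rfl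

theorem tt_one {X : SSet.{0}} {n : SimplexCategoryᵒᵖ} (x : X.obj n)
    (i : Fin (n.unop.len + 1)) : tt ((SSet.ι₁ (X := X)).app n x).2 i = 1 := rfl

variable {S S' : Type} [PartialOrder S] [PartialOrder S']

/-- The interpolation of `f ≤ g` along `t`. -/
def mix (f g : S →o S') (h : f ≤ g) {n : ℕ} (x : Fin (n + 1) →o S) (t : Fin (n + 1) →o Fin 2) :
    Fin (n + 1) →o S' where
  toFun k := if t k = 0 then f (x k) else g (x k)
  monotone' a b hab := by
    by_cases hb : t b = 0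
    · have ha : t a = 0 := by
        have h1 := t.monotone hab
        rw [hb] at h1
        exact le_antisymm h1 (Fin.zero_le _)
      show (if t a = 0 then f (x a) else g (x a)) ≤ (if t b = 0 then f (x b) else g (x b))
      rw [if_pos ha, if_pos hb]
      exact f.monotone (x.monotone hab)
    · show (if t a = 0 then f (x a) else g (x a)) ≤ (if t b = 0 then f (x b) else g (x b))
      rw [if_neg hb]
      split_ifs
      · exact (h (x a)).trans (g.monotone (x.monotone hab))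
      · exact g.monotone (x.monotone hab)

/-- The homotopy. -/
noncomputable def hty (f g : S →o S') (h : f ≤ g) : NO S ⊗ Δ[1] ⟶ NO S' where
  app n := TypeCat.ofHom (fun z => mix f g h z.1 (tt z.2))
  naturality n m θ := by
    ext z
    rfl

end NNoh

theorem n_noh : N_NOH_Stmt := by
  intro S S' _ _ f g h
  refine ⟨NNoh.hty f g h, ?_, ?_, ?_⟩
  · ext n (x : Fin (n.unop.len + 1) →o S)
    refine OrderHom.ext _ _ (funext fun i => ?_)
    show (if NNoh.tt ((SSet.ι₀ (X := NO S)).app n x).2 i = 0 then f (x i) else g (x i)) = f (x i)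
    rw [NNoh.tt_zero, if_pos rfl]
  · ext n (x : Fin (n.unop.len + 1) →o S)
    refine OrderHom.ext _ _ (funext fun i => ?_)
    show (if NNoh.tt ((SSet.ι₁ (X := NO S)).app n x).2 i = 0 then f (x i) else g (x i)) = g (x i)
    rw [NNoh.tt_one, if_neg (by decide)]
  · rintro n x t y hy i
    subst hy
    show (if NNoh.tt t i = 0 then f (x i) else g (x i)) = _ ∨
      (if NNoh.tt t i = 0 then f (x i) else g (x i)) = _
    by_cases hc : NNoh.tt t i = 0
    · left
      rw [if_pos hc]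
    · right
      rw [if_neg hc]

end Pool.Agent.SH


end

section

/-!
# MP_2d0b73_an, Part III-N: the open fibres of `(W × Y) / G ⟶ Y / G`
-/

set_option autoImplicit false

open CategoryTheory MonoidalCategory CartesianMonoidalCategory Simplicial Opposite

namespace Pool.Agent.SH

namespace NOrb

/-- The trivial action. -/
def triv (G : Type) [Group G] (W : SSet.{0}) : Act G W where
  act _ := 𝟙 W
  one := rfl
  mul _ _ := (Category.comp_id _).symm

theorem quo_whisker {G : Type} [Group G] {W V : SSet.{0}} {a : Act G W} {p : W ⟶ V}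
    (h : IsQuo a p) (D : SSet.{0}) : IsQuo (a.prod (triv G D)) (p ▷ D) where
  surj n := by
    rintro ⟨v, t⟩
    obtain ⟨w, hw⟩ := h.surj n v
    exact ⟨(w, t), Prod.ext hw rfl⟩
  fib n := by
    rintro ⟨x, t⟩ ⟨y, u⟩
    constructor
    · intro e
      have e1 : p.app n x = p.app n y := congrArg Prod.fst e
      have e2 : t = u := congrArg Prod.snd e
      obtain ⟨g, hg⟩ := (h.fib n x y).1 e1
      exact ⟨g, Prod.ext hg e2⟩
    · rintro ⟨g, hg⟩
      have e1 : a.ap g x = y := congrArg Prod.fst hg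
      have e2 : t = u := congrArg Prod.snd hg
      exact Prod.ext ((h.fib n x y).2 ⟨g, e1⟩) e2

theorem map_injective (Y : SSet.{0}) {m n : ℕ} (α : ⦋m⦌ ⟶ ⦋n⦌) (hα : Epi α) :
    Function.Injective (Y.map α.op) := by
  have hs : IsSplitEpi α := isSplitEpi_of_epi α
  intro x y hxy
  have key : ∀ z : Y _⦋n⦌, Y.map (section_ α).op (Y.map α.op z) = z := by
    intro z
    have : Y.map α.op ≫ Y.map (section_ α).op = 𝟙 _ := by
      rw [← Functor.map_comp, ← op_comp, IsSplitEpi.id, op_id, CategoryTheory.Functor.map_id]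
    exact ConcreteCategory.congr_hom this z
  rw [← key x, ← key y, hxy]

end NOrb

open NOrb in
theorem n_orb (h1 : WC_OPEN_Stmt) (h2 : N_QEX_Stmt) (h3 : N_QDESC_Stmt) : N_ORB_Stmt := by
  intro P hP G _ W Y a b E B q r π ha hq hr hqr hst
  refine h1 P hP E B π ?_
  intro n b0 _
  obtain ⟨y, hy⟩ := hr.surj (op ⦋n⦌) b0
  obtain ⟨F, p, hp⟩ := h2 (b.stab y) W (a.restr (b.stab y))
  have hw := quo_whisker hp (Δ[n] : SSet.{0})
  let yh : (Δ[n] : SSet.{0}) ⟶ Y := SSet.yonedaEquiv.symm y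
  have hyh : ∀ (m : ℕ) (α : ⦋m⦌ ⟶ ⦋n⦌),
      yh.app (op ⦋m⦌) (SSet.stdSimplex.objEquiv.symm α) = Y.map α.op y := by
    intro m α
    rfl
  let g0 : W ⊗ (Δ[n] : SSet.{0}) ⟶ E := W ◁ yh ≫ q
  have hinv : ∀ g, ((a.restr (b.stab y)).prod (triv (b.stab y) (Δ[n] : SSet.{0}))).act g ≫ g0 =
      g0 := by
    intro g
    apply NatTrans.ext
    funext k
    refine ConcreteCategory.hom_ext _ _ ?_
    rintro ⟨w, t⟩
    change q.app k (a.ap (g : G) w, yh.app k t) = q.app k (w, yh.app k t)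
    symm
    refine (hq.fib k _ _).2 ⟨g, ?_⟩
    refine Prod.ext rfl ?_
    change b.ap (g : G) (yh.app k t) = yh.app k t
    obtain ⟨k⟩ := k
    induction k using SimplexCategory.rec with | _ m
    obtain ⟨α, rfl⟩ := SSet.stdSimplex.objEquiv.symm.surjective t
    have e1 : yh.app (op ⦋m⦌) (SSet.stdSimplex.objEquiv.symm α) = Y.map α.op y := hyh m α
    rw [e1, b.ap_map]
    exact congrArg (Y.map α.op) g.2
  obtain ⟨φ, hφ⟩ := (h3 (b.stab y) _ _ E _ _ hw).1 g0 hinv
  have hφ' : ∀ (k : SimplexCategoryᵒᵖ) (w : W.obj k) (t : (Δ[n] : SSet.{0}).obj k),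
      φ.app k (p.app k w, t) = q.app k (w, yh.app k t) := by
    intro k w t
    let z : (W ⊗ (Δ[n] : SSet.{0})).obj k := (w, t)
    exact ConcreteCategory.congr_hom (C := Type) (NatTrans.congr_app hφ k) z
  refine ⟨F, φ, hst (op ⦋n⦌) y F p hp, ?_, ?_⟩
  · refine (h3 (b.stab y) _ _ B _ _ hw).2 _ _ ?_
    rw [← Category.assoc, hφ]
    change (W ◁ yh ≫ q) ≫ π = _
    rw [Category.assoc, hqr, whiskerLeft_snd_assoc, whiskerRight_snd_assoc]
    congr 1
    apply NatTrans.ext
    funext k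
    refine ConcreteCategory.hom_ext _ _ ?_
    intro t
    obtain ⟨k⟩ := k
    induction k using SimplexCategory.rec with | _ m
    obtain ⟨α, rfl⟩ := SSet.stdSimplex.objEquiv.symm.surjective t
    change r.app (op ⦋m⦌) (Y.map α.op y) = B.map α.op b0
    rw [← hy]
    exact NatTrans.naturality_apply r α.op y
  · intro m α hα e he
    obtain ⟨⟨w', y'⟩, rfl⟩ := hq.surj (op ⦋m⦌) e
    let z : (W ⊗ Y) _⦋m⦌ := (w', y')
    have e1 : π.app (op ⦋m⦌) (q.app (op ⦋m⦌) (w', y')) = r.app (op ⦋m⦌) y' :=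
      ConcreteCategory.congr_hom (C := Type) (NatTrans.congr_app hqr (op ⦋m⦌)) z
    have e2 : B.map α.op b0 = r.app (op ⦋m⦌) (Y.map α.op y) := by
      rw [← hy]
      exact (NatTrans.naturality_apply r α.op y).symm
    rw [e1, e2] at he
    obtain ⟨g, hg⟩ := (hr.fib _ _ _).1 he
    have e3 : q.app (op ⦋m⦌) (w', y') = q.app (op ⦋m⦌) (a.ap g w', Y.map α.op y) :=
      (hq.fib _ _ _).2 ⟨g, Prod.ext rfl hg⟩
    refine ⟨p.app (op ⦋m⦌) (a.ap g w'), ?_, ?_⟩
    · change φ.app (op ⦋m⦌) (p.app (op ⦋m⦌) (a.ap g w'), SSet.stdSimplex.objEquiv.symm α) = _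
      rw [hφ', hyh, e3]
    · intro f hf
      obtain ⟨w'', rfl⟩ := hp.surj (op ⦋m⦌) f
      change φ.app (op ⦋m⦌) (p.app (op ⦋m⦌) w'', SSet.stdSimplex.objEquiv.symm α) = _ at hf
      rw [hφ', hyh, e3] at hf
      obtain ⟨g', hg'⟩ := (hq.fib _ _ _).1 hf
      have e4 : a.ap g' w'' = a.ap g w' := congrArg Prod.fst hg'
      have e5 : b.ap g' (Y.map α.op y) = Y.map α.op y := congrArg Prod.snd hg'
      rw [b.ap_map] at e5
      have e6 : b.ap g' y = y := map_injective Y α hα e5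
      exact (hp.fib _ _ _).2 ⟨⟨g', e6⟩, e4⟩

end Pool.Agent.SH


end

section

/-!
# MP_2d0b73_an, Part III-N: quotients of simplicial sets by group actions (N1, N2)
-/

set_option autoImplicit false

open CategoryTheory MonoidalCategory CartesianMonoidalCategory Simplicial Opposite

namespace Pool.Agent.SH

namespace NQex

variable {G : Type} [Group G] {W : SSet.{0}} (a : Act G W)

/-- the orbit relation -/
def st (n : SimplexCategoryᵒᵖ) : Setoid (W.obj n) where
  r x y := ∃ g, a.ap g x = y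
  iseqv := ⟨fun x => ⟨1, a.ap_one x⟩,
    fun {x y} h => by
      obtain ⟨g, h⟩ := h
      exact ⟨g⁻¹, by rw [← h, ← a.ap_mul, inv_mul_cancel, a.ap_one]⟩,
    fun {x y z} h h' => by
      obtain ⟨g, h⟩ := h
      obtain ⟨g', h'⟩ := h'
      exact ⟨g' * g, by rw [a.ap_mul, h, h']⟩⟩

/-- the operators on orbits -/
def op {n m : SimplexCategoryᵒᵖ} (θ : n ⟶ m) : Quotient (st a n) → Quotient (st a m) :=
  Quotient.map (fun x => W.map θ x) (by
    rintro x y ⟨g, h⟩
    exact ⟨g, by rw [a.ap_map, h]⟩)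

/-- the quotient -/
def QQ : SSet.{0} where
  obj n := Quotient (st a n)
  map θ := TypeCat.ofHom (op a θ)
  map_id n := by
    refine ConcreteCategory.hom_ext _ _ fun x => ?_
    obtain ⟨x, rfl⟩ := Quotient.exists_rep x
    show (Quotient.mk (st a n) (W.map (𝟙 n) x) : Quotient (st a n)) = Quotient.mk (st a n) x
    rw [W.map_id]
    rfl
  map_comp {n m k} θ η := by
    refine ConcreteCategory.hom_ext _ _ fun x => ?_
    obtain ⟨x, rfl⟩ := Quotient.exists_rep x
    show (Quotient.mk (st a k) (W.map (θ ≫ η) x) : Quotient (st a k)) =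
      Quotient.mk (st a k) (W.map η (W.map θ x))
    rw [W.map_comp]
    rfl

/-- the projection -/
def qq : W ⟶ QQ a where
  app n := TypeCat.ofHom (fun x => Quotient.mk (st a n) x)
  naturality _ _ _ := rfl

theorem isQuo : IsQuo a (qq a) where
  surj _ := fun x => Quotient.exists_rep x
  fib _ _ _ := ⟨fun h => Quotient.exact h, fun h => Quotient.sound h⟩

end NQex

theorem n_qex : N_QEX_Stmt := fun _ _ _ a => ⟨NQex.QQ a, NQex.qq a, NQex.isQuo a⟩

theorem n_qdesc : N_QDESC_Stmt := by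
  intro G _ W V U a q hq
  refine ⟨fun f hf => ?_, fun f g h => ?_⟩
  · have hinv : ∀ (n : SimplexCategoryᵒᵖ) (g : G) (x : W.obj n), f.app n (a.ap g x) = f.app n x := by
      intro n g x
      have h1 := congrArg (fun φ : W ⟶ U => φ.app n x) (hf g)
      exact h1
    have hwd : ∀ (n : SimplexCategoryᵒᵖ) (x y : W.obj n), q.app n x = q.app n y →
        f.app n x = f.app n y := by
      intro n x y h
      obtain ⟨g, rfl⟩ := (hq.fib n x y).1 h
      exact (hinv n g x).symm
    let F : ∀ n : SimplexCategoryᵒᵖ, V.obj n → U.obj n := fun n v =>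
      f.app n (Function.surjInv (hq.surj n) v)
    have hF : ∀ (n : SimplexCategoryᵒᵖ) (x : W.obj n), F n (q.app n x) = f.app n x := fun n x =>
      hwd n _ _ (Function.surjInv_eq (hq.surj n) (q.app n x))
    refine ⟨{ app := fun n => TypeCat.ofHom (F n), naturality := ?_ }, ?_⟩
    · intro n m θ
      refine ConcreteCategory.hom_ext _ _ fun v => ?_
      obtain ⟨x, rfl⟩ := hq.surj n v
      show F m (V.map θ (q.app n x)) = U.map θ (F n (q.app n x))
      rw [hF, ← NatTrans.naturality_apply q θ x, hF, NatTrans.naturality_apply f θ x]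
    · refine NatTrans.ext (funext fun n => ConcreteCategory.hom_ext _ _ fun x => ?_)
      exact hF n x
  · refine NatTrans.ext (funext fun n => ConcreteCategory.hom_ext _ _ fun v => ?_)
    obtain ⟨x, rfl⟩ := hq.surj n v
    exact congrArg (fun φ : W ⟶ U => φ.app n x) h

end Pool.Agent.SH


end

section

/-!
# MP_2d0b73_an, Part III-N: the projections of a quotient of a product by a diagonal action
-/

set_option autoImplicit false

open CategoryTheory MonoidalCategory CartesianMonoidalCategory Simplicial Opposite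

namespace Pool.Agent.SH

namespace NQproj

theorem prod_ap {G : Type} [Group G] {W₁ W₂ : SSet.{0}} (a₁ : Act G W₁) (a₂ : Act G W₂) (g : G)
    {n : SimplexCategoryᵒᵖ} (x : W₁.obj n) (y : W₂.obj n) :
    (a₁.prod a₂).ap g ((x, y) : (W₁ ⊗ W₂).obj n) = (a₁.ap g x, a₂.ap g y) := rfl

theorem symm_app {X : SSet.{0}} {n m : ℕ} (w : X _⦋n⦌) (a : ⦋m⦌ ⟶ ⦋n⦌) :
    (SSet.yonedaEquiv.symm w).app (op ⦋m⦌) (SSet.stdSimplex.objEquiv.symm a) = X.map a.op w := by
  exact SSet.yonedaEquiv_symm_app_objEquiv_symm w a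

theorem first (h : WC_OPEN_Stmt) (P : MorphismProperty SSet.{0}) (hP : WClass P) (G : Type)
    [Group G] (W₁ W₂ : SSet.{0}) (a₁ : Act G W₁) (a₂ : Act G W₂) (Q : SSet.{0})
    (q : W₁ ⊗ W₂ ⟶ Q) (hq : IsQuo (a₁.prod a₂) q) (V : SSet.{0}) (p : W₁ ⟶ V) (π : Q ⟶ V)
    (hf : a₁.Free) (hp : IsQuo a₁ p) (hπ : q ≫ π = fst W₁ W₂ ≫ p) (hW : Acy P W₂) : P π := by
  refine h P hP Q V π ?_
  intro n b _
  obtain ⟨w, hw⟩ := hp.surj (op ⦋n⦌) b
  have hφ : ∀ (m : ℕ) (a : ⦋m⦌ ⟶ ⦋n⦌) (f : W₂ _⦋m⦌),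
      (lift (snd W₂ Δ[n] ≫ SSet.yonedaEquiv.symm w) (fst W₂ Δ[n]) ≫ q).app (op ⦋m⦌)
        (f, SSet.stdSimplex.objEquiv.symm a) = q.app (op ⦋m⦌) (W₁.map a.op w, f) := by
    intro m a f
    rw [← symm_app w a]
    rfl
  refine ⟨W₂, lift (snd W₂ Δ[n] ≫ SSet.yonedaEquiv.symm w) (fst W₂ Δ[n]) ≫ q, hW, ?_, ?_⟩
  · rw [Category.assoc, hπ, ← Category.assoc, lift_fst, Category.assoc, ← hw]
    congr 1
    exact SSet.yonedaEquiv_symm_comp w p
  · intro m a _ e he
    have hpe : ∀ (x : W₁ _⦋m⦌) (y : W₂ _⦋m⦌), π.app (op ⦋m⦌) (q.app (op ⦋m⦌) (x, y)) =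
        p.app (op ⦋m⦌) x := by
      intro x y
      exact congrArg (fun k : W₁ ⊗ W₂ ⟶ V => k.app (op ⦋m⦌) (x, y)) hπ
    obtain ⟨⟨w', f'⟩, hwf⟩ := hq.surj (op ⦋m⦌) e
    have h1 : p.app (op ⦋m⦌) w' = p.app (op ⦋m⦌) (W₁.map a.op w) := by
      rw [← hpe w' f', hwf, he, ← hw]
      exact (NatTrans.naturality_apply p a.op w).symm
    obtain ⟨g, hg⟩ := (hp.fib (op ⦋m⦌) _ _).1 h1
    refine ⟨a₂.ap g f', ?_, ?_⟩
    · show (lift (snd W₂ Δ[n] ≫ SSet.yonedaEquiv.symm w) (fst W₂ Δ[n]) ≫ q).app (op ⦋m⦌)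
        (a₂.ap g f', SSet.stdSimplex.objEquiv.symm a) = e
      rw [hφ, ← hwf]
      refine ((hq.fib (op ⦋m⦌) _ _).2 ⟨g, ?_⟩).symm
      rw [prod_ap, hg]
    · intro f hfe
      have hfe' : (lift (snd W₂ Δ[n] ≫ SSet.yonedaEquiv.symm w) (fst W₂ Δ[n]) ≫ q).app (op ⦋m⦌)
        (f, SSet.stdSimplex.objEquiv.symm a) = e := hfe
      rw [hφ, ← hwf] at hfe'
      obtain ⟨g', hg'⟩ := (hq.fib (op ⦋m⦌) _ _).1 hfe'.symm
      rw [prod_ap] at hg'
      have e1 : a₁.ap g' w' = W₁.map a.op w := congrArg Prod.fst hg'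
      have e2 : a₂.ap g' f' = f := congrArg Prod.snd hg'
      have e3 : g' = g := by
        have e4 : a₁.ap (g⁻¹ * g') w' = w' := by
          rw [a₁.ap_mul, e1, ← hg, ← a₁.ap_mul, inv_mul_cancel, a₁.ap_one]
        have e5 := hf _ _ _ e4
        exact (inv_mul_eq_one.1 e5).symm
      rw [← e2, e3]

end NQproj

open NQproj in
theorem n_qproj (h : WC_OPEN_Stmt) : N_QPROJ_Stmt := by
  intro P hP G _ W₁ W₂ a₁ a₂ Q q hq
  constructor
  · intro V p π hf hp hπ hW
    exact first h P hP G W₁ W₂ a₁ a₂ Q q hq V p π hf hp hπ hW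
  · intro V p π hf hp hπ hW
    have hq' : IsQuo (a₂.prod a₁) (lift (snd W₂ W₁) (fst W₂ W₁) ≫ q) := by
      refine ⟨?_, ?_⟩
      · intro n e
        obtain ⟨⟨x, y⟩, hxy⟩ := hq.surj n e
        exact ⟨(y, x), hxy⟩
      · rintro n ⟨x, y⟩ ⟨x', y'⟩
        have h1 := hq.fib n (y, x) (y', x')
        refine Iff.trans h1 ?_
        constructor
        · rintro ⟨g, hg⟩
          refine ⟨g, ?_⟩
          rw [prod_ap] at hg ⊢
          have e1 : a₁.ap g y = y' := congrArg Prod.fst hg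
          have e2 : a₂.ap g x = x' := congrArg Prod.snd hg
          rw [e1, e2]
        · rintro ⟨g, hg⟩
          refine ⟨g, ?_⟩
          rw [prod_ap] at hg ⊢
          have e1 : a₂.ap g x = x' := congrArg Prod.fst hg
          have e2 : a₁.ap g y = y' := congrArg Prod.snd hg
          rw [e1, e2]
    refine first h P hP G W₂ W₁ a₂ a₁ Q _ hq' V p π hf hp ?_ hW
    rw [Category.assoc, hπ, ← Category.assoc, lift_snd]

end Pool.Agent.SH


end

section

/-!
# MP_2d0b73_an, Part III-N, module N_QY: the dyadic coefficients on the circle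

`FM Qd Nd (NOs US) (NOs US) (NOs UZ)` is `F₂`-acyclic: it is a simplicial commutative monoid in which
multiplication by two is bijective (positive degrees), and its vertices are connected (degree zero).
-/

set_option autoImplicit false

open CategoryTheory MonoidalCategory CartesianMonoidalCategory Simplicial Opposite

namespace Pool.Agent.SH

namespace NQy

/-! ### Degree zero, for any simplicial set -/

section zero

variable {X : SSet.{0}}

/-- the relation generated by the edges, in chain form -/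
def Rl (m m' : X _⦋0⦌) : Prop :=
  ∃ w : X _⦋1⦌ →₀ ZMod 2, dF 0 w = Finsupp.single m 1 + Finsupp.single m' 1 ∧ dF 1 w = 0

theorem dF_add {n : ℕ} (i : Fin (n + 2)) (z w : X _⦋n + 1⦌ →₀ ZMod 2) :
    dF i (z + w) = dF i z + dF i w := Finsupp.mapDomain_add

theorem dF_single {n : ℕ} (i : Fin (n + 2)) (x : X _⦋n + 1⦌) (a : ZMod 2) :
    dF i (Finsupp.single x a) = Finsupp.single (X.δ i x) a := Finsupp.mapDomain_single

theorem dF_zero {n : ℕ} (i : Fin (n + 2)) : dF i (0 : X _⦋n + 1⦌ →₀ ZMod 2) = 0 :=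
  Finsupp.mapDomain_zero

theorem two_eq {T : Type} (f : T →₀ ZMod 2) : f + f = 0 := by
  ext x
  rw [Finsupp.add_apply, CharTwo.add_self_eq_zero]
  rfl

theorem Rl.refl (m : X _⦋0⦌) : Rl m m := ⟨0, by rw [dF_zero, two_eq], dF_zero 1⟩

theorem Rl.symm {m m' : X _⦋0⦌} (h : Rl m m') : Rl m' m := by
  obtain ⟨w, h0, h1⟩ := h
  exact ⟨w, by rw [h0, add_comm], h1⟩

theorem Rl.trans {m m' m'' : X _⦋0⦌} (h : Rl m m') (h' : Rl m' m'') : Rl m m'' := by
  obtain ⟨w, h0, h1⟩ := h
  obtain ⟨w', h0', h1'⟩ := h'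
  refine ⟨w + w', ?_, by rw [dF_add, h1, h1', add_zero]⟩
  rw [dF_add, h0, h0']
  calc Finsupp.single m (1 : ZMod 2) + Finsupp.single m' 1 +
        (Finsupp.single m' 1 + Finsupp.single m'' 1)
      = Finsupp.single m (1 : ZMod 2) + (Finsupp.single m' 1 + Finsupp.single m' 1) +
          Finsupp.single m'' 1 := by abel
    _ = Finsupp.single m (1 : ZMod 2) + Finsupp.single m'' 1 := by rw [two_eq, add_zero]

theorem δσ0 (x : X _⦋0⦌) : X.δ 0 (X.σ 0 x) = x := by
  have h : X.σ (0 : Fin 1) ≫ X.δ (0 : Fin 2) = 𝟙 _ := X.δ_comp_σ_self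
  exact ConcreteCategory.congr_hom h x

theorem δσ1 (x : X _⦋0⦌) : X.δ 1 (X.σ 0 x) = x := by
  have h : X.σ (0 : Fin 1) ≫ X.δ (1 : Fin 2) = 𝟙 _ := X.δ_comp_σ_succ
  exact ConcreteCategory.congr_hom h x

theorem edge (e : X _⦋1⦌) : Rl (X.δ 0 e) (X.δ 1 e) := by
  refine ⟨Finsupp.single e 1 + Finsupp.single (X.σ 0 (X.δ 1 e)) 1, ?_, ?_⟩
  · rw [dF_add, dF_single, dF_single, δσ0]
  · rw [dF_add, dF_single, dF_single, δσ1, two_eq]

theorem conn (o : X _⦋0⦌) (h : ∀ m, Rl m o) (z : X _⦋0⦌ →₀ ZMod 2)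
    (hz : z.sum (fun _ a => a) = 0) : ∃ w : X _⦋1⦌ →₀ ZMod 2, dF 0 w = z ∧ dF 1 w = 0 := by
  have key : ∀ z : X _⦋0⦌ →₀ ZMod 2, ∃ w : X _⦋1⦌ →₀ ZMod 2,
      dF 0 w = z + Finsupp.single o (z.sum (fun _ a => a)) ∧ dF 1 w = 0 := by
    intro z
    induction z using Finsupp.induction_linear with
    | zero => exact ⟨0, by simp [dF_zero], dF_zero 1⟩
    | add f g hf hg =>
      obtain ⟨w, h0, h1⟩ := hf
      obtain ⟨w', h0', h1'⟩ := hg
      refine ⟨w + w', ?_, by rw [dF_add, h1, h1', add_zero]⟩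
      rw [dF_add, h0, h0', Finsupp.sum_add_index' (fun _ => rfl) (fun _ _ _ => rfl),
        Finsupp.single_add]
      abel
    | single m a =>
      rw [Finsupp.sum_single_index rfl]
      have ha : a = 0 ∨ a = 1 := by
        revert a
        decide
      rcases ha with rfl | rfl
      · exact ⟨0, by simp [dF_zero], dF_zero 1⟩
      · exact h m
  obtain ⟨w, h0, h1⟩ := key z
  refine ⟨w, ?_, h1⟩
  rw [h0, hz, Finsupp.single_zero, add_zero]

end zero

/-! ### The monoid structure -/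

section monoid

variable {A : Type} [AddCommMonoid A] {A₀ : AddSubmonoid A} {X : SSet.{0}} {Y W Z : X.Subcomplex}

/-- the simplices of `FM`, as a submonoid -/
def Sb (A₀ : AddSubmonoid A) (Y W Z : X.Subcomplex) (n : SimplexCategoryᵒᵖ) :
    AddSubmonoid (X.obj n →₀ A) where
  carrier := {f | (∀ x, f x ≠ 0 → x ∈ W.obj n ∧ x ∉ Z.obj n) ∧ ∀ x, x ∉ Y.obj n → f x ∈ A₀}
  zero_mem' := ⟨fun _ hx => absurd rfl hx, fun _ _ => A₀.zero_mem⟩
  add_mem' := by
    rintro f g ⟨hf, hf'⟩ ⟨hg, hg'⟩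
    refine ⟨fun x hx => ?_, fun x hx => A₀.add_mem (hf' x hx) (hg' x hx)⟩
    by_cases h : f x = 0
    · refine hg x fun h' => hx ?_
      rw [Finsupp.add_apply, h, h', add_zero]
    · exact hf x h

/-- the addition -/
noncomputable instance inst (n : SimplexCategoryᵒᵖ) : AddCommMonoid ((FM A A₀ Y W Z).obj n) :=
  inferInstanceAs (AddCommMonoid (Sb A₀ Y W Z n))

theorem add_fn {n : SimplexCategoryᵒᵖ} (f g : (FM A A₀ Y W Z).obj n) :
    FM.fn (f + g) = FM.fn f + FM.fn g := rfl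

theorem zero_fn {n : SimplexCategoryᵒᵖ} :
    FM.fn (0 : (FM A A₀ Y W Z).obj n) = 0 := rfl

theorem fn_inj {n : SimplexCategoryᵒᵖ} {f g : (FM A A₀ Y W Z).obj n}
    (h : FM.fn f = FM.fn g) : f = g := Subtype.ext h

theorem map_add {n m : SimplexCategoryᵒᵖ} (θ : n ⟶ m) (f g : (FM A A₀ Y W Z).obj n) :
    (FM A A₀ Y W Z).map θ (f + g) = (FM A A₀ Y W Z).map θ f + (FM A A₀ Y W Z).map θ g := by
  classical
  refine fn_inj ?_
  show ((FM.fn f + FM.fn g).mapDomain (X.map θ)).filter (fun x => x ∉ Z.obj m) =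
    ((FM.fn f).mapDomain (X.map θ)).filter (fun x => x ∉ Z.obj m) +
        ((FM.fn g).mapDomain (X.map θ)).filter (fun x => x ∉ Z.obj m)
  rw [Finsupp.mapDomain_add, Finsupp.filter_add]

open scoped Classical in
/-- the function with one value -/
noncomputable def sg (n : SimplexCategoryᵒᵖ) (x : X.obj n) (hx : x ∈ W.obj n) (q : A) :
    (FM A A₀ W W Z).obj n :=
  ⟨(Finsupp.single x q).filter (fun x => x ∉ Z.obj n), by
    refine ⟨fun y hy => ?_, fun y hy => ?_⟩
    · rw [Finsupp.filter_apply] at hy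
      by_cases h : y ∉ Z.obj n
      · rw [if_pos h, Finsupp.single_apply] at hy
        split_ifs at hy with h'
        · rw [← h'] at h ⊢
          exact ⟨hx, h⟩
        · exact absurd rfl hy
      · rw [if_neg h] at hy
        exact absurd rfl hy
    · rw [Finsupp.filter_apply]
      by_cases h : y ∉ Z.obj n
      · rw [if_pos h, Finsupp.single_apply]
        split_ifs with h'
        · rw [← h'] at hy
          exact absurd hx hy
        · exact A₀.zero_mem
      · rw [if_neg h]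
        exact A₀.zero_mem⟩

theorem sg_map {n m : SimplexCategoryᵒᵖ} (θ : n ⟶ m) (x : X.obj n) (hx : x ∈ W.obj n) (q : A)
    (y : X.obj m) (hy : X.map θ x = y) :
    (FM A A₀ W W Z).map θ (sg n x hx q) = sg m y (by rw [← hy]; exact W.map θ hx) q := by
  classical
  subst hy
  refine fn_inj ?_
  show (((Finsupp.single x q).filter (fun x => x ∉ Z.obj n)).mapDomain (X.map θ)).filter
      (fun x => x ∉ Z.obj m) = (Finsupp.single (X.map θ x) q).filter (fun x => x ∉ Z.obj m)
  rw [FM_filter, Finsupp.mapDomain_single]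

theorem sg_zero {n : SimplexCategoryᵒᵖ} (x : X.obj n) (hx : x ∈ W.obj n) (hz : x ∈ Z.obj n)
    (q : A) : (sg n x hx q : (FM A A₀ W W Z).obj n) = 0 := by
  classical
  refine fn_inj ?_
  show (Finsupp.single x q).filter (fun x => x ∉ Z.obj n) = 0
  exact Finsupp.filter_single_of_neg _ (not_not.2 hz)

theorem sg_fn {n : SimplexCategoryᵒᵖ} (x : X.obj n) (hx : x ∈ W.obj n) (hz : x ∉ Z.obj n)
    (q : A) : FM.fn (sg n x hx q : (FM A A₀ W W Z).obj n) = Finsupp.single x q := by
  classical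
  show (Finsupp.single x q).filter (fun x => x ∉ Z.obj n) = _
  exact Finsupp.filter_single_of_pos _ hz

end monoid

/-! ### The dyadic coefficients on the circle -/

/-- half of a dyadic number -/
def half (q : Qd) : Qd := ⟨(q : ℚ) / 2, by
  obtain ⟨hq, k, m, h⟩ := q.2
  refine ⟨div_nonneg hq (by norm_num), k + 1, m, ?_⟩
  rw [← h]
  ring⟩

theorem half_zero : half 0 = 0 := by
  apply Subtype.ext
  show (0 : ℚ) / 2 = 0
  norm_num

theorem half_add (q : Qd) : half q + half q = q := by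
  apply Subtype.ext
  show (q : ℚ) / 2 + (q : ℚ) / 2 = q
  ring

theorem add_self_inj {p q : Qd} (h : p + p = q + q) : p = q := by
  apply Subtype.ext
  have h' : (p : ℚ) + p = q + q := congrArg Subtype.val h
  linarith

/-- the simplicial set -/
noncomputable abbrev CX : SSet.{0} := FM Qd Nd (NOs US) (NOs US) (NOs UZ)

theorem bij (n : SimplexCategoryᵒᵖ) : Function.Bijective (fun x : CX.obj n => x + x) := by
  constructor
  · intro f g h
    have h' : FM.fn f + FM.fn f = FM.fn g + FM.fn g := congrArg FM.fn h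
    refine fn_inj (Finsupp.ext fun x => ?_)
    exact add_self_inj (DFunLike.congr_fun h' x)
  · intro g
    refine ⟨⟨(FM.fn g).mapRange half half_zero, fun x hx => ?_, fun x hx => ?_⟩, ?_⟩
    · rw [Finsupp.mapRange_apply] at hx
      refine g.2.1 x fun h => hx ?_
      show half (g.1 x) = 0
      rw [h, half_zero]
    · rw [Finsupp.mapRange_apply]
      have h : g.1 x = 0 := by
        by_contra h
        exact hx (g.2.1 x h).1
      show half (g.1 x) ∈ Nd
      rw [h, half_zero]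
      exact Nd.zero_mem
    · refine fn_inj (Finsupp.ext fun x => ?_)
      exact half_add (FM.fn g x)

/-- the vertices of the nerve -/
def cst (v : Sph 2) : (NO (Sph 2)).obj (op ⦋0⦌) := (OrderHom.const _ v : Fin (0 + 1) →o Sph 2)

theorem eq_cst (x : (NO (Sph 2)).obj (op ⦋0⦌)) : ∃ v, x = cst v := by
  refine ⟨(show Fin (0 + 1) →o Sph 2 from x) 0, ?_⟩
  refine OrderHom.ext (α := Fin (0 + 1)) _ _ (funext fun i => ?_)
  have hi : i = (0 : Fin 1) := Subsingleton.elim (α := Fin 1) _ _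
  subst hi
  rfl

/-- the edges of the nerve -/
def ed (a b : Sph 2) (h : a ≤ b) : (NO (Sph 2)).obj (op ⦋1⦌) :=
  (⟨fun i => if i = 0 then a else b, by
    intro i j hij
    show (if i = 0 then a else b) ≤ (if j = 0 then a else b)
    by_cases h1 : i = 0
    · rw [if_pos h1]
      split_ifs
      · exact le_refl a
      · exact h
    · have h2 : j ≠ 0 := by
        rintro rfl
        exact h1 (le_antisymm hij (Fin.zero_le i))
      rw [if_neg h1, if_neg h2]⟩ : Fin (1 + 1) →o Sph 2)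

theorem δ0_ed (a b : Sph 2) (h : a ≤ b) : (NO (Sph 2)).δ (0 : Fin 2) (ed a b h) = cst b := by
  refine OrderHom.ext (α := Fin (0 + 1)) _ _ (funext fun i => ?_)
  show (if (SimplexCategory.δ (0 : Fin 2)).toOrderHom i = 0 then a else b) = b
  have : (SimplexCategory.δ (0 : Fin 2)).toOrderHom i ≠ 0 := by
    have hi : i = (0 : Fin 1) := Subsingleton.elim (α := Fin 1) _ _
    subst hi
    decide
  rw [if_neg this]

theorem δ1_ed (a b : Sph 2) (h : a ≤ b) : (NO (Sph 2)).δ (1 : Fin 2) (ed a b h) = cst a := by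
  refine OrderHom.ext (α := Fin (0 + 1)) _ _ (funext fun i => ?_)
  show (if (SimplexCategory.δ (1 : Fin 2)).toOrderHom i = 0 then a else b) = a
  have : (SimplexCategory.δ (1 : Fin 2)).toOrderHom i = 0 := by
    have hi : i = (0 : Fin 1) := Subsingleton.elim (α := Fin 1) _ _
    subst hi
    decide
  rw [if_pos this]

theorem cst_mem {U : Set (Sph 2)} {v : Sph 2} : cst v ∈ (NOs U).obj (op ⦋0⦌) ↔ v ∈ U :=
  ⟨fun h => h 0, fun h _ => h⟩

theorem ed_mem {U : Set (Sph 2)} {a b : Sph 2} (h : a ≤ b) (ha : a ∈ U) (hb : b ∈ U) :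
    ed a b h ∈ (NOs U).obj (op ⦋1⦌) := by
  intro i
  show (if i = 0 then a else b) ∈ U
  split_ifs
  · exact ha
  · exact hb

/-- an edge between two vertices of `CX` -/
theorem step (m : CX _⦋0⦌) (a b : Sph 2) (h : a ≤ b) (ha : a ∈ US) (hb : b ∈ US) (q : Qd) :
    Rl (m + sg (op ⦋0⦌) (cst b) (cst_mem.2 hb) q) (m + sg (op ⦋0⦌) (cst a) (cst_mem.2 ha) q) := by
  have e := edge (CX.σ 0 m + sg (op ⦋1⦌) (ed a b h) (ed_mem h ha hb) q : CX _⦋1⦌)
  have e0 : CX.δ 0 (CX.σ 0 m + sg (op ⦋1⦌) (ed a b h) (ed_mem h ha hb) q : CX _⦋1⦌) =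
      m + sg (op ⦋0⦌) (cst b) (cst_mem.2 hb) q := by
    refine (map_add _ _ _).trans ?_
    congr 1
    · exact δσ0 m
    · exact sg_map _ _ _ _ _ (δ0_ed a b h)
  have e1 : CX.δ 1 (CX.σ 0 m + sg (op ⦋1⦌) (ed a b h) (ed_mem h ha hb) q : CX _⦋1⦌) =
      m + sg (op ⦋0⦌) (cst a) (cst_mem.2 ha) q := by
    refine (map_add _ _ _).trans ?_
    congr 1
    · exact δσ1 m
    · exact sg_map _ _ _ _ _ (δ1_ed a b h)
  rw [e0, e1] at e
  exact e

theorem zero_US : (0 : Sph 2) ∈ US := by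
  show (0 : Sph 2).lev ≠ Fin.last 2
  decide

theorem step1 (m : CX _⦋0⦌) (s : Bool) (hs : (⟨1, s⟩ : Sph 2) ∈ US) (q : Qd) :
    Rl (m + sg (op ⦋0⦌) (cst ⟨1, s⟩) (cst_mem.2 hs) q) m := by
  have e := step m 0 ⟨1, s⟩ (Or.inl (by show (0 : Fin 3) < 1; decide)) zero_US hs q
  have hz : cst 0 ∈ (NOs UZ).obj (op ⦋0⦌) := cst_mem.2 rfl
  rw [sg_zero (cst 0) (cst_mem.2 zero_US) hz q, add_zero] at e
  exact e

theorem lev_cases : ∀ l : Fin 3, l ≠ Fin.last 2 → l = 0 ∨ l = 1 := by decide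

theorem step2 (m : CX _⦋0⦌) (v : Sph 2) (hv : v ∈ US) (q : Qd) :
    Rl (m + sg (op ⦋0⦌) (cst v) (cst_mem.2 hv) q) m := by
  have h1 : (⟨1, false⟩ : Sph 2) ∈ US := by
    show (1 : Fin 3) ≠ Fin.last 2
    decide
  obtain ⟨l, s⟩ := v
  have hl : l ≠ Fin.last 2 := hv
  have hl' : l = 0 ∨ l = 1 := lev_cases l hl
  rcases hl' with rfl | rfl
  · exact (step m ⟨0, s⟩ ⟨1, false⟩ (Or.inl (by show (0 : Fin 3) < 1; decide)) hv h1 q).symm.trans
      (step1 m false h1 q)
  · exact step1 m s hv q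

theorem all_zero (m : CX _⦋0⦌) : Rl m 0 := by
  classical
  have key : ∀ (f : (NO (Sph 2)).obj (op ⦋0⦌) →₀ Qd) (m : CX _⦋0⦌), FM.fn m = f → Rl m 0 := by
    intro f
    induction f using Finsupp.induction with
    | zero =>
      intro m hm
      have : m = 0 := fn_inj hm
      rw [this]
      exact Rl.refl 0
    | single_add a b f ha hb ih =>
      intro m hm
      have hfa : f a = 0 := Finsupp.notMem_support_iff.1 ha
      have hma : m.1 a ≠ 0 := by
        show FM.fn m a ≠ 0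
        rw [hm, Finsupp.add_apply, hfa, Finsupp.single_eq_same, add_zero]
        exact hb
      obtain ⟨haW, haZ⟩ := m.2.1 a hma
      have hf : ∀ x, f x ≠ 0 → m.1 x ≠ 0 := by
        intro x hx
        have hxa : x ≠ a := fun h => hx (by rw [h, hfa])
        show FM.fn m x ≠ 0
        rw [hm, Finsupp.add_apply, Finsupp.single_eq_of_ne hxa, zero_add]
        exact hx
      let g : CX _⦋0⦌ := ⟨f, fun x hx => m.2.1 x (hf x hx), fun x hx => by
        have : f x = 0 := by
          by_contra h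
          exact hx (m.2.1 x (hf x h)).1
        rw [this]
        exact Nd.zero_mem⟩
      obtain ⟨v, rfl⟩ := eq_cst a
      have hv : v ∈ US := cst_mem.1 haW
      have hmg : m = g + sg (op ⦋0⦌) (cst v) (cst_mem.2 hv) b := by
        refine fn_inj ?_
        rw [add_fn, sg_fn _ _ haZ, hm, add_comm]
        rfl
      rw [hmg]
      exact (step2 g v hv b).trans (ih g rfl)
  exact key _ m rfl

end NQy

open NQy in
/-- (F10) the dyadic coefficients on the circle. -/
theorem n_qy (h : N_UD_Stmt) : N_QY_Stmt where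
  ne := ⟨(0 : CX _⦋0⦌)⟩
  zero := fun z hz => conn 0 all_zero z hz
  succ := h CX (fun n => inst n) (fun _ _ θ x y => NQy.map_add θ x y) bij

end Pool.Agent.SH


end

section

/-!
# MP_2d0b73_an, (F6): the simplicial set `FM` of a subcomplex
-/

set_option autoImplicit false

open CategoryTheory MonoidalCategory CartesianMonoidalCategory Simplicial Opposite

namespace Pool.Agent.SH

namespace NRes

theorem app_inj {X' X : SSet.{0}} (i : X' ⟶ X) (hi : Mono i) (n : SimplexCategoryᵒᵖ) :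
    Function.Injective (i.app n) := by
  have h := (NatTrans.mono_iff_mono_app i).1 hi n
  exact (mono_iff_injective _).1 h

theorem mem_pre {X' X : SSet.{0}} (i : X' ⟶ X) (Z : X.Subcomplex) (n : SimplexCategoryᵒᵖ)
    (x : X'.obj n) : x ∈ (Z.preimage i).obj n ↔ i.app n x ∈ Z.obj n := Iff.rfl

theorem mem_range {X' X : SSet.{0}} (i : X' ⟶ X) (n : SimplexCategoryᵒᵖ) (y : X.obj n) :
    y ∈ (SSet.Subcomplex.range i).obj n ↔ ∃ x, i.app n x = y := Iff.rfl

theorem top_le {X' X : SSet.{0}} (i : X' ⟶ X) :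
    (⊤ : X'.Subcomplex) ≤ (SSet.Subcomplex.range i).preimage i := by
  intro n x _
  exact (mem_range i n _).2 ⟨x, rfl⟩

open scoped Classical in
theorem fm_fn {A : Type} [AddCommMonoid A] {X X' : SSet.{0}} (A₀ : AddSubmonoid A) (i : X' ⟶ X)
    (Y Z : X.Subcomplex) (n : SimplexCategoryᵒᵖ)
    (f : (FM A A₀ (Y.preimage i) ⊤ (Z.preimage i)).obj n) :
    ((FMmap A₀ i (le_refl (Y.preimage i)) (top_le i) (le_refl (Z.preimage i))).app n f).1 =
      (f.1.mapDomain (i.app n)).filter (fun x => x ∉ Z.obj n) := rfl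

theorem bij {A : Type} [AddCommMonoid A] {X X' : SSet.{0}} (A₀ : AddSubmonoid A) (i : X' ⟶ X)
    (hi : Mono i) (Y Z : X.Subcomplex) (n : SimplexCategoryᵒᵖ) :
    Function.Bijective ((FMmap A₀ i (le_refl (Y.preimage i)) (top_le i)
      (le_refl (Z.preimage i))).app n) := by
  classical
  have hinj := app_inj i hi n
  constructor
  · intro f g hfg
    apply Subtype.ext
    ext x
    have h1 := congrArg (fun h : (FM A A₀ Y (SSet.Subcomplex.range i) Z).obj n => h.1 (i.app n x))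
      hfg
    simp only [fm_fn] at h1
    rw [Finsupp.filter_apply, Finsupp.filter_apply] at h1
    by_cases hx : i.app n x ∉ Z.obj n
    · rw [if_pos hx, if_pos hx, Finsupp.mapDomain_apply hinj, Finsupp.mapDomain_apply hinj] at h1
      exact h1
    · have h2 : ∀ k : (FM A A₀ (Y.preimage i) ⊤ (Z.preimage i)).obj n, k.1 x = 0 := by
        intro k
        by_contra hk
        exact hx (k.2.1 x hk).2
      rw [h2 f, h2 g]
  · intro g
    refine ⟨⟨g.1.comapDomain (i.app n) hinj.injOn, ?_, ?_⟩, ?_⟩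
    · intro x hx
      rw [Finsupp.comapDomain_apply] at hx
      exact ⟨trivial, (g.2.1 _ hx).2⟩
    · intro x hx
      rw [Finsupp.comapDomain_apply]
      exact g.2.2 _ hx
    · apply Subtype.ext
      refine (fm_fn A₀ i Y Z n _).trans ?_
      ext y
      rw [Finsupp.filter_apply]
      by_cases hy : y ∉ Z.obj n
      · rw [if_pos hy]
        by_cases hr : ∃ x, i.app n x = y
        · obtain ⟨x, rfl⟩ := hr
          rw [Finsupp.mapDomain_apply hinj]
          rfl
        · have h3 : y ∉ Set.range (i.app n) := fun ⟨x, hx⟩ => hr ⟨x, hx⟩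
          rw [Finsupp.mapDomain_of_notMem_range _ _ h3]
          by_contra hg
          exact hr ((mem_range i n y).1 (g.2.1 y (Ne.symm hg)).1)
      · rw [if_neg hy]
        by_contra hg
        exact hy (g.2.1 y (Ne.symm hg)).2

end NRes

open NRes in
theorem n_res : N_RES_Stmt := by
  intro A _ A₀ X X' i Y Z hi
  have h1 : ∀ n, IsIso ((FMmap A₀ i (le_refl (Y.preimage i)) (top_le i)
      (le_refl (Z.preimage i))).app n) := fun n => (isIso_iff_bijective _).2 (bij A₀ i hi Y Z n)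
  have h2 : IsIso (FMmap A₀ i (le_refl (Y.preimage i)) (top_le i) (le_refl (Z.preimage i))) :=
    NatIso.isIso_of_isIso_app _
  exact ⟨asIso (FMmap A₀ i (le_refl (Y.preimage i)) (top_le i) (le_refl (Z.preimage i)))⟩

end Pool.Agent.SH


end

section

/-!
# MP_2d0b73_an, Part III-N (N8): quotients of `EE (G ⧸ S)` with `S` of odd index

The averaged extra degeneracy `s[z] = ∑ x, [(x, z)]` on the `F₂`-chains of the quotient.
-/

set_option autoImplicit false

open CategoryTheory MonoidalCategory CartesianMonoidalCategory Simplicial Opposite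

namespace Pool.Agent.SH.NSyl

section

variable {G : Type} [Group G] {X : Type} [MulAction G X] {V : SSet.{0}} (q : EE X ⟶ V)

/-- the map `q` on sequences -/
def qq (n : ℕ) (x : Fin (n + 1) → X) : V _⦋n⦌ := q.app (op ⦋n⦌) x

theorem qq_delta (n : ℕ) (i : Fin (n + 2)) (x : Fin (n + 2) → X) :
    V.δ i (qq q (n + 1) x) = qq q n (fun j => x (i.succAbove j)) :=
  (NatTrans.naturality_apply q (SimplexCategory.δ i).op x).symm

theorem qq_smul (hq : IsQuo (EEact G X) q) (n : ℕ) (g : G) (x : Fin (n + 1) → X) :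
    qq q n (fun i => g • x i) = qq q n x :=
  ((hq.fib (op ⦋n⦌) x (fun i => g • x i)).2 ⟨g, rfl⟩).symm

theorem qq_eq (hq : IsQuo (EEact G X) q) (n : ℕ) (x y : Fin (n + 1) → X)
    (h : qq q n x = qq q n y) : ∃ g : G, (fun i => g • x i) = y :=
  (hq.fib (op ⦋n⦌) x y).1 h

theorem qq_surj (hq : IsQuo (EEact G X) q) (n : ℕ) : Function.Surjective (qq q n) :=
  hq.surj (op ⦋n⦌)

/-- the value of the averaged degeneracy on one sequence -/
noncomputable def sm [Fintype X] (n : ℕ) (y : Fin (n + 1) → X) (a : ZMod 2) :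
    V _⦋n + 1⦌ →₀ ZMod 2 :=
  ∑ x : X, Finsupp.single (qq q (n + 1) (Fin.cons x y : Fin (n + 2) → X)) a

theorem cons_smul (n : ℕ) (g : G) (x : X) (y : Fin (n + 1) → X) :
    (Fin.cons (g • x) (fun i => g • y i) : Fin (n + 2) → X)
      = fun i => g • (Fin.cons x y : Fin (n + 2) → X) i := by
  funext i
  refine Fin.cases ?_ (fun j => ?_) i
  · simp
  · simp

theorem sm_indep [Fintype X] (hq : IsQuo (EEact G X) q) (n : ℕ) (y y' : Fin (n + 1) → X)
    (h : qq q n y = qq q n y') (a : ZMod 2) : sm q n y a = sm q n y' a := by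
  obtain ⟨g, rfl⟩ := qq_eq q hq n y y' h
  unfold sm
  rw [← Equiv.sum_comp (MulAction.toPerm g : Equiv.Perm X)
    (fun x => Finsupp.single (qq q (n + 1)
      (Fin.cons x (fun i => g • y i) : Fin (n + 2) → X)) a)]
  refine Finset.sum_congr rfl fun x _ => ?_
  rw [MulAction.toPerm_apply, cons_smul, qq_smul q hq]

/-- the averaged degeneracy -/
noncomputable def av [Fintype X] (hq : IsQuo (EEact G X) q) (n : ℕ) (z : V _⦋n⦌ →₀ ZMod 2) :
    V _⦋n + 1⦌ →₀ ZMod 2 :=
  z.sum fun v a => sm q n (Function.surjInv (qq_surj q hq n) v) a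

theorem sm_zero [Fintype X] (n : ℕ) (y : Fin (n + 1) → X) : sm q n y 0 = 0 := by
  unfold sm
  simp

theorem sm_add [Fintype X] (n : ℕ) (y : Fin (n + 1) → X) (a b : ZMod 2) :
    sm q n y (a + b) = sm q n y a + sm q n y b := by
  unfold sm
  simp [Finsupp.single_add, Finset.sum_add_distrib]

theorem av_zero [Fintype X] (hq : IsQuo (EEact G X) q) (n : ℕ) : av q hq n 0 = 0 := by
  unfold av
  rw [Finsupp.sum_zero_index]

theorem dF_sm_zero [Fintype X] (n : ℕ) (y : Fin (n + 1) → X) (a : ZMod 2)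
    (hX : (Fintype.card X : ZMod 2) = 1) :
    dF 0 (sm q n y a) = Finsupp.single (qq q n y) a := by
  unfold dF sm
  rw [Finsupp.mapDomain_finsetSum]
  have h : ∀ x : X, (Finsupp.single (qq q (n + 1) (Fin.cons x y : Fin (n + 2) → X)) a).mapDomain
      (V.δ 0) = Finsupp.single (qq q n y) a := by
    intro x
    rw [Finsupp.mapDomain_single, qq_delta]
    congr 1
  rw [Finset.sum_congr rfl fun x _ => h x, Finset.sum_const, Finset.card_univ,
    Finsupp.smul_single, nsmul_eq_mul, hX, one_mul]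

theorem dF_sm_succ [Fintype X] (n : ℕ) (i : Fin (n + 2)) (y : Fin (n + 2) → X) (a : ZMod 2) :
    dF i.succ (sm q (n + 1) y a) = sm q n (fun j => y (i.succAbove j)) a := by
  unfold dF sm
  rw [Finsupp.mapDomain_finsetSum]
  refine Finset.sum_congr rfl fun x _ => ?_
  rw [Finsupp.mapDomain_single, qq_delta]
  congr 2
  funext j
  refine Fin.cases ?_ (fun k => ?_) j
  · simp
  · simp

theorem dF_av_zero [Fintype X] (hq : IsQuo (EEact G X) q) (n : ℕ) (z : V _⦋n⦌ →₀ ZMod 2)
    (hX : (Fintype.card X : ZMod 2) = 1) : dF 0 (av q hq n z) = z := by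
  have h : dF 0 (av q hq n z) = z.sum fun v a =>
      dF 0 (sm q n (Function.surjInv (qq_surj q hq n) v) a) := by
    unfold av dF
    rw [Finsupp.sum, Finsupp.mapDomain_finsetSum]
    rfl
  rw [h]
  have h2 : ∀ (v : V _⦋n⦌) (a : ZMod 2),
      dF 0 (sm q n (Function.surjInv (qq_surj q hq n) v) a) = Finsupp.single v a := by
    intro v a
    rw [dF_sm_zero q n _ a hX, Function.surjInv_eq (qq_surj q hq n) v]
  simp only [h2]
  exact Finsupp.sum_single z

theorem dF_av_succ [Fintype X] (hq : IsQuo (EEact G X) q) (n : ℕ) (i : Fin (n + 2))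
    (z : V _⦋n + 1⦌ →₀ ZMod 2) : dF i.succ (av q hq (n + 1) z) = av q hq n (dF i z) := by
  have h : dF i.succ (av q hq (n + 1) z) = z.sum fun v a =>
      dF i.succ (sm q (n + 1) (Function.surjInv (qq_surj q hq (n + 1)) v) a) := by
    unfold av dF
    rw [Finsupp.sum, Finsupp.mapDomain_finsetSum]
    rfl
  rw [h]
  have h2 : av q hq n (dF i z) = z.sum fun v a =>
      sm q n (Function.surjInv (qq_surj q hq n) (V.δ i v)) a := by
    unfold av dF
    rw [Finsupp.sum_mapDomain_index]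
    · intro b
      exact sm_zero q n _
    · intro b m₁ m₂
      exact sm_add q n _ m₁ m₂
  rw [h2]
  unfold Finsupp.sum
  refine Finset.sum_congr rfl fun v _ => ?_
  dsimp only
  rw [dF_sm_succ]
  refine sm_indep q hq n _ _ ?_ _
  rw [← qq_delta, Function.surjInv_eq (qq_surj q hq (n + 1)) v,
    Function.surjInv_eq (qq_surj q hq n) (V.δ i v)]

end

end Pool.Agent.SH.NSyl

namespace Pool.Agent.SH

open NSyl in
theorem n_syl : N_SYL_Stmt := by
  intro G _ _ S hS V q hq
  have : Fintype (G ⧸ S) := Fintype.ofFinite _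
  have hX : (Fintype.card (G ⧸ S) : ZMod 2) = 1 := by
    rw [← Nat.card_eq_fintype_card]
    exact (ZMod.natCast_eq_one_iff_odd).2 hS
  refine ⟨⟨qq q 0 fun _ => QuotientGroup.mk 1⟩, ?_, ?_⟩
  · intro z hz
    have hsub : ∀ v w : V _⦋0⦌, v = w := by
      intro v w
      obtain ⟨x, rfl⟩ := qq_surj q hq 0 v
      obtain ⟨y, rfl⟩ := qq_surj q hq 0 w
      obtain ⟨g, hg⟩ := MulAction.exists_smul_eq G (x 0) (y 0)
      rw [← qq_smul q hq 0 g x]
      congr 1
      funext i
      have hi : i = 0 := Fin.ext (by have := i.2; omega)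
      rw [hi]
      exact hg
    have : Subsingleton (V _⦋0⦌) := ⟨hsub⟩
    have hz0 : z = 0 := by
      set v0 : V _⦋0⦌ := qq q 0 fun _ => QuotientGroup.mk 1 with hv0
      have e : z = Finsupp.single v0 (z v0) := by
        ext v
        rw [Subsingleton.elim v v0]
        simp
      rw [e] at hz
      rw [Finsupp.sum_single_index rfl] at hz
      rw [e, hz, Finsupp.single_zero]
    refine ⟨0, ?_, ?_⟩
    · rw [hz0]
      exact Finsupp.mapDomain_zero
    · exact Finsupp.mapDomain_zero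
  · intro n z hz
    refine ⟨av q hq (n + 1) z, dF_av_zero q hq (n + 1) z hX, fun i => ?_⟩
    rw [dF_av_succ, hz i, av_zero]

end Pool.Agent.SH


end

section

/-!
# MP_2d0b73_an, Part III-N: quotients by free actions of finite `2`-groups
-/

set_option autoImplicit false

open CategoryTheory MonoidalCategory CartesianMonoidalCategory Simplicial Opposite

namespace Pool.Agent.SH

namespace NTwo

lemma app_comp {X Y Z : SSet.{0}} (f : X ⟶ Y) (g : Y ⟶ Z) (n : SimplexCategoryᵒᵖ) (x : X.obj n) :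
    (f ≫ g).app n x = g.app n (f.app n x) := rfl

lemma app_eq {X Y : SSet.{0}} {f g : X ⟶ Y} (h : f = g) (n : SimplexCategoryᵒᵖ) (x : X.obj n) :
    f.app n x = g.app n x := by rw [h]

lemma free_restr {G : Type} [Group G] {W : SSet.{0}} {a : Act G W} (h : a.Free)
    (H : Subgroup G) : (a.restr H).Free := by
  intro n x g hg
  exact Subtype.ext (h n x g hg)

/-- The case of the trivial group. -/
lemma base {P : MorphismProperty SSet.{0}} (hP : WClass P) (G : Type) [Group G]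
    (hG : Nat.card G = 1) (W V : SSet.{0}) (a : Act G W) (q : W ⟶ V) (hq : IsQuo a q)
    (hW : Acy P W) : Acy P V := by
  have hsub : Subsingleton G := (Nat.card_eq_one_iff_unique.1 hG).1
  have hiso : IsIso q := by
    rw [NatTrans.isIso_iff_isIso_app]
    intro n
    rw [isIso_iff_bijective]
    refine ⟨fun x y hxy => ?_, hq.surj n⟩
    obtain ⟨g, hg⟩ := (hq.fib n x y).1 hxy
    rw [Subsingleton.elim g 1, a.ap_one] at hg
    exact hg
  have h1 : P q := hP.iso q hiso
  have h2 : q ≫ toUnit V = toUnit W := Subsingleton.elim _ _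
  refine hP.cancelL q (toUnit V) h1 ?_
  rw [h2]
  exact hW

end NTwo

theorem n_two (h1 : N_QEX_Stmt) (h2 : N_QDESC_Stmt) (h3 : N_INV_Stmt) : N_TWO_Stmt := by
  intro P hP hB
  suffices H : ∀ (k : ℕ) (G : Type) [Group G], Nat.card G = 2 ^ k → ∀ (W V : SSet.{0})
      (a : Act G W) (q : W ⟶ V), a.Free → IsQuo a q → Acy P W → Acy P V from
    fun G _ k hk W V a q ha hq hW => H k G hk W V a q ha hq hW
  intro k
  induction k with
  | zero =>
    intro G _ hG W V a q _ hq hW
    exact NTwo.base hP G (by simpa using hG) W V a q hq hW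
  | succ k ih =>
    intro G _ hG W V a q ha hq hW
    have : Fact (Nat.Prime 2) := ⟨Nat.prime_two⟩
    have : Finite G := Nat.finite_of_card_ne_zero (by rw [hG]; positivity)
    obtain ⟨H, hH⟩ := Sylow.exists_subgroup_card_pow_prime (G := G) 2 (n := k)
      (by rw [hG]; exact pow_dvd_pow 2 (Nat.le_succ k))
    have hidx : H.index = 2 := by
      have h4 := H.card_mul_index
      rw [hH, hG, pow_succ] at h4
      exact Nat.eq_of_mul_eq_mul_left (by positivity) h4
    have hnorm : H.Normal := Subgroup.normal_of_index_eq_two hidx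
    have hmul : ∀ x y : G, x * y ∈ H ↔ (x ∈ H ↔ y ∈ H) := fun x y =>
      Subgroup.mul_mem_iff_of_index_two hidx
    obtain ⟨c, hc⟩ : ∃ c, c ∉ H := by
      by_contra hcon
      push Not at hcon
      have h4 : H = ⊤ := by
        rw [eq_top_iff]
        exact fun x _ => hcon x
      rw [h4, Subgroup.index_top] at hidx
      omega
    obtain ⟨V', q', hq'⟩ := h1 H W (a.restr H)
    have hV' : Acy P V' := ih H hH W V' (a.restr H) q' (NTwo.free_restr ha H) hq' hW
    obtain ⟨hd1, _⟩ := h2 H W V' V' (a.restr H) q' hq'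
    obtain ⟨hd2, _⟩ := h2 H W V' V (a.restr H) q' hq'
    obtain ⟨_, hu⟩ := h2 H W V' V' (a.restr H) q' hq'
    have hfib : ∀ (n : SimplexCategoryᵒᵖ) (x : W.obj n) (g : G), g ∈ H →
        q'.app n (a.ap g x) = q'.app n x := by
      intro n x g hg
      exact ((hq'.fib n x (a.ap g x)).2 ⟨⟨g, hg⟩, rfl⟩).symm
    obtain ⟨τ, hτ⟩ := hd1 (a.act c ≫ q') (by
      intro g
      ext n x
      show q'.app n (a.ap c (a.ap (g : G) x)) = q'.app n (a.ap c x)
      have h4 : a.ap c (a.ap (g : G) x) = a.ap (c * g * c⁻¹) (a.ap c x) := by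
        rw [← a.ap_mul, ← a.ap_mul]
        congr 1
        group
      rw [h4]
      exact hfib n _ _ (hnorm.conj_mem g g.2 c))
    have hτ' : ∀ (n : SimplexCategoryᵒᵖ) (x : W.obj n),
        τ.app n (q'.app n x) = q'.app n (a.ap c x) := fun n x => NTwo.app_eq hτ n x
    obtain ⟨r, hr⟩ := hd2 q (by
      intro g
      ext n x
      show q.app n (a.ap (g : G) x) = q.app n x
      exact ((hq.fib n x (a.ap (g : G) x)).2 ⟨g, rfl⟩).symm)
    have hr' : ∀ (n : SimplexCategoryᵒᵖ) (x : W.obj n), r.app n (q'.app n x) = q.app n x :=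
      fun n x => NTwo.app_eq hr n x
    refine h3 P hP hB V' V τ r ?_ ?_ ?_ ?_ hV'
    · refine hu _ _ ?_
      ext n x
      show τ.app n (τ.app n (q'.app n x)) = q'.app n x
      rw [hτ', hτ', ← a.ap_mul]
      exact hfib n x _ ((hmul c c).2 Iff.rfl)
    · intro n y hy
      obtain ⟨x, rfl⟩ := hq'.surj n y
      rw [hτ'] at hy
      obtain ⟨g, hg⟩ := (hq'.fib n _ _).1 hy
      have h4 : a.ap ((g : G) * c) x = x := by
        rw [a.ap_mul]
        exact hg
      have h5 := ha n x _ h4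
      have h6 : c = (g : G)⁻¹ := (inv_eq_of_mul_eq_one_right h5).symm
      exact hc (h6 ▸ H.inv_mem g.2)
    · intro n y
      obtain ⟨x, rfl⟩ := hq.surj n y
      exact ⟨q'.app n x, hr' n x⟩
    · intro n x y
      obtain ⟨x, rfl⟩ := hq'.surj n x
      obtain ⟨y, rfl⟩ := hq'.surj n y
      rw [hr', hr', hτ']
      constructor
      · intro h
        obtain ⟨g, hg⟩ := (hq.fib n x y).1 h
        by_cases hgH : g ∈ H
        · left
          rw [← hg]
          exact hfib n x g hgH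
        · right
          have h4 : y = a.ap (g * c⁻¹) (a.ap c x) := by
            rw [← a.ap_mul, inv_mul_cancel_right, hg]
          rw [h4]
          refine hfib n _ _ ((hmul _ _).2 ⟨fun h => absurd h hgH, fun h => ?_⟩)
          exact absurd ((inv_mem_iff).1 h) hc
      · rintro (h | h)
        · rw [← hr' n x, ← hr' n y, h]
        · rw [← hr' n x, ← hr' n y, h, hr', hr']
          exact (hq.fib n _ _).2 ⟨c, rfl⟩

end Pool.Agent.SH


end

section

/-!
# MP_2d0b73_an, Part III-N, (F9): simplicial commutative monoids with bijective doubling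
-/

set_option autoImplicit false

open CategoryTheory MonoidalCategory CartesianMonoidalCategory Simplicial Opposite

namespace Pool.Agent.SH

namespace NUd

/-- The product of the monoid algebra over `F₂`. -/
noncomputable def cp {M : Type} [AddCommMonoid M] (u v : M →₀ ZMod 2) : M →₀ ZMod 2 :=
  (AddMonoidAlgebra.ofCoeff u * AddMonoidAlgebra.ofCoeff v).coeff

theorem cp_zero_left {M : Type} [AddCommMonoid M] (v : M →₀ ZMod 2) : cp 0 v = 0 := by
  have h : (AddMonoidAlgebra.ofCoeff (0 : M →₀ ZMod 2)) = 0 := rfl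
  rw [cp, h, zero_mul]
  rfl

theorem cp_zero_right {M : Type} [AddCommMonoid M] (v : M →₀ ZMod 2) : cp v 0 = 0 := by
  have h : (AddMonoidAlgebra.ofCoeff (0 : M →₀ ZMod 2)) = 0 := rfl
  rw [cp, h, mul_zero]
  rfl

theorem cp_map {M N : Type} [AddCommMonoid M] [AddCommMonoid N] (f : M → N)
    (hf : ∀ x y, f (x + y) = f x + f y) (u v : M →₀ ZMod 2) :
    (cp u v).mapDomain f = cp (u.mapDomain f) (v.mapDomain f) := by
  let g : AddHom M N := ⟨f, hf⟩
  exact congrArg AddMonoidAlgebra.coeff (AddMonoidAlgebra.mapDomain_mul (R := ZMod 2) g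
    (AddMonoidAlgebra.ofCoeff u) (AddMonoidAlgebra.ofCoeff v))

theorem cp_self {M : Type} [AddCommMonoid M] (u : M →₀ ZMod 2) :
    cp u u = u.mapDomain (fun x => x + x) := by
  have h : ∀ v : AddMonoidAlgebra (ZMod 2) M,
      v * v = AddMonoidAlgebra.mapDomain (fun x => x + x) v := by
    intro v
    induction v using AddMonoidAlgebra.induction_linear with
    | zero => simp
    | add f g hf hg =>
      have h2 : g * f + f * g = 0 := by
        rw [mul_comm g f]
        exact ZModModule.add_self _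
      rw [AddMonoidAlgebra.mapDomain_add, ← hf, ← hg, add_mul, mul_add, mul_add]
      calc f * f + f * g + (g * f + g * g) = f * f + g * g + (g * f + f * g) := by ring
        _ = _ := by rw [h2, add_zero]
    | single a b =>
      have hb : b * b = b := by
        revert b
        decide
      rw [AddMonoidAlgebra.mapDomain_single, AddMonoidAlgebra.single_mul_single, hb]
  exact congrArg AddMonoidAlgebra.coeff (h (AddMonoidAlgebra.ofCoeff u))

theorem add_self' {M : Type} (u : M →₀ ZMod 2) : u + u = 0 := ZModModule.add_self u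

end NUd

open NUd in
theorem n_ud : N_UD_Stmt := by
  intro X inst hadd hbij n z hz
  classical
  -- halving
  let e : ∀ m, X.obj m ≃ X.obj m := fun m => Equiv.ofBijective _ (hbij m)
  have he : ∀ m (x : X.obj m), e m x = x + x := fun m x => rfl
  have hnat : ∀ (m k : SimplexCategoryᵒᵖ) (θ : m ⟶ k) (x : X.obj m),
      X.map θ ((e m).symm x) = (e k).symm (X.map θ x) := by
    intro m k θ x
    rw [Equiv.eq_symm_apply, he, ← hadd, ← he, Equiv.apply_symm_apply]
  let z' : X _⦋n + 1⦌ →₀ ZMod 2 := z.mapDomain (e _).symm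
  have hz'z : cp z' z' = z := by
    rw [cp_self, ← Finsupp.mapDomain_comp]
    have : (fun x : X _⦋n + 1⦌ => x + x) ∘ (e _).symm = id := by
      funext x
      exact (e _).apply_symm_apply x
    rw [this, Finsupp.mapDomain_id]
  have hz' : ∀ i : Fin (n + 2), z'.mapDomain (X.δ i) = 0 := by
    intro i
    have h1 : (X.δ i : X _⦋n + 1⦌ → X _⦋n⦌) ∘ (e _).symm = (e _).symm ∘ (X.δ i) := by
      funext x
      exact hnat _ _ _ x
    rw [← Finsupp.mapDomain_comp, h1, Finsupp.mapDomain_comp]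
    have h2 : z.mapDomain (X.δ i) = 0 := hz i
    rw [h2, Finsupp.mapDomain_zero]
  have hcp : ∀ (i : Fin (n + 3)) (u v : X _⦋n + 2⦌ →₀ ZMod 2),
      (cp u v).mapDomain (X.δ i) = cp (u.mapDomain (X.δ i)) (v.mapDomain (X.δ i)) :=
    fun i u v => cp_map _ (fun x y => hadd _ _ _ x y) u v
  -- the operators
  have k00 : ∀ u : X _⦋n + 1⦌ →₀ ZMod 2,
      (u.mapDomain (X.σ (0 : Fin (n + 2)))).mapDomain (X.δ (0 : Fin (n + 3))) = u := by
    intro u
    rw [← Finsupp.mapDomain_comp]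
    have h := X.δ_comp_σ_self (i := (0 : Fin (n + 2)))
    have : (X.δ (0 : Fin (n + 3)) : X _⦋n + 2⦌ → X _⦋n + 1⦌) ∘ (X.σ (0 : Fin (n + 2))) = id := by
      funext x
      exact ConcreteCategory.congr_hom h x
    rw [this, Finsupp.mapDomain_id]
  have k01 : ∀ u : X _⦋n + 1⦌ →₀ ZMod 2,
      (u.mapDomain (X.σ (0 : Fin (n + 2)))).mapDomain (X.δ (1 : Fin (n + 3))) = u := by
    intro u
    rw [← Finsupp.mapDomain_comp]
    have h := X.δ_comp_σ_succ (i := (0 : Fin (n + 2)))
    have : (X.δ (1 : Fin (n + 3)) : X _⦋n + 2⦌ → X _⦋n + 1⦌) ∘ (X.σ (0 : Fin (n + 2))) = id := by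
      funext x
      exact ConcreteCategory.congr_hom h x
    rw [this, Finsupp.mapDomain_id]
  have k11 : ∀ u : X _⦋n + 1⦌ →₀ ZMod 2,
      (u.mapDomain (X.σ (1 : Fin (n + 2)))).mapDomain (X.δ (1 : Fin (n + 3))) = u := by
    intro u
    rw [← Finsupp.mapDomain_comp]
    have h := X.δ_comp_σ_self (i := (1 : Fin (n + 2)))
    have : (X.δ (1 : Fin (n + 3)) : X _⦋n + 2⦌ → X _⦋n + 1⦌) ∘ (X.σ (1 : Fin (n + 2))) = id := by
      funext x
      exact ConcreteCategory.congr_hom h x
    rw [this, Finsupp.mapDomain_id]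
  have k10 : ∀ u : X _⦋n + 1⦌ →₀ ZMod 2, (∀ i : Fin (n + 2), u.mapDomain (X.δ i) = 0) →
      (u.mapDomain (X.σ (1 : Fin (n + 2)))).mapDomain (X.δ (0 : Fin (n + 3))) = 0 := by
    intro u hu
    rw [← Finsupp.mapDomain_comp]
    have h := X.δ_comp_σ_of_le (i := (0 : Fin (n + 2))) (j := (0 : Fin (n + 1))) (Fin.zero_le _)
    have : (X.δ (0 : Fin (n + 3)) : X _⦋n + 2⦌ → X _⦋n + 1⦌) ∘ (X.σ (1 : Fin (n + 2))) =
        (X.σ (0 : Fin (n + 1))) ∘ (X.δ (0 : Fin (n + 2))) := by
      funext x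
      exact ConcreteCategory.congr_hom h x
    rw [this, Finsupp.mapDomain_comp, hu, Finsupp.mapDomain_zero]
  have ki0 : ∀ u : X _⦋n + 1⦌ →₀ ZMod 2, (∀ i : Fin (n + 2), u.mapDomain (X.δ i) = 0) →
      ∀ i : Fin (n + 2), 0 < i →
      (u.mapDomain (X.σ (0 : Fin (n + 2)))).mapDomain (X.δ i.succ) = 0 := by
    intro u hu i hi
    rw [← Finsupp.mapDomain_comp]
    have h := X.δ_comp_σ_of_gt (i := i) (j := (0 : Fin (n + 1))) hi
    have : (X.δ i.succ : X _⦋n + 2⦌ → X _⦋n + 1⦌) ∘ (X.σ (0 : Fin (n + 2))) =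
        (X.σ (0 : Fin (n + 1))) ∘ (X.δ i) := by
      funext x
      exact ConcreteCategory.congr_hom h x
    rw [this, Finsupp.mapDomain_comp, hu, Finsupp.mapDomain_zero]
  refine ⟨cp (z'.mapDomain (X.σ (0 : Fin (n + 2)))) (z'.mapDomain (X.σ (1 : Fin (n + 2)))) +
    z.mapDomain (X.σ (0 : Fin (n + 2))), ?_, fun i => ?_⟩
  · rw [dF, Finsupp.mapDomain_add, hcp, k00, k10 _ hz', cp_zero_right, zero_add, k00]
  · rcases Fin.eq_zero_or_eq_succ i with rfl | ⟨j, rfl⟩
    · have h1 : (Fin.succ (0 : Fin (n + 2))) = (1 : Fin (n + 3)) := rfl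
      rw [h1, dF, Finsupp.mapDomain_add, hcp, k01, k11, hz'z, k01]
      exact add_self' z
    · rw [dF, Finsupp.mapDomain_add, hcp, ki0 _ hz' _ (Fin.succ_pos j), cp_zero_left, zero_add,
        ki0 _ hz _ (Fin.succ_pos j)]

end Pool.Agent.SH


end

section

/-!
# MP_2d0b73_an: assembly of part III
-/

set_option autoImplicit false

open CategoryTheory MonoidalCategory CartesianMonoidalCategory Simplicial Opposite

namespace Pool.Agent.SH

/-- What the block III-T delivers. -/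
def Stmt_TT : Prop := ∀ M : ℕ, 3 ≤ M → ∃ (T : SSet.{0}) (e : NP (P0 M) ⟶ T),
  (∀ (A B : SSet.{0}) (i : A ⟶ B), Mono i → F2Iso i → ∀ u : A ⟶ T, ∃ v : B ⟶ T, i ≫ v = u) ∧
  TCompact T ∧ BInput (W T) ∧ ¬ Null e

theorem mono_vert {X : SSet.{0}} (x : X _⦋0⦌) : Mono (vert x) :=
  SSet.stdSimplex.isTerminalObj₀.mono_from _

theorem tacyclic_of_W {T X : SSet.{0}} (hK : SSet.KanComplex T) (h3 : TE_KEY_Stmt)
    (hW : WClass (W T)) (x : X _⦋0⦌) (hX : W T (toUnit X)) : TAcyclic T X := by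
  have h1 : IsIso (vert x ≫ toUnit X) := by
    have e : vert x ≫ toUnit X = toUnit Δ[0] := toUnit_unique _ _
    rw [e]
    exact Limits.isIso_of_isTerminal SSet.stdSimplex.isTerminalObj₀ isTerminalTensorUnit _
  have h2 : W T (vert x) := hW.cancelR _ _ hX (hW.iso _ h1)
  have := mono_vert x
  have h4 := h3 T hK _ _ (vert x) (mono_vert x) h2
  refine ⟨x, mono_vert x, ?_⟩
  intro n u v huv
  exact h4 _ _ (∂Δ[n] : (Δ[n] : SSet.{0}).Subcomplex).ι u v huv

theorem ASM3 (h1 : TE_F2_Stmt) (h2 : TE_WT_Stmt) (h3 : TE_KEY_Stmt) (h4 : N_MAIN_Stmt)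
    (h5 : Stmt_TT) : Stmt_PARTIII := by
  intro M hM
  obtain ⟨T, e, hL, hC, hB, he⟩ := h5 M hM
  obtain ⟨hK, hF⟩ := h1 T hL
  have hW := h2 T hK
  have hN : W T (toUnit (NO (LL (Sph 2)))) := h4 (W T) hW hF hB
  have hN' : W T (toUnit (NP (LL (Sph 2)))) := by
    have e1 : (NOnerve (LL (Sph 2))).hom ≫ toUnit (NP (LL (Sph 2))) =
        toUnit (NO (LL (Sph 2))) := toUnit_unique _ _
    have e2 : IsIso (NOnerve (LL (Sph 2))).hom := inferInstance
    exact hW.cancelL _ _ (hW.iso _ e2) (e1 ▸ hN)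
  refine ⟨T, e, hK, hC, ?_, he⟩
  exact tacyclic_of_W hK h3 hW ((NOnerve (LL (Sph 2))).hom.app _
    (OrderHom.const _ (LL.one (0 : Sph 2)))) hN'

end Pool.Agent.SH


end

section

/-!
# MP_2d0b73_an, block III-T: the cosimplicial object of a monad
-/

open CategoryTheory

noncomputable section

namespace Pool.Agent.SH.TT

universe v u

variable {C : Type u} [Category.{v} C] (T : Monad C)

/-- Iterates of (the functor of) a monad; the last one applied is outermost. -/
def it : ℕ → (C ⥤ C)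
  | 0 => 𝟭 C
  | n + 1 => it n ⋙ T.toFunctor

/-- Removing the value `0` from a monotone map. -/
def prd {a b : ℕ} (θ : Fin (a + 1) →o Fin (b + 1)) (h : θ 0 ≠ 0) : Fin (a + 1) →o Fin b where
  toFun i := (θ i).pred (fun hi => h (le_antisymm (hi ▸ θ.monotone (Fin.zero_le i))
    (Fin.zero_le _)))
  monotone' _ _ hij := Fin.pred_le_pred_iff.mpr (θ.monotone hij)

/-- Restriction of a monotone map to the non-zero elements. -/
def scc {a b : ℕ} (θ : Fin (a + 1) →o Fin b) : Fin a →o Fin b where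
  toFun i := θ i.succ
  monotone' _ _ hij := θ.monotone (Fin.succ_le_succ_iff.mpr hij)

/-- The empty monotone map. -/
def emp (b : ℕ) : Fin 0 →o Fin b := ⟨fun i => i.elim0, fun i => i.elim0⟩

section
variable (X : C)

/-- The iterates on an object. -/
abbrev iob (n : ℕ) : C := (it T n).obj X

/-- The unit. -/
def et (b : ℕ) : iob T X b ⟶ iob T X (b + 1) := T.η.app ((it T b).obj X)

/-- The multiplication. -/
def mu (b : ℕ) : iob T X (b + 2) ⟶ iob T X (b + 1) := T.μ.app ((it T b).obj X)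

variable {X} in
/-- The functor of the monad. -/
def tm {a b : ℕ} (f : iob T X a ⟶ iob T X b) : iob T X (a + 1) ⟶ iob T X (b + 1) := T.map f

theorem tm_comp {a b c : ℕ} (f : iob T X a ⟶ iob T X b) (g : iob T X b ⟶ iob T X c) :
    tm T (f ≫ g) = tm T f ≫ tm T g := T.map_comp f g

theorem tm_id (a : ℕ) : tm T (𝟙 (iob T X a)) = 𝟙 (iob T X (a + 1)) := T.map_id _

theorem et_nat {a b : ℕ} (f : iob T X a ⟶ iob T X b) : et T X a ≫ tm T f = f ≫ et T X b :=
  (T.η.naturality f).symm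

theorem mu_nat {a b : ℕ} (f : iob T X a ⟶ iob T X b) :
    mu T X a ≫ tm T f = tm T (tm T f) ≫ mu T X b :=
  (T.μ.naturality f).symm

theorem et_mu (b : ℕ) : et T X (b + 1) ≫ mu T X b = 𝟙 _ := T.left_unit _

theorem tet_mu (b : ℕ) : tm T (et T X b) ≫ mu T X b = 𝟙 _ := T.right_unit _

theorem mu_mu (b : ℕ) : tm T (mu T X b) ≫ mu T X b = mu T X (b + 1) ≫ mu T X b := T.assoc _

/-- The structure maps `T^a X ⟶ T^b X` for monotone maps `Fin a → Fin b`. -/
def Fm : ∀ (b a : ℕ), (Fin a →o Fin b) → (iob T X a ⟶ iob T X b)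
  | 0, 0, _ => 𝟙 _
  | 0, _ + 1, θ => (θ 0).elim0
  | b + 1, 0, _ => Fm b 0 (emp b) ≫ et T X b
  | b + 1, a + 1, θ =>
    if h : θ 0 = 0 then tm T (Fm (b + 1) a (scc θ)) ≫ mu T X b
    else Fm b (a + 1) (prd θ h) ≫ et T X b

theorem Fm_zero (b : ℕ) (θ : Fin 0 →o Fin (b + 1)) :
    Fm T X (b + 1) 0 θ = Fm T X b 0 (emp b) ≫ et T X b := by
  conv_lhs => unfold Fm

theorem Fm_of_eq (b a : ℕ) (θ : Fin (a + 1) →o Fin (b + 1)) (h : θ 0 = 0) :
    Fm T X (b + 1) (a + 1) θ = tm T (Fm T X (b + 1) a (scc θ)) ≫ mu T X b := by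
  conv_lhs => unfold Fm
  exact dif_pos h

theorem Fm_of_ne (b a : ℕ) (θ : Fin (a + 1) →o Fin (b + 1)) (h : θ 0 ≠ 0) :
    Fm T X (b + 1) (a + 1) θ = Fm T X b (a + 1) (prd θ h) ≫ et T X b := by
  conv_lhs => unfold Fm
  exact dif_neg h

/-- Case `0 ∉ im θ`, uniformly in `a`: if `θ = succ ∘ θ'` then `F θ = F θ' ≫ η`. -/
theorem Fm_succ (b a : ℕ) (θ : Fin a →o Fin (b + 1)) (θ' : Fin a →o Fin b)
    (h : ∀ i, θ i = (θ' i).succ) :
    Fm T X (b + 1) a θ = Fm T X b a θ' ≫ et T X b := by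
  cases a with
  | zero =>
    rw [Fm_zero]
    congr 2
    ext i
    exact i.elim0
  | succ a =>
    have h0 : θ 0 ≠ 0 := by rw [h]; exact Fin.succ_ne_zero _
    rw [Fm_of_ne T X b a θ h0]
    congr 2
    ext i
    show ((θ i).pred (fun hi => h0 (le_antisymm (hi ▸ θ.monotone (Fin.zero_le i))
      (Fin.zero_le _))) : ℕ) = _
    simp [h]

/-- Case `θ 0 = 0`: `F θ` is a map of algebras. -/
theorem mu_Fm (c b : ℕ) (φ : Fin (b + 1) →o Fin (c + 1)) (hφ : φ 0 = 0) :
    mu T X b ≫ Fm T X (c + 1) (b + 1) φ = tm T (Fm T X (c + 1) (b + 1) φ) ≫ mu T X c := by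
  rw [Fm_of_eq T X c b φ hφ, ← Category.assoc, mu_nat, Category.assoc, ← mu_mu,
    ← Category.assoc, ← tm_comp]

theorem et_Fm (c b : ℕ) (φ : Fin (b + 1) →o Fin (c + 1)) (hφ : φ 0 = 0) :
    et T X b ≫ Fm T X (c + 1) (b + 1) φ = Fm T X (c + 1) b (scc φ) := by
  rw [Fm_of_eq T X c b φ hφ, ← Category.assoc, et_nat, Category.assoc, et_mu, Category.comp_id]

theorem Fm_comp : ∀ (c b a : ℕ) (θ : Fin a →o Fin b) (φ : Fin b →o Fin c),
    Fm T X b a θ ≫ Fm T X c b φ = Fm T X c a (φ.comp θ)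
  | c, 0, 0, θ, φ => by
    have h : Fm T X 0 0 θ = 𝟙 _ := by unfold Fm; rfl
    have h2 : φ.comp θ = φ := by ext i; exact i.elim0
    rw [h, h2, Category.id_comp]
  | _, 0, _ + 1, θ, _ => (θ 0).elim0
  | 0, b + 1, _, _, φ => (φ 0).elim0
  | c + 1, b + 1, 0, θ, φ => by
    by_cases hφ : φ 0 = 0
    · rw [Fm_zero, Category.assoc, et_Fm T X c b φ hφ, Fm_comp (c + 1) b 0]
      congr 1
      ext i
      exact i.elim0
    · rw [Fm_of_ne T X c b φ hφ, ← Category.assoc, Fm_comp c (b + 1) 0, Fm_zero T X c]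
      congr 2
      ext i
      exact i.elim0
  | c + 1, b + 1, a + 1, θ, φ => by
    by_cases hθ : θ 0 = 0
    · by_cases hφ : φ 0 = 0
      · have h0 : (φ.comp θ) 0 = 0 := by
          show φ (θ 0) = 0
          rw [hθ, hφ]
        rw [Fm_of_eq T X b a θ hθ, Fm_of_eq T X c a (φ.comp θ) h0, Category.assoc,
          mu_Fm T X c b φ hφ, ← Category.assoc, ← tm_comp, Fm_comp (c + 1) (b + 1) a]
        rfl
      · have h0 : (φ.comp θ) 0 ≠ 0 := by
          show φ (θ 0) ≠ 0
          rw [hθ]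
          exact hφ
        rw [Fm_of_ne T X c b φ hφ, Fm_of_ne T X c a (φ.comp θ) h0, ← Category.assoc,
          Fm_comp c (b + 1) (a + 1)]
        rfl
    · have h5 : (scc φ).comp (prd θ hθ) = φ.comp θ := by
        ext i
        exact congrArg (fun x => ((φ x : Fin (c + 1)) : ℕ)) (Fin.succ_pred (θ i)
          (fun hi => hθ (le_antisymm (hi ▸ θ.monotone (Fin.zero_le _)) (Fin.zero_le _))))
      by_cases hφ : φ 0 = 0
      · rw [Fm_of_ne T X b a θ hθ, Category.assoc, et_Fm T X c b φ hφ,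
          Fm_comp (c + 1) b (a + 1), h5]
      · rw [Fm_of_ne T X c b φ hφ, ← Category.assoc, Fm_comp c (b + 1) (a + 1)]
        symm
        apply Fm_succ
        intro i
        exact (Fin.succ_pred _ (fun hi => hφ (le_antisymm
          (hi ▸ φ.monotone (Fin.zero_le _)) (Fin.zero_le _)))).symm
  termination_by c b a => a + b + c

theorem Fm_id : ∀ (a : ℕ), Fm T X a a OrderHom.id = 𝟙 _
  | 0 => by unfold Fm; rfl
  | a + 1 => by
    rw [Fm_of_eq T X a a _ rfl]
    have h1 : Fm T X (a + 1) a (scc OrderHom.id) = Fm T X a a OrderHom.id ≫ et T X a := by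
      apply Fm_succ
      intro i
      rfl
    rw [h1, Fm_id a, Category.id_comp, tet_mu]

end

/-- Naturality in the object. -/
theorem Fm_nat {X Y : C} (f : X ⟶ Y) : ∀ (b a : ℕ) (θ : Fin a →o Fin b),
    (it T a).map f ≫ Fm T Y b a θ = Fm T X b a θ ≫ (it T b).map f
  | 0, 0, _ => by unfold Fm; rw [Category.comp_id, Category.id_comp]
  | 0, _ + 1, θ => (θ 0).elim0
  | b + 1, 0, θ => by
    rw [Fm_zero, Fm_zero, ← Category.assoc, Fm_nat f b 0, Category.assoc, Category.assoc]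
    congr 1
    exact T.η.naturality ((it T b).map f)
  | b + 1, a + 1, θ => by
    by_cases h : θ 0 = 0
    · rw [Fm_of_eq T _ b a θ h, Fm_of_eq T _ b a θ h, ← Category.assoc]
      have h1 : (it T (a + 1)).map f ≫ tm T (Fm T Y (b + 1) a (scc θ)) =
          tm T (Fm T X (b + 1) a (scc θ)) ≫ (it T (b + 2)).map f := by
        have h2 := Fm_nat f (b + 1) a (scc θ)
        have h3 := congrArg T.map h2
        rw [T.map_comp, T.map_comp] at h3
        exact h3
      have h4 : (it T (b + 2)).map f ≫ mu T Y b = mu T X b ≫ (it T (b + 1)).map f :=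
        T.μ.naturality ((it T b).map f)
      rw [h1, Category.assoc, h4, Category.assoc]
    · rw [Fm_of_ne T _ b a θ h, Fm_of_ne T _ b a θ h, ← Category.assoc, Fm_nat f b (a + 1),
        Category.assoc, Category.assoc]
      congr 1
      exact T.η.naturality ((it T b).map f)
  termination_by b a => a + b

/-- The cosimplicial resolution functor `[s] ↦ T^(s+1)`. -/
def reso : SimplexCategory ⥤ (C ⥤ C) where
  obj s := it T (s.len + 1)
  map θ := { app := fun X => Fm T X _ _ θ.toOrderHom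
             naturality := fun _ _ f => Fm_nat T f _ _ _ }
  map_id s := by
    ext X
    exact Fm_id T X (s.len + 1)
  map_comp θ φ := by
    ext X
    exact (Fm_comp T X _ _ _ θ.toOrderHom φ.toOrderHom).symm

end Pool.Agent.SH.TT

end

end

section

/-!
# MP_2d0b73_an, block III-T: the cosimplicial resolution `X^s = R^(s+1)(Δ^m/∂Δ^m)`

`R A` is the `F_2`-vector space of finitely supported functions on the pointed set `A` with sum
zero (the free vector space on `A` modulo the base point, `a ↦ [a] + [*]`).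
-/

open CategoryTheory Opposite

noncomputable section

namespace Pool.Agent.SH.TT

/-- The augmentation of `F_2[A]`. -/
def aug (A : Type) : (A →₀ ZMod 2) →ₗ[ZMod 2] ZMod 2 :=
  Finsupp.linearCombination (ZMod 2) (fun _ : A => (1 : ZMod 2))

/-- The augmentation kernel. -/
abbrev AugK (A : Type) : Submodule (ZMod 2) (A →₀ ZMod 2) := LinearMap.ker (aug A)

theorem aug_mapDomain {A B : Type} (f : A → B) (z : A →₀ ZMod 2) :
    aug B (z.mapDomain f) = aug A z := by
  simp only [aug]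
  rw [Finsupp.linearCombination_mapDomain]
  rfl

/-- Functoriality of the augmentation kernel. -/
def augMap {A B : Type} (f : A → B) : AugK A →ₗ[ZMod 2] AugK B :=
  (Finsupp.lmapDomain (ZMod 2) (ZMod 2) f).restrict (fun z hz => by
    rw [LinearMap.mem_ker] at hz ⊢
    exact (aug_mapDomain f z).trans hz)

theorem augMap_coe {A B : Type} (f : A → B) (z : AugK A) :
    ((augMap f z : AugK B) : B →₀ ZMod 2) = (z : A →₀ ZMod 2).mapDomain f := rfl

/-- The reduced free vector space functor. -/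
def LinP : Pointed.{0} ⥤ ModuleCat.{0} (ZMod 2) where
  obj A := ModuleCat.of (ZMod 2) (AugK A.X)
  map f := ModuleCat.ofHom (augMap f.toFun)
  map_id A := by
    ext z
    simp [augMap_coe]
  map_comp f g := by
    ext z
    simp [augMap_coe, Finsupp.mapDomain_comp]

/-- The underlying pointed set of a vector space. -/
def UP : ModuleCat.{0} (ZMod 2) ⥤ Pointed.{0} where
  obj V := ⟨V, 0⟩
  map f := ⟨f.hom, map_zero f.hom⟩

/-- The element `[a] + [*]`. -/
def brk {A : Type} (p a : A) : AugK A :=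
  ⟨Finsupp.single a 1 + Finsupp.single p 1, by
    rw [LinearMap.mem_ker, map_add]
    simp only [aug, Finsupp.linearCombination_single]
    decide⟩

/-- The linear extension of a pointed map. -/
def lext {A : Type} {V : ModuleCat.{0} (ZMod 2)} (f : A → V) : AugK A →ₗ[ZMod 2] V :=
  (Finsupp.linearCombination (ZMod 2) f).comp (AugK A).subtype

theorem lext_brk {A : Type} {V : ModuleCat.{0} (ZMod 2)} (f : A → V) (p a : A) (h : f p = 0) :
    lext f (brk p a) = f a := by
  simp [lext, brk, h]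

theorem linComb_brk {A : Type} (p : A) (z : AugK A) :
    Finsupp.linearCombination (ZMod 2) (brk p) (z : A →₀ ZMod 2) = z := by
  apply Subtype.ext
  have h1 : ((Finsupp.linearCombination (ZMod 2) (brk p) (z : A →₀ ZMod 2) : AugK A) :
      A →₀ ZMod 2) = (AugK A).subtype (Finsupp.linearCombination (ZMod 2) (brk p) z.1) := rfl
  rw [h1, Finsupp.apply_linearCombination]
  have h2 : (⇑(AugK A).subtype ∘ brk p) = fun a => Finsupp.single a (1 : ZMod 2) +
      Finsupp.single p (1 : ZMod 2) := by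
    funext a
    rfl
  rw [h2]
  have h3 : (aug A) z.1 = 0 := LinearMap.mem_ker.1 z.2
  simp only [Finsupp.linearCombination_apply, aug] at h3 ⊢
  simp only [smul_add, Finsupp.smul_single, smul_eq_mul, mul_one] at h3 ⊢
  rw [Finsupp.sum_add]
  have h4 : (z.1.sum fun a b => Finsupp.single a b) = z.1 := Finsupp.sum_single z.1
  have h5 : (z.1.sum fun _ b => Finsupp.single p b) = Finsupp.single p (z.1.sum fun _ b => b) := by
    simp only [Finsupp.sum]
    rw [← Finsupp.single_finsetSum]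
  rw [h4, h5, h3]
  simp

theorem brk_self {A : Type} (p : A) : brk p p = 0 := by
  apply Subtype.ext
  show Finsupp.single p (1 : ZMod 2) + Finsupp.single p 1 = 0
  rw [← Finsupp.single_add]
  have : (1 : ZMod 2) + 1 = 0 := by decide
  rw [this, Finsupp.single_zero]

theorem lext_comp_brk {A : Type} {V : ModuleCat.{0} (ZMod 2)} (p : A)
    (g : AugK A →ₗ[ZMod 2] V) : lext (V := V) (fun a => g (brk p a)) = g := by
  ext z
  have h := Finsupp.apply_linearCombination (ZMod 2) g (brk p) z.1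
  have h2 := linComb_brk p z
  rw [h2] at h
  exact h.symm

theorem lext_augMap {A B : Type} {V : ModuleCat.{0} (ZMod 2)} (f : A → B) (g : B → V) :
    lext (V := V) (g ∘ f) = (lext (V := V) g).comp (augMap f) := by
  ext z
  show Finsupp.linearCombination (ZMod 2) (g ∘ f) z.1 =
    Finsupp.linearCombination (ZMod 2) g (Finsupp.mapDomain f z.1)
  rw [Finsupp.linearCombination_mapDomain]

/-- The adjunction. -/
def adjP : LinP ⊣ UP := Adjunction.mkOfHomEquiv
  { homEquiv := fun A V =>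
      { toFun := fun g => ⟨fun a => (g.hom : AugK A.X →ₗ[ZMod 2] V) (brk A.point a), by
          have h := brk_self A.point
          exact (congrArg (g.hom : AugK A.X →ₗ[ZMod 2] V) h).trans
            (map_zero (g.hom : AugK A.X →ₗ[ZMod 2] V))⟩
        invFun := fun f => ModuleCat.ofHom (lext (V := V) f.toFun)
        left_inv := by
          intro g
          apply ModuleCat.hom_ext
          exact lext_comp_brk A.point (g.hom : AugK A.X →ₗ[ZMod 2] V)
        right_inv := by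
          intro f
          apply Pointed.Hom.ext
          funext a
          exact lext_brk (V := V) f.toFun A.point a f.map_point }
    homEquiv_naturality_left_symm := by
      intro A B V f g
      apply ModuleCat.hom_ext
      exact lext_augMap (V := V) f.toFun g.toFun
    homEquiv_naturality_right := by
      intro A V W g h
      rfl }

/-- The monad `R` on pointed sets. -/
def RM : CategoryTheory.Monad Pointed.{0} := adjP.toMonad

open scoped Classical in
/-- The pointed simplicial set `Δ^m / ∂Δ^m`. -/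
def Sph (m : ℕ) : Dop ⥤ Pointed.{0} where
  obj k := ⟨Option {t : bx m ⟶ k // ¬ Bdy t}, none⟩
  map {k l} α := ⟨fun x => x.bind (fun t =>
    if h : ¬ Bdy (t.1 ≫ α) then some ⟨t.1 ≫ α, h⟩ else none), rfl⟩
  map_id k := by
    apply Pointed.Hom.ext
    funext x
    cases x with
    | none => rfl
    | some t =>
      have h : ¬ Bdy (t.1 ≫ 𝟙 k) := by rw [Category.comp_id]; exact t.2
      show (if h : ¬ Bdy (t.1 ≫ 𝟙 k) then
        some (⟨t.1 ≫ 𝟙 k, h⟩ : {t : bx m ⟶ k // ¬ Bdy t}) else none) = some t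
      rw [dif_pos h]
      simp
  map_comp {k l r} α β := by
    apply Pointed.Hom.ext
    funext x
    cases x with
    | none => rfl
    | some t =>
      show (if h : ¬ Bdy (t.1 ≫ α ≫ β) then
        some (⟨t.1 ≫ α ≫ β, h⟩ : {t : bx m ⟶ r // ¬ Bdy t}) else none) =
        (if h : ¬ Bdy (t.1 ≫ α) then some (⟨t.1 ≫ α, h⟩ : {t : bx m ⟶ l // ¬ Bdy t})
          else none).bind (fun t => if h : ¬ Bdy (t.1 ≫ β) then
            some (⟨t.1 ≫ β, h⟩ : {t : bx m ⟶ r // ¬ Bdy t}) else none)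
      by_cases h1 : Bdy (t.1 ≫ α)
      · have h2 : Bdy (t.1 ≫ α ≫ β) := by
          intro hs
          apply h1
          have h3 : (t.1 ≫ α ≫ β).unop.toOrderHom =
              (t.1 ≫ α).unop.toOrderHom.comp β.unop.toOrderHom := by
            rw [← Category.assoc]
            rfl
          rw [h3] at hs
          intro y
          obtain ⟨x, hx⟩ := hs y
          exact ⟨_, hx⟩
        rw [dif_neg (not_not.2 h1), dif_neg (not_not.2 h2)]
        rfl
      · rw [dif_pos h1]
        by_cases h2 : Bdy (t.1 ≫ α ≫ β)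
        · rw [dif_neg (not_not.2 h2)]
          show none = dite _ _ _
          rw [dif_neg]
          rw [not_not, Category.assoc]
          exact h2
        · rw [dif_pos h2]
          show _ = dite _ _ _
          have h3 : ¬ Bdy ((t.1 ≫ α) ≫ β) := by rw [Category.assoc]; exact h2
          rw [dif_pos h3]
          simp [Category.assoc]

/-- The simplicial vector space `V^s = R^(s+1) S`. -/
def XV (m s : ℕ) : SV := (Sph m ⋙ it RM s) ⋙ LinP

/-- The cosimplicial space `R^(•+1) S` (cofaces). -/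
def XD (m : ℕ) : CoV where
  V s := XV m s
  cof s i k := (((reso RM).map (SimplexCategory.δ i)).app ((Sph m).obj k)).toFun
  cof_nat s i k l α x := by
    have h := ((reso RM).map (SimplexCategory.δ i)).naturality ((Sph m).map α)
    exact congrFun (congrArg Pointed.Hom.toFun h) x
  cof_zero s i k := (((reso RM).map (SimplexCategory.δ i)).app ((Sph m).obj k)).map_point
  cof_cof s i j h k x := by
    have h1 := SimplexCategory.δ_comp_δ h
    have h2 := congrArg (fun f => ((reso RM).map f).app ((Sph m).obj k)) h1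
    simp only [Functor.map_comp, NatTrans.comp_app] at h2
    exact congrFun (congrArg Pointed.Hom.toFun h2) x

end Pool.Agent.SH.TT

end

end

section

/-!
# MP_2d0b73_an, block III-T (TT): statements of the modules
-/

open CategoryTheory Simplicial SSet Opposite MonoidalCategory

noncomputable section

namespace Pool.Agent.SH.TT

/-! ### Inputs from other blocks -/

/-- Pushout products of `F_2`-homology isomorphisms (helper26: `WC_PP_Stmt` for `F2Iso`). -/
def Stmt_PP : Prop :=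
  ∀ (X Y : SSet.{0}) (A : X.Subcomplex) (B : Y.Subcomplex),
    F2Iso A.ι → F2Iso (A.unionProd B).ι

/-- Horn inclusions are `F_2`-homology isomorphisms (helper26: `WC_HORN_Stmt`). -/
def Stmt_HORN : Prop :=
  ∀ (n : ℕ) (i : Fin (n + 2)), F2Iso (Λ[n + 1, i] : (Δ[n + 1] : SSet.{0}).Subcomplex).ι

/-- (SV1) extension of maps into simplicial vector spaces over `F_2`-homology isomorphisms
(helper26). -/
def Stmt_SV1 : Prop :=
  ∀ (A B : SSet.{0}) (i : A ⟶ B), Mono i → F2Iso i → ∀ (V : SV) (u : A ⟶ US V),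
    ∃ v : B ⟶ US V, i ≫ v = u

/-! ### Elementary modules -/

/-- TT_REP: maps `Z ⟶ Tot D` are families, maps `Z ⟶ Om Y b` are families. -/
def Stmt_REP : Prop :=
  (∀ (D : CoV) (Z : SSet.{0}) (F : Fam D Z), Fam.ofHom F.toHom = F) ∧
  (∀ (D : CoV) (Z : SSet.{0}) (φ : Z ⟶ Tot D), (Fam.ofHom φ).toHom = φ) ∧
  (∀ (Y : SSet.{0}) (b : Base Y) (Z : SSet.{0}) (F : FamL Y b Z), FamL.ofHom F.toHom = F) ∧
  (∀ (Y : SSet.{0}) (b : Base Y) (Z : SSet.{0}) (φ : Z ⟶ Om Y b), (FamL.ofHom φ).toHom = φ)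

/-- TT_SE: extension of partially natural functions. -/
def Stmt_SE : Prop :=
  Stmt_PP → Stmt_SV1 →
  ∀ (B L : SSet.{0}) (A : B.Subcomplex) (K : L.Subcomplex) (V : SV), F2Iso A.ι →
    ∀ u : ∀ k : Dop, B.obj k → L.obj k → V.obj k,
      (∀ {k l : Dop} (α : k ⟶ l) (b : B.obj k) (x : L.obj k), b ∈ A.obj k ∨ x ∈ K.obj k →
        u l (B.map α b) (L.map α x) = V.map α (u k b x)) →
      ∃ w : ∀ k : Dop, B.obj k → L.obj k → V.obj k,
        (∀ {k l : Dop} (α : k ⟶ l) (b : B.obj k) (x : L.obj k),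
          w l (B.map α b) (L.map α x) = V.map α (w k b x)) ∧
        ∀ (k : Dop) (b : B.obj k) (x : L.obj k), b ∈ A.obj k ∨ x ∈ K.obj k →
          w k b x = u k b x

/-- Extension property over `F_2`-homology isomorphisms. -/
def XP (Y : SSet.{0}) : Prop :=
  ∀ (B : SSet.{0}) (A : B.Subcomplex), F2Iso A.ι → ∀ u : (A : SSet.{0}) ⟶ Y,
    ∃ v : B ⟶ Y, A.ι ≫ v = u

/-- TT_TOTX: `Tot D` has the extension property. -/
def Stmt_TOTX : Prop := Stmt_SE → Stmt_PP → Stmt_SV1 → ∀ D : CoV, XP (Tot D)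

/-- TT_OMX: loop spaces inherit the extension property. -/
def Stmt_OMX : Prop := Stmt_PP → ∀ (Y : SSet.{0}) (b : Base Y), XP Y → XP (Om Y b)

/-- TT_XPM: the extension property for arbitrary monomorphisms. -/
def Stmt_XPM : Prop :=
  ∀ Y : SSet.{0}, XP Y → ∀ (A B : SSet.{0}) (i : A ⟶ B), Mono i → F2Iso i →
    ∀ u : A ⟶ Y, ∃ v : B ⟶ Y, i ≫ v = u

/-- TT_TOTC: compactness of `Tot D` for levelwise finite `D`. -/
def Stmt_TOTC : Prop :=
  ∀ D : CoV, (∀ (s : ℕ) (k : Dop), Finite ((D.V s).obj k)) → TCompact (Tot D)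

/-- TT_OMC: loop spaces inherit compactness. -/
def Stmt_OMC : Prop := ∀ (Y : SSet.{0}) (b : Base Y), TCompact Y → TCompact (Om Y b)

/-! ### Moore cycles, the cone lemma -/

/-- TT_MB: Moore cycles and boundaries: faces, first face, last face, sum of the faces. -/
def Stmt_MB : Prop :=
  (∀ (V : SV) (z : V.obj (bx 0)), MCyc V 0 z) ∧
  (∀ (V : SV) (t : ℕ) (z : V.obj (bx (t + 1))),
    MCyc V (t + 1) z ↔ ∀ i : Fin (t + 2), V.map (dop i) z = 0) ∧
  (∀ (V : SV) (t : ℕ) (z : V.obj (bx t)), MCyc V t z →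
    ((MBd V t z ↔ ∃ w : V.obj (bx (t + 1)), ∑ i : Fin (t + 2), V.map (dop i) w = z) ∧
    (MBd V t z ↔ ∃ w : V.obj (bx (t + 1)), V.map (dop (Fin.last (t + 1))) w = z ∧
      ∀ i : Fin (t + 1), V.map (dop i.castSucc) w = 0)))

/-- TT_CONE: the cone lemma. -/
def Stmt_CONE : Prop :=
  Stmt_MB → ∀ D : CoV, HAdd D → ExC D 0 →
    ∀ f : ∀ s : ℕ, (D.V s).obj (bx s),
      (∀ (s : ℕ) (i : Fin (s + 2)), (D.V (s + 1)).map (dop i) (f (s + 1)) =
        D.cof s i (bx s) (f s)) →
      ∃ H : ∀ s : ℕ, (D.V s).obj (bx (s + 1)),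
        (D.V 0).map (dop 0) (H 0) = 0 ∧ (D.V 0).map (dop 1) (H 0) = f 0 ∧
        ∀ s : ℕ, (∀ i : Fin (s + 2), (D.V (s + 1)).map (dop i.castSucc) (H (s + 1)) =
            D.cof s i (bx (s + 1)) (H s)) ∧
          (D.V (s + 1)).map (dop (Fin.last (s + 2))) (H (s + 1)) = f (s + 1)

/-- TT_HADD: additivity from a loop coordinate. -/
def Stmt_HADD : Prop :=
  ∀ (D : CoV) (n : ℕ), 1 ≤ n → HAdd (D.mp (Δ[n] : SSet.{0}) ∂Δ[n])

/-- TT_CONP: transfer of exactness along an acyclic extension. -/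
def Stmt_CONP : Prop :=
  Stmt_MB → ∀ (F E B : CoV) (τ : ℕ)
    (j : ∀ (s : ℕ) (k : Dop), (F.V s).obj k → (E.V s).obj k)
    (p : ∀ (s : ℕ) (k : Dop), (E.V s).obj k → (B.V s).obj k),
    (∀ s k a b, j s k (a + b) = j s k a + j s k b) →
    (∀ s k a b, p s k (a + b) = p s k a + p s k b) →
    (∀ s k, Function.Injective (j s k)) →
    (∀ s k x, p s k x = 0 ↔ ∃ y, j s k y = x) →
    (∀ (s : ℕ) {k l : Dop} (α : k ⟶ l) (x : (F.V s).obj k),
      j s l ((F.V s).map α x) = (E.V s).map α (j s k x)) →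
    (∀ (s : ℕ) {k l : Dop} (α : k ⟶ l) (x : (E.V s).obj k),
      p s l ((E.V s).map α x) = (B.V s).map α (p s k x)) →
    (∀ (s : ℕ) (i : Fin (s + 2)) (k : Dop) (x : (F.V s).obj k),
      j (s + 1) k (F.cof s i k x) = E.cof s i k (j s k x)) →
    (∀ (s : ℕ) (i : Fin (s + 2)) (k : Dop) (x : (E.V s).obj k),
      p (s + 1) k (E.cof s i k x) = B.cof s i k (p s k x)) →
    (∀ (s t : ℕ) (z : (E.V s).obj (bx t)), MCyc (E.V s) t z → MBd (E.V s) t z) →
    (∀ (s t : ℕ) (x : (B.V s).obj (bx (t + 1))),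
      (∀ i : Fin (t + 1), (B.V s).map (dop i.succ) x = 0) →
      ∃ y : (E.V s).obj (bx (t + 1)), p s _ y = x ∧
        ∀ i : Fin (t + 1), (E.V s).map (dop i.succ) y = 0) →
    ExC B (τ + 1) → ExC F τ

/-- TT_TR: exactness for `Map(Δ^n, ∂Δ^n)`. -/
def Stmt_TR : Prop :=
  Stmt_MB → Stmt_CONP → Stmt_SE → Stmt_PP → Stmt_SV1 → Stmt_HORN →
    (∀ D : CoV, ExC D 1 → ExC (D.mp (Δ[0] : SSet.{0}) ∂Δ[0]) 1) ∧
    (∀ (D : CoV) (n : ℕ), ExC (D.mp (Δ[n] : SSet.{0}) ∂Δ[n]) 1 →
      ExC (D.mp (Δ[n + 1] : SSet.{0}) ∂Δ[n + 1]) 0)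

/-! ### Null homotopies -/

/-- Relative null homotopies of maps `(W, W₀) × (Δ^n, ∂Δ^n) → (Y, *)`. -/
def RelNull (Y : SSet.{0}) (b : Base Y) (W : SSet.{0}) (W₀ : W.Subcomplex) (n : ℕ) : Prop :=
  ∀ x : ∀ k : Dop, W.obj k → (Δ[n] : SSet.{0}).obj k → Y.obj k,
    (∀ {k l : Dop} (α : k ⟶ l) (c : W.obj k) (ρ : (Δ[n] : SSet.{0}).obj k),
      x l (W.map α c) ((Δ[n] : SSet.{0}).map α ρ) = Y.map α (x k c ρ)) →
    (∀ (k : Dop) (c : W.obj k) (ρ : (Δ[n] : SSet.{0}).obj k),
      c ∈ W₀.obj k ∨ ρ ∈ (∂Δ[n] : (Δ[n] : SSet.{0}).Subcomplex).obj k → x k c ρ = b.pt k) →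
    ∃ h : ∀ k : Dop, W.obj k → (Δ[n] : SSet.{0}).obj k → (bx 1 ⟶ k) → Y.obj k,
      (∀ {k l : Dop} (α : k ⟶ l) (c : W.obj k) (ρ : (Δ[n] : SSet.{0}).obj k) (e : bx 1 ⟶ k),
        h l (W.map α c) ((Δ[n] : SSet.{0}).map α ρ) (e ≫ α) = Y.map α (h k c ρ e)) ∧
      (∀ (k : Dop) (c : W.obj k) (ρ : (Δ[n] : SSet.{0}).obj k) (e : bx 1 ⟶ k),
        c ∈ W₀.obj k ∨ ρ ∈ (∂Δ[n] : (Δ[n] : SSet.{0}).Subcomplex).obj k → h k c ρ e = b.pt k) ∧
      (∀ (k : Dop) (c : W.obj k) (ρ : (Δ[n] : SSet.{0}).obj k) (e : bx 1 ⟶ k),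
        (∀ i, e.unop.toOrderHom i = 0) → h k c ρ e = x k c ρ) ∧
      (∀ (k : Dop) (c : W.obj k) (ρ : (Δ[n] : SSet.{0}).obj k) (e : bx 1 ⟶ k),
        (∀ i, e.unop.toOrderHom i = 1) → h k c ρ e = b.pt k)

/-- TT_NUL: the cone lemma applied to `Map(Δ^n, ∂Δ^n; Map(W, W₀; V))`. -/
def Stmt_NUL : Prop :=
  Stmt_MB → Stmt_CONE → Stmt_HADD → Stmt_REP →
  (∀ (D : CoV) (n : ℕ), ExC (D.mp (Δ[n] : SSet.{0}) ∂Δ[n]) 1 →
      ExC (D.mp (Δ[n + 1] : SSet.{0}) ∂Δ[n + 1]) 0) →
  (∀ D : CoV, ExC D 1 → ExC (D.mp (Δ[0] : SSet.{0}) ∂Δ[0]) 1) →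
  ∀ (D : CoV) (W : SSet.{0}) (W₀ : W.Subcomplex), ExC (D.mp W W₀) 1 →
    ∀ n : ℕ, 1 ≤ n → RelNull (Tot D) (Tot.base D) W W₀ n

/-- TT_OMW: `W` is acyclic for the loop space of `Y`. -/
def Stmt_OMW : Prop :=
  Stmt_PP → Stmt_HORN → Stmt_REP → ∀ (Y : SSet.{0}) (b : Base Y), XP Y →
    ∀ (W : SSet.{0}) (w : W _⦋0⦌) (W₀ : W.Subcomplex),
      (∀ (k : Dop) (c : W.obj k), c ∈ W₀.obj k ↔
        c = W.map (SimplexCategory.const k.unop ⦋0⦌ 0).op w) →
      (∀ n : ℕ, 1 ≤ n → RelNull Y b W W₀ n) →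
      REXTB (Om Y b) (vert w)

/-! ### The resolution of the sphere -/

/-- TT_FIN: the levels are finite. -/
def Stmt_FIN : Prop := ∀ (m s : ℕ) (k : Dop), Finite (((XD m).V s).obj k)

/-- Underlying simplicial set of `Sph m`. -/
def SphS (m : ℕ) : SSet.{0} := Sph m ⋙ forget Pointed.{0}

/-- TT_COA: the coaugmentation `S → Tot`. -/
def Stmt_COA : Prop :=
  ∀ m : ℕ, ∃ F : Fam (XD m) (SphS m),
    (∀ (k : Dop) (x : (SphS m).obj k) (t : bx 0 ⟶ k), F.f 0 k x t = brk (none : ((Sph m).obj k).X) x) ∧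
    (∀ (s : ℕ) (k : Dop) (t : bx s ⟶ k), F.f s k (none : ((Sph m).obj k).X) t = 0)

/-- TT_ESS (helper26): an essential map. -/
def Stmt_ESS : Prop :=
  ∀ M : ℕ, 1 ≤ M → ∃ e : NP (P0 M) ⟶ Target (XD (M + 1)), ¬ Null e

/-- The input from algebra. -/
def Stmt_EX : Prop := ∀ m : ℕ, 2 ≤ m → ExC ((XD m).mp BZ BZ.b0) 1

/-- TT_FINAL: what III-N and II need. -/
def Stmt_TTF : Prop :=
  Stmt_EX → ∀ M : ℕ, 1 ≤ M →
    SSet.KanComplex (Target (XD (M + 1))) ∧ TCompact (Target (XD (M + 1))) ∧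
    (∀ (X Y : SSet.{0}) (f : X ⟶ Y), F2Iso f → W (Target (XD (M + 1))) f) ∧
    REXTB (Target (XD (M + 1))) (vert BZ.v) ∧
    ∃ e : NP (P0 M) ⟶ Target (XD (M + 1)), ¬ Null e

end Pool.Agent.SH.TT

end

end

section

/-!
# MP_2d0b73_an, block III-T: assembly
-/

set_option autoImplicit false

open CategoryTheory MonoidalCategory CartesianMonoidalCategory Simplicial Opposite

noncomputable section

namespace Pool.Agent.SH.TT

/-- A Boolean as an element of `Z/2`. -/
def b2 (b : Bool) : ZMod 2 := if b then 1 else 0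

theorem b2_add_cases (a b c : Bool) : (b2 a + b2 b) + (b2 b + b2 c) = b2 a + b2 c := by
  revert a b c
  decide

/-- The map `EE Bool ⟶ BZ`. -/
def eeBZ : EE Bool ⟶ BZ where
  app k := TypeCat.ofHom (fun (x : Fin (k.unop.len + 1) → Bool) =>
    ⟨fun i j => b2 (x i) + b2 (x j), fun _ _ _ => b2_add_cases _ _ _⟩)
  naturality _ _ _ := rfl

theorem eeBZ_apply (k : Dop) (x : Fin (k.unop.len + 1) → Bool) :
    ((eeBZ.app k x : BZ.obj k)).1 = fun i j => b2 (x i) + b2 (x j) := rfl

theorem eeBZ_surj (k : Dop) : Function.Surjective (eeBZ.app k) := by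
  rintro ⟨c, hc⟩
  refine ⟨fun i => decide (c 0 i = 1), ?_⟩
  apply Subtype.ext
  rw [eeBZ_apply]
  funext i j
  show b2 (decide (c 0 i = 1)) + b2 (decide (c 0 j = 1)) = c i j
  have h00 : c 0 0 = 0 := by
    have := hc 0 0 0
    generalize c 0 0 = a at this
    revert a
    decide
  have h1 := hc 0 i j
  have h2 : ∀ a : ZMod 2, b2 (decide (a = 1)) = a := by decide
  rw [h2, h2, ← h1]
  have h3 : ∀ a b : ZMod 2, a + (a + b) = b := by decide
  exact h3 _ _

theorem eeBZ_fib (k : Dop) (x y : Fin (k.unop.len + 1) → Bool) :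
    eeBZ.app k x = eeBZ.app k y ↔ y = x ∨ y = fun i => !(x i) := by
  constructor
  · intro h
    have h1 : (fun i j => b2 (x i) + b2 (x j)) = fun i j => b2 (y i) + b2 (y j) := by
      have := congrArg (fun c : BZ.obj k => c.1) h
      exact this
    have h2 : ∀ i j, b2 (x i) + b2 (x j) = b2 (y i) + b2 (y j) := fun i j =>
      congrFun (congrFun h1 i) j
    have key : ∀ a b c d : Bool, b2 a + b2 b = b2 c + b2 d → c = a → d = b := by decide
    have key2 : ∀ a b c d : Bool, b2 a + b2 b = b2 c + b2 d → c = !a → d = !b := by decide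
    have hd : ∀ a b : Bool, a = b ∨ a = !b := by decide
    rcases hd (y 0) (x 0) with h0 | h0
    · left
      funext j
      exact key _ _ _ _ (h2 0 j) h0
    · right
      funext j
      exact key2 _ _ _ _ (h2 0 j) h0
  · rintro (rfl | rfl)
    · rfl
    · apply Subtype.ext
      rw [eeBZ_apply, eeBZ_apply]
      funext i j
      have : ∀ a b : Bool, b2 a + b2 b = b2 (!a) + b2 (!b) := by decide
      exact this _ _

theorem bInput_of_BZ (P : MorphismProperty SSet.{0}) (hiso : ∀ {X Y : SSet.{0}} (f : X ⟶ Y),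
    IsIso f → P f) (hcomp : ∀ {X Y Z : SSet.{0}} (f : X ⟶ Y) (g : Y ⟶ Z), P f → P g → P (f ≫ g))
    (h : P (toUnit BZ)) : BInput P := by
  intro V q hq hf
  have hcl : ∀ (k : Dop) (v : V.obj k), ∃ x, q.app k x = v := fun k v => hq k v
  choose s hs using hcl
  have hind : ∀ (k : Dop) (x y : (EE Bool).obj k), q.app k x = q.app k y →
      eeBZ.app k x = eeBZ.app k y := by
    intro k x y hxy
    exact (eeBZ_fib k x y).2 ((hf k x y).1 hxy)
  let φ : V ⟶ BZ :=
    { app := fun k => TypeCat.ofHom (fun v => eeBZ.app k (s k v))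
      naturality := by
        intro k l α
        ext v
        show eeBZ.app l (s l (V.map α v)) = BZ.map α (eeBZ.app k (s k v))
        have h1 : BZ.map α (eeBZ.app k (s k v)) = eeBZ.app l ((EE Bool).map α (s k v)) := by
          exact (NatTrans.naturality_apply eeBZ α (s k v)).symm
        rw [h1]
        apply hind
        rw [hs]
        have h2 := NatTrans.naturality_apply q α (s k v)
        rw [h2, hs] }
  have hφ : IsIso φ := by
    rw [NatTrans.isIso_iff_isIso_app]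
    intro k
    rw [isIso_iff_bijective]
    constructor
    · intro v w hvw
      have h1 := (eeBZ_fib k (s k v) (s k w)).1 hvw
      have h2 := (hf k (s k v) (s k w)).2 h1
      rw [hs, hs] at h2
      exact h2
    · intro c
      obtain ⟨x, hx⟩ := eeBZ_surj k c
      refine ⟨q.app k x, ?_⟩
      show eeBZ.app k (s k (q.app k x)) = c
      rw [← hx]
      apply hind
      rw [hs]
  have h3 : toUnit V = φ ≫ toUnit BZ := toUnit_unique _ _
  show P (toUnit V)
  rw [h3]
  exact hcomp _ _ (hiso _ hφ) h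

/-- The assembly of block III-T. -/
theorem TTASM (hPP : Stmt_PP) (hHORN : Stmt_HORN) (hSV1 : Stmt_SV1)
    (hREP : Stmt_REP) (hSE : Stmt_SE) (hTOTX : Stmt_TOTX) (hOMX : Stmt_OMX) (hXPM : Stmt_XPM)
    (hTOTC : Stmt_TOTC) (hOMC : Stmt_OMC) (hMB : Stmt_MB) (hCONE : Stmt_CONE)
    (hHADD : Stmt_HADD) (hCONP : Stmt_CONP) (hTR : Stmt_TR) (hNUL : Stmt_NUL) (hOMW : Stmt_OMW)
    (hFIN : Stmt_FIN) (hESS : Stmt_ESS) (hEX : Stmt_EX)
    (h1 : TE_F2_Stmt) (hBD : TE_BDRY_Stmt) (hKE : TE_KEYE_Stmt) (h23 : TE_23_Stmt) : Stmt_TT := by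
  intro M hM
  obtain ⟨e, he⟩ := hESS M (by omega)
  have hxp : XP (Tot (XD (M + 1))) := hTOTX hSE hPP hSV1 _
  have hxo : XP (Target (XD (M + 1))) := hOMX hPP _ _ hxp
  have hL := hXPM _ hxo
  obtain ⟨hK, hF⟩ := h1 _ hL
  refine ⟨Target (XD (M + 1)), e, hL, ?_, ?_, he⟩
  · exact hOMC _ _ (hTOTC _ (fun s k => hFIN (M + 1) s k))
  · obtain ⟨t0, t1⟩ := hTR hMB hCONP hSE hPP hSV1 hHORN
    have hrn : ∀ n : ℕ, 1 ≤ n → RelNull (Tot (XD (M + 1))) (Tot.base _) BZ BZ.b0 n :=
      hNUL hMB hCONE hHADD hREP t1 t0 _ _ _ (hEX (M + 1) (by omega))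
    have hb : ∀ (k : Dop) (c : BZ.obj k), c ∈ BZ.b0.obj k ↔
        c = BZ.map (SimplexCategory.const k.unop ⦋0⦌ 0).op BZ.v := by
      intro k c
      constructor
      · intro h
        apply Subtype.ext
        exact h
      · intro h
        rw [h]
        rfl
    have hr := hOMW hPP hHORN hREP _ _ hxp BZ BZ.v BZ.b0 hb hrn
    have hw : W (Target (XD (M + 1))) (vert BZ.v) := hKE _ hK _ _ _ (hBD _ _ _ _ hr)
    obtain ⟨c1, c2, c3, c4, -⟩ := h23 _ hK
    have hu : IsIso (vert BZ.v ≫ toUnit BZ) := by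
      have e : vert BZ.v ≫ toUnit BZ = toUnit Δ[0] := toUnit_unique _ _
      rw [e]
      exact Limits.isIso_of_isTerminal SSet.stdSimplex.isTerminalObj₀ isTerminalTensorUnit _
    have hw2 : W (Target (XD (M + 1))) (toUnit BZ) := c3 _ _ _ (vert BZ.v) _ hw (c1 _ _ _ hu)
    exact bInput_of_BZ _ (fun f hf => c1 _ _ f hf) (fun f g => c2 _ _ _ f g) hw2

end Pool.Agent.SH.TT

end

end

section

open CategoryTheory Simplicial SSet Opposite MonoidalCategory

noncomputable section

namespace Pool.Agent.SH.TT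

namespace SE

variable {B L : SSet.{0}} {A : B.Subcomplex} {K : L.Subcomplex} {V : SV}

/-- The map defined by a partially natural function. -/
def phi (u : ∀ k : Dop, B.obj k → L.obj k → V.obj k)
    (hu : ∀ {k l : Dop} (α : k ⟶ l) (b : B.obj k) (x : L.obj k), b ∈ A.obj k ∨ x ∈ K.obj k →
        u l (B.map α b) (L.map α x) = V.map α (u k b x)) :
    ((A.unionProd K : (B ⊗ L).Subcomplex) : SSet.{0}) ⟶ US V where
  app k := TypeCat.ofHom (fun p => u k p.1.1 p.1.2)
  naturality {k l} α := by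
    ext p
    exact hu α p.1.1 p.1.2 ((Subcomplex.mem_unionProd_iff _ _ _).1 p.2).symm

end SE

theorem tt_se : Stmt_SE := by
  intro hPP hSV B L A K V hA u hu
  obtain ⟨v, hv⟩ := hSV _ _ (A.unionProd K).ι inferInstance (hPP B L A K hA) V (SE.phi u hu)
  refine ⟨fun k b x => v.app k ((b, x) : (B ⊗ L).obj k), ?_, ?_⟩
  · intro k l α b x
    exact NatTrans.naturality_apply v α ((b, x) : (B ⊗ L).obj k)
  · intro k b x hbx
    have h1 := ConcreteCategory.congr_hom (congr_app hv k)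
      ⟨((b, x) : (B ⊗ L).obj k), (Subcomplex.mem_unionProd_iff _ _ _).2 hbx.symm⟩
    exact h1

end Pool.Agent.SH.TT

end

end

section

/-!
# MP_2d0b73_an, module SH_TT_OMX: loop spaces inherit the extension property
-/

open CategoryTheory Simplicial SSet Opposite MonoidalCategory

noncomputable section

namespace Pool.Agent.SH.TT

namespace TTOmX

/-- A simplex of `Δ[1]` as a morphism. -/
def toE {k : Dop} (t : (Δ[1] : SSet.{0}).obj k) : bx 1 ⟶ k := (stdSimplex.objEquiv t).op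

/-- A morphism as a simplex of `Δ[1]`. -/
def ofE {k : Dop} (e : bx 1 ⟶ k) : (Δ[1] : SSet.{0}).obj k := stdSimplex.objEquiv.symm e.unop

theorem toE_ofE {k : Dop} (e : bx 1 ⟶ k) : toE (ofE e) = e := by
  unfold toE ofE
  rw [Equiv.apply_symm_apply]
  rfl

theorem toE_map {k l : Dop} (α : k ⟶ l) (t : (Δ[1] : SSet.{0}).obj k) :
    toE ((Δ[1] : SSet.{0}).map α t) = toE t ≫ α := rfl

theorem ofE_map {k l : Dop} (α : k ⟶ l) (e : bx 1 ⟶ k) :
    ofE (e ≫ α) = (Δ[1] : SSet.{0}).map α (ofE e) := rfl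

theorem bdy_toE {k : Dop} (t : (Δ[1] : SSet.{0}).obj k)
    (h : t ∈ (∂Δ[1] : (Δ[1] : SSet.{0}).Subcomplex).obj k) : Bdy (toE t) := h

theorem ofE_bdy {k : Dop} (e : bx 1 ⟶ k) (h : Bdy e) :
    ofE e ∈ (∂Δ[1] : (Δ[1] : SSet.{0}).Subcomplex).obj k := h

variable {Y : SSet.{0}} {b : Base Y} {B : SSet.{0}}

open Classical in
/-- The values of the map on the union. -/
def val (A : B.Subcomplex) (F : FamL Y b (A : SSet.{0})) (k : Dop) (z : B.obj k)
    (e : bx 1 ⟶ k) : Y.obj k :=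
  if h : z ∈ A.obj k then F.f k ⟨z, h⟩ e else b.pt k

theorem val_pos (A : B.Subcomplex) (F : FamL Y b (A : SSet.{0})) (k : Dop) (z : B.obj k)
    (e : bx 1 ⟶ k) (h : z ∈ A.obj k) : val A F k z e = F.f k ⟨z, h⟩ e := by
  unfold val
  rw [dif_pos h]

theorem val_bdy (A : B.Subcomplex) (F : FamL Y b (A : SSet.{0})) (k : Dop) (z : B.obj k)
    (e : bx 1 ⟶ k) (h : Bdy e) : val A F k z e = b.pt k := by
  unfold val
  split_ifs with h'
  · exact F.bd k _ e h
  · rfl

theorem val_nat (A : B.Subcomplex) (F : FamL Y b (A : SSet.{0})) {k l : Dop} (α : k ⟶ l)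
    (z : B.obj k) (e : bx 1 ⟶ k) (h : Bdy e ∨ z ∈ A.obj k) :
    val A F l (B.map α z) (e ≫ α) = Y.map α (val A F k z e) := by
  rcases h with h | h
  · have h2 : Bdy (e ≫ α) := by
      intro hs
      apply h
      intro i
      obtain ⟨j, hj⟩ := hs i
      exact ⟨α.unop.toOrderHom j, hj⟩
    rw [val_bdy A F l _ _ h2, val_bdy A F k _ _ h, b.nat]
  · have h2 : B.map α z ∈ A.obj l := A.map α h
    rw [val_pos A F l _ _ h2, val_pos A F k _ _ h, ← F.nat α ⟨z, h⟩ e]
    rfl

/-- The map on the union. -/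
def ext0 (A : B.Subcomplex) (F : FamL Y b (A : SSet.{0})) :
    (A.unionProd (∂Δ[1] : (Δ[1] : SSet.{0}).Subcomplex) : SSet.{0}) ⟶ Y where
  app k := TypeCat.ofHom (fun x => val A F k x.1.1 (toE x.1.2))
  naturality {k l} α := by
    ext x
    refine val_nat A F α x.1.1 (toE x.1.2) ?_
    rcases (Subcomplex.mem_unionProd_iff _ _ _).1 x.2 with h | h
    · exact Or.inl (bdy_toE _ h)
    · exact Or.inr h

end TTOmX

open TTOmX in
theorem tt_omx : Stmt_OMX := by
  intro hPP Y b hY B A hA u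
  obtain ⟨w, hw⟩ := hY (B ⊗ (Δ[1] : SSet.{0}))
    (A.unionProd (∂Δ[1] : (Δ[1] : SSet.{0}).Subcomplex)) (hPP _ _ _ _ hA)
    (ext0 A (FamL.ofHom u))
  have hw' : ∀ (k : Dop) (z : B.obj k) (e : bx 1 ⟶ k), (Bdy e ∨ z ∈ A.obj k) →
      w.app k (z, ofE e) = val A (FamL.ofHom u) k z e := by
    intro k z e h
    have hm : ((z, ofE e) : (B ⊗ (Δ[1] : SSet.{0})).obj k) ∈
        (A.unionProd (∂Δ[1] : (Δ[1] : SSet.{0}).Subcomplex)).obj k := by
      refine (Subcomplex.mem_unionProd_iff _ _ _).2 ?_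
      rcases h with h | h
      · exact Or.inl (ofE_bdy e h)
      · exact Or.inr h
    have := ConcreteCategory.congr_hom (C := Type) (NatTrans.congr_app hw k)
      (⟨(z, ofE e), hm⟩ : (A.unionProd (∂Δ[1] : (Δ[1] : SSet.{0}).Subcomplex) : SSet.{0}).obj k)
    exact this
  let G : FamL Y b B :=
    { f := fun k z e => w.app k (z, ofE e)
      nat := by
        intro k l α z e
        exact NatTrans.naturality_apply w α ((z, ofE e) : (B ⊗ (Δ[1] : SSet.{0})).obj k)
      bd := by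
        intro k z e h
        rw [hw' k z e (Or.inl h), val_bdy _ _ _ _ _ h] }
  refine ⟨G.toHom, ?_⟩
  apply NatTrans.ext
  funext q
  refine ConcreteCategory.hom_ext _ _ ?_
  intro z
  refine OmS.ext ?_
  funext k σ e
  show w.app k (B.map σ z.1, ofE e) = (u.app q z : OmS Y b q).f k σ e
  rw [hw' k _ e (Or.inr (A.map σ z.2)), val_pos _ _ _ _ _ (A.map σ z.2)]
  have h : (u.app k ((A : SSet.{0}).map σ z) : OmS Y b k) = (Om Y b).map σ (u.app q z) :=
    NatTrans.naturality_apply u σ z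
  have h2 : (u.app k ((A : SSet.{0}).map σ z) : OmS Y b k).f k (𝟙 k) e =
      (u.app q z : OmS Y b q).f k (σ ≫ 𝟙 k) e := by
    rw [h]
    rfl
  rw [Category.comp_id] at h2
  exact h2

end Pool.Agent.SH.TT

end

end

section

/-!
# MP_2d0b73_an, block III-T: the extension property for arbitrary monomorphisms
-/

open CategoryTheory Simplicial SSet Opposite MonoidalCategory

noncomputable section

namespace Pool.Agent.SH.TT

namespace XPM

theorem f2_iso {X Y : SSet.{0}} (f : X ⟶ Y) (hf : IsIso f) : F2Iso f := by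
  intro n
  refine ⟨SSet.homologyMap (inv f) F2 n, ?_, ?_⟩
  · rw [← SSet.homologyMap_comp, IsIso.hom_inv_id, SSet.homologyMap_id]
  · rw [← SSet.homologyMap_comp, IsIso.inv_hom_id, SSet.homologyMap_id]

theorem f2_cancel {X Y Z : SSet.{0}} (f : X ⟶ Y) (g : Y ⟶ Z) (hf : F2Iso f)
    (hg : F2Iso (f ≫ g)) : F2Iso g := by
  intro n
  have h1 := hf n
  have h2 := hg n
  rw [SSet.homologyMap_comp] at h2
  exact IsIso.of_isIso_comp_left (SSet.homologyMap f F2 n) (SSet.homologyMap g F2 n)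

end XPM

theorem tt_xpm : Stmt_XPM := by
  intro Y hY A B i hi hF u
  have hiso : IsIso (Subcomplex.toRange i) := inferInstance
  have h1 : Subcomplex.toRange i ≫ (Subcomplex.range i).ι = i := Subcomplex.toRange_ι i
  have h2 : F2Iso (Subcomplex.range i).ι := by
    refine XPM.f2_cancel (Subcomplex.toRange i) _ (XPM.f2_iso _ hiso) ?_
    rw [h1]
    exact hF
  obtain ⟨v, hv⟩ := hY B (Subcomplex.range i) h2 (inv (Subcomplex.toRange i) ≫ u)
  refine ⟨v, ?_⟩
  have h3 : i ≫ v = (Subcomplex.toRange i ≫ (Subcomplex.range i).ι) ≫ v := by rw [h1]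
  rw [h3, Category.assoc, hv, IsIso.hom_inv_id_assoc]

end Pool.Agent.SH.TT

end

end

section

/-!
# MP_2d0b73_an, block III-T: TT_TOTC, compactness of `Tot D` for levelwise finite `D`
-/

open CategoryTheory Simplicial SSet Opposite MonoidalCategory

noncomputable section

namespace Pool.Agent.SH.TT

namespace TOTC

/-- The index set of the coordinates. -/
abbrev Idx (B : SSet.{0}) : Type := Σ (s : ℕ) (k : Dop), B.obj k × (bx s ⟶ k)

/-- The coordinate. -/
abbrev ix {B : SSet.{0}} (s : ℕ) (k : Dop) (z : B.obj k) (t : bx s ⟶ k) : Idx B :=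
  ⟨s, k, z, t⟩

/-- The values at a coordinate. -/
abbrev El (D : CoV) (B : SSet.{0}) (i : Idx B) : Type := (D.V i.1).obj i.2.1

/-- The families satisfying the conditions at the simplices of `F`. -/
def Good (D : CoV) (B : SSet.{0}) (A : B.Subcomplex) (u : (A : SSet.{0}) ⟶ Tot D)
    (F : B.Subcomplex) : Set (∀ i : Idx B, El D B i) :=
  {g | (∀ (s : ℕ) (k l : Dop) (α : k ⟶ l) (z : B.obj k) (t : bx s ⟶ k), z ∈ F.obj k →
      g (ix s l (B.map α z) (t ≫ α)) = (D.V s).map α (g (ix s k z t))) ∧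
    (∀ (s : ℕ) (i : Fin (s + 2)) (k : Dop) (z : B.obj k) (t : bx s ⟶ k), z ∈ F.obj k →
      g (ix (s + 1) k z (dop i ≫ t)) = D.cof s i k (g (ix s k z t))) ∧
    ∀ (s : ℕ) (k : Dop) (z : B.obj k) (t : bx s ⟶ k) (hA : z ∈ A.obj k), z ∈ F.obj k →
      g (ix s k z t) = (Fam.ofHom u).f s k ⟨z, hA⟩ t}

theorem good_anti (D : CoV) (B : SSet.{0}) (A : B.Subcomplex) (u : (A : SSet.{0}) ⟶ Tot D)
    {F F' : B.Subcomplex} (h : F ≤ F') : Good D B A u F' ⊆ Good D B A u F := by
  rintro g ⟨h1, h2, h3⟩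
  exact ⟨fun s k l α z t hz => h1 s k l α z t (h k hz),
    fun s i k z t hz => h2 s i k z t (h k hz),
    fun s k z t hA hz => h3 s k z t hA (h k hz)⟩

theorem good_nonempty (D : CoV) (B : SSet.{0}) (A : B.Subcomplex) (u : (A : SSet.{0}) ⟶ Tot D)
    (F : B.Subcomplex) (w : (F : SSet.{0}) ⟶ Tot D)
    (hw : SSet.Subcomplex.homOfLE (inf_le_right : A ⊓ F ≤ F) ≫ w =
      SSet.Subcomplex.homOfLE (inf_le_left : A ⊓ F ≤ A) ≫ u) :
    (Good D B A u F).Nonempty := by
  classical
  refine ⟨fun i => if h : i.2.2.1 ∈ F.obj i.2.1 then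
    (Fam.ofHom w).f i.1 i.2.1 ⟨i.2.2.1, h⟩ i.2.2.2 else 0, ?_, ?_, ?_⟩
  · intro s k l α z t hz
    have hz' : B.map α z ∈ F.obj l := F.map α hz
    simp only [dif_pos hz, dif_pos hz']
    exact (Fam.ofHom w).nat s α ⟨z, hz⟩ t
  · intro s i k z t hz
    simp only [dif_pos hz]
    exact (Fam.ofHom w).cof s i k ⟨z, hz⟩ t
  · intro s k z t hA hz
    simp only [dif_pos hz]
    have h1 : w.app k ⟨z, hz⟩ = u.app k ⟨z, hA⟩ := by
      have h2 := congrArg (fun φ => φ.app k ⟨z, ⟨hA, hz⟩⟩) hw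
      exact h2
    show (w.app k ⟨z, hz⟩ : TotS D k).f s k (𝟙 k) t = (u.app k ⟨z, hA⟩ : TotS D k).f s k (𝟙 k) t
    rw [h1]

theorem good_closed (D : CoV) (B : SSet.{0}) [∀ i, TopologicalSpace (El D B i)]
    [∀ i, DiscreteTopology (El D B i)] (A : B.Subcomplex)
    (u : (A : SSet.{0}) ⟶ Tot D) (F : B.Subcomplex) : IsClosed (Good D B A u F) := by
  have c1 : ∀ (i j : Idx B) (φ : El D B j → El D B i),
      IsClosed (setOf fun g : (∀ i' : Idx B, El D B i') => g i = φ (g j)) := fun i j φ =>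
    isClosed_eq (continuous_apply i) (continuous_of_discreteTopology.comp (continuous_apply j))
  have e : Good D B A u F =
      (⋂ (s : ℕ) (k : Dop) (l : Dop) (α : k ⟶ l) (z : B.obj k) (t : bx s ⟶ k)
        (_ : z ∈ F.obj k), {g | g (ix s l (B.map α z) (t ≫ α)) = (D.V s).map α (g (ix s k z t))}) ∩
      ((⋂ (s : ℕ) (i : Fin (s + 2)) (k : Dop) (z : B.obj k) (t : bx s ⟶ k)
        (_ : z ∈ F.obj k), {g | g (ix (s + 1) k z (dop i ≫ t)) = D.cof s i k (g (ix s k z t))}) ∩
      (⋂ (s : ℕ) (k : Dop) (z : B.obj k) (t : bx s ⟶ k) (hA : z ∈ A.obj k)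
        (_ : z ∈ F.obj k), {g | g (ix s k z t) = (Fam.ofHom u).f s k ⟨z, hA⟩ t})) := by
    ext g
    simp only [Good, Set.mem_inter_iff, Set.mem_iInter, Set.mem_setOf_eq]
  rw [e]
  refine IsClosed.inter ?_ (IsClosed.inter ?_ ?_)
  · refine isClosed_iInter fun s => isClosed_iInter fun k => isClosed_iInter fun l =>
      isClosed_iInter fun α => isClosed_iInter fun z => isClosed_iInter fun t =>
      isClosed_iInter fun _ => ?_
    exact c1 (ix s l (B.map α z) (t ≫ α)) (ix s k z t) (fun x => (D.V s).map α x)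
  · refine isClosed_iInter fun s => isClosed_iInter fun i => isClosed_iInter fun k =>
      isClosed_iInter fun z => isClosed_iInter fun t => isClosed_iInter fun _ => ?_
    exact c1 (ix (s + 1) k z (dop i ≫ t)) (ix s k z t) (fun x => D.cof s i k x)
  · refine isClosed_iInter fun s => isClosed_iInter fun k => isClosed_iInter fun z =>
      isClosed_iInter fun t => isClosed_iInter fun hA => isClosed_iInter fun _ => ?_
    exact c1 (ix s k z t) (ix s k z t) (fun _ => (Fam.ofHom u).f s k ⟨z, hA⟩ t)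

theorem sup_finite {B : SSet.{0}} {F F' : B.Subcomplex} (h : (F : SSet.{0}).Finite)
    (h' : (F' : SSet.{0}).Finite) : ((F ⊔ F' : B.Subcomplex) : SSet.{0}).Finite := by
  have e : F ⊔ F' = ⨆ b : Bool, (if b then F' else F) := by
    rw [iSup_bool_eq]
    simp [sup_comm]
  rw [e, finite_iSup_iff]
  intro b
  cases b
  · exact h
  · exact h'

theorem exists_good (D : CoV) (hD : ∀ (s : ℕ) (k : Dop), Finite ((D.V s).obj k))
    (B : SSet.{0}) (A : B.Subcomplex) (u : (A : SSet.{0}) ⟶ Tot D)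
    (h : ∀ F : B.Subcomplex, (F : SSet.{0}).Finite → (Good D B A u F).Nonempty) :
    ∃ g, ∀ F : B.Subcomplex, (F : SSet.{0}).Finite → g ∈ Good D B A u F := by
  let _ : ∀ i : Idx B, TopologicalSpace (El D B i) := fun _ => ⊥
  have : ∀ i : Idx B, DiscreteTopology (El D B i) := fun _ => ⟨rfl⟩
  have : ∀ i : Idx B, Finite (El D B i) := fun i => hD _ _
  have : ∀ i : Idx B, CompactSpace (El D B i) := fun i => Finite.compactSpace
  have : CompactSpace (∀ i : Idx B, El D B i) := Pi.compactSpace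
  let J : Type := {F : B.Subcomplex // (F : SSet.{0}).Finite}
  have : Nonempty J := ⟨⟨⊥, by
    have := (finite_iSup_iff (X := B) (ι := Empty) (fun e => e.elim)).2 (fun e => e.elim)
    rw [iSup_of_empty] at this
    exact this⟩⟩
  have hne : (⋂ F : J, Good D B A u F.1).Nonempty := by
    refine IsCompact.nonempty_iInter_of_directed_nonempty_isCompact_isClosed
      (fun F : J => Good D B A u F.1) ?_ (fun F => h F.1 F.2)
      (fun F => (good_closed D B A u F.1).isCompact) (fun F => good_closed D B A u F.1)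
    rintro ⟨F, hF⟩ ⟨F', hF'⟩
    exact ⟨⟨F ⊔ F', sup_finite hF hF'⟩, good_anti D B A u le_sup_left,
      good_anti D B A u le_sup_right⟩
  obtain ⟨g, hg⟩ := hne
  rw [Set.mem_iInter] at hg
  exact ⟨g, fun F hF => hg ⟨F, hF⟩⟩

theorem exists_finite {B : SSet.{0}} {k : Dop} (z : B.obj k) :
    ∃ F : B.Subcomplex, (F : SSet.{0}).Finite ∧ z ∈ F.obj k := by
  obtain ⟨k⟩ := k
  induction k using SimplexCategory.rec with | _ n
  exact ⟨SSet.Subcomplex.ofSimplex z, inferInstance, SSet.Subcomplex.mem_ofSimplex_obj z⟩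

end TOTC

open TOTC in
theorem tt_totc : Stmt_TOTC := by
  intro D hD B A u hF
  obtain ⟨g, hg⟩ := exists_good D hD B A u (fun F hFf => by
    obtain ⟨w, hw⟩ := hF F hFf
    exact good_nonempty D B A u F w hw)
  let Φ : Fam D B :=
    { f := fun s k z t => g (ix s k z t)
      nat := by
        intro s k l α z t
        obtain ⟨F, hFf, hz⟩ := exists_finite z
        exact (hg F hFf).1 s k l α z t hz
      cof := by
        intro s i k z t
        obtain ⟨F, hFf, hz⟩ := exists_finite z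
        exact (hg F hFf).2.1 s i k z t hz }
  refine ⟨Φ.toHom, ?_⟩
  ext k z
  apply TotS.ext
  funext s l σ t
  obtain ⟨z, hA⟩ := z
  show g (ix s l (B.map σ z) t) = (u.app k ⟨z, hA⟩ : TotS D k).f s l σ t
  obtain ⟨F, hFf, hz⟩ := exists_finite (B.map σ z)
  rw [(hg F hFf).2.2 s l (B.map σ z) t (A.map σ hA) hz]
  show (u.app l ((A : SSet.{0}).map σ ⟨z, hA⟩) : TotS D l).f s l (𝟙 l) t = _
  have h : (u.app l ((A : SSet.{0}).map σ ⟨z, hA⟩) : TotS D l) =
      (Tot D).map σ (u.app k ⟨z, hA⟩) := NatTrans.naturality_apply u σ ⟨z, hA⟩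
  rw [h]
  show (u.app k ⟨z, hA⟩ : TotS D k).f s l (σ ≫ 𝟙 l) t = _
  rw [Category.comp_id]

end Pool.Agent.SH.TT

end

end

section

/-!
# MP_2d0b73_an, block III-T, OMC: loop spaces inherit compactness
-/

open CategoryTheory Simplicial SSet Opposite MonoidalCategory

noncomputable section

namespace Pool.Agent.SH.TT

namespace OMC

theorem bdy_comp {n : ℕ} {k l : Dop} {e : bx n ⟶ k} (h : Bdy e) (α : k ⟶ l) : Bdy (e ≫ α) := by
  intro hs
  apply h
  intro i
  obtain ⟨j, hj⟩ := hs i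
  exact ⟨α.unop.toOrderHom j, hj⟩

/-- The cylinder `B × Δ^1`. -/
def cyl (B : SSet.{0}) : SSet.{0} where
  obj k := B.obj k × (bx 1 ⟶ k)
  map {k l} α := TypeCat.ofHom (fun x => (B.map α x.1, x.2 ≫ α))
  map_id k := by
    ext x
    · simp
    · simp
  map_comp α β := by
    ext x
    · simp
    · simp

/-- The projection of the cylinder. -/
def pr (B : SSet.{0}) : cyl B ⟶ B where
  app k := TypeCat.ofHom (fun x => x.1)
  naturality k l α := rfl

/-- The part of the cylinder over `A` and over the ends. -/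
def csub {B : SSet.{0}} (A : B.Subcomplex) : (cyl B).Subcomplex where
  obj k := Set.ofPred (fun x : B.obj k × (bx 1 ⟶ k) => x.1 ∈ A.obj k ∨ Bdy x.2)
  map {k l} α := by
    rintro x (h | h)
    · exact Or.inl (A.map α h)
    · exact Or.inr (bdy_comp h α)

variable {Y : SSet.{0}} {b : Base Y}

open Classical in
/-- The map on the part of the cylinder. -/
def cmap {B : SSet.{0}} {A : B.Subcomplex} (u : (A : SSet.{0}) ⟶ Om Y b) :
    (csub A : SSet.{0}) ⟶ Y where
  app k := TypeCat.ofHom (fun x => if h : x.1.1 ∈ A.obj k then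
    (FamL.ofHom u).f k ⟨x.1.1, h⟩ x.1.2 else b.pt k)
  naturality k l α := by
    refine ConcreteCategory.hom_ext _ _ fun x => ?_
    obtain ⟨⟨z, e⟩, hx⟩ := x
    show (if h : B.map α z ∈ A.obj l then
      (FamL.ofHom u).f l ⟨B.map α z, h⟩ (e ≫ α) else b.pt l) =
      Y.map α (if h : z ∈ A.obj k then (FamL.ofHom u).f k ⟨z, h⟩ e else b.pt k)
    by_cases h : z ∈ A.obj k
    · have h2 : B.map α z ∈ A.obj l := A.map α h
      rw [dif_pos h, dif_pos h2]
      exact (FamL.ofHom u).nat α ⟨z, h⟩ e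
    · rw [dif_neg h, b.nat]
      have he : Bdy e := by
        rcases hx with h' | h'
        · exact absurd h' h
        · exact h'
      by_cases h' : B.map α z ∈ A.obj l
      · rw [dif_pos h']
        exact (FamL.ofHom u).bd l _ _ (bdy_comp he α)
      · rw [dif_neg h']

theorem cmap_pos {B : SSet.{0}} {A : B.Subcomplex} (u : (A : SSet.{0}) ⟶ Om Y b) {k : Dop}
    (x : (csub A : SSet.{0}).obj k) (h : x.1.1 ∈ A.obj k) :
    (cmap u).app k x = (FamL.ofHom u).f k ⟨x.1.1, h⟩ x.1.2 := dif_pos h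

theorem cmap_bdy {B : SSet.{0}} {A : B.Subcomplex} (u : (A : SSet.{0}) ⟶ Om Y b) {k : Dop}
    (x : (csub A : SSet.{0}).obj k) (h : Bdy x.1.2) : (cmap u).app k x = b.pt k := by
  by_cases h' : x.1.1 ∈ A.obj k
  · rw [cmap_pos u x h']
    exact (FamL.ofHom u).bd k _ _ h
  · exact dif_neg h'

/-- The map on a subcomplex of the cylinder over `F`. -/
def fmap {B : SSet.{0}} {F : B.Subcomplex} (w : (F : SSet.{0}) ⟶ Om Y b)
    (F' : (cyl B).Subcomplex) (h : ∀ k, ∀ x ∈ F'.obj k, x.1 ∈ F.obj k) :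
    (F' : SSet.{0}) ⟶ Y where
  app k := TypeCat.ofHom (fun x => (FamL.ofHom w).f k ⟨x.1.1, h k _ x.2⟩ x.1.2)
  naturality k l α := by
    refine ConcreteCategory.hom_ext _ _ fun x => ?_
    obtain ⟨⟨z, e⟩, hx⟩ := x
    exact (FamL.ofHom w).nat α ⟨z, h k _ hx⟩ e

theorem main (Y : SSet.{0}) (b : Base Y) (hY : TCompact Y) : TCompact (Om Y b) := by
  intro B A u hu
  obtain ⟨W, hW⟩ := hY (cyl B) (csub A) (cmap u) (by
    intro F' hF'
    obtain ⟨w, hw⟩ := hu (Subcomplex.range (F'.ι ≫ pr B)) inferInstance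
    have hmem : ∀ k, ∀ x ∈ F'.obj k, x.1 ∈ (Subcomplex.range (F'.ι ≫ pr B)).obj k :=
      fun k x hx => ⟨⟨x, hx⟩, rfl⟩
    refine ⟨fmap w F' hmem, ?_⟩
    ext k x
    obtain ⟨⟨z, e⟩, hx1, hx2⟩ := x
    show (FamL.ofHom w).f k ⟨z, hmem k _ hx2⟩ e = (cmap u).app k ⟨(z, e), hx1⟩
    by_cases h : z ∈ A.obj k
    · rw [cmap_pos u ⟨(z, e), hx1⟩ h]
      have h1 := NatTrans.congr_app hw k
      have h2 := ConcreteCategory.congr_hom h1 ⟨z, h, hmem k _ hx2⟩
      exact congrArg (fun s : OmS Y b k => s.f k (𝟙 k) e) h2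
    · have he : Bdy e := by
        rcases hx1 with h' | h'
        · exact absurd h' h
        · exact h'
      rw [cmap_bdy u ⟨(z, e), hx1⟩ he]
      exact (FamL.ofHom w).bd k _ _ he)
  have hW' : ∀ (k : Dop) (x : (csub A : SSet.{0}).obj k), W.app k x.1 = (cmap u).app k x :=
    fun k x => ConcreteCategory.congr_hom (NatTrans.congr_app hW k) x
  let G : FamL Y b B :=
    { f := fun k z e => W.app k ((z, e) : B.obj k × (bx 1 ⟶ k))
      nat := fun {k l} α z e => NatTrans.naturality_apply W α ((z, e) : B.obj k × (bx 1 ⟶ k))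
      bd := fun k z e h => (hW' k ⟨(z, e), Or.inr h⟩).trans (cmap_bdy u _ h) }
  refine ⟨G.toHom, ?_⟩
  ext q z
  apply OmS.ext
  funext k σ e
  show W.app k ((B.map σ z.1, e) : B.obj k × (bx 1 ⟶ k)) = (u.app q z : OmS Y b q).f k σ e
  have h1 := hW' k ⟨(B.map σ z.1, e), Or.inl (A.map σ z.2)⟩
  refine h1.trans ?_
  rw [cmap_pos u ⟨(B.map σ z.1, e), Or.inl (A.map σ z.2)⟩ (A.map σ z.2)]
  have h2 : (u.app k ((A : SSet.{0}).map σ z) : OmS Y b k) = (Om Y b).map σ (u.app q z) :=
    NatTrans.naturality_apply u σ z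
  have h3 := congrArg (fun s : OmS Y b k => s.f k (𝟙 k) e) h2
  refine Eq.trans h3 ?_
  show (u.app q z : OmS Y b q).f k (σ ≫ 𝟙 k) e = _
  rw [Category.comp_id]

end OMC

theorem tt_omc : Stmt_OMC := OMC.main

end Pool.Agent.SH.TT

end

end

section

/-!
# MP_2d0b73_an, block III-T (TT): the cone lemma
-/

open CategoryTheory Simplicial SSet Opposite MonoidalCategory

noncomputable section

namespace Pool.Agent.SH.TT

namespace CONE

/-! ### Faces and degeneracies of simplicial vector spaces -/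

/-- The face `d_i`. -/
def fc (V : SV) {n : ℕ} (i : Fin (n + 2)) : V.obj (bx (n + 1)) →ₗ[ZMod 2] V.obj (bx n) :=
  (V.map (dop i)).hom

/-- The degeneracy `s_i`. -/
def dg (V : SV) {n : ℕ} (i : Fin (n + 1)) : V.obj (bx n) →ₗ[ZMod 2] V.obj (bx (n + 1)) :=
  (V.map (sop i)).hom

theorem fc_def (V : SV) {n : ℕ} (i : Fin (n + 2)) (x : V.obj (bx (n + 1))) :
    V.map (dop i) x = fc V i x := rfl

theorem fc_fc (V : SV) {n : ℕ} {i j : Fin (n + 2)} (h : i ≤ j) (x : V.obj (bx (n + 2))) :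
    fc V i (fc V j.succ x) = fc V j (fc V i.castSucc x) :=
  congrArg (fun φ : V.obj (bx (n + 2)) ⟶ V.obj (bx n) => φ.hom x)
    (SimplicialObject.δ_comp_δ V h)

theorem fc_dg_le (V : SV) {n : ℕ} {i : Fin (n + 2)} {j : Fin (n + 1)} (h : i ≤ j.castSucc)
    (x : V.obj (bx (n + 1))) : fc V i.castSucc (dg V j.succ x) = dg V j (fc V i x) :=
  congrArg (fun φ : V.obj (bx (n + 1)) ⟶ V.obj (bx (n + 1)) => φ.hom x)
    (SimplicialObject.δ_comp_σ_of_le V h)

theorem fc_dg_self (V : SV) {n : ℕ} (i : Fin (n + 1)) (x : V.obj (bx n)) :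
    fc V i.castSucc (dg V i x) = x :=
  congrArg (fun φ : V.obj (bx n) ⟶ V.obj (bx n) => φ.hom x) (SimplicialObject.δ_comp_σ_self V)

theorem aself {V : SV} {k : Dop} (x : V.obj k) : x + x = 0 := by
  have h : (2 : ZMod 2) • x = 0 := by
    have h2 : (2 : ZMod 2) = 0 := by decide
    rw [h2, zero_smul]
  rwa [two_smul] at h

/-- Last horn filler. -/
theorem horn (V : SV) (n : ℕ) (y : Fin (n + 2) → V.obj (bx (n + 1)))
    (hy : ∀ i j : Fin (n + 1), i ≤ j →
      fc V i.castSucc (y j.succ) = fc V j.castSucc (y i.castSucc)) :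
    ∃ w : V.obj (bx (n + 2)), ∀ i : Fin (n + 2), fc V i.castSucc w = y i := by
  have key : ∀ m : ℕ, m ≤ n + 2 → ∃ w : V.obj (bx (n + 2)), ∀ i : Fin (n + 2), (i : ℕ) < m →
      fc V i.castSucc w = y i := by
    intro m
    induction m with
    | zero =>
      intro _
      exact ⟨0, fun i hi => absurd hi (Nat.not_lt_zero _)⟩
    | succ m ih =>
      intro hm
      obtain ⟨w, hw⟩ := ih (by omega)
      obtain ⟨j, hj⟩ : ∃ j : Fin (n + 2), (j : ℕ) = m := ⟨⟨m, by omega⟩, rfl⟩
      refine ⟨w + dg V j (y j + fc V j.castSucc w), fun i hi => ?_⟩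
      rw [map_add]
      rcases Nat.lt_succ_iff_lt_or_eq.1 hi with h | h
      · have h1 : fc V i.castSucc (dg V j (y j + fc V j.castSucc w)) = 0 := by
          have hj0 : j ≠ 0 := by
            intro h0
            rw [h0] at hj
            simp only [Fin.val_zero] at hj
            omega
          obtain ⟨j', rfl⟩ := Fin.exists_succ_eq.2 hj0
          have hle : i ≤ j'.castSucc := by
            rw [Fin.le_def]
            simp only [Fin.val_succ] at hj
            simp only [Fin.val_castSucc]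
            omega
          rw [fc_dg_le V hle, map_add]
          have hi0 : i ≠ Fin.last (n + 1) := by
            intro h0
            rw [h0] at hle
            rw [Fin.le_def] at hle
            simp only [Fin.val_last, Fin.val_castSucc] at hle
            omega
          obtain ⟨i', rfl⟩ := Fin.exists_castSucc_eq.2 hi0
          have hle' : i' ≤ j' := by
            rw [Fin.le_def] at hle ⊢
            simpa using hle
          have e1 := fc_fc V hle w
          rw [show (j'.castSucc).succ = (j'.succ).castSucc from Fin.succ_castSucc j', hw _ h] at e1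
          rw [hy i' j' hle', e1, aself, map_zero]
        rw [h1, add_zero]
        exact hw i h
      · have hij : i = j := Fin.ext (h.trans hj.symm)
        subst hij
        rw [fc_dg_self]
        have h2 := aself (fc V i.castSucc w)
        calc fc V i.castSucc w + (y i + fc V i.castSucc w)
            = y i + (fc V i.castSucc w + fc V i.castSucc w) := by abel
          _ = y i := by rw [h2, add_zero]
  obtain ⟨w, hw⟩ := key (n + 2) le_rfl
  exact ⟨w, fun i => hw i i.2⟩

/-! ### Moore cycles and boundaries -/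

theorem mbd_zero (V : SV) (t : ℕ) : MBd V t 0 := ⟨0, map_zero _, fun _ => map_zero _⟩

theorem mbd_add {V : SV} {t : ℕ} {a b : V.obj (bx t)} (ha : MBd V t a) (hb : MBd V t b) :
    MBd V t (a + b) := by
  obtain ⟨w, h1, h2⟩ := ha
  obtain ⟨v, h3, h4⟩ := hb
  refine ⟨w + v, ?_, fun i => ?_⟩
  · rw [map_add, h1, h3]
  · rw [map_add, h2, h4, add_zero]

theorem mbd_sum {V : SV} {t : ℕ} {J : Type} (s : Finset J) (a : J → V.obj (bx t))
    (h : ∀ j ∈ s, MBd V t (a j)) : MBd V t (∑ j ∈ s, a j) := by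
  classical
  induction s using Finset.induction_on with
  | empty => rw [Finset.sum_empty]; exact mbd_zero V t
  | insert j s hj ih =>
    rw [Finset.sum_insert hj]
    exact mbd_add (h j (Finset.mem_insert_self j s))
      (ih fun i hi => h i (Finset.mem_insert_of_mem hi))

theorem mcyc_add {V : SV} {t : ℕ} {a b : V.obj (bx t)} (ha : MCyc V t a) (hb : MCyc V t b) :
    MCyc V t (a + b) := by
  intro k α hα
  rw [map_add, ha k α hα, hb k α hα, add_zero]

theorem mcyc_sum {V : SV} {t : ℕ} {J : Type} (s : Finset J) (a : J → V.obj (bx t))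
    (h : ∀ j ∈ s, MCyc V t (a j)) : MCyc V t (∑ j ∈ s, a j) := by
  intro k α hα
  rw [map_sum]
  exact Finset.sum_eq_zero fun j hj => h j hj k α hα

theorem mcyc_cof {D : CoV} {s t : ℕ} {z : (D.V s).obj (bx t)} (hz : MCyc (D.V s) t z)
    (i : Fin (s + 2)) : MCyc (D.V (s + 1)) t (D.cof s i (bx t) z) := by
  intro k α hα
  rw [← D.cof_nat, hz k α hα, D.cof_zero]

theorem mcyc_dl {D : CoV} {s t : ℕ} {z : (D.V s).obj (bx t)} (hz : MCyc (D.V s) t z) :
    MCyc (D.V (s + 1)) t (D.dl s z) :=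
  mcyc_sum _ _ fun i _ => mcyc_cof hz i

theorem mcyc_of_mbd (hMB : Stmt_MB) {V : SV} {t : ℕ} {z : V.obj (bx t)} (h : MBd V t z) :
    MCyc V t z := by
  cases t with
  | zero => exact hMB.1 V z
  | succ t =>
    rw [hMB.2.1]
    intro i
    obtain ⟨w, h1, h2⟩ := h
    have e := fc_fc V (Fin.zero_le i) w
    have h3 : fc V i.succ w = 0 := h2 i
    rw [h3, map_zero] at e
    rw [← h1]
    exact e.symm

theorem cof_fc (D : CoV) (s : ℕ) (i : Fin (s + 2)) {n : ℕ} (j : Fin (n + 2))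
    (x : (D.V s).obj (bx (n + 1))) :
    D.cof s i (bx n) (fc (D.V s) j x) = fc (D.V (s + 1)) j (D.cof s i (bx (n + 1)) x) :=
  D.cof_nat s i (dop j) x

/-! ### The double sum of the cofaces -/

/-- The involution. -/
def inv2 (n : ℕ) (p : Fin (n + 1) × Fin (n + 2)) : Fin (n + 1) × Fin (n + 2) :=
  if h : p.2 ≤ p.1.castSucc then
    (p.2.castLT (lt_of_le_of_lt (Fin.le_def.1 h) p.1.2), p.1.succ)
  else (p.2.pred (fun h0 => h (by rw [h0]; exact Fin.zero_le _)), p.1.castSucc)

theorem inv2_pos {n : ℕ} (i j : Fin (n + 1)) (h : j ≤ i) :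
    inv2 n (i, j.castSucc) = (j, i.succ) := by
  have h1 : j.castSucc ≤ i.castSucc := by
    rw [Fin.le_def] at h ⊢
    simpa using h
  unfold inv2
  rw [dif_pos h1]
  rfl

theorem inv2_neg {n : ℕ} (i j : Fin (n + 1)) (h : i ≤ j) :
    inv2 n (i, j.succ) = (j, i.castSucc) := by
  have h1 : ¬ j.succ ≤ i.castSucc := by
    rw [Fin.le_def] at h ⊢
    simp only [Fin.val_succ, Fin.val_castSucc]
    omega
  unfold inv2
  rw [dif_neg h1]
  rfl

theorem cases2 {n : ℕ} (p : Fin (n + 1) × Fin (n + 2)) :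
    (∃ i j : Fin (n + 1), j ≤ i ∧ p = (i, j.castSucc)) ∨
    (∃ i j : Fin (n + 1), i ≤ j ∧ p = (i, j.succ)) := by
  obtain ⟨i, j⟩ := p
  rcases le_or_gt (j : ℕ) (i : ℕ) with h | h
  · left
    refine ⟨i, ⟨j, lt_of_le_of_lt h i.2⟩, ?_, ?_⟩
    · rw [Fin.le_def]; exact h
    · rfl
  · right
    refine ⟨i, ⟨j - 1, by omega⟩, ?_, ?_⟩
    · rw [Fin.le_def]
      show (i : ℕ) ≤ (j : ℕ) - 1
      omega
    · refine Prod.ext rfl (Fin.ext ?_)
      show (j : ℕ) = (j : ℕ) - 1 + 1
      omega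

theorem cof_sum (D : CoV) (s : ℕ) (k : Dop) (x : (D.V s).obj k) :
    ∑ i : Fin (s + 2), ∑ j : Fin (s + 3), D.cof (s + 1) j k (D.cof s i k x) = 0 := by
  rw [← Finset.sum_product', Finset.univ_product_univ]
  have hsw : ∀ p : Fin (s + 2) × Fin (s + 3),
      D.cof (s + 1) (inv2 (s + 1) p).2 k (D.cof s (inv2 (s + 1) p).1 k x) =
        D.cof (s + 1) p.2 k (D.cof s p.1 k x) := by
    intro p
    rcases cases2 p with ⟨i, j, h, rfl⟩ | ⟨i, j, h, rfl⟩
    · rw [inv2_pos i j h]
      exact D.cof_cof s j i h k x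
    · rw [inv2_neg i j h]
      exact (D.cof_cof s i j h k x).symm
  refine Finset.sum_involution (fun p _ => inv2 (s + 1) p) ?_ ?_ ?_ ?_
  · intro p _
    show D.cof (s + 1) p.2 k (D.cof s p.1 k x) +
      D.cof (s + 1) (inv2 (s + 1) p).2 k (D.cof s (inv2 (s + 1) p).1 k x) = 0
    rw [hsw p, aself]
  · intro p _ _ hp
    rcases cases2 p with ⟨i, j, h, rfl⟩ | ⟨i, j, h, rfl⟩
    · rw [inv2_pos i j h] at hp
      have h1 := congrArg (fun q : Fin (s + 2) × Fin (s + 3) => (q.2 : ℕ)) hp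
      simp only [Fin.val_succ, Fin.val_castSucc] at h1
      rw [Fin.le_def] at h
      omega
    · rw [inv2_neg i j h] at hp
      have h1 := congrArg (fun q : Fin (s + 2) × Fin (s + 3) => (q.2 : ℕ)) hp
      simp only [Fin.val_succ, Fin.val_castSucc] at h1
      rw [Fin.le_def] at h
      omega
  · intro p _
    exact Finset.mem_univ _
  · intro p _
    rcases cases2 p with ⟨i, j, h, rfl⟩ | ⟨i, j, h, rfl⟩
    · rw [inv2_pos i j h, inv2_neg j i h]
    · rw [inv2_neg i j h, inv2_pos j i h]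

/-! ### The step -/

/-- What is used of the previous stage. -/
def Q1 (D : CoV) (s : ℕ) (H : (D.V s).obj (bx (s + 1))) : Prop :=
  ∀ i j : Fin (s + 1), i ≤ j →
    D.cof s j.succ (bx s) (fc (D.V s) i.castSucc H) =
      D.cof s i.castSucc (bx s) (fc (D.V s) j.castSucc H)

/-- Fill the horn given by the faces `c_i H`. -/
theorem fill {D : CoV} {s : ℕ} {H : (D.V s).obj (bx (s + 1))} (hH : Q1 D s H) :
    ∃ H' : (D.V (s + 1)).obj (bx (s + 2)), ∀ i : Fin (s + 2),
      fc (D.V (s + 1)) i.castSucc H' = D.cof s i (bx (s + 1)) H := by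
  refine horn (D.V (s + 1)) s (fun i => D.cof s i (bx (s + 1)) H) fun i j hij => ?_
  rw [← cof_fc, ← cof_fc]
  exact hH i j hij

section step

variable {D : CoV} {f : ∀ s : ℕ, (D.V s).obj (bx s)}
  (hf : ∀ (s : ℕ) (i : Fin (s + 2)), (D.V (s + 1)).map (dop i) (f (s + 1)) =
        D.cof s i (bx s) (f s))

include hf

/-- The obstruction is a Moore cycle. -/
theorem mcyc_z (hMB : Stmt_MB) {s : ℕ} {H : (D.V s).obj (bx (s + 1))}
    (hl : fc (D.V s) (Fin.last (s + 1)) H = f s)
    {H' : (D.V (s + 1)).obj (bx (s + 2))}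
    (hH' : ∀ i : Fin (s + 2), fc (D.V (s + 1)) i.castSucc H' = D.cof s i (bx (s + 1)) H) :
    MCyc (D.V (s + 1)) (s + 1) (f (s + 1) + fc (D.V (s + 1)) (Fin.last (s + 2)) H') := by
  rw [hMB.2.1]
  intro i
  rw [map_add, hf s i]
  have e := fc_fc (D.V (s + 1)) (Fin.le_last i) H'
  rw [Fin.succ_last] at e
  have e2 : (D.V (s + 1)).map (dop i) (fc (D.V (s + 1)) (Fin.last (s + 2)) H') =
      D.cof s i (bx s) (f s) := by
    refine e.trans ?_
    rw [hH' i, ← cof_fc, hl]
  rw [e2, aself]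

/-- The sum of the cofaces of the obstruction is a Moore boundary. -/
theorem mbd_dl_z (hMB : Stmt_MB) (hA : HAdd D) {s : ℕ} {H : (D.V s).obj (bx (s + 1))}
    (hl : fc (D.V s) (Fin.last (s + 1)) H = f s)
    {H' : (D.V (s + 1)).obj (bx (s + 2))}
    (hH' : ∀ i : Fin (s + 2), fc (D.V (s + 1)) i.castSucc H' = D.cof s i (bx (s + 1)) H) :
    MBd (D.V (s + 2)) (s + 1)
      (D.dl (s + 1) (f (s + 1) + fc (D.V (s + 1)) (Fin.last (s + 2)) H')) := by
  set z : (D.V (s + 1)).obj (bx (s + 1)) := f (s + 1) + fc (D.V (s + 1)) (Fin.last (s + 2)) H'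
    with hz
  have hzc : MCyc (D.V (s + 1)) (s + 1) z := mcyc_z hf hMB hl hH'
  -- (a) additivity
  have ha : MBd (D.V (s + 2)) (s + 1) (∑ j : Fin (s + 3),
      (D.cof (s + 1) j (bx (s + 1)) (fc (D.V (s + 1)) (Fin.last (s + 2)) H') +
        D.cof (s + 1) j (bx (s + 1)) (f (s + 1)) + D.cof (s + 1) j (bx (s + 1)) z)) := by
    refine mbd_sum _ _ fun j _ => ?_
    have h1 := hA (s + 1) j (s + 1) (f (s + 1)) z hzc
    have h2 : f (s + 1) + z = fc (D.V (s + 1)) (Fin.last (s + 2)) H' := by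
      rw [hz, ← add_assoc, aself, zero_add]
    rw [h2] at h1
    exact h1
  -- (b) the cofaces of f
  have hb : ∑ j : Fin (s + 3), D.cof (s + 1) j (bx (s + 1)) (f (s + 1)) =
      ∑ j : Fin (s + 3), fc (D.V (s + 2)) j (f (s + 2)) :=
    Finset.sum_congr rfl fun j _ => (hf (s + 1) j).symm
  -- (c) the cofaces of H'
  set G : (D.V (s + 2)).obj (bx (s + 2)) := ∑ j : Fin (s + 3), D.cof (s + 1) j (bx (s + 2)) H'
    with hG
  have hfG : ∀ i : Fin (s + 3), fc (D.V (s + 2)) i G =
      ∑ j : Fin (s + 3), D.cof (s + 1) j (bx (s + 1)) (fc (D.V (s + 1)) i H') := by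
    intro i
    rw [hG, map_sum]
    exact Finset.sum_congr rfl fun j _ => (cof_fc D (s + 1) j i H').symm
  have hc : ∑ i : Fin (s + 3), fc (D.V (s + 2)) i G =
      ∑ j : Fin (s + 3), D.cof (s + 1) j (bx (s + 1))
        (fc (D.V (s + 1)) (Fin.last (s + 2)) H') := by
    rw [Fin.sum_univ_castSucc, hfG (Fin.last (s + 2))]
    have h0 : ∑ i : Fin (s + 2), fc (D.V (s + 2)) i.castSucc G = 0 := by
      rw [← cof_sum D s (bx (s + 1)) H]
      refine Finset.sum_congr rfl fun i _ => ?_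
      rw [hfG i.castSucc]
      exact Finset.sum_congr rfl fun j _ => by rw [hH' i]
    rw [h0, zero_add]
  -- the sum form
  have hd : ∑ i : Fin (s + 3), fc (D.V (s + 2)) i (f (s + 2) + G) =
      ∑ j : Fin (s + 3), D.cof (s + 1) j (bx (s + 1)) (f (s + 1)) +
      ∑ j : Fin (s + 3), D.cof (s + 1) j (bx (s + 1))
        (fc (D.V (s + 1)) (Fin.last (s + 2)) H') := by
    rw [hb, ← hc, ← Finset.sum_add_distrib]
    exact Finset.sum_congr rfl fun i _ => map_add _ _ _
  rw [Finset.sum_add_distrib, Finset.sum_add_distrib] at ha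
  have hdl : D.dl (s + 1) z = ∑ j : Fin (s + 3), D.cof (s + 1) j (bx (s + 1)) z := rfl
  rw [hdl]
  set A := ∑ j : Fin (s + 3), D.cof (s + 1) j (bx (s + 1)) (f (s + 1))
  set B := ∑ j : Fin (s + 3), D.cof (s + 1) j (bx (s + 1))
        (fc (D.V (s + 1)) (Fin.last (s + 2)) H')
  set C := ∑ j : Fin (s + 3), D.cof (s + 1) j (bx (s + 1)) z with hC
  have hCc : MCyc (D.V (s + 2)) (s + 1) C := mcyc_sum _ _ fun j _ => mcyc_cof hzc j
  have hAB : MCyc (D.V (s + 2)) (s + 1) (A + B) := by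
    have h1 := mcyc_add (mcyc_of_mbd hMB ha) hCc
    have h2 : B + A + C + C = A + B := by
      have hC2 := aself C
      calc B + A + C + C = A + B + (C + C) := by abel
        _ = A + B := by rw [hC2, add_zero]
    rwa [h2] at h1
  have hABb : MBd (D.V (s + 2)) (s + 1) (A + B) :=
    (hMB.2.2 _ _ _ hAB).1.2 ⟨f (s + 2) + G, hd⟩
  have h3 := mbd_add ha hABb
  have h4 : B + A + C + (A + B) = C := by
    have hA2 := aself A
    have hB2 := aself B
    calc B + A + C + (A + B) = (A + A) + (B + B) + C := by abel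
      _ = C := by rw [hA2, hB2, add_zero, zero_add]
  rwa [h4] at h3

/-- The step of the construction. -/
theorem step (hMB : Stmt_MB) (hA : HAdd D) (hE : ExC D 0) {s : ℕ}
    {H : (D.V s).obj (bx (s + 1))} (hH : Q1 D s H)
    (hl : fc (D.V s) (Fin.last (s + 1)) H = f s) :
    ∃ (H₂ : (D.V s).obj (bx (s + 1))) (H₃ : (D.V (s + 1)).obj (bx (s + 2))),
      (∀ i : Fin (s + 2), fc (D.V s) i H₂ = fc (D.V s) i H) ∧
      (∀ i : Fin (s + 2), fc (D.V (s + 1)) i.castSucc H₃ = D.cof s i (bx (s + 1)) H₂) ∧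
      fc (D.V (s + 1)) (Fin.last (s + 2)) H₃ = f (s + 1) ∧ Q1 D (s + 1) H₃ := by
  obtain ⟨H', hH'⟩ := fill hH
  obtain ⟨y, hy, hyb⟩ := (hE (s + 1) (Nat.zero_le _)).2 s _ (mcyc_z hf hMB hl hH')
    (mbd_dl_z hf hMB hA hl hH')
  have hyf : ∀ i : Fin (s + 2), fc (D.V s) i y = 0 := fun i => (hMB.2.1 _ _ _).1 hy i
  have hH₂f : ∀ i : Fin (s + 2), fc (D.V s) i (H + y) = fc (D.V s) i H := by
    intro i
    rw [map_add, hyf i, add_zero]
  have hH₂ : Q1 D s (H + y) := by
    intro i j hij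
    rw [hH₂f, hH₂f]
    exact hH i j hij
  have hl₂ : fc (D.V s) (Fin.last (s + 1)) (H + y) = f s := by rw [hH₂f, hl]
  obtain ⟨H'', hH''⟩ := fill hH₂
  set z : (D.V (s + 1)).obj (bx (s + 1)) := f (s + 1) + fc (D.V (s + 1)) (Fin.last (s + 2)) H'
    with hz
  set z₂ : (D.V (s + 1)).obj (bx (s + 1)) := f (s + 1) + fc (D.V (s + 1)) (Fin.last (s + 2)) H''
    with hz₂
  have hzc : MCyc (D.V (s + 1)) (s + 1) z := mcyc_z hf hMB hl hH'
  have hz₂c : MCyc (D.V (s + 1)) (s + 1) z₂ := mcyc_z hf hMB hl₂ hH''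
  set e : Fin (s + 2) → (D.V (s + 1)).obj (bx (s + 1)) := fun i =>
    D.cof s i (bx (s + 1)) (H + y) + D.cof s i (bx (s + 1)) H with he
  have hec : ∀ i, MCyc (D.V (s + 1)) (s + 1) (e i) := by
    intro i
    rw [hMB.2.1]
    intro k
    show fc (D.V (s + 1)) k (D.cof s i (bx (s + 1)) (H + y) + D.cof s i (bx (s + 1)) H) = 0
    rw [map_add, ← cof_fc, ← cof_fc, hH₂f, aself]
  -- sum form
  have hsum : ∑ i : Fin (s + 3), fc (D.V (s + 1)) i (H' + H'') = (∑ i, e i) + (z + z₂) := by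
    rw [Fin.sum_univ_castSucc]
    have h1 : ∑ i : Fin (s + 2), fc (D.V (s + 1)) i.castSucc (H' + H'') = ∑ i, e i := by
      refine Finset.sum_congr rfl fun i _ => ?_
      rw [map_add, hH' i, hH'' i, he]
      exact add_comm _ _
    have h2 : fc (D.V (s + 1)) (Fin.last (s + 2)) (H' + H'') = z + z₂ := by
      rw [map_add, hz, hz₂]
      have h3 := aself (f (s + 1))
      calc fc (D.V (s + 1)) (Fin.last (s + 2)) H' + fc (D.V (s + 1)) (Fin.last (s + 2)) H''
          = 0 + (fc (D.V (s + 1)) (Fin.last (s + 2)) H' +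
            fc (D.V (s + 1)) (Fin.last (s + 2)) H'') := by rw [zero_add]
        _ = (f (s + 1) + f (s + 1)) + (fc (D.V (s + 1)) (Fin.last (s + 2)) H' +
            fc (D.V (s + 1)) (Fin.last (s + 2)) H'') := by rw [h3]
        _ = _ := by abel
    rw [h1, h2]
  have hb1 : MBd (D.V (s + 1)) (s + 1) ((∑ i, e i) + (z + z₂)) :=
    (hMB.2.2 _ _ _ (mcyc_add (mcyc_sum _ _ fun i _ => hec i) (mcyc_add hzc hz₂c))).1.2
      ⟨H' + H'', hsum⟩
  -- e_i is c_i y up to boundaries
  have hb2 : MBd (D.V (s + 1)) (s + 1) (∑ i, (e i + D.cof s i (bx (s + 1)) y)) :=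
    mbd_sum _ _ fun i _ => hA s i (s + 1) H y hy
  have hz₂b : MBd (D.V (s + 1)) (s + 1) z₂ := by
    have h1 := mbd_add (mbd_add hb1 hb2) hyb
    have hs : ∑ i, (e i + D.cof s i (bx (s + 1)) y) =
        ∑ i, e i + ∑ i : Fin (s + 2), D.cof s i (bx (s + 1)) y := Finset.sum_add_distrib
    have hdl : D.dl s y = ∑ i : Fin (s + 2), D.cof s i (bx (s + 1)) y := rfl
    rw [hs, hdl] at h1
    have h2 := aself (∑ i, e i)
    have h3 := aself z
    have h4 := aself (∑ i : Fin (s + 2), D.cof s i (bx (s + 1)) y)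
    have h5 : (∑ i, e i) + (z + z₂) + ((∑ i, e i) + ∑ i : Fin (s + 2),
        D.cof s i (bx (s + 1)) y) + (z + ∑ i : Fin (s + 2), D.cof s i (bx (s + 1)) y) = z₂ := by
      calc (∑ i, e i) + (z + z₂) + ((∑ i, e i) + ∑ i : Fin (s + 2),
            D.cof s i (bx (s + 1)) y) + (z + ∑ i : Fin (s + 2), D.cof s i (bx (s + 1)) y)
          = ((∑ i, e i) + (∑ i, e i)) + (z + z) + (∑ i : Fin (s + 2),
            D.cof s i (bx (s + 1)) y + ∑ i : Fin (s + 2), D.cof s i (bx (s + 1)) y) + z₂ := by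
              abel
        _ = z₂ := by rw [h2, h3, h4, add_zero, add_zero, zero_add]
    rwa [h5] at h1
  obtain ⟨v, hv1, hv2⟩ := (hMB.2.2 _ _ _ hz₂c).2.1 hz₂b
  have hv1' : fc (D.V (s + 1)) (Fin.last (s + 2)) v = z₂ := hv1
  have hv2' : ∀ i : Fin (s + 2), fc (D.V (s + 1)) i.castSucc v = 0 := hv2
  have hH₃ : ∀ i : Fin (s + 2), fc (D.V (s + 1)) i.castSucc (H'' + v) =
      D.cof s i (bx (s + 1)) (H + y) := by
    intro i
    rw [map_add, hH'' i, hv2' i, add_zero]
  refine ⟨H + y, H'' + v, hH₂f, hH₃, ?_, ?_⟩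
  · rw [map_add, hv1', hz₂]
    have h1 := aself (fc (D.V (s + 1)) (Fin.last (s + 2)) H'')
    calc fc (D.V (s + 1)) (Fin.last (s + 2)) H'' +
          (f (s + 1) + fc (D.V (s + 1)) (Fin.last (s + 2)) H'')
        = f (s + 1) + (fc (D.V (s + 1)) (Fin.last (s + 2)) H'' +
          fc (D.V (s + 1)) (Fin.last (s + 2)) H'') := by abel
      _ = f (s + 1) := by rw [h1, add_zero]
  · intro i j hij
    rw [hH₃, hH₃]
    exact D.cof_cof s i j hij _ _

end step

end CONE

open CONE in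
/-- The cone lemma. -/
theorem tt_cone : Stmt_CONE := by
  intro hMB D hA hE f hf
  -- the initial stage
  obtain ⟨H₀, hl₀, h₀⟩ : ∃ H₀ : (D.V 0).obj (bx 1), fc (D.V 0) (Fin.last 1) H₀ = f 0 ∧
      fc (D.V 0) (Fin.castSucc (0 : Fin 1)) H₀ = 0 := by
    have h1 : MBd (D.V 1) 0 (D.dl 0 (f 0)) := by
      refine (hMB.2.2 _ _ _ (hMB.1 _ _)).1.2 ⟨f 1, ?_⟩
      exact Finset.sum_congr rfl fun i _ => hf 0 i
    have h2 := (hE 0 le_rfl).1 (f 0) (hMB.1 _ _) h1
    obtain ⟨w, hw1, hw2⟩ := (hMB.2.2 _ _ _ (hMB.1 _ _)).2.1 h2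
    exact ⟨w, hw1, hw2 0⟩
  have hQ₀ : CONE.Q1 D 0 H₀ := by
    intro i j _
    have hi : i = 0 := Fin.ext (by omega)
    have hj : j = 0 := Fin.ext (by omega)
    subst hi hj
    rw [h₀, D.cof_zero, D.cof_zero]
  let St : ℕ → Type := fun s => {H : (D.V s).obj (bx (s + 1)) //
    CONE.Q1 D s H ∧ fc (D.V s) (Fin.last (s + 1)) H = f s}
  have hstep : ∀ (s : ℕ) (H : St s), ∃ (H₂ : (D.V s).obj (bx (s + 1))) (H₃ : St (s + 1)),
      (∀ i : Fin (s + 2), fc (D.V s) i H₂ = fc (D.V s) i H.1) ∧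
      (∀ i : Fin (s + 2), fc (D.V (s + 1)) i.castSucc H₃.1 = D.cof s i (bx (s + 1)) H₂) := by
    intro s H
    obtain ⟨H₂, H₃, h1, h2, h3, h4⟩ := step hf hMB hA hE H.2.1 H.2.2
    exact ⟨H₂, ⟨H₃, h4, h3⟩, h1, h2⟩
  choose c nx hc hn using hstep
  let sq : ∀ s : ℕ, St s := fun s => Nat.rec (motive := fun s => St s) ⟨H₀, hQ₀, hl₀⟩ nx s
  have hsq : ∀ s, sq (s + 1) = nx s (sq s) := fun s => rfl
  refine ⟨fun s => c s (sq s), ?_, ?_, fun s => ⟨fun i => ?_, ?_⟩⟩
  · exact (hc 0 (sq 0) 0).trans h₀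
  · exact (hc 0 (sq 0) 1).trans hl₀
  · refine (hc (s + 1) (sq (s + 1)) i.castSucc).trans ?_
    rw [hsq]
    exact hn s (sq s) i
  · exact (hc (s + 1) (sq (s + 1)) (Fin.last (s + 2))).trans (sq (s + 1)).2.2

end Pool.Agent.SH.TT

end

end

section

/-!
# MP_2d0b73_an, block III-T, module TT_HADD: additivity from a loop coordinate
-/

open CategoryTheory Simplicial SSet Opposite MonoidalCategory

noncomputable section

namespace Pool.Agent.SH.TT

namespace HADD

/-! ### Characteristic two -/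

theorem add_self' {M : ModuleCat.{0} (ZMod 2)} (x : M) : x + x = 0 := by
  have h : (2 : ZMod 2) • x = x + x := two_smul _ x
  rw [← h, show (2 : ZMod 2) = 0 from rfl, zero_smul]

/-! ### The cross term of a coface -/

variable (D : CoV) (s : ℕ) (i : Fin (s + 2))

/-- The cross term. -/
def cr (k : Dop) (x x' : (D.V s).obj k) : (D.V (s + 1)).obj k :=
  D.cof s i k (x + x') + D.cof s i k x + D.cof s i k x'

theorem cr_nat {k l : Dop} (α : k ⟶ l) (x x' : (D.V s).obj k) :
    cr D s i l ((D.V s).map α x) ((D.V s).map α x') = (D.V (s + 1)).map α (cr D s i k x x') := by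
  unfold cr
  rw [← map_add ((D.V s).map α).hom, D.cof_nat, D.cof_nat, D.cof_nat, map_add, map_add]

theorem cr_zero_right (k : Dop) (x : (D.V s).obj k) : cr D s i k x 0 = 0 := by
  unfold cr
  rw [add_zero, D.cof_zero, add_zero, add_self']

theorem cr_zero_left (k : Dop) (x : (D.V s).obj k) : cr D s i k 0 x = 0 := by
  unfold cr
  rw [zero_add, D.cof_zero, add_zero, add_self']

/-! ### The contraction of the simplex to its vertex `0` -/

variable {n : ℕ}

/-- The contraction. -/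
def kap {k : Dop} (ρ : (Δ[n] : SSet.{0}).obj k) (u : bx 1 ⟶ k) : (Δ[n] : SSet.{0}).obj k :=
  stdSimplex.objEquiv.symm (SimplexCategory.Hom.mk
    { toFun := fun m => if u.unop.toOrderHom m = 0 then 0 else (stdSimplex.asOrderHom ρ) m
      monotone' := by
        intro a b hab
        have h1 := u.unop.toOrderHom.monotone hab
        have h2 := (stdSimplex.asOrderHom ρ).monotone hab
        by_cases hb : u.unop.toOrderHom b = 0
        · have ha : u.unop.toOrderHom a = 0 := by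
            rw [hb] at h1
            exact le_antisymm h1 (Fin.zero_le _)
          simp only [ha, hb, if_true]
          exact le_rfl
        · by_cases ha : u.unop.toOrderHom a = 0
          · simp only [ha, if_true]
            exact Fin.zero_le _
          · simp only [ha, hb, if_false]
            exact h2 })

theorem kap_nat {k l : Dop} (α : k ⟶ l) (ρ : (Δ[n] : SSet.{0}).obj k) (u : bx 1 ⟶ k) :
    kap ((Δ[n] : SSet.{0}).map α ρ) (u ≫ α) = (Δ[n] : SSet.{0}).map α (kap ρ u) := rfl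

theorem kap_one {k : Dop} (ρ : (Δ[n] : SSet.{0}).obj k) (u : bx 1 ⟶ k)
    (hu : ∀ m, u.unop.toOrderHom m ≠ 0) : kap ρ u = ρ := by
  apply stdSimplex.objEquiv.injective
  unfold kap
  rw [Equiv.apply_symm_apply]
  ext m : 3
  show (if u.unop.toOrderHom m = 0 then 0 else (stdSimplex.asOrderHom ρ) m) =
    (stdSimplex.asOrderHom ρ) m
  rw [if_neg (hu m)]

theorem kap_zero {k : Dop} (ρ : (Δ[n] : SSet.{0}).obj k) (u : bx 1 ⟶ k) (hn : 1 ≤ n)
    (hu : ∀ m, u.unop.toOrderHom m = 0) : kap ρ u ∈ (∂Δ[n] : (Δ[n] : SSet.{0}).Subcomplex).obj k := by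
  show ¬ Function.Surjective (stdSimplex.asOrderHom (kap ρ u))
  intro hs
  obtain ⟨m, hm⟩ := hs (Fin.last n)
  have h1 : stdSimplex.asOrderHom (kap ρ u) m = 0 := by
    show (if u.unop.toOrderHom m = 0 then 0 else (stdSimplex.asOrderHom ρ) m) = 0
    rw [if_pos (hu m)]
  rw [h1] at hm
  have h2 := congrArg Fin.val hm
  simp only [Fin.val_zero, Fin.val_last] at h2
  omega

/-! ### The maps to the interval -/

/-- The map `[t] → [1]` with the value `0` at the first `j` elements. -/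
def vv (t j : ℕ) : bx 1 ⟶ bx t :=
  Quiver.Hom.op (V := SimplexCategory) (X := ⦋t⦌) (Y := ⦋1⦌) (SimplexCategory.Hom.mk
    { toFun := fun m => if m.val < j then (0 : Fin 2) else 1
      monotone' := by
        intro a b hab
        have h1 : a.val ≤ b.val := hab
        by_cases hb : b.val < j
        · have ha : a.val < j := lt_of_le_of_lt h1 hb
          simp only [ha, hb, if_true]
          exact le_rfl
        · simp only [hb, if_false]
          exact Fin.le_last _ })

theorem vv_apply (t j : ℕ) (m : Fin (t + 1)) :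
    (vv t j).unop.toOrderHom m = if m.val < j then (0 : Fin 2) else 1 := rfl

/-- The restriction of the maps to the interval along a face. -/
theorem vv_dop {t : ℕ} (j : ℕ) (i : Fin (t + 2)) (h : i.val = j ∨ i.val = j + 1) :
    vv (t + 1) (j + 1) ≫ dop i = vv t i.val := by
  apply Quiver.Hom.unop_inj
  ext m : 3
  show (if (i.succAbove m).val < j + 1 then (0 : Fin 2) else 1) =
    if m.val < i.val then (0 : Fin 2) else 1
  have h1 : (i.succAbove m).val < j + 1 ↔ m.val < i.val := by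
    by_cases hm : m.castSucc < i
    · rw [Fin.succAbove_of_castSucc_lt _ _ hm]
      have h2 : m.val < i.val := hm
      simp only [Fin.val_castSucc]
      omega
    · rw [Fin.succAbove_of_le_castSucc _ _ (not_lt.mp hm)]
      have h2 : ¬ m.val < i.val := hm
      simp only [Fin.val_succ]
      omega
  simp only [h1]

theorem sop_dop_id {t : ℕ} (j : Fin (t + 1)) (i : Fin (t + 2))
    (h : i.val = j.val ∨ i.val = j.val + 1) : sop j ≫ dop i = 𝟙 (bx t) := by
  apply Quiver.Hom.unop_inj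
  show SimplexCategory.δ i ≫ SimplexCategory.σ j = 𝟙 _
  rcases h with h | h
  · exact SimplexCategory.δ_comp_σ_self' (Fin.ext h)
  · exact SimplexCategory.δ_comp_σ_succ' (Fin.ext h)

theorem sop_dop_bdy {t : ℕ} (j : Fin (t + 1)) (i : Fin (t + 2))
    (h : ¬ (i.val = j.val ∨ i.val = j.val + 1)) : Bdy (sop j ≫ dop i) := by
  intro hs
  have hval : ∀ m : Fin (t + 1), (sop j ≫ dop i).unop.toOrderHom m =
      j.predAbove (i.succAbove m) := fun m => rfl
  have hj := j.isLt
  have hi := i.isLt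
  by_cases hlt : i.val < j.val
  · obtain ⟨m, hm⟩ := hs (⟨i.val, by omega⟩ : Fin (t + 1))
    rw [hval] at hm
    have h2 := congrArg Fin.val hm
    by_cases hm1 : m.castSucc < i
    · rw [Fin.succAbove_of_castSucc_lt _ _ hm1, Fin.predAbove_of_le_castSucc] at h2
      · have h3 : m.val < i.val := hm1
        simp only [Fin.coe_castPred, Fin.val_castSucc] at h2
        omega
      · have h3 : m.val < i.val := hm1
        show m.val ≤ j.val
        omega
    · have h3 : ¬ m.val < i.val := hm1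
      rw [Fin.succAbove_of_le_castSucc _ _ (not_lt.mp hm1)] at h2
      by_cases hm2 : j.castSucc < m.succ
      · rw [Fin.predAbove_of_castSucc_lt _ _ hm2] at h2
        have h4 : j.val < m.val + 1 := hm2
        simp only [Fin.pred_succ] at h2
        omega
      · rw [Fin.predAbove_of_le_castSucc _ _ (not_lt.mp hm2)] at h2
        simp only [Fin.coe_castPred, Fin.val_succ] at h2
        omega
  · obtain ⟨m, hm⟩ := hs (⟨i.val - 1, by omega⟩ : Fin (t + 1))
    rw [hval] at hm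
    have h2 := congrArg Fin.val hm
    by_cases hm1 : m.castSucc < i
    · have h3 : m.val < i.val := hm1
      rw [Fin.succAbove_of_castSucc_lt _ _ hm1] at h2
      by_cases hm2 : j.castSucc < m.castSucc
      · rw [Fin.predAbove_of_castSucc_lt _ _ hm2] at h2
        have h4 : j.val < m.val := hm2
        simp only [Fin.val_pred, Fin.val_castSucc] at h2
        omega
      · rw [Fin.predAbove_of_le_castSucc _ _ (not_lt.mp hm2)] at h2
        have h4 : ¬ j.val < m.val := hm2
        simp only [Fin.coe_castPred, Fin.val_castSucc] at h2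
        omega
    · have h3 : ¬ m.val < i.val := hm1
      rw [Fin.succAbove_of_le_castSucc _ _ (not_lt.mp hm1)] at h2
      by_cases hm2 : j.castSucc < m.succ
      · rw [Fin.predAbove_of_castSucc_lt _ _ hm2] at h2
        simp only [Fin.pred_succ] at h2
        omega
      · have h4 : ¬ j.val < m.val + 1 := hm2
        omega

/-! ### The prism -/

variable {t : ℕ}

/-- The term of the prism. -/
def T (a y : (MapP (Δ[n] : SSet.{0}) ∂Δ[n] (D.V s)).obj (bx t)) (k : Dop)
    (ρ : (Δ[n] : SSet.{0}).obj k) (u : bx 1 ⟶ k) (σ : bx t ⟶ k) : (D.V (s + 1)).obj k :=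
  cr D s i k (MapP.ev a k ρ σ) (MapP.ev y k (kap ρ u) σ)

/-- The prism. -/
def prism (a y : (MapP (Δ[n] : SSet.{0}) ∂Δ[n] (D.V s)).obj (bx t)) :
    (MapP (Δ[n] : SSet.{0}) ∂Δ[n] (D.V (s + 1))).obj (bx (t + 1)) :=
  MapP.mk (fun k ρ σ => ∑ j : Fin (t + 1), T D s i a y k ρ (vv (t + 1) (j.val + 1) ≫ σ)
      (sop j ≫ σ))
    (by
      intro k l α ρ σ
      rw [map_sum]
      refine Finset.sum_congr rfl fun j _ => ?_
      unfold T
      rw [← cr_nat]
      congr 1
      · rw [← Category.assoc, MapP.nat]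
      · rw [← Category.assoc, ← Category.assoc, kap_nat, MapP.nat])
    (by
      intro k ρ σ hρ
      refine Finset.sum_eq_zero fun j _ => ?_
      unfold T
      rw [MapP.van a ρ _ hρ, cr_zero_left])

theorem ev_bdy {V : SV} {q : ℕ} {y : (MapP (Δ[n] : SSet.{0}) ∂Δ[n] V).obj (bx q)}
    (hy : MCyc (MapP (Δ[n] : SSet.{0}) ∂Δ[n] V) q y) {k l : Dop} (α : bx q ⟶ k) (hα : Bdy α)
    (ρ : (Δ[n] : SSet.{0}).obj l) (σ : k ⟶ l) : MapP.ev y l ρ (α ≫ σ) = 0 := by
  have h1 := hy k α hα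
  rw [← MapP.ev_map, h1, MapP.ev_zero]

/-- The faces of the terms. -/
theorem T_face {a y : (MapP (Δ[n] : SSet.{0}) ∂Δ[n] (D.V s)).obj (bx t)}
    (hy : MCyc (MapP (Δ[n] : SSet.{0}) ∂Δ[n] (D.V s)) t y) (e : Fin (t + 2)) (j : Fin (t + 1))
    (k : Dop) (ρ : (Δ[n] : SSet.{0}).obj k) (σ : bx t ⟶ k) :
    T D s i a y k ρ (vv (t + 1) (j.val + 1) ≫ dop e ≫ σ) (sop j ≫ dop e ≫ σ) =
      if e.val = j.val ∨ e.val = j.val + 1 then T D s i a y k ρ (vv t e.val ≫ σ) σ else 0 := by
  by_cases h : e.val = j.val ∨ e.val = j.val + 1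
  · rw [if_pos h, ← Category.assoc, vv_dop j.val e h, ← Category.assoc, sop_dop_id j e h,
      Category.id_comp]
  · rw [if_neg h]
    unfold T
    rw [← Category.assoc (sop j), ev_bdy hy _ (sop_dop_bdy j e h), cr_zero_right]

/-- The cross term of the coface of `MapP`. -/
def crM (a y : (MapP (Δ[n] : SSet.{0}) ∂Δ[n] (D.V s)).obj (bx t)) :
    (MapP (Δ[n] : SSet.{0}) ∂Δ[n] (D.V (s + 1))).obj (bx t) :=
  (D.mp (Δ[n] : SSet.{0}) ∂Δ[n]).cof s i (bx t) (a + y) +
    (D.mp (Δ[n] : SSet.{0}) ∂Δ[n]).cof s i (bx t) a + (D.mp (Δ[n] : SSet.{0}) ∂Δ[n]).cof s i (bx t) y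

theorem ev_crM (a y : (MapP (Δ[n] : SSet.{0}) ∂Δ[n] (D.V s)).obj (bx t)) (k : Dop)
    (ρ : (Δ[n] : SSet.{0}).obj k) (σ : bx t ⟶ k) : MapP.ev (crM D s i a y) k ρ σ =
      cr D s i k (MapP.ev a k ρ σ) (MapP.ev y k ρ σ) := rfl

theorem ev_face (a y : (MapP (Δ[n] : SSet.{0}) ∂Δ[n] (D.V s)).obj (bx t)) (e : Fin (t + 2))
    (k : Dop) (ρ : (Δ[n] : SSet.{0}).obj k) (σ : bx t ⟶ k) :
    MapP.ev ((MapP (Δ[n] : SSet.{0}) ∂Δ[n] (D.V (s + 1))).map (dop e) (prism D s i a y)) k ρ σ =
      ∑ j : Fin (t + 1), T D s i a y k ρ (vv (t + 1) (j.val + 1) ≫ dop e ≫ σ)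
        (sop j ≫ dop e ≫ σ) := rfl

theorem main (hn : 1 ≤ n) (a y : (MapP (Δ[n] : SSet.{0}) ∂Δ[n] (D.V s)).obj (bx t))
    (hy' : MCyc (MapP (Δ[n] : SSet.{0}) ∂Δ[n] (D.V s)) t y) :
    MBd (MapP (Δ[n] : SSet.{0}) ∂Δ[n] (D.V (s + 1))) t (crM D s i a y) := by
  refine ⟨prism D s i a y, ?_, ?_⟩
  · apply MapP.ext
    intro k ρ σ
    rw [ev_face, ev_crM, Finset.sum_congr rfl fun j _ => T_face D s i hy' 0 j k ρ σ,
      Finset.sum_eq_single 0]
    · rw [if_pos (Or.inl (by simp))]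
      unfold T
      rw [kap_one]
      · intro m
        show (if (σ.unop.toOrderHom m).val < 0 then (0 : Fin 2) else 1) ≠ 0
        rw [if_neg (Nat.not_lt_zero _)]
        decide
    · intro j _ hj
      rw [if_neg]
      rintro (h | h)
      · exact hj (Fin.ext h.symm)
      · simp at h
    · intro h
      exact absurd (Finset.mem_univ _) h
  · intro e
    apply MapP.ext
    intro k ρ σ
    rw [ev_face, Finset.sum_congr rfl fun j _ => T_face D s i hy' e.succ j k ρ σ, MapP.ev_zero]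
    by_cases he : e.val = t
    · refine Finset.sum_eq_zero fun j _ => ?_
      by_cases h : e.succ.val = j.val ∨ e.succ.val = j.val + 1
      · rw [if_pos h]
        unfold T
        rw [MapP.van y _ _ (kap_zero ρ _ hn ?_), cr_zero_right]
        intro m
        show (if (σ.unop.toOrderHom m).val < e.succ.val then (0 : Fin 2) else 1) = 0
        rw [if_pos]
        have h2 := (σ.unop.toOrderHom m).isLt
        rw [Fin.val_succ, he]
        exact h2
      · rw [if_neg h]
    · have het : e.val < t := by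
        have := e.isLt
        omega
      have hne : e ≠ (⟨e.val + 1, by omega⟩ : Fin (t + 1)) := by
        intro h
        have := congrArg Fin.val h
        simp at this
      rw [Fintype.sum_eq_add e (⟨e.val + 1, by omega⟩ : Fin (t + 1)) hne]
      · rw [if_pos (Or.inr (by simp)), if_pos (Or.inl (by simp)), add_self']
      · rintro j ⟨h1, h2⟩
        rw [if_neg]
        rintro (h | h)
        · apply h2
          apply Fin.ext
          simp only [Fin.val_succ] at h
          exact h.symm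
        · apply h1
          apply Fin.ext
          simp only [Fin.val_succ] at h
          omega

end HADD

theorem tt_hadd : Stmt_HADD := by
  intro D n hn s i t a y hy
  exact HADD.main D s i hn a y hy

end Pool.Agent.SH.TT

end

end

section

/-!
# MP_2d0b73_an, block III-T (TT): null homotopies from the cone lemma
-/

open CategoryTheory Simplicial SSet Opposite MonoidalCategory

noncomputable section

namespace Pool.Agent.SH.TT.NUL

/-! ### Exactness -/

theorem exc_mono {D : CoV} (h : ExC D 0) : ExC D 1 := fun t _ => h t (Nat.zero_le t)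

theorem exc_all (hTR : ∀ (D : CoV) (n : ℕ), ExC (D.mp (Δ[n] : SSet.{0}) ∂Δ[n]) 1 →
      ExC (D.mp (Δ[n + 1] : SSet.{0}) ∂Δ[n + 1]) 0)
    (hT0 : ∀ D : CoV, ExC D 1 → ExC (D.mp (Δ[0] : SSet.{0}) ∂Δ[0]) 1)
    (D : CoV) (h : ExC D 1) : ∀ n : ℕ, ExC (D.mp (Δ[n] : SSet.{0}) ∂Δ[n]) 1 := by
  intro n
  induction n with
  | zero => exact hT0 D h
  | succ n ih => exact exc_mono (hTR D n ih)

/-! ### The combinatorial map -/

/-- the simplex `(t, a)` of the cone on `Δ^s`, with last vertex the cone point -/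
def kap {s : ℕ} {l : Dop} (a : bx 1 ⟶ l) (t : bx s ⟶ l) : bx (s + 1) ⟶ l :=
  Quiver.Hom.op (X := l.unop) (Y := ⦋s + 1⦌)
  (SimplexCategory.Hom.mk (a := l.unop) (b := ⦋s + 1⦌)
    { toFun := fun i => if a.unop.toOrderHom i = 0 then (t.unop.toOrderHom i).castSucc
        else Fin.last (s + 1)
      monotone' := by
        intro i j hij
        dsimp only
        have ha := a.unop.toOrderHom.monotone hij
        have ht := t.unop.toOrderHom.monotone hij
        by_cases h1 : a.unop.toOrderHom j = 0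
        · have h2 : a.unop.toOrderHom i = 0 := by
            rw [h1] at ha
            exact Fin.le_zero_iff.1 ha
          rw [if_pos h1, if_pos h2]
          exact Fin.castSucc_le_castSucc_iff.2 ht
        · rw [if_neg h1]
          exact Fin.le_last _ })

theorem kap_apply {s : ℕ} {l : Dop} (a : bx 1 ⟶ l) (t : bx s ⟶ l) (i : Fin (l.unop.len + 1)) :
    (kap a t).unop.toOrderHom i = if a.unop.toOrderHom i = 0 then
      (t.unop.toOrderHom i).castSucc else Fin.last (s + 1) := rfl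

theorem dext {p q : Dop} {f g : p ⟶ q}
    (h : ∀ i : Fin (q.unop.len + 1), f.unop.toOrderHom i = g.unop.toOrderHom i) : f = g := by
  apply Quiver.Hom.unop_inj
  apply SimplexCategory.Hom.ext
  apply OrderHom.ext
  funext i
  exact h i

theorem kap_comp {s : ℕ} {l m : Dop} (a : bx 1 ⟶ l) (t : bx s ⟶ l) (α : l ⟶ m) :
    kap (a ≫ α) (t ≫ α) = kap a t ≫ α := by
  apply dext
  intro i
  rfl

theorem kap_dop {s : ℕ} {l : Dop} (a : bx 1 ⟶ l) (t : bx s ⟶ l) (i : Fin (s + 2)) :
    kap a (dop i ≫ t) = dop i.castSucc ≫ kap a t := by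
  apply dext
  intro j
  rw [kap_apply]
  show _ = i.castSucc.succAbove ((kap a t).unop.toOrderHom j)
  rw [kap_apply]
  by_cases h : a.unop.toOrderHom j = 0
  · rw [if_pos h, if_pos h]
    show (i.succAbove (t.unop.toOrderHom j)).castSucc = _
    rw [Fin.castSucc_succAbove_castSucc]
  · rw [if_neg h, if_neg h]
    rw [Fin.succAbove_ne_last_last (Fin.castSucc_lt_last i).ne]

theorem kap_zero {s : ℕ} {l : Dop} (a : bx 1 ⟶ l) (t : bx s ⟶ l)
    (h : ∀ i, a.unop.toOrderHom i = 0) : kap a t = dop (Fin.last (s + 1)) ≫ t := by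
  apply dext
  intro j
  rw [kap_apply, if_pos (h j)]
  show _ = (Fin.last (s + 1)).succAbove (t.unop.toOrderHom j)
  rw [Fin.succAbove_last]

/-- the last vertex -/
def lv (s : ℕ) : bx (s + 1) ⟶ bx 0 :=
  (SimplexCategory.const ⦋0⦌ ⦋s + 1⦌ (Fin.last (s + 1))).op

/-- the map from the vertex -/
def ct (l : Dop) : bx 0 ⟶ l := (SimplexCategory.const l.unop ⦋0⦌ 0).op

theorem kap_one {s : ℕ} {l : Dop} (a : bx 1 ⟶ l) (t : bx s ⟶ l)
    (h : ∀ i, a.unop.toOrderHom i = 1) : kap a t = lv s ≫ ct l := by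
  apply dext
  intro j
  rw [kap_apply, if_neg (by rw [h j]; decide)]
  rfl

theorem lv_zero : lv 0 = dop 0 := by
  apply dext
  intro j
  show Fin.last 1 = (0 : Fin 2).succAbove j
  have hj : j = (0 : Fin 1) := Subsingleton.elim (α := Fin 1) _ _
  rw [hj]
  rfl

theorem lv_succ (s : ℕ) : lv (s + 1) = dop (Fin.castSucc 0) ≫ lv s := by
  apply dext
  intro j
  show Fin.last (s + 2) = (Fin.castSucc (0 : Fin (s + 2))).succAbove (Fin.last (s + 1))
  rw [Fin.succAbove_ne_last_last (Fin.castSucc_lt_last _).ne]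

end Pool.Agent.SH.TT.NUL

namespace Pool.Agent.SH.TT

open NUL

theorem tt_nul : Stmt_NUL := by
  intro hMB hCONE hHADD _ hTR hT0 D W W₀ hEx n hn x hnat hbd
  obtain ⟨n, rfl⟩ : ∃ n', n = n' + 1 := ⟨n - 1, by omega⟩
  have hE : ExC ((D.mp W W₀).mp (Δ[n + 1] : SSet.{0}) ∂Δ[n + 1]) 0 :=
    hTR _ n (exc_all hTR hT0 _ hEx n)
  have hH : HAdd ((D.mp W W₀).mp (Δ[n + 1] : SSet.{0}) ∂Δ[n + 1]) := hHADD _ (n + 1) (by omega)
  -- values of `x`
  let X : ∀ k : Dop, W.obj k → (Δ[n + 1] : SSet.{0}).obj k → TotS D k := x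
  have hXnat : ∀ {k l : Dop} (α : k ⟶ l) (c : W.obj k) (ρ : (Δ[n + 1] : SSet.{0}).obj k)
      (s : ℕ) (m : Dop) (z : l ⟶ m) (t : bx s ⟶ m),
      (X l (W.map α c) ((Δ[n + 1] : SSet.{0}).map α ρ)).f s m z t = (X k c ρ).f s m (α ≫ z) t := by
    intro k l α c ρ s m z t
    have h := hnat α c ρ
    exact congrArg (fun (u : TotS D l) => u.f s m z t) h
  have hXbd : ∀ (k : Dop) (c : W.obj k) (ρ : (Δ[n + 1] : SSet.{0}).obj k),
      (c ∈ W₀.obj k ∨ ρ ∈ (∂Δ[n + 1] : (Δ[n + 1] : SSet.{0}).Subcomplex).obj k) →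
      ∀ (s : ℕ) (m : Dop) (z : k ⟶ m) (t : bx s ⟶ m), (X k c ρ).f s m z t = 0 := by
    intro k c ρ h s m z t
    have h := hbd k c ρ h
    exact congrArg (fun (u : TotS D k) => u.f s m z t) h
  -- the simplices `f s`
  let g : ∀ (s : ℕ) (k : Dop) (_ : (Δ[n + 1] : SSet.{0}).obj k) (_ : bx s ⟶ k),
      ((D.mp W W₀).V s).obj k := fun s k ρ σ =>
    MapP.mk (Z := W) (Z₀ := W₀) (V := D.V s) (q := k)
      (fun l c τ => (X l c ((Δ[n + 1] : SSet.{0}).map τ ρ)).f s l (𝟙 l) (σ ≫ τ))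
      (by
        intro l l' α c τ
        have e : (Δ[n + 1] : SSet.{0}).map (τ ≫ α) ρ
            = (Δ[n + 1] : SSet.{0}).map α ((Δ[n + 1] : SSet.{0}).map τ ρ) := by
          rw [Functor.map_comp_apply]
        rw [e, hXnat α c _ s l' (𝟙 l') _, Category.comp_id, ← Category.assoc,
          ← (X l c ((Δ[n + 1] : SSet.{0}).map τ ρ)).nat s α (𝟙 l) (σ ≫ τ), Category.id_comp])
      (fun l c τ h => hXbd l c _ (Or.inl h) s l (𝟙 l) _)
  let f : ∀ s : ℕ, (((D.mp W W₀).mp (Δ[n + 1] : SSet.{0}) ∂Δ[n + 1]).V s).obj (bx s) := fun s =>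
    MapP.mk (Z := (Δ[n + 1] : SSet.{0})) (Z₀ := ∂Δ[n + 1]) (V := (D.mp W W₀).V s) (q := bx s)
      (g s)
      (by
        intro k k' α ρ σ
        apply MapP.ext
        intro l c τ
        show (X l c ((Δ[n + 1] : SSet.{0}).map τ ((Δ[n + 1] : SSet.{0}).map α ρ))).f s l (𝟙 l)
            ((σ ≫ α) ≫ τ)
          = (X l c ((Δ[n + 1] : SSet.{0}).map (α ≫ τ) ρ)).f s l (𝟙 l) (σ ≫ α ≫ τ)
        rw [Functor.map_comp_apply, Category.assoc])
      (by
        intro k ρ σ h
        apply MapP.ext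
        intro l c τ
        exact hXbd l c _ (Or.inr ((∂Δ[n + 1] : (Δ[n + 1] : SSet.{0}).Subcomplex).map τ h))
          s l (𝟙 l) _)
  have hf : ∀ (s : ℕ) (i : Fin (s + 2)),
      (((D.mp W W₀).mp (Δ[n + 1] : SSet.{0}) ∂Δ[n + 1]).V (s + 1)).map (dop i) (f (s + 1)) =
        ((D.mp W W₀).mp (Δ[n + 1] : SSet.{0}) ∂Δ[n + 1]).cof s i (bx s) (f s) := by
    intro s i
    apply MapP.ext
    intro k ρ σ
    apply MapP.ext
    intro l c τ
    show (X l c ((Δ[n + 1] : SSet.{0}).map τ ρ)).f (s + 1) l (𝟙 l) ((dop i ≫ σ) ≫ τ)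
      = D.cof s i l ((X l c ((Δ[n + 1] : SSet.{0}).map τ ρ)).f s l (𝟙 l) (σ ≫ τ))
    rw [Category.assoc]
    exact (X l c ((Δ[n + 1] : SSet.{0}).map τ ρ)).cof s i l (𝟙 l) (σ ≫ τ)
  obtain ⟨H, h00, h01, hHs⟩ := hCONE hMB _ hH hE f hf
  -- the value of `H`
  let K : ∀ (s : ℕ) (l : Dop) (_ : W.obj l) (_ : (Δ[n + 1] : SSet.{0}).obj l)
      (_ : bx (s + 1) ⟶ l), (D.V s).obj l := fun s l c ρ u =>
    MapP.ev (Z := W) (Z₀ := W₀) (V := D.V s)
      (MapP.ev (Z := (Δ[n + 1] : SSet.{0})) (Z₀ := ∂Δ[n + 1]) (V := (D.mp W W₀).V s) (H s) l ρ u)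
      l c (𝟙 l)
  have hKnat : ∀ (s : ℕ) {l m : Dop} (α : l ⟶ m) (c : W.obj l)
      (ρ : (Δ[n + 1] : SSet.{0}).obj l) (u : bx (s + 1) ⟶ l),
      K s m (W.map α c) ((Δ[n + 1] : SSet.{0}).map α ρ) (u ≫ α) = (D.V s).map α (K s l c ρ u) := by
    intro s l m α c ρ u
    have h1 := MapP.nat (Z := (Δ[n + 1] : SSet.{0})) (Z₀ := ∂Δ[n + 1]) (V := (D.mp W W₀).V s)
      (H s) α ρ u
    have h2 := MapP.nat (Z := W) (Z₀ := W₀) (V := D.V s)
      (MapP.ev (Z := (Δ[n + 1] : SSet.{0})) (Z₀ := ∂Δ[n + 1]) (V := (D.mp W W₀).V s) (H s) l ρ u)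
      α c (𝟙 l)
    show MapP.ev (Z := W) (Z₀ := W₀) (V := D.V s)
      (MapP.ev (Z := (Δ[n + 1] : SSet.{0})) (Z₀ := ∂Δ[n + 1]) (V := (D.mp W W₀).V s) (H s) m
        ((Δ[n + 1] : SSet.{0}).map α ρ) (u ≫ α)) m (W.map α c) (𝟙 m) = _
    rw [h1]
    rw [← h2]
    show MapP.ev (Z := W) (Z₀ := W₀) (V := D.V s) _ m (W.map α c) (α ≫ 𝟙 m) = _
    rw [Category.comp_id, Category.id_comp]
  have hKvan : ∀ (s : ℕ) (l : Dop) (c : W.obj l) (ρ : (Δ[n + 1] : SSet.{0}).obj l)
      (u : bx (s + 1) ⟶ l),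
      (c ∈ W₀.obj l ∨ ρ ∈ (∂Δ[n + 1] : (Δ[n + 1] : SSet.{0}).Subcomplex).obj l) →
      K s l c ρ u = 0 := by
    intro s l c ρ u h
    rcases h with h | h
    · exact MapP.van _ c (𝟙 l) h
    · have h1 := MapP.van (Z := (Δ[n + 1] : SSet.{0})) (Z₀ := ∂Δ[n + 1])
        (V := (D.mp W W₀).V s) (H s) ρ u h
      show MapP.ev (Z := W) (Z₀ := W₀) (V := D.V s)
        (MapP.ev (Z := (Δ[n + 1] : SSet.{0})) (Z₀ := ∂Δ[n + 1]) (V := (D.mp W W₀).V s) (H s) l
          ρ u) l c (𝟙 l) = _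
      rw [h1]
      rfl
  have hKcof : ∀ (s : ℕ) (i : Fin (s + 2)) (l : Dop) (c : W.obj l)
      (ρ : (Δ[n + 1] : SSet.{0}).obj l) (u : bx (s + 1) ⟶ l),
      K (s + 1) l c ρ (dop i.castSucc ≫ u) = D.cof s i l (K s l c ρ u) := by
    intro s i l c ρ u
    have h := (hHs s).1 i
    exact congrArg (fun G => MapP.ev (Z := W) (Z₀ := W₀) (V := D.V (s + 1))
      (MapP.ev (Z := (Δ[n + 1] : SSet.{0})) (Z₀ := ∂Δ[n + 1]) (V := (D.mp W W₀).V (s + 1)) G l
          ρ u) l c (𝟙 l)) h
  have hKlast : ∀ (s : ℕ) (l : Dop) (c : W.obj l)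
      (ρ : (Δ[n + 1] : SSet.{0}).obj l) (t : bx s ⟶ l),
      K s l c ρ (dop (Fin.last (s + 1)) ≫ t) = (X l c ρ).f s l (𝟙 l) t := by
    intro s l c ρ t
    have h : (((D.mp W W₀).mp (Δ[n + 1] : SSet.{0}) ∂Δ[n + 1]).V s).map (dop (Fin.last (s + 1)))
        (H s) = f s := by
      cases s with
      | zero => exact h01
      | succ s => exact (hHs s).2
    have h2 := congrArg (fun G => MapP.ev (Z := W) (Z₀ := W₀) (V := D.V s)
      (MapP.ev (Z := (Δ[n + 1] : SSet.{0})) (Z₀ := ∂Δ[n + 1]) (V := (D.mp W W₀).V s) G l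
          ρ t) l c (𝟙 l)) h
    refine h2.trans ?_
    show (X l c ((Δ[n + 1] : SSet.{0}).map (𝟙 l) ρ)).f s l (𝟙 l) (t ≫ 𝟙 l) = _
    rw [Category.comp_id, Functor.map_id_apply]
  have hlv : ∀ s : ℕ, (((D.mp W W₀).mp (Δ[n + 1] : SSet.{0}) ∂Δ[n + 1]).V s).map (lv s) (H s)
      = 0 := by
    intro s
    induction s with
    | zero => rw [lv_zero]; exact h00
    | succ s ih =>
      have h1 := (hHs s).1 0
      have h2 := ((D.mp W W₀).mp (Δ[n + 1] : SSet.{0}) ∂Δ[n + 1]).cof_nat s 0 (lv s) (H s)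
      rw [ih, ((D.mp W W₀).mp (Δ[n + 1] : SSet.{0}) ∂Δ[n + 1]).cof_zero, ← h1] at h2
      rw [lv_succ, Functor.map_comp]
      exact h2.symm
  have hKone : ∀ (s : ℕ) (l : Dop) (c : W.obj l)
      (ρ : (Δ[n + 1] : SSet.{0}).obj l), K s l c ρ (lv s ≫ ct l) = 0 := by
    intro s l c ρ
    exact congrArg (fun G => MapP.ev (Z := W) (Z₀ := W₀) (V := D.V s)
      (MapP.ev (Z := (Δ[n + 1] : SSet.{0})) (Z₀ := ∂Δ[n + 1]) (V := (D.mp W W₀).V s) G l
          ρ (ct l)) l c (𝟙 l)) (hlv s)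
  -- the homotopy
  let h : ∀ k : Dop, W.obj k → (Δ[n + 1] : SSet.{0}).obj k → (bx 1 ⟶ k) → TotS D k :=
    fun k c ρ e =>
    { f := fun s l z t => K s l (W.map z c) ((Δ[n + 1] : SSet.{0}).map z ρ) (kap (e ≫ z) t)
      nat := by
        intro s l m α z t
        rw [Functor.map_comp_apply, Functor.map_comp_apply, ← Category.assoc,
          kap_comp]
        exact hKnat s α _ _ _
      cof := by
        intro s i l z t
        rw [kap_dop]
        exact hKcof s i l _ _ _ }
  refine ⟨h, ?_, ?_, ?_, ?_⟩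
  · intro k l α c ρ e
    apply TotS.ext
    funext s m z t
    show K s m (W.map z (W.map α c)) ((Δ[n + 1] : SSet.{0}).map z ((Δ[n + 1] : SSet.{0}).map α ρ))
        (kap ((e ≫ α) ≫ z) t)
      = K s m (W.map (α ≫ z) c) ((Δ[n + 1] : SSet.{0}).map (α ≫ z) ρ) (kap (e ≫ α ≫ z) t)
    rw [Functor.map_comp_apply, Functor.map_comp_apply, Category.assoc]
  · intro k c ρ e hc
    apply TotS.ext
    funext s m z t
    refine hKvan s m _ _ _ ?_
    rcases hc with hc | hc
    · exact Or.inl (W₀.map z hc)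
    · exact Or.inr ((∂Δ[n + 1] : (Δ[n + 1] : SSet.{0}).Subcomplex).map z hc)
  · intro k c ρ e he
    apply TotS.ext
    funext s m z t
    show K s m (W.map z c) ((Δ[n + 1] : SSet.{0}).map z ρ) (kap (e ≫ z) t) = (X k c ρ).f s m z t
    rw [kap_zero (e ≫ z) t (fun i => he _), hKlast, hXnat z c ρ s m (𝟙 m) t, Category.comp_id]
  · intro k c ρ e he
    apply TotS.ext
    funext s m z t
    show K s m (W.map z c) ((Δ[n + 1] : SSet.{0}).map z ρ) (kap (e ≫ z) t) = 0
    rw [kap_one (e ≫ z) t (fun i => he _), hKone]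

end Pool.Agent.SH.TT

end

end

section

/-!
# MP_2d0b73_an, block III-T: module TT_OMW

`W` is acyclic for the loop space of `Y` (extension property of `Y` and relative null homotopies).
-/

set_option autoImplicit false

open CategoryTheory Simplicial SSet Opposite MonoidalCategory

noncomputable section

namespace Pool.Agent.SH.TT

namespace OMW

/-- Constant morphisms. -/
def cst (k : Dop) (j : Fin 2) : bx 1 ⟶ k := (SimplexCategory.const k.unop ⦋1⦌ j).op

theorem cst_apply (k : Dop) (j : Fin 2) (i : Fin (k.unop.len + 1)) :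
    (cst k j).unop.toOrderHom i = j := rfl

theorem ext1 {k : Dop} {e e' : bx 1 ⟶ k}
    (h : ∀ i, e.unop.toOrderHom i = e'.unop.toOrderHom i) : e = e' := by
  apply Quiver.Hom.unop_inj
  apply SimplexCategory.Hom.ext
  exact OrderHom.ext _ _ (funext h)

theorem comp_apply {k l : Dop} (e : bx 1 ⟶ k) (α : k ⟶ l) (i : Fin (l.unop.len + 1)) :
    (e ≫ α).unop.toOrderHom i = e.unop.toOrderHom (α.unop.toOrderHom i) := rfl

theorem cst_comp {k l : Dop} (α : k ⟶ l) (j : Fin 2) : cst k j ≫ α = cst l j :=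
  ext1 fun _ => rfl

theorem bdy_iff {k : Dop} (e : bx 1 ⟶ k) : Bdy e ↔ e = cst k 0 ∨ e = cst k 1 := by
  constructor
  · intro h
    by_contra hc
    push Not at hc
    apply h
    have h0 : ∃ i, e.unop.toOrderHom i = 0 := by
      by_contra h0
      push Not at h0
      apply hc.2
      apply ext1
      intro i
      have h1 := h0 i
      have h2 : ∀ a : Fin 2, a ≠ 0 → a = 1 := by decide
      exact h2 _ h1
    have h1 : ∃ i, e.unop.toOrderHom i = 1 := by
      by_contra h0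
      push Not at h0
      apply hc.1
      apply ext1
      intro i
      have h1 := h0 i
      have h2 : ∀ a : Fin 2, a ≠ 1 → a = 0 := by decide
      exact h2 _ h1
    intro a
    have h3 : ∀ a : Fin 2, a = 0 ∨ a = 1 := by decide
    rcases h3 a with h | h
    · obtain ⟨i, hi⟩ := h0
      exact ⟨i, hi.trans h.symm⟩
    · obtain ⟨i, hi⟩ := h1
      exact ⟨i, hi.trans h.symm⟩
  · rintro (rfl | rfl) h
    · obtain ⟨i, hi⟩ := h 1
      have h2 : (0 : Fin 2) = 1 := hi
      exact absurd h2 (by decide)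
    · obtain ⟨i, hi⟩ := h 0
      have h2 : (1 : Fin 2) = 0 := hi
      exact absurd h2 (by decide)

theorem cst_ne {k : Dop} : cst k 1 ≠ cst k 0 := by
  intro h
  have h1 : (cst k 1).unop.toOrderHom 0 = (cst k 0).unop.toOrderHom 0 := by rw [h]
  have h2 : (1 : Fin 2) = 0 := h1
  exact absurd h2 (by decide)

/-- Minimum. -/
def mn {k : Dop} (e τ : bx 1 ⟶ k) : bx 1 ⟶ k :=
  Quiver.Hom.op (X := k.unop) (Y := ⦋1⦌)
    (SimplexCategory.Hom.mk (e.unop.toOrderHom ⊓ τ.unop.toOrderHom))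

theorem mn_apply {k : Dop} (e τ : bx 1 ⟶ k) (i : Fin (k.unop.len + 1)) :
    (mn e τ).unop.toOrderHom i = e.unop.toOrderHom i ⊓ τ.unop.toOrderHom i := rfl

theorem mn_comp {k l : Dop} (e τ : bx 1 ⟶ k) (α : k ⟶ l) :
    mn (e ≫ α) (τ ≫ α) = mn e τ ≫ α := ext1 fun _ => rfl

theorem mn_one {k : Dop} (e : bx 1 ⟶ k) : mn e (cst k 1) = e := by
  apply ext1
  intro i
  rw [mn_apply, cst_apply]
  have h : ∀ a : Fin 2, a ⊓ 1 = a := by decide
  exact h _

theorem mn_zero {k : Dop} (e : bx 1 ⟶ k) : mn e (cst k 0) = cst k 0 := by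
  apply ext1
  intro i
  rw [mn_apply, cst_apply]
  have h : ∀ a : Fin 2, a ⊓ 0 = 0 := by decide
  exact h _

theorem zero_mn {k : Dop} (e : bx 1 ⟶ k) : mn (cst k 0) e = cst k 0 := by
  apply ext1
  intro i
  rw [mn_apply, cst_apply]
  have h : ∀ a : Fin 2, 0 ⊓ a = 0 := by decide
  exact h _

theorem mem_horn {k : Dop} (j : Fin 2) (x : (Δ[1] : SSet.{0}).obj k) :
    x ∈ (Λ[0 + 1, j] : (Δ[0 + 1] : SSet.{0}).Subcomplex).obj k ↔
      (stdSimplex.objEquiv x).op = cst k j := by
  rw [mem_horn_iff]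
  constructor
  · intro h
    apply ext1
    intro i
    by_contra hc
    apply h
    rw [Set.eq_univ_iff_forall]
    intro a
    by_cases ha : a = j
    · exact Or.inr ha
    · refine Or.inl ⟨i, ?_⟩
      have h2 : ∀ a b c : Fin 2, a ≠ c → b ≠ c → b = a := by decide
      exact h2 _ _ j ha hc
  · intro h h1
    rw [Set.eq_univ_iff_forall] at h1
    have h2 : ∀ j : Fin 2, ∃ a : Fin 2, a ≠ j := by decide
    obtain ⟨a, ha⟩ := h2 j
    rcases h1 a with ⟨i, hi⟩ | h3
    · apply ha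
      have h4 : (cst k j).unop.toOrderHom i = a := by
        rw [← h]; exact hi
      exact h4.symm
    · exact ha h3

theorem xpf (hPP : Stmt_PP) (hH : Stmt_HORN) {Y : SSet.{0}} (hY : XP Y) (Q : SSet.{0})
    (A B : Q.Subcomplex) (hAB : A ≤ B) (j : Fin 2)
    (g : ∀ k : Dop, Q.obj k → (bx 1 ⟶ k) → Y.obj k)
    (hg : ∀ {k l : Dop} (α : k ⟶ l) (q : Q.obj k) (τ : bx 1 ⟶ k),
      (q ∈ A.obj k ∨ (q ∈ B.obj k ∧ τ = cst k j)) →
        g l (Q.map α q) (τ ≫ α) = Y.map α (g k q τ)) :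
    ∃ g' : ∀ k : Dop, Q.obj k → (bx 1 ⟶ k) → Y.obj k,
      (∀ {k l : Dop} (α : k ⟶ l) (q : Q.obj k) (τ : bx 1 ⟶ k), q ∈ B.obj k →
        g' l (Q.map α q) (τ ≫ α) = Y.map α (g' k q τ)) ∧
      (∀ (k : Dop) (q : Q.obj k) (τ : bx 1 ⟶ k),
        (q ∈ A.obj k ∨ (q ∈ B.obj k ∧ τ = cst k j)) → g' k q τ = g k q τ) := by
  classical
  have hF : F2Iso ((Λ[0 + 1, j] : (Δ[0 + 1] : SSet.{0}).Subcomplex).unionProd
      (A.preimage B.ι)).ι := hPP _ _ _ _ (hH 0 j)
  let u : (((Λ[0 + 1, j] : (Δ[0 + 1] : SSet.{0}).Subcomplex).unionProd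
      (A.preimage B.ι) : (Δ[0 + 1] ⊗ (B : SSet.{0})).Subcomplex) : SSet.{0}) ⟶ Y :=
    { app := fun k => TypeCat.ofHom (fun s => g k s.1.2.1 (stdSimplex.objEquiv s.1.1).op)
      naturality := by
        intro k l α
        ext s
        have hs := (Subcomplex.mem_unionProd_iff _ _ s.1).1 s.2
        have h1 := hg α s.1.2.1 (stdSimplex.objEquiv s.1.1).op (by
          rcases hs with h | h
          · exact Or.inl h
          · exact Or.inr ⟨s.1.2.2, (mem_horn j s.1.1).1 h⟩)
        exact h1 }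
  obtain ⟨v, hv⟩ := hY _ _ hF u
  refine ⟨fun k q τ => if h : q ∈ B.obj k then
    v.app k (stdSimplex.objEquiv.symm τ.unop, ⟨q, h⟩) else g k q τ, ?_, ?_⟩
  · intro k l α q τ hq
    have hq' : Q.map α q ∈ B.obj l := B.map α hq
    show (if h : Q.map α q ∈ B.obj l then
      v.app l (stdSimplex.objEquiv.symm (τ ≫ α).unop, ⟨Q.map α q, h⟩) else g l (Q.map α q) (τ ≫ α)) =
      Y.map α (if h : q ∈ B.obj k then
        v.app k (stdSimplex.objEquiv.symm τ.unop, ⟨q, h⟩) else g k q τ)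
    rw [dif_pos hq, dif_pos hq']
    exact NatTrans.naturality_apply v α
      ((stdSimplex.objEquiv.symm τ.unop, ⟨q, hq⟩) : ((Δ[0 + 1] : SSet.{0}) ⊗ (B : SSet.{0})).obj k)
  · intro k q τ hq
    have hqB : q ∈ B.obj k := by
      rcases hq with h | h
      · exact hAB k h
      · exact h.1
    show (if h : q ∈ B.obj k then
        v.app k (stdSimplex.objEquiv.symm τ.unop, ⟨q, h⟩) else g k q τ) = g k q τ
    rw [dif_pos hqB]
    have hmem : ((stdSimplex.objEquiv.symm τ.unop, ⟨q, hqB⟩) :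
        ((Δ[0 + 1] : SSet.{0}) ⊗ (B : SSet.{0})).obj k) ∈
        ((Λ[0 + 1, j] : (Δ[0 + 1] : SSet.{0}).Subcomplex).unionProd (A.preimage B.ι)).obj k := by
      refine (Subcomplex.mem_unionProd_iff _ _ _).2 ?_
      rcases hq with h | h
      · exact Or.inl h
      · exact Or.inr ((mem_horn j _).2 h.2)
    have h1 := congrArg (fun f => f.app k ⟨_, hmem⟩) hv
    exact h1


/-- The product with the interval. -/
def QQ (Z : SSet.{0}) : SSet.{0} where
  obj k := Z.obj k × (bx 1 ⟶ k)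
  map {k l} α := TypeCat.ofHom (fun x => (Z.map α x.1, x.2 ≫ α))
  map_id k := by
    ext x
    all_goals simp
  map_comp α β := by
    ext x
    all_goals simp

theorem bdy_comp {k l : Dop} {e : bx 1 ⟶ k} (h : Bdy e) (α : k ⟶ l) : Bdy (e ≫ α) := by
  rw [bdy_iff] at h ⊢
  rcases h with rfl | rfl
  · exact Or.inl (cst_comp α 0)
  · exact Or.inr (cst_comp α 1)

/-- The part `z ∈ Z₀` or `e = 0`. -/
def D0 {Z : SSet.{0}} (Z₀ : Z.Subcomplex) : (QQ Z).Subcomplex where
  obj k := {x | x.1 ∈ Z₀.obj k ∨ x.2 = cst k 0}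
  map {k l} α := by
    rintro x (h | h)
    · exact Or.inl (Z₀.map α h)
    · refine Or.inr ?_
      show x.2 ≫ α = cst l 0
      have h' : x.2 = cst k 0 := h
      rw [h']
      exact cst_comp α 0

/-- The part `z ∈ Z₀` or `e` constant. -/
def D1 {Z : SSet.{0}} (Z₀ : Z.Subcomplex) : (QQ Z).Subcomplex where
  obj k := {x | x.1 ∈ Z₀.obj k ∨ Bdy x.2}
  map {k l} α := by
    rintro x (h | h)
    · exact Or.inl (Z₀.map α h)
    · exact Or.inr (bdy_comp h α)

theorem D0_le {Z : SSet.{0}} (Z₀ : Z.Subcomplex) : D0 Z₀ ≤ D1 Z₀ := by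
  rintro k x (h | h)
  · exact Or.inl h
  · exact Or.inr ((bdy_iff _).2 (Or.inl h))

theorem core (hPP : Stmt_PP) (hH : Stmt_HORN) {Y : SSet.{0}} (b : Base Y) (hY : XP Y)
    (Z : SSet.{0}) (Z₀ : Z.Subcomplex)
    (hN : ∀ x : ∀ k : Dop, Z.obj k → Y.obj k,
      (∀ {k l : Dop} (α : k ⟶ l) (z : Z.obj k), x l (Z.map α z) = Y.map α (x k z)) →
      (∀ (k : Dop) (z : Z.obj k), z ∈ Z₀.obj k → x k z = b.pt k) →
      ∃ h : ∀ k : Dop, Z.obj k → (bx 1 ⟶ k) → Y.obj k,
        (∀ {k l : Dop} (α : k ⟶ l) (z : Z.obj k) (e : bx 1 ⟶ k),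
          h l (Z.map α z) (e ≫ α) = Y.map α (h k z e)) ∧
        (∀ (k : Dop) (z : Z.obj k) (e : bx 1 ⟶ k), z ∈ Z₀.obj k → h k z e = b.pt k) ∧
        (∀ (k : Dop) (z : Z.obj k), h k z (cst k 0) = x k z) ∧
        (∀ (k : Dop) (z : Z.obj k), h k z (cst k 1) = b.pt k))
    (P : ∀ k : Dop, Z.obj k → (bx 1 ⟶ k) → Y.obj k)
    (hP : ∀ {k l : Dop} (α : k ⟶ l) (z : Z.obj k) (e : bx 1 ⟶ k), z ∈ Z₀.obj k →
      P l (Z.map α z) (e ≫ α) = Y.map α (P k z e))
    (hPb : ∀ (k : Dop) (z : Z.obj k) (e : bx 1 ⟶ k), z ∈ Z₀.obj k → Bdy e → P k z e = b.pt k) :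
    ∃ R : ∀ k : Dop, Z.obj k → (bx 1 ⟶ k) → Y.obj k,
      (∀ {k l : Dop} (α : k ⟶ l) (z : Z.obj k) (e : bx 1 ⟶ k),
        R l (Z.map α z) (e ≫ α) = Y.map α (R k z e)) ∧
      (∀ (k : Dop) (z : Z.obj k) (e : bx 1 ⟶ k), Bdy e → R k z e = b.pt k) ∧
      (∀ (k : Dop) (z : Z.obj k) (e : bx 1 ⟶ k), z ∈ Z₀.obj k → R k z e = P k z e) := by
  classical
  -- the extended partial function
  let p : ∀ k : Dop, (QQ Z).obj k → Y.obj k := fun k q =>
    if q.1 ∈ Z₀.obj k then P k q.1 q.2 else b.pt k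
  have p0 : ∀ (k : Dop) (z : Z.obj k) (e : bx 1 ⟶ k), z ∈ Z₀.obj k → p k (z, e) = P k z e :=
    fun k z e h => if_pos h
  have pb : ∀ (k : Dop) (z : Z.obj k) (e : bx 1 ⟶ k), Bdy e → p k (z, e) = b.pt k := by
    intro k z e he
    by_cases h : z ∈ Z₀.obj k
    · rw [p0 k z e h]; exact hPb k z e h he
    · exact if_neg h
  have pn : ∀ {k l : Dop} (α : k ⟶ l) (z : Z.obj k) (e : bx 1 ⟶ k), z ∈ Z₀.obj k ∨ Bdy e →
      p l (Z.map α z, e ≫ α) = Y.map α (p k (z, e)) := by
    intro k l α z e h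
    rcases h with h | h
    · rw [p0 k z e h, p0 l _ _ (Z₀.map α h)]; exact hP α z e h
    · rw [pb k z e h, pb l _ _ (bdy_comp h α), b.nat]
  -- step 1, 2
  obtain ⟨G', G'n, G'e⟩ := xpf hPP hH hY (QQ Z) (D0 Z₀) (D1 Z₀) (D0_le Z₀) 1
    (fun k q τ => p k (q.1, mn q.2 τ)) (by
      rintro k l α ⟨z, e⟩ τ h
      have h1 : z ∈ Z₀.obj k ∨ Bdy (mn e τ) := by
        rcases h with (h | h) | ⟨h | h, h'⟩
        · exact Or.inl h
        · refine Or.inr ?_
          have h' : e = cst k 0 := h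
          rw [h', zero_mn]
          exact (bdy_iff _).2 (Or.inl rfl)
        · exact Or.inl h
        · refine Or.inr ?_
          rw [h', mn_one]
          exact h
      have h2 := pn α z (mn e τ) h1
      rw [← mn_comp] at h2
      exact h2)
  -- `P0 = G'` at the end 0
  have G00 : ∀ (k : Dop) (z : Z.obj k) (e : bx 1 ⟶ k), z ∈ Z₀.obj k ∨ e = cst k 0 →
      G' k (z, e) (cst k 0) = b.pt k := by
    intro k z e h
    rw [G'e k (z, e) (cst k 0) (Or.inl h)]
    show p k (z, mn e (cst k 0)) = b.pt k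
    rw [mn_zero]
    exact pb k z _ ((bdy_iff _).2 (Or.inl rfl))
  -- step 3
  obtain ⟨h, hn, h0, hx, h1⟩ := hN (fun k z => G' k (z, cst k 1) (cst k 0)) (by
      intro k l α z
      have h1 := G'n α (z, cst k 1) (cst k 0) (Or.inr ((bdy_iff _).2 (Or.inr rfl)))
      show G' l (Z.map α z, cst l 1) (cst l 0) = _
      rw [← h1, cst_comp]
      show _ = G' l (Z.map α z, cst k 1 ≫ α) (cst l 0)
      rw [cst_comp]) (fun k z hz => G00 k z _ (Or.inl hz))
  -- step 4
  let J : ∀ k : Dop, (QQ Z).obj k → (bx 1 ⟶ k) → Y.obj k := fun k q σ =>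
    if q ∈ (D0 Z₀).obj k then b.pt k else h k q.1 σ
  have J0 : ∀ (k : Dop) (z : Z.obj k) (e σ : bx 1 ⟶ k), z ∈ Z₀.obj k ∨ e = cst k 0 →
      J k (z, e) σ = b.pt k := fun k z e σ hh => if_pos hh
  have J1 : ∀ (k : Dop) (z : Z.obj k) (σ : bx 1 ⟶ k), J k (z, cst k 1) σ = h k z σ := by
    intro k z σ
    by_cases hz : z ∈ Z₀.obj k
    · rw [J0 k z _ σ (Or.inl hz), h0 k z σ hz]
    · exact if_neg (fun hh => by
        rcases hh with hh | hh
        · exact hz hh
        · exact cst_ne hh)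
  have Jn : ∀ {k l : Dop} (α : k ⟶ l) (z : Z.obj k) (e σ : bx 1 ⟶ k), z ∈ Z₀.obj k ∨ Bdy e →
      J l (Z.map α z, e ≫ α) (σ ≫ α) = Y.map α (J k (z, e) σ) := by
    intro k l α z e σ hh
    by_cases h2 : z ∈ Z₀.obj k ∨ e = cst k 0
    · rw [J0 k z e σ h2, b.nat]
      exact if_pos ((D0 Z₀).map α (show (z, e) ∈ (D0 Z₀).obj k from h2))
    · have h3 : e = cst k 1 := by
        rcases hh with hh | hh
        · exact absurd (Or.inl hh) h2
        · rcases (bdy_iff _).1 hh with h4 | h4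
          · exact absurd (Or.inr h4) h2
          · exact h4
      rw [h3, J1, cst_comp, J1]
      exact hn α z σ
  have J00 : ∀ (k : Dop) (z : Z.obj k) (e : bx 1 ⟶ k), z ∈ Z₀.obj k ∨ Bdy e →
      J k (z, e) (cst k 0) = G' k (z, e) (cst k 0) := by
    intro k z e hh
    by_cases h2 : z ∈ Z₀.obj k ∨ e = cst k 0
    · rw [J0 k z e _ h2, G00 k z e h2]
    · have h3 : e = cst k 1 := by
        rcases hh with hh | hh
        · exact absurd (Or.inl hh) h2
        · rcases (bdy_iff _).1 hh with h4 | h4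
          · exact absurd (Or.inr h4) h2
          · exact h4
      rw [h3, J1, hx]
  have J01 : ∀ (k : Dop) (z : Z.obj k) (e : bx 1 ⟶ k), z ∈ Z₀.obj k ∨ Bdy e →
      J k (z, e) (cst k 1) = b.pt k := by
    intro k z e hh
    by_cases h2 : z ∈ Z₀.obj k ∨ e = cst k 0
    · rw [J0 k z e _ h2]
    · have h3 : e = cst k 1 := by
        rcases hh with hh | hh
        · exact absurd (Or.inl hh) h2
        · rcases (bdy_iff _).1 hh with h4 | h4
          · exact absurd (Or.inr h4) h2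
          · exact h4
      rw [h3, J1, h1]
  -- step 5
  let U : ∀ k : Dop, (QQ Z).obj k → (bx 1 ⟶ k) → Y.obj k := fun k q σ =>
    if q ∈ (D1 Z₀).obj k then J k q σ else b.pt k
  have U0 : ∀ (k : Dop) (z : Z.obj k) (e σ : bx 1 ⟶ k), z ∈ Z₀.obj k ∨ Bdy e →
      U k (z, e) σ = J k (z, e) σ := fun k z e σ hh => if_pos hh
  have U1 : ∀ (k : Dop) (z : Z.obj k) (e : bx 1 ⟶ k), U k (z, e) (cst k 1) = b.pt k := by
    intro k z e
    by_cases hh : z ∈ Z₀.obj k ∨ Bdy e
    · rw [U0 k z e _ hh, J01 k z e hh]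
    · exact if_neg hh
  obtain ⟨K, Kn, Ke⟩ := xpf hPP hH hY (QQ Z) (D1 Z₀) ⊤ le_top 1 U (by
      rintro k l α ⟨z, e⟩ σ hh
      by_cases h2 : z ∈ Z₀.obj k ∨ Bdy e
      · rw [U0 k z e σ h2, ← Jn α z e σ h2]
        exact U0 l _ _ _ ((D1 Z₀).map α (show (z, e) ∈ (D1 Z₀).obj k from h2))
      · have hσ : σ = cst k 1 := by
          rcases hh with hh | hh
          · exact absurd hh h2
          · exact hh.2
        rw [hσ, cst_comp, U1, b.nat]
        exact U1 l _ _)
  have K0 : ∀ (k : Dop) (z : Z.obj k) (e : bx 1 ⟶ k), z ∈ Z₀.obj k ∨ Bdy e →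
      K k (z, e) (cst k 0) = G' k (z, e) (cst k 0) := by
    intro k z e hh
    rw [Ke k (z, e) (cst k 0) (Or.inl hh), U0 k z e _ hh]
    exact J00 k z e hh
  have K0n : ∀ {k l : Dop} (α : k ⟶ l) (q : (QQ Z).obj k),
      K l ((QQ Z).map α q) (cst l 0) = Y.map α (K k q (cst k 0)) := by
    intro k l α q
    have h2 := Kn α q (cst k 0) trivial
    rw [cst_comp] at h2
    exact h2
  -- step 6
  let V : ∀ k : Dop, (QQ Z).obj k → (bx 1 ⟶ k) → Y.obj k := fun k q τ =>
    if q ∈ (D1 Z₀).obj k then G' k q τ else K k q (cst k 0)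
  have V0 : ∀ (k : Dop) (z : Z.obj k) (e τ : bx 1 ⟶ k), z ∈ Z₀.obj k ∨ Bdy e →
      V k (z, e) τ = G' k (z, e) τ := fun k z e σ hh => if_pos hh
  have V1 : ∀ (k : Dop) (z : Z.obj k) (e : bx 1 ⟶ k),
      V k (z, e) (cst k 0) = K k (z, e) (cst k 0) := by
    intro k z e
    by_cases hh : z ∈ Z₀.obj k ∨ Bdy e
    · rw [V0 k z e _ hh, K0 k z e hh]
    · exact if_neg hh
  obtain ⟨L, Ln, Le⟩ := xpf hPP hH hY (QQ Z) (D1 Z₀) ⊤ le_top 0 V (by
      rintro k l α ⟨z, e⟩ τ hh
      by_cases h2 : z ∈ Z₀.obj k ∨ Bdy e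
      · rw [V0 k z e τ h2, ← G'n α (z, e) τ h2]
        exact V0 l _ _ _ ((D1 Z₀).map α (show (z, e) ∈ (D1 Z₀).obj k from h2))
      · have hτ : τ = cst k 0 := by
          rcases hh with hh | hh
          · exact absurd hh h2
          · exact hh.2
        rw [hτ, cst_comp, V1]
        exact (V1 l _ _).trans (K0n α (z, e)))
  have L1 : ∀ (k : Dop) (z : Z.obj k) (e : bx 1 ⟶ k), z ∈ Z₀.obj k ∨ Bdy e →
      L k (z, e) (cst k 1) = p k (z, e) := by
    intro k z e hh
    rw [Le k (z, e) (cst k 1) (Or.inl hh), V0 k z e _ hh,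
      G'e k (z, e) (cst k 1) (Or.inr ⟨hh, rfl⟩)]
    show p k (z, mn e (cst k 1)) = _
    rw [mn_one]
  refine ⟨fun k z e => L k (z, e) (cst k 1), ?_, ?_, ?_⟩
  · intro k l α z e
    have h2 := Ln α (z, e) (cst k 1) trivial
    rw [cst_comp] at h2
    exact h2
  · intro k z e he
    show L k (z, e) (cst k 1) = _
    rw [L1 k z e (Or.inr he), pb k z e he]
  · intro k z e hz
    show L k (z, e) (cst k 1) = _
    rw [L1 k z e (Or.inl hz), p0 k z e hz]


theorem pt0 {k : Dop} (a c : (Δ[0] : SSet.{0}).obj k) : a = c := by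
  apply stdSimplex.objEquiv.injective
  apply SimplexCategory.Hom.ext
  refine OrderHom.ext _ _ (funext fun i => ?_)
  exact Subsingleton.elim (α := Fin 1) _ _

/-- The simplices of the point. -/
def st (k : Dop) : (Δ[0] : SSet.{0}).obj k :=
  stdSimplex.objEquiv.symm (SimplexCategory.const k.unop ⦋0⦌ 0)

theorem vert_st {W : SSet.{0}} (w : W _⦋0⦌) (k : Dop) :
    (vert w).app k (st k) = W.map (SimplexCategory.const k.unop ⦋0⦌ 0).op w := rfl

theorem mem_up {W : SSet.{0}} (W₀ : W.Subcomplex) (n : ℕ) {k : Dop} (c : W.obj k)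
    (ρ : (Δ[n] : SSet.{0}).obj k) :
    ((c, ρ) : (W ⊗ (Δ[n] : SSet.{0})).obj k) ∈
      (W₀.unionProd (∂Δ[n] : (Δ[n] : SSet.{0}).Subcomplex)).obj k ↔
      c ∈ W₀.obj k ∨ ρ ∈ (∂Δ[n] : (Δ[n] : SSet.{0}).Subcomplex).obj k := by
  refine (Subcomplex.mem_unionProd_iff _ _ _).trans ?_
  exact or_comm

theorem hom_ext (hR : Stmt_REP) {Y : SSet.{0}} {b : Base Y} {Z : SSet.{0}} {φ ψ : Z ⟶ Om Y b}
    (h : ∀ k z e, (FamL.ofHom φ).f k z e = (FamL.ofHom ψ).f k z e) : φ = ψ := by
  rw [← hR.2.2.2 Y b Z φ, ← hR.2.2.2 Y b Z ψ]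
  congr 1
  apply FamL.ext
  funext k z e
  exact h k z e

end OMW

open OMW in
/-- `W` is acyclic for the loop space of `Y`. -/
theorem tt_omw : Stmt_OMW := by
  classical
  intro hPP hH hR Y b hY W w W₀ hW hN n u v huv
  rcases Nat.eq_zero_or_pos n with rfl | hn
  · -- the boundary is empty
    let r : W ⟶ Δ[0] :=
      { app := fun k => TypeCat.ofHom (fun _ => st k)
        naturality := by
          intro k l α
          ext c
          exact pt0 _ _ }
    refine ⟨r ▷ Δ[0] ≫ v, ?_, ?_⟩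
    · apply NatTrans.ext
      funext k
      ext z
      exfalso
      apply z.2.2
      intro a
      refine ⟨0, ?_⟩
      exact Subsingleton.elim (α := Fin 1) _ _
    · have h1 : vert w ≫ r = 𝟙 _ := by
        apply NatTrans.ext
        funext k
        ext z
        exact pt0 _ _
      rw [← Category.assoc, ← comp_whiskerRight, h1, id_whiskerRight, Category.id_comp]
  · have hov : ∀ (k : Dop) (ρ : (Δ[n] : SSet.{0}).obj k)
        (h : ρ ∈ (∂Δ[n] : (Δ[n] : SSet.{0}).Subcomplex).obj k) (c : W.obj k), c ∈ W₀.obj k →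
        ∀ e : bx 1 ⟶ k, (FamL.ofHom u).f k (c, ⟨ρ, h⟩) e = (FamL.ofHom v).f k (st k, ρ) e := by
      intro k ρ h c hc e
      have h1 := congrArg (fun f => (FamL.ofHom f).f k (st k, ⟨ρ, h⟩) e) huv
      have h2 : c = (vert w).app k (st k) := by rw [vert_st]; exact (hW k c).1 hc
      rw [h2]
      exact h1
    let P : ∀ k : Dop, (W ⊗ (Δ[n] : SSet.{0})).obj k → (bx 1 ⟶ k) → Y.obj k := fun k z e =>
      if z.1 ∈ W₀.obj k then (FamL.ofHom v).f k (st k, z.2) e
      else if h : z.2 ∈ (∂Δ[n] : (Δ[n] : SSet.{0}).Subcomplex).obj k then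
        (FamL.ofHom u).f k (z.1, ⟨z.2, h⟩) e
      else b.pt k
    have P0 : ∀ (k : Dop) (c : W.obj k) (ρ : (Δ[n] : SSet.{0}).obj k) (e : bx 1 ⟶ k),
        c ∈ W₀.obj k → P k (c, ρ) e = (FamL.ofHom v).f k (st k, ρ) e :=
      fun k c ρ e h => if_pos h
    have P1 : ∀ (k : Dop) (c : W.obj k) (ρ : (Δ[n] : SSet.{0}).obj k)
        (h : ρ ∈ (∂Δ[n] : (Δ[n] : SSet.{0}).Subcomplex).obj k) (e : bx 1 ⟶ k),
        P k (c, ρ) e = (FamL.ofHom u).f k (c, ⟨ρ, h⟩) e := by
      intro k c ρ h e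
      by_cases hc : c ∈ W₀.obj k
      · rw [P0 k c ρ e hc, hov k ρ h c hc e]
      · exact (if_neg hc).trans (dif_pos h)
    obtain ⟨R, Rn, Rb, Re⟩ := core hPP hH b hY (W ⊗ (Δ[n] : SSet.{0}))
      (W₀.unionProd (∂Δ[n] : (Δ[n] : SSet.{0}).Subcomplex)) (by
        intro x hx1 hx2
        obtain ⟨h, h1, h2, h3, h4⟩ := hN n hn (fun k c ρ => x k (c, ρ))
          (fun α c ρ => hx1 α (c, ρ)) (fun k c ρ hc => hx2 k (c, ρ) ((mem_up W₀ n c ρ).2 hc))
        refine ⟨fun k z e => h k z.1 z.2 e, fun α z e => h1 α z.1 z.2 e, ?_, ?_, ?_⟩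
        · rintro k ⟨c, ρ⟩ e hz
          exact h2 k c ρ e ((mem_up W₀ n c ρ).1 hz)
        · intro k z
          exact h3 k z.1 z.2 _ (fun _ => rfl)
        · intro k z
          exact h4 k z.1 z.2 _ (fun _ => rfl)) P (by
        rintro k l α ⟨c, ρ⟩ e hz
        rcases ((mem_up W₀ n c ρ).1 hz).symm with hz' | hz'
        · have hz2 : (Δ[n] : SSet.{0}).map α ρ ∈
              (∂Δ[n] : (Δ[n] : SSet.{0}).Subcomplex).obj l :=
            (∂Δ[n] : (Δ[n] : SSet.{0}).Subcomplex).map α hz'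
          rw [P1 k c ρ hz' e]
          have h1 := (FamL.ofHom u).nat α (c, ⟨ρ, hz'⟩) e
          rw [← h1]
          exact P1 l (W.map α c) ((Δ[n] : SSet.{0}).map α ρ) hz2 (e ≫ α)
        · rw [P0 k c ρ e hz']
          have h1 := (FamL.ofHom v).nat α (st k, ρ) e
          rw [← h1]
          refine (P0 l (W.map α c) ((Δ[n] : SSet.{0}).map α ρ) (e ≫ α) (W₀.map α hz')).trans ?_
          have h2 : (st l : (Δ[0] : SSet.{0}).obj l) = (Δ[0] : SSet.{0}).map α (st k) := pt0 _ _
          rw [h2]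
          rfl) (by
        rintro k ⟨c, ρ⟩ e hz he
        rcases ((mem_up W₀ n c ρ).1 hz).symm with hz | hz
        · rw [P1 k c ρ hz e]
          exact (FamL.ofHom u).bd k _ e he
        · rw [P0 k c ρ e hz]
          exact (FamL.ofHom v).bd k _ e he)
    let F : FamL Y b (W ⊗ (Δ[n] : SSet.{0})) :=
      { f := R
        nat := fun α z e => Rn α z e
        bd := fun k z e he => Rb k z e he }
    refine ⟨F.toHom, ?_, ?_⟩
    · apply hom_ext hR
      intro k z e
      show (FamL.ofHom F.toHom).f k (z.1, z.2.1) e = _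
      rw [hR.2.2.1]
      show R k (z.1, z.2.1) e = _
      rw [Re k (z.1, z.2.1) e ((mem_up W₀ n _ _).2 (Or.inr z.2.2))]
      exact P1 k z.1 z.2.1 z.2.2 e
    · apply hom_ext hR
      intro k z e
      show (FamL.ofHom F.toHom).f k ((vert w).app k z.1, z.2) e = _
      rw [hR.2.2.1]
      show R k ((vert w).app k z.1, z.2) e = _
      have h1 : z.1 = st k := pt0 _ _
      have h2 : (vert w).app k z.1 ∈ W₀.obj k := by
        rw [h1, vert_st]
        exact (hW k _).2 rfl
      rw [Re k ((vert w).app k z.1, z.2) e ((mem_up W₀ n _ _).2 (Or.inl h2))]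
      refine (P0 k _ z.2 e h2).trans ?_
      rw [← h1]
      rfl

end Pool.Agent.SH.TT

end

end

section

/-!
# MP_2d0b73_an, block III-T: the levels of the resolution are finite
-/

open CategoryTheory Opposite

noncomputable section

namespace Pool.Agent.SH.TT

namespace FIN

theorem finite_hom (m : ℕ) (k : Dop) : Finite (bx m ⟶ k) := by
  have h : Function.Injective (fun t : bx m ⟶ k =>
      (fun i => t.unop.toOrderHom i : Fin (k.unop.len + 1) → Fin (m + 1))) := by
    intro t t' h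
    apply Quiver.Hom.unop_inj
    apply SimplexCategory.Hom.ext
    apply OrderHom.ext
    exact h
  exact Finite.of_injective _ h

theorem finite_augK (A : Type) [Finite A] : Finite (AugK A) := by
  have : Finite (A →₀ ZMod 2) := Finite.of_injective (fun f : A →₀ ZMod 2 => (f : A → ZMod 2))
    DFunLike.coe_injective
  infer_instance

theorem finite_it (A : Pointed.{0}) [Finite A.X] : ∀ s : ℕ, Finite ((it RM s).obj A).X
  | 0 => (inferInstance : Finite A.X)
  | s + 1 => by
    have h := finite_it A s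
    exact finite_augK ((it RM s).obj A).X

end FIN

theorem tt_fin : Stmt_FIN := by
  intro m s k
  have h := FIN.finite_hom m k
  have h1 : Finite ((Sph m).obj k).X :=
    (inferInstance : Finite (Option {t : bx m ⟶ k // ¬ Bdy t}))
  have h2 := FIN.finite_it ((Sph m).obj k) s
  exact FIN.finite_augK ((it RM s).obj ((Sph m).obj k)).X

end Pool.Agent.SH.TT

end

end

section

/-!
# MP_2d0b73_an: prism identity and homotopy invariance of the degree (mod 2)
-/


open CategoryTheory Simplicial Opposite SimplicialObject MonoidalCategory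

namespace Pool.Agent.SH.Ess

/-- linear functional on the free module -/
noncomputable def lin {S : Type} (b : S → ZMod 2) :
    (ModuleCat.free (ZMod 2)).obj S ⟶ ModuleCat.of (ZMod 2) (ZMod 2) :=
  ModuleCat.ofHom (Finsupp.linearCombination (ZMod 2) b)

theorem lin_single {S : Type} (b : S → ZMod 2) (s : S) :
    (lin b).hom (Finsupp.single s 1) = b s := by
  change (Finsupp.linearCombination (ZMod 2) b) (Finsupp.single s 1) = b s
  rw [Finsupp.linearCombination_single, one_smul]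

theorem free_map {S S' : Type} (f : S ⟶ S') (s : S) :
    ((ModuleCat.free (ZMod 2)).map f).hom (Finsupp.single s (1 : ZMod 2)) =
      Finsupp.single (f s) 1 := by
  exact Finsupp.mapDomain_single

/-- evaluation -/
noncomputable def ev {M N : ModuleCat.{0} (ZMod 2)} (a : M)
    (l : N ⟶ ModuleCat.of (ZMod 2) (ZMod 2)) : (M ⟶ N) →+ ZMod 2 where
  toFun φ := l.hom (φ.hom a)
  map_zero' := l.hom.map_zero
  map_add' φ ψ := l.hom.map_add (φ.hom _) (ψ.hom _)

theorem ev_smul {M N : ModuleCat.{0} (ZMod 2)} (a : M)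
    (l : N ⟶ ModuleCat.of (ZMod 2) (ZMod 2)) (k : ℕ)
    (φ : M ⟶ N) :
    ev a l (((-1 : ℤ) ^ k) • φ) = ev a l φ := by
  rw [map_zsmul]
  rcases neg_one_pow_eq_or ℤ k with h | h
  · rw [h, one_smul]
  · rw [h, neg_smul, one_smul, ZMod.neg_eq_self_mod_two]

theorem ev_map {S S' : Type} (b : S' → ZMod 2) (s : S) (f : S ⟶ S') :
    ev (M := (ModuleCat.free (ZMod 2)).obj S) (Finsupp.single s (1 : ZMod 2)) (lin b)
      ((ModuleCat.free (ZMod 2)).map f) = b (f s) := by
  change (lin b).hom (((ModuleCat.free (ZMod 2)).map f).hom (Finsupp.single s (1 : ZMod 2))) = _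
  rw [free_map, lin_single]

theorem prism {X Y : SSet.{0}} {f g : X ⟶ Y} (H : SimplicialObject.Homotopy f g) (n : ℕ)
    (A : X _⦋n + 1⦌) (b : Y _⦋n + 1⦌ → ZMod 2) :
    ∑ k : Fin (n + 2), ∑ j : Fin (n + 3), b (Y.δ j (H.h k A)) =
      b (f.app _ A) + b (g.app _ A) +
        ∑ i : Fin (n + 2), ∑ k : Fin (n + 1), b (H.h k (X.δ i A)) := by
  let F : Type ⥤ ModuleCat.{0} (ZMod 2) := ModuleCat.free (ZMod 2)
  let H' := H.whiskerRight F
  have h := (SimplicialObject.Homotopy.toChainHomotopy H').comm (n + 1)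
  rw [dNext_eq (i' := n) (w := by simp), prevD_eq (j' := n + 2) (w := by simp)] at h
  let e : ((((AlgebraicTopology.alternatingFaceMapComplex (ModuleCat.{0} (ZMod 2))).obj
      (((SimplicialObject.whiskering _ _).obj F).obj X))).X (n + 1) ⟶
      (((AlgebraicTopology.alternatingFaceMapComplex (ModuleCat.{0} (ZMod 2))).obj
      (((SimplicialObject.whiskering _ _).obj F).obj Y))).X (n + 1)) →+ ZMod 2 :=
    ev (M := F.obj (X _⦋n + 1⦌)) (N := F.obj (Y _⦋n + 1⦌))
      (Finsupp.single A (1 : ZMod 2)) (lin b)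
  have esm : ∀ (k : ℕ) φ, e (((-1 : ℤ) ^ k) • φ) = e φ := fun k φ => ev_smul _ _ k φ
  have h2 := congrArg e h
  rw [map_add, map_add] at h2
  have e1 : e (((AlgebraicTopology.alternatingFaceMapComplex (ModuleCat.{0} (ZMod 2))).map
      (((SimplicialObject.whiskering _ _).obj F).map f)).f (n + 1)) = b (f.app _ A) :=
    ev_map b A (f.app _)
  have e2 : e (((AlgebraicTopology.alternatingFaceMapComplex (ModuleCat.{0} (ZMod 2))).map
      (((SimplicialObject.whiskering _ _).obj F).map g)).f (n + 1)) = b (g.app _ A) :=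
    ev_map b A (g.app _)
  have e3 : e ((((AlgebraicTopology.alternatingFaceMapComplex (ModuleCat.{0} (ZMod 2))).obj
      (((SimplicialObject.whiskering _ _).obj F).obj X)).d (n + 1) n) ≫
      Homotopy.ToChainHomotopy.hom H' n (n + 1)) =
      ∑ i : Fin (n + 2), ∑ k : Fin (n + 1), b (H.h k (X.δ i A)) := by
    rw [Homotopy.ToChainHomotopy.hom_eq, AlgebraicTopology.alternatingFaceMapComplex_obj_d]
    rw [AlgebraicTopology.AlternatingFaceMapComplex.objD, Preadditive.sum_comp, map_sum]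
    refine Finset.sum_congr rfl (fun i _ => ?_)
    rw [Preadditive.zsmul_comp, esm, Preadditive.comp_neg, map_neg, ZMod.neg_eq_self_mod_two,
      Preadditive.comp_sum, map_sum]
    refine Finset.sum_congr rfl (fun k _ => ?_)
    rw [Preadditive.comp_zsmul, esm]
    exact (congrArg e (F.map_comp (X.δ i) (H.h k)).symm).trans (ev_map b A (X.δ i ≫ H.h k))
  have e4 : e ((Homotopy.ToChainHomotopy.hom H' (n + 1) (n + 2)) ≫
      (((AlgebraicTopology.alternatingFaceMapComplex (ModuleCat.{0} (ZMod 2))).obj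
      (((SimplicialObject.whiskering _ _).obj F).obj Y)).d (n + 2) (n + 1))) =
      ∑ k : Fin (n + 2), ∑ j : Fin (n + 3), b (Y.δ j (H.h k A)) := by
    rw [Homotopy.ToChainHomotopy.hom_eq, AlgebraicTopology.alternatingFaceMapComplex_obj_d]
    rw [Preadditive.neg_comp, map_neg, ZMod.neg_eq_self_mod_two, Preadditive.sum_comp, map_sum]
    refine Finset.sum_congr rfl (fun k _ => ?_)
    rw [Preadditive.zsmul_comp, esm, AlgebraicTopology.AlternatingFaceMapComplex.objD,
      Preadditive.comp_sum, map_sum]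
    refine Finset.sum_congr rfl (fun j _ => ?_)
    rw [Preadditive.comp_zsmul, esm]
    exact (congrArg e (F.map_comp (H.h k) (Y.δ j)).symm).trans (ev_map b A (H.h k ≫ Y.δ j))
  have h3 : b (f.app _ A) = (∑ i : Fin (n + 2), ∑ k : Fin (n + 1), b (H.h k (X.δ i A)) +
      ∑ k : Fin (n + 2), ∑ j : Fin (n + 3), b (Y.δ j (H.h k A))) + b (g.app _ A) := by
    rw [← e1, ← e2, ← e3, ← e4]
    exact h2
  rw [h3]
  clear h3 h2 e1 e2 e3 e4
  generalize (∑ k : Fin (n + 2), ∑ j : Fin (n + 3), b (Y.δ j (H.h k A))) = x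
  generalize (∑ i : Fin (n + 2), ∑ k : Fin (n + 1), b (H.h k (X.δ i A))) = y
  generalize b (g.app _ A) = z
  revert x y z
  decide

/-- the prism homotopy -/
noncomputable def prH (K : SSet.{0}) :
    SimplicialObject.Homotopy (SSet.ι₀ : K ⟶ K ⊗ Δ[1]) SSet.ι₁ :=
  SSet.Homotopy.toSimplicialObjectHomotopy
    ({ h := 𝟙 _
       h₀ := rfl
       h₁ := rfl
       rel := by
        ext n x <;> exact x.1.2.elim } : SSet.Homotopy (SSet.ι₀ : K ⟶ K ⊗ Δ[1]) SSet.ι₁)

theorem sum_invol {I : Type} [Fintype I] (F : I → ZMod 2) (τ : I → I) (h1 : ∀ i, τ (τ i) = i)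
    (h2 : ∀ i, τ i ≠ i) (h3 : ∀ i, F (τ i) = F i) : ∑ i, F i = 0 := by
  refine Finset.sum_involution (fun i _ => τ i) ?_ ?_ ?_ ?_
  · intro i _
    rw [h3]
    exact CharTwo.add_self_eq_zero _
  · intro i _ _
    exact h2 i
  · intro i _
    exact Finset.mem_univ _
  · intro i _
    exact h1 i

/-- homotopy invariance of the degree -/
theorem deg_inv {K X : SSet.{0}} (n : ℕ) {I : Type} [Fintype I] (A : I → K _⦋n + 1⦌)
    (hA : ∀ i : Fin (n + 2), ∃ τ : I → I, (∀ π, τ (τ π) = π) ∧ (∀ π, τ π ≠ π) ∧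
      ∀ π, K.δ i (A (τ π)) = K.δ i (A π))
    (c : X _⦋n + 2⦌ → ZMod 2) (hc : ∀ y : X _⦋n + 3⦌, ∑ j : Fin (n + 4), c (X.δ j y) = 0)
    {G₀ G₁ : K ⊗ Δ[1] ⟶ X} (H : SimplicialObject.Homotopy G₀ G₁)
    (hend : ∀ (k : Fin (n + 2)) (x : K _⦋n + 1⦌),
      c (H.h k ((SSet.ι₀ : K ⟶ K ⊗ Δ[1]).app _ x)) = 0 ∧
      c (H.h k ((SSet.ι₁ : K ⟶ K ⊗ Δ[1]).app _ x)) = 0) :
    ∑ π, ∑ k : Fin (n + 2), c (G₀.app _ ((prH K).h k (A π))) =
      ∑ π, ∑ k : Fin (n + 2), c (G₁.app _ ((prH K).h k (A π))) := by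
  let b : (K ⊗ Δ[1] : SSet.{0}) _⦋n + 1⦌ → ZMod 2 := fun v => ∑ k : Fin (n + 2), c (H.h k v)
  have h1 : ∀ w : (K ⊗ Δ[1] : SSet.{0}) _⦋n + 2⦌, c (G₀.app _ w) + c (G₁.app _ w) =
      ∑ i : Fin (n + 3), b ((K ⊗ Δ[1] : SSet.{0}).δ i w) := by
    intro w
    have := prism H (n + 1) w c
    rw [Finset.sum_eq_zero (fun k _ => hc _)] at this
    have h5 : ∀ x y z : ZMod 2, 0 = x + y + z → x + y = z := by decide
    exact h5 _ _ _ this
  have h2 : ∀ π, ∑ k : Fin (n + 2), ∑ i : Fin (n + 3),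
      b ((K ⊗ Δ[1] : SSet.{0}).δ i ((prH K).h k (A π))) =
      ∑ i : Fin (n + 2), ∑ k : Fin (n + 1), b ((prH K).h k (K.δ i (A π))) := by
    intro π
    rw [prism (prH K) n (A π) b]
    have e0 : b ((SSet.ι₀ : K ⟶ K ⊗ Δ[1]).app _ (A π)) = 0 :=
      Finset.sum_eq_zero (fun k _ => (hend k (A π)).1)
    have e1 : b ((SSet.ι₁ : K ⟶ K ⊗ Δ[1]).app _ (A π)) = 0 :=
      Finset.sum_eq_zero (fun k _ => (hend k (A π)).2)
    rw [e0, e1, zero_add, zero_add]
  have h3 : ∑ π, ∑ i : Fin (n + 2), ∑ k : Fin (n + 1), b ((prH K).h k (K.δ i (A π))) = 0 := by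
    rw [Finset.sum_comm]
    refine Finset.sum_eq_zero (fun i _ => ?_)
    obtain ⟨τ, t1, t2, t3⟩ := hA i
    exact sum_invol (fun π => ∑ k : Fin (n + 1), b ((prH K).h k (K.δ i (A π)))) τ t1 t2
      (fun π => by simp only [t3])
  have h4 : ∑ π, ∑ k : Fin (n + 2), (c (G₀.app _ ((prH K).h k (A π))) +
      c (G₁.app _ ((prH K).h k (A π)))) = 0 := by
    rw [← h3]
    refine Finset.sum_congr rfl (fun π _ => ?_)
    rw [← h2 π]
    exact Finset.sum_congr rfl (fun k _ => h1 _)
  simp only [Finset.sum_add_distrib] at h4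
  exact CharTwo.add_eq_zero.1 h4

end Pool.Agent.SH.Ess


end

section

/-!
# MP_2d0b73_an, block III-T: essentiality of the fundamental map (Stmt_ESS)

`ess`: the map `N(P0 M) -> Target (XD (M+1))` given by the coaugmentation family on
`N(P0 M) x Delta[1]` (collapsed onto the simplicial sphere of dimension `M + 1`) is not homotopic
to a constant map. Proof: the prism formula of `Prism.lean` with the fundamental cochain of the
sphere, and the subdivided simplex (sum over the maximal chains of faces).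
-/

open CategoryTheory Simplicial SSet Opposite MonoidalCategory

noncomputable section

namespace Pool.Agent.SH.TT.Ess

open Pool.Agent.SH.TT

variable {M : ℕ}

/-- maximum of a face -/
def mx (a : P0 M) : ℕ := (a.s.max' a.ne : Fin (M + 2)).val

theorem mx_mem (a : P0 M) : ∃ h : mx a < M + 2, (⟨mx a, h⟩ : Fin (M + 2)) ∈ a.s := by
  exact ⟨(a.s.max' a.ne).isLt, Finset.max'_mem a.s a.ne⟩

theorem le_mx (a : P0 M) (v : Fin (M + 2)) (h : v ∈ a.s) : v.val ≤ mx a :=
  Fin.le_def.1 (Finset.le_max' _ _ h)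

theorem mx_mono {a b : P0 M} (h : a ≤ b) : mx a ≤ mx b := by
  obtain ⟨h1, h2⟩ := mx_mem a
  exact le_mx b _ (h h2)

theorem mx_lt (a : P0 M) : mx a < M + 2 := (mx_mem a).1

/-- the vertex value -/
def val1 (a : ℕ) (e : Fin 2) : ℕ := if a < M then a else M + e.val

theorem val1_lt (a : ℕ) (e : Fin 2) : val1 (M := M) a e < M + 2 := by
  unfold val1
  split_ifs with h
  · omega
  · have := e.isLt
    omega

theorem val1_mono {a b : ℕ} {e e' : Fin 2} (h : a ≤ b) (h' : e ≤ e') :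
    val1 (M := M) a e ≤ val1 (M := M) b e' := by
  unfold val1
  have := Fin.le_def.1 h'
  split_ifs <;> omega

/-- `ψ` as a morphism of the simplex category -/
def psi {k : Dop} (z : (NP (P0 M)).obj k) (e : bx 1 ⟶ k) : k.unop ⟶ ⦋M + 1⦌ :=
  SimplexCategory.mkHom
    { toFun := fun i => ⟨val1 (M := M) (mx (z.obj i)) (e.unop.toOrderHom i), val1_lt _ _⟩
      monotone' := by
        intro i j hij
        refine Fin.le_def.2 (val1_mono (mx_mono ?_) (e.unop.toOrderHom.monotone hij))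
        exact leOfHom (z.map (homOfLE hij)) }

theorem psi_val {k : Dop} (z : (NP (P0 M)).obj k) (e : bx 1 ⟶ k) (i) :
    ((psi z e).toOrderHom i).val = val1 (M := M) (mx (z.obj i)) (e.unop.toOrderHom i) := rfl

theorem psi_nat {k l : Dop} (α : k ⟶ l) (z : (NP (P0 M)).obj k) (e : bx 1 ⟶ k) :
    psi ((NP (P0 M)).map α z) (e ≫ α) = α.unop ≫ psi z e := by
  apply SimplexCategory.Hom.ext
  ext i
  rfl

/-- condition -/
def Cnd {k : Dop} (z : (NP (P0 M)).obj k) (e : bx 1 ⟶ k) : Prop :=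
  (∀ i, mx (z.obj i) ≤ M) ∧ ¬ Bdy (psi z e).op

open scoped Classical in
/-- the collapse map -/
def G {k : Dop} (z : (NP (P0 M)).obj k) (e : bx 1 ⟶ k) : ((Sph (M + 1)).obj k).X :=
  if h : Cnd z e then some ⟨(psi z e).op, h.2⟩ else none

theorem surj_of_comp {k l : Dop} (t : bx (M + 1) ⟶ k) (α : k ⟶ l) (h : ¬ Bdy (t ≫ α)) :
    ¬ Bdy t := by
  unfold Bdy at h ⊢
  rw [not_not] at h ⊢
  intro y
  obtain ⟨x, hx⟩ := h y
  exact ⟨_, hx⟩

theorem cnd_map {k l : Dop} (α : k ⟶ l) (z : (NP (P0 M)).obj k) (e : bx 1 ⟶ k) :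
    Cnd ((NP (P0 M)).map α z) (e ≫ α) ↔ Cnd z e ∧ ¬ Bdy ((psi z e).op ≫ α) := by
  have hop : (psi ((NP (P0 M)).map α z) (e ≫ α)).op = (psi z e).op ≫ α := by
    rw [psi_nat]
    rfl
  constructor
  · rintro ⟨h1, h2⟩
    rw [hop] at h2
    refine ⟨⟨?_, surj_of_comp _ _ h2⟩, h2⟩
    intro i0
    by_contra hlt
    have hlt2 : mx (z.obj i0) = M + 1 := by
      have := mx_lt (z.obj i0)
      omega
    have hin : ∀ v : Fin (M + 2), v ∈ (z.obj i0).s := by
      intro v
      -- find an index with maximum `v`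
      by_cases hv : v.val = M + 1
      · obtain ⟨h3, h4⟩ := mx_mem (z.obj i0)
        have : v = ⟨mx (z.obj i0), h3⟩ := by
          apply Fin.ext
          rw [hv, ← hlt2]
        rw [this]
        exact h4
      · have hv' : v.val < M + 1 := by
          have := v.isLt
          omega
        unfold Bdy at h2
        rw [not_not] at h2
        obtain ⟨i, hi⟩ := h2 v
        -- the value at `α i`
        have hi2 : val1 (M := M) (mx (z.obj (α.unop.toOrderHom i)))
            (e.unop.toOrderHom (α.unop.toOrderHom i)) = v.val := congrArg Fin.val hi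
        have h5 : mx (z.obj (α.unop.toOrderHom i)) ≤ M := h1 i
        have h6 : mx (z.obj (α.unop.toOrderHom i)) = v.val := by
          unfold val1 at hi2
          split_ifs at hi2 with h7
          · exact hi2
          · have := (e.unop.toOrderHom (α.unop.toOrderHom i)).isLt
            omega
        have h7 : z.obj (α.unop.toOrderHom i) ≤ z.obj i0 := by
          rcases le_total (α.unop.toOrderHom i) i0 with h | h
          · exact leOfHom (z.map (homOfLE h))
          · have := mx_mono (leOfHom (z.map (homOfLE h)))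
            omega
        obtain ⟨h8, h9⟩ := mx_mem (z.obj (α.unop.toOrderHom i))
        have h10 : v = ⟨mx (z.obj (α.unop.toOrderHom i)), h8⟩ := by
          apply Fin.ext
          exact h6.symm
        rw [h10]
        exact h7 h9
    exact (z.obj i0).ne_univ (Finset.eq_univ_of_forall hin)
  · rintro ⟨⟨h1, h2⟩, h3⟩
    refine ⟨fun i => h1 _, ?_⟩
    rw [hop]
    exact h3

theorem G_nat {k l : Dop} (α : k ⟶ l) (z : (NP (P0 M)).obj k) (e : bx 1 ⟶ k) :
    G ((NP (P0 M)).map α z) (e ≫ α) = ((Sph (M + 1)).map α).toFun (G z e) := by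
  classical
  have hop : (psi ((NP (P0 M)).map α z) (e ≫ α)).op = (psi z e).op ≫ α := by
    rw [psi_nat]
    rfl
  by_cases h : Cnd z e
  · by_cases h2 : Bdy ((psi z e).op ≫ α)
    · have h3 : ¬ Cnd ((NP (P0 M)).map α z) (e ≫ α) := by
        rw [cnd_map]
        exact fun h4 => h4.2 h2
      have e1 : G ((NP (P0 M)).map α z) (e ≫ α) = none := dif_neg h3
      have e2 : G z e = some ⟨(psi z e).op, h.2⟩ := dif_pos h
      rw [e1, e2]
      show none = dite _ _ _
      rw [dif_neg (not_not.2 h2)]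
    · have h3 : Cnd ((NP (P0 M)).map α z) (e ≫ α) := by
        rw [cnd_map]
        exact ⟨h, h2⟩
      have e1 : G ((NP (P0 M)).map α z) (e ≫ α) = some ⟨_, h3.2⟩ := dif_pos h3
      have e2 : G z e = some ⟨(psi z e).op, h.2⟩ := dif_pos h
      rw [e1, e2]
      show _ = dite _ _ _
      rw [dif_pos h2]
      congr 1
  · have h3 : ¬ Cnd ((NP (P0 M)).map α z) (e ≫ α) := by
      rw [cnd_map]
      exact fun h4 => h h4.1
    have e1 : G ((NP (P0 M)).map α z) (e ≫ α) = none := dif_neg h3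
    have e2 : G z e = none := dif_neg h
    rw [e1, e2]
    rfl

theorem G_bd {k : Dop} (z : (NP (P0 M)).obj k) (e : bx 1 ⟶ k) (he : Bdy e) : G z e = none := by
  classical
  apply dif_neg
  rintro ⟨h1, h2⟩
  unfold Bdy at h2
  rw [not_not] at h2
  apply he
  intro b
  have hb : b.val < 2 := b.isLt
  have hb2 : M + b.val < M + 1 + 1 := by omega
  obtain ⟨i, hi⟩ := h2 (⟨M + b.val, hb2⟩ : Fin (M + 1 + 1))
  have hi2 : val1 (M := M) (mx (z.obj i)) (e.unop.toOrderHom i) = M + b.val :=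
    congrArg Fin.val hi
  refine ⟨i, ?_⟩
  unfold val1 at hi2
  split_ifs at hi2 with h7
  · omega
  · apply Fin.ext
    omega

/-! ### The map `e` -/

/-- the family defining `e` -/
def famE (F : Fam (XD (M + 1)) (SphS (M + 1)))
    (hF : ∀ (s : ℕ) (k : Dop) (t : bx s ⟶ k), F.f s k (none : ((Sph (M + 1)).obj k).X) t = 0) :
    FamL (Tot (XD (M + 1))) (Tot.base _) (NP (P0 M)) where
  f k z e := F.toHom.app k (G z e)
  nat := by
    intro k l α z e
    rw [G_nat]
    exact NatTrans.naturality_apply F.toHom α (G z e)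
  bd := by
    intro k z e he
    rw [G_bd z e he]
    apply TotS.ext
    funext s k' σ t
    exact hF s k' t

/-! ### Level zero of a map to the target -/

/-- the morphism `bx 1 ⟶ k` of a simplex of `Δ[1]` -/
def sx {k : Dop} (x : (Δ[1] : SSet.{0}).obj k) : bx 1 ⟶ k := (stdSimplex.objEquiv x).op

theorem sx_map {k l : Dop} (α : k ⟶ l) (x : (Δ[1] : SSet.{0}).obj k) :
    sx ((Δ[1] : SSet.{0}).map α x) = sx x ≫ α := rfl

/-- the morphism `bx 0 ⟶ k` -/
def pt0 (k : Dop) : bx 0 ⟶ k := (SimplexCategory.const k.unop ⦋0⦌ 0).op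

theorem pt0_comp {k l : Dop} (α : k ⟶ l) : pt0 k ≫ α = pt0 l := by
  apply Quiver.Hom.unop_inj
  apply SimplexCategory.Hom.ext
  ext i
  exact (Fin.val_eq_zero _).trans (Fin.val_eq_zero _).symm

/-- value of a simplex of `Tot` at level zero -/
def t0 {D : CoV} {k : Dop} (x : (Tot D).obj k) : (D.V 0).obj k :=
  (x : TotS D k).f 0 k (𝟙 k) (pt0 k)

theorem t0_map {D : CoV} {k l : Dop} (α : k ⟶ l) (x : (Tot D).obj k) :
    t0 ((Tot D).map α x) = (D.V 0).map α (t0 x) := by
  have h := (x : TotS D k).nat 0 α (𝟙 k) (pt0 k)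
  rw [Category.id_comp, pt0_comp] at h
  show (x : TotS D k).f 0 l (α ≫ 𝟙 l) (pt0 l) = _
  rw [Category.comp_id]
  exact h

/-- level zero -/
def lv0 {D : CoV} {Z : SSet.{0}} (φ : Z ⟶ Target D) : Z ⊗ Δ[1] ⟶ US (D.V 0) where
  app k := TypeCat.ofHom (fun zx => t0 ((FamL.ofHom φ).f k zx.1 (sx zx.2)))
  naturality {k l} α := by
    ext zx
    show t0 ((FamL.ofHom φ).f l (Z.map α zx.1) (sx ((Δ[1] : SSet.{0}).map α zx.2))) =
      (D.V 0).map α (t0 ((FamL.ofHom φ).f k zx.1 (sx zx.2)))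
    rw [sx_map, (FamL.ofHom φ).nat, t0_map]

theorem lv0_apply {D : CoV} {Z : SSet.{0}} (φ : Z ⟶ Target D) (k : Dop) (z : Z.obj k)
    (x : (Δ[1] : SSet.{0}).obj k) :
    (lv0 φ).app k (z, x) = t0 ((φ.app k z : OmS _ _ k).f k (𝟙 k) (sx x)) := rfl

/-- the swap -/
def swp (Z : SSet.{0}) : (Z ⊗ Δ[1]) ⊗ Δ[1] ⟶ (Z ⊗ Δ[1]) ⊗ (Δ[1] : SSet.{0}) where
  app _ := TypeCat.ofHom (fun x => ((x.1.1, x.2), x.1.2))
  naturality _ _ _ := rfl

/-- homotopies at level zero -/
def htp0 {D : CoV} {Z : SSet.{0}} {φ ψ : Z ⟶ Target D} (H : SSet.Homotopy φ ψ) :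
    SSet.Homotopy (lv0 φ) (lv0 ψ) where
  h := swp Z ≫ lv0 H.h
  h₀ := by
    ext k x
    have h := congrArg (fun f : Z ⟶ Target D => f.app k x.1) H.h₀
    show t0 (((H.h.app k ((SSet.ι₀ : Z ⟶ Z ⊗ Δ[1]).app k x.1)) : OmS _ _ k).f k (𝟙 k) (sx x.2)) =
      t0 ((φ.app k x.1 : OmS _ _ k).f k (𝟙 k) (sx x.2))
    exact congrArg (fun y : (Target D).obj k => t0 ((y : OmS _ _ k).f k (𝟙 k) (sx x.2))) h
  h₁ := by
    ext k x
    have h := congrArg (fun f : Z ⟶ Target D => f.app k x.1) H.h₁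
    exact congrArg (fun y : (Target D).obj k => t0 ((y : OmS _ _ k).f k (𝟙 k) (sx x.2))) h
  rel := by
    ext n x
    exact x.1.2.elim

theorem toS_h {X Y : SSet.{0}} {f g : X ⟶ Y} (H : SSet.Homotopy f g) {n : ℕ} (i : Fin (n + 1))
    (x : X _⦋n⦌) :
    H.toSimplicialObjectHomotopy.h i x =
      H.h.app (bx (n + 1)) ((X.map (SimplexCategory.σ i).op x,
        stdSimplex.objMk₁ i.succ.castSucc) : (X ⊗ Δ[1] : SSet.{0}).obj (bx (n + 1))) := by
  have h1 : (SSet.yonedaEquiv.symm x).app (bx (n + 1))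
      ((stdSimplex.objEquiv (m := op ⦋n + 1⦌)).symm (SimplexCategory.σ i)) =
      X.map (SimplexCategory.σ i).op x := by
    rw [SSet.yonedaEquiv_symm_app_objEquiv_symm]
  rw [← h1]
  rfl

theorem bdy_of_eq {k : Dop} (e : bx 1 ⟶ k) (b : Fin 2) (h : ∀ i, e.unop.toOrderHom i ≠ b) :
    Bdy e := by
  intro hs
  obtain ⟨i, hi⟩ := hs b
  exact h i hi

theorem lv0_bdy {D : CoV} {Z : SSet.{0}} (φ : Z ⟶ Target D) (k : Dop) (z : Z.obj k)
    (x : (Δ[1] : SSet.{0}).obj k) (h : Bdy (sx x)) :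
    (lv0 φ).app k (z, x) = (0 : (D.V 0).obj k) := by
  rw [lv0_apply, (φ.app k z : OmS _ _ k).bd k (𝟙 k) (sx x) h]
  rfl

theorem htp0_end {D : CoV} {Z : SSet.{0}} {φ ψ : Z ⟶ Target D} (H : SSet.Homotopy φ ψ) {n : ℕ}
    (i : Fin (n + 1)) (w : (Z ⊗ Δ[1] : SSet.{0}) _⦋n⦌) (hw : Bdy (sx (k := bx n) w.2)) :
    (htp0 H).toSimplicialObjectHomotopy.h i w = (0 : (D.V 0).obj (bx (n + 1))) := by
  rw [toS_h]
  have hb : Bdy (sx (k := bx (n + 1)) ((Δ[1] : SSet.{0}).map (SimplexCategory.σ i).op w.2)) := by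
    rw [sx_map]
    intro hs
    apply hw
    intro y
    obtain ⟨x, hx⟩ := hs y
    exact ⟨_, hx⟩
  exact lv0_bdy H.h (bx (n + 1)) (Z.map (SimplexCategory.σ i).op w.1,
    stdSimplex.objMk₁ i.succ.castSucc)
    ((Δ[1] : SSet.{0}).map (SimplexCategory.σ i).op w.2) hb

theorem sx_iota0 {n : ℕ} {K : SSet.{0}} (x : K _⦋n⦌) :
    Bdy (sx (k := bx n) ((SSet.ι₀ : K ⟶ K ⊗ Δ[1]).app (bx n) x).2) := by
  apply bdy_of_eq _ 1
  intro i h
  have h2 : sx (k := bx n) ((SSet.ι₀ : K ⟶ K ⊗ Δ[1]).app (bx n) x).2 =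
    (SimplexCategory.const ⦋n⦌ ⦋1⦌ 0).op := rfl
  rw [h2] at h
  have h3 : (0 : Fin 2) = 1 := h
  exact absurd h3 (by decide)

theorem sx_iota1 {n : ℕ} {K : SSet.{0}} (x : K _⦋n⦌) :
    Bdy (sx (k := bx n) ((SSet.ι₁ : K ⟶ K ⊗ Δ[1]).app (bx n) x).2) := by
  apply bdy_of_eq _ 0
  intro i h
  have h2 : sx (k := bx n) ((SSet.ι₁ : K ⟶ K ⊗ Δ[1]).app (bx n) x).2 =
    (SimplexCategory.const ⦋n⦌ ⦋1⦌ 1).op := rfl
  rw [h2] at h
  have h3 : (1 : Fin 2) = 0 := h
  exact absurd h3 (by decide)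

/-! ### The cocycle -/

/-- the top simplex -/
def topS (m : ℕ) : ((Sph m).obj (bx m)).X :=
  some ⟨𝟙 (bx m), by
    unfold Bdy
    rw [not_not]
    intro y
    exact ⟨y, rfl⟩⟩

theorem none_ne_top (m : ℕ) : (none : ((Sph m).obj (bx m)).X) ≠ topS m :=
  fun h => Option.some_ne_none _ h.symm

/-- the coefficient of the top simplex -/
def cc (m : ℕ) (y : (XV m 0).obj (bx m)) : ZMod 2 :=
  ((show AugK ((Sph m).obj (bx m)).X from y) : ((Sph m).obj (bx m)).X →₀ ZMod 2) (topS m)

theorem cc_zero (m : ℕ) : cc m 0 = 0 := rfl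

open scoped Classical in
theorem mapDomain_coef {A B : Type} (f : A → B) (y : A →₀ ZMod 2) (b : B) :
    (y.mapDomain f) b = Finsupp.linearCombination (ZMod 2)
      (fun a => if f a = b then (1 : ZMod 2) else 0) y := by
  induction y using Finsupp.induction_linear with
  | zero => simp
  | add x y hx hy => rw [Finsupp.mapDomain_add, Finsupp.add_apply, hx, hy, map_add]
  | single a v =>
    rw [Finsupp.mapDomain_single, Finsupp.linearCombination_single, Finsupp.single_apply]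
    split_ifs <;> simp

theorem sph_map_eq (m : ℕ) (j : Fin (m + 2)) (a : ((Sph m).obj (bx (m + 1))).X) :
    ((Sph m).map (SimplexCategory.δ j).op).toFun a = topS m ↔
      ∃ t, a = some t ∧ t.1 ≫ (SimplexCategory.δ j).op = 𝟙 (bx m) := by
  classical
  cases a with
  | none =>
    constructor
    · intro h
      exact absurd h (none_ne_top m)
    · rintro ⟨t, ht, -⟩
      exact absurd ht.symm (Option.some_ne_none _)
  | some t =>
    have e : ((Sph m).map (SimplexCategory.δ j).op).toFun (some t) =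
      (if h : ¬ Bdy (t.1 ≫ (SimplexCategory.δ j).op) then
        some (⟨t.1 ≫ (SimplexCategory.δ j).op, h⟩ : {t : bx m ⟶ bx m // ¬ Bdy t}) else none) := rfl
    rw [e]
    constructor
    · intro h
      refine ⟨t, rfl, ?_⟩
      by_cases h2 : ¬ Bdy (t.1 ≫ (SimplexCategory.δ j).op)
      · rw [dif_pos h2] at h
        exact congrArg Subtype.val (Option.some.inj h)
      · rw [dif_neg h2] at h
        exact absurd h (none_ne_top m)
    · rintro ⟨t', ht', h⟩
      have : t = t' := Option.some.inj ht'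
      subst this
      have h2 : ¬ Bdy (t.1 ≫ (SimplexCategory.δ j).op) := by
        rw [h]
        unfold Bdy
        rw [not_not]
        intro y
        exact ⟨y, rfl⟩
      rw [dif_pos h2]
      show some _ = some _
      congr 1
      exact Subtype.ext h

theorem cc_coc (m : ℕ) (y : (XV m 0).obj (bx (m + 1))) :
    ∑ j : Fin (m + 2), cc m ((XV m 0).map (SimplexCategory.δ j).op y) = 0 := by
  classical
  let y' : ((Sph m).obj (bx (m + 1))).X →₀ ZMod 2 :=
    ((show AugK ((Sph m).obj (bx (m + 1))).X from y) : ((Sph m).obj (bx (m + 1))).X →₀ ZMod 2)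
  have e1 : ∀ j : Fin (m + 2), cc m ((XV m 0).map (SimplexCategory.δ j).op y) =
      Finsupp.linearCombination (ZMod 2)
        (fun a => if ((Sph m).map (SimplexCategory.δ j).op).toFun a = topS m
          then (1 : ZMod 2) else 0) y' := by
    intro j
    exact mapDomain_coef ((Sph m).map (SimplexCategory.δ j).op).toFun y' (topS m)
  rw [Finset.sum_congr rfl (fun j _ => e1 j)]
  have e2 : ∀ a : ((Sph m).obj (bx (m + 1))).X, ∑ j : Fin (m + 2),
      (if ((Sph m).map (SimplexCategory.δ j).op).toFun a = topS m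
          then (1 : ZMod 2) else 0) = 0 := by
    intro a
    cases a with
    | none =>
      refine Finset.sum_eq_zero (fun j _ => if_neg ?_)
      rw [sph_map_eq]
      rintro ⟨t, ht, -⟩
      exact absurd ht.symm (Option.some_ne_none _)
    | some t =>
      have hepi : Epi t.1.unop := by
        rw [SimplexCategory.epi_iff_surjective]
        have := t.2
        unfold Bdy at this
        rw [not_not] at this
        exact this
      obtain ⟨i, hi⟩ := SimplexCategory.eq_σ_of_epi t.1.unop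
      have key : ∀ j : Fin (m + 2),
          (((Sph m).map (SimplexCategory.δ j).op).toFun (some t) = topS m) ↔
            (j = i.castSucc ∨ j = i.succ) := by
        intro j
        refine (sph_map_eq m j (some t)).trans
          (Iff.trans (b := SimplexCategory.δ j ≫ SimplexCategory.σ i = 𝟙 ⦋m⦌) ?_ ?_)
        · constructor
          · rintro ⟨t', ht', h⟩
            have : t = t' := Option.some.inj ht'
            subst this
            have h2 := congrArg Quiver.Hom.unop h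
            rw [unop_comp, hi] at h2
            exact h2
          · intro h
            refine ⟨t, rfl, ?_⟩
            apply Quiver.Hom.unop_inj
            rw [unop_comp, hi]
            exact h
        constructor
        · intro h
          by_contra hne
          rw [not_or] at hne
          obtain ⟨a, ha⟩ := Fin.exists_succAbove_eq (Ne.symm hne.1)
          obtain ⟨b, hb⟩ := Fin.exists_succAbove_eq (Ne.symm hne.2)
          have h2 : ∀ x : Fin (m + 1), i.predAbove (j.succAbove x) = x := by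
            intro x
            exact congrArg (fun f => (SimplexCategory.Hom.toOrderHom f) x) h
          have h3 := h2 a
          have h4 := h2 b
          rw [ha] at h3
          rw [hb] at h4
          have h5 : i.predAbove i.castSucc = i := Fin.predAbove_castSucc_self i
          have h6 : i.predAbove i.succ = i := Fin.predAbove_succ_self i
          rw [h5] at h3
          rw [h6] at h4
          have h7 : a = b := h3.symm.trans h4
          rw [← h7, ha] at hb
          exact absurd hb (Fin.castSucc_lt_succ).ne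
        · rintro (rfl | rfl)
          · exact SimplexCategory.δ_comp_σ_self
          · exact SimplexCategory.δ_comp_σ_succ
      have e3 : ∀ j : Fin (m + 2),
          (if ((Sph m).map (SimplexCategory.δ j).op).toFun (some t) = topS m
          then (1 : ZMod 2) else 0) =
          (if j = i.castSucc then (1 : ZMod 2) else 0) + (if j = i.succ then 1 else 0) := by
        intro j
        rw [if_congr (key j) rfl rfl]
        by_cases h1 : j = i.castSucc
        · subst h1
          have h2 : i.castSucc ≠ i.succ := (Fin.castSucc_lt_succ).ne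
          simp [h2]
        · simp [h1]
      rw [Finset.sum_congr rfl (fun j _ => e3 j), Finset.sum_add_distrib]
      simp
      decide
  rw [← LinearMap.sum_apply]
  have e4 : (∑ j : Fin (m + 2), Finsupp.linearCombination (ZMod 2)
      (fun a => if ((Sph m).map (SimplexCategory.δ j).op).toFun a = topS m
          then (1 : ZMod 2) else 0)) = 0 := by
    apply Finsupp.lhom_ext
    intro a v
    rw [LinearMap.sum_apply]
    simp only [Finsupp.linearCombination_single, smul_eq_mul]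
    rw [← Finset.mul_sum, e2, mul_zero, LinearMap.zero_apply]
  rw [e4, LinearMap.zero_apply]

open scoped Classical in
theorem cc_brk (m : ℕ) (x : ((Sph m).obj (bx m)).X) :
    cc m (brk (none : ((Sph m).obj (bx m)).X) x : AugK ((Sph m).obj (bx m)).X) =
      if x = topS m then 1 else 0 := by
  have e : cc m (brk (none : ((Sph m).obj (bx m)).X) x : AugK ((Sph m).obj (bx m)).X) =
    (Finsupp.single x (1 : ZMod 2)) (topS m) +
      (Finsupp.single (none : ((Sph m).obj (bx m)).X) (1 : ZMod 2)) (topS m) := rfl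
  rw [e, Finsupp.single_apply, Finsupp.single_apply, if_neg (none_ne_top m), add_zero]

/-! ### The fundamental chain of the boundary -/

/-- initial segments, transported by a permutation -/
def fc {n : ℕ} (π : Equiv.Perm (Fin (n + 3))) (j : Fin (n + 2)) : P0 (n + 1) where
  s := (Finset.univ.filter (fun u : Fin (n + 3) => u ≤ j.castSucc)).map π.toEmbedding
  ne := by
    refine Finset.Nonempty.map ⟨j.castSucc, ?_⟩
    simp
  ne_univ := by
    intro h
    have h1 : π (Fin.last (n + 2)) ∈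
      (Finset.univ.filter (fun u : Fin (n + 3) => u ≤ j.castSucc)).map π.toEmbedding := by
      rw [h]
      exact Finset.mem_univ _
    rw [Finset.mem_map] at h1
    obtain ⟨u, hu, hu2⟩ := h1
    have hu3 : u = Fin.last (n + 2) := π.injective hu2
    subst hu3
    have hu4 := (Finset.mem_filter.1 hu).2
    exact absurd (lt_of_le_of_lt hu4 (Fin.castSucc_lt_last j)) (lt_irrefl _)

theorem mem_fc {n : ℕ} (π : Equiv.Perm (Fin (n + 3))) (j : Fin (n + 2)) (v : Fin (n + 3)) :
    v ∈ (fc π j).s ↔ ∃ u : Fin (n + 3), u.val ≤ j.val ∧ π u = v := by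
  unfold fc
  simp only [Finset.mem_map, Finset.mem_filter, Finset.mem_univ, true_and, Equiv.coe_toEmbedding]
  rfl

theorem fc_mono {n : ℕ} (π : Equiv.Perm (Fin (n + 3))) : Monotone (fc π) := by
  intro a b hab v hv
  rw [mem_fc] at hv ⊢
  obtain ⟨u, hu, huv⟩ := hv
  exact ⟨u, hu.trans (Fin.le_def.1 hab), huv⟩

/-- the chain as a simplex -/
def chA {n : ℕ} (π : Equiv.Perm (Fin (n + 3))) : (NP (P0 (n + 1))) _⦋n + 1⦌ :=
  (fc_mono π).functor

theorem np_ext {P : Type} [PartialOrder P] {k : Dop} (x y : (NP P).obj k)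
    (h : ∀ i, x.obj i = y.obj i) : x = y :=
  CategoryTheory.Functor.ext h (fun _ _ _ => Subsingleton.elim _ _)

theorem chA_faces {n : ℕ} (i : Fin (n + 2)) : ∃ τ : Equiv.Perm (Fin (n + 3)) →
    Equiv.Perm (Fin (n + 3)), (∀ π, τ (τ π) = π) ∧ (∀ π, τ π ≠ π) ∧
      ∀ π, (NP (P0 (n + 1))).δ i (chA (τ π)) = (NP (P0 (n + 1))).δ i (chA π) := by
  have hne : i.castSucc ≠ i.succ := (Fin.castSucc_lt_succ).ne
  refine ⟨fun π => π * Equiv.swap i.castSucc i.succ, ?_, ?_, ?_⟩
  · intro π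
    show π * Equiv.swap i.castSucc i.succ * Equiv.swap i.castSucc i.succ = π
    rw [mul_assoc, Equiv.swap_mul_self, mul_one]
  · intro π h
    have h2 : Equiv.swap i.castSucc i.succ = 1 := by
      have h3 : π * Equiv.swap i.castSucc i.succ = π * 1 := by rw [mul_one]; exact h
      exact mul_left_cancel h3
    have h4 := congrArg (fun f : Equiv.Perm (Fin (n + 3)) => f i.castSucc) h2
    simp only [Equiv.swap_apply_left, Equiv.Perm.one_apply] at h4
    exact hne h4.symm
  · intro π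
    apply np_ext
    intro j
    show fc (π * Equiv.swap i.castSucc i.succ) (i.succAbove j) = fc π (i.succAbove j)
    have hji : (i.succAbove j).val ≠ i.val := fun h => Fin.succAbove_ne i j (Fin.ext h)
    have hsw : ∀ u : Fin (n + 3), (Equiv.swap i.castSucc i.succ u).val ≤ (i.succAbove j).val ↔
        u.val ≤ (i.succAbove j).val := by
      intro u
      by_cases h1 : u = i.castSucc
      · subst h1
        rw [Equiv.swap_apply_left]
        simp only [Fin.val_succ, Fin.val_castSucc]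
        omega
      · by_cases h2 : u = i.succ
        · subst h2
          rw [Equiv.swap_apply_right]
          simp only [Fin.val_succ, Fin.val_castSucc]
          omega
        · rw [Equiv.swap_apply_of_ne_of_ne h1 h2]
    have hs : (fc (π * Equiv.swap i.castSucc i.succ) (i.succAbove j)).s =
        (fc π (i.succAbove j)).s := by
      ext v
      rw [mem_fc, mem_fc]
      constructor
      · rintro ⟨u, hu, huv⟩
        exact ⟨Equiv.swap i.castSucc i.succ u, (hsw u).2 hu, huv⟩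
      · rintro ⟨u, hu, huv⟩
        refine ⟨Equiv.swap i.castSucc i.succ u, (hsw u).2 hu, ?_⟩
        rw [Equiv.Perm.mul_apply, Equiv.swap_apply_self]
        exact huv
    have hext : ∀ a b : P0 (n + 1), a.s = b.s → a = b := by
      intro a b h
      cases a
      cases b
      cases h
      rfl
    exact hext _ _ hs

/-! ### The count -/

/-- the combinatorial core -/
theorem core {n : ℕ} (π : Equiv.Perm (Fin (n + 3))) (k : Fin (n + 2))
    (e : Fin (n + 3) → Fin 2) (he : ∀ i : Fin (n + 3), e i = if i.val ≤ k.val then 0 else 1) :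
    ((∀ j : Fin (n + 2), mx (fc π j) ≤ n + 1) ∧
      ∀ i : Fin (n + 3), val1 (M := n + 1) (mx (fc π (k.predAbove i))) (e i) = i.val) ↔
      π = 1 ∧ k = Fin.last (n + 1) := by
  have pa : ∀ i : Fin (n + 3), (k.predAbove i).val = if i.val ≤ k.val then i.val else i.val - 1 := by
    intro i
    by_cases h : i.val ≤ k.val
    · rw [if_pos h, Fin.predAbove_of_le_castSucc _ _ (Fin.le_def.2 h)]
      rfl
    · rw [if_neg h, Fin.predAbove_of_castSucc_lt _ _ (Fin.lt_def.2 (not_le.1 h)), Fin.val_pred]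
  constructor
  · rintro ⟨h1, h2⟩
    have hk : k = Fin.last (n + 1) := by
      by_contra hne
      have hlt : k.val < n + 1 := by
        have := Fin.val_lt_last hne
        exact this
      have a1 := h2 k.castSucc
      have a2 := h2 k.succ
      have e1 : k.predAbove k.castSucc = k := Fin.predAbove_castSucc_self k
      have e2 : k.predAbove k.succ = k := Fin.predAbove_succ_self k
      rw [e1] at a1
      rw [e2] at a2
      have v1 : k.castSucc.val = k.val := rfl
      have v2 : k.succ.val = k.val + 1 := rfl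
      rw [he, v1, if_pos le_rfl] at a1
      rw [he, v2, if_neg (by omega)] at a2
      have z0 : (0 : Fin 2).val = 0 := rfl
      have z1 : (1 : Fin 2).val = 1 := rfl
      unfold val1 at a1 a2
      rw [z0] at a1
      rw [z1] at a2
      split_ifs at a1 a2 <;> omega
    refine ⟨?_, hk⟩
    have hk2 : k.val = n + 1 := by rw [hk]; rfl
    have ha : ∀ j : Fin (n + 2), mx (fc π j) = j.val := by
      intro j
      have a1 := h2 j.castSucc
      have v1 : j.castSucc.val = j.val := rfl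
      have hj := j.isLt
      have e1 : k.predAbove j.castSucc = j := by
        apply Fin.ext
        rw [pa, v1, if_pos (by omega)]
      rw [e1, he, v1, if_pos (by omega)] at a1
      have z0 : (0 : Fin 2).val = 0 := rfl
      have h3 := h1 j
      unfold val1 at a1
      rw [z0] at a1
      split_ifs at a1 <;> omega
    have hp : ∀ (v : ℕ) (hv : v < n + 2), (π ⟨v, by omega⟩).val = v := by
      intro v
      induction v using Nat.strong_induction_on with
      | _ v ih =>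
        intro hv
        have h3 : (π ⟨v, by omega⟩ : Fin (n + 3)) ∈ (fc π ⟨v, hv⟩).s := by
          rw [mem_fc]
          exact ⟨⟨v, by omega⟩, le_rfl, rfl⟩
        have h4 := le_mx _ _ h3
        rw [ha] at h4
        have h5 : (π ⟨v, by omega⟩ : Fin (n + 3)).val ≤ v := h4
        by_contra hne
        have h6 : (π ⟨v, by omega⟩ : Fin (n + 3)).val < v := lt_of_le_of_ne h5 hne
        have h7 := ih _ h6 (by omega)
        have h8 : (⟨(π ⟨v, by omega⟩ : Fin (n + 3)).val, by omega⟩ : Fin (n + 3)) = ⟨v, by omega⟩ := by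
          apply π.injective
          apply Fin.ext
          rw [h7]
        have h9 := congrArg Fin.val h8
        exact hne h9
    ext i
    rw [Equiv.Perm.one_apply]
    by_cases hi : i.val < n + 2
    · exact hp i.val hi
    · have hi2 : i.val = n + 2 := by
        have := i.isLt
        omega
      by_contra hne
      have h3 : (π i).val < n + 2 := by
        have := (π i).isLt
        omega
      have h4 := hp _ h3
      have h5 : (⟨(π i).val, by omega⟩ : Fin (n + 3)) = i := by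
        apply π.injective
        apply Fin.ext
        rw [h4]
      exact hne (congrArg Fin.val h5)
  · rintro ⟨rfl, rfl⟩
    have ha : ∀ j : Fin (n + 2), mx (fc (1 : Equiv.Perm (Fin (n + 3))) j) = j.val := by
      intro j
      apply le_antisymm
      · obtain ⟨h3, h4⟩ := mx_mem (fc (1 : Equiv.Perm (Fin (n + 3))) j)
        rw [mem_fc] at h4
        obtain ⟨u, hu, huv⟩ := h4
        have := congrArg Fin.val huv
        rw [Equiv.Perm.one_apply] at this
        have h5 : u.val = mx (fc (1 : Equiv.Perm (Fin (n + 3))) j) := this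
        omega
      · have h3 : (j.castSucc : Fin (n + 3)) ∈ (fc (1 : Equiv.Perm (Fin (n + 3))) j).s := by
          rw [mem_fc]
          exact ⟨j.castSucc, le_rfl, rfl⟩
        exact le_mx _ _ h3
    constructor
    · intro j
      rw [ha]
      have := j.isLt
      omega
    · intro i
      have hi := i.isLt
      rw [ha, pa, he]
      have v : (Fin.last (n + 1)).val = n + 1 := rfl
      rw [v]
      have z0 : (0 : Fin 2).val = 0 := rfl
      have z1 : (1 : Fin 2).val = 1 := rfl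
      unfold val1
      split_ifs <;> omega

/-! ### Assembly -/

theorem lv0_e (F : Fam (XD (M + 1)) (SphS (M + 1)))
    (hF0 : ∀ (k : Dop) (x : (SphS (M + 1)).obj k) (t : bx 0 ⟶ k),
      F.f 0 k x t = brk (none : ((Sph (M + 1)).obj k).X) x)
    (hF : ∀ (s : ℕ) (k : Dop) (t : bx s ⟶ k), F.f s k (none : ((Sph (M + 1)).obj k).X) t = 0)
    (k : Dop) (z : (NP (P0 M)).obj k) (x : (Δ[1] : SSet.{0}).obj k) :
    (lv0 (famE F hF).toHom).app k (z, x) =
      (brk (none : ((Sph (M + 1)).obj k).X) (G z (sx x)) : AugK ((Sph (M + 1)).obj k).X) := by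
  rw [lv0_apply]
  show F.f 0 k ((SphS (M + 1)).map (𝟙 k) (G ((NP (P0 M)).map (𝟙 k) z) (sx x))) (pt0 k) = _
  rw [hF0, CategoryTheory.Functor.map_id_apply, CategoryTheory.Functor.map_id_apply]
  rfl

theorem prH_h (K : SSet.{0}) {n : ℕ} (i : Fin (n + 1)) (x : K _⦋n⦌) :
    (SH.Ess.prH K).h i x = (K.map (SimplexCategory.σ i).op x,
        stdSimplex.objMk₁ i.succ.castSucc) := by
  unfold SH.Ess.prH
  rw [toS_h]
  rfl

theorem G_top {n : ℕ} (π : Equiv.Perm (Fin (n + 3))) (k : Fin (n + 2)) :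
    G ((NP (P0 (n + 1))).map (SimplexCategory.σ k).op (chA π))
      (sx (k := bx (n + 2)) (stdSimplex.objMk₁ k.succ.castSucc)) = topS (n + 2) ↔
      π = 1 ∧ k = Fin.last (n + 1) := by
  classical
  set z := (NP (P0 (n + 1))).map (SimplexCategory.σ k).op (chA π) with hz
  set e := sx (k := bx (n + 2)) (stdSimplex.objMk₁ k.succ.castSucc) with he
  have hzo : ∀ i : Fin (n + 3), z.obj i = fc π (k.predAbove i) := fun i => rfl
  have heo : ∀ i : Fin (n + 3), e.unop.toOrderHom i = if i.val ≤ k.val then 0 else 1 := by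
    intro i
    have h1 : e.unop.toOrderHom i = if i.castSucc < k.succ.castSucc then 0 else 1 := rfl
    rw [h1]
    have h2 : i.castSucc < k.succ.castSucc ↔ i.val ≤ k.val := by
      rw [Fin.lt_def]
      simp only [Fin.val_castSucc, Fin.val_succ]
      omega
    rw [if_congr h2 rfl rfl]
  have h1 : G z e = topS (n + 2) ↔ (∀ i, mx (z.obj i) ≤ n + 1) ∧ psi z e = 𝟙 ⦋n + 2⦌ := by
    constructor
    · intro h
      by_cases hc : Cnd z e
      · have h2 : G z e = some ⟨(psi z e).op, hc.2⟩ := dif_pos hc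
        rw [h2] at h
        have h3 := congrArg Subtype.val (Option.some.inj h)
        exact ⟨hc.1, congrArg Quiver.Hom.unop h3⟩
      · have h2 : G z e = none := dif_neg hc
        rw [h2] at h
        exact absurd h (none_ne_top _)
    · rintro ⟨h2, h3⟩
      have hc : Cnd z e := by
        refine ⟨h2, ?_⟩
        rw [h3]
        unfold Bdy
        rw [not_not]
        intro y
        exact ⟨y, rfl⟩
      have h4 : G z e = some ⟨(psi z e).op, hc.2⟩ := dif_pos hc
      rw [h4]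
      unfold topS
      congr 1
      apply Subtype.ext
      exact congrArg Quiver.Hom.op h3
  rw [h1, ← core π k (fun i => e.unop.toOrderHom i) heo]
  refine and_congr ?_ ?_
  · constructor
    · intro h j
      have h2 := h j.castSucc
      rw [hzo] at h2
      by_cases hjk : j ≤ k
      · have h3 : k.predAbove j.castSucc = j := by
          apply Fin.ext
          rw [Fin.predAbove_of_le_castSucc _ _ (Fin.castSucc_le_castSucc_iff.2 hjk)]
          rfl
        rw [h3] at h2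
        exact h2
      · have h4 := h j.succ
        rw [hzo] at h4
        have h3 : k.predAbove j.succ = j := by
          apply Fin.ext
          rw [Fin.predAbove_of_castSucc_lt _ _ (by
            rw [Fin.lt_def]
            have := Fin.lt_def.1 (not_le.1 hjk)
            simp only [Fin.val_castSucc, Fin.val_succ]
            omega)]
          rfl
        rw [h3] at h4
        exact h4
    · intro h i
      rw [hzo]
      exact h _
  · constructor
    · intro h i
      have h2 := congrArg (fun f : ⦋n + 2⦌ ⟶ ⦋n + 2⦌ => (f.toOrderHom i).val) h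
      exact h2
    · intro h
      apply SimplexCategory.Hom.ext
      ext i
      exact h i

end Pool.Agent.SH.TT.Ess

namespace Pool.Agent.SH.TT

open Pool.Agent.SH.TT.Ess in
/-- TT_ESS. -/
theorem ess (hC : Stmt_COA) : Stmt_ESS := by
  classical
  intro M hM
  obtain ⟨n, rfl⟩ : ∃ n, M = n + 1 := ⟨M - 1, by omega⟩
  obtain ⟨F, hF0, hF⟩ := hC (n + 1 + 1)
  refine ⟨(famE F hF).toHom, ?_⟩
  rintro ⟨t, ⟨H⟩⟩
  have key := SH.Ess.deg_inv n (K := NP (P0 (n + 1)))
    (X := US ((XD (n + 1 + 1)).V 0)) (I := Equiv.Perm (Fin (n + 3)))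
    (fun π => chA π) (fun i => chA_faces i) (cc (n + 2)) (fun y => cc_coc (n + 2) y)
    (htp0 H).toSimplicialObjectHomotopy
    (fun k x => ⟨by
      rw [htp0_end H k _ (sx_iota0 x)]
      exact cc_zero _, by
      rw [htp0_end H k _ (sx_iota1 x)]
      exact cc_zero _⟩)
  have h1 : ∑ π : Equiv.Perm (Fin (n + 3)), ∑ k : Fin (n + 2),
      cc (n + 2) ((lv0 (famE F hF).toHom).app _ ((SH.Ess.prH (NP (P0 (n + 1)))).h k (chA π))) =
      1 := by
    have e1 : ∀ (π : Equiv.Perm (Fin (n + 3))) (k : Fin (n + 2)),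
        cc (n + 2) ((lv0 (famE F hF).toHom).app _ ((SH.Ess.prH (NP (P0 (n + 1)))).h k (chA π))) =
        if (π = 1 ∧ k = Fin.last (n + 1)) then 1 else 0 := by
      intro π k
      rw [prH_h]
      have e2 := lv0_e F hF0 hF (bx (n + 2))
        ((NP (P0 (n + 1))).map (SimplexCategory.σ k).op (chA π))
        (stdSimplex.objMk₁ k.succ.castSucc)
      have e3 := congrArg (cc (n + 2)) e2
      refine e3.trans ((cc_brk (n + 2) _).trans ?_)
      exact if_congr (G_top π k) rfl rfl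
    rw [Finset.sum_congr rfl (fun π _ => Finset.sum_congr rfl (fun k _ => e1 π k))]
    rw [Finset.sum_eq_single (1 : Equiv.Perm (Fin (n + 3)))]
    · rw [Finset.sum_eq_single (Fin.last (n + 1))]
      · simp
      · intro b _ hb
        rw [if_neg (fun h => hb h.2)]
      · intro h
        exact absurd (Finset.mem_univ _) h
    · intro π _ hπ
      exact Finset.sum_eq_zero (fun k _ => if_neg (fun h => hπ h.1))
    · intro h
      exact absurd (Finset.mem_univ _) h
  have h2 : ∑ π : Equiv.Perm (Fin (n + 3)), ∑ k : Fin (n + 2),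
      cc (n + 2) ((lv0 (SSet.const t : NP (P0 (n + 1)) ⟶ Target (XD (n + 1 + 1)))).app _
        ((SH.Ess.prH (NP (P0 (n + 1)))).h k (chA π))) = 0 := by
    have e1 : ∀ (π : Equiv.Perm (Fin (n + 3))), ∑ k : Fin (n + 2),
        cc (n + 2) ((lv0 (SSet.const t : NP (P0 (n + 1)) ⟶ Target (XD (n + 1 + 1)))).app _
        ((SH.Ess.prH (NP (P0 (n + 1)))).h k (chA π))) =
        ∑ k : Fin (n + 2),
        cc (n + 2) ((lv0 (SSet.const t : NP (P0 (n + 1)) ⟶ Target (XD (n + 1 + 1)))).app _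
        ((SH.Ess.prH (NP (P0 (n + 1)))).h k (chA 1))) := by
      intro π
      refine Finset.sum_congr rfl (fun k _ => ?_)
      rw [prH_h, prH_h]
      rfl
    rw [Finset.sum_congr rfl (fun π _ => e1 π), Finset.sum_const, Finset.card_univ,
      Fintype.card_perm, Fintype.card_fin, nsmul_eq_mul]
    have h3 : ((Nat.factorial (n + 3) : ℕ) : ZMod 2) = 0 := by
      rw [ZMod.natCast_eq_zero_iff]
      exact Nat.dvd_factorial (by norm_num) (by omega)
    rw [h3, zero_mul]
  rw [h1, h2] at key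
  exact absurd key (by decide)

end Pool.Agent.SH.TT

end

end

section

/-!
Block III-S, GENA: all symmetric sums of `u_1^(2^i_1) ... u_d^(2^i_d)` can be reached from
`u_1 ... u_d` by the coefficients of the total square.
-/

set_option autoImplicit false

namespace Pool.Agent.SHS

namespace Gena

open Finset

variable {d : ℕ}

/-- The multiset of values. -/
def mu (b : Fin d → ℕ) : Multiset ℕ := Multiset.ofList (List.ofFn b)

theorem mu_eq (b : Fin d → ℕ) : mu b = (univ : Finset (Fin d)).val.map b := by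
  unfold mu
  rw [Fin.univ_val_map]

theorem mem_mu {b : Fin d → ℕ} {x : ℕ} : x ∈ mu b ↔ ∃ j, b j = x := by
  rw [mu_eq, Multiset.mem_map]
  simp

theorem card_mu (b : Fin d → ℕ) : Multiset.card (mu b) = d := by
  rw [mu_eq, Multiset.card_map]
  simp

theorem wgt_mu (b : Fin d → ℕ) : wgt (mu b) = ∑ j, 2 ^ (b j) := by
  unfold wgt
  rw [mu_eq, Multiset.map_map]
  rfl

theorem map_mu (b : Fin d → ℕ) (f : ℕ → ℕ) : (mu b).map f = mu (fun j => f (b j)) := by
  rw [mu_eq, mu_eq, Multiset.map_map]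
  rfl

theorem count_mu (b : Fin d → ℕ) (x : ℕ) :
    (mu b).count x = (univ.filter (fun j => b j = x)).card := by
  rw [mu_eq, Multiset.count_map]
  have : (univ.filter (fun j => b j = x)).card
      = Multiset.card ((univ : Finset (Fin d)).val.filter (fun j => b j = x)) := rfl
  rw [this]
  congr 1
  apply Multiset.filter_congr
  intro j _
  exact eq_comm

theorem mu_comp (b : Fin d → ℕ) (σ : Equiv.Perm (Fin d)) : mu (fun j => b (σ j)) = mu b :=
  Multiset.coe_eq_coe.mpr (σ.ofFn_comp_perm b)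

theorem exists_perm {f g : Fin d → ℕ} (h : mu f = mu g) :
    ∃ σ : Equiv.Perm (Fin d), g = fun j => f (σ j) := by
  have h1 : List.Perm (List.ofFn f) (List.ofFn g) := Multiset.coe_eq_coe.mp h
  have hf := Tuple.monotone_sort f
  have hg := Tuple.monotone_sort g
  have h2 : f ∘ Tuple.sort f = g ∘ Tuple.sort g := List.ofFn_injective <|
    (((Tuple.sort f).ofFn_comp_perm f).trans
      (h1.trans ((Tuple.sort g).ofFn_comp_perm g).symm)).eq_of_pairwise'
      hf.sortedLE_ofFn.pairwise hg.sortedLE_ofFn.pairwise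
  refine ⟨(Tuple.sort g).symm.trans (Tuple.sort f), ?_⟩
  funext x
  have h3 := congrFun h2 ((Tuple.sort g).symm x)
  simp only [Function.comp_apply, Equiv.apply_symm_apply] at h3
  exact h3.symm

/-- The exponent vector. -/
noncomputable def ex (b : Fin d → ℕ) : Fin d →₀ ℕ :=
  Finsupp.equivFunOnFinite.symm (fun j => 2 ^ (b j))

theorem ex_apply (b : Fin d → ℕ) (j : Fin d) : ex b j = 2 ^ (b j) := rfl

theorem ex_inj {b b' : Fin d → ℕ} (h : ex b = ex b') : b = b' := by
  funext j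
  have h1 := DFunLike.congr_fun h j
  rw [ex_apply, ex_apply] at h1
  exact Nat.pow_right_injective le_rfl h1

/-- The monomial. -/
noncomputable def mon (b : Fin d → ℕ) : MvPolynomial (Fin d) k :=
  ∏ j, MvPolynomial.X j ^ (2 ^ (b j))

theorem mon_eq (b : Fin d → ℕ) : mon b = MvPolynomial.monomial (ex b) 1 := by
  rw [MvPolynomial.monomial_eq, MvPolynomial.C_1, one_mul, Finsupp.prod_fintype]
  · rfl
  · intro j
    rw [pow_zero]

theorem coeff_mon (b : Fin d → ℕ) (e : Fin d →₀ ℕ) :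
    (mon b).coeff e = if ex b = e then 1 else 0 := by
  rw [mon_eq, MvPolynomial.coeff_monomial]

/-- The arrangements of `J`. -/
def arr (d : ℕ) (J : Multiset ℕ) : Finset (Fin d → ℕ) :=
  (Fintype.piFinset (fun _ : Fin d => J.toFinset)).filter
      (fun i => Multiset.ofList (List.ofFn i) = J)

theorem mem_arr {J : Multiset ℕ} {b : Fin d → ℕ} : b ∈ arr d J ↔ mu b = J := by
  unfold arr
  rw [mem_filter, Fintype.mem_piFinset]
  constructor
  · exact fun h => h.2
  · intro h
    refine ⟨fun j => ?_, h⟩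
    rw [Multiset.mem_toFinset, ← h]
    exact mem_mu.mpr ⟨j, rfl⟩

theorem msym_eq (J : Multiset ℕ) : msym d J = ∑ b ∈ arr d J, mon b := rfl

theorem coeff_msym (J : Multiset ℕ) (e : Fin d →₀ ℕ) :
    (msym d J).coeff e = ∑ b ∈ arr d J, if ex b = e then (1 : k) else 0 := by
  rw [msym_eq, MvPolynomial.coeff_sum]
  exact sum_congr rfl fun b _ => coeff_mon b e

theorem coeff_msym_ex (b : Fin d → ℕ) : (msym d (mu b)).coeff (ex b) = 1 := by
  rw [coeff_msym, sum_eq_single b]
  · rw [if_pos rfl]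
  · intro b' _ hne
    rw [if_neg (fun h => hne (ex_inj h))]
  · intro h
    exact absurd (mem_arr.mpr rfl) h

theorem of_coeff_msym {J : Multiset ℕ} {e : Fin d →₀ ℕ} (h : (msym d J).coeff e ≠ 0) :
    ∃ b : Fin d → ℕ, e = ex b ∧ mu b = J := by
  rw [coeff_msym] at h
  obtain ⟨b, hb, h1⟩ := exists_ne_zero_of_sum_ne_zero h
  refine ⟨b, ?_, mem_arr.mp hb⟩
  by_contra h2
  exact h1 (if_neg (fun h3 => h2 h3.symm))

/-! ### Symmetry -/

/-- Symmetric polynomials. -/
def Sym (P : MvPolynomial (Fin d) k) : Prop :=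
  ∀ s : Equiv.Perm (Fin d), MvPolynomial.rename s P = P

theorem rename_mon (s : Equiv.Perm (Fin d)) (b : Fin d → ℕ) :
    MvPolynomial.rename s (mon b) = mon (fun j => b (s.symm j)) := by
  unfold mon
  rw [map_prod]
  refine Fintype.prod_equiv s _ _ fun j => ?_
  rw [map_pow, MvPolynomial.rename_X]
  show _ = MvPolynomial.X (s j) ^ (2 ^ (b (s.symm (s j))))
  rw [Equiv.symm_apply_apply]

theorem sym_msym (J : Multiset ℕ) : Sym (msym d J) := by
  intro s
  rw [msym_eq, map_sum]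
  refine sum_nbij' (fun b j => b (s.symm j)) (fun b j => b (s j)) ?_ ?_ ?_ ?_ ?_
  · intro b hb
    rw [mem_arr] at hb ⊢
    rw [mu_comp b s.symm, hb]
  · intro b hb
    rw [mem_arr] at hb ⊢
    rw [mu_comp b s, hb]
  · intro b _
    funext j
    exact congrArg b (s.symm_apply_apply j)
  · intro b _
    funext j
    exact congrArg b (s.apply_symm_apply j)
  · intro b _
    exact rename_mon s b

theorem Sym.add {P Q : MvPolynomial (Fin d) k} (h : Sym P) (h' : Sym Q) : Sym (P + Q) := by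
  intro s
  rw [map_add, h s, h' s]

theorem St_rename (s : Equiv.Perm (Fin d)) (p : MvPolynomial (Fin d) k) (i : ℕ) :
    (St d (MvPolynomial.rename s p)).coeff i = MvPolynomial.rename s ((St d p).coeff i) := by
  have h : (St d).comp (MvPolynomial.rename s) =
      (Polynomial.mapAlgHom (MvPolynomial.rename s : MvPolynomial (Fin d) k →ₐ[k] _)).comp
        (St d) := by
    apply MvPolynomial.algHom_ext
    intro j
    rw [AlgHom.comp_apply, AlgHom.comp_apply, MvPolynomial.rename_X]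
    unfold St
    rw [MvPolynomial.aeval_X, MvPolynomial.aeval_X]
    simp [Polynomial.coe_mapAlgHom]
  have h1 := DFunLike.congr_fun h p
  rw [AlgHom.comp_apply, AlgHom.comp_apply] at h1
  rw [h1, Polynomial.coe_mapAlgHom, Polynomial.coeff_map]
  rfl

theorem Sym.st {P : MvPolynomial (Fin d) k} (h : Sym P) (i : ℕ) : Sym ((St d P).coeff i) := by
  intro s
  rw [← St_rename, h s]

theorem coeff_sym {P : MvPolynomial (Fin d) k} (h : Sym P) (b : Fin d → ℕ)
    (s : Equiv.Perm (Fin d)) : P.coeff (ex (fun j => b (s j))) = P.coeff (ex b) := by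
  have h1 : (ex (fun j => b (s j))).mapDomain s = ex b := by
    ext x
    rw [Finsupp.mapDomain_equiv_apply, ex_apply, ex_apply, Equiv.apply_symm_apply]
  have h2 := MvPolynomial.coeff_rename_mapDomain s s.injective P (ex (fun j => b (s j)))
  rw [h s, h1] at h2
  exact h2.symm

/-- A symmetric polynomial whose monomials are good can be reached. -/
theorem reach_of_sym {n : ℕ} (good : Multiset ℕ → Prop)
    (hg : ∀ J, good J → Reach d n (msym d J)) :
    ∀ (m : ℕ) (P : MvPolynomial (Fin d) k), P.support.card ≤ m → Sym P →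
      (∀ e, P.coeff e ≠ 0 → ∃ b : Fin d → ℕ, e = ex b ∧ good (mu b)) → Reach d n P := by
  intro m
  induction m with
  | zero =>
    intro P hP _ _
    rw [Nat.le_zero, card_eq_zero, MvPolynomial.support_eq_empty] at hP
    rw [hP]
    exact Reach.zero n
  | succ m ih =>
    intro P hP hs hsupp
    by_cases h0 : P = 0
    · rw [h0]
      exact Reach.zero n
    · obtain ⟨e0, he0⟩ := MvPolynomial.ne_zero_iff.mp h0
      obtain ⟨b0, rfl, hb0⟩ := hsupp e0 he0
      have hsub : ∀ e, (P + msym d (mu b0)).coeff e ≠ 0 → P.coeff e ≠ 0 := by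
        intro e he hc
        rw [MvPolynomial.coeff_add, hc, zero_add] at he
        obtain ⟨b, rfl, hb⟩ := of_coeff_msym he
        obtain ⟨s, rfl⟩ := exists_perm hb.symm
        rw [coeff_sym hs b0 s] at hc
        exact he0 hc
      have hc0 : (P + msym d (mu b0)).coeff (ex b0) = 0 := by
        rw [MvPolynomial.coeff_add, coeff_msym_ex]
        have h1 : ∀ x : k, x ≠ 0 → x + 1 = 0 := by decide
        exact h1 _ he0
      have hcard : (P + msym d (mu b0)).support.card ≤ m := by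
        have h1 : (P + msym d (mu b0)).support ⊂ P.support := by
          rw [ssubset_iff_of_subset]
          · refine ⟨ex b0, MvPolynomial.mem_support_iff.mpr he0, ?_⟩
            rw [MvPolynomial.mem_support_iff]
            exact fun h => h hc0
          · intro e he
            rw [MvPolynomial.mem_support_iff] at he ⊢
            exact hsub e he
        have h2 := card_lt_card h1
        omega
      have h3 := ih _ hcard (hs.add (sym_msym _)) (fun e he => hsupp e (hsub e he))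
      have h4 := Reach.add h3 (hg _ hb0)
      have h5 : P + msym d (mu b0) + msym d (mu b0) = P := by
        rw [add_assoc, CharTwo.add_self_eq_zero, add_zero]
      rw [h5] at h4
      exact h4

/-! ### The coefficients of the total square -/

/-- Add one on `A`. -/
def bump (b : Fin d → ℕ) (A : Finset (Fin d)) (j : Fin d) : ℕ := if j ∈ A then b j + 1 else b j

theorem St_mon (b : Fin d → ℕ) (i : ℕ) : (St d (mon b)).coeff i =
    ∑ A ∈ univ.filter (fun A : Finset (Fin d) => ∑ j ∈ A, 2 ^ (b j) = i), mon (bump b A) := by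
  have h1 : St d (mon b) = ∏ j, (Polynomial.C (MvPolynomial.X j ^ (2 ^ (b j + 1))) *
      Polynomial.X ^ (2 ^ (b j)) + Polynomial.C (MvPolynomial.X j ^ (2 ^ (b j)))) := by
    unfold mon
    rw [map_prod]
    refine prod_congr rfl fun j _ => ?_
    unfold St
    rw [map_pow, MvPolynomial.aeval_X, add_pow_char_pow, mul_pow, ← Polynomial.C_pow,
      ← Polynomial.C_pow, ← pow_mul, ← pow_succ', add_comm, mul_comm]
  have h2 : ∀ A : Finset (Fin d), (∏ j ∈ A, (Polynomial.C (MvPolynomial.X j ^ (2 ^ (b j + 1)) :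
      MvPolynomial (Fin d) k) * Polynomial.X ^ (2 ^ (b j)))) *
      ∏ j ∈ univ \ A, Polynomial.C (MvPolynomial.X j ^ (2 ^ (b j))) =
      Polynomial.monomial (∑ j ∈ A, 2 ^ (b j)) (mon (bump b A)) := by
    intro A
    rw [prod_mul_distrib, prod_pow_eq_pow_sum, ← map_prod, ← map_prod,
      ← Polynomial.C_mul_X_pow_eq_monomial]
    have h3 : mon (bump b A) = (∏ j ∈ A, MvPolynomial.X j ^ (2 ^ (b j + 1))) *
        ∏ j ∈ univ \ A, MvPolynomial.X j ^ (2 ^ (b j)) := by
      unfold mon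
      rw [← prod_sdiff (subset_univ A), mul_comm]
      congr 1
      · refine prod_congr rfl fun j hj => ?_
        rw [bump, if_pos hj]
      · refine prod_congr rfl fun j hj => ?_
        rw [bump, if_neg (mem_sdiff.mp hj).2]
    rw [h3, Polynomial.C_mul]
    ring
  rw [h1, prod_add, Polynomial.finsetSum_coeff, sum_congr rfl (fun A _ => by rw [h2 A]),
    powerset_univ, sum_filter]
  refine sum_congr rfl fun A _ => ?_
  rw [Polynomial.coeff_monomial]

theorem coeff_Q (K : Multiset ℕ) (i : ℕ) (e : Fin d →₀ ℕ) :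
    ((St d (msym d K)).coeff i).coeff e = ∑ b ∈ arr d K,
      ∑ A ∈ univ.filter (fun A : Finset (Fin d) => ∑ j ∈ A, 2 ^ (b j) = i),
        if ex (bump b A) = e then (1 : k) else 0 := by
  rw [msym_eq, map_sum, Polynomial.finsetSum_coeff, MvPolynomial.coeff_sum]
  refine sum_congr rfl fun b _ => ?_
  rw [St_mon, MvPolynomial.coeff_sum]
  exact sum_congr rfl fun A _ => coeff_mon _ _

/-! ### The main step -/

section Step

variable {l c : ℕ}

theorem sum_ge {b : Fin d → ℕ} {A A0 : Finset (Fin d)} (hA : A0 ⊆ A) (hb : ∀ j ∈ A0, b j = l)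
    (hc : A0.card = c + 1) (hs : ∑ j ∈ A, 2 ^ (b j) = 2 ^ l * (c + 1)) : A = A0 := by
  have h1 : ∑ j ∈ A0, 2 ^ (b j) = 2 ^ l * (c + 1) := by
    rw [sum_congr rfl (fun j hj => by rw [hb j hj]), sum_const, hc, smul_eq_mul, mul_comm]
  have h2 := sum_sdiff (f := fun j => 2 ^ (b j)) hA
  have h3 : ∑ j ∈ A \ A0, 2 ^ (b j) = 0 := by omega
  rw [sum_eq_zero_iff] at h3
  refine Subset.antisymm (fun j hj => ?_) hA
  by_contra hj'
  have h4 := h3 j (mem_sdiff.mpr ⟨hj, hj'⟩)
  exact absurd h4 (pow_ne_zero _ two_ne_zero)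

/-- `J` is determined by its truncation and the number of its largest elements. -/
theorem eq_of_trunc {J J' : Multiset ℕ} (hJ : ∀ x ∈ J, x ≤ l + 1) (hJ' : ∀ x ∈ J', x ≤ l + 1)
    (h1 : J.map (fun x => min l x) = J'.map (fun x => min l x))
    (h2 : J.count (l + 1) = J'.count (l + 1)) : J = J' := by
  have key : ∀ I : Multiset ℕ, (∀ x ∈ I, x ≤ l + 1) → ∃ F : Multiset ℕ,
      I = F + Multiset.replicate (I.count (l + 1)) (l + 1) ∧
      I.map (fun x => min l x) = F + Multiset.replicate (I.count (l + 1)) l := by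
    intro I hI
    refine ⟨I.filter (fun x => ¬ x = l + 1), ?_, ?_⟩
    · have h3 := Multiset.filter_add_not (fun x => x = l + 1) I
      rw [Multiset.filter_eq'] at h3
      conv_lhs => rw [← h3]
      rw [add_comm]
    · have h3 := Multiset.filter_add_not (fun x => x = l + 1) I
      rw [Multiset.filter_eq'] at h3
      conv_lhs => rw [← h3]
      rw [Multiset.map_add, Multiset.map_replicate, add_comm]
      congr 1
      · have h4 : (I.filter (fun x => ¬ x = l + 1)).map (fun x => min l x) =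
            (I.filter (fun x => ¬ x = l + 1)).map id := by
          apply Multiset.map_congr rfl
          intro x hx
          rw [Multiset.mem_filter] at hx
          have h5 := hI x hx.1
          show min l x = x
          omega
        rw [h4, Multiset.map_id]
      · rw [min_eq_left (Nat.le_succ l)]
  obtain ⟨F, e1, e2⟩ := key J hJ
  obtain ⟨F', e1', e2'⟩ := key J' hJ'
  rw [h1, e2', h2] at e2
  have h3 : F' = F := add_right_cancel e2
  rw [e1, e1', h2, h3]

theorem main_step (J : Multiset ℕ) (hd : Multiset.card J = d) (hJ : ∀ x ∈ J, x ≤ l + 1)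
    (hc : J.count (l + 1) = c + 1)
    (ih1 : ∀ K : Multiset ℕ, Multiset.card K = d → (∀ x ∈ K, x ≤ l) →
      Reach d (wgt K) (msym d K))
    (ih2 : ∀ K : Multiset ℕ, Multiset.card K = d → (∀ x ∈ K, x ≤ l + 1) →
      K.count (l + 1) ≤ c → Reach d (wgt K) (msym d K)) :
    Reach d (wgt J) (msym d J) := by
  -- an arrangement of `J`
  obtain ⟨bJ, hbJ⟩ : ∃ bJ : Fin d → ℕ, mu bJ = J := by
    subst hd
    obtain ⟨L, rfl⟩ : ∃ L : List ℕ, J = (L : Multiset ℕ) := ⟨J.toList, J.coe_toList.symm⟩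
    exact ⟨fun j => L.get (j.cast (Multiset.coe_card L)), by
      unfold mu
      congr 1
      exact List.ofFn_get L⟩
  set K : Multiset ℕ := J.map (fun x => min l x) with hK
  have hKcard : Multiset.card K = d := by rw [hK, Multiset.card_map, hd]
  have hKle : ∀ x ∈ K, x ≤ l := by
    intro x hx
    rw [hK, Multiset.mem_map] at hx
    obtain ⟨y, -, rfl⟩ := hx
    exact min_le_left _ _
  -- arrangements of `J`
  have hA0 : ∀ b' : Fin d → ℕ, mu b' = J → (univ.filter (fun j => b' j = l + 1)).card = c + 1 := by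
    intro b' hb'
    rw [← count_mu, hb', hc]
  have hle : ∀ b' : Fin d → ℕ, mu b' = J → ∀ j, b' j ≤ l + 1 := by
    intro b' hb' j
    apply hJ
    rw [← hb']
    exact mem_mu.mpr ⟨j, rfl⟩
  have hKarr : ∀ b ∈ arr d K, ∀ j, b j ≤ l := by
    intro b hb j
    apply hKle
    rw [← mem_arr.mp hb]
    exact mem_mu.mpr ⟨j, rfl⟩
  have hb0K : ∀ b' : Fin d → ℕ, mu b' = J → (fun j => min l (b' j)) ∈ arr d K := by
    intro b' hb'
    rw [mem_arr, ← map_mu b' (fun x => min l x), hb']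
  have hbump : ∀ b' : Fin d → ℕ, mu b' = J →
      bump (fun j => min l (b' j)) (univ.filter (fun j => b' j = l + 1)) = b' := by
    intro b' hb'
    funext j
    have := hle b' hb' j
    unfold bump
    by_cases hj : b' j = l + 1
    · have h1 : j ∈ univ.filter (fun j => b' j = l + 1) := by simpa using hj
      rw [if_pos h1]
      show min l (b' j) + 1 = b' j
      omega
    · have h1 : j ∉ univ.filter (fun j => b' j = l + 1) := by simpa using hj
      rw [if_neg h1]
      show min l (b' j) = b' j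
      omega
  have hsum : ∀ b' : Fin d → ℕ, mu b' = J →
      ∑ j ∈ univ.filter (fun j => b' j = l + 1), 2 ^ (min l (b' j)) = 2 ^ l * (c + 1) := by
    intro b' hb'
    rw [sum_congr rfl (g := fun _ => 2 ^ l) (fun j hj => by
      rw [(mem_filter.mp hj).2, min_eq_left (Nat.le_succ l)]), sum_const, hA0 b' hb',
      smul_eq_mul, mul_comm]
  -- weights
  have hbw : ∀ (b : Fin d → ℕ) (A : Finset (Fin d)), ∑ j, 2 ^ (bump b A j) =
      ∑ j, 2 ^ (b j) + ∑ j ∈ A, 2 ^ (b j) := by
    intro b A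
    have h1 : ∑ j ∈ A, 2 ^ (b j) = ∑ j, if j ∈ A then 2 ^ (b j) else 0 := by
      rw [sum_ite_mem, univ_inter]
    rw [h1, ← sum_add_distrib]
    refine sum_congr rfl fun j _ => ?_
    unfold bump
    by_cases hj : j ∈ A
    · rw [if_pos hj, if_pos hj, pow_succ, mul_two]
    · rw [if_neg hj, if_neg hj, add_zero]
  have hwK : wgt J = wgt K + 2 ^ l * (c + 1) := by
    rw [← mem_arr.mp (hb0K bJ hbJ), ← hbJ, wgt_mu, wgt_mu, ← hsum bJ hbJ,
      ← hbw (fun j => min l (bJ j)), hbump bJ hbJ]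
  have hi : 2 ^ l * (c + 1) ≤ wgt K := by
    rw [← mem_arr.mp (hb0K bJ hbJ), wgt_mu, ← hsum bJ hbJ]
    exact sum_le_sum_of_subset (subset_univ _)
  -- the coefficient at the arrangements of `J`
  have C1 : ∀ b' : Fin d → ℕ, mu b' = J →
      ((St d (msym d K)).coeff (2 ^ l * (c + 1))).coeff (ex b') = 1 := by
    intro b' hb'
    have huniq : ∀ b ∈ arr d K, ∀ A : Finset (Fin d), ∑ j ∈ A, 2 ^ (b j) = 2 ^ l * (c + 1) →
        bump b A = b' → A = univ.filter (fun j => b' j = l + 1) ∧ b = fun j => min l (b' j) := by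
      intro b hb A hA hbA
      have hbl := hKarr b hb
      have h1 : ∀ j, b' j = l + 1 → j ∈ A ∧ b j = l := by
        intro j hj
        have h2 := congrFun hbA j
        rw [hj] at h2
        have h3 := hbl j
        unfold bump at h2
        by_cases hjA : j ∈ A
        · rw [if_pos hjA] at h2
          exact ⟨hjA, by omega⟩
        · rw [if_neg hjA] at h2
          omega
      have h4 : A = univ.filter (fun j => b' j = l + 1) :=
        sum_ge (l := l) (c := c) (b := b) (fun j hj => (h1 j (mem_filter.mp hj).2).1)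
          (fun j hj => (h1 j (mem_filter.mp hj).2).2) (hA0 b' hb') hA
      refine ⟨h4, ?_⟩
      funext j
      by_cases hj : b' j = l + 1
      · rw [(h1 j hj).2, hj]
        omega
      · have h2 := congrFun hbA j
        unfold bump at h2
        rw [if_neg (fun h => hj (by rw [h4] at h; exact (mem_filter.mp h).2))] at h2
        have := hbl j
        rw [← h2]
        omega
    rw [coeff_Q, sum_eq_single (fun j => min l (b' j))]
    · rw [sum_eq_single (univ.filter (fun j => b' j = l + 1))]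
      · rw [if_pos]
        rw [hbump b' hb']
      · intro A hA hne
        rw [if_neg]
        intro h
        exact hne (huniq _ (hb0K b' hb') A (mem_filter.mp hA).2 (ex_inj h)).1
      · intro h
        exfalso
        apply h
        rw [mem_filter]
        exact ⟨mem_univ _, hsum b' hb'⟩
    · intro b hb hne
      refine sum_eq_zero fun A hA => ?_
      rw [if_neg]
      intro h
      exact hne (huniq b hb A (mem_filter.mp hA).2 (ex_inj h)).2
    · intro h
      exact absurd (hb0K b' hb') h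
  -- the other coefficients
  have C2 : ∀ e, ((St d (msym d K)).coeff (2 ^ l * (c + 1))).coeff e ≠ 0 →
      ∃ b' : Fin d → ℕ, e = ex b' ∧ (∀ j, b' j ≤ l + 1) ∧ wgt (mu b') = wgt J ∧
        ((mu b').count (l + 1) ≤ c ∨ mu b' = J) := by
    intro e he
    rw [coeff_Q] at he
    obtain ⟨b, hb, h1⟩ := exists_ne_zero_of_sum_ne_zero he
    obtain ⟨A, hA, h2⟩ := exists_ne_zero_of_sum_ne_zero h1
    have hA' := (mem_filter.mp hA).2
    have h3 : ex (bump b A) = e := by
      by_contra h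
      exact h2 (if_neg h)
    have hbl := hKarr b hb
    have hbl' : ∀ j, bump b A j ≤ l + 1 := by
      intro j
      have := hbl j
      unfold bump
      split_ifs <;> omega
    refine ⟨bump b A, h3.symm, hbl', ?_, ?_⟩
    · rw [wgt_mu, hbw, hA', ← wgt_mu, mem_arr.mp hb, hwK]
    · have h4 : univ.filter (fun j => bump b A j = l + 1) ⊆ A := by
        intro j hj
        have h5 := (mem_filter.mp hj).2
        by_contra hjA
        unfold bump at h5
        rw [if_neg hjA] at h5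
        have := hbl j
        omega
      have h6 : ∀ j ∈ univ.filter (fun j => bump b A j = l + 1), b j = l := by
        intro j hj
        have h5 := (mem_filter.mp hj).2
        unfold bump at h5
        rw [if_pos (h4 hj)] at h5
        omega
      have h7 : 2 ^ l * (univ.filter (fun j => bump b A j = l + 1)).card ≤ 2 ^ l * (c + 1) := by
        rw [← hA']
        calc 2 ^ l * (univ.filter (fun j => bump b A j = l + 1)).card
            = ∑ j ∈ univ.filter (fun j => bump b A j = l + 1), 2 ^ (b j) := by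
              rw [sum_congr rfl (fun j hj => by rw [h6 j hj]), sum_const, smul_eq_mul, mul_comm]
          _ ≤ ∑ j ∈ A, 2 ^ (b j) := sum_le_sum_of_subset h4
      have h8 := Nat.le_of_mul_le_mul_left h7 (by positivity)
      rw [count_mu]
      by_cases h9 : (univ.filter (fun j => bump b A j = l + 1)).card ≤ c
      · exact Or.inl h9
      · right
        have h10 : (univ.filter (fun j => bump b A j = l + 1)).card = c + 1 := by omega
        have h11 : A = univ.filter (fun j => bump b A j = l + 1) := sum_ge h4 h6 h10 hA'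
        apply eq_of_trunc (l := l)
        · intro x hx
          obtain ⟨j, rfl⟩ := mem_mu.mp hx
          exact hbl' j
        · exact hJ
        · rw [map_mu]
          have h12 : (fun j => min l (bump b A j)) = b := by
            funext j
            have := hbl j
            by_cases hj : j ∈ A
            · have h13 := hj
              rw [h11] at h13
              rw [(mem_filter.mp h13).2, h6 j h13]
              omega
            · unfold bump
              rw [if_neg hj]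
              omega
          rw [h12, mem_arr.mp hb]
        · rw [count_mu, h10, hc]
  -- conclusion
  have hQ : Reach d (wgt J) ((St d (msym d K)).coeff (2 ^ l * (c + 1))) := by
    rw [hwK]
    exact Reach.step _ hi (ih1 K hKcard hKle)
  have hP : Reach d (wgt J) ((St d (msym d K)).coeff (2 ^ l * (c + 1)) + msym d J) := by
    refine reach_of_sym (fun J' => Multiset.card J' = d ∧ (∀ x ∈ J', x ≤ l + 1) ∧
      wgt J' = wgt J ∧ J'.count (l + 1) ≤ c) ?_ _ _ le_rfl (((sym_msym K).st _).add (sym_msym J)) ?_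
    · rintro J' ⟨h1, h2, h3, h4⟩
      rw [← h3]
      exact ih2 J' h1 h2 h4
    · intro e he
      rw [MvPolynomial.coeff_add] at he
      by_cases h0 : ((St d (msym d K)).coeff (2 ^ l * (c + 1))).coeff e = 0
      · rw [h0, zero_add] at he
        obtain ⟨b', rfl, hb'⟩ := of_coeff_msym he
        rw [C1 b' hb'] at h0
        exact absurd h0 one_ne_zero
      · obtain ⟨b', rfl, h1, h2, h3⟩ := C2 e h0
        rcases h3 with h3 | h3
        · refine ⟨b', rfl, card_mu b', ?_, h2, h3⟩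
          intro x hx
          obtain ⟨j, rfl⟩ := mem_mu.mp hx
          exact h1 j
        · exfalso
          apply he
          rw [C1 b' h3, ← h3, coeff_msym_ex]
          decide
  have h4 := Reach.add hQ hP
  rw [← add_assoc, CharTwo.add_self_eq_zero, zero_add] at h4
  exact h4

end Step

theorem main (d : ℕ) : ∀ (L : ℕ) (J : Multiset ℕ), Multiset.card J = d → (∀ x ∈ J, x ≤ L) →
    Reach d (wgt J) (msym d J) := by
  intro L
  induction L with
  | zero =>
    intro J hd hJ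
    have h1 : J = Multiset.replicate d 0 :=
      Multiset.eq_replicate.mpr ⟨hd, fun x hx => Nat.le_zero.mp (hJ x hx)⟩
    have h2 : mu (fun _ : Fin d => 0) = J := by
      rw [h1, mu_eq, Multiset.map_const']
      simp
    have h3 : wgt J = d := by
      rw [← h2, wgt_mu]
      simp
    have h4 : msym d J = ∏ j, MvPolynomial.X j := by
      rw [msym_eq]
      have h5 : arr d J = {fun _ => 0} := by
        ext b
        rw [mem_arr, mem_singleton]
        constructor
        · intro hb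
          funext j
          have : b j ∈ J := by
            rw [← hb]
            exact mem_mu.mpr ⟨j, rfl⟩
          exact Nat.le_zero.mp (hJ _ this)
        · rintro rfl
          exact h2
      rw [h5, sum_singleton]
      unfold mon
      refine prod_congr rfl fun j _ => ?_
      rw [pow_zero, pow_one]
    rw [h3, h4]
    exact Reach.base
  | succ l ih =>
    have key : ∀ (c : ℕ) (J : Multiset ℕ), Multiset.card J = d → (∀ x ∈ J, x ≤ l + 1) →
        J.count (l + 1) ≤ c → Reach d (wgt J) (msym d J) := by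
      intro c
      induction c with
      | zero =>
        intro J hd hJ hc
        refine ih J hd fun x hx => ?_
        have h1 := hJ x hx
        by_contra h2
        have h3 : x = l + 1 := by omega
        rw [h3] at hx
        have h4 := Multiset.count_pos.mpr hx
        omega
      | succ c ih2 =>
        intro J hd hJ hc
        by_cases h : J.count (l + 1) ≤ c
        · exact ih2 J hd hJ h
        · exact main_step J hd hJ (by omega) ih ih2
    intro J hd hJ
    exact key _ J hd hJ le_rfl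

end Gena

theorem GENA : GENA_Stmt := by
  intro J
  exact Gena.main (Multiset.card J) (J.sup) J rfl (fun x hx => Multiset.le_sup hx)

end Pool.Agent.SHS


end

section

/-!
Block III-S: all symmetric sums are values of natural additive operations.
-/

namespace Pool.Agent.SHS

namespace Ops

open MvPolynomial

variable {d : ℕ}

/-- The coefficient of `t ^ i` is homogeneous of degree `n + i`. -/
def Q (n : ℕ) (f : Polynomial (MvPolynomial (Fin d) k)) : Prop :=
  ∀ i, (f.coeff i).IsHomogeneous (n + i)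

theorem Q.mul {n m : ℕ} {f g : Polynomial (MvPolynomial (Fin d) k)} (hf : Q n f) (hg : Q m g) :
    Q (n + m) (f * g) := by
  intro i
  rw [Polynomial.coeff_mul]
  apply IsHomogeneous.sum
  intro x hx
  have h1 := (hf x.1).mul (hg x.2)
  have h2 : n + x.1 + (m + x.2) = n + m + i := by
    have h3 := Finset.HasAntidiagonal.mem_antidiagonal.1 hx
    omega
  rwa [h2] at h1

theorem Q.one : Q 0 (1 : Polynomial (MvPolynomial (Fin d) k)) := by
  intro i
  rw [Polynomial.coeff_one]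
  split_ifs with h
  · subst h
    exact isHomogeneous_one _ _
  · exact isHomogeneous_zero _ _ _

theorem Q.C (c : k) : Q 0 (Polynomial.C (MvPolynomial.C c : MvPolynomial (Fin d) k)) := by
  intro i
  rw [Polynomial.coeff_C]
  split_ifs with h
  · subst h
    exact isHomogeneous_C _ _
  · exact isHomogeneous_zero _ _ _

theorem Q.pow {n : ℕ} {f : Polynomial (MvPolynomial (Fin d) k)} (hf : Q n f) (m : ℕ) :
    Q (m * n) (f ^ m) := by
  induction m with
  | zero =>
    rw [pow_zero, zero_mul]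
    exact Q.one
  | succ m ih =>
    rw [pow_succ, add_mul, one_mul]
    exact ih.mul hf

theorem Q.prod {ι : Type} (s : Finset ι) (n : ι → ℕ)
    (f : ι → Polynomial (MvPolynomial (Fin d) k)) (hf : ∀ i ∈ s, Q (n i) (f i)) :
    Q (∑ i ∈ s, n i) (∏ i ∈ s, f i) := by
  classical
  induction s using Finset.induction_on with
  | empty =>
    rw [Finset.sum_empty, Finset.prod_empty]
    exact Q.one
  | insert a s ha ih =>
    rw [Finset.sum_insert ha, Finset.prod_insert ha]
    exact (hf a (Finset.mem_insert_self _ _)).mul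
      (ih fun i hi => hf i (Finset.mem_insert_of_mem hi))

theorem Q.sum {ι : Type} (s : Finset ι) (n : ℕ)
    (f : ι → Polynomial (MvPolynomial (Fin d) k)) (hf : ∀ i ∈ s, Q n (f i)) :
    Q n (∑ i ∈ s, f i) := by
  intro i
  rw [Polynomial.finsetSum_coeff]
  exact IsHomogeneous.sum _ _ _ fun j hj => hf j hj i

theorem Q.X (j : Fin d) : Q 1 (Polynomial.C (MvPolynomial.X j : MvPolynomial (Fin d) k)
    + Polynomial.X * Polynomial.C (MvPolynomial.X j ^ 2)) := by
  intro i
  rw [Polynomial.coeff_add, Polynomial.coeff_C, mul_comm, Polynomial.coeff_C_mul_X]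
  by_cases h0 : i = 0
  · subst h0
    rw [if_pos rfl, if_neg zero_ne_one, add_zero]
    exact isHomogeneous_X _ _
  · rw [if_neg h0, zero_add]
    split_ifs with h1
    · subst h1
      exact (isHomogeneous_X k j).pow 2
    · exact isHomogeneous_zero _ _ _

theorem St_hom {n : ℕ} {p : MvPolynomial (Fin d) k} (hp : p.IsHomogeneous n) : Q n (St d p) := by
  rw [p.as_sum, map_sum]
  apply Q.sum
  intro e he
  have he' : e.degree = n := by
    have := hp (MvPolynomial.mem_support_iff.mp he)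
    rw [Finsupp.degree_eq_weight_one]
    exact this
  rw [MvPolynomial.monomial_eq, map_mul]
  have h1 : Q 0 (St d (MvPolynomial.C (p.coeff e))) := by
    unfold St
    rw [MvPolynomial.aeval_C]
    exact Q.C _
  have h2 : Q (∑ i ∈ e.support, e i * 1) (St d (e.prod fun n e => MvPolynomial.X n ^ e)) := by
    rw [Finsupp.prod, map_prod]
    apply Q.prod
    intro i _
    rw [map_pow]
    unfold St
    rw [MvPolynomial.aeval_X]
    exact (Q.X i).pow _
  have h3 : ∑ i ∈ e.support, e i * 1 = n := by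
    rw [← he', Finsupp.degree_apply]
    exact Finset.sum_congr rfl fun i _ => mul_one _
  rw [h3] at h2
  have h4 := h1.mul h2
  rwa [zero_add] at h4

theorem reach (h1 : SQP_Stmt) (h3 : POPD_Stmt) {n : ℕ} {p : MvPolynomial (Fin d) k}
    (h : Reach d n p) : p.IsHomogeneous n ∧ ∃ T : NOp, T.Maps d n ∧
      T.f (BB.pow d) (evB d (∏ j, MvPolynomial.X j)) = evB d p := by
  induction h with
  | base =>
    refine ⟨?_, NOp.id, fun X a ha => ha, rfl⟩
    have h4 := IsHomogeneous.prod (R := k) Finset.univ (fun j : Fin d => MvPolynomial.X j)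
      (fun _ => 1) (fun j _ => isHomogeneous_X _ _)
    simpa using h4
  | @step n p i hi _ ih =>
    obtain ⟨hp, T, hT, hTv⟩ := ih
    refine ⟨St_hom hp i, NOp.comp (Pop (n + 1 - i)) T, ?_, ?_⟩
    · intro X a ha
      exact (h3 X (n + 1 - i) n (T.f X a) (hT X a ha)).1 (n + i) (by omega)
    · show (Pop (n + 1 - i)).f (BB.pow d) (T.f (BB.pow d) _) = _
      rw [hTv]
      exact h1 d n i p hp hi
  | @add n p q _ _ ihp ihq =>
    obtain ⟨hp, T, hT, hTv⟩ := ihp
    obtain ⟨hq, T', hT', hTv'⟩ := ihq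
    refine ⟨hp.add hq, NOp.add T T', fun X a ha => ?_, ?_⟩
    · exact Submodule.add_mem _ (hT X a ha) (hT' X a ha)
    · show T.f (BB.pow d) _ + T'.f (BB.pow d) _ = _
      rw [hTv, hTv', map_add]
  | zero n =>
    refine ⟨isHomogeneous_zero _ _ _, NOp.zero, fun X a _ => Submodule.zero_mem _, ?_⟩
    rw [map_zero]
    rfl

end Ops

/-- All symmetric sums are values of natural additive operations. -/
theorem OPS (h1 : SQP_Stmt) (h2 : GENA_Stmt) (h3 : POPD_Stmt) : OPS_Stmt := by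
  intro J
  exact (Ops.reach h1 h3 (h2 J)).2

end Pool.Agent.SHS


end

section

/-!
# Block III-Q (MP_2d0b73_an): the theorem of Dold (module SHQ_DOL)
-/

open CategoryTheory CategoryTheory.Limits AlgebraicTopology Opposite Simplicial

namespace Pool.Agent.SHQ

namespace DOL

theorem htpy_of_ctr {C : Type 1} [Category.{0} C] [Preadditive C] {K E E' : SimplicialObject C}
    (h : Ctr K) (r : E ⟶ K) (i : K ⟶ E') :
    Nonempty (SimplicialObject.Homotopy (0 : E ⟶ E') (r ≫ i)) := by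
  obtain ⟨H⟩ := h
  have h1 := (H.precomp r).postcomp i
  have e1 : (r ≫ (0 : K ⟶ K)) ≫ i = 0 := by rw [comp_zero, zero_comp]
  have e2 : (r ≫ 𝟙 K) ≫ i = r ≫ i := by rw [Category.comp_id]
  rw [e1, e2] at h1
  exact ⟨h1⟩

theorem htpy_add (hHAD : HAD_Stmt) {C : Type 1} [Category.{0} C] [Preadditive C]
    {K E E' : SimplicialObject C} (h : Ctr K) (a : E ⟶ E') (r : E ⟶ K) (i : K ⟶ E')
    (b : E ⟶ E') (hb : a + r ≫ i = b) : Nonempty (SimplicialObject.Homotopy a b) := by
  have h1 := hHAD C E E' a a 0 (r ≫ i) ⟨SimplicialObject.Homotopy.refl a⟩ (htpy_of_ctr h r i)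
  rw [add_zero, hb] at h1
  exact h1

end DOL

open DOL in
theorem dol (k : Type) [Field k] : HAD_Stmt → SHEC_Stmt → SHEQ_Stmt → CTRA_Stmt → DKP_Stmt k →
    DEC_Stmt k → EPI_Stmt k → KER_Stmt k → CTR_Stmt k → DOL_Stmt k := by
  intro hHAD hSHEC hSHEQ _ hDKP hDEC hEPI hKER hCTR X Y f hf
  obtain ⟨P, p, hP, hp⟩ := hDEC Y
  have hepi : Epi (biprod.desc f p) := hEPI X Y P f p hf hp
  set q : X ⊞ P ⟶ Y := biprod.desc f p with hq
  have hiq : (biprod.inl : X ⟶ X ⊞ P) ≫ q = f := biprod.inl_desc f p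
  have hH1 : Nonempty (SimplicialObject.Homotopy
      ((biprod.fst : X ⊞ P ⟶ X) ≫ (biprod.inl : X ⟶ X ⊞ P)) (𝟙 (X ⊞ P))) :=
    htpy_add hHAD hP _ biprod.snd biprod.inr _ biprod.total
  have hi : SHE (biprod.inl : X ⟶ X ⊞ P) := by
    refine ⟨biprod.fst, ?_, hH1⟩
    rw [biprod.inl_fst]
    exact ⟨SimplicialObject.Homotopy.refl _⟩
  have hQi : QI (biprod.inl : X ⟶ X ⊞ P) := hSHEQ _ _ _ _ hi
  have hQq : QI q := by
    have h1 : QuasiIso ((alternatingFaceMapComplex (ModuleCat.{0} k)).map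
        (biprod.inl : X ⟶ X ⊞ P)) := hQi
    have h2 : QuasiIso ((alternatingFaceMapComplex (ModuleCat.{0} k)).map
        (biprod.inl : X ⟶ X ⊞ P) ≫ (alternatingFaceMapComplex (ModuleCat.{0} k)).map q) := by
      rw [← Functor.map_comp, hiq]
      exact hf
    exact quasiIso_of_comp_left ((alternatingFaceMapComplex (ModuleCat.{0} k)).map
        (biprod.inl : X ⟶ X ⊞ P)) _
  have hK : Acyc (kernel q) := hKER _ _ q hepi hQq
  have hKinj : Injective (kernel q) := (hDKP _ hK).2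
  have hKc : Ctr (kernel q) := hCTR _ hK
  let ρ : X ⊞ P ⟶ kernel q := Injective.factorThru (𝟙 (kernel q)) (kernel.ι q)
  have hρ : kernel.ι q ≫ ρ = 𝟙 (kernel q) := Injective.comp_factorThru _ _
  have h0 : kernel.ι q ≫ (𝟙 (X ⊞ P) - ρ ≫ kernel.ι q) = 0 := by
    rw [Preadditive.comp_sub, Category.comp_id, ← Category.assoc, hρ, Category.id_comp, sub_self]
  let s : Y ⟶ X ⊞ P := Abelian.epiDesc q _ h0
  have hqs : q ≫ s = 𝟙 (X ⊞ P) - ρ ≫ kernel.ι q := Abelian.comp_epiDesc q _ h0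
  have hsq : s ≫ q = 𝟙 Y := by
    rw [← cancel_epi q, ← Category.assoc, hqs, Preadditive.sub_comp, Category.assoc,
      kernel.condition, comp_zero, sub_zero, Category.id_comp, Category.comp_id]
  have hH2 : Nonempty (SimplicialObject.Homotopy (q ≫ s) (𝟙 (X ⊞ P))) := by
    refine htpy_add hHAD hKc _ ρ (kernel.ι q) _ ?_
    rw [hqs, sub_add_cancel]
  have h := hSHEC _ X (X ⊞ P) Y biprod.inl biprod.fst q s biprod.inl_fst hsq hH1 hH2
  rwa [hiq] at h

end Pool.Agent.SHQ


end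

section

/-!
# MP_2d0b73_an, LINK: the cosimplicial space `XD m` in the language of block III-S

`XS m s : SHS.SV` has the levels of `(XD m).V s`; `XS.op θ` are all cosimplicial operators.
-/

open CategoryTheory Opposite

noncomputable section

namespace Pool.Agent.SHL

open Pool.Agent.SH.TT (Dop bx Sph RM it Fm reso XV XD AugK LinP UP brk lext augMap tm et mu iob scc prd emp)
open Pool.Agent.SHS (Mor)

/-- A morphism of the simplex category from a monotone map. -/
def toS {a b : ℕ} (f : Mor a b) : SimplexCategory.mk a ⟶ SimplexCategory.mk b :=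
  SimplexCategory.Hom.mk f

/-- A monotone map as a morphism of the opposite simplex category. -/
def toD {a b : ℕ} (f : Mor a b) : bx b ⟶ bx a := (toS f).op

/-- A morphism of the opposite simplex category as a monotone map. -/
def ofD {a b : ℕ} (f : bx b ⟶ bx a) : Mor a b := f.unop.toOrderHom

theorem ofD_toD {a b : ℕ} (f : Mor a b) : ofD (toD f) = f := rfl

theorem toD_ofD {a b : ℕ} (f : bx b ⟶ bx a) : toD (ofD f) = f := by
  apply Quiver.Hom.unop_inj
  apply SimplexCategory.Hom.ext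
  rfl

theorem toD_id (a : ℕ) : toD (OrderHom.id : Mor a a) = 𝟙 (bx a) := by
  apply Quiver.Hom.unop_inj
  apply SimplexCategory.Hom.ext
  rfl

theorem toD_comp {a b c : ℕ} (f : Mor a b) (g : Mor b c) : toD (g.comp f) = toD g ≫ toD f := by
  apply Quiver.Hom.unop_inj
  apply SimplexCategory.Hom.ext
  rfl

theorem ofD_comp {a b c : ℕ} (f : bx b ⟶ bx a) (g : bx c ⟶ bx b) :
    ofD (g ≫ f) = (ofD g).comp (ofD f) := rfl

/-- A simplicial vector space in the language of block III-S. -/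
def svS (V : SH.TT.SV) : SHS.SV where
  X n := V.obj (bx n)
  map f := (V.map (toD f)).hom
  map_id x := by
    rw [toD_id]
    exact congrFun (congrArg (fun g => (ModuleCat.Hom.hom g : _ → _)) (V.map_id _)) x
  map_comp f g x := by
    rw [toD_comp]
    exact congrFun (congrArg (fun g => (ModuleCat.Hom.hom g : _ → _)) (V.map_comp _ _)) x

/-- The levels. -/
abbrev XS (m s : ℕ) : SHS.SV := svS (XV m s)

/-- The cosimplicial operators. -/
def XS.op (m : ℕ) {a b : ℕ} (f : Mor a b) : SHS.SS.Hom (XS m a).toSS (XS m b).toSS where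
  f n x := (((reso RM).map (toS f)).app ((SH.TT.Sph m).obj (bx n))).toFun x
  nat g x := by
    have h := ((reso RM).map (toS f)).naturality ((SH.TT.Sph m).map (toD g))
    exact congrFun (congrArg Pointed.Hom.toFun h) x

theorem toS_id (a : ℕ) : toS (OrderHom.id : Mor a a) = 𝟙 (SimplexCategory.mk a) := rfl

theorem toS_comp {a b c : ℕ} (f : Mor a b) (g : Mor b c) : toS (g.comp f) = toS f ≫ toS g := rfl

theorem XS.op_id (m a n : ℕ) (x : (XS m a).X n) :
    (XS.op m (OrderHom.id : Mor a a)).f n x = x := by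
  show (((reso RM).map (toS OrderHom.id)).app ((SH.TT.Sph m).obj (bx n))).toFun x = x
  rw [toS_id, (reso RM).map_id]
  rfl

theorem XS.op_comp (m : ℕ) {a b c : ℕ} (f : Mor a b) (g : Mor b c) (n : ℕ) (x : (XS m a).X n) :
    (XS.op m (g.comp f)).f n x = (XS.op m g).f n ((XS.op m f).f n x) := by
  show (((reso RM).map (toS (g.comp f))).app ((SH.TT.Sph m).obj (bx n))).toFun x = _
  rw [toS_comp, (reso RM).map_comp]
  rfl

theorem XS.op_zero (m : ℕ) {a b : ℕ} (f : Mor a b) (n : ℕ) : (XS.op m f).f n 0 = 0 :=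
  (((reso RM).map (toS f)).app ((SH.TT.Sph m).obj (bx n))).map_point

/-- The iterates, one step down: `R^s S`, a set. -/
abbrev PS' (m s n : ℕ) : Pointed := (it RM s).obj ((SH.TT.Sph m).obj (bx n))

theorem XS.op_eq (m : ℕ) {a b : ℕ} (f : Mor a b) (n : ℕ) (x : (XS m a).X n) :
    (XS.op m f).f n x = (Fm RM ((SH.TT.Sph m).obj (bx n)) (b + 1) (a + 1) f).toFun x := rfl

/-- Operators preserving `0` are linear: the linear map. -/
def XS.lin (m : ℕ) {a b : ℕ} (f : Mor a b) (n : ℕ) :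
    (XS m a).X n →ₗ[SHS.k] (XS m b).X n :=
  (SH.TT.adjP.counit.app (LinP.obj (PS' m b n))).hom.comp
    (LinP.map (Fm RM ((SH.TT.Sph m).obj (bx n)) (b + 1) a (scc f))).hom

theorem XS.op_lin (m : ℕ) {a b : ℕ} (f : Mor a b) (h : f 0 = 0) (n : ℕ) (x : (XS m a).X n) :
    (XS.op m f).f n x = XS.lin m f n x := by
  rw [XS.op_eq, Pool.Agent.SH.TT.Fm_of_eq RM ((SH.TT.Sph m).obj (bx n)) b a f h]
  rfl

theorem XS.op_add (m : ℕ) {a b : ℕ} (f : Mor a b) (h : f 0 = 0) (n : ℕ) (x y : (XS m a).X n) :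
    (XS.op m f).f n (x + y) = (XS.op m f).f n x + (XS.op m f).f n y := by
  rw [XS.op_lin m f h, XS.op_lin m f h, XS.op_lin m f h, map_add]

/-- Operators preserving `0` as linear simplicial maps. -/
def XS.opL (m : ℕ) {a b : ℕ} (f : Mor a b) (h : f 0 = 0) : SHS.SV.Hom (XS m a) (XS m b) where
  f n := XS.lin m f n
  nat g x := by
    have h1 := (XS.op m f).nat g x
    rw [XS.op_lin m f h, XS.op_lin m f h] at h1
    exact h1

theorem XS.opL_toSS (m : ℕ) {a b : ℕ} (f : Mor a b) (h : f 0 = 0) :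
    (XS.opL m f h).toSS = XS.op m f := by
  unfold SHS.SV.Hom.toSS
  have : (fun n x => (XS.opL m f h).f n x) = (XS.op m f).f := by
    funext n x
    exact (XS.op_lin m f h n x).symm
  cases h2 : XS.op m f
  rw [h2] at this
  simp only at this ⊢
  congr

/-! ### Cofaces and the unit -/

open Pool.Agent.SHS (cof)

/-- The base simplex. -/
abbrev bse (m s n : ℕ) : (PS' m s n).X := (PS' m s n).point

theorem prd_cof_zero (a : ℕ) (h : (cof (0 : Fin (a + 2)) : Mor a (a + 1)) 0 ≠ 0) :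
    prd (cof (0 : Fin (a + 2)) : Mor a (a + 1)) h = OrderHom.id := by
  apply OrderHom.ext
  funext i
  apply Fin.succ_injective
  have h2 : (cof (0 : Fin (a + 2)) : Mor a (a + 1)) i ≠ 0 := by
    show Fin.succAbove (0 : Fin (a + 2)) i ≠ 0
    simp
  have h1 : (prd (cof (0 : Fin (a + 2)) : Mor a (a + 1)) h i).succ =
      (cof (0 : Fin (a + 2)) : Mor a (a + 1)) i := Fin.succ_pred _ h2
  rw [h1]
  show Fin.succAbove (0 : Fin (a + 2)) i = i.succ
  simp

theorem XS.op_cof_zero (m s n : ℕ) (x : (XS m s).X n) :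
    (XS.op m (cof (0 : Fin (s + 2)))).f n x = brk (bse m (s + 1) n) x := by
  have h0 : (cof (0 : Fin (s + 2)) : Mor s (s + 1)) 0 ≠ 0 := by
    show (Fin.succAbove (0 : Fin (s + 2)) 0) ≠ 0
    simp
  rw [XS.op_eq, Pool.Agent.SH.TT.Fm_of_ne RM ((SH.TT.Sph m).obj (bx n)) (s + 1) s _ h0,
    prd_cof_zero, Pool.Agent.SH.TT.Fm_id]
  rfl

theorem Fm_rm {P : Pointed} (b a : ℕ) (θ : Fin (a + 1) →o Fin (b + 2)) (θ' : Fin a →o Fin (b + 1))
    (h0 : θ 0 = 0) (h : ∀ i, θ i.succ = (θ' i).succ) :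
    Fm RM P (b + 2) (a + 1) θ = tm RM (Fm RM P (b + 1) a θ') := by
  rw [Pool.Agent.SH.TT.Fm_of_eq RM P (b + 1) a θ h0]
  have h2 : Fm RM P (b + 2) a (scc θ) = Fm RM P (b + 1) a θ' ≫ et RM P (b + 1) :=
    Pool.Agent.SH.TT.Fm_succ RM P (b + 1) a (scc θ) θ' h
  rw [h2, Pool.Agent.SH.TT.tm_comp, Category.assoc, Pool.Agent.SH.TT.tet_mu, Category.comp_id]

theorem XS.op_cof_succ (m s n : ℕ) (i : Fin (s + 2)) (x : (XS m (s + 1)).X n) :
    (XS.op m (cof i.succ)).f n x = augMap ((XS.op m (cof i)).f n) x := by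
  have h0 : (cof i.succ : Mor (s + 1) (s + 2)) 0 = 0 := by
    show Fin.succAbove i.succ 0 = 0
    simp
  have h1 : ∀ j, (cof i.succ : Mor (s + 1) (s + 2)) j.succ = ((cof i : Mor s (s + 1)) j).succ := by
    intro j
    show Fin.succAbove i.succ j.succ = (Fin.succAbove i j).succ
    simp
  rw [XS.op_eq, Fm_rm (s + 1) (s + 1) _ (cof i) h0 h1]
  rfl

/-! ### The sphere -/

/-- The sphere as a simplicial set of block III-S. -/
def SphSS (m : ℕ) : SHS.SS where
  X n := ((SH.TT.Sph m).obj (bx n)).X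
  map f := ((SH.TT.Sph m).map (toD f)).toFun
  map_id x := by
    rw [toD_id]
    exact congrFun (congrArg Pointed.Hom.toFun ((SH.TT.Sph m).map_id _)) x
  map_comp f g x := by
    rw [toD_comp]
    exact congrFun (congrArg Pointed.Hom.toFun ((SH.TT.Sph m).map_comp _ _)) x

/-- The coaugmentation. -/
def XS.eta (m : ℕ) : SHS.SS.Hom (SphSS m) (XS m 0).toSS where
  f n x := brk (none : ((SH.TT.Sph m).obj (bx n)).X) x
  nat g x := by
    have h := RM.η.naturality ((SH.TT.Sph m).map (toD g))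
    exact congrFun (congrArg Pointed.Hom.toFun h) x

theorem XS.op_cof_one (m n : ℕ) (x : (XS m 0).X n) :
    (XS.op m (cof (1 : Fin 2))).f n x = augMap ((XS.eta m).f n) x := by
  have h0 : (cof (1 : Fin 2) : Mor 0 1) 0 = 0 := rfl
  rw [XS.op_eq, Fm_rm 0 0 _ (emp 1) h0 (fun i => i.elim0)]
  have h3 : Fm RM ((SH.TT.Sph m).obj (bx n)) 1 0 (emp 1) = et RM ((SH.TT.Sph m).obj (bx n)) 0 := by
    rw [Pool.Agent.SH.TT.Fm_zero]
    have : Fm RM ((SH.TT.Sph m).obj (bx n)) 0 0 (emp 0) = 𝟙 _ := by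
      unfold Fm
      rfl
    rw [this, Category.id_comp]
  rw [h3]
  rfl

end Pool.Agent.SHL

end

end
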