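import Mathlib
import Pool.Agent.SHM.C02
import Pool.Agent.SHM.C03

/-! Parts: SH.MAIN, SH.FIN, SH.MAPD, SH.S.EZ, SH.S.Norm, SH.S.Kun, SH.S.K1a, SH.S.Sk, SH.S.Squ, SH.S.Indx, SH.S.Indep, SH.S.Sc1, SH.S.SplA, SH.S.SplB, SH.S.SplC, SH.S.SplD, SH.S.Embar, SH.S.Bin -/

section

/-!
# The main theorem from its parts
-/

set_option autoImplicit false

open Set Topology Filter

namespace Pool.Agent.SH

/-- The constant sofic approximation sequence of the trivial group. -/
def trivSofic : SoficSeq Unit where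
  d := fun i => i + 1
  σ := fun _ _ => 1
  tendsto_d := tendsto_add_atTop_nat 1
  mul := by
    intro s t
    refine tendsto_const_nhds.congr fun i => ?_
    have h1 : {v : Fin (i + 1) | (1 : Equiv.Perm (Fin (i + 1))) v =
        (1 : Equiv.Perm (Fin (i + 1))) ((1 : Equiv.Perm (Fin (i + 1))) v)} = univ := by
      ext v
      simp
    show (1 : ℝ) = ({v : Fin (i + 1) | (1 : Equiv.Perm (Fin (i + 1))) v =
        (1 : Equiv.Perm (Fin (i + 1))) ((1 : Equiv.Perm (Fin (i + 1))) v)}.ncard : ℝ) /
        ((i + 1 : ℕ) : ℝ)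
    rw [h1, Set.ncard_univ, Nat.card_eq_fintype_card, Fintype.card_fin]
    rw [div_self]
    positivity
  free := by
    intro s t hst
    exact absurd (Subsingleton.elim s t) hst

theorem dimLE_of_cov {K : Type} [TopologicalSpace K] {n : ℕ} (h : CovDimLE K n) : DimLE K n := by
  intro ι _ U hU hcov
  obtain ⟨V, hV, hVU, hVn⟩ := h (Set.range U) ⟨Set.finite_range U, by
    rintro _ ⟨i, rfl⟩
    exact hU i, by
    refine eq_univ_of_forall fun x => ?_
    obtain ⟨i, hi⟩ := hcov x
    exact ⟨U i, ⟨i, rfl⟩, hi⟩⟩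
  haveI : Finite V := hV.1
  refine ⟨V, inferInstance, fun v => v.1, fun v => hV.2.1 v.1 v.2, ?_, ?_, ?_⟩
  · intro x
    have : x ∈ ⋃₀ V := by
      rw [hV.2.2]
      exact mem_univ x
    obtain ⟨v, hv, hx⟩ := this
    exact ⟨⟨v, hv⟩, hx⟩
  · intro v
    obtain ⟨_, ⟨i, rfl⟩, hi⟩ := hVU v.1 v.2
    exact ⟨i, hi⟩
  · intro x
    refine le_trans ?_ (hVn x)
    have h1 : {v | v ∈ V ∧ x ∈ v} = Subtype.val '' {a : V | x ∈ a.1} := by
      ext v
      constructor
      · rintro ⟨hv, hx⟩
        exact ⟨⟨v, hv⟩, hx, rfl⟩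
      · rintro ⟨a, ha, rfl⟩
        exact ⟨a.2, ha⟩
    rw [h1, Set.ncard_image_of_injective _ Subtype.val_injective]

theorem infDim_of {K : Type} [TopologicalSpace K] (h : ∀ n, ¬ DimLE K n) : InfDim K :=
  fun n hn => h n (dimLE_of_cov hn)

theorem nonempty_of_dim {K : Type} [TopologicalSpace K] (h : ∀ n, ¬ DimLE K n) : Nonempty K := by
  by_contra hne
  rw [not_nonempty_iff] at hne
  refine h 0 ?_
  intro ι _ U _ _
  refine ⟨Empty, inferInstance, fun e => e.elim, fun e => e.elim, fun x => (hne.false x).elim,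
    fun e => e.elim, fun x => (hne.false x).elim⟩

theorem MAIN (hFin : Stmt_FIN) (hP : Stmt_PARTI) (hC : Stmt_CPT) : Stmt_MAIN := by
  obtain ⟨K, tK, cK, mK, hE, hD⟩ := hC
  have hne : Nonempty K := nonempty_of_dim hD
  have hI : InfDim K := infDim_of hD
  have hb : ∀ (G : Type) [Group G] (S : SoficSeq G) (ρ : FullShift G K → FullShift G K → ℝ),
      IsCompatMetric ρ → mdim ρ S ≤ ((3 : ℝ) : EReal) := by
    intro G _ S ρ hρ
    have := hFin K 3 (hP K hE) G S ρ hρ
    exact_mod_cast this
  refine ⟨⟨K, tK, cK, mK, hI, hb⟩, ?_⟩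
  intro hQ
  haveI : CompactSpace (FullShift Unit K) := inferInstanceAs (CompactSpace (Unit → K))
  haveI : TopologicalSpace.MetrizableSpace (FullShift Unit K) :=
    inferInstanceAs (TopologicalSpace.MetrizableSpace (Unit → K))
  set m := TopologicalSpace.metrizableSpaceMetric (FullShift Unit K) with hm
  have hρ : IsCompatMetric (fun x y => m.dist x y) := ⟨m, rfl, fun x y => rfl⟩
  have h1 := hQ Unit trivSofic K hI (fun x y => m.dist x y) hρ
  have h2 := hb Unit trivSofic (fun x y => m.dist x y) hρ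
  rw [h1] at h2
  exact absurd h2 (not_le.2 (EReal.coe_lt_top _))

end Pool.Agent.SH


end

section

/-!
# MP_2d0b73_an: the upper bound for sofic mean dimension
-/

set_option autoImplicit false

open Set Topology Filter

namespace Pool.Agent.SH

theorem FIN (h1 : Stmt_LEB) (h2 : Stmt_BAD) (h3 : Stmt_MAPD) : Stmt_FIN := by
  intro K _ _ _ _ c hDB G _ S ρ hρ
  have hpos : ∀ x y, 0 ≤ ρ x y := by
    obtain ⟨m, -, hd⟩ := hρ
    intro x y
    rw [hd]
    exact @dist_nonneg _ m.toPseudoMetricSpace x y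
  refine iSup₂_le fun U hU => ?_
  obtain ⟨F, ι, hι, V, τ, hτ, hVo, hVc, hc⟩ := h1 K G ρ U hρ hU
  obtain ⟨K0, hK⟩ := hDB ι V hVo hVc
  rw [← EReal.le_of_forall_lt_iff_le]
  intro z hz
  have hz' : (c : ℝ) < z := by exact_mod_cast hz
  set η : ℝ := (z - c) / 2 with hη
  have hη0 : 0 < η := by rw [hη]; linarith
  set A : ℝ := F.card * (U.ncard + 1) / τ with hA
  have hA0 : 0 ≤ A := by positivity
  set δ : ℝ := η / (A + 1) with hδ
  have hδ0 : 0 < δ := by positivity
  have hAδ : A * δ ≤ η := by
    rw [hδ, mul_div_assoc', div_le_iff₀ (by positivity)]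
    nlinarith
  refine iInf_le_of_le F (iInf_le_of_le δ (iInf_le_of_le hδ0 ?_))
  refine Filter.limsup_le_of_le ?_ ?_
  · isBoundedDefault
  have hev : ∀ᶠ i in atTop, max 1 ⌈(K0 : ℝ) / η⌉₊ ≤ S.d i := S.tendsto_d.eventually_ge_atTop _
  filter_upwards [hev] with i hi
  have hd1 : 1 ≤ S.d i := le_trans (le_max_left _ _) hi
  have hd0 : (0 : ℝ) < S.d i := by exact_mod_cast hd1
  have hd2 : (K0 : ℝ) ≤ η * S.d i := by
    have h4 : (K0 : ℝ) / η ≤ S.d i := by
      refine (Nat.le_ceil _).trans ?_
      exact_mod_cast le_trans (le_max_right _ _) hi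
    rw [div_le_iff₀ hη0] at h4
    linarith
  have hbad : ∀ φ ∈ SMap ρ F δ (S.σ i),
      {v | τ < ∑ s ∈ F, ρ (φ (S.σ i s v)) (s • φ v)}.ncard ≤
        ⌊F.card * δ / τ * (S.d i : ℝ)⌋₊ := by
    intro φ hφ
    exact Nat.le_floor (h2 (FullShift G K) G ρ F δ τ (S.d i) (S.σ i) hpos hδ0 hτ φ hφ)
  have h5 := h3 K G ρ U hρ hU F ι V τ hτ hc δ (S.d i) (K0 + c * S.d i)
    ⌊F.card * δ / τ * (S.d i : ℝ)⌋₊ (S.σ i) hδ0 hbad (hK (S.d i))
  have hfl : (⌊F.card * δ / τ * (S.d i : ℝ)⌋₊ : ℝ) ≤ F.card * δ / τ * (S.d i : ℝ) :=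
    Nat.floor_le (by positivity)
  have h6 : (((K0 + c * S.d i : ℕ) : ℝ) + ⌊F.card * δ / τ * (S.d i : ℝ)⌋₊ * (U.ncard + 1)) ≤
      z * S.d i := by
    have h7 : (⌊F.card * δ / τ * (S.d i : ℝ)⌋₊ : ℝ) * (U.ncard + 1) ≤
        F.card * δ / τ * (S.d i : ℝ) * (U.ncard + 1) :=
      mul_le_mul_of_nonneg_right hfl (by positivity)
    have h8 : F.card * δ / τ * (S.d i : ℝ) * (U.ncard + 1) = A * δ * S.d i := by
      rw [hA]
      ring
    have h9 : A * δ * S.d i ≤ η * S.d i := mul_le_mul_of_nonneg_right hAδ hd0.le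
    have h10 : z = c + η + η := by rw [hη]; ring
    push_cast
    rw [h10]
    nlinarith
  have hdE : (0 : EReal) < ((S.d i : ℝ) : EReal) := by exact_mod_cast hd0
  rw [EReal.div_le_iff_le_mul hdE (EReal.coe_ne_top _)]
  refine h5.trans ?_
  rw [← EReal.coe_mul, mul_comm (S.d i : ℝ) z]
  exact_mod_cast h6

end Pool.Agent.SH


end

section

/-!
# MP_2d0b73_an: the bound for one map `σ`
-/

set_option autoImplicit false

open Set Topology Filter

namespace Pool.Agent.SH

namespace MPD

/-- Functions adapted to a finite open cover of a normal space. -/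
theorem norm_cover {Y C : Type} [TopologicalSpace Y] [NormalSpace Y] [Fintype C] (W : C → Set Y)
    (ho : ∀ c, IsOpen (W c)) (hc : ∀ y, ∃ c, y ∈ W c) :
    ∃ θ : Y → C → ℝ, Continuous θ ∧ (∀ y c, -1 ≤ θ y c) ∧ (∀ y c, θ y c ≤ 1) ∧
      (∀ y, ∃ c, θ y c = 1) ∧ ∀ y c, -1 < θ y c → y ∈ W c := by
  obtain ⟨f, hf⟩ := PartitionOfUnity.exists_isSubordinate_of_locallyFinite (isClosed_univ (X := Y)) W ho
    (locallyFinite_of_finite W) (fun y _ => mem_iUnion.2 (hc y))
  obtain ⟨θ, h1, h2, h3, h4, h5⟩ := ITR.norm_exists (fun y c => f c y)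
    (fun c => (f c).continuous) (fun y c => f.nonneg c y) (fun y => by
      obtain ⟨c, hc⟩ := f.exists_pos (mem_univ y)
      exact ⟨c, hc⟩)
  refine ⟨θ, h1, h2, h3, h4, fun y c h => ?_⟩
  apply hf c
  apply subset_tsupport
  exact (h5 y c h).ne'

theorem rho_cont {X : Type} [t : TopologicalSpace X] {ρ : X → X → ℝ} (h : IsCompatMetric ρ) :
    (Continuous fun p : X × X => ρ p.1 p.2) ∧ ∀ x y, 0 ≤ ρ x y := by
  obtain ⟨m, hm, hρm⟩ := h
  subst hm
  refine ⟨?_, fun x y => ?_⟩
  · have h1 : (fun p : X × X => ρ p.1 p.2) = fun p => dist p.1 p.2 :=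
      funext fun p => hρm p.1 p.2
    rw [h1]
    exact continuous_dist
  · rw [hρm]
    exact dist_nonneg

/-- Cells: general form. -/
theorem cells_card {W : Type} [Fintype W] (g : W → ℝ) {O F O' F' : Finset W}
    (hd : Disjoint O F) (hd' : Disjoint O' F') (h : 0 < ITR.mu g O F) (h' : 0 < ITR.mu g O' F')
    (hcard : F.card = F'.card) : O = O' ∧ F = F' := by
  obtain ⟨a1, a2, a3⟩ := (ITR.mu_pos_iff _ _ _).1 h
  obtain ⟨b1, b2, b3⟩ := (ITR.mu_pos_iff _ _ _).1 h'
  have hF : F = F' := by
    by_contra hne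
    have h6 : ¬ F ⊆ F' := fun h => hne (Finset.eq_of_subset_of_card_le h hcard.ge)
    have h7 : ¬ F' ⊆ F := fun h => hne (Finset.eq_of_subset_of_card_le h hcard.le).symm
    obtain ⟨w, hw, hw'⟩ := Finset.not_subset.1 h6
    obtain ⟨u, hu, hu'⟩ := Finset.not_subset.1 h7
    have := a1 w hw u hu'
    have := b1 u hu w hw'
    linarith
  refine ⟨?_, hF⟩
  ext w
  constructor
  · intro hw
    by_contra hn
    have h8 : w ∉ F' := by
      rw [← hF]
      exact Finset.disjoint_left.1 hd hw
    have := a2 w hw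
    have := b3 w hn h8
    linarith
  · intro hw
    by_contra hn
    have h8 : w ∉ F := by
      rw [hF]
      exact Finset.disjoint_left.1 hd' hw
    have := b2 w hw
    have := a3 w hn h8
    linarith

/-- The covers by cells: general form. -/
theorem DD_le {Y W : Type} [TopologicalSpace Y] [Fintype W] (Z : Set Y) (P : Set (Set Y))
    (g : Z → W → ℝ) (hg : ∀ w, Continuous fun z => g z w) (hb : ∀ z w, |g z w| ≤ 1) (N : ℕ)
    (hN : ∀ z, {w | |g z w| < 1}.ncard ≤ N) (Q : Finset W → Prop)
    (hQ : ∀ z, ∀ O : Finset W, (∀ w, g z w = 1 → w ∈ O) → Q O)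
    (hP : ∀ O F : Finset W, Disjoint O F → Q O → ∃ p ∈ P, ∀ z : Z, 0 < ITR.mu (g z) O F →
      (z : Y) ∈ p) :
    DD Z P ≤ ((N : ℝ) : EReal) := by
  classical
  let C := {p : Finset W × Finset W // Disjoint p.1 p.2 ∧ p.2.card ≤ N ∧ Q p.1}
  let cell : C → Set Z := fun c => {z | 0 < ITR.mu (g z) c.1.1 c.1.2}
  have hopen : ∀ c, IsOpen (cell c) := by
    intro c
    refine isOpen_lt continuous_const ?_
    unfold ITR.mu
    refine (Continuous.mul ?_ ?_).mul ?_
    · refine continuous_finsetProd _ fun w _ => continuous_finsetProd _ fun u _ => ?_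
      exact continuous_const.max ((hg u).abs.sub (hg w).abs)
    · exact continuous_finsetProd _ fun w _ => continuous_const.max (hg w)
    · exact continuous_finsetProd _ fun w _ => continuous_const.max (hg w).neg
  have hcov : ∀ z, ∃ c, z ∈ cell c := by
    intro z
    refine ⟨⟨(Finset.univ.filter (fun w => g z w = 1),
      Finset.univ.filter (fun w => |g z w| < 1)), ?_, ?_, ?_⟩, ?_⟩
    · rw [Finset.disjoint_left]
      intro w hw hw'
      simp only [Finset.mem_filter, Finset.mem_univ, true_and] at hw hw'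
      rw [hw] at hw'
      norm_num at hw'
    · have := hN z
      rw [Set.ncard_eq_toFinset_card'] at this
      have e : {w | |g z w| < 1}.toFinset = Finset.univ.filter (fun w => |g z w| < 1) := by
        ext w
        simp
      rw [e] at this
      exact this
    · apply hQ z
      intro w hw
      simpa using hw
    · show 0 < ITR.mu _ _ _
      rw [ITR.mu_pos_iff]
      refine ⟨?_, ?_, ?_⟩
      · intro w hw u hu
        simp only [Finset.mem_filter, Finset.mem_univ, true_and] at hw hu
        linarith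
      · intro w hw
        simp only [Finset.mem_filter, Finset.mem_univ, true_and] at hw
        rw [hw]
        exact one_pos
      · intro w hw hw'
        simp only [Finset.mem_filter, Finset.mem_univ, true_and, not_lt] at hw hw'
        have h1 : |g z w| = 1 := le_antisymm (hb z w) hw'
        rcases eq_or_eq_neg_of_abs_eq h1 with h | h
        · exact absurd h hw
        · rw [h]
          norm_num
  have hfin : Finite C := inferInstance
  let V : Set (Set Z) := Set.range cell
  have hV : IsFCover V := by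
    refine ⟨Set.finite_range cell, ?_, ?_⟩
    · rintro _ ⟨c, rfl⟩
      exact hopen c
    · rw [Set.eq_univ_iff_forall]
      intro z
      obtain ⟨c, hc⟩ := hcov z
      exact ⟨_, ⟨c, rfl⟩, hc⟩
  have hV2 : ∀ v ∈ V, ∃ w ∈ P, v ⊆ {z : Z | (z : Y) ∈ w} := by
    rintro _ ⟨c, rfl⟩
    obtain ⟨p, hp, h⟩ := hP c.1.1 c.1.2 c.2.1 c.2.2.2
    exact ⟨p, hp, fun z hz => h z hz⟩
  refine (iInf₂_le V ⟨hV, hV2⟩).trans ?_
  unfold ordC
  refine iSup_le fun z => ?_
  have hcount : {v | v ∈ V ∧ z ∈ v}.ncard ≤ N + 1 := by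
    let D : Set C := {c | z ∈ cell c}
    have h1 : {v | v ∈ V ∧ z ∈ v} ⊆ cell '' D := by
      rintro v ⟨⟨c, rfl⟩, hz⟩
      exact ⟨c, hz, rfl⟩
    have h2 : D.ncard ≤ (Finset.range (N + 1)).card := by
      rw [← Set.ncard_coe_finset]
      refine Set.ncard_le_ncard_of_injOn (fun c => c.1.2.card) ?_ ?_ (Finset.finite_toSet _)
      · intro c _
        rw [Finset.mem_coe, Finset.mem_range]
        exact Nat.lt_succ_of_le c.2.2.1
      · intro c hc c' hc' hcc
        obtain ⟨e1, e2⟩ := cells_card (g z) c.2.1 c'.2.1 hc hc' hcc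
        exact Subtype.ext (Prod.ext e1 e2)
    rw [Finset.card_range] at h2
    calc {v | v ∈ V ∧ z ∈ v}.ncard ≤ (cell '' D).ncard := Set.ncard_le_ncard h1 (Set.toFinite _)
      _ ≤ D.ncard := Set.ncard_image_le (Set.toFinite _)
      _ ≤ N + 1 := h2
  have h3 : ({v | v ∈ V ∧ z ∈ v}.ncard : ℝ) ≤ N + 1 := by exact_mod_cast hcount
  have h4 : ({v | v ∈ V ∧ z ∈ v}.ncard : ℝ) - 1 ≤ N := by linarith
  exact_mod_cast h4

end MPD

open MPD in
theorem MAPD : Stmt_MAPD := by
  intro K _ _ _ _ G _ ρ U hρ hU F ι _ V τ hτ hc δ d N b σ hδ hbad ⟨κ, hκ, W, hWo, hWc, hWb, hWN⟩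
  classical
  have : Fintype κ := Fintype.ofFinite κ
  have : Finite U := hU.1
  have : Fintype U := Fintype.ofFinite U
  have : CompactSpace (FullShift G K) := inferInstanceAs (CompactSpace (G → K))
  have : T2Space (FullShift G K) := inferInstanceAs (T2Space (G → K))
  obtain ⟨hρc, hρ0⟩ := rho_cont hρ
  have hsc : ∀ s : G, Continuous fun x : FullShift G K => s • x := fun s =>
    continuous_pi fun h => continuous_apply (h * s)
  have hUne : Nonempty U := by
    obtain ⟨k⟩ := ‹Nonempty K›
    have h1 : (fun _ => k : FullShift G K) ∈ ⋃₀ U := by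
      rw [hU.2.2]
      trivial
    obtain ⟨u, hu, _⟩ := h1
    exact ⟨⟨u, hu⟩⟩
  obtain ⟨θ, t1, t2, t3, t4, t5⟩ := norm_cover (fun u : U => u.1) (fun u => hU.2.1 u.1 u.2)
    (fun x => by
      have h1 : x ∈ ⋃₀ U := by
        rw [hU.2.2]
        trivial
      obtain ⟨u, hu, hx⟩ := h1
      exact ⟨⟨u, hu⟩, hx⟩)
  obtain ⟨θ', s1, s2, s3, s4, s5⟩ := norm_cover W hWo hWc
  -- the coordinates
  let bv : (Fin d → FullShift G K) → Fin d → ℝ := fun φ v =>
    ∑ s ∈ F, ρ (φ (σ s v)) (s • φ v)
  have hbvc : ∀ v, Continuous fun φ => bv φ v := by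
    intro v
    refine continuous_finsetSum _ fun s _ => ?_
    have e1 : Continuous fun φ : Fin d → FullShift G K => φ (σ s v) := continuous_apply _
    have e2 : Continuous fun φ : Fin d → FullShift G K => s • φ v :=
      (hsc s).comp (continuous_apply v)
    exact hρc.comp (e1.prodMk e2)
  let be : (Fin d → FullShift G K) → Fin d → ℝ := fun φ v =>
    max (-1) (min 1 (2 * bv φ v / τ - 3))
  have hbec : ∀ v, Continuous fun φ => be φ v := by
    intro v
    refine continuous_const.max (continuous_const.min ?_)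
    exact ((continuous_const.mul (hbvc v)).div_const τ).sub continuous_const
  have hbe1 : ∀ φ v, -1 ≤ be φ v := fun φ v => le_max_left _ _
  have hbe2 : ∀ φ v, be φ v ≤ 1 := fun φ v => max_le (by norm_num) (min_le_left _ _)
  have hbe3 : ∀ φ v, -1 < be φ v → τ < bv φ v := by
    intro φ v h
    by_contra hn
    push Not at hn
    have h1 : 2 * bv φ v / τ - 3 ≤ -1 := by
      have : bv φ v / τ ≤ 1 := (div_le_one hτ).2 hn
      rw [mul_div_assoc]
      linarith
    have h2 : be φ v = -1 := by
      show max (-1) (min 1 (2 * bv φ v / τ - 3)) = -1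
      exact max_eq_left ((min_le_right _ _).trans h1)
    linarith
  have hbe4 : ∀ φ v, be φ v < 0 → bv φ v < 2 * τ := by
    intro φ v h
    by_contra hn
    push Not at hn
    have h1 : 1 ≤ 2 * bv φ v / τ - 3 := by
      have : 2 ≤ bv φ v / τ := (le_div_iff₀ hτ).2 hn
      rw [mul_div_assoc]
      linarith
    have h2 : be φ v = 1 := by
      show max (-1) (min 1 (2 * bv φ v / τ - 3)) = 1
      rw [min_eq_left h1]
      exact max_eq_right (by norm_num)
    linarith
  let pr : (Fin d → FullShift G K) → Fin d → K := fun φ v => φ v 1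
  have hpr : Continuous pr := continuous_pi fun v =>
    (continuous_apply (1 : G)).comp (continuous_apply (A := fun _ => G → K) v)
  let g : SMap ρ F δ σ → (κ ⊕ (Fin d ⊕ Fin d × U)) → ℝ := fun z w =>
    match w with
    | Sum.inl a => θ' (pr z.1) a
    | Sum.inr (Sum.inl v) => be z.1 v
    | Sum.inr (Sum.inr p) => min (be z.1 p.1) (θ (z.1 p.1) p.2)
  have hg : ∀ w, Continuous fun z => g z w := by
    rintro (a | v | p)
    · exact ((continuous_apply a).comp (s1.comp hpr)).comp continuous_subtype_val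
    · exact (hbec v).comp continuous_subtype_val
    · have e3 : Continuous fun φ : Fin d → FullShift G K => θ (φ p.1) p.2 :=
        (continuous_apply p.2).comp (t1.comp (continuous_apply p.1))
      exact ((hbec p.1).comp continuous_subtype_val).min (e3.comp continuous_subtype_val)
  have hlow : ∀ z w, -1 ≤ g z w := by
    rintro z (a | v | p)
    · exact s2 _ _
    · exact hbe1 _ _
    · exact le_min (hbe1 _ _) (t2 _ _)
  have hhigh : ∀ z w, g z w ≤ 1 := by
    rintro z (a | v | p)
    · exact s3 _ _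
    · exact hbe2 _ _
    · exact (min_le_left _ _).trans (hbe2 _ _)
  have hN : ∀ z, {w | |g z w| < 1}.ncard ≤ N + b * (U.ncard + 1) := by
    intro z
    let B : Set (Fin d) := {v | τ < bv z.1 v}
    have hB : B.ncard ≤ b := hbad z.1 z.2
    let A : Set κ := {a | pr z.1 ∈ W a}
    have hA : A.ncard ≤ N := hWN _
    have h1 : {w | |g z w| < 1} ⊆ (Sum.inl '' A) ∪ (Sum.inr ∘ Sum.inl) '' B
        ∪ (Sum.inr ∘ Sum.inr) '' (B ×ˢ (univ : Set U)) := by
      rintro (a | v | p) hw
      · left; left
        exact ⟨a, s5 _ _ (abs_lt.1 hw).1, rfl⟩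
      · left; right
        exact ⟨v, hbe3 _ _ (abs_lt.1 hw).1, rfl⟩
      · right
        have h2 : -1 < min (be z.1 p.1) (θ (z.1 p.1) p.2) := (abs_lt.1 hw).1
        exact ⟨p, ⟨hbe3 _ _ (lt_of_lt_of_le h2 (min_le_left _ _)), trivial⟩, rfl⟩
    refine (Set.ncard_le_ncard h1 (Set.toFinite _)).trans ?_
    refine (Set.ncard_union_le _ _).trans ?_
    have h2 := Set.ncard_union_le (Sum.inl '' A) ((Sum.inr ∘ Sum.inl) '' B :
      Set (κ ⊕ (Fin d ⊕ Fin d × U)))
    have h3 : (Sum.inl '' A : Set (κ ⊕ (Fin d ⊕ Fin d × U))).ncard ≤ N :=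
      (Set.ncard_image_le (Set.toFinite _)).trans hA
    have h4 : ((Sum.inr ∘ Sum.inl) '' B : Set (κ ⊕ (Fin d ⊕ Fin d × U))).ncard ≤ b :=
      (Set.ncard_image_le (Set.toFinite _)).trans hB
    have h5 : ((Sum.inr ∘ Sum.inr) '' (B ×ˢ (univ : Set U)) :
        Set (κ ⊕ (Fin d ⊕ Fin d × U))).ncard ≤ b * U.ncard := by
      refine (Set.ncard_image_le (Set.toFinite _)).trans ?_
      rw [Set.ncard_prod, Set.ncard_univ, Nat.card_coe_set_eq]
      exact Nat.mul_le_mul_right _ hB
    have h6 : N + b * (U.ncard + 1) = N + b + b * U.ncard := by ring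
    omega
  have hfinal := DD_le (SMap ρ F δ σ) (powCover U d) g hg
    (fun z w => abs_le.2 ⟨hlow z w, hhigh z w⟩) (N + b * (U.ncard + 1)) hN
    (fun O => ∃ a, Sum.inl a ∈ O)
    (fun z O hO => by
      obtain ⟨a, ha⟩ := s4 (pr z.1)
      exact ⟨a, hO (Sum.inl a) ha⟩) (by
    intro O F' hd hQ
    obtain ⟨a, ha⟩ := hQ
    by_cases hne : ∃ z : SMap ρ F δ σ, 0 < ITR.mu (g z) O F'
    · obtain ⟨z0, hz0⟩ := hne
      obtain ⟨a1, a2, a3⟩ := (ITR.mu_pos_iff _ _ _).1 hz0
      obtain ⟨i, hi⟩ := hWb a
      have key : ∀ v : Fin d, ∃ u : U, ∀ z : SMap ρ F δ σ, 0 < ITR.mu (g z) O F' →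
          z.1 v ∈ u.1 := by
        intro v
        by_cases hv : Sum.inr (Sum.inl v) ∈ O ∨ Sum.inr (Sum.inl v) ∈ F'
        · -- bad vertex
          obtain ⟨u, hu⟩ := t4 (z0.1 v)
          have he : g z0 (Sum.inr (Sum.inr (v, u))) = g z0 (Sum.inr (Sum.inl v)) := by
            show min (be z0.1 v) (θ (z0.1 v) u) = be z0.1 v
            rw [hu]
            exact min_eq_left (hbe2 _ _)
          refine ⟨u, fun z hz => ?_⟩
          obtain ⟨b1, b2, b3⟩ := (ITR.mu_pos_iff _ _ _).1 hz
          have hgt : -1 < g z (Sum.inr (Sum.inr (v, u))) := by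
            by_cases hO : Sum.inr (Sum.inr (v, u)) ∈ O
            · have := b2 _ hO
              linarith
            · by_cases hF' : Sum.inr (Sum.inr (v, u)) ∈ F'
              · have haF : Sum.inl a ∉ F' := Finset.disjoint_left.1 hd ha
                have h1 := b1 _ hF' _ haF
                have h2 : |g z (Sum.inl a)| ≤ 1 := abs_le.2 ⟨hlow z (Sum.inl a), hhigh z (Sum.inl a)⟩
                exact (abs_lt.1 (lt_of_lt_of_le h1 h2)).1
              · exfalso
                have h1 := a3 _ hO hF'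
                rcases hv with hv | hv
                · have h2 := a2 _ hv
                  rw [he] at h1
                  linarith
                · have h2 := a1 _ hv _ hF'
                  rw [he] at h2
                  exact lt_irrefl _ h2
          exact t5 _ _ (lt_of_lt_of_le hgt (min_le_right _ _))
        · push Not at hv
          obtain ⟨u, hu, huc⟩ := hc (fun s => i (σ s v))
          refine ⟨⟨u, hu⟩, fun z hz => ?_⟩
          obtain ⟨b1, b2, b3⟩ := (ITR.mu_pos_iff _ _ _).1 hz
          apply huc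
          intro s hs
          have h1 : be z.1 v < 0 := b3 _ hv.1 hv.2
          have h2 := hbe4 _ _ h1
          refine ⟨z.1 (σ s v), ?_, ?_⟩
          · refine lt_of_le_of_lt ?_ h2
            exact Finset.single_le_sum (f := fun s => ρ (z.1 (σ s v)) (s • z.1 v))
              (fun s _ => hρ0 _ _) hs
          · have h3 : pr z.1 ∈ W a := s5 _ _ (by
              have := b2 _ ha
              have h4 : g z (Sum.inl a) = θ' (pr z.1) a := rfl
              rw [← h4]
              linarith)
            exact hi _ h3 (σ s v)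
      choose u hu using key
      exact ⟨{z | ∀ j, z j ∈ (u j).1}, ⟨fun j => (u j).1, fun j => (u j).2, rfl⟩,
        fun z hz j => hu j z hz⟩
    · obtain ⟨u⟩ := hUne
      exact ⟨{z | ∀ j, z j ∈ u.1}, ⟨fun _ => u.1, fun _ => u.2, rfl⟩,
        fun z hz => absurd ⟨z, hz⟩ hne⟩)
  refine hfinal.trans (le_of_eq ?_)
  push_cast
  rfl

end Pool.Agent.SH


end

section

/-!
Block III-S: the theorem of Eilenberg and Zilber for bicosimplicial vector spaces, by effacement
(decalage): the cone of the Alexander-Whitney map is acyclic.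
-/

namespace Pool.Agent.SHS

namespace EZ

/-! ### Shift of monotone maps -/

/-- The shift: fixes `0`, acts by `a` on the successors. -/
def sh {m n : ℕ} (a : Mor m n) : Mor (m + 1) (n + 1) where
  toFun := Fin.cases 0 (fun i => (a i).succ)
  monotone' := by
    intro i j
    refine Fin.cases ?_ (fun i' => ?_) i
    · intro _
      exact Fin.zero_le _
    · refine Fin.cases ?_ (fun j' => ?_) j
      · intro h
        exact absurd (lt_of_lt_of_le (Fin.succ_pos i') h) (lt_irrefl _)
      · intro h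
        exact Fin.succ_le_succ_iff.2 (a.monotone (Fin.succ_le_succ_iff.1 h))

theorem sh_zero {m n : ℕ} (a : Mor m n) : sh a 0 = 0 := rfl

theorem sh_succ {m n : ℕ} (a : Mor m n) (i : Fin (m + 1)) : sh a i.succ = (a i).succ := rfl

theorem sh_id {n : ℕ} : sh (OrderHom.id : Mor n n) = OrderHom.id := by
  apply OrderHom.ext
  funext i
  refine Fin.cases ?_ (fun i' => ?_) i
  · rfl
  · rfl

theorem sh_comp {l m n : ℕ} (f : Mor l m) (g : Mor m n) : sh (g.comp f) = (sh g).comp (sh f) := by
  apply OrderHom.ext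
  funext i
  refine Fin.cases ?_ (fun i' => ?_) i
  · rfl
  · rfl

theorem sh_cof0 {m n : ℕ} (a : Mor m n) : (sh a).comp (cof 0) = (cof 0).comp a := by
  apply OrderHom.ext
  funext i
  show sh a ((0 : Fin (m + 2)).succAbove i) = (0 : Fin (n + 2)).succAbove (a i)
  rw [Fin.zero_succAbove, Fin.zero_succAbove]
  rfl

theorem sh_cof {n : ℕ} (i : Fin (n + 2)) : sh (cof i) = cof i.succ := by
  apply OrderHom.ext
  funext j
  refine Fin.cases ?_ (fun j' => ?_) j
  · show (0 : Fin (n + 3)) = i.succ.succAbove 0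
    rw [Fin.succ_succAbove_zero]
  · show (i.succAbove j').succ = i.succ.succAbove j'.succ
    rw [Fin.succ_succAbove_succ]

theorem cod0_zero {n : ℕ} : (cod (0 : Fin (n + 1))) 0 = 0 := by
  show Fin.predAbove 0 (0 : Fin (n + 2)) = 0
  exact Fin.predAbove_right_zero

theorem cod0_succ {n : ℕ} (i : Fin (n + 1)) : (cod (0 : Fin (n + 1))) i.succ = i := by
  show Fin.predAbove 0 i.succ = i
  exact Fin.predAbove_zero_succ

theorem cod0_cof0 {n : ℕ} : (cod (0 : Fin (n + 1))).comp (cof 0) = (OrderHom.id : Mor n n) := by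
  apply OrderHom.ext
  funext i
  show (cod (0 : Fin (n + 1))) ((0 : Fin (n + 2)).succAbove i) = i
  rw [Fin.zero_succAbove, cod0_succ]

theorem cod0_cof1 {n : ℕ} : (cod (0 : Fin (n + 1))).comp (cof 1) = (OrderHom.id : Mor n n) := by
  apply OrderHom.ext
  funext i
  show (cod (0 : Fin (n + 1))) ((1 : Fin (n + 2)).succAbove i) = i
  refine Fin.cases ?_ (fun i' => ?_) i
  · have : (1 : Fin (n + 2)).succAbove 0 = 0 := by
      apply Fin.ext
      simp [Fin.succAbove]
    rw [this, cod0_zero]
  · have : (1 : Fin (n + 2)).succAbove i'.succ = (i'.succ).succ := by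
      apply Fin.ext
      simp [Fin.succAbove, Fin.lt_def]
    rw [this, cod0_succ]

/-- `cod 0 ∘ sh (cof 0) = id`. -/
theorem cod0_sh0 {n : ℕ} : (cod (0 : Fin (n + 2))).comp (sh (cof (0 : Fin (n + 2)))) =
    (OrderHom.id : Mor (n + 1) (n + 1)) := by
  apply OrderHom.ext
  funext j
  refine Fin.cases ?_ (fun j' => ?_) j
  · show (cod (0 : Fin (n + 2))) 0 = 0
    exact cod0_zero
  · show (cod (0 : Fin (n + 2))) ((0 : Fin (n + 2)).succAbove j').succ = j'.succ
    rw [cod0_succ, Fin.zero_succAbove]

/-- `cod 0 ∘ sh (cof (i+1)) = cof (i+1) ∘ cod 0`. -/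
theorem cod0_shs {n : ℕ} (i : Fin (n + 1)) :
    (cod (0 : Fin (n + 2))).comp (sh (cof i.succ)) = (cof i.succ).comp (cod (0 : Fin (n + 1))) := by
  apply OrderHom.ext
  funext j
  refine Fin.cases ?_ (fun j' => ?_) j
  · show (cod (0 : Fin (n + 2))) 0 = i.succ.succAbove ((cod (0 : Fin (n + 1))) 0)
    rw [cod0_zero, cod0_zero, Fin.succ_succAbove_zero]
  · show (cod (0 : Fin (n + 2))) (i.succ.succAbove j').succ =
      i.succ.succAbove ((cod (0 : Fin (n + 1))) j'.succ)
    rw [cod0_succ, cod0_succ]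

/-- `sh (cof 0) ∘ cof 1 = sh (cof 1) ∘ cof 1`. -/
theorem sh_cof1 : (sh (cof (0 : Fin 2))).comp (cof 1) = (sh (cof (1 : Fin 2))).comp (cof 1) := by
  apply OrderHom.ext
  funext j
  have hj : j = 0 := Fin.ext (by omega)
  subst hj
  rfl

/-! ### Decalage of cosimplicial vector spaces -/

/-- Decalage. -/
abbrev Dec (C : CM) : CM where
  X n := C.X (n + 1)
  map a := C.map (sh a)
  map_id x := by rw [sh_id, C.map_id]
  map_comp f g x := by rw [sh_comp, C.map_comp]

theorem dec_h0 (C : CM) (x : C.X 1) :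
    C.map (cod 0) ((Dec C).delta 0 x) = x + C.map (cof 1) (C.map (cod 0) x) := by
  rw [CM.delta_apply, map_sum, Fin.sum_univ_succ]
  congr 1
  · show C.map (cod 0) (C.map (sh (cof 0)) x) = x
    rw [← C.map_comp, cod0_sh0, C.map_id]
  · rw [Fin.sum_univ_one]
    show C.map (cod 0) (C.map (sh (cof (0 : Fin 1).succ)) x) = C.map (cof 1) (C.map (cod 0) x)
    rw [← C.map_comp, cod0_shs, C.map_comp]
    rfl

theorem dec_h (C : CM) (n : ℕ) (x : C.X (n + 2)) :
    C.map (cod 0) ((Dec C).delta (n + 1) x) = x + (Dec C).delta n (C.map (cod 0) x) := by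
  rw [CM.delta_apply, map_sum, Fin.sum_univ_succ]
  congr 1
  · show C.map (cod 0) (C.map (sh (cof 0)) x) = x
    rw [← C.map_comp, cod0_sh0, C.map_id]
  · rw [CM.delta_apply]
    refine Finset.sum_congr rfl fun i _ => ?_
    show C.map (cod 0) (C.map (sh (cof i.succ)) x) = C.map (sh (cof i)) (C.map (cod 0) x)
    rw [← C.map_comp, cod0_shs, C.map_comp, sh_cof]

theorem dec_eta (C : CM) (a : C.X 0) : (Dec C).delta 0 (C.map (cof 1) a) = 0 := by
  rw [CM.delta_apply, Fin.sum_univ_two]
  show C.map (sh (cof 0)) (C.map (cof 1) a) + C.map (sh (cof 1)) (C.map (cof 1) a) = 0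
  rw [← C.map_comp, ← C.map_comp, sh_cof1]
  exact mod_two _

/-! ### Bicosimplicial vector spaces -/

/-- Maps of bicosimplicial vector spaces. -/
structure BHom (M N : BCM) where
  f : ∀ p q : ℕ, M.X p q →ₗ[k] N.X p q
  nat : ∀ {p p' q q' : ℕ} (a : Mor p p') (b : Mor q q') (x : M.X p q),
    f p' q' (M.map a b x) = N.map a b (f p q x)

/-- Horizontal decalage. -/
abbrev DH (M : BCM) : BCM where
  X p q := M.X (p + 1) q
  map a b := M.map (sh a) b
  map_id x := by rw [sh_id, M.map_id]
  map_comp f f' g g' x := by rw [sh_comp, M.map_comp]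

/-- Vertical decalage. -/
abbrev DV (M : BCM) : BCM where
  X p q := M.X p (q + 1)
  map a b := M.map a (sh b)
  map_id x := by rw [sh_id, M.map_id]
  map_comp f f' g g' x := by rw [sh_comp, M.map_comp]

/-- The embedding in the horizontal decalage. -/
def iH (M : BCM) : BHom M (DH M) where
  f p q := M.map (cof 0) OrderHom.id
  nat a b x := by
    show M.map (cof 0) OrderHom.id (M.map a b x) = M.map (sh a) b (M.map (cof 0) OrderHom.id x)
    rw [← M.map_comp, ← M.map_comp, sh_cof0]
    rfl

/-- The embedding in the vertical decalage. -/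
def iV (M : BCM) : BHom M (DV M) where
  f p q := M.map OrderHom.id (cof 0)
  nat a b x := by
    show M.map OrderHom.id (cof 0) (M.map a b x) = M.map a (sh b) (M.map OrderHom.id (cof 0) x)
    rw [← M.map_comp, ← M.map_comp, sh_cof0]
    rfl

theorem iH_inj (M : BCM) (p q : ℕ) : Function.Injective ((iH M).f p q) := by
  intro x y h
  have h1 : M.map (cof 0) OrderHom.id x = M.map (cof 0) OrderHom.id y := h
  have h2 := congrArg (M.map (cod 0) OrderHom.id) h1
  rw [← M.map_comp, ← M.map_comp, cod0_cof0] at h2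
  have h3 : M.map OrderHom.id OrderHom.id x = M.map OrderHom.id OrderHom.id y := h2
  rwa [M.map_id, M.map_id] at h3

theorem iV_inj (M : BCM) (p q : ℕ) : Function.Injective ((iV M).f p q) := by
  intro x y h
  have h1 : M.map OrderHom.id (cof 0) x = M.map OrderHom.id (cof 0) y := h
  have h2 := congrArg (M.map OrderHom.id (cod 0)) h1
  rw [← M.map_comp, ← M.map_comp, cod0_cof0] at h2
  have h3 : M.map OrderHom.id OrderHom.id x = M.map OrderHom.id OrderHom.id y := h2
  rwa [M.map_id, M.map_id] at h3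

/-- The cokernel. -/
abbrev coker {M N : BCM} (g : BHom M N) : BCM where
  X p q := N.X p q ⧸ LinearMap.range (g.f p q)
  map {p p' q q'} a b := Submodule.mapQ _ _ (N.map a b) (by
    rintro _ ⟨x, rfl⟩
    exact ⟨M.map a b x, g.nat a b x⟩)
  map_id {p q} x := by
    obtain ⟨y, rfl⟩ := Submodule.Quotient.mk_surjective _ x
    show Submodule.Quotient.mk (N.map OrderHom.id OrderHom.id y) = Submodule.Quotient.mk y
    rw [N.map_id]
  map_comp {p p' p'' q q' q''} a a' b b' x := by
    obtain ⟨y, rfl⟩ := Submodule.Quotient.mk_surjective _ x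
    show Submodule.Quotient.mk (N.map (a'.comp a) (b'.comp b) y) =
      Submodule.Quotient.mk (N.map a' b' (N.map a b y))
    rw [N.map_comp]

/-- The projection onto the cokernel. -/
def prj {M N : BCM} (g : BHom M N) : BHom N (coker g) where
  f p q := Submodule.mkQ _
  nat a b x := rfl

/-- Decalage of maps. -/
def DHmap {M N : BCM} (g : BHom M N) : BHom (DH M) (DH N) where
  f p q := g.f (p + 1) q
  nat a b x := g.nat (sh a) b x

/-- Action on families. -/
def BHom.tot {M N : BCM} (g : BHom M N) (x : ∀ p q, M.X p q) : ∀ p q, N.X p q :=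
  fun p q => g.f p q (x p q)

theorem dh_apply (M : BCM) (p q : ℕ) (x : M.X p q) :
    M.dc.dh p q x = ∑ i : Fin (p + 2), M.map (cof i) OrderHom.id x :=
  CM.delta_apply (M.row q) p x

theorem dv_apply (M : BCM) (p q : ℕ) (x : M.X p q) :
    M.dc.dv p q x = ∑ i : Fin (q + 2), M.map OrderHom.id (cof i) x :=
  CM.delta_apply (M.col p) q x

theorem dh_nat {M N : BCM} (g : BHom M N) (p q : ℕ) (x : M.X p q) :
    N.dc.dh p q (g.f p q x) = g.f (p + 1) q (M.dc.dh p q x) := by
  rw [dh_apply, dh_apply, map_sum]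
  exact Finset.sum_congr rfl fun i _ => (g.nat _ _ _).symm

theorem dv_nat {M N : BCM} (g : BHom M N) (p q : ℕ) (x : M.X p q) :
    N.dc.dv p q (g.f p q x) = g.f p (q + 1) (M.dc.dv p q x) := by
  rw [dv_apply, dv_apply, map_sum]
  exact Finset.sum_congr rfl fun i _ => (g.nat _ _ _).symm

theorem D_nat {M N : BCM} (g : BHom M N) (x : ∀ p q, M.X p q) :
    N.dc.D (g.tot x) = g.tot (M.dc.D x) := by
  funext p q
  cases p with
  | zero =>
    cases q with
    | zero =>
      show (0 : N.X 0 0) = g.f 0 0 0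
      rw [map_zero]
    | succ q => exact dv_nat g 0 q (x 0 q)
  | succ p =>
    cases q with
    | zero => exact dh_nat g p 0 (x p 0)
    | succ q =>
      show N.dc.dh p (q + 1) (g.f p (q + 1) (x p (q + 1))) +
        N.dc.dv (p + 1) q (g.f (p + 1) q (x (p + 1) q)) =
        g.f (p + 1) (q + 1) (M.dc.dh p (q + 1) (x p (q + 1)) + M.dc.dv (p + 1) q (x (p + 1) q))
      rw [dh_nat, dv_nat, map_add]

theorem AW_nat {M N : BCM} (g : BHom M N) (n : ℕ) (x : ∀ p q, M.X p q) :
    N.AW n (g.tot x) = g.f n n (M.AW n x) := by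
  unfold BCM.AW
  rw [map_sum]
  exact Finset.sum_congr rfl fun p _ => (g.nat _ _ _).symm

theorem AW_add (M : BCM) (n : ℕ) (x y : ∀ p q, M.X p q) :
    M.AW n (fun p q => x p q + y p q) = M.AW n x + M.AW n y := by
  unfold BCM.AW
  rw [← Finset.sum_add_distrib]
  exact Finset.sum_congr rfl fun p _ => map_add _ _ _

theorem AW_eq_zero (M : BCM) (n : ℕ) (x : ∀ p q, M.X p q)
    (h : ∀ p q, p + q = n → x p q = 0) : M.AW n x = 0 := by
  unfold BCM.AW
  refine Finset.sum_eq_zero fun p hp => ?_
  rw [Finset.mem_range] at hp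
  rw [h p (n - p) (by omega), map_zero]

theorem AW_zero (M : BCM) (x : ∀ p q, M.X p q) : M.AW 0 x = x 0 0 := by
  unfold BCM.AW
  rw [Finset.sum_range_one]
  show M.map (fr 0 0) (bk 0 0) (x 0 0) = x 0 0
  have h1 : fr 0 0 = OrderHom.id := fr_self 0
  have h2 : bk 0 0 = OrderHom.id := bk_self 0
  rw [h1, h2, M.map_id]

theorem D_add (M : BCM) (x y : ∀ p q, M.X p q) :
    M.dc.D (fun p q => x p q + y p q) = fun p q => M.dc.D x p q + M.dc.D y p q := by
  funext p q
  cases p with
  | zero =>
    cases q with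
    | zero =>
      show (0 : M.X 0 0) = 0 + 0
      rw [add_zero]
    | succ q => exact map_add _ _ _
  | succ p =>
    cases q with
    | zero => exact map_add _ _ _
    | succ q =>
      show M.dc.dh p (q + 1) (x p (q + 1) + y p (q + 1)) +
        M.dc.dv (p + 1) q (x (p + 1) q + y (p + 1) q) =
        (M.dc.dh p (q + 1) (x p (q + 1)) + M.dc.dv (p + 1) q (x (p + 1) q)) +
        (M.dc.dh p (q + 1) (y p (q + 1)) + M.dc.dv (p + 1) q (y (p + 1) q))
      rw [map_add, map_add]
      abel

theorem D_D (M : BCM) (x : ∀ p q, M.X p q) : M.dc.D (M.dc.D x) = 0 := by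
  funext p q
  cases p with
  | zero =>
    cases q with
    | zero => rfl
    | succ q =>
      cases q with
      | zero =>
        show M.dc.dv 0 0 0 = 0
        exact map_zero _
      | succ q => exact M.dc.dvv 0 q (x 0 q)
  | succ p =>
    cases q with
    | zero =>
      cases p with
      | zero =>
        show M.dc.dh 0 0 0 = 0
        exact map_zero _
      | succ p => exact M.dc.dhh p 0 (x p 0)
    | succ q =>
      show M.dc.dh p (q + 1) (M.dc.D x p (q + 1)) + M.dc.dv (p + 1) q (M.dc.D x (p + 1) q) = 0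
      have h1 : M.dc.dh p (q + 1) (M.dc.D x p (q + 1)) =
          M.dc.dh p (q + 1) (M.dc.dv p q (x p q)) := by
        cases p with
        | zero => rfl
        | succ p =>
          show M.dc.dh (p + 1) (q + 1) (M.dc.dh p (q + 1) (x p (q + 1)) +
            M.dc.dv (p + 1) q (x (p + 1) q)) = _
          rw [map_add, M.dc.dhh, zero_add]
      have h2 : M.dc.dv (p + 1) q (M.dc.D x (p + 1) q) =
          M.dc.dv (p + 1) q (M.dc.dh p q (x p q)) := by
        cases q with
        | zero => rfl
        | succ q =>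
          show M.dc.dv (p + 1) (q + 1) (M.dc.dh p (q + 1) (x p (q + 1)) +
            M.dc.dv (p + 1) q (x (p + 1) q)) = _
          rw [map_add, M.dc.dvv, add_zero]
      rw [h1, h2, M.dc.comm]
      exact mod_two _

/-! ### The cone -/

/-- The differential of the diagonal on families. -/
def dd (M : BCM) (y : ∀ n, M.X n n) : ∀ n, M.X n n
  | 0 => 0
  | n + 1 => M.diag.delta n (y n)

/-- Exactness of the cone in degree `m`. -/
def CE (M : BCM) (m : ℕ) : Prop := ∀ (x : ∀ p q, M.X p q) (y : ∀ n, M.X n n),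
  (∀ p q, p + q ≠ m → x p q = 0) → (∀ n, n + 1 ≠ m → y n = 0) → M.dc.D x = 0 →
  (∀ n, M.AW n x + dd M y n = 0) →
  ∃ (x' : ∀ p q, M.X p q) (y' : ∀ n, M.X n n), (∀ p q, p + q + 1 ≠ m → x' p q = 0) ∧
    (∀ n, n + 2 ≠ m → y' n = 0) ∧ M.dc.D x' = x ∧ ∀ n, M.AW n x' + dd M y' n = y n

theorem CE_zero (M : BCM) : CE M 0 := by
  intro x y hx hy _ hA
  have h0 : x 0 0 = 0 := by
    have h1 := hA 0
    rw [AW_zero] at h1
    have h2 : x 0 0 + 0 = 0 := h1
    rwa [add_zero] at h2
  have hx0 : x = fun _ _ => 0 := by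
    funext p q
    by_cases h : p + q = 0
    · have hp : p = 0 := by omega
      have hq : q = 0 := by omega
      subst hp
      subst hq
      exact h0
    · exact hx p q h
  have hy0 : y = fun _ => 0 := by
    funext n
    exact hy n (by omega)
  refine ⟨fun _ _ => 0, fun _ => 0, fun _ _ _ => rfl, fun _ _ => rfl, ?_, ?_⟩
  · rw [hx0]
    funext p q
    cases p with
    | zero =>
      cases q with
      | zero => rfl
      | succ q => exact map_zero _
    | succ p =>
      cases q with
      | zero => exact map_zero _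
      | succ q =>
        show M.dc.dh p (q + 1) 0 + M.dc.dv (p + 1) q 0 = 0
        rw [map_zero, map_zero, add_zero]
  · intro n
    rw [hy0, AW_eq_zero M n _ (fun _ _ _ => rfl), zero_add]
    cases n with
    | zero => rfl
    | succ n => exact map_zero _

theorem dd_nat {M N : BCM} (g : BHom M N) (y : ∀ n, M.X n n) (n : ℕ) :
    dd N (fun n => g.f n n (y n)) n = g.f n n (dd M y n) := by
  cases n with
  | zero =>
    show (0 : N.X 0 0) = g.f 0 0 0
    rw [map_zero]
  | succ n =>
    show N.diag.delta n (g.f n n (y n)) = g.f (n + 1) (n + 1) (M.diag.delta n (y n))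
    rw [CM.delta_apply, CM.delta_apply, map_sum]
    exact Finset.sum_congr rfl fun i _ => (g.nat _ _ _).symm

theorem dd_add (M : BCM) (y z : ∀ n, M.X n n) (n : ℕ) :
    dd M (fun n => y n + z n) n = dd M y n + dd M z n := by
  cases n with
  | zero =>
    show (0 : M.X 0 0) = 0 + 0
    rw [add_zero]
  | succ n => exact map_add _ _ _

theorem dd_dd (M : BCM) (y : ∀ n, M.X n n) (n : ℕ) : dd M (dd M y) n = 0 := by
  cases n with
  | zero => rfl
  | succ n =>
    cases n with
    | zero => exact map_zero _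
    | succ n => exact M.diag.delta_delta n (y n)

/-- The Alexander-Whitney map commutes with the differentials on homogeneous families. -/
theorem AW_D (h : AWC_Stmt) (M : BCM) (m : ℕ) (x : ∀ p q, M.X p q)
    (hx : ∀ p q, p + q + 1 ≠ m → x p q = 0) (n : ℕ) :
    M.AW n (M.dc.D x) = dd M (fun n => M.AW n x) n := by
  cases n with
  | zero =>
    rw [AW_zero]
    rfl
  | succ n =>
    show M.AW (n + 1) (M.dc.D x) = M.diag.delta n (M.AW n x)
    by_cases hn : n + 1 = m
    · refine h M n x ?_
      intro p q hpq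
      exact hx p q (by omega)
    · have h1 : ∀ p q, p + q = n → x p q = 0 := fun p q hpq => hx p q (by omega)
      rw [AW_eq_zero M n x h1, map_zero]
      refine AW_eq_zero M (n + 1) _ ?_
      intro p q hpq
      cases p with
      | zero =>
        cases q with
        | zero => rfl
        | succ q =>
          show M.dc.dv 0 q (x 0 q) = 0
          rw [h1 0 q (by omega), map_zero]
      | succ p =>
        cases q with
        | zero =>
          show M.dc.dh p 0 (x p 0) = 0
          rw [h1 p 0 (by omega), map_zero]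
        | succ q =>
          show M.dc.dh p (q + 1) (x p (q + 1)) + M.dc.dv (p + 1) q (x (p + 1) q) = 0
          rw [h1 p (q + 1) (by omega), h1 (p + 1) q (by omega), map_zero, map_zero, add_zero]

/-- The chase in the short exact sequence of cones. -/
theorem chase (h : AWC_Stmt) {M N Q : BCM} (i : BHom M N) (π : BHom N Q)
    (hi : ∀ p q, Function.Injective (i.f p q)) (hπ : ∀ p q, Function.Surjective (π.f p q))
    (hex : ∀ p q x, π.f p q x = 0 → ∃ y, i.f p q y = x) (hz : ∀ p q x, π.f p q (i.f p q x) = 0)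
    (m : ℕ) (hN : CE N (m + 1)) (hQ : CE Q m) : CE M (m + 1) := by
  classical
  intro x y hx hy hD hA
  -- the image in N
  obtain ⟨bx, by', hbx, hby, hbD, hbA⟩ := hN (i.tot x) (fun n => i.f n n (y n))
    (fun p q hpq => by
      show i.f p q (x p q) = 0
      rw [hx p q hpq, map_zero])
    (fun n hn => by
      show i.f n n (y n) = 0
      rw [hy n hn, map_zero])
    (by
      rw [D_nat, hD]
      funext p q
      exact map_zero _)
    (fun n => by
      rw [AW_nat, dd_nat, ← map_add, hA, map_zero])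
  -- its image in Q
  obtain ⟨ax, ay, hax, hay, haD, haA⟩ := hQ (π.tot bx) (fun n => π.f n n (by' n))
    (fun p q hpq => by
      show π.f p q (bx p q) = 0
      rw [hbx p q (by omega), map_zero])
    (fun n hn => by
      show π.f n n (by' n) = 0
      rw [hby n (by omega), map_zero])
    (by
      rw [D_nat, hbD]
      funext p q
      exact hz p q _)
    (fun n => by
      rw [AW_nat, dd_nat, ← map_add, hbA]
      exact hz n n _)
  -- lift to N
  have hl1 : ∀ p q, ∃ u : N.X p q, π.f p q u = ax p q ∧ (p + q + 1 ≠ m → u = 0) := by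
    intro p q
    by_cases hpq : p + q + 1 = m
    · obtain ⟨u, hu⟩ := hπ p q (ax p q)
      exact ⟨u, hu, fun hne => absurd hpq hne⟩
    · exact ⟨0, by rw [map_zero, hax p q hpq], fun _ => rfl⟩
  have hl2 : ∀ n, ∃ u : N.X n n, π.f n n u = ay n ∧ (n + 2 ≠ m → u = 0) := by
    intro n
    by_cases hn : n + 2 = m
    · obtain ⟨u, hu⟩ := hπ n n (ay n)
      exact ⟨u, hu, fun hne => absurd hn hne⟩
    · exact ⟨0, by rw [map_zero, hay n hn], fun _ => rfl⟩
  choose ux hux hux' using hl1
  choose uy huy huy' using hl2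
  have huxt : π.tot ux = ax := by
    funext p q
    exact hux p q
  have huyt : (fun n => π.f n n (uy n)) = ay := by
    funext n
    exact huy n
  -- the difference comes from M
  have hd1 : ∀ p q, π.f p q (bx p q + N.dc.D ux p q) = 0 := by
    intro p q
    have h1 : π.tot (N.dc.D ux) = Q.dc.D ax := by rw [← D_nat, huxt]
    have h2 : π.f p q (N.dc.D ux p q) = Q.dc.D ax p q := congrFun (congrFun h1 p) q
    rw [map_add, h2, haD]
    exact mod_two _
  have hd2 : ∀ n, π.f n n (by' n + (N.AW n ux + dd N uy n)) = 0 := by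
    intro n
    have h1 : π.f n n (N.AW n ux + dd N uy n) = Q.AW n ax + dd Q ay n := by
      rw [map_add, ← AW_nat, huxt, ← dd_nat, huyt]
    rw [map_add, h1, haA]
    exact mod_two _
  choose ex hexx using fun p q => hex p q _ (hd1 p q)
  choose ey heyy using fun n => hex n n _ (hd2 n)
  have hext : i.tot ex = fun p q => bx p q + N.dc.D ux p q := by
    funext p q
    exact hexx p q
  have heyt : (fun n => i.f n n (ey n)) = fun n => by' n + (N.AW n ux + dd N uy n) := by
    funext n
    exact heyy n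
  -- homogeneity of D ux and so on
  have hDux : ∀ p q, p + q ≠ m → N.dc.D ux p q = 0 := by
    intro p q hpq
    cases p with
    | zero =>
      cases q with
      | zero => rfl
      | succ q =>
        show N.dc.dv 0 q (ux 0 q) = 0
        rw [hux' 0 q (by omega), map_zero]
    | succ p =>
      cases q with
      | zero =>
        show N.dc.dh p 0 (ux p 0) = 0
        rw [hux' p 0 (by omega), map_zero]
      | succ q =>
        show N.dc.dh p (q + 1) (ux p (q + 1)) + N.dc.dv (p + 1) q (ux (p + 1) q) = 0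
        rw [hux' p (q + 1) (by omega), hux' (p + 1) q (by omega), map_zero, map_zero, add_zero]
  have hAux : ∀ n, n + 1 ≠ m → N.AW n ux = 0 := by
    intro n hn
    exact AW_eq_zero N n ux fun p q hpq => hux' p q (by omega)
  have hduy : ∀ n, n + 1 ≠ m → dd N uy n = 0 := by
    intro n hn
    cases n with
    | zero => rfl
    | succ n =>
      show N.diag.delta n (uy n) = 0
      rw [huy' n (by omega), map_zero]
  refine ⟨ex, ey, ?_, ?_, ?_, ?_⟩
  · intro p q hpq
    apply hi p q
    rw [hexx, hbx p q hpq, hDux p q (by omega), add_zero, map_zero]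
  · intro n hn
    apply hi n n
    rw [heyy, hby n hn, hAux n (by omega), hduy n (by omega), add_zero, add_zero, map_zero]
  · funext p q
    apply hi p q
    have h1 : i.tot (M.dc.D ex) = N.dc.D (i.tot ex) := (D_nat i ex).symm
    have h2 : i.f p q (M.dc.D ex p q) = N.dc.D (i.tot ex) p q := congrFun (congrFun h1 p) q
    rw [h2, hext, D_add, hbD, D_D]
    show i.f p q (x p q) + 0 = i.f p q (x p q)
    rw [add_zero]
  · intro n
    apply hi n n
    rw [map_add, ← AW_nat, ← dd_nat, hext, heyt, AW_add, dd_add]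
    have h1 : dd N (fun n => N.AW n ux + dd N uy n) n = dd N (fun n => N.AW n ux) n := by
      rw [dd_add, dd_dd, add_zero]
    rw [h1, AW_D h N m ux (fun p q hpq => hux' p q hpq) n]
    have h2 := hbA n
    have h3 : N.AW n bx + dd N (fun n => N.AW n ux) n + (dd N by' n + dd N (fun n => N.AW n ux) n)
        = (N.AW n bx + dd N by' n) + (dd N (fun n => N.AW n ux) n + dd N (fun n => N.AW n ux) n) := by
      abel
    rw [h3, h2, mod_two, add_zero]

/-! ### The double decalage -/

theorem map_hv (M : BCM) {p p' q q' : ℕ} (a : Mor p p') (b : Mor q q') (x : M.X p q) :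
    M.map a OrderHom.id (M.map OrderHom.id b x) = M.map a b x := by
  rw [← M.map_comp]
  rfl

theorem map_vh (M : BCM) {p p' q q' : ℕ} (a : Mor p p') (b : Mor q q') (x : M.X p q) :
    M.map OrderHom.id b (M.map a OrderHom.id x) = M.map a b x := by
  rw [← M.map_comp]
  rfl

theorem ddh (M : BCM) (p q : ℕ) (x : M.X (p + 1) (q + 1)) :
    (DH (DV M)).dc.dh p q x = (Dec (M.row (q + 1))).delta p x := by
  rw [dh_apply, CM.delta_apply]
  refine Finset.sum_congr rfl fun i _ => ?_
  show M.map (sh (cof i)) (sh OrderHom.id) x = M.map (sh (cof i)) OrderHom.id x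
  rw [sh_id]

theorem ddv (M : BCM) (p q : ℕ) (x : M.X (p + 1) (q + 1)) :
    (DH (DV M)).dc.dv p q x = (Dec (M.col (p + 1))).delta q x := by
  rw [dv_apply, CM.delta_apply]
  refine Finset.sum_congr rfl fun i _ => ?_
  show M.map (sh OrderHom.id) (sh (cof i)) x = M.map OrderHom.id (sh (cof i)) x
  rw [sh_id]

/-- vertical differentials commute with horizontal operators -/
theorem dv_h (M : BCM) (p p' q : ℕ) (a : Mor p p') (x : M.X p (q + 1)) :
    (Dec (M.col p')).delta q (M.map a OrderHom.id x) =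
      M.map a OrderHom.id ((Dec (M.col p)).delta q x) := by
  rw [CM.delta_apply, CM.delta_apply, map_sum]
  refine Finset.sum_congr rfl fun i _ => ?_
  show M.map OrderHom.id (sh (cof i)) (M.map a OrderHom.id x) =
    M.map a OrderHom.id (M.map OrderHom.id (sh (cof i)) x)
  rw [map_vh, map_hv]

/-- The contraction. -/
def HH (M : BCM) (x : ∀ p q, (DH (DV M)).X p q) : ∀ p q, (DH (DV M)).X p q
  | 0, q => M.map (cod 0) OrderHom.id (x 1 q) +
      M.map (cof 1) OrderHom.id (M.map OrderHom.id (cod 0) (M.map (cod 0) OrderHom.id (x 0 (q + 1))))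
  | p + 1, q => M.map (cod 0) OrderHom.id (x (p + 2) q)

theorem HH_zero (M : BCM) (x : ∀ p q, (DH (DV M)).X p q) (q : ℕ) : HH M x 0 q =
    M.map (cod 0) OrderHom.id (x 1 q) +
      M.map (cof 1) OrderHom.id (M.map OrderHom.id (cod 0)
        (M.map (cod 0) OrderHom.id (x 0 (q + 1)))) := rfl

theorem HH_succ (M : BCM) (x : ∀ p q, (DH (DV M)).X p q) (p q : ℕ) : HH M x (p + 1) q =
    M.map (cod 0) OrderHom.id (x (p + 2) q) := rfl

/-- horizontal part of the contraction: `dh (HH x) = hh (dh x) + x` without the `η` terms -/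
theorem dh_HH (M : BCM) (x : ∀ p q, (DH (DV M)).X p q) (p q : ℕ) :
    (DH (DV M)).dc.dh p q (HH M x p q) =
      (Dec (M.row (q + 1))).delta p (M.map (cod 0) OrderHom.id (x (p + 1) q)) := by
  rw [ddh]
  cases p with
  | zero =>
    rw [HH_zero, map_add]
    have h1 : (Dec (M.row (q + 1))).delta 0 (M.map (cof 1) OrderHom.id (M.map OrderHom.id (cod 0)
        (M.map (cod 0) OrderHom.id (x 0 (q + 1))))) = 0 := dec_eta (M.row (q + 1)) _
    rw [h1, add_zero]
  | succ p => rfl

theorem D_HH (M : BCM) (x : ∀ p q, (DH (DV M)).X p q) (h0 : x 0 0 = 0)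
    (hD : (DH (DV M)).dc.D x = 0) : (DH (DV M)).dc.D (HH M x) = x := by
  have hc1 : ∀ q, (Dec (M.col 1)).delta q (x 0 q) = 0 := by
    intro q
    have h1 := congrFun (congrFun hD 0) (q + 1)
    have h2 : (DH (DV M)).dc.dv 0 q (x 0 q) = 0 := h1
    rwa [ddv] at h2
  have hc2 : ∀ p, (Dec (M.row 1)).delta p (x p 0) = 0 := by
    intro p
    have h1 := congrFun (congrFun hD (p + 1)) 0
    have h2 : (DH (DV M)).dc.dh p 0 (x p 0) = 0 := h1
    rwa [ddh] at h2
  have hc3 : ∀ p q, (Dec (M.row (q + 2))).delta p (x p (q + 1)) =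
      (Dec (M.col (p + 2))).delta q (x (p + 1) q) := by
    intro p q
    have h1 := congrFun (congrFun hD (p + 1)) (q + 1)
    have h2 : (DH (DV M)).dc.dh p (q + 1) (x p (q + 1)) +
      (DH (DV M)).dc.dv (p + 1) q (x (p + 1) q) = 0 := h1
    rw [ddh, ddv] at h2
    exact mod_two_eq h2
  funext p q
  cases p with
  | zero =>
    cases q with
    | zero => exact h0.symm
    | succ q =>
      show (DH (DV M)).dc.dv 0 q (HH M x 0 q) = x 0 (q + 1)
      rw [ddv, HH_zero, map_add]
      have e1 : (Dec (M.col 1)).delta q (M.map (cod 0) OrderHom.id (x 1 q)) =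
          x 0 (q + 1) + M.map (cof 1) OrderHom.id (M.map (cod 0) OrderHom.id (x 0 (q + 1))) := by
        rw [dv_h M 2 1 q (cod 0) (x 1 q), ← hc3 0 q]
        exact dec_h0 (M.row (q + 2)) (x 0 (q + 1))
      have e2 : (Dec (M.col 1)).delta q (M.map (cof 1) OrderHom.id (M.map OrderHom.id (cod 0)
          (M.map (cod 0) OrderHom.id (x 0 (q + 1))))) =
          M.map (cof 1) OrderHom.id (M.map (cod 0) OrderHom.id (x 0 (q + 1))) := by
        rw [dv_h M 0 1 q (cof 1)]
        congr 1
        have e3 : (Dec (M.col 0)).delta (q + 1) (M.map (cod 0) OrderHom.id (x 0 (q + 1))) = 0 := by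
          rw [dv_h M 1 0 (q + 1) (cod 0), hc1, map_zero]
        have e4 := dec_h (M.col 0) q (M.map (cod 0) OrderHom.id (x 0 (q + 1)))
        rw [e3, map_zero] at e4
        exact (mod_two_eq e4.symm).symm
      have e5 : (Dec (M.col (0 + 1))).delta q (M.map (cod 0) OrderHom.id (x 1 q)) +
          (Dec (M.col (0 + 1))).delta q (M.map (cof 1) OrderHom.id (M.map OrderHom.id (cod 0)
          (M.map (cod 0) OrderHom.id (x 0 (q + 1))))) =
          (x 0 (q + 1) + M.map (cof 1) OrderHom.id (M.map (cod 0) OrderHom.id (x 0 (q + 1)))) +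
          M.map (cof 1) OrderHom.id (M.map (cod 0) OrderHom.id (x 0 (q + 1))) := by
        rw [← e1, ← e2]
      refine e5.trans ?_
      rw [add_assoc, mod_two, add_zero]
  | succ p =>
    cases q with
    | zero =>
      show (DH (DV M)).dc.dh p 0 (HH M x p 0) = x (p + 1) 0
      rw [dh_HH]
      have e4 := dec_h (M.row 1) p (x (p + 1) 0)
      have e5 : (Dec (M.row 1)).delta (p + 1) (x (p + 1) 0) = 0 := hc2 (p + 1)
      rw [e5, map_zero] at e4
      exact (mod_two_eq e4.symm).symm
    | succ q =>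
      show (DH (DV M)).dc.dh p (q + 1) (HH M x p (q + 1)) +
        (DH (DV M)).dc.dv (p + 1) q (HH M x (p + 1) q) = x (p + 1) (q + 1)
      rw [dh_HH, ddv, HH_succ]
      have e1 : (Dec (M.col (p + 1 + 1))).delta q (M.map (cod 0) OrderHom.id (x (p + 2) q)) =
          x (p + 1) (q + 1) + (Dec (M.row (q + 2))).delta p
            (M.map (cod 0) OrderHom.id (x (p + 1) (q + 1))) := by
        rw [dv_h M (p + 3) (p + 2) q (cod 0) (x (p + 2) q)]
        have e2 := hc3 (p + 1) q
        have e3 := dec_h (M.row (q + 2)) p (x (p + 1) (q + 1))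
        rw [← e3]
        exact congrArg (M.map (cod 0) OrderHom.id) e2.symm
      rw [e1, add_comm (x (p + 1) (q + 1)), ← add_assoc, mod_two, zero_add]

/-- The family with the only component `z` in degree `(0,0)`. -/
def E0 (N : BCM) (z : N.X 0 0) : ∀ p q, N.X p q
  | 0, 0 => z
  | 0, _ + 1 => 0
  | _ + 1, _ => 0

theorem E0_eq (N : BCM) (z : N.X 0 0) (p q : ℕ) (h : p + q ≠ 0) : E0 N z p q = 0 := by
  cases p with
  | zero =>
    cases q with
    | zero => exact absurd rfl h
    | succ q => rfl
  | succ p => rfl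

/-- Exactness of the cone for the double decalage. -/
theorem CE_DD (h : AWC_Stmt) (M : BCM) (m : ℕ) : CE (DH (DV M)) m := by
  cases m with
  | zero => exact CE_zero _
  | succ m =>
    intro x y hx hy hD hA
    have h0 : x 0 0 = 0 := hx 0 0 (by omega)
    have hDH := D_HH M x h0 hD
    have hHx : ∀ p q, p + q + 1 ≠ m + 1 → HH M x p q = 0 := by
      intro p q hpq
      cases p with
      | zero =>
        rw [HH_zero, hx 1 q (by omega), hx 0 (q + 1) (by omega)]
        simp only [map_zero, add_zero]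
      | succ p => rw [HH_succ, hx (p + 2) q (by omega), map_zero]
    set z : ∀ n, (DH (DV M)).X n n := fun n => (DH (DV M)).AW n (HH M x) + y n with hz
    have hzm : ∀ n, n ≠ m → z n = 0 := by
      intro n hn
      show (DH (DV M)).AW n (HH M x) + y n = 0
      rw [AW_eq_zero _ n _ (fun p q hpq => hHx p q (by omega)), hy n (by omega), add_zero]
    have hdz : ∀ n, dd (DH (DV M)) z n = 0 := by
      intro n
      rw [hz, dd_add, ← AW_D h _ (m + 1) (HH M x) hHx n, hDH]
      exact hA n
    cases m with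
    | zero =>
      -- degree zero: z comes from the augmentation
      have e1 := dec_h0 M.diag (z 0)
      have e2 : (Dec M.diag).delta 0 (z 0) = 0 := hdz 1
      rw [e2, map_zero] at e1
      have e3 : z 0 = M.map (cof 1) (cof 1) (M.map (cod 0) (cod 0) (z 0)) := mod_two_eq e1.symm
      refine ⟨fun p q => HH M x p q + E0 (DH (DV M)) (z 0) p q, fun _ => 0, ?_, fun _ _ => rfl,
        ?_, ?_⟩
      · intro p q hpq
        show HH M x p q + E0 (DH (DV M)) (z 0) p q = 0
        rw [hHx p q hpq, E0_eq _ _ p q (by omega), add_zero]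
      · rw [D_add, hDH]
        have hh : (DH (DV M)).dc.dh 0 0 (z 0) = 0 := by
          rw [ddh, e3, ← map_hv]
          exact dec_eta (M.row 1) _
        have hv : (DH (DV M)).dc.dv 0 0 (z 0) = 0 := by
          rw [ddv, e3, ← map_vh]
          exact dec_eta (M.col 1) _
        have e4 : (DH (DV M)).dc.D (E0 (DH (DV M)) (z 0)) = 0 := by
          funext p q
          cases p with
          | zero =>
            cases q with
            | zero => rfl
            | succ q =>
              cases q with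
              | zero => exact hv
              | succ q => exact map_zero _
          | succ p =>
            cases q with
            | zero =>
              cases p with
              | zero => exact hh
              | succ p => exact map_zero _
            | succ q =>
              show (DH (DV M)).dc.dh p (q + 1) (E0 (DH (DV M)) (z 0) p (q + 1)) +
                (DH (DV M)).dc.dv (p + 1) q (E0 (DH (DV M)) (z 0) (p + 1) q) = 0
              rw [E0_eq _ _ p (q + 1) (by omega), E0_eq _ _ (p + 1) q (by omega), map_zero,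
                map_zero, add_zero]
        rw [e4]
        funext p q
        show x p q + 0 = x p q
        rw [add_zero]
      · intro n
        have e6 : dd (DH (DV M)) (fun _ => 0) n = 0 := by
          cases n with
          | zero => rfl
          | succ n => exact map_zero _
        rw [e6, add_zero, AW_add]
        cases n with
        | zero =>
          rw [AW_zero (DH (DV M)) (E0 (DH (DV M)) (z 0))]
          show (DH (DV M)).AW 0 (HH M x) + ((DH (DV M)).AW 0 (HH M x) + y 0) = y 0
          rw [← add_assoc, mod_two, zero_add]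
        | succ n =>
          rw [AW_eq_zero (DH (DV M)) (n + 1) (HH M x) (fun p q hpq => hHx p q (by omega)),
            AW_eq_zero (DH (DV M)) (n + 1) (E0 (DH (DV M)) (z 0))
              (fun p q hpq => E0_eq _ _ p q (by omega)),
            hy (n + 1) (by omega), add_zero]
    | succ m =>
      refine ⟨HH M x, fun n => M.map (cod 0) (cod 0) (z (n + 1)), hHx, ?_, hDH, ?_⟩
      · intro n hn
        show M.map (cod 0) (cod 0) (z (n + 1)) = 0
        rw [hzm (n + 1) (by omega), map_zero]
      · intro n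
        have e1 : dd (DH (DV M)) (fun n => M.map (cod 0) (cod 0) (z (n + 1))) n = z n := by
          cases n with
          | zero => exact (hzm 0 (by omega)).symm
          | succ n =>
            have e2 := dec_h M.diag n (z (n + 1))
            have e3 : (Dec M.diag).delta (n + 1) (z (n + 1)) = 0 := hdz (n + 2)
            rw [e3, map_zero] at e2
            exact (mod_two_eq e2.symm).symm
        rw [e1]
        show (DH (DV M)).AW n (HH M x) + ((DH (DV M)).AW n (HH M x) + y n) = y n
        rw [← add_assoc, mod_two, zero_add]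

theorem CE_DH (h : AWC_Stmt) (m : ℕ) : ∀ M : BCM, CE (DH M) m := by
  induction m with
  | zero => exact fun M => CE_zero _
  | succ m ih =>
    intro M
    refine chase h (DHmap (iV M)) (DHmap (prj (iV M))) (fun p q => iV_inj M (p + 1) q)
      (fun p q => Submodule.mkQ_surjective _) ?_ ?_ m (CE_DD h M (m + 1)) (ih (coker (iV M)))
    · intro p q x hx
      have h1 : x ∈ LinearMap.range ((iV M).f (p + 1) q) :=
        (Submodule.Quotient.mk_eq_zero _).1 hx
      exact h1
    · intro p q x
      exact (Submodule.Quotient.mk_eq_zero _).2 ⟨x, rfl⟩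

theorem CE_all (h : AWC_Stmt) (m : ℕ) : ∀ M : BCM, CE M m := by
  induction m with
  | zero => exact fun M => CE_zero _
  | succ m ih =>
    intro M
    refine chase h (iH M) (prj (iH M)) (fun p q => iH_inj M p q)
      (fun p q => Submodule.mkQ_surjective _) ?_ ?_ m (CE_DH h (m + 1) M) (ih (coker (iH M)))
    · intro p q x hx
      have h1 : x ∈ LinearMap.range ((iH M).f p q) := (Submodule.Quotient.mk_eq_zero _).1 hx
      exact h1
    · intro p q x
      exact (Submodule.Quotient.mk_eq_zero _).2 ⟨x, rfl⟩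

end EZ

open EZ in
theorem EZ (h : AWC_Stmt) : EZ_Stmt := by
  classical
  intro M n
  constructor
  · intro z hz
    obtain ⟨x', y', hx', hy', hD, hA⟩ := CE_all h (n + 1) M (fun _ _ => 0)
      (Pi.single (M := fun n => M.X n n) n z)
      (fun _ _ _ => rfl) (fun n' hn' => Pi.single_eq_of_ne (M := fun n => M.X n n) (show n' ≠ n by omega) z)
      (by
        funext p q
        cases p with
        | zero =>
          cases q with
          | zero => rfl
          | succ q => exact map_zero _
        | succ p =>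
          cases q with
          | zero => exact map_zero _
          | succ q =>
            show M.dc.dh p (q + 1) 0 + M.dc.dv (p + 1) q 0 = 0
            rw [map_zero, map_zero, add_zero])
      (fun n' => by
        rw [AW_eq_zero M n' _ (fun _ _ _ => rfl), zero_add]
        cases n' with
        | zero => rfl
        | succ n' =>
          show M.diag.delta n' ((Pi.single n z : ∀ n, M.X n n) n') = 0
          by_cases hn : n' = n
          · subst hn
            rw [Pi.single_eq_same]
            exact hz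
          · rw [Pi.single_eq_of_ne hn, map_zero])
    refine ⟨x', ⟨fun p q hpq => hx' p q (by omega), ?_⟩, ?_⟩
    · exact hD
    · have h1 := hA n
      rw [Pi.single_eq_same] at h1
      rw [← h1, add_sub_cancel_left]
      cases n with
      | zero => exact (CC.B M.diag.cc 0).zero_mem
      | succ n => exact ⟨y' n, rfl⟩
  · rintro x ⟨hx, hD⟩ hB
    cases n with
    | zero =>
      have h1 : M.AW 0 x = 0 := hB
      rw [AW_zero] at h1
      have h2 : x = 0 := by
        funext p q
        by_cases hpq : p + q = 0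
        · have hp : p = 0 := by omega
          have hq : q = 0 := by omega
          subst hp
          subst hq
          exact h1
        · exact hx p q hpq
      rw [h2]
      exact Submodule.zero_mem _
    | succ n =>
      obtain ⟨v, hv⟩ := hB
      obtain ⟨x', y', hx', hy', hD', hA⟩ := CE_all h (n + 1) M x
        (Pi.single (M := fun n => M.X n n) n v)
        (fun p q hpq => hx p q hpq)
        (fun n' hn' => Pi.single_eq_of_ne (M := fun n => M.X n n) (show n' ≠ n by omega) v) hD
        (fun n' => by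
          cases n' with
          | zero =>
            rw [AW_eq_zero M 0 x (fun p q hpq => hx p q (by omega)), zero_add]
            rfl
          | succ n' =>
            show M.AW (n' + 1) x + M.diag.delta n' ((Pi.single n v : ∀ n, M.X n n) n') = 0
            by_cases hn : n' = n
            · subst hn
              rw [Pi.single_eq_same]
              have h3 : M.diag.delta n' v = M.AW (n' + 1) x := hv
              rw [h3]
              exact mod_two _
            · rw [Pi.single_eq_of_ne hn, map_zero, add_zero]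
              exact AW_eq_zero M (n' + 1) x fun p q hpq => hx p q (by omega))
      exact Submodule.subset_span ⟨x', fun p q hpq => hx' p q (by omega), hD'⟩

end Pool.Agent.SHS


end

section

/-!
Block III-S: normalisation of cosimplicial vector spaces.
-/

namespace Pool.Agent.SHS.Norm

/-- cofaces indexed by natural numbers -/
def cf (n i : ℕ) : Mor n (n + 1) where
  toFun x := ⟨if x.1 < i then x.1 else x.1 + 1, by split_ifs <;> omega⟩
  monotone' := by
    intro a b h
    have h' : a.1 ≤ b.1 := h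
    show (if a.1 < i then a.1 else a.1 + 1) ≤ (if b.1 < i then b.1 else b.1 + 1)
    split_ifs <;> omega

/-- codegeneracies indexed by natural numbers -/
def cd (n j : ℕ) : Mor (n + 1) n where
  toFun x := ⟨if x.1 ≤ j then min x.1 n else x.1 - 1, by split_ifs <;> omega⟩
  monotone' := by
    intro a b h
    have h' : a.1 ≤ b.1 := h
    show (if a.1 ≤ j then min a.1 n else a.1 - 1) ≤ (if b.1 ≤ j then min b.1 n else b.1 - 1)
    have := b.2
    split_ifs <;> omega

theorem mext {a b : ℕ} {f g : Mor a b} (h : ∀ x, (f x).1 = (g x).1) : f = g :=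
  OrderHom.ext _ _ (funext fun x => Fin.ext (h x))

theorem cof_eq {n : ℕ} (i : Fin (n + 2)) : cof i = cf n i.1 := by
  apply mext
  intro x
  show (i.succAbove x).1 = if x.1 < i.1 then x.1 else x.1 + 1
  rw [Fin.succAbove]
  simp only [Fin.lt_def, Fin.val_castSucc]
  split_ifs <;> rfl

theorem cod_eq {n : ℕ} (i : Fin (n + 1)) : cod i = cd n i.1 := by
  apply mext
  intro x
  show (i.predAbove x).1 = if x.1 ≤ i.1 then min x.1 n else x.1 - 1
  have hi := i.2
  rw [Fin.predAbove]
  by_cases h : i.castSucc < x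
  · rw [dif_pos h]
    have h' : i.1 < x.1 := h
    rw [if_neg (by omega)]
    rfl
  · rw [dif_neg h]
    have h' : ¬ i.1 < x.1 := h
    rw [if_pos (by omega)]
    show x.1 = _
    omega

/-- unfold compositions and compare values -/
theorem cd_cf_lt {n i j : ℕ} (h : i < j) (hj : j ≤ n + 1) :
    (cd (n + 1) j).comp (cf (n + 1) i) = (cf n i).comp (cd n (j - 1)) := by
  apply mext
  intro x
  have hx := x.2
  show (if (if x.1 < i then x.1 else x.1 + 1) ≤ j then min (if x.1 < i then x.1 else x.1 + 1) (n + 1)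
      else (if x.1 < i then x.1 else x.1 + 1) - 1)
    = (if (if x.1 ≤ j - 1 then min x.1 n else x.1 - 1) < i then
        (if x.1 ≤ j - 1 then min x.1 n else x.1 - 1)
      else (if x.1 ≤ j - 1 then min x.1 n else x.1 - 1) + 1)
  split_ifs <;> omega

theorem cd_cf_eq {n j : ℕ} (hj : j ≤ n) :
    (cd n j).comp (cf n j) = OrderHom.id := by
  apply mext
  intro x
  have hx := x.2
  show (if (if x.1 < j then x.1 else x.1 + 1) ≤ j then min (if x.1 < j then x.1 else x.1 + 1) n
      else (if x.1 < j then x.1 else x.1 + 1) - 1) = x.1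
  split_ifs <;> omega

theorem cd_cf_eq' {n j : ℕ} (hj : j ≤ n) :
    (cd n j).comp (cf n (j + 1)) = OrderHom.id := by
  apply mext
  intro x
  have hx := x.2
  show (if (if x.1 < j + 1 then x.1 else x.1 + 1) ≤ j then
      min (if x.1 < j + 1 then x.1 else x.1 + 1) n
      else (if x.1 < j + 1 then x.1 else x.1 + 1) - 1) = x.1
  split_ifs <;> omega

theorem cd_cf_gt {n i j : ℕ} (h : j < i) (hj : i ≤ n + 1) :
    (cd (n + 1) j).comp (cf (n + 1) (i + 1)) = (cf n i).comp (cd n j) := by
  apply mext
  intro x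
  have hx := x.2
  show (if (if x.1 < i + 1 then x.1 else x.1 + 1) ≤ j then
      min (if x.1 < i + 1 then x.1 else x.1 + 1) (n + 1)
      else (if x.1 < i + 1 then x.1 else x.1 + 1) - 1)
    = (if (if x.1 ≤ j then min x.1 n else x.1 - 1) < i then
        (if x.1 ≤ j then min x.1 n else x.1 - 1)
      else (if x.1 ≤ j then min x.1 n else x.1 - 1) + 1)
  split_ifs <;> omega

theorem cd_cd {n l j : ℕ} (h : l ≤ j) (hj : j ≤ n) :
    (cd n l).comp (cd (n + 1) (j + 1)) = (cd n j).comp (cd (n + 1) l) := by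
  apply mext
  intro x
  have hx := x.2
  show (if (if x.1 ≤ j + 1 then min x.1 (n + 1) else x.1 - 1) ≤ l then
      min (if x.1 ≤ j + 1 then min x.1 (n + 1) else x.1 - 1) n
      else (if x.1 ≤ j + 1 then min x.1 (n + 1) else x.1 - 1) - 1)
    = (if (if x.1 ≤ l then min x.1 (n + 1) else x.1 - 1) ≤ j then
      min (if x.1 ≤ l then min x.1 (n + 1) else x.1 - 1) n
      else (if x.1 ≤ l then min x.1 (n + 1) else x.1 - 1) - 1)
  split_ifs <;> omega

theorem delta_eq (M : CM) (n : ℕ) (x : M.X n) :
    M.delta n x = ∑ i ∈ Finset.range (n + 2), M.map (cf n i) x := by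
  rw [CM.delta_apply, ← Fin.sum_univ_eq_sum_range (fun i => M.map (cf n i) x) (n + 2)]
  refine Finset.sum_congr rfl fun i _ => ?_
  rw [cof_eq]

theorem m_lt (M : CM) {n i j : ℕ} (h : i < j) (hj : j ≤ n + 1) (x : M.X (n + 1)) :
    M.map (cd (n + 1) j) (M.map (cf (n + 1) i) x) = M.map (cf n i) (M.map (cd n (j - 1)) x) := by
  rw [← M.map_comp, cd_cf_lt h hj, M.map_comp]

theorem m_eq (M : CM) {n j : ℕ} (hj : j ≤ n) (x : M.X n) :
    M.map (cd n j) (M.map (cf n j) x) = x := by
  rw [← M.map_comp, cd_cf_eq hj, M.map_id]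

theorem m_eq' (M : CM) {n j : ℕ} (hj : j ≤ n) (x : M.X n) :
    M.map (cd n j) (M.map (cf n (j + 1)) x) = x := by
  rw [← M.map_comp, cd_cf_eq' hj, M.map_id]

theorem m_gt (M : CM) {n i j : ℕ} (h : j < i) (hj : i ≤ n + 1) (x : M.X (n + 1)) :
    M.map (cd (n + 1) j) (M.map (cf (n + 1) (i + 1)) x) = M.map (cf n i) (M.map (cd n j) x) := by
  rw [← M.map_comp, cd_cf_gt h hj, M.map_comp]

theorem m_cc (M : CM) {n l j : ℕ} (h : l ≤ j) (hj : j ≤ n) (x : M.X (n + 2)) :
    M.map (cd n l) (M.map (cd (n + 1) (j + 1)) x)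
      = M.map (cd n j) (M.map (cd (n + 1) l) x) := by
  rw [← M.map_comp, cd_cd h hj, M.map_comp]

/-- a sum over faces, where the terms with index below `l` and above `l + 1` vanish and the two
middle terms are equal -/
theorem sum_mid {A : Type*} [AddCommGroup A] [Module k A] (f : ℕ → A) (l r : ℕ)
    (h : f l = f (l + 1)) (h1 : ∀ i < l, f i = 0) :
    ∑ i ∈ Finset.range (l + 2 + r), f i = ∑ i ∈ Finset.range r, f (l + 2 + i) := by
  rw [Finset.sum_range_add, Finset.sum_range_succ, Finset.sum_range_succ,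
    Finset.sum_eq_zero fun i hi => h1 i (Finset.mem_range.1 hi), zero_add, ← h, mod_two, zero_add]

theorem key_gt (M : CM) (N l t i : ℕ) (h : l + 2 + i ≤ N + 1) (ht : l + 1 + t ≤ N)
    (x : M.X (N + 1)) (hx : M.map (cd N l) x = 0) :
    M.map (cd N l) (M.map (cf N (l + 2 + i)) (M.map (cd N (l + 1 + t)) x)) = 0 := by
  obtain ⟨n, rfl⟩ : ∃ n, N = n + 1 := ⟨N - 1, by omega⟩
  rw [show l + 2 + i = (l + 1 + i) + 1 by omega, m_gt M (by omega) (by omega),
    show l + 1 + t = (l + t) + 1 by omega, m_cc M (by omega) (by omega), hx, map_zero, map_zero]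

theorem key_lt (M : CM) (N l t i : ℕ) (hi : i < l) (ht : l + t ≤ N)
    (x : M.X (N + 1)) (hx : M.map (cd N (l - 1)) x = 0) :
    M.map (cd N l) (M.map (cf N i) (M.map (cd N (l + t)) x)) = 0 := by
  obtain ⟨n, rfl⟩ : ∃ n, N = n + 1 := ⟨N - 1, by omega⟩
  obtain ⟨l', rfl⟩ : ∃ l', l = l' + 1 := ⟨l - 1, by omega⟩
  rw [Nat.add_sub_cancel] at hx
  rw [m_lt M hi (by omega), show l' + 1 + t = (l' + t) + 1 by omega, Nat.add_sub_cancel,
    m_cc M (by omega) (by omega), hx, map_zero, map_zero]

theorem step (M : CM) (j r : ℕ) (x : M.X (j + r + 1))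
    (hK : ∀ i < j, M.map (cd (j + r) i) x = 0)
    (hd : M.map (cd (j + r + 1) j) (M.delta (j + r + 1) x) = 0) :
    ∀ i < j + 1, M.map (cd (j + r) i) (x + M.delta (j + r) (M.map (cd (j + r) j) x)) = 0 := by
  -- the sum of the high faces vanishes
  have hA : ∑ i ∈ Finset.range (r + 1), M.map (cf (j + r) (j + 1 + i))
      (M.map (cd (j + r) j) x) = 0 := by
    rw [delta_eq, map_sum] at hd
    have hlen : j + r + 1 + 2 = j + 2 + (r + 1) := by omega
    rw [hlen, sum_mid] at hd
    · rw [← hd]
      refine Finset.sum_congr rfl fun i hi => ?_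
      have hi' := Finset.mem_range.1 hi
      rw [show j + 2 + i = (j + 1 + i) + 1 by omega, m_gt M (by omega) (by omega)]
    · rw [m_eq M (by omega), m_eq' M (by omega)]
    · intro i hi
      rw [m_lt M hi (by omega), hK (j - 1) (by omega), map_zero]
  have hdel : M.delta (j + r) (M.map (cd (j + r) j) x)
      = ∑ i ∈ Finset.range (j + 1), M.map (cf (j + r) i) (M.map (cd (j + r) j) x) := by
    rw [delta_eq, show j + r + 2 = j + 1 + (r + 1) by omega, Finset.sum_range_add, hA, add_zero]
  intro l hl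
  rw [map_add, hdel, map_sum]
  rcases Nat.lt_or_ge l j with hlj | hlj
  · obtain ⟨t, ht⟩ : ∃ t, j = l + 1 + t := ⟨j - l - 1, by omega⟩
    rw [hK l hlj, zero_add, show j + 1 = l + 2 + t by omega, sum_mid]
    · refine Finset.sum_eq_zero fun i hi => ?_
      have hi' := Finset.mem_range.1 hi
      have h := key_gt M (j + r) l t i (by omega) (by omega) x (hK l hlj)
      rw [← ht] at h
      exact h
    · rw [m_eq M (by omega), m_eq' M (by omega)]
    · intro i hi
      have h := key_lt M (j + r) l (t + 1) i hi (by omega) x (hK (l - 1) (by omega))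
      rw [show l + (t + 1) = j by omega] at h
      exact h
  · have hlj' : l = j := by omega
    rw [hlj', Finset.sum_range_succ, m_eq M (by omega), Finset.sum_eq_zero, zero_add, mod_two]
    intro i hi
    have hi' := Finset.mem_range.1 hi
    exact key_lt M (j + r) j 0 i hi' (by omega) x (hK (j - 1) (by omega))

theorem all (M : CM) (m : ℕ) (x : M.X (m + 1))
    (hd : ∀ i ≤ m + 1, M.map (cd (m + 1) i) (M.delta (m + 1) x) = 0) :
    ∀ j ≤ m + 1, ∃ v : M.X m, ∀ i < j, M.map (cd m i) (x + M.delta m v) = 0 := by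
  intro j
  induction j with
  | zero =>
    intro _
    exact ⟨0, fun i hi => absurd hi (Nat.not_lt_zero i)⟩
  | succ j ih =>
    intro hj
    obtain ⟨v, hv⟩ := ih (by omega)
    obtain ⟨r, rfl⟩ : ∃ r, m = j + r := ⟨m - j, by omega⟩
    have h := step M j r (x + M.delta (j + r) v) hv (by
      rw [map_add, M.delta_delta, add_zero]
      exact hd j (by omega))
    refine ⟨v + M.map (cd (j + r) j) (x + M.delta (j + r) v), fun i hi => ?_⟩
    rw [map_add (M.delta (j + r)), ← add_assoc]
    exact h i hi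

end Pool.Agent.SHS.Norm

namespace Pool.Agent.SHS

theorem NORM : NORM_Stmt := by
  intro M m x hx
  obtain ⟨v, hv⟩ := Norm.all M m x (fun i hi => by
    have h := hx ⟨i, by omega⟩
    rw [Norm.cod_eq] at h
    exact h) (m + 1) (le_refl _)
  refine ⟨v, fun i => ?_⟩
  rw [Norm.cod_eq]
  exact hv i.1 i.2

end Pool.Agent.SHS


end

section

/-!
Block III-S: Kuenneth for cohomology rings, from the version for cochains.
-/

namespace Pool.Agent.SHS

namespace Kun

open Coch

/-- The class of a cocycle of degree `n`, as a linear map. -/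
noncomputable def clsL (X : SS) (n : ℕ) : LinearMap.ker (X.cm.delta n) →ₗ[k] H X where
  toFun φ := clsN n φ.1 φ.2
  map_add' φ ψ := clsN_add φ.1 ψ.1 φ.2 ψ.2
  map_smul' c φ := clsN_smul c φ.1 φ.2

theorem clsL_eq_zero {X : SS} {n : ℕ} (φ : LinearMap.ker (X.cm.delta n)) :
    clsL X n φ = 0 ↔ φ.1 ∈ X.cm.cc.B n := clsN_eq_zero φ.1 φ.2

section basis

variable {X : SS} {I : ℕ → Type} {z : ∀ n, I n → X.X n → k}

theorem sum_val (n : ℕ) (hz : ∀ i, X.cm.delta n (z n i) = 0) (c : I n →₀ k) :
    ((c.sum fun i a => a • (⟨z n i, hz i⟩ : LinearMap.ker (X.cm.delta n))) :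
      LinearMap.ker (X.cm.delta n)).1 = c.sum fun i a => a • z n i := by
  have h := map_finsuppSum (LinearMap.ker (X.cm.delta n)).subtype c
    (fun i a => a • (⟨z n i, hz i⟩ : LinearMap.ker (X.cm.delta n)))
  exact h

theorem sum_cls (n : ℕ) (hz : ∀ i, X.cm.delta n (z n i) = 0) (c : I n →₀ k) :
    clsL X n (c.sum fun i a => a • (⟨z n i, hz i⟩ : LinearMap.ker (X.cm.delta n))) =
      c.sum fun i a => a • clsN n (z n i) (hz i) := by
  rw [map_finsuppSum]
  refine Finsupp.sum_congr fun i _ => ?_
  rw [map_smul]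
  rfl

theorem indep_of (hz : X.cm.cc.IsBasis z) (n : ℕ) :
    LinearIndependent k (fun i : I n => clsN n (z n i) (hz.cocycle n i)) := by
  rw [linearIndependent_iff]
  intro c hc
  refine hz.indep n c ?_
  have h1 := sum_cls n (fun i => hz.cocycle n i) c
  rw [Finsupp.linearCombination_apply] at hc
  rw [hc, clsL_eq_zero, sum_val] at h1
  exact h1

theorem span_of (hz : X.cm.cc.IsBasis z) (n : ℕ) :
    Hn X n ≤ Submodule.span k (Set.range (fun i : I n => clsN n (z n i) (hz.cocycle n i))) := by
  intro a ha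
  obtain ⟨φ, hφ, rfl⟩ := exists_clsN ha
  obtain ⟨c, hc⟩ := hz.span n φ hφ
  rw [Finsupp.mem_span_range_iff_exists_finsupp]
  refine ⟨c, ?_⟩
  rw [← sum_cls n (fun i => hz.cocycle n i) c]
  have h1 : clsL X n (⟨φ, hφ⟩ - c.sum fun i a => a •
      (⟨z n i, hz.cocycle n i⟩ : LinearMap.ker (X.cm.delta n))) = 0 := by
    rw [clsL_eq_zero]
    show φ - ((c.sum fun i a => a • (⟨z n i, hz.cocycle n i⟩ :
      LinearMap.ker (X.cm.delta n))) : LinearMap.ker (X.cm.delta n)).1 ∈ _
    rw [sum_val n (fun i => hz.cocycle n i)]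
    exact hc
  rw [map_sub, sub_eq_zero] at h1
  exact h1.symm

theorem basis_of (hz : ∀ n i, X.cm.delta n (z n i) = 0)
    (h1 : ∀ n, LinearIndependent k (fun i : I n => clsN n (z n i) (hz n i)))
    (h2 : ∀ n, Hn X n ≤ Submodule.span k (Set.range (fun i : I n => clsN n (z n i) (hz n i)))) :
    X.cm.cc.IsBasis z where
  cocycle := hz
  span n w hw := by
    obtain ⟨c, hc⟩ := (Finsupp.mem_span_range_iff_exists_finsupp).1 (h2 n (clsN_mem n w hw))
    refine ⟨c, ?_⟩
    rw [← sum_cls n (hz n) c] at hc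
    have h3 : clsL X n (⟨w, hw⟩ - c.sum fun i a => a •
        (⟨z n i, hz n i⟩ : LinearMap.ker (X.cm.delta n))) = 0 := by
      rw [map_sub, hc]
      exact sub_self _
    rw [clsL_eq_zero] at h3
    rw [← sum_val n (hz n) c]
    exact h3
  indep n c hc := by
    have h3 := linearIndependent_iff.1 (h1 n) c
    refine h3 ?_
    rw [Finsupp.linearCombination_apply, ← sum_cls n (hz n) c, clsL_eq_zero, sum_val]
    exact hc

end basis

/-- Cocycles representing a homogeneous basis. -/
theorem exists_basis {X : SS} {I : Type} {di : I → ℕ} {b : I → H X} (h : HB X di b) :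
    ∃ z : ∀ n, {i // di i = n} → X.X n → k, X.cm.cc.IsBasis z ∧
      ∀ n i, ∃ hz, clsN n (z n i) hz = b i.1 := by
  have h1 : ∀ n (i : {i // di i = n}), ∃ (φ : X.X n → k) (hφ : X.cm.delta n φ = 0),
      clsN n φ hφ = b i.1 := by
    intro n i
    refine exists_clsN ?_
    have h2 := h.mem i.1
    rwa [i.2] at h2
  choose z hz hb using h1
  refine ⟨z, basis_of hz ?_ ?_, fun n i => ⟨hz n i, hb n i⟩⟩
  · intro n
    have h2 : (fun i : {i // di i = n} => clsN n (z n i) (hz n i)) = fun i => b i.1 :=
      funext fun i => hb n i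
    rw [h2]
    exact h.indep.comp _ Subtype.val_injective
  · intro n
    have h2 : (fun i : {i // di i = n} => clsN n (z n i) (hz n i)) = fun i => b i.1 :=
      funext fun i => hb n i
    rw [h2]
    refine (h.span n).trans (Submodule.span_mono ?_)
    rintro _ ⟨i, hi, rfl⟩
    exact ⟨⟨i, hi⟩, rfl⟩

/-- Degreewise independence suffices. -/
theorem indep_of_degrees {X : SS} {I : Type} {d : I → ℕ} {b : I → H X} (hm : ∀ i, b i ∈ Hn X (d i))
    (h : ∀ n, LinearIndependent k (fun i : {i // d i = n} => b i.1)) : LinearIndependent k b := by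
  classical
  rw [linearIndependent_iff']
  intro s g hg i hi
  have h1 : ∑ j ∈ s.filter (fun j => d j = d i), g j • b j = 0 := by
    have h2 := congrArg (Hpr (d i)) hg
    rw [map_sum, map_zero] at h2
    rw [Finset.sum_filter]
    refine Eq.trans ?_ h2
    refine Finset.sum_congr rfl fun j _ => ?_
    rw [map_smul]
    by_cases hj : d j = d i
    · rw [if_pos hj, Hpr_eq (by rw [← hj]; exact hm j)]
    · rw [if_neg hj, Hpr_ne hj (hm j), smul_zero]
  have h3 := linearIndependent_iff'.1 (h (d i)) (s.subtype (fun j => d j = d i))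
    (fun j => g j.1) (by
      rw [Finset.sum_subtype_eq_sum_filter (s := s) (p := fun j => d j = d i)
        (f := fun j => g j • b j)]
      exact h1) ⟨i, rfl⟩ (by rw [Finset.mem_subtype]; exact hi)
  exact h3

/-- The cross product is the product of the pull backs. -/
theorem cross_single {X Y : SS} (p q n : ℕ) (h : p + q = n) (f : X.X p → k) (g : Y.X q → k) :
    Coch.pull (SS.fst X Y) (single p f) * Coch.pull (SS.snd X Y) (single q g) =
      single n (fun x : (X.prod Y).X n => f (X.map (fr p n) x.1) * g (Y.map (bk q n) x.2)) := by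
  subst h
  ext m x
  rw [cmul_apply]
  by_cases hm : m = p + q
  · subst hm
    rw [single_self, Finset.sum_eq_single (p, q)]
    · show single p f p (X.map (fr p (p + q)) x.1) * single q g q (Y.map (bk q (p + q)) x.2) = _
      rw [single_self, single_self]
    · rintro ⟨a, c⟩ hac hne
      rw [Finset.HasAntidiagonal.mem_antidiagonal] at hac
      have ha : a ≠ p := by
        rintro rfl
        refine hne ?_
        have h1 : a + c = a + q := hac
        have h2 : c = q := by omega
        rw [h2]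
      show single p f a _ * _ = 0
      rw [single_ne ha, zero_mul]
    · intro h
      exact absurd (by rw [Finset.HasAntidiagonal.mem_antidiagonal]) h
  · rw [single_ne hm]
    refine Finset.sum_eq_zero ?_
    rintro ⟨a, c⟩ hac
    rw [Finset.HasAntidiagonal.mem_antidiagonal] at hac
    have h1 : a + c = m := hac
    by_cases ha : a = p
    · have hc : c ≠ q := by omega
      show _ * single q g c _ = 0
      rw [single_ne hc, mul_zero]
    · show single p f a _ * _ = 0
      rw [single_ne ha, zero_mul]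

theorem cls_cross {X Y : SS} (p q n : ℕ) (h : p + q = n) (f : X.X p → k) (g : Y.X q → k)
    (hf : X.cm.delta p f = 0) (hg : Y.cm.delta q g = 0)
    (hfg : (X.prod Y).cm.delta n
      (fun x : (X.prod Y).X n => f (X.map (fr p n) x.1) * g (Y.map (bk q n) x.2)) = 0) :
    clsN n (fun x : (X.prod Y).X n => f (X.map (fr p n) x.1) * g (Y.map (bk q n) x.2)) hfg =
      H.map (SS.fst X Y) (clsN p f hf) * H.map (SS.snd X Y) (clsN q g hg) := by
  unfold clsN
  rw [H.map_cls, H.map_cls, ← map_mul]
  congr 1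
  apply Subtype.ext
  exact (cross_single p q n h f g).symm

end Kun

open Kun in
theorem KUN (h : KUNP_Stmt) : KUN_Stmt := by
  intro X Y hX hY I J di dj b c hb hc
  obtain ⟨z, hz, hzb⟩ := exists_basis hb
  obtain ⟨w, hw, hwc⟩ := exists_basis hc
  have h1 : (X.prod Y).cm.cc.IsBasis (crossB X.plus Y.plus z w) :=
    h X.plus Y.plus hX hY z w hz hw
  have hcl : ∀ (n : ℕ) (t : prodI (fun n => {i // di i = n}) (fun n => {j // dj j = n}) n),
      clsN (X := X.prod Y) n (crossB X.plus Y.plus z w n t) (h1.cocycle n t) =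
        H.map (SS.fst X Y) (b t.1.1.2.1) * H.map (SS.snd X Y) (c t.1.2.2.1) := by
    intro n t
    obtain ⟨h2, h3⟩ := hzb t.1.1.1 t.1.1.2
    obtain ⟨h4, h5⟩ := hwc t.1.2.1 t.1.2.2
    rw [← h3, ← h5]
    exact cls_cross _ _ n t.2 _ _ h2 h4 _
  have hmem : ∀ p : I × J, H.map (SS.fst X Y) (b p.1) * H.map (SS.snd X Y) (c p.2) ∈
      Hn (X.prod Y) (di p.1 + dj p.2) := fun p =>
    Hn_mul (H.map_mem _ (hb.mem p.1)) (H.map_mem _ (hc.mem p.2))
  refine ⟨hmem, indep_of_degrees hmem fun n => ?_, fun n => ?_⟩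
  · let e : {p : I × J // di p.1 + dj p.2 = n} →
        prodI (fun n => {i // di i = n}) (fun n => {j // dj j = n}) n :=
      fun p => ⟨(⟨di p.1.1, ⟨p.1.1, rfl⟩⟩, ⟨dj p.1.2, ⟨p.1.2, rfl⟩⟩), p.2⟩
    have he : Function.Injective e := by
      intro p q hpq
      have h2 : (e p).1.1.2.1 = (e q).1.1.2.1 := by rw [hpq]
      have h3 : (e p).1.2.2.1 = (e q).1.2.2.1 := by rw [hpq]
      exact Subtype.ext (Prod.ext h2 h3)
    have h2 := (indep_of h1 n).comp e he
    have h3 : (fun i : {p : I × J // di p.1 + dj p.2 = n} =>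
        H.map (SS.fst X Y) (b i.1.1) * H.map (SS.snd X Y) (c i.1.2)) =
        (fun t => clsN (X := X.prod Y) n (crossB X.plus Y.plus z w n t) (h1.cocycle n t)) ∘ e :=
      funext fun i => (hcl n (e i)).symm
    rw [h3]
    exact h2
  · refine (span_of h1 n).trans (Submodule.span_mono ?_)
    rintro _ ⟨t, rfl⟩
    refine ⟨(t.1.1.2.1, t.1.2.2.1), ?_, (hcl n t).symm⟩
    show di t.1.1.2.1 + dj t.1.2.2.1 = n
    rw [t.1.1.2.2, t.1.2.2.2]
    exact t.2

end Pool.Agent.SHS


end

section

/-!
Block III-S: the cohomology of `BB`.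
-/

namespace Pool.Agent.SHS

open Coch

namespace K1a

/-- The product of the differences. -/
def chi (n : ℕ) (g : Nrm n k) : k := ∏ i : Fin n, (g.1 i.succ - g.1 i.castSucc)

theorem bbmap_val {m n : ℕ} (a : Mor m n) (g : Nrm n k) (i : Fin (m + 1)) :
    (BB.map a g : Nrm m k).1 i = g.1 (a i) - g.1 (a 0) := rfl

theorem pow_mem (n : ℕ) : uC ^ n ∈ CochD BB n := by
  induction n with
  | zero =>
    intro m h x
    rw [pow_zero, cone_apply, if_neg h]
  | succ n ih =>
    rw [pow_succ]
    exact CochD_mul ih (single_mem 1 _)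

theorem pow_val (n : ℕ) (g : Nrm n k) : (uC ^ n) n g = chi n g := by
  induction n with
  | zero =>
    rw [pow_zero, cone_apply, if_pos rfl, chi]
    simp
  | succ n ih =>
    rw [pow_succ, cmul_apply, Finset.sum_eq_single (n, 1)]
    · simp only
      rw [ih, chi, chi, Fin.prod_univ_castSucc]
      congr 1
      · apply Finset.prod_congr rfl
        intro i _
        rw [bbmap_val, bbmap_val, sub_sub_sub_cancel_right]
        have e1 : (fr n (n + 1)) i.succ = i.castSucc.succ := by
          apply Fin.ext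
          rw [fr_val]
          have := i.2
          simp
        have e2 : (fr n (n + 1)) i.castSucc = i.castSucc.castSucc := by
          apply Fin.ext
          rw [fr_val]
          have := i.2
          simp
          omega
        rw [e1, e2]
      · unfold uC
        rw [single_self, bbmap_val]
        have e1 : (bk 1 (n + 1)) 1 = (Fin.last n).succ := by
          apply Fin.ext
          rw [bk_val]
          simp
        have e2 : (bk 1 (n + 1)) 0 = (Fin.last n).castSucc := by
          apply Fin.ext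
          rw [bk_val]
          simp
        rw [e1, e2]
    · rintro ⟨p, q⟩ hpq hne
      simp only [Finset.HasAntidiagonal.mem_antidiagonal] at hpq
      have hq : q ≠ 1 := by
        rintro rfl
        exact hne (by rw [show p = n by omega])
      simp only
      unfold uC
      rw [single_ne hq, mul_zero]
    · intro h
      exact absurd (by simp) h

theorem pow_eq (n : ℕ) : uC ^ n = single n (chi n) := by
  rw [eq_single (pow_mem n)]
  congr 1
  funext g
  exact pow_val n g

theorem dlt_pow (n : ℕ) : dlt (uC ^ n) = 0 :=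
  ((⟨uC, dlt_uC⟩ : Cocyc BB) ^ n).2

theorem delta_chi (n : ℕ) : BB.cm.delta n (chi n) = 0 := by
  have h := dlt_pow n
  rw [pow_eq, dlt_single] at h
  exact single_inj (h.trans (single_zero _).symm)

theorem clsN_chi (n : ℕ) : clsN n (chi n) (delta_chi n) = uu ^ n := by
  unfold clsN uu
  rw [← map_pow]
  congr 1
  apply Subtype.ext
  exact (pow_eq n).symm

/-- Degenerate simplices. -/
theorem degen {n : ℕ} (g : Nrm (n + 1) k) (i : Fin (n + 1)) (h : g.1 i.succ = g.1 i.castSucc) :
    (BB.map (cod i) (BB.map (cof i.castSucc) g) : Nrm (n + 1) k) = g := by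
  have key : ∀ j : Fin (n + 2), g.1 ((cof i.castSucc) (cod i j)) = g.1 j := by
    intro j
    show g.1 (i.castSucc.succAbove (i.predAbove j)) = g.1 j
    by_cases hj : j = i.castSucc
    · subst hj
      rw [Fin.predAbove_castSucc_self, Fin.succAbove_castSucc_self, h]
    · rw [Fin.succAbove_predAbove hj]
  apply Subtype.ext
  funext j
  have h0 : g.1 0 = 0 := g.2
  rw [bbmap_val, bbmap_val, bbmap_val, key, key, h0]
  ring

/-- The alternating simplex. -/
def alt (n : ℕ) : Nrm n k := ⟨fun i => ((i : ℕ) : k), by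
  show (((0 : Fin (n + 1)) : ℕ) : k) = 0
  simp⟩

theorem chi_alt (n : ℕ) : chi n (alt n) = 1 := by
  unfold chi
  apply Finset.prod_eq_one
  intro i _
  show (((i.succ : Fin (n + 1)) : ℕ) : k) - (((i.castSucc : Fin (n + 1)) : ℕ) : k) = 1
  simp

theorem eq_alt {n : ℕ} (g : Nrm n k) (h : ∀ i : Fin n, g.1 i.succ - g.1 i.castSucc ≠ 0) :
    g = alt n := by
  apply Subtype.ext
  funext i
  show g.1 i = ((i : ℕ) : k)
  induction i using Fin.induction with
  | zero =>
    have h0 : g.1 0 = 0 := g.2
    rw [h0]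
    simp
  | succ i ih =>
    have h1 := h i
    have h2 : ∀ x : ZMod 2, x ≠ 0 → x = 1 := by decide
    have h3 := h2 _ h1
    rw [sub_eq_iff_eq_add, ih] at h3
    rw [h3]
    simp [add_comm]

/-- Normalised cochains are multiples of `chi`. -/
theorem normalised (n : ℕ) (φ : Nrm (n + 1) k → k)
    (h : ∀ i : Fin (n + 1), BB.cm.map (cod i) φ = 0) :
    φ = φ (alt (n + 1)) • chi (n + 1) := by
  funext g
  show φ g = φ (alt (n + 1)) * chi (n + 1) g
  by_cases hg : ∀ i : Fin (n + 1), g.1 i.succ - g.1 i.castSucc ≠ 0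
  · rw [eq_alt g hg, chi_alt, mul_one]
  · push Not at hg
    obtain ⟨i, hi⟩ := hg
    have h1 : chi (n + 1) g = 0 := Finset.prod_eq_zero (Finset.mem_univ i) hi
    have h2 := degen g i (sub_eq_zero.mp hi)
    have h3 := congrFun (h i) (BB.map (cof i.castSucc) g)
    change φ (BB.map (cod i) (BB.map (cof i.castSucc) g)) = 0 at h3
    rw [h2] at h3
    rw [h1, h3, mul_zero]

theorem chi_normalised (n : ℕ) (i : Fin (n + 1)) : BB.cm.map (cod i) (chi (n + 1)) = 0 := by
  funext y
  show chi (n + 1) (BB.map (cod i) y) = 0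
  apply Finset.prod_eq_zero (Finset.mem_univ i)
  rw [bbmap_val, bbmap_val, sub_sub_sub_cancel_right]
  have e1 : (cod i) i.succ = i := Fin.predAbove_succ_self i
  have e2 : (cod i) i.castSucc = i := Fin.predAbove_castSucc_self i
  rw [e1, e2, sub_self]

theorem nrm_zero (g g' : Nrm 0 k) : g = g' := by
  apply Subtype.ext
  funext i
  have hi : i = 0 := by
    apply Fin.ext
    have := i.2
    show i.1 = 0
    omega
  rw [hi, show g.1 0 = 0 from g.2, show g'.1 0 = 0 from g'.2]

theorem chi_notB (hN : NORM_Stmt) (n : ℕ) : chi n ∉ BB.cm.cc.B n := by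
  intro hB
  cases n with
  | zero =>
    have h0 : chi 0 ∈ (⊥ : Submodule k (BB.cm.X 0)) := hB
    rw [Submodule.mem_bot] at h0
    have h1 := congrFun h0 (alt 0)
    rw [chi_alt] at h1
    exact one_ne_zero h1
  | succ n =>
    have h0 : chi (n + 1) ∈ LinearMap.range (BB.cm.delta n) := hB
    obtain ⟨v, hv⟩ := h0
    cases n with
    | zero =>
      have h1 := congrFun hv (alt 1)
      rw [chi_alt, CM.delta_apply, Finset.sum_apply, Fin.sum_univ_two] at h1
      change v (BB.map (cof 0) (alt 1)) + v (BB.map (cof 1) (alt 1)) = 1 at h1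
      rw [nrm_zero (BB.map (cof 0) (alt 1)) (BB.map (cof 1) (alt 1)), k_two] at h1
      exact zero_ne_one h1
    | succ n =>
      obtain ⟨w, hw⟩ := hN BB.cm n v (fun i => by
        rw [hv]
        exact chi_normalised (n + 1) i)
      have h1 := normalised n _ hw
      have h2 := congrArg (BB.cm.delta (n + 1)) h1
      rw [map_add, BB.cm.delta_delta, add_zero, hv, map_smul, delta_chi, smul_zero] at h2
      have h3 := congrFun h2 (alt (n + 2))
      rw [chi_alt] at h3
      exact one_ne_zero h3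

theorem uu_pow_ne (hN : NORM_Stmt) (n : ℕ) : uu ^ n ≠ 0 := by
  intro h
  rw [← clsN_chi, clsN_eq_zero] at h
  exact chi_notB hN n h

theorem uu_pow_mem (n : ℕ) : uu ^ n ∈ Hn BB n := by
  have := Hn_pow uu_mem n
  rwa [mul_one] at this

theorem span_uu (hN : NORM_Stmt) (n : ℕ) (a : H BB) (ha : a ∈ Hn BB n) :
    ∃ c : k, a = c • uu ^ n := by
  obtain ⟨φ, hφ, rfl⟩ := exists_clsN ha
  cases n with
  | zero =>
    refine ⟨φ (alt 0), ?_⟩
    have h1 : φ = φ (alt 0) • chi 0 := by
      funext g
      show φ g = φ (alt 0) * chi 0 g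
      rw [nrm_zero g (alt 0), chi_alt, mul_one]
    rw [← clsN_chi, ← clsN_smul]
    congr 1
  | succ n =>
    obtain ⟨v, hv⟩ := hN BB.cm n φ (fun i => by rw [hφ, map_zero])
    have h1 := normalised n _ hv
    have hδ : BB.cm.delta (n + 1) (BB.cm.delta n v) = 0 := BB.cm.delta_delta n v
    have hz : clsN (n + 1) (BB.cm.delta n v) hδ = 0 := by
      rw [clsN_eq_zero]
      exact ⟨v, rfl⟩
    refine ⟨(φ + BB.cm.delta n v) (alt (n + 1)), ?_⟩
    rw [← clsN_chi, ← clsN_smul]
    have h2 := clsN_add φ (BB.cm.delta n v) hφ hδ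
    have h3 := h2.trans ((congrArg (fun t => clsN (n + 1) φ hφ + t) hz).trans (add_zero _))
    refine h3.symm.trans ?_
    congr 1

end K1a

open K1a in
theorem K1A (h : NORM_Stmt) : K1A_Stmt := by
  refine ⟨uu_pow_mem, ?_, ?_⟩
  · rw [linearIndependent_iff']
    intro s c hc i hi
    have h1 := congrArg (Hpr i) hc
    rw [map_zero, map_sum, Finset.sum_eq_single i] at h1
    · rw [map_smul, Hpr_eq (uu_pow_mem i)] at h1
      exact (smul_eq_zero.mp h1).resolve_right (uu_pow_ne h i)
    · intro j _ hji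
      rw [map_smul, Hpr_ne hji (uu_pow_mem j), smul_zero]
    · intro hi'
      exact absurd hi hi'
  · intro n a ha
    obtain ⟨c, rfl⟩ := span_uu h n a ha
    apply Submodule.smul_mem
    apply Submodule.subset_span
    exact ⟨n, rfl, rfl⟩

end Pool.Agent.SHS


end

section

/-!
Block III-S: the cohomology of the circle and the Kuenneth formula for S1 × Y (SK).
-/

namespace Pool.Agent.SHS

open Coch

namespace Sk

theorem fin2 (i : Fin 2) : i = 0 ∨ i = 1 := by
  have : ∀ i : Fin 2, i = 0 ∨ i = 1 := by decide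
  exact this i

instance sub0 : Subsingleton (S1.X 0) := by
  constructor
  have h : ∀ x : S1.X 0, x = none := by
    intro x
    cases x with
    | none => rfl
    | some a =>
      exfalso
      obtain ⟨i, hi⟩ := a.2 0
      obtain ⟨j, hj⟩ := a.2 1
      have hij : i = j := Subsingleton.elim (α := Fin 1) i j
      rw [hij, hj] at hi
      exact absurd hi (by decide)
  intro x y
  rw [h x, h y]

/-- The fundamental simplex of the circle. -/
def x1 : S1.X 1 := some ⟨OrderHom.id, fun y => ⟨y, rfl⟩⟩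

theorem X1_cases (x : S1.X 1) : x = none ∨ x = x1 := by
  cases x with
  | none => exact Or.inl rfl
  | some a =>
    right
    unfold x1
    congr 1
    apply Subtype.ext
    apply mor_ext
    intro i
    obtain ⟨u, hu⟩ := a.2 0
    obtain ⟨v, hv⟩ := a.2 1
    have h0 : a.1 0 = 0 := by
      have h1 : a.1 0 ≤ a.1 u := a.1.monotone (Fin.zero_le _)
      rw [hu] at h1
      exact le_antisymm h1 (Fin.zero_le _)
    have h1 : a.1 1 = 1 := by
      rcases fin2 v with h | h
      · rw [h, h0] at hv
        exact absurd hv (by decide)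
      · rw [h] at hv
        exact hv
    rcases fin2 i with h | h
    · rw [h]
      show ((a.1 0 : Fin 2) : ℕ) = 0
      rw [h0]
      rfl
    · rw [h]
      show ((a.1 1 : Fin 2) : ℕ) = 1
      rw [h1]
      rfl

theorem S1_LF : S1.LF := by
  intro n
  have h1 : Finite (Mor n 1) := Finite.of_injective (fun f : Mor n 1 => (f : Fin (n+1) → Fin (1+1)))
    (fun f g h => OrderHom.ext _ _ h)
  show Finite (Option {a : Mor n 1 // Function.Surjective a})
  infer_instance

theorem one_ne : (1 : H S1) ≠ 0 := by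
  intro h
  rw [← map_one cls, cls_eq_zero] at h
  obtain ⟨g, hg⟩ := h
  have h2 := congrArg (fun f : Coch S1 => f 0 none) hg
  simp only [dlt_zero] at h2
  exact absurd h2.symm (by
    show (1 : Coch S1) 0 none ≠ 0
    rw [cone_apply, if_pos rfl]
    exact one_ne_zero)

/-- The cocycle representing `ee`. -/
noncomputable def eC : Coch S1 := pull s1 uC

theorem eC_x1 : eC 1 x1 = 1 := by
  show uC 1 (s1.f 1 x1) = 1
  unfold uC
  rw [single_self]
  rfl

theorem eC_none : eC 1 none = 0 := by
  show uC 1 (s1.f 1 none) = 0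
  unfold uC
  rw [single_self]
  rfl

theorem ee_ne : ee ≠ 0 := by
  intro h
  unfold ee uu at h
  rw [H.map_cls, cls_eq_zero] at h
  obtain ⟨g, hg⟩ := h
  have h2 := congrArg (fun f : Coch S1 => f 1 x1) hg
  have h3 : dlt g 1 x1 = 1 := h2.trans eC_x1
  rw [dlt_succ, Fin.sum_univ_two, Subsingleton.elim (S1.map (cof 0) x1) (S1.map (cof 1) x1),
    k_two] at h3
  exact absurd h3.symm one_ne_zero

theorem ee_eq (h : S1.cm.delta 1 (eC 1) = 0) : ee = clsN 1 (eC 1) h := by
  unfold ee uu clsN
  rw [H.map_cls]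
  congr 1
  apply Subtype.ext
  show eC = single 1 (eC 1)
  apply eq_single
  intro m hm x
  show uC m (s1.f m x) = 0
  exact single_ne hm _ _

theorem eC_cocycle : S1.cm.delta 1 (eC 1) = 0 := by
  have h : dlt eC = 0 := by
    unfold eC
    rw [dlt_pull, dlt_uC, map_zero]
  funext x
  have h2 := congrArg (fun f : Coch S1 => f 2 x) h
  have h3 : dlt eC 2 x = 0 := h2
  rw [dlt_succ] at h3
  rw [CM.delta_apply, Finset.sum_apply]
  exact h3

theorem deg0 {a : H S1} (ha : a ∈ Hn S1 0) : ∃ c : k, a = c • (1 : H S1) := by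
  obtain ⟨φ, h, rfl⟩ := exists_clsN ha
  refine ⟨φ none, ?_⟩
  rw [← map_one cls, ← map_smul cls]
  unfold clsN
  congr 1
  apply Subtype.ext
  show single 0 φ = φ none • (1 : Coch S1)
  ext m x
  rw [csmul_apply, cone_apply]
  by_cases hm : m = 0
  · subst hm
    rw [single_self, if_pos rfl, mul_one, Subsingleton.elim x none]
  · rw [single_ne hm, if_neg hm, mul_zero]

theorem deg1 {a : H S1} (ha : a ∈ Hn S1 1) : ∃ c : k, a = c • ee := by
  obtain ⟨φ, h, rfl⟩ := exists_clsN ha
  refine ⟨φ x1, ?_⟩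
  rw [ee_eq eC_cocycle, ← clsN_smul]
  have h0 : φ none = 0 := by
    have h1 := congrFun h (none : S1.X 2)
    rw [CM.delta_apply, Finset.sum_apply, Fin.sum_univ_three] at h1
    have h2 : φ none + φ none + φ none = 0 := h1
    rw [k_two, zero_add] at h2
    exact h2
  have h1 : φ = φ x1 • eC 1 := by
    funext x
    show φ x = φ x1 * eC 1 x
    rcases X1_cases x with hx | hx
    · rw [hx, h0, eC_none, mul_zero]
    · rw [hx, eC_x1, mul_one]
  unfold clsN
  congr 1
  apply Subtype.ext
  show single 1 φ = single 1 (φ x1 • eC 1)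
  rw [← h1]

/-- A monotone map to `Fin 2` from a set with at least three elements takes two consecutive
equal values. -/
theorem consec {m : ℕ} (a : Mor (m + 2) 1) : ∃ i : Fin (m + 2), a i.castSucc = a i.succ := by
  by_contra hne'
  have hne : ∀ i : Fin (m + 2), a i.castSucc ≠ a i.succ := fun i h => hne' ⟨i, h⟩
  have h0 : a 0 ≠ a 1 := hne 0
  have h1 : a 1 ≠ a 2 := hne 1
  have l0 : a 0 ≤ a 1 := a.monotone (Fin.zero_le _)
  have l1 : a 1 ≤ a 2 := a.monotone (by
    rw [Fin.le_def]
    show 1 % (m + 2 + 1) ≤ 2 % (m + 2 + 1)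
    rw [Nat.mod_eq_of_lt (by omega), Nat.mod_eq_of_lt (by omega)]
    norm_num)
  rcases fin2 (a 0) with h2 | h2 <;> rcases fin2 (a 1) with h3 | h3 <;>
    rcases fin2 (a 2) with h4 | h4 <;> rw [h2, h3] at h0 l0 <;> rw [h3, h4] at h1 l1 <;>
    first | exact h0 rfl | exact h1 rfl | exact absurd l0 (by decide) | exact absurd l1 (by decide)

theorem degen {m : ℕ} (x : S1.X (m + 2)) : ∃ (i : Fin (m + 2)) (y : S1.X (m + 1)),
    S1.map (cod i) y = x := by
  cases x with
  | none => exact ⟨0, none, rfl⟩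
  | some a =>
    obtain ⟨i, hi⟩ := consec a.1
    have h1 : (a.1.comp (cof i.castSucc)).comp (cod i) = a.1 := by
      apply OrderHom.ext
      funext j
      show a.1 ((i.castSucc).succAbove (i.predAbove j)) = a.1 j
      by_cases h : j = i.castSucc
      · rw [h, Fin.predAbove_castSucc_self, Fin.succAbove_castSucc_self]
        exact hi.symm
      · rw [Fin.succAbove_predAbove h]
    have hs : Function.Surjective (a.1.comp (cof i.castSucc)) := by
      intro y
      obtain ⟨j, hj⟩ := a.2 y
      refine ⟨cod i j, ?_⟩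
      have := congrArg (fun f : Mor (m + 2) 1 => f j) h1
      exact (this.trans hj)
    refine ⟨i, some ⟨a.1.comp (cof i.castSucc), hs⟩, ?_⟩
    have h2 : Function.Surjective ((a.1.comp (cof i.castSucc)).comp (cod i)) := by
      rw [h1]
      exact a.2
    show (PS.sphere 1).map (cod i) ⟨a.1.comp (cof i.castSucc), hs⟩ = some a
    have e : (PS.sphere 1).map (cod i) ⟨a.1.comp (cof i.castSucc), hs⟩ =
      some ⟨(a.1.comp (cof i.castSucc)).comp (cod i), h2⟩ := dif_pos h2
    rw [e]
    congr 1
    apply Subtype.ext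
    exact h1

theorem deg2 (hN : NORM_Stmt) {m : ℕ} {a : H S1} (ha : a ∈ Hn S1 (m + 2)) : a = 0 := by
  obtain ⟨φ, h, rfl⟩ := exists_clsN ha
  rw [clsN_eq_zero]
  obtain ⟨v, hv⟩ := hN S1.cm (m + 1) φ (fun i => by rw [h, map_zero])
  have h0 : φ + S1.cm.delta (m + 1) v = 0 := by
    funext x
    obtain ⟨i, y, rfl⟩ := degen x
    exact congrFun (hv i) y
  show φ ∈ LinearMap.range (S1.cm.delta (m + 1))
  exact ⟨v, (mod_two_eq h0).symm⟩

/-- Degrees of the basis of the cohomology of the circle. -/
def dS (t : Bool) : ℕ := if t then 1 else 0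

/-- The basis of the cohomology of the circle. -/
noncomputable def bS (t : Bool) : H S1 := if t then ee else 1

theorem ee_mem : ee ∈ Hn S1 1 := H.map_mem s1 uu_mem

theorem HBS (hN : NORM_Stmt) : HB S1 dS bS where
  mem t := by
    cases t with
    | false => exact Hn_one
    | true => exact ee_mem
  indep := by
    rw [Fintype.linearIndependent_iff]
    intro g hg
    rw [Fintype.sum_bool] at hg
    have h1 : g true • ee + g false • (1 : H S1) = 0 := hg
    have h2 := congrArg (Hpr 0) h1
    have h3 := congrArg (Hpr 1) h1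
    rw [map_add, map_smul, map_smul, map_zero, Hpr_ne (by decide) ee_mem, Hpr_eq Hn_one,
      smul_zero, zero_add] at h2
    rw [map_add, map_smul, map_smul, map_zero, Hpr_eq ee_mem, Hpr_ne (by decide) Hn_one,
      smul_zero, add_zero] at h3
    intro t
    cases t with
    | false => exact (smul_eq_zero.1 h2).resolve_right one_ne
    | true => exact (smul_eq_zero.1 h3).resolve_right ee_ne
  span n := by
    intro a ha
    match n, ha with
    | 0, ha =>
      obtain ⟨c, rfl⟩ := deg0 ha
      exact Submodule.smul_mem _ _ (Submodule.subset_span ⟨false, rfl, rfl⟩)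
    | 1, ha =>
      obtain ⟨c, rfl⟩ := deg1 ha
      exact Submodule.smul_mem _ _ (Submodule.subset_span ⟨true, rfl, rfl⟩)
    | m + 2, ha =>
      rw [deg2 hN ha]
      exact Submodule.zero_mem _

/-- First linear map. -/
noncomputable def L1 (Y : SS) : H Y →ₗ[k] H (S1.prod Y) :=
  (LinearMap.mulLeft k (H.map (SS.fst S1 Y) ee)).comp (H.map (SS.snd S1 Y)).toLinearMap

/-- Second linear map. -/
noncomputable def L2 (Y : SS) : H Y →ₗ[k] H (S1.prod Y) := (H.map (SS.snd S1 Y)).toLinearMap

theorem L1_apply (Y : SS) (b : H Y) :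
    L1 Y b = H.map (SS.fst S1 Y) ee * H.map (SS.snd S1 Y) b := rfl

theorem L2_apply (Y : SS) (b : H Y) : L2 Y b = H.map (SS.snd S1 Y) b := rfl

theorem fam_true (Y : SS) (c : H Y) :
    H.map (SS.fst S1 Y) (bS true) * H.map (SS.snd S1 Y) c = L1 Y c := rfl

theorem fam_false (Y : SS) (c : H Y) :
    H.map (SS.fst S1 Y) (bS false) * H.map (SS.snd S1 Y) c = L2 Y c := by
  show H.map (SS.fst S1 Y) 1 * H.map (SS.snd S1 Y) c = L2 Y c
  rw [map_one, one_mul, L2_apply]

theorem part1 (Y : SS) {I : Type} (di : I → ℕ) (c : I → H Y) (hc : HB Y di c)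
    (hp : HB (S1.prod Y) (fun p : Bool × I => dS p.1 + di p.2)
      (fun p => H.map (SS.fst S1 Y) (bS p.1) * H.map (SS.snd S1 Y) (c p.2))) (n : ℕ)
    (a : H (S1.prod Y)) (ha : a ∈ Hn (S1.prod Y) (n + 1)) :
    ∃ b ∈ Hn Y n, ∃ c ∈ Hn Y (n + 1), a = L1 Y b + L2 Y c := by
  have h1 : Hn (S1.prod Y) (n + 1) ≤ (Hn Y n).map (L1 Y) ⊔ (Hn Y (n + 1)).map (L2 Y) := by
    refine (hp.span (n + 1)).trans (Submodule.span_le.2 ?_)
    rintro _ ⟨⟨t, i⟩, ht, rfl⟩
    have ht' : dS t + di i = n + 1 := ht
    cases t with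
    | true =>
      have h2 : di i = n := by
        have : dS true = 1 := rfl
        omega
      show H.map (SS.fst S1 Y) (bS true) * H.map (SS.snd S1 Y) (c i) ∈ _
      rw [fam_true]
      refine Submodule.mem_sup_left ⟨c i, ?_, rfl⟩
      rw [← h2]
      exact hc.mem i
    | false =>
      have h2 : di i = n + 1 := by
        have : dS false = 0 := rfl
        omega
      show H.map (SS.fst S1 Y) (bS false) * H.map (SS.snd S1 Y) (c i) ∈ _
      rw [fam_false]
      refine Submodule.mem_sup_right ⟨c i, ?_, rfl⟩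
      rw [← h2]
      exact hc.mem i
  obtain ⟨_, ⟨b, hb, rfl⟩, _, ⟨c, hc, rfl⟩, h2⟩ := Submodule.mem_sup.1 (h1 ha)
  exact ⟨b, hb, c, hc, h2.symm⟩

theorem part2 (Y : SS) {I : Type} (di : I → ℕ) (c : I → H Y) (hc : HB Y di c)
    (hp : HB (S1.prod Y) (fun p : Bool × I => dS p.1 + di p.2)
      (fun p => H.map (SS.fst S1 Y) (bS p.1) * H.map (SS.snd S1 Y) (c p.2))) (m n : ℕ)
    (x y : H Y) (hx : x ∈ Hn Y m) (hy : y ∈ Hn Y n) (h0 : L1 Y x + L2 Y y = 0) :
    x = 0 ∧ y = 0 := by
  have hr : ∀ n, Hn Y n ≤ Submodule.span k (Set.range c) := fun n =>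
    (hc.span n).trans (Submodule.span_mono (Set.image_subset_range _ _))
  obtain ⟨β, rfl⟩ := (Finsupp.mem_span_range_iff_exists_finsupp).1 (hr m hx)
  obtain ⟨γ, rfl⟩ := (Finsupp.mem_span_range_iff_exists_finsupp).1 (hr n hy)
  have hi := hp.indep
  rw [linearIndependent_iff] at hi
  have ht : Function.Injective (fun i : I => ((true, i) : Bool × I)) := fun i j h => by
    simpa using h
  have hf : Function.Injective (fun i : I => ((false, i) : Bool × I)) := fun i j h => by
    simpa using h
  have h1 := hi (β.mapDomain (fun i => (true, i)) + γ.mapDomain (fun i => (false, i))) (by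
    rw [map_add, Finsupp.linearCombination_mapDomain, Finsupp.linearCombination_mapDomain]
    have e1 : (fun p : Bool × I => H.map (SS.fst S1 Y) (bS p.1) * H.map (SS.snd S1 Y) (c p.2)) ∘
        (fun i => (true, i)) = fun i => L1 Y (c i) := by
      funext i
      exact fam_true Y (c i)
    have e2 : (fun p : Bool × I => H.map (SS.fst S1 Y) (bS p.1) * H.map (SS.snd S1 Y) (c p.2)) ∘
        (fun i => (false, i)) = fun i => L2 Y (c i) := by
      funext i
      exact fam_false Y (c i)
    rw [e1, e2]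
    rw [← h0]
    simp only [Finsupp.linearCombination_apply, Finsupp.sum, map_sum, map_smul])
  have h2 : β = 0 := by
    ext i
    have h3 := DFunLike.congr_fun h1 (true, i)
    rw [Finsupp.add_apply, Finsupp.mapDomain_apply ht, Finsupp.mapDomain_of_notMem_range] at h3
    · simpa using h3
    · rintro ⟨j, hj⟩
      simp at hj
  have h4 : γ = 0 := by
    ext i
    have h3 := DFunLike.congr_fun h1 (false, i)
    rw [Finsupp.add_apply, Finsupp.mapDomain_apply hf, Finsupp.mapDomain_of_notMem_range] at h3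
    · simpa using h3
    · rintro ⟨j, hj⟩
      simp at hj
  rw [h2, h4]
  exact ⟨Finsupp.sum_zero_index, Finsupp.sum_zero_index⟩

end Sk

theorem SK (h : NORM_Stmt) (hk : KUN_Stmt) (hb : HBE_Stmt) : SK_Stmt := by
  refine ⟨?_, ?_⟩
  · have h2 : ee * ee ∈ Hn S1 (1 + 1) := Hn_mul Sk.ee_mem Sk.ee_mem
    exact Sk.deg2 h (m := 0) h2
  · intro Y hY
    obtain ⟨I, di, c, hc⟩ := hb Y
    have hp := hk S1 Y Sk.S1_LF hY Sk.dS di Sk.bS c (Sk.HBS h) hc
    refine ⟨fun n a ha => Sk.part1 Y di c hc hp n a ha, fun n b hb c' hc' h0 => ?_⟩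
    exact Sk.part2 Y di c hc hp n (n + 1) b c' hb hc' h0

end Pool.Agent.SHS


end

section

/-!
# SQU: the operations on the product of the generators of B(F_2^m)
-/

namespace Pool.Agent.SHS

namespace Squ

open Coch

/-! ### The coefficients of the total square of the product of the variables -/

section Poly

variable {m : ℕ}

/-- The exponents. -/
noncomputable def eA (A : Finset (Fin m)) : Fin m →₀ ℕ :=
  Finsupp.equivFunOnFinite.symm (fun j => if j ∈ A then 2 else 1)

theorem eA_apply (A : Finset (Fin m)) (j : Fin m) : eA A j = if j ∈ A then 2 else 1 := rfl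

theorem monomial_eA (A : Finset (Fin m)) :
    (MvPolynomial.monomial (eA A) (1 : k)) =
      ∏ j, (MvPolynomial.X j : MvPolynomial (Fin m) k) ^ (if j ∈ A then 2 else 1) := by
  rw [MvPolynomial.monomial_eq, MvPolynomial.C_1, one_mul, Finsupp.prod_fintype]
  · rfl
  · intro i
    exact pow_zero _

theorem prod_eA (A : Finset (Fin m)) :
    (∏ j ∈ A, (MvPolynomial.X j : MvPolynomial (Fin m) k) ^ 2) * ∏ j ∈ Finset.univ \ A,
      (MvPolynomial.X j : MvPolynomial (Fin m) k) = MvPolynomial.monomial (eA A) (1 : k) := by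
  rw [monomial_eA, ← Finset.prod_sdiff (Finset.subset_univ A), mul_comm]
  congr 1
  · refine Finset.prod_congr rfl fun j hj => ?_
    rw [if_neg (Finset.mem_sdiff.mp hj).2, pow_one]
  · refine Finset.prod_congr rfl fun j hj => ?_
    rw [if_pos hj]

theorem St_prod : St m (∏ j, MvPolynomial.X j) =
    ∑ A : Finset (Fin m), Polynomial.monomial A.card (MvPolynomial.monomial (eA A) (1 : k)) := by
  rw [map_prod]
  have h1 : ∀ j : Fin m, St m (MvPolynomial.X j) = Polynomial.X *
      Polynomial.C (MvPolynomial.X j ^ 2) + Polynomial.C (MvPolynomial.X j) := by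
    intro j
    rw [St, MvPolynomial.aeval_X, add_comm]
  rw [Finset.prod_congr rfl fun j _ => h1 j, Finset.prod_add, Finset.powerset_univ]
  refine Finset.sum_congr rfl fun A _ => ?_
  rw [Finset.prod_mul_distrib, Finset.prod_const, ← map_prod Polynomial.C,
    ← map_prod Polynomial.C, mul_assoc, ← map_mul Polynomial.C, prod_eA,
    ← Polynomial.C_mul_X_pow_eq_monomial, mul_comm]

theorem coeff_St (i : ℕ) : (St m (∏ j, MvPolynomial.X j)).coeff i =
    ∑ A ∈ Finset.univ.filter (fun A : Finset (Fin m) => A.card = i),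
      MvPolynomial.monomial (eA A) (1 : k) := by
  rw [St_prod, Polynomial.finsetSum_coeff, Finset.sum_filter]
  refine Finset.sum_congr rfl fun A _ => ?_
  rw [Polynomial.coeff_monomial]

theorem degree_eA (A : Finset (Fin m)) : (eA A).degree = m + A.card := by
  rw [Finsupp.degree_eq_sum]
  simp only [eA_apply]
  have h1 : ∀ j : Fin m, (if j ∈ A then 2 else 1) = 1 + if j ∈ A then 1 else 0 := by
    intro j
    split_ifs <;> rfl
  rw [Finset.sum_congr rfl fun j _ => h1 j, Finset.sum_add_distrib]
  simp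

theorem homog_St (i : ℕ) : ((St m (∏ j, MvPolynomial.X j)).coeff i).IsHomogeneous (m + i) := by
  rw [coeff_St]
  refine MvPolynomial.IsHomogeneous.sum _ _ _ fun A hA => ?_
  have h1 : A.card = i := (Finset.mem_filter.mp hA).2
  apply MvPolynomial.isHomogeneous_monomial
  rw [degree_eA, h1]

theorem pow_St (i : ℕ) (e : Fin m →₀ ℕ) (he : e ∈ ((St m (∏ j, MvPolynomial.X j)).coeff i).support)
    (j : Fin m) : ∃ l : ℕ, e j = 2 ^ l := by
  classical
  rw [coeff_St] at he
  have h1 := MvPolynomial.support_sum he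
  obtain ⟨A, -, hA⟩ := Finset.mem_biUnion.mp h1
  have h2 := MvPolynomial.support_monomial_subset hA
  rw [Finset.mem_singleton] at h2
  rw [h2, eA_apply]
  by_cases h : j ∈ A
  · exact ⟨1, by rw [if_pos h]; rfl⟩
  · exact ⟨0, by rw [if_neg h]; rfl⟩

theorem St_rename (s : Equiv.Perm (Fin m)) (p : MvPolynomial (Fin m) k) :
    St m (MvPolynomial.rename s p) =
      Polynomial.map (MvPolynomial.rename s : MvPolynomial (Fin m) k →ₐ[k] _).toRingHom (St m p) := by
  have h : (St m).comp (MvPolynomial.rename s) =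
      (Polynomial.mapAlgHom (MvPolynomial.rename s : MvPolynomial (Fin m) k →ₐ[k] _)).comp (St m) := by
    apply MvPolynomial.algHom_ext
    intro j
    rw [AlgHom.comp_apply, AlgHom.comp_apply, MvPolynomial.rename_X, St, MvPolynomial.aeval_X,
      MvPolynomial.aeval_X]
    simp
  exact DFunLike.congr_fun h p

theorem rename_prod (s : Equiv.Perm (Fin m)) :
    MvPolynomial.rename s (∏ j, (MvPolynomial.X j : MvPolynomial (Fin m) k)) =
      ∏ j, MvPolynomial.X j := by
  rw [map_prod]
  simp only [MvPolynomial.rename_X]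
  exact Equiv.prod_comp s (fun j => (MvPolynomial.X j : MvPolynomial (Fin m) k))

theorem symm_St (i : ℕ) (s : Equiv.Perm (Fin m)) :
    MvPolynomial.rename s ((St m (∏ j, MvPolynomial.X j)).coeff i) =
      (St m (∏ j, MvPolynomial.X j)).coeff i := by
  have h := St_rename s (∏ j, (MvPolynomial.X j : MvPolynomial (Fin m) k))
  rw [rename_prod] at h
  conv_rhs => rw [h]
  rw [Polynomial.coeff_map]
  rfl

theorem homog_prod : (∏ j, (MvPolynomial.X j : MvPolynomial (Fin m) k)).IsHomogeneous m := by
  have h := MvPolynomial.IsHomogeneous.prod (Finset.univ : Finset (Fin m))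
    (fun j => (MvPolynomial.X j : MvPolynomial (Fin m) k)) (fun _ => 1)
    (fun j _ => MvPolynomial.isHomogeneous_X k j)
  simpa using h

theorem coeff_St_top : (St m (∏ j, MvPolynomial.X j)).coeff m =
    (∏ j, (MvPolynomial.X j : MvPolynomial (Fin m) k)) ^ 2 := by
  rw [coeff_St]
  have h1 : Finset.univ.filter (fun A : Finset (Fin m) => A.card = m) = {Finset.univ} := by
    ext A
    rw [Finset.mem_filter, Finset.mem_singleton]
    constructor
    · rintro ⟨-, h⟩
      apply Finset.eq_univ_of_card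
      rw [h, Fintype.card_fin]
    · rintro rfl
      exact ⟨Finset.mem_univ _, by rw [Finset.card_univ, Fintype.card_fin]⟩
  rw [h1, Finset.sum_singleton, monomial_eA, ← Finset.prod_pow]
  refine Finset.prod_congr rfl fun j _ => ?_
  rw [if_pos (Finset.mem_univ j)]

/-- The recursion for the total square. -/
theorem St_succ : St (m + 1) (∏ j, MvPolynomial.X j) =
    (Polynomial.C (MvPolynomial.X 0) + Polynomial.X * Polynomial.C (MvPolynomial.X 0 ^ 2)) *
      Polynomial.map (MvPolynomial.rename Fin.succ :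
        MvPolynomial (Fin m) k →ₐ[k] MvPolynomial (Fin (m + 1)) k).toRingHom
        (St m (∏ j, MvPolynomial.X j)) := by
  rw [Fin.prod_univ_succ, map_mul, map_prod, map_prod, Polynomial.map_prod]
  congr 1
  · rw [St, MvPolynomial.aeval_X]
  · refine Finset.prod_congr rfl fun j _ => ?_
    rw [St, St, MvPolynomial.aeval_X, MvPolynomial.aeval_X]
    simp

/-- The coefficient of the first power of the first variable. -/
theorem coeff_one_St (i : ℕ) :
    (MvPolynomial.finSuccEquiv k m ((St (m + 1) (∏ j, MvPolynomial.X j)).coeff i)).coeff 1 =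
      (St m (∏ j, MvPolynomial.X j)).coeff i := by
  have hren : ∀ p : MvPolynomial (Fin m) k, MvPolynomial.finSuccEquiv k m
      (MvPolynomial.rename Fin.succ p) = Polynomial.C p := by
    intro p
    have h : ((MvPolynomial.finSuccEquiv k m).toAlgHom.comp (MvPolynomial.rename Fin.succ) :
        MvPolynomial (Fin m) k →ₐ[k] Polynomial (MvPolynomial (Fin m) k)) =
        (Algebra.ofId (MvPolynomial (Fin m) k) (Polynomial (MvPolynomial (Fin m) k))).restrictScalars
          k := by
      apply MvPolynomial.algHom_ext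
      intro j
      change MvPolynomial.finSuccEquiv k m (MvPolynomial.rename Fin.succ (MvPolynomial.X j)) = _
      rw [MvPolynomial.rename_X, MvPolynomial.finSuccEquiv_X_succ]
      rfl
    exact DFunLike.congr_fun h p
  rw [St_succ, add_mul, Polynomial.coeff_add, Polynomial.coeff_C_mul, mul_assoc]
  cases i with
  | zero =>
    rw [Polynomial.coeff_X_mul_zero, add_zero, map_mul, MvPolynomial.finSuccEquiv_X_zero,
      Polynomial.coeff_map]
    change (Polynomial.X * MvPolynomial.finSuccEquiv k m (MvPolynomial.rename Fin.succ _)).coeff 1 = _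
    rw [hren, Polynomial.coeff_X_mul, Polynomial.coeff_C_zero]
  | succ i =>
    rw [Polynomial.coeff_X_mul, Polynomial.coeff_C_mul, map_add, map_mul, map_mul, map_pow,
      MvPolynomial.finSuccEquiv_X_zero, Polynomial.coeff_map, Polynomial.coeff_map]
    change (Polynomial.X * MvPolynomial.finSuccEquiv k m (MvPolynomial.rename Fin.succ _) +
      Polynomial.X ^ 2 * MvPolynomial.finSuccEquiv k m (MvPolynomial.rename Fin.succ _)).coeff 1 = _
    rw [hren, hren, Polynomial.coeff_add, Polynomial.coeff_X_mul, Polynomial.coeff_C_zero,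
      pow_two, mul_assoc, Polynomial.coeff_X_mul, Polynomial.coeff_X_mul_zero, add_zero]

end Poly

/-! ### Maps between the powers of `BB` -/

theorem evB_X (d : ℕ) (j : Fin d) : evB d (MvPolynomial.X j) = H.map (BB.proj d j) uu := by
  unfold evB
  rw [MvPolynomial.aeval_X]

theorem map_evB {X : SS} {d : ℕ} (φ : SS.Hom X (BB.pow d)) (F : MvPolynomial (Fin d) k →ₐ[k] H X)
    (h : ∀ j, H.map φ (H.map (BB.proj d j) uu) = F (MvPolynomial.X j)) (p : MvPolynomial (Fin d) k) :
    H.map φ (evB d p) = F p := by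
  have h1 : (H.map φ).comp (evB d) = F := by
    apply MvPolynomial.algHom_ext
    intro j
    rw [AlgHom.comp_apply, evB_X, h]
  exact DFunLike.congr_fun h1 p

/-- The sum of the first two coordinates. -/
def alp (m : ℕ) : SS.Hom (BB.pow (m + 2)) (BB.pow (m + 1)) where
  f _ x := Fin.cons (x 0 + x 1) (fun j => x j.succ.succ)
  nat a x := by
    funext i
    refine Fin.cases ?_ (fun j => rfl) i
    show (SV.const k).bar.map a (x 0) + (SV.const k).bar.map a (x 1) =
      (SV.const k).bar.map a (x 0 + x 1)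
    rw [map_add]

theorem map_alp_zero (m : ℕ) : H.map (alp m) (H.map (BB.proj (m + 1) 0) uu) =
    H.map (BB.proj (m + 2) 0) uu + H.map (BB.proj (m + 2) 1) uu := by
  unfold uu
  rw [H.map_cls, H.map_cls, H.map_cls, H.map_cls, ← map_add]
  congr 1
  apply Subtype.ext
  ext n x
  show uC n (x 0 + x 1) = uC n (x 0) + uC n (x 1)
  unfold uC
  by_cases h : n = 1
  · subst h
    rw [single_self, single_self, single_self]
    rfl
  · rw [single_ne h, single_ne h, single_ne h, add_zero]

theorem map_alp (m : ℕ) (p : MvPolynomial (Fin (m + 1)) k) :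
    H.map (alp m) (evB (m + 1) p) = evB (m + 2) (MvPolynomial.aeval
      (Fin.cons (MvPolynomial.X 0 + MvPolynomial.X 1)
      (fun j => MvPolynomial.X j.succ.succ) : Fin (m + 1) → MvPolynomial (Fin (m + 2)) k) p) := by
  refine map_evB (alp m) ((evB (m + 2)).comp (MvPolynomial.aeval
      (Fin.cons (MvPolynomial.X 0 + MvPolynomial.X 1)
      (fun j => MvPolynomial.X j.succ.succ) : Fin (m + 1) → MvPolynomial (Fin (m + 2)) k))) ?_ p
  intro j
  rw [AlgHom.comp_apply, MvPolynomial.aeval_X]
  refine Fin.cases ?_ (fun j => ?_) j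
  · rw [map_alp_zero, Fin.cons_zero, map_add, evB_X, evB_X]
  · rw [Fin.cons_succ, evB_X, ← H.map_comp]
    rfl

theorem rename_cons (m : ℕ) (c : Fin (m + 2)) (p : MvPolynomial (Fin (m + 1)) k) :
    MvPolynomial.rename (Fin.cons c (fun j => j.succ.succ) : Fin (m + 1) → Fin (m + 2)) p =
      MvPolynomial.aeval (Fin.cons (MvPolynomial.X c)
        (fun j => MvPolynomial.X j.succ.succ) : Fin (m + 1) → MvPolynomial (Fin (m + 2)) k) p := by
  have h : (MvPolynomial.rename (Fin.cons c (fun j => j.succ.succ) : Fin (m + 1) → Fin (m + 2)) :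
      MvPolynomial (Fin (m + 1)) k →ₐ[k] _) = MvPolynomial.aeval (Fin.cons (MvPolynomial.X c)
        (fun j => MvPolynomial.X j.succ.succ) : Fin (m + 1) → MvPolynomial (Fin (m + 2)) k) := by
    apply MvPolynomial.algHom_ext
    intro j
    rw [MvPolynomial.rename_X, MvPolynomial.aeval_X]
    refine Fin.cases ?_ (fun j => ?_) j
    · rw [Fin.cons_zero, Fin.cons_zero]
    · rw [Fin.cons_succ, Fin.cons_succ]
  exact DFunLike.congr_fun h p

/-- The circle in the first coordinate. -/
def gam (m : ℕ) : SS.Hom (S1.prod (BB.pow m)) (BB.pow (m + 1)) where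
  f n x := Fin.cons (s1.f n x.1) x.2
  nat a x := by
    funext i
    refine Fin.cases ?_ (fun j => rfl) i
    exact s1.nat a x.1

theorem map_gam_zero (m : ℕ) : H.map (gam m) (H.map (BB.proj (m + 1) 0) uu) =
    H.map (SS.fst S1 (BB.pow m)) ee := by
  unfold ee
  rw [← H.map_comp, ← H.map_comp]
  rfl

theorem map_gam_succ (m : ℕ) (j : Fin m) : H.map (gam m) (H.map (BB.proj (m + 1) j.succ) uu) =
    H.map (SS.snd S1 (BB.pow m)) (H.map (BB.proj m j) uu) := by
  rw [← H.map_comp, ← H.map_comp]
  rfl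

theorem map_gam_rename (m : ℕ) (p : MvPolynomial (Fin m) k) :
    H.map (gam m) (evB (m + 1) (MvPolynomial.rename Fin.succ p)) =
      H.map (SS.snd S1 (BB.pow m)) (evB m p) := by
  have h1 : ((H.map (gam m)).comp (evB (m + 1))).comp (MvPolynomial.rename Fin.succ) =
      (H.map (SS.snd S1 (BB.pow m))).comp (evB m) := by
    apply MvPolynomial.algHom_ext
    intro j
    rw [AlgHom.comp_apply, AlgHom.comp_apply, AlgHom.comp_apply, MvPolynomial.rename_X, evB_X,
      evB_X, map_gam_succ]
  exact DFunLike.congr_fun h1 p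

theorem map_gam (h : ee * ee = 0) (m : ℕ) (p : MvPolynomial (Fin (m + 1)) k) :
    H.map (gam m) (evB (m + 1) p) =
      H.map (SS.fst S1 (BB.pow m)) ee * H.map (SS.snd S1 (BB.pow m))
        (evB m ((MvPolynomial.finSuccEquiv k m p).coeff 1)) +
      H.map (SS.snd S1 (BB.pow m)) (evB m ((MvPolynomial.finSuccEquiv k m p).coeff 0)) := by
  obtain ⟨r, rfl⟩ := (MvPolynomial.finSuccEquiv k m).symm.surjective p
  rw [AlgEquiv.apply_symm_apply]
  induction r using Polynomial.induction_on' with
  | add p q hp hq =>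
    rw [map_add, map_add, map_add, hp, hq, Polynomial.coeff_add, Polynomial.coeff_add, map_add,
      map_add, map_add, map_add]
    ring
  | monomial n a =>
    have h1 : (MvPolynomial.finSuccEquiv k m).symm (Polynomial.monomial n a) =
        MvPolynomial.rename Fin.succ a * MvPolynomial.X 0 ^ n := by
      rw [AlgEquiv.symm_apply_eq, map_mul, map_pow, MvPolynomial.finSuccEquiv_X_zero,
        ← Polynomial.C_mul_X_pow_eq_monomial]
      congr 1
      have h2 : ((MvPolynomial.finSuccEquiv k m).toAlgHom.comp (MvPolynomial.rename Fin.succ) :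
          MvPolynomial (Fin m) k →ₐ[k] Polynomial (MvPolynomial (Fin m) k)) =
          (Algebra.ofId (MvPolynomial (Fin m) k)
            (Polynomial (MvPolynomial (Fin m) k))).restrictScalars k := by
        apply MvPolynomial.algHom_ext
        intro j
        change MvPolynomial.finSuccEquiv k m (MvPolynomial.rename Fin.succ (MvPolynomial.X j)) = _
        rw [MvPolynomial.rename_X, MvPolynomial.finSuccEquiv_X_succ]
        rfl
      exact (DFunLike.congr_fun h2 a).symm
    rw [h1, map_mul, map_mul, map_gam_rename, map_pow, map_pow, evB_X, map_gam_zero,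
      Polynomial.coeff_monomial, Polynomial.coeff_monomial]
    match n with
    | 0 =>
      rw [if_pos rfl, if_neg (by decide), pow_zero, mul_one, map_zero, map_zero, mul_zero, zero_add]
    | 1 =>
      rw [if_pos rfl, if_neg (by decide), pow_one, map_zero, map_zero, add_zero, mul_comm]
    | n + 2 =>
      rw [if_neg (by omega), if_neg (by omega), map_zero, map_zero, mul_zero, add_zero, pow_add,
        pow_two, ← map_mul, h, map_zero, mul_zero, mul_zero]

theorem LF_pow (m : ℕ) : (BB.pow m).LF := by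
  intro n
  show Finite (Fin m → Nrm n k)
  have h2 : Finite k := inferInstanceAs (Finite (ZMod 2))
  have h3 : Finite (Fin (n + 1) → k) := Pi.finite
  have h4 : Finite (Nrm n k) := Subtype.finite
  exact Pi.finite

end Squ

open Squ in
/-- SQU: the operations on the product of the generators. -/
theorem SQU (h1 : K1_Stmt) (h2 : SK_Stmt) (h3 : SUS_Stmt) (h4 : POPD_Stmt) (h5 : ADD_Stmt)
    (h6 : PW2_Stmt) : SQU_Stmt := by
  intro m
  induction m with
  | zero =>
    intro i hi
    obtain rfl : i = 0 := by omega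
    rw [coeff_St_top, map_pow]
    exact Pop_one _
  | succ m ih =>
    intro i hi
    by_cases him : i = m + 1
    · subst him
      rw [coeff_St_top, map_pow, show m + 1 + 1 - (m + 1) = 1 by omega]
      exact Pop_one _
    have hi' : i ≤ m := by omega
    obtain ⟨s, hs⟩ : ∃ s, m = s + i := ⟨m - i, by omega⟩
    have hs1 : m + 1 + 1 - i = s + 2 := by omega
    have hs2 : m + 1 - i = s + 1 := by omega
    have ih' := ih i hi'
    rw [hs2] at ih'
    rw [hs1]
    have hU : evB (m + 1) (∏ j, MvPolynomial.X j) ∈ Hn (BB.pow (m + 1)) (m + 1) :=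
      evB_mem _ _ _ homog_prod
    have hmem := (h4 (BB.pow (m + 1)) (s + 2) (m + 1) _ hU).1 (m + 1 + i) (by omega)
    obtain ⟨P, hP, hPe⟩ := (h1 (m + 1)).2 _ _ hmem
    have hinj := (h1 (m + 1)).1
    -- symmetry
    have hsym : ∀ σ : Equiv.Perm (Fin (m + 1)), MvPolynomial.rename σ P = P := by
      intro σ
      apply hinj
      rw [← evB_reidx, hPe, ← (Pop (s + 2)).nat, evB_reidx, rename_prod]
    -- additivity
    have hadd := h6 m P (by
      apply (h1 (m + 2)).1
      rw [map_add, ← map_alp, ← rename_cons, ← rename_cons, ← evB_reidx, ← evB_reidx, hPe,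
        ← (Pop (s + 2)).nat, ← (Pop (s + 2)).nat, ← (Pop (s + 2)).nat, ← map_add]
      congr 1
      rw [map_alp, evB_reidx, evB_reidx, ← map_add]
      congr 1
      rw [rename_cons, rename_cons, Fin.prod_univ_succ]
      simp only [map_mul, map_prod, MvPolynomial.aeval_X, Fin.cons_zero, Fin.cons_succ]
      rw [add_mul])
    have hpow : ∀ e ∈ P.support, ∀ j, ∃ l : ℕ, e j = 2 ^ l := by
      intro e he j
      have hinj' : Function.Injective (Equiv.swap 0 j : Equiv.Perm (Fin (m + 1))) :=
        (Equiv.swap 0 j).injective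
      have h7 : e.mapDomain (Equiv.swap 0 j) ∈ P.support := by
        rw [MvPolynomial.mem_support_iff]
        have h8 := MvPolynomial.coeff_rename_mapDomain (Equiv.swap 0 j : Equiv.Perm (Fin (m + 1)))
          hinj' P e
        rw [hsym] at h8
        rw [h8]
        exact MvPolynomial.mem_support_iff.mp he
      obtain ⟨l, hl⟩ := hadd _ h7
      refine ⟨l, ?_⟩
      rw [← hl]
      have h9 := Finsupp.mapDomain_apply hinj' e j
      rw [Equiv.swap_apply_right] at h9
      exact h9.symm
    -- the restriction to the circle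
    have hee := h2.1
    have hG := map_gam hee m P
    rw [hPe, ← (Pop (s + 2)).nat, map_gam hee] at hG
    have hU0 : (MvPolynomial.finSuccEquiv k m (∏ j, MvPolynomial.X j)) =
        Polynomial.X * Polynomial.C (∏ j, MvPolynomial.X j) := by
      rw [Fin.prod_univ_succ, map_mul, map_prod, MvPolynomial.finSuccEquiv_X_zero, map_prod]
      simp only [MvPolynomial.finSuccEquiv_X_succ]
    rw [hU0, Polynomial.coeff_X_mul, Polynomial.coeff_C_zero, Polynomial.coeff_X_mul_zero, map_zero,
      map_zero, add_zero, h3, ih'] at hG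
    have hP1 : ((MvPolynomial.finSuccEquiv k m P).coeff 1).IsHomogeneous (m + i) :=
      hP.finSuccEquiv_coeff_isHomogeneous 1 (m + i) (by omega)
    have hP0 : ((MvPolynomial.finSuccEquiv k m P).coeff 0).IsHomogeneous (m + i + 1) :=
      hP.finSuccEquiv_coeff_isHomogeneous 0 (m + i + 1) (by omega)
    have hSK := (h2.2 (BB.pow m) (LF_pow m)).2 (m + i)
      (evB m ((MvPolynomial.finSuccEquiv k m P).coeff 1 - (St m (∏ j, MvPolynomial.X j)).coeff i))
      (evB_mem _ _ _ (hP1.sub (homog_St i)))
      (evB m ((MvPolynomial.finSuccEquiv k m P).coeff 0)) (evB_mem _ _ _ hP0) (by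
        rw [map_sub, map_sub, mul_sub, hG]
        ring)
    have hcoef : (MvPolynomial.finSuccEquiv k m P).coeff 1 =
        (St m (∏ j, MvPolynomial.X j)).coeff i := by
      apply (h1 m).1
      rw [← sub_eq_zero, ← map_sub]
      exact hSK.1
    -- the conclusion
    have hPQ : P = (St (m + 1) (∏ j, MvPolynomial.X j)).coeff i := by
      refine h5 m (m + 1 + i) P _ (by omega) hP (homog_St i) hsym (symm_St i) hpow (pow_St i) ?_
      intro e he
      have h7 : (Finsupp.tail e).cons 1 = e := by
        have h8 := Finsupp.cons_tail e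
        rwa [he] at h8
      rw [← h7, ← MvPolynomial.finSuccEquiv_coeff_coeff, ← MvPolynomial.finSuccEquiv_coeff_coeff,
        hcoef, coeff_one_St]
    rw [← hPe, hPQ]

end Pool.Agent.SHS


end

section

/-!
Block III-S: products of independent homogeneous families are independent.
-/

namespace Pool.Agent.SHS

namespace Indx

open TensorProduct

theorem key {F V W U : Type} [Field F] [AddCommGroup V] [Module F V] [AddCommGroup W] [Module F W]
    [AddCommGroup U] [Module F U] {I J I' J' : Type} (Φ : V →ₗ[F] W →ₗ[F] U) (β : I' → V)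
    (γ : J' → W) (hβ : LinearIndependent F β) (hγ : LinearIndependent F γ)
    (hK : LinearIndependent F (fun p : I' × J' => Φ (β p.1) (γ p.2))) (b : I → V) (c : J → W)
    (hb : LinearIndependent F b) (hc : LinearIndependent F c)
    (hb' : ∀ i, b i ∈ Submodule.span F (Set.range β))
    (hc' : ∀ j, c j ∈ Submodule.span F (Set.range γ)) :
    LinearIndependent F (fun p : I × J => Φ (b p.1) (c p.2)) := by
  let V' := Submodule.span F (Set.range β)
  let W' := Submodule.span F (Set.range γ)
  let Bβ : Module.Basis I' F V' := Module.Basis.span hβ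
  let Bγ : Module.Basis J' F W' := Module.Basis.span hγ
  let Ψ : V' ⊗[F] W' →ₗ[F] U := TensorProduct.lift (Φ.compl₁₂ V'.subtype W'.subtype)
  have hΨ : ∀ (v : V') (w : W'), Ψ (v ⊗ₜ w) = Φ v w := fun v w => by simp [Ψ]
  have e1 : Ψ = (Finsupp.linearCombination F (fun p : I' × J' => Φ (β p.1) (γ p.2))) ∘ₗ
      (Bβ.tensorProduct Bγ).repr.toLinearMap := by
    refine (Bβ.tensorProduct Bγ).ext fun p => ?_
    rw [Module.Basis.tensorProduct_apply, hΨ, LinearMap.comp_apply]
    have h1 : (Bβ.tensorProduct Bγ).repr.toLinearMap (Bβ p.1 ⊗ₜ[F] Bγ p.2) =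
        Finsupp.single p 1 := by
      rw [← Module.Basis.tensorProduct_apply]
      exact (Bβ.tensorProduct Bγ).repr_self p
    have h2 : ((Bβ p.1 : V') : V) = β p.1 :=
      congrArg Subtype.val (Module.Basis.span_apply hβ p.1)
    have h3 : ((Bγ p.2 : W') : W) = γ p.2 :=
      congrArg Subtype.val (Module.Basis.span_apply hγ p.2)
    rw [h1, Finsupp.linearCombination_single, one_smul, h2, h3]
  have hinj : Function.Injective Ψ := by
    have h4 : Function.Injective (Finsupp.linearCombination F
        (fun p : I' × J' => Φ (β p.1) (γ p.2))) := hK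
    rw [e1, LinearMap.coe_comp]
    exact h4.comp (Bβ.tensorProduct Bγ).repr.injective
  let b' : I → V' := fun i => ⟨b i, hb' i⟩
  let c' : J → W' := fun j => ⟨c j, hc' j⟩
  have hb1 : LinearIndependent F b' := LinearIndependent.of_comp V'.subtype hb
  have hc1 : LinearIndependent F c' := LinearIndependent.of_comp W'.subtype hc
  have h2 := (hb1.tmul_of_isDomain hc1).map' Ψ (LinearMap.ker_eq_bot.mpr hinj)
  have e2 : (Ψ ∘ fun p : I × J => b' p.1 ⊗ₜ[F] c' p.2) = fun p : I × J => Φ (b p.1) (c p.2) := by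
    funext p
    exact hΨ _ _
  rw [e2] at h2
  exact h2

end Indx

theorem INDX (h1 : KUN_Stmt) : INDX_Stmt := by
  intro X Y hX hY I J di dj b c hb hc ib ic
  obtain ⟨I', di', β, hβ⟩ := HBE X
  obtain ⟨J', dj', γ, hγ⟩ := HBE Y
  have K := (h1 X Y hX hY di' dj' β γ hβ hγ).indep
  let Φ : H X →ₗ[k] H Y →ₗ[k] H (X.prod Y) :=
    (LinearMap.mul k (H (X.prod Y))).compl₁₂ (H.map (SS.fst X Y)).toLinearMap
      (H.map (SS.snd X Y)).toLinearMap
  exact Indx.key Φ β γ hβ.indep hγ.indep K b c ib ic
    (fun i => Submodule.span_mono (Set.image_subset_range _ _) (hβ.span _ (hb i)))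
    (fun j => Submodule.span_mono (Set.image_subset_range _ _) (hγ.span _ (hc j)))

end Pool.Agent.SHS


end

section

/-!
Block III-S: the square free products of the classes mu_J are independent.
-/

namespace Pool.Agent.SHS

open Coch

namespace Indep

/-- A homogeneous family is independent if its degree pieces are independent. -/
theorem li_of_deg {X : SS} {I : Type} (d : I → ℕ) (b : I → H X) (hb : ∀ i, b i ∈ Hn X (d i))
    (T : Set I) (h : ∀ D, LinearIndepOn k b {i | i ∈ T ∧ d i = D}) : LinearIndepOn k b T := by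
  classical
  rw [linearIndepOn_iff']
  intro t g ht hsum i hi
  have h1 := congrArg (Hpr (d i)) hsum
  rw [map_zero, map_sum] at h1
  have h2 : ∑ j ∈ t.filter (fun j => d j = d i), g j • b j = 0 := by
    rw [← h1, Finset.sum_filter]
    apply Finset.sum_congr rfl
    intro j _
    split_ifs with hj
    · rw [map_smul, ← hj, Hpr_eq (hb j)]
    · rw [map_smul, Hpr_ne hj (hb j), smul_zero]
  have h3 := (linearIndepOn_iff'.mp (h (d i))) (t.filter (fun j => d j = d i)) g (by
    intro j hj
    rw [Finset.coe_filter] at hj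
    exact ⟨ht hj.1, hj.2⟩) h2
  exact h3 i (Finset.mem_filter.mpr ⟨hi, rfl⟩)

/-- The index type. -/
abbrev Idx (n : ℕ) : Type := {J : Multiset ℕ // Multiset.card J = n}

variable {n : ℕ}

/-- The products. -/
noncomputable def P (μ : Multiset ℕ → H (EM n).toSS) (S : Finset (Idx n)) : H (EM n).toSS :=
  ∏ J ∈ S, μ J.1

/-- The degrees. -/
def dg (S : Finset (Idx n)) : ℕ := ∑ J ∈ S, wgt J.1

theorem P_mem {μ : Multiset ℕ → H (EM n).toSS} (hμ : MuFam n μ) (S : Finset (Idx n)) :
    P μ S ∈ Hn (EM n).toSS (dg S) :=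
  Hn_prod S _ _ fun J _ => hμ.mem J.1 J.2

theorem wgt_pos (hn : 1 ≤ n) (J : Idx n) : 0 < wgt J.1 := by
  have h : Multiset.card (J.1.map (fun i => 2 ^ i)) • 1 ≤ (J.1.map (fun i => 2 ^ i)).sum := by
    apply Multiset.card_nsmul_le_sum
    intro x hx
    obtain ⟨i, _, rfl⟩ := Multiset.mem_map.mp hx
    exact Nat.one_le_two_pow
  rw [Multiset.card_map, J.2, smul_eq_mul, mul_one] at h
  exact lt_of_lt_of_le hn h

theorem dg_pos (hn : 1 ≤ n) {S : Finset (Idx n)} (h : S.Nonempty) : 0 < dg S :=
  Finset.sum_pos (fun J _ => wgt_pos hn J) h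

theorem dg_split {S T : Finset (Idx n)} [DecidableEq (Idx n)] (h : T ⊆ S) :
    dg T + dg (S \ T) = dg S := by
  unfold dg
  rw [add_comm]
  exact Finset.sum_sdiff h

theorem one_ne {n : ℕ} : (1 : H (EM n).toSS) ≠ 0 := by
  intro h
  have h1 : cls (1 : Cocyc (EM n).toSS) = 0 := by rw [map_one]; exact h
  rw [cls_eq_zero] at h1
  obtain ⟨g, hg⟩ := h1
  have h2 := congrArg (fun f : Coch (EM n).toSS => f 0 (0 : EMsub n 0)) hg
  have h3 : (1 : Coch (EM n).toSS) 0 (0 : EMsub n 0) = 1 := by
    rw [cone_apply, if_pos rfl]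
  have h4 : dlt g 0 (0 : EMsub n 0) = 0 := dlt_zero _ _
  have h5 : dlt g 0 (0 : EMsub n 0) = (1 : Coch (EM n).toSS) 0 (0 : EMsub n 0) := h2
  rw [h3, h4] at h5
  exact zero_ne_one h5

/-- The products of a class on the first and a class on the second factor. -/
noncomputable def V (μ : Multiset ℕ → H (EM n).toSS) (A B : Finset (Idx n)) :
    H ((EM n).toSS.prod (EM n).toSS) :=
  H.map (SS.fst (EM n).toSS (EM n).toSS) (P μ A) * H.map (SS.snd (EM n).toSS (EM n).toSS) (P μ B)

open scoped Classical in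
theorem add_P {μ : Multiset ℕ → H (EM n).toSS} (hμ : MuFam n μ) (S : Finset (Idx n)) :
    H.map (EM n).addHom (P μ S) = ∑ T ∈ S.powerset, V μ T (S \ T) := by
  unfold P
  rw [map_prod]
  have h : ∀ J ∈ S, H.map (EM n).addHom (μ J.1)
      = H.map (SS.fst (EM n).toSS (EM n).toSS) (μ J.1)
        + H.map (SS.snd (EM n).toSS (EM n).toSS) (μ J.1) := fun J _ => hμ.prim J.1 J.2
  rw [Finset.prod_congr rfl h, Finset.prod_add]
  apply Finset.sum_congr rfl
  intro T _
  unfold V P
  rw [map_prod, map_prod]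

/-- The defect of additivity. -/
noncomputable def Dl (n : ℕ) : H (EM n).toSS →ₗ[k] H ((EM n).toSS.prod (EM n).toSS) :=
  (H.map (EM n).addHom).toLinearMap - (H.map (SS.fst (EM n).toSS (EM n).toSS)).toLinearMap
    - (H.map (SS.snd (EM n).toSS (EM n).toSS)).toLinearMap

open scoped Classical in
theorem Dl_P {μ : Multiset ℕ → H (EM n).toSS} (hμ : MuFam n μ) {S : Finset (Idx n)}
    (hS : S.Nonempty) :
    Dl n (P μ S) = ∑ T ∈ (S.powerset.erase S).erase ∅, V μ T (S \ T) := by
  have h1 : Dl n (P μ S) = H.map (EM n).addHom (P μ S)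
      - H.map (SS.fst (EM n).toSS (EM n).toSS) (P μ S)
      - H.map (SS.snd (EM n).toSS (EM n).toSS) (P μ S) := rfl
  have m1 : S ∈ S.powerset := Finset.mem_powerset_self S
  have m2 : ∅ ∈ S.powerset.erase S := by
    rw [Finset.mem_erase]
    exact ⟨fun h => hS.ne_empty h.symm, Finset.empty_mem_powerset S⟩
  rw [h1, add_P hμ, ← Finset.add_sum_erase _ _ m1, ← Finset.add_sum_erase _ _ m2]
  have e1 : V μ S (S \ S) = H.map (SS.fst (EM n).toSS (EM n).toSS) (P μ S) := by
    unfold V
    rw [Finset.sdiff_self]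
    unfold P
    rw [Finset.prod_empty, map_one, mul_one]
  have e2 : V μ ∅ (S \ ∅) = H.map (SS.snd (EM n).toSS (EM n).toSS) (P μ S) := by
    unfold V
    rw [Finset.sdiff_empty]
    unfold P
    rw [Finset.prod_empty, map_one, one_mul]
  rw [e1, e2]
  abel

open scoped Classical in
/-- Independence of the products. -/
theorem V_li (hX : INDX_Stmt) {μ : Multiset ℕ → H (EM n).toSS} (hμ : MuFam n μ) (D : ℕ)
    (h : LinearIndepOn k (P μ) {S | dg S < D}) :
    LinearIndepOn k (fun x : (_ : Finset (Idx n)) × Finset (Idx n) => V μ x.2 (x.1 \ x.2))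
      {x | x.2 ⊆ x.1 ∧ dg x.2 < D ∧ dg (x.1 \ x.2) < D} := by
  have h1 := hX (EM n).toSS (EM n).toSS (EMF n) (EMF n)
    (I := {S : Finset (Idx n) // dg S < D}) (J := {S : Finset (Idx n) // dg S < D})
    (fun S => dg S.1) (fun S => dg S.1) (fun S => P μ S.1) (fun S => P μ S.1)
    (fun S => P_mem hμ S.1) (fun S => P_mem hμ S.1) h h
  have h2 := h1.comp (fun x : {x : (_ : Finset (Idx n)) × Finset (Idx n) //
      x.2 ⊆ x.1 ∧ dg x.2 < D ∧ dg (x.1 \ x.2) < D} =>
    ((⟨x.1.2, x.2.2.1⟩, ⟨x.1.1 \ x.1.2, x.2.2.2⟩) :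
      {S : Finset (Idx n) // dg S < D} × {S : Finset (Idx n) // dg S < D})) (by
    rintro ⟨⟨S, T⟩, hx⟩ ⟨⟨S', T'⟩, hx'⟩ he
    have he1 : T = T' := congrArg (fun p => p.1.1) he
    have he2 : S \ T = S' \ T' := congrArg (fun p => p.2.1) he
    subst he1
    have e1 : S \ T ∪ T = S := Finset.sdiff_union_of_subset hx.1
    have e2 : S' \ T ∪ T = S' := Finset.sdiff_union_of_subset hx'.1
    have e3 : S = S' := by rw [← e1, ← e2, he2]
    subst e3
    rfl)
  exact h2

theorem single_li (h2 : MSI_Stmt) (h3 : K1_Stmt) {μ : Multiset ℕ → H (EM n).toSS}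
    (hμ : MuFam n μ) : LinearIndepOn k (P μ) {S | ∃ J, S = {J}} := by
  classical
  obtain ⟨ρ, -, hρ⟩ := hμ.res
  have a1 := (h2 n).map' (evB n).toLinearMap (LinearMap.ker_eq_bot.mpr (h3 n).1)
  have a2 : LinearIndependent k (fun S : {S : Finset (Idx n) // ∃ J, S = {J}} =>
      (H.map ρ).toLinearMap (P μ S.1)) := by
    have a3 := a1.comp (fun S : {S : Finset (Idx n) // ∃ J, S = {J}} => S.2.choose) (by
      intro S S' he
      apply Subtype.ext
      rw [S.2.choose_spec, S'.2.choose_spec]
      exact congrArg _ he)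
    have a4 : (fun S : {S : Finset (Idx n) // ∃ J, S = {J}} => (H.map ρ).toLinearMap (P μ S.1))
        = (fun S : {S : Finset (Idx n) // ∃ J, S = {J}} =>
          (evB n).toLinearMap (msym n (S.2.choose).1)) := by
      funext S
      have e1 : P μ S.1 = μ (S.2.choose).1 := by
        unfold P
        conv_lhs => rw [S.2.choose_spec]
        rw [Finset.prod_singleton]
      rw [e1]
      exact hρ _ (S.2.choose).2
    rw [a4]
    exact a3
  exact a2.of_comp (H.map ρ).toLinearMap

theorem step (h1 : INDX_Stmt) (h2 : MSI_Stmt) (h3 : K1_Stmt) (hn : 1 ≤ n)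
    {μ : Multiset ℕ → H (EM n).toSS} (hμ : MuFam n μ) (D : ℕ)
    (h : LinearIndepOn k (P μ) {S | dg S < D}) : LinearIndepOn k (P μ) {S | dg S = D} := by
  classical
  rw [linearIndepOn_iff']
  intro s c hs hsum
  rcases Nat.eq_zero_or_pos D with rfl | hD
  · intro S hS
    have he : S = ∅ := by
      by_contra hne
      have := dg_pos hn (Finset.nonempty_iff_ne_empty.mpr hne)
      have h0 : dg S = 0 := hs hS
      omega
    have hs' : ∀ T ∈ s, T ≠ S → c T • P μ T = 0 := by
      intro T hT hTS
      exfalso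
      apply hTS
      rw [he]
      by_contra hne
      have := dg_pos hn (Finset.nonempty_iff_ne_empty.mpr hne)
      have h0 : dg T = 0 := hs hT
      omega
    rw [Finset.sum_eq_single_of_mem S hS hs'] at hsum
    refine (smul_eq_zero.mp hsum).resolve_right ?_
    rw [he]
    exact one_ne
  · have hne : ∀ S ∈ s, S.Nonempty := by
      intro S hS
      rw [Finset.nonempty_iff_ne_empty]
      rintro rfl
      have h0 : dg (∅ : Finset (Idx n)) = D := hs hS
      have h1 : dg (∅ : Finset (Idx n)) = 0 := rfl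
      omega
    have e1 := congrArg (Dl n) hsum
    rw [map_zero, map_sum] at e1
    have e2 : ∑ S ∈ s, ∑ T ∈ (S.powerset.erase S).erase ∅, c S • V μ T (S \ T) = 0 := by
      rw [← e1]
      apply Finset.sum_congr rfl
      intro S hS
      rw [map_smul, Dl_P hμ (hne S hS), Finset.smul_sum]
    rw [Finset.sum_sigma'] at e2
    have e3 := (linearIndepOn_iff'.mp (V_li h1 hμ D h))
      (s.sigma fun S => (S.powerset.erase S).erase ∅) (fun x => c x.1) (by
        rintro ⟨S, T⟩ hx
        rw [Finset.mem_coe, Finset.mem_sigma] at hx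
        obtain ⟨hS, hT⟩ := hx
        simp only [Finset.mem_erase, Finset.mem_powerset] at hT
        obtain ⟨hT0, hTS, hsub⟩ := hT
        have hd : dg S = D := hs hS
        have d1 := dg_split hsub
        have d2 : 0 < dg T := dg_pos hn (Finset.nonempty_iff_ne_empty.mpr hT0)
        have d3 : 0 < dg (S \ T) := by
          apply dg_pos hn
          rw [Finset.sdiff_nonempty]
          intro h'
          exact hTS (Finset.Subset.antisymm hsub h')
        refine ⟨hsub, ?_, ?_⟩
        · show dg T < D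
          omega
        · show dg (S \ T) < D
          omega) e2
    have e4 : ∀ S ∈ s, (¬ ∃ J, S = {J}) → c S = 0 := by
      intro S hS hJ
      obtain ⟨J, hJS⟩ := hne S hS
      refine e3 ⟨S, {J}⟩ ?_
      rw [Finset.mem_sigma]
      refine ⟨hS, ?_⟩
      simp only [Finset.mem_erase, Finset.mem_powerset, Finset.singleton_subset_iff]
      exact ⟨Finset.singleton_ne_empty J, fun h' => hJ ⟨J, h'.symm⟩, hJS⟩
    have e5 : ∑ S ∈ s.filter (fun S => ∃ J, S = {J}), c S • P μ S = 0 := by
      rw [← hsum, Finset.sum_filter]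
      apply Finset.sum_congr rfl
      intro S hS
      split_ifs with hJ
      · rfl
      · rw [e4 S hS hJ, zero_smul]
    have e6 := (linearIndepOn_iff'.mp (single_li h2 h3 hμ)) _ c (by
      intro S hS
      rw [Finset.coe_filter] at hS
      exact hS.2) e5
    intro S hS
    by_cases hJ : ∃ J, S = {J}
    · exact e6 S (Finset.mem_filter.mpr ⟨hS, hJ⟩)
    · exact e4 S hS hJ

theorem all_deg (h1 : INDX_Stmt) (h2 : MSI_Stmt) (h3 : K1_Stmt) (hn : 1 ≤ n)
    {μ : Multiset ℕ → H (EM n).toSS} (hμ : MuFam n μ) (D : ℕ) :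
    LinearIndepOn k (P μ) {S | dg S = D} := by
  induction D using Nat.strong_induction_on with
  | _ D ih =>
    apply step h1 h2 h3 hn hμ D
    apply li_of_deg dg (P μ) (P_mem hμ)
    intro D'
    by_cases hD : D' < D
    · exact (ih D' hD).mono fun S hS => hS.2
    · have he : {S : Finset (Idx n) | S ∈ {S | dg S < D} ∧ dg S = D'} = ∅ := by
        rw [Set.eq_empty_iff_forall_notMem]
        rintro S ⟨hS1, hS2⟩
        have : dg S < D := hS1
        omega
      rw [he]
      exact linearIndepOn_empty k (P μ)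

end Indep

open Indep in
theorem INDEP (h1 : INDX_Stmt) (h2 : MSI_Stmt) (h3 : K1_Stmt) : INDEP_Stmt := by
  intro n μ hn hμ
  rw [← linearIndepOn_univ_iff]
  apply li_of_deg dg (P μ) (P_mem hμ)
  intro D
  exact (all_deg h1 h2 h3 hn hμ D).mono fun S hS => hS.2

end Pool.Agent.SHS


end

section

/-!
Block III-S, module SC1: the theorem of Serre and Cartan for `EM 1`.
-/

set_option autoImplicit false

namespace Pool.Agent.SHS

open Coch

namespace Sc1

/-- The edge from `a` to `b`. -/
def edg {q : ℕ} (a b : Fin (q + 1)) (h : a ≤ b) : Mor 1 q where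
  toFun j := if j = 0 then a else b
  monotone' := by
    intro i j hij
    show (if i = 0 then a else b) ≤ (if j = 0 then a else b)
    by_cases hi : i = 0
    · rw [if_pos hi]
      split_ifs
      · exact le_rfl
      · exact h
    · have hj : j ≠ 0 := by
        intro hj
        rw [hj] at hij
        exact hi (le_antisymm hij (Fin.zero_le _))
      rw [if_neg hi, if_neg hj]

/-- The triangle `a, b, c`. -/
def tri {q : ℕ} (a b c : Fin (q + 1)) (h : a ≤ b) (h' : b ≤ c) : Mor 2 q where
  toFun j := if j = 0 then a else if j = 1 then b else c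
  monotone' := by
    intro i j hij
    show (if i = 0 then a else if i = 1 then b else c) ≤ (if j = 0 then a else if j = 1 then b else c)
    by_cases hi : i = 0
    · rw [if_pos hi]
      split_ifs
      · exact le_rfl
      · exact h
      · exact h.trans h'
    · have hi0 : 0 < i.1 := Nat.pos_of_ne_zero fun h0 => hi (Fin.ext h0)
      have hij' : i.1 ≤ j.1 := hij
      have hj : j ≠ 0 := by
        intro hj
        rw [hj] at hij'
        have : (0 : Fin (2 + 1)).1 = 0 := rfl
        omega
      rw [if_neg hi, if_neg hj]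
      by_cases hi1 : i = 1
      · rw [if_pos hi1]
        split_ifs
        · exact le_rfl
        · exact h'
      · have hj1 : j ≠ 1 := by
          intro hj1
          have h1 : i.1 ≠ 1 := fun h0 => hi1 (Fin.ext h0)
          rw [hj1] at hij'
          have : (1 : Fin (2 + 1)).1 = 1 := rfl
          omega
        rw [if_neg hi1, if_neg hj1]

theorem edg_zero {q : ℕ} {a b : Fin (q + 1)} (h : a ≤ b) : edg a b h 0 = a := rfl
theorem edg_one {q : ℕ} {a b : Fin (q + 1)} (h : a ≤ b) : edg a b h 1 = b := rfl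

theorem mor1_ext {q : ℕ} {s t : Mor 1 q} (h0 : s 0 = t 0) (h1 : s 1 = t 1) : s = t := by
  apply OrderHom.ext
  funext j
  have hj : j = 0 ∨ j = 1 := by
    revert j
    decide
  rcases hj with rfl | rfl
  · exact h0
  · exact h1

theorem edg_eta {q : ℕ} (s : Mor 1 q) (h : s 0 ≤ s 1) : s = edg (s 0) (s 1) h := mor1_ext rfl rfl

theorem edg_not_inj {q : ℕ} {a : Fin (q + 1)} (h : a ≤ a) : ¬ Function.Injective (edg a a h) := by
  intro hi
  have h1 : (0 : Fin 2) = 1 := hi (show edg a a h 0 = edg a a h 1 from rfl)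
  exact absurd h1 (by decide)

theorem cocyc {q : ℕ} (z : EMsub 1 q) (a b c : Fin (q + 1)) (h : a ≤ b) (h' : b ≤ c) :
    z.1 (edg b c h') + z.1 (edg a c (h.trans h')) + z.1 (edg a b h) = 0 := by
  have h1 := z.2.2 (tri a b c h h')
  have h2 : ∑ i : Fin 3, z.1 ((tri a b c h h').comp (cof i)) = 0 := h1
  rw [Fin.sum_univ_three] at h2
  have e0 : (tri a b c h h').comp (cof 0) = edg b c h' := mor1_ext rfl rfl
  have e1 : (tri a b c h h').comp (cof 1) = edg a c (h.trans h') := mor1_ext rfl rfl
  have e2 : (tri a b c h h').comp (cof 2) = edg a b h := mor1_ext rfl rfl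
  rw [e0, e1, e2] at h2
  exact h2

theorem edg_val {q : ℕ} (z : EMsub 1 q) (a b : Fin (q + 1)) (h : a ≤ b) :
    z.1 (edg a b h) = z.1 (edg 0 b (Fin.zero_le _)) - z.1 (edg 0 a (Fin.zero_le _)) := by
  have h1 := cocyc z 0 a b (Fin.zero_le _) h
  have h2 := k_two (z.1 (edg 0 b (Fin.zero_le _)))
  linear_combination h1 - h2

/-- `EM 1 → BB`. -/
def phi : SS.Hom (EM 1).toSS BB where
  f q z := ⟨fun i => z.1 (edg 0 i (Fin.zero_le i)), z.2.1 _ (edg_not_inj _)⟩
  nat {m n} a z := by
    apply Subtype.ext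
    funext i
    show z.1 (a.comp (edg 0 i (Fin.zero_le i)))
      = z.1 (edg 0 (a i) (Fin.zero_le _)) - z.1 (edg 0 (a 0) (Fin.zero_le _))
    have e : a.comp (edg 0 i (Fin.zero_le i)) = edg (a 0) (a i) (a.monotone (Fin.zero_le i)) :=
      mor1_ext rfl rfl
    rw [e]
    exact edg_val z (a 0) (a i) _

theorem psi_mem {q : ℕ} (g : Nrm q k) : (fun s : Mor 1 q => g.1 (s 1) - g.1 (s 0)) ∈ EMsub 1 q := by
  refine ⟨fun s hs => ?_, fun t => ?_⟩
  · have h : s 0 = s 1 := by
      by_contra hne
      apply hs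
      intro x y hxy
      have hj : ∀ j : Fin 2, j = 0 ∨ j = 1 := by decide
      rcases hj x with rfl | rfl
      · rcases hj y with rfl | rfl
        · rfl
        · exact absurd hxy hne
      · rcases hj y with rfl | rfl
        · exact absurd hxy.symm hne
        · rfl
    show g.1 (s 1) - g.1 (s 0) = 0
    rw [h, sub_self]
  · show ∑ i : Fin 3, (g.1 (t (cof i 1)) - g.1 (t (cof i 0))) = 0
    rw [Fin.sum_univ_three]
    have e1 : (cof (0 : Fin 3) : Mor 1 2) 1 = 2 := rfl
    have e2 : (cof (0 : Fin 3) : Mor 1 2) 0 = 1 := rfl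
    have e3 : (cof (1 : Fin 3) : Mor 1 2) 1 = 2 := rfl
    have e4 : (cof (1 : Fin 3) : Mor 1 2) 0 = 0 := rfl
    have e5 : (cof (2 : Fin 3) : Mor 1 2) 1 = 1 := rfl
    have e6 : (cof (2 : Fin 3) : Mor 1 2) 0 = 0 := rfl
    rw [e1, e2, e3, e4, e5, e6]
    have t1 := k_two (g.1 (t 2))
    have t2 := k_two (g.1 (t 0))
    linear_combination t1 - t2

/-- `BB → EM 1`. -/
def psi : SS.Hom BB (EM 1).toSS where
  f q g := ⟨fun s : Mor 1 q => g.1 (s 1) - g.1 (s 0), psi_mem g⟩
  nat {m n} a g := by
    apply Subtype.ext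
    funext s
    show (g.1 (a (s 1)) - g.1 (a 0)) - (g.1 (a (s 0)) - g.1 (a 0)) = g.1 (a (s 1)) - g.1 (a (s 0))
    abel

theorem psi_phi (n : ℕ) (x : (EM 1).toSS.X n) : psi.f n (phi.f n x) = x := by
  apply Subtype.ext
  funext s
  show x.1 (edg 0 (s 1) (Fin.zero_le _)) - x.1 (edg 0 (s 0) (Fin.zero_le _)) = x.1 s
  have h : s 0 ≤ s 1 := s.monotone (Fin.zero_le _)
  rw [← edg_val x (s 0) (s 1) h, ← edg_eta s h]

theorem phi_psi (n : ℕ) (y : BB.X n) : phi.f n (psi.f n y) = y := by
  apply Subtype.ext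
  funext i
  show y.1 i - y.1 0 = y.1 i
  rw [show y.1 0 = 0 from y.2, sub_zero]

theorem HB_reindex {X : SS} {I J : Type} {di : I → ℕ} {b : I → H X} (hb : HB X di b) (e : J ≃ I) :
    HB X (fun j => di (e j)) (fun j => b (e j)) where
  mem j := hb.mem (e j)
  indep := hb.indep.comp e e.injective
  span n := by
    refine (hb.span n).trans (Submodule.span_mono ?_)
    rintro _ ⟨i, hi, rfl⟩
    refine ⟨e.symm i, ?_, ?_⟩
    · show di (e (e.symm i)) = n
      rw [e.apply_symm_apply]
      exact hi
    · show b (e (e.symm i)) = b i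
      rw [e.apply_symm_apply]

theorem wgt_singleton (i : ℕ) : wgt {i} = 2 ^ i := by
  unfold wgt
  rw [Multiset.map_singleton, Multiset.sum_singleton]

/-- Multisets with one element. -/
noncomputable def sgl : ℕ ≃ {J : Multiset ℕ // Multiset.card J = 1} :=
  Equiv.ofBijective (fun i => ⟨{i}, Multiset.card_singleton i⟩) (by
    constructor
    · intro i j h
      exact Multiset.singleton_inj.mp (congrArg Subtype.val h)
    · rintro ⟨J, hJ⟩
      obtain ⟨a, ha⟩ := Multiset.card_eq_one.mp hJ
      exact ⟨a, Subtype.ext ha.symm⟩)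

theorem msym_one (i : ℕ) : msym 1 {i} = MvPolynomial.X 0 ^ (2 ^ i) := by
  unfold msym
  have h : (Fintype.piFinset (fun _ : Fin 1 => ({i} : Multiset ℕ).toFinset)).filter
      (fun f => Multiset.ofList (List.ofFn f) = {i}) = {fun _ => i} := by
    ext f
    rw [Finset.mem_filter, Fintype.mem_piFinset, Finset.mem_singleton]
    constructor
    · rintro ⟨h1, _⟩
      funext j
      have h2 := h1 j
      rw [Multiset.toFinset_singleton, Finset.mem_singleton] at h2
      exact h2
    · rintro rfl
      refine ⟨fun j => ?_, ?_⟩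
      · rw [Multiset.toFinset_singleton, Finset.mem_singleton]
      · rfl
  rw [h, Finset.sum_singleton, Fin.prod_univ_one]

end Sc1

open Sc1 in
theorem SC1 (h1 : K1A_Stmt) (h2 : K1_Stmt) : SC1_Stmt := by
  intro μ hμ
  have hb := HB.iso phi psi psi_phi phi_psi h1
  have hμ1 : ∀ i : ℕ, μ {i} = H.map phi (uu ^ (2 ^ i)) := by
    intro i
    have h3 : μ {i} ∈ Hn (EM 1).toSS (2 ^ i) := by
      rw [← wgt_singleton]
      exact hμ.mem _ (Multiset.card_singleton i)
    have h4 := hb.span (2 ^ i) h3
    have h5 : (fun m : ℕ => H.map phi (uu ^ m)) '' {m : ℕ | m = 2 ^ i}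
        = {H.map phi (uu ^ (2 ^ i))} := by
      rw [Set.ofPred_eq_eq_singleton, Set.image_singleton]
    rw [h5, Submodule.mem_span_singleton] at h4
    obtain ⟨c, hc⟩ := h4
    have hc01 : ∀ c : ZMod 2, c = 0 ∨ c = 1 := by decide
    rcases hc01 c with h0 | h0
    · exfalso
      rw [h0, zero_smul] at hc
      obtain ⟨ρ, _, hρ⟩ := hμ.res
      have h6 := hρ {i} (Multiset.card_singleton i)
      rw [← hc, map_zero, msym_one] at h6
      have h7 : evB 1 (MvPolynomial.X 0 ^ (2 ^ i)) = evB 1 0 := by rw [map_zero]; exact h6.symm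
      have h8 := (h2 1).1 h7
      exact pow_ne_zero _ (MvPolynomial.X_ne_zero (R := k) (0 : Fin 1)) h8
    · rw [h0, one_smul] at hc
      exact hc.symm
  have key := HB_reindex hb ((Equiv.finsetCongr sgl.symm).trans Finset.equivBitIndices.symm)
  have hdeg : ∀ S : Finset {J : Multiset ℕ // Multiset.card J = 1},
      ((Equiv.finsetCongr sgl.symm).trans Finset.equivBitIndices.symm) S = ∑ J ∈ S, wgt J.1 := by
    intro S
    show ∑ i ∈ S.map sgl.symm.toEmbedding, 2 ^ i = ∑ J ∈ S, wgt J.1
    rw [Finset.sum_map]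
    refine Finset.sum_congr rfl fun J _ => ?_
    obtain ⟨i, rfl⟩ := sgl.surjective J
    show 2 ^ (sgl.symm (sgl i)) = wgt {i}
    rw [sgl.symm_apply_apply, wgt_singleton]
  have hprod : ∀ S : Finset {J : Multiset ℕ // Multiset.card J = 1},
      H.map phi (uu ^ (∑ J ∈ S, wgt J.1)) = ∏ J ∈ S, μ J.1 := by
    intro S
    rw [← Finset.prod_pow_eq_pow_sum, map_prod]
    refine Finset.prod_congr rfl fun J _ => ?_
    obtain ⟨i, rfl⟩ := sgl.surjective J
    show H.map phi (uu ^ wgt {i}) = μ {i}
    rw [hμ1, wgt_singleton]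
  simp only [hdeg, hprod] at key
  exact key

end Pool.Agent.SHS


end

section

/-!
Block III-S: simplicial vector spaces: Moore subspaces, the projection onto them, and a
criterion for levelwise bijectivity.
-/

namespace Pool.Agent.SHS.Spl

open Pool.Agent.SHS.Norm

theorem cf_cf {n i j : ℕ} (h : i ≤ j) :
    (cf (n + 1) (j + 1)).comp (cf n i) = (cf (n + 1) i).comp (cf n j) := by
  apply mext
  intro x
  show (if (if x.1 < i then x.1 else x.1 + 1) < j + 1 then (if x.1 < i then x.1 else x.1 + 1)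
      else (if x.1 < i then x.1 else x.1 + 1) + 1)
    = (if (if x.1 < j then x.1 else x.1 + 1) < i then (if x.1 < j then x.1 else x.1 + 1)
      else (if x.1 < j then x.1 else x.1 + 1) + 1)
  split_ifs <;> omega

section
variable (V : SV)

theorem d_s_lt {n i j : ℕ} (h : i < j) (hj : j ≤ n + 1) (x : V.X (n + 1)) :
    V.map (cf (n + 1) i) (V.map (cd (n + 1) j) x) = V.map (cd n (j - 1)) (V.map (cf n i) x) := by
  rw [← V.map_comp, cd_cf_lt h hj, V.map_comp]

theorem d_s_eq {n j : ℕ} (hj : j ≤ n) (x : V.X n) :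
    V.map (cf n j) (V.map (cd n j) x) = x := by
  rw [← V.map_comp, cd_cf_eq hj, V.map_id]

theorem d_s_eq' {n j : ℕ} (hj : j ≤ n) (x : V.X n) :
    V.map (cf n (j + 1)) (V.map (cd n j) x) = x := by
  rw [← V.map_comp, cd_cf_eq' hj, V.map_id]

theorem d_s_gt {n i j : ℕ} (h : j < i) (hj : i ≤ n + 1) (x : V.X (n + 1)) :
    V.map (cf (n + 1) (i + 1)) (V.map (cd (n + 1) j) x) = V.map (cd n j) (V.map (cf n i) x) := by
  rw [← V.map_comp, cd_cf_gt h hj, V.map_comp]

theorem s_s {n l j : ℕ} (h : l ≤ j) (hj : j ≤ n) (x : V.X n) :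
    V.map (cd (n + 1) (j + 1)) (V.map (cd n l) x)
      = V.map (cd (n + 1) l) (V.map (cd n j) x) := by
  rw [← V.map_comp, cd_cd h hj, V.map_comp]

theorem d_d {n i j : ℕ} (h : i ≤ j) (x : V.X (n + 2)) :
    V.map (cf n i) (V.map (cf (n + 1) (j + 1)) x)
      = V.map (cf n j) (V.map (cf (n + 1) i) x) := by
  rw [← V.map_comp, cf_cf h, V.map_comp]

/-- Elements whose faces with index > c vanish. -/
def G : ∀ n : ℕ, ℕ → Submodule k (V.X n)
  | 0, _ => ⊤
  | n + 1, c =>
    { carrier := {v | ∀ i : ℕ, c < i → i ≤ n + 1 → V.map (cf n i) v = 0}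
      zero_mem' := fun _ _ _ => map_zero _
      add_mem' := fun {v w} hv hw i h h' => by rw [map_add, hv i h h', hw i h h', add_zero]
      smul_mem' := fun c v hv i h h' => by rw [map_smul, hv i h h', smul_zero] }

theorem mem_G {n c : ℕ} {v : V.X (n + 1)} :
    v ∈ G V (n + 1) c ↔ ∀ i : ℕ, c < i → i ≤ n + 1 → V.map (cf n i) v = 0 := Iff.rfl

theorem G_mono {n c c' : ℕ} (h : c ≤ c') : G V n c ≤ G V n c' := by
  cases n with
  | zero => exact le_refl _
  | succ n => exact fun v hv i hi hi' => hv i (lt_of_le_of_lt h hi) hi'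

theorem G_top {n c : ℕ} (h : n ≤ c) (v : V.X n) : v ∈ G V n c := by
  cases n with
  | zero => trivial
  | succ n => exact fun i hi hi' => absurd hi' (by omega)

theorem d_mem {n c : ℕ} {v : V.X (n + 1)} (hv : v ∈ G V (n + 1) (c + 1)) :
    V.map (cf n (c + 1)) v ∈ G V n c := by
  cases n with
  | zero => trivial
  | succ n =>
    intro i hi hi'
    have h := d_d V (n := n) (i := c + 1) (j := i) (by omega) v
    rw [← h, hv (i + 1) (by omega) (by omega), map_zero]

theorem s_mem {n c : ℕ} (hc : c ≤ n) {w : V.X n} (hw : w ∈ G V n c) :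
    V.map (cd n c) w ∈ G V (n + 1) (c + 1) := by
  intro i hi hi'
  cases n with
  | zero => omega
  | succ n =>
    obtain ⟨i', rfl⟩ : ∃ i', i = i' + 1 := ⟨i - 1, by omega⟩
    rw [d_s_gt V (by omega) (by omega), hw i' (by omega) (by omega), map_zero]

theorem mem_of {n c : ℕ} {v : V.X (n + 1)} (hv : v ∈ G V (n + 1) (c + 1))
    (h : V.map (cf n (c + 1)) v = 0) : v ∈ G V (n + 1) c := by
  intro i hi hi'
  by_cases hc : i = c + 1
  · rw [hc]; exact h
  · exact hv i (by omega) hi'

end

/-- `f` is bijective on G n c. -/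
def P {V U : SV} (f : SV.Hom V U) (n c : ℕ) : Prop :=
  (∀ v ∈ G V n c, f.f n v = 0 → v = 0) ∧ (∀ u ∈ G U n c, ∃ v ∈ G V n c, f.f n v = u)

theorem P_step {V U : SV} (f : SV.Hom V U) {n c : ℕ} (hc : c ≤ n) (h1 : P f (n + 1) c)
    (h2 : P f n c) : P f (n + 1) (c + 1) := by
  constructor
  · intro v hv h0
    have h3 : V.map (cf n (c + 1)) v = 0 := by
      apply h2.1 _ (d_mem V hv)
      rw [f.nat, h0, map_zero]
    exact h1.1 v (mem_of V hv h3) h0
  · intro u hu
    obtain ⟨w, hw, hwe⟩ := h2.2 _ (d_mem U hu)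
    have h3 : u - f.f (n + 1) (V.map (cd n c) w) ∈ G U (n + 1) c := by
      apply mem_of U
      · apply Submodule.sub_mem _ hu
        rw [f.nat]
        apply s_mem U hc
        rw [hwe]
        exact d_mem U hu
      · rw [map_sub, f.nat, d_s_eq' U hc, hwe, sub_self]
    obtain ⟨v, hv, hve⟩ := h1.2 _ h3
    refine ⟨v + V.map (cd n c) w, Submodule.add_mem _ (G_mono V (Nat.le_succ c) hv)
      (s_mem V hc hw), ?_⟩
    rw [map_add, hve, sub_add_cancel]

theorem P_all {V U : SV} (f : SV.Hom V U) (h : ∀ n, P f n 0) : ∀ n c, c ≤ n → P f n c := by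
  intro n
  induction n with
  | zero => intro c hc; obtain rfl : c = 0 := by omega
            exact h 0
  | succ n ih =>
    intro c
    induction c with
    | zero => intro _; exact h _
    | succ c ihc => intro hc; exact P_step f (by omega) (ihc (by omega)) (ih c (by omega))

/-- Criterion: bijectivity on Moore chains implies levelwise bijectivity. -/
theorem crit {V U : SV} (f : SV.Hom V U) (h : ∀ n, P f n 0) (n : ℕ) :
    Function.Bijective (f.f n) := by
  obtain ⟨h1, h2⟩ := P_all f h n n (le_refl n)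
  constructor
  · intro a b hab
    have h3 : a - b = 0 := h1 (a - b) (G_top V (le_refl n) _) (by rw [map_sub, hab, sub_self])
    exact sub_eq_zero.mp h3
  · intro u
    obtain ⟨v, _, hv⟩ := h2 u (G_top U (le_refl n) u)
    exact ⟨v, hv⟩

/-! ### the projection -/

section
variable (V : SV)

/-- `r` steps of the projection. -/
def stp (n : ℕ) : ℕ → (V.X (n + 1) →ₗ[k] V.X (n + 1))
  | 0 => LinearMap.id
  | r + 1 => (LinearMap.id + (V.map (cd n (n - r))).comp (V.map (cf n (n - r + 1)))).comp (stp n r)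

theorem stp_succ (n r : ℕ) (v : V.X (n + 1)) :
    stp V n (r + 1) v
      = stp V n r v + V.map (cd n (n - r)) (V.map (cf n (n - r + 1)) (stp V n r v)) := rfl

/-- The projection onto the Moore chains. -/
def pj : ∀ n : ℕ, V.X n →ₗ[k] V.X n
  | 0 => LinearMap.id
  | n + 1 => stp V n (n + 1)

theorem stp_mem (n : ℕ) (v : V.X (n + 1)) : ∀ r ≤ n + 1, stp V n r v ∈ G V (n + 1) (n + 1 - r) := by
  intro r
  induction r with
  | zero => intro _; exact G_top V (by omega) _
  | succ r ih =>
    intro hr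
    have h := ih (by omega)
    have e1 : n + 1 - r = (n - r) + 1 := by omega
    have e2 : n + 1 - (r + 1) = n - r := by omega
    rw [e1] at h
    rw [e2, stp_succ]
    apply mem_of V
    · exact Submodule.add_mem _ h (s_mem V (by omega) (d_mem V h))
    · rw [map_add, d_s_eq' V (by omega), mod_two]

theorem pj_mem (n : ℕ) (v : V.X n) : pj V n v ∈ G V n 0 := by
  cases n with
  | zero => trivial
  | succ n =>
    have h := stp_mem V n v (n + 1) (le_refl _)
    rw [Nat.sub_self] at h
    exact h

theorem stp_eq (n : ℕ) (v : V.X (n + 1)) (hv : v ∈ G V (n + 1) 0) : ∀ r ≤ n + 1, stp V n r v = v := by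
  intro r
  induction r with
  | zero => intro _; rfl
  | succ r ih =>
    intro hr
    rw [stp_succ, ih (by omega), hv (n - r + 1) (by omega) (by omega), map_zero, add_zero]

theorem pj_eq {n : ℕ} {v : V.X n} (hv : v ∈ G V n 0) : pj V n v = v := by
  cases n with
  | zero => rfl
  | succ n => exact stp_eq V n v hv (n + 1) (le_refl _)

theorem stp_s (n j : ℕ) (hj : j ≤ n) (w : V.X n) :
    ∀ r ≤ n - j, ∃ w' : V.X n, stp V n r (V.map (cd n j) w) = V.map (cd n j) w' := by
  intro r
  induction r with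
  | zero => intro _; exact ⟨w, rfl⟩
  | succ r ih =>
    intro hr
    obtain ⟨w', hw'⟩ := ih (by omega)
    obtain ⟨m, rfl⟩ : ∃ m, n = m + 1 := ⟨n - 1, by omega⟩
    obtain ⟨c, hc⟩ : ∃ c, m + 1 - r = c + 1 := ⟨m - r, by omega⟩
    refine ⟨w' + V.map (cd m c) (V.map (cf m (c + 1)) w'), ?_⟩
    rw [stp_succ, hw', hc, d_s_gt V (by omega) (by omega), s_s V (by omega) (by omega), map_add]

theorem stp_zero' (n j : ℕ) (hj : j ≤ n) (w : V.X n) (r : ℕ) :
    stp V n (n - j + 1 + r) (V.map (cd n j) w) = 0 := by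
  induction r with
  | zero =>
    obtain ⟨w', hw'⟩ := stp_s V n j hj w (n - j) (le_refl _)
    rw [add_zero, stp_succ, hw', show n - (n - j) = j by omega, d_s_eq' V hj, mod_two]
  | succ r ih =>
    rw [← add_assoc, stp_succ, ih, map_zero, map_zero, add_zero]

theorem pj_s {n j : ℕ} (hj : j ≤ n) (w : V.X n) : pj V (n + 1) (V.map (cd n j) w) = 0 := by
  have h := stp_zero' V n j hj w j
  rw [show n - j + 1 + j = n + 1 by omega] at h
  exact h

/-- normalised functionals do not see the projection -/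
theorem fun_stp {M : Type*} [AddCommGroup M] [Module k M] (n : ℕ) (l : V.X (n + 1) →ₗ[k] M)
    (hl : ∀ j ≤ n, ∀ w : V.X n, l (V.map (cd n j) w) = 0) (v : V.X (n + 1)) :
    ∀ r, l (stp V n r v) = l v := by
  intro r
  induction r with
  | zero => rfl
  | succ r ih => rw [stp_succ, map_add, hl (n - r) (by omega), add_zero, ih]

end

/-- normalised linear functionals -/
def NF (V : SV) {M : Type*} [AddCommGroup M] [Module k M] : ∀ n : ℕ, (V.X n →ₗ[k] M) → Prop
  | 0, _ => True
  | n + 1, l => ∀ j ≤ n, ∀ w : V.X n, l (V.map (cd n j) w) = 0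

theorem NF.pj {V : SV} {M : Type*} [AddCommGroup M] [Module k M] {n : ℕ} {l : V.X n →ₗ[k] M}
    (hl : NF V n l) (v : V.X n) : l (pj V n v) = l v := by
  cases n with
  | zero => rfl
  | succ n => exact fun_stp V n l hl v (n + 1)

theorem NF_comp_pj (V : SV) {M : Type*} [AddCommGroup M] [Module k M] (n : ℕ)
    (l : V.X n →ₗ[k] M) : NF V n (l.comp (pj V n)) := by
  cases n with
  | zero => trivial
  | succ n =>
    intro j hj w
    show l (Spl.pj V (n + 1) (V.map (cd n j) w)) = 0
    rw [pj_s V hj, map_zero]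

theorem stp_nat {V U : SV} (f : SV.Hom V U) (n : ℕ) (v : V.X (n + 1)) (r : ℕ) :
    f.f (n + 1) (stp V n r v) = stp U n r (f.f (n + 1) v) := by
  induction r with
  | zero => rfl
  | succ r ih => rw [stp_succ, stp_succ, map_add, ih, f.nat, f.nat, ih]

theorem pj_nat {V U : SV} (f : SV.Hom V U) (n : ℕ) (v : V.X n) :
    f.f n (pj V n v) = pj U n (f.f n v) := by
  cases n with
  | zero => rfl
  | succ n => exact stp_nat f n v (n + 1)

end Pool.Agent.SHS.Spl


end

section

/-!
Block III-S: simplicial vector spaces: linear maps to `EM n` and to the contractible objects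
`CE n` (normalised cochains on simplices).
-/

namespace Pool.Agent.SHS.Spl

open Pool.Agent.SHS.Norm

/-- a non injective monotone map factors through a codegeneracy -/
theorem fac_cd {n m : ℕ} (s : Mor (n + 1) m) (hs : ¬ Function.Injective s) :
    ∃ j ≤ n, ∃ s' : Mor n m, s = s'.comp (cd n j) := by
  have h1 : ∃ x y : Fin (n + 2), x < y ∧ s x = s y := by
    rw [Function.Injective] at hs
    push Not at hs
    obtain ⟨a, b, hab, hne⟩ := hs
    rcases lt_or_gt_of_ne hne with h | h
    · exact ⟨a, b, h, hab⟩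
    · exact ⟨b, a, h, hab.symm⟩
  obtain ⟨x, y, hxy, he⟩ := h1
  have hx : x.1 ≤ n := by
    have := y.2
    have h2 : x.1 < y.1 := hxy
    omega
  have h3 : ∀ z : Fin (n + 2), z.1 = x.1 + 1 → s z = s x := by
    intro z hz
    apply le_antisymm
    · rw [he]
      apply s.monotone
      have h2 : x.1 < y.1 := hxy
      show z.1 ≤ y.1
      omega
    · apply s.monotone
      show x.1 ≤ z.1
      omega
  refine ⟨x.1, hx, s.comp (cf n x.1), ?_⟩
  apply OrderHom.ext
  funext z
  show s z = s ((cf n x.1) ((cd n x.1) z))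
  have hz := z.2
  by_cases h : z.1 = x.1
  · have e1 : z = x := Fin.ext h
    rw [e1]
    symm
    apply h3
    show (if (if x.1 ≤ x.1 then min x.1 n else x.1 - 1) < x.1 then
      (if x.1 ≤ x.1 then min x.1 n else x.1 - 1)
      else (if x.1 ≤ x.1 then min x.1 n else x.1 - 1) + 1) = x.1 + 1
    split_ifs <;> omega
  · congr 1
    apply Fin.ext
    show z.1 = (if (if z.1 ≤ x.1 then min z.1 n else z.1 - 1) < x.1 then
      (if z.1 ≤ x.1 then min z.1 n else z.1 - 1)
      else (if z.1 ≤ x.1 then min z.1 n else z.1 - 1) + 1)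
    split_ifs <;> omega

theorem inj_zero {m : ℕ} (s : Mor 0 m) : Function.Injective s := by
  intro x y _
  apply Fin.ext
  have := x.2
  have := y.2
  omega

theorem NF.deg {V : SV} {n : ℕ} {l : V.X n →ₗ[k] k} (hl : NF V n l) {m : ℕ} (s : Mor n m)
    (hs : ¬ Function.Injective s) (x : V.X m) : l (V.map s x) = 0 := by
  cases n with
  | zero => exact absurd (inj_zero s) hs
  | succ n =>
    obtain ⟨j, hj, s', rfl⟩ := fac_cd s hs
    rw [V.map_comp]
    exact hl j hj _

/-- The linear map to `EM n` given by a normalised linear cocycle. -/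
def EMl (V : SV) (n : ℕ) (l : V.X n →ₗ[k] k) (hl : NF V n l)
    (hc : ∀ v : V.X (n + 1), ∑ i : Fin (n + 2), l (V.map (cof i) v) = 0) : SV.Hom V (EM n) where
  f q :=
    { toFun := fun x => ⟨fun s => l (V.map s x), fun s hs => hl.deg s hs x, fun t => by
        have h := hc (V.map t x)
        refine Eq.trans (Finset.sum_congr rfl fun i _ => ?_) h
        show l (V.map (t.comp (cof i)) x) = l (V.map (cof i) (V.map t x))
        rw [V.map_comp]⟩
      map_add' := fun x y => by
        apply Subtype.ext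
        funext s
        show l (V.map s (x + y)) = l (V.map s x) + l (V.map s y)
        rw [map_add, map_add]
      map_smul' := fun c x => by
        apply Subtype.ext
        funext s
        show l (V.map s (c • x)) = c • l (V.map s x)
        rw [map_smul, map_smul] }
  nat a x := by
    apply Subtype.ext
    funext s
    show l (V.map s (V.map a x)) = l (V.map (a.comp s) x)
    rw [V.map_comp]

theorem EMl_apply (V : SV) (n : ℕ) (l : V.X n →ₗ[k] k) (hl : NF V n l)
    (hc : ∀ v : V.X (n + 1), ∑ i : Fin (n + 2), l (V.map (cof i) v) = 0) (v : V.X n) :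
    ((EMl V n l hl hc).f n v).1 OrderHom.id = l v := by
  show l (V.map OrderHom.id v) = l v
  rw [V.map_id]

/-- The functional of a linear map to `EM n`. -/
def val {V : SV} {n : ℕ} (x : SV.Hom V (EM n)) : V.X n →ₗ[k] k where
  toFun v := (x.f n v).1 OrderHom.id
  map_add' v w := by
    rw [map_add]; rfl
  map_smul' c v := by
    rw [map_smul]; rfl

theorem val_apply {V : SV} {n : ℕ} (x : SV.Hom V (EM n)) (v : V.X n) :
    val x v = (x.f n v).1 OrderHom.id := rfl

theorem val_map {V : SV} {n q : ℕ} (x : SV.Hom V (EM n)) (v : V.X q) (s : Mor n q) :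
    (x.f q v).1 s = val x (V.map s v) := by
  rw [val_apply, x.nat]
  rfl

theorem val_NF {V : SV} {n : ℕ} (x : SV.Hom V (EM n)) : NF V n (val x) := by
  cases n with
  | zero => trivial
  | succ n =>
    intro j hj w
    rw [← val_map]
    apply (x.f n w).2.1
    intro hi
    have h1 : (cd n j) ⟨j, by omega⟩ = (cd n j) ⟨j + 1, by omega⟩ := by
      apply Fin.ext
      show (if j ≤ j then min j n else j - 1) = (if j + 1 ≤ j then min (j + 1) n else j + 1 - 1)
      split_ifs <;> omega
    have h2 := congrArg Fin.val (hi h1)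
    have h3 : j = j + 1 := h2
    omega

theorem val_coc {V : SV} {n : ℕ} (x : SV.Hom V (EM n)) (v : V.X (n + 1)) :
    ∑ i : Fin (n + 2), val x (V.map (cof i) v) = 0 := by
  have h := (x.f (n + 1) v).2.2 OrderHom.id
  refine Eq.trans (Finset.sum_congr rfl fun i _ => ?_) h
  rw [← val_map]
  rfl

/-- Normalised `n`-cochains on Δ^q. -/
def CEsub (n q : ℕ) : Submodule k (Mor n q → k) where
  carrier := {z | ∀ s : Mor n q, ¬ Function.Injective s → z s = 0}
  zero_mem' := fun _ _ => rfl
  add_mem' := by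
    intro a b h1 h3 s hs
    show a s + b s = 0
    rw [h1 s hs, h3 s hs, add_zero]
  smul_mem' := by
    intro c a h1 s hs
    show c * a s = 0
    rw [h1 s hs, mul_zero]

/-- The simplicial vector space of normalised `n`-cochains on simplices. -/
abbrev CE (n : ℕ) : SV where
  X q := CEsub n q
  map {m q} a :=
    { toFun := fun z => ⟨fun s => z.1 (a.comp s), fun s hs =>
        z.2 _ fun h => hs fun x y hxy => h (congrArg a hxy)⟩
      map_add' := fun _ _ => rfl
      map_smul' := fun _ _ => rfl }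
  map_id z := rfl
  map_comp f g z := rfl

/-- The linear map to `CE n` given by a normalised functional. -/
def CEl (V : SV) (n : ℕ) (l : V.X n →ₗ[k] k) (hl : NF V n l) : SV.Hom V (CE n) where
  f q :=
    { toFun := fun x => ⟨fun s => l (V.map s x), fun s hs => hl.deg s hs x⟩
      map_add' := fun x y => by
        apply Subtype.ext
        funext s
        show l (V.map s (x + y)) = l (V.map s x) + l (V.map s y)
        rw [map_add, map_add]
      map_smul' := fun c x => by
        apply Subtype.ext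
        funext s
        show l (V.map s (c • x)) = c • l (V.map s x)
        rw [map_smul, map_smul] }
  nat a x := by
    apply Subtype.ext
    funext s
    show l (V.map s (V.map a x)) = l (V.map (a.comp s) x)
    rw [V.map_comp]

/-- The inclusion of cocycles. -/
def EtoC (n : ℕ) : SV.Hom (EM n) (CE n) where
  f q :=
    { toFun := fun z => ⟨z.1, z.2.1⟩
      map_add' := fun _ _ => rfl
      map_smul' := fun _ _ => rfl }
  nat a x := rfl

theorem G_map {V U : SV} (f : SV.Hom V U) {n c : ℕ} {v : V.X n} (hv : v ∈ G V n c) :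
    f.f n v ∈ G U n c := by
  cases n with
  | zero => trivial
  | succ n =>
    intro i h1 h2
    rw [← f.nat, hv i h1 h2, map_zero]

/-- strictly monotone maps hitting all positive values -/
theorem supp {n q : ℕ} (s : Mor n q) (hi : Function.Injective s)
    (hs : ∀ i : ℕ, 1 ≤ i → i ≤ q → ∃ x, (s x).1 = i) :
    (s 0).1 ≤ 1 ∧ (∀ x : Fin (n + 1), (s x).1 = x.1 + (s 0).1) ∧ n + (s 0).1 = q := by
  have hmono : ∀ x y : Fin (n + 1), x.1 < y.1 → (s x).1 < (s y).1 := by
    intro x y h
    have h1 : (s x).1 ≤ (s y).1 := s.monotone (le_of_lt (show x < y from h))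
    rcases lt_or_eq_of_le h1 with h2 | h2
    · exact h2
    · have h3 := hi (Fin.ext h2)
      rw [h3] at h
      omega
  have hle : ∀ x y : Fin (n + 1), x.1 ≤ y.1 → (s x).1 ≤ (s y).1 := fun x y h => s.monotone h
  have h0 : (s 0).1 ≤ 1 := by
    by_contra hc
    obtain ⟨x, hx⟩ := hs 1 (le_refl _) (by have := (s 0).2; omega)
    have := hle 0 x (Nat.zero_le _)
    omega
  have hstep : ∀ m : ℕ, ∀ h : m < n + 1, (s ⟨m, h⟩).1 = m + (s 0).1 := by
    intro m
    induction m with
    | zero =>
      intro h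
      have : (⟨0, h⟩ : Fin (n + 1)) = 0 := rfl
      rw [this]
      omega
    | succ m ih =>
      intro h
      have h1 := ih (by omega)
      have h2 := hmono ⟨m, by omega⟩ ⟨m + 1, h⟩ (Nat.lt_succ_self m)
      by_contra hne
      obtain ⟨x, hx⟩ := hs ((s ⟨m, by omega⟩).1 + 1) (by omega) (by
        have := (s ⟨m + 1, h⟩).2
        omega)
      rcases Nat.lt_or_ge m x.1 with h3 | h3
      · have := hle ⟨m + 1, h⟩ x h3
        omega
      · have := hle x ⟨m, by omega⟩ h3
        omega
  refine ⟨h0, fun x => hstep x.1 x.2, ?_⟩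
  have h1 := hstep n (by omega)
  have h2 := (s ⟨n, by omega⟩).2
  by_contra hne
  obtain ⟨x, hx⟩ := hs q (by omega) (le_refl _)
  have := hle x ⟨n, by omega⟩ (by have := x.2; show x.1 ≤ n; omega)
  omega

theorem miss {n q i : ℕ} (hi : i ≤ q + 1) (s : Mor n (q + 1)) (hs : ∀ x, (s x).1 ≠ i) :
    s = (cf q i).comp ((cd q i).comp s) := by
  apply mext
  intro x
  have hx := (s x).2
  have hn := hs x
  show (s x).1 = (if (if (s x).1 ≤ i then min (s x).1 q else (s x).1 - 1) < i then
    (if (s x).1 ≤ i then min (s x).1 q else (s x).1 - 1)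
    else (if (s x).1 ≤ i then min (s x).1 q else (s x).1 - 1) + 1)
  split_ifs <;> omega

theorem CE_supp {n q : ℕ} (z : (CE n).X q) (hz : z ∈ G (CE n) q 0) (s : Mor n q)
    (h : z.1 s ≠ 0) :
    (s 0).1 ≤ 1 ∧ (∀ x : Fin (n + 1), (s x).1 = x.1 + (s 0).1) ∧ n + (s 0).1 = q := by
  apply supp
  · by_contra hi
    exact h (z.2 s hi)
  · intro i h1 h2
    by_contra hc
    push Not at hc
    cases q with
    | zero => omega
    | succ q =>
      apply h
      rw [miss h2 s hc]
      have h3 := congrArg (fun w : (CE n).X q => w.1 ((cd q i).comp s)) (hz i (by omega) h2)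
      exact h3

theorem CE_ext {n q : ℕ} {z w : (CE n).X q} (hz : z ∈ G (CE n) q 0) (hw : w ∈ G (CE n) q 0)
    (h0 : ∀ h : n = q, z.1 (h ▸ OrderHom.id) = w.1 (h ▸ OrderHom.id))
    (h1 : ∀ h : n + 1 = q, z.1 (h ▸ cf n 0) = w.1 (h ▸ cf n 0)) : z = w := by
  rw [← sub_eq_zero]
  have hs := Submodule.sub_mem _ hz hw
  apply Subtype.ext
  funext s
  by_contra hne
  obtain ⟨h2, h3, h4⟩ := CE_supp (z - w) hs s hne
  apply hne
  show z.1 s - w.1 s = 0
  rw [sub_eq_zero]
  rcases Nat.eq_zero_or_pos (s 0).1 with h5 | h5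
  · rw [h5] at h3 h4
    obtain rfl : n = q := h4
    have h6 : s = OrderHom.id := by
      apply mext
      intro x
      exact h3 x
    rw [h6]
    exact h0 rfl
  · have h7 : (s 0).1 = 1 := by omega
    rw [h7] at h3 h4
    subst h4
    have h6 : s = cf n 0 := by
      apply mext
      intro x
      rw [h3 x]
      show x.1 + 1 = if x.1 < 0 then x.1 else x.1 + 1
      rw [if_neg (by omega)]
    rw [h6]
    exact h1 rfl

/-- Moore chains of `EM n`. -/
theorem EM_ext {n q : ℕ} {z w : (EM n).X q} (hz : z ∈ G (EM n) q 0) (hw : w ∈ G (EM n) q 0)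
    (h0 : ∀ h : n = q, z.1 (h ▸ OrderHom.id) = w.1 (h ▸ OrderHom.id)) : z = w := by
  have key : (EtoC n).f q z = (EtoC n).f q w := by
    apply CE_ext (G_map _ hz) (G_map _ hw) h0
    intro h
    subst h
    show z.1 (cf n 0) = w.1 (cf n 0)
    have aux : ∀ z : (EM n).X (n + 1), z ∈ G (EM n) (n + 1) 0 → z.1 (cf n 0) = 0 := by
      intro z hz
      have h2 := z.2.2 OrderHom.id
      rw [Fin.sum_univ_succ, Finset.sum_eq_zero, add_zero] at h2
      · have e : (OrderHom.id.comp (cof 0) : Mor n (n + 1)) = cf n 0 := cof_eq 0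
        rw [← e]
        exact h2
      · intro i _
        have h3 := congrArg (fun w : (EM n).X n => w.1 OrderHom.id)
          (hz (i.1 + 1) (by omega) (by omega))
        have e : (OrderHom.id.comp (cof i.succ) : Mor n (n + 1)) = (cf n (i.1 + 1)).comp OrderHom.id :=
          cof_eq i.succ
        rw [e]
        exact h3
    rw [aux z hz, aux w hw]
  apply Subtype.ext
  exact congrArg (fun w : (CE n).X q => w.1) key

/-- `CE n` is contractible. -/
def CEh (n : ℕ) (q : ℕ) (t : Mor q 1) : (CE n).X q →ₗ[k] (CE n).X q where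
  toFun z := ⟨fun s => if t (s 0) = 0 then z.1 s else 0, fun s hs => by
    show (if t (s 0) = 0 then z.1 s else 0) = 0
    rw [z.2 s hs, ite_self]⟩
  map_add' z w := by
    apply Subtype.ext
    funext s
    show (if t (s 0) = 0 then z.1 s + w.1 s else 0)
      = (if t (s 0) = 0 then z.1 s else 0) + (if t (s 0) = 0 then w.1 s else 0)
    split_ifs <;> simp
  map_smul' c z := by
    apply Subtype.ext
    funext s
    show (if t (s 0) = 0 then c * z.1 s else 0) = c * (if t (s 0) = 0 then z.1 s else 0)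
    split_ifs <;> simp

theorem CEh_nat (n : ℕ) {m q : ℕ} (a : Mor m q) (t : Mor q 1) (z : (CE n).X q) :
    CEh n m (t.comp a) ((CE n).map a z) = (CE n).map a (CEh n q t z) := rfl

theorem CEh_zero (n q : ℕ) (z : (CE n).X q) : CEh n q (cst 0) z = z := by
  apply Subtype.ext
  funext s
  show (if (0 : Fin 2) = 0 then z.1 s else 0) = z.1 s
  rw [if_pos rfl]

theorem CEh_one (n q : ℕ) (z : (CE n).X q) : CEh n q (cst 1) z = 0 := by
  apply Subtype.ext
  funext s
  show (if (1 : Fin 2) = 0 then z.1 s else 0) = 0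
  rw [if_neg (by decide)]

end Pool.Agent.SHS.Spl


end

section

/-!
Block III-S: simplicial vector spaces with finite levels: splitting.
-/

namespace Pool.Agent.SHS.Spl

open Pool.Agent.SHS.Norm

section
variable (V : SV)

theorem mem_ZM {n : ℕ} {v : V.X (n + 1)} :
    v ∈ V.ZM (n + 1) ↔ v ∈ G V (n + 1) 0 ∧ V.map (cf n 0) v = 0 := by
  constructor
  · intro h
    have h1 : ∀ i ≤ n + 1, V.map (cf n i) v = 0 := by
      intro i hi
      apply h n (cf n i)
      intro hs
      obtain ⟨x, hx⟩ := hs ⟨i, by omega⟩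
      have h2 : (if x.1 < i then x.1 else x.1 + 1) = i := congrArg Fin.val hx
      split_ifs at h2 <;> omega
    exact ⟨fun i _ hi => h1 i hi, h1 0 (by omega)⟩
  · rintro ⟨h1, h2⟩ m a ha
    rw [Function.Surjective] at ha
    push Not at ha
    obtain ⟨i, hi⟩ := ha
    have h3 := miss (i := i.1) (by have := i.2; omega) a (fun x hx => hi x (Fin.ext hx))
    rw [h3, V.map_comp]
    rcases Nat.eq_zero_or_pos i.1 with h4 | h4
    · rw [h4, h2, map_zero]
    · rw [h1 i.1 h4 (by have := i.2; omega), map_zero]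

theorem ZM_le (n : ℕ) : V.ZM n ≤ G V n 0 := by
  cases n with
  | zero => intro v _; trivial
  | succ n => exact fun v hv => ((mem_ZM V).1 hv).1

theorem mem_BM {n : ℕ} {v : V.X n} :
    v ∈ V.BM n ↔ ∃ w ∈ G V (n + 1) 0, V.map (cf n 0) w = v := by
  constructor
  · rintro ⟨w, h1, h2⟩
    refine ⟨w, fun i hi hi' => ?_, ?_⟩
    · have h3 := h2 ⟨i - 1, by omega⟩
      rw [cof_eq] at h3
      have e : (Fin.succ (⟨i - 1, by omega⟩ : Fin (n + 1))).1 = i := by
        show i - 1 + 1 = i
        omega
      rw [e] at h3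
      exact h3
    · rw [← h1, cof_eq]; rfl
  · rintro ⟨w, h1, h2⟩
    refine ⟨w, ?_, fun i => ?_⟩
    · rw [cof_eq]; exact h2
    · rw [cof_eq]
      exact h1 _ (Nat.succ_pos _) (by have := i.2; show i.1 + 1 ≤ n + 1; omega)

theorem d0_mem {n : ℕ} {w : V.X (n + 1)} (hw : w ∈ G V (n + 1) 0) :
    V.map (cf n 0) w ∈ V.ZM n := by
  cases n with
  | zero =>
    intro m a ha
    exfalso
    apply ha
    intro y
    refine ⟨0, ?_⟩
    apply Fin.ext
    have := y.2
    have := (a 0).2
    omega
  | succ n =>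
    have h1 : ∀ i ≤ n + 1, V.map (cf n i) (V.map (cf (n + 1) 0) w) = 0 := by
      intro i hi
      rw [← d_d V (n := n) (i := 0) (j := i) (Nat.zero_le _), hw (i + 1) (by omega) (by omega),
        map_zero]
    exact (mem_ZM V).2 ⟨fun i _ hi => h1 i hi, h1 0 (by omega)⟩

theorem BM_le (n : ℕ) : V.BM n ≤ V.ZM n := by
  intro v hv
  obtain ⟨w, h1, rfl⟩ := (mem_BM V).1 hv
  exact d0_mem V h1

end

theorem val_d0 {V : SV} {n : ℕ} (x : SV.Hom V (EM n)) {w : V.X (n + 1)}
    (hw : w ∈ G V (n + 1) 0) : val x (V.map (cf n 0) w) = 0 := by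
  have h := val_coc x w
  rw [Fin.sum_univ_succ, Finset.sum_eq_zero, add_zero] at h
  · rw [cof_eq] at h
    exact h
  · intro i _
    have h2 : V.map (cf n i.succ.1) w = 0 :=
      hw i.succ.1 (Nat.succ_pos _) (by have := i.2; show i.1 + 1 ≤ n + 1; omega)
    rw [cof_eq, h2, map_zero]

theorem val_BM {V : SV} {n : ℕ} (x : SV.Hom V (EM n)) {v : V.X n} (hv : v ∈ V.BM n) :
    val x v = 0 := by
  obtain ⟨w, h1, rfl⟩ := (mem_BM V).1 hv
  exact val_d0 x h1

/-- normalised functionals vanishing on boundaries are cocycles -/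
theorem coc_of {V : SV} {n : ℕ} (l : V.X n →ₗ[k] k) (hl : NF V n l)
    (hb : ∀ v ∈ V.BM n, l v = 0) (v : V.X (n + 1)) :
    ∑ i : Fin (n + 2), l (V.map (cof i) v) = 0 := by
  let e : V.X (n + 1) →ₗ[k] k := ∑ i : Fin (n + 2), l.comp (V.map (cof i))
  have he : ∀ v, e v = ∑ i ∈ Finset.range (n + 2), l (V.map (cf n i) v) := by
    intro v
    show (∑ i : Fin (n + 2), l.comp (V.map (cof i))) v = _
    rw [LinearMap.sum_apply, ← Fin.sum_univ_eq_sum_range (fun i => l (V.map (cf n i) v)) (n + 2)]
    refine Finset.sum_congr rfl fun i _ => ?_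
    rw [cof_eq]
    rfl
  have hN : NF V (n + 1) e := by
    intro j hj w
    rw [he, show n + 2 = j + 2 + (n - j) by omega, sum_mid]
    · refine Finset.sum_eq_zero fun i hi => ?_
      have hi' := Finset.mem_range.1 hi
      obtain ⟨m, rfl⟩ : ∃ m, n = m + 1 := ⟨n - 1, by omega⟩
      rw [show j + 2 + i = (j + 1 + i) + 1 by omega, d_s_gt V (by omega) (by omega)]
      exact hl j (by omega) _
    · rw [d_s_eq V hj, d_s_eq' V hj]
    · intro i hi
      obtain ⟨m, rfl⟩ : ∃ m, n = m + 1 := ⟨n - 1, by omega⟩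
      rw [d_s_lt V hi (by omega)]
      exact hl (j - 1) (by omega) _
  have h1 : e v = ∑ i : Fin (n + 2), l (V.map (cof i) v) := by
    show (∑ i : Fin (n + 2), l.comp (V.map (cof i))) v = _
    rw [LinearMap.sum_apply]
    rfl
  rw [← h1, ← hN.pj v, he, Finset.sum_range_succ']
  have h2 := pj_mem V (n + 1) v
  rw [Finset.sum_eq_zero, zero_add]
  · exact hb _ ((mem_BM V).2 ⟨_, h2, rfl⟩)
  · intro i hi
    have hi' := Finset.mem_range.1 hi
    rw [h2 (i + 1) (by omega) (by omega), map_zero]

/-- data for the boundaries: coordinates on the boundaries extended to normalised functionals -/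
theorem exists_bd (V : SV) (hV : V.LF) (n : ℕ) : ∃ (L : Type) (c : L → (V.X n →ₗ[k] k)),
    Finite L ∧ (∀ l, NF V n (c l)) ∧ (∀ v ∈ V.BM n, (∀ l, c l v = 0) → v = 0) ∧
    (∀ b : L → k, ∃ v ∈ V.BM n, ∀ l, c l v = b l) := by
  have hf : Finite (V.X n) := hV n
  have hf2 : Module.Finite k (V.X n) := Module.Finite.of_finite
  let e := Module.finBasis k (V.BM n)
  have hext : ∀ l, ∃ g : V.X n →ₗ[k] k, g.comp (V.BM n).subtype = e.coord l :=
    fun l => LinearMap.exists_extend (e.coord l)
  choose g hg using hext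
  refine ⟨_, fun l => (g l).comp (pj V n), inferInstance, fun l => NF_comp_pj V n _, ?_, ?_⟩
  · intro v hv h
    have h1 : ∀ l, e.coord l ⟨v, hv⟩ = 0 := by
      intro l
      rw [← hg l]
      have h2 := h l
      rw [LinearMap.comp_apply, pj_eq V (ZM_le V n (BM_le V n hv))] at h2
      exact h2
    have h3 : (⟨v, hv⟩ : V.BM n) = 0 := by
      apply e.ext_elem
      intro l
      rw [map_zero]
      exact h1 l
    exact congrArg Subtype.val h3
  · intro b
    let v : V.BM n := e.equivFun.symm b
    refine ⟨v.1, v.2, fun l => ?_⟩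
    rw [LinearMap.comp_apply, pj_eq V (ZM_le V n (BM_le V n v.2))]
    have h1 := congrArg (fun f => f v) (hg l)
    have h2 : e.coord l v = b l := by
      rw [Module.Basis.coord_apply, ← Module.Basis.equivFun_apply, LinearEquiv.apply_symm_apply]
    rw [← h2]
    exact h1

/-- product of two simplicial vector spaces -/
abbrev prd (W C : SV) : SV where
  X n := W.X n × C.X n
  map a := (W.map a).prodMap (C.map a)
  map_id x := Prod.ext (W.map_id _) (C.map_id _)
  map_comp f g x := Prod.ext (W.map_comp f g _) (C.map_comp f g _)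

def prdl {V W C : SV} (f : SV.Hom V W) (g : SV.Hom V C) : SV.Hom V (prd W C) where
  f n := (f.f n).prod (g.f n)
  nat a x := Prod.ext (f.nat a x) (g.nat a x)

/-- The comparison map is bijective on Moore chains. -/
theorem main_P {V : SV} {I L : ℕ → Type} (x : ∀ j, I j → SV.Hom V (EM j)) (hx : LinBasis V x)
    (c : ∀ n, L n → (V.X n →ₗ[k] k)) (hN : ∀ n l, NF V n (c n l))
    (hinj : ∀ n, ∀ v ∈ V.BM n, (∀ l, c n l v = 0) → v = 0)
    (hsur : ∀ n, ∀ b : L n → k, ∃ v ∈ V.BM n, ∀ l, c n l v = b l) (n : ℕ) :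
    P (prdl (Lam x) (SV.Hom.lift (W := fun p : (Σ n, L n) => CE p.1)
      fun p => CEl V p.1 (c p.1 p.2) (hN p.1 p.2))) n 0 := by
  constructor
  · intro v hv h0
    have h1 : ∀ (m : ℕ) (l : L m) (s : Mor m n), c m l (V.map s v) = 0 := by
      intro m l s
      have h2 := congrArg Prod.snd h0
      have h3 := congrFun h2 ⟨m, l⟩
      exact congrArg (fun z : (CE m).X n => z.1 s) h3
    have hZ : v ∈ V.ZM n := by
      cases n with
      | zero =>
        intro m a ha
        exfalso
        apply ha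
        intro y
        refine ⟨0, ?_⟩
        apply Fin.ext
        have := y.2
        have := (a 0).2
        omega
      | succ n =>
        refine (mem_ZM V).2 ⟨hv, ?_⟩
        exact hinj n _ ((mem_BM V).2 ⟨v, hv, rfl⟩) fun l => h1 n l (cf n 0)
    have hB : v ∈ V.BM n := by
      apply hx.inj n v hZ
      intro i
      have h2 := congrArg Prod.fst h0
      have h3 := congrFun h2 ⟨n, i⟩
      exact congrArg (fun z : (EM n).X n => z.1 OrderHom.id) h3
    apply hinj n v hB
    intro l
    have h2 := h1 n l OrderHom.id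
    rw [V.map_id] at h2
    exact h2
  · rintro u hu
    have hu1 : ∀ p, u.1 p ∈ G (EM p.1) n 0 := by
      intro p
      cases n with
      | zero => trivial
      | succ n =>
        intro i h1 h2
        have h3 := congrArg Prod.fst (hu i h1 h2)
        exact congrFun h3 p
    have hu2 : ∀ p, u.2 p ∈ G (CE p.1) n 0 := by
      intro p
      cases n with
      | zero => trivial
      | succ n =>
        intro i h1 h2
        have h3 := congrArg Prod.snd (hu i h1 h2)
        exact congrFun h3 p
    -- first step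
    have hv1 : ∃ v ∈ G V n 0, ∀ m (h : m + 1 = n) (l : L m),
        c m l (V.map (h ▸ cf m 0) v) = (u.2 ⟨m, l⟩).1 (h ▸ cf m 0) := by
      cases n with
      | zero => exact ⟨0, Submodule.zero_mem _, fun m h => absurd h (by omega)⟩
      | succ n =>
        obtain ⟨b, hb, hb'⟩ := hsur n (fun l => (u.2 ⟨n, l⟩).1 (cf n 0))
        obtain ⟨v, hv, rfl⟩ := (mem_BM V).1 hb
        refine ⟨v, hv, fun m h l => ?_⟩
        obtain rfl : m = n := by omega
        exact hb' l
    obtain ⟨v1, hv1, hv1'⟩ := hv1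
    obtain ⟨v2, hv2, hv2'⟩ := hx.surj n (fun i => (u.1 ⟨n, i⟩).1 OrderHom.id - val (x n i) v1)
    obtain ⟨v3, hv3, hv3'⟩ := hsur n
      (fun l => (u.2 ⟨n, l⟩).1 OrderHom.id - c n l (v1 + v2))
    have hm : v1 + v2 + v3 ∈ G V n 0 := Submodule.add_mem _
      (Submodule.add_mem _ hv1 (ZM_le V n hv2)) (ZM_le V n (BM_le V n hv3))
    refine ⟨v1 + v2 + v3, hm, ?_⟩
    apply Prod.ext
    · funext p
      obtain ⟨j, i⟩ := p
      apply EM_ext
      · exact G_map (x j i) hm
      · exact hu1 ⟨j, i⟩
      · intro h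
        have h' : j = n := h
        subst h'
        show val (x j i) (v1 + v2 + v3) = (u.1 ⟨j, i⟩).1 OrderHom.id
        rw [map_add, map_add, val_BM (x j i) hv3, add_zero, val_apply (x j i) v2, hv2' i,
          add_sub_cancel]
    · funext p
      obtain ⟨m, l⟩ := p
      apply CE_ext
      · exact G_map (CEl V m (c m l) (hN m l)) hm
      · exact hu2 ⟨m, l⟩
      · intro h
        have h' : m = n := h
        subst h'
        show c m l (V.map OrderHom.id (v1 + v2 + v3)) = (u.2 ⟨m, l⟩).1 OrderHom.id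
        rw [V.map_id, map_add, hv3' l, add_sub_cancel]
      · intro h
        have h' : m + 1 = n := h
        subst h'
        show c m l (V.map (cf m 0) (v1 + v2 + v3)) = (u.2 ⟨m, l⟩).1 (cf m 0)
        rw [map_add (V.map (cf m 0)), map_add (V.map (cf m 0)), ((mem_ZM V).1 hv2).2,
          ((mem_ZM V).1 (BM_le V _ hv3)).2, add_zero, add_zero]
        exact hv1' m rfl l

/-- inverse of a levelwise bijective linear simplicial map -/
noncomputable def inv {V U : SV} (f : SV.Hom V U) (h : ∀ n, Function.Bijective (f.f n)) :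
    SV.Hom U V where
  f n := (LinearEquiv.ofBijective (f.f n) (h n)).symm.toLinearMap
  nat {m n} a x := by
    apply (h m).1
    have e1 : ∀ n (y : U.X n), f.f n ((LinearEquiv.ofBijective (f.f n) (h n)).symm y) = y :=
      fun n y => LinearEquiv.apply_symm_apply (LinearEquiv.ofBijective (f.f n) (h n)) y
    show f.f m ((LinearEquiv.ofBijective (f.f m) (h m)).symm (U.map a x))
      = f.f m (V.map a ((LinearEquiv.ofBijective (f.f n) (h n)).symm x))
    rw [e1, f.nat, e1]

theorem inv_right {V U : SV} (f : SV.Hom V U) (h : ∀ n, Function.Bijective (f.f n)) (n : ℕ)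
    (u : U.X n) : f.f n ((inv f h).f n u) = u :=
  LinearEquiv.apply_symm_apply (LinearEquiv.ofBijective (f.f n) (h n)) u

theorem inv_left {V U : SV} (f : SV.Hom V U) (h : ∀ n, Function.Bijective (f.f n)) (n : ℕ)
    (v : V.X n) : (inv f h).f n (f.f n v) = v :=
  LinearEquiv.symm_apply_apply (LinearEquiv.ofBijective (f.f n) (h n)) v

end Pool.Agent.SHS.Spl

namespace Pool.Agent.SHS

open Spl

theorem SPLIT : SPLIT_Stmt := by
  intro V hV I x hx
  choose L c hLf hN hinj hsur using exists_bd V hV
  let C : SV := SV.pi (fun p : (Σ n, L n) => CE p.1)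
  let g : SV.Hom V C := SV.Hom.lift (W := fun p : (Σ n, L n) => CE p.1)
      fun p => CEl V p.1 (c p.1 p.2) (hN p.1 p.2)
  let f : SV.Hom V (prd (EMpi I) C) := prdl (Lam x) g
  have hf : ∀ n, Function.Bijective (f.f n) := crit f (main_P x hx c hN hinj hsur)
  let inl : SV.Hom (EMpi I) (prd (EMpi I) C) :=
    { f := fun n => LinearMap.inl k _ _
      nat := fun a y => Prod.ext rfl (by
        show (0 : C.X _) = C.map a 0
        rw [map_zero]) }
  refine ⟨(inv f hf).comp inl, ?_, ⟨?_⟩⟩
  · intro n w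
    have h := congrArg Prod.fst (inv_right f hf n (w, 0))
    exact h
  · exact
    { h := fun n t => ((inv f hf).f n).comp (((Lam x).f n).prod
        ((LinearMap.pi fun p => (CEh p.1 n t).comp (LinearMap.proj p)).comp (g.f n)))
      nat := by
        intro m n a t v
        show (inv f hf).f m ((Lam x).f m (V.map a v), fun p => CEh p.1 m (t.comp a) (g.f m (V.map a v) p))
          = V.map a ((inv f hf).f n ((Lam x).f n v, fun p => CEh p.1 n t (g.f n v p)))
        rw [← (inv f hf).nat, (Lam x).nat, g.nat]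
        rfl
      zero := by
        intro n v
        show (inv f hf).f n ((Lam x).f n v, fun p => CEh p.1 n (cst 0) (g.f n v p)) = v
        have h1 : (fun p => CEh p.1 n (cst 0) (g.f n v p)) = g.f n v := by
          funext p
          exact CEh_zero _ _ _
        rw [h1]
        exact inv_left f hf n v
      one := by
        intro n v
        show (inv f hf).f n ((Lam x).f n v, fun p => CEh p.1 n (cst 1) (g.f n v p))
          = (inv f hf).f n ((Lam x).f n v, 0)
        have h1 : (fun p => CEh p.1 n (cst 1) (g.f n v p)) = 0 := by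
          funext p
          exact CEh_one _ _ _
        rw [h1] }

end Pool.Agent.SHS


end

section

/-!
Block III-S: simplicial vector spaces with finite levels: existence of linear bases, classes of
linear cocycles.
-/

namespace Pool.Agent.SHS.Spl

open Pool.Agent.SHS.Norm

theorem exists_comp {E F : Type*} [AddCommGroup E] [Module k E] [AddCommGroup F] [Module k F]
    (f : E →ₗ[k] F) (g : E →ₗ[k] k) (h : ∀ v, f v = 0 → g v = 0) :
    ∃ u : F →ₗ[k] k, ∀ v, u (f v) = g v := by
  have h1 : g ∈ LinearMap.range f.dualMap := by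
    rw [LinearMap.range_dualMap_eq_dualAnnihilator_ker, Submodule.mem_dualAnnihilator]
    exact fun v hv => h v hv
  obtain ⟨u, hu⟩ := h1
  exact ⟨u, fun v => congrArg (fun l : Module.Dual k E => l v) hu⟩

section
variable (V : SV)

/-- The coboundary of a linear functional. -/
def dl (n : ℕ) (l : V.X n →ₗ[k] k) : V.X (n + 1) →ₗ[k] k :=
  ∑ i : Fin (n + 2), l.comp (V.map (cof i))

theorem dl_apply (n : ℕ) (l : V.X n →ₗ[k] k) (v : V.X (n + 1)) :
    dl V n l v = ∑ i : Fin (n + 2), l (V.map (cof i) v) := by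
  unfold dl
  rw [LinearMap.sum_apply]
  rfl

theorem dl_range (n : ℕ) (l : V.X n →ₗ[k] k) (v : V.X (n + 1)) :
    dl V n l v = ∑ i ∈ Finset.range (n + 2), l (V.map (cf n i) v) := by
  rw [dl_apply, ← Fin.sum_univ_eq_sum_range (fun i => l (V.map (cf n i) v)) (n + 2)]
  refine Finset.sum_congr rfl fun i _ => ?_
  rw [cof_eq]

theorem NF_dl {n : ℕ} {l : V.X n →ₗ[k] k} (hl : NF V n l) : NF V (n + 1) (dl V n l) := by
  intro j hj w
  rw [dl_range, show n + 2 = j + 2 + (n - j) by omega, sum_mid]
  · refine Finset.sum_eq_zero fun i hi => ?_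
    have hi' := Finset.mem_range.1 hi
    obtain ⟨m, rfl⟩ : ∃ m, n = m + 1 := ⟨n - 1, by omega⟩
    rw [show j + 2 + i = (j + 1 + i) + 1 by omega, d_s_gt V (by omega) (by omega)]
    exact hl j (by omega) _
  · rw [d_s_eq V hj, d_s_eq' V hj]
  · intro i hi
    obtain ⟨m, rfl⟩ : ∃ m, n = m + 1 := ⟨n - 1, by omega⟩
    rw [d_s_lt V hi (by omega)]
    exact hl (j - 1) (by omega) _

theorem dl_G {n : ℕ} (l : V.X n →ₗ[k] k) {w : V.X (n + 1)} (hw : w ∈ G V (n + 1) 0) :
    dl V n l w = l (V.map (cf n 0) w) := by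
  rw [dl_range, Finset.sum_range_succ', Finset.sum_eq_zero, zero_add]
  intro i hi
  have hi' := Finset.mem_range.1 hi
  rw [hw (i + 1) (by omega) (by omega), map_zero]

theorem delta_lin (n : ℕ) (l : V.X n →ₗ[k] k) : V.toSS.cm.delta n l = dl V n l := by
  funext v
  rw [CM.delta_apply, Finset.sum_apply, dl_apply]
  rfl

/-- linear cochains -/
abbrev lcm : CM where
  X n := V.X n →ₗ[k] k
  map a :=
    { toFun := fun l => l.comp (V.map a)
      map_add' := fun _ _ => rfl
      map_smul' := fun _ _ => rfl }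
  map_id l := by
    apply LinearMap.ext
    intro v
    show l (V.map OrderHom.id v) = l v
    rw [V.map_id]
  map_comp f g l := by
    apply LinearMap.ext
    intro v
    show l (V.map (g.comp f) v) = l (V.map f (V.map g v))
    rw [V.map_comp]

theorem lcm_delta (n : ℕ) (l : V.X n →ₗ[k] k) : (lcm V).delta n l = dl V n l := by
  rw [CM.delta_apply]
  rfl

theorem dl_add (n : ℕ) (l l' : V.X n →ₗ[k] k) : dl V n (l + l') = dl V n l + dl V n l' := by
  rw [← lcm_delta, map_add, lcm_delta, lcm_delta]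

/-- every linear cocycle is cohomologous to a normalised one -/
theorem exists_NF {n : ℕ} (l : V.X n →ₗ[k] k) (h : dl V n l = 0) :
    ∃ l' : V.X n →ₗ[k] k, NF V n l' ∧ dl V n l' = 0 ∧
      ((l' - l : V.X n →ₗ[k] k) : V.X n → k) ∈ V.toSS.cm.cc.B n := by
  cases n with
  | zero => exact ⟨l, trivial, h, by rw [sub_self]; exact Submodule.zero_mem _⟩
  | succ n =>
    obtain ⟨u, hu⟩ := NORM (lcm V) n l (fun i => by
      rw [lcm_delta, h, map_zero])
    refine ⟨l + dl V n u, ?_, ?_, ?_⟩
    · intro j hj w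
      have h1 := hu ⟨j, by omega⟩
      rw [cod_eq, lcm_delta] at h1
      exact congrArg (fun f : V.X n →ₗ[k] k => f w) h1
    · have h2 := (lcm V).delta_delta n u
      rw [lcm_delta, lcm_delta] at h2
      rw [dl_add, h, h2, add_zero]
    · rw [add_sub_cancel_left, ← delta_lin]
      exact ⟨u, rfl⟩

/-- a normalised functional which vanishes on Moore cycles is a coboundary -/
theorem exists_cob {n : ℕ} (l : V.X n →ₗ[k] k) (hl : NF V n l) (h : ∀ v ∈ V.ZM n, l v = 0) :
    (l : V.X n → k) ∈ V.toSS.cm.cc.B n := by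
  cases n with
  | zero =>
    have h1 : (l : V.X 0 → k) = 0 := by
      funext v
      apply h v
      intro m a ha
      exfalso
      apply ha
      intro y
      refine ⟨0, ?_⟩
      apply Fin.ext
      have := y.2
      have := (a 0).2
      omega
    rw [h1]
    exact Submodule.zero_mem _
  | succ n =>
    obtain ⟨u, hu⟩ := exists_comp ((V.map (cf n 0)).comp (G V (n + 1) 0).subtype)
      (l.comp (G V (n + 1) 0).subtype) (fun v hv => h v.1 ((mem_ZM V).2 ⟨v.2, hv⟩))
    have h2 : dl V n (u.comp (pj V n)) = l := by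
      apply LinearMap.ext
      intro v
      rw [← (NF_dl V (NF_comp_pj V n u)).pj v, dl_G V _ (pj_mem V (n + 1) v), ← hl.pj v,
        LinearMap.comp_apply, pj_eq V (ZM_le V n (d0_mem V (pj_mem V (n + 1) v)))]
      exact hu ⟨pj V (n + 1) v, pj_mem V (n + 1) v⟩
    rw [← h2, ← delta_lin]
    exact ⟨_, rfl⟩

end

theorem single_pull {X Y : SS} (f : SS.Hom X Y) (n : ℕ) (φ : Y.X n → k) :
    Coch.pull f (Coch.single n φ) = Coch.single n (fun x => φ (f.f n x)) := by
  ext m x
  rw [Coch.pull_apply]
  by_cases h : m = n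
  · subst h
    rw [Coch.single_self, Coch.single_self]
  · rw [Coch.single_ne h, Coch.single_ne h]

theorem val_delta {V : SV} {n : ℕ} (x : SV.Hom V (EM n)) : V.toSS.cm.delta n (val x) = 0 := by
  rw [delta_lin]
  funext v
  show dl V n (val x) v = 0
  rw [dl_apply]
  exact val_coc x v

theorem map_iota {V : SV} {n : ℕ} (x : SV.Hom V (EM n)) :
    H.map x.toSS (iota n) = clsN n (val x) (val_delta x) := by
  unfold iota clsN
  rw [H.map_cls]
  congr 1
  apply Subtype.ext
  show Coch.pull x.toSS (iotaC n) = Coch.single n (val x)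
  unfold iotaC
  rw [single_pull]
  rfl

end Pool.Agent.SHS.Spl

namespace Pool.Agent.SHS

open Spl

theorem LBE : LBE_Stmt := by
  intro V hV
  have hex : ∀ n, ∃ (I : Type) (x : I → SV.Hom V (EM n)), Finite I ∧
      (∀ v ∈ V.ZM n, (∀ i, val (x i) v = 0) → v ∈ V.BM n) ∧
      (∀ c : I → k, ∃ v ∈ V.ZM n, ∀ i, val (x i) v = c i) := by
    intro n
    have hf : Finite (V.X n) := hV n
    have hf2 : Module.Finite k (V.X n) := Module.Finite.of_finite
    let Q := (V.ZM n) ⧸ (V.BM n).submoduleOf (V.ZM n)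
    let e := Module.finBasis k Q
    let q : V.ZM n →ₗ[k] Q := ((V.BM n).submoduleOf (V.ZM n)).mkQ
    have hext : ∀ l, ∃ g : V.X n →ₗ[k] k, g.comp (V.ZM n).subtype = (e.coord l).comp q :=
      fun l => LinearMap.exists_extend ((e.coord l).comp q)
    choose g hg using hext
    have hval : ∀ l, ∀ v : V.ZM n, (g l).comp (pj V n) v.1 = e.coord l (q v) := by
      intro l v
      rw [LinearMap.comp_apply, pj_eq V (ZM_le V n v.2)]
      exact congrArg (fun f => f v) (hg l)
    have hq : ∀ v : V.ZM n, q v = 0 ↔ v.1 ∈ V.BM n := by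
      intro v
      rw [Submodule.mkQ_apply, Submodule.Quotient.mk_eq_zero]
      rfl
    have hcoc : ∀ l, ∀ v ∈ V.BM n, (g l).comp (pj V n) v = 0 := by
      intro l v hv
      rw [hval l ⟨v, BM_le V n hv⟩, (hq _).2 hv, map_zero]
    refine ⟨_, fun l => EMl V n ((g l).comp (pj V n)) (NF_comp_pj V n _)
      (coc_of _ (NF_comp_pj V n _) (hcoc l)), inferInstance, ?_, ?_⟩
    · intro v hv h
      rw [← hq ⟨v, hv⟩]
      apply e.ext_elem
      intro l
      rw [map_zero]
      have h1 := h l
      rw [val_apply, EMl_apply, hval l ⟨v, hv⟩] at h1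
      exact h1
    · intro c
      obtain ⟨v, hv⟩ := Submodule.mkQ_surjective ((V.BM n).submoduleOf (V.ZM n)) (e.equivFun.symm c)
      refine ⟨v.1, v.2, fun l => ?_⟩
      rw [val_apply, EMl_apply, hval l v]
      have h1 : q v = e.equivFun.symm c := hv
      rw [h1, Module.Basis.coord_apply, ← Module.Basis.equivFun_apply,
        LinearEquiv.apply_symm_apply]
  choose I x hfin hinj hsurj using hex
  exact ⟨I, x, ⟨hfin, hinj, hsurj⟩⟩

theorem LCS : LCS_Stmt := by
  intro V hV I x hx j l h
  have hfin := hx.fin j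
  have hfi : Fintype (I j) := Fintype.ofFinite _
  rw [delta_lin] at h
  have h0 : dl V j l = 0 := by
    apply LinearMap.ext
    intro v
    exact congrFun h v
  obtain ⟨l', hl', hd', hB'⟩ := exists_NF V l h0
  have hb : ∀ v ∈ V.BM j, l' v = 0 := by
    intro v hv
    obtain ⟨w, hw, rfl⟩ := (mem_BM V).1 hv
    rw [← dl_G V l' hw, hd']
    rfl
  have h1 : (l'.comp (V.ZM j).subtype) ∈ Submodule.span k
      (Set.range fun i : I j => (val (x j i)).comp (V.ZM j).subtype) := by
    apply mem_span_of_iInf_ker_le_ker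
    intro v hv
    rw [Submodule.mem_iInf] at hv
    exact hb v.1 (hx.inj j v.1 v.2 fun i => hv i)
  rw [Submodule.mem_span_range_iff_exists_fun] at h1
  obtain ⟨c, hc⟩ := h1
  rw [Submodule.mem_span_range_iff_exists_fun]
  refine ⟨c, ?_⟩
  -- the difference is a coboundary
  have h2 : ((l' - ∑ i, c i • val (x j i) : V.X j →ₗ[k] k) : V.X j → k)
      ∈ V.toSS.cm.cc.B j := by
    apply exists_cob
    · cases j with
      | zero => trivial
      | succ j =>
        intro i hi w
        rw [LinearMap.sub_apply, hl' i hi w, LinearMap.sum_apply, Finset.sum_eq_zero, sub_zero]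
        intro p _
        rw [LinearMap.smul_apply, val_NF (x (j + 1) p) i hi w, smul_zero]
    · intro v hv
      have h3 := congrArg (fun f : V.ZM j →ₗ[k] k => f ⟨v, hv⟩) hc
      rw [LinearMap.sub_apply, sub_eq_zero, LinearMap.sum_apply]
      simp only [LinearMap.sum_apply] at h3
      exact h3.symm
  have hker : ∀ i, (val (x j i) : V.X j → k) ∈ LinearMap.ker (V.toSS.cm.delta j) :=
    fun i => val_delta (x j i)
  have hl : (l : V.X j → k) ∈ LinearMap.ker (V.toSS.cm.delta j) := by
    rw [LinearMap.mem_ker, delta_lin, h0]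
    rfl
  have h4 : Kun.clsL V.toSS j (⟨l, hl⟩ - ∑ i, c i • ⟨val (x j i), hker i⟩) = 0 := by
    rw [Kun.clsL_eq_zero]
    have e : ((⟨l, hl⟩ - ∑ i, c i • ⟨val (x j i), hker i⟩ :
          LinearMap.ker (V.toSS.cm.delta j)) : V.X j → k)
        = ((l' - ∑ i, c i • val (x j i) : V.X j →ₗ[k] k) : V.X j → k)
          - ((l' - l : V.X j →ₗ[k] k) : V.X j → k) := by
      funext v
      rw [Submodule.coe_sub, Submodule.coe_sum]
      simp only [Pi.sub_apply, Finset.sum_apply, LinearMap.sub_apply, LinearMap.sum_apply,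
        Submodule.coe_smul, Pi.smul_apply, LinearMap.smul_apply]
      abel
    rw [e]
    exact Submodule.sub_mem _ h2 hB'
  rw [map_sub, sub_eq_zero, map_sum] at h4
  have h5 : clsN j l (by rw [delta_lin]; exact h) = Kun.clsL V.toSS j ⟨l, hl⟩ := rfl
  rw [h5, h4]
  refine Finset.sum_congr rfl fun i _ => ?_
  rw [map_smul, map_iota]
  rfl

end Pool.Agent.SHS


end

section

/-!
Block III-S: the bar construction of `EM n` is homotopy equivalent to `EM (n + 1)`.
-/

namespace Pool.Agent.SHS.Spl

open Pool.Agent.SHS.Norm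

/-- jump functions -/
def tz (n i : ℕ) : Mor (n + 1) 1 where
  toFun x := if x.1 ≤ i then 0 else 1
  monotone' := by
    intro a b h
    have h' : a.1 ≤ b.1 := h
    show (if a.1 ≤ i then (0 : Fin 2) else 1) ≤ (if b.1 ≤ i then 0 else 1)
    split_ifs
    · exact le_refl _
    · exact Fin.zero_le _
    · omega
    · exact le_refl _

def ty (n j : ℕ) : Mor n 1 where
  toFun x := if x.1 < j then 0 else 1
  monotone' := by
    intro a b h
    have h' : a.1 ≤ b.1 := h
    show (if a.1 < j then (0 : Fin 2) else 1) ≤ (if b.1 < j then 0 else 1)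
    split_ifs
    · exact le_refl _
    · exact Fin.zero_le _
    · omega
    · exact le_refl _

theorem tz_same (n j : ℕ) : (tz n j).comp (cf n j) = ty n j := by
  apply OrderHom.ext
  funext x
  show (if (if x.1 < j then x.1 else x.1 + 1) ≤ j then (0 : Fin 2) else 1)
    = if x.1 < j then 0 else 1
  split_ifs <;> first | rfl | omega

theorem tz_succ (n j : ℕ) : (tz n j).comp (cf n (j + 1)) = ty n (j + 1) := by
  apply OrderHom.ext
  funext x
  show (if (if x.1 < j + 1 then x.1 else x.1 + 1) ≤ j then (0 : Fin 2) else 1)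
    = if x.1 < j + 1 then 0 else 1
  split_ifs <;> first | rfl | omega

/-- A contractible simplicial vector space has no homotopy. -/
theorem ctr_ZM (V : SV) (h : ∀ n : ℕ, Mor n 1 → (V.X n →ₗ[k] V.X n))
    (nat : ∀ {m n : ℕ} (a : Mor m n) (t : Mor n 1) (x : V.X n),
      h m (t.comp a) (V.map a x) = V.map a (h n t x))
    (h0 : ∀ (n : ℕ) (x : V.X n), h n (cst 0) x = 0)
    (h1 : ∀ (n : ℕ) (x : V.X n), h n (cst 1) x = x) {n : ℕ} {v : V.X n} (hv : v ∈ V.ZM n) :
    v ∈ V.BM n := by
  let w : V.X (n + 1) := ∑ i ∈ Finset.range (n + 1), h (n + 1) (tz n i) (V.map (cd n i) v)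
  have hw : ∀ j, V.map (cf n j) w = ∑ i ∈ Finset.range (n + 1),
      h n ((tz n i).comp (cf n j)) (V.map (cf n j) (V.map (cd n i) v)) := by
    intro j
    show V.map (cf n j) (∑ i ∈ Finset.range (n + 1), _) = _
    rw [map_sum]
    refine Finset.sum_congr rfl fun i _ => ?_
    rw [nat]
  have hlow : ∀ i j, i ≤ n → j < i → V.map (cf n j) (V.map (cd n i) v) = 0 := by
    intro i j hi hj
    obtain ⟨m, rfl⟩ : ∃ m, n = m + 1 := ⟨n - 1, by omega⟩
    obtain ⟨h2, h3⟩ := (mem_ZM V).1 hv
    rw [d_s_lt V hj (by omega)]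
    rcases Nat.eq_zero_or_pos j with h4 | h4
    · rw [h4, h3, map_zero]
    · rw [h2 j h4 (by omega), map_zero]
  have hhigh : ∀ i j, i + 1 < j → j ≤ n + 1 → V.map (cf n j) (V.map (cd n i) v) = 0 := by
    intro i j hi hj
    obtain ⟨m, rfl⟩ : ∃ m, n = m + 1 := ⟨n - 1, by omega⟩
    obtain ⟨j, rfl⟩ : ∃ j', j = j' + 1 := ⟨j - 1, by omega⟩
    obtain ⟨h2, h3⟩ := (mem_ZM V).1 hv
    rw [d_s_gt V (by omega) (by omega), h2 j (by omega) (by omega), map_zero]
  refine (mem_BM V).2 ⟨w, ?_, ?_⟩
  · intro j hj hj'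
    rw [hw]
    obtain ⟨l, rfl⟩ : ∃ l, j = l + 1 := ⟨j - 1, by omega⟩
    rcases Nat.lt_or_ge l n with hl | hl
    · have h5 := sum_mid (fun i => h n ((tz n i).comp (cf n (l + 1)))
        (V.map (cf n (l + 1)) (V.map (cd n i) v))) l (n - 1 - l)
        (by
          show h n ((tz n l).comp (cf n (l + 1))) (V.map (cf n (l + 1)) (V.map (cd n l) v))
            = h n ((tz n (l + 1)).comp (cf n (l + 1))) (V.map (cf n (l + 1)) (V.map (cd n (l + 1)) v))
          rw [tz_succ, tz_same, d_s_eq' V (by omega), d_s_eq V (by omega)])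
        (by
          intro i hi
          show h n ((tz n i).comp (cf n (l + 1))) (V.map (cf n (l + 1)) (V.map (cd n i) v)) = 0
          rw [hhigh i (l + 1) (by omega) (by omega), map_zero])
      have h6 : l + 2 + (n - 1 - l) = n + 1 := by omega
      rw [h6] at h5
      rw [h5]
      refine Finset.sum_eq_zero fun i hi => ?_
      have hi' := Finset.mem_range.1 hi
      show h n _ (V.map (cf n (l + 1)) (V.map (cd n (l + 2 + i)) v)) = 0
      rw [hlow _ _ (by omega) (by omega), map_zero]
    · have hl' : l = n := by omega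
      subst hl'
      rw [Finset.sum_range_succ, Finset.sum_eq_zero, zero_add, tz_succ, d_s_eq' V (le_refl _)]
      · have e : ty l (l + 1) = cst 0 := by
          apply OrderHom.ext
          funext x
          show (if x.1 < l + 1 then (0 : Fin 2) else 1) = 0
          rw [if_pos x.2]
        rw [e, h0]
      · intro i hi
        have hi' := Finset.mem_range.1 hi
        rw [hhigh i (l + 1) (by omega) (by omega), map_zero]
  · rw [hw, Finset.sum_range_succ', Finset.sum_eq_zero, zero_add, tz_same, d_s_eq V (Nat.zero_le _)]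
    · have e : ty n 0 = cst 1 := by
        apply OrderHom.ext
        funext x
        show (if x.1 < 0 then (0 : Fin 2) else 1) = 1
        rw [if_neg (by omega)]
      rw [e, h1]
    · intro i hi
      have hi' := Finset.mem_range.1 hi
      rw [hlow (i + 1) 0 (by omega) (by omega), map_zero]

/-! ### the free path object -/

/-- All functions on the vertices. -/
abbrev EG (G : SV) : SV where
  X n := Fin (n + 1) → G.X n
  map a :=
    { toFun := fun g i => G.map a (g (a i))
      map_add' := fun g g' => by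
        funext i
        show G.map a (g (a i) + g' (a i)) = G.map a (g (a i)) + G.map a (g' (a i))
        rw [map_add]
      map_smul' := fun c g => by
        funext i
        show G.map a (c • g (a i)) = c • G.map a (g (a i))
        rw [map_smul] }
  map_id g := by
    funext i
    exact G.map_id _
  map_comp f g x := by
    funext i
    exact G.map_comp _ _ _

def EGh (G : SV) (n : ℕ) (t : Mor n 1) : (EG G).X n →ₗ[k] (EG G).X n where
  toFun g i := if t i = 1 then g i else 0
  map_add' g g' := by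
    funext i
    show (if t i = 1 then g i + g' i else 0) = (if t i = 1 then g i else 0) + (if t i = 1 then g' i else 0)
    split_ifs <;> simp
  map_smul' c g := by
    funext i
    show (if t i = 1 then c • g i else 0) = c • (if t i = 1 then g i else 0)
    split_ifs <;> simp

theorem EG_ZM (G : SV) {n : ℕ} {v : (EG G).X n} (hv : v ∈ (EG G).ZM n) : v ∈ (EG G).BM n := by
  refine ctr_ZM (EG G) (EGh G) ?_ ?_ ?_ hv
  · intro m n a t g
    funext i
    show (if t (a i) = 1 then G.map a (g (a i)) else 0) = G.map a (if t (a i) = 1 then g (a i) else 0)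
    split_ifs
    · rfl
    · rw [map_zero]
  · intro n g
    funext i
    show (if (0 : Fin 2) = 1 then g i else 0) = 0
    rw [if_neg (by decide)]
  · intro n g
    funext i
    show (if (1 : Fin 2) = 1 then g i else 0) = g i
    rw [if_pos rfl]

/-- The projection to the bar construction. -/
def EGp (G : SV) : SV.Hom (EG G) G.bar where
  f n :=
    { toFun := fun g => ⟨fun i => g i - g 0, sub_self _⟩
      map_add' := fun g g' => by
        apply Subtype.ext
        funext i
        show (g i + g' i) - (g 0 + g' 0) = (g i - g 0) + (g' i - g' 0)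
        abel
      map_smul' := fun c g => by
        apply Subtype.ext
        funext i
        show c • g i - c • g 0 = c • (g i - g 0)
        rw [smul_sub] }
  nat {m n} a g := by
    apply Subtype.ext
    funext i
    show G.map a (g (a i)) - G.map a (g (a 0)) = G.map a ((g (a i) - g 0) - (g (a 0) - g 0))
    rw [← map_sub]
    congr 1
    abel

theorem EGp_apply (G : SV) (n : ℕ) (g : (EG G).X n) (i : Fin (n + 1)) :
    ((EGp G).f n g).1 i = g i - g 0 := rfl

/-- lifting Moore cycles of the bar construction -/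
theorem bar_lift (G : SV) {m : ℕ} {v : G.bar.X (m + 1)} (hv : v ∈ G.bar.ZM (m + 1)) :
    ∃ g ∈ Spl.G (EG G) (m + 1) 0, (EGp G).f (m + 1) g = v ∧ ∃ c ∈ G.ZM m,
      (EG G).map (cf m 0) g = (fun _ => c) := by
  let g0 : (EG G).X (m + 1) := v.1
  have e0 : (EGp G).f (m + 1) g0 = v := by
    apply Subtype.ext
    funext i
    show v.1 i - v.1 0 = v.1 i
    rw [show v.1 0 = 0 from v.2, sub_zero]
  have hvG : v ∈ Spl.G G.bar (m + 1) 0 := ZM_le G.bar (m + 1) hv
  have e1 : (EGp G).f (m + 1) (pj (EG G) (m + 1) g0) = v := by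
    rw [pj_nat, e0, pj_eq G.bar hvG]
  have hg := pj_mem (EG G) (m + 1) g0
  refine ⟨pj (EG G) (m + 1) g0, hg, e1, (EG G).map (cf m 0) (pj (EG G) (m + 1) g0) 0, ?_, ?_⟩
  · intro l a ha
    have h1 := d0_mem (EG G) hg l a ha
    have h2 := congrFun h1 0
    have h3 : (EG G).map (cf m 0) (pj (EG G) (m + 1) g0) (a 0)
        = (EG G).map (cf m 0) (pj (EG G) (m + 1) g0) 0 := by
      have h4 : (EGp G).f m ((EG G).map (cf m 0) (pj (EG G) (m + 1) g0)) = 0 := by
        rw [(EGp G).nat, e1]
        exact ((mem_ZM G.bar).1 hv).2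
      have h5 := congrArg (fun z : G.bar.X m => z.1 (a 0)) h4
      exact sub_eq_zero.mp h5
    rw [← h3]
    exact h2
  · funext i
    have h4 : (EGp G).f m ((EG G).map (cf m 0) (pj (EG G) (m + 1) g0)) = 0 := by
      rw [(EGp G).nat, e1]
      exact ((mem_ZM G.bar).1 hv).2
    have h5 := congrArg (fun z : G.bar.X m => z.1 i) h4
    exact sub_eq_zero.mp h5

theorem BM_map {V U : SV} (f : SV.Hom V U) {n : ℕ} {v : V.X n} (hv : v ∈ V.BM n) :
    f.f n v ∈ U.BM n := by
  obtain ⟨w, hw, rfl⟩ := (mem_BM V).1 hv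
  exact (mem_BM U).2 ⟨f.f (n + 1) w, G_map f hw, by rw [f.nat]⟩

/-- if the constant is zero then we have a boundary -/
theorem bar_zero (G : SV) {m : ℕ} {v : G.bar.X (m + 1)} {g : (EG G).X (m + 1)}
    (hg : g ∈ Spl.G (EG G) (m + 1) 0) (he : (EGp G).f (m + 1) g = v)
    (hc : (EG G).map (cf m 0) g = 0) : v ∈ G.bar.BM (m + 1) := by
  rw [← he]
  exact BM_map (EGp G) (EG_ZM G ((mem_ZM (EG G)).2 ⟨hg, hc⟩))

/-- every cycle of `G` comes from the bar construction -/
theorem bar_surj (G : SV) {m : ℕ} {c : G.X m} (hc : c ∈ G.ZM m) :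
    ∃ g ∈ Spl.G (EG G) (m + 1) 0, (EGp G).f (m + 1) g ∈ G.bar.ZM (m + 1) ∧
      (EG G).map (cf m 0) g = (fun _ => c) := by
  have h1 : (fun _ => c : (EG G).X m) ∈ (EG G).ZM m := by
    intro l a ha
    funext i
    exact hc l a ha
  obtain ⟨g, hg, he⟩ := (mem_BM (EG G)).1 (EG_ZM G h1)
  refine ⟨g, hg, (mem_ZM G.bar).2 ⟨G_map (EGp G) hg, ?_⟩, he⟩
  rw [← (EGp G).nat, he]
  apply Subtype.ext
  funext i
  exact sub_self c

/-! ### the map to EM (n+1) -/

section
variable (n : ℕ)

/-- The functional on the bar construction. -/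
def psiL : (EM n).bar.X (n + 1) →ₗ[k] k where
  toFun g := (g.1 1).1 (cf n 0)
  map_add' _ _ := rfl
  map_smul' _ _ := rfl

theorem psiL_apply (g : (EM n).bar.X (n + 1)) : psiL n g = (g.1 1).1 (cf n 0) := rfl

theorem psiL_NF : NF (EM n).bar (n + 1) (psiL n) := by
  intro j hj w
  rw [psiL_apply]
  show (w.1 ((cd n j) 1) - w.1 ((cd n j) 0)).1 ((cd n j).comp (cf n 0)) = 0
  rcases Nat.eq_zero_or_pos j with h | h
  · subst h
    have e : (cd n 0) 1 = (cd n 0) 0 := by
      apply Fin.ext
      show (if (1 : Fin (n + 2)).1 ≤ 0 then min (1 : Fin (n + 2)).1 n else (1 : Fin (n + 2)).1 - 1)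
        = (if (0 : Fin (n + 2)).1 ≤ 0 then min (0 : Fin (n + 2)).1 n else (0 : Fin (n + 2)).1 - 1)
      simp
    rw [e, sub_self]
    rfl
  · apply (w.1 ((cd n j) 1) - w.1 ((cd n j) 0)).2.1
    intro hi
    have h1 : ((cd n j).comp (cf n 0)) ⟨j - 1, by omega⟩ = ((cd n j).comp (cf n 0)) ⟨j, by omega⟩ := by
      apply Fin.ext
      show (if (if j - 1 < 0 then j - 1 else j - 1 + 1) ≤ j then
          min (if j - 1 < 0 then j - 1 else j - 1 + 1) n
          else (if j - 1 < 0 then j - 1 else j - 1 + 1) - 1)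
        = (if (if j < 0 then j else j + 1) ≤ j then min (if j < 0 then j else j + 1) n
          else (if j < 0 then j else j + 1) - 1)
      split_ifs <;> omega
    have h2 := congrArg Fin.val (hi h1)
    have h3 : j - 1 = j := h2
    omega

theorem psiL_coc (w : (EM n).bar.X (n + 2)) :
    ∑ i : Fin (n + 3), psiL n ((EM n).bar.map (cof i) w) = 0 := by
  have h1 : ∀ i : ℕ, i ≤ n + 2 → psiL n ((EM n).bar.map (cf (n + 1) i) w)
      = (w.1 ((cf (n + 1) i) 1)).1 ((cf (n + 1) i).comp (cf n 0))
        - (w.1 ((cf (n + 1) i) 0)).1 ((cf (n + 1) i).comp (cf n 0)) := fun i _ => rfl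
  have h2 : ∑ i : Fin (n + 3), psiL n ((EM n).bar.map (cof i) w)
      = ∑ i ∈ Finset.range (n + 3), psiL n ((EM n).bar.map (cf (n + 1) i) w) := by
    rw [← Fin.sum_univ_eq_sum_range (fun i => psiL n ((EM n).bar.map (cf (n + 1) i) w)) (n + 3)]
    refine Finset.sum_congr rfl fun i _ => ?_
    rw [cof_eq]
  have hw0 : w.1 0 = 0 := w.2
  have v1 : ∀ i : ℕ, 2 ≤ i → (cf (n + 1) i) 1 = 1 := by
    intro i hi
    apply Fin.ext
    show (if (1 : Fin (n + 2)).1 < i then (1 : Fin (n + 2)).1 else (1 : Fin (n + 2)).1 + 1) = 1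
    rw [Fin.val_one, if_pos (by omega)]
  have v0 : ∀ i : ℕ, 1 ≤ i → (cf (n + 1) i) 0 = 0 := by
    intro i hi
    apply Fin.ext
    show (if (0 : Fin (n + 2)).1 < i then (0 : Fin (n + 2)).1 else (0 : Fin (n + 2)).1 + 1) = 0
    rw [Fin.val_zero, if_pos (by omega)]
  have v2 : (cf (n + 1) 0) 1 = (cf (n + 1) 1) 1 := by
    apply Fin.ext
    show (if (1 : Fin (n + 2)).1 < 0 then (1 : Fin (n + 2)).1 else (1 : Fin (n + 2)).1 + 1)
      = (if (1 : Fin (n + 2)).1 < 1 then (1 : Fin (n + 2)).1 else (1 : Fin (n + 2)).1 + 1)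
    rw [Fin.val_one, if_neg (by omega), if_neg (by omega)]
  have v3 : (cf (n + 1) 0) 0 = 1 := by
    apply Fin.ext
    show (if (0 : Fin (n + 2)).1 < 0 then (0 : Fin (n + 2)).1 else (0 : Fin (n + 2)).1 + 1) = 1
    rw [Fin.val_zero, if_neg (by omega)]
  have e1 : (cf (n + 1) 1).comp (cf n 0) = (cf (n + 1) 0).comp (cf n 0) :=
    cf_cf (n := n) (i := 0) (j := 0) (le_refl _)
  -- cocycle condition for w.1 1 on the face cf 0
  have h3 : ∑ i ∈ Finset.range (n + 2), (w.1 1).1 ((cf (n + 1) 0).comp (cf n i)) = 0 := by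
    have h4 := (w.1 1).2.2 (cf (n + 1) 0)
    rw [← Fin.sum_univ_eq_sum_range (fun i => (w.1 1).1 ((cf (n + 1) 0).comp (cf n i))) (n + 2)]
    refine Eq.trans (Finset.sum_congr rfl fun i _ => ?_) h4
    rw [cof_eq]
  rw [Finset.sum_range_succ'] at h3
  rw [h2, Finset.sum_range_succ', Finset.sum_range_succ', h1 0 (by omega), h1 (0 + 1) (by omega)]
  have h5 : ∑ i ∈ Finset.range (n + 1), psiL n ((EM n).bar.map (cf (n + 1) (i + 1 + 1)) w)
      = ∑ i ∈ Finset.range (n + 1), (w.1 1).1 ((cf (n + 1) 0).comp (cf n (i + 1))) := by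
    refine Finset.sum_congr rfl fun i hi => ?_
    have hi' := Finset.mem_range.1 hi
    rw [h1 (i + 1 + 1) (by omega), v1 _ (by omega), v0 _ (by omega), hw0,
      cf_cf (n := n) (i := 0) (j := i + 1) (by omega)]
    show _ - (0 : k) = _
    rw [sub_zero]
  rw [h5, v0 (0 + 1) (by omega), hw0, v3, v2]
  rw [show (0 + 1) = 1 from rfl, e1]
  have h6 := eq_neg_of_add_eq_zero_left h3
  rw [h6]
  show -((w.1 1).1 ((cf (n + 1) 0).comp (cf n 0))) + ((w.1 _).1 _ - (0 : k)) + ((w.1 _).1 _ - (w.1 1).1 _) = 0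
  have t1 := k_two ((w.1 ((cf (n + 1) 1) 1)).1 ((cf (n + 1) 0).comp (cf n 0)))
  have t2 := k_two ((w.1 1).1 ((cf (n + 1) 0).comp (cf n 0)))
  linear_combination t1 - t2

/-- The map from the bar construction. -/
def psi : SV.Hom (EM n).bar (EM (n + 1)) := EMl (EM n).bar (n + 1) (psiL n) (psiL_NF n) (psiL_coc n)

theorem psi_val (v : (EM n).bar.X (n + 1)) : ((psi n).f (n + 1) v).1 OrderHom.id = psiL n v :=
  EMl_apply _ _ _ _ _ _

/-- value of psiL on a lift -/
theorem psiL_lift {g : (EG (EM n)).X (n + 1)} (hg : g ∈ Spl.G (EG (EM n)) (n + 1) 0) {c : (EM n).X n}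
    (hc : (EG (EM n)).map (cf n 0) g = (fun _ => c)) :
    psiL n ((EGp (EM n)).f (n + 1) g) = c.1 OrderHom.id := by
  rw [psiL_apply, EGp_apply]
  have h1 : g 0 ∈ Spl.G (EM n) (n + 1) 0 := by
    intro i hi hi'
    have h2 := congrFun (hg i hi hi') 0
    have e : (cf n i) 0 = 0 := by
      apply Fin.ext
      show (if (0 : Fin (n + 1)).1 < i then (0 : Fin (n + 1)).1 else (0 : Fin (n + 1)).1 + 1) = 0
      rw [Fin.val_zero, if_pos (by omega)]
    have h3 : (EM n).map (cf n i) (g ((cf n i) 0)) = 0 := h2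
    rw [e] at h3
    exact h3
  have h2 : g 0 = 0 := EM_ext h1 (Submodule.zero_mem _) (fun h => absurd h (by omega))
  rw [h2, sub_zero]
  have h3 := congrFun hc 0
  have e : (cf n 0) 0 = 1 := by
    apply Fin.ext
    show (if (0 : Fin (n + 1)).1 < 0 then (0 : Fin (n + 1)).1 else (0 : Fin (n + 1)).1 + 1)
      = (1 : Fin (n + 2)).1
    rw [Fin.val_zero, if_neg (by omega), Fin.val_one]
  have h4 : (EM n).map (cf n 0) (g ((cf n 0) 0)) = c := h3
  rw [e] at h4
  rw [← h4]
  rfl

end

/-- index types: one element in degree n + 1 -/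
abbrev I1 (n : ℕ) (j : ℕ) : Type := PLift (j = n + 1)

/-- the family -/
def x1 {V : SV} {n : ℕ} (f : SV.Hom V (EM (n + 1))) (j : ℕ) (i : I1 n j) : SV.Hom V (EM j) :=
  i.down ▸ f

theorem cd_not_inj {n j : ℕ} (hj : j ≤ n) : ¬ Function.Injective (cd n j) := by
  intro hi
  have h1 : (cd n j) ⟨j, by omega⟩ = (cd n j) ⟨j + 1, by omega⟩ := by
    apply Fin.ext
    show (if j ≤ j then min j n else j - 1) = (if j + 1 ≤ j then min (j + 1) n else j + 1 - 1)
    split_ifs <;> omega
  have h2 := congrArg Fin.val (hi h1)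
  have h3 : j = j + 1 := h2
  omega

theorem coc_noninj {n q : ℕ} (z : Mor n q → k) (hz : ∀ s : Mor n q, ¬ Function.Injective s → z s = 0)
    (t : Mor (n + 1) q) (ht : ¬ Function.Injective t) :
    ∑ i : Fin (n + 2), z (t.comp (cof i)) = 0 := by
  obtain ⟨j, hj, t', rfl⟩ := fac_cd t ht
  have h1 : ∑ i : Fin (n + 2), z ((t'.comp (cd n j)).comp (cof i))
      = ∑ i ∈ Finset.range (n + 2), z (t'.comp ((cd n j).comp (cf n i))) := by
    rw [← Fin.sum_univ_eq_sum_range (fun i => z (t'.comp ((cd n j).comp (cf n i)))) (n + 2)]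
    refine Finset.sum_congr rfl fun i _ => ?_
    rw [cof_eq]
    rfl
  have h2 := sum_mid (fun i => z (t'.comp ((cd n j).comp (cf n i)))) j (n - j)
    (by
      show z (t'.comp ((cd n j).comp (cf n j))) = z (t'.comp ((cd n j).comp (cf n (j + 1))))
      rw [cd_cf_eq hj, cd_cf_eq' hj])
    (by
      intro i hi
      obtain ⟨m, rfl⟩ : ∃ m, n = m + 1 := ⟨n - 1, by omega⟩
      show z (t'.comp ((cd (m + 1) j).comp (cf (m + 1) i))) = 0
      rw [cd_cf_lt hi (by omega)]
      apply hz
      intro hinj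
      apply cd_not_inj (n := m) (j := j - 1) (by omega)
      intro a b hab
      apply hinj
      show t' ((cf m i) ((cd m (j - 1)) a)) = t' ((cf m i) ((cd m (j - 1)) b))
      rw [hab])
  have h3 : j + 2 + (n - j) = n + 2 := by omega
  rw [h3] at h2
  rw [h1, h2]
  refine Finset.sum_eq_zero fun i hi => ?_
  have hi' := Finset.mem_range.1 hi
  obtain ⟨m, rfl⟩ : ∃ m, n = m + 1 := ⟨n - 1, by omega⟩
  show z (t'.comp ((cd (m + 1) j).comp (cf (m + 1) (j + 2 + i)))) = 0
  rw [show j + 2 + i = (j + 1 + i) + 1 by omega, cd_cf_gt (by omega) (by omega)]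
  apply hz
  intro hinj
  apply cd_not_inj (n := m) (j := j) (by omega)
  intro a b hab
  apply hinj
  show t' ((cf m (j + 1 + i)) ((cd m j) a)) = t' ((cf m (j + 1 + i)) ((cd m j) b))
  rw [hab]

/-- The fundamental simplex of `EM n`, times a scalar. -/
noncomputable def fund (n : ℕ) (b : k) : (EM n).X n := ⟨fun s => open Classical in
  if Function.Injective s then b else 0, fun s hs => by
    show (if Function.Injective s then b else 0) = 0
    rw [if_neg hs], fun t => coc_noninj _ (fun s hs => by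
    show (if Function.Injective s then b else 0) = 0
    rw [if_neg hs]) t (fun hi => by
    have h1 := Fintype.card_le_of_injective t hi
    rw [Fintype.card_fin, Fintype.card_fin] at h1
    omega)⟩

theorem fund_id (n : ℕ) (b : k) : (fund n b).1 OrderHom.id = b := by
  show (if Function.Injective (OrderHom.id : Mor n n) then b else 0) = b
  rw [if_pos]
  exact fun a b h => h

theorem fund_ZM (n : ℕ) (b : k) : fund n b ∈ (EM n).ZM n := by
  intro m a ha
  apply Subtype.ext
  funext s
  show (if Function.Injective (a.comp s) then b else 0) = 0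
  rw [if_neg]
  intro hi
  apply ha
  have h1 : Function.Injective (a.comp s : Fin (n + 1) → Fin (n + 1)) := hi
  have h2 := Finite.injective_iff_surjective.1 h1
  intro y
  obtain ⟨x, hx⟩ := h2 y
  exact ⟨s x, hx⟩

theorem psi_basis (n : ℕ) : LinBasis (EM n).bar (x1 (psi n)) where
  fin j := by
    have : Subsingleton (I1 n j) := ⟨fun a b => by cases a; cases b; rfl⟩
    exact Finite.of_subsingleton
  inj m v hv h := by
    cases m with
    | zero =>
      have h1 : v = 0 := by
        apply Subtype.ext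
        funext i
        have : i = 0 := Fin.ext (by have := i.2; show i.1 = 0; omega)
        rw [this]
        exact v.2
      rw [h1]
      exact Submodule.zero_mem _
    | succ m =>
      obtain ⟨g, hg, he, c, hc, hc'⟩ := bar_lift (EM n) hv
      apply bar_zero (EM n) hg he
      rw [hc']
      have h0 : c = 0 := by
        apply EM_ext (ZM_le _ _ hc) (Submodule.zero_mem _)
        intro hm
        subst hm
        have h1 := h ⟨rfl⟩
        have h2 : ((psi n).f (n + 1) v).1 OrderHom.id = 0 := h1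
        rw [psi_val, ← he, psiL_lift n hg hc'] at h2
        exact h2
      rw [h0]
      rfl
  surj m b := by
    by_cases hm : m = n + 1
    · subst hm
      obtain ⟨g, hg, hZ, hc⟩ := bar_surj (EM n) (fund_ZM n (b ⟨rfl⟩))
      refine ⟨_, hZ, ?_⟩
      rintro ⟨i⟩
      show ((psi n).f (n + 1) _).1 OrderHom.id = b ⟨rfl⟩
      rw [psi_val, psiL_lift n hg hc]
      exact fund_id n _
    · exact ⟨0, Submodule.zero_mem _, fun i => absurd i.down hm⟩

end Pool.Agent.SHS.Spl

namespace Pool.Agent.SHS

open Spl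

def SV.LHty.toSS {V W : SV} {f g : SV.Hom V W} (h : SV.LHty f g) :
    SS.Homotopy f.toSS g.toSS where
  h n t x := h.h n t x
  nat a t x := h.nat a t x
  zero n x := h.zero n x
  one n x := h.one n x

theorem EMBAR : EMBAR_Stmt := by
  intro n _
  have hLF : (EM n).bar.LF := by
    intro q
    have h1 : Finite ((EM n).X q) := EMF n q
    have h2 : Finite (Fin (q + 1) → (EM n).X q) := Pi.finite
    exact Subtype.finite
  obtain ⟨Γ, h1, ⟨h2⟩⟩ := SPLIT (EM n).bar hLF (x1 (psi n)) (psi_basis n)
  let E : SV.Hom (EM (n + 1)) (EMpi (I1 n)) := SV.Hom.lift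
    (W := fun p : (Σ j, I1 n j) => EM p.1) fun p => x1 (SV.Hom.id (EM (n + 1))) p.1 p.2
  have hE : ∀ q (v : (EM n).bar.X q), E.f q ((psi n).f q v) = (Lam (x1 (psi n))).f q v := by
    intro q v
    funext p
    obtain ⟨j, ⟨rfl⟩⟩ := p
    rfl
  refine ⟨(Γ.comp E).toSS, (psi n).toSS, ?_, ?_⟩
  · intro a
    rw [← H.map_comp]
    have h3 := HTY _ _ _ _ ⟨h2.toSS⟩ a
    have h4 : (Γ.comp (Lam (x1 (psi n)))).toSS = (Γ.comp E).toSS.comp (psi n).toSS := by
      apply SS.Hom.ext'
      intro q v
      show Γ.f q ((Lam (x1 (psi n))).f q v) = Γ.f q (E.f q ((psi n).f q v))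
      rw [hE]
    rw [← h4, ← h3]
    exact H.map_id a
  · intro a
    rw [← H.map_comp]
    have h4 : (psi n).toSS.comp (Γ.comp E).toSS = SS.Hom.id _ := by
      apply SS.Hom.ext'
      intro q z
      have h5 := congrFun (h1 q (E.f q z)) ⟨n + 1, ⟨rfl⟩⟩
      exact h5
    rw [h4, H.map_id]

end Pool.Agent.SHS


end

section

/-!
Block III-S, module BIN: binary digits of exponents.
-/

namespace Pool.Agent.SHS
namespace Bin

variable {G : Type}

/-- The exponents given by a finite set of digits. -/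
noncomputable def eS (S : Finset (G × ℕ)) : G →₀ ℕ := ∑ p ∈ S, Finsupp.single p.1 (2 ^ p.2)

open Classical in
/-- The digits at `s`. -/
noncomputable def fib (S : Finset (G × ℕ)) (s : G) : Finset ℕ :=
  (S.filter (fun p => p.1 = s)).image Prod.snd

theorem mem_fib {S : Finset (G × ℕ)} {s : G} {r : ℕ} : r ∈ fib S s ↔ (s, r) ∈ S := by
  classical
  unfold fib
  simp only [Finset.mem_image, Finset.mem_filter]
  constructor
  · rintro ⟨⟨a, b⟩, ⟨h1, h2⟩, h3⟩
    have h2' : a = s := h2
    have h3' : b = r := h3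
    rw [← h2', ← h3']
    exact h1
  · intro h
    exact ⟨(s, r), ⟨h, rfl⟩, rfl⟩

theorem eS_apply (S : Finset (G × ℕ)) (s : G) : eS S s = ∑ r ∈ fib S s, 2 ^ r := by
  classical
  unfold eS fib
  rw [Finsupp.finsetSum_apply, Finset.sum_image, Finset.sum_filter]
  · refine Finset.sum_congr rfl fun p _ => ?_
    rw [Finsupp.single_apply]
  · intro a ha b hb h
    have h1 := (Finset.mem_filter.mp ha).2
    have h2 := (Finset.mem_filter.mp hb).2
    exact Prod.ext (h1.trans h2.symm) h

theorem injective : Function.Injective (eS (G := G)) := by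
  intro S T h
  ext ⟨s, r⟩
  rw [← mem_fib, ← mem_fib]
  have h1 : ∑ r ∈ fib S s, 2 ^ r = ∑ r ∈ fib T s, 2 ^ r := by
    rw [← eS_apply, ← eS_apply, h]
  rw [← Finset.toFinset_bitIndices_sum_two_pow (fib S s), h1,
    Finset.toFinset_bitIndices_sum_two_pow]

theorem surjective : Function.Surjective (eS (G := G)) := by
  classical
  intro f
  refine ⟨f.support.biUnion (fun s => (Nat.bitIndices (f s)).toFinset.image (fun r => (s, r))),
    ?_⟩
  ext s
  rw [eS_apply]
  have h1 : fib (f.support.biUnion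
      (fun s => (Nat.bitIndices (f s)).toFinset.image (fun r => (s, r)))) s =
      (Nat.bitIndices (f s)).toFinset := by
    ext r
    rw [mem_fib, Finset.mem_biUnion]
    constructor
    · rintro ⟨t, _, h⟩
      obtain ⟨r', h2, h3⟩ := Finset.mem_image.mp h
      have h4 : t = s := congrArg Prod.fst h3
      have h5 : r' = r := congrArg Prod.snd h3
      rw [← h4, ← h5]
      exact h2
    · intro h
      refine ⟨s, ?_, Finset.mem_image.mpr ⟨r, h, rfl⟩⟩
      rw [Finsupp.mem_support_iff]
      intro h0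
      rw [h0] at h
      simp at h
  rw [h1, Finset.sum_toFinset_bitIndices_two_pow]

theorem prod_eq (M : Type) [CommMonoid M] (g : G → M) (S : Finset (G × ℕ)) :
    ∏ p ∈ S, g p.1 ^ (2 ^ p.2) = (eS S).prod (fun s m => g s ^ m) := by
  classical
  unfold eS
  induction S using Finset.induction_on with
  | empty => rw [Finset.prod_empty, Finset.sum_empty, Finsupp.prod_zero_index]
  | insert p S hp ih =>
    rw [Finset.prod_insert hp, Finset.sum_insert hp, ih,
      Finsupp.prod_add_index' (h := fun s m => g s ^ m) (fun _ => pow_zero _)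
        (fun _ _ _ => pow_add _ _ _),
      Finsupp.prod_single_index (h := fun s m => g s ^ m) (pow_zero _)]

theorem sum_eq (w : G → ℕ) (S : Finset (G × ℕ)) :
    ∑ p ∈ S, 2 ^ p.2 * w p.1 = (eS S).sum (fun s m => m * w s) := by
  classical
  unfold eS
  induction S using Finset.induction_on with
  | empty => rw [Finset.sum_empty, Finset.sum_empty, Finsupp.sum_zero_index]
  | insert p S hp ih =>
    rw [Finset.sum_insert hp, Finset.sum_insert hp, ih,
      Finsupp.sum_add_index' (h := fun s m => m * w s) (fun _ => zero_mul _)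
        (fun _ _ _ => add_mul _ _ _),
      Finsupp.sum_single_index (h := fun s m => m * w s) (zero_mul _)]

end Bin

theorem BIN : BIN_Stmt := by
  intro G
  refine ⟨Equiv.ofBijective Bin.eS ⟨Bin.injective, Bin.surjective⟩, ?_, ?_⟩
  · intro M _ g S
    exact Bin.prod_eq M g S
  · intro w S
    exact Bin.sum_eq w S

end Pool.Agent.SHS


end
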