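import Mathlib

/-! Parts: SH.UA1, SH.UA2, SH.UA3, SH.UA4, SH.UA5 -/

section

/-! Additive operations on symmetric powers over `ZMod 2`, evaluated on `B (F_2^d)`.
Part 1: polynomials, linear substitutions, natural operations, the Yoneda lemma. -/

namespace SHU
open MvPolynomial

/-- polynomials in `d` variables over `F_2` (the cohomology of `B (F_2^d)`) -/
abbrev Pl (d : ℕ) := MvPolynomial (Fin d) (ZMod 2)

/-- linear substitution `X_j ↦ ∑ i, L j i X_i` -/
noncomputable def lin {d' d : ℕ} (L : Fin d' → Fin d → ZMod 2) : Pl d' →ₐ[ZMod 2] Pl d :=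
  aeval (fun j => ∑ i, C (L j i) * X i)

theorem lin_X {d' d : ℕ} (L : Fin d' → Fin d → ZMod 2) (j : Fin d') :
    lin L (X j) = ∑ i, C (L j i) * X i := by simp [lin]

theorem rename_eq_lin {d' d : ℕ} (π : Fin d' → Fin d) (x : Pl d') :
    rename π x = lin (fun j i => if π j = i then 1 else 0) x := by
  have : (rename π : Pl d' →ₐ[ZMod 2] Pl d) = lin (fun j i => if π j = i then 1 else 0) := by
    apply MvPolynomial.algHom_ext
    intro j
    rw [lin_X, rename_X, Finset.sum_eq_single (π j)]
    · simp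
    · intro b _ hb
      rw [if_neg (fun h => hb h.symm)]
      simp
    · simp
  rw [this]

/-- the universal product `X_0 ⋯ X_{m-1}` -/
noncomputable def Un (m : ℕ) : Pl m := ∏ i, X i

theorem exists_pi {α : Type*} (m : ℕ) (e : α →₀ ℕ) (h : e.degree = m) :
    ∃ π : Fin m → α, ∑ k, Finsupp.single (π k) 1 = e := by
  classical
  induction m generalizing e with
  | zero =>
    refine ⟨Fin.elim0, ?_⟩
    rw [Finsupp.degree_eq_zero_iff] at h
    simp [h]
  | succ m ih =>
    have hne : e ≠ 0 := by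
      rintro rfl
      simp at h
    obtain ⟨i, hi⟩ := Finsupp.ne_iff.mp hne
    have hi' : 1 ≤ e i := Nat.one_le_iff_ne_zero.mpr (by simpa using hi)
    have hle : Finsupp.single i 1 ≤ e := by
      rw [Finsupp.single_le_iff]
      exact hi'
    have hsplit : Finsupp.single i 1 + (e - Finsupp.single i 1) = e := add_tsub_cancel_of_le hle
    have hd : (e - Finsupp.single i 1).degree = m := by
      have := congrArg Finsupp.degree hsplit
      rw [map_add, h, Finsupp.degree_single] at this
      omega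
    obtain ⟨π, hπ⟩ := ih _ hd
    refine ⟨Fin.cons i π, ?_⟩
    rw [Fin.sum_univ_succ]
    simp only [Fin.cons_zero, Fin.cons_succ]
    rw [hπ, hsplit]

theorem exists_perm {α : Type*} {m : ℕ} (π π' : Fin m → α)
    (h : ∑ k, Finsupp.single (π k) (1 : ℕ) = ∑ k, Finsupp.single (π' k) 1) :
    ∃ σ : Equiv.Perm (Fin m), π' = π ∘ σ := by
  classical
  have hc : ∀ c : α, Nonempty ({a // π' a = c} ≃ {a // π a = c}) := by
    intro c
    rw [← Fintype.card_eq]
    have h1 := DFunLike.congr_fun h c
    rw [Finsupp.finsetSum_apply, Finsupp.finsetSum_apply] at h1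
    simp only [Finsupp.single_apply] at h1
    rw [Fintype.card_subtype, Fintype.card_subtype]
    simpa [Finset.sum_ite] using h1.symm
  refine ⟨Equiv.ofFiberEquiv (fun c => Classical.choice (hc c)), ?_⟩
  funext a
  simp only [Function.comp_apply]
  exact (Equiv.ofFiberEquiv_map _ a).symm

theorem rename_Un {m d : ℕ} (π : Fin m → Fin d) :
    rename π (Un m) = monomial (∑ k, Finsupp.single (π k) 1) (1 : ZMod 2) := by
  rw [Un, map_prod]
  simp only [rename_X]
  rw [monomial_sum_one]
  rfl

/-- natural additive operations `S^m → S^n` -/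
structure IsNP (m n : ℕ) (f : ∀ d, Pl d →ₗ[ZMod 2] Pl d) : Prop where
  nat : ∀ {d' d : ℕ} (L : Fin d' → Fin d → ZMod 2) (x : Pl d'), f d (lin L x) = lin L (f d' x)
  dom : ∀ d x, f d x = f d (homogeneousComponent m x)
  cod : ∀ d x, (f d x).IsHomogeneous n

theorem IsNP.ren {m n : ℕ} {f : ∀ d, Pl d →ₗ[ZMod 2] Pl d} (hf : IsNP m n f) {d' d : ℕ}
    (π : Fin d' → Fin d) (x : Pl d') : f d (rename π x) = rename π (f d' x) := by
  rw [rename_eq_lin, rename_eq_lin, hf.nat]

theorem IsNP.mono {m n : ℕ} {f : ∀ d, Pl d →ₗ[ZMod 2] Pl d} (hf : IsNP m n f) {d : ℕ}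
    (π : Fin m → Fin d) :
    f d (monomial (∑ k, Finsupp.single (π k) 1) (1 : ZMod 2)) = rename π (f m (Un m)) := by
  rw [← rename_Un, hf.ren]

theorem IsNP.ext {m n : ℕ} {f g : ∀ d, Pl d →ₗ[ZMod 2] Pl d} (hf : IsNP m n f) (hg : IsNP m n g)
    (h : f m (Un m) = g m (Un m)) : f = g := by
  classical
  funext d
  refine LinearMap.ext fun x => ?_
  rw [hf.dom, hg.dom, homogeneousComponent_apply, map_sum, map_sum]
  refine Finset.sum_congr rfl fun e he => ?_
  rw [Finset.mem_filter] at he
  obtain ⟨π, hπ⟩ := exists_pi m e he.2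
  have hmon : (monomial e (coeff e x) : Pl d) = (coeff e x) • monomial e (1 : ZMod 2) := by
    rw [smul_monomial, smul_eq_mul, mul_one]
  rw [hmon, map_smul, map_smul, ← hπ, hf.mono, hg.mono, h]

end SHU


end

section

/-! Part 2: every symmetric matrix gives a natural operation (Milnor coaction). -/

namespace SHU
open MvPolynomial

/-- exponent type of a tuple -/
noncomputable def ty {m : ℕ} (a : Fin m → ℕ) : ℕ →₀ ℕ := ∑ i, Finsupp.single (a i) 1

/-- exponent vector `(2^{a_1}, …, 2^{a_m})` -/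
noncomputable def xp {m : ℕ} (a : Fin m → ℕ) : Fin m →₀ ℕ := ∑ i, Finsupp.single i (2 ^ (a i))

theorem xp_apply {m : ℕ} (a : Fin m → ℕ) (i : Fin m) : xp a i = 2 ^ (a i) := by
  classical
  rw [xp, Finsupp.finsetSum_apply]
  simp [Finsupp.single_apply]

theorem xp_degree {m : ℕ} (a : Fin m → ℕ) : (xp a).degree = ∑ i, 2 ^ (a i) := by
  rw [xp, map_sum]
  simp

theorem xp_inj {m : ℕ} {a b : Fin m → ℕ} (h : xp a = xp b) : a = b := by
  funext i
  have := DFunLike.congr_fun h i
  rw [xp_apply, xp_apply] at this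
  exact Nat.pow_right_injective (le_refl 2) this

/-- the generating ring map `X_i ↦ ∑ r < N, t_r X_i^(2^r)` -/
noncomputable def Th (N d : ℕ) : Pl d →ₐ[ZMod 2] MvPolynomial ℕ (Pl d) :=
  aeval (fun i => ∑ r ∈ Finset.range N, X r * C (X i ^ (2 ^ r)))

theorem zmod2_sq (c : ZMod 2) : c ^ 2 = c := by
  revert c
  decide

theorem zmod2_pow (c : ZMod 2) (r : ℕ) : c ^ (2 ^ r) = c := by
  induction r with
  | zero => simp
  | succ r ih => rw [pow_succ, pow_mul, ih, zmod2_sq]

theorem Th_X (N : ℕ) (d : ℕ) (i : Fin d) :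
    Th N d (X i) = ∑ r ∈ Finset.range N, X r * C (X i ^ (2 ^ r)) := by
  simp [Th]

theorem Th_C (N : ℕ) (d : ℕ) (c : ZMod 2) : Th N d (C c) = C (C c) := by
  have h1 : (C c : Pl d) = algebraMap (ZMod 2) (Pl d) c := rfl
  rw [h1, AlgHom.commutes]
  rfl

theorem lin_X_pow {d' d : ℕ} (L : Fin d' → Fin d → ZMod 2) (j : Fin d') (r : ℕ) :
    lin L (X j ^ (2 ^ r)) = ∑ i, C (L j i) * X i ^ (2 ^ r) := by
  rw [map_pow, lin_X]
  have : CharP (Pl d) 2 := inferInstance
  have : ExpChar (Pl d) 2 := ExpChar.prime Nat.prime_two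
  rw [sum_pow_char_pow]
  refine Finset.sum_congr rfl fun i _ => ?_
  rw [mul_pow, ← C_pow, zmod2_pow]

theorem Th_lin (N : ℕ) {d' d : ℕ} (L : Fin d' → Fin d → ZMod 2) (x : Pl d') :
    Th N d (lin L x) = mapAlgHom (lin L) (Th N d' x) := by
  have h : (Th N d).comp (lin L) = (mapAlgHom (lin L)).comp (Th N d') := by
    apply MvPolynomial.algHom_ext
    intro j
    rw [AlgHom.comp_apply, AlgHom.comp_apply, lin_X, Th_X, map_sum, map_sum]
    have h1 : ∀ i, Th N d (C (L j i) * X i) =
        ∑ r ∈ Finset.range N, C (C (L j i)) * (X r * C (X i ^ (2 ^ r))) := by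
      intro i
      rw [map_mul, Th_C, Th_X, Finset.mul_sum]
    simp only [h1]
    rw [Finset.sum_comm]
    refine Finset.sum_congr rfl fun r _ => ?_
    rw [map_mul]
    have h2 : mapAlgHom (σ := ℕ) (lin L) (X r) = X r := by
      simp
    have h3 : mapAlgHom (σ := ℕ) (lin L) (C (X j ^ (2 ^ r))) = C (lin L (X j ^ (2 ^ r))) := by
      simp
    rw [h2, h3, lin_X_pow, map_sum, Finset.mul_sum]
    refine Finset.sum_congr rfl fun i _ => ?_
    rw [C_mul]
    ring
  exact DFunLike.congr_fun h x

theorem coeff_Th_lin (N : ℕ) {d' d : ℕ} (L : Fin d' → Fin d → ZMod 2) (x : Pl d') (M : ℕ →₀ ℕ) :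
    coeff M (Th N d (lin L x)) = lin L (coeff M (Th N d' x)) := by
  rw [Th_lin, mapAlgHom_apply]
  exact coeff_map _ _ _

theorem hc_lin (m : ℕ) {d' d : ℕ} (L : Fin d' → Fin d → ZMod 2) (x : Pl d') :
    homogeneousComponent m (lin L x) = lin L (homogeneousComponent m x) := by
  have key : ∀ (i : ℕ) (y : Pl d'), y.IsHomogeneous i → (lin L y).IsHomogeneous i := by
    intro i y hy
    have := hy.aeval (S := ZMod 2) (fun j => ∑ i, C (L j i) * X i) (n := 1) (fun j => by
      apply IsHomogeneous.sum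
      intro i _
      exact isHomogeneous_C_mul_X _ _)
    simpa [lin] using this
  conv_lhs => rw [← sum_homogeneousComponent x]
  rw [map_sum, map_sum]
  by_cases hm : m ∈ Finset.range (x.totalDegree + 1)
  · rw [Finset.sum_eq_single m]
    · exact homogeneousComponent_eq_self (key _ _ (homogeneousComponent_isHomogeneous _ _))
    · intro b _ hb
      rw [homogeneousComponent_of_mem (key _ _ (homogeneousComponent_isHomogeneous b x))]
      rw [if_neg (Ne.symm hb)]
    · intro h
      exact absurd hm h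
  · rw [Finset.sum_eq_zero]
    · rw [homogeneousComponent_eq_zero]
      · simp
      · rw [Finset.mem_range] at hm
        omega
    · intro b hb
      rw [homogeneousComponent_of_mem (key _ _ (homogeneousComponent_isHomogeneous b x))]
      rw [if_neg]
      rintro rfl
      exact hm hb

/-- the finite set of exponent types used -/
noncomputable def Ty (N m : ℕ) : Finset (ℕ →₀ ℕ) :=
  by
    classical
    exact (Fintype.piFinset (fun _ : Fin m => Finset.range N)).image ty

/-- the natural operation attached to a matrix `q` -/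
noncomputable def op (N m : ℕ) (q : (ℕ →₀ ℕ) → ZMod 2) (d : ℕ) : Pl d →ₗ[ZMod 2] Pl d :=
  (∑ M ∈ Ty N m, q M • (((lcoeff (Pl d) M).restrictScalars (ZMod 2)).comp (Th N d).toLinearMap)).comp
    (homogeneousComponent m)

theorem op_apply (N m : ℕ) (q : (ℕ →₀ ℕ) → ZMod 2) (d : ℕ) (x : Pl d) :
    op N m q d x = ∑ M ∈ Ty N m, q M • coeff M (Th N d (homogeneousComponent m x)) := by
  rw [op, LinearMap.comp_apply, LinearMap.sum_apply]
  rfl

theorem Un_hom (m : ℕ) : (Un m).IsHomogeneous m := by
  have := IsHomogeneous.prod Finset.univ (fun i : Fin m => (X i : Pl m)) (fun _ => 1)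
    (fun i _ => isHomogeneous_X _ i)
  simpa [Un] using this

theorem Th_Un (N m : ℕ) : Th N m (Un m) =
    ∑ a ∈ Fintype.piFinset (fun _ : Fin m => Finset.range N),
      monomial (ty a) (monomial (xp a) (1 : ZMod 2)) := by
  classical
  rw [Un, map_prod]
  have hX : ∀ (i : Fin m), Th N m (X i) = ∑ r ∈ Finset.range N, X r * C (X i ^ (2 ^ r)) := by
    intro i
    simp [Th]
  simp only [hX]
  rw [Finset.prod_univ_sum]
  refine Finset.sum_congr rfl fun a _ => ?_
  rw [Finset.prod_mul_distrib, ← map_prod]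
  have h1 : ∏ i, (X (a i) : MvPolynomial ℕ (Pl m)) = monomial (ty a) 1 := by
    rw [ty, monomial_sum_one]
    rfl
  have h2 : ∏ i, (X i : Pl m) ^ (2 ^ (a i)) = monomial (xp a) 1 := by
    rw [xp, monomial_sum_one]
    refine Finset.prod_congr rfl fun i _ => ?_
    rw [X_pow_eq_monomial]
  rw [h1, h2, mul_comm, C_mul_monomial, mul_one]

theorem op_Un (N m : ℕ) (q : (ℕ →₀ ℕ) → ZMod 2) :
    op N m q m (Un m) = ∑ a ∈ Fintype.piFinset (fun _ : Fin m => Finset.range N),
      q (ty a) • monomial (xp a) (1 : ZMod 2) := by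
  classical
  rw [op_apply, homogeneousComponent_eq_self (Un_hom m), Th_Un]
  simp only [coeff_sum, coeff_monomial]
  simp only [Finset.smul_sum]
  rw [Finset.sum_comm]
  refine Finset.sum_congr rfl fun a ha => ?_
  rw [Finset.sum_eq_single (ty a)]
  · rw [if_pos rfl]
  · intro b _ hb
    rw [if_neg (fun h => hb h.symm), smul_zero]
  · intro h
    exfalso
    apply h
    rw [Ty, Finset.mem_image]
    exact ⟨a, ha, rfl⟩

theorem op_nat (N m : ℕ) (q : (ℕ →₀ ℕ) → ZMod 2) {d' d : ℕ} (L : Fin d' → Fin d → ZMod 2)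
    (x : Pl d') : op N m q d (lin L x) = lin L (op N m q d' x) := by
  rw [op_apply, op_apply, map_sum]
  refine Finset.sum_congr rfl fun M _ => ?_
  rw [hc_lin, coeff_Th_lin, map_smul]

theorem op_dom (N m : ℕ) (q : (ℕ →₀ ℕ) → ZMod 2) (d : ℕ) (x : Pl d) :
    op N m q d x = op N m q d (homogeneousComponent m x) := by
  rw [op_apply, op_apply, homogeneousComponent_eq_self (homogeneousComponent_isHomogeneous m x)]

theorem op_IsNP (N m n : ℕ) (q : (ℕ →₀ ℕ) → ZMod 2)
    (hq : ∀ a : Fin m → ℕ, q (ty a) ≠ 0 → ∑ i, 2 ^ (a i) = n) : IsNP m n (op N m q) where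
  nat := fun L x => op_nat N m q L x
  dom := fun d x => op_dom N m q d x
  cod := by
    classical
    intro d x
    rw [op_dom, homogeneousComponent_apply, map_sum]
    apply IsHomogeneous.sum
    intro e he
    rw [Finset.mem_filter] at he
    obtain ⟨π, hπ⟩ := exists_pi m e he.2
    have hmon : (monomial e (coeff e x) : Pl d) = (coeff e x) • monomial e (1 : ZMod 2) := by
      rw [smul_monomial, smul_eq_mul, mul_one]
    rw [hmon, map_smul, ← hπ, ← rename_Un, rename_eq_lin, op_nat, ← rename_eq_lin]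
    rw [smul_eq_C_mul]
    apply IsHomogeneous.C_mul
    apply IsHomogeneous.rename_isHomogeneous
    rw [op_Un]
    apply IsHomogeneous.sum
    intro a _
    by_cases h : q (ty a) = 0
    · rw [h, zero_smul]
      exact isHomogeneous_zero _ _ _
    · rw [smul_eq_C_mul]
      apply IsHomogeneous.C_mul
      apply isHomogeneous_monomial
      rw [xp_degree]
      exact hq a h

end SHU


end

section

/-! Part 3: natural operations are symmetric sums of monomials with exponents powers of two. -/

namespace SHU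
open MvPolynomial

theorem pow_two_of_choose (c : ℕ) (hc : 0 < c)
    (h : ∀ a b, 0 < a → 0 < b → a + b = c → (Nat.choose c a : ZMod 2) = 0) : ∃ k, c = 2 ^ k := by
  induction c using Nat.strong_induction_on with
  | _ c ih =>
    rcases Nat.even_or_odd' c with ⟨c', hc' | hc'⟩
    · have hpos : 0 < c' := by omega
      obtain ⟨k, hk⟩ := ih c' (by omega) hpos (by
        intro a b ha hb hab
        have h1 := h (2 * a) (2 * b) (by omega) (by omega) (by omega)
        have h2 := Choose.choose_modEq_choose_mod_mul_choose_div_nat (p := 2) (n := 2 * c') (k := 2 * a)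
        have h3 : (2 * c') % 2 = 0 := by omega
        have h4 : (2 * a) % 2 = 0 := by omega
        have h5 : (2 * c') / 2 = c' := by omega
        have h6 : (2 * a) / 2 = a := by omega
        rw [h3, h4, h5, h6, Nat.choose_self, one_mul] at h2
        have h7 := (ZMod.natCast_eq_natCast_iff _ _ 2).mpr h2
        rw [hc'] at h1
        rw [← h7, h1])
      exact ⟨k + 1, by rw [pow_succ, hc', hk]; ring⟩
    · by_cases h1 : c' = 0
      · exact ⟨0, by rw [hc', h1]; norm_num⟩
      · exfalso
        have := h 1 (2 * c') (by omega) (by omega) (by omega)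
        rw [hc', Nat.choose_one_right] at this
        push_cast at this
        have h2 : (2 : ZMod 2) = 0 := by decide
        rw [h2, zero_mul, zero_add] at this
        exact one_ne_zero this

/-- `X_0 ↦ X_0 + X_1`, `X_{j+1} ↦ X_{j+2}` -/
def Ladd (m : ℕ) : Fin (m + 1) → Fin (m + 2) → ZMod 2 :=
  Fin.cons (fun i => if i = 0 ∨ i = 1 then 1 else 0) (fun j i => if i = j.succ.succ then 1 else 0)

/-- `X_0 ↦ 0`, `X_{j+1} ↦ X_j` -/
def Lzero (m : ℕ) : Fin (m + 1) → Fin m → ZMod 2 :=
  Fin.cons (fun _ => 0) (fun j i => if i = j then 1 else 0)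

theorem lin_Ladd_zero (m : ℕ) : lin (Ladd m) (X 0) = X 0 + X 1 := by
  rw [lin_X, Fin.sum_univ_succ, Fin.sum_univ_succ]
  rw [Finset.sum_eq_zero]
  · simp [Ladd]
  · intro i _
    have h1 : (i.succ.succ : Fin (m + 2)) ≠ 0 := Fin.succ_ne_zero _
    have h2 : (i.succ.succ : Fin (m + 2)) ≠ 1 := by
      intro h
      have := congrArg Fin.val h
      simp at this
    simp [Ladd, h1, h2]

theorem lin_Ladd_succ (m : ℕ) (j : Fin m) : lin (Ladd m) (X j.succ) = X j.succ.succ := by
  rw [lin_X, Finset.sum_eq_single j.succ.succ]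
  · simp [Ladd]
  · intro i _ hi
    simp [Ladd, hi]
  · simp

theorem lin_Lzero_zero (m : ℕ) : lin (Lzero m) (X 0) = 0 := by
  rw [lin_X, Finset.sum_eq_zero]
  intro i _
  simp [Lzero]

theorem lin_Lzero_succ (m : ℕ) (j : Fin m) : lin (Lzero m) (X j.succ) = X j := by
  rw [lin_X, Finset.sum_eq_single j]
  · simp [Lzero]
  · intro i _ hi
    simp [Lzero, hi]
  · simp

theorem monomial_eq_prod {d : ℕ} (e : Fin d →₀ ℕ) (r : ZMod 2) :
    (monomial e r : Pl d) = C r * ∏ i, X i ^ e i := by
  rw [monomial_eq, Finsupp.prod_fintype]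
  intro i
  simp

theorem lin_Ladd_monomial (m c : ℕ) (e : Fin m →₀ ℕ) (r : ZMod 2) :
    lin (Ladd m) (monomial (Finsupp.cons c e) r) =
      ∑ k ∈ Finset.range (c + 1),
        monomial (Finsupp.cons k (Finsupp.cons (c - k) e)) (r * (c.choose k : ZMod 2)) := by
  rw [monomial_eq_prod, Fin.prod_univ_succ, map_mul, map_mul, map_prod, map_pow]
  simp only [map_pow, lin_Ladd_zero, lin_Ladd_succ, Finsupp.cons_zero, Finsupp.cons_succ]
  rw [add_pow, Finset.sum_mul, Finset.mul_sum]
  refine Finset.sum_congr rfl fun k _ => ?_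
  rw [monomial_eq_prod, Fin.prod_univ_succ, Fin.prod_univ_succ]
  simp only [Finsupp.cons_zero, Finsupp.cons_succ]
  have hC : lin (Ladd m) (C r) = C r := by
    have h1 : (C r : Pl (m + 1)) = algebraMap (ZMod 2) (Pl (m + 1)) r := rfl
    rw [h1, AlgHom.commutes]
    rfl
  rw [hC, C_mul]
  have hn : ((c.choose k : ℕ) : Pl (m + 2)) = C ((c.choose k : ℕ) : ZMod 2) := by
    simp
  rw [hn]
  have h1 : (X (Fin.succ 0) : Pl (m + 2)) = X 1 := rfl
  rw [h1]
  ring

theorem coeff_lin_Ladd (m a b : ℕ) (e : Fin m →₀ ℕ) (y : Pl (m + 1)) :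
    coeff (Finsupp.cons a (Finsupp.cons b e)) (lin (Ladd m) y) =
      ((a + b).choose a : ZMod 2) * coeff (Finsupp.cons (a + b) e) y := by
  classical
  induction y using MvPolynomial.induction_on' with
  | monomial u r =>
    have hu : u = Finsupp.cons (u 0) u.tail := (Finsupp.cons_tail u).symm
    rw [hu, lin_Ladd_monomial, coeff_sum]
    simp only [coeff_monomial]
    by_cases h : Finsupp.cons (u 0) u.tail = Finsupp.cons (a + b) e
    · have h0 : u 0 = a + b := by
        have := DFunLike.congr_fun h 0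
        simpa using this
      have ht : u.tail = e := by
        have := congrArg Finsupp.tail h
        simpa using this
      rw [h0, ht, if_pos rfl, Finset.sum_eq_single a]
      · rw [show a + b - a = b by omega, if_pos rfl, mul_comm]
      · intro k hk hka
        rw [if_neg]
        intro hc
        have := DFunLike.congr_fun hc 0
        simp only [Finsupp.cons_zero] at this
        exact hka this
      · intro hk
        exfalso
        apply hk
        rw [Finset.mem_range]
        omega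
    · rw [if_neg h, mul_zero, Finset.sum_eq_zero]
      intro k hk
      rw [if_neg]
      intro hc
      apply h
      have h0 := DFunLike.congr_fun hc 0
      simp only [Finsupp.cons_zero] at h0
      have ht := congrArg Finsupp.tail hc
      simp only [Finsupp.tail_cons] at ht
      have h1 := DFunLike.congr_fun ht 0
      simp only [Finsupp.cons_zero] at h1
      have ht2 := congrArg Finsupp.tail ht
      simp only [Finsupp.tail_cons] at ht2
      rw [Finset.mem_range] at hk
      rw [ht2]
      congr 1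
      omega
  | add p q hp hq => rw [map_add, coeff_add, hp, hq, coeff_add, mul_add]

theorem coeff_lin_Lzero (m : ℕ) (e : Fin m →₀ ℕ) (y : Pl (m + 1)) :
    coeff e (lin (Lzero m) y) = coeff (Finsupp.cons 0 e) y := by
  classical
  induction y using MvPolynomial.induction_on' with
  | monomial u r =>
    have hu : u = Finsupp.cons (u 0) u.tail := (Finsupp.cons_tail u).symm
    rw [hu, monomial_eq_prod, Fin.prod_univ_succ, map_mul, map_mul, map_prod, map_pow]
    simp only [map_pow, lin_Lzero_zero, lin_Lzero_succ, Finsupp.cons_zero, Finsupp.cons_succ]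
    have hC : lin (Lzero m) (C r) = C r := by
      have h1 : (C r : Pl (m + 1)) = algebraMap (ZMod 2) (Pl (m + 1)) r := rfl
      rw [h1, AlgHom.commutes]
      rfl
    rw [hC]
    by_cases h0 : u 0 = 0
    · rw [h0, pow_zero, one_mul]
      have h1 := monomial_eq_prod u.tail r
      have h2 := monomial_eq_prod (Finsupp.cons 0 u.tail) r
      rw [Fin.prod_univ_succ] at h2
      simp only [Finsupp.cons_zero, Finsupp.cons_succ, pow_zero, one_mul] at h2
      rw [← h1, pow_zero, one_mul, ← h2, coeff_monomial, coeff_monomial]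
      congr 1
      apply propext
      constructor
      · intro h
        rw [h]
      · intro h
        have := congrArg Finsupp.tail h
        simpa using this
    · rw [zero_pow h0, zero_mul, mul_zero, coeff_zero]
      have h2 := monomial_eq_prod (Finsupp.cons (u 0) u.tail) r
      simp only [Fin.prod_univ_succ, Finsupp.cons_zero, Finsupp.cons_succ] at h2 ⊢
      rw [← h2, coeff_monomial, if_neg]
      intro h
      apply h0
      have := DFunLike.congr_fun h 0
      simpa using this
  | add p q hp hq => rw [map_add, coeff_add, hp, hq, coeff_add]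

theorem Un_succ (m : ℕ) : Un (m + 1) = X 0 * rename Fin.succ (Un m) := by
  rw [Un, Fin.prod_univ_succ, Un, map_prod]
  simp only [rename_X]

theorem lin_Ladd_Un (m : ℕ) : lin (Ladd m) (Un (m + 1)) =
    rename (Fin.cons 0 (fun j : Fin m => j.succ.succ) : Fin (m + 1) → Fin (m + 2)) (Un (m + 1)) +
    rename (Fin.cons 1 (fun j : Fin m => j.succ.succ) : Fin (m + 1) → Fin (m + 2)) (Un (m + 1)) := by
  rw [Un, Fin.prod_univ_succ, map_mul, map_mul, map_mul, map_prod, map_prod, map_prod]
  simp only [lin_Ladd_zero, lin_Ladd_succ, rename_X, Fin.cons_zero, Fin.cons_succ]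
  ring

theorem lin_Lzero_Un (m : ℕ) : lin (Lzero m) (Un (m + 1)) = 0 := by
  rw [Un, Fin.prod_univ_succ, map_mul, lin_Lzero_zero, zero_mul]

theorem IsNP.exp_zero {m n : ℕ} {f : ∀ d, Pl d →ₗ[ZMod 2] Pl d} (hf : IsNP (m + 1) n f)
    (c : ℕ) (e : Fin m →₀ ℕ) (h : coeff (Finsupp.cons c e) (f (m + 1) (Un (m + 1))) ≠ 0) :
    ∃ k, c = 2 ^ k := by
  classical
  have hc : 0 < c := by
    rcases Nat.eq_zero_or_pos c with h0 | h0
    · exfalso
      apply h
      rw [h0, ← coeff_lin_Lzero, ← hf.nat, lin_Lzero_Un, map_zero, coeff_zero]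
    · exact h0
  apply pow_two_of_choose c hc
  intro a b ha hb hab
  have h1 := coeff_lin_Ladd m a b e (f (m + 1) (Un (m + 1)))
  rw [hab] at h1
  have h2 : coeff (Finsupp.cons a (Finsupp.cons b e)) (lin (Ladd m) (f (m + 1) (Un (m + 1)))) = 0 := by
    rw [← hf.nat, lin_Ladd_Un, map_add, hf.ren, hf.ren, coeff_add]
    rw [coeff_rename_eq_zero, coeff_rename_eq_zero, add_zero]
    · intro u hu
      exfalso
      have := DFunLike.congr_fun hu 0
      rw [Finsupp.cons_zero, Finsupp.mapDomain_notin_range] at this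
      · omega
      · rintro ⟨j, hj⟩
        refine Fin.cases ?_ (fun j => ?_) j hj
        · intro h
          have := congrArg Fin.val h
          simp at this
        · intro h
          have := congrArg Fin.val h
          simp at this
    · intro u hu
      exfalso
      have := DFunLike.congr_fun hu (Fin.succ 0)
      rw [Finsupp.cons_succ, Finsupp.cons_zero, Finsupp.mapDomain_notin_range] at this
      · omega
      · rintro ⟨j, hj⟩
        refine Fin.cases ?_ (fun j => ?_) j hj
        · intro h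
          have := congrArg Fin.val h
          simp at this
        · intro h
          have := congrArg Fin.val h
          simp at this
  rw [h2] at h1
  rcases mul_eq_zero.mp h1.symm with h3 | h3
  · exact h3
  · exact absurd h3 h

theorem IsNP.sym {m n : ℕ} {f : ∀ d, Pl d →ₗ[ZMod 2] Pl d} (hf : IsNP m n f)
    (σ : Equiv.Perm (Fin m)) : rename σ (f m (Un m)) = f m (Un m) := by
  rw [← hf.ren]
  congr 1
  rw [Un, map_prod]
  simp only [rename_X]
  exact Equiv.prod_comp σ (fun i => (X i : Pl m))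

theorem IsNP.coeff_sym {m n : ℕ} {f : ∀ d, Pl d →ₗ[ZMod 2] Pl d} (hf : IsNP m n f)
    (σ : Equiv.Perm (Fin m)) (e : Fin m →₀ ℕ) :
    coeff (Finsupp.mapDomain σ e) (f m (Un m)) = coeff e (f m (Un m)) := by
  conv_lhs => rw [← hf.sym σ]
  rw [coeff_rename_mapDomain _ σ.injective]

theorem IsNP.exp {m n : ℕ} {f : ∀ d, Pl d →ₗ[ZMod 2] Pl d} (hf : IsNP m n f)
    (e : Fin m →₀ ℕ) (h : coeff e (f m (Un m)) ≠ 0) : ∃ a : Fin m → ℕ, e = xp a := by
  classical
  have key : ∀ i, ∃ k, e i = 2 ^ k := by
    intro i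
    cases m with
    | zero => exact i.elim0
    | succ m =>
      have h1 := hf.coeff_sym (Equiv.swap 0 i) e
      rw [← h1] at h
      have h2 : Finsupp.mapDomain (Equiv.swap 0 i) e =
          Finsupp.cons (e i) (Finsupp.mapDomain (Equiv.swap 0 i) e).tail := by
        conv_lhs => rw [← Finsupp.cons_tail (Finsupp.mapDomain (Equiv.swap 0 i) e)]
        congr 1
        have : (Equiv.swap 0 i) i = 0 := Equiv.swap_apply_right 0 i
        have h3 := Finsupp.mapDomain_apply (Equiv.swap 0 i).injective e i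
        rw [this] at h3
        exact h3
      rw [h2] at h
      exact hf.exp_zero _ _ h
  choose a ha using key
  refine ⟨a, ?_⟩
  ext i
  rw [xp_apply, ha]

theorem xp_comp {m : ℕ} (a : Fin m → ℕ) (σ : Equiv.Perm (Fin m)) :
    Finsupp.mapDomain σ (xp (a ∘ σ)) = xp a := by
  ext i
  have h : i = σ (σ.symm i) := by simp
  rw [h, Finsupp.mapDomain_apply σ.injective, xp_apply, xp_apply]
  rfl

open Classical in
/-- the matrix of a natural operation -/
noncomputable def mt (m : ℕ) (f : ∀ d, Pl d →ₗ[ZMod 2] Pl d) (M : ℕ →₀ ℕ) : ZMod 2 :=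
  if h : M.degree = m then coeff (xp (Classical.choose (exists_pi m M h))) (f m (Un m)) else 0

theorem ty_degree {m : ℕ} (a : Fin m → ℕ) : (ty a).degree = m := by
  rw [ty, map_sum]
  simp

theorem IsNP.mt_ty {m n : ℕ} {f : ∀ d, Pl d →ₗ[ZMod 2] Pl d} (hf : IsNP m n f) (a : Fin m → ℕ) :
    mt m f (ty a) = coeff (xp a) (f m (Un m)) := by
  rw [mt, dif_pos (ty_degree a)]
  have h := Classical.choose_spec (exists_pi m (ty a) (ty_degree a))
  obtain ⟨σ, hσ⟩ := exists_perm a _ h.symm
  rw [hσ, ← hf.coeff_sym σ, xp_comp]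

theorem IsNP.mt_ty_sum {m n : ℕ} {f : ∀ d, Pl d →ₗ[ZMod 2] Pl d} (hf : IsNP m n f)
    (a : Fin m → ℕ) (h : mt m f (ty a) ≠ 0) : ∑ i, 2 ^ (a i) = n := by
  rw [hf.mt_ty] at h
  have := (hf.cod m (Un m)) h
  rw [← xp_degree, Finsupp.degree_eq_weight_one]
  exact this

theorem IsNP.Un_eq {m n : ℕ} {f : ∀ d, Pl d →ₗ[ZMod 2] Pl d} (hf : IsNP m n f) (N : ℕ)
    (hN : n ≤ N) : f m (Un m) = ∑ a ∈ Fintype.piFinset (fun _ : Fin m => Finset.range N),
      mt m f (ty a) • monomial (xp a) (1 : ZMod 2) := by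
  classical
  ext e
  rw [coeff_sum]
  simp only [coeff_smul, coeff_monomial, smul_eq_mul, mul_ite, mul_one, mul_zero]
  by_cases h : coeff e (f m (Un m)) = 0
  · rw [h, Finset.sum_eq_zero]
    intro a _
    split_ifs with ha
    · rw [hf.mt_ty, ha, h]
    · rfl
  · obtain ⟨a, rfl⟩ := hf.exp e h
    rw [Finset.sum_eq_single a]
    · rw [if_pos rfl, hf.mt_ty]
    · intro b _ hb
      rw [if_neg]
      intro hc
      exact hb (xp_inj hc)
    · intro ha
      exfalso
      apply ha
      rw [Fintype.mem_piFinset]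
      intro i
      rw [Finset.mem_range]
      have h1 : ∑ i, 2 ^ (a i) = n := by
        rw [← hf.mt_ty] at h
        exact hf.mt_ty_sum a h
      have h2 : 2 ^ (a i) ≤ ∑ i, 2 ^ (a i) :=
        Finset.single_le_sum (f := fun i => 2 ^ (a i)) (fun _ _ => Nat.zero_le _) (Finset.mem_univ i)
      have h3 : a i < 2 ^ (a i) := Nat.lt_two_pow_self
      omega

theorem IsNP.eq_op {m n : ℕ} {f : ∀ d, Pl d →ₗ[ZMod 2] Pl d} (hf : IsNP m n f) (N : ℕ)
    (hN : n ≤ N) : f = op N m (mt m f) := by
  apply hf.ext (op_IsNP N m n _ (fun a h => hf.mt_ty_sum a h))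
  rw [op_Un, hf.Un_eq N hN]

end SHU


end

section

/-! Part 4: the operations `θ^k = ` sum of all monomials of degree `2^k`. -/

namespace SHU
open MvPolynomial

theorem powers_ms (K : ℕ) (n : ℕ) : ∀ s : Multiset ℕ, Multiset.card s = n →
    (s.map (fun v => 2 ^ v)).sum = 2 ^ K → ∀ v ∈ s, K < v + n := by
  induction n with
  | zero =>
    intro s hs _ v hv
    rw [Multiset.card_eq_zero] at hs
    simp [hs] at hv
  | succ n ih =>
    intro s hs hsum
    have hne : s ≠ 0 := by
      rintro rfl
      simp at hs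
    obtain ⟨v, hv, hmin⟩ : ∃ v ∈ s, ∀ w ∈ s, v ≤ w := by
      obtain ⟨v, hv⟩ := Multiset.exists_mem_of_ne_zero hne
      have : ∃ v, v ∈ s := ⟨v, hv⟩
      classical
      refine ⟨Nat.find this, Nat.find_spec this, fun w hw => Nat.find_min' this hw⟩
    suffices h : K < v + (n + 1) by
      intro w hw
      have := hmin w hw
      omega
    obtain ⟨s', rfl⟩ := Multiset.exists_cons_of_mem hv
    rw [Multiset.card_cons] at hs
    rw [Multiset.map_cons, Multiset.sum_cons] at hsum
    by_cases hs' : s' = 0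
    · subst hs'
      simp only [Multiset.map_zero, Multiset.sum_zero, add_zero] at hsum
      have := Nat.pow_right_injective (le_refl 2) hsum
      omega
    · have hvs : v ∈ s' := by
        by_contra hcon
        have hdvd : 2 ^ (v + 1) ∣ (s'.map (fun v => 2 ^ v)).sum := by
          apply Multiset.dvd_sum
          intro a ha
          rw [Multiset.mem_map] at ha
          obtain ⟨w, hw, rfl⟩ := ha
          apply pow_dvd_pow
          have h1 := hmin w (Multiset.mem_cons_of_mem hw)
          have h2 : w ≠ v := by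
            rintro rfl
            exact hcon hw
          omega
        obtain ⟨w, hw⟩ := Multiset.exists_mem_of_ne_zero hs'
        have hpos : 0 < (s'.map (fun v => 2 ^ v)).sum := by
          have h1 : 2 ^ w ≤ (s'.map (fun v => 2 ^ v)).sum :=
            Multiset.single_le_sum (fun _ _ => Nat.zero_le _) _ (Multiset.mem_map_of_mem _ hw)
          have h2 : 0 < 2 ^ w := by positivity
          omega
        have hK : v < K := by
          by_contra hK
          have : 2 ^ K ≤ 2 ^ v := Nat.pow_le_pow_right (by norm_num) (by omega)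
          omega
        have h3 : 2 ^ (v + 1) ∣ 2 ^ K := pow_dvd_pow _ (by omega)
        have h4 : 2 ^ (v + 1) ∣ 2 ^ v := by
          have := (Nat.dvd_add_left hdvd).mp (by rw [hsum]; exact h3)
          exact this
        have h5 := Nat.le_of_dvd (by positivity) h4
        have h6 : 2 ^ v < 2 ^ (v + 1) := Nat.pow_lt_pow_right (by norm_num) (by omega)
        omega
      obtain ⟨s'', rfl⟩ := Multiset.exists_cons_of_mem hvs
      have := ih ((v + 1) ::ₘ s'') (by
        rw [Multiset.card_cons] at hs ⊢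
        omega) (by
        rw [Multiset.map_cons, Multiset.sum_cons] at hsum ⊢
        rw [← hsum, pow_succ]
        ring) (v + 1) (Multiset.mem_cons_self _ _)
      omega

theorem powers_fin {K m : ℕ} (c : Fin m → ℕ) (h : ∑ i, 2 ^ (c i) = 2 ^ K) (i : Fin m) :
    K < c i + m := by
  apply powers_ms K m (Finset.univ.val.map c)
  · simp
  · rw [Multiset.map_map]
    exact h
  · exact Multiset.mem_map_of_mem _ (Finset.mem_univ_val i)

/-- ring map `X_i ↦ ∑ r ≤ k, X_i^(2^r)` -/
noncomputable def Tr (k d : ℕ) : Pl d →ₐ[ZMod 2] Pl d :=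
  aeval (fun i => ∑ r ∈ Finset.range (k + 1), X i ^ (2 ^ r))

theorem Tr_X (k d : ℕ) (i : Fin d) : Tr k d (X i) = ∑ r ∈ Finset.range (k + 1), X i ^ (2 ^ r) := by
  simp [Tr]

theorem alg_C {d : ℕ} {A : Type*} [CommRing A] [Algebra (ZMod 2) A] (f : Pl d →ₐ[ZMod 2] A)
    (c : ZMod 2) : f (C c) = algebraMap (ZMod 2) A c := by
  have h1 : (C c : Pl d) = algebraMap (ZMod 2) (Pl d) c := rfl
  rw [h1, AlgHom.commutes]

theorem Tr_lin (k : ℕ) {d' d : ℕ} (L : Fin d' → Fin d → ZMod 2) (x : Pl d') :
    Tr k d (lin L x) = lin L (Tr k d' x) := by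
  have h : (Tr k d).comp (lin L) = (lin L).comp (Tr k d') := by
    apply MvPolynomial.algHom_ext
    intro j
    rw [AlgHom.comp_apply, AlgHom.comp_apply, lin_X, Tr_X, map_sum, map_sum]
    simp only [map_mul, Tr_X, lin_X_pow, alg_C, Finset.mul_sum]
    rw [Finset.sum_comm]
    rfl
  exact DFunLike.congr_fun h x

/-- `θ^k` on `S^m` -/
noncomputable def th (m k d : ℕ) : Pl d →ₗ[ZMod 2] Pl d :=
  (homogeneousComponent (2 ^ k)).comp ((Tr k d).toLinearMap.comp (homogeneousComponent m))

theorem th_apply (m k d : ℕ) (x : Pl d) :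
    th m k d x = homogeneousComponent (2 ^ k) (Tr k d (homogeneousComponent m x)) := rfl

theorem th_IsNP (m k : ℕ) : IsNP m (2 ^ k) (th m k) where
  nat := fun L x => by
    rw [th_apply, th_apply, hc_lin, Tr_lin, hc_lin]
  dom := fun d x => by
    rw [th_apply, th_apply, homogeneousComponent_eq_self (homogeneousComponent_isHomogeneous m x)]
  cod := fun d x => homogeneousComponent_isHomogeneous _ _

theorem X_pow_prod {m : ℕ} (a : Fin m → ℕ) :
    ∏ i, (X i : Pl m) ^ (2 ^ (a i)) = monomial (xp a) 1 := by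
  rw [xp, monomial_sum_one]
  refine Finset.prod_congr rfl fun i _ => ?_
  rw [X_pow_eq_monomial]

theorem Tr_xp (k m : ℕ) (a : Fin m → ℕ) : Tr k m (monomial (xp a) 1) =
    ∑ b ∈ Fintype.piFinset (fun _ : Fin m => Finset.range (k + 1)),
      monomial (xp (fun i => a i + b i)) 1 := by
  classical
  rw [← X_pow_prod, map_prod]
  have h : ∀ i, Tr k m (X i ^ (2 ^ (a i))) =
      ∑ r ∈ Finset.range (k + 1), (X i : Pl m) ^ (2 ^ (a i + r)) := by
    intro i
    rw [map_pow, Tr_X]
    have : CharP (Pl m) 2 := inferInstance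
    have : ExpChar (Pl m) 2 := ExpChar.prime Nat.prime_two
    rw [sum_pow_char_pow]
    refine Finset.sum_congr rfl fun r _ => ?_
    rw [← pow_mul]
    congr 1
    rw [pow_add]
    ring
  simp only [h]
  rw [Finset.prod_univ_sum]
  refine Finset.sum_congr rfl fun b _ => ?_
  rw [X_pow_prod]

open Classical in
theorem hc_Tr_xp (k m : ℕ) (a : Fin m → ℕ) :
    homogeneousComponent (2 ^ k) (Tr k m (monomial (xp a) 1)) =
    ∑ b ∈ (Fintype.piFinset (fun _ : Fin m => Finset.range (k + 1))).filter
      (fun b => ∑ i, 2 ^ (a i + b i) = 2 ^ k),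
      monomial (xp (fun i => a i + b i)) 1 := by
  rw [Tr_xp, map_sum, Finset.sum_filter]
  refine Finset.sum_congr rfl fun b _ => ?_
  have hm : (monomial (xp (fun i => a i + b i)) (1 : ZMod 2)).IsHomogeneous
      (∑ i, 2 ^ (a i + b i)) := by
    apply isHomogeneous_monomial
    rw [xp_degree]
  rw [homogeneousComponent_of_mem hm]
  by_cases h : ∑ i, 2 ^ (a i + b i) = 2 ^ k
  · rw [if_pos h, if_pos h.symm]
  · rw [if_neg h, if_neg (fun h' => h h'.symm)]

theorem Un_xp (m : ℕ) : Un m = monomial (xp (fun _ : Fin m => 0)) 1 := by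
  rw [← X_pow_prod, Un]
  simp

theorem hc_Tr_shift (k m : ℕ) (a : Fin m → ℕ)
    (ha : ∀ c : Fin m → ℕ, ∑ i, 2 ^ (c i) = 2 ^ k → ∀ i, a i ≤ c i) :
    homogeneousComponent (2 ^ k) (Tr k m (monomial (xp a) 1)) =
    homogeneousComponent (2 ^ k) (Tr k m (Un m)) := by
  classical
  rw [Un_xp, hc_Tr_xp, hc_Tr_xp]
  simp only [zero_add]
  refine Finset.sum_nbij' (fun b i => a i + b i) (fun c i => c i - a i) ?_ ?_ ?_ ?_ ?_
  · intro b hb
    rw [Finset.mem_filter] at hb ⊢
    refine ⟨?_, hb.2⟩
    rw [Fintype.mem_piFinset]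
    intro i
    rw [Finset.mem_range]
    have h2 : 2 ^ (a i + b i) ≤ ∑ i, 2 ^ (a i + b i) :=
      Finset.single_le_sum (f := fun i => 2 ^ (a i + b i)) (fun _ _ => Nat.zero_le _)
        (Finset.mem_univ i)
    rw [hb.2] at h2
    have := (Nat.pow_le_pow_iff_right (by norm_num : 1 < 2)).mp h2
    omega
  · intro c hc
    rw [Finset.mem_filter] at hc ⊢
    have h1 := ha c hc.2
    constructor
    · rw [Fintype.mem_piFinset]
      intro i
      have h3 := Fintype.mem_piFinset.mp hc.1 i
      rw [Finset.mem_range] at h3 ⊢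
      omega
    · rw [← hc.2]
      refine Finset.sum_congr rfl fun i _ => ?_
      change 2 ^ (a i + (c i - a i)) = 2 ^ (c i)
      rw [Nat.add_sub_cancel' (h1 i)]
  · intro b _
    funext i
    simp
  · intro c hc
    rw [Finset.mem_filter] at hc
    funext i
    have := ha c hc.2 i
    simp only
    omega
  · intro b _
    rfl

/-- the specialisation `ε` -/
noncomputable def ev (m n : ℕ) (f : ∀ d, Pl d →ₗ[ZMod 2] Pl d) : ZMod 2 :=
  coeff (Finsupp.single 0 n) (f 1 (X 0 ^ m))

theorem rename_xp {m : ℕ} (a : Fin m → ℕ) :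
    rename (fun _ => 0 : Fin m → Fin 1) (monomial (xp a) (1 : ZMod 2)) =
      X 0 ^ (∑ i, 2 ^ (a i)) := by
  rw [← X_pow_prod, map_prod]
  simp only [map_pow, rename_X]
  rw [Finset.prod_pow_eq_pow_sum]

theorem rename_Un_one (m : ℕ) : rename (fun _ => 0 : Fin m → Fin 1) (Un m) = X 0 ^ m := by
  rw [Un_xp, rename_xp]
  simp

theorem hom_one (n : ℕ) (y : Pl 1) (hy : y.IsHomogeneous n) :
    y = coeff (Finsupp.single 0 n) y • X 0 ^ n := by
  classical
  rw [X_pow_eq_monomial, smul_monomial, smul_eq_mul, mul_one]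
  ext e
  rw [coeff_monomial]
  split_ifs with h
  · rw [h]
  · by_contra hc
    apply h
    have h1 : e.degree = n := by
      rw [Finsupp.degree_eq_weight_one]
      exact hy hc
    rw [Finsupp.degree_eq_sum] at h1
    ext
    simp at h1
    simp [h1]

theorem IsNP.ev_eq {m n : ℕ} {f : ∀ d, Pl d →ₗ[ZMod 2] Pl d} (hf : IsNP m n f) :
    f 1 (X 0 ^ m) = ev m n f • X 0 ^ n := hom_one n _ (hf.cod 1 _)

theorem IsNP.comp {l m n : ℕ} {f g : ∀ d, Pl d →ₗ[ZMod 2] Pl d} (hf : IsNP m n f)
    (hg : IsNP l m g) : IsNP l n (fun d => (f d).comp (g d)) where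
  nat := fun L x => by
    simp only [LinearMap.comp_apply]
    rw [hg.nat, hf.nat]
  dom := fun d x => by
    simp only [LinearMap.comp_apply]
    rw [hg.dom]
  cod := fun d x => hf.cod d _

theorem IsNP.smul {m n : ℕ} {f : ∀ d, Pl d →ₗ[ZMod 2] Pl d} (hf : IsNP m n f) (c : ZMod 2) :
    IsNP m n (fun d => c • f d) where
  nat := fun L x => by
    simp only [LinearMap.smul_apply]
    rw [hf.nat, map_smul]
  dom := fun d x => by
    simp only [LinearMap.smul_apply]
    rw [hf.dom]
  cod := fun d x => by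
    simp only [LinearMap.smul_apply]
    rw [smul_eq_C_mul]
    exact (hf.cod d x).C_mul c

theorem IsNP.ev_mt {m n : ℕ} {f : ∀ d, Pl d →ₗ[ZMod 2] Pl d} (hf : IsNP m n f) (N : ℕ)
    (hN : n ≤ N) : ev m n f = ∑ a ∈ Fintype.piFinset (fun _ : Fin m => Finset.range N),
      mt m f (ty a) := by
  classical
  rw [ev, ← rename_Un_one, hf.ren, hf.Un_eq N hN, map_sum, coeff_sum]
  refine Finset.sum_congr rfl fun a _ => ?_
  rw [map_smul, rename_xp, coeff_smul, smul_eq_mul]
  by_cases h : mt m f (ty a) = 0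
  · rw [h, zero_mul]
  · rw [hf.mt_ty_sum a h, X_pow_eq_monomial, coeff_monomial, if_pos rfl, mul_one]

/-- the key identity `θ^k ∘ ψ = ε(ψ) θ^k` for `k` large -/
theorem th_comp {m n : ℕ} {f : ∀ d, Pl d →ₗ[ZMod 2] Pl d} (hf : IsNP m n f) (k : ℕ)
    (hk : m + n ≤ k) (d : ℕ) (x : Pl d) : th n k d (f d x) = ev m n f • th m k d x := by
  classical
  have h : (fun d => (th n k d).comp (f d)) = (fun d => ev m n f • th m k d) := by
    apply ((th_IsNP n k).comp hf).ext ((th_IsNP m k).smul _)
    simp only [LinearMap.comp_apply, LinearMap.smul_apply]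
    rw [hf.ev_mt (k + 1) (by omega), hf.Un_eq (k + 1) (by omega), map_sum, Finset.sum_smul]
    refine Finset.sum_congr rfl fun a ha => ?_
    rw [map_smul]
    by_cases h : mt m f (ty a) = 0
    · rw [h, zero_smul, zero_smul]
    · congr 1
      have hn := hf.mt_ty_sum a h
      have hm : (monomial (xp a) (1 : ZMod 2)).IsHomogeneous n := by
        apply isHomogeneous_monomial
        rw [xp_degree, hn]
      rw [th_apply, homogeneousComponent_eq_self hm, th_apply,
        homogeneousComponent_eq_self (Un_hom m)]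
      apply hc_Tr_shift
      intro c hc i
      have h1 := powers_fin c hc i
      have h2 : 2 ^ (a i) ≤ ∑ i, 2 ^ (a i) :=
        Finset.single_le_sum (f := fun i => 2 ^ (a i)) (fun _ _ => Nat.zero_le _)
          (Finset.mem_univ i)
      have h3 : a i < 2 ^ (a i) := Nat.lt_two_pow_self
      omega
  have := congrFun h d
  have := DFunLike.congr_fun this x
  simpa using this

end SHU


end

section

/-! Part 5: `ε(θ^k) = 1` and `θ^{k+1} = Sq_0 θ^k`. -/

namespace SHU
open MvPolynomial

/-- squaring, as a linear map -/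
noncomputable def sqL (d : ℕ) : Pl d →ₗ[ZMod 2] Pl d where
  toFun x := x ^ 2
  map_add' x y := by
    have : CharP (Pl d) 2 := inferInstance
    have : ExpChar (Pl d) 2 := ExpChar.prime Nat.prime_two
    exact add_pow_expChar x y 2
  map_smul' c x := by
    rw [smul_pow, zmod2_sq]
    rfl

theorem sqL_apply (d : ℕ) (x : Pl d) : sqL d x = x ^ 2 := rfl

theorem sqL_inj (d : ℕ) {x : Pl d} (h : sqL d x = 0) : x = 0 := by
  rw [sqL_apply] at h
  exact pow_eq_zero_iff (by norm_num) |>.mp h

theorem sqL_hom {d n : ℕ} {x : Pl d} (h : x.IsHomogeneous n) : (sqL d x).IsHomogeneous (2 * n) := by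
  rw [sqL_apply, mul_comm]
  exact h.pow 2

theorem IsNP.sq {m n : ℕ} {f : ∀ d, Pl d →ₗ[ZMod 2] Pl d} (hf : IsNP m n f) :
    IsNP m (2 * n) (fun d => (sqL d).comp (f d)) where
  nat := fun L x => by
    simp only [LinearMap.comp_apply]
    rw [hf.nat, sqL_apply, sqL_apply, map_pow]
  dom := fun d x => by
    simp only [LinearMap.comp_apply]
    rw [hf.dom]
  cod := fun d x => sqL_hom (hf.cod d x)

theorem sq_th (m k : ℕ) (hk : m ≤ k + 1) (d : ℕ) (x : Pl d) :
    sqL d (th m k d x) = th m (k + 1) d x := by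
  classical
  have h : (fun d => (sqL d).comp (th m k d)) = th m (k + 1) := by
    have h1 := (th_IsNP m k).sq
    rw [show 2 * 2 ^ k = 2 ^ (k + 1) by rw [pow_succ]; ring] at h1
    apply h1.ext (th_IsNP m (k + 1))
    rw [LinearMap.comp_apply, th_apply, th_apply, homogeneousComponent_eq_self (Un_hom m), Un_xp,
      hc_Tr_xp, hc_Tr_xp, map_sum]
    simp only [zero_add]
    refine Finset.sum_nbij' (fun b i => b i + 1) (fun c i => c i - 1) ?_ ?_ ?_ ?_ ?_
    · intro b hb
      rw [Finset.mem_filter] at hb ⊢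
      constructor
      · rw [Fintype.mem_piFinset]
        intro i
        have h3 := Fintype.mem_piFinset.mp hb.1 i
        rw [Finset.mem_range] at h3 ⊢
        omega
      · simp only [pow_succ]
        rw [← Finset.sum_mul, hb.2]
    · intro c hc
      rw [Finset.mem_filter] at hc ⊢
      have h1 : ∀ i, 1 ≤ c i := by
        intro i
        have := powers_fin c hc.2 i
        omega
      constructor
      · rw [Fintype.mem_piFinset]
        intro i
        have h3 := Fintype.mem_piFinset.mp hc.1 i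
        rw [Finset.mem_range] at h3 ⊢
        have := h1 i
        omega
      · have h4 : (∑ i, 2 ^ (c i - 1)) * 2 = 2 ^ k * 2 := by
          rw [Finset.sum_mul, ← pow_succ, ← hc.2]
          refine Finset.sum_congr rfl fun i _ => ?_
          rw [← pow_succ, Nat.sub_add_cancel (h1 i)]
        exact Nat.eq_of_mul_eq_mul_right (by norm_num) h4
    · intro b _
      funext i
      simp
    · intro c hc
      rw [Finset.mem_filter] at hc
      funext i
      have := powers_fin c hc.2 i
      simp only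
      omega
    · intro b _
      rw [sqL_apply, monomial_pow, one_pow]
      have h5 : 2 • xp (fun i => b i) = xp (fun i => b i + 1) := by
        ext i
        rw [Finsupp.smul_apply, xp_apply, xp_apply, pow_succ, smul_eq_mul, mul_comm]
      rw [h5]
  exact DFunLike.congr_fun (congrFun h d) x

/-- `P_k = ∑ r ≤ k, X^(2^r)` in one variable -/
noncomputable def PP (k : ℕ) : Pl 1 := ∑ r ∈ Finset.range (k + 1), X 0 ^ (2 ^ r)

theorem PP_sq (k : ℕ) : PP k ^ 2 = PP k + X 0 + X 0 ^ (2 ^ (k + 1)) := by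
  have h1 : PP k ^ 2 = ∑ r ∈ Finset.range (k + 1), (X 0 : Pl 1) ^ (2 ^ (r + 1)) := by
    rw [← sqL_apply, PP, map_sum]
    refine Finset.sum_congr rfl fun r _ => ?_
    rw [sqL_apply, ← pow_mul, ← pow_succ]
  have h2 : (∑ r ∈ Finset.range (k + 1), (X 0 : Pl 1) ^ (2 ^ (r + 1))) + X 0 =
      PP k + X 0 ^ (2 ^ (k + 1)) := by
    rw [PP, ← Finset.sum_range_succ (fun r => (X 0 : Pl 1) ^ (2 ^ r)),
      Finset.sum_range_succ' (fun r => (X 0 : Pl 1) ^ (2 ^ r))]
    simp
  have h3 : (X 0 : Pl 1) + X 0 = 0 := CharTwo.add_self_eq_zero _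
  calc PP k ^ 2 = PP k ^ 2 + (X 0 + X 0) := by rw [h3, add_zero]
    _ = (PP k ^ 2 + X 0) + X 0 := by ring
    _ = (PP k + X 0 ^ (2 ^ (k + 1))) + X 0 := by rw [h1, h2]
    _ = _ := by ring

theorem PP_coeff_zero (k m : ℕ) (hm : m < k) :
    coeff (Finsupp.single 0 (2 ^ k - 1)) (PP k ^ m) = 0 := by
  classical
  have h1 : PP k ^ m = ∏ _i : Fin m, PP k := by simp
  rw [h1]
  simp only [PP]
  rw [Finset.prod_univ_sum, coeff_sum, Finset.sum_eq_zero]
  intro b _
  rw [Finset.prod_pow_eq_pow_sum, X_pow_eq_monomial, coeff_monomial, if_neg]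
  intro h
  have h2 := DFunLike.congr_fun h 0
  simp only [Finsupp.single_eq_same] at h2
  have h3 : 0 < 2 ^ k := by positivity
  have h4 : ∑ i, 2 ^ ((Fin.cons 0 b : Fin (m + 1) → ℕ) i) = 2 ^ k := by
    rw [Fin.sum_univ_succ]
    simp only [Fin.cons_zero, Fin.cons_succ, pow_zero]
    omega
  have h5 := powers_fin _ h4 0
  simp only [Fin.cons_zero] at h5
  omega

theorem PP_coeff_one (k m : ℕ) (hm : m ≤ k) :
    coeff (Finsupp.single 0 (2 ^ k)) (PP k ^ (m + 1)) = 1 := by
  classical
  induction m with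
  | zero =>
    rw [zero_add, pow_one, PP, coeff_sum, Finset.sum_eq_single k]
    · rw [X_pow_eq_monomial, coeff_monomial, if_pos rfl]
    · intro b _ hb
      rw [X_pow_eq_monomial, coeff_monomial, if_neg]
      intro h
      have h2 := DFunLike.congr_fun h 0
      simp only [Finsupp.single_eq_same] at h2
      exact hb (Nat.pow_right_injective (le_refl 2) h2)
    · intro h
      exfalso
      apply h
      simp
  | succ m ih =>
    have h1 : PP k ^ (m + 1 + 1) = PP k ^ (m + 1) + PP k ^ m * X 0 +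
        PP k ^ m * X 0 ^ (2 ^ (k + 1)) := by
      have : PP k ^ (m + 1 + 1) = PP k ^ m * PP k ^ 2 := by ring
      rw [this, PP_sq]
      ring
    rw [h1, coeff_add, coeff_add, ih (by omega)]
    have h3 : 0 < 2 ^ k := by positivity
    have h2 : (Finsupp.single 0 (2 ^ k) : Fin 1 →₀ ℕ) =
        Finsupp.single 0 (2 ^ k - 1) + Finsupp.single 0 1 := by
      rw [← Finsupp.single_add]
      congr 1
      omega
    have h4 : coeff (Finsupp.single 0 (2 ^ k)) (PP k ^ m * X 0) = 0 := by
      rw [h2, coeff_mul_X, PP_coeff_zero k m (by omega)]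
    have h5 : coeff (Finsupp.single 0 (2 ^ k)) (PP k ^ m * X 0 ^ (2 ^ (k + 1))) = 0 := by
      rw [X_pow_eq_monomial, coeff_mul_monomial', if_neg]
      rw [Finsupp.single_le_iff, Finsupp.single_eq_same]
      have : 2 ^ k < 2 ^ (k + 1) := Nat.pow_lt_pow_right (by norm_num) (by omega)
      omega
    rw [h4, h5, add_zero, add_zero]

theorem ev_th (m k : ℕ) (hm : 0 < m) (hk : m ≤ k + 1) : ev m (2 ^ k) (th m k) = 1 := by
  rw [ev, th_apply]
  have h1 : (X 0 ^ m : Pl 1).IsHomogeneous m := by
    simpa using (isHomogeneous_X_pow (R := ZMod 2) (0 : Fin 1) m)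
  rw [homogeneousComponent_eq_self h1, coeff_homogeneousComponent, if_pos (by simp), map_pow, Tr_X]
  obtain ⟨m', rfl⟩ : ∃ m', m = m' + 1 := ⟨m - 1, by omega⟩
  exact PP_coeff_one k m' (by omega)

end SHU


end
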