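import Mathlib
import Pool.Agent.SHM.C07

/-! Parts: SH.UA6, SH.UA7, SH.UA8, SH.UA9 -/

section

/-! Part 6: the functors `E^t(B^d;V) = ∏_j Hom(X^j, S^{j-t}(d))`, natural transformations into
polynomials, and their decomposition. -/

namespace SHU
open MvPolynomial

universe u

theorem isHom_iff {d n : ℕ} (y : Pl d) :
    y.IsHomogeneous n ↔ ∀ e, coeff e y ≠ 0 → e.degree = n := by
  constructor
  · intro h e he
    rw [Finsupp.degree_eq_weight_one]
    exact h he
  · intro h e he
    have := h e he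
    rw [Finsupp.degree_eq_weight_one] at this
    exact this

theorem lin_hom {d' d n : ℕ} (L : Fin d' → Fin d → ZMod 2) {y : Pl d'} (h : y.IsHomogeneous n) :
    (lin L y).IsHomogeneous n := by
  rw [← homogeneousComponent_eq_self h, ← hc_lin]
  exact homogeneousComponent_isHomogeneous _ _

section defs
variable (X : ℕ → Type u) [∀ j, AddCommGroup (X j)] [∀ j, Module (ZMod 2) (X j)]

/-- `ES X t d = ∏_j Hom(X^j, S^{j-t}(d))`; it is `E^t(B^d;V) = π_t Map(B(F_2^d),V)` if `X^j` is the
space of linear classes of degree `j` of `V` -/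
def ES (t d : ℕ) : Submodule (ZMod 2) (∀ j, X j →ₗ[ZMod 2] Pl d) where
  carrier := {c | ∀ j x e, coeff e (c j x) ≠ 0 → e.degree + t = j}
  add_mem' := by
    intro a b ha hb j x e he
    simp only [Pi.add_apply, LinearMap.add_apply, coeff_add] at he
    by_cases h : coeff e (a j x) = 0
    · rw [h, zero_add] at he
      exact hb j x e he
    · exact ha j x e h
  zero_mem' := by
    intro j x e he
    simp at he
  smul_mem' := by
    intro c a ha j x e he
    simp only [Pi.smul_apply, LinearMap.smul_apply, coeff_smul, smul_eq_mul] at he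
    exact ha j x e (right_ne_zero_of_mul he)

variable {X}

theorem ES_hom {t d j : ℕ} (c : ES X t d) (h : t ≤ j) (x : X j) :
    (c.1 j x).IsHomogeneous (j - t) := by
  rw [isHom_iff]
  intro e he
  have := c.2 j x e he
  omega

theorem ES_zero {t d j : ℕ} (c : ES X t d) (h : j < t) (x : X j) : c.1 j x = 0 := by
  ext e
  rw [coeff_zero]
  by_contra hc
  have := c.2 j x e hc
  omega

theorem ES_ext {t d : ℕ} {c c' : ES X t d} (h : ∀ j x, c.1 j x = c'.1 j x) : c = c' := by
  apply Subtype.ext
  funext j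
  exact LinearMap.ext (h j)

/-- substitution -/
noncomputable def subs {t d' d : ℕ} (L : Fin d' → Fin d → ZMod 2) (c : ES X t d') : ES X t d :=
  ⟨fun j => (lin L).toLinearMap.comp (c.1 j), by
    intro j x e he
    rw [LinearMap.comp_apply, AlgHom.toLinearMap_apply] at he
    by_cases htj : t ≤ j
    · have := (isHom_iff _).mp (lin_hom L (ES_hom c htj x)) e he
      omega
    · exfalso
      apply he
      rw [ES_zero c (by omega) x, map_zero, coeff_zero]⟩

theorem subs_apply {t d' d : ℕ} (L : Fin d' → Fin d → ZMod 2) (c : ES X t d') (j : ℕ) (x : X j) :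
    (subs L c).1 j x = lin L (c.1 j x) := rfl

/-- natural additive transformations `E^t(B^d;V) → S^n(d)` -/
structure IsPN (t n : ℕ) (p : ∀ d, ES X t d →ₗ[ZMod 2] Pl d) : Prop where
  nat : ∀ {d' d : ℕ} (L : Fin d' → Fin d → ZMod 2) (c : ES X t d'), p d (subs L c) = lin L (p d' c)
  cod : ∀ d c, (p d c).IsHomogeneous n
  cont : ∀ d (c : ES X t d), (∀ j ≤ n + t, c.1 j = 0) → p d c = 0

end defs

section two
variable {X : ℕ → Type u} [∀ j, AddCommGroup (X j)] [∀ j, Module (ZMod 2) (X j)]
variable {Y : ℕ → Type u} [∀ j, AddCommGroup (Y j)] [∀ j, Module (ZMod 2) (Y j)]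

/-- natural additive transformations `E^t(B^d;V) → E^t(B^d;V')` -/
structure IsNT (t : ℕ) (α : ∀ d, ES X t d →ₗ[ZMod 2] ES Y t d) : Prop where
  nat : ∀ {d' d : ℕ} (L : Fin d' → Fin d → ZMod 2) (c : ES X t d'),
    α d (subs L c) = subs L (α d' c)
  cont : ∀ d (c : ES X t d) (N : ℕ), (∀ j ≤ N, c.1 j = 0) → ∀ j ≤ N, (α d c).1 j = 0

theorem IsPN.comp {t n : ℕ} {p : ∀ d, ES Y t d →ₗ[ZMod 2] Pl d} (hp : IsPN t n p)
    {α : ∀ d, ES X t d →ₗ[ZMod 2] ES Y t d} (hα : IsNT t α) :
    IsPN t n (fun d => (p d).comp (α d)) where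
  nat := fun L c => by
    simp only [LinearMap.comp_apply]
    rw [hα.nat, hp.nat]
  cod := fun d c => hp.cod d _
  cont := fun d c hc => hp.cont d _ (hα.cont d c _ hc)

end two

section one
variable {X : ℕ → Type u} [∀ j, AddCommGroup (X j)] [∀ j, Module (ZMod 2) (X j)]

theorem IsPN.add {t n : ℕ} {p q : ∀ d, ES X t d →ₗ[ZMod 2] Pl d} (hp : IsPN t n p)
    (hq : IsPN t n q) : IsPN t n (fun d => p d + q d) where
  nat := fun L c => by
    simp only [LinearMap.add_apply]
    rw [hp.nat, hq.nat, map_add]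
  cod := fun d c => (hp.cod d c).add (hq.cod d c)
  cont := fun d c hc => by
    simp only [LinearMap.add_apply]
    rw [hp.cont d c hc, hq.cont d c hc, add_zero]

theorem IsPN.zero (t n : ℕ) : IsPN (X := X) t n (fun d => 0) where
  nat := fun L c => by simp
  cod := fun d c => isHomogeneous_zero _ _ _
  cont := fun d c hc => rfl

theorem IsPN.sum {t n : ℕ} {ι : Type*} (s : Finset ι) (p : ι → ∀ d, ES X t d →ₗ[ZMod 2] Pl d)
    (hp : ∀ i ∈ s, IsPN t n (p i)) : IsPN t n (fun d => ∑ i ∈ s, p i d) := by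
  classical
  induction s using Finset.induction_on with
  | empty => simpa using IsPN.zero t n
  | insert a s ha ih =>
    simp only [Finset.sum_insert ha]
    exact (hp a (Finset.mem_insert_self a s)).add
      (ih (fun i hi => hp i (Finset.mem_insert_of_mem hi)))

theorem IsPN.smul {t n : ℕ} {p : ∀ d, ES X t d →ₗ[ZMod 2] Pl d} (hp : IsPN t n p) (a : ZMod 2) :
    IsPN t n (fun d => a • p d) where
  nat := fun L c => by
    simp only [LinearMap.smul_apply]
    rw [hp.nat, map_smul]
  cod := fun d c => by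
    simp only [LinearMap.smul_apply, smul_eq_C_mul]
    exact (hp.cod d c).C_mul a
  cont := fun d c hc => by
    simp only [LinearMap.smul_apply]
    rw [hp.cont d c hc, smul_zero]

/-- evaluation at a linear class `x` of degree `j` -/
noncomputable def pr (t j : ℕ) (x : X j) (d : ℕ) : ES X t d →ₗ[ZMod 2] Pl d where
  toFun c := c.1 j x
  map_add' _ _ := rfl
  map_smul' _ _ := rfl

theorem pr_apply (t j : ℕ) (x : X j) (d : ℕ) (c : ES X t d) : pr t j x d c = c.1 j x := rfl

theorem pr_IsPN {t j m : ℕ} (h : m + t = j) (x : X j) : IsPN t m (pr t j x) where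
  nat := fun L c => rfl
  cod := fun d c => by
    have := ES_hom c (show t ≤ j by omega) x
    rwa [show j - t = m by omega] at this
  cont := fun d c hc => by
    rw [pr_apply, hc j (by omega)]
    rfl

theorem IsNP.comp_pn {t m n : ℕ} {f : ∀ d, Pl d →ₗ[ZMod 2] Pl d} (hf : IsNP m n f)
    (hmn : m ≤ n ∨ f = fun d => 0)
    {p : ∀ d, ES X t d →ₗ[ZMod 2] Pl d} (hp : IsPN t m p) :
    IsPN t n (fun d => (f d).comp (p d)) where
  nat := fun L c => by
    simp only [LinearMap.comp_apply]
    rw [hp.nat, hf.nat]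
  cod := fun d c => hf.cod d _
  cont := fun d c hc => by
    simp only [LinearMap.comp_apply]
    rcases hmn with h | h
    · rw [hp.cont d c (fun j hj => hc j (by omega)), map_zero]
    · rw [h]
      rfl

theorem IsNP.le_or {m n : ℕ} {f : ∀ d, Pl d →ₗ[ZMod 2] Pl d} (hf : IsNP m n f) :
    m ≤ n ∨ f = fun d => 0 := by
  by_cases h : m ≤ n
  · exact Or.inl h
  · right
    have h0 : IsNP m n (fun d => (0 : Pl d →ₗ[ZMod 2] Pl d)) :=
      { nat := fun L x => by simp
        dom := fun d x => rfl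
        cod := fun d x => isHomogeneous_zero _ _ _ }
    apply hf.ext h0
    rw [hf.Un_eq n (le_refl n), LinearMap.zero_apply, Finset.sum_eq_zero]
    intro a _
    by_cases hq : mt m f (ty a) = 0
    · rw [hq, zero_smul]
    · exfalso
      have h1 := hf.mt_ty_sum a hq
      have h2 : ∑ _i : Fin m, 1 ≤ ∑ i, 2 ^ (a i) :=
        Finset.sum_le_sum (fun i _ => Nat.one_le_two_pow)
      simp at h2
      omega

theorem IsNP.comp_pn' {t m n : ℕ} {f : ∀ d, Pl d →ₗ[ZMod 2] Pl d} (hf : IsNP m n f)
    {p : ∀ d, ES X t d →ₗ[ZMod 2] Pl d} (hp : IsPN t m p) :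
    IsPN t n (fun d => (f d).comp (p d)) := hf.comp_pn hf.le_or hp

/-- homogeneous part of degree `j - t` -/
noncomputable def hcT (t j : ℕ) (d : ℕ) : Pl d →ₗ[ZMod 2] Pl d :=
  if t ≤ j then homogeneousComponent (j - t) else 0

/-- the element `f ⊗ ξ` of `ES` -/
noncomputable def El (t j : ℕ) (ξ : X j →ₗ[ZMod 2] ZMod 2) (d : ℕ) : Pl d →ₗ[ZMod 2] ES X t d where
  toFun f := ⟨Pi.single j (ξ.smulRight (hcT t j d f)), by
    classical
    intro j' x e he
    by_cases hj : j' = j
    · subst hj
      rw [Pi.single_eq_same, LinearMap.smulRight_apply, coeff_smul, smul_eq_mul] at he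
      have h1 := right_ne_zero_of_mul he
      rw [hcT] at h1
      split_ifs at h1 with h
      · rw [coeff_homogeneousComponent] at h1
        split_ifs at h1 with h2
        · omega
        · exact absurd rfl h1
      · exact absurd rfl h1
    · rw [Pi.single_eq_of_ne hj] at he
      simp at he⟩
  map_add' f g := by
    apply Subtype.ext
    simp only [map_add, Submodule.coe_add]
    rw [← Pi.single_add]
    congr 1
    ext1 x
    simp
  map_smul' a f := by
    apply Subtype.ext
    simp only [map_smul, Submodule.coe_smul, RingHom.id_apply]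
    rw [← Pi.single_smul]
    congr 1
    ext1 x
    rw [LinearMap.smulRight_apply, LinearMap.smul_apply, LinearMap.smulRight_apply, smul_comm]

theorem El_same (t j : ℕ) (ξ : X j →ₗ[ZMod 2] ZMod 2) (d : ℕ) (f : Pl d) (x : X j) :
    (El t j ξ d f).1 j x = ξ x • hcT t j d f := by
  change (Pi.single j (ξ.smulRight (hcT t j d f)) : ∀ j, X j →ₗ[ZMod 2] Pl d) j x = _
  rw [Pi.single_eq_same]
  rfl

theorem El_ne (t j : ℕ) (ξ : X j →ₗ[ZMod 2] ZMod 2) (d : ℕ) (f : Pl d) (j' : ℕ) (h : j' ≠ j)
    (x : X j') : (El t j ξ d f).1 j' x = 0 := by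
  change (Pi.single j (ξ.smulRight (hcT t j d f)) : ∀ j, X j →ₗ[ZMod 2] Pl d) j' x = _
  rw [Pi.single_eq_of_ne h]
  rfl

theorem hcT_lin (t j : ℕ) {d' d : ℕ} (L : Fin d' → Fin d → ZMod 2) (f : Pl d') :
    hcT t j d (lin L f) = lin L (hcT t j d' f) := by
  unfold hcT
  split_ifs
  · exact hc_lin _ L f
  · simp

theorem El_lin (t j : ℕ) (ξ : X j →ₗ[ZMod 2] ZMod 2) {d' d : ℕ} (L : Fin d' → Fin d → ZMod 2)
    (f : Pl d') : El t j ξ d (lin L f) = subs L (El t j ξ d' f) := by
  apply ES_ext
  intro j' x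
  rw [subs_apply]
  by_cases h : j' = j
  · subst h
    rw [El_same, El_same, hcT_lin, map_smul]
  · rw [El_ne _ _ _ _ _ _ h, El_ne _ _ _ _ _ _ h, map_zero]

theorem psi_IsNP {t n m j : ℕ} (hj : m + t = j) {p : ∀ d, ES X t d →ₗ[ZMod 2] Pl d}
    (hp : IsPN t n p) (ξ : X j →ₗ[ZMod 2] ZMod 2) : IsNP m n (fun d => (p d).comp (El t j ξ d)) where
  nat := fun L x => by
    simp only [LinearMap.comp_apply]
    rw [El_lin, hp.nat]
  dom := fun d x => by
    simp only [LinearMap.comp_apply]
    congr 1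
    apply ES_ext
    intro j' y
    by_cases h : j' = j
    · subst h
      rw [El_same, El_same]
      congr 1
      rw [hcT, if_pos (by omega), show j' - t = m by omega]
      rw [homogeneousComponent_eq_self (homogeneousComponent_isHomogeneous m x)]
    · rw [El_ne _ _ _ _ _ _ h, El_ne _ _ _ _ _ _ h]
  cod := fun d x => hp.cod d _

/-- decomposition of a natural transformation -/
theorem IsPN.decomp [∀ j, Module.Finite (ZMod 2) (X j)] {t n : ℕ}
    {p : ∀ d, ES X t d →ₗ[ZMod 2] Pl d} (hp : IsPN t n p) (d : ℕ) (c : ES X t d) :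
    p d c = ∑ m ∈ Finset.range (n + 1), ∑ i,
      p d (El t (m + t) ((Module.finBasis (ZMod 2) (X (m + t))).coord i) d
        (c.1 (m + t) (Module.finBasis (ZMod 2) (X (m + t)) i))) := by
  classical
  simp only [← map_sum]
  rw [← sub_eq_zero, ← map_sub]
  apply hp.cont
  intro j hj
  apply LinearMap.ext
  intro x
  rw [LinearMap.zero_apply]
  have hval : ∀ (s : ES X t d) (j : ℕ) (x : X j), (s.1 j x) = pr t j x d s := fun _ _ _ => rfl
  rw [hval, map_sub, map_sum]
  simp only [map_sum]
  simp only [pr_apply]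
  by_cases htj : t ≤ j
  · obtain ⟨m, rfl⟩ : ∃ m, j = m + t := ⟨j - t, by omega⟩
    rw [Finset.sum_eq_single m]
    · simp only [El_same]
      have h1 : ∀ i, hcT t (m + t) d (c.1 (m + t) (Module.finBasis (ZMod 2) (X (m + t)) i)) =
          c.1 (m + t) (Module.finBasis (ZMod 2) (X (m + t)) i) := by
        intro i
        rw [hcT, if_pos (by omega)]
        exact homogeneousComponent_eq_self (ES_hom c (by omega) _)
      simp only [h1]
      have h2 := (Module.finBasis (ZMod 2) (X (m + t))).sum_repr x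
      conv_lhs => rw [← h2]
      rw [map_sum]
      simp only [map_smul]
      rw [sub_eq_zero]
      refine Finset.sum_congr rfl fun i _ => ?_
      rw [h2, Module.Basis.coord_apply]
    · intro b _ hb
      apply Finset.sum_eq_zero
      intro i _
      apply El_ne
      omega
    · intro h
      exfalso
      apply h
      rw [Finset.mem_range]
      omega
  · rw [ES_zero c (by omega), zero_sub, neg_eq_zero]
    apply Finset.sum_eq_zero
    intro m _
    apply Finset.sum_eq_zero
    intro i _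
    apply El_ne
    omega

end one

end SHU


end

section

/-! Part 7: the retract argument. -/

namespace SHU
open MvPolynomial

universe u

theorem exists_lim : ∃ Λ : (ℕ → ZMod 2) →ₗ[ZMod 2] ZMod 2,
    (∀ a b : ℕ → ZMod 2, (∃ N, ∀ k ≥ N, a k = b k) → Λ a = Λ b) ∧ ∀ c, Λ (fun _ => c) = c := by
  let Z0 : Submodule (ZMod 2) (ℕ → ZMod 2) :=
    { carrier := {a | ∃ N, ∀ k ≥ N, a k = 0}
      add_mem' := by
        rintro a b ⟨N, hN⟩ ⟨M, hM⟩
        exact ⟨max N M, fun k hk => by
          rw [Pi.add_apply, hN k (le_trans (le_max_left _ _) hk),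
            hM k (le_trans (le_max_right _ _) hk), add_zero]⟩
      zero_mem' := ⟨0, fun _ _ => rfl⟩
      smul_mem' := by
        rintro c a ⟨N, hN⟩
        exact ⟨N, fun k hk => by rw [Pi.smul_apply, hN k hk, smul_zero]⟩ }
  have h1 : (fun _ => (1 : ZMod 2)) ∉ Z0 := by
    rintro ⟨N, hN⟩
    exact one_ne_zero (hN N (le_refl N))
  obtain ⟨Λ, hΛ1, hΛ⟩ := Submodule.exists_le_ker_of_notMem h1
  have h2 : Λ (fun _ => (1 : ZMod 2)) = 1 := by
    revert hΛ1
    generalize Λ (fun _ => (1 : ZMod 2)) = y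
    revert y
    decide
  refine ⟨Λ, ?_, ?_⟩
  · rintro a b ⟨N, hN⟩
    have : a - b ∈ Z0 := ⟨N, fun k hk => by rw [Pi.sub_apply, hN k hk, sub_self]⟩
    have h3 := hΛ this
    rw [LinearMap.mem_ker, map_sub, sub_eq_zero] at h3
    exact h3
  · intro c
    have : (fun _ : ℕ => c) = c • (fun _ : ℕ => (1 : ZMod 2)) := by
      funext k
      simp
    rw [this, map_smul, h2, smul_eq_mul, mul_one]

theorem exists_factor {A B : Type*} [AddCommGroup A] [Module (ZMod 2) A] [AddCommGroup B]
    [Module (ZMod 2) B] (f : A →ₗ[ZMod 2] B) (φ : A →ₗ[ZMod 2] ZMod 2)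
    (h : ∀ a, f a = 0 → φ a = 0) : ∃ ψ : B →ₗ[ZMod 2] ZMod 2, ∀ a, ψ (f a) = φ a := by
  have h1 : φ ∈ (LinearMap.ker f).dualAnnihilator := by
    rw [Submodule.mem_dualAnnihilator]
    intro a ha
    exact h a ha
  rw [← LinearMap.range_dualMap_eq_dualAnnihilator_ker] at h1
  obtain ⟨ψ, hψ⟩ := h1
  refine ⟨ψ, fun a => ?_⟩
  rw [← hψ]
  rfl

section
variable {X : ℕ → Type u} [∀ j, AddCommGroup (X j)] [∀ j, Module (ZMod 2) (X j)]

/-- the space `P^n_t(V)` -/
def PNm (X : ℕ → Type u) [∀ j, AddCommGroup (X j)] [∀ j, Module (ZMod 2) (X j)] (t n : ℕ) :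
    Submodule (ZMod 2) (∀ d, ES X t d →ₗ[ZMod 2] Pl d) where
  carrier := {p | IsPN t n p}
  add_mem' := fun ha hb => ha.add hb
  zero_mem' := IsPN.zero t n
  smul_mem' := fun c _ ha => ha.smul c

theorem thpr_IsPN (t j : ℕ) (x : X j) (k : ℕ) :
    IsPN t (2 ^ k) (fun d => (th (j - t) k d).comp (pr t j x d)) := by
  by_cases h : t ≤ j
  · exact (th_IsNP (j - t) k).comp_pn' (pr_IsPN (by omega) x)
  · have h0 : (fun d => (th (j - t) k d).comp (pr t j x d)) = fun d => 0 := by
      funext d
      apply LinearMap.ext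
      intro c
      rw [LinearMap.comp_apply, pr_apply, ES_zero c (by omega), map_zero, LinearMap.zero_apply]
    rw [h0]
    exact IsPN.zero t _

/-- `θ^k ∘ pr_x` as an element of `P^{2^k}_t` -/
noncomputable def thpr (t j k : ℕ) (x : X j) : PNm X t (2 ^ k) :=
  ⟨fun d => (th (j - t) k d).comp (pr t j x d), thpr_IsPN t j x k⟩

theorem thpr_add (t j k : ℕ) (x y : X j) : thpr t j k (x + y) = thpr t j k x + thpr t j k y := by
  apply Subtype.ext
  funext d
  apply LinearMap.ext
  intro c
  change th (j - t) k d (c.1 j (x + y)) = th (j - t) k d (c.1 j x) + th (j - t) k d (c.1 j y)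
  rw [map_add, map_add]

theorem thpr_smul (t j k : ℕ) (a : ZMod 2) (x : X j) :
    thpr t j k (a • x) = a • thpr t j k x := by
  apply Subtype.ext
  funext d
  apply LinearMap.ext
  intro c
  change th (j - t) k d (c.1 j (a • x)) = a • th (j - t) k d (c.1 j x)
  rw [map_smul, map_smul]

theorem thpr_zero (t j k : ℕ) (h : j < t) (x : X j) : thpr t j k x = 0 := by
  apply Subtype.ext
  funext d
  apply LinearMap.ext
  intro c
  change th (j - t) k d (c.1 j x) = 0
  rw [ES_zero c h, map_zero]

/-- the element defined by a family of functionals on `P^{2^k}_t` -/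
noncomputable def yel (t : ℕ) (Λ : (ℕ → ZMod 2) →ₗ[ZMod 2] ZMod 2)
    (ψ : ∀ k, PNm X t (2 ^ k) →ₗ[ZMod 2] ZMod 2) : ES X t 1 :=
  ⟨fun j =>
    { toFun := fun x => Λ (fun k => ψ k (thpr t j k x)) • (MvPolynomial.X 0 : Pl 1) ^ (j - t)
      map_add' := by
        intro x y
        rw [← add_smul, ← map_add]
        congr 2
        funext k
        rw [thpr_add, map_add]
        rfl
      map_smul' := by
        intro a x
        rw [RingHom.id_apply, ← smul_assoc, ← map_smul]
        congr 2
        funext k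
        rw [thpr_smul, map_smul]
        rfl }, by
    classical
    intro j x e he
    change coeff e (Λ (fun k => ψ k (thpr t j k x)) • (MvPolynomial.X 0 : Pl 1) ^ (j - t)) ≠ 0 at he
    by_cases h : j < t
    · exfalso
      apply he
      have h1 : (fun k => ψ k (thpr t j k x)) = (0 : ℕ → ZMod 2) := by
        funext k
        rw [thpr_zero t j k h, map_zero]
        rfl
      rw [h1, map_zero, zero_smul, coeff_zero]
    · rw [coeff_smul, smul_eq_mul] at he
      have h1 := right_ne_zero_of_mul he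
      rw [X_pow_eq_monomial, coeff_monomial] at h1
      split_ifs at h1 with h2
      · rw [← h2, Finsupp.degree_single]
        omega
      · exact absurd rfl h1⟩

theorem yel_apply (t : ℕ) (Λ : (ℕ → ZMod 2) →ₗ[ZMod 2] ZMod 2)
    (ψ : ∀ k, PNm X t (2 ^ k) →ₗ[ZMod 2] ZMod 2) (j : ℕ) (x : X j) :
    (yel t Λ ψ).1 j x = Λ (fun k => ψ k (thpr t j k x)) • (MvPolynomial.X 0 : Pl 1) ^ (j - t) := rfl

/-- `θ^k ∘ p` as an element of `P^{2^k}_t` -/
noncomputable def thp {t n : ℕ} (k : ℕ) {p : ∀ d, ES X t d →ₗ[ZMod 2] Pl d} (hp : IsPN t n p) :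
    PNm X t (2 ^ k) :=
  ⟨fun d => (th n k d).comp (p d), (th_IsNP n k).comp_pn' hp⟩

/-- the Yoneda type property of `yel` -/
theorem yel_prop [∀ j, Module.Finite (ZMod 2) (X j)] (t : ℕ)
    (Λ : (ℕ → ZMod 2) →ₗ[ZMod 2] ZMod 2)
    (hΛ : ∀ a b : ℕ → ZMod 2, (∃ N, ∀ k ≥ N, a k = b k) → Λ a = Λ b)
    (ψ : ∀ k, PNm X t (2 ^ k) →ₗ[ZMod 2] ZMod 2) {n : ℕ}
    {p : ∀ d, ES X t d →ₗ[ZMod 2] Pl d} (hp : IsPN t n p) :
    p 1 (yel t Λ ψ) = Λ (fun k => ψ k (thp k hp)) • (MvPolynomial.X 0 : Pl 1) ^ n := by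
  classical
  rw [hp.decomp 1]
  have hR : Λ (fun k => ψ k (thp k hp)) =
      ∑ m ∈ Finset.range (n + 1), ∑ i,
        ev m n (fun d => (p d).comp (El t (m + t) ((Module.finBasis (ZMod 2) (X (m + t))).coord i) d)) *
          Λ (fun k => ψ k (thpr t (m + t) k (Module.finBasis (ZMod 2) (X (m + t)) i))) := by
    have h1 : ∀ (m : ℕ) (i : Fin (Module.finrank (ZMod 2) (X (m + t)))),
        ev m n (fun d => (p d).comp (El t (m + t) ((Module.finBasis (ZMod 2) (X (m + t))).coord i) d)) *
          Λ (fun k => ψ k (thpr t (m + t) k (Module.finBasis (ZMod 2) (X (m + t)) i))) =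
        Λ (ev m n (fun d => (p d).comp (El t (m + t) ((Module.finBasis (ZMod 2) (X (m + t))).coord i) d)) •
          (fun k => ψ k (thpr t (m + t) k (Module.finBasis (ZMod 2) (X (m + t)) i)))) := by
      intro m i
      rw [map_smul, smul_eq_mul]
    simp only [h1]
    simp only [← map_sum]
    apply hΛ
    refine ⟨2 * n, fun k hk => ?_⟩
    rw [Finset.sum_apply]
    simp only [Finset.sum_apply, Pi.smul_apply]
    simp only [← map_smul, ← map_sum]
    congr 1
    apply Subtype.ext
    funext d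
    apply LinearMap.ext
    intro c
    have h2 : ∀ (s : PNm X t (2 ^ k)), (s.1 d) c = (LinearMap.applyₗ c ∘ₗ
      (LinearMap.proj d : (∀ d, ES X t d →ₗ[ZMod 2] Pl d) →ₗ[ZMod 2] _) ∘ₗ
        (PNm X t (2 ^ k)).subtype) s := fun _ => rfl
    rw [h2, h2, map_sum]
    simp only [map_sum]
    simp only [← h2]
    change th n k d (p d c) = _
    rw [hp.decomp d c, map_sum]
    refine Finset.sum_congr rfl fun m hm => ?_
    rw [map_sum]
    refine Finset.sum_congr rfl fun i _ => ?_
    rw [Finset.mem_range] at hm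
    have h3 := th_comp (psi_IsNP (show m + t = m + t from rfl) hp
      ((Module.finBasis (ZMod 2) (X (m + t))).coord i)) k (by omega) d
      (c.1 (m + t) (Module.finBasis (ZMod 2) (X (m + t)) i))
    rw [LinearMap.comp_apply] at h3
    rw [h3]
    change _ = ev m n (fun d => (p d).comp
      (El t (m + t) ((Module.finBasis (ZMod 2) (X (m + t))).coord i) d)) •
      th (m + t - t) k d (c.1 (m + t) (Module.finBasis (ZMod 2) (X (m + t)) i))
    rw [Nat.add_sub_cancel]
  rw [hR, Finset.sum_smul]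
  refine Finset.sum_congr rfl fun m _ => ?_
  rw [Finset.sum_smul]
  refine Finset.sum_congr rfl fun i _ => ?_
  have h4 := (psi_IsNP (show m + t = m + t from rfl) hp
      ((Module.finBasis (ZMod 2) (X (m + t))).coord i)).ev_eq
  rw [LinearMap.comp_apply] at h4
  rw [yel_apply, Nat.add_sub_cancel, map_smul, map_smul, h4, smul_smul, mul_comm]

end

section
variable {W : ℕ → Type u} [∀ j, AddCommGroup (W j)] [∀ j, Module (ZMod 2) (W j)]
variable {X : ℕ → Type u} [∀ j, AddCommGroup (X j)] [∀ j, Module (ZMod 2) (X j)]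
variable {Y : ℕ → Type u} [∀ j, AddCommGroup (Y j)] [∀ j, Module (ZMod 2) (Y j)]

/-- THE RETRACT LEMMA: exactness on `P^n_t` for `n = 2^k` large gives exactness of
`E^t(B;-)` (reduced part). -/
theorem retract_lemma [∀ j, Module.Finite (ZMod 2) (W j)] (t : ℕ)
    (α : ∀ d, ES W t d →ₗ[ZMod 2] ES X t d) (hα : IsNT t α)
    (β : ∀ d, ES X t d →ₗ[ZMod 2] ES Y t d)
    (k0 : ℕ) (hex : ∀ k ≥ k0, ∀ p : ∀ d, ES X t d →ₗ[ZMod 2] Pl d, IsPN t (2 ^ k) p →
      (∀ d c, p d (α d c) = 0) → ∃ r : ∀ d, ES Y t d →ₗ[ZMod 2] Pl d, ∀ d c, p d c = r d (β d c))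
    (z : ES X t 1) (hz : z.1 t = 0) (hβz : β 1 z = 0) :
    ∃ y : ES W t 1, y.1 t = 0 ∧ α 1 y = z := by
  classical
  obtain ⟨Λ, hΛ, hΛc⟩ := exists_lim
  -- precomposition with `α`
  let pull : ∀ k, PNm X t (2 ^ k) →ₗ[ZMod 2] PNm W t (2 ^ k) := fun k =>
    { toFun := fun p => ⟨fun d => (p.1 d).comp (α d), IsPN.comp p.2 hα⟩
      map_add' := fun p q => rfl
      map_smul' := fun a p => rfl }
  let φ : ∀ k, PNm X t (2 ^ k) →ₗ[ZMod 2] ZMod 2 := fun k =>
    { toFun := fun p => coeff (Finsupp.single 0 (2 ^ k)) (p.1 1 z)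
      map_add' := fun p q => rfl
      map_smul' := fun a p => rfl }
  have hψ : ∀ k, ∃ ψ : PNm W t (2 ^ k) →ₗ[ZMod 2] ZMod 2, k0 ≤ k → ∀ p, ψ (pull k p) = φ k p := by
    intro k
    by_cases hk : k0 ≤ k
    · obtain ⟨ψ, hψ⟩ := exists_factor (pull k) (φ k) (by
        intro p hp
        obtain ⟨r, hr⟩ := hex k hk p.1 p.2 (by
          intro d c
          have h1 := congrArg Subtype.val hp
          have h2 := congrFun h1 d
          exact DFunLike.congr_fun h2 c)
        change coeff (Finsupp.single 0 (2 ^ k)) (p.1 1 z) = 0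
        rw [hr, hβz, map_zero, coeff_zero])
      exact ⟨ψ, fun _ => hψ⟩
    · exact ⟨0, fun h => absurd h hk⟩
  choose ψ hψ using hψ
  have hred : (yel t Λ ψ).1 t = 0 := by
    apply LinearMap.ext
    intro x
    rw [yel_apply]
    have h1 : (fun k => ψ k (thpr t t k x)) = (0 : ℕ → ZMod 2) := by
      funext k
      have h2 : thpr t t k x = 0 := by
        apply Subtype.ext
        funext d
        apply LinearMap.ext
        intro c
        change th (t - t) k d (c.1 t x) = 0
        rw [Nat.sub_self, th_apply, homogeneousComponent_zero, alg_C]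
        apply homogeneousComponent_eq_zero
        rw [MvPolynomial.algebraMap_eq, totalDegree_C]
        positivity
      rw [h2, map_zero]
      rfl
    rw [h1, map_zero, zero_smul]
    rfl
  refine ⟨yel t Λ ψ, hred, ?_⟩
  apply ES_ext
  intro j x
  rcases lt_trichotomy j t with h | h | h
  · rw [ES_zero _ h, ES_zero _ h]
  · subst h
    rw [hz]
    have h1 := hα.cont 1 (yel j Λ ψ) j (fun i hi => by
      rcases Nat.lt_or_eq_of_le hi with h2 | h2
      · apply LinearMap.ext
        intro x
        rw [ES_zero _ h2]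
        rfl
      · subst h2
        exact hred) j (le_refl j)
    rw [h1]
  · have hp := pr_IsPN (X := X) (show (j - t) + t = j by omega) x
    have hpα := hp.comp hα
    have h1 := yel_prop t Λ hΛ ψ hpα
    rw [LinearMap.comp_apply, pr_apply] at h1
    rw [h1]
    -- value of `z`
    have h2 : z.1 j x = coeff (Finsupp.single 0 (j - t)) (z.1 j x) • MvPolynomial.X 0 ^ (j - t) :=
      hom_one _ _ (ES_hom z (by omega) x)
    conv_rhs => rw [h2]
    congr 1
    rw [← hΛc (coeff (Finsupp.single 0 (j - t)) (z.1 j x))]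
    apply hΛ
    refine ⟨max k0 (j - t), fun k hk => ?_⟩
    have hk1 : k0 ≤ k := le_trans (le_max_left _ _) hk
    have hk2 : j - t ≤ k := le_trans (le_max_right _ _) hk
    have h3 : thp k hpα = pull k (thp k hp) := rfl
    rw [h3, hψ k hk1]
    change coeff (Finsupp.single 0 (2 ^ k)) (th (j - t) k 1 (z.1 j x)) = _
    rw [h2, map_smul, (th_IsNP (j - t) k).ev_eq, ev_th (j - t) k (by omega) (by omega), one_smul,
      coeff_smul, X_pow_eq_monomial, coeff_monomial, if_pos rfl, smul_eq_mul, mul_one,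
      coeff_smul, X_pow_eq_monomial, coeff_monomial, if_pos rfl, smul_eq_mul, mul_one]

end
end SHU


end

section

/-! Part 8: the loop step. -/

namespace SHU
open MvPolynomial

universe u

/-- coefficient of `X_0^1` -/
noncomputable def co1 (d : ℕ) : Pl (d + 1) →ₗ[ZMod 2] Pl d :=
  ((Polynomial.lcoeff (Pl d) 1).restrictScalars (ZMod 2)).comp
    (finSuccEquiv (ZMod 2) d).toAlgHom.toLinearMap

theorem co1_apply (d : ℕ) (y : Pl (d + 1)) :
    co1 d y = (finSuccEquiv (ZMod 2) d y).coeff 1 := rfl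

theorem coeff_co1 (d : ℕ) (y : Pl (d + 1)) (e : Fin d →₀ ℕ) :
    coeff e (co1 d y) = coeff (Finsupp.cons 1 e) y := by
  rw [co1_apply, finSuccEquiv_coeff_coeff]

theorem cons_degree {d : ℕ} (a : ℕ) (e : Fin d →₀ ℕ) :
    (Finsupp.cons a e).degree = a + e.degree := by
  rw [Finsupp.degree_eq_sum, Finsupp.degree_eq_sum, Fin.sum_univ_succ]
  simp

theorem fse_rename_succ (d : ℕ) (y : Pl d) :
    finSuccEquiv (ZMod 2) d (rename Fin.succ y) = Polynomial.C y := by
  have h : ((finSuccEquiv (ZMod 2) d).toAlgHom.comp (rename Fin.succ) :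
      Pl d →ₐ[ZMod 2] Polynomial (Pl d)) = Polynomial.CAlgHom (R := ZMod 2) (A := Pl d) := by
    apply MvPolynomial.algHom_ext
    intro j
    simp [finSuccEquiv_X_succ]
  have := DFunLike.congr_fun h y
  simpa using this

theorem co1_X_rename (d : ℕ) (y : Pl d) : co1 d (X 0 * rename Fin.succ y) = y := by
  rw [co1_apply, map_mul, fse_rename_succ, finSuccEquiv_X_zero, Polynomial.coeff_X_mul,
    Polynomial.coeff_C_zero]

theorem co1_hom {d n : ℕ} {y : Pl (d + 1)} (h : y.IsHomogeneous (n + 1)) :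
    (co1 d y).IsHomogeneous n := by
  rw [isHom_iff] at h ⊢
  intro e he
  rw [coeff_co1] at he
  have := h _ he
  rw [cons_degree] at this
  omega

/-- `1 ⊕ L` -/
def L1 {d' d : ℕ} (L : Fin d' → Fin d → ZMod 2) : Fin (d' + 1) → Fin (d + 1) → ZMod 2 :=
  Fin.cons (fun i => if i = 0 then 1 else 0) (fun j => Fin.cons 0 (L j))

theorem lin_L1_zero {d' d : ℕ} (L : Fin d' → Fin d → ZMod 2) : lin (L1 L) (X 0) = X 0 := by
  rw [lin_X, Fin.sum_univ_succ, Finset.sum_eq_zero]
  · simp [L1]
  · intro i _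
    simp [L1, Fin.succ_ne_zero]

theorem lin_L1_rename {d' d : ℕ} (L : Fin d' → Fin d → ZMod 2) (y : Pl d') :
    lin (L1 L) (rename Fin.succ y) = rename Fin.succ (lin L y) := by
  have h : ((lin (L1 L)).comp (rename Fin.succ) : Pl d' →ₐ[ZMod 2] Pl (d + 1)) =
      (rename Fin.succ).comp (lin L) := by
    apply MvPolynomial.algHom_ext
    intro j
    rw [AlgHom.comp_apply, AlgHom.comp_apply, rename_X, lin_X, lin_X, Fin.sum_univ_succ, map_sum]
    simp only [L1, Fin.cons_succ, Fin.cons_zero, C_0, zero_mul, zero_add, map_mul, rename_C,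
      rename_X]
  exact DFunLike.congr_fun h y

theorem fse_lin_L1 {d' d : ℕ} (L : Fin d' → Fin d → ZMod 2) (y : Pl (d' + 1)) :
    finSuccEquiv (ZMod 2) d (lin (L1 L) y) =
      Polynomial.mapAlgHom (lin L) (finSuccEquiv (ZMod 2) d' y) := by
  have h : ((finSuccEquiv (ZMod 2) d).toAlgHom.comp (lin (L1 L)) :
      Pl (d' + 1) →ₐ[ZMod 2] Polynomial (Pl d)) =
      (Polynomial.mapAlgHom (lin L)).comp (finSuccEquiv (ZMod 2) d').toAlgHom := by
    apply MvPolynomial.algHom_ext
    intro j
    refine Fin.cases ?_ (fun j => ?_) j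
    · have h1 : finSuccEquiv (ZMod 2) d (lin (L1 L) (X 0)) = Polynomial.X := by
        rw [lin_L1_zero, finSuccEquiv_X_zero]
      simpa [finSuccEquiv_X_zero] using h1
    · have h1 : finSuccEquiv (ZMod 2) d (lin (L1 L) (X j.succ)) = Polynomial.C (lin L (X j)) := by
        have : (X j.succ : Pl (d' + 1)) = rename Fin.succ (X j) := by rw [rename_X]
        rw [this, lin_L1_rename, fse_rename_succ]
      simpa [finSuccEquiv_X_succ] using h1
  have := DFunLike.congr_fun h y
  simpa using this

theorem co1_lin {d' d : ℕ} (L : Fin d' → Fin d → ZMod 2) (y : Pl (d' + 1)) :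
    co1 d (lin (L1 L) y) = lin L (co1 d' y) := by
  rw [co1_apply, co1_apply, fse_lin_L1]
  simp

section
variable {X : ℕ → Type u} [∀ j, AddCommGroup (X j)] [∀ j, Module (ZMod 2) (X j)]

/-- `h ↦ X_0 · h` -/
noncomputable def iota (t d : ℕ) : ES X (t + 1) d →ₗ[ZMod 2] ES X t (d + 1) where
  toFun c := ⟨fun j => ((LinearMap.mulLeft (ZMod 2) (MvPolynomial.X 0 : Pl (d + 1))).comp
    (rename Fin.succ : Pl d →ₐ[ZMod 2] Pl (d + 1)).toLinearMap).comp (c.1 j), by
    intro j x e he
    change coeff e (MvPolynomial.X 0 * rename Fin.succ (c.1 j x)) ≠ 0 at he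
    by_cases h : t + 1 ≤ j
    · have h1 : ((MvPolynomial.X 0 : Pl (d + 1)) * rename Fin.succ (c.1 j x)).IsHomogeneous
          (1 + (j - (t + 1))) :=
        (isHomogeneous_X _ _).mul ((ES_hom c h x).rename_isHomogeneous)
      have := (isHom_iff _).mp h1 e he
      omega
    · exfalso
      apply he
      rw [ES_zero c (by omega), map_zero, mul_zero, coeff_zero]⟩
  map_add' c c' := by
    apply Subtype.ext
    funext j
    exact LinearMap.comp_add _ _ _
  map_smul' a c := by
    apply Subtype.ext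
    funext j
    exact LinearMap.comp_smul _ _ _

theorem iota_apply (t d : ℕ) (c : ES X (t + 1) d) (j : ℕ) (x : X j) :
    (iota t d c).1 j x = MvPolynomial.X 0 * rename Fin.succ (c.1 j x) := rfl

/-- restriction of the variable `X_0` to the circle -/
noncomputable def DD (t d : ℕ) : ES X t (d + 1) →ₗ[ZMod 2] ES X (t + 1) d where
  toFun c := ⟨fun j => (co1 d).comp (c.1 j), by
    intro j x e he
    change coeff e (co1 d (c.1 j x)) ≠ 0 at he
    rw [coeff_co1] at he
    have := c.2 j x _ he
    rw [cons_degree] at this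
    omega⟩
  map_add' c c' := by
    apply Subtype.ext
    funext j
    exact LinearMap.comp_add _ _ _
  map_smul' a c := by
    apply Subtype.ext
    funext j
    exact LinearMap.comp_smul _ _ _

theorem DD_apply (t d : ℕ) (c : ES X t (d + 1)) (j : ℕ) (x : X j) :
    (DD t d c).1 j x = co1 d (c.1 j x) := rfl

theorem DD_iota (t d : ℕ) (c : ES X (t + 1) d) : DD t d (iota t d c) = c := by
  apply ES_ext
  intro j x
  rw [DD_apply, iota_apply, co1_X_rename]

theorem iota_subs {t d' d : ℕ} (L : Fin d' → Fin d → ZMod 2) (c : ES X (t + 1) d') :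
    iota t d (subs L c) = subs (L1 L) (iota t d' c) := by
  apply ES_ext
  intro j x
  rw [iota_apply, subs_apply, subs_apply, iota_apply, map_mul, lin_L1_zero, lin_L1_rename]

/-- the loop `σ p` of a natural transformation -/
noncomputable def sg (t : ℕ) (p : ∀ d, ES X t d →ₗ[ZMod 2] Pl d) (d : ℕ) :
    ES X (t + 1) d →ₗ[ZMod 2] Pl d := (co1 d).comp ((p (d + 1)).comp (iota t d))

theorem sg_apply (t : ℕ) (p : ∀ d, ES X t d →ₗ[ZMod 2] Pl d) (d : ℕ) (c : ES X (t + 1) d) :
    sg t p d c = co1 d (p (d + 1) (iota t d c)) := rfl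

theorem sg_IsPN {t n : ℕ} {p : ∀ d, ES X t d →ₗ[ZMod 2] Pl d} (hp : IsPN t (n + 1) p) :
    IsPN (t + 1) n (sg t p) where
  nat := fun L c => by
    rw [sg_apply, sg_apply, iota_subs, hp.nat, co1_lin]
  cod := fun d c => co1_hom (hp.cod _ _)
  cont := fun d c hc => by
    rw [sg_apply, hp.cont, map_zero]
    intro j hj
    apply LinearMap.ext
    intro x
    rw [iota_apply, hc j (by omega), LinearMap.zero_apply, map_zero, mul_zero]
    rfl

/-- a natural operation does not create `X_0^1` -/
theorem IsNP.co1_zero {m n d : ℕ} {f : ∀ d, Pl d →ₗ[ZMod 2] Pl d} (hf : IsNP m n f)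
    (y : Pl (d + 1)) (hy : co1 d y = 0) : co1 d (f (d + 1) y) = 0 := by
  classical
  rw [hf.dom, homogeneousComponent_apply, map_sum, map_sum]
  apply Finset.sum_eq_zero
  intro e he
  rw [Finset.mem_filter] at he
  obtain ⟨π, hπ⟩ := exists_pi m e he.2
  have he0 : e 0 ≠ 1 := by
    intro h0
    rw [mem_support_iff] at he
    apply he.1
    have h1 := Finsupp.cons_tail e
    rw [h0] at h1
    rw [← h1, ← coeff_co1, hy, coeff_zero]
  have hmon : (monomial e (coeff e y) : Pl (d + 1)) =
      (coeff e y) • monomial e (1 : ZMod 2) := by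
    rw [smul_monomial, smul_eq_mul, mul_one]
  rw [hmon, map_smul, map_smul]
  suffices hs : co1 d (f (d + 1) (monomial e (1 : ZMod 2))) = 0 by rw [hs, smul_zero]
  rw [← hπ, hf.mono, hf.Un_eq n (le_refl n), map_sum, map_sum]
  apply Finset.sum_eq_zero
  intro a _
  rw [map_smul, map_smul]
  have hz : co1 d (rename π (monomial (xp a) (1 : ZMod 2))) = 0 := by
    ext e'
    rw [coeff_co1, rename_monomial, coeff_monomial, if_neg, coeff_zero]
    intro h
    have h1 := DFunLike.congr_fun h 0
    rw [Finsupp.cons_zero, xp, Finsupp.mapDomain_finsetSum, Finsupp.finsetSum_apply] at h1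
    simp only [Finsupp.mapDomain_single, Finsupp.single_apply] at h1
    have h2 : e 0 = ∑ k, if π k = 0 then 1 else 0 := by
      rw [← hπ, Finsupp.finsetSum_apply]
      simp only [Finsupp.single_apply]
    have h3 : e 0 ≤ 1 := by
      refine le_trans (le_of_eq h2) (le_trans ?_ (le_of_eq h1))
      apply Finset.sum_le_sum
      intro k _
      split_ifs
      · exact Nat.one_le_two_pow
      · exact le_refl _
    have h4 : e 0 = 0 := by omega
    rw [h4] at h2
    have h5 : ∀ k, π k ≠ 0 := by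
      intro k hk
      have h6 : (if π k = 0 then 1 else 0) ≤ ∑ k, if π k = 0 then 1 else 0 :=
        Finset.single_le_sum (f := fun k => if π k = 0 then 1 else 0)
          (fun _ _ => Nat.zero_le _) (Finset.mem_univ k)
      rw [if_pos hk, ← h2] at h6
      omega
    rw [Finset.sum_eq_zero] at h1
    · omega
    · intro k _
      rw [if_neg (h5 k)]
  rw [hz, smul_zero]

theorem IsPN.co1_zero [∀ j, Module.Finite (ZMod 2) (X j)] {t n : ℕ}
    {p : ∀ d, ES X t d →ₗ[ZMod 2] Pl d} (hp : IsPN t n p) (d : ℕ) (h : ES X t (d + 1))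
    (hh : DD t d h = 0) : co1 d (p (d + 1) h) = 0 := by
  rw [hp.decomp, map_sum]
  apply Finset.sum_eq_zero
  intro m _
  rw [map_sum]
  apply Finset.sum_eq_zero
  intro i _
  have h1 := (psi_IsNP (show m + t = m + t from rfl) hp
    ((Module.finBasis (ZMod 2) (X (m + t))).coord i)).co1_zero
    (h.1 (m + t) (Module.finBasis (ZMod 2) (X (m + t)) i)) (by
      rw [← DD_apply, hh]
      rfl)
  exact h1

end

section
variable {X : ℕ → Type u} [∀ j, AddCommGroup (X j)] [∀ j, Module (ZMod 2) (X j)]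
variable {Y : ℕ → Type u} [∀ j, AddCommGroup (Y j)] [∀ j, Module (ZMod 2) (Y j)]

/-- compatibility of the transformations for `t` and `t + 1` -/
def Compat (t : ℕ) (α : ∀ d, ES X t d →ₗ[ZMod 2] ES Y t d)
    (α' : ∀ d, ES X (t + 1) d →ₗ[ZMod 2] ES Y (t + 1) d) : Prop :=
  ∀ d (c : ES X t (d + 1)), α' d (DD t d c) = DD t d (α (d + 1) c)

theorem sg_comp [∀ j, Module.Finite (ZMod 2) (Y j)] {t n : ℕ}
    {α : ∀ d, ES X t d →ₗ[ZMod 2] ES Y t d} {α' : ∀ d, ES X (t + 1) d →ₗ[ZMod 2] ES Y (t + 1) d}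
    (hc : Compat t α α') {p : ∀ d, ES Y t d →ₗ[ZMod 2] Pl d} (hp : IsPN t n p) (d : ℕ)
    (c : ES X (t + 1) d) : sg t (fun d => (p d).comp (α d)) d c = sg t p d (α' d c) := by
  rw [sg_apply, sg_apply, LinearMap.comp_apply, ← sub_eq_zero, ← map_sub, ← map_sub]
  apply hp.co1_zero
  rw [map_sub, ← hc, DD_iota, DD_iota, sub_self]

end

end SHU


end

section

/-! Part 9: surjectivity and kernel of the loop map, the loop lemma. -/

namespace SHU
open MvPolynomial

universe u

theorem ty_cons {m : ℕ} (a0 : ℕ) (a : Fin m → ℕ) :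
    ty (Fin.cons a0 a : Fin (m + 1) → ℕ) = Finsupp.single a0 1 + ty a := by
  rw [ty, Fin.sum_univ_succ]
  simp only [Fin.cons_zero, Fin.cons_succ]
  rfl

theorem co1_xp {m : ℕ} (a : Fin (m + 1) → ℕ) :
    co1 m (monomial (xp a) (1 : ZMod 2)) =
      if a 0 = 0 then monomial (xp (fun i => a i.succ)) 1 else 0 := by
  classical
  have hx : xp a = Finsupp.cons (2 ^ (a 0)) (xp (fun i => a i.succ)) := by
    ext i
    refine Fin.cases ?_ (fun i => ?_) i
    · rw [Finsupp.cons_zero, xp_apply]
    · rw [Finsupp.cons_succ, xp_apply, xp_apply]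
  ext e
  rw [coeff_co1, coeff_monomial, hx]
  by_cases h : a 0 = 0
  · rw [if_pos h, coeff_monomial, h, pow_zero]
    by_cases h2 : xp (fun i => a i.succ) = e
    · rw [h2, if_pos rfl, if_pos rfl]
    · rw [if_neg h2, if_neg]
      intro h3
      apply h2
      have := congrArg Finsupp.tail h3
      simpa using this
  · rw [if_neg h, if_neg, coeff_zero]
    intro h3
    have h4 := DFunLike.congr_fun h3 0
    rw [Finsupp.cons_zero, Finsupp.cons_zero] at h4
    have h5 : 1 < 2 ^ (a 0) := Nat.one_lt_two_pow h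
    omega

/-- the loop of a natural operation -/
noncomputable def sgn (m : ℕ) (f : ∀ d, Pl d →ₗ[ZMod 2] Pl d) (d : ℕ) : Pl d →ₗ[ZMod 2] Pl d where
  toFun y := co1 d (f (d + 1) (X 0 * rename Fin.succ (homogeneousComponent m y)))
  map_add' x y := by
    rw [map_add, map_add, mul_add, map_add, map_add]
  map_smul' a y := by
    rw [map_smul, map_smul, mul_smul_comm, map_smul, map_smul, RingHom.id_apply]

theorem sgn_apply (m : ℕ) (f : ∀ d, Pl d →ₗ[ZMod 2] Pl d) (d : ℕ) (y : Pl d) :
    sgn m f d y = co1 d (f (d + 1) (X 0 * rename Fin.succ (homogeneousComponent m y))) := rfl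

theorem IsNP.sgn {m n : ℕ} {f : ∀ d, Pl d →ₗ[ZMod 2] Pl d} (hf : IsNP (m + 1) (n + 1) f) :
    IsNP m n (sgn m f) where
  nat := fun {d' d} L x => by
    rw [sgn_apply, sgn_apply, ← co1_lin, ← hf.nat, map_mul (lin (L1 L)), lin_L1_zero,
      lin_L1_rename, hc_lin]
  dom := fun d x => by
    rw [sgn_apply, sgn_apply,
      homogeneousComponent_eq_self (homogeneousComponent_isHomogeneous m x)]
  cod := fun d x => co1_hom (hf.cod _ _)

theorem op_surj {m n : ℕ} {f : ∀ d, Pl d →ₗ[ZMod 2] Pl d} (hf : IsNP m n f) :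
    ∃ g : ∀ d, Pl d →ₗ[ZMod 2] Pl d, IsNP (m + 1) (n + 1) g ∧
      ∀ d (y : Pl d), y.IsHomogeneous m → co1 d (g (d + 1) (X 0 * rename Fin.succ y)) = f d y := by
  classical
  let q : (ℕ →₀ ℕ) → ZMod 2 := fun M =>
    if 1 ≤ M 0 then mt m f (M - Finsupp.single 0 1) else 0
  have hq : ∀ a : Fin m → ℕ, q (ty (Fin.cons 0 a : Fin (m + 1) → ℕ)) = mt m f (ty a) := by
    intro a
    simp only [q]
    rw [ty_cons, if_pos, add_tsub_cancel_left]
    rw [Finsupp.add_apply, Finsupp.single_eq_same]
    omega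
  have hg : IsNP (m + 1) (n + 1) (op (n + 1) (m + 1) q) := by
    apply op_IsNP
    intro a ha
    -- some entry vanishes
    have h0 : 1 ≤ (ty a) 0 := by
      by_contra hc
      apply ha
      simp only [q]
      rw [if_neg hc]
    obtain ⟨i, hi⟩ : ∃ i, a i = 0 := by
      by_contra hc
      push Not at hc
      rw [ty, Finsupp.finsetSum_apply, Finset.sum_eq_zero] at h0
      · omega
      · intro i _
        rw [Finsupp.single_apply, if_neg (hc i)]
    have h1 : ∃ b : Fin m → ℕ, ty (Fin.cons 0 b : Fin (m + 1) → ℕ) = ty a ∧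
        ∑ i, 2 ^ (a i) = 1 + ∑ i, 2 ^ (b i) := by
      refine ⟨fun j => a (i.succAbove j), ?_, ?_⟩
      · rw [ty_cons, ty, ty, Fin.sum_univ_succAbove _ i, hi]
      · rw [Fin.sum_univ_succAbove _ i, hi, pow_zero]
    obtain ⟨b, hb, hab⟩ := h1
    rw [← hb, hq] at ha
    rw [hab, hf.mt_ty_sum b ha]
    omega
  refine ⟨op (n + 1) (m + 1) q, hg, ?_⟩
  have key := hg.sgn.ext hf (by
    rw [sgn_apply, homogeneousComponent_eq_self (Un_hom m), ← Un_succ, op_Un, map_sum]
    simp only [map_smul, co1_xp]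
    rw [hf.Un_eq (n + 1) (by omega)]
    simp only [smul_ite, smul_zero]
    rw [← Finset.sum_filter]
    refine Finset.sum_nbij' (fun a i => a i.succ) (fun b => Fin.cons 0 b) ?_ ?_ ?_ ?_ ?_
    · intro a ha
      rw [Finset.mem_filter, Fintype.mem_piFinset] at ha
      rw [Fintype.mem_piFinset]
      intro i
      exact ha.1 i.succ
    · intro b hb
      rw [Fintype.mem_piFinset] at hb
      rw [Finset.mem_filter, Fintype.mem_piFinset]
      refine ⟨fun i => ?_, by simp⟩
      refine Fin.cases ?_ (fun i => ?_) i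
      · simp
      · simpa using hb i
    · intro a ha
      rw [Finset.mem_filter] at ha
      funext i
      refine Fin.cases ?_ (fun i => ?_) i
      · simp [ha.2]
      · simp
    · intro b _
      funext i
      simp
    · intro a ha
      rw [Finset.mem_filter] at ha
      have : a = Fin.cons 0 (fun i => a i.succ) := by
        funext i
        refine Fin.cases ?_ (fun i => ?_) i
        · simp [ha.2]
        · simp
      rw [this, hq]
      simp)
  intro d y hy
  have h1 := DFunLike.congr_fun (congrFun key d) y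
  rw [sgn_apply, homogeneousComponent_eq_self hy] at h1
  exact h1

/-- kernel of the loop map on operations, even degree -/
theorem op_ker_even {m n : ℕ} (hn : 0 < n) {f : ∀ d, Pl d →ₗ[ZMod 2] Pl d} (hf : IsNP m (2 * n) f)
    (h : ∀ m', m = m' + 1 → ∀ d (y : Pl d), y.IsHomogeneous m' →
      co1 d (f (d + 1) (X 0 * rename Fin.succ y)) = 0) :
    ∃ g : ∀ d, Pl d →ₗ[ZMod 2] Pl d, IsNP m n g ∧ ∀ d y, f d y = sqL d (g d y) := by
  classical
  have hpos : ∀ a : Fin m → ℕ, mt m f (ty a) ≠ 0 → ∀ i, 1 ≤ a i := by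
    intro a ha i
    by_contra hc
    have hai : a i = 0 := by omega
    obtain ⟨m', rfl⟩ : ∃ m', m = m' + 1 := ⟨m - 1, by have := i.pos; omega⟩
    have h1 := h m' rfl m' (Un m') (Un_hom m')
    rw [← Un_succ, hf.Un_eq (2 * n) (le_refl _), map_sum] at h1
    simp only [map_smul, co1_xp] at h1
    -- look at the coefficient of the tuple with `a i` removed
    have h2 := congrArg (coeff (xp (fun j => a (i.succAbove j)))) h1
    rw [coeff_sum, coeff_zero] at h2
    simp only [coeff_smul, smul_eq_mul] at h2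
    have hty : ty (Fin.cons 0 (fun j => a (i.succAbove j)) : Fin (m' + 1) → ℕ) = ty a := by
      rw [ty_cons, ty, ty, Fin.sum_univ_succAbove _ i, hai]
    rw [Finset.sum_eq_single (Fin.cons 0 (fun j => a (i.succAbove j)) : Fin (m' + 1) → ℕ)] at h2
    · rw [hty] at h2
      simp only [Fin.cons_zero, Fin.cons_succ, if_true, coeff_monomial] at h2
      apply ha
      simpa using h2
    · intro b _ hb
      by_cases hb0 : b 0 = 0
      · rw [if_pos hb0, coeff_monomial, if_neg, mul_zero]
        intro hx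
        apply hb
        have h3 := xp_inj hx
        funext j
        refine Fin.cases ?_ (fun j => ?_) j
        · simp [hb0]
        · have := congrFun h3 j
          simpa using this
      · rw [if_neg hb0, coeff_zero, mul_zero]
    · intro hnm
      exfalso
      apply hnm
      rw [Fintype.mem_piFinset]
      have hs := hf.mt_ty_sum a ha
      have hlt : ∀ j, a j < 2 * n := by
        intro j
        have h2 : 2 ^ (a j) ≤ ∑ i, 2 ^ (a i) :=
          Finset.single_le_sum (f := fun i => 2 ^ (a i)) (fun _ _ => Nat.zero_le _)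
            (Finset.mem_univ j)
        have h3 : a j < 2 ^ (a j) := Nat.lt_two_pow_self
        omega
      intro j
      rw [Finset.mem_range]
      refine Fin.cases ?_ (fun j => ?_) j
      · simp
        omega
      · simpa using hlt (i.succAbove j)
  let q : (ℕ →₀ ℕ) → ZMod 2 := fun M => mt m f (M.mapDomain Nat.succ)
  have hq : ∀ a : Fin m → ℕ, q (ty a) = mt m f (ty (fun i => a i + 1)) := by
    intro a
    simp only [q]
    congr 1
    rw [ty, ty, Finsupp.mapDomain_finsetSum]
    simp only [Finsupp.mapDomain_single]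
  have hg : IsNP m n (op (2 * n) m q) := by
    apply op_IsNP
    intro a ha
    rw [hq] at ha
    have := hf.mt_ty_sum _ ha
    simp only [pow_succ] at this
    rw [← Finset.sum_mul] at this
    omega
  refine ⟨op (2 * n) m q, hg, ?_⟩
  have key : f = fun d => (sqL d).comp (op (2 * n) m q d) := by
    apply hf.ext hg.sq
    rw [LinearMap.comp_apply, op_Un, hf.Un_eq (2 * n) (le_refl _), map_sum]
    simp only [map_smul, hq]
    have hsq : ∀ a : Fin m → ℕ, sqL m (monomial (xp a) 1) = monomial (xp (fun i => a i + 1)) 1 := by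
      intro a
      rw [sqL_apply, monomial_pow, one_pow]
      have h5 : 2 • xp a = xp (fun i => a i + 1) := by
        ext i
        rw [Finsupp.smul_apply, xp_apply, xp_apply, pow_succ, smul_eq_mul, mul_comm]
      rw [h5]
    simp only [hsq]
    symm
    have e1 : ∀ (s : Finset (Fin m → ℕ)) (F : (Fin m → ℕ) → Pl m),
        ∑ a ∈ s, F a = ∑ a ∈ s with F a ≠ 0, F a := by
      intro s F
      rw [Finset.sum_filter]
      refine Finset.sum_congr rfl fun a _ => ?_
      split_ifs with h
      · rfl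
      · push Not at h
        exact h
    rw [e1 _ (fun a => mt m f (ty (fun i => a i + 1)) • monomial (xp (fun i => a i + 1)) 1),
      e1 _ (fun a => mt m f (ty a) • monomial (xp a) 1)]
    refine Finset.sum_nbij' (fun b i => b i + 1) (fun c i => c i - 1) ?_ ?_ ?_ ?_ ?_
    · intro b hb
      rw [Finset.mem_filter] at hb ⊢
      refine ⟨?_, hb.2⟩
      rw [Fintype.mem_piFinset]
      intro j
      rw [Finset.mem_range]
      have h1 : mt m f (ty (fun i => b i + 1)) ≠ 0 := by
        intro h1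
        apply hb.2
        rw [h1, zero_smul]
      have hs := hf.mt_ty_sum _ h1
      have h2 : 2 ^ (b j + 1) ≤ ∑ i, 2 ^ (b i + 1) :=
        Finset.single_le_sum (f := fun i => 2 ^ (b i + 1)) (fun _ _ => Nat.zero_le _)
          (Finset.mem_univ j)
      have h3 : b j + 1 < 2 ^ (b j + 1) := Nat.lt_two_pow_self
      omega
    · intro c hc
      rw [Finset.mem_filter] at hc
      have h1 : mt m f (ty c) ≠ 0 := by
        intro h1
        apply hc.2
        rw [h1, zero_smul]
      have h2 := hpos c h1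
      have h3 : (fun i => c i - 1 + 1) = c := by
        funext i
        have := h2 i
        omega
      rw [Finset.mem_filter]
      constructor
      · rw [Fintype.mem_piFinset]
        intro j
        have := Fintype.mem_piFinset.mp hc.1 j
        rw [Finset.mem_range] at this ⊢
        omega
      · rw [h3]
        exact hc.2
    · intro b _
      funext i
      simp
    · intro c hc
      rw [Finset.mem_filter] at hc
      have h1 : mt m f (ty c) ≠ 0 := by
        intro h1
        apply hc.2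
        rw [h1, zero_smul]
      have h2 := hpos c h1
      funext i
      have := h2 i
      simp only
      omega
    · intro b _
      rfl
  intro d y
  exact DFunLike.congr_fun (congrFun key d) y

/-- kernel of the loop map on operations, odd degree -/
theorem op_ker_odd {m n : ℕ} {f : ∀ d, Pl d →ₗ[ZMod 2] Pl d} (hf : IsNP m (2 * n + 1) f)
    (h : ∀ m', m = m' + 1 → ∀ d (y : Pl d), y.IsHomogeneous m' →
      co1 d (f (d + 1) (X 0 * rename Fin.succ y)) = 0) : ∀ d y, f d y = 0 := by
  classical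
  have h0 : IsNP m (2 * n + 1) (fun d => (0 : Pl d →ₗ[ZMod 2] Pl d)) :=
    { nat := fun L x => by simp
      dom := fun d x => rfl
      cod := fun d x => isHomogeneous_zero _ _ _ }
  have key : f = fun d => 0 := by
    apply hf.ext h0
    rw [hf.Un_eq (2 * n + 1) (le_refl _), LinearMap.zero_apply]
    apply Finset.sum_eq_zero
    intro a _
    by_cases ha : mt m f (ty a) = 0
    · rw [ha, zero_smul]
    · exfalso
      have hs := hf.mt_ty_sum a ha
      obtain ⟨i, hai⟩ : ∃ i, a i = 0 := by
        by_contra hc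
        push Not at hc
        have : 2 ∣ ∑ i, 2 ^ (a i) := by
          apply Finset.dvd_sum
          intro i _
          exact dvd_pow_self 2 (hc i)
        omega
      obtain ⟨m', rfl⟩ : ∃ m', m = m' + 1 := ⟨m - 1, by have := i.pos; omega⟩
      have h1 := h m' rfl m' (Un m') (Un_hom m')
      rw [← Un_succ] at h1
      have hx : xp (Fin.cons 0 (fun j => a (i.succAbove j)) : Fin (m' + 1) → ℕ) =
          Finsupp.cons 1 (xp (fun j => a (i.succAbove j))) := by
        ext j
        refine Fin.cases ?_ (fun j => ?_) j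
        · simp [xp_apply]
        · simp [xp_apply]
      have hty : ty (Fin.cons 0 (fun j => a (i.succAbove j)) : Fin (m' + 1) → ℕ) = ty a := by
        rw [ty_cons, ty, ty, Fin.sum_univ_succAbove _ i, hai]
      apply ha
      rw [← hty, hf.mt_ty, hx, ← coeff_co1, h1, coeff_zero]
  intro d y
  rw [key]
  rfl

end SHU


end
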