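import Mathlib
import Pool.Agent.SHM.C03
import Pool.Agent.SHM.C08

/-! Parts: SH.UA10, SH.L.Stmts, SH.L.Alpha, SH.L.Ind -/

section

/-! Part 10: the loop lemma and the main theorem of block III-U. -/

namespace SHU
open MvPolynomial

universe u

theorem co1_sq (d : ℕ) (y : Pl (d + 1)) : co1 d (sqL (d + 1) y) = 0 := by
  rw [co1_apply, sqL_apply, map_pow, pow_two, Polynomial.mul_coeff_one, mul_comm]
  exact CharTwo.add_self_eq_zero _

section
variable {X : ℕ → Type u} [∀ j, AddCommGroup (X j)] [∀ j, Module (ZMod 2) (X j)]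

theorem El_iota (t j m d : ℕ) (hj : m + 1 + t = j) (ξ : X j →ₗ[ZMod 2] ZMod 2) (y : Pl d)
    (hy : y.IsHomogeneous m) :
    El t j ξ (d + 1) (MvPolynomial.X 0 * rename Fin.succ y) = iota t d (El (t + 1) j ξ d y) := by
  apply ES_ext
  intro j' x
  rw [iota_apply]
  by_cases h : j' = j
  · subst h
    rw [El_same, El_same, hcT, hcT, if_pos (by omega), if_pos (by omega),
      show j' - t = m + 1 by omega, show j' - (t + 1) = m by omega,
      homogeneousComponent_eq_self hy, homogeneousComponent_eq_self, map_smul, mul_smul_comm]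
    have h9 : ((MvPolynomial.X 0 : Pl (d + 1)) * rename Fin.succ y).IsHomogeneous (1 + m) :=
      (isHomogeneous_X _ _).mul hy.rename_isHomogeneous
    exact (Nat.add_comm 1 m) ▸ h9
  · rw [El_ne _ _ _ _ _ _ h, El_ne _ _ _ _ _ _ h, map_zero, mul_zero]

theorem PN_surj [∀ j, Module.Finite (ZMod 2) (X j)] {t n : ℕ}
    {q : ∀ d, ES X (t + 1) d →ₗ[ZMod 2] Pl d} (hq : IsPN (t + 1) n q) :
    ∃ p : ∀ d, ES X t d →ₗ[ZMod 2] Pl d, IsPN t (n + 1) p ∧ ∀ d c, sg t p d c = q d c := by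
  classical
  have h1 : ∀ (m : ℕ) (i : Fin (Module.finrank (ZMod 2) (X (m + (t + 1))))),
      ∃ g : ∀ d, Pl d →ₗ[ZMod 2] Pl d, IsNP (m + 1) (n + 1) g ∧
      ∀ d (y : Pl d), y.IsHomogeneous m → co1 d (g (d + 1) (MvPolynomial.X 0 * rename Fin.succ y)) =
        q d (El (t + 1) (m + (t + 1))
          ((Module.finBasis (ZMod 2) (X (m + (t + 1)))).coord i) d y) := by
    intro m i
    exact op_surj (psi_IsNP (show m + (t + 1) = m + (t + 1) from rfl) hq
      ((Module.finBasis (ZMod 2) (X (m + (t + 1)))).coord i))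
  choose g hg hg2 using h1
  refine ⟨fun d => ∑ m ∈ Finset.range (n + 1), ∑ i, (g m i d).comp
    (pr t (m + (t + 1)) (Module.finBasis (ZMod 2) (X (m + (t + 1))) i) d), ?_, ?_⟩
  · apply IsPN.sum
    intro m _
    apply IsPN.sum
    intro i _
    exact (hg m i).comp_pn' (pr_IsPN (by omega) _)
  · intro d c
    rw [sg_apply, LinearMap.sum_apply, map_sum, hq.decomp d c]
    refine Finset.sum_congr rfl fun m _ => ?_
    rw [LinearMap.sum_apply, map_sum]
    refine Finset.sum_congr rfl fun i _ => ?_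
    rw [LinearMap.comp_apply, pr_apply, iota_apply, hg2]
    have := ES_hom c (show t + 1 ≤ m + (t + 1) by omega)
      (Module.finBasis (ZMod 2) (X (m + (t + 1))) i)
    rwa [show m + (t + 1) - (t + 1) = m by omega] at this

theorem PN_ker_even [∀ j, Module.Finite (ZMod 2) (X j)] {t n : ℕ} (hn : 0 < n)
    {p : ∀ d, ES X t d →ₗ[ZMod 2] Pl d} (hp : IsPN t (2 * n) p) (h : ∀ d c, sg t p d c = 0) :
    ∃ p' : ∀ d, ES X t d →ₗ[ZMod 2] Pl d, IsPN t n p' ∧ ∀ d c, p d c = sqL d (p' d c) := by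
  classical
  have h1 : ∀ (m : ℕ) (i : Fin (Module.finrank (ZMod 2) (X (m + t)))),
      ∃ g : ∀ d, Pl d →ₗ[ZMod 2] Pl d, IsNP m n g ∧
      ∀ d (y : Pl d), p d (El t (m + t) ((Module.finBasis (ZMod 2) (X (m + t))).coord i) d y) =
        sqL d (g d y) := by
    intro m i
    apply op_ker_even hn (psi_IsNP (show m + t = m + t from rfl) hp
      ((Module.finBasis (ZMod 2) (X (m + t))).coord i))
    intro m' hm' d y hy
    rw [LinearMap.comp_apply, El_iota t (m + t) m' d (by omega) _ y hy, ← sg_apply, h]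
  choose g hg hg2 using h1
  refine ⟨fun d => ∑ m ∈ Finset.range (2 * n + 1), ∑ i, (g m i d).comp
    (pr t (m + t) (Module.finBasis (ZMod 2) (X (m + t)) i) d), ?_, ?_⟩
  · apply IsPN.sum
    intro m _
    apply IsPN.sum
    intro i _
    exact (hg m i).comp_pn' (pr_IsPN rfl _)
  · intro d c
    rw [hp.decomp d c, LinearMap.sum_apply, map_sum]
    refine Finset.sum_congr rfl fun m _ => ?_
    rw [LinearMap.sum_apply, map_sum]
    refine Finset.sum_congr rfl fun i _ => ?_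
    rw [hg2, LinearMap.comp_apply, pr_apply]

theorem PN_ker_odd [∀ j, Module.Finite (ZMod 2) (X j)] {t n : ℕ}
    {p : ∀ d, ES X t d →ₗ[ZMod 2] Pl d} (hp : IsPN t (2 * n + 1) p) (h : ∀ d c, sg t p d c = 0) :
    ∀ d c, p d c = 0 := by
  classical
  intro d c
  rw [hp.decomp d c]
  apply Finset.sum_eq_zero
  intro m _
  apply Finset.sum_eq_zero
  intro i _
  apply op_ker_odd (psi_IsNP (show m + t = m + t from rfl) hp
      ((Module.finBasis (ZMod 2) (X (m + t))).coord i))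
  intro m' hm' d y hy
  rw [LinearMap.comp_apply, El_iota t (m + t) m' d (by omega) _ y hy, ← sg_apply, h]

theorem sq_IsPN {t n : ℕ} {p : ∀ d, ES X t d →ₗ[ZMod 2] Pl d} (hp : IsPN t n p) :
    IsPN t (2 * n) (fun d => (sqL d).comp (p d)) where
  nat := fun L c => by
    simp only [LinearMap.comp_apply]
    rw [hp.nat, sqL_apply, sqL_apply, map_pow]
  cod := fun d c => sqL_hom (hp.cod d c)
  cont := fun d c hc => by
    simp only [LinearMap.comp_apply]
    rw [hp.cont d c (fun j hj => hc j (by omega)), map_zero]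

end

section
variable {W : ℕ → Type u} [∀ j, AddCommGroup (W j)] [∀ j, Module (ZMod 2) (W j)]
variable {X : ℕ → Type u} [∀ j, AddCommGroup (X j)] [∀ j, Module (ZMod 2) (X j)]
variable {Y : ℕ → Type u} [∀ j, AddCommGroup (Y j)] [∀ j, Module (ZMod 2) (Y j)]

/-- THE LOOP LEMMA -/
theorem loop_lemma [∀ j, Module.Finite (ZMod 2) (W j)] [∀ j, Module.Finite (ZMod 2) (X j)]
    [∀ j, Module.Finite (ZMod 2) (Y j)] (t n : ℕ)
    {α : ∀ d, ES W t d →ₗ[ZMod 2] ES X t d} (hα : IsNT t α)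
    {α' : ∀ d, ES W (t + 1) d →ₗ[ZMod 2] ES X (t + 1) d} (hαα : Compat t α α')
    {β : ∀ d, ES X t d →ₗ[ZMod 2] ES Y t d}
    {β' : ∀ d, ES X (t + 1) d →ₗ[ZMod 2] ES Y (t + 1) d} (hββ : Compat t β β')
    (hA : ∀ p : ∀ d, ES X t d →ₗ[ZMod 2] Pl d, IsPN t (n + 1) p → (∀ d c, p d (α d c) = 0) →
      ∃ r : ∀ d, ES Y t d →ₗ[ZMod 2] Pl d, IsPN t (n + 1) r ∧ ∀ d c, p d c = r d (β d c))
    (hB : ∀ m, n + 1 = 2 * m → ∀ p' : ∀ d, ES W t d →ₗ[ZMod 2] Pl d, IsPN t m p' →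
      (∃ p : ∀ d, ES X t d →ₗ[ZMod 2] Pl d, IsPN t (2 * m) p ∧
        ∀ d c, sqL d (p' d c) = p d (α d c)) →
      ∃ p'' : ∀ d, ES X t d →ₗ[ZMod 2] Pl d, IsPN t m p'' ∧ ∀ d c, p' d c = p'' d (α d c))
    (q : ∀ d, ES X (t + 1) d →ₗ[ZMod 2] Pl d) (hq : IsPN (t + 1) n q)
    (hqα : ∀ d c, q d (α' d c) = 0) :
    ∃ r : ∀ d, ES Y (t + 1) d →ₗ[ZMod 2] Pl d, IsPN (t + 1) n r ∧ ∀ d c, q d c = r d (β' d c) := by
  obtain ⟨p, hp, hpq⟩ := PN_surj hq
  have h1 : ∀ d c, sg t (fun d => (p d).comp (α d)) d c = 0 := by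
    intro d c
    rw [sg_comp hαα hp, hpq, hqα]
  rcases Nat.even_or_odd' (n + 1) with ⟨m, hm | hm⟩
  · obtain ⟨p', hp', hpp'⟩ := PN_ker_even (n := m) (by omega) (hm ▸ hp.comp hα) h1
    obtain ⟨p'', hp'', hpp''⟩ := hB m hm p' hp' ⟨p, hm ▸ hp, fun d c => (hpp' d c).symm⟩
    have hsq : IsPN t (n + 1) (fun d => (sqL d).comp (p'' d)) := hm ▸ sq_IsPN hp''
    obtain ⟨r, hr, hrr⟩ := hA _ (hp.add hsq) (by
      intro d c
      rw [LinearMap.add_apply, LinearMap.comp_apply, ← hpp'', ← hpp' d c, LinearMap.comp_apply]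
      exact CharTwo.add_self_eq_zero _)
    refine ⟨sg t r, sg_IsPN hr, ?_⟩
    intro d c
    rw [← sg_comp hββ hr, ← hpq, sg_apply, sg_apply, LinearMap.comp_apply, ← hrr,
      LinearMap.add_apply, map_add, LinearMap.comp_apply, co1_sq, add_zero]
  · obtain ⟨r, hr, hrr⟩ := hA p hp (by
      intro d c
      have h2 : IsPN t (2 * m + 1) (fun d => (p d).comp (α d)) := hm ▸ hp.comp hα
      exact PN_ker_odd h2 h1 d c)
    refine ⟨sg t r, sg_IsPN hr, ?_⟩
    intro d c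
    rw [← sg_comp hββ hr, ← hpq, sg_apply, sg_apply, LinearMap.comp_apply, ← hrr]

end

/-- Block III-U: boundedness for `t = 1` gives exactness of `s ↦ E^t(B;V^s)` (reduced) for all
`t ≥ 1`. -/
theorem UALG (X : ℕ → ℕ → Type u) [∀ s j, AddCommGroup (X s j)]
    [∀ s j, Module (ZMod 2) (X s j)] [∀ s j, Module.Finite (ZMod 2) (X s j)]
    (δ : ∀ s t d, ES (X s) t d →ₗ[ZMod 2] ES (X (s + 1)) t d)
    (hnt : ∀ s t, 1 ≤ t → IsNT t (δ s t))
    (hdd : ∀ s t, 1 ≤ t → ∀ d c, δ (s + 1) t d (δ s t d c) = 0)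
    (hcp : ∀ s t, 1 ≤ t → Compat t (δ s t) (δ s (t + 1)))
    (hb0 : ∃ N, ∀ n ≥ N, ∀ p : ∀ d, ES (X 0) 1 d →ₗ[ZMod 2] Pl d, IsPN 1 n p →
      ∃ r : ∀ d, ES (X 1) 1 d →ₗ[ZMod 2] Pl d, IsPN 1 n r ∧ ∀ d c, p d c = r d (δ 0 1 d c))
    (hb : ∀ s, ∃ N, ∀ n ≥ N, ∀ p : ∀ d, ES (X (s + 1)) 1 d →ₗ[ZMod 2] Pl d, IsPN 1 n p →
      (∀ d c, p d (δ s 1 d c) = 0) →
      ∃ r : ∀ d, ES (X (s + 2)) 1 d →ₗ[ZMod 2] Pl d, IsPN 1 n r ∧
        ∀ d c, p d c = r d (δ (s + 1) 1 d c)) :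
    ∀ t, 1 ≤ t → (∀ z : ES (X 0) t 1, z.1 t = 0 → δ 0 t 1 z = 0 → z = 0) ∧
      ∀ s, ∀ z : ES (X (s + 1)) t 1, z.1 t = 0 → δ (s + 1) t 1 z = 0 →
        ∃ y : ES (X s) t 1, y.1 t = 0 ∧ δ s t 1 y = z := by
  classical
  -- boundedness for all `t`
  have key : ∀ t, 1 ≤ t →
      (∃ N, ∀ n ≥ N, ∀ p : ∀ d, ES (X 0) t d →ₗ[ZMod 2] Pl d, IsPN t n p →
        ∃ r : ∀ d, ES (X 1) t d →ₗ[ZMod 2] Pl d, IsPN t n r ∧ ∀ d c, p d c = r d (δ 0 t d c)) ∧
      (∀ s, ∃ N, ∀ n ≥ N, ∀ p : ∀ d, ES (X (s + 1)) t d →ₗ[ZMod 2] Pl d, IsPN t n p →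
        (∀ d c, p d (δ s t d c) = 0) →
        ∃ r : ∀ d, ES (X (s + 2)) t d →ₗ[ZMod 2] Pl d, IsPN t n r ∧
          ∀ d c, p d c = r d (δ (s + 1) t d c)) := by
    intro t ht
    induction t, ht using Nat.le_induction with
    | base => exact ⟨hb0, hb⟩
    | succ t ht ih =>
      obtain ⟨⟨N0, hN0⟩, hN⟩ := ih
      constructor
      · refine ⟨N0, fun n hn p hp => ?_⟩
        let α : ∀ d, ES (fun _ : ℕ => PUnit.{u + 1}) t d →ₗ[ZMod 2] ES (X 0) t d := fun d => 0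
        let α' : ∀ d, ES (fun _ : ℕ => PUnit.{u + 1}) (t + 1) d →ₗ[ZMod 2] ES (X 0) (t + 1) d :=
          fun d => 0
        have hα : IsNT t α :=
          { nat := fun L c => by
              apply ES_ext
              intro j x
              rw [subs_apply]
              change 0 = lin L 0
              rw [map_zero]
            cont := fun d c N _ j _ => rfl }
        apply loop_lemma t n hα (α' := α') (β := δ 0 t) ?_ (hcp 0 t ht) ?_ ?_ p hp
        · intro d c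
          change p d 0 = 0
          rw [map_zero]
        · intro d c
          change (0 : ES (X 0) (t + 1) d) = DD t d 0
          rw [map_zero]
        · intro p hp _
          exact hN0 (n + 1) (by omega) p hp
        · intro m _ p' hp' _
          refine ⟨fun d => 0, IsPN.zero t m, fun d c => ?_⟩
          have : c = 0 := by
            apply ES_ext
            intro j x
            have hx : x = 0 := Subsingleton.elim _ _
            rw [hx, map_zero, map_zero]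
          rw [this, map_zero]
          rfl
      · intro s
        cases s with
        | zero =>
          obtain ⟨N1, hN1⟩ := hN 0
          refine ⟨max (2 * N0) N1, fun n hn p hp hpα => ?_⟩
          have hn1 : 2 * N0 ≤ n := le_trans (le_max_left _ _) hn
          have hn2 : N1 ≤ n := le_trans (le_max_right _ _) hn
          apply loop_lemma t n (hnt 0 t ht) (hcp 0 t ht) (hcp 1 t ht) ?_ ?_ p hp hpα
          · exact hN1 (n + 1) (by omega)
          · intro m hm p' hp' _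
            exact hN0 m (by omega) p' hp'
        | succ s =>
          obtain ⟨N1, hN1⟩ := hN (s + 1)
          obtain ⟨N2, hN2⟩ := hN s
          refine ⟨max (2 * N2) N1, fun n hn p hp hpα => ?_⟩
          have hn1 : 2 * N2 ≤ n := le_trans (le_max_left _ _) hn
          have hn2 : N1 ≤ n := le_trans (le_max_right _ _) hn
          apply loop_lemma t n (hnt (s + 1) t ht) (hcp (s + 1) t ht) (hcp (s + 2) t ht) ?_ ?_
            p hp hpα
          · exact hN1 (n + 1) (by omega)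
          · rintro m hm p' hp' ⟨p1, hp1, hpp1⟩
            apply hN2 m (by omega) p' hp'
            intro d c
            apply sqL_inj
            rw [hpp1, hdd s t ht, map_zero]
  intro t ht
  obtain ⟨⟨N0, hN0⟩, hN⟩ := key t ht
  have hpow : ∀ k, k ≤ 2 ^ k := fun k => (Nat.lt_two_pow_self).le
  constructor
  · intro z hz hδz
    let α : ∀ d, ES (fun _ : ℕ => PUnit.{u + 1}) t d →ₗ[ZMod 2] ES (X 0) t d := fun d => 0
    have hα : IsNT t α :=
      { nat := fun L c => by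
          apply ES_ext
          intro j x
          rw [subs_apply]
          change 0 = lin L 0
          rw [map_zero]
        cont := fun d c N _ j _ => rfl }
    obtain ⟨y, _, hy⟩ := retract_lemma t α hα (δ 0 t) N0 (by
      intro k hk p hp _
      obtain ⟨r, _, hr⟩ := hN0 (2 ^ k) (le_trans hk (hpow k)) p hp
      exact ⟨r, hr⟩) z hz hδz
    rw [← hy]
    rfl
  · intro s z hz hδz
    obtain ⟨N1, hN1⟩ := hN s
    exact retract_lemma t (δ s t) (hnt s t ht) (δ (s + 1) t) N1 (by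
      intro k hk p hp hpα
      obtain ⟨r, _, hr⟩ := hN1 (2 ^ k) (le_trans hk (hpow k)) p hp hpα
      exact ⟨r, hr⟩) z hz hδz

end SHU


end

section

/-!
LINK: statements.
-/

namespace Pool.Agent.SHL

open Pool.Agent.SHS

/-! ### Spheres -/

/-- Levels of spheres are finite; `epsC` is a cocycle; for `t = 1` its class is `ee`. -/
def SPHF_Stmt : Prop := ∀ t : ℕ, (Sph t).LF
def EPS_Stmt : Prop := ∀ t : ℕ, (Sph t).cm.delta t (epsC t) = 0
def EPS1_Stmt : Prop := eps 1 = ee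
/-- Homogeneous basis of the cohomology of the sphere. -/
def EPSHB_Stmt : Prop := ∀ t : ℕ, 1 ≤ t →
  HB (Sph t) (fun b : Bool => if b then t else 0) (fun b => if b then eps t else 1)
/-- Kuenneth for `S^t × Y`. -/
def SKT_Stmt : Prop := ∀ t : ℕ, 1 ≤ t → ∀ Y : SS, Y.LF →
  Function.Injective (mulE t Y) ∧
  (∀ x : H ((Sph t).prod Y), H.map (bpt t Y) x = 0 → ∃ b, mulE t Y b = x) ∧
  (∀ (n : ℕ) (b : H Y), mulE t Y b ∈ Hn ((Sph t).prod Y) (n + t) → b ∈ Hn Y n) ∧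
  (∀ (n : ℕ) (b : H Y), n < t → mulE t Y b ∈ Hn ((Sph t).prod Y) n → b = 0)
/-- Finiteness of BB, powers, products. -/
def BBF_Stmt : Prop := ∀ d : ℕ, (BB.pow d).LF ∧ (S1.prod (BB.pow d)).LF

/-! ### Reduced classes and linear classes -/

def RCH_Stmt : Prop := ∀ V : SV, (∀ j, 1 ≤ j → Hn V.toSS j ≤ RC V) ∧ (∀ j, LC V j ≤ RC V) ∧
  (∀ j, LC V j ≤ Hn V.toSS j) ∧ (V.LF → ∀ j, Finite (LC V j))
/-- The zero map kills reduced classes. -/
def ZM0_Stmt : Prop := ∀ (Y : SS) (V : SV), ∀ a ∈ RC V, H.map (zmap Y V) a = 0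
/-- Linear classes are preserved by linear maps; `iota` is a linear class. -/
def LCM_Stmt : Prop := (∀ (V W : SV) (L : SV.Hom V W) (j : ℕ), ∀ a ∈ LC W j,
  H.map L.toSS a ∈ LC V j) ∧ ∀ n : ℕ, iota n ∈ LC (EM n) n
/-- Every class is the pull back of `iota` along a pointed map. -/
def EMR_Stmt : Prop := ∀ (V : SV) (n : ℕ), 1 ≤ n → ∀ a ∈ Hn V.toSS n,
  ∃ A : SS.Hom V.toSS (EM n).toSS, (∀ q, A.f q 0 = 0) ∧ H.map A (iota n) = a

/-! ### The slant product -/

/-- Characterisation and degree. -/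
def PH1_Stmt : Prop := ∀ t : ℕ, 1 ≤ t → ∀ Y : SS, Y.LF → ∀ (V : SV) (z : ZM (MapS Y V) t),
  (∀ a ∈ RC V, mulE t Y (Ph z a) = H.map (HV.hom (sph z)) a) ∧
  (∀ j, ∀ a ∈ Hn V.toSS j, a ∈ RC V → (j < t → Ph z a = 0) ∧ (t ≤ j → Ph z a ∈ Hn Y (j - t)))
/-- Naturality in `Y`. -/
def PHY_Stmt : Prop := ∀ t : ℕ, 1 ≤ t → ∀ Y Y' : SS, Y.LF → Y'.LF → ∀ (φ : SS.Hom Y' Y) (V : SV)
  (z : ZM (MapS Y V) t), ∀ a ∈ RC V, Ph (preZ φ z) a = H.map φ (Ph z a)
/-- Naturality in `V`. -/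
def PHV_Stmt : Prop := ∀ (t : ℕ) (Y : SS) (V W : SV) (g : SS.Hom V.toSS W.toSS)
  (hg : ∀ n, g.f n 0 = 0) (z : ZM (MapS Y V) t) (a : H W.toSS),
  Ph (appZ g hg z) a = Ph z (H.map g a)
/-- Additivity for linear classes. -/
def PHL_Stmt : Prop := ∀ (t : ℕ) (Y : SS) (V : SV) (z z' : ZM (MapS Y V) t) (j : ℕ),
  ∀ a ∈ LC V j, Ph (z + z') a = Ph z a + Ph z' a
/-- Boundaries. -/
def PHB_Stmt : Prop := ∀ t : ℕ, 1 ≤ t → ∀ (Y : SS) (V : SV) (z : ZM (MapS Y V) t),
  z.1 ∈ BM (MapS Y V) t → ∀ a ∈ RC V, Ph z a = 0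
/-- Additivity for all reduced classes. -/
def PHA_Stmt : Prop := ∀ t : ℕ, 1 ≤ t → ∀ Y : SS, Y.LF → ∀ (V : SV) (z z' : ZM (MapS Y V) t)
  (j : ℕ), 1 ≤ j → ∀ a ∈ Hn V.toSS j, Ph (z + z') a = Ph z a + Ph z' a
/-- Decomposables. -/
def PHD_Stmt : Prop := ∀ Y : SS, Y.LF → ∀ (V : SV) (z : ZM (MapS Y V) 1),
  ∀ a ∈ Dec V.toSS, Ph z a = 0
/-- Comparison of `t + 1` and `t`. -/
def PHH_Stmt : Prop := ∀ t : ℕ, 1 ≤ t → ∀ Y : SS, Y.LF → ∀ (V : SV) (z : ZM (MapS Y V) (t + 1)),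
  ∀ a ∈ RC V, Ph (hh z) a = mulE 1 Y (Ph z a)

/-! ### Completeness and realisation -/

def CEM_Stmt : Prop := ∀ t : ℕ, 1 ≤ t → ∀ Y : SS, Y.LF → ∀ (n : ℕ) (z : ZM (MapS Y (EM n)) t),
  Ph z (iota n) = 0 → z.1 ∈ BM (MapS Y (EM n)) t
def BEM_Stmt : Prop := ∀ t : ℕ, 1 ≤ t → ∀ Y : SS, Y.LF → ∀ (m : ℕ), ∀ c ∈ Hn Y m,
  ∃ z : ZM (MapS Y (EM (m + t))) t, Ph z (iota (m + t)) = c
def CV_Stmt : Prop := ∀ V : SV, V.LF → ∀ t : ℕ, 1 ≤ t → ∀ Y : SS, Y.LF →
  ∀ z : ZM (MapS Y V) t, (∀ j, ∀ a ∈ LC V j, Ph z a = 0) → z.1 ∈ BM (MapS Y V) t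
def BV_Stmt : Prop := ∀ V : SV, V.LF → ∀ t : ℕ, 1 ≤ t → ∀ Y : SS, Y.LF →
  ∀ c : ∀ j, LC V j →ₗ[k] H Y, (∀ j a, t ≤ j → c j a ∈ Hn Y (j - t)) →
  (∀ j a, j < t → c j a = 0) →
  ∃ z : ZM (MapS Y V) t, (∀ (j : ℕ) (a : LC V j), Ph z a.1 = c j a) ∧
    ∀ N : ℕ, (∀ j ≤ N, c j = 0) → ∀ n ≤ N, ∀ x, z.1.1 n x = 0

/-! ### Polynomials -/

/-- `evB` and linear substitutions. -/
def E1_Stmt : Prop := ∀ (d' d : ℕ) (L : Fin d' → Fin d → ZMod 2) (p : MvPolynomial (Fin d') k),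
  H.map (BL L) (evB d' p) = evB d (SHU.lin L p)
/-- Restriction of the first variable to the circle. -/
def E2_Stmt : Prop := ∀ (d : ℕ) (p : MvPolynomial (Fin (d + 1)) k),
  H.map (qB d) (evB (d + 1) p) = mulE 1 (BB.pow d) (evB d (SHU.co1 d p)) +
    H.map (SS.snd S1 (BB.pow d)) (evB d (SHU.lin (SHU.Lzero d) p))
/-- The first coefficient of the symmetric sums. -/
def MSC_Stmt : Prop := ∀ (m : ℕ) (J : Multiset ℕ), Multiset.card J = m →
  SHU.co1 m (msym (m + 1) (0 ::ₘ J)) = msym m J ∧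
  ∀ J' : Multiset ℕ, SHU.lin (SHU.Lzero m) (msym (m + 1) J') = 0
/-- Natural operations with given value on the universal product. -/
def PSI_Stmt : Prop := ∀ J : Multiset ℕ, ∃ f : ∀ d, SHU.Pl d →ₗ[ZMod 2] SHU.Pl d,
  SHU.IsNP (Multiset.card J) (wgt J) f ∧
    f (Multiset.card J) (SHU.Un (Multiset.card J)) = msym (Multiset.card J) J
def NPJ_Stmt : Prop := ∀ (m n : ℕ) (f : ∀ d, SHU.Pl d →ₗ[ZMod 2] SHU.Pl d), SHU.IsNP m n f →
  f m (SHU.Un m) ∈ Submodule.span (ZMod 2) {p | ∃ J : Multiset ℕ, Multiset.card J = m ∧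
    wgt J = n ∧ p = msym m J}

/-- Value of the slant product on the classes `μ (0 ::ₘ J)`. -/
def VAL_Stmt : Prop := ∀ (m : ℕ) (μ : Multiset ℕ → H (EM (m + 1)).toSS), MuFam (m + 1) μ →
  ∀ J : Multiset ℕ, Multiset.card J = m → ∀ f : ∀ d, SHU.Pl d →ₗ[ZMod 2] SHU.Pl d,
  SHU.IsNP m (wgt J) f → f m (SHU.Un m) = msym m J →
  ∀ (d : ℕ) (z : ZM (MapS (BB.pow d) (EM (m + 1))) 1) (y : MvPolynomial (Fin d) k),
    y.IsHomogeneous m → Ph z (iota (m + 1)) = evB d y →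
    Ph z (μ (0 ::ₘ J)) = evB d (f d y)

end Pool.Agent.SHL


end

section

/-!
LINK: the slant product with values in polynomials (`PhE`), the linear maps `alpL g` and `al g t`
induced by a pointed simplicial map `g : V → W`.
-/

namespace Pool.Agent.SHL

open Pool.Agent.SHS

/-- All the facts which are used. -/
structure Base : Prop where
  skt : SKT_Stmt
  bbf : BBF_Stmt
  rch : RCH_Stmt
  zm0 : ZM0_Stmt
  lcm : LCM_Stmt
  emr : EMR_Stmt
  ph1 : PH1_Stmt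
  phy : PHY_Stmt
  phv : PHV_Stmt
  phl : PHL_Stmt
  phb : PHB_Stmt
  pha : PHA_Stmt
  phd : PHD_Stmt
  phh : PHH_Stmt
  cv : CV_Stmt
  bv : BV_Stmt
  e1 : E1_Stmt
  e2 : E2_Stmt
  psi : PSI_Stmt
  npj : NPJ_Stmt
  val : VAL_Stmt
  k1 : K1_Stmt
  mu : MU_Stmt
  msi : MSI_Stmt

/-- The linear classes of degree `j`. -/
abbrev XL (V : SV) (j : ℕ) : Type := ↥(LC V j)

open Classical in
/-- A left inverse of `evB`. -/
noncomputable def evBinv (d : ℕ) : H (BB.pow d) →ₗ[k] SHU.Pl d :=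
  if h : Function.Injective (evB d).toLinearMap then
    (LinearMap.exists_leftInverse_of_injective (evB d).toLinearMap
      (LinearMap.ker_eq_bot.mpr h)).choose
  else 0

variable {V W U : SV} {t d : ℕ}

theorem Base.evBinv_evB (B : Base) (d : ℕ) (p : SHU.Pl d) : evBinv d (evB d p) = p := by
  have h : Function.Injective (evB d).toLinearMap := (B.k1 d).1
  unfold evBinv
  rw [dif_pos h]
  have := (LinearMap.exists_leftInverse_of_injective (evB d).toLinearMap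
      (LinearMap.ker_eq_bot.mpr h)).choose_spec
  exact LinearMap.congr_fun this p

theorem Base.evB_inj (B : Base) {d : ℕ} {p q : SHU.Pl d} (h : evB d p = evB d q) : p = q :=
  (B.k1 d).1 h

/-- homogeneous classes are values of homogeneous polynomials, given by `evBinv` -/
theorem Base.evB_evBinv (B : Base) {d n : ℕ} {a : H (BB.pow d)} (ha : a ∈ Hn (BB.pow d) n) :
    evB d (evBinv d a) = a ∧ (evBinv d a).IsHomogeneous n := by
  obtain ⟨p, hp, rfl⟩ := (B.k1 d).2 n a ha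
  rw [B.evBinv_evB]
  exact ⟨rfl, hp⟩

/-- The slant product, polynomial valued. -/
noncomputable def PhF (z : ZM (MapS (BB.pow d) V) t) (j : ℕ) : XL V j →ₗ[k] SHU.Pl d :=
  (evBinv d).comp ((Ph z).comp (LC V j).subtype)

theorem PhF_apply (z : ZM (MapS (BB.pow d) V) t) (j : ℕ) (x : XL V j) :
    PhF z j x = evBinv d (Ph z x.1) := rfl

theorem Base.lc_mem (B : Base) {j : ℕ} (x : XL V j) : x.1 ∈ RC V ∧ x.1 ∈ Hn V.toSS j :=
  ⟨(B.rch V).2.1 j x.2, (B.rch V).2.2.1 j x.2⟩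

theorem Base.Ph_deg (B : Base) (ht : 1 ≤ t) {Y : SS} (hY : Y.LF) (z : ZM (MapS Y V) t) {j : ℕ}
    (x : XL V j) : (j < t → Ph z x.1 = 0) ∧ (t ≤ j → Ph z x.1 ∈ Hn Y (j - t)) :=
  (B.ph1 t ht Y hY V z).2 j x.1 (B.lc_mem x).2 (B.lc_mem x).1

theorem Base.evB_PhF (B : Base) (ht : 1 ≤ t) (z : ZM (MapS (BB.pow d) V) t) (j : ℕ)
    (x : XL V j) : evB d (PhF z j x) = Ph z x.1 ∧
      (t ≤ j → (PhF z j x).IsHomogeneous (j - t)) ∧ (j < t → PhF z j x = 0) := by
  have h := B.Ph_deg ht (B.bbf d).1 z x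
  rw [PhF_apply]
  rcases Nat.lt_or_ge j t with hj | hj
  · rw [h.1 hj, map_zero, map_zero]
    exact ⟨rfl, fun h' => absurd h' (by omega), fun _ => rfl⟩
  · have h2 := B.evB_evBinv (h.2 hj)
    exact ⟨h2.1, fun _ => h2.2, fun h' => absurd h' (by omega)⟩

theorem Base.PhF_mem (B : Base) (ht : 1 ≤ t) (z : ZM (MapS (BB.pow d) V) t) :
    PhF z ∈ SHU.ES (XL V) t d := by
  intro j x e he
  obtain ⟨_, h2, h3⟩ := B.evB_PhF ht z j x
  rcases Nat.lt_or_ge j t with hj | hj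
  · rw [h3 hj] at he
    exact absurd (MvPolynomial.coeff_zero e) he
  · have := (SHU.isHom_iff _).mp (h2 hj) e he
    omega

open Classical in
/-- The slant product with values in `ES`. -/
noncomputable def PhE (z : ZM (MapS (BB.pow d) V) t) : SHU.ES (XL V) t d :=
  if h : PhF z ∈ SHU.ES (XL V) t d then ⟨PhF z, h⟩ else 0

theorem Base.PhE_val (B : Base) (ht : 1 ≤ t) (z : ZM (MapS (BB.pow d) V) t) :
    (PhE z).1 = PhF z := by
  unfold PhE
  rw [dif_pos (B.PhF_mem ht z)]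

theorem Base.evB_PhE (B : Base) (ht : 1 ≤ t) (z : ZM (MapS (BB.pow d) V) t) (j : ℕ)
    (x : XL V j) : evB d ((PhE z).1 j x) = Ph z x.1 := by
  rw [B.PhE_val ht]
  exact (B.evB_PhF ht z j x).1

theorem Base.PhE_ext (B : Base) (ht : 1 ≤ t) {z : ZM (MapS (BB.pow d) V) t}
    {c : SHU.ES (XL V) t d} (h : ∀ (j : ℕ) (x : XL V j), Ph z x.1 = evB d (c.1 j x)) :
    PhE z = c := by
  apply SHU.ES_ext
  intro j x
  apply B.evB_inj
  rw [B.evB_PhE ht, h]

theorem Base.PhE_add (B : Base) (ht : 1 ≤ t) (z z' : ZM (MapS (BB.pow d) V) t) :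
    PhE (z + z') = PhE z + PhE z' := by
  apply B.PhE_ext ht
  intro j x
  rw [B.phl t (BB.pow d) V z z' j x.1 x.2]
  show _ = evB d ((PhE z).1 j x + (PhE z').1 j x)
  rw [map_add, B.evB_PhE ht, B.evB_PhE ht]

theorem Base.PhE_zero (B : Base) (ht : 1 ≤ t) (z : ZM (MapS (BB.pow d) V) t)
    (hz : z.1 ∈ BM (MapS (BB.pow d) V) t) : PhE z = 0 := by
  apply B.PhE_ext ht
  intro j x
  rw [B.phb t ht (BB.pow d) V z hz x.1 (B.lc_mem x).1]
  exact (map_zero (evB d)).symm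

/-- Moore cycles which differ by a boundary -/
theorem Base.BM_of_PhE (B : Base) (hV : V.LF) (ht : 1 ≤ t) (z z' : ZM (MapS (BB.pow d) V) t)
    (h : PhE z = PhE z') : z.1 + z'.1 ∈ BM (MapS (BB.pow d) V) t := by
  apply B.cv V hV t ht (BB.pow d) (B.bbf d).1 (z + z')
  intro j a ha
  rw [B.phl t (BB.pow d) V z z' j a ha]
  have h1 := B.evB_PhE ht z j ⟨a, ha⟩
  have h2 := B.evB_PhE ht z' j ⟨a, ha⟩
  rw [h] at h1
  rw [← h1, ← h2, mod_two]

theorem Base.PhE_surj (B : Base) (hV : V.LF) (ht : 1 ≤ t) (c : SHU.ES (XL V) t d) :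
    ∃ z : ZM (MapS (BB.pow d) V) t, PhE z = c ∧
      ∀ N : ℕ, (∀ j ≤ N, c.1 j = 0) → ∀ n ≤ N, ∀ x, z.1.1 n x = 0 := by
  obtain ⟨z, h1, h2⟩ := B.bv V hV t ht (BB.pow d) (B.bbf d).1
    (fun j => (evB d).toLinearMap.comp (c.1 j)) (by
      intro j a hj
      exact evB_mem d _ _ (SHU.ES_hom c hj a)) (by
      intro j a hj
      show evB d (c.1 j a) = 0
      rw [SHU.ES_zero c hj, map_zero])
  refine ⟨z, B.PhE_ext ht fun j x => h1 j x, fun N hN n hn x => ?_⟩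
  apply h2 N _ n hn x
  intro j hj
  rw [hN j hj, LinearMap.comp_zero]

theorem Base.PhE_pre (B : Base) (ht : 1 ≤ t) {d' : ℕ} (L : Fin d' → Fin d → ZMod 2)
    (z : ZM (MapS (BB.pow d') V) t) : PhE (preZ (BL L) z) = SHU.subs L (PhE z) := by
  apply B.PhE_ext ht
  intro j x
  rw [B.phy t ht (BB.pow d') (BB.pow d) (B.bbf d').1 (B.bbf d).1 (BL L) V z x.1 (B.lc_mem x).1,
    SHU.subs_apply, ← B.e1, B.evB_PhE ht]

/-- congruence for composition with a pointed map -/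
theorem app_congr {Y : SS} (ht : 1 ≤ t) (g : SS.Hom V.toSS W.toSS) (hg : ∀ n, g.f n 0 = 0)
    (z z' : ZM (MapS Y V) t) (h : z.1 + z'.1 ∈ BM (MapS Y V) t) :
    (appZ g hg z).1 + (appZ g hg z').1 ∈ BM (MapS Y W) t := by
  obtain ⟨t, rfl⟩ : ∃ t', t = t' + 1 := ⟨t - 1, by omega⟩
  have h1 := app_add (mapApp Y g) (mapApp_zero Y g hg) z.2 z'.2
  have h2 := BM_app (mapApp Y g) (mapApp_zero Y g hg) h
  have h3 := Submodule.add_mem _ h1 h2
  have h4 : (mapApp Y g).f (t + 1) (z.1 + z'.1) + (mapApp Y g).f (t + 1) z.1 +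
      (mapApp Y g).f (t + 1) z'.1 + (mapApp Y g).f (t + 1) (z.1 + z'.1) =
      (mapApp Y g).f (t + 1) z.1 + (mapApp Y g).f (t + 1) z'.1 +
      ((mapApp Y g).f (t + 1) (z.1 + z'.1) + (mapApp Y g).f (t + 1) (z.1 + z'.1)) := by abel
  rw [h4, mod_two, add_zero] at h3
  exact h3

theorem app_add' {Y : SS} (ht : 1 ≤ t) (g : SS.Hom V.toSS W.toSS) (hg : ∀ n, g.f n 0 = 0)
    (z z' : ZM (MapS Y V) t) :
    (appZ g hg (z + z') + (appZ g hg z + appZ g hg z')).1 ∈ BM (MapS Y W) t := by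
  obtain ⟨t, rfl⟩ : ∃ t', t = t' + 1 := ⟨t - 1, by omega⟩
  have h1 := app_add (mapApp Y g) (mapApp_zero Y g hg) z.2 z'.2
  rw [add_assoc] at h1
  exact h1

/-- if two Moore cycles are equal up to a boundary then `PhE` agree -/
theorem Base.PhE_congr (B : Base) (ht : 1 ≤ t) (z z' : ZM (MapS (BB.pow d) V) t)
    (h : z.1 + z'.1 ∈ BM (MapS (BB.pow d) V) t) : PhE z = PhE z' := by
  have h1 := B.PhE_zero ht (z + z') h
  rw [B.PhE_add ht] at h1
  exact mod_two_eq h1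

open Classical in
/-- A lift of an element of `ES` to a Moore cycle. -/
noncomputable def lift (t d : ℕ) (c : SHU.ES (XL V) t d) : ZM (MapS (BB.pow d) V) t :=
  if h : ∃ z : ZM (MapS (BB.pow d) V) t, PhE z = c ∧
      ∀ N : ℕ, (∀ j ≤ N, c.1 j = 0) → ∀ n ≤ N, ∀ x, z.1.1 n x = 0 then h.choose else 0

theorem Base.lift_spec (B : Base) (hV : V.LF) (ht : 1 ≤ t) (c : SHU.ES (XL V) t d) :
    PhE (lift t d c) = c ∧
      ∀ N : ℕ, (∀ j ≤ N, c.1 j = 0) → ∀ n ≤ N, ∀ x, (lift t d c).1.1 n x = 0 := by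
  unfold lift
  rw [dif_pos (B.PhE_surj hV ht c)]
  exact (B.PhE_surj hV ht c).choose_spec

/-- The map induced by a pointed simplicial map, as a function. -/
noncomputable def alpF (g : SS.Hom V.toSS W.toSS) (hg : ∀ n, g.f n 0 = 0) (t d : ℕ)
    (c : SHU.ES (XL V) t d) : SHU.ES (XL W) t d := PhE (appZ g hg (lift t d c))

theorem Base.alpF_PhE (B : Base) (hV : V.LF) (ht : 1 ≤ t) (g : SS.Hom V.toSS W.toSS)
    (hg : ∀ n, g.f n 0 = 0) (z : ZM (MapS (BB.pow d) V) t) :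
    alpF g hg t d (PhE z) = PhE (appZ g hg z) := by
  unfold alpF
  apply B.PhE_congr ht
  apply app_congr ht
  exact B.BM_of_PhE hV ht _ _ (B.lift_spec hV ht _).1

theorem Base.alpF_add (B : Base) (hV : V.LF) (ht : 1 ≤ t) (g : SS.Hom V.toSS W.toSS)
    (hg : ∀ n, g.f n 0 = 0) (c c' : SHU.ES (XL V) t d) :
    alpF g hg t d (c + c') = alpF g hg t d c + alpF g hg t d c' := by
  obtain ⟨z, rfl, _⟩ := B.PhE_surj hV ht c
  obtain ⟨z', rfl, _⟩ := B.PhE_surj hV ht c'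
  rw [← B.PhE_add ht, B.alpF_PhE hV ht, B.alpF_PhE hV ht, B.alpF_PhE hV ht, ← B.PhE_add ht]
  apply B.PhE_congr ht
  exact app_add' ht g hg z z'

open Classical in
/-- The linear map induced by a pointed simplicial map for `t = 1`. -/
noncomputable def alpL (g : SS.Hom V.toSS W.toSS) (hg : ∀ n, g.f n 0 = 0) (d : ℕ) :
    SHU.ES (XL V) 1 d →ₗ[ZMod 2] SHU.ES (XL W) 1 d :=
  if h : ∀ c c', alpF g hg 1 d (c + c') = alpF g hg 1 d c + alpF g hg 1 d c' then
    (AddMonoidHom.mk' (alpF g hg 1 d) h).toZModLinearMap 2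
  else 0

theorem Base.alpL_PhE (B : Base) (hV : V.LF) (g : SS.Hom V.toSS W.toSS)
    (hg : ∀ n, g.f n 0 = 0) (z : ZM (MapS (BB.pow d) V) 1) :
    alpL g hg d (PhE z) = PhE (appZ g hg z) := by
  unfold alpL
  rw [dif_pos (B.alpF_add hV (le_refl 1) g hg)]
  exact B.alpF_PhE hV (le_refl 1) g hg z

/-- classes of degree `j` only depend on the level `j` of a map -/
theorem map_congr_level {X Y : SS} (F F' : SS.Hom X Y) {j : ℕ} (h : ∀ x, F.f j x = F'.f j x)
    {a : H Y} (ha : a ∈ Hn Y j) : H.map F a = H.map F' a := by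
  obtain ⟨f, hf, rfl⟩ := mem_Hn.mp ha
  rw [H.map_cls, H.map_cls]
  congr 1
  apply Subtype.ext
  apply Coch.ext
  intro n x
  show f.1 n (F.f n x) = f.1 n (F'.f n x)
  by_cases hn : n = j
  · subst hn
    rw [h]
  · rw [hf n hn, hf n hn]

/-- a Moore cycle which vanishes in level `j` has zero slant product with reduced classes of
degree `j` -/
theorem Base.Ph_level (B : Base) {Y : SS} (z : ZM (MapS Y V) t) {j : ℕ}
    (hz : ∀ x, z.1.1 j x = 0) {a : H V.toSS} (ha : a ∈ Hn V.toSS j) (hr : a ∈ RC V) :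
    Ph z a = 0 := by
  have h1 : H.map (HV.hom (sph z)) a = H.map (zmap ((Sph t).prod Y) V) a := by
    apply map_congr_level _ _ _ ha
    rintro ⟨o, y⟩
    cases o with
    | none => rfl
    | some b => exact hz (b.1, y)
  show mulEinv t Y (H.map (HV.hom (sph z)) a) = 0
  rw [h1, B.zm0 _ _ a hr, map_zero]

theorem Base.alpL_IsNT (B : Base) (hV : V.LF) (g : SS.Hom V.toSS W.toSS)
    (hg : ∀ n, g.f n 0 = 0) : SHU.IsNT 1 (alpL g hg) where
  nat := by
    intro d' d L c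
    obtain ⟨z, rfl, _⟩ := B.PhE_surj hV (le_refl 1) c
    rw [← B.PhE_pre (le_refl 1), B.alpL_PhE hV, B.alpL_PhE hV, ← B.PhE_pre (le_refl 1)]
    rfl
  cont := by
    intro d c N hc j hj
    obtain ⟨z, rfl, hz⟩ := B.PhE_surj hV (le_refl 1) c
    rw [B.alpL_PhE hV]
    apply LinearMap.ext
    intro x
    apply B.evB_inj
    rw [B.evB_PhE (le_refl 1), LinearMap.zero_apply, map_zero]
    apply B.Ph_level _ _ (B.lc_mem x).2 (B.lc_mem x).1
    intro y
    show g.f j (z.1.1 j y) = 0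
    rw [hz N hc j hj, hg]

/-- The linear maps induced by a pointed simplicial map, for all `t ≥ 1`. -/
noncomputable def al (g : SS.Hom V.toSS W.toSS) (hg : ∀ n, g.f n 0 = 0) :
    ∀ t d : ℕ, SHU.ES (XL V) t d →ₗ[ZMod 2] SHU.ES (XL W) t d
  | 0, _ => 0
  | 1, d => alpL g hg d
  | t + 2, d => (SHU.DD (t + 1) d).comp ((al g hg (t + 1) (d + 1)).comp (SHU.iota (t + 1) d))

theorem al_one (g : SS.Hom V.toSS W.toSS) (hg : ∀ n, g.f n 0 = 0) (d : ℕ) :
    al g hg 1 d = alpL g hg d := rfl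

theorem al_succ (g : SS.Hom V.toSS W.toSS) (hg : ∀ n, g.f n 0 = 0) (ht : 1 ≤ t) (d : ℕ)
    (c : SHU.ES (XL V) (t + 1) d) :
    al g hg (t + 1) d c = SHU.DD t d (al g hg t (d + 1) (SHU.iota t d c)) := by
  obtain ⟨t, rfl⟩ : ∃ t', t = t' + 1 := ⟨t - 1, by omega⟩
  rfl

theorem ES_two {X : ℕ → Type} [∀ j, AddCommGroup (X j)] [∀ j, Module (ZMod 2) (X j)]
    (c : SHU.ES X t d) : c + c = 0 := mod_two c

theorem DD_subs {X : ℕ → Type} [∀ j, AddCommGroup (X j)] [∀ j, Module (ZMod 2) (X j)]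
    {d' : ℕ} (L : Fin d' → Fin d → ZMod 2) (c : SHU.ES X t (d' + 1)) :
    SHU.DD t d (SHU.subs (SHU.L1 L) c) = SHU.subs L (SHU.DD t d' c) := by
  apply SHU.ES_ext
  intro j x
  rw [SHU.DD_apply, SHU.subs_apply, SHU.subs_apply, SHU.DD_apply, SHU.co1_lin]

theorem Base.al_IsNT (B : Base) (hV : V.LF) (g : SS.Hom V.toSS W.toSS)
    (hg : ∀ n, g.f n 0 = 0) (ht : 1 ≤ t) : SHU.IsNT t (al g hg t) := by
  induction t, ht using Nat.le_induction with
  | base => exact B.alpL_IsNT hV g hg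
  | succ t ht ih =>
    constructor
    · intro d' d L c
      rw [al_succ g hg ht, al_succ g hg ht, SHU.iota_subs, ih.nat, DD_subs]
    · intro d c N hc j hj
      rw [al_succ g hg ht]
      have h1 := ih.cont (d + 1) (SHU.iota t d c) N (by
        intro j hj
        apply LinearMap.ext
        intro x
        rw [SHU.iota_apply, hc j hj, LinearMap.zero_apply, map_zero, mul_zero]
        rfl) j hj
      apply LinearMap.ext
      intro x
      rw [SHU.DD_apply, h1, LinearMap.zero_apply, LinearMap.zero_apply, map_zero]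

/-- finiteness of the spaces of linear classes -/
theorem Base.fin (B : Base) (hV : V.LF) (j : ℕ) : Module.Finite (ZMod 2) (XL V j) := by
  have h : Finite (XL V j) := (B.rch V).2.2.2 hV j
  exact Module.Finite.of_finite

theorem Base.al_Compat (B : Base) (hV : V.LF) (hW : W.LF) (g : SS.Hom V.toSS W.toSS)
    (hg : ∀ n, g.f n 0 = 0) (ht : 1 ≤ t) : SHU.Compat t (al g hg t) (al g hg (t + 1)) := by
  have hf : ∀ j, Module.Finite (ZMod 2) (XL V j) := B.fin hV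
  intro d c
  rw [al_succ g hg ht]
  apply mod_two_eq
  set h := SHU.iota t d (SHU.DD t d c) + c with hh
  have hd : SHU.DD t d (al g hg t (d + 1) (SHU.iota t d (SHU.DD t d c))) +
      SHU.DD t d (al g hg t (d + 1) c) = SHU.DD t d (al g hg t (d + 1) h) := by
    rw [hh, LinearMap.map_add, LinearMap.map_add]
  rw [hd]
  have h0 : SHU.DD t d h = 0 := by
    rw [hh, LinearMap.map_add, SHU.DD_iota]
    exact ES_two _
  apply SHU.ES_ext
  intro j x
  rw [SHU.DD_apply]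
  show SHU.co1 d ((al g hg t (d + 1) h).1 j x) = 0
  rcases Nat.lt_or_ge j t with hj | hj
  · rw [SHU.ES_zero _ hj, map_zero]
  · have h1 := ((SHU.pr_IsPN (show j - t + t = j by omega) x).comp
      (B.al_IsNT hV g hg ht)).co1_zero d h h0
    exact h1

theorem appZ_comp {Y : SS} (g : SS.Hom V.toSS W.toSS) (hg : ∀ n, g.f n 0 = 0)
    (g' : SS.Hom W.toSS U.toSS) (hg' : ∀ n, g'.f n 0 = 0)
    (gg : SS.Hom V.toSS U.toSS) (hgg : ∀ n, gg.f n 0 = 0)
    (he : ∀ n x, gg.f n x = g'.f n (g.f n x)) (z : ZM (MapS Y V) t) :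
    appZ gg hgg z = appZ g' hg' (appZ g hg z) := by
  apply Subtype.ext
  apply HV.ext
  intro n x
  exact he n _

theorem Base.al_comp (B : Base) (hV : V.LF) (hW : W.LF) (hU : U.LF)
    (g : SS.Hom V.toSS W.toSS) (hg : ∀ n, g.f n 0 = 0)
    (g' : SS.Hom W.toSS U.toSS) (hg' : ∀ n, g'.f n 0 = 0)
    (gg : SS.Hom V.toSS U.toSS) (hgg : ∀ n, gg.f n 0 = 0)
    (he : ∀ n x, gg.f n x = g'.f n (g.f n x)) (ht : 1 ≤ t) :
    ∀ (d : ℕ) (c : SHU.ES (XL V) t d), al gg hgg t d c = al g' hg' t d (al g hg t d c) := by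
  induction t, ht using Nat.le_induction with
  | base =>
    intro d c
    obtain ⟨z, rfl, _⟩ := B.PhE_surj hV (le_refl 1) c
    rw [al_one, al_one, al_one, B.alpL_PhE hV, B.alpL_PhE hV, B.alpL_PhE hW,
      appZ_comp g hg g' hg' gg hgg he]
  | succ t ht ih =>
    intro d c
    rw [al_succ gg hgg ht, al_succ g hg ht, B.al_Compat hW hU g' hg' ht, ih]

end Pool.Agent.SHL


end

section

/-!
LINK: `al g t` computes the effect of `g` on Moore cycles of all dimensions `t ≥ 1`.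
-/

namespace Pool.Agent.SHL

open Pool.Agent.SHS

variable {V W U : SV} {t d : ℕ}

theorem Ph_zero {Y : SS} (a : H V.toSS) (h : H.map (zmap ((Sph t).prod Y) V) a = 0) :
    Ph (0 : ZM (MapS Y V) t) a = 0 := by
  show mulEinv t Y (H.map (HV.hom (sph (0 : ZM (MapS Y V) t))) a) = 0
  rw [map_zero]
  show mulEinv t Y (H.map (zmap ((Sph t).prod Y) V) a) = 0
  rw [h, map_zero]

theorem subs_Lzero_iota {X : ℕ → Type} [∀ j, AddCommGroup (X j)] [∀ j, Module (ZMod 2) (X j)]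
    (c : SHU.ES X (t + 1) d) : SHU.subs (SHU.Lzero d) (SHU.iota t d c) = 0 := by
  apply SHU.ES_ext
  intro j x
  rw [SHU.subs_apply, SHU.iota_apply, map_mul, SHU.lin_Lzero_zero, zero_mul]
  rfl

theorem Base.al_PhE (B : Base) (hV : V.LF) (g : SS.Hom V.toSS W.toSS)
    (hg : ∀ n, g.f n 0 = 0) (ht : 1 ≤ t) : ∀ (d : ℕ) (z : ZM (MapS (BB.pow d) V) t),
    al g hg t d (PhE z) = PhE (appZ g hg z) := by
  induction t, ht using Nat.le_induction with
  | base => exact fun d z => B.alpL_PhE hV g hg z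
  | succ t ht ih =>
    intro d z
    have hY : (S1.prod (BB.pow d)).LF := (B.bbf d).2
    obtain ⟨z', hz', _⟩ := B.PhE_surj hV ht (SHU.iota t d (PhE z))
    -- the two Moore cycles over `S^1 × B^d`
    have key : ∀ (j : ℕ) (a : XL V j), Ph (preZ (qB d) z') a.1 = Ph (hh z) a.1 := by
      intro j a
      rw [B.phy t ht _ _ (B.bbf (d + 1)).1 hY (qB d) V z' a.1 (B.lc_mem a).1,
        B.phh t ht _ (B.bbf d).1 V z a.1 (B.lc_mem a).1, ← B.evB_PhE ht, hz', B.e2,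
        SHU.iota_apply, SHU.co1_X_rename, map_mul, SHU.lin_Lzero_zero, zero_mul, map_zero,
        map_zero, add_zero, B.evB_PhE (by omega)]
    have hb : (preZ (qB d) z').1 + (hh z).1 ∈ BM (MapS (S1.prod (BB.pow d)) V) t := by
      apply B.cv V hV t ht _ hY (preZ (qB d) z' + hh z)
      intro j a ha
      rw [B.phl t _ V _ _ j a ha, key j ⟨a, ha⟩, mod_two]
    have hb2 := app_congr ht g hg _ _ hb
    have key2 : ∀ (j : ℕ) (a : XL W j), Ph (appZ g hg (preZ (qB d) z')) a.1 =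
        Ph (appZ g hg (hh z)) a.1 := by
      intro j a
      have h1 := B.phb t ht _ W (appZ g hg (preZ (qB d) z') + appZ g hg (hh z)) hb2 a.1
        (B.lc_mem a).1
      rw [B.phl t _ W _ _ j a.1 a.2] at h1
      exact mod_two_eq h1
    symm
    apply B.PhE_ext (by omega)
    intro j a
    have e1 : Ph (appZ g hg (preZ (qB d) z')) a.1 =
        mulE 1 (BB.pow d) (evB d ((al g hg (t + 1) d (PhE z)).1 j a)) := by
      show Ph (preZ (qB d) (appZ g hg z')) a.1 = _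
      rw [B.phy t ht _ _ (B.bbf (d + 1)).1 hY (qB d) W _ a.1 (B.lc_mem a).1, ← B.evB_PhE ht,
        ← ih, hz', B.e2, al_succ g hg ht, SHU.DD_apply, ← SHU.subs_apply,
        ← (B.al_IsNT hV g hg ht).nat, subs_Lzero_iota, map_zero]
      show _ + H.map (SS.snd S1 (BB.pow d)) (evB d 0) = _
      rw [map_zero, map_zero, add_zero]
    have e2 : Ph (appZ g hg (hh z)) a.1 = mulE 1 (BB.pow d) (Ph (appZ g hg z) a.1) := by
      have h1 : appZ g hg (hh z) = hh (appZ g hg z) := by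
        apply Subtype.ext
        apply HV.ext
        rintro n ⟨b, o, y⟩
        cases o with
        | none => exact hg n
        | some e => rfl
      rw [h1, B.phh t ht _ (B.bbf d).1 W _ a.1 (B.lc_mem a).1]
    apply (B.skt 1 (le_refl 1) (BB.pow d) (B.bbf d).1).1
    rw [← e1, ← e2, key2]

/-! ### The differential of a cosimplicial object -/

/-- The sum of the cofaces on `ES`. -/
noncomputable def dlE (C : CSV) (s t d : ℕ) :
    SHU.ES (XL (C.V s)) t d →ₗ[ZMod 2] SHU.ES (XL (C.V (s + 1))) t d :=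
  ∑ i : Fin (s + 2), al (C.op (cof i)) (C.op_zero (cof i)) t d

theorem dlE_apply (C : CSV) (s t d : ℕ) (c : SHU.ES (XL (C.V s)) t d) :
    dlE C s t d c = ∑ i : Fin (s + 2), al (C.op (cof i)) (C.op_zero (cof i)) t d c := by
  rw [dlE, LinearMap.sum_apply]

theorem ES_sum_val {X : ℕ → Type} [∀ j, AddCommGroup (X j)] [∀ j, Module (ZMod 2) (X j)]
    {ι : Type} (s : Finset ι) (f : ι → SHU.ES X t d) (j : ℕ) (x : X j) :
    (∑ i ∈ s, f i).1 j x = ∑ i ∈ s, (f i).1 j x := by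
  classical
  induction s using Finset.induction_on with
  | empty => rfl
  | insert a s ha ih =>
    rw [Finset.sum_insert ha, Finset.sum_insert ha, ← ih]
    rfl

theorem Base.dlE_IsNT (B : Base) (C : CSV) (s t : ℕ) (ht : 1 ≤ t) :
    SHU.IsNT t (dlE C s t) where
  nat := by
    intro d' d L c
    apply SHU.ES_ext
    intro j x
    rw [SHU.subs_apply, dlE_apply, dlE_apply, ES_sum_val, ES_sum_val, map_sum]
    apply Finset.sum_congr rfl
    intro i _
    rw [(B.al_IsNT (C.lf s) _ _ ht).nat, SHU.subs_apply]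
  cont := by
    intro d c N hc j hj
    apply LinearMap.ext
    intro x
    rw [dlE_apply, ES_sum_val]
    apply Finset.sum_eq_zero
    intro i _
    rw [(B.al_IsNT (C.lf s) _ _ ht).cont d c N hc j hj]
    rfl

theorem Base.dlE_Compat (B : Base) (C : CSV) (s t : ℕ) (ht : 1 ≤ t) :
    SHU.Compat t (dlE C s t) (dlE C s (t + 1)) := by
  intro d c
  apply SHU.ES_ext
  intro j x
  rw [SHU.DD_apply, dlE_apply, dlE_apply, ES_sum_val, ES_sum_val, map_sum]
  apply Finset.sum_congr rfl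
  intro i _
  rw [B.al_Compat (C.lf s) (C.lf (s + 1)) _ _ ht, SHU.DD_apply]

theorem Base.dlE_dlE (B : Base) (C : CSV) (s t : ℕ) (ht : 1 ≤ t) (d : ℕ)
    (c : SHU.ES (XL (C.V s)) t d) : dlE C (s + 1) t d (dlE C s t d c) = 0 := by
  have h := sum_cof_cof (M := SHU.ES (XL (C.V (s + 2))) t d) (n := s)
    (fun th => al (C.op th) (C.op_zero th) t d c)
  rw [dlE_apply, dlE_apply]
  rw [← h]
  apply Finset.sum_congr rfl
  intro i _
  rw [map_sum]
  apply Finset.sum_congr rfl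
  intro j _
  rw [B.al_comp (C.lf s) (C.lf (s + 1)) (C.lf (s + 2)) (C.op (cof j)) (C.op_zero _)
    (C.op (cof i)) (C.op_zero _) (C.op ((cof i).comp (cof j))) (C.op_zero _)
    (fun n x => C.op_comp (cof j) (cof i) n x) ht]

/-- The sum of the cofaces of a Moore cycle. -/
noncomputable def cfZ (C : CSV) {Y : SS} (s : ℕ) {t : ℕ} (z : ZM (MapS Y (C.V s)) t) :
    ZM (MapS Y (C.V (s + 1))) t :=
  ∑ i : Fin (s + 2), appZ (C.op (cof i)) (C.op_zero (cof i)) z

theorem cfZ_val (C : CSV) {Y : SS} (s : ℕ) {t : ℕ} (z : ZM (MapS Y (C.V s)) t) :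
    (cfZ C s z).1 = C.cf s z.1 := by
  unfold cfZ CSV.cf
  rw [Submodule.coe_sum]
  rfl

theorem Base.PhE_sum (B : Base) (ht : 1 ≤ t) {ι : Type} (s : Finset ι)
    (f : ι → ZM (MapS (BB.pow d) V) t) : PhE (∑ i ∈ s, f i) = ∑ i ∈ s, PhE (f i) := by
  classical
  induction s using Finset.induction_on with
  | empty =>
    rw [Finset.sum_empty, Finset.sum_empty]
    apply B.PhE_zero ht
    exact Submodule.zero_mem _
  | insert a s ha ih => rw [Finset.sum_insert ha, Finset.sum_insert ha, B.PhE_add ht, ih]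

theorem Base.dlE_PhE (B : Base) (C : CSV) (s t : ℕ) (ht : 1 ≤ t) (d : ℕ)
    (z : ZM (MapS (BB.pow d) (C.V s)) t) : dlE C s t d (PhE z) = PhE (cfZ C s z) := by
  rw [dlE_apply]
  unfold cfZ
  rw [B.PhE_sum ht]
  apply Finset.sum_congr rfl
  intro i _
  exact B.al_PhE (C.lf s) _ _ ht d z

end Pool.Agent.SHL


end
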