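import Mathlib
import Pool.Agent.SHM.C02
import Pool.Agent.SHM.C03
import Pool.Agent.SHM.C04
import Pool.Agent.SHM.C05
import Pool.Agent.SHM.C06
import Pool.Agent.SHM.C09

/-! Parts: SH.GRF, SH.LTE, SH.LTH, SH.LTI, SH.LTQ, SH.LTX, SH.LTZ, SH.AllII, SH.L.Fin, SH.L.Epshb, SH.L.Skt, SH.L.Phh, SH.L.Cem, SH.L.XSphere, SH.L.XContr, SH.L.XFin, SH.L.XCSV, SH.L.XTrans -/

section

/-!
# MP_2d0b73_an, PART II: subdivisions of small mesh
-/

noncomputable section

namespace Pool.Agent.SH

namespace GRF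

/-- The mesh of a stage map is at most `2`. -/
theorem mesh_two {P' P : Type} [PartialOrder P'] [PartialOrder P] [Fintype P'] [Fintype P]
    (s : SM P' P) : s.MeshLE 2 := by
  intro p' q' _
  calc ∑ p, |s.geo p' p - s.geo q' p| ≤ ∑ p, (s.geo p' p + s.geo q' p) := by
        refine Finset.sum_le_sum fun p _ => ?_
        have h1 := s.geo_nonneg p' p
        have h2 := s.geo_nonneg q' p
        rw [abs_le]
        constructor <;> linarith
    _ = 2 := by
        rw [Finset.sum_add_distrib, s.geo_sum, s.geo_sum]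
        norm_num

theorem h_of_id {P : Type} [PartialOrder P] [Fintype P] (s : SM (Sd P) P)
    (h : s.c = OrderHom.id) : s.h = topHom P := by
  unfold SM.h
  rw [h]
  rfl

theorem iter (h1 : Stmt_GSD) (h2 : Stmt_GCO) (h3 : Stmt_GME) (M : ℕ) (L : Type) [PartialOrder L]
    (E : EssAx M L) (P : Type) [PartialOrder P] [Fintype P] (g : P →o P0 M) (hg : E.Ess P g)
    (N : ℕ) (hN1 : 1 ≤ N) (hN : ∀ σ : Sd P, σ.c.card ≤ N) (r : ℕ) :
    ∃ (P' : Type) (_ : PartialOrder P') (_ : Fintype P') (s : SM P' P),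
      s.MeshLE (2 * (1 - 1 / (N : ℝ)) ^ r) ∧ E.Ess P' (g.comp s.h) ∧
        ∀ σ : Sd P', σ.c.card ≤ N := by
  induction r with
  | zero =>
    obtain ⟨s, hs, hgeo⟩ := h1 P
    refine ⟨Sd P, inferInstance, inferInstance, s, ?_, ?_, ?_⟩
    · rw [pow_zero, mul_one]
      exact mesh_two s
    · rw [h_of_id s hs]
      exact E.sd P g hg
    · exact (h3 P N s hs hgeo hN).1
  | succ r ih =>
    obtain ⟨P', i1, i2, s, hm, he, hc⟩ := ih
    obtain ⟨s', hs', hgeo⟩ := h1 P'
    obtain ⟨t, t1, t2, -, -⟩ := h2 (Sd P') P' P s' s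
    obtain ⟨c1, c2⟩ := h3 P' N s' hs' hgeo hc
    refine ⟨Sd P', inferInstance, inferInstance, t, ?_, ?_, c1⟩
    · intro σ τ hστ
      have hN0 : (0 : ℝ) ≤ 1 - 1 / (N : ℝ) := by
        have : (1 : ℝ) ≤ N := by exact_mod_cast hN1
        rw [sub_nonneg, div_le_one (by linarith)]
        exact this
      have h4 := c2 P s.geo (2 * (1 - 1 / (N : ℝ)) ^ r)
        (mul_nonneg (by norm_num) (pow_nonneg hN0 r)) hm σ τ hστ
      rw [t2, t2]
      refine h4.trans (le_of_eq ?_)
      ring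
    · rw [t1, h_of_id s' hs']
      exact E.sd P' (g.comp s.h) he

end GRF

open GRF in
theorem GRF (h1 : Stmt_GSD) (h2 : Stmt_GCO) (h3 : Stmt_GME) : Stmt_GRF := by
  intro M L _ E P _ _ g ε hε hg
  have hN : ∀ σ : Sd P, σ.c.card ≤ Fintype.card P + 1 := fun σ =>
    (Finset.card_le_univ σ.c).trans (Nat.le_succ _)
  have hpos : (0 : ℝ) < ((Fintype.card P + 1 : ℕ) : ℝ) := by
    exact_mod_cast Nat.succ_pos _
  have hlt : 1 - 1 / ((Fintype.card P + 1 : ℕ) : ℝ) < 1 := by
    have := one_div_pos.2 hpos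
    linarith
  obtain ⟨r, hr⟩ := exists_pow_lt_of_lt_one (half_pos hε) hlt
  obtain ⟨P', i1, i2, s, hm, he, -⟩ := iter h1 h2 h3 M L E P g hg (Fintype.card P + 1)
    (Nat.succ_le_succ (Nat.zero_le _)) hN r
  refine ⟨P', i1, i2, s, ?_, he⟩
  intro p q hpq
  refine (hm p q hpq).trans ?_
  linarith

end Pool.Agent.SH

end

end

section

/-!
# MP_2d0b73_an, PART II: anodyne extensions are in `LT T`
-/

open CategoryTheory Simplicial MonoidalCategory Limits Opposite

namespace Pool.Agent.SH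

theorem LTE : Stmt_LTE := by
  intro T A B i hT hi hanod
  refine ⟨hi, fun n u v huv => ?_⟩
  let sq := Functor.PushoutObjObj.ofHasPushout (curriedTensor SSet.{0}) i
    (∂Δ[n] : (Δ[n] : SSet.{0}).Subcomplex).ι
  have h0 : SSet.anodyneExtensions sq.ι := SSet.anodyneExtensions_pushoutObjObjι' sq hanod
  have h1 : HasLiftingProperty sq.ι (terminal.from T) := by
    apply h0
    rw [← HomotopicalAlgebra.fibration_iff]
    infer_instance
  let t : sq.pt ⟶ T := sq.isPushout.desc u v huv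
  have hsq : CommSq t sq.ι (terminal.from T) (terminal.from _) := ⟨by simp⟩
  refine ⟨hsq.lift, ?_, ?_⟩
  · have h2 : sq.inl ≫ sq.ι = B ◁ ∂Δ[n].ι := sq.inl_ι
    rw [← h2, Category.assoc, hsq.fac_left]
    exact sq.isPushout.inl_desc _ _ _
  · have h2 : sq.inr ≫ sq.ι = i ▷ Δ[n] := sq.inr_ι
    rw [← h2, Category.assoc, hsq.fac_left]
    exact sq.isPushout.inr_desc _ _ _

end Pool.Agent.SH


end

section

/-!
# MP_2d0b73_an, PART II, module LTH: monotone retractions comparable with the identity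
-/

noncomputable section

namespace Pool.Agent.SH

open CategoryTheory Simplicial MonoidalCategory Limits Opposite

namespace LTH

/-- The absolute case: a monotone self map `ρ` of `P` with values in `A`, the identity on `A`,
comparable with the identity. -/
theorem absolute (h1 : Stmt_LTE) (h2 : Stmt_LTF) (h3 : Stmt_LTG) (T : SSet.{0})
    (hT : SSet.KanComplex T) (P : Type) [PartialOrder P] (A : Set P) (ρ : P →o P)
    (hA : ∀ x, ρ x ∈ A) (hf : ∀ x ∈ A, ρ x = x) (hc : ρ ≤ OrderHom.id ∨ OrderHom.id ≤ ρ) :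
    LT T (subN A).ι := by
  have e1 : NMap (OrderHom.id : P →o P) = 𝟙 (NP P) := rfl
  have e2 : (subN A).ι ≫ NMap ρ = (subN A).ι := by
    ext n x k
    exact hf _ (x.2 k)
  have hr : SSet.Subcomplex.range (NMap ρ) ≤ subN A := by
    rintro n _ ⟨x, rfl⟩ k
    exact hA _
  have e3 : SSet.Subcomplex.lift (NMap ρ) hr ≫ (subN A).ι = NMap ρ :=
    SSet.Subcomplex.lift_ι _ _
  refine h1 T _ _ (subN A).ι hT inferInstance (h2 _ _ (subN A).ι
    (SSet.Subcomplex.lift (NMap ρ) hr) ?_ ?_)
  · rw [← cancel_mono (subN A).ι, Category.assoc, e3, e2, Category.id_comp]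
  · rw [e3]
    rcases hc with hc | hc
    · obtain ⟨H, hH⟩ := h3 P P ρ OrderHom.id hc
      left
      exact ⟨H, (hH A hf).trans (by rw [e2])⟩
    · obtain ⟨H, hH⟩ := h3 P P OrderHom.id ρ hc
      right
      exact ⟨H, (hH A fun x hx => (hf x hx).symm).trans (by rw [e1, Category.comp_id])⟩

end LTH

theorem LTH (h1 : Stmt_LTE) (h2 : Stmt_LTF) (h3 : Stmt_LTG) (h5 : Stmt_LTY)
    (h6 : Stmt_LTZ) : Stmt_LTH := by
  intro T R _ V₀ V r hT hV hm hmap hfix hcmp
  let A : Set V := Subtype.val ⁻¹' V₀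
  let ρ : V →o V :=
    { toFun := fun x => ⟨r x, hV (hmap x.2)⟩
      monotone' := fun x y hxy => hm x.2 y.2 hxy }
  have hA : ((OrderEmbedding.subtype fun x => x ∈ V) '' A) = V₀ := by
    ext x
    constructor
    · rintro ⟨y, hy, rfl⟩
      exact hy
    · intro hx
      exact ⟨⟨x, hV hx⟩, hx, rfl⟩
  have hB : ((OrderEmbedding.subtype fun x => x ∈ V) '' (Set.univ : Set V)) = V := by
    ext x
    constructor
    · rintro ⟨y, hy, rfl⟩
      exact y.2
    · intro hx
      exact ⟨⟨x, hx⟩, trivial, rfl⟩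
  have hmain : LT T (subN A).ι := by
    refine LTH.absolute h1 h2 h3 T hT V A ρ (fun x => hmap x.2)
      (fun x hx => Subtype.ext (hfix x.1 hx)) ?_
    rcases hcmp with h | h
    · exact Or.inr fun x => h x.1 x.2
    · exact Or.inl fun x => h x.1 x.2
  have h7 := (h5 T V R (OrderEmbedding.subtype fun x => x ∈ V) A Set.univ).1
    (((h6 T V).1 A).2 hmain)
  rwa [hA, hB] at h7

end Pool.Agent.SH

end

end

section

/-!
# MP_2d0b73_an, PART II: parts with a largest element are acyclic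
-/

noncomputable section

namespace Pool.Agent.SH

open CategoryTheory Simplicial MonoidalCategory Limits Opposite

namespace LTI

theorem trans (h1 : Stmt_LTA) {T X : SSet.{0}} {A B C : X.Subcomplex} (hAB : LTS T A B)
    (hBC : LTS T B C) : LTS T A C := by
  obtain ⟨h, hl⟩ := hAB
  obtain ⟨k, kl⟩ := hBC
  exact ⟨h.trans k, h1 T _ _ _ _ _ hl kl⟩

theorem cancel (h2 : Stmt_LTC) {T X : SSet.{0}} (hT : SSet.KanComplex T) {A B C : X.Subcomplex}
    (hAB : LTS T A B) (hAC : LTS T A C) (hBC : B ≤ C) : LTS T B C := by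
  obtain ⟨h, hl⟩ := hAB
  obtain ⟨k, kl⟩ := hAC
  exact ⟨hBC, h2 T _ _ _ (SSet.Subcomplex.homOfLE h) (SSet.Subcomplex.homOfLE hBC) hT
    inferInstance hl kl⟩

end LTI

theorem LTI (h1 : Stmt_LTA) (h2 : Stmt_LTC) (h3 : Stmt_LTH) : Stmt_LTI := by
  intro T R _ V p hT hp hV a ha
  have hpV : LTS T (subN {p}) (subN V) := by
    refine h3 T R {p} V (fun _ => p) hT (Set.singleton_subset_iff.2 hp)
      (fun _ _ _ _ _ => le_rfl) (fun _ _ => rfl) (fun x hx => hx.symm) (Or.inl hV)
  have hap : LTS T (subN {a}) (subN {a, p}) := by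
    refine h3 T R {a} {a, p} (fun _ => a) hT (by simp)
      (fun _ _ _ _ _ => le_rfl) (fun _ _ => rfl) (fun x hx => hx.symm) (Or.inr ?_)
    intro x hx
    rcases hx with rfl | hx
    · exact le_rfl
    · rw [Set.mem_singleton_iff] at hx
      subst hx
      exact hV a ha
  have hpp : LTS T (subN {p}) (subN {a, p}) := by
    refine h3 T R {p} {a, p} (fun _ => p) hT (by simp)
      (fun _ _ _ _ _ => le_rfl) (fun _ _ => rfl) (fun x hx => hx.symm) (Or.inl ?_)
    intro x hx
    rcases hx with rfl | hx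
    · exact hV _ ha
    · rw [Set.mem_singleton_iff] at hx
      exact hx.le
  have hsub : (subN {a, p} : (NP R).Subcomplex) ≤ subN V := by
    intro n x hx i
    rcases hx i with h | h
    · rw [h]; exact ha
    · rw [Set.mem_singleton_iff] at h
      rw [h]; exact hp
  exact LTI.trans h1 hap (LTI.cancel h2 hT hpp hpV hsub)

end Pool.Agent.SH

end

end

section

/-!
# Maps which miss a facet are null
-/

noncomputable section

namespace Pool.Agent.SH

open CategoryTheory Simplicial MonoidalCategory Limits Opposite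

namespace LTQ

theorem hom_mk {X T : SSet.{0}} {f g : X ⟶ T} (h : X ⊗ Δ[1] ⟶ T) (h0 : SSet.ι₀ ≫ h = f)
    (h1 : SSet.ι₁ ≫ h = g) : Nonempty (SSet.Homotopy f g) := by
  refine ⟨{ h := h, h₀ := h0, h₁ := h1, rel := ?_ }⟩
  ext n x
  exact x.1.2.elim

theorem refl' {X T : SSet.{0}} (f : X ⟶ T) : Nonempty (SSet.Homotopy f f) :=
  hom_mk (CartesianMonoidalCategory.fst X Δ[1] ≫ f)
    (by rw [← Category.assoc, SSet.ι₀_fst, Category.id_comp])
    (by rw [← Category.assoc, SSet.ι₁_fst, Category.id_comp])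

theorem post' {X T U : SSet.{0}} {f g : X ⟶ T} (H : SSet.Homotopy f g) (v : T ⟶ U) :
    Nonempty (SSet.Homotopy (f ≫ v) (g ≫ v)) :=
  hom_mk (H.h ≫ v) (by rw [← Category.assoc, H.h₀]) (by rw [← Category.assoc, H.h₁])

theorem null_const {X T : SSet.{0}} (t : T _⦋0⦌) : Null (SSet.const t : X ⟶ T) :=
  ⟨t, refl' _⟩

/-- The vertex of the nerve. -/
def vt {Q : Type} [PartialOrder Q] (c : Q) : (NP Q) _⦋0⦌ := ComposableArrows.mk₀ c

theorem nmap_const {P Q : Type} [PartialOrder P] [PartialOrder Q] (c : Q) :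
    NMap (OrderHom.const P c) = SSet.const (vt c) := by
  ext n x
  rfl

/-- Adding the missing vertex. -/
theorem ne_univ {M : ℕ} {F A : P0 M} {i : Fin (M + 2)} (hF : F.s = Finset.univ.erase i)
    (hA : A ≠ F) : insert i A.s ≠ Finset.univ := by
  intro h
  have h1 : F.s ⊆ A.s := by
    intro x hx
    rw [hF, Finset.mem_erase] at hx
    have h2 : x ∈ insert i A.s := h ▸ Finset.mem_univ x
    rcases Finset.mem_insert.1 h2 with h3 | h3
    · exact absurd h3 hx.1
    · exact h3
  by_cases hi : i ∈ A.s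
  · exact A.ne_univ (by rw [← h, Finset.insert_eq_of_mem hi])
  · apply hA
    apply P0.ext'
    apply Finset.Subset.antisymm _ h1
    intro x hx
    rw [hF, Finset.mem_erase]
    exact ⟨fun e => hi (e ▸ hx), Finset.mem_univ x⟩

end LTQ

open LTQ in
theorem LTQ (h1 : Stmt_LTG) (h2 : Stmt_LTL) : Stmt_LTQ := by
  classical
  intro T M e P _ g F hT hF hg
  obtain ⟨i, hi⟩ : ∃ i, Finset.univ \ F.s = {i} := by
    apply Finset.card_eq_one.1
    rw [Finset.card_sdiff_of_subset (Finset.subset_univ _), hF, Finset.card_univ,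
      Fintype.card_fin]
    omega
  have hF' : F.s = Finset.univ.erase i := by
    ext x
    have h3 : x ∈ Finset.univ \ F.s ↔ x ∈ ({i} : Finset (Fin (M + 2))) := by rw [hi]
    simp only [Finset.mem_sdiff, Finset.mem_univ, true_and, Finset.mem_singleton] at h3
    rw [Finset.mem_erase]
    constructor
    · intro hx
      exact ⟨fun hxi => h3.2 hxi hx, Finset.mem_univ x⟩
    · intro hx
      by_contra hc
      exact hx.1 (h3.1 hc)
  let g1 : P →o P0 M :=
    { toFun := fun p => ⟨insert i (g p).s, Finset.insert_nonempty _ _, ne_univ hF' (hg p)⟩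
      monotone' := fun p q hpq => Finset.insert_subset_insert _ (g.monotone hpq) }
  let c : P0 M := ⟨{i}, Finset.singleton_nonempty i, by
    intro h
    have h3 := congrArg Finset.card h
    rw [Finset.card_singleton, Finset.card_univ, Fintype.card_fin] at h3
    omega⟩
  have hg1 : g ≤ g1 := fun p => Finset.subset_insert _ _
  have hc1 : OrderHom.const P c ≤ g1 := fun p =>
    Finset.singleton_subset_iff.2 (Finset.mem_insert_self _ _)
  obtain ⟨H, -⟩ := h1 P (P0 M) g g1 hg1
  obtain ⟨H', -⟩ := h1 P (P0 M) (OrderHom.const P c) g1 hc1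
  have n0 : Null (NMap (OrderHom.const P c) ≫ e) := by
    rw [nmap_const, SSet.const_comp]
    exact null_const _
  have n1 : Null (NMap g1 ≫ e) := h2 _ _ _ _ hT (Or.inl (post' H' e)) n0
  exact h2 _ _ _ _ hT (Or.inr (post' H e)) n1

end Pool.Agent.SH

end

end

section

/-!
# MP_2d0b73_an, PART II, module LTX: `LT T` is invariant under isomorphisms of arrows
-/

noncomputable section

namespace Pool.Agent.SH

open CategoryTheory Simplicial MonoidalCategory Limits Opposite

theorem LTX : Stmt_LTX := by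
  intro T A B A' B' i i' a b h hi
  have hi' : i' = a.inv ≫ i ≫ b.hom := by rw [← h, Iso.inv_hom_id_assoc]
  refine ⟨?_, ?_⟩
  · have h1 : Mono i := hi.1
    rw [hi']
    infer_instance
  · intro n u v huv
    have k : i ▷ (∂Δ[n] : SSet.{0}) ≫ (b.hom ▷ (∂Δ[n] : SSet.{0}) ≫ u) =
        A ◁ ∂Δ[n].ι ≫ (a.hom ▷ Δ[n] ≫ v) := by
      rw [← comp_whiskerRight_assoc, ← h, comp_whiskerRight_assoc, huv,
        ← whisker_exchange_assoc]
    obtain ⟨w, w1, w2⟩ := hi.2 n _ _ k
    refine ⟨b.inv ▷ Δ[n] ≫ w, ?_, ?_⟩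
    · rw [whisker_exchange_assoc, w1, ← comp_whiskerRight_assoc, Iso.inv_hom_id,
        id_whiskerRight, Category.id_comp]
    · have e : i' ≫ b.inv = a.inv ≫ i := by
        rw [hi', Category.assoc, Category.assoc, Iso.hom_inv_id, Category.comp_id]
      rw [← comp_whiskerRight_assoc, e, comp_whiskerRight_assoc, w2,
        ← comp_whiskerRight_assoc, Iso.inv_hom_id, id_whiskerRight, Category.id_comp]

end Pool.Agent.SH

end

end

section

/-!
# MP_2d0b73_an, PART II: whole nerves and their parts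
-/

noncomputable section

namespace Pool.Agent.SH

open CategoryTheory Simplicial MonoidalCategory Limits Opposite

namespace LTZ

theorem isIso_ι {X : SSet.{0}} (S : X.Subcomplex) (hS : S = ⊤) : IsIso S.ι := by
  subst hS
  infer_instance

theorem subN_univ (R : Type) [Preorder R] : (subN (Set.univ : Set R)) = ⊤ := by
  ext n x
  exact ⟨fun _ => trivial, fun _ i => trivial⟩

theorem sub_one {R : Type} [PartialOrder R] (a : R) (n : SimplexCategoryᵒᵖ) :
    Subsingleton ((subN {a} : (NP R).Subcomplex).toSSet.obj n) := by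
  constructor
  rintro ⟨x, hx⟩ ⟨y, hy⟩
  apply Subtype.ext
  refine CategoryTheory.Functor.ext (fun i => ?_) (fun _ _ _ => Subsingleton.elim _ _)
  exact (hx i).trans (hy i).symm

end LTZ

theorem LTZ (h1 : Stmt_LTX) : Stmt_LTZ := by
  intro T R _
  have hU : IsIso (subN (Set.univ : Set R)).ι := LTZ.isIso_ι _ (LTZ.subN_univ R)
  have part : ∀ A : Set R, LTS T (subN A) (subN Set.univ) ↔ LT T (subN A).ι := by
    intro A
    constructor
    · rintro ⟨h, hh⟩
      refine h1 T _ _ _ _ _ _ (Iso.refl _) (asIso (subN (Set.univ : Set R)).ι) ?_ hh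
      rw [Iso.refl_hom, Category.id_comp]
      rfl
    · intro hh
      have h : subN A ≤ subN Set.univ := fun n x _ i => trivial
      refine ⟨h, ?_⟩
      refine h1 T _ _ _ _ _ _ (Iso.refl _) (asIso (subN (Set.univ : Set R)).ι).symm ?_ hh
      rw [Iso.refl_hom, Category.id_comp, Iso.symm_hom, asIso_inv, IsIso.eq_comp_inv]
      rfl
  refine ⟨part, ?_⟩
  rintro ⟨x, hx⟩
  refine ⟨x.obj 0, trivial, ?_⟩
  rw [part]
  have hr : SSet.Subcomplex.range (vert x) ≤ subN {x.obj 0} := by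
    rw [vert, SSet.Subcomplex.range_eq_ofSimplex, SSet.Subcomplex.ofSimplex_le_iff]
    intro i
    have : i = 0 := Subsingleton.elim (α := Fin 1) _ _
    rw [this]
    rfl
  let v : (Δ[0] : SSet.{0}) ⟶ (subN {x.obj 0} : (NP R).Subcomplex).toSSet :=
    SSet.Subcomplex.lift (vert x) hr
  have hv : IsIso v := by
    rw [NatTrans.isIso_iff_isIso_app]
    intro n
    rw [isIso_iff_bijective]
    have := LTZ.sub_one (x.obj 0) n
    have h2 : Subsingleton (n.unop ⟶ ⦋0⦌) := inferInstance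
    have h3 : Subsingleton ((Δ[0] : SSet.{0}).obj n) :=
      SSet.stdSimplex.objEquiv.injective.subsingleton
    refine ⟨fun a b _ => Subsingleton.elim (α := (Δ[0] : SSet.{0}).obj n) a b, fun b =>
      ⟨SSet.stdSimplex.objEquiv.symm (SimplexCategory.const _ _ 0),
        Subsingleton.elim (α := (subN {x.obj 0} : (NP R).Subcomplex).toSSet.obj n) _ _⟩⟩
  refine h1 T _ _ _ _ _ _ (asIso v) (Iso.refl _) ?_ hx
  rw [Iso.refl_hom, Category.comp_id]
  rfl

end Pool.Agent.SH

end

end

section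

/-!
# MP_2d0b73_an: PART II, assembly (helper38)
-/

namespace Pool.Agent.SH

/-- The geometric half of PART II. -/
theorem partII_geo : Stmt_PARTII :=
  PARTII (GXM (GTW (GNX (GRF GSD (GCO GLI) GME) (GST GSD) (GCO GLI))) GLC GLE GLD) GWE

theorem ltH : Stmt_LTH := LTH LTE LTF LTG (LTY LTX) (LTZ LTX)
theorem ltC : Stmt_LTC := LTC LTB
theorem ltI : Stmt_LTI := LTI LTA ltC ltH
theorem ltJ : Stmt_LTJ := LTJ ltC LTD ltI
theorem ltK : Stmt_LTK := LTK LTA ltJ
theorem ltN : Stmt_LTN := LTN LTA ltH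
theorem ltO : Stmt_LTO := LTO LTA ltH ltI (LTY LTX) (LTZ LTX)
theorem ltP : Stmt_LTP := LTP LTR
theorem ltM : Stmt_LTM := LTM ltK (LTY LTX) (LTZ LTX)
theorem ltQ : Stmt_LTQ := LTQ LTG LTL

/-- The bridge from the target `T` to the essentiality predicate. -/
theorem partII_bridge : Stmt_BRIDGE := BRIDGE LTG LTL ltM ltN ltO ltP ltQ

/-- PART II: the infinite dimensional compactum with the extension property, from PART III. -/
theorem partII (h : Stmt_PARTIII) : Stmt_CPT := CPT partII_geo partII_bridge h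

end Pool.Agent.SH


end

section

/-!
LINK: from exactness of the polynomial valued complex to the final statement.
-/

namespace Pool.Agent.SHL

open Pool.Agent.SHS

/-- Precomposition on mapping spaces. -/
def pmap {Y Y' : SS} (φ : SS.Hom Y' Y) (V : SV) : SV.Hom (MapS Y V) (MapS Y' V) where
  f n := HV.pre (X := (SS.simplex n).prod Y') (Y := (SS.simplex n).prod Y)
    ⟨fun _ x => (x.1, φ.f _ x.2), fun a x => by
      show (x.1.comp a, φ.f _ (Y'.map a x.2)) = (x.1.comp a, Y.map a (φ.f _ x.2))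
      rw [φ.nat]⟩
  nat _ _ := rfl

theorem pmap_apply {Y Y' : SS} (φ : SS.Hom Y' Y) (V : SV) (t : ℕ) (F : (MapS Y V).X t) (n : ℕ)
    (a : Mor n t) (y : Y'.X n) : ((pmap φ V).f t F).1 n (a, y) = F.1 n (a, φ.f n y) := rfl

theorem preZ_val {Y Y' : SS} (φ : SS.Hom Y' Y) {V : SV} {t : ℕ} (z : ZM (MapS Y V) t) :
    (preZ φ z).1 = (pmap φ V).f t z.1 := rfl

/-- projection and its inverse -/
def rho : SS.Hom (BB.pow 1) BB := BB.proj 1 0

def sig : SS.Hom BB (BB.pow 1) := ⟨fun _ x => fun _ => x, fun _ _ => rfl⟩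

/-- the base point of `BB.pow 1` -/
def b0 : SS.Hom (SS.simplex 0) (BB.pow 1) := ⟨fun _ _ => fun _ => 0, fun {m n} a _ => by
  funext i
  exact (map_zero ((SV.const k).bar.map a)).symm⟩

/-- the map to the point -/
def ptm (Y : SS) : SS.Hom Y (SS.simplex 0) := ⟨fun _ _ => cst 0, fun _ _ => rfl⟩

/-- the constant map of `BB` -/
def kz0 : SS.Hom BB BB := ⟨fun _ _ => 0, fun {m n} a _ => (map_zero ((SV.const k).bar.map a)).symm⟩

theorem simplex_zero_sub (n : ℕ) : Subsingleton ((SS.simplex 0).X n) :=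
  ⟨fun a b => by
    apply mor_ext
    intro i
    have := (a i).2
    have := (b i).2
    omega⟩

theorem simplex_zero_ne (n : ℕ) : Nonempty ((SS.simplex 0).X n) := ⟨cst 0⟩

theorem simplex_zero_LF : (SS.simplex 0).LF := by
  intro n
  have := simplex_zero_sub n
  exact Finite.of_subsingleton

theorem PB_of_BM {V : SV} {t : ℕ} {z : (MapS BB V).X t} (hp : z ∈ PT V t)
    (hb : z ∈ BM (MapS BB V) t) : PB V t z := by
  obtain ⟨w, h1, h2⟩ := hb
  have hk : ∀ i : Fin (t + 2), (MapS BB V).map (cof i) ((pmap kz0 V).f (t + 1) w) =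
      (pmap kz0 V).f t ((MapS BB V).map (cof i) w) := fun i => rfl
  refine ⟨w + (pmap kz0 V).f (t + 1) w, ?_, ?_, ?_⟩
  · intro r a
    show w.1 r (a, 0) + w.1 r (a, 0) = 0
    exact mod_two _
  · rw [map_add, hk, h1]
    have h3 : (pmap kz0 V).f t z = 0 := by
      apply HV.ext
      rintro n ⟨a, g⟩
      exact hp n a
    rw [h3, add_zero]
  · intro i hi
    rw [map_add, hk, h2 i hi, map_zero, add_zero]

theorem cf_pmap (C : CSV) (s : ℕ) {Y Y' : SS} (φ : SS.Hom Y' Y) {t : ℕ}
    (z : (MapS Y (C.V s)).X t) :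
    C.cf s ((pmap φ (C.V s)).f t z) = (pmap φ (C.V (s + 1))).f t (C.cf s z) := by
  apply HV.ext
  rintro n ⟨a, y⟩
  unfold CSV.cf
  rw [HV.sum_apply]
  show _ = (∑ i : Fin (s + 2), HV.app (C.op (cof i)) z : HV ((SS.simplex t).prod Y) (C.V (s + 1))).1 n
    (a, φ.f n y)
  rw [HV.sum_apply]
  rfl

theorem cf_PT (C : CSV) (s : ℕ) {t : ℕ} {z : (MapS BB (C.V s)).X t} (hz : z ∈ PT (C.V s) t) :
    C.cf s z ∈ PT (C.V (s + 1)) t := by
  intro r a
  unfold CSV.cf
  rw [HV.sum_apply]
  apply Finset.sum_eq_zero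
  intro i _
  show (C.op (cof i)).f r (z.1 r (a, 0)) = 0
  rw [hz r a]
  exact C.op_zero (cof i) r

theorem BM_pmap {Y Y' : SS} (φ : SS.Hom Y' Y) {V : SV} {t : ℕ} {z : (MapS Y V).X t}
    (hz : z ∈ BM (MapS Y V) t) : (pmap φ V).f t z ∈ BM (MapS Y' V) t :=
  BM_app (pmap φ V).toSS (fun n => map_zero ((pmap φ V).f n)) hz

theorem Base.Ph_zero' (B : Base) {Y : SS} {V : SV} {t : ℕ} {j : ℕ} (x : XL V j) :
    Ph (0 : ZM (MapS Y V) t) x.1 = 0 :=
  Ph_zero x.1 (B.zm0 _ V x.1 (B.lc_mem x).1)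

/-- the coefficient of degree `t` of a pointed Moore cycle vanishes -/
theorem Base.PhE_top (B : Base) {V : SV} {t : ℕ} (ht : 1 ≤ t) (z : ZM (MapS (BB.pow 1) V) t)
    (hz : preZ b0 z = 0) : (PhE z).1 t = 0 := by
  apply LinearMap.ext
  intro x
  have h1 : ((PhE z).1 t x).IsHomogeneous 0 := by
    have := SHU.ES_hom (PhE z) (le_refl t) x
    rwa [Nat.sub_self] at this
  obtain ⟨r, hr⟩ : ∃ r : k, (PhE z).1 t x = MvPolynomial.C r := by
    have h2 := (MvPolynomial.totalDegree_zero_iff_isHomogeneous _).2 h1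
    rw [MvPolynomial.totalDegree_eq_zero_iff_eq_C] at h2
    exact ⟨_, h2⟩
  have h3 := B.phy t ht (BB.pow 1) (SS.simplex 0) (B.bbf 1).1 simplex_zero_LF b0 V z x.1
    (B.lc_mem x).1
  rw [hz, B.Ph_zero' x, ← B.evB_PhE ht z t x, hr] at h3
  have h4 : H.map b0 (evB 1 (MvPolynomial.C r)) = r • (1 : H (SS.simplex 0)) := by
    unfold evB
    rw [MvPolynomial.aeval_C, AlgHom.commutes, Algebra.algebraMap_eq_smul_one]
  rw [h4] at h3
  have h5 : r = 0 := by
    by_contra hne
    rcases smul_eq_zero.1 h3.symm with h | h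
    · exact hne h
    · exact Pow.one_ne (X := SS.simplex 0) (cst 0) h
  rw [hr, h5, map_zero]
  rfl

/-- converse direction -/
theorem Base.Ph_pt (B : Base) {V : SV} {t : ℕ} (ht : 1 ≤ t) (z : ZM (MapS (BB.pow 1) V) t)
    (hz : (PhE z).1 t = 0) {j : ℕ} (x : XL V j) : Ph (preZ b0 z) x.1 = 0 := by
  have h1 := B.Ph_deg ht simplex_zero_LF (preZ b0 z) x
  rcases Nat.lt_trichotomy j t with h | h | h
  · exact h1.1 h
  · subst h
    rw [B.phy j ht (BB.pow 1) (SS.simplex 0) (B.bbf 1).1 simplex_zero_LF b0 V z x.1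
      (B.lc_mem x).1, ← B.evB_PhE ht z j x, hz, LinearMap.zero_apply, map_zero, map_zero]
  · have h2 := h1.2 (le_of_lt h)
    rcases Pow.point simplex_zero_sub simplex_zero_ne (j - t) _ h2 with h3 | h3
    · omega
    · exact h3

theorem Base.final (B : Base) (C : CSV)
    (hx : ∀ t, 1 ≤ t →
      (∀ z : SHU.ES (XL (C.V 0)) t 1, z.1 t = 0 → dlE C 0 t 1 z = 0 → z = 0) ∧
      ∀ s, ∀ z : SHU.ES (XL (C.V (s + 1))) t 1, z.1 t = 0 → dlE C (s + 1) t 1 z = 0 →
        ∃ y : SHU.ES (XL (C.V s)) t 1, y.1 t = 0 ∧ dlE C s t 1 y = z) : C.FINAL := by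
  intro t ht
  -- common part
  have common : ∀ (s : ℕ) (z : (MapS BB (C.V s)).X t) (hz : z ∈ ZM (MapS BB (C.V s)) t),
      z ∈ PT (C.V s) t → PB (C.V (s + 1)) t (C.cf s z) →
      (PhE (preZ rho ⟨z, hz⟩)).1 t = 0 ∧ dlE C s t 1 (PhE (preZ rho ⟨z, hz⟩)) = 0 := by
    intro s z hz hp hb
    constructor
    · apply B.PhE_top ht
      apply Subtype.ext
      apply HV.ext
      rintro n ⟨a, y⟩
      exact hp n a
    · rw [B.dlE_PhE C s t ht]
      apply B.PhE_zero ht
      rw [cfZ_val, preZ_val, cf_pmap]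
      apply BM_pmap
      obtain ⟨w, _, h1, h2⟩ := hb
      exact ⟨w, h1, h2⟩
  have back : ∀ (V : SV), V.LF → ∀ (z1 : ZM (MapS (BB.pow 1) V) t), PhE z1 = 0 →
      (pmap sig V).f t z1.1 ∈ BM (MapS BB V) t := by
    intro V hV z1 h
    apply BM_pmap
    have h1 : PhE (0 : ZM (MapS (BB.pow 1) V) t) = 0 :=
      B.PhE_zero ht 0 (Submodule.zero_mem _)
    have h2 := B.BM_of_PhE hV ht z1 0 (by rw [h, h1])
    have h3 : z1.1 + (0 : ZM (MapS (BB.pow 1) V) t).1 = z1.1 := add_zero _
    rwa [h3] at h2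
  constructor
  · intro z hz hp hb
    obtain ⟨h1, h2⟩ := common 0 z hz hp hb
    have h3 := (hx t ht).1 _ h1 h2
    exact PB_of_BM hp (back (C.V 0) (C.lf 0) _ h3)
  · intro s z hz hp hb
    obtain ⟨h1, h2⟩ := common (s + 1) z hz hp hb
    obtain ⟨y, hy, hye⟩ := (hx t ht).2 s _ h1 h2
    obtain ⟨w1, hw1, _⟩ := B.PhE_surj (C.lf s) ht y
    let w0 : ZM (MapS BB (C.V s)) t := preZ sig w1
    let w : ZM (MapS BB (C.V s)) t := w0 + preZ kz0 w0
    have hwP : w.1 ∈ PT (C.V s) t := by
      intro r a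
      show w0.1.1 r (a, 0) + w0.1.1 r (a, 0) = 0
      exact mod_two _
    have hq : PhE (preZ (ptm (BB.pow 1)) (preZ b0 w1)) = 0 := by
      apply B.PhE_ext ht
      intro j x
      rw [B.phy t ht (SS.simplex 0) (BB.pow 1) simplex_zero_LF (B.bbf 1).1 (ptm _) (C.V s) _ x.1
        (B.lc_mem x).1, B.Ph_pt ht w1 (by rw [hw1]; exact hy) x, map_zero]
      exact (map_zero (evB 1)).symm
    have hsplit : preZ rho w = w1 + preZ (ptm (BB.pow 1)) (preZ b0 w1) := by
      apply Subtype.ext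
      apply HV.ext
      rintro n ⟨a, g⟩
      show w1.1.1 n (a, fun _ => g 0) + w1.1.1 n (a, fun _ => 0) =
        w1.1.1 n (a, g) + w1.1.1 n (a, fun _ => 0)
      have e : (fun _ => g 0 : Fin 1 → BB.X n) = g := by
        funext i
        rw [Subsingleton.elim i 0]
      rw [e]
    have hPw : PhE (preZ rho w) = y := by
      rw [hsplit, B.PhE_add ht, hq, add_zero, hw1]
    refine ⟨w.1, w.2, hwP, ?_⟩
    have h3 : PhE (preZ rho ⟨z, hz⟩ + cfZ C s (preZ rho w)) = 0 := by
      rw [B.PhE_add ht, ← B.dlE_PhE C s t ht, hPw, hye]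
      exact ES_two _
    have h4 := back (C.V (s + 1)) (C.lf (s + 1)) _ h3
    apply PB_of_BM
    · exact Submodule.add_mem _ hp (cf_PT C s hwP)
    · have h5 : (pmap sig (C.V (s + 1))).f t (preZ rho ⟨z, hz⟩ + cfZ C s (preZ rho w)).1 =
          z + C.cf s w.1 := by
        have h6 : (preZ rho ⟨z, hz⟩ + cfZ C s (preZ rho w) : ZM (MapS (BB.pow 1) (C.V (s + 1))) t).1
            = (preZ rho ⟨z, hz⟩ : ZM (MapS (BB.pow 1) (C.V (s + 1))) t).1
              + (cfZ C s (preZ rho w)).1 := rfl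
        rw [h6, map_add, cfZ_val, preZ_val, preZ_val, ← cf_pmap]
        rfl
      rw [h5] at h4
      exact h4

end Pool.Agent.SHL


end

section

/-!
LINK: the homogeneous basis of the cohomology of the spheres (EPSHB).
-/

namespace Pool.Agent.SHL

open Pool.Agent.SHS

namespace Epshb

theorem not_surj {n t : ℕ} (h : n < t) (a : Mor n t) : ¬ Function.Surjective a := by
  intro hs
  have h1 := Fintype.card_le_of_surjective a hs
  rw [Fintype.card_fin, Fintype.card_fin] at h1
  omega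

theorem eq_none {n t : ℕ} (h : n < t) (x : (Sph t).X n) : x = none := by
  cases x with
  | none => rfl
  | some a => exact absurd a.2 (not_surj h a.1)

/-- The fundamental simplex of the sphere. -/
def xt (t : ℕ) : (Sph t).X t := some ⟨OrderHom.id, fun y => ⟨y, rfl⟩⟩

theorem self_cases {t : ℕ} (x : (Sph t).X t) : x = none ∨ x = xt t := by
  cases x with
  | none => exact Or.inl rfl
  | some a =>
    right
    unfold xt
    congr 1
    apply Subtype.ext
    have hinj : Function.Injective a.1 := Finite.injective_iff_surjective.mpr a.2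
    have hs : StrictMono a.1 := a.1.monotone.strictMono_of_injective hinj
    have h1 : (a.1 : Fin (t + 1) → Fin (t + 1)) = id := by
      rw [← hs.range_inj strictMono_id, a.2.range_eq, Set.range_id]
    apply OrderHom.ext
    exact h1

/-- A monotone map which is not injective takes two consecutive equal values. -/
theorem consec {m t : ℕ} (a : Mor (m + 1) t) (h : ¬ Function.Injective a) :
    ∃ i : Fin (m + 1), a i.castSucc = a i.succ := by
  by_contra hc
  apply h
  have hs : StrictMono a := by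
    rw [Fin.strictMono_iff_lt_succ]
    intro i
    refine lt_of_le_of_ne (a.monotone (Fin.castSucc_lt_succ).le) fun h1 => hc ⟨i, h1⟩
  exact hs.injective

theorem degen {m t : ℕ} (h : t < m + 1) (x : (Sph t).X (m + 1)) :
    ∃ (i : Fin (m + 1)) (y : (Sph t).X m), (Sph t).map (cod i) y = x := by
  cases x with
  | none => exact ⟨0, none, rfl⟩
  | some a =>
    have hni : ¬ Function.Injective a.1 := by
      intro hi
      have h1 := Fintype.card_le_of_injective a.1 hi
      rw [Fintype.card_fin, Fintype.card_fin] at h1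
      omega
    obtain ⟨i, hi⟩ := consec a.1 hni
    have h1 : (a.1.comp (cof i.castSucc)).comp (cod i) = a.1 := by
      apply OrderHom.ext
      funext j
      show a.1 ((i.castSucc).succAbove (i.predAbove j)) = a.1 j
      by_cases h : j = i.castSucc
      · rw [h, Fin.predAbove_castSucc_self, Fin.succAbove_castSucc_self]
        exact hi.symm
      · rw [Fin.succAbove_predAbove h]
    have hs : Function.Surjective (a.1.comp (cof i.castSucc)) := by
      intro y
      obtain ⟨j, hj⟩ := a.2 y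
      refine ⟨cod i j, ?_⟩
      have := congrArg (fun f : Mor (m + 1) t => f j) h1
      exact (this.trans hj)
    refine ⟨i, some ⟨a.1.comp (cof i.castSucc), hs⟩, ?_⟩
    have h2 : Function.Surjective ((a.1.comp (cof i.castSucc)).comp (cod i)) := by
      rw [h1]
      exact a.2
    show (PS.sphere t).map (cod i) ⟨a.1.comp (cof i.castSucc), hs⟩ = some a
    rw [sphere_map_pos (cod i) ⟨a.1.comp (cof i.castSucc), hs⟩ h2]
    congr 1
    apply Subtype.ext
    exact h1

/-- `eps` as a class. -/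
theorem eps_eq (he : EPS_Stmt) (t : ℕ) : eps t = clsN t (epsC t) (he t) := dif_pos (he t)

theorem eps_mem (he : EPS_Stmt) (t : ℕ) : eps t ∈ Hn (Sph t) t := by
  rw [eps_eq he]
  exact clsN_mem _ _ _

theorem eps_ne (he : EPS_Stmt) {t : ℕ} (ht : 1 ≤ t) : eps t ≠ 0 := by
  intro h
  rw [eps_eq he, clsN_eq_zero] at h
  obtain ⟨s, rfl⟩ : ∃ s, t = s + 1 := ⟨t - 1, by omega⟩
  have h0 : epsC (s + 1) ∈ LinearMap.range ((Sph (s + 1)).cm.delta s) := h
  obtain ⟨v, hv⟩ := h0
  have h1 : ∀ x : (Sph (s + 1)).X (s + 1), epsC (s + 1) x = ∑ _i : Fin (s + 2), v none := by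
    intro x
    rw [← hv, CM.delta_apply, Finset.sum_apply]
    refine Finset.sum_congr rfl fun i _ => ?_
    show v ((Sph (s + 1)).map (cof i) x) = v none
    rw [eq_none (Nat.lt_succ_self s) ((Sph (s + 1)).map (cof i) x)]
  have h2 : epsC (s + 1) (xt (s + 1)) = epsC (s + 1) none := by
    rw [h1, h1]
  exact one_ne_zero h2

theorem deg_zero {t : ℕ} (ht : 1 ≤ t) {a : H (Sph t)} (ha : a ∈ Hn (Sph t) 0) :
    ∃ c : k, a = c • (1 : H (Sph t)) := by
  obtain ⟨φ, h, rfl⟩ := exists_clsN ha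
  refine ⟨φ none, ?_⟩
  rw [← map_one cls, ← map_smul cls]
  unfold clsN
  congr 1
  apply Subtype.ext
  show Coch.single 0 φ = φ none • (1 : Coch (Sph t))
  ext m x
  rw [Coch.csmul_apply, Coch.cone_apply]
  by_cases hm : m = 0
  · subst hm
    rw [Coch.single_self, if_pos rfl, mul_one, eq_none ht x]
  · rw [Coch.single_ne hm, if_neg hm, mul_zero]

/-- Normalised representatives. -/
theorem exists_rep (hN : NORM_Stmt) {X : SS} {m : ℕ} {a : H X} (ha : a ∈ Hn X (m + 1)) :
    ∃ (ψ : X.X (m + 1) → k) (h : X.cm.delta (m + 1) ψ = 0), clsN (m + 1) ψ h = a ∧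
      ∀ (i : Fin (m + 1)) (y : X.X m), ψ (X.map (cod i) y) = 0 := by
  obtain ⟨φ, h, rfl⟩ := exists_clsN ha
  obtain ⟨v, hv⟩ := hN X.cm m φ (fun i => by rw [h, map_zero])
  have hd : X.cm.delta (m + 1) (X.cm.delta m v) = 0 := X.cm.cc.dd m v
  refine ⟨φ + X.cm.delta m v, by rw [map_add, h, hd, add_zero], ?_, ?_⟩
  · rw [clsN_add φ (X.cm.delta m v) h hd]
    have h1 : clsN (m + 1) (X.cm.delta m v) hd = 0 := by
      rw [clsN_eq_zero]
      exact ⟨v, rfl⟩
    rw [h1, add_zero]
  · intro i y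
    exact congrFun (hv i) y

theorem deg_ne (hN : NORM_Stmt) {t m : ℕ} (hm : m + 1 ≠ t) {a : H (Sph t)}
    (ha : a ∈ Hn (Sph t) (m + 1)) : a = 0 := by
  obtain ⟨ψ, h, rfl, hψ⟩ := exists_rep hN ha
  have h0 : ψ = 0 := by
    funext x
    rcases lt_or_gt_of_ne hm with h1 | h1
    · rw [eq_none h1 x]
      exact hψ 0 none
    · obtain ⟨i, y, rfl⟩ := degen h1 x
      exact hψ i y
  subst h0
  rw [clsN_eq_zero]
  exact Submodule.zero_mem _

theorem deg_self (hN : NORM_Stmt) (he : EPS_Stmt) {t : ℕ} (ht : 1 ≤ t) {a : H (Sph t)}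
    (ha : a ∈ Hn (Sph t) t) : ∃ c : k, a = c • eps t := by
  obtain ⟨m, rfl⟩ : ∃ m, t = m + 1 := ⟨t - 1, by omega⟩
  obtain ⟨ψ, h, rfl, hψ⟩ := exists_rep hN ha
  refine ⟨ψ (xt (m + 1)), ?_⟩
  rw [eps_eq he, ← clsN_smul]
  have h1 : ψ = ψ (xt (m + 1)) • epsC (m + 1) := by
    funext x
    show ψ x = ψ (xt (m + 1)) * epsC (m + 1) x
    rcases self_cases x with hx | hx
    · subst hx
      have h2 : ψ none = 0 := hψ 0 none
      have h3 : epsC (m + 1) none = 0 := rfl
      rw [h2, h3, mul_zero]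
    · subst hx
      have h3 : epsC (m + 1) (xt (m + 1)) = 1 := rfl
      rw [h3, mul_one]
  unfold clsN
  congr 1
  apply Subtype.ext
  show Coch.single (m + 1) ψ = Coch.single (m + 1) (ψ (xt (m + 1)) • epsC (m + 1))
  rw [← h1]

end Epshb

theorem EPSHB (hN : NORM_Stmt) (he : EPS_Stmt) : EPSHB_Stmt := by
  intro t ht
  have hm1 : eps t ∈ Hn (Sph t) t := Epshb.eps_mem he t
  have hm0 : (1 : H (Sph t)) ∈ Hn (Sph t) 0 := Hn_one
  have h1 : (1 : H (Sph t)) ≠ 0 := Pow.one_ne (X := Sph t) none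
  have h2 : eps t ≠ 0 := Epshb.eps_ne he ht
  have ht0 : t ≠ 0 := by omega
  refine ⟨?_, ?_, ?_⟩
  · intro b
    cases b with
    | false => exact hm0
    | true => exact hm1
  · rw [Fintype.linearIndependent_iff]
    intro g hg
    rw [Fintype.sum_bool] at hg
    have h3 : g true • eps t + g false • (1 : H (Sph t)) = 0 := hg
    have h4 := congrArg (Hpr 0) h3
    have h5 := congrArg (Hpr t) h3
    rw [map_add, map_smul, map_smul, map_zero, Hpr_ne ht0 hm1, Hpr_eq hm0, smul_zero,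
      zero_add] at h4
    rw [map_add, map_smul, map_smul, map_zero, Hpr_eq hm1, Hpr_ne (Ne.symm ht0) hm0, smul_zero,
      add_zero] at h5
    intro b
    cases b with
    | false => exact (smul_eq_zero.1 h4).resolve_right h1
    | true => exact (smul_eq_zero.1 h5).resolve_right h2
  · intro n a ha
    cases n with
    | zero =>
      obtain ⟨c, rfl⟩ := Epshb.deg_zero ht ha
      exact Submodule.smul_mem _ _ (Submodule.subset_span ⟨false, rfl, rfl⟩)
    | succ m =>
      by_cases hmt : m + 1 = t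
      · rw [hmt] at ha
        obtain ⟨c, rfl⟩ := Epshb.deg_self hN he ht ha
        exact Submodule.smul_mem _ _ (Submodule.subset_span ⟨true, hmt.symm, rfl⟩)
      · rw [Epshb.deg_ne hN hmt ha]
        exact Submodule.zero_mem _

end Pool.Agent.SHL


end

section

/-!
LINK: the Kuenneth theorem for `S^t × Y`.
-/

namespace Pool.Agent.SHL

open Pool.Agent.SHS

namespace Skt

open Coch

/-- Components determine a class. -/
theorem sep {X : SS} (a : H X) (h : ∀ n, Hpr n a = 0) : a = 0 := by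
  obtain ⟨f, rfl⟩ := cls_surjective a
  have h1 : ∀ n, ∃ g : Coch X, dlt g = prn n f.1 := by
    intro n
    have h2 := h n
    rw [Hpr_cls, cls_eq_zero] at h2
    exact h2
  choose g hg using h1
  rw [cls_eq_zero]
  refine ⟨⟨fun m x => g (m + 1) m x⟩, ?_⟩
  ext m x
  cases m with
  | zero =>
    have h3 := congrArg (fun F : Coch X => F 0 x) (hg 0)
    simp only [dlt_zero, prn_apply, if_true] at h3
    rw [dlt_zero]
    exact h3
  | succ m =>
    have h3 := congrArg (fun F : Coch X => F (m + 1) x) (hg (m + 1))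
    simp only [prn_apply, if_true] at h3
    rw [← h3, dlt_succ, dlt_succ]

theorem sep' {X : SS} (a b : H X) (h : ∀ n, Hpr n a = Hpr n b) : a = b := by
  apply sub_eq_zero.mp
  apply sep
  intro n
  rw [map_sub, h n, sub_self]

/-- Homogeneous classes can be put together. -/
theorem glue {X : SS} (b : ℕ → H X) (hb : ∀ n, b n ∈ Hn X n) : ∃ a : H X, ∀ n, Hpr n a = b n := by
  have h1 : ∀ n, ∃ f : Cocyc X, f.1 ∈ CochD X n ∧ cls f = b n := fun n => mem_Hn.mp (hb n)
  choose f hf hfb using h1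
  have hd : dlt (⟨fun m x => (f m).1 m x⟩ : Coch X) = 0 := by
    ext m x
    cases m with
    | zero => rfl
    | succ m =>
      have h2 : dlt (f m).1 = 0 := (f m).2
      have h3 := congrArg (fun F : Coch X => F (m + 1) x) h2
      simp only [dlt_succ] at h3
      rw [dlt_succ]
      exact h3
  refine ⟨cls ⟨⟨fun m x => (f m).1 m x⟩, hd⟩, ?_⟩
  intro n
  rw [Hpr_cls, ← hfb n]
  congr 1
  apply Subtype.ext
  ext m x
  rw [prn_apply]
  split_ifs with h
  · subst h
    rfl
  · exact (hf n m h x).symm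

/-- Multiplication with a cochain of degree `t` and components. -/
theorem prn_mul {X : SS} {t : ℕ} {E : Coch X} (hE : E ∈ CochD X t) (F : Coch X) (n : ℕ) :
    prn (n + t) (E * F) = E * prn n F := by
  ext m x
  rw [prn_apply, cmul_apply, cmul_apply]
  split_ifs with h
  · apply Finset.sum_congr rfl
    rintro ⟨p, q⟩ hpq
    simp only [Finset.HasAntidiagonal.mem_antidiagonal] at hpq
    simp only
    by_cases hp : p = t
    · have hq : q = n := by omega
      rw [prn_apply, if_pos hq]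
    · rw [hE p hp, zero_mul, zero_mul]
  · symm
    apply Finset.sum_eq_zero
    rintro ⟨p, q⟩ hpq
    simp only [Finset.HasAntidiagonal.mem_antidiagonal] at hpq
    simp only
    by_cases hp : p = t
    · have hq : q ≠ n := by omega
      rw [prn_apply, if_neg hq, mul_zero]
    · rw [hE p hp, zero_mul]

theorem prn_mul_lt {X : SS} {t : ℕ} {E : Coch X} (hE : E ∈ CochD X t) (F : Coch X) {n : ℕ}
    (hn : n < t) : prn n (E * F) = 0 := by
  ext m x
  rw [prn_apply, cmul_apply]
  split_ifs with h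
  · apply Finset.sum_eq_zero
    rintro ⟨p, q⟩ hpq
    simp only [Finset.HasAntidiagonal.mem_antidiagonal] at hpq
    simp only
    rw [hE p (by omega), zero_mul]
  · rfl

theorem Hpr_mul {X : SS} {t : ℕ} {e : H X} (he : e ∈ Hn X t) (b : H X) (n : ℕ) :
    Hpr (n + t) (e * b) = e * Hpr n b := by
  obtain ⟨E, hE, rfl⟩ := mem_Hn.mp he
  obtain ⟨F, rfl⟩ := cls_surjective b
  rw [← map_mul, Hpr_cls, Hpr_cls, ← map_mul]
  congr 1
  apply Subtype.ext
  exact prn_mul hE F.1 n

theorem Hpr_mul_lt {X : SS} {t : ℕ} {e : H X} (he : e ∈ Hn X t) (b : H X) {n : ℕ} (hn : n < t) :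
    Hpr n (e * b) = 0 := by
  obtain ⟨E, hE, rfl⟩ := mem_Hn.mp he
  obtain ⟨F, rfl⟩ := cls_surjective b
  rw [← map_mul, Hpr_cls, cls_eq_zero]
  refine ⟨0, ?_⟩
  rw [map_zero]
  exact (prn_mul_lt hE F.1 hn).symm

theorem Hpr_mulE {t : ℕ} {Y : SS} (he : eps t ∈ Hn (Sph t) t) (b : H Y) (n : ℕ) :
    Hpr (n + t) (mulE t Y b) = mulE t Y (Hpr n b) := by
  rw [mulE_apply, mulE_apply, Hpr_mul (H.map_mem _ he), Hpr_map]

theorem Hpr_mulE_lt {t : ℕ} {Y : SS} (he : eps t ∈ Hn (Sph t) t) (b : H Y) {n : ℕ} (hn : n < t) :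
    Hpr n (mulE t Y b) = 0 := by
  rw [mulE_apply, Hpr_mul_lt (H.map_mem _ he) _ hn]

/-- The fundamental class vanishes at the base point. -/
theorem bpt_eps (t : ℕ) (Y : SS) : H.map ((SS.fst (Sph t) Y).comp (bpt t Y)) (eps t) = 0 := by
  unfold eps
  split_ifs with h
  · unfold clsN
    rw [H.map_cls, cls_eq_zero]
    refine ⟨0, ?_⟩
    rw [map_zero]
    ext m x
    show (0 : k) = single t (epsC t) m none
    by_cases hm : m = t
    · subst hm
      rw [single_self]
      rfl
    · rw [single_ne hm]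
  · rw [map_zero]

theorem bpt_mulE (t : ℕ) (Y : SS) (b : H Y) : H.map (bpt t Y) (mulE t Y b) = 0 := by
  rw [mulE_apply, map_mul, ← H.map_comp, bpt_eps, zero_mul]

theorem bpt_snd (t : ℕ) (Y : SS) (b : H Y) :
    H.map (bpt t Y) (H.map (SS.snd (Sph t) Y) b) = b := by
  rw [← H.map_comp]
  exact H.map_id b

/-- Every homogeneous class of `S^t × Y` is the sum of two terms. -/
theorem split {t : ℕ} {Y : SS} {J : Type} {dj : J → ℕ} {c : J → H Y}
    (hP : HB ((Sph t).prod Y) (fun p : Bool × J => (if p.1 then t else 0) + dj p.2)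
      (fun p => H.map (SS.fst (Sph t) Y) (if p.1 then eps t else 1) *
        H.map (SS.snd (Sph t) Y) (c p.2))) {n : ℕ} {x : H ((Sph t).prod Y)}
    (hx : x ∈ Hn ((Sph t).prod Y) n) :
    ∃ u v : H Y, x = mulE t Y u + H.map (SS.snd (Sph t) Y) v := by
  have h := hP.span n hx
  refine Submodule.span_induction (p := fun x _ => ∃ u v : H Y,
    x = mulE t Y u + H.map (SS.snd (Sph t) Y) v) ?_ ?_ ?_ ?_ h
  · rintro _ ⟨⟨i, j⟩, _, rfl⟩
    cases i with
    | true =>
      refine ⟨c j, 0, ?_⟩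
      rw [map_zero, add_zero, mulE_apply]
      rfl
    | false =>
      refine ⟨0, c j, ?_⟩
      rw [map_zero, zero_add]
      show H.map (SS.fst (Sph t) Y) 1 * H.map (SS.snd (Sph t) Y) (c j) = _
      rw [map_one, one_mul]
  · exact ⟨0, 0, by rw [map_zero, map_zero, add_zero]⟩
  · rintro x y _ _ ⟨u, v, rfl⟩ ⟨u', v', rfl⟩
    exact ⟨u + u', v + v', by rw [map_add, map_add]; abel⟩
  · rintro a x _ ⟨u, v, rfl⟩
    exact ⟨a • u, a • v, by rw [map_smul, map_smul, smul_add]⟩

theorem inj_hom {t : ℕ} {Y : SS} {J : Type} {dj : J → ℕ} {c : J → H Y} (hc : HB Y dj c)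
    (hP : HB ((Sph t).prod Y) (fun p : Bool × J => (if p.1 then t else 0) + dj p.2)
      (fun p => H.map (SS.fst (Sph t) Y) (if p.1 then eps t else 1) *
        H.map (SS.snd (Sph t) Y) (c p.2))) {n : ℕ} {b : H Y} (hb : b ∈ Hn Y n)
    (h0 : mulE t Y b = 0) : b = 0 := by
  have h1 : LinearIndependent k (fun j : J => mulE t Y (c j)) := by
    have h2 := hP.indep.comp (fun j : J => (true, j)) (fun a b h => (Prod.mk.inj h).2)
    exact h2
  have h3 : b ∈ Submodule.span k (Set.range c) :=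
    Submodule.span_mono (Set.image_subset_range _ _) (hc.span n hb)
  obtain ⟨l, rfl⟩ := (Finsupp.mem_span_range_iff_exists_finsupp).1 h3
  have h4 : (l.sum fun i a => a • mulE t Y (c i)) = 0 := by
    rw [← h0, map_finsuppSum]
    exact Finsupp.sum_congr fun i _ => (map_smul _ _ _).symm
  rw [linearIndependent_iff] at h1
  have h5 := h1 l (by rw [Finsupp.linearCombination_apply]; exact h4)
  rw [h5, Finsupp.sum_zero_index]

end Skt

open Skt in
theorem SKT (hk : KUN_Stmt) (hb : HBE_Stmt) (hf : SPHF_Stmt) (he : EPSHB_Stmt) : SKT_Stmt := by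
  intro t ht Y hY
  obtain ⟨J, dj, c, hc⟩ := hb Y
  have hE := he t ht
  have hP := hk (Sph t) Y (hf t) hY _ _ _ _ hE hc
  have hm : eps t ∈ Hn (Sph t) t := hE.mem true
  have hinj : ∀ b, mulE t Y b = 0 → b = 0 := by
    intro b h0
    apply sep
    intro n
    refine inj_hom hc hP (Hpr_mem n b) ?_
    rw [← Hpr_mulE hm, h0, map_zero]
  refine ⟨?_, ?_, ?_, ?_⟩
  · intro b b' h
    apply sub_eq_zero.mp
    apply hinj
    rw [map_sub, h, sub_self]
  · intro x hx
    have h1 : ∀ n, ∃ u, Hpr n x = mulE t Y u := by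
      intro n
      obtain ⟨u, v, h2⟩ := split hP (Hpr_mem n x)
      have h3 : H.map (bpt t Y) (Hpr n x) = v := by
        rw [h2, map_add, bpt_mulE, bpt_snd, zero_add]
      rw [← Hpr_map, hx, map_zero] at h3
      refine ⟨u, ?_⟩
      rw [h2, ← h3, map_zero, add_zero]
    choose u hu using h1
    obtain ⟨b, hb'⟩ := glue (fun m => Hpr m (u (m + t))) (fun m => Hpr_mem m _)
    refine ⟨b, ?_⟩
    apply sep'
    intro n
    by_cases hn : n < t
    · rw [Hpr_mulE_lt hm b hn]
      have h4 := Hpr_eq (Hpr_mem n x)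
      rw [hu n, Hpr_mulE_lt hm _ hn] at h4
      rw [hu n]
      exact h4
    · obtain ⟨m, rfl⟩ : ∃ m, n = m + t := ⟨n - t, by omega⟩
      rw [Hpr_mulE hm, hb' m, ← Hpr_mulE hm, ← hu (m + t)]
      exact Hpr_eq (Hpr_mem _ x)
  · intro n b h
    have h1 : ∀ m, m ≠ n → Hpr m b = 0 := by
      intro m hmn
      apply hinj
      rw [← Hpr_mulE hm]
      exact Hpr_ne (by omega) h
    have h2 : b = Hpr n b := by
      apply sep'
      intro m
      by_cases hmn : m = n
      · subst hmn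
        exact (Hpr_eq (Hpr_mem m b)).symm
      · rw [h1 m hmn, Hpr_ne (fun h => hmn h.symm) (Hpr_mem n b)]
    rw [h2]
    exact Hpr_mem n b
  · intro n b hn h
    apply sep
    intro m
    apply hinj
    rw [← Hpr_mulE hm]
    exact Hpr_ne (by omega) h

end Pool.Agent.SHL


end

section

/-!
LINK: comparison of the slant products in dimensions `t + 1` and `t`.
-/

namespace Pool.Agent.SHL

open Pool.Agent.SHS

namespace Phh

open Coch

/-- A surjective monotone map `[n] → [n]` is the identity. -/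
theorem val_of_surj {n : ℕ} (f : Mor n n) (h : Function.Surjective f) (i : Fin (n + 1)) :
    (f i : ℕ) = i.1 := by
  have hinj : Function.Injective f := Finite.injective_iff_surjective.mpr h
  have hmono : StrictMono f := f.monotone.strictMono_of_injective hinj
  let e : Fin (n + 1) ≃o Fin (n + 1) := StrictMono.orderIsoOfSurjective f hmono h
  have he : e = OrderIso.refl _ := Subsingleton.elim _ _
  have h1 : e i = i := by rw [he]; rfl
  have h2 : f i = i := h1
  rw [h2]

theorem joinF_val {n t : ℕ} (a : Mor n t) (e : Mor n 1) (v : Fin (n + 1)) :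
    ((joinF a e) v : ℕ) = if (a v).1 < t then (a v).1 else t + (e v).1 := rfl

theorem joinF_surj_iff {t : ℕ} (a : Mor (t + 1) t) (e : Mor (t + 1) 1) :
    Function.Surjective (joinF a e) ↔
      Function.Surjective (a.comp (fr t (t + 1))) ∧ Function.Surjective (e.comp (bk 1 (t + 1))) := by
  constructor
  · intro h
    have h1 := val_of_surj _ h
    have ha : ∀ v : Fin (t + 2), v.1 ≤ t → (a v).1 = v.1 := by
      intro v hv
      have h2 := h1 v
      rw [joinF_val] at h2
      have h3 := (a v).2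
      have h4 := (e v).2
      split_ifs at h2 <;> omega
    have he : ∀ v : Fin (t + 2), t ≤ v.1 → t + (e v).1 = v.1 := by
      intro v hv
      have h2 := h1 v
      rw [joinF_val] at h2
      split_ifs at h2 <;> omega
    constructor
    · intro i
      refine ⟨i, Fin.ext ?_⟩
      have hi := i.2
      have h2 : ((fr t (t + 1)) i : ℕ) = i.1 := by rw [fr_val]; omega
      show (a ((fr t (t + 1)) i)).1 = i.1
      rw [ha _ (by omega), h2]
    · intro i
      refine ⟨i, Fin.ext ?_⟩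
      have hi := i.2
      have h2 : ((bk 1 (t + 1)) i : ℕ) = t + i.1 := by rw [bk_val]; omega
      show (e ((bk 1 (t + 1)) i)).1 = i.1
      have h3 := he ((bk 1 (t + 1)) i) (by omega)
      omega
  · rintro ⟨ha, he⟩
    have ha1 := val_of_surj _ ha
    have he1 := val_of_surj _ he
    have ha2 : ∀ v : Fin (t + 2), v.1 ≤ t → (a v).1 = v.1 := by
      intro v hv
      have h1 := ha1 ⟨v.1, by omega⟩
      rw [comp_val] at h1
      have h2 : (fr t (t + 1)) ⟨v.1, by omega⟩ = v := Fin.ext (by rw [fr_val]; simp only; omega)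
      rw [h2] at h1
      exact h1
    have he2 : ∀ v : Fin (t + 2), t ≤ v.1 → t + (e v).1 = v.1 := by
      intro v hv
      have hv2 := v.2
      have h1 := he1 ⟨v.1 - t, by omega⟩
      rw [comp_val] at h1
      have h2 : (bk 1 (t + 1)) ⟨v.1 - t, by omega⟩ = v := Fin.ext (by rw [bk_val]; simp only; omega)
      rw [h2] at h1
      simp only at h1
      omega
    intro i
    refine ⟨i, Fin.ext ?_⟩
    rw [joinF_val]
    have hi := i.2
    by_cases h : i.1 ≤ t
    · have h1 := ha2 i h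
      split_ifs with h2
      · exact h1
      · have h3 : i.1 = t := by omega
        exact he2 i (by omega)
    · have h0 : t ≤ (a i).1 := by
        have h1 := ha2 ⟨t, by omega⟩ (by simp)
        have h2 : (a ⟨t, by omega⟩).1 ≤ (a i).1 := a.monotone (by
          show t ≤ i.1
          omega)
        rw [h1] at h2
        exact h2
      rw [if_neg (by omega)]
      exact he2 i (by omega)

open Classical in
/-- The function underlying `kap0`. -/
noncomputable def kapFun (t n : ℕ) : Option {a : Mor n t // Function.Surjective a} →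
    Option {a : Mor n 1 // Function.Surjective a} →
    Option {a : Mor n (t + 1) // Function.Surjective a}
  | none, _ => none
  | some _, none => none
  | some a, some e =>
    if h : Function.Surjective (joinF a.1 e.1) then some ⟨joinF a.1 e.1, h⟩ else none

theorem kapFun_none_right (t n : ℕ) (o : Option {a : Mor n t // Function.Surjective a}) :
    kapFun t n o none = none := by
  cases o <;> rfl

theorem kapFun_pos {t n : ℕ} (a : {a : Mor n t // Function.Surjective a})
    (e : {a : Mor n 1 // Function.Surjective a}) (h : Function.Surjective (joinF a.1 e.1)) :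
    kapFun t n (some a) (some e) = some ⟨joinF a.1 e.1, h⟩ := dif_pos h

theorem kapFun_neg {t n : ℕ} (a : {a : Mor n t // Function.Surjective a})
    (e : {a : Mor n 1 // Function.Surjective a}) (h : ¬ Function.Surjective (joinF a.1 e.1)) :
    kapFun t n (some a) (some e) = none := dif_neg h

/-- `S^t × S^1 → S^(t+1)`. -/
noncomputable def kap0 (t : ℕ) : SS.Hom ((Sph t).prod S1) (Sph (t + 1)) where
  f n x := kapFun t n x.1 x.2
  nat {m n} c x := by
    obtain ⟨o, o'⟩ := x
    cases o with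
    | none => rfl
    | some a =>
      cases o' with
      | none => exact kapFun_none_right t m _
      | some e =>
        show kapFun t m ((PS.sphere t).map c a) ((PS.sphere 1).map c e) =
          (kapFun t n (some a) (some e)).bind ((PS.sphere (t + 1)).map c)
        by_cases h : Function.Surjective ((joinF a.1 e.1).comp c)
        · have h0 : Function.Surjective (joinF (a.1.comp c) (e.1.comp c)) := h
          have h1 : Function.Surjective (a.1.comp c) := joinF_left _ _ h0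
          have h2 : Function.Surjective (e.1.comp c) := joinF_right _ _ h0
          have h3 : Function.Surjective (joinF a.1 e.1) := by
            intro i
            obtain ⟨v, hv⟩ := h i
            exact ⟨c v, hv⟩
          rw [sphere_map_pos c a h1, sphere_map_pos c e h2, kapFun_pos _ _ h3]
          show _ = (PS.sphere (t + 1)).map c ⟨joinF a.1 e.1, h3⟩
          rw [sphere_map_pos c ⟨joinF a.1 e.1, h3⟩ h]
          exact kapFun_pos ⟨a.1.comp c, h1⟩ ⟨e.1.comp c, h2⟩ h
        · have hl : kapFun t m ((PS.sphere t).map c a) ((PS.sphere 1).map c e) = none := by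
            by_cases h1 : Function.Surjective (a.1.comp c)
            · by_cases h2 : Function.Surjective (e.1.comp c)
              · rw [sphere_map_pos c a h1, sphere_map_pos c e h2]
                exact kapFun_neg ⟨a.1.comp c, h1⟩ ⟨e.1.comp c, h2⟩ h
              · rw [sphere_map_neg c e h2]
                exact kapFun_none_right t m _
            · rw [sphere_map_neg c a h1]
              rfl
          rw [hl]
          by_cases h3 : Function.Surjective (joinF a.1 e.1)
          · rw [kapFun_pos _ _ h3]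
            exact (sphere_map_neg c ⟨joinF a.1 e.1, h3⟩ h).symm
          · rw [kapFun_neg _ _ h3]
            rfl

/-- `S^t × (S^1 × Y) → S^(t+1) × Y`. -/
noncomputable def kap (t : ℕ) (Y : SS) :
    SS.Hom ((Sph t).prod (S1.prod Y)) ((Sph (t + 1)).prod Y) :=
  ((kap0 t).comp ((SS.fst (Sph t) (S1.prod Y)).pair
    ((SS.fst S1 Y).comp (SS.snd (Sph t) (S1.prod Y))))).pair
    ((SS.snd S1 Y).comp (SS.snd (Sph t) (S1.prod Y)))

theorem hom_eq {Y : SS} {V : SV} {t : ℕ} (z : ZM (MapS Y V) (t + 1)) :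
    HV.hom (sph (hh z)) = (HV.hom (sph z)).comp (kap t Y) := by
  have h : ∀ (n : ℕ) (x : ((Sph t).prod (S1.prod Y)).X n),
      (HV.hom (sph (hh z))).f n x = ((HV.hom (sph z)).comp (kap t Y)).f n x := by
    rintro n ⟨o, o', y⟩
    cases o with
    | none => rfl
    | some a =>
      cases o' with
      | none => rfl
      | some e =>
        show z.1.1 n (joinF a.1 e.1, y) = sphFun z.1 n (kapFun t n (some a) (some e), y)
        by_cases hs : Function.Surjective (joinF a.1 e.1)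
        · rw [kapFun_pos _ _ hs]
          rfl
        · rw [kapFun_neg _ _ hs]
          exact mem_ZM_val z.2 _ hs y
  have h' : (HV.hom (sph (hh z))).f = ((HV.hom (sph z)).comp (kap t Y)).f := by
    funext n x
    exact h n x
  cases hA : HV.hom (sph (hh z))
  cases hB : (HV.hom (sph z)).comp (kap t Y)
  rw [hA, hB] at h'
  cases h'
  rfl

theorem eps_eq (he : EPS_Stmt) (t : ℕ) : eps t = clsN t (epsC t) (he t) := by
  unfold eps
  rw [dif_pos (he t)]

theorem epsC_kap (t : ℕ) (x : ((Sph t).prod S1).X (t + 1)) :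
    epsC (t + 1) ((kap0 t).f (t + 1) x) =
      epsC t ((Sph t).map (fr t (t + 1)) x.1) * epsC 1 (S1.map (bk 1 (t + 1)) x.2) := by
  obtain ⟨o, o'⟩ := x
  cases o with
  | none => exact (zero_mul _).symm
  | some a =>
    cases o' with
    | none => exact (mul_zero _).symm
    | some e =>
      show epsC (t + 1) (kapFun t (t + 1) (some a) (some e)) =
        epsC t ((PS.sphere t).map (fr t (t + 1)) a) * epsC 1 ((PS.sphere 1).map (bk 1 (t + 1)) e)
      by_cases h : Function.Surjective (joinF a.1 e.1)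
      · obtain ⟨h1, h2⟩ := (joinF_surj_iff a.1 e.1).1 h
        rw [kapFun_pos _ _ h, sphere_map_pos _ a h1, sphere_map_pos _ e h2]
        exact (one_mul (1 : k)).symm
      · rw [kapFun_neg _ _ h]
        by_cases h1 : Function.Surjective (a.1.comp (fr t (t + 1)))
        · have h2 : ¬ Function.Surjective (e.1.comp (bk 1 (t + 1))) :=
            fun h2 => h ((joinF_surj_iff a.1 e.1).2 ⟨h1, h2⟩)
          rw [sphere_map_neg _ e h2]
          exact (mul_zero _).symm
        · rw [sphere_map_neg _ a h1]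
          exact (zero_mul _).symm

theorem map_kap0 (he : EPS_Stmt) (t : ℕ) :
    H.map (kap0 t) (eps (t + 1)) =
      H.map (SS.fst (Sph t) S1) (eps t) * H.map (SS.snd (Sph t) S1) (eps 1) := by
  rw [eps_eq he (t + 1), eps_eq he t, eps_eq he 1]
  unfold clsN
  rw [H.map_cls, H.map_cls, H.map_cls, ← map_mul]
  congr 1
  apply Subtype.ext
  show Coch.pull (kap0 t) (single (t + 1) (epsC (t + 1))) =
    Coch.pull (SS.fst (Sph t) S1) (single t (epsC t)) *
      Coch.pull (SS.snd (Sph t) S1) (single 1 (epsC 1))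
  rw [Kun.cross_single t 1 (t + 1) rfl]
  ext n x
  rw [pull_apply]
  by_cases hn : n = t + 1
  · subst hn
    rw [single_self, single_self]
    exact epsC_kap t x
  · rw [single_ne hn, single_ne hn]

end Phh

open Phh in
theorem PHH (h1 : PH1_Stmt) (hs : SKT_Stmt) (he : EPS_Stmt) (hf : SPHF_Stmt) : PHH_Stmt := by
  intro t ht Y hY V z a ha
  have hSY : (S1.prod Y).LF := by
    intro n
    have i1 : Finite (S1.X n) := hf 1 n
    have i2 : Finite (Y.X n) := hY n
    show Finite (S1.X n × Y.X n)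
    infer_instance
  apply (hs t ht (S1.prod Y) hSY).1
  rw [(h1 t ht (S1.prod Y) hSY V (hh z)).1 a ha, hom_eq, H.map_comp,
    ← (h1 (t + 1) (by omega) Y hY V z).1 a ha, mulE_apply, mulE_apply, mulE_apply, map_mul, map_mul,
    ← mul_assoc]
  have e1 : H.map (kap t Y) (H.map (SS.fst (Sph (t + 1)) Y) (eps (t + 1))) =
      H.map (SS.fst (Sph t) (S1.prod Y)) (eps t) *
        H.map (SS.snd (Sph t) (S1.prod Y)) (H.map (SS.fst S1 Y) (eps 1)) := by
    have e2 : H.map (kap t Y) (H.map (SS.fst (Sph (t + 1)) Y) (eps (t + 1))) =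
        H.map ((SS.fst (Sph t) (S1.prod Y)).pair
          ((SS.fst S1 Y).comp (SS.snd (Sph t) (S1.prod Y)))) (H.map (kap0 t) (eps (t + 1))) := by
      rw [← H.map_comp, ← H.map_comp]
      rfl
    rw [e2, map_kap0 he, map_mul, ← H.map_comp, ← H.map_comp, ← H.map_comp]
    rfl
  have e3 : H.map (kap t Y) (H.map (SS.snd (Sph (t + 1)) Y) (Ph z a)) =
      H.map (SS.snd (Sph t) (S1.prod Y)) (H.map (SS.snd S1 Y) (Ph z a)) := by
    rw [← H.map_comp, ← H.map_comp]
    rfl
  rw [e1, e3]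

end Pool.Agent.SHL


end

section

/-!
LINK: a Moore cycle of Map(Y, EM n) with vanishing class is a Moore boundary.
-/

namespace Pool.Agent.SHL.Cem

open Pool.Agent.SHS Pool.Agent.SHS.Norm

/-! ### Normalised elements -/

/-- a non injective monotone map factors through a codegeneracy -/
theorem factor_cd {m q : ℕ} (s : Mor (m + 1) q) (hs : ¬ Function.Injective s) :
    ∃ (j : ℕ) (s' : Mor m q), j ≤ m ∧ s = s'.comp (cd m j) := by
  have h : ∃ a b : Fin (m + 2), a < b ∧ s a = s b := by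
    by_contra hc
    push Not at hc
    apply hs
    intro a b hab
    rcases lt_trichotomy a b with h | h | h
    · exact absurd hab (hc a b h)
    · exact h
    · exact absurd hab.symm (hc b a h)
  obtain ⟨a, b, hab, he⟩ := h
  have hab' : a.1 < b.1 := hab
  have hb := b.2
  have h1 : s ⟨a.1 + 1, by omega⟩ = s a := by
    apply le_antisymm
    · rw [he]
      apply s.monotone
      show a.1 + 1 ≤ b.1
      omega
    · apply s.monotone
      show a.1 ≤ a.1 + 1
      omega
  refine ⟨a.1, s.comp (cf m a.1), by omega, ?_⟩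
  apply OrderHom.ext
  funext x
  show s x = s (cf m a.1 (cd m a.1 x))
  have hx := x.2
  by_cases hxa : x = a
  · subst hxa
    have e : cf m x.1 (cd m x.1 x) = ⟨x.1 + 1, by omega⟩ := by
      apply Fin.ext
      show (if (if x.1 ≤ x.1 then min x.1 m else x.1 - 1) < x.1
        then (if x.1 ≤ x.1 then min x.1 m else x.1 - 1)
        else (if x.1 ≤ x.1 then min x.1 m else x.1 - 1) + 1) = x.1 + 1
      split_ifs <;> omega
    rw [e, h1]
  · have hxa' : x.1 ≠ a.1 := fun h => hxa (Fin.ext h)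
    have e : cf m a.1 (cd m a.1 x) = x := by
      apply Fin.ext
      show (if (if x.1 ≤ a.1 then min x.1 m else x.1 - 1) < a.1
        then (if x.1 ≤ a.1 then min x.1 m else x.1 - 1)
        else (if x.1 ≤ a.1 then min x.1 m else x.1 - 1) + 1) = x.1
      split_ifs <;> omega
    rw [e]

/-- normalised elements -/
def Nd (M : CM) (m : ℕ) (x : M.X m) : Prop :=
  ∀ (q : ℕ) (s : Mor m q), ¬ Function.Injective s → M.map s x = 0

theorem Nd_zero (M : CM) (x : M.X 0) : Nd M 0 x := by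
  intro q s hs
  exact absurd (fun a b _ => Subsingleton.elim (α := Fin 1) a b) hs

theorem Nd_succ (M : CM) (m : ℕ) (x : M.X (m + 1))
    (h : ∀ j ≤ m, M.map (cd m j) x = 0) : Nd M (m + 1) x := by
  intro q s hs
  obtain ⟨j, s', hj, rfl⟩ := factor_cd s hs
  rw [M.map_comp, h j hj, map_zero]

theorem cd_not_inj {m j : ℕ} (hj : j ≤ m) : ¬ Function.Injective (cd m j) := by
  intro h
  have e : cd m j ⟨j, by omega⟩ = cd m j ⟨j + 1, by omega⟩ := by
    apply Fin.ext
    show (if j ≤ j then min j m else j - 1) = (if j + 1 ≤ j then min (j + 1) m else j + 1 - 1)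
    split_ifs <;> omega
  have := congrArg Fin.val (h e)
  simp at this

theorem cd_cf_not_inj {m i j : ℕ} (hj : j ≤ m) (hi : i ≤ m + 1) (h1 : i ≠ j) (h2 : i ≠ j + 1) :
    ¬ Function.Injective ((cd m j).comp (cf m i)) := by
  intro h
  rcases Nat.lt_or_ge i j with hij | hij
  · have e : (cd m j).comp (cf m i) ⟨j - 1, by omega⟩ = (cd m j).comp (cf m i) ⟨j, by omega⟩ := by
      apply Fin.ext
      show (if (if j - 1 < i then j - 1 else j - 1 + 1) ≤ j
          then min (if j - 1 < i then j - 1 else j - 1 + 1) m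
          else (if j - 1 < i then j - 1 else j - 1 + 1) - 1)
        = (if (if j < i then j else j + 1) ≤ j then min (if j < i then j else j + 1) m
          else (if j < i then j else j + 1) - 1)
      split_ifs <;> omega
    have := congrArg Fin.val (h e)
    simp only at this
    omega
  · have e : (cd m j).comp (cf m i) ⟨j, by omega⟩ = (cd m j).comp (cf m i) ⟨j + 1, by omega⟩ := by
      apply Fin.ext
      show (if (if j < i then j else j + 1) ≤ j then min (if j < i then j else j + 1) m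
          else (if j < i then j else j + 1) - 1)
        = (if (if j + 1 < i then j + 1 else j + 1 + 1) ≤ j
          then min (if j + 1 < i then j + 1 else j + 1 + 1) m
          else (if j + 1 < i then j + 1 else j + 1 + 1) - 1)
      split_ifs <;> omega
    have := congrArg Fin.val (h e)
    simp only at this
    omega

/-- the differential of a normalised element is normalised -/
theorem Nd_delta (M : CM) (m : ℕ) (x : M.X m) (hx : Nd M m x) : Nd M (m + 1) (M.delta m x) := by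
  apply Nd_succ
  intro j hj
  rw [delta_eq, map_sum, show m + 2 = j + 2 + (m - j) by omega, sum_mid]
  · refine Finset.sum_eq_zero fun i hi => ?_
    have hi' := Finset.mem_range.1 hi
    rw [← M.map_comp]
    exact hx _ _ (cd_cf_not_inj hj (by omega) (by omega) (by omega))
  · rw [m_eq M hj, m_eq' M hj]
  · intro i hi
    rw [← M.map_comp]
    exact hx _ _ (cd_cf_not_inj hj (by omega) (by omega) (by omega))

/-- changing a primitive of a normalised element into a normalised one -/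
theorem exists_Nd (hN : NORM_Stmt) (M : CM) (m : ℕ) (x : M.X m)
    (h : Nd M (m + 1) (M.delta m x)) : ∃ x' : M.X m, Nd M m x' ∧ M.delta m x' = M.delta m x := by
  cases m with
  | zero => exact ⟨x, Nd_zero M x, rfl⟩
  | succ m =>
    obtain ⟨v, hv⟩ := hN M m x (fun i => by
      rw [cod_eq]
      exact h _ _ (cd_not_inj (by omega)))
    refine ⟨x + M.delta m v, Nd_succ M m _ (fun j hj => ?_), ?_⟩
    · have := hv ⟨j, by omega⟩
      rw [cod_eq] at this
      exact this
    · rw [map_add, M.delta_delta, add_zero]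

/-! ### Functions on the sphere times Y vanishing on the base point -/

/-- cochains of `S^t ∧ Y_+` -/
abbrev Mc (t : ℕ) (Y : SS) : CM := ((PS.sphere t).smash Y.plus).cm

theorem mc_pos {t : ℕ} {Y : SS} {m n : ℕ} (a : Mor m n) (g : (Mc t Y).X m)
    (b : {b : Mor n t // Function.Surjective b}) (y : Y.X n)
    (h : Function.Surjective (b.1.comp a)) :
    (Mc t Y).map a g (b, y) = g (⟨b.1.comp a, h⟩, Y.map a y) := by
  show (Option.map₂ Prod.mk ((PS.sphere t).map a b) (some (Y.map a y))).elim 0 g = _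
  rw [sphere_map_pos a b h]
  rfl

theorem mc_neg {t : ℕ} {Y : SS} {m n : ℕ} (a : Mor m n) (g : (Mc t Y).X m)
    (b : {b : Mor n t // Function.Surjective b}) (y : Y.X n)
    (h : ¬ Function.Surjective (b.1.comp a)) :
    (Mc t Y).map a g (b, y) = 0 := by
  show (Option.map₂ Prod.mk ((PS.sphere t).map a b) (some (Y.map a y))).elim 0 g = _
  rw [sphere_map_neg a b h]
  rfl

/-- restriction to the relative cochains -/
def R {t : ℕ} {Y : SS} (j : ℕ) (g : ((Sph t).prod Y).X j → k) : (Mc t Y).X j :=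
  fun p => g (some p.1, p.2) + g (none, p.2)

theorem R_map {t : ℕ} {Y : SS} {m n : ℕ} (a : Mor m n) (g : ((Sph t).prod Y).X m → k) :
    R n (((Sph t).prod Y).cm.map a g) = (Mc t Y).map a (R m g) := by
  funext p
  obtain ⟨b, y⟩ := p
  show g ((PS.sphere t).map a b, Y.map a y) + g (none, Y.map a y) = _
  by_cases h : Function.Surjective (b.1.comp a)
  · rw [mc_pos a _ b y h, sphere_map_pos a b h]
    rfl
  · rw [mc_neg a _ b y h, sphere_map_neg a b h]
    exact k_two _

theorem R_add {t : ℕ} {Y : SS} (j : ℕ) (g h : ((Sph t).prod Y).X j → k) :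
    R j (g + h) = R j g + R j h := by
  funext p
  show (g (some p.1, p.2) + h (some p.1, p.2)) + (g (none, p.2) + h (none, p.2))
    = (g (some p.1, p.2) + g (none, p.2)) + (h (some p.1, p.2) + h (none, p.2))
  abel

/-- `R` as an additive map -/
def Ra {t : ℕ} {Y : SS} (j : ℕ) : (((Sph t).prod Y).X j → k) →+ (Mc t Y).X j where
  toFun := R j
  map_zero' := by
    funext p
    exact add_zero 0
  map_add' := R_add j

theorem R_delta {t : ℕ} {Y : SS} (m : ℕ) (g : ((Sph t).prod Y).X m → k) :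
    R (m + 1) (((Sph t).prod Y).cm.delta m g) = (Mc t Y).delta m (R m g) := by
  rw [CM.delta_apply, CM.delta_apply]
  show Ra (m + 1) _ = _
  rw [map_sum]
  refine Finset.sum_congr rfl fun i _ => ?_
  exact R_map (cof i) g

/-! ### Extension to the simplex -/

open Classical in
/-- the extension of relative cochains of `S^t × Y` to `Δ^(t+1) × Y`: supported on the 0-th face -/
noncomputable def E {t : ℕ} {Y : SS} (j : ℕ) (g : (Mc t Y).X j) :
    ((SS.simplex (t + 1)).prod Y).X j → k :=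
  fun x => if h : (∀ v, x.1 v ≠ 0) ∧ Function.Surjective ((cd t 0).comp x.1) then
    g (⟨(cd t 0).comp x.1, h.2⟩, x.2) else 0

theorem E_pos {t : ℕ} {Y : SS} (j : ℕ) (g : (Mc t Y).X j) (a : Mor j (t + 1)) (y : Y.X j)
    (h1 : ∀ v, a v ≠ 0) (h2 : Function.Surjective ((cd t 0).comp a)) :
    E j g (a, y) = g (⟨(cd t 0).comp a, h2⟩, y) := dif_pos ⟨h1, h2⟩

theorem E_neg {t : ℕ} {Y : SS} (j : ℕ) (g : (Mc t Y).X j) (a : Mor j (t + 1)) (y : Y.X j)
    (h : ¬ ((∀ v, a v ≠ 0) ∧ Function.Surjective ((cd t 0).comp a))) :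
    E j g (a, y) = 0 := dif_neg h

theorem cd_cof_zero {t j : ℕ} (b : Mor j t) : (cd t 0).comp ((cof 0).comp b) = b := by
  apply mext
  intro x
  have hx := (b x).2
  show (cd t 0 (cof 0 (b x))).1 = (b x).1
  rw [cof_eq]
  show (if (if (b x).1 < 0 then (b x).1 else (b x).1 + 1) ≤ 0
      then min (if (b x).1 < 0 then (b x).1 else (b x).1 + 1) t
      else (if (b x).1 < 0 then (b x).1 else (b x).1 + 1) - 1) = (b x).1
  split_ifs <;> omega

theorem E_face_pos {t : ℕ} {Y : SS} (j : ℕ) (g : (Mc t Y).X j) (b : Mor j t) (y : Y.X j)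
    (h : Function.Surjective b) :
    E j g ((cof 0).comp b, y) = g (⟨b, h⟩, y) := by
  have h2 : Function.Surjective ((cd t 0).comp ((cof 0).comp b)) := by
    rw [cd_cof_zero]
    exact h
  have e : (⟨(cd t 0).comp ((cof 0).comp b), h2⟩ : {b : Mor j t // Function.Surjective b}) =
      ⟨b, h⟩ := Subtype.ext (cd_cof_zero b)
  rw [E_pos j g _ y (fun v => Fin.succ_ne_zero (b v)) h2, e]

theorem E_face_neg {t : ℕ} {Y : SS} (j : ℕ) (g : (Mc t Y).X j) (b : Mor j t) (y : Y.X j)
    (h : ¬ Function.Surjective b) :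
    E j g ((cof 0).comp b, y) = 0 := by
  apply E_neg
  rintro ⟨_, h2⟩
  rw [cd_cof_zero] at h2
  exact h h2

theorem E_face_other {t : ℕ} {Y : SS} (j : ℕ) (g : (Mc t Y).X j) (i : Fin (t + 2)) (hi : i ≠ 0)
    (b : Mor j t) (y : Y.X j) : E j g ((cof i).comp b, y) = 0 := by
  apply E_neg
  rintro ⟨h1, h2⟩
  have hi1 : i.1 ≠ 0 := fun h => hi (Fin.ext h)
  have hi2 := i.2
  obtain ⟨v, hv⟩ := h2 ⟨i.1 - 1, by omega⟩
  have hv' := congrArg Fin.val hv
  have h1v : (cof i (b v)).1 ≠ 0 := fun h => h1 v (Fin.ext h)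
  change (cd t 0 (cof i (b v))).1 = i.1 - 1 at hv'
  rw [cof_eq] at hv' h1v
  change (if (if (b v).1 < i.1 then (b v).1 else (b v).1 + 1) ≤ 0
      then min (if (b v).1 < i.1 then (b v).1 else (b v).1 + 1) t
      else (if (b v).1 < i.1 then (b v).1 else (b v).1 + 1) - 1) = i.1 - 1 at hv'
  change (if (b v).1 < i.1 then (b v).1 else (b v).1 + 1) ≠ 0 at h1v
  split_ifs at hv' h1v <;> omega

theorem E_Nd {t : ℕ} {Y : SS} (m : ℕ) (g : (Mc t Y).X m) (hg : Nd (Mc t Y) m g) :
    Nd ((SS.simplex (t + 1)).prod Y).cm m (E m g) := by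
  cases m with
  | zero => exact Nd_zero _ _
  | succ m =>
    apply Nd_succ
    intro j hj
    funext x
    obtain ⟨a, y⟩ := x
    show E (m + 1) g (a.comp (cd m j), Y.map (cd m j) y) = 0
    by_cases h : (∀ v, (a.comp (cd m j)) v ≠ 0) ∧
        Function.Surjective ((cd t 0).comp (a.comp (cd m j)))
    · rw [E_pos _ g _ _ h.1 h.2]
      have hb : Function.Surjective ((cd t 0).comp a) := by
        intro i
        obtain ⟨v, hv⟩ := h.2 i
        exact ⟨cd m j v, hv⟩
      have h3 := congrFun (hg m (cd m j) (cd_not_inj hj)) (⟨(cd t 0).comp a, hb⟩, y)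
      rw [mc_pos (cd m j) g ⟨(cd t 0).comp a, hb⟩ y h.2] at h3
      exact h3
    · exact E_neg _ g _ _ h

theorem E_delta_pos {t : ℕ} {Y : SS} (m : ℕ) (g : (Mc t Y).X m) (b : Mor (m + 1) t)
    (y : Y.X (m + 1)) (h : Function.Surjective b) :
    ((SS.simplex (t + 1)).prod Y).cm.delta m (E m g) ((cof 0).comp b, y) =
      (Mc t Y).delta m g (⟨b, h⟩, y) := by
  rw [CM.delta_apply, CM.delta_apply, Finset.sum_apply, Finset.sum_apply]
  refine Finset.sum_congr rfl fun i _ => ?_
  show E m g ((cof 0).comp (b.comp (cof i)), Y.map (cof i) y) = _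
  by_cases h' : Function.Surjective (b.comp (cof i))
  · rw [E_face_pos m g _ _ h', mc_pos (cof i) g ⟨b, h⟩ y h']
  · rw [E_face_neg m g _ _ h', mc_neg (cof i) g ⟨b, h⟩ y h']

theorem E_delta_neg {t : ℕ} {Y : SS} (m : ℕ) (g : (Mc t Y).X m) (b : Mor (m + 1) t)
    (y : Y.X (m + 1)) (h : ¬ Function.Surjective b) :
    ((SS.simplex (t + 1)).prod Y).cm.delta m (E m g) ((cof 0).comp b, y) = 0 := by
  rw [CM.delta_apply, Finset.sum_apply]
  refine Finset.sum_eq_zero fun i _ => ?_
  show E m g ((cof 0).comp (b.comp (cof i)), Y.map (cof i) y) = 0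
  apply E_face_neg
  intro hs
  apply h
  intro v
  obtain ⟨u, hu⟩ := hs v
  exact ⟨cof i u, hu⟩

theorem E_delta_other {t : ℕ} {Y : SS} (m : ℕ) (g : (Mc t Y).X m) (i : Fin (t + 2)) (hi : i ≠ 0)
    (b : Mor (m + 1) t) (y : Y.X (m + 1)) :
    ((SS.simplex (t + 1)).prod Y).cm.delta m (E m g) ((cof i).comp b, y) = 0 := by
  rw [CM.delta_apply, Finset.sum_apply]
  refine Finset.sum_eq_zero fun l _ => ?_
  exact E_face_other m g i hi (b.comp (cof l)) (Y.map (cof l) y)

/-! ### Cocycles of the map defined by a Moore cycle -/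

/-- the value of a simplex of `Map(Y, EM n)` -/
def zf {Y : SS} {n t : ℕ} (z : (MapS Y (EM n)).X t) (b : Mor n t) (y : Y.X n) : k :=
  (z.1 n (b, y)).1 OrderHom.id

theorem zf_val {Y : SS} {n t : ℕ} (z : (MapS Y (EM n)).X t) {q : ℕ} (a : Mor q t) (y : Y.X q)
    (s : Mor n q) : (z.1 q (a, y)).1 s = zf z (a.comp s) (Y.map s y) := by
  have h := HV.nat z s (a, y)
  have h2 := congrArg (fun f : EMsub n n => f.1 OrderHom.id) h
  exact h2.symm

theorem zf_zero {Y : SS} {n t : ℕ} {z : (MapS Y (EM n)).X t} (hz : z ∈ ZM (MapS Y (EM n)) t)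
    (b : Mor n t) (hb : ¬ Function.Surjective b) (y : Y.X n) : zf z b y = 0 := by
  unfold zf
  rw [mem_ZM_val hz b hb y]
  rfl

theorem ext_zf {Y : SS} {n t : ℕ} {z w : (MapS Y (EM n)).X t}
    (h : ∀ b y, zf z b y = zf w b y) : z = w := by
  apply HV.ext
  rintro q ⟨a, y⟩
  apply Subtype.ext
  funext s
  rw [zf_val, zf_val, h]

/-- the cocycle of the map defined by a Moore cycle -/
def ph {Y : SS} {n t : ℕ} (z : ZM (MapS Y (EM n)) t) : ((Sph t).prod Y).X n → k :=
  fun x => ((sph z).1 n x).1 OrderHom.id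

theorem ph_some {Y : SS} {n t : ℕ} (z : ZM (MapS Y (EM n)) t)
    (b : {b : Mor n t // Function.Surjective b}) (y : Y.X n) :
    ph z (some b, y) = zf z.1 b.1 y := rfl

theorem ph_none {Y : SS} {n t : ℕ} (z : ZM (MapS Y (EM n)) t) (y : Y.X n) :
    ph z (none, y) = 0 := rfl

theorem ph_delta {Y : SS} {n t : ℕ} (z : ZM (MapS Y (EM n)) t) :
    ((Sph t).prod Y).cm.delta n (ph z) = 0 := by
  rw [CM.delta_apply]
  funext x
  rw [Finset.sum_apply]
  have h := ((sph z).1 (n + 1) x).2.2 OrderHom.id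
  refine Eq.trans (Finset.sum_congr rfl ?_) h
  intro i _
  show ((sph z).1 n (((Sph t).prod Y).map (cof i) x)).1 OrderHom.id = _
  rw [HV.nat]
  rfl

theorem ph_cls {Y : SS} {n t : ℕ} (z : ZM (MapS Y (EM n)) t) :
    H.map (HV.hom (sph z)) (iota n) = clsN n (ph z) (ph_delta z) := by
  unfold iota clsN
  rw [H.map_cls]
  congr 1
  apply Subtype.ext
  ext m x
  show iotaC n m ((sph z).1 m x) = Coch.single n (ph z) m x
  unfold iotaC
  by_cases h : m = n
  · subst h
    rw [Coch.single_self, Coch.single_self]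
    rfl
  · rw [Coch.single_ne h, Coch.single_ne h]

theorem main {Y : SS} {n t : ℕ} (hN : NORM_Stmt) (z : ZM (MapS Y (EM n)) t)
    (h : H.map (HV.hom (sph z)) (iota n) = 0) : z.1 ∈ BM (MapS Y (EM n)) t := by
  rw [ph_cls, clsN_eq_zero] at h
  cases n with
  | zero =>
    have h0 : ph z = 0 := h
    have hz : z.1 = 0 := by
      apply ext_zf
      intro b y
      by_cases hb : Function.Surjective b
      · have := congrFun h0 (some ⟨b, hb⟩, y)
        rw [ph_some] at this
        exact this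
      · rw [zf_zero z.2 b hb]
        rfl
    rw [hz]
    exact (BM (MapS Y (EM 0)) t).zero_mem
  | succ m =>
    obtain ⟨η, hη⟩ := h
    have hη : ((Sph t).prod Y).cm.delta m η = ph z := hη
    -- the relative cochain
    have hR : (Mc t Y).delta m (R m η) = R (m + 1) (ph z) := by
      rw [← R_delta, hη]
    have hnd : Nd (Mc t Y) (m + 1) (R (m + 1) (ph z)) := by
      apply Nd_succ
      intro j hj
      funext p
      obtain ⟨b, y⟩ := p
      have hs : Function.Surjective (b.1.comp (cd m j)) := by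
        intro i
        obtain ⟨v, hv⟩ := b.2 i
        refine ⟨cf m j v, ?_⟩
        have e : (cd m j) ((cf m j) v) = v := by
          have := congrArg (fun f : Mor m m => f v) (cd_cf_eq (n := m) hj)
          exact this
        show b.1 ((cd m j) ((cf m j) v)) = i
        rw [e, hv]
      rw [mc_pos (cd m j) _ b y hs]
      show zf z.1 (b.1.comp (cd m j)) (Y.map (cd m j) y) + 0 = 0
      rw [add_zero, ← zf_val]
      exact (z.1.1 m (b.1, y)).2.1 (cd m j) (cd_not_inj hj)
    rw [← hR] at hnd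
    obtain ⟨ζ, hζ1, hζ2⟩ := exists_Nd hN (Mc t Y) m (R m η) hnd
    rw [hR] at hζ2
    -- the simplex w
    have hω : Nd ((SS.simplex (t + 1)).prod Y).cm (m + 1)
        (((SS.simplex (t + 1)).prod Y).cm.delta m (E m ζ)) := Nd_delta _ _ _ (E_Nd m ζ hζ1)
    have hc : ((SS.simplex (t + 1)).prod Y).cm.delta (m + 1)
        (((SS.simplex (t + 1)).prod Y).cm.delta m (E m ζ)) = 0 := CM.delta_delta _ _ _
    let W := EMlift (m + 1) (((SS.simplex (t + 1)).prod Y).cm.delta m (E m ζ))
      (fun q s hs x => congrFun (hω q s hs) x) hc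
    have hW : ∀ (i : Fin (t + 2)) (b : Mor (m + 1) t) (y : Y.X (m + 1)),
        zf ((MapS Y (EM (m + 1))).map (cof i) (HV.of W)) b y =
          ((SS.simplex (t + 1)).prod Y).cm.delta m (E m ζ) ((cof i).comp b, y) := by
      intro i b y
      show ((SS.simplex (t + 1)).prod Y).cm.delta m (E m ζ)
        (((SS.simplex (t + 1)).prod Y).map OrderHom.id ((cof i).comp b, y)) = _
      rw [SS.map_id]
    refine ⟨HV.of W, ?_, ?_⟩
    · apply ext_zf
      intro b y
      rw [hW]
      by_cases hb : Function.Surjective b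
      · rw [E_delta_pos m ζ b y hb, hζ2]
        show zf z.1 b y + 0 = zf z.1 b y
        rw [add_zero]
      · rw [E_delta_neg m ζ b y hb, zf_zero z.2 b hb]
    · intro i hi
      apply ext_zf
      intro b y
      rw [hW, E_delta_other m ζ i hi b y]
      rfl

end Pool.Agent.SHL.Cem

namespace Pool.Agent.SHL

open Pool.Agent.SHS

theorem CEM (h1 : PH1_Stmt) (hN : NORM_Stmt) (hC : LCM_Stmt) (hR : RCH_Stmt) : CEM_Stmt := by
  intro t ht Y hY n z hz
  apply Cem.main hN z
  have h2 : iota n ∈ RC (EM n) := (hR (EM n)).2.1 n (hC.2 n)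
  rw [← (h1 t ht Y hY (EM n) z).1 (iota n) h2, hz, map_zero]

end Pool.Agent.SHL


end

section

/-!
# MP_2d0b73_an, LINK: cohomology of the sphere `SphSS m`
-/

open CategoryTheory Opposite

noncomputable section

namespace Pool.Agent.SHL

open Pool.Agent.SH.TT (Dop bx Sph Bdy)
open Pool.Agent.SHS (Mor cof cod Hn H clsN clsN_mem clsN_eq_zero clsN_add clsN_smul exists_clsN)

/-- Every simplex of positive degree `≠ m` of the sphere is degenerate; in degree `m` only the
fundamental simplex is not. -/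
theorem Sph_deg (m j : ℕ) (x : (SphSS m).X (j + 1)) :
    (∃ (i : Fin (j + 1)) (y : (SphSS m).X j), (SphSS m).map (cod i) y = x) ∨
      ∃ (g : bx m ⟶ bx (j + 1)) (hg : ¬ Bdy g), Function.Injective g.unop.toOrderHom ∧
        x = some ⟨g, hg⟩ := by
  cases x with
  | none => exact Or.inl ⟨0, none, rfl⟩
  | some t =>
    by_cases hi : Function.Injective t.1.unop.toOrderHom
    · exact Or.inr ⟨t.1, t.2, hi, rfl⟩
    · left
      obtain ⟨i, θ, hθ⟩ := SimplexCategory.eq_σ_comp_of_not_injective t.1.unop hi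
      have e : t.1 = θ.op ≫ toD (cod i) := by
        apply Quiver.Hom.unop_inj
        exact hθ
      have h1 : ¬ Bdy (θ.op : bx m ⟶ bx j) := by
        intro hb
        apply t.2
        intro hs
        apply hb
        intro y
        obtain ⟨z, hz⟩ := hs y
        rw [e] at hz
        exact ⟨cod i z, hz⟩
      refine ⟨i, some ⟨θ.op, h1⟩, ?_⟩
      have h2 : ¬ Bdy (θ.op ≫ toD (cod i) : bx m ⟶ bx (j + 1)) := by
        rw [← e]
        exact t.2
      refine (dif_pos h2).trans ?_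
      exact congrArg some (Subtype.ext e.symm)

theorem Sph_id (m j : ℕ) (g : bx m ⟶ bx j) (hg : ¬ Bdy g)
    (hi : Function.Injective g.unop.toOrderHom) : j = m := by
  have hb : Function.Bijective g.unop.toOrderHom := ⟨hi, by
    by_contra h
    exact hg h⟩
  have := Fintype.card_of_bijective hb
  simp only [Fintype.card_fin] at this
  have h2 : (unop (bx j)).len = j := rfl
  have h3 : (unop (bx m)).len = m := rfl
  omega

theorem delta_sph (X : SHS.SS) (j : ℕ) (φ : X.X j → SHS.k) (x : X.X (j + 1)) :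
    X.cm.delta j φ x = ∑ i : Fin (j + 2), φ (X.map (cof i) x) := by
  rw [SHS.CM.delta_apply, Finset.sum_apply]
  rfl

/-- A cocycle of degree `j + 1` is cohomologous to one which vanishes on degenerate simplices. -/
theorem norm_cocycle (X : SHS.SS) (j : ℕ) (φ : X.X (j + 1) → SHS.k) (h : X.cm.delta (j + 1) φ = 0) :
    ∃ v : X.X j → SHS.k, ∀ (i : Fin (j + 1)) (y : X.X j),
      φ (X.map (cod i) y) + X.cm.delta j v (X.map (cod i) y) = 0 := by
  obtain ⟨v, hv⟩ := SHS.NORM X.cm j φ (fun i => by rw [h, map_zero])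
  exact ⟨v, fun i y => congrFun (hv i) y⟩

theorem Hn_sph_ne (m j : ℕ) (h : j + 1 ≠ m) (a : H (SphSS m)) (ha : a ∈ Hn (SphSS m) (j + 1)) :
    a = 0 := by
  obtain ⟨φ, hφ, rfl⟩ := exists_clsN ha
  rw [clsN_eq_zero]
  obtain ⟨v, hv⟩ := norm_cocycle (SphSS m) j φ hφ
  refine ⟨v, ?_⟩
  funext x
  rcases Sph_deg m j x with ⟨i, y, rfl⟩ | ⟨g, hg, hi, rfl⟩
  · exact (SHS.mod_two_eq (hv i y)).symm
  · exact absurd (Sph_id m (j + 1) g hg hi) h

/-- The coboundary of a normalised cochain is normalised. -/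
theorem norm_delta (M : SHS.CM) (n : ℕ) (x : M.X (n + 1))
    (h : ∀ i ≤ n, M.map (SHS.Norm.cd n i) x = 0) (j : ℕ) (hj : j ≤ n + 1) :
    M.map (SHS.Norm.cd (n + 1) j) (M.delta (n + 1) x) = 0 := by
  rw [SHS.Norm.delta_eq, map_sum]
  obtain ⟨r, hr⟩ : ∃ r, n + 1 + 2 = j + 2 + r := ⟨n + 1 - j, by omega⟩
  rw [hr, SHS.Norm.sum_mid]
  · refine Finset.sum_eq_zero fun i hi => ?_
    have hi' := Finset.mem_range.1 hi
    rw [show j + 2 + i = (j + 1 + i) + 1 by omega, SHS.Norm.m_gt M (by omega) (by omega),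
      h j (by omega), map_zero]
  · rw [SHS.Norm.m_eq M hj, SHS.Norm.m_eq' M hj]
  · intro i hi
    rw [SHS.Norm.m_lt M hi hj, h (j - 1) (by omega), map_zero]

/-- The fundamental simplex. -/
def idS (m : ℕ) : (SphSS m).X m := some ⟨𝟙 (bx m), fun h => h (fun y => ⟨y, rfl⟩)⟩

open scoped Classical in
/-- The fundamental cochain of the sphere. -/
def iotaS (m : ℕ) : (SphSS m).X m → SHS.k := fun x => if x = idS m then 1 else 0

theorem Sph_lt (m j : ℕ) (h : j < m) (x : (SphSS m).X j) : x = none := by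
  cases x with
  | none => rfl
  | some t =>
    exfalso
    apply t.2
    intro hs
    have := Fintype.card_le_of_surjective _ hs
    simp only [Fintype.card_fin] at this
    have h2 : (unop (bx j)).len = j := rfl
    have h3 : (unop (bx m)).len = m := rfl
    omega

theorem iotaS_deg (m : ℕ) (g : Mor (m + 1) m) (y : (SphSS (m + 1)).X m) :
    iotaS (m + 1) ((SphSS (m + 1)).map g y) = 0 := by
  rw [Sph_lt (m + 1) m (Nat.lt_succ_self m) y]
  have h : ((SphSS (m + 1)).map g none) ≠ idS (m + 1) := by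
    intro h
    cases h
  exact if_neg h

theorem iotaS_cocycle (m : ℕ) : (SphSS (m + 1)).cm.delta (m + 1) (iotaS (m + 1)) = 0 := by
  funext x
  rcases Sph_deg (m + 1) (m + 1) x with ⟨i, y, rfl⟩ | ⟨g, hg, hi, rfl⟩
  · have h := norm_delta (SphSS (m + 1)).cm m (iotaS (m + 1))
      (fun i _ => funext fun y => iotaS_deg m _ y) i.1 (by omega)
    have h2 := congrFun h y
    rw [← SHS.Norm.cod_eq] at h2
    exact h2
  · exact absurd (Sph_id (m + 1) (m + 1 + 1) g hg hi) (by omega)

/-- The fundamental class. -/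
def iotaH (m : ℕ) : H (SphSS (m + 1)) := clsN (m + 1) (iotaS (m + 1)) (iotaS_cocycle m)

theorem iotaH_mem (m : ℕ) : iotaH m ∈ Hn (SphSS (m + 1)) (m + 1) := clsN_mem _ _ _

theorem iotaH_ne (m : ℕ) : iotaH m ≠ 0 := by
  intro h
  have h1 := (clsN_eq_zero _ (iotaS_cocycle m)).1 h
  obtain ⟨v, hv⟩ := h1
  have h3 : ∀ (x : (SphSS (m + 1)).X (m + 1)) (i : Fin (m + 2)),
      (SphSS (m + 1)).map (cof i) x = none := fun x i => Sph_lt (m + 1) m (Nat.lt_succ_self m) _
  have e0 : ∀ x : (SphSS (m + 1)).X (m + 1),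
      ∑ i : Fin (m + 2), v ((SphSS (m + 1)).map (cof i) x) = iotaS (m + 1) x := by
    intro x
    rw [← hv]
    exact (delta_sph _ _ _ _).symm
  simp only [h3] at e0
  have e1 := e0 (idS (m + 1))
  have e2 := e0 (none : ((SH.TT.Sph (m + 1)).obj (bx (m + 1))).X)
  rw [e1] at e2
  have h4 : iotaS (m + 1) (idS (m + 1)) = 1 := if_pos rfl
  have h5 : iotaS (m + 1) (none : (SphSS (m + 1)).X (m + 1)) = 0 := if_neg (by
    intro h
    cases h)
  rw [h4, h5] at e2
  exact one_ne_zero e2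

theorem Hn_sph_eq (m : ℕ) (a : H (SphSS (m + 1))) (ha : a ∈ Hn (SphSS (m + 1)) (m + 1)) :
    ∃ c : SHS.k, a = c • iotaH m := by
  obtain ⟨φ, hφ, rfl⟩ := exists_clsN ha
  obtain ⟨v, hv⟩ := norm_cocycle (SphSS (m + 1)) m φ hφ
  refine ⟨φ (idS (m + 1)) + (SphSS (m + 1)).cm.delta m v (idS (m + 1)), ?_⟩
  set c := φ (idS (m + 1)) + (SphSS (m + 1)).cm.delta m v (idS (m + 1)) with hc
  unfold iotaH
  rw [← clsN_smul, ← sub_eq_zero, SHS.mod_two_sub, ← clsN_add, clsN_eq_zero]
  refine ⟨v, ?_⟩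
  funext x
  show (SphSS (m + 1)).cm.delta m v x = φ x + c * iotaS (m + 1) x
  rcases Sph_deg (m + 1) m x with ⟨i, y, rfl⟩ | ⟨g, hg, hi, rfl⟩
  · rw [iotaS_deg, mul_zero, add_zero]
    exact (SHS.mod_two_eq (hv i y)).symm
  · have hid : (some ⟨g, hg⟩ : (SphSS (m + 1)).X (m + 1)) = idS (m + 1) := by
      refine congrArg some (Subtype.ext ?_)
      show g = 𝟙 _
      apply Quiver.Hom.unop_inj
      have hb : Function.Surjective g.unop.toOrderHom := by
        by_contra h
        exact hg h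
      have : Epi g.unop := SimplexCategory.epi_iff_surjective.2 hb
      exact SimplexCategory.eq_id_of_epi g.unop
    rw [hid]
    have h4 : iotaS (m + 1) (idS (m + 1)) = 1 := if_pos rfl
    rw [h4, mul_one, hc]
    have := SHS.k_two (φ (idS (m + 1)))
    linear_combination (-1 : SHS.k) * this

end Pool.Agent.SHL

end

end

section

/-!
# MP_2d0b73_an, LINK: the contraction of `H^*(XS m •)` onto `H^*` of the sphere
-/

open CategoryTheory Opposite

noncomputable section

namespace Pool.Agent.SHL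

open Pool.Agent.SH.TT (Dop bx Sph Bdy AugK aug brk augMap)
open Pool.Agent.SHS (Mor cof cod Hn H Coch Cocyc cls cls_eq_zero cls_surjective mem_Hn CochD Cobd)
open Pool.Agent.SHS.Coch

/-- Linear extension of a function on a pointed set to the reduced free vector space, with the
value of the constant part. -/
def ext1 {A : Type} (b : A) (g : A → ZMod 2) (ξ : AugK A) : ZMod 2 :=
  Finsupp.linearCombination (ZMod 2) g (ξ : A →₀ ZMod 2) + g b

theorem ext1_brk {A : Type} (b : A) (g : A → ZMod 2) (x : A) : ext1 b g (brk b x) = g x := by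
  unfold ext1 brk
  simp only [map_add, Finsupp.linearCombination_single, one_smul]
  have := SHS.k_two (g b)
  linear_combination this

theorem ext1_augMap {A B : Type} (b : A) (f : A → B) (g : B → ZMod 2) (ξ : AugK A) :
    ext1 (f b) g (augMap f ξ) = ext1 b (g ∘ f) ξ := by
  unfold ext1
  rw [Pool.Agent.SH.TT.augMap_coe, Finsupp.linearCombination_mapDomain]
  rfl

theorem ext1_zero {A : Type} (b : A) (ξ : AugK A) : ext1 b (fun _ => 0) ξ = 0 := by
  unfold ext1
  rw [add_zero]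
  simp [Finsupp.linearCombination_apply, Finsupp.sum]

theorem ext1_add {A : Type} (b : A) (g h : A → ZMod 2) (ξ : AugK A) :
    ext1 b (fun a => g a + h a) ξ = ext1 b g ξ + ext1 b h ξ := by
  unfold ext1
  simp only [Finsupp.linearCombination_apply, Finsupp.sum, smul_add, Finset.sum_add_distrib]
  ring

theorem ext1_smul {A : Type} (b : A) (c : ZMod 2) (g : A → ZMod 2) (ξ : AugK A) :
    ext1 b (fun a => c * g a) ξ = c * ext1 b g ξ := by
  unfold ext1
  rw [mul_add, Finsupp.linearCombination_apply, Finsupp.linearCombination_apply, Finsupp.sum,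
    Finsupp.sum, Finset.mul_sum]
  congr 1
  refine Finset.sum_congr rfl fun a _ => ?_
  simp only [smul_eq_mul]
  ring

theorem ext1_sum {A : Type} (b : A) {ι : Type} (s : Finset ι) (g : ι → A → ZMod 2) (ξ : AugK A) :
    ext1 b (fun a => ∑ i ∈ s, g i a) ξ = ∑ i ∈ s, ext1 b (g i) ξ := by
  classical
  induction s using Finset.induction_on with
  | empty => simpa using ext1_zero b ξ
  | insert i s hi ih =>
    rw [Finset.sum_insert hi, ← ih, ← ext1_add]
    congr 1
    funext a
    rw [Finset.sum_insert hi]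

/-- `Q` is the reduced free simplicial vector space on the pointed simplicial set `P`. -/
structure RData (P Q : SHS.SS) where
  /-- the base point -/
  b : ∀ n, P.X n
  b_map : ∀ {m n : ℕ} (a : Mor m n), P.map a (b n) = b m
  /-- the identification -/
  co : ∀ n, Q.X n → AugK (P.X n)
  co_map : ∀ {m n : ℕ} (a : Mor m n) (ξ : Q.X n), co m (Q.map a ξ) = augMap (P.map a) (co n ξ)

section RD
variable {P Q P' Q' : SHS.SS} (D : RData P Q) (D' : RData P' Q')

theorem RData.ext_map (f : Coch P) {m n : ℕ} (a : Mor m n) (ξ : Q.X n) :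
    ext1 (D.b m) (f m) (D.co m (Q.map a ξ)) = ext1 (D.b n) (fun x => f m (P.map a x)) (D.co n ξ) := by
  rw [D.co_map, ← D.b_map a, ext1_augMap]
  rfl

/-- The extension of cochains. -/
def RData.hC : Coch P →ₗ[SHS.k] Coch Q where
  toFun f := ⟨fun n ξ => ext1 (D.b n) (f n) (D.co n ξ)⟩
  map_add' f g := by
    ext n ξ
    exact ext1_add (D.b n) (f n) (g n) (D.co n ξ)
  map_smul' c f := by
    ext n ξ
    exact ext1_smul (D.b n) c (f n) (D.co n ξ)

theorem RData.hC_apply (f : Coch P) (n : ℕ) (ξ : Q.X n) :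
    D.hC f n ξ = ext1 (D.b n) (f n) (D.co n ξ) := rfl

theorem RData.dlt_hC (f : Coch P) : dlt (D.hC f) = D.hC (dlt f) := by
  ext n ξ
  cases n with
  | zero =>
    rw [dlt_zero, D.hC_apply]
    exact (ext1_zero (D.b 0) (D.co 0 ξ)).symm
  | succ n =>
    rw [dlt_succ, D.hC_apply]
    have h : (dlt f (n + 1) : P.X (n + 1) → ZMod 2) =
        fun x => ∑ i : Fin (n + 2), f n (P.map (cof i) x) := by
      funext x
      exact dlt_succ f n x
    rw [h]
    refine Eq.trans ?_ (ext1_sum (D.b (n + 1)) Finset.univ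
      (fun (i : Fin (n + 2)) x => f n (P.map (cof i) x)) (D.co (n + 1) ξ)).symm
    refine Finset.sum_congr rfl fun i _ => ?_
    rw [D.hC_apply, D.ext_map]

/-- The extension of cocycles. -/
def RData.hZ : Cocyc P →ₗ[SHS.k] Cocyc Q where
  toFun f := ⟨D.hC f.1, by
    show dlt (D.hC f.1) = 0
    rw [D.dlt_hC, show dlt f.1 = 0 from f.2, map_zero]⟩
  map_add' f g := Subtype.ext (map_add D.hC f.1 g.1)
  map_smul' c f := Subtype.ext (map_smul D.hC c f.1)

/-- The contraction in cohomology. -/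
noncomputable def RData.hH : H P →ₗ[SHS.k] H Q :=
  Submodule.liftQ ((Cobd P).restrictScalars SHS.k) ((cls (X := Q)).toLinearMap ∘ₗ D.hZ) (by
    rintro a ⟨g, hg⟩
    show cls (D.hZ a) = 0
    rw [cls_eq_zero]
    exact ⟨D.hC g, by
      rw [D.dlt_hC, hg]
      rfl⟩)

theorem RData.hH_cls (f : Cocyc P) : D.hH (cls f) = cls (D.hZ f) := rfl

theorem RData.hH_mem {n : ℕ} {a : H P} (ha : a ∈ Hn P n) : D.hH a ∈ Hn Q n := by
  obtain ⟨f, hf, rfl⟩ := mem_Hn.mp ha
  refine mem_Hn.mpr ⟨D.hZ f, ?_, rfl⟩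
  intro m hm ξ
  show ext1 (D.b m) (f.1 m) (D.co m ξ) = 0
  have h : (f.1 m : P.X m → ZMod 2) = fun _ => 0 := by
    funext x
    exact hf m hm x
  rw [h, ext1_zero]

theorem RData.map_hH_unit (φ : SHS.SS.Hom P Q) (h : ∀ n x, D.co n (φ.f n x) = brk (D.b n) x)
    (a : H P) : H.map φ (D.hH a) = a := by
  obtain ⟨f, rfl⟩ := cls_surjective a
  rw [D.hH_cls, SHS.H.map_cls]
  congr 1
  apply Subtype.ext
  ext n x
  show ext1 (D.b n) (f.1 n) (D.co n (φ.f n x)) = f.1 n x
  rw [h, ext1_brk]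

theorem RData.map_hH (ψ : SHS.SS.Hom P P') (φ : SHS.SS.Hom Q Q')
    (hb : ∀ n, ψ.f n (D.b n) = D'.b n)
    (h : ∀ n ξ, D'.co n (φ.f n ξ) = augMap (ψ.f n) (D.co n ξ)) (a : H P') :
    H.map φ (D'.hH a) = D.hH (H.map ψ a) := by
  obtain ⟨f, rfl⟩ := cls_surjective a
  rw [D'.hH_cls, SHS.H.map_cls, SHS.H.map_cls, D.hH_cls]
  congr 1
  apply Subtype.ext
  ext n ξ
  show ext1 (D'.b n) (f.1 n) (D'.co n (φ.f n ξ)) =
    ext1 (D.b n) (fun x => f.1 n (ψ.f n x)) (D.co n ξ)
  rw [h, ← hb, ext1_augMap]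
  rfl

end RD

/-- The sphere and the bottom stage. -/
def RD0 (m : ℕ) : RData (SphSS m) (XS m 0).toSS where
  b n := (none : ((SH.TT.Sph m).obj (bx n)).X)
  b_map _ := rfl
  co _ ξ := ξ
  co_map _ _ := rfl

/-- Successive stages. -/
def RD1 (m s : ℕ) : RData (XS m s).toSS (XS m (s + 1)).toSS where
  b _ := 0
  b_map _ := map_zero _
  co _ ξ := ξ
  co_map _ _ := rfl

theorem augMap_brk {A B : Type} (f : A → B) (p a : A) : augMap f (brk p a) = brk (f p) (f a) := by
  apply Subtype.ext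
  show Finsupp.mapDomain f (Finsupp.single a 1 + Finsupp.single p 1) =
    (Finsupp.single (f a) 1 + Finsupp.single (f p) 1 : B →₀ ZMod 2)
  rw [Finsupp.mapDomain_add, Finsupp.mapDomain_single, Finsupp.mapDomain_single]

/-- The cosimplicial simplicial set `s ↦ XS m s`. -/
abbrev XC (m : ℕ) : SHQ.CSS where
  Z s := (XS m s).toSS
  map := XS.op m
  map_id n x := XS.op_id m _ n x
  map_comp f g n x := XS.op_comp m f g n x

theorem XC_unit (m s : ℕ) (a : H (XS m s).toSS) :
    H.map (XS.op m (cof (0 : Fin (s + 2)))) ((RD1 m s).hH a) = a :=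
  (RD1 m s).map_hH_unit (XS.op m (cof (0 : Fin (s + 2)))) (fun n x => XS.op_cof_zero m s n x) a

theorem XC_step (m s : ℕ) (i : Fin (s + 2)) (a : H (XS m (s + 1)).toSS) :
    H.map (XS.op m (cof i.succ)) ((RD1 m (s + 1)).hH a) =
      (RD1 m s).hH (H.map (XS.op m (cof i)) a) :=
  (RD1 m s).map_hH (RD1 m (s + 1)) (XS.op m (cof i)) (XS.op m (cof i.succ))
    (fun n => XS.op_zero m _ n) (fun n ξ => XS.op_cof_succ m s n i ξ) a

theorem XC_step0 (m : ℕ) (a : H (XS m 0).toSS) :
    H.map (XS.op m (cof (1 : Fin 2))) ((RD1 m 0).hH a) = (RD0 m).hH (H.map (XS.eta m) a) := by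
  refine (RD0 m).map_hH (RD1 m 0) (XS.eta m) (XS.op m (cof (1 : Fin 2))) (fun n => ?_)
    (fun n ξ => XS.op_cof_one m n ξ) a
  exact SH.TT.brk_self _

theorem XC_eta (m : ℕ) (a : H (SphSS m)) : H.map (XS.eta m) ((RD0 m).hH a) = a :=
  (RD0 m).map_hH_unit _ (fun _ _ => rfl) a

theorem XC_aug (m : ℕ) (b : H (XS m 1).toSS) :
    H.map (XS.eta m) (H.map (XS.op m (cof (0 : Fin 2))) b) =
      H.map (XS.eta m) (H.map (XS.op m (cof (1 : Fin 2))) b) := by
  rw [← SHS.H.map_comp, ← SHS.H.map_comp]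
  apply SHQ.Br.Hmap_congr
  intro n x
  show (XS.op m (cof 0)).f n ((XS.eta m).f n x) = (XS.op m (cof 1)).f n ((XS.eta m).f n x)
  rw [XS.op_cof_zero, XS.op_cof_one]
  have h : (XS.eta m).f n (none : ((SH.TT.Sph m).obj (bx n)).X) = bse m 1 n := SH.TT.brk_self _
  rw [← h]
  exact (augMap_brk ((XS.eta m).f n) _ x).symm

theorem XC_ex (m : ℕ) : SHQ.ExPos (XC m) := by
  intro j _ s a ha hd
  refine ⟨(RD1 m (s + 1)).hH a, (RD1 m (s + 1)).hH_mem ha, ?_⟩
  rw [SHQ.del_apply, Fin.sum_univ_succ]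
  have h0 : H.map ((XC m).map (cof (0 : Fin (s + 1 + 2)))) ((RD1 m (s + 1)).hH a) = a :=
    XC_unit m (s + 1) a
  have h1 : ∀ i : Fin (s + 2), H.map ((XC m).map (cof i.succ)) ((RD1 m (s + 1)).hH a) =
      (RD1 m s).hH (H.map ((XC m).map (cof i)) a) := fun i => XC_step m s i a
  rw [h0, Finset.sum_congr rfl (fun i _ => h1 i), ← map_sum]
  have h2 : ∑ i : Fin (s + 2), H.map ((XC m).map (cof i)) a = 0 := by
    rw [← SHQ.del_apply]
    exact hd
  rw [h2, map_zero, add_zero]

theorem XC_del0 (m : ℕ) (a : H (XS m 0).toSS) :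
    SHQ.del (XC m) 0 ((RD1 m 0).hH a) = a + (RD0 m).hH (H.map (XS.eta m) a) := by
  rw [SHQ.del_apply, Fin.sum_univ_two]
  exact congrArg₂ (· + ·) (XC_unit m 0 a) (XC_step0 m a)

theorem XC_A (m j : ℕ) (hj : 1 ≤ j) (hjm : j ≠ m) (a : H ((XC m).Z 0)) (ha : a ∈ Hn ((XC m).Z 0) j) :
    ∃ b ∈ Hn ((XC m).Z 1) j, SHQ.del (XC m) 0 b = a := by
  refine ⟨(RD1 m 0).hH a, (RD1 m 0).hH_mem ha, ?_⟩
  rw [XC_del0]
  obtain ⟨i, rfl⟩ : ∃ i, j = i + 1 := ⟨j - 1, by omega⟩
  rw [Hn_sph_ne m i hjm (H.map (XS.eta m) a) (SHS.H.map_mem _ ha), map_zero, add_zero]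

/-- The fundamental class of the bottom stage. -/
def XC.x (m : ℕ) : H ((XC (m + 1)).Z 0) := (RD0 (m + 1)).hH (iotaH m)

theorem XC.x_mem (m : ℕ) : XC.x m ∈ Hn ((XC (m + 1)).Z 0) (m + 1) :=
  (RD0 (m + 1)).hH_mem (iotaH_mem m)

theorem XC_B (m : ℕ) (a : H ((XC (m + 1)).Z 0)) (ha : a ∈ Hn ((XC (m + 1)).Z 0) (m + 1)) :
    ∃ (c : ZMod 2), ∃ b ∈ Hn ((XC (m + 1)).Z 1) (m + 1),
      a - c • XC.x m = SHQ.del (XC (m + 1)) 0 b := by
  obtain ⟨c, hc⟩ := Hn_sph_eq m (H.map (XS.eta (m + 1)) a) (SHS.H.map_mem _ ha)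
  refine ⟨c, (RD1 (m + 1) 0).hH a, (RD1 (m + 1) 0).hH_mem ha, ?_⟩
  rw [XC_del0, hc, map_smul]
  exact SHS.mod_two_sub _ _

theorem XC_B' (m : ℕ) (b : H ((XC (m + 1)).Z 1)) : SHQ.del (XC (m + 1)) 0 b ≠ XC.x m := by
  intro h
  have h1 := congrArg (H.map (XS.eta (m + 1))) h
  have h2 : H.map (XS.eta (m + 1)) (XC.x m) = iotaH m := XC_eta (m + 1) (iotaH m)
  rw [h2, SHQ.del_apply, Fin.sum_univ_two, map_add] at h1
  have h3 := XC_aug (m + 1) b
  have h4 : H.map (XS.eta (m + 1)) (H.map ((XC (m + 1)).map (cof (0 : Fin 2))) b) =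
      H.map (XS.eta (m + 1)) (H.map ((XC (m + 1)).map (cof (1 : Fin 2))) b) := h3
  rw [h4, SHS.mod_two] at h1
  exact iotaH_ne m h1.symm

/-- Exactness of the indecomposables of `H^*(XS m s)` outside of two degrees. -/
theorem XC_bnd (hfin : SHQ.FIN_Stmt (ZMod 2)) (m : ℕ)
    (hP : ∀ s, SHQ.PolyGen ((XC (m + 1)).Z s)) (j : ℕ) (hj : 1 ≤ j) (hjm : j ≠ m + 1)
    (hj2 : j ≠ 2 * (m + 1)) :
    (∀ a ∈ Hn ((XC (m + 1)).Z 0) j, ∃ b ∈ Hn ((XC (m + 1)).Z 1) j,
      a - SHQ.del (XC (m + 1)) 0 b ∈ SHS.Dec ((XC (m + 1)).Z 0)) ∧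
    ∀ (s : ℕ), ∀ a ∈ Hn ((XC (m + 1)).Z (s + 1)) j,
      SHQ.del (XC (m + 1)) s a ∈ SHS.Dec ((XC (m + 1)).Z s) →
      ∃ b ∈ Hn ((XC (m + 1)).Z (s + 2)) j,
        a - SHQ.del (XC (m + 1)) (s + 1) b ∈ SHS.Dec ((XC (m + 1)).Z (s + 1)) :=
  SHQ.q_bnd hfin (XC (m + 1)) hP (m + 1) (by omega) (XC.x m) (XC.x_mem m) (XC_ex (m + 1))
    (fun j hj hjm a ha => XC_A (m + 1) j hj hjm a ha) (fun a ha => XC_B m a ha)
    (fun b _ => XC_B' m b) j hj hjm hj2

end Pool.Agent.SHL

end

end

section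

/-!
# MP_2d0b73_an, LINK: `XS m s` is levelwise finite and zero in degrees `< m`
-/

open CategoryTheory Opposite

noncomputable section

namespace Pool.Agent.SHL

open Pool.Agent.SH.TT (Dop bx Sph Bdy AugK aug RM it)

theorem XS_LF (m s : ℕ) : (XS m s).LF := fun n => SH.TT.tt_fin m s (bx n)

theorem AugK_sub {A : Type} (h : ∀ a b : A, a = b) (ξ : AugK A) : ξ = 0 := by
  apply Subtype.ext
  show ξ.1 = 0
  by_contra hne
  obtain ⟨a, ha⟩ := Finsupp.ne_iff.mp hne
  have h1 : ξ.1 = Finsupp.single a (ξ.1 a) := by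
    ext b
    rw [h b a]
    simp
  have h2 : (aug A) ξ.1 = 0 := LinearMap.mem_ker.1 ξ.2
  rw [h1] at h2
  simp only [aug, Finsupp.linearCombination_single, smul_eq_mul, mul_one] at h2
  exact ha h2

theorem PS'_sub (m n : ℕ) (h : n < m) : ∀ (s : ℕ) (a b : (PS' m s n).X), a = b
  | 0, a, b => (Sph_lt m n h a).trans (Sph_lt m n h b).symm
  | s + 1, a, b => by
    have h1 := PS'_sub m n h s
    exact (AugK_sub h1 a).trans (AugK_sub h1 b).symm

/-- The levels below `m` vanish. -/
theorem XS_zero (m s n : ℕ) (h : n < m) (x : (XS m s).X n) : x = 0 :=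
  AugK_sub (PS'_sub m n h s) x

end Pool.Agent.SHL

end

end

section

/-!
# MP_2d0b73_an, LINK: `XSC m : CSV`
-/

open CategoryTheory Opposite

noncomputable section

namespace Pool.Agent.SHL

open Pool.Agent.SHS (Mor cof cod Hn H)

/-- The cosimplicial object `s ↦ XS (m+1) s`. -/
abbrev XSC (m : ℕ) : CSV where
  V s := XS (m + 1) s
  op := XS.op (m + 1)
  op_comp f g n x := XS.op_comp (m + 1) f g n x
  op_zero f n := XS.op_zero (m + 1) f n
  lf s := XS_LF (m + 1) s
  z0 s x := XS_zero (m + 1) s 0 (Nat.succ_pos m) x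

theorem XSC_QE (hP : ∀ V : SHS.SV, V.LF → (∀ x : V.X 0, x = 0) → SHQ.PolyGen V.toSS)
    (hfin : SHQ.FIN_Stmt (ZMod 2)) (m j : ℕ) (hj : 2 * (m + 1) < j) : (XSC m).QE j := by
  have h := XC_bnd hfin m (fun s => hP (XS (m + 1) s) (XS_LF (m + 1) s)
    (fun x => XS_zero (m + 1) s 0 (Nat.succ_pos m) x)) j (by omega) (by omega) (by omega)
  refine ⟨fun a ha => ?_, fun s a ha hd => ?_⟩
  · obtain ⟨b, hb, hab⟩ := h.1 a ha
    rw [SHS.mod_two_sub] at hab
    exact ⟨b, hb, hab⟩
  · obtain ⟨b, hb, hab⟩ := h.2 s a ha hd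
    rw [SHS.mod_two_sub] at hab
    exact ⟨b, hb, hab⟩

end Pool.Agent.SHL

end

end

section

/-!
# MP_2d0b73_an, LINK: translation of the final statement to `Stmt_EX`
-/

open CategoryTheory Opposite

noncomputable section

namespace Pool.Agent.SHL

open Pool.Agent.SH.TT (Dop bx dop Bdy BZ MapP MCyc MBd ExC XV XD RM reso Sph)
open Pool.Agent.SHS (Mor cof BB Nrm)

/-- From `BB` to `BZ`. -/
def toBZ {n : ℕ} (g : BB.X n) : BZ.obj (bx n) :=
  (⟨fun i j => g.1 i + g.1 j, fun i j l => by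
    have := SHS.k_two (g.1 j)
    linear_combination this⟩ :
    {c : Fin (n + 1) → Fin (n + 1) → ZMod 2 // ∀ i j l, c i j + c j l = c i l})

theorem BZ_diag {n : ℕ} (c : Fin (n + 1) → Fin (n + 1) → ZMod 2)
    (h : ∀ i j l, c i j + c j l = c i l) (i : Fin (n + 1)) : c i i = 0 := by
  have h1 := h i i i
  linear_combination h1

/-- From `BZ` to `BB`. -/
def toBB {k : Dop} (c : BZ.obj k) : BB.X k.unop.len :=
  (⟨fun i => c.1 0 i, BZ_diag c.1 c.2 0⟩ : Nrm k.unop.len SHS.k)

theorem toBZ_toBB {k : Dop} (c : BZ.obj k) : toBZ (toBB c) = c := by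
  apply Subtype.ext
  funext i j
  show c.1 0 i + c.1 0 j = c.1 i j
  have h := c.2 0 i j
  have h2 := SHS.k_two (c.1 0 i)
  linear_combination (-1 : ZMod 2) * h + h2

theorem toBB_toBZ {n : ℕ} (g : BB.X n) : toBB (toBZ g) = g := by
  apply Subtype.ext
  funext i
  show g.1 0 + g.1 i = g.1 i
  rw [show g.1 0 = 0 from g.2, zero_add]

theorem toBZ_map {m n : ℕ} (a : Mor m n) (g : BB.X n) :
    toBZ (BB.map a g) = BZ.map (toD a) (toBZ g) := by
  apply Subtype.ext
  funext i j
  show (g.1 (a i) - g.1 (a 0)) + (g.1 (a j) - g.1 (a 0)) = g.1 (a i) + g.1 (a j)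
  have := SHS.k_two (g.1 (a 0))
  linear_combination (-1 : ZMod 2) * this

theorem toBB_map {k l : Dop} (α : k ⟶ l) (c : BZ.obj k) :
    toBB (BZ.map α c) = BB.map (ofD α) (toBB c) := by
  apply Subtype.ext
  funext i
  show c.1 (α.unop.toOrderHom 0) (α.unop.toOrderHom i) =
    c.1 0 (α.unop.toOrderHom i) - c.1 0 (α.unop.toOrderHom 0)
  have h := c.2 0 (α.unop.toOrderHom 0) (α.unop.toOrderHom i)
  rw [← h]
  ring

theorem toBZ_zero (n : ℕ) : (toBZ (0 : BB.X n)) ∈ BZ.b0.obj (bx n) := by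
  show (fun i j => (0 : ZMod 2) + 0) = 0
  funext i j
  exact add_zero 0

theorem toBB_zero {k : Dop} (c : BZ.obj k) (h : c ∈ BZ.b0.obj k) : toBB c = 0 := by
  apply Subtype.ext
  have h' : c.1 = 0 := h
  funext i
  show c.1 0 i = 0
  rw [h']
  rfl

section tr
variable (V : SH.TT.SV)

/-- The translation of simplices of the mapping space. -/
def tr {t : ℕ} (z : (MapP BZ BZ.b0 V).obj (bx t)) : (MapS BB (svS V)).X t :=
  ⟨fun n x => MapP.ev z (bx n) (toBZ x.2) (toD x.1), fun m n a x => by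
    show MapP.ev z (bx m) (toBZ (BB.map a x.2)) (toD (x.1.comp a)) =
      V.map (toD a) (MapP.ev z (bx n) (toBZ x.2) (toD x.1))
    rw [toBZ_map, toD_comp, MapP.nat]⟩

theorem tr_apply {t : ℕ} (z : (MapP BZ BZ.b0 V).obj (bx t)) (n : ℕ)
    (x : ((SHS.SS.simplex t).prod BB).X n) :
    (tr V z).1 n x = MapP.ev z (bx n) (toBZ x.2) (toD x.1) := rfl

theorem tr_PT {t : ℕ} (z : (MapP BZ BZ.b0 V).obj (bx t)) : tr V z ∈ PT (svS V) t := by
  intro r a
  exact MapP.van z _ _ (toBZ_zero r)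

/-- The inverse translation. -/
def rt {t : ℕ} (f : (MapS BB (svS V)).X t) (hf : f ∈ PT (svS V) t) :
    (MapP BZ BZ.b0 V).obj (bx t) :=
  MapP.mk (fun k c σ => f.1 k.unop.len (ofD σ, toBB c))
    (fun {k l} α c σ => by
      have h := f.2 l.unop.len k.unop.len (ofD α) (ofD σ, toBB c)
      have h2 : toD (ofD α) = α := toD_ofD α
      show f.1 l.unop.len ((ofD σ).comp (ofD α), toBB (BZ.map α c)) = _
      rw [toBB_map]
      refine h.trans ?_
      show V.map (toD (ofD α)) _ = _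
      rw [h2])
    (fun k c σ h => by
      rw [toBB_zero c h]
      exact hf k.unop.len (ofD σ))

theorem tr_rt {t : ℕ} (f : (MapS BB (svS V)).X t) (hf : f ∈ PT (svS V) t) :
    tr V (rt V f hf) = f := by
  apply HV.ext
  intro n x
  show f.1 n (ofD (toD x.1), toBB (toBZ x.2)) = f.1 n x
  rw [toBB_toBZ]
  rfl

theorem tr_inj {t : ℕ} {z z' : (MapP BZ BZ.b0 V).obj (bx t)} (h : tr V z = tr V z') : z = z' := by
  apply MapP.ext
  intro k c σ
  have h1 : (tr V z).1 k.unop.len (ofD σ, toBB c) = (tr V z').1 k.unop.len (ofD σ, toBB c) := by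
    rw [h]
  rw [tr_apply, tr_apply] at h1
  simp only [toBZ_toBB] at h1
  have h2 : toD (ofD σ) = σ := toD_ofD σ
  rw [h2] at h1
  exact h1

theorem tr_add {t : ℕ} (z z' : (MapP BZ BZ.b0 V).obj (bx t)) : tr V (z + z') = tr V z + tr V z' := by
  apply HV.ext
  intro n x
  rfl

theorem tr_zero {t : ℕ} : tr V (0 : (MapP BZ BZ.b0 V).obj (bx t)) = 0 := by
  apply HV.ext
  intro n x
  rfl

theorem tr_map {r t : ℕ} (a : Mor r t) (z : (MapP BZ BZ.b0 V).obj (bx t)) :
    tr V ((MapP BZ BZ.b0 V).map (toD a) z) = (MapS BB (svS V)).map a (tr V z) := by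
  apply HV.ext
  intro n x
  show MapP.ev z (bx n) (toBZ x.2) (toD a ≫ toD x.1) =
    MapP.ev z (bx n) (toBZ x.2) (toD (a.comp x.1))
  rw [toD_comp]

theorem tr_ZM {t : ℕ} (z : (MapP BZ BZ.b0 V).obj (bx t)) :
    tr V z ∈ ZM (MapS BB (svS V)) t ↔ MCyc (MapP BZ BZ.b0 V) t z := by
  constructor
  · intro h k α hα
    have h1 : (MapS BB (svS V)).map (ofD α) (tr V z) = 0 := h k.unop.len (ofD α) hα
    rw [← tr_map, ← tr_zero V] at h1
    have h2 := tr_inj V h1
    have h3 : toD (ofD α) = α := toD_ofD α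
    rw [h3] at h2
    exact h2
  · intro h r a ha
    have h1 := h (bx r) (toD a) ha
    rw [← tr_map, h1, tr_zero]

theorem toD_cof {n : ℕ} (i : Fin (n + 2)) : toD (cof i : Mor n (n + 1)) = dop i := rfl

theorem tr_PB {t : ℕ} (z : (MapP BZ BZ.b0 V).obj (bx t)) :
    PB (svS V) t (tr V z) ↔ MBd (MapP BZ BZ.b0 V) t z := by
  constructor
  · rintro ⟨w, hw, h0, hi⟩
    refine ⟨rt V w hw, ?_, fun i => ?_⟩
    · apply tr_inj V
      rw [← toD_cof, tr_map, tr_rt]
      exact h0
    · apply tr_inj V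
      rw [← toD_cof, tr_map, tr_rt, tr_zero]
      exact hi i.succ (Fin.succ_ne_zero i)
  · rintro ⟨w, h0, hi⟩
    refine ⟨tr V w, tr_PT V w, ?_, fun i hi0 => ?_⟩
    · rw [← tr_map, toD_cof, h0]
    · obtain ⟨j, rfl⟩ := Fin.exists_succ_eq.2 hi0
      rw [← tr_map, toD_cof, hi j, tr_zero]

end tr

theorem toS_cof {n : ℕ} (i : Fin (n + 2)) : toS (cof i : Mor n (n + 1)) = SimplexCategory.δ i := rfl

/-- The mapping object. -/
abbrev DM (m : ℕ) : SH.TT.CoV := (XD m).mp BZ BZ.b0

theorem tr_cof (m s : ℕ) {t : ℕ} (i : Fin (s + 2)) (z : ((DM m).V s).obj (bx t)) :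
    tr (XV m (s + 1)) ((DM m).cof s i (bx t) z) = HV.app (XS.op m (cof i)) (tr (XV m s) z) := by
  apply HV.ext
  intro n x
  rfl

theorem tr_sum (V : SH.TT.SV) {t : ℕ} {ι : Type} (S : Finset ι)
    (z : ι → (MapP BZ BZ.b0 V).obj (bx t)) : tr V (∑ i ∈ S, z i) = ∑ i ∈ S, tr V (z i) := by
  classical
  induction S using Finset.induction_on with
  | empty => exact tr_zero V
  | insert a S ha ih => rw [Finset.sum_insert ha, Finset.sum_insert ha, tr_add, ih]

theorem tr_dl (m s : ℕ) {t : ℕ} (z : (MapP BZ BZ.b0 (XV (m + 1) s)).obj (bx t)) :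
    tr (XV (m + 1) (s + 1)) ((DM (m + 1)).dl s z) = (XSC m).cf s (tr (XV (m + 1) s) z) := by
  refine (tr_sum (XV (m + 1) (s + 1)) Finset.univ
    (fun i : Fin (s + 2) => (DM (m + 1)).cof s i (bx t) z)).trans ?_
  refine Finset.sum_congr rfl fun i _ => ?_
  exact tr_cof (m + 1) s i z

theorem EX_of_FINAL (m : ℕ) (h : (XSC m).FINAL) : ExC ((XD (m + 1)).mp BZ BZ.b0) 1 := by
  intro t ht
  obtain ⟨h0, h1⟩ := h t ht
  refine ⟨fun z hz hb => ?_, fun s z hz hb => ?_⟩
  · refine (tr_PB (XV (m + 1) 0) z).1 ?_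
    refine h0 (tr (XV (m + 1) 0) z) ((tr_ZM (XV (m + 1) 0) z).2 hz) (tr_PT (XV (m + 1) 0) z) ?_
    exact Eq.subst (motive := fun q => PB (svS (XV (m + 1) 1)) t q) (tr_dl m 0 z)
      ((tr_PB (XV (m + 1) 1) _).2 hb)
  · have h2 := Eq.subst (motive := fun q => PB (svS (XV (m + 1) (s + 2))) t q)
      (tr_dl m (s + 1) z) ((tr_PB (XV (m + 1) (s + 2)) _).2 hb)
    obtain ⟨y, hy, hy', hyb⟩ := h1 s (tr (XV (m + 1) (s + 1)) z)
      ((tr_ZM (XV (m + 1) (s + 1)) z).2 hz) (tr_PT (XV (m + 1) (s + 1)) z) h2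
    refine ⟨rt (XV (m + 1) s) y hy', ?_, ?_⟩
    · refine (tr_ZM (XV (m + 1) s) _).1 ?_
      rw [tr_rt]
      exact hy
    · refine (tr_PB (XV (m + 1) (s + 1)) _).1 ?_
      have h3 : tr (XV (m + 1) (s + 1)) ((DM (m + 1)).dl s (rt (XV (m + 1) s) y hy')) =
          (XSC m).cf s y := by
        rw [tr_dl, tr_rt]
      have h4 := tr_add (XV (m + 1) (s + 1)) z ((DM (m + 1)).dl s (rt (XV (m + 1) s) y hy'))
      rw [h3] at h4
      refine Eq.subst (motive := fun q => PB (svS (XV (m + 1) (s + 1))) t q) h4.symm ?_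
      exact hyb

/-- `Stmt_EX` from the final statement of block LINK. -/
theorem stmt_EX (h : ∀ m : ℕ, 1 ≤ m → (XSC m).FINAL) : SH.TT.Stmt_EX := by
  intro m hm
  obtain ⟨n, rfl⟩ : ∃ n, m = n + 1 := ⟨m - 1, by omega⟩
  exact EX_of_FINAL n (h n (by omega))

/-- `Stmt_EX` from `LINK_Stmt`. -/
theorem stmt_EX_of_link (hL : LINK_Stmt)
    (hP : ∀ V : SHS.SV, V.LF → (∀ x : V.X 0, x = 0) → SHQ.PolyGen V.toSS)
    (hfin : SHQ.FIN_Stmt (ZMod 2)) : SH.TT.Stmt_EX :=
  stmt_EX fun m _ => hL (XSC m) ⟨2 * (m + 1) + 1, fun j hj => XSC_QE hP hfin m j (by omega)⟩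

end Pool.Agent.SHL

end

end
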