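import Mathlib
import Pool.Agent.SHM.C03
import Pool.Agent.SHM.C04
import Pool.Agent.SHM.C06
import Pool.Agent.SHM.C09
import Pool.Agent.SHM.C11

/-! Parts: SH.S.Sus, SH.S.Add, SH.S.Pw2, SH.S.Bxhb, SH.S.Sphc, SH.S.E2b, SH.S.E2, SH.S.Link, SH.S.Barb, SH.S.Wf, SH.S.Cnt, SH.S.AllS, SH.S.AllV, SH.L.Emr, SH.L.Pha, SH.L.Cv, SH.L.Bv, SH.L.Msc, SH.L.Val -/

section

/-!
Block III-S, module SHS_SUS: the suspension formula for the operations `Pop`.
-/

namespace Pool.Agent.SHS

namespace Sus

open Coch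

/-- The interval. -/
abbrev I1 : SS := SS.simplex 1

open Classical in
/-- The value of the collapse map. -/
noncomputable def q1f (n : ℕ) (a : Mor n 1) : S1.X n :=
  if h : Function.Surjective a then some ⟨a, h⟩ else none

/-- The collapse map from the interval to the circle. -/
noncomputable def q1 : SS.Hom I1 S1 where
  f n a := q1f n a
  nat {m n} b a := by
    show q1f m (a.comp b) = (q1f n a).bind ((PS.sphere 1).map b)
    unfold q1f
    by_cases h : Function.Surjective a
    · rw [dif_pos h]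
      rfl
    · rw [dif_neg h]
      have h' : ¬ Function.Surjective (a.comp b) := by
        intro hs
        apply h
        intro y
        obtain ⟨z, hz⟩ := hs y
        exact ⟨b z, hz⟩
      rw [dif_neg h']
      rfl

/-- The collapse map times `Y`. -/
noncomputable def qq (Y : SS) : SS.Hom (I1.prod Y) (S1.prod Y) where
  f n x := (q1.f n x.1, x.2)
  nat {m n} b x := by
    show (q1.f m (I1.map b x.1), Y.map b x.2) = (S1.map b (q1.f n x.1), Y.map b x.2)
    rw [q1.nat]

theorem mor_cases {n : ℕ} (a : Mor n 1) :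
    Function.Surjective a ∨ a = cst 0 ∨ a = cst 1 := by
  have h2 : ∀ j : Fin 2, j = 0 ∨ j = 1 := by decide
  rcases h2 (a 0) with h | h
  · by_cases h' : ∃ j, a j = 1
    · left
      obtain ⟨j, hj⟩ := h'
      intro i
      rcases h2 i with hi | hi
      · exact ⟨0, by rw [hi]; exact h⟩
      · exact ⟨j, by rw [hi]; exact hj⟩
    · right; left
      apply OrderHom.ext
      funext j
      rcases h2 (a j) with hi | hi
      · exact hi
      · exact absurd ⟨j, hi⟩ h'
  · right; right
    apply OrderHom.ext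
    funext j
    rcases h2 (a j) with hi | hi
    · have h3 : a 0 ≤ a j := a.monotone (Fin.zero_le _)
      rw [h, hi] at h3
      exact absurd h3 (by decide)
    · exact hi

theorem qq_surj (Y : SS) (n : ℕ) (x : (S1.prod Y).X n) : ∃ x', (qq Y).f n x' = x := by
  rcases x with ⟨o, y⟩
  cases o with
  | none =>
    refine ⟨(cst 0, y), ?_⟩
    show (q1f n (cst 0), y) = (none, y)
    unfold q1f
    have h : ¬ Function.Surjective (cst 0 : Mor n 1) := by
      intro hs
      obtain ⟨z, hz⟩ := hs 1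
      exact absurd hz (by show ¬ ((0 : Fin 2) = 1); decide)
    rw [dif_neg h]
  | some a =>
    refine ⟨(a.1, y), ?_⟩
    show (q1f n a.1, y) = (some a, y)
    unfold q1f
    rw [dif_pos a.2]

theorem pull_inj (Y : SS) (f g : Coch (S1.prod Y)) (h : pull (qq Y) f = pull (qq Y) g) :
    f = g := by
  ext n x
  obtain ⟨x', rfl⟩ := qq_surj Y n x
  exact congrArg (fun c : Coch (I1.prod Y) => c n x') h

/-- The tautological cochain of degree 0 of the interval. -/
def tt : Coch I1 := Coch.single 0 (fun a : Mor 0 1 => if a 0 = 0 then 0 else 1)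

theorem pull_q1 : pull q1 (pull s1 uC) = dlt tt := by
  ext n a
  cases n with
  | zero =>
    rw [dlt_zero, pull_apply, pull_apply]
    exact single_ne (by omega) _ _
  | succ n =>
    rw [dlt_succ]
    by_cases h : n = 0
    · subst h
      rw [Fin.sum_univ_two]
      have e0 : tt 0 (I1.map (cof 0) a) = if a 1 = 0 then 0 else 1 := by
        unfold tt
        rw [single_self]
        rfl
      have e1 : tt 0 (I1.map (cof 1) a) = if a 0 = 0 then 0 else 1 := by
        unfold tt
        rw [single_self]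
        rfl
      rw [e0, e1, pull_apply, pull_apply]
      unfold uC
      rw [single_self]
      show (s1.f 1 (q1f 1 a)).1 1 = _
      rcases mor_cases a with hs | hs | hs
      · unfold q1f
        rw [dif_pos hs]
        show (if a 1 = 0 then (0 : k) else 1) = _
        obtain ⟨j, hj⟩ := hs 0
        have h1 : a 0 ≤ a j := a.monotone (Fin.zero_le _)
        rw [hj] at h1
        rw [if_pos (le_antisymm h1 (Fin.zero_le _)), add_zero]
      · subst hs
        have h' : ¬ Function.Surjective (cst 0 : Mor 1 1) := by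
          intro hs
          obtain ⟨z, hz⟩ := hs 1
          exact absurd hz (by show ¬ ((0 : Fin 2) = 1); decide)
        unfold q1f
        rw [dif_neg h']
        show (0 : k) = (if (0 : Fin 2) = 0 then (0 : k) else 1) + if (0 : Fin 2) = 0 then (0 : k) else 1
        decide
      · subst hs
        have h' : ¬ Function.Surjective (cst 1 : Mor 1 1) := by
          intro hs
          obtain ⟨z, hz⟩ := hs 0
          exact absurd hz (by show ¬ ((1 : Fin 2) = 0); decide)
        unfold q1f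
        rw [dif_neg h']
        show (0 : k) = (if (1 : Fin 2) = 0 then (0 : k) else 1) + if (1 : Fin 2) = 0 then (0 : k) else 1
        decide
    · rw [Finset.sum_eq_zero]
      · rw [pull_apply, pull_apply]
        exact single_ne (by omega) _ _
      · intro i _
        exact single_ne h _ _

/-- Restriction to an end. -/
def cc (Y : SS) (v : Fin 2) : SS.Hom Y (I1.prod Y) where
  f n y := (cst v, y)
  nat b y := rfl

/-- The constant map to the interval. -/
def c1 (Y : SS) (v : Fin 2) : SS.Hom Y I1 where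
  f n y := cst v
  nat b y := rfl

theorem pull_fst (Y : SS) (v : Fin 2) (f : Coch I1) :
    pull (cc Y v) (pull (SS.fst I1 Y) f) = pull (c1 Y v) f := rfl

theorem pull_snd (Y : SS) (v : Fin 2) (f : Coch Y) :
    pull (cc Y v) (pull (SS.snd I1 Y) f) = f := rfl

theorem pull_c0 (Y : SS) : pull (c1 Y 0) tt = 0 := by
  ext n y
  rw [pull_apply]
  cases n with
  | zero =>
    show tt 0 (cst 0) = 0
    unfold tt
    rw [single_self]
    rfl
  | succ n => exact single_ne (by omega) _ _

theorem pull_c1 (Y : SS) : pull (c1 Y 1) tt = 1 := by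
  ext n y
  rw [pull_apply, cone_apply]
  cases n with
  | zero =>
    show tt 0 (cst 1) = _
    unfold tt
    rw [single_self]
    rfl
  | succ n =>
    rw [if_neg (by omega)]
    exact single_ne (by omega) _ _

/-- The cochain on the cylinder. -/
noncomputable def yh {Y : SS} (y : Coch Y) : Coch (I1.prod Y) :=
  pull (SS.fst I1 Y) tt * pull (SS.snd I1 Y) y

theorem dlt_yh {Y : SS} (y : Coch Y) (hy : dlt y = 0) :
    dlt (yh y) = pull (SS.fst I1 Y) (dlt tt) * pull (SS.snd I1 Y) y := by
  unfold yh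
  rw [leibniz, dlt_pull, dlt_pull, hy, map_zero, mul_zero, add_zero]

/-- The cochain on the suspension. -/
noncomputable def zz {Y : SS} (y : Coch Y) : Coch (S1.prod Y) :=
  pull (SS.fst S1 Y) (pull s1 uC) * pull (SS.snd S1 Y) y

theorem pull_zz {Y : SS} (y : Coch Y) :
    pull (qq Y) (zz y) = pull (SS.fst I1 Y) (dlt tt) * pull (SS.snd I1 Y) y := by
  unfold zz
  rw [map_mul, ← pull_q1]
  rfl

/-- The corrected cochain. -/
noncomputable def ww {Y : SS} (s : ℕ) (y : Coch Y) : Coch (I1.prod Y) :=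
  cupS (s + 2) (yh y) (dlt (yh y)) + cupS (s + 1) (yh y) (yh y)
    + yh (cupS (s + 1) y y)

theorem dlt_ww {Y : SS} (s : ℕ) (y : Coch Y) (hy : dlt y = 0) :
    dlt (ww s y) = pull (qq Y) (cupS (s + 2) (zz y) (zz y) + zz (cupS (s + 1) y y)) := by
  have h1 : pull (qq Y) (zz y) = dlt (yh y) := by rw [pull_zz, dlt_yh y hy]
  have h2 : pull (qq Y) (zz (cupS (s + 1) y y)) = dlt (yh (cupS (s + 1) y y)) := by
    rw [pull_zz, dlt_yh _ (dlt_cupS_self (s + 1) y hy)]
  rw [map_add, pull_cupS, h1, h2]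
  unfold ww
  rw [map_add, map_add, dlt_cupS, dlt_cupS, dlt_dlt, cupS_zero_right]
  have t1 := mod_two (cupS (s + 1) (yh y) (dlt (yh y)))
  have t2 := mod_two (cupS (s + 1) (dlt (yh y)) (yh y))
  have t3 := mod_two (cupS s (yh y) (yh y))
  calc cupS (s + 1 + 1) (dlt (yh y)) (dlt (yh y)) + 0 + cupS (s + 1) (yh y) (dlt (yh y))
        + cupS (s + 1) (dlt (yh y)) (yh y)
        + (cupS (s + 1) (dlt (yh y)) (yh y) + cupS (s + 1) (yh y) (dlt (yh y))
          + cupS s (yh y) (yh y) + cupS s (yh y) (yh y)) + dlt (yh (cupS (s + 1) y y))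
      = cupS (s + 1 + 1) (dlt (yh y)) (dlt (yh y))
        + (cupS (s + 1) (yh y) (dlt (yh y)) + cupS (s + 1) (yh y) (dlt (yh y)))
        + (cupS (s + 1) (dlt (yh y)) (yh y) + cupS (s + 1) (dlt (yh y)) (yh y))
        + (cupS s (yh y) (yh y) + cupS s (yh y) (yh y)) + dlt (yh (cupS (s + 1) y y)) := by abel
    _ = cupS (s + 1 + 1) (dlt (yh y)) (dlt (yh y)) + dlt (yh (cupS (s + 1) y y)) := by
        rw [t1, t2, t3]; abel

theorem pull_yh0 {Y : SS} (y : Coch Y) : pull (cc Y 0) (yh y) = 0 := by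
  unfold yh
  rw [map_mul, pull_fst, pull_c0, zero_mul]

theorem pull_yh1 {Y : SS} (y : Coch Y) : pull (cc Y 1) (yh y) = y := by
  unfold yh
  rw [map_mul, pull_fst, pull_c1, one_mul, pull_snd]

theorem pull_ww0 {Y : SS} (s : ℕ) (y : Coch Y) : pull (cc Y 0) (ww s y) = 0 := by
  unfold ww
  rw [map_add, map_add, pull_cupS, pull_cupS, pull_yh0, pull_yh0, cupS_zero_left,
    cupS_zero_left, add_zero, add_zero]

theorem pull_ww1 {Y : SS} (s : ℕ) (y : Coch Y) (hy : dlt y = 0) :
    pull (cc Y 1) (ww s y) = 0 := by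
  unfold ww
  rw [map_add, map_add, pull_cupS, pull_cupS, pull_yh1, pull_yh1, ← dlt_pull, pull_yh1, hy,
    cupS_zero_right, zero_add, mod_two]

/-- The descended cochain. -/
noncomputable def w2 {Y : SS} (w : Coch (I1.prod Y)) : Coch (S1.prod Y) :=
  ⟨fun n x => x.1.elim 0 (fun a => w n (a.1, x.2))⟩

theorem pull_w2 {Y : SS} (w : Coch (I1.prod Y)) (h0 : pull (cc Y 0) w = 0)
    (h1 : pull (cc Y 1) w = 0) : pull (qq Y) (w2 w) = w := by
  ext n x
  rcases x with ⟨a, y⟩
  rw [pull_apply]
  show (q1f n a).elim 0 (fun a => w n (a.1, y)) = w n (a, y)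
  rcases mor_cases a with hs | hs | hs
  · unfold q1f
    rw [dif_pos hs]
    rfl
  · subst hs
    have h' : ¬ Function.Surjective (cst 0 : Mor n 1) := by
      intro hs
      obtain ⟨z, hz⟩ := hs 1
      exact absurd hz (by show ¬ ((0 : Fin 2) = 1); decide)
    unfold q1f
    rw [dif_neg h']
    exact (congrArg (fun c : Coch Y => c n y) h0).symm
  · subst hs
    have h' : ¬ Function.Surjective (cst 1 : Mor n 1) := by
      intro hs
      obtain ⟨z, hz⟩ := hs 0
      exact absurd hz (by show ¬ ((1 : Fin 2) = 0); decide)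
    unfold q1f
    rw [dif_neg h']
    exact (congrArg (fun c : Coch Y => c n y) h1).symm

theorem main {Y : SS} (s : ℕ) (y : Coch Y) (hy : dlt y = 0) :
    dlt (w2 (ww s y)) = cupS (s + 2) (zz y) (zz y) + zz (cupS (s + 1) y y) := by
  apply pull_inj
  rw [← dlt_pull, pull_w2 _ (pull_ww0 s y) (pull_ww1 s y hy), dlt_ww s y hy]

end Sus

open Sus Coch in
theorem SUS : SUS_Stmt := by
  intro Y s b
  obtain ⟨y, rfl⟩ := cls_surjective b
  unfold ee uu
  rw [Pop_cls, H.map_cls, H.map_cls, H.map_cls, H.map_cls, ← map_mul, ← map_mul, Pop_cls, cls_eq]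
  refine ⟨w2 (ww s y.1), ?_⟩
  rw [main s y.1 y.2]
  show _ = cupS (s + 2) (zz y.1) (zz y.1) - zz (cupS (s + 1) y.1 y.1)
  rw [mod_two_sub]

end Pool.Agent.SHS


end

section

/-!
Block III-S: the algebraic criterion for additive operations.
-/

namespace Pool.Agent.SHS

open MvPolynomial

namespace Add

theorem deg_sum {m n : ℕ} {P : MvPolynomial (Fin (m + 1)) k} (h : P.IsHomogeneous n)
    {e : Fin (m + 1) →₀ ℕ} (he : P.coeff e ≠ 0) : ∑ i, e i = n := by
  have h1 := h he
  rw [← h1, ← Finsupp.degree_eq_sum]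
  rw [Finsupp.degree_eq_weight_one]
  rfl

theorem exists_one {m n : ℕ} (hn : n < 2 * (m + 1)) {P : MvPolynomial (Fin (m + 1)) k}
    (h : P.IsHomogeneous n) (hp : ∀ e ∈ P.support, ∀ j, ∃ l : ℕ, e j = 2 ^ l)
    {e : Fin (m + 1) →₀ ℕ} (he : P.coeff e ≠ 0) : ∃ j, e j = 1 := by
  by_contra hc
  push Not at hc
  have h2 : ∀ j, 2 ≤ e j := by
    intro j
    obtain ⟨l, hl⟩ := hp e (mem_support_iff.mpr he) j
    have h3 := hc j
    have h4 : 1 ≤ 2 ^ l := Nat.one_le_two_pow
    omega
  have h5 : ∑ _i : Fin (m + 1), 2 ≤ ∑ i, e i := Finset.sum_le_sum fun i _ => h2 i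
  rw [deg_sum h he] at h5
  simp at h5
  omega

end Add

open Add in
theorem ADD : ADD_Stmt := by
  intro m n P Q hn hP hQ sP sQ pP pQ h0
  have key : ∀ (e : Fin (m + 1) →₀ ℕ) (j : Fin (m + 1)), e j = 1 → P.coeff e = Q.coeff e := by
    intro e j hj
    set s : Equiv.Perm (Fin (m + 1)) := Equiv.swap 0 j with hs
    have h1 := coeff_rename_mapDomain s s.injective P e
    have h2 := coeff_rename_mapDomain s s.injective Q e
    rw [sP] at h1
    rw [sQ] at h2
    rw [← h1, ← h2]
    apply h0
    have h3 : s j = 0 := by rw [hs, Equiv.swap_apply_right]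
    have h4 := Finsupp.mapDomain_apply s.injective e j
    rw [h3] at h4
    rw [h4, hj]
  ext e
  by_cases hp : P.coeff e = 0
  · by_cases hq : Q.coeff e = 0
    · rw [hp, hq]
    · obtain ⟨j, hj⟩ := exists_one hn hQ pQ hq
      exact key e j hj
  · obtain ⟨j, hj⟩ := exists_one hn hP pP hp
    exact key e j hj

end Pool.Agent.SHS


end

section

namespace Pool.Agent.SHS

namespace Pw2

open Polynomial in
theorem choose_odd (l q : ℕ) : ((2 ^ l * q).choose (2 ^ l) : ZMod 2) = (q : ZMod 2) := by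
  have h1 : ((1 + X : (ZMod 2)[X]) ^ (2 ^ l * q)).coeff (2 ^ l)
      = ((2 ^ l * q).choose (2 ^ l) : ZMod 2) := by
    rw [add_comm, Polynomial.coeff_X_add_one_pow]
  have h2 : (1 + X : (ZMod 2)[X]) ^ (2 ^ l * q) = Polynomial.expand (ZMod 2) (2 ^ l) ((1 + X) ^ q) := by
    rw [map_pow, map_add, map_one, Polynomial.expand_X, pow_mul]
    congr 1
    have := add_pow_char_pow (R := (ZMod 2)[X]) (p := 2) (n := l) 1 X
    rw [this, one_pow]
  rw [← h1, h2]
  have h3 := Polynomial.coeff_expand_mul (R := ZMod 2) (p := 2 ^ l) (by positivity)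
    ((1 + X : (ZMod 2)[X]) ^ q) 1
  rw [one_mul] at h3
  rw [h3, add_comm, Polynomial.coeff_X_add_one_pow, Nat.choose_one_right]

theorem pow_two_of_choose (n : ℕ) (hn : 1 ≤ n)
    (h : ∀ i j, 1 ≤ i → 1 ≤ j → i + j = n → (n.choose i : ZMod 2) = 0) : ∃ l : ℕ, n = 2 ^ l := by
  obtain ⟨l, q, hq, rfl⟩ := Nat.exists_eq_two_pow_mul_odd (n := n) (by omega)
  refine ⟨l, ?_⟩
  by_contra hne
  have hq1 : 1 < q := by
    obtain ⟨r, rfl⟩ := hq
    rcases Nat.eq_zero_or_pos r with h0 | h0
    · subst h0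
      simp at hne
    · omega
  have h1 := h (2 ^ l) (2 ^ l * (q - 1)) Nat.one_le_two_pow
    (Nat.mul_pos (by positivity) (by omega)) (by
      obtain ⟨r, rfl⟩ := Nat.exists_eq_add_of_lt hq1
      have : 1 + r + 1 - 1 = 1 + r := by omega
      rw [this]
      ring)
  rw [choose_odd] at h1
  rw [ZMod.natCast_eq_zero_iff_even] at h1
  exact (Nat.not_even_iff_odd.2 hq) h1

open Polynomial in
theorem comp_eq (m : ℕ) (P : MvPolynomial (Fin (m + 1)) k)
    (t : Polynomial (Polynomial (MvPolynomial (Fin m) k))) :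
    MvPolynomial.aeval (Fin.cons t (fun j => C (C (MvPolynomial.X j))) :
        Fin (m + 1) → Polynomial (Polynomial (MvPolynomial (Fin m) k))) P
      = (((MvPolynomial.finSuccEquiv k m P).map
          (C : MvPolynomial (Fin m) k →+* Polynomial (MvPolynomial (Fin m) k))).comp t) := by
  induction P using MvPolynomial.induction_on with
  | C a =>
    rw [MvPolynomial.aeval_C]
    rw [show MvPolynomial.finSuccEquiv k m (MvPolynomial.C a) =
      algebraMap k (Polynomial (MvPolynomial (Fin m) k)) a from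
        (MvPolynomial.finSuccEquiv k m).commutes a]
    rw [IsScalarTower.algebraMap_apply k (MvPolynomial (Fin m) k)
      (Polynomial (MvPolynomial (Fin m) k))]
    rw [← Polynomial.C_eq_algebraMap, Polynomial.map_C, Polynomial.C_comp]
    rfl
  | add p q hp hq =>
    rw [map_add, map_add, Polynomial.map_add, Polynomial.add_comp, hp, hq]
  | mul_X p i hp =>
    rw [map_mul, map_mul, Polynomial.map_mul, Polynomial.mul_comp, hp, MvPolynomial.aeval_X]
    congr 1
    refine Fin.cases ?_ (fun j => ?_) i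
    · rw [MvPolynomial.finSuccEquiv_X_zero, Polynomial.map_X, Polynomial.X_comp, Fin.cons_zero]
    · rw [MvPolynomial.finSuccEquiv_X_succ, Polynomial.map_C, Polynomial.C_comp, Fin.cons_succ]

open Polynomial in
theorem hasse (R : Type) [CommRing R] (p : Polynomial R) (i : ℕ) (hi : 1 ≤ i)
    (h : (p.map (C : R →+* Polynomial R)).comp (X + C X) =
      (p.map (C : R →+* Polynomial R)).comp X + (p.map (C : R →+* Polynomial R)).comp (C X)) :
    hasseDeriv i p = C (p.coeff i) := by
  have h1 := congrArg (fun f => f.coeff i) h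
  simp only [Polynomial.comp_X, Polynomial.comp_C, Polynomial.coeff_add, Polynomial.coeff_map] at h1
  rw [Polynomial.coeff_C_of_ne_zero (by omega), add_zero] at h1
  rw [← h1, ← Polynomial.taylor_apply, Polynomial.taylor_coeff]
  have h2 : hasseDeriv i (p.map (C : R →+* Polynomial R)) = (hasseDeriv i p).map C := by
    ext n : 1
    simp [Polynomial.hasseDeriv_coeff]
  rw [h2, Polynomial.eval_map, Polynomial.eval₂_C_X]

end Pw2

open Pool.Agent.SHS.Pw2 Polynomial in
theorem PW2 : PW2_Stmt := by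
  intro m P hP e he
  set R := MvPolynomial (Fin m) k with hR
  let φ : MvPolynomial (Fin (m + 2)) k →ₐ[k] Polynomial (Polynomial R) :=
    MvPolynomial.aeval (Fin.cons X (Fin.cons (C X) (fun j => C (C (MvPolynomial.X j)))))
  have hφ0 : φ (MvPolynomial.X 0) = X := by
    show MvPolynomial.aeval _ _ = _
    rw [MvPolynomial.aeval_X, Fin.cons_zero]
  have hφ1 : φ (MvPolynomial.X 1) = C X := by
    show MvPolynomial.aeval _ _ = _
    rw [MvPolynomial.aeval_X, show (1 : Fin (m + 2)) = Fin.succ 0 from rfl, Fin.cons_succ,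
      Fin.cons_zero]
  have hφ2 : ∀ j : Fin m, φ (MvPolynomial.X j.succ.succ) = C (C (MvPolynomial.X j)) := by
    intro j
    show MvPolynomial.aeval _ _ = _
    rw [MvPolynomial.aeval_X, Fin.cons_succ, Fin.cons_succ]
  have key : ∀ t : MvPolynomial (Fin (m + 2)) k,
      φ (MvPolynomial.aeval (Fin.cons t (fun j => MvPolynomial.X j.succ.succ) :
        Fin (m + 1) → MvPolynomial (Fin (m + 2)) k) P) =
      (((MvPolynomial.finSuccEquiv k m P).map (C : R →+* Polynomial R)).comp (φ t)) := by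
    intro t
    rw [← comp_eq, ← AlgHom.comp_apply]
    congr 1
    apply MvPolynomial.algHom_ext
    intro i
    rw [AlgHom.comp_apply, MvPolynomial.aeval_X, MvPolynomial.aeval_X]
    refine Fin.cases ?_ (fun j => ?_) i
    · rw [Fin.cons_zero, Fin.cons_zero]
    · rw [Fin.cons_succ, Fin.cons_succ, hφ2]
  have h1 := congrArg φ hP
  rw [map_add, key, key, key, map_add, hφ0, hφ1] at h1
  set p := MvPolynomial.finSuccEquiv k m P with hp
  have hc : p.coeff (e 0) ≠ 0 := by
    intro h0
    rw [MvPolynomial.mem_support_iff] at he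
    apply he
    have := MvPolynomial.finSuccEquiv_coeff_coeff (e.tail) P (e 0)
    rw [Finsupp.cons_tail] at this
    rw [← this, ← hp, h0, MvPolynomial.coeff_zero]
  have h2 : ∀ i j, 1 ≤ i → 1 ≤ j → i + j = e 0 → ((e 0).choose i : ZMod 2) = 0 := by
    intro i j hi hj hij
    have h3 := hasse R p i hi h1
    have h4 := congrArg (fun f => f.coeff j) h3
    simp only [Polynomial.hasseDeriv_coeff] at h4
    rw [Polynomial.coeff_C_of_ne_zero (by omega), show j + i = e 0 by omega] at h4
    have h5 : (((e 0).choose i : ZMod 2)) • p.coeff (e 0) = 0 := by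
      rw [← h4, Algebra.smul_def, map_natCast]
    rcases smul_eq_zero.1 h5 with h6 | h6
    · exact h6
    · exact absurd h6 hc
  have h0 : 1 ≤ e 0 := by
    by_contra hlt
    have he0 : e 0 = 0 := by omega
    rw [he0] at hc
    have h7 := congrArg (fun f => f.coeff 0) h1
    have h8 := congrArg (fun f => f.coeff 0) h7
    apply hc
    have e1 : (((p.map (C : R →+* Polynomial R)).comp (X + C X)).coeff 0).coeff 0 = p.coeff 0 := by
      rw [← Polynomial.taylor_apply, Polynomial.taylor_coeff_zero, Polynomial.eval_map,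
        Polynomial.eval₂_C_X]
    have e2 : (((p.map (C : R →+* Polynomial R)).comp X).coeff 0).coeff 0 = p.coeff 0 := by
      rw [Polynomial.comp_X, Polynomial.coeff_map, Polynomial.coeff_C_zero]
    have e3 : (((p.map (C : R →+* Polynomial R)).comp (C X)).coeff 0).coeff 0 = p.coeff 0 := by
      rw [Polynomial.comp_C, Polynomial.coeff_C_zero, Polynomial.eval_map, Polynomial.eval₂_C_X]
    simp only [Polynomial.coeff_add] at h8
    rw [e1, e2, e3] at h8
    exact left_eq_add.1 h8
  exact pow_two_of_choose _ h0 h2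

end Pool.Agent.SHS


end

section

/-!
Block III-S: the homogeneous basis of the cohomology of `G^p` in bar coordinates.
-/

namespace Pool.Agent.SHS

namespace Bxhb

variable (G : SV) (p : ℕ)

/-- bar coordinates -/
def phi : SS.Hom (G.BX p) (G.toSS.pow p) where
  f _ x := fun j => x.1 j.succ - x.1 j.castSucc
  nat a x := by
    funext j
    show G.map a (x.1 j.succ) - G.map a (x.1 j.castSucc) = G.map a (x.1 j.succ - x.1 j.castSucc)
    rw [map_sub]

/-- cumulative sums -/
def cum {M : Type*} [AddCommGroup M] {p : ℕ} (y : Fin p → M) (i : ℕ) : M :=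
  ∑ j ∈ Finset.univ.filter (fun j : Fin p => j.1 < i), y j

theorem cum_zero {M : Type*} [AddCommGroup M] {p : ℕ} (y : Fin p → M) : cum y 0 = 0 := by
  unfold cum
  simp

theorem cum_succ {M : Type*} [AddCommGroup M] {p : ℕ} (y : Fin p → M) (j : Fin p) :
    cum y (j.1 + 1) = cum y j.1 + y j := by
  unfold cum
  have e : Finset.univ.filter (fun j' : Fin p => j'.1 < j.1 + 1)
      = insert j (Finset.univ.filter (fun j' : Fin p => j'.1 < j.1)) := by
    ext l
    simp only [Finset.mem_filter, Finset.mem_univ, true_and, Finset.mem_insert, Fin.ext_iff]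
    omega
  rw [e, Finset.sum_insert (by simp), add_comm]

/-- the inverse of the bar coordinates -/
def psi : SS.Hom (G.toSS.pow p) (G.BX p) where
  f _ y := ⟨fun i => cum y i.1, cum_zero y⟩
  nat {m n} a y := by
    apply Subtype.ext
    funext i
    show cum (fun j => G.map a (y j)) i.1 = G.map a (cum y i.1)
    unfold cum
    rw [map_sum]

theorem psi_phi (n : ℕ) (x : (G.BX p).X n) : (psi G p).f n ((phi G p).f n x) = x := by
  apply Subtype.ext
  funext i
  show cum (fun j : Fin p => x.1 j.succ - x.1 j.castSucc) i.1 = x.1 i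
  induction i using Fin.induction with
  | zero => exact (cum_zero _).trans x.2.symm
  | succ j ih =>
    have h := cum_succ (fun j : Fin p => x.1 j.succ - x.1 j.castSucc) j
    have ih' : cum (fun j : Fin p => x.1 j.succ - x.1 j.castSucc) j.1 = x.1 j.castSucc := ih
    rw [ih'] at h
    refine h.trans ?_
    abel

theorem phi_psi (n : ℕ) (y : (G.toSS.pow p).X n) : (phi G p).f n ((psi G p).f n y) = y := by
  funext j
  show cum y (j.1 + 1) - cum y j.1 = y j
  rw [cum_succ, add_sub_cancel_left]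

end Bxhb

theorem BXHB (h : POW_Stmt) : BXHB_Stmt := by
  intro G hG A deg μ hE p
  have h1 := h G.toSS hG _ _ hE.hb p
  have h2 := h1.iso (Bxhb.phi G p) (Bxhb.psi G p) (Bxhb.psi_phi G p) (Bxhb.phi_psi G p)
  have e : (fun T : Fin p → Finset A => H.map (Bxhb.phi G p)
      (∏ i, H.map (G.toSS.proj p i) (∏ a ∈ T i, μ a)))
      = fun T => ∏ j, ∏ a ∈ T j, H.map (G.BXbar j) (μ a) := by
    funext T
    rw [map_prod]
    refine Finset.prod_congr rfl fun j _ => ?_
    rw [map_prod, map_prod]
    refine Finset.prod_congr rfl fun a _ => ?_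
    rw [← H.map_comp]
    rfl
  rw [e] at h2
  exact h2

end Pool.Agent.SHS


end

section

/-!
Block III-S, module SPHC: the cohomology of smash products of spheres.
-/

namespace Pool.Agent.SHS
namespace Sphc

theorem finMor (m n : ℕ) : Finite (Mor m n) :=
  Finite.of_injective (fun f : Mor m n => (f : Fin (m + 1) → Fin (n + 1)))
    (fun _ _ h => OrderHom.ext _ _ h)

theorem sphere_LF (m : ℕ) : (PS.sphere m).LF := fun n => by
  have := finMor n m
  exact Subtype.finite

theorem SPH_LF (l : List ℕ) : (SPH l).LF := by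
  induction l with
  | nil => intro n; exact (inferInstance : Finite Unit)
  | cons m l ih =>
    intro n
    have h1 := sphere_LF m n
    have h2 := ih n
    exact (inferInstance : Finite ((PS.sphere m).X n × (SPH l).X n))

/-- A map which takes two consecutive values equal factors through a codegeneracy. -/
theorem factor {n m : ℕ} (y : Mor (n + 1) m) (i : Fin (n + 1)) (h : y i.castSucc = y i.succ) :
    (y.comp (cof i.castSucc)).comp (cod i) = y := by
  apply OrderHom.ext
  funext j
  show y (i.castSucc.succAbove (i.predAbove j)) = y j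
  by_cases hj : j = i.castSucc
  · subst hj
    rw [Fin.predAbove_castSucc_self, Fin.succAbove_castSucc_self, h]
  · rw [Fin.succAbove_predAbove hj]

theorem exists_rep {n m : ℕ} (y : Mor (n + 1) m) (h : m < n + 1) :
    ∃ i : Fin (n + 1), y i.castSucc = y i.succ := by
  by_contra hno
  push Not at hno
  have hmono : StrictMono y := Fin.strictMono_iff_lt_succ.mpr
    (fun i => lt_of_le_of_ne (y.monotone (Fin.castSucc_lt_succ).le) (hno i))
  have h1 := Fintype.card_le_of_injective y hmono.injective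
  rw [Fintype.card_fin, Fintype.card_fin] at h1
  omega

theorem le_of_surj {n m : ℕ} (y : Mor n m) (h : Function.Surjective y) : m ≤ n := by
  have h1 := Fintype.card_le_of_surjective y h
  rw [Fintype.card_fin, Fintype.card_fin] at h1
  omega

theorem inj_of_surj {m : ℕ} (y : Mor m m) (h : Function.Surjective y) : Function.Injective y :=
  Finite.injective_iff_surjective.mpr h

theorem sphere_unique {m : ℕ} (x y : (PS.sphere m).X m) : x = y := by
  obtain ⟨a, ha⟩ := x
  obtain ⟨b, hb⟩ := y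
  apply Subtype.ext
  apply OrderHom.ext
  apply ((a.monotone.strictMono_of_injective (inj_of_surj a ha)).range_inj
    (b.monotone.strictMono_of_injective (inj_of_surj b hb))).mp
  rw [ha.range_eq, hb.range_eq]

/-- The two surjective faces of a surjection [m+1] → [m]. -/
theorem surj_face {m : ℕ} (s : Mor (m + 1) m) (hs : Function.Surjective s) (j : Fin (m + 1))
    (hj : s j.castSucc = s j.succ) (i : Fin (m + 2)) :
    Function.Surjective (s.comp (cof i)) ↔ i = j.castSucc ∨ i = j.succ := by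
  have hne : j.castSucc ≠ j.succ := (Fin.castSucc_lt_succ).ne
  constructor
  · intro h
    by_contra hno
    push Not at hno
    obtain ⟨x, hx⟩ := Fin.exists_succAbove_eq (Ne.symm hno.1)
    obtain ⟨y, hy⟩ := Fin.exists_succAbove_eq (Ne.symm hno.2)
    have h1 : (s.comp (cof i)) x = (s.comp (cof i)) y := by
      show s (i.succAbove x) = s (i.succAbove y)
      rw [hx, hy, hj]
    have h2 := inj_of_surj _ h h1
    apply hne
    rw [← hx, ← hy, h2]
  · rintro h v
    have key : ∃ x, x ≠ i ∧ s x = v := by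
      obtain ⟨x, hx⟩ := hs v
      by_cases hxi : x = i
      · rcases h with h | h
        · exact ⟨j.succ, by rw [h]; exact hne.symm, by rw [← hj, ← h, ← hxi, hx]⟩
        · exact ⟨j.castSucc, by rw [h]; exact hne, by rw [hj, ← h, ← hxi, hx]⟩
      · exact ⟨x, hxi, hx⟩
    obtain ⟨x, hxi, hx⟩ := key
    obtain ⟨y, hy⟩ := Fin.exists_succAbove_eq hxi
    refine ⟨y, ?_⟩
    show s (i.succAbove y) = v
    rw [hy, hx]

theorem map_one (m n p : ℕ) (a : Mor n p) (s : (PS.sphere m).X p) :
    (((PS.sphere m).map a s).elim 0 (fun _ => (1 : k)) : k) =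
      open Classical in if Function.Surjective (s.1.comp a) then 1 else 0 := by
  classical
  by_cases h : Function.Surjective (s.1.comp a)
  · rw [if_pos h]
    show (dite _ _ _ : Option _).elim 0 (fun _ => (1 : k)) = 1
    rw [dif_pos h]
    rfl
  · rw [if_neg h]
    show (dite _ _ _ : Option _).elim 0 (fun _ => (1 : k)) = 0
    rw [dif_neg h]
    rfl

theorem sphere_cocycle (m : ℕ) :
    (PS.sphere m).cm.delta m (fun _ => (1 : k)) = 0 := by
  classical
  funext s
  rw [CM.delta_apply, Finset.sum_apply]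
  show ∑ i : Fin (m + 2), ((PS.sphere m).map (cof i) s).elim 0 (fun _ => (1 : k)) = 0
  obtain ⟨j, hj⟩ := exists_rep s.1 (Nat.lt_succ_self m)
  have hne : j.castSucc ≠ j.succ := (Fin.castSucc_lt_succ).ne
  have h1 : ∀ i : Fin (m + 2), (((PS.sphere m).map (cof i) s).elim 0 (fun _ => (1 : k)) : k) =
      (if i = j.castSucc then 1 else 0) + (if i = j.succ then 1 else 0) := by
    intro i
    rw [map_one]
    have h2 := surj_face s.1 s.2 j hj i
    by_cases ha : i = j.castSucc
    · rw [if_pos (h2.mpr (Or.inl ha)), if_pos ha, if_neg (by rw [ha]; exact hne), add_zero]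
    · by_cases hb : i = j.succ
      · rw [if_pos (h2.mpr (Or.inr hb)), if_neg ha, if_pos hb, zero_add]
      · rw [if_neg (fun h => (h2.mp h).elim ha hb), if_neg ha, if_neg hb, add_zero]
  rw [Finset.sum_congr rfl (fun i _ => h1 i), Finset.sum_add_distrib, Finset.sum_ite_eq',
    Finset.sum_ite_eq', if_pos (Finset.mem_univ _), if_pos (Finset.mem_univ _)]
  exact k_two 1

/-- Above the dimension every cocycle is a coboundary. -/
theorem sphere_high (h2 : NORM_Stmt) (m n : ℕ) (hn : m < n + 1) (w : (PS.sphere m).X (n + 1) → k)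
    (hw : (PS.sphere m).cm.delta (n + 1) w = 0) : w ∈ (PS.sphere m).cm.cc.B (n + 1) := by
  obtain ⟨v, hv⟩ := h2 (PS.sphere m).cm n w (fun i => by rw [hw, map_zero])
  refine ⟨v, ?_⟩
  symm
  apply mod_two_eq
  funext y
  obtain ⟨i, hi⟩ := exists_rep y.1 hn
  have hf := factor y.1 i hi
  have hs : Function.Surjective (y.1.comp (cof i.castSucc)) := by
    intro t
    obtain ⟨x, hx⟩ := y.2 t
    refine ⟨cod i x, ?_⟩
    have h3 := congrArg (fun f : Mor (n + 1) m => f x) hf
    exact h3.trans hx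
  have h4 := congrFun (hv i) ⟨y.1.comp (cof i.castSucc), hs⟩
  have h5 : (PS.sphere m).map (cod i) ⟨y.1.comp (cof i.castSucc), hs⟩ = some y := by
    have h6 : Function.Surjective ((y.1.comp (cof i.castSucc)).comp (cod i)) := by
      rw [hf]
      exact y.2
    show (dite _ _ _ : Option _) = some y
    rw [dif_pos h6]
    exact congrArg some (Subtype.ext hf)
  change ((PS.sphere m).map (cod i) ⟨y.1.comp (cof i.castSucc), hs⟩).elim 0
    (w + (PS.sphere m).cm.delta n v) = 0 at h4
  rw [h5] at h4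
  exact h4

theorem sphere_basis (h2 : NORM_Stmt) (m : ℕ) : (PS.sphere m).cm.cc.IsBasis
    (I := fun n => {_u : Unit // n = m}) (fun _ _ _ => (1 : k)) where
  cocycle n i := by
    obtain ⟨_, rfl⟩ := i
    exact sphere_cocycle n
  span n w hw := by
    rcases lt_trichotomy n m with h | h | h
    · refine ⟨0, ?_⟩
      have h3 : w = 0 := by
        funext y
        exact absurd (le_of_surj y.1 y.2) (not_le.mpr h)
      rw [h3, Finsupp.sum_zero_index, sub_zero]
      exact Submodule.zero_mem _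
    · subst h
      have id_surj : Function.Surjective (OrderHom.id : Mor n n) := fun x => ⟨x, rfl⟩
      refine ⟨Finsupp.single ⟨(), rfl⟩ (w ⟨OrderHom.id, id_surj⟩), ?_⟩
      rw [Finsupp.sum_single_index (by exact zero_smul _ _)]
      have h3 : w - (w ⟨OrderHom.id, id_surj⟩) • (fun _ => (1 : k)) = 0 := by
        funext y
        show w y - w ⟨OrderHom.id, id_surj⟩ * 1 = 0
        rw [sphere_unique y ⟨OrderHom.id, id_surj⟩, mul_one, sub_self]
      exact h3 ▸ Submodule.zero_mem _
    · refine ⟨0, ?_⟩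
      obtain ⟨n, rfl⟩ : ∃ n', n = n' + 1 := ⟨n - 1, by omega⟩
      rw [Finsupp.sum_zero_index, sub_zero]
      exact sphere_high h2 m n h w hw
  indep n c hc := by
    by_cases h : n = m
    · subst h
      have id_surj : Function.Surjective (OrderHom.id : Mor n n) := fun x => ⟨x, rfl⟩
      have hcs : c = Finsupp.single ⟨(), rfl⟩ (c ⟨(), rfl⟩) := by
        ext i
        have : i = ⟨(), rfl⟩ := Subtype.ext rfl
        rw [this, Finsupp.single_eq_same]
      rw [hcs, Finsupp.sum_single_index (by exact zero_smul _ _)] at hc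
      have h3 : (c ⟨(), rfl⟩) • (fun _ : (PS.sphere n).X n => (1 : k)) = 0 := by
        cases n with
        | zero => exact (Submodule.mem_bot _).mp hc
        | succ n =>
          obtain ⟨v, hv⟩ := hc
          have h4 : v = 0 := by
            funext y
            exact absurd (le_of_surj y.1 y.2) (by omega)
          rw [h4, map_zero] at hv
          exact hv.symm
      have h5 := congrFun h3 ⟨OrderHom.id, id_surj⟩
      have h6 : c ⟨(), rfl⟩ = 0 := by
        have : c ⟨(), rfl⟩ * 1 = 0 := h5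
        rwa [mul_one] at this
      rw [hcs, h6, Finsupp.single_zero]
    · ext i
      exact absurd i.2 h

theorem unit_delta (n : ℕ) (w : PS.unit.X n → k) :
    PS.unit.cm.delta n w = fun _ => ((n + 2 : ℕ) : k) * w () := by
  funext y
  rw [CM.delta_apply, Finset.sum_apply]
  show ∑ _i : Fin (n + 2), w () = _
  rw [Finset.sum_const, Finset.card_univ, Fintype.card_fin, nsmul_eq_mul]

theorem unit_basis : PS.unit.cm.cc.IsBasis
    (I := fun n => {_u : Unit // n = 0}) (fun _ _ _ => (1 : k)) where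
  cocycle n i := by
    obtain ⟨_, rfl⟩ := i
    show PS.unit.cm.delta 0 (fun _ => (1 : k)) = 0
    rw [unit_delta]
    funext y
    show ((0 + 2 : ℕ) : k) * 1 = 0
    decide
  span n w hw := by
    change PS.unit.cm.delta n w = 0 at hw
    rw [unit_delta] at hw
    rcases Nat.even_or_odd' n with ⟨r, h | h⟩
    · cases r with
      | zero =>
        subst h
        refine ⟨Finsupp.single ⟨(), rfl⟩ (w ()), ?_⟩
        rw [Finsupp.sum_single_index (by exact zero_smul _ _)]
        have h3 : w - (w ()) • (fun _ => (1 : k)) = 0 := by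
          funext y
          show w y - w () * 1 = 0
          rw [mul_one, sub_self]
        exact h3 ▸ Submodule.zero_mem _
      | succ r =>
        refine ⟨0, ?_⟩
        rw [Finsupp.sum_zero_index, sub_zero]
        have hn : n = (2 * r + 1) + 1 := by omega
        subst hn
        refine ⟨fun _ => w (), ?_⟩
        show PS.unit.cm.delta (2 * r + 1) _ = w
        rw [unit_delta]
        funext y
        show ((2 * r + 1 + 2 : ℕ) : k) * w () = w y
        have h4 : ((2 * r + 1 + 2 : ℕ) : k) = 1 := by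
          have h5 : 2 * r + 1 + 2 = 2 * (r + 1) + 1 := by ring
          rw [h5]
          push_cast
          have : (2 : k) = 0 := by decide
          rw [this]
          ring
        rw [h4, one_mul]
    · refine ⟨0, ?_⟩
      have h3 := congrFun hw ()
      have h4 : ((n + 2 : ℕ) : k) = 1 := by
        have h5 : n + 2 = 2 * (r + 1) + 1 := by omega
        rw [h5]
        push_cast
        have : (2 : k) = 0 := by decide
        rw [this]
        ring
      have h6 : w = 0 := by
        funext y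
        have h7 : ((n + 2 : ℕ) : k) * w () = 0 := h3
        rw [h4, one_mul] at h7
        exact h7
      rw [h6, Finsupp.sum_zero_index, sub_zero]
      exact Submodule.zero_mem _
  indep n c hc := by
    by_cases h : n = 0
    · subst h
      have hcs : c = Finsupp.single ⟨(), rfl⟩ (c ⟨(), rfl⟩) := by
        ext i
        have : i = ⟨(), rfl⟩ := Subtype.ext rfl
        rw [this, Finsupp.single_eq_same]
      rw [hcs, Finsupp.sum_single_index (by exact zero_smul _ _)] at hc
      have h3 : (c ⟨(), rfl⟩) • (fun _ : PS.unit.X 0 => (1 : k)) = 0 := (Submodule.mem_bot _).mp hc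
      have h5 := congrFun h3 ()
      have h6 : c ⟨(), rfl⟩ = 0 := by
        have : c ⟨(), rfl⟩ * 1 = 0 := h5
        rwa [mul_one] at this
      rw [hcs, h6, Finsupp.single_zero]
    · ext i
      exact absurd i.2 h

theorem basis_list (h1 : KUNP_Stmt) (h2 : NORM_Stmt) (l : List ℕ) :
    ∃ (I : ℕ → Type) (z : ∀ n, I n → (SPH l).X n → k), (SPH l).cm.cc.IsBasis z ∧
      (∀ n, I n → n = l.sum) ∧ ∀ n (i j : I n), i = j := by
  induction l with
  | nil =>
    exact ⟨fun n => {_u : Unit // n = 0}, fun _ _ _ => 1, unit_basis, fun n i => i.2,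
      fun n i j => Subtype.ext rfl⟩
  | cons m l ih =>
    obtain ⟨J, w, hw, hJ1, hJ2⟩ := ih
    refine ⟨prodI (fun n => {_u : Unit // n = m}) J,
      crossB (PS.sphere m) (SPH l) (fun _ _ _ => (1 : k)) w,
      h1 (PS.sphere m) (SPH l) (sphere_LF m) (SPH_LF l) _ w (sphere_basis h2 m) hw, ?_, ?_⟩
    · rintro n ⟨⟨⟨p, i⟩, ⟨q, j⟩⟩, h⟩
      have h3 : p = m := i.2
      have h4 : q = l.sum := hJ1 q j
      have h5 : p + q = n := h
      rw [List.sum_cons, ← h3, ← h4, h5]
    · rintro n ⟨⟨⟨p, i⟩, ⟨q, j⟩⟩, h⟩ ⟨⟨⟨p', i'⟩, ⟨q', j'⟩⟩, h'⟩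
      have h3 : p = p' := i.2.trans i'.2.symm
      have h4 : q = q' := (hJ1 q j).trans (hJ1 q' j').symm
      subst h3 h4
      apply Subtype.ext
      have h5 : i = i' := Subtype.ext rfl
      have h6 : j = j' := hJ2 q j j'
      rw [h5, h6]

theorem span_le {C : CC} {I : ℕ → Type} {z : ∀ n, I n → C.X n} (h : C.IsBasis z) (n : ℕ)
    (s : Finset (C.X n)) (hs : ∀ i, z n i ∈ s) :
    C.Z n ≤ C.B n ⊔ Submodule.span k (s : Set (C.X n)) := by
  intro w hw
  obtain ⟨c, hc⟩ := h.span n w hw
  have h1 : (c.sum fun i a => a • z n i) ∈ Submodule.span k (s : Set (C.X n)) := by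
    apply Submodule.sum_mem
    intro i _
    exact Submodule.smul_mem _ _ (Submodule.subset_span (hs i))
  have h2 : w = (w - (c.sum fun i a => a • z n i)) + (c.sum fun i a => a • z n i) := by abel
  rw [h2]
  exact Submodule.add_mem_sup hc h1

end Sphc

theorem SPHC (h1 : KUNP_Stmt) (h2 : NORM_Stmt) : SPHC_Stmt := by
  classical
  intro l p
  obtain ⟨I, z, hz, hI1, hI2⟩ := Sphc.basis_list h1 h2 l
  by_cases hne : Nonempty (I p)
  · obtain ⟨i⟩ := hne
    refine ⟨{z p i}, ?_, Sphc.span_le hz p _ fun j => ?_⟩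
    · rw [Finset.card_singleton, if_pos (hI1 p i)]
    · rw [hI2 p j i]
      exact Finset.mem_singleton_self _
  · refine ⟨∅, ?_, Sphc.span_le hz p _ fun j => absurd ⟨j⟩ hne⟩
    rw [Finset.card_empty]
    exact Nat.zero_le _

end Pool.Agent.SHS


end

section

/-!
Block III-S: the products `Lf` form a basis of H^q(G^p).
-/

set_option autoImplicit false

namespace Pool.Agent.SHS

namespace E2b

/-! ### Surjective monotone maps and their jumps -/

theorem mem_jumps {p m : ℕ} (a : Mor p m) (j : Fin p) :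
    j ∈ jumps a ↔ a j.castSucc ≠ a j.succ := by
  simp [jumps]

theorem surj_zero {p m : ℕ} (a : Mor p m) (ha : Function.Surjective a) : a 0 = 0 := by
  obtain ⟨w, hw⟩ := ha 0
  have h : a 0 ≤ a w := a.monotone (Fin.zero_le w)
  rw [hw] at h
  exact Fin.le_zero_iff.1 h

theorem surj_step {p m : ℕ} (a : Mor p m) (ha : Function.Surjective a) (j : Fin p) :
    (a j.succ : ℕ) = (a j.castSucc : ℕ) + if j ∈ jumps a then 1 else 0 := by
  have hm : a j.castSucc ≤ a j.succ := a.monotone (le_of_lt Fin.castSucc_lt_succ)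
  by_cases h : j ∈ jumps a
  · rw [if_pos h]
    have h1 : a j.castSucc < a j.succ := lt_of_le_of_ne hm ((mem_jumps a j).1 h)
    have h1' : (a j.castSucc : ℕ) < a j.succ := h1
    have h2 : (a j.castSucc : ℕ) + 1 < m + 1 := by
      have := (a j.succ).2
      omega
    obtain ⟨w, hw⟩ := ha ⟨(a j.castSucc : ℕ) + 1, h2⟩
    have h3 : j.succ ≤ w := by
      by_contra h4
      have h5 : w ≤ j.castSucc := by
        rw [not_le] at h4
        exact Fin.le_castSucc_iff.2 h4
      have h6 : a w ≤ a j.castSucc := a.monotone h5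
      rw [hw] at h6
      have h7 : (a j.castSucc : ℕ) + 1 ≤ a j.castSucc := h6
      omega
    have h8 : a j.succ ≤ a w := a.monotone h3
    rw [hw] at h8
    have h9 : (a j.succ : ℕ) ≤ (a j.castSucc : ℕ) + 1 := h8
    omega
  · rw [if_neg h]
    have : a j.castSucc = a j.succ := by
      by_contra h'
      exact h ((mem_jumps a j).2 h')
    rw [this, add_zero]

/-- the number of elements of `J` below `v` -/
def cnt {p : ℕ} (J : Finset (Fin p)) (v : ℕ) : ℕ := (J.filter (fun j => j.1 < v)).card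

theorem cnt_zero {p : ℕ} (J : Finset (Fin p)) : cnt J 0 = 0 := by
  simp [cnt]

theorem cnt_succ {p : ℕ} (J : Finset (Fin p)) (j : Fin p) :
    cnt J (j.1 + 1) = cnt J j.1 + if j ∈ J then 1 else 0 := by
  rw [cnt, cnt]
  by_cases h : j ∈ J
  · rw [if_pos h]
    have e : J.filter (fun i => i.1 < j.1 + 1) = insert j (J.filter (fun i => i.1 < j.1)) := by
      ext i
      rw [Finset.mem_filter, Finset.mem_insert, Finset.mem_filter]
      constructor
      · rintro ⟨h1, h2⟩
        by_cases h3 : i = j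
        · exact Or.inl h3
        · refine Or.inr ⟨h1, ?_⟩
          have : i.1 ≠ j.1 := fun h4 => h3 (Fin.ext h4)
          omega
      · rintro (rfl | ⟨h1, h2⟩)
        · exact ⟨h, by omega⟩
        · exact ⟨h1, by omega⟩
    rw [e, Finset.card_insert_of_notMem]
    rw [Finset.mem_filter]
    rintro ⟨-, h1⟩
    omega
  · rw [if_neg h, add_zero]
    congr 1
    ext i
    rw [Finset.mem_filter, Finset.mem_filter]
    constructor
    · rintro ⟨h1, h2⟩
      refine ⟨h1, ?_⟩
      have : i.1 ≠ j.1 := fun h4 => h (by rw [← Fin.ext h4]; exact h1)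
      omega
    · rintro ⟨h1, h2⟩
      exact ⟨h1, by omega⟩

theorem cnt_top {p : ℕ} (J : Finset (Fin p)) : cnt J p = J.card := by
  rw [cnt, Finset.filter_true_of_mem]
  exact fun j _ => j.2

theorem cnt_mono {p : ℕ} (J : Finset (Fin p)) {v w : ℕ} (h : v ≤ w) : cnt J v ≤ cnt J w := by
  apply Finset.card_le_card
  intro j hj
  rw [Finset.mem_filter] at hj ⊢
  exact ⟨hj.1, by omega⟩

theorem cnt_le {p : ℕ} (J : Finset (Fin p)) (v : ℕ) : cnt J v ≤ J.card :=
  Finset.card_le_card (Finset.filter_subset _ _)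

theorem surj_eq_cnt {p m : ℕ} (a : Mor p m) (ha : Function.Surjective a) :
    ∀ v : Fin (p + 1), (a v : ℕ) = cnt (jumps a) v.1 := by
  intro v
  induction v using Fin.induction with
  | zero =>
    rw [surj_zero a ha]
    exact (cnt_zero _).symm
  | succ j ih =>
    rw [surj_step a ha, ih]
    exact (cnt_succ _ j).symm

theorem jumps_card {p m : ℕ} (a : Mor p m) (ha : Function.Surjective a) : (jumps a).card = m := by
  have h := surj_eq_cnt a ha (Fin.last p)
  have h1 : a (Fin.last p) = Fin.last m := by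
    obtain ⟨w, hw⟩ := ha (Fin.last m)
    have h2 : a w ≤ a (Fin.last p) := a.monotone (Fin.le_last w)
    rw [hw] at h2
    exact Fin.last_le_iff.1 h2
  rw [h1, Fin.val_last, Fin.val_last, cnt_top] at h
  exact h.symm

theorem jumps_inj {p m : ℕ} (a b : Mor p m) (ha : Function.Surjective a)
    (hb : Function.Surjective b) (h : jumps a = jumps b) : a = b := by
  apply OrderHom.ext
  funext v
  apply Fin.ext
  rw [surj_eq_cnt a ha, surj_eq_cnt b hb, h]

theorem exists_surj {p : ℕ} (J : Finset (Fin p)) (m : ℕ) (hJ : J.card = m) :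
    ∃ a : Mor p m, Function.Surjective a ∧ jumps a = J := by
  subst hJ
  let a : Mor p J.card :=
    { toFun := fun v => ⟨cnt J v.1, Nat.lt_succ_of_le (cnt_le J _)⟩
      monotone' := fun v w h => cnt_mono J h }
  have hv : ∀ v, (a v : ℕ) = cnt J v.1 := fun _ => rfl
  refine ⟨a, ?_, ?_⟩
  · -- surjective: discrete intermediate value
    have key : ∀ n : ℕ, n ≤ J.card → ∃ v : ℕ, v ≤ p ∧ cnt J v = n := by
      intro n hn
      induction n with
      | zero => exact ⟨0, Nat.zero_le _, cnt_zero J⟩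
      | succ n ih =>
        obtain ⟨v0, hv0, hv0'⟩ := ih (by omega)
        -- the largest v with cnt = n
        have hex : ∃ v, v ≤ p ∧ n < cnt J v := ⟨p, le_refl p, by rw [cnt_top]; omega⟩
        classical
        let w := Nat.find hex
        have hw : w ≤ p ∧ n < cnt J w := Nat.find_spec hex
        have hw0 : w ≠ 0 := by
          intro h
          rw [h, cnt_zero] at hw
          exact absurd hw.2 (Nat.not_lt_zero _)
        obtain ⟨u, hu⟩ := Nat.exists_eq_succ_of_ne_zero hw0
        have hmin : ¬ (u ≤ p ∧ n < cnt J u) := Nat.find_min hex (by omega)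
        have hu' : cnt J u ≤ n := by
          by_contra h
          exact hmin ⟨by omega, by omega⟩
        have hup : u < p := by omega
        have hs := cnt_succ J ⟨u, hup⟩
        refine ⟨w, hw.1, ?_⟩
        have h3 : cnt J w = cnt J (u + 1) := by rw [hu]
        have h4 : cnt J (u + 1) ≤ cnt J u + 1 := by
          have h5 : cnt J (u + 1) = cnt J u + if (⟨u, hup⟩ : Fin p) ∈ J then 1 else 0 := hs
          rw [h5]
          split_ifs <;> omega
        omega
    intro n
    obtain ⟨v, hv, hv'⟩ := key n.1 (by omega)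
    exact ⟨⟨v, by omega⟩, Fin.ext hv'⟩
  · ext j
    rw [mem_jumps]
    have hs := cnt_succ J j
    constructor
    · intro h
      by_contra hj
      rw [if_neg hj, add_zero] at hs
      apply h
      apply Fin.ext
      rw [hv, hv]
      exact hs.symm
    · intro hj h
      rw [if_pos hj] at hs
      have h1 := congrArg Fin.val h
      rw [hv, hv] at h1
      have h2 : cnt J j.1 = cnt J (j.1 + 1) := h1
      omega

/-! ### The sets `T j` -/

variable {A : Type}

open scoped Classical in
/-- the letters of the list which jump at `j` -/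
noncomputable def Tf (f : A → ℕ) {p : ℕ} :
    (c : List A) → (SPH (c.map f)).X p → Fin p → Finset A
  | [], _ => fun _ => ∅
  | a :: c, y =>
    let y' : (PS.sphere (f a)).X p × (SPH (c.map f)).X p := y
    fun j => (if j ∈ jumps y'.1.1 then {a} else ∅) ∪ Tf f c y'.2 j

theorem Tf_sub (f : A → ℕ) {p : ℕ} : ∀ (c : List A) (y : (SPH (c.map f)).X p) (j : Fin p) (x : A),
    x ∈ Tf f c y j → x ∈ c := by
  classical
  intro c
  induction c with
  | nil =>
    intro y j x hx
    exact absurd hx (Finset.notMem_empty x)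
  | cons a c ih =>
    intro y j x hx
    have hx' : x ∈ (if j ∈ jumps (show (PS.sphere (f a)).X p × (SPH (c.map f)).X p from y).1.1
      then ({a} : Finset A) else ∅) ∪ Tf f c
        (show (PS.sphere (f a)).X p × (SPH (c.map f)).X p from y).2 j := hx
    rw [Finset.mem_union] at hx'
    rcases hx' with h | h
    · split_ifs at h with h1
      · rw [Finset.mem_singleton] at h
        rw [h]
        exact List.mem_cons_self
      · exact absurd h (Finset.notMem_empty x)
    · exact List.mem_cons_of_mem _ (ih _ j x h)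

theorem Tf_mem_head (f : A → ℕ) {p : ℕ} (a : A) (c : List A) (hac : a ∉ c)
    (y1 : (PS.sphere (f a)).X p) (y2 : (SPH (c.map f)).X p) (j : Fin p) :
    a ∈ Tf f (a :: c) (show (SPH ((a :: c).map f)).X p from (y1, y2)) j ↔ j ∈ jumps y1.1 := by
  classical
  show a ∈ (if j ∈ jumps y1.1 then ({a} : Finset A) else ∅) ∪ Tf f c y2 j ↔ _
  rw [Finset.mem_union]
  constructor
  · rintro (h | h)
    · split_ifs at h with h1
      · exact h1
      · exact absurd h (Finset.notMem_empty _)
    · exact absurd (Tf_sub f c y2 j a h) hac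
  · intro h
    left
    rw [if_pos h]
    exact Finset.mem_singleton_self a

theorem Tf_mem_tail (f : A → ℕ) {p : ℕ} (a : A) (c : List A)
    (y1 : (PS.sphere (f a)).X p) (y2 : (SPH (c.map f)).X p) (j : Fin p) (x : A) (hx : x ≠ a) :
    x ∈ Tf f (a :: c) (show (SPH ((a :: c).map f)).X p from (y1, y2)) j ↔ x ∈ Tf f c y2 j := by
  classical
  show x ∈ (if j ∈ jumps y1.1 then ({a} : Finset A) else ∅) ∪ Tf f c y2 j ↔ _
  rw [Finset.mem_union]
  constructor
  · rintro (h | h)
    · split_ifs at h with h1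
      · exact absurd (Finset.mem_singleton.1 h) hx
      · exact absurd h (Finset.notMem_empty _)
    · exact h
  · intro h
    exact Or.inr h

theorem Tf_inj (f : A → ℕ) {p : ℕ} : ∀ (c : List A), c.Nodup → ∀ y y' : (SPH (c.map f)).X p,
    Tf f c y = Tf f c y' → y = y' := by
  intro c
  induction c with
  | nil =>
    intro _ y y' _
    exact Subsingleton.elim (α := Unit) y y'
  | cons a c ih =>
    rintro hc ⟨y1, y2⟩ ⟨y1', y2'⟩ h
    rw [List.nodup_cons] at hc
    have h1 : jumps y1.1 = jumps y1'.1 := by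
      ext j
      rw [← Tf_mem_head f a c hc.1 y1 y2 j, ← Tf_mem_head f a c hc.1 y1' y2' j]
      exact iff_of_eq (congrArg (fun T => a ∈ T j) h)
    have h2 : Tf f c y2 = Tf f c y2' := by
      funext j
      ext x
      by_cases hx : x = a
      · subst hx
        constructor
        · intro h3
          exact absurd (Tf_sub f c y2 j _ h3) hc.1
        · intro h3
          exact absurd (Tf_sub f c y2' j _ h3) hc.1
      · rw [← Tf_mem_tail f a c y1 y2 j x hx, ← Tf_mem_tail f a c y1' y2' j x hx]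
        exact iff_of_eq (congrArg (fun T => x ∈ T j) h)
    exact Prod.ext (Subtype.ext (jumps_inj _ _ y1.2 y1'.2 h1)) (ih hc.2 _ _ h2)

theorem Tf_card (f : A → ℕ) {p : ℕ} : ∀ (c : List A), c.Nodup → ∀ y : (SPH (c.map f)).X p,
    ∀ a ∈ c, (letI := Classical.decEq A; (Finset.univ.filter (fun j => a ∈ Tf f c y j)).card) = f a := by
  classical
  intro c
  induction c with
  | nil =>
    intro _ y a ha
    exact absurd ha List.not_mem_nil
  | cons a c ih =>
    rintro hc ⟨y1, y2⟩ x hx
    rw [List.nodup_cons] at hc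
    by_cases hxa : x = a
    · subst hxa
      refine Eq.trans ?_ (jumps_card y1.1 y1.2)
      congr 1
      ext j
      rw [Finset.mem_filter]
      constructor
      · rintro ⟨-, h⟩
        exact (Tf_mem_head f x c hc.1 y1 y2 j).1 h
      · intro h
        exact ⟨Finset.mem_univ _, (Tf_mem_head f x c hc.1 y1 y2 j).2 h⟩
    · have hx' : x ∈ c := by
        rcases List.mem_cons.1 hx with h | h
        · exact absurd h hxa
        · exact h
      refine Eq.trans ?_ (ih hc.2 y2 x hx')
      congr 1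
      ext j
      rw [Finset.mem_filter, Finset.mem_filter]
      constructor
      · rintro ⟨-, h⟩
        exact ⟨Finset.mem_univ _, (Tf_mem_tail f a c y1 y2 j x hxa).1 h⟩
      · rintro ⟨-, h⟩
        exact ⟨Finset.mem_univ _, (Tf_mem_tail f a c y1 y2 j x hxa).2 h⟩

theorem Tf_surj (f : A → ℕ) {p : ℕ} (T : Fin p → Finset A) :
    ∀ (c : List A), c.Nodup →
    (∀ a ∈ c, (letI := Classical.decEq A; (Finset.univ.filter (fun j => a ∈ T j)).card) = f a) →
    ∃ y : (SPH (c.map f)).X p, ∀ j x, x ∈ Tf f c y j ↔ x ∈ T j ∧ x ∈ c := by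
  classical
  intro c
  induction c with
  | nil =>
    intro _ _
    refine ⟨(), fun j x => ?_⟩
    constructor
    · intro h
      exact absurd h (Finset.notMem_empty x)
    · rintro ⟨-, h⟩
      exact absurd h List.not_mem_nil
  | cons a c ih =>
    intro hc hf
    rw [List.nodup_cons] at hc
    obtain ⟨y2, hy2⟩ := ih hc.2 (fun x hx => hf x (List.mem_cons_of_mem _ hx))
    obtain ⟨s, hs, hs'⟩ := exists_surj (Finset.univ.filter (fun j => a ∈ T j)) (f a)
      (hf a List.mem_cons_self)
    let y1 : (PS.sphere (f a)).X p := ⟨s, hs⟩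
    refine ⟨(show (SPH ((a :: c).map f)).X p from (y1, y2)), fun j x => ?_⟩
    by_cases hx : x = a
    · subst hx
      rw [Tf_mem_head f x c hc.1 y1 y2 j]
      show j ∈ jumps s ↔ _
      rw [hs', Finset.mem_filter]
      constructor
      · rintro ⟨-, h⟩
        exact ⟨h, List.mem_cons_self⟩
      · rintro ⟨h, -⟩
        exact ⟨Finset.mem_univ _, h⟩
    · rw [Tf_mem_tail f a c y1 y2 j x hx, hy2]
      constructor
      · rintro ⟨h1, h2⟩
        exact ⟨h1, List.mem_cons_of_mem _ h2⟩
      · rintro ⟨h1, h2⟩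
        rcases List.mem_cons.1 h2 with h | h
        · exact absurd h hx
        · exact ⟨h1, h⟩

/-! ### The products -/

theorem Lf_eq (G : SV) (μ : A → H G.toSS) (f : A → ℕ) {p : ℕ} : ∀ (c : List A), c.Nodup →
    ∀ y : (SPH (c.map f)).X p,
    Lf G μ f c y = ∏ j, ∏ a ∈ Tf f c y j, H.map (G.BXbar j) (μ a) := by
  classical
  intro c
  induction c with
  | nil =>
    intro _ y
    show (1 : H (G.BX p)) = ∏ j : Fin p, ∏ a ∈ (∅ : Finset A), H.map (G.BXbar j) (μ a)
    simp
  | cons a c ih =>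
    rintro hc ⟨y1, y2⟩
    rw [List.nodup_cons] at hc
    show lam G (μ a) y1.1 * Lf G μ f c y2 = ∏ j, ∏ x ∈ (if j ∈ jumps y1.1 then ({a} : Finset A)
      else ∅) ∪ Tf f c y2 j, H.map (G.BXbar j) (μ x)
    rw [ih hc.2 y2]
    have h1 : ∀ j : Fin p, ∏ x ∈ (if j ∈ jumps y1.1 then ({a} : Finset A)
        else ∅) ∪ Tf f c y2 j, H.map (G.BXbar j) (μ x)
        = (if j ∈ jumps y1.1 then H.map (G.BXbar j) (μ a) else 1) *
          ∏ x ∈ Tf f c y2 j, H.map (G.BXbar j) (μ x) := by
      intro j
      rw [Finset.prod_union]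
      · congr 1
        split_ifs <;> simp
      · rw [Finset.disjoint_left]
        intro x hx hx'
        split_ifs at hx with h
        · rw [Finset.mem_singleton] at hx
          subst hx
          exact hc.1 (Tf_sub f c y2 j _ hx')
        · exact absurd hx (Finset.notMem_empty _)
    rw [Finset.prod_congr rfl (fun j _ => h1 j), Finset.prod_mul_distrib]
    congr 1
    rw [lam, Finset.prod_ite_mem, Finset.univ_inter]

theorem Tf_deg (f : A → ℕ) (deg : A → ℕ) {p : ℕ} (T : Fin p → Finset A) (S : Finset A)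
    (h1 : ∀ j, T j ⊆ S)
    (h2 : ∀ a ∈ S, (letI := Classical.decEq A; (Finset.univ.filter (fun j => a ∈ T j)).card) = f a) :
    ∑ j, ∑ a ∈ T j, deg a = ∑ a ∈ S, f a * deg a := by
  classical
  have h3 : ∀ j, ∑ a ∈ T j, deg a = ∑ a ∈ S, if a ∈ T j then deg a else 0 := by
    intro j
    rw [← Finset.sum_filter]
    congr 1
    ext a
    rw [Finset.mem_filter]
    exact ⟨fun h => ⟨h1 j h, h⟩, fun h => h.2⟩
  rw [Finset.sum_congr rfl (fun j _ => h3 j), Finset.sum_comm]
  refine Finset.sum_congr rfl fun a ha => ?_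
  rw [← h2 a ha, ← Finset.sum_filter, Finset.sum_const, smul_eq_mul]

end E2b

open E2b

theorem E2B (h : BXHB_Stmt) : E2B_Stmt := by
  classical
  intro G hG A deg μ hE p q b
  have hB := h G hG deg μ hE p
  let Φ : (Σ f : {f : A →₀ ℕ // (f.sum fun a m => m * deg a) = q},
      (SPH (f.1.support.toList.map f.1)).X p) → (Fin p → Finset A) :=
    fun t => Tf t.1.1 t.1.1.support.toList t.2
  have hb : ∀ t, b t = ∏ j, ∏ a ∈ Φ t j, H.map (G.BXbar j) (μ a) := fun t =>
    Lf_eq G μ t.1.1 t.1.1.support.toList (Finset.nodup_toList _) t.2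
  have hcard : ∀ t a, (Finset.univ.filter (fun j => a ∈ Φ t j)).card = t.1.1 a := by
    intro t a
    by_cases ha : a ∈ t.1.1.support
    · have := Tf_card t.1.1 t.1.1.support.toList (Finset.nodup_toList _) t.2 a
        (Finset.mem_toList.2 ha)
      rw [← this]
    · rw [Finsupp.notMem_support_iff.1 ha, Finset.card_eq_zero, Finset.filter_eq_empty_iff]
      intro j _ hj
      exact ha (Finset.mem_toList.1 (Tf_sub _ _ _ _ _ hj))
  have hdeg : ∀ t, ∑ j, ∑ a ∈ Φ t j, deg a = q := by
    intro t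
    rw [Tf_deg t.1.1 deg (Φ t) t.1.1.support
      (fun j a ha => Finset.mem_toList.1 (Tf_sub _ _ _ _ _ ha)) ?_]
    · exact t.1.2
    · intro a _
      rw [← hcard t a]
  have hinj : Function.Injective Φ := by
    rintro ⟨⟨f, hf⟩, y⟩ ⟨⟨f', hf'⟩, y'⟩ hff
    have h1 : f = f' := by
      ext a
      have h2 := hcard ⟨⟨f, hf⟩, y⟩ a
      have h3 := hcard ⟨⟨f', hf'⟩, y'⟩ a
      rw [hff, h3] at h2
      exact h2.symm
    subst h1
    have h4 : y = y' := Tf_inj f f.support.toList (Finset.nodup_toList _) y y' hff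
    rw [h4]
  refine ⟨?_, ?_, ?_⟩
  · have h5 : b = (fun T : Fin p → Finset A => ∏ j, ∏ a ∈ T j, H.map (G.BXbar j) (μ a)) ∘ Φ := by
      funext t
      exact hb t
    rw [h5]
    exact hB.indep.comp Φ hinj
  · intro t
    rw [hb t]
    have h6 := hB.mem (Φ t)
    rw [hdeg t] at h6
    exact h6
  · refine (hB.span q).trans (Submodule.span_mono ?_)
    rintro _ ⟨T, hT, rfl⟩
    -- the exponents
    let f : A →₀ ℕ := Finsupp.onFinset (Finset.univ.biUnion T)
      (fun a => (Finset.univ.filter (fun j => a ∈ T j)).card) (by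
        intro a ha
        rw [Finset.card_ne_zero] at ha
        obtain ⟨j, hj⟩ := ha
        rw [Finset.mem_filter] at hj
        exact Finset.mem_biUnion.2 ⟨j, Finset.mem_univ _, hj.2⟩)
    have hf : ∀ a, f a = (Finset.univ.filter (fun j => a ∈ T j)).card := fun _ => rfl
    have hsub : ∀ j, T j ⊆ f.support := by
      intro j a ha
      rw [Finsupp.mem_support_iff, hf, Finset.card_ne_zero]
      exact ⟨j, Finset.mem_filter.2 ⟨Finset.mem_univ _, ha⟩⟩
    have hfq : (f.sum fun a m => m * deg a) = q := by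
      rw [Finsupp.sum, ← Tf_deg f deg T f.support hsub ?_]
      · exact hT
      · intro a _
        rw [hf]
    obtain ⟨y, hy⟩ := Tf_surj f T f.support.toList (Finset.nodup_toList _) (by
      intro a _
      rw [hf])
    refine ⟨⟨⟨f, hfq⟩, y⟩, ?_⟩
    rw [hb]
    have hΦ : Φ ⟨⟨f, hfq⟩, y⟩ = T := by
      funext j
      ext x
      refine (hy j x).trans ⟨fun h7 => h7.1, fun h7 => ⟨h7, Finset.mem_toList.2 (hsub j h7)⟩⟩
    rw [hΦ]

end Pool.Agent.SHS


end

section

namespace Pool.Agent.SHS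
namespace E2p

theorem finMor (m n : ℕ) : Finite (Mor m n) :=
  Finite.of_injective (fun f : Mor m n => (f : Fin (m + 1) → Fin (n + 1)))
    (fun f g h => OrderHom.ext _ _ h)

theorem sphere_LF (m : ℕ) : (PS.sphere m).LF := fun n => by
  have := finMor n m
  exact Subtype.finite

theorem SPH_LF (l : List ℕ) : (SPH l).LF := by
  induction l with
  | nil => intro n; exact (inferInstance : Finite Unit)
  | cons m l ih =>
    intro n
    have h1 := sphere_LF m n
    have h2 := ih n
    exact (inferInstance : Finite ((PS.sphere m).X n × (SPH l).X n))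

theorem finF {A : Type} (deg : A → ℕ) (pos : ∀ a, 1 ≤ deg a) (fin : ∀ n, {a | deg a ≤ n}.Finite)
    (q : ℕ) : Finite {f : A →₀ ℕ // (f.sum fun a m => m * deg a) = q} := by
  classical
  have key : ∀ (f : A →₀ ℕ), (f.sum fun a m => m * deg a) = q → ∀ a, f a ≠ 0 → f a * deg a ≤ q := by
    intro f hf a ha
    rw [← hf]
    exact Finset.single_le_sum (f := fun a => f a * deg a) (fun _ _ => Nat.zero_le _)
      (Finsupp.mem_support_iff.mpr ha)
  have h1 : Finite {a // a ∈ {a | deg a ≤ q}} := (fin q).to_subtype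
  let g : {f : A →₀ ℕ // (f.sum fun a m => m * deg a) = q} → ({a // a ∈ {a | deg a ≤ q}} → Fin (q + 1)) :=
    fun f a => ⟨f.1 a.1, by
      by_cases h : f.1 a.1 = 0
      · omega
      · have h2 := key f.1 f.2 a.1 h
        have h3 := pos a.1
        have : f.1 a.1 * 1 ≤ f.1 a.1 * deg a.1 := Nat.mul_le_mul_left _ h3
        omega⟩
  apply Finite.of_injective g
  intro f f' h
  apply Subtype.ext
  ext a
  by_cases ha : deg a ≤ q
  · have := congrFun h ⟨a, ha⟩
    exact congrArg Fin.val this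
  · have hz : ∀ f : {f : A →₀ ℕ // (f.sum fun a m => m * deg a) = q}, f.1 a = 0 := by
      intro f
      by_contra h0
      have h2 := key f.1 f.2 a h0
      have : 1 * deg a ≤ f.1 a * deg a := Nat.mul_le_mul_right _ (Nat.one_le_iff_ne_zero.mpr h0)
      omega
    rw [hz f, hz f']

/-- transfer of bounds along a finite direct sum decomposition -/
theorem transfer (M : CM) {ι : Type} [Fintype ι] (C : ι → CM)
    (θ : ∀ i n, (C i).X n →ₗ[k] M.X n)
    (hθ : ∀ i {m n : ℕ} (a : Mor m n) (x : (C i).X m), θ i n ((C i).map a x) = M.map a (θ i m x))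
    (hb : ∀ n, Function.Bijective (fun φ : (∀ i, (C i).X n) => ∑ i, θ i n (φ i)))
    (p : ℕ) (N : ι → ℕ) (hN : ∀ i, SpanLE ((C i).cc.Z p) ((C i).cc.B p) (N i)) :
    SpanLE (M.cc.Z p) (M.cc.B p) (∑ i, N i) := by
  classical
  choose s hs1 hs2 using hN
  have hd : ∀ i n (x : (C i).X n), θ i (n + 1) ((C i).delta n x) = M.delta n (θ i n x) := by
    intro i n x
    rw [CM.delta_apply, CM.delta_apply, map_sum]
    exact Finset.sum_congr rfl fun j _ => hθ i _ _
  refine ⟨Finset.univ.biUnion fun i => (s i).image (θ i p), ?_, ?_⟩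
  · refine le_trans Finset.card_biUnion_le (Finset.sum_le_sum fun i _ => ?_)
    exact le_trans Finset.card_image_le (hs1 i)
  · intro x hx
    have hx' : M.delta p x = 0 := hx
    obtain ⟨φ, hφ0⟩ := (hb p).2 x
    have hφ : ∑ i, θ i p (φ i) = x := hφ0
    have hz : ∀ i, (C i).delta p (φ i) = 0 := by
      have h0 : (fun i => (C i).delta p (φ i)) = (0 : ∀ i, (C i).X (p + 1)) := by
        apply (hb (p + 1)).1
        show ∑ i, θ i (p + 1) ((C i).delta p (φ i)) = ∑ i, θ i (p + 1) (0 : (C i).X (p + 1))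
        simp only [hd, map_zero]
        rw [← map_sum, hφ, hx']
        simp
      intro i
      exact congrFun h0 i
    rw [← hφ]
    apply Submodule.sum_mem
    intro i _
    have h1 : φ i ∈ (C i).cc.B p ⊔ Submodule.span k (s i : Set ((C i).X p)) := hs2 i (hz i)
    obtain ⟨u, hu, v, hv, huv⟩ := Submodule.mem_sup.mp h1
    rw [← huv, map_add]
    apply Submodule.add_mem
    · apply Submodule.mem_sup_left
      cases p with
      | zero =>
        have : u = 0 := (Submodule.mem_bot k).mp hu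
        rw [this, map_zero]
        exact Submodule.zero_mem _
      | succ p =>
        obtain ⟨w, hw⟩ := hu
        exact ⟨θ i p w, by
          show M.delta p (θ i p w) = θ i (p + 1) u
          rw [← hd]
          exact congrArg _ hw⟩
    · apply Submodule.mem_sup_right
      have h2 := Submodule.mem_map_of_mem (f := θ i p) hv
      rw [Submodule.map_span] at h2
      refine Submodule.span_mono ?_ h2
      rintro _ ⟨y, hy, rfl⟩
      rw [Finset.mem_coe, Finset.mem_biUnion]
      exact ⟨i, Finset.mem_univ i, Finset.mem_image_of_mem _ hy⟩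

end E2p

open E2p in
theorem E2 (h1 : SPHC_Stmt) (h2 : E2S_Stmt) (h3 : E2B_Stmt) : E2_Stmt := by
  classical
  intro G hG A deg μ hμ p q
  have hfin : Finite {f : A →₀ ℕ // (f.sum fun a m => m * deg a) = q} := finF deg hμ.pos hμ.fin q
  let FF : Type := {f : A →₀ ℕ // (f.sum fun a m => m * deg a) = q}
  let _ : Fintype FF := Fintype.ofFinite FF
  let l : FF → List ℕ := fun f => f.1.support.toList.map f.1
  have hfinX : ∀ (f : FF) (n : ℕ), Finite ((SPH (l f)).X n) := fun f n => SPH_LF _ n
  let _ : ∀ (f : FF) (n : ℕ), Fintype ((SPH (l f)).X n) := fun f n => Fintype.ofFinite _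
  have hmem : ∀ (n : ℕ) (f : FF) (y : (SPH (l f)).X n),
      Lf G μ f.1 f.1.support.toList y ∈ Hn (G.BX n) q := fun n f y =>
    (h3 G hG deg μ hμ n q).2.1 ⟨f, y⟩
  let θ : ∀ (f : FF) (n : ℕ), ((SPH (l f)).cm).X n →ₗ[k] (HqCM G q).X n := fun f n =>
    { toFun := fun φ => ∑ y, φ y • (⟨Lf G μ f.1 f.1.support.toList y, hmem n f y⟩ : Hn (G.BX n) q)
      map_add' := fun φ ψ => by
        rw [← Finset.sum_add_distrib]
        exact Finset.sum_congr rfl fun y _ => add_smul _ _ _
      map_smul' := fun c φ => by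
        rw [RingHom.id_apply, Finset.smul_sum]
        exact Finset.sum_congr rfl fun y _ => mul_smul _ _ _ }
  have hθ : ∀ (f : FF) {m n : ℕ} (a : Mor m n) (x : ((SPH (l f)).cm).X m),
      θ f n (((SPH (l f)).cm).map a x) = (HqCM G q).map a (θ f m x) := by
    intro f m n a φ
    apply Subtype.ext
    have e1 : ((θ f n (((SPH (l f)).cm).map a φ)) : H (G.BX n))
        = ∑ y' : (SPH (l f)).X n, (((SPH (l f)).map a y').elim 0 φ) • Lf G μ f.1 f.1.support.toList y' := by
      show ((∑ y', (((SPH (l f)).map a y').elim 0 φ) •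
        (⟨Lf G μ f.1 f.1.support.toList y', hmem n f y'⟩ : Hn (G.BX n) q) : Hn (G.BX n) q) : H (G.BX n)) = _
      rw [Submodule.coe_sum]
      rfl
    have e2 : (((HqCM G q).map a (θ f m φ)) : H (G.BX n))
        = ∑ y : (SPH (l f)).X m, φ y • H.map (G.BXmap a) (Lf G μ f.1 f.1.support.toList y) := by
      show H.map (G.BXmap a) ((∑ y, φ y •
        (⟨Lf G μ f.1 f.1.support.toList y, hmem m f y⟩ : Hn (G.BX m) q) : Hn (G.BX m) q) : H (G.BX m)) = _
      rw [Submodule.coe_sum, map_sum]
      exact Finset.sum_congr rfl fun y _ => map_smul _ _ _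
    rw [e1, e2]
    have e3 : ∀ y : (SPH (l f)).X m, H.map (G.BXmap a) (Lf G μ f.1 f.1.support.toList y)
        = ∑ y' : (SPH (l f)).X n, if (SPH (l f)).map a y' = some y then
            Lf G μ f.1 f.1.support.toList y' else 0 := by
      intro y
      rw [h2 G μ hμ.prim f.1 f.1.support.toList m n a y
        (Finset.univ.filter fun y' => (SPH (l f)).map a y' = some y)
        (fun y' => by rw [Finset.mem_filter]; exact ⟨fun h => h.2, fun h => ⟨Finset.mem_univ _, h⟩⟩)]
      rw [Finset.sum_filter]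
    simp only [e3, Finset.smul_sum]
    rw [Finset.sum_comm]
    apply Finset.sum_congr rfl
    intro y' _
    cases h : (SPH (l f)).map a y' with
    | none => simp
    | some z =>
      rw [Finset.sum_eq_single z]
      · simp
      · intro y _ hy
        rw [if_neg, smul_zero]
        intro h'
        exact hy (Option.some.inj h').symm
      · intro h'
        exact absurd (Finset.mem_univ z) h'
  have hb : ∀ n, Function.Bijective (fun φ : (∀ f : FF, ((SPH (l f)).cm).X n) => ∑ f, θ f n (φ f)) := by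
    intro n
    obtain ⟨hi, _, hs⟩ := h3 G hG deg μ hμ n q
    have hval : ∀ φ : (∀ f : FF, ((SPH (l f)).cm).X n), ((∑ f, θ f n (φ f) : Hn (G.BX n) q) : H (G.BX n))
        = ∑ t : (Σ f : FF, (SPH (l f)).X n), φ t.1 t.2 • Lf G μ t.1.1 t.1.1.support.toList t.2 := by
      intro φ
      rw [Submodule.coe_sum, Fintype.sum_sigma]
      apply Finset.sum_congr rfl
      intro f _
      show ((∑ y, φ f y • (⟨Lf G μ f.1 f.1.support.toList y, hmem n f y⟩ : Hn (G.BX n) q) : Hn (G.BX n) q) : H (G.BX n)) = _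
      rw [Submodule.coe_sum]
      rfl
    constructor
    · intro φ ψ h
      have h' := congrArg (Subtype.val) h
      change ((∑ f, θ f n (φ f) : Hn (G.BX n) q) : H (G.BX n)) = ((∑ f, θ f n (ψ f) : Hn (G.BX n) q) : H (G.BX n)) at h'
      rw [hval, hval, ← sub_eq_zero, ← Finset.sum_sub_distrib] at h'
      simp only [← sub_smul] at h'
      have h4 := Fintype.linearIndependent_iff.mp hi (fun t => φ t.1 t.2 - ψ t.1 t.2) h'
      funext f y
      exact sub_eq_zero.mp (h4 ⟨f, y⟩)
    · intro x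
      have hx := hs x.2
      obtain ⟨c, hc⟩ := (Submodule.mem_span_range_iff_exists_fun k).mp hx
      refine ⟨fun f y => c ⟨f, y⟩, ?_⟩
      apply Subtype.ext
      show ((∑ f, θ f n (fun y => c ⟨f, y⟩) : Hn (G.BX n) q) : H (G.BX n)) = x.1
      rw [hval, ← hc]
  have hT := transfer (HqCM G q) (fun f : FF => (SPH (l f)).cm) θ hθ hb p
    (fun f => if p = (l f).sum then 1 else 0) (fun f => h1 (l f) p)
  have hsum : (∑ f : FF, if p = (l f).sum then 1 else 0) = NumE2 deg p q := by
    have hl : ∀ f : FF, (l f).sum = f.1.sum fun _ m => m := by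
      intro f
      show (f.1.support.toList.map f.1).sum = _
      rw [Finsupp.sum, ← Finset.sum_map_toList]
    simp only [hl]
    rw [Finset.sum_boole, Nat.cast_id, NumE2, ← Fintype.card_subtype, ← Nat.card_eq_fintype_card]
    apply Nat.card_congr
    exact {
      toFun := fun t => ⟨t.1.1, t.1.2, t.2.symm⟩
      invFun := fun t => ⟨⟨t.1, t.2.1⟩, t.2.2.symm⟩
      left_inv := fun _ => rfl
      right_inv := fun _ => rfl }
  rw [← hsum]
  exact hT

end Pool.Agent.SHS


end

section

/-!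
Block III-S: link between the double complex of functions on G_q^p and the
cosimplicial vector space p ↦ H^q(G^p).
-/

namespace Pool.Agent.SHS
namespace Link

/-- Classes of vertical cocycles, as a linear map. -/
noncomputable def clsL (X : SS) (q : ℕ) : X.cm.cc.Z q →ₗ[k] Hn X q where
  toFun f := ⟨clsN q f.1 f.2, clsN_mem q f.1 f.2⟩
  map_add' f g := Subtype.ext (clsN_add f.1 g.1 f.2 g.2)
  map_smul' c f := Subtype.ext (clsN_smul c f.1 f.2)

theorem clsL_val (X : SS) (q : ℕ) (f : X.cm.cc.Z q) : (clsL X q f).1 = clsN q f.1 f.2 := rfl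

theorem clsL_surj (X : SS) (q : ℕ) : Function.Surjective (clsL X q) := by
  rintro ⟨a, ha⟩
  obtain ⟨φ, h, e⟩ := exists_clsN ha
  exact ⟨⟨φ, h⟩, Subtype.ext e⟩

theorem clsL_zero (X : SS) (q : ℕ) (f : X.cm.cc.Z q) : clsL X q f = 0 ↔ f.1 ∈ X.cm.cc.B q := by
  rw [← clsN_eq_zero f.1 f.2]
  exact ⟨fun h => congrArg Subtype.val h, fun h => Subtype.ext h⟩

/-- Pull back of cocycles of degree `q`. -/
def pullZ {X Y : SS} (θ : SS.Hom X Y) (q : ℕ) (f : Y.cm.cc.Z q) : X.cm.cc.Z q :=
  ⟨fun x => f.1 (θ.f q x), by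
    show X.cm.delta q (fun x => f.1 (θ.f q x)) = 0
    have h : Y.cm.delta q f.1 = 0 := f.2
    rw [CM.delta_apply] at h ⊢
    funext x
    have h1 := congrFun h (θ.f (q + 1) x)
    rw [Finset.sum_apply] at h1 ⊢
    refine Eq.trans ?_ h1
    apply Finset.sum_congr rfl
    intro i _
    show f.1 (θ.f q (X.map (cof i) x)) = f.1 (Y.map (cof i) (θ.f (q + 1) x))
    rw [θ.nat]⟩

theorem map_clsL {X Y : SS} (θ : SS.Hom X Y) (q : ℕ) (f : Y.cm.cc.Z q) :
    H.map θ (clsL Y q f).1 = (clsL X q (pullZ θ q f)).1 := by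
  rw [clsL_val, clsL_val]
  unfold clsN
  rw [H.map_cls]
  congr 1
  apply Subtype.ext
  show Coch.pull θ (Coch.single q f.1) = Coch.single q (fun x => f.1 (θ.f q x))
  ext m x
  rw [Coch.pull_apply]
  by_cases h : m = q
  · subst h
    rw [Coch.single_self, Coch.single_self]
  · rw [Coch.single_ne h, Coch.single_ne h]

theorem nrm_id (G : SV) (p q : ℕ) (x : Nrm p (G.X q)) :
    Nrm.map (OrderHom.id : Mor p p) (G.X q) x = x := by
  apply Subtype.ext
  funext i
  show x.1 i - x.1 0 = x.1 i
  rw [show x.1 0 = 0 from x.2, sub_zero]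

/-- The vertical differential is the differential of the cochains of `G.BX p`. -/
theorem col_delta (G : SV) (p q : ℕ) (φ : Nrm p (G.X q) → k) :
    (G.bcm.col p).delta q φ = (G.BX p).cm.delta q φ := by
  rw [CM.delta_apply, CM.delta_apply]
  apply Finset.sum_congr rfl
  intro i _
  funext x
  show φ (Nrm.coef p (G.map (cof i)) (Nrm.map OrderHom.id (G.X (q + 1)) x))
    = φ (Nrm.coef p (G.map (cof i)) x)
  rw [nrm_id]

/-- The horizontal differential in terms of the operators of `G.BX`. -/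
theorem row_delta (G : SV) (p q : ℕ) (φ : Nrm p (G.X q) → k) :
    (G.bcm.row q).delta p φ
      = ∑ i : Fin (p + 2), fun x => φ ((G.BXmap (cof i)).f q x) := by
  rw [CM.delta_apply]
  apply Finset.sum_congr rfl
  intro i _
  funext x
  show φ (Nrm.coef p (G.map OrderHom.id) (Nrm.map (cof i) (G.X q) x))
    = φ (Nrm.map (cof i) (G.X q) x)
  congr 1
  apply Subtype.ext
  funext j
  show G.map OrderHom.id _ = _
  rw [G.map_id]

/-- The horizontal differential on vertical cocycles. -/
def hz (G : SV) (p q : ℕ) (f : (G.BX p).cm.cc.Z q) : (G.BX (p + 1)).cm.cc.Z q :=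
  ∑ i : Fin (p + 2), pullZ (G.BXmap (cof i)) q f

theorem hz_val (G : SV) (p q : ℕ) (f : (G.BX p).cm.cc.Z q) :
    (hz G p q f).1 = (G.bcm.row q).delta p f.1 := by
  rw [row_delta]
  unfold hz
  rw [Submodule.coe_sum]
  rfl

theorem delta_clsL (G : SV) (p q : ℕ) (f : (G.BX p).cm.cc.Z q) :
    (HqCM G q).delta p (clsL (G.BX p) q f) = clsL (G.BX (p + 1)) q (hz G p q f) := by
  rw [CM.delta_apply]
  unfold hz
  rw [map_sum]
  apply Finset.sum_congr rfl
  intro i _
  apply Subtype.ext
  exact map_clsL (G.BXmap (cof i)) q f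

theorem mem_Z2 (G : SV) (p q : ℕ) (φ : G.bcm.dc.X p q) (h : φ ∈ G.bcm.dc.Z2 p q) :
    ∃ h' : φ ∈ (G.BX p).cm.cc.Z q,
      (hz G p q ⟨φ, h'⟩).1 ∈ (G.BX (p + 1)).cm.cc.B q := by
  cases q with
  | zero =>
    obtain ⟨h1, h2⟩ := h
    have h1' : (G.bcm.col p).delta 0 φ = 0 := h1
    have h2' : (G.bcm.row 0).delta p φ = 0 := h2
    rw [col_delta] at h1'
    refine ⟨h1', ?_⟩
    rw [hz_val, h2']
    exact Submodule.zero_mem _
  | succ q =>
    obtain ⟨h1, h2⟩ := h
    have h1' : (G.bcm.col p).delta (q + 1) φ = 0 := h1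
    obtain ⟨w, h2'⟩ := h2
    have h2'' : (G.bcm.col (p + 1)).delta q w = (G.bcm.row (q + 1)).delta p φ := h2'
    rw [col_delta] at h1'
    refine ⟨h1', ?_⟩
    rw [hz_val, ← h2'', col_delta]
    exact ⟨w, rfl⟩

theorem mem_B2v (G : SV) (p q : ℕ) (φ : G.bcm.dc.X p q) (h : φ ∈ (G.BX p).cm.cc.B q) :
    φ ∈ G.bcm.dc.B2v p q := by
  cases q with
  | zero => exact h
  | succ q =>
    obtain ⟨w, hw⟩ := h
    refine ⟨w, ?_⟩
    show (G.bcm.col p).delta q w = φ
    rw [col_delta]
    exact hw

theorem lift_B (G : SV) (p q : ℕ) (b : Hn (G.BX p) q) (h : b ∈ (HqCM G q).cc.B p) :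
    ∃ f : (G.BX p).cm.cc.Z q, clsL (G.BX p) q f = b ∧ f.1 ∈ G.bcm.dc.B2h p q := by
  cases p with
  | zero =>
    refine ⟨0, ?_, ?_⟩
    · rw [map_zero]
      exact ((Submodule.mem_bot k).mp h).symm
    · exact Submodule.zero_mem _
  | succ p =>
    obtain ⟨w, hw⟩ := h
    obtain ⟨g, rfl⟩ := clsL_surj (G.BX p) q w
    refine ⟨hz G p q g, ?_, ?_⟩
    · rw [← delta_clsL]
      exact hw
    · rw [hz_val]
      refine ⟨g.1, ?_, rfl⟩
      show (G.bcm.col p).delta q g.1 = 0
      rw [col_delta]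
      exact g.2

end Link

open Link in
theorem LINK : LINK_Stmt := by
  classical
  intro G p q N hs
  obtain ⟨s, hs1, hs2⟩ := hs
  choose r hr using clsL_surj (G.BX p) q
  refine ⟨s.image (fun t => (r t).1), le_trans Finset.card_image_le hs1, ?_⟩
  intro φ hφ
  obtain ⟨h1, h2⟩ := mem_Z2 G p q φ hφ
  have h3 : clsL (G.BX p) q ⟨φ, h1⟩ ∈ (HqCM G q).cc.Z p := by
    show (HqCM G q).delta p (clsL (G.BX p) q ⟨φ, h1⟩) = 0
    rw [delta_clsL, clsL_zero]
    exact h2
  obtain ⟨b, hb, c, hc, hbc⟩ := Submodule.mem_sup.mp (hs2 h3)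
  obtain ⟨f, hf1, hf2⟩ := lift_B G p q b hb
  have h4 : ∃ g ∈ Submodule.span k (r '' (s : Set (Hn (G.BX p) q))), clsL (G.BX p) q g = c := by
    have h5 : Submodule.span k (s : Set (Hn (G.BX p) q))
        = (Submodule.span k (r '' (s : Set (Hn (G.BX p) q)))).map (clsL (G.BX p) q) := by
      rw [Submodule.map_span]
      congr 1
      ext t
      constructor
      · intro ht
        exact ⟨r t, ⟨t, ht, rfl⟩, hr t⟩
      · rintro ⟨_, ⟨t', ht', rfl⟩, rfl⟩
        rw [hr]
        exact ht'
    have hc' : c ∈ (Submodule.span k (r '' (s : Set (Hn (G.BX p) q)))).map (clsL (G.BX p) q) := by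
      rw [← h5]; exact hc
    obtain ⟨g, hg, hgc⟩ := hc'
    exact ⟨g, hg, hgc⟩
  obtain ⟨g, hg, hgc⟩ := h4
  have h6 : clsL (G.BX p) q (⟨φ, h1⟩ - f - g) = 0 := by
    rw [map_sub, map_sub, hf1, hgc, ← hbc]
    abel
  rw [clsL_zero] at h6
  have h7 : φ - f.1 - g.1 ∈ G.bcm.dc.B2v p q := mem_B2v G p q _ h6
  have h8 : φ = f.1 + (φ - f.1 - g.1) + g.1 := by abel
  rw [h8]
  apply Submodule.add_mem
  · apply Submodule.mem_sup_left
    apply Submodule.add_mem
    · exact Submodule.mem_sup_left hf2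
    · exact Submodule.mem_sup_right h7
  · apply Submodule.mem_sup_right
    have h9 := Submodule.mem_map_of_mem (f := ((G.BX p).cm.cc.Z q).subtype) hg
    rw [Submodule.map_span] at h9
    refine Submodule.span_mono ?_ h9
    rintro _ ⟨_, ⟨t, ht, rfl⟩, rfl⟩
    rw [Finset.mem_coe]
    exact Finset.mem_image_of_mem (fun t => (r t).1) ht

end Pool.Agent.SHS


end

section

/-!
Block III-S, module SHS_BARB: the upper bound for the cohomology of the bar construction.
-/

namespace Pool.Agent.SHS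

namespace Barb

open Coch

theorem diag_eq (G : SV) : G.bcm.diag = G.bar.toSS.cm := rfl

theorem spanLE_inside {M : Type*} [AddCommGroup M] [Module k M] {Z B : Submodule k M} {N : ℕ}
    (h : SpanLE Z B N) : ∃ s : Finset M, s.card ≤ N ∧ (∀ x ∈ s, x ∈ Z) ∧
      Z ≤ B ⊔ Submodule.span k (s : Set M) := by
  classical
  obtain ⟨s, hs, hZ⟩ := h
  have hle : Z.map B.mkQ ≤ Submodule.span k ((s.image B.mkQ : Finset (M ⧸ B)) : Set (M ⧸ B)) := by
    rintro _ ⟨z, hz, rfl⟩
    obtain ⟨b, hb, c, hc, rfl⟩ := Submodule.mem_sup.1 (hZ hz)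
    rw [map_add, Submodule.mkQ_apply, (Submodule.Quotient.mk_eq_zero B).2 hb, zero_add,
      Finset.coe_image, ← Submodule.map_span]
    exact ⟨c, hc, rfl⟩
  have hfd : FiniteDimensional k (Submodule.span k ((s.image B.mkQ : Finset (M ⧸ B)) :
      Set (M ⧸ B))) := FiniteDimensional.span_finset k _
  have hfd' : FiniteDimensional k (Z.map B.mkQ) := Submodule.finiteDimensional_of_le hle
  have hr : Module.finrank k (Z.map B.mkQ) ≤ N := by
    refine (Submodule.finrank_mono hle).trans ?_
    refine (finrank_span_finset_le_card (R := k) (s.image B.mkQ)).trans ?_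
    exact Finset.card_image_le.trans hs
  let bs := Module.finBasis k (Z.map B.mkQ)
  have hch : ∀ i, ∃ x ∈ Z, B.mkQ x = (bs i : M ⧸ B) := fun i => (bs i).2
  choose x hx hxb using hch
  refine ⟨Finset.univ.image x, ?_, ?_, ?_⟩
  · refine Finset.card_image_le.trans ?_
    rw [Finset.card_univ, Fintype.card_fin]
    exact hr
  · intro y hy
    obtain ⟨i, _, rfl⟩ := Finset.mem_image.1 hy
    exact hx i
  · intro z hz
    obtain ⟨c, hc⟩ : ∃ c : Fin (Module.finrank k (Z.map B.mkQ)) → k,
        ∑ i, c i • (bs i : M ⧸ B) = B.mkQ z := by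
      refine ⟨fun i => bs.repr ⟨B.mkQ z, Submodule.mem_map_of_mem hz⟩ i, ?_⟩
      have h1 := bs.sum_repr ⟨B.mkQ z, Submodule.mem_map_of_mem hz⟩
      have := congrArg Subtype.val h1
      rw [AddSubmonoidClass.coe_finsetSum] at this
      exact this
    have h3 : B.mkQ (z - ∑ i, c i • x i) = 0 := by
      rw [map_sub, map_sum, sub_eq_zero]
      refine hc.symm.trans ?_
      apply Finset.sum_congr rfl
      intro i _
      rw [map_smul, hxb]
    rw [Submodule.mkQ_apply, Submodule.Quotient.mk_eq_zero] at h3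
    have h4 : z = (z - ∑ i, c i • x i) + ∑ i, c i • x i := by abel
    rw [h4]
    refine Submodule.add_mem_sup h3 ?_
    refine Submodule.sum_mem _ fun i _ => Submodule.smul_mem _ _ (Submodule.subset_span ?_)
    rw [Finset.coe_image]
    exact ⟨i, Finset.mem_coe.2 (Finset.mem_univ i), rfl⟩

section count
variable {A : Type} (deg : A → ℕ)

theorem sum_split (f : A →₀ ℕ) : (f.sum fun a m => m * (deg a + 1)) =
    (f.sum fun a m => m * deg a) + (f.sum fun _ m => m) := by
  unfold Finsupp.sum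
  rw [← Finset.sum_add_distrib]
  exact Finset.sum_congr rfl fun a _ => by ring

theorem finite_tot (hf : ∀ n, {a | deg a ≤ n}.Finite) (d : ℕ) :
    Finite {f : A →₀ ℕ // (f.sum fun a m => m * (deg a + 1)) = d} := by
  classical
  have hb : ∀ f : {f : A →₀ ℕ // (f.sum fun a m => m * (deg a + 1)) = d}, ∀ a,
      f.1 a * (deg a + 1) ≤ d := by
    intro f a
    by_cases h : a ∈ f.1.support
    · calc f.1 a * (deg a + 1) ≤ f.1.sum fun a m => m * (deg a + 1) :=
            Finset.single_le_sum (f := fun a => f.1 a * (deg a + 1)) (fun _ _ => Nat.zero_le _) h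
        _ = d := f.2
    · rw [Finsupp.notMem_support_iff.1 h, zero_mul]
      exact Nat.zero_le _
  have : Finite {a | deg a ≤ d} := hf d
  apply Finite.of_injective
    (β := {a | deg a ≤ d} → Fin (d + 1))
    (fun f a => ⟨f.1 a.1, by
      have h1 := hb f a.1
      have h2 : f.1 a.1 ≤ f.1 a.1 * (deg a.1 + 1) := Nat.le_mul_of_pos_right _ (Nat.succ_pos _)
      omega⟩)
  intro f g hfg
  apply Subtype.ext
  ext a
  by_cases h : deg a ≤ d
  · have := congrFun hfg ⟨a, h⟩
    exact congrArg Fin.val this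
  · have h1 : ∀ f : {f : A →₀ ℕ // (f.sum fun a m => m * (deg a + 1)) = d}, f.1 a = 0 := by
      intro f
      by_contra h0
      have h2 := hb f a
      have h3 : deg a + 1 ≤ f.1 a * (deg a + 1) := Nat.le_mul_of_pos_left _ (Nat.pos_of_ne_zero h0)
      omega
    rw [h1, h1]

theorem count (hf : ∀ n, {a | deg a ≤ n}.Finite) (d : ℕ) :
    ∑ q ∈ Finset.range (d + 1), NumE2 deg (d - q) q =
      Nat.card {f : A →₀ ℕ // (f.sum fun a m => m * (deg a + 1)) = d} := by
  have := finite_tot deg hf d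
  have : ∀ q : Fin (d + 1), Finite {f : A →₀ ℕ // (f.sum fun a m => m * deg a) = q.1 ∧
      (f.sum fun _ m => m) = d - q.1} := by
    intro q
    apply Finite.of_injective
      (β := {f : A →₀ ℕ // (f.sum fun a m => m * (deg a + 1)) = d})
      (fun f => ⟨f.1, by
        rw [sum_split, f.2.1, f.2.2]
        have := q.2
        omega⟩)
    intro f g hfg
    have hfg' := congrArg Subtype.val hfg
    exact Subtype.ext hfg'
  rw [Finset.sum_range]
  unfold NumE2
  rw [← Nat.card_sigma]
  apply Nat.card_congr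
  refine ⟨fun t => ⟨t.2.1, ?_⟩, fun f => ⟨⟨f.1.sum fun a m => m * deg a, ?_⟩, ⟨f.1, rfl, ?_⟩⟩,
    ?_, ?_⟩
  · rw [sum_split, t.2.2.1, t.2.2.2]
    have := t.1.2
    omega
  · have := f.2
    rw [sum_split] at this
    omega
  · have := f.2
    rw [sum_split] at this
    show _ = d - (f.1.sum fun a m => m * deg a)
    omega
  · rintro ⟨⟨q, hq⟩, ⟨f, h1, h2⟩⟩
    dsimp only at h1
    subst h1
    rfl
  · intro f
    rfl

end count

/-- Additivity of the Alexander-Whitney map. -/
theorem AW_add (M : BCM) (n : ℕ) (x y : ∀ p q, M.X p q) :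
    M.AW n (x + y) = M.AW n x + M.AW n y := by
  unfold BCM.AW
  rw [← Finset.sum_add_distrib]
  apply Finset.sum_congr rfl
  intro p _
  rw [← map_add]
  rfl

theorem AW_smul (M : BCM) (n : ℕ) (c : k) (x : ∀ p q, M.X p q) :
    M.AW n (c • x) = c • M.AW n x := by
  unfold BCM.AW
  rw [Finset.smul_sum]
  apply Finset.sum_congr rfl
  intro p _
  rw [← map_smul]
  rfl

theorem AW_zero (M : BCM) (n : ℕ) : M.AW n 0 = 0 := by
  have := AW_smul M n 0 0
  rwa [zero_smul, zero_smul] at this

theorem AW_cocycle (h5 : AWC_Stmt) (G : SV) (d : ℕ) (x : ∀ p q, G.bcm.X p q)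
    (hx : x ∈ G.bcm.dc.ZT d) : G.bar.toSS.cm.delta d (G.bcm.AW d x) = 0 := by
  have h := h5 G.bcm d x hx.1
  rw [hx.2, AW_zero] at h
  exact h.symm

theorem AW_bd (h5 : AWC_Stmt) (G : SV) (d : ℕ) (x : ∀ p q, G.bcm.X p q)
    (hx : x ∈ G.bcm.dc.BT d) : G.bcm.AW d x ∈ G.bar.toSS.cm.cc.B d := by
  cases d with
  | zero =>
    have hx0 : x = 0 := hx
    rw [hx0, AW_zero]
    exact Submodule.zero_mem _
  | succ d =>
    have hx' : x ∈ Submodule.span k {x | ∃ y ∈ G.bcm.dc.Tot d, G.bcm.dc.D y = x} := hx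
    clear hx
    induction hx' using Submodule.span_induction with
    | mem x h =>
      obtain ⟨y, hy, rfl⟩ := h
      rw [h5 G.bcm d y hy]
      exact ⟨G.bcm.AW d y, rfl⟩
    | zero => rw [AW_zero]; exact Submodule.zero_mem _
    | add x y hx hy ihx ihy =>
      rw [AW_add]
      exact Submodule.add_mem _ ihx ihy
    | smul c x hx ih =>
      rw [AW_smul]
      exact Submodule.smul_mem _ _ ih

/-- The classes of the Alexander-Whitney images. -/
noncomputable def Phi (h5 : AWC_Stmt) (G : SV) (d : ℕ) :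
    G.bcm.dc.ZT d →ₗ[k] H G.bar.toSS where
  toFun x := clsN (X := G.bar.toSS) d (G.bcm.AW d x.1) (AW_cocycle h5 G d x.1 x.2)
  map_add' x y := by
    rw [← clsN_add]
    congr 1
    exact AW_add _ _ _ _
  map_smul' c x := by
    unfold clsN
    rw [RingHom.id_apply, ← map_smul]
    congr 1
    apply Subtype.ext
    have h := single_smul (X := G.bar.toSS) d c (G.bcm.AW d x.1)
    refine Eq.trans ?_ h
    exact congrArg (single (X := G.bar.toSS) d) (AW_smul _ _ _ _)

theorem Phi_bd (h5 : AWC_Stmt) (G : SV) (d : ℕ) (x : G.bcm.dc.ZT d)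
    (hx : x.1 ∈ G.bcm.dc.BT d) : Phi h5 G d x = 0 :=
  (clsN_eq_zero (X := G.bar.toSS) (G.bcm.AW d x.1) (AW_cocycle h5 G d x.1 x.2)).2
    (AW_bd h5 G d x.1 hx)

end Barb

open Barb Coch in
theorem BARB (h1 : EZ_Stmt) (h2 : TB_Stmt) (h3 : LINK_Stmt) (h4 : E2_Stmt) (h5 : AWC_Stmt) :
    BARB_Stmt := by
  classical
  intro G hG A deg μ hμ d
  have hsp : SpanLE (G.bcm.dc.ZT d) (G.bcm.dc.BT d)
      (∑ q ∈ Finset.range (d + 1), NumE2 deg (d - q) q) := by
    apply h2 G.bcm.dc d (fun q => NumE2 deg (d - q) q)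
    intro q _
    exact h3 G (d - q) q _ (h4 G hG deg μ hμ (d - q) q)
  rw [count deg hμ.fin d] at hsp
  obtain ⟨s, hs, hsZ, hZ⟩ := spanLE_inside hsp
  refine ⟨s.attach.image (fun x => Phi h5 G d ⟨x.1, hsZ x.1 x.2⟩), ?_, ?_⟩
  · refine Finset.card_image_le.trans ?_
    rw [Finset.card_attach]
    exact hs
  · intro a ha
    obtain ⟨φ, h, rfl⟩ := exists_clsN ha
    obtain ⟨x, hx, hB⟩ := (h1 G.bcm d).1 φ h
    have e1 : clsN d φ h = Phi h5 G d ⟨x, hx⟩ := by
      have h6 : G.bar.toSS.cm.delta d (φ - G.bcm.AW d x) = 0 := by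
        rw [map_sub, AW_cocycle h5 G d x hx, sub_zero]
        exact h
      have h7 : clsN d (φ - G.bcm.AW d x) h6 = 0 := (clsN_eq_zero _ _).2 hB
      have h8 := clsN_add (φ - G.bcm.AW d x) (G.bcm.AW d x) h6 (AW_cocycle h5 G d x hx)
      have h8 := h8.trans ((congrArg (· + clsN (X := G.bar.toSS) d (G.bcm.AW d x)
        (AW_cocycle h5 G d x hx)) h7).trans (zero_add _))
      have h9 : clsN d (φ - G.bcm.AW d x + G.bcm.AW d x) (by
          rw [map_add, h6, AW_cocycle h5 G d x hx, add_zero]) = clsN d φ h := by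
        congr 1
        abel
      exact h9.symm.trans h8
    rw [e1]
    obtain ⟨b, hb, c, hc, hbc⟩ := Submodule.mem_sup.1 (hZ hx)
    have hc' : c ∈ ((Submodule.span k ((s.attach.image
        (fun x => Phi h5 G d ⟨x.1, hsZ x.1 x.2⟩) : Finset _) : Set (H G.bar.toSS))).comap
          (Phi h5 G d)).map (G.bcm.dc.ZT d).subtype := by
      have hle : Submodule.span k (s : Set (∀ p q, G.bcm.X p q)) ≤
          ((Submodule.span k ((s.attach.image
            (fun x => Phi h5 G d ⟨x.1, hsZ x.1 x.2⟩) : Finset _) : Set (H G.bar.toSS))).comap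
          (Phi h5 G d)).map (G.bcm.dc.ZT d).subtype := by
        rw [Submodule.span_le]
        intro y hy
        refine ⟨⟨y, hsZ y hy⟩, ?_, rfl⟩
        apply Submodule.subset_span
        rw [Finset.coe_image]
        exact ⟨⟨y, hy⟩, Finset.mem_coe.2 (Finset.mem_attach _ _), rfl⟩
      exact hle hc
    obtain ⟨c', hc'', rfl⟩ := hc'
    have hbZ : b ∈ G.bcm.dc.ZT d := by
      have : b = x - c'.1 := by
        rw [← hbc]
        show b = b + c'.1 - c'.1
        abel
      rw [this]
      exact Submodule.sub_mem _ hx c'.2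
    have e2 : (⟨x, hx⟩ : G.bcm.dc.ZT d) = ⟨b, hbZ⟩ + c' := Subtype.ext hbc.symm
    rw [e2, map_add, Phi_bd h5 G d ⟨b, hbZ⟩ hb, zero_add]
    exact hc''

end Pool.Agent.SHS


end

section

/-!
# Block III-S, WF: finiteness of the set of multisets of bounded weight
-/

namespace Pool.Agent.SHS

namespace Wf

theorem lt_wgt {J : Multiset ℕ} {i : ℕ} (hi : i ∈ J) : i < wgt J := by
  have h1 : 2 ^ i ≤ wgt J := Multiset.single_le_sum (fun _ _ => Nat.zero_le _) _
    (Multiset.mem_map_of_mem _ hi)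
  exact (Nat.lt_two_pow_self).trans_le h1

theorem le_box {n d : ℕ} {J : Multiset ℕ} (hJ : Multiset.card J = n) (h : wgt J ≤ d) :
    J ≤ n • Multiset.range (d + 1) := by
  rw [Multiset.le_iff_count]
  intro i
  by_cases hi : i ∈ J
  · have h1 : i < d + 1 := by
      have := lt_wgt hi
      omega
    have h2 : Multiset.count i (Multiset.range (d + 1)) = 1 :=
      Multiset.count_eq_one_of_mem (Multiset.nodup_range _) (Multiset.mem_range.2 h1)
    rw [Multiset.count_nsmul, h2, mul_one, ← hJ]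
    exact Multiset.count_le_card _ _
  · rw [Multiset.count_eq_zero_of_notMem hi]
    exact Nat.zero_le _

end Wf

theorem WF : WF_Stmt := by
  intro n d
  have h1 : ({J : Multiset ℕ | J ≤ n • Multiset.range (d + 1)}).Finite := Set.finite_Iic _
  exact (h1.preimage (f := (Subtype.val : {J : Multiset ℕ // Multiset.card J = n} → Multiset ℕ))
    Subtype.val_injective.injOn).subset fun J hJ => Wf.le_box J.2 hJ

end Pool.Agent.SHS


end

section

/-!
# CNT: the two sets of monomials have the same number of elements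
-/

set_option autoImplicit false

namespace Pool.Agent.SHS

namespace Cnt

/-- Multisets with `n` elements. -/
abbrev MS (n : ℕ) : Type := {J : Multiset ℕ // Multiset.card J = n}

theorem wgt_eq (J : Multiset ℕ) (i : ℕ) :
    wgt ((0 ::ₘ J).map (· + i)) = 2 ^ i * (wgt J + 1) := by
  unfold wgt
  rw [Multiset.map_map, Multiset.map_cons, Multiset.sum_cons]
  have h1 : (J.map ((fun i => 2 ^ i) ∘ fun x => x + i)) = J.map (fun j => 2 ^ i * 2 ^ j) := by
    apply Multiset.map_congr rfl
    intro j _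
    show 2 ^ (j + i) = 2 ^ i * 2 ^ j
    rw [pow_add, mul_comm]
  rw [h1, Multiset.sum_map_mul_left]
  show 2 ^ (0 + i) + 2 ^ i * (J.map fun i => 2 ^ i).sum = 2 ^ i * ((J.map fun i => 2 ^ i).sum + 1)
  rw [zero_add]
  ring

/-- The map from pairs to multisets. -/
def up (n : ℕ) (x : MS n × ℕ) : MS (n + 1) :=
  ⟨(0 ::ₘ x.1.1).map (· + x.2), by rw [Multiset.card_map, Multiset.card_cons, x.1.2]⟩

theorem up_injective (n : ℕ) : Function.Injective (up n) := by
  rintro ⟨⟨J, hJ⟩, i⟩ ⟨⟨J', hJ'⟩, i'⟩ h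
  have h1 : (0 ::ₘ J).map (· + i) = (0 ::ₘ J').map (· + i') := congrArg Subtype.val h
  have key : ∀ (J J' : Multiset ℕ) (i i' : ℕ),
      (0 ::ₘ J).map (· + i) = (0 ::ₘ J').map (· + i') → i' ≤ i := by
    intro J J' i i' h
    have h2 : i ∈ (0 ::ₘ J).map (· + i) := by
      rw [Multiset.mem_map]
      exact ⟨0, Multiset.mem_cons_self _ _, Nat.zero_add i⟩
    rw [h, Multiset.mem_map] at h2
    obtain ⟨j, -, hj⟩ := h2
    omega
  have h3 : i = i' := le_antisymm (key _ _ _ _ h1.symm) (key _ _ _ _ h1)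
  subst h3
  have h4 := Multiset.map_injective (fun a b (hab : a + i = b + i) => Nat.add_right_cancel hab) h1
  rw [Multiset.cons_inj_right] at h4
  subst h4
  rfl

theorem up_surjective (n : ℕ) : Function.Surjective (up n) := by
  classical
  rintro ⟨J, hJ⟩
  have hne : ∃ i, i ∈ J := by
    by_contra hc
    push Not at hc
    rw [Multiset.eq_zero_of_forall_notMem hc] at hJ
    simp at hJ
  obtain ⟨i, hi, hmin⟩ : ∃ i ∈ J, ∀ j ∈ J, i ≤ j :=
    ⟨Nat.find hne, Nat.find_spec hne, fun j hj => Nat.find_min' hne hj⟩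
  have h0 : 0 ∈ J.map (· - i) := by
    rw [Multiset.mem_map]
    exact ⟨i, hi, Nat.sub_self i⟩
  have h1 : (J.map (· - i)).map (· + i) = J := by
    rw [Multiset.map_map]
    conv_rhs => rw [← Multiset.map_id J]
    apply Multiset.map_congr rfl
    intro j hj
    exact Nat.sub_add_cancel (hmin j hj)
  refine ⟨(⟨(J.map (· - i)).erase 0, ?_⟩, i), ?_⟩
  · rw [Multiset.card_erase_of_mem h0, Multiset.card_map, hJ]
    rfl
  · apply Subtype.ext
    show (0 ::ₘ (J.map (· - i)).erase 0).map (· + i) = J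
    rw [Multiset.cons_erase h0, h1]

/-- The bijection. -/
noncomputable def upE (n : ℕ) : MS n × ℕ ≃ MS (n + 1) :=
  Equiv.ofBijective (up n) ⟨up_injective n, up_surjective n⟩

theorem wgt_upE (n : ℕ) (x : MS n × ℕ) : wgt (upE n x).1 = 2 ^ x.2 * (wgt x.1.1 + 1) :=
  wgt_eq x.1.1 x.2

section Digits

variable {A : Type}

open Classical in
/-- The numbers `i` with `(a, i)` in `S`. -/
noncomputable def fib (S : Finset (A × ℕ)) (a : A) : Finset ℕ :=
  (S.filter (fun x => x.1 = a)).image Prod.snd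

theorem mem_fib {S : Finset (A × ℕ)} {a : A} {i : ℕ} : i ∈ fib S a ↔ (a, i) ∈ S := by
  classical
  unfold fib
  rw [Finset.mem_image]
  constructor
  · rintro ⟨⟨b, j⟩, h, rfl⟩
    rw [Finset.mem_filter] at h
    obtain ⟨h1, h2⟩ := h
    have h3 : b = a := h2
    subst h3
    exact h1
  · intro h
    exact ⟨(a, i), Finset.mem_filter.2 ⟨h, rfl⟩, rfl⟩

/-- The function with the given binary digits. -/
noncomputable def num (S : Finset (A × ℕ)) : A →₀ ℕ := ∑ x ∈ S, Finsupp.single x.1 (2 ^ x.2)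

theorem num_apply (S : Finset (A × ℕ)) (a : A) : num S a = ∑ i ∈ fib S a, 2 ^ i := by
  classical
  unfold num fib
  rw [Finsupp.finsetSum_apply, Finset.sum_image]
  · rw [Finset.sum_filter]
    apply Finset.sum_congr rfl
    intro x _
    rw [Finsupp.single_apply]
  · rintro ⟨b, i⟩ hx ⟨c, j⟩ hy hij
    have h1 : b = a := (Finset.mem_filter.1 hx).2
    have h2 : c = a := (Finset.mem_filter.1 hy).2
    have h3 : i = j := hij
    rw [h1, h2, h3]

theorem sum_two_pow_injective {s t : Finset ℕ} (h : ∑ i ∈ s, 2 ^ i = ∑ i ∈ t, 2 ^ i) : s = t :=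
  Finset.equivBitIndices.symm.injective h

theorem exists_digits (m : ℕ) : ∃ s : Finset ℕ, ∑ i ∈ s, 2 ^ i = m :=
  ⟨Finset.equivBitIndices m, Finset.equivBitIndices.symm_apply_apply m⟩

theorem num_injective : Function.Injective (num : Finset (A × ℕ) → A →₀ ℕ) := by
  intro S S' h
  ext ⟨a, i⟩
  have h1 : fib S a = fib S' a := by
    apply sum_two_pow_injective
    rw [← num_apply, ← num_apply, h]
  rw [← mem_fib, ← mem_fib, h1]

theorem num_surjective : Function.Surjective (num : Finset (A × ℕ) → A →₀ ℕ) := by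
  classical
  intro f
  choose s hs using fun a => exists_digits (f a)
  refine ⟨f.support.biUnion (fun a => (s a).image (fun i => (a, i))), ?_⟩
  ext a
  rw [num_apply, ← hs a]
  apply Finset.sum_congr _ (fun _ _ => rfl)
  ext i
  rw [mem_fib, Finset.mem_biUnion]
  constructor
  · rintro ⟨b, -, hb⟩
    rw [Finset.mem_image] at hb
    obtain ⟨j, hj, hbj⟩ := hb
    cases hbj
    exact hj
  · intro hi
    refine ⟨a, ?_, Finset.mem_image.2 ⟨i, hi, rfl⟩⟩
    rw [Finsupp.mem_support_iff]
    intro h0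
    have h1 : 2 ^ i ≤ ∑ i ∈ s a, 2 ^ i :=
      Finset.single_le_sum (f := fun i => 2 ^ i) (fun _ _ => Nat.zero_le _) hi
    rw [hs a, h0] at h1
    have h2 : 0 < 2 ^ i := Nat.two_pow_pos i
    omega

theorem sum_num (c : A → ℕ) (S : Finset (A × ℕ)) :
    ((num S).sum fun a m => m * c a) = ∑ x ∈ S, 2 ^ x.2 * c x.1 := by
  have h : ∀ f : A →₀ ℕ, (f.sum fun a m => m * c a) =
      Finsupp.liftAddHom (fun a => AddMonoidHom.mulRight (c a)) f := by
    intro f
    rw [Finsupp.liftAddHom_apply]
    rfl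
  rw [h]
  unfold num
  rw [map_sum]
  apply Finset.sum_congr rfl
  intro x _
  rw [Finsupp.liftAddHom_apply_single]
  rfl

end Digits

end Cnt

/-- **CNT** -/
theorem CNT : CNT_Stmt := by
  intro n d
  let E1 : Finset (Cnt.MS n × ℕ) ≃ (Cnt.MS n →₀ ℕ) :=
    Equiv.ofBijective Cnt.num ⟨Cnt.num_injective, Cnt.num_surjective⟩
  let E2 : Finset (Cnt.MS n × ℕ) ≃ Finset (Cnt.MS (n + 1)) := (Cnt.upE n).finsetCongr
  refine Nat.card_congr (Equiv.subtypeEquiv (E1.symm.trans E2) ?_)
  intro f
  obtain ⟨S, rfl⟩ := E1.surjective f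
  have h1 : (E1.symm.trans E2) (E1 S) = S.map (Cnt.upE n).toEmbedding := by
    rw [Equiv.trans_apply, Equiv.symm_apply_apply]
    rfl
  have h2 : ∑ J ∈ S.map (Cnt.upE n).toEmbedding, wgt J.1 =
      ∑ x ∈ S, 2 ^ x.2 * (wgt x.1.1 + 1) := by
    rw [Finset.sum_map]
    exact Finset.sum_congr rfl fun x _ => Cnt.wgt_upE n x
  have h3 := Cnt.sum_num (fun J : Cnt.MS n => wgt J.1 + 1) S
  rw [h1, h2]
  show ((Cnt.num S).sum fun J m => m * (wgt J.1 + 1)) = d ↔ _
  rw [h3]

end Pool.Agent.SHS


end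

section

/-!
# Block III-S: assembly

All the statements of the block, without hypotheses; only the theorem of Serre and Cartan still
takes the embedding of the bar object as a hypothesis.
-/

namespace Pool.Agent.SHS.All

theorem awc : AWC_Stmt := AWC
theorem ez : EZ_Stmt := EZ awc
theorem norm : NORM_Stmt := NORM
theorem tb : TB_Stmt := TB
theorem kunp : KUNP_Stmt := KUNP ez awc
theorem kun : KUN_Stmt := KUN kunp
theorem hbe : HBE_Stmt := HBE
theorem hty : HTY_Stmt := HTY
theorem pow : POW_Stmt := POW kun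
theorem k1a : K1A_Stmt := K1A norm
theorem k1 : K1_Stmt := K1 k1a pow
theorem sk : SK_Stmt := SK norm kun hbe
theorem sus : SUS_Stmt := SUS
theorem popd : POPD_Stmt := POPD
theorem add : ADD_Stmt := ADD
theorem pw2 : PW2_Stmt := PW2
theorem squ : SQU_Stmt := SQU k1 sk sus popd add pw2
theorem sqp : SQP_Stmt := SQP squ
theorem gena : GENA_Stmt := GENA
theorem ops : OPS_Stmt := OPS sqp gena popd
theorem msi : MSI_Stmt := MSI
theorem emu : EMU_Stmt := EMU
theorem mu : MU_Stmt := MU ops emu
theorem indx : INDX_Stmt := INDX kun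
theorem indep : INDEP_Stmt := INDEP indx msi k1
theorem bxhb : BXHB_Stmt := BXHB pow
theorem lam : LAM_Stmt := LAM
theorem sphc : SPHC_Stmt := SPHC kunp norm
theorem e2s : E2S_Stmt := E2S lam
theorem e2b : E2B_Stmt := E2B bxhb
theorem e2 : E2_Stmt := E2 sphc e2s e2b
theorem link : LINK_Stmt := LINK
theorem barb : BARB_Stmt := BARB ez tb link e2 awc
theorem sc1 : SC1_Stmt := SC1 k1a k1
theorem wf : WF_Stmt := WF
theorem cnt : CNT_Stmt := CNT
theorem sc (h : EMBAR_Stmt) : SC_Stmt := SCA sc1 wf cnt h barb indep mu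

end Pool.Agent.SHS.All


end

section

/-!
# Block III-S, statements V and W: assembly

The theorem of Serre and Cartan for all Eilenberg-MacLane objects, and the cohomology of all
simplicial vector spaces with finite levels and one vertex. No hypotheses.
-/

namespace Pool.Agent.SHS.All

theorem embar : EMBAR_Stmt := EMBAR
theorem split : SPLIT_Stmt := SPLIT
theorem lbe : LBE_Stmt := LBE
theorem lcs : LCS_Stmt := LCS
theorem scAll : SC_Stmt := sc embar
theorem fpr : FPR_Stmt := FPR kun
theorem genp : GENP_Stmt := GENP fpr scAll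
theorem genv : GENV_Stmt := GENV genp split hty
theorem poly : POLY_Stmt := POLY genv wf BIN SHIFT

end Pool.Agent.SHS.All


end

section

/-!
LINK: every class of positive degree is the pull back of the fundamental class along a pointed map.
-/

namespace Pool.Agent.SHL

open Pool.Agent.SHS Pool.Agent.SHS.Coch

namespace Emr

/-- A monotone map which is not injective factors through a codegeneracy. -/
theorem factor_cod {m q : ℕ} (s : Mor (m + 1) q) (hs : ¬ Function.Injective s) :
    ∃ (i : Fin (m + 1)) (s' : Mor m q), s = s'.comp (cod i) := by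
  obtain ⟨i, θ', h⟩ := SimplexCategory.eq_σ_comp_of_not_injective
    (SimplexCategory.mkHom s) hs
  exact ⟨i, θ'.toOrderHom, congrArg SimplexCategory.Hom.toOrderHom h⟩

/-- The cocycle condition is preserved when a coboundary is added. -/
theorem delta_add_delta {X : SS} (m : ℕ) (α : X.X (m + 1) → k) (h : X.cm.delta (m + 1) α = 0)
    (v : X.X m → k) : X.cm.delta (m + 1) (α + X.cm.delta m v) = 0 := by
  rw [map_add, h, zero_add]
  exact X.cm.delta_delta m v

theorem clsN_add_delta {X : SS} (m : ℕ) (α : X.X (m + 1) → k) (h : X.cm.delta (m + 1) α = 0)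
    (v : X.X m → k) :
    clsN (m + 1) (α + X.cm.delta m v) (delta_add_delta m α h v) = clsN (m + 1) α h := by
  have h1 : X.cm.delta (m + 1) (X.cm.delta m v) = 0 := X.cm.delta_delta m v
  have h2 := clsN_add α (X.cm.delta m v) h h1
  have h3 : clsN (m + 1) (X.cm.delta m v) h1 = 0 := by
    rw [clsN_eq_zero]
    exact ⟨v, rfl⟩
  rw [h3] at h2
  exact h2.trans (add_zero (clsN (m + 1) α h))

theorem map_EMlift {X : SS} (n : ℕ) (f : X.X n → k)
    (hn' : ∀ (m : ℕ) (s : Mor n m), ¬ Function.Injective s → ∀ x : X.X m, f (X.map s x) = 0)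
    (hc : X.cm.delta n f = 0) : H.map (EMlift n f hn' hc) (iota n) = clsN n f hc := by
  unfold iota clsN
  rw [H.map_cls]
  congr 1
  apply Subtype.ext
  ext q x
  show iotaC n q ((EMlift n f hn' hc).f q x) = single n f q x
  unfold iotaC
  by_cases h : q = n
  · subst h
    rw [single_self, single_self]
    show f (X.map OrderHom.id x) = f x
    rw [X.map_id]
  · rw [single_ne h, single_ne h]

end Emr

theorem EMR (hN : NORM_Stmt) : EMR_Stmt := by
  intro V n hn a ha
  obtain ⟨m, rfl⟩ : ∃ m, n = m + 1 := ⟨n - 1, by omega⟩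
  obtain ⟨α, hα, rfl⟩ := exists_clsN ha
  obtain ⟨v, hv⟩ := hN V.toSS.cm m α (fun i => by rw [hα, map_zero])
  have hβ := Emr.delta_add_delta m α hα v
  have hdeg : ∀ (i : Fin (m + 1)) (y : V.X m),
      (α + V.toSS.cm.delta m v) (V.map (cod i) y) = 0 := fun i y => congrFun (hv i) y
  have hn' : ∀ (q : ℕ) (s : Mor (m + 1) q), ¬ Function.Injective s → ∀ x : V.X q,
      (α + V.toSS.cm.delta m v) (V.toSS.map s x) = 0 := by
    intro q s hs x
    obtain ⟨i, s', rfl⟩ := Emr.factor_cod s hs
    rw [V.toSS.map_comp]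
    exact hdeg i _
  refine ⟨EMlift (m + 1) (α + V.toSS.cm.delta m v) hn' hβ, fun q => ?_, ?_⟩
  · apply Subtype.ext
    funext s
    show (α + V.toSS.cm.delta m v) (V.map s 0) = 0
    have h := hdeg 0 0
    rw [map_zero] at h
    rw [map_zero]
    exact h
  · rw [Emr.map_EMlift, Emr.clsN_add_delta m α hα v]

end Pool.Agent.SHL


end

section

/-!
LINK: additivity of the slant product for all reduced classes, vanishing on decomposables.
-/

namespace Pool.Agent.SHL

open Pool.Agent.SHS

theorem PHA (h1 : PH1_Stmt) (hR : RCH_Stmt) (hE : EMR_Stmt) (hV : PHV_Stmt) (hL : PHL_Stmt)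
    (hB : PHB_Stmt) (hC : LCM_Stmt) : PHA_Stmt := by
  have _ := h1
  intro t ht Y _hY V z z' j hj a ha
  obtain ⟨A, hA, rfl⟩ := hE V j hj a ha
  have hio : iota j ∈ LC (EM j) j := hC.2 j
  have hioR : iota j ∈ RC (EM j) := (hR (EM j)).2.1 j hio
  rw [← hV t Y V (EM j) A hA (z + z'), ← hV t Y V (EM j) A hA z, ← hV t Y V (EM j) A hA z']
  set b : ZM (MapS Y (EM j)) t := appZ A hA (z + z') + appZ A hA z + appZ A hA z' with hb
  have hbB : b.1 ∈ BM (MapS Y (EM j)) t := by
    obtain ⟨t', rfl⟩ : ∃ t', t = t' + 1 := ⟨t - 1, by omega⟩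
    exact app_add (U := MapS Y V) (W := MapS Y (EM j)) (mapApp Y A) (mapApp_zero Y A hA) z.2 z'.2
  have hsplit : appZ A hA (z + z') = appZ A hA z + appZ A hA z' + b := by
    have h1 := mod_two (appZ A hA z)
    have h2 := mod_two (appZ A hA z')
    have h3 : appZ A hA z + appZ A hA z' + b =
        appZ A hA (z + z') + (appZ A hA z + appZ A hA z) + (appZ A hA z' + appZ A hA z') := by
      rw [hb]
      abel
    rw [h3, h1, h2, add_zero, add_zero]
  rw [hsplit, hL t Y (EM j) _ b j _ hio, hL t Y (EM j) _ _ j _ hio, hB t ht Y (EM j) b hbB _ hioR,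
    add_zero]

theorem PHD (h1 : PH1_Stmt) (hR : RCH_Stmt) (hs : SKT_Stmt) (hk : SK_Stmt) (he : EPS1_Stmt) :
    PHD_Stmt := by
  intro Y hY V z a ha
  have hRC : ∀ (j : ℕ) (x : H V.toSS), x ∈ Hn V.toSS (j + 1) → x ∈ RC V := fun j x hx =>
    (hR V).1 (j + 1) (by omega) hx
  have hmem : ∀ x : H V.toSS, x ∈ RC V ↔ H.map (zmap (SS.simplex 0) V) x = 0 := fun _ => Iff.rfl
  unfold Dec at ha
  induction ha using Submodule.span_induction with
  | zero => exact map_zero _
  | add x y _ _ hx hy => rw [map_add, hx, hy, add_zero]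
  | smul c x _ hx => rw [map_smul, hx, smul_zero]
  | mem c hc =>
    obtain ⟨m, n, x, y, hx, hy, rfl⟩ := hc
    have hxR := hRC m x hx
    have hyR := hRC n y hy
    have hxyR : x * y ∈ RC V := by
      rw [hmem] at hxR ⊢
      rw [map_mul, hxR, zero_mul]
    have e1 := (h1 1 le_rfl Y hY V z).1
    apply (hs 1 le_rfl Y hY).1
    rw [map_zero, e1 _ hxyR, map_mul, ← e1 x hxR, ← e1 y hyR, mulE_apply, mulE_apply]
    have h2 : H.map (SS.fst (Sph 1) Y) (eps 1) * H.map (SS.fst (Sph 1) Y) (eps 1) = 0 := by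
      rw [← map_mul]
      have h3 : eps 1 * eps 1 = 0 := by
        rw [he]
        exact hk.1
      rw [h3, map_zero]
    calc H.map (SS.fst (Sph 1) Y) (eps 1) * H.map (SS.snd (Sph 1) Y) (Ph z x) *
          (H.map (SS.fst (Sph 1) Y) (eps 1) * H.map (SS.snd (Sph 1) Y) (Ph z y))
        = H.map (SS.fst (Sph 1) Y) (eps 1) * H.map (SS.fst (Sph 1) Y) (eps 1) *
          (H.map (SS.snd (Sph 1) Y) (Ph z x) * H.map (SS.snd (Sph 1) Y) (Ph z y)) := by ring
      _ = 0 := by rw [h2, zero_mul]

end Pool.Agent.SHL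


end

section

/-!
LINK of MP_2d0b73_an: completeness of the slant product with linear classes for simplicial vector
spaces with finite levels.
-/

namespace Pool.Agent.SHL.Cv

open Pool.Agent.SHS

/-- assembling a family of simplices of mapping spaces -/
def asm {Y : SS} {A : Type} {W : A → SV} (r : ℕ) (w : ∀ p, (MapS Y (W p)).X r) :
    (MapS Y (SV.pi W)).X r :=
  ⟨fun n x p => (w p).1 n x, fun m n a x => by
    funext p
    exact (w p).2 m n a x⟩

theorem pi_BM {Y : SS} {A : Type} {W : A → SV} {t : ℕ} (z : (MapS Y (SV.pi W)).X t)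
    (h : ∀ p, (mapPost Y (SV.Hom.pr W p)).f t z ∈ BM (MapS Y (W p)) t) :
    z ∈ BM (MapS Y (SV.pi W)) t := by
  choose w hw0 hw using h
  refine ⟨asm (t + 1) w, ?_, ?_⟩
  · apply HV.ext
    intro n y
    funext p
    have h1 := congrArg (fun F : HV ((SS.simplex t).prod Y) (W p) => F.1 n y) (hw0 p)
    exact h1
  · intro i hi
    apply HV.ext
    intro n y
    funext p
    have h1 := congrArg (fun F : HV ((SS.simplex t).prod Y) (W p) => F.1 n y) (hw p i hi)
    exact h1

theorem toLHty {V W : SV} {f g : SV.Hom V W} (h : SV.LHty f g) : SHL.LHty f g :=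
  ⟨h.h, fun _ _ a τ x => h.nat a τ x, h.zero, h.one⟩

end Pool.Agent.SHL.Cv

namespace Pool.Agent.SHL

open Pool.Agent.SHS Pool.Agent.SHL.Cv

theorem CV (hL : LBE_Stmt) (hS : SPLIT_Stmt) (hC : LCM_Stmt) (hV : PHV_Stmt) (hE : CEM_Stmt) :
    CV_Stmt := by
  intro V hVf t ht Y hY z hz
  obtain ⟨I, x, hx⟩ := hL V hVf
  obtain ⟨Γ, _, ⟨hh⟩⟩ := hS V hVf x hx
  have hp : ∀ (j : ℕ) (i : I j) (n : ℕ), (x j i).toSS.f n 0 = 0 :=
    fun j i n => map_zero ((x j i).f n)
  have h1 : ∀ p : (Σ j, I j), (appZ (x p.1 p.2).toSS (hp p.1 p.2) z).1 ∈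
      BM (MapS Y (EM p.1)) t := by
    intro p
    apply hE t ht Y hY p.1
    rw [hV]
    apply hz p.1
    exact hC.1 _ _ (x p.1 p.2) _ _ (hC.2 p.1)
  have h2 : (mapPost Y (Lam x)).f t z.1 ∈ BM (MapS Y (EMpi I)) t := by
    apply pi_BM
    intro p
    exact h1 p
  have h3 : (mapApp Y Γ.toSS).f t ((mapPost Y (Lam x)).f t z.1) ∈ BM (MapS Y V) t :=
    BM_app (mapApp Y Γ.toSS) (mapApp_zero Y Γ.toSS (fun n => map_zero (Γ.f n))) h2
  have h4 := LHty.BM (LHty.map Y (toLHty hh)) z.2
  have h5 := Submodule.add_mem _ h4 h3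
  have h6 : (mapPost Y (SV.Hom.id V)).f t z.1 + (mapPost Y (Γ.comp (Lam x))).f t z.1 +
      (mapApp Y Γ.toSS).f t ((mapPost Y (Lam x)).f t z.1) = z.1 := by
    have e1 : (mapPost Y (SV.Hom.id V)).f t z.1 = z.1 := rfl
    have e2 : (mapPost Y (Γ.comp (Lam x))).f t z.1 =
      (mapApp Y Γ.toSS).f t ((mapPost Y (Lam x)).f t z.1) := rfl
    rw [e1, e2, add_assoc, mod_two, add_zero]
  rw [h6] at h5
  exact h5

end Pool.Agent.SHL


end

section

/-!
LINK: realisation of linear maps on the linear classes by Moore cycles.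
-/

namespace Pool.Agent.SHL

open Pool.Agent.SHS

namespace Bv

/-- The zero map kills the fundamental class. -/
theorem Ph_zero_iota {Y : SS} {t : ℕ} (j : ℕ) : Ph (0 : ZM (MapS Y (EM j)) t) (iota j) = 0 := by
  have h1 : H.map (HV.hom (sph (0 : ZM (MapS Y (EM j)) t))) (iota j) = 0 := by
    rw [map_zero]
    unfold iota
    rw [H.map_cls]
    have h2 : Cocyc.pull (HV.hom (0 : HV ((Sph t).prod Y) (EM j)))
        ⟨iotaC j, dlt_iotaC j⟩ = 0 := by
      apply Subtype.ext
      ext m x
      show iotaC j m 0 = 0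
      unfold iotaC
      by_cases h : m = j
      · subst h
        rw [Coch.single_self]
        rfl
      · rw [Coch.single_ne h]
    rw [h2, map_zero]
  show mulEinv t Y (H.map (HV.hom (sph (0 : ZM (MapS Y (EM j)) t))) (iota j)) = 0
  rw [h1, map_zero]

/-- Levels of `EM j` below `j` vanish. -/
theorem EM_low {j n : ℕ} (h : n < j) (v : (EM j).X n) : v = 0 := by
  apply Subtype.ext
  funext s
  refine v.2.1 s fun hs => ?_
  have h1 := Fintype.card_le_of_injective _ hs
  rw [Fintype.card_fin, Fintype.card_fin] at h1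
  omega

/-- A family of Moore cycles gives a Moore cycle of the product. -/
def piZ {Y : SS} {A : Type} {W : A → SV} {t : ℕ} (z : ∀ a, ZM (MapS Y (W a)) t) :
    ZM (MapS Y (SV.pi W)) t :=
  ⟨⟨fun n x a => (z a).1.1 n x, fun m n b x => by
      funext a
      exact HV.nat (z a).1 b x⟩, by
    intro r b hb
    apply HV.ext
    intro n x
    funext a
    have h := (z a).2 r b hb
    exact congrArg (fun F : HV ((SS.simplex r).prod Y) (W a) => F.1 n x) h⟩

end Bv

open Bv in
theorem BV (hL : LBE_Stmt) (hS : SPLIT_Stmt) (hA : LCS_Stmt) (hC : LCM_Stmt)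
    (hV : PHV_Stmt) (hE : BEM_Stmt) : BV_Stmt := by
  classical
  intro V hVf t ht Y hY c hc1 hc2
  obtain ⟨I, x, hx⟩ := hL V hVf
  obtain ⟨Γ, hΓ, -⟩ := hS V hVf x hx
  have hmem : ∀ (j : ℕ) (i : I j), H.map (x j i).toSS (iota j) ∈ LC V j :=
    fun j i => hC.1 V (EM j) (x j i) j (iota j) (hC.2 j)
  -- the components
  have hz : ∀ p : (Σ j, I j), ∃ z : ZM (MapS Y (EM p.1)) t,
      Ph z (iota p.1) = c p.1 ⟨H.map (x p.1 p.2).toSS (iota p.1), hmem p.1 p.2⟩ ∧
      (c p.1 ⟨H.map (x p.1 p.2).toSS (iota p.1), hmem p.1 p.2⟩ = 0 → z = 0) := by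
    rintro ⟨j, i⟩
    by_cases h0 : c j ⟨H.map (x j i).toSS (iota j), hmem j i⟩ = 0
    · refine ⟨0, ?_, fun _ => rfl⟩
      show Ph (0 : ZM (MapS Y (EM j)) t) (iota j) = c j ⟨H.map (x j i).toSS (iota j), hmem j i⟩
      rw [h0]
      exact Ph_zero_iota j
    · have htj : t ≤ j := by
        by_contra h
        exact h0 (hc2 j _ (not_le.1 h))
      have h1 := hc1 j ⟨H.map (x j i).toSS (iota j), hmem j i⟩ htj
      have h3 : ∃ z : ZM (MapS Y (EM j)) t,
          Ph z (iota j) = c j ⟨H.map (x j i).toSS (iota j), hmem j i⟩ := by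
        generalize c j ⟨H.map (x j i).toSS (iota j), hmem j i⟩ = y at h1
        obtain ⟨m, rfl⟩ := Nat.exists_eq_add_of_le' htj
        rw [Nat.add_sub_cancel] at h1
        exact hE t ht Y hY m y h1
      obtain ⟨z, hz⟩ := h3
      exact ⟨z, hz, fun h => absurd h h0⟩
  choose zc hzc hz0 using hz
  refine ⟨postZ Γ (piZ zc), ?_, ?_⟩
  · -- values on the basis
    have hval : ∀ (j : ℕ) (i : I j), Ph (postZ Γ (piZ zc)) (H.map (x j i).toSS (iota j)) =
        c j ⟨H.map (x j i).toSS (iota j), hmem j i⟩ := by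
      intro j i
      have hg : ∀ n, (x j i).toSS.f n 0 = 0 := fun n => map_zero ((x j i).f n)
      rw [← hV t Y V (EM j) (x j i).toSS hg (postZ Γ (piZ zc)) (iota j), ← hzc ⟨j, i⟩]
      congr 2
      apply Subtype.ext
      apply HV.ext
      intro n y
      have h4 := hΓ n ((piZ zc).1.1 n y)
      exact congrFun h4 ⟨j, i⟩
    intro j
    have hspan : Submodule.span k (Set.range fun i : I j =>
        (⟨H.map (x j i).toSS (iota j), hmem j i⟩ : LC V j)) = ⊤ := by
      rw [Submodule.eq_top_iff']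
      rintro ⟨a, l, h, rfl⟩
      have h5 := hA V hVf x hx j l h
      have h6 : Submodule.span k (Set.range fun i : I j => H.map (x j i).toSS (iota j)) =
          (Submodule.span k (Set.range fun i : I j =>
            (⟨H.map (x j i).toSS (iota j), hmem j i⟩ : LC V j))).map (LC V j).subtype := by
        rw [Submodule.map_span, ← Set.range_comp]
        rfl
      rw [h6] at h5
      obtain ⟨b, hb, hb2⟩ := h5
      have h7 : b = ⟨clsN j (fun x => l x) h, ⟨l, h, rfl⟩⟩ := Subtype.ext hb2
      rw [← h7]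
      exact hb
    have hlin : (Ph (postZ Γ (piZ zc))).comp (LC V j).subtype = c j := by
      refine LinearMap.ext_on hspan ?_
      rintro _ ⟨i, rfl⟩
      exact hval j i
    intro a
    exact LinearMap.congr_fun hlin a
  · intro N hN n hn y
    show Γ.f n ((piZ zc).1.1 n y) = 0
    have h8 : (piZ zc).1.1 n y = 0 := by
      funext p
      show (zc p).1.1 n y = 0
      by_cases hp : p.1 ≤ N
      · have h9 : zc p = 0 := hz0 p (by rw [hN p.1 hp]; rfl)
        rw [h9]
        rfl
      · exact EM_low (by omega) _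
    rw [h8, map_zero]

end Pool.Agent.SHL


end

section

/-!
LINK: the coefficient of `X_0^1` in the symmetric sums.
-/

namespace Pool.Agent.SHL.Msc

open MvPolynomial SHU Pool.Agent.SHS

/-- index set of `msym` -/
theorem mem_idx {d : ℕ} (J : Multiset ℕ) (i : Fin d → ℕ) :
    i ∈ (Fintype.piFinset (fun _ : Fin d => J.toFinset)).filter
      (fun i => Multiset.ofList (List.ofFn i) = J) ↔ Multiset.ofList (List.ofFn i) = J := by
  rw [Finset.mem_filter, and_iff_right_iff_imp]
  intro h
  rw [Fintype.mem_piFinset]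
  intro j
  rw [Multiset.mem_toFinset, ← h, Multiset.mem_coe, List.mem_ofFn]
  exact ⟨j, rfl⟩

theorem prod_succ {m : ℕ} (i : Fin (m + 1) → ℕ) :
    (∏ j, (X j : Pl (m + 1)) ^ (2 ^ (i j))) =
      X 0 ^ (2 ^ (i 0)) * rename Fin.succ (∏ j, (X j : Pl m) ^ (2 ^ (i j.succ))) := by
  rw [Fin.prod_univ_succ, map_prod]
  congr 1
  refine Finset.prod_congr rfl fun j _ => ?_
  rw [map_pow, rename_X]

theorem co1_pow_rename (m n : ℕ) (y : Pl m) :
    co1 m (X 0 ^ n * rename Fin.succ y) = if n = 1 then y else 0 := by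
  rw [co1_apply, map_mul, fse_rename_succ, map_pow, finSuccEquiv_X_zero, Polynomial.coeff_mul_C,
    Polynomial.coeff_X_pow]
  by_cases h : n = 1
  · rw [if_pos h.symm, if_pos h, one_mul]
  · rw [if_neg (fun h' => h h'.symm), if_neg h, zero_mul]

theorem co1_msym (m : ℕ) (J : Multiset ℕ) :
    co1 m (msym (m + 1) (0 ::ₘ J)) = msym m J := by
  rw [msym, map_sum]
  have h1 : ∀ i ∈ (Fintype.piFinset (fun _ : Fin (m + 1) => (0 ::ₘ J).toFinset)).filter
      (fun i => Multiset.ofList (List.ofFn i) = 0 ::ₘ J),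
      co1 m (∏ j, (X j : Pl (m + 1)) ^ (2 ^ (i j))) =
        if 2 ^ (i 0) = 1 then ∏ j, (X j : Pl m) ^ (2 ^ (i (Fin.succ j))) else 0 := by
    intro i _
    rw [prod_succ, co1_pow_rename]
  refine (Finset.sum_congr rfl h1).trans ?_
  rw [← Finset.sum_filter, msym]
  have h0 : ∀ n : ℕ, 2 ^ n = 1 → n = 0 := fun n hn => by
    rcases Nat.eq_zero_or_pos n with h | h
    · exact h
    · have := Nat.one_lt_two_pow (n := n) (by omega)
      omega
  refine Finset.sum_nbij' (fun i => Fin.tail i) (fun i => (Fin.cons 0 i : Fin (m + 1) → ℕ))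
    ?_ ?_ ?_ ?_ ?_
  · intro i hi
    rw [Finset.mem_filter, mem_idx] at hi
    obtain ⟨hi, hi0⟩ := hi
    have hi0 := h0 _ hi0
    rw [mem_idx]
    rw [List.ofFn_succ, ← Multiset.cons_coe, hi0, Multiset.cons_inj_right] at hi
    exact hi
  · intro i hi
    rw [mem_idx] at hi
    rw [Finset.mem_filter, mem_idx]
    refine ⟨?_, ?_⟩
    · rw [List.ofFn_succ, ← Multiset.cons_coe, Fin.cons_zero, Multiset.cons_inj_right]
      simpa using hi
    · simp
  · intro i hi
    rw [Finset.mem_filter, mem_idx] at hi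
    have hi0 := h0 _ hi.2
    have h := Fin.cons_self_tail i
    rw [hi0] at h
    exact h
  · intro i _
    exact Fin.tail_cons _ _
  · intro i _
    rfl

theorem lin_msym (m : ℕ) (J : Multiset ℕ) : lin (Lzero m) (msym (m + 1) J) = 0 := by
  rw [msym, map_sum]
  refine Finset.sum_eq_zero fun i _ => ?_
  rw [map_prod, Fin.prod_univ_succ, map_pow, lin_Lzero_zero, zero_pow (pow_ne_zero _ two_ne_zero),
    zero_mul]

end Pool.Agent.SHL.Msc

namespace Pool.Agent.SHL

theorem MSC : MSC_Stmt := fun m J _ => ⟨Msc.co1_msym m J, Msc.lin_msym m⟩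

end Pool.Agent.SHL


end

section

/-!
LINK: value of the slant product on the classes `μ (0 ::ₘ J)`.
-/

namespace Pool.Agent.SHL

open Pool.Agent.SHS

namespace Val

/-- `id × φ`. -/
def idx (t : ℕ) {Y Y' : SS} (φ : SS.Hom Y Y') : SS.Hom ((Sph t).prod Y) ((Sph t).prod Y') :=
  SS.Hom.pair (SS.fst (Sph t) Y) (φ.comp (SS.snd (Sph t) Y))

theorem mulE_map (t : ℕ) {Y Y' : SS} (φ : SS.Hom Y Y') (b : H Y') :
    mulE t Y (H.map φ b) = H.map (idx t φ) (mulE t Y' b) := by
  rw [mulE_apply, mulE_apply, map_mul, ← H.map_comp, ← H.map_comp, ← H.map_comp]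
  rfl

theorem wgt_pos (J : Multiset ℕ) : 1 ≤ wgt (0 ::ₘ J) := by
  unfold wgt
  rw [Multiset.map_cons, Multiset.sum_cons]
  omega

theorem core (hE2 : E2_Stmt) (hM : MSC_Stmt) (m : ℕ) (J : Multiset ℕ)
    (hJ : Multiset.card J = m) (T : NOp)
    (hT : T.f (BB.pow (m + 1)) (evB (m + 1) (∏ j, MvPolynomial.X j)) =
      evB (m + 1) (msym (m + 1) (0 ::ₘ J))) :
    T.f ((Sph 1).prod (BB.pow m)) (mulE 1 (BB.pow m) (evB m (SHU.Un m))) =
      mulE 1 (BB.pow m) (evB m (msym m J)) := by
  have h1 := hE2 m (SHU.Un (m + 1))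
  rw [SHU.lin_Lzero_Un, map_zero, map_zero, add_zero, SHU.Un_succ, SHU.co1_X_rename,
    ← SHU.Un_succ] at h1
  rw [← h1]
  have h2 := T.nat (qB m) (evB (m + 1) (SHU.Un (m + 1)))
  refine h2.trans ?_
  have h3 : T.f (BB.pow (m + 1)) (evB (m + 1) (SHU.Un (m + 1))) =
      evB (m + 1) (msym (m + 1) (0 ::ₘ J)) := hT
  rw [h3, hE2 m, (hM m J hJ).2, (hM m J hJ).1, map_zero, map_zero, add_zero]

theorem claim (hE2 : E2_Stmt) (hM : MSC_Stmt) (m : ℕ) (J : Multiset ℕ)
    (hJ : Multiset.card J = m) (T : NOp)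
    (hT : T.f (BB.pow (m + 1)) (evB (m + 1) (∏ j, MvPolynomial.X j)) =
      evB (m + 1) (msym (m + 1) (0 ::ₘ J)))
    (f : ∀ d, SHU.Pl d →ₗ[ZMod 2] SHU.Pl d) (hf : SHU.IsNP m (wgt J) f)
    (hfJ : f m (SHU.Un m) = msym m J) (d : ℕ) (y : MvPolynomial (Fin d) k)
    (hy : y.IsHomogeneous m) :
    T.f ((Sph 1).prod (BB.pow d)) (mulE 1 (BB.pow d) (evB d y)) =
      mulE 1 (BB.pow d) (evB d (f d y)) := by
  have h0 : ∀ π : Fin m → Fin d,
      T.f ((Sph 1).prod (BB.pow d)) (mulE 1 (BB.pow d) (evB d (MvPolynomial.rename π (SHU.Un m)))) =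
      mulE 1 (BB.pow d) (evB d (f d (MvPolynomial.rename π (SHU.Un m)))) := by
    intro π
    rw [hf.ren, hfJ, ← evB_reidx, ← evB_reidx, mulE_map, mulE_map, T.nat,
      core hE2 hM m J hJ T hT]
  rw [y.as_sum]
  simp only [map_sum]
  refine Finset.sum_congr rfl fun e he => ?_
  have he' : e.degree = m := by
    have := hy (MvPolynomial.mem_support_iff.mp he)
    rw [Finsupp.degree_eq_weight_one]
    exact this
  obtain ⟨π, hπ⟩ := SHU.exists_pi m e he'
  have hmon : (MvPolynomial.monomial e (MvPolynomial.coeff e y) : MvPolynomial (Fin d) k) =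
      (MvPolynomial.coeff e y) • MvPolynomial.rename π (SHU.Un m) := by
    rw [SHU.rename_Un, hπ, MvPolynomial.smul_monomial, smul_eq_mul, mul_one]
  rw [hmon]
  simp only [map_smul]
  rw [h0]

end Val

theorem VAL (h1 : PH1_Stmt) (hR : RCH_Stmt) (hC : LCM_Stmt) (hs : SKT_Stmt) (hE2 : E2_Stmt)
    (hM : MSC_Stmt) (hB : BBF_Stmt) : VAL_Stmt := by
  intro m μ hμ J hJ f hf hfJ d z y hy hz
  have hcard : Multiset.card (0 ::ₘ J) = m + 1 := by rw [Multiset.card_cons, hJ]
  obtain ⟨T, -, hT2, hT3⟩ := hμ.op (0 ::ₘ J) hcard (Multiset.mem_cons_self 0 J)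
  have hLF : (BB.pow d).LF := (hB d).1
  have hinj := (hs 1 le_rfl (BB.pow d) hLF).1
  have hP := (h1 1 le_rfl (BB.pow d) hLF (EM (m + 1)) z).1
  have hi : iota (m + 1) ∈ RC (EM (m + 1)) := (hR (EM (m + 1))).2.1 _ (hC.2 (m + 1))
  have hmu : μ (0 ::ₘ J) ∈ RC (EM (m + 1)) :=
    (hR (EM (m + 1))).1 _ (Val.wgt_pos J) (hμ.mem _ hcard)
  apply hinj
  rw [hP _ hmu, hT3, ← T.nat, ← hP _ hi, hz]
  exact Val.claim hE2 hM m J hJ T hT2 f hf hfJ d y hy

end Pool.Agent.SHL


end
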