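import Mathlib
import Pool.Agent.SHM.C01

/-! Parts: SH.Q.PHI -/

section

/-!
# Block III-Q (MP_2d0b73_an): the graded algebra of the powers of the augmentation ideal (PHI)
-/

open CategoryTheory CategoryTheory.Limits AlgebraicTopology Opposite Simplicial

namespace Pool.Agent.SHQ

namespace PHI

open MvPolynomial

variable {k : Type} [Field k]

section poly

variable {σ : Type}

variable (k σ) in
/-- The polynomials all whose monomials have degree at least `p`. -/
def D (p : ℕ) : Submodule k (MvPolynomial σ k) where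
  carrier := {f | ∀ m, coeff m f ≠ 0 → p ≤ m.degree}
  zero_mem' := by
    intro m h
    rw [coeff_zero] at h
    exact absurd rfl h
  add_mem' := by
    intro f g hf hg m h
    rw [coeff_add] at h
    by_cases h1 : coeff m f = 0
    · exact hg m (by rwa [h1, zero_add] at h)
    · exact hf m h1
  smul_mem' := by
    intro c f hf m h
    rw [coeff_smul] at h
    exact hf m (fun h0 => h (by rw [h0, smul_zero]))

theorem mem_D {p : ℕ} {f : MvPolynomial σ k} :
    f ∈ D k σ p ↔ ∀ m, coeff m f ≠ 0 → p ≤ m.degree := Iff.rfl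

theorem D_mul (a b : ℕ) : D k σ a * D k σ b ≤ D k σ (a + b) := by
  classical
  rw [Submodule.mul_le]
  intro f hf g hg m h
  rw [coeff_mul] at h
  obtain ⟨x, hx, hx'⟩ := Finset.exists_ne_zero_of_sum_ne_zero h
  rw [Finset.HasAntidiagonal.mem_antidiagonal] at hx
  rw [← hx, map_add]
  exact add_le_add (hf _ (left_ne_zero_of_mul hx')) (hg _ (right_ne_zero_of_mul hx'))

theorem D_pow (p : ℕ) : D k σ 1 ^ p ≤ D k σ p := by
  induction p with
  | zero =>
    intro f _ m _
    exact Nat.zero_le _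
  | succ p ih =>
    rw [pow_succ]
    exact (mul_le_mul' ih le_rfl).trans (D_mul p 1)

theorem degree_le_weight {w : σ → ℕ} (hw : ∀ s, 0 < w s) (m : σ →₀ ℕ) :
    m.degree ≤ Finsupp.weight w m := by
  rw [Finsupp.degree_apply, Finsupp.weight_apply, Finsupp.sum]
  refine Finset.sum_le_sum fun s _ => ?_
  rw [smul_eq_mul]
  exact Nat.le_mul_of_pos_right _ (hw s)

/-- Split off a variable. -/
theorem split {m : σ →₀ ℕ} (h : 1 ≤ m.degree) :
    ∃ (s : σ) (m' : σ →₀ ℕ), m = Finsupp.single s 1 + m' ∧ m.degree = m'.degree + 1 := by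
  have h0 : m ≠ 0 := by
    rintro rfl
    simp at h
  obtain ⟨s, hs⟩ : ∃ s, m s ≠ 0 := by
    by_contra h1
    push Not at h1
    exact h0 (Finsupp.ext h1)
  have h1 : Finsupp.single s 1 + (m - Finsupp.single s 1) = m := by
    rw [add_comm]
    exact Finsupp.sub_add_single_one_cancel hs
  refine ⟨s, m - Finsupp.single s 1, h1.symm, ?_⟩
  conv_lhs => rw [← h1]
  rw [map_add, Finsupp.degree_single, add_comm]

/-- Exponents of degree at least `p` are sums of `p` nonzero exponents. -/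
theorem decomp (p : ℕ) : ∀ m : σ →₀ ℕ, p + 1 ≤ m.degree →
    ∃ f : Fin (p + 1) → (σ →₀ ℕ), (∀ r, 1 ≤ (f r).degree) ∧ ∑ r, f r = m := by
  induction p with
  | zero =>
    intro m hm
    exact ⟨fun _ => m, fun _ => hm, by simp⟩
  | succ p ih =>
    intro m hm
    obtain ⟨s, m', h1, h2⟩ := split (by omega : 1 ≤ m.degree)
    obtain ⟨f, hf, hf'⟩ := ih m' (by omega)
    refine ⟨Fin.cons (Finsupp.single s 1) f, ?_, ?_⟩
    · intro r
      refine Fin.cases ?_ (fun r => ?_) r
      · simp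
      · exact hf r
    · rw [Fin.sum_univ_succ]
      simp only [Fin.cons_zero, Fin.cons_succ]
      rw [hf', h1]

end poly

/-- Generators of a polynomial graded algebra. -/
structure Chart (A : PGA k) where
  σ : Type
  x : σ → A.R
  w : σ → ℕ
  pos : ∀ s, 0 < w s
  bij : Function.Bijective (MvPolynomial.aeval (R := k) x)
  dg_eq : ∀ j, A.dg j = (MvPolynomial.weightedHomogeneousSubmodule k w j).map
      (MvPolynomial.aeval (R := k) x).toLinearMap

theorem exists_chart (A : PGA k) : Nonempty (Chart A) := by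
  obtain ⟨σ, x, w, h1, h2, h3⟩ := A.poly
  exact ⟨⟨σ, x, w, h1, h2, h3⟩⟩

namespace Chart

variable {A : PGA k} (c : Chart A)

/-- The algebra is the polynomial ring. -/
noncomputable def E : MvPolynomial c.σ k ≃ₐ[k] A.R := AlgEquiv.ofBijective _ c.bij

theorem E_X (s : c.σ) : c.E (X s) = c.x s := by
  show MvPolynomial.aeval c.x (X s) = c.x s
  rw [aeval_X]

theorem mem_dg {j : ℕ} {a : A.R} : a ∈ A.dg j ↔ IsWeightedHomogeneous c.w (c.E.symm a) j := by
  rw [c.dg_eq]
  constructor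
  · rintro ⟨f, hf, rfl⟩
    have h : c.E.symm ((aeval c.x).toLinearMap f) = f := c.E.symm_apply_apply f
    rw [h]
    exact hf
  · intro h
    exact ⟨c.E.symm a, h, c.E.apply_symm_apply a⟩

theorem E_mem_dg {j : ℕ} {f : MvPolynomial c.σ k} : c.E f ∈ A.dg j ↔
    IsWeightedHomogeneous c.w f j := by
  rw [c.mem_dg, c.E.symm_apply_apply]

theorem Aug_le : Aug A.dg ≤ (D k c.σ 1).map c.E.toLinearMap := by
  unfold Aug
  refine iSup_le fun i a ha => ⟨c.E.symm a, ?_, c.E.apply_symm_apply a⟩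
  intro m hm
  have h1 := c.mem_dg.1 ha hm
  by_contra h2
  have h3 : m.degree = 0 := by omega
  rw [Finsupp.degree_eq_zero_iff] at h3
  rw [h3, map_zero] at h1
  omega

theorem Aug_pow_le (p : ℕ) : Aug A.dg ^ p ≤ (D k c.σ p).map c.E.toLinearMap := by
  calc Aug A.dg ^ p ≤ ((D k c.σ 1).map c.E.toLinearMap) ^ p := pow_le_pow_left' c.Aug_le p
    _ = ((D k c.σ 1) ^ p).map c.E.toLinearMap := (Submodule.map_pow (D k c.σ 1) c.E.toAlgHom p).symm
    _ ≤ _ := Submodule.map_mono (D_pow p)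

theorem mono_mem (p : ℕ) : ∀ m : c.σ →₀ ℕ, p + 1 ≤ m.degree →
    c.E (monomial m 1) ∈ Aug A.dg ^ (p + 1) := by
  induction p with
  | zero =>
    intro m hm
    have h1 := degree_le_weight c.pos m
    obtain ⟨i, hi⟩ : ∃ i, Finsupp.weight c.w m = i + 1 := ⟨Finsupp.weight c.w m - 1, by omega⟩
    rw [zero_add, pow_one]
    refine Submodule.mem_iSup_of_mem i ?_
    rw [← hi, c.E_mem_dg]
    exact isWeightedHomogeneous_monomial _ _ _ rfl
  | succ p ih =>
    intro m hm
    obtain ⟨s, m', h1, h2⟩ := split (by omega : 1 ≤ m.degree)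
    have h3 : (monomial m 1 : MvPolynomial c.σ k) = X s * monomial m' 1 := by
      rw [h1, X, monomial_mul, one_mul]
    rw [h3, map_mul, pow_succ']
    refine Submodule.mul_mem_mul ?_ (ih m' (by omega))
    have h4 := c.pos s
    obtain ⟨i, hi⟩ : ∃ i, c.w s = i + 1 := ⟨c.w s - 1, by omega⟩
    refine Submodule.mem_iSup_of_mem i ?_
    rw [← hi, c.E_mem_dg]
    exact isWeightedHomogeneous_X k c.w s

theorem E_mem_pow {p : ℕ} {f : MvPolynomial c.σ k} :
    c.E f ∈ Aug A.dg ^ (p + 1) ↔ f ∈ D k c.σ (p + 1) := by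
  constructor
  · intro h
    obtain ⟨g, hg, hg'⟩ := c.Aug_pow_le _ h
    have : g = f := c.E.injective hg'
    rwa [← this]
  · intro h
    rw [f.as_sum, map_sum]
    refine Submodule.sum_mem _ fun m hm => ?_
    have h1 : (monomial m (coeff m f) : MvPolynomial c.σ k) = coeff m f • monomial m 1 := by
      rw [smul_monomial, smul_eq_mul, mul_one]
    rw [h1, map_smul]
    exact Submodule.smul_mem _ _ (c.mono_mem p m (h m (mem_support_iff.1 hm)))

/-- The linear part. -/
noncomputable def lin : A.R →ₗ[k] A.R :=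
  c.E.toLinearMap ∘ₗ (homogeneousComponent 1) ∘ₗ c.E.symm.toLinearMap

theorem lin_apply (a : A.R) : c.lin a = c.E (homogeneousComponent 1 (c.E.symm a)) := rfl

theorem lin_dg {i : ℕ} {a : A.R} (h : a ∈ A.dg i) : c.lin a ∈ A.dg i := by
  classical
  rw [lin_apply, c.E_mem_dg]
  intro m hm
  rw [coeff_homogeneousComponent] at hm
  split_ifs at hm with h1
  · exact c.mem_dg.1 h hm
  · exact absurd rfl hm

theorem lin_Aug (a : A.R) : c.lin a ∈ Aug A.dg := by
  classical
  rw [← pow_one (Aug A.dg), ← zero_add 1, lin_apply, c.E_mem_pow]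
  intro m hm
  rw [coeff_homogeneousComponent] at hm
  split_ifs at hm with h1
  · omega
  · exact absurd rfl hm

theorem sub_lin {a : A.R} (h : a ∈ Aug A.dg) : a - c.lin a ∈ Aug A.dg ^ 2 := by
  classical
  have h1 : a - c.lin a = c.E (c.E.symm a - homogeneousComponent 1 (c.E.symm a)) := by
    rw [map_sub, c.E.apply_symm_apply, lin_apply]
  rw [h1]
  refine (c.E_mem_pow (p := 1)).2 fun m hm => ?_
  rw [coeff_sub, coeff_homogeneousComponent] at hm
  have h2 : c.E.symm a ∈ D k c.σ 1 := by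
    obtain ⟨g, hg, rfl⟩ := c.Aug_le h
    have : c.E.symm (c.E.toLinearMap g) = g := c.E.symm_apply_apply g
    rwa [this]
  split_ifs at hm with h3
  · rw [sub_self] at hm
    exact absurd rfl hm
  · rw [sub_zero] at hm
    have := h2 m hm
    omega

theorem lin_sq {a : A.R} (h : a ∈ Aug A.dg ^ 2) : c.lin a = 0 := by
  classical
  rw [lin_apply]
  have h2 : c.E.symm a ∈ D k c.σ 2 := by
    obtain ⟨g, hg, rfl⟩ := c.Aug_pow_le 2 h
    have : c.E.symm (c.E.toLinearMap g) = g := c.E.symm_apply_apply g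
    rwa [this]
  have h3 : homogeneousComponent 1 (c.E.symm a) = 0 := by
    ext m
    rw [coeff_homogeneousComponent, coeff_zero]
    split_ifs with h4
    · by_contra h5
      have := h2 m h5
      omega
    · rfl
  rw [h3, map_zero]

end Chart

/-! ### products -/

section prod

variable {A : PGA k}

theorem prod_mem {p : ℕ} (u : Fin p → A.R) (h : ∀ r, u r ∈ Aug A.dg) :
    ∏ r, u r ∈ Aug A.dg ^ p := by
  induction p with
  | zero =>
    rw [Fin.prod_univ_zero, pow_zero]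
    exact Submodule.mem_one.2 ⟨1, map_one _⟩
  | succ p ih =>
    rw [Fin.prod_univ_succ, pow_succ']
    exact Submodule.mul_mem_mul (h 0) (ih _ fun r => h _)

theorem prod_sub {p : ℕ} (u a : Fin p → A.R) (hu : ∀ r, u r ∈ Aug A.dg)
    (ha : ∀ r, a r ∈ Aug A.dg) (h : ∀ r, u r - a r ∈ Aug A.dg ^ 2) :
    ∏ r, u r - ∏ r, a r ∈ Aug A.dg ^ (p + 1) := by
  induction p with
  | zero => simp
  | succ p ih =>
    rw [Fin.prod_univ_succ, Fin.prod_univ_succ]
    have e : u 0 * ∏ r : Fin p, u r.succ - a 0 * ∏ r : Fin p, a r.succ =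
      (u 0 - a 0) * ∏ r : Fin p, u r.succ +
        a 0 * (∏ r : Fin p, u r.succ - ∏ r : Fin p, a r.succ) := by ring
    rw [e]
    refine Submodule.add_mem _ ?_ ?_
    · have e2 : Aug A.dg ^ (p + 1 + 1) = Aug A.dg ^ 2 * Aug A.dg ^ p := by
        rw [← pow_add]
        congr 1
        omega
      rw [e2]
      exact Submodule.mul_mem_mul (h 0) (prod_mem _ fun r => hu _)
    · rw [pow_succ' _ (p + 1)]
      exact Submodule.mul_mem_mul (ha 0) (ih _ _ (fun r => hu _) (fun r => ha _) fun r => h _)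

theorem prod_dg (c : Chart A) {p : ℕ} (a : Fin p → A.R) (i : Fin p → ℕ)
    (h : ∀ r, a r ∈ A.dg (i r)) : ∏ r, a r ∈ A.dg (∑ r, i r) := by
  rw [c.mem_dg, map_prod]
  exact IsWeightedHomogeneous.prod _ _ _ (fun r _ => c.mem_dg.1 (h r))

theorem mem_Psub_one {i : ℕ} {a : A.R} : a ∈ Psub A.dg 1 i ↔ a ∈ Aug A.dg ∧ a ∈ A.dg i := by
  unfold Psub
  rw [pow_one]
  exact Iff.rfl

end prod

/-! ### the section -/

namespace Chart

variable {A : PGA k} (c : Chart A)

/-- The section of the projection to the indecomposables by linear forms. -/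
noncomputable def lam (i : ℕ) : (Psub A.dg 1 i ⧸ Gker A 1 i) →ₗ[k] A.R :=
  (Gker A 1 i).liftQ (c.lin ∘ₗ (Psub A.dg 1 i).subtype) (by
    intro a ha
    exact c.lin_sq ha.1)

theorem lam_mk (i : ℕ) (a : Psub A.dg 1 i) : c.lam i ((Gker A 1 i).mkQ a) = c.lin a.1 := rfl

theorem lam_mem (i : ℕ) (v : Psub A.dg 1 i ⧸ Gker A 1 i) : c.lam i v ∈ Psub A.dg 1 i := by
  obtain ⟨a, rfl⟩ := (Gker A 1 i).mkQ_surjective v
  rw [c.lam_mk, mem_Psub_one]
  exact ⟨c.lin_Aug _, c.lin_dg a.2.2⟩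

theorem lam_sub (i : ℕ) (a : Psub A.dg 1 i) :
    c.lam i ((Gker A 1 i).mkQ a) - a.1 ∈ Aug A.dg ^ 2 := by
  rw [c.lam_mk]
  have h := c.sub_lin (mem_Psub_one.1 a.2).1
  rw [← neg_sub]
  exact Submodule.neg_mem _ h

/-- The same for the functor of indecomposables. -/
noncomputable def lamV {j : ℕ} (i : Fin j) : ((Qf j).obj A i) →ₗ[k] A.R := c.lam (i : ℕ)

/-- The algebra map. -/
noncomputable def Psi (j : ℕ) : SymmetricAlgebra k (∀ i, (Qf j).obj A i) →ₐ[k] A.R :=
  SymmetricAlgebra.lift (∑ i : Fin j, (c.lamV i) ∘ₗ LinearMap.proj i)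

theorem Psi_ι (j : ℕ) (v : ∀ i, (Qf j).obj A i) :
    c.Psi j (SymmetricAlgebra.ι k _ v) = ∑ i : Fin j, c.lamV i (v i) := by
  rw [Psi, SymmetricAlgebra.lift_ι_apply, LinearMap.sum_apply]
  rfl

theorem Psi_single (j : ℕ) (i : Fin j) (v : (Qf j).obj A i) :
    c.Psi j (SymmetricAlgebra.ι k _ (Pi.single i v)) = c.lamV i v := by
  rw [c.Psi_ι, Finset.sum_eq_single i]
  · rw [Pi.single_eq_same]
  · intro l _ hl
    rw [Pi.single_eq_of_ne hl, map_zero]
  · intro h
    exact absurd (Finset.mem_univ i) h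

theorem Psi_mem (p j : ℕ) : ∀ a ∈ PhiS p j ((Qf j).obj A), (c.Psi j).toLinearMap a ∈
    Psub A.dg p j := by
  intro a ha
  have h : PhiS p j ((Qf j).obj A) ≤ (Psub A.dg p j).comap (c.Psi j).toLinearMap := by
    refine Submodule.span_le.2 ?_
    rintro _ ⟨i, v, h1, h2, rfl⟩
    show c.Psi j _ ∈ Psub A.dg p j
    rw [map_prod]
    have h3 : ∀ r, c.Psi j (SymmetricAlgebra.ι k _ (Pi.single (i r) (v r))) ∈
        Psub A.dg 1 (i r : ℕ) := by
      intro r
      rw [c.Psi_single]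
      exact c.lam_mem _ _
    refine ⟨prod_mem _ fun r => (mem_Psub_one.1 (h3 r)).1, ?_⟩
    have h4 := prod_dg c _ (fun r => (i r : ℕ)) (fun r => (mem_Psub_one.1 (h3 r)).2)
    rw [h2] at h4
    exact h4
  exact h ha

/-- The map of the symmetric power of the indecomposables. -/
noncomputable def psi (p j : ℕ) : PhiS p j ((Qf j).obj A) →ₗ[k] (Psub A.dg p j ⧸ Gker A p j) :=
  (Gker A p j).mkQ ∘ₗ ((c.Psi j).toLinearMap.restrict (c.Psi_mem p j))

theorem psi_apply (p j : ℕ) (x : PhiS p j ((Qf j).obj A)) :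
    c.psi p j x = (Gker A p j).mkQ ⟨c.Psi j x.1, c.Psi_mem p j x.1 x.2⟩ := rfl

/-- The value on products of generators, for arbitrary representatives. -/
theorem psi_gen {p j : ℕ} (x : PhiS p j ((Qf j).obj A)) (y : Psub A.dg p j) (i : Fin p → Fin j)
    (a : ∀ r, Psub A.dg 1 (i r : ℕ))
    (hx : x.1 = ∏ r, SymmetricAlgebra.ι k (∀ i, (Qf j).obj A i)
      (Pi.single (i r) ((Gker A 1 (i r : ℕ)).mkQ (a r))))
    (hy : y.1 = ∏ r, (a r).1) : c.psi p j x = (Gker A p j).mkQ y := by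
  rw [psi_apply, Submodule.mkQ_apply, Submodule.mkQ_apply, Submodule.Quotient.eq]
  show c.Psi j x.1 - y.1 ∈ Psub A.dg (p + 1) j
  refine ⟨?_, Submodule.sub_mem _ (c.Psi_mem p j x.1 x.2).2 y.2.2⟩
  rw [hx, hy, map_prod]
  have h3 : ∀ r, c.Psi j (SymmetricAlgebra.ι k (∀ i, (Qf j).obj A i)
      (Pi.single (i r) ((Gker A 1 (i r : ℕ)).mkQ (a r)))) =
      c.lam (i r : ℕ) ((Gker A 1 (i r : ℕ)).mkQ (a r)) := by
    intro r
    rw [c.Psi_single]
    rfl
  refine prod_sub _ _ (fun r => ?_) (fun r => (mem_Psub_one.1 (a r).2).1) (fun r => ?_)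
  · rw [h3]
    exact (mem_Psub_one.1 (c.lam_mem _ _)).1
  · rw [h3]
    exact c.lam_sub _ _

theorem x_mem (s : c.σ) : c.x s ∈ Psub A.dg 1 (c.w s) := by
  have h1 : c.x s ∈ A.dg (c.w s) := by
    rw [← c.E_X, c.E_mem_dg]
    exact isWeightedHomogeneous_X k c.w s
  rw [mem_Psub_one]
  refine ⟨?_, h1⟩
  have h4 := c.pos s
  obtain ⟨i, hi⟩ : ∃ i, c.w s = i + 1 := ⟨c.w s - 1, by omega⟩
  rw [hi] at h1
  exact Submodule.mem_iSup_of_mem i h1

theorem lam_cls (i : ℕ) (a : Psub A.dg 1 i) (h : c.lin a.1 ∈ Psub A.dg 1 i) :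
    (Gker A 1 i).mkQ ⟨c.lin a.1, h⟩ = (Gker A 1 i).mkQ a := by
  rw [Submodule.mkQ_apply, Submodule.mkQ_apply, Submodule.Quotient.eq]
  exact ⟨c.lam_sub i a, Submodule.sub_mem _ h.2 a.2.2⟩

theorem Psi_inj (j : ℕ) : Function.Injective (c.Psi j) := by
  classical
  let q : c.σ → SymmetricAlgebra k (∀ i, (Qf j).obj A i) := fun s =>
    if h : c.w s < j then SymmetricAlgebra.ι k (∀ i, (Qf j).obj A i)
      (Pi.single (⟨c.w s, h⟩ : Fin j) ((Gker A 1 (c.w s)).mkQ ⟨c.x s, c.x_mem s⟩)) else 0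
  let θ : A.R →ₐ[k] SymmetricAlgebra k (∀ i, (Qf j).obj A i) :=
    (aeval q).comp c.E.symm.toAlgHom
  have hθ : ∀ (i : Fin j) (v : (Qf j).obj A i), θ (c.lamV i v) =
      SymmetricAlgebra.ι k (∀ i, (Qf j).obj A i) (Pi.single i v) := by
    intro i v
    obtain ⟨a, rfl⟩ := (Gker A 1 (i : ℕ)).mkQ_surjective v
    let Λ : Psub A.dg 1 (i : ℕ) →ₗ[k] SymmetricAlgebra k (∀ i, (Qf j).obj A i) :=
      SymmetricAlgebra.ι k (∀ i, (Qf j).obj A i) ∘ₗ
        (LinearMap.single k (fun i => ((Qf j).obj A i : Type)) i) ∘ₗ (Gker A 1 (i : ℕ)).mkQ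
    obtain ⟨Λ', hΛ'⟩ := LinearMap.exists_extend Λ
    have hΛ : ∀ b : Psub A.dg 1 (i : ℕ), Λ' b.1 =
        SymmetricAlgebra.ι k (∀ i, (Qf j).obj A i)
          (Pi.single i ((Gker A 1 (i : ℕ)).mkQ b)) := by
      intro b
      have h1 : (Λ' ∘ₗ (Psub A.dg 1 (i : ℕ)).subtype) b = Λ b := by rw [hΛ']
      exact h1
    have hclaim : ∀ g : MvPolynomial c.σ k,
        (∀ m, coeff m g ≠ 0 → m.degree = 1 ∧ Finsupp.weight c.w m = (i : ℕ)) →
        aeval q g = Λ' (c.E g) := by
      intro g hg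
      rw [g.as_sum, map_sum, map_sum, map_sum]
      refine Finset.sum_congr rfl fun m hm => ?_
      obtain ⟨h1, h2⟩ := hg m (mem_support_iff.1 hm)
      obtain ⟨s, m', h3, h4⟩ := split h1.ge
      have h5 : m' = 0 := by
        rw [← Finsupp.degree_eq_zero_iff]
        omega
      rw [h5, add_zero] at h3
      subst h3
      have h6 : (monomial (Finsupp.single s 1) (coeff (Finsupp.single s 1) g) :
          MvPolynomial c.σ k) = coeff (Finsupp.single s 1) g • X s := by
        rw [X, smul_monomial, smul_eq_mul, mul_one]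
      rw [h6, map_smul, map_smul, map_smul]
      congr 1
      rw [aeval_X, c.E_X]
      have h7 : c.w s = (i : ℕ) := by
        rw [← h2, Finsupp.weight_single, one_smul]
      obtain ⟨i, hi⟩ := i
      have h8 : c.w s = i := h7
      subst h8
      have h9 : q s = SymmetricAlgebra.ι k (∀ i, (Qf j).obj A i)
        (Pi.single (⟨c.w s, hi⟩ : Fin j) ((Gker A 1 (c.w s)).mkQ ⟨c.x s, c.x_mem s⟩)) :=
        dif_pos hi
      rw [h9]
      exact (hΛ ⟨c.x s, c.x_mem s⟩).symm
    have h1 : θ (c.lamV i ((Gker A 1 (i : ℕ)).mkQ a)) =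
        aeval q (homogeneousComponent 1 (c.E.symm a.1)) := by
      show aeval q (c.E.symm (c.E _)) = _
      rw [c.E.symm_apply_apply]
      rfl
    rw [h1, hclaim]
    · have h2 : c.lin a.1 ∈ Psub A.dg 1 (i : ℕ) := c.lam_mem (i : ℕ) ((Gker A 1 (i : ℕ)).mkQ a)
      have h3 := hΛ ⟨c.lin a.1, h2⟩
      rw [c.lam_cls (i : ℕ) a h2] at h3
      exact h3
    · intro m hm
      rw [coeff_homogeneousComponent] at hm
      split_ifs at hm with h2
      · exact ⟨h2, c.mem_dg.1 a.2.2 hm⟩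
      · exact absurd rfl hm
  have hid : θ.comp (c.Psi j) = AlgHom.id k _ := by
    apply SymmetricAlgebra.algHom_ext
    apply LinearMap.ext
    intro v
    show θ (c.Psi j (SymmetricAlgebra.ι k _ v)) = SymmetricAlgebra.ι k _ v
    rw [c.Psi_ι, map_sum]
    simp only [hθ]
    rw [← map_sum, Finset.univ_sum_single]
  intro a b h
  have h1 : (θ.comp (c.Psi j)) a = (θ.comp (c.Psi j)) b := by
    show θ (c.Psi j a) = θ (c.Psi j b)
    rw [h]
  rw [hid] at h1
  exact h1

theorem Psi_homog (p j : ℕ) : ∀ a ∈ PhiS p j ((Qf j).obj A),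
    (c.E.symm (c.Psi j a)).IsHomogeneous p := by
  intro a ha
  have h : PhiS p j ((Qf j).obj A) ≤ (homogeneousSubmodule c.σ k p).comap
      (c.E.symm.toLinearMap ∘ₗ (c.Psi j).toLinearMap) := by
    refine Submodule.span_le.2 ?_
    rintro _ ⟨i, v, h1, h2, rfl⟩
    show (c.E.symm (c.Psi j _)).IsHomogeneous p
    rw [map_prod, map_prod]
    have h3 := IsHomogeneous.prod Finset.univ
      (fun r => c.E.symm (c.Psi j (SymmetricAlgebra.ι k (∀ i, (Qf j).obj A i)
        (Pi.single (i r) (v r))))) (fun _ => 1) (fun r _ => by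
        obtain ⟨a, ha⟩ := (Gker A 1 (i r : ℕ)).mkQ_surjective (v r)
        show (c.E.symm (c.Psi j (SymmetricAlgebra.ι k (∀ i, (Qf j).obj A i)
          (Pi.single (i r) (v r))))).IsHomogeneous 1
        rw [c.Psi_single, ← ha]
        show (c.E.symm (c.E _)).IsHomogeneous 1
        rw [c.E.symm_apply_apply]
        exact homogeneousComponent_isHomogeneous _ _)
    simpa using h3
  exact h ha

theorem psi_inj (p j : ℕ) : Function.Injective (c.psi p j) := by
  rw [injective_iff_map_eq_zero]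
  intro x hx
  rw [psi_apply, Submodule.mkQ_apply, Submodule.Quotient.mk_eq_zero] at hx
  have h1 : c.Psi j x.1 ∈ Aug A.dg ^ (p + 1) := hx.1
  have h2 : c.E.symm (c.Psi j x.1) ∈ D k c.σ (p + 1) := by
    rw [← c.E_mem_pow, c.E.apply_symm_apply]
    exact h1
  have h3 := c.Psi_homog p j x.1 x.2
  have h4 : c.E.symm (c.Psi j x.1) = 0 := by
    ext m
    rw [coeff_zero]
    by_contra h5
    have h6 := h2 m h5
    have h7 : m.degree = p := by
      have e1 := h3 h5
      have e2 := congrArg (fun g => g m) (Finsupp.degree_eq_weight_one (R := ℕ) (σ := c.σ))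
      exact e2.trans e1
    omega
  have h5 : c.Psi j x.1 = c.Psi j 0 := by
    rw [map_zero]
    have := congrArg c.E h4
    rwa [c.E.apply_symm_apply, map_zero] at this
  exact Subtype.ext (c.Psi_inj j h5)

theorem psi_surj {p j : ℕ} (hp : 2 ≤ p) : Function.Surjective (c.psi p j) := by
  let R' : Submodule k A.R := ((LinearMap.range (c.psi p j)).comap (Gker A p j).mkQ).map
    (Psub A.dg p j).subtype
  have key : ∀ m : c.σ →₀ ℕ, p ≤ m.degree → Finsupp.weight c.w m = j →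
      c.E (monomial m 1) ∈ R' := by
    intro m hm hj
    obtain ⟨p', rfl⟩ : ∃ p', p = p' + 1 := ⟨p - 1, by omega⟩
    obtain ⟨f, hf, hf'⟩ := decomp p' m hm
    have hpos : ∀ r, 1 ≤ Finsupp.weight c.w (f r) := fun r =>
      (hf r).trans (degree_le_weight c.pos _)
    have hsum : ∑ r, Finsupp.weight c.w (f r) = j := by
      rw [← map_sum, hf', hj]
    have hlt : ∀ r, Finsupp.weight c.w (f r) < j := by
      intro r
      obtain ⟨r', hr'⟩ : ∃ r' : Fin (p' + 1), r' ≠ r := by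
        have : Nontrivial (Fin (p' + 1)) := Fin.nontrivial_iff_two_le.2 hp
        exact exists_ne r
      rw [← hsum]
      exact Finset.single_lt_sum (f := fun r => Finsupp.weight c.w (f r)) hr' (Finset.mem_univ _) (Finset.mem_univ _) (hpos r')
        (fun _ _ _ => Nat.zero_le _)
    have hmem : ∀ r, c.E (monomial (f r) 1) ∈ Psub A.dg 1 (Finsupp.weight c.w (f r)) := by
      intro r
      rw [mem_Psub_one, c.E_mem_dg]
      refine ⟨?_, isWeightedHomogeneous_monomial _ _ _ rfl⟩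
      have := c.mono_mem 0 (f r) (hf r)
      rwa [zero_add, pow_one] at this
    have hy : c.E (monomial m 1) ∈ Psub A.dg (p' + 1) j := by
      refine ⟨c.mono_mem p' m hm, ?_⟩
      show c.E (monomial m 1) ∈ A.dg j
      rw [c.E_mem_dg]
      exact isWeightedHomogeneous_monomial _ _ _ hj
    refine ⟨⟨c.E (monomial m 1), hy⟩, ?_, rfl⟩
    refine ⟨⟨∏ r, SymmetricAlgebra.ι k (∀ i, (Qf j).obj A i)
      (Pi.single (⟨Finsupp.weight c.w (f r), hlt r⟩ : Fin j)
        ((Gker A 1 (Finsupp.weight c.w (f r))).mkQ ⟨c.E (monomial (f r) 1), hmem r⟩)),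
      Submodule.subset_span ⟨fun r => ⟨Finsupp.weight c.w (f r), hlt r⟩, _, hpos, hsum, rfl⟩⟩, ?_⟩
    refine c.psi_gen _ _ (fun r => (⟨Finsupp.weight c.w (f r), hlt r⟩ : Fin j))
      (fun r => ⟨c.E (monomial (f r) 1), hmem r⟩) rfl ?_
    show c.E (monomial m 1) = ∏ r, c.E (monomial (f r) 1)
    rw [← map_prod, ← monomial_sum_one, hf']
  intro y
  obtain ⟨a, rfl⟩ := (Gker A p j).mkQ_surjective y
  have h : a.1 ∈ R' := by
    obtain ⟨p', rfl⟩ : ∃ p', p = p' + 1 := ⟨p - 1, by omega⟩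
    have h1 : c.E.symm a.1 ∈ D k c.σ (p' + 1) := by
      rw [← c.E_mem_pow, c.E.apply_symm_apply]
      exact a.2.1
    have h2 : IsWeightedHomogeneous c.w (c.E.symm a.1) j := c.mem_dg.1 a.2.2
    have h3 : a.1 = c.E (c.E.symm a.1) := (c.E.apply_symm_apply _).symm
    rw [h3, (c.E.symm a.1).as_sum, map_sum]
    refine Submodule.sum_mem _ fun m hm => ?_
    have h4 : (monomial m (coeff m (c.E.symm a.1)) : MvPolynomial c.σ k) =
        coeff m (c.E.symm a.1) • monomial m 1 := by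
      rw [smul_monomial, smul_eq_mul, mul_one]
    rw [h4, map_smul]
    exact Submodule.smul_mem _ _ (key m (h1 m (mem_support_iff.1 hm))
      (h2 (mem_support_iff.1 hm)))
  obtain ⟨b, hb, hb'⟩ := h
  have h5 : b = a := Subtype.ext hb'
  subst h5
  exact hb

end Chart

/-- Naturality. -/
theorem psi_nat {A B : PGA k} (c : Chart A) (c' : Chart B) (f : A ⟶ B) (p j : ℕ)
    (x : PhiS p j ((Qf j).obj A)) :
    c'.psi p j ((SF ((Qf j).map f)).toLinearMap.restrict (SF_PhiS p ((Qf j).map f)) x) =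
      Submodule.mapQ (Gker A p j) (Gker B p j)
        ((PGA.Hom.toAlg f).toLinearMap.restrict (PGA.map_Psub f p j)) (map_Gker f p j)
        (c.psi p j x) := by
  obtain ⟨x, hx⟩ := x
  refine Submodule.span_induction (p := fun x hx =>
    c'.psi p j ((SF ((Qf j).map f)).toLinearMap.restrict (SF_PhiS p ((Qf j).map f)) ⟨x, hx⟩) =
      Submodule.mapQ (Gker A p j) (Gker B p j)
        ((PGA.Hom.toAlg f).toLinearMap.restrict (PGA.map_Psub f p j)) (map_Gker f p j)
        (c.psi p j ⟨x, hx⟩)) ?_ ?_ ?_ ?_ hx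
  · rintro _ ⟨i, v, h1, h2, rfl⟩
    have h3 : ∀ r, ∃ a : Psub A.dg 1 (i r : ℕ), (Gker A 1 (i r : ℕ)).mkQ a = v r := fun r =>
      (Gker A 1 (i r : ℕ)).mkQ_surjective (v r)
    choose a ha using h3
    have h4 : ∏ r, (a r).1 ∈ Psub A.dg p j := by
      refine ⟨prod_mem _ fun r => (mem_Psub_one.1 (a r).2).1, ?_⟩
      have h5 := prod_dg c _ (fun r => (i r : ℕ)) (fun r => (mem_Psub_one.1 (a r).2).2)
      rw [h2] at h5
      exact h5
    have h6 := c.psi_gen (p := p) (j := j) ⟨∏ r, SymmetricAlgebra.ι k (∀ i, (Qf j).obj A i)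
      (Pi.single (i r) (v r)), Submodule.subset_span ⟨i, v, h1, h2, rfl⟩⟩ ⟨_, h4⟩ i a
      (by simp only [ha]) rfl
    rw [h6]
    have h7 : ∀ r, PGA.Hom.toAlg f (a r).1 ∈ Psub B.dg 1 (i r : ℕ) := fun r =>
      PGA.map_Psub f 1 (i r : ℕ) _ (a r).2
    refine (c'.psi_gen (p := p) (j := j) _
      ⟨PGA.Hom.toAlg f (∏ r, (a r).1), PGA.map_Psub f p j _ h4⟩ i
      (fun r => ⟨PGA.Hom.toAlg f (a r).1, h7 r⟩) ?_ ?_).trans rfl
    · show SF ((Qf j).map f) (∏ r, SymmetricAlgebra.ι k (∀ i, (Qf j).obj A i)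
        (Pi.single (i r) (v r))) = _
      rw [map_prod]
      refine Finset.prod_congr rfl fun r _ => ?_
      rw [SF, SymmetricAlgebra.lift_ι_apply]
      show SymmetricAlgebra.ι k _ (LF _ _) = _
      rw [LF_single, ← ha r]
      rfl
    · show PGA.Hom.toAlg f (∏ r, (a r).1) = _
      rw [map_prod]
  · have h1 : (⟨0, Submodule.zero_mem _⟩ : PhiS p j ((Qf j).obj A)) = 0 := rfl
    rw [h1, map_zero, map_zero, map_zero, map_zero]
  · intro x y hx hy h1 h2
    have h3 : (⟨x + y, Submodule.add_mem _ hx hy⟩ : PhiS p j ((Qf j).obj A)) =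
        ⟨x, hx⟩ + ⟨y, hy⟩ := rfl
    rw [h3, map_add, map_add, map_add, map_add, h1, h2]
  · intro b x hx h1
    have h3 : (⟨b • x, Submodule.smul_mem _ b hx⟩ : PhiS p j ((Qf j).obj A)) =
        b • ⟨x, hx⟩ := rfl
    rw [h3, map_smul, map_smul, map_smul, map_smul, h1]

end PHI

/-- (PHI) the associated graded algebra is the symmetric algebra of the indecomposables. -/
theorem phi (k : Type) [Field k] : PSB_Stmt k → PHI_Stmt k := by
  intro _ p j hp
  let ch : ∀ A : PGA k, PHI.Chart A := fun A => (PHI.exists_chart A).some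
  refine ⟨(NatIso.ofComponents (F := Qf j ⋙ Phi p j) (G := Gf p j) (fun A =>
    (LinearEquiv.ofBijective ((ch A).psi p j)
      ⟨(ch A).psi_inj p j, (ch A).psi_surj hp⟩).toModuleIso) ?_).symm⟩
  intro A B f
  ext x
  exact PHI.psi_nat (ch A) (ch B) f p j x

end Pool.Agent.SHQ


end
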