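import Mathlib
import Pool.Agent.SHM.C01

/-! Parts: SH.F2Moore -/

section

/-!
# MP_2d0b73_an, block TE: acyclicity in Moore form
-/

open CategoryTheory MonoidalCategory Simplicial SSet HomotopicalAlgebra Opposite Limits
open SSet.modelCategoryQuillen

namespace Pool.Agent.SH

namespace F2Moore

/-- The simplicial vector space of chains. -/
noncomputable abbrev Z (X : SSet.{0}) : SimplicialObject (ModuleCat.{0} (ZMod 2)) :=
  ((SimplicialObject.whiskering _ _).obj (sigmaConst.obj F2)).obj X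

lemma Z_obj (X : SSet.{0}) (n : ℕ) : (X.chainComplex F2).X n = (Z X) _⦋n⦌ := rfl

/-- From finitely supported functions to chains. -/
noncomputable def toCh (X : SSet.{0}) (n : ℕ) :
    (X _⦋n⦌ →₀ ZMod 2) →ₗ[ZMod 2] ((X.chainComplex F2).X n) :=
  Finsupp.lsum (ZMod 2) (fun x => (X.ιChainComplex (R := F2) x).hom)

/-- From chains to finitely supported functions. -/
noncomputable def ofCh (X : SSet.{0}) (n : ℕ) :
    (X.chainComplex F2).X n ⟶ ModuleCat.of (ZMod 2) (X _⦋n⦌ →₀ ZMod 2) :=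
  Cofan.IsColimit.desc (X.isColimitChainComplexXCofan F2 n)
    (fun x => ModuleCat.ofHom (Finsupp.lsingle (R := ZMod 2) x))

lemma ι_ofCh (X : SSet.{0}) (n : ℕ) (x : X _⦋n⦌) :
    X.ιChainComplex (R := F2) x ≫ ofCh X n = ModuleCat.ofHom (Finsupp.lsingle (R := ZMod 2) x) :=
  Cofan.IsColimit.fac (X.isColimitChainComplexXCofan F2 n) _ x

lemma toCh_ofCh (X : SSet.{0}) (n : ℕ) (z : (X.chainComplex F2).X n) :
    toCh X n ((ofCh X n).hom z) = z := by
  have h : ofCh X n ≫ ModuleCat.ofHom (toCh X n) = 𝟙 _ := by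
    apply chainComplex_hom_ext
    intro x
    rw [← Category.assoc, ι_ofCh, Category.comp_id]
    ext
    simp [toCh]
  exact congrArg (fun f => f.hom z) h

lemma ι_δ (X : SSet.{0}) (n : ℕ) (i : Fin (n + 2)) (x : X _⦋n + 1⦌) :
    X.ιChainComplex (R := F2) x ≫ (Z X).δ i = X.ιChainComplex (R := F2) (X.δ i x) :=
  (Sigma.ι_comp_map' _ _ _).trans (Category.id_comp _)

lemma toCh_mapDomain (X : SSet.{0}) (n : ℕ) (i : Fin (n + 2)) (z : X _⦋n + 1⦌ →₀ ZMod 2) :
    toCh X n (z.mapDomain (X.δ i)) = ((Z X).δ i).hom (toCh X (n + 1) z) := by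
  have h : (toCh X n) ∘ₗ (Finsupp.lmapDomain (ZMod 2) (ZMod 2) (X.δ i)) =
      ((Z X).δ i).hom ∘ₗ (toCh X (n + 1)) := by
    ext x
    have h2 := congrArg (fun f => f.hom (1 : ZMod 2)) (ι_δ X n i x)
    have h3 : toCh X (n + 1) (Finsupp.single x 1) = (X.ιChainComplex (R := F2) x).hom 1 := by
      simp [toCh]
    have h4 : toCh X n (Finsupp.single (X.δ i x) 1) =
        (X.ιChainComplex (R := F2) (X.δ i x)).hom 1 := by
      simp [toCh]
    change toCh X n (Finsupp.mapDomain (X.δ i) (Finsupp.single x 1)) =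
      ((Z X).δ i).hom (toCh X (n + 1) (Finsupp.single x 1))
    rw [Finsupp.mapDomain_single, h3, h4]
    exact h2.symm
  exact congrArg (fun f => f z) h

lemma ofCh_δ (X : SSet.{0}) (n : ℕ) (i : Fin (n + 2)) (z : (X.chainComplex F2).X (n + 1)) :
    ((ofCh X (n + 1)).hom z).mapDomain (X.δ i) = (ofCh X n).hom (((Z X).δ i).hom z) := by
  have h : ofCh X (n + 1) ≫ ModuleCat.ofHom (Finsupp.lmapDomain (ZMod 2) (ZMod 2) (X.δ i)) =
      (Z X).δ i ≫ ofCh X n := by
    apply chainComplex_hom_ext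
    intro x
    rw [← Category.assoc, ι_ofCh]
    refine Eq.trans ?_ (Category.assoc _ _ _)
    rw [ι_δ, ι_ofCh]
    ext
    simp
  exact congrArg (fun f => f.hom z) h

lemma d_apply (X : SSet.{0}) (n : ℕ) (z : (X.chainComplex F2).X (n + 1)) :
    ((X.chainComplex F2).d (n + 1) n).hom z =
      ∑ i : Fin (n + 2), (-1 : ℤ) ^ (i : ℕ) • ((Z X).δ i).hom z := by
  have h : (X.chainComplex F2).d (n + 1) n =
      ∑ i : Fin (n + 2), (-1 : ℤ) ^ (i : ℕ) • (Z X).δ i :=
    AlgebraicTopology.AlternatingFaceMapComplex.obj_d_eq (Z X) n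
  have h2 := congrArg (fun f => f.hom z) h
  refine h2.trans ?_
  rw [ModuleCat.hom_sum, LinearMap.sum_apply]
  refine Finset.sum_congr rfl fun i _ => ?_
  rw [ModuleCat.hom_zsmul, LinearMap.smul_apply]

/-- Moore acyclicity implies that every cycle of positive degree is a boundary. -/
lemma exact_succ (X : SSet.{0})
    (H : ∀ (n : ℕ) (z : X _⦋n + 1⦌ →₀ ZMod 2), (∀ i : Fin (n + 2), z.mapDomain (X.δ i) = 0) →
      ∃ w : X _⦋n + 2⦌ →₀ ZMod 2, w.mapDomain (X.δ 0) = z ∧
        ∀ i : Fin (n + 3), i ≠ 0 → w.mapDomain (X.δ i) = 0)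
    (n : ℕ) (z : (X.chainComplex F2).X (n + 1))
    (hz : ((X.chainComplex F2).d (n + 1) n).hom z = 0) :
    ∃ w : (X.chainComplex F2).X (n + 2), ((X.chainComplex F2).d (n + 2) (n + 1)).hom w = z := by
  let K := X.chainComplex F2
  let P : K ⟶ K := AlgebraicTopology.DoldKan.PInfty (X := Z X)
  let h : Homotopy P (𝟙 K) := AlgebraicTopology.DoldKan.homotopyPInftyToId (Z X)
  -- the cycle `P z`
  let p : K.X (n + 1) := (P.f (n + 1)).hom z
  have hp1 : (K.d (n + 1) n).hom p = 0 := by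
    have h1 : P.f (n + 1) ≫ K.d (n + 1) n = K.d (n + 1) n ≫ P.f n := P.comm (n + 1) n
    have h2 := congrArg (fun f => f.hom z) h1
    refine h2.trans ?_
    change (P.f n).hom ((K.d (n + 1) n).hom z) = 0
    rw [hz, map_zero]
  have hp2 : ∀ i : Fin (n + 1), ((Z X).δ i.succ).hom p = 0 := by
    intro i
    have h1 : P.f (n + 1) ≫ (Z X).δ i.succ = 0 :=
      AlgebraicTopology.DoldKan.HigherFacesVanish.of_P (X := Z X) (n + 1) n i (by lia)
    exact congrArg (fun f => f.hom z) h1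
  have hp3 : ((Z X).δ (0 : Fin (n + 2))).hom p = 0 := by
    have h1 := d_apply X n p
    rw [Fin.sum_univ_succ] at h1
    have h2 : ((X.chainComplex F2).d (n + 1) n).hom p = 0 := hp1
    rw [h2, Finset.sum_eq_zero] at h1
    · simpa using h1.symm
    · intro i _
      rw [hp2, smul_zero]
  have hp : ∀ i : Fin (n + 2), ((Z X).δ i).hom p = 0 := by
    intro i
    obtain rfl | ⟨j, rfl⟩ := Fin.eq_zero_or_eq_succ i
    · exact hp3
    · exact hp2 j
  obtain ⟨w, hw0, hw1⟩ := H n ((ofCh X (n + 1)).hom p) (fun i => by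
    rw [ofCh_δ, hp, map_zero])
  have hw : (K.d (n + 2) (n + 1)).hom (toCh X (n + 2) w) = p := by
    refine (d_apply X (n + 1) _).trans ?_
    rw [Fin.sum_univ_succ, Finset.sum_eq_zero]
    · rw [← toCh_mapDomain, hw0, toCh_ofCh]
      simp
    · intro i _
      rw [← toCh_mapDomain, hw1 _ (Fin.succ_ne_zero i), map_zero, smul_zero]
  -- `P z` is homologous to `z`
  have hh := h.comm (n + 1)
  rw [Homotopy.dNext_succ_chainComplex, Homotopy.prevD_chainComplex] at hh
  have hh2 := congrArg (fun f => f.hom z) hh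
  have hh3 : p = (h.hom n (n + 1)).hom ((K.d (n + 1) n).hom z) +
      (K.d (n + 2) (n + 1)).hom ((h.hom (n + 1) (n + 2)).hom z) + z := hh2
  refine ⟨toCh X (n + 2) w - (h.hom (n + 1) (n + 2)).hom z, ?_⟩
  have hz' : (K.d (n + 1) n).hom z = 0 := hz
  rw [hz', map_zero, zero_add] at hh3
  have hw' : ((X.chainComplex F2).d (n + 2) (n + 1)).hom (toCh X (n + 2) w) = p := hw
  rw [map_sub, hw', hh3]
  exact add_sub_cancel_left _ _

lemma exactAt_succ (X : SSet.{0})
    (H : ∀ (n : ℕ) (z : X _⦋n + 1⦌ →₀ ZMod 2), (∀ i : Fin (n + 2), z.mapDomain (X.δ i) = 0) →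
      ∃ w : X _⦋n + 2⦌ →₀ ZMod 2, w.mapDomain (X.δ 0) = z ∧
        ∀ i : Fin (n + 3), i ≠ 0 → w.mapDomain (X.δ i) = 0)
    (n : ℕ) : (X.chainComplex F2).ExactAt (n + 1) := by
  rw [HomologicalComplex.exactAt_iff' _ (n + 2) (n + 1) n (by simp) (by simp),
    ShortComplex.moduleCat_exact_iff]
  intro z hz
  exact exact_succ X H n z hz

/-- The augmentation. -/
noncomputable def aug (X : SSet.{0}) : (X.chainComplex F2).X 0 ⟶ F2 :=
  Cofan.IsColimit.desc (X.isColimitChainComplexXCofan F2 0) (fun _ => 𝟙 F2)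

lemma ι_aug (X : SSet.{0}) (x : X _⦋0⦌) : X.ιChainComplex (R := F2) x ≫ aug X = 𝟙 F2 :=
  Cofan.IsColimit.fac (X.isColimitChainComplexXCofan F2 0) _ x

lemma d_aug (X : SSet.{0}) : (X.chainComplex F2).d 1 0 ≫ aug X = 0 := by
  apply chainComplex_hom_ext
  intro x
  rw [← Category.assoc, ιChainComplex_d, Preadditive.sum_comp, Fin.sum_univ_two]
  simp [ι_aug]

lemma map_aug {X Y : SSet.{0}} (f : X ⟶ Y) :
    (chainComplexMap f F2).f 0 ≫ aug Y = aug X := by
  apply chainComplex_hom_ext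
  intro x
  rw [← Category.assoc, ι_chainComplexMap_f, ι_aug, ι_aug]

lemma toCh_aug (X : SSet.{0}) (z : X _⦋0⦌ →₀ ZMod 2) :
    (aug X).hom (toCh X 0 z) = z.sum (fun _ a => a) := by
  have h : (aug X).hom ∘ₗ (toCh X 0) = Finsupp.lsum (ZMod 2) (fun _ => LinearMap.id) := by
    ext x
    have h3 : toCh X 0 (Finsupp.single x 1) = (X.ιChainComplex (R := F2) x).hom 1 := by
      simp [toCh]
    change (aug X).hom (toCh X 0 (Finsupp.single x 1)) = _
    rw [h3]
    have h2 := congrArg (fun f => f.hom (1 : ZMod 2)) (ι_aug X x)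
    refine h2.trans ?_
    simp
  refine (congrArg (fun f => f z) h).trans ?_
  simp only [Finsupp.coe_lsum]
  rfl

/-- The map on homology of degree `0` is injective. -/
lemma mono_zero (X : SSet.{0})
    (H : ∀ z : X _⦋0⦌ →₀ ZMod 2, z.sum (fun _ a => a) = 0 →
      ∃ w : X _⦋1⦌ →₀ ZMod 2, w.mapDomain (X.δ 0) = z ∧ w.mapDomain (X.δ 1) = 0)
    (Y : SSet.{0}) (f : X ⟶ Y) : Mono (SSet.homologyMap f F2 0) := by
  rw [ModuleCat.mono_iff_injective]
  refine (injective_iff_map_eq_zero (SSet.homologyMap f F2 0).hom).2 ?_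
  intro x hx
  let K := X.chainComplex F2
  let L := Y.chainComplex F2
  let φ : K ⟶ L := chainComplexMap f F2
  have hprev : (ComplexShape.down ℕ).prev 0 = 1 := by simp
  -- lift to a chain
  have hs : Function.Surjective (K.pOpcycles 0).hom :=
    (ModuleCat.epi_iff_surjective _).1 inferInstance
  obtain ⟨k, hk⟩ := hs ((K.homologyι 0).hom x)
  -- the augmentation of `k` is zero
  have h1 : K.pOpcycles 0 ≫ K.descOpcycles (aug X) 1 hprev (d_aug X) = aug X :=
    K.p_descOpcycles _ _ _ _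
  have h2 : K.homologyι 0 ≫ K.descOpcycles (aug X) 1 hprev (d_aug X) =
      HomologicalComplex.homologyMap φ 0 ≫ L.homologyι 0 ≫
        L.descOpcycles (aug Y) 1 hprev (d_aug Y) := by
    rw [← Category.assoc, HomologicalComplex.homologyι_naturality, Category.assoc,
      HomologicalComplex.opcyclesMap_comp_descOpcycles]
    congr 2
    exact (map_aug f).symm
  have h3 : (aug X).hom k = 0 := by
    have h4 := congrArg (fun g => g.hom k) h1
    have h5 := congrArg (fun g => g.hom x) h2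
    have h6 : (K.descOpcycles (aug X) 1 hprev (d_aug X)).hom ((K.pOpcycles 0).hom k) =
      (aug X).hom k := h4
    have h7 : (K.descOpcycles (aug X) 1 hprev (d_aug X)).hom ((K.homologyι 0).hom x) =
      (L.homologyι 0 ≫ L.descOpcycles (aug Y) 1 hprev (d_aug Y)).hom
        ((HomologicalComplex.homologyMap φ 0).hom x) := h5
    have h8 : (HomologicalComplex.homologyMap φ 0).hom x = 0 := hx
    rw [← h6, hk, h7, h8, map_zero]
  -- hence `k` is a boundary
  obtain ⟨w, hw0, hw1⟩ := H ((ofCh X 0).hom k) (by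
    rw [← toCh_aug, toCh_ofCh]
    exact h3)
  have hw : (K.d 1 0).hom (toCh X 1 w) = k := by
    refine (d_apply X 0 _).trans ?_
    rw [Fin.sum_univ_two, ← toCh_mapDomain, ← toCh_mapDomain, hw0, hw1, toCh_ofCh]
    simp
  have h9 : (K.homologyι 0).hom x = 0 := by
    rw [← hk, ← hw]
    exact congrArg (fun g => g.hom (toCh X 1 w)) (K.d_pOpcycles 1 0)
  have hi : Function.Injective (K.homologyι 0).hom :=
    (ModuleCat.mono_iff_injective _).1 inferInstance
  exact hi (by rw [h9, map_zero])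

end F2Moore

theorem f2_moore : F2_MOORE_Stmt := by
  intro X hX H0 H1 n
  obtain ⟨x⟩ := hX
  let s : 𝟙_ SSet.{0} ⟶ X := SSet.const x
  have hs : s ≫ CartesianMonoidalCategory.toUnit X = 𝟙 _ :=
    CartesianMonoidalCategory.toUnit_unique _ _
  have hsplit : IsSplitEpi (SSet.homologyMap (CartesianMonoidalCategory.toUnit X) F2 n) :=
    IsSplitEpi.mk' ⟨SSet.homologyMap s F2 n, by
      rw [← SSet.homologyMap_comp, hs, SSet.homologyMap_id]⟩
  have hmono : Mono (SSet.homologyMap (CartesianMonoidalCategory.toUnit X) F2 n) := by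
    cases n with
    | zero => exact F2Moore.mono_zero X H0 _ _
    | succ n =>
      have hz : IsZero (X.homology F2 (n + 1)) := (F2Moore.exactAt_succ X H1 n).isZero_homology
      exact ⟨fun g h _ => hz.eq_of_tgt _ _⟩
  exact isIso_of_mono_of_isSplitEpi _

end Pool.Agent.SH


end
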