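import Mathlib
import Pool.Agent.SHM.C01
import Pool.Agent.SHM.C02
import Pool.Agent.SHM.C03
import Pool.Agent.SHM.C04
import Pool.Agent.SHM.C07
import Pool.Agent.SHM.C09
import Pool.Agent.SHM.C13
import Pool.Agent.SHM.C14

/-! Parts: SH.FAC, SH.BOX, SH.HEC, SH.PARTI, SH.TeBdry, SH.TeKey, SH.TeR, SH.TeWT, SH.WcProd, SH.WcPush, SH.TEall, SH.NFin, SH.NFmc, SH.NPctr, SH.NAll, SH.TTRep, SH.TTTotX, SH.TTMB, SH.TTConp, SH.TTTr, SH.TTCoa, SH.VInp, SH.TTFinal, SH.Q.HAD, SH.Q.PRJ, SH.Q.LMQ, SH.Q.FIN, SH.Q.CMA, SH.Q.All, SH.L.Sphb, SH.L.Phb, SH.L.Bd, SH.L.E1, SH.L.E2l, SH.L.Psi -/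

section

/-!
# Approximate factorization through a surjection of compacta
-/

set_option autoImplicit false

open Set Topology

namespace Pool.Agent.SH

theorem FAC (hR : Stmt_RET) : Stmt_FAC := by
  intro P _ Q ε hε
  obtain ⟨ε₀, hε₀, r, hrc, hrQ, hrid, hrδ⟩ := hR P Q
  obtain ⟨η, hη, hηε, hηδ⟩ := hrδ ε hε
  refine ⟨η, hη, ?_⟩
  intro A B _ _ _ _ _ _ pr f hpr hsurj hf hfQ hosc
  choose s hs using hsurj
  set U : B → Set B := fun b => {b' | ∀ z, pr z = b' → ∀ a ∈ Q, |f z a - f (s b) a| < η} with hU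
  have hUo : ∀ b, IsOpen (U b) := by
    intro b
    have h1 : IsOpen {z : A | ∀ a ∈ Q, |f z a - f (s b) a| < η} := by
      have h2 : {z : A | ∀ a ∈ Q, |f z a - f (s b) a| < η} =
          ⋂ a ∈ Q, {z : A | |f z a - f (s b) a| < η} := by
        ext z
        simp
      rw [h2]
      refine isOpen_biInter_finset fun a _ => ?_
      exact isOpen_lt (((continuous_apply a).comp hf).sub continuous_const).abs continuous_const
    have h3 : U b = (pr '' {z : A | ∀ a ∈ Q, |f z a - f (s b) a| < η}ᶜ)ᶜ := by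
      ext b'
      constructor
      · rintro h ⟨z, hz, rfl⟩
        exact hz (h z rfl)
      · intro h z hz
        by_contra hn
        exact h ⟨z, hn, hz⟩
    rw [h3]
    exact (hpr.isClosedMap _ h1.isClosed_compl).isOpen_compl
  have hUb : ∀ b, b ∈ U b := by
    intro b z hz a ha
    exact hosc z (s b) (hz.trans (hs b).symm) a ha
  obtain ⟨ρ, hρ⟩ := PartitionOfUnity.exists_isSubordinate (isClosed_univ : IsClosed (univ : Set B))
    U hUo (fun b _ => mem_iUnion.2 ⟨b, hUb b⟩)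
  set F : B → P → ℝ := fun b => ∑ᶠ i, ρ i b • f (s i) with hF
  have hFc : Continuous F := ρ.continuous_finsum_smul fun i x _ => continuousAt_const
  have hFz : ∀ z, ∀ a ∈ Q, |F (pr z) a - f z a| < η := by
    intro z
    have hconv : Convex ℝ {p : P → ℝ | ∀ a ∈ Q, |p a - f z a| < η} := by
      intro p hp q hq α β hα hβ hαβ a ha
      have e : (α • p + β • q) a - f z a = α * (p a - f z a) + β * (q a - f z a) := by
        simp only [Pi.add_apply, Pi.smul_apply, smul_eq_mul]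
        have : α * f z a + β * f z a = f z a := by rw [← add_mul, hαβ, one_mul]
        linarith
      show |(α • p + β • q) a - f z a| < η
      rw [e]
      refine lt_of_le_of_lt (abs_add_le _ _) ?_
      rw [abs_mul, abs_mul, abs_of_nonneg hα, abs_of_nonneg hβ]
      rcases eq_or_lt_of_le hα with h0 | h0
      · have : β = 1 := by rw [← h0] at hαβ; simpa using hαβ
        rw [← h0, this, zero_mul, zero_add, one_mul]
        exact hq a ha
      · have h1 : α * |p a - f z a| < α * η := mul_lt_mul_of_pos_left (hp a ha) h0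
        have h2 : β * |q a - f z a| ≤ β * η := mul_le_mul_of_nonneg_left (hq a ha).le hβ
        have : α * η + β * η = η := by rw [← add_mul, hαβ, one_mul]
        linarith
    have := ρ.finsum_smul_mem_convex (g := fun i _ => f (s i)) (mem_univ (pr z))
      (t := {p : P → ℝ | ∀ a ∈ Q, |p a - f z a| < η}) ?_ hconv
    · exact this
    · intro i hi a ha
      have h1 : pr z ∈ U i := hρ i (subset_closure hi)
      have h2 := h1 z rfl a ha
      rw [abs_sub_comm]
      exact h2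
  have hFNB : ∀ b, F b ∈ NB Q ε₀ := by
    intro b
    refine ⟨f (s b), hfQ _, fun a ha => ?_⟩
    have := hFz (s b) a ha
    rw [hs b] at this
    exact this.trans_le hηε
  refine ⟨fun b => r (F b), hrc.comp_continuous hFc hFNB, fun b => hrQ _ (hFNB b), ?_⟩
  intro z a ha
  rw [abs_sub_comm]
  exact hηδ _ _ (hfQ z) (hFz z) a ha

end Pool.Agent.SH


end

section

/-!
# Extension over thin slabs
-/

set_option autoImplicit false

open Set Topology

namespace Pool.Agent.SH

theorem BOX (hF : Stmt_FAC) (hC : Stmt_CLS) (hH : Stmt_HEP) : Stmt_BOX := by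
  classical
  intro Z _ _ _ P _ hExt A Q κ hA hκ hκQ
  letI := TopologicalSpace.metrizableSpaceMetric Z
  obtain ⟨ε₁, hε₁, hcls⟩ := hC P Q
  obtain ⟨η₁, hη₁, hfac⟩ := hF P Q ε₁ hε₁
  have hcont : ContinuousOn (fun (z : Z × Iv) (a : Q) => κ z a) A := by
    rw [continuousOn_pi]
    intro a
    exact (continuous_apply (a : P)).comp_continuousOn hκ
  have huc := hA.isCompact.uniformContinuousOn_of_continuous hcont
  rw [Metric.uniformContinuousOn_iff] at huc
  obtain ⟨η, hη, huc⟩ := huc η₁ hη₁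
  refine ⟨η / 2, by positivity, ?_⟩
  intro a b hab
  set S : Set (Z × Iv) := {z | a ≤ (z.2 : ℝ) ∧ (z.2 : ℝ) ≤ b} with hS
  have hv : Continuous fun z : Z × Iv => (z.2 : ℝ) := continuous_subtype_val.comp continuous_snd
  have hSc : IsClosed S := (isClosed_le continuous_const hv).inter (isClosed_le hv continuous_const)
  have hASc : IsClosed (A ∩ S) := hA.inter hSc
  set B : Set Z := Prod.fst '' (A ∩ S) with hB
  have hBc : IsClosed B := (hASc.isCompact.image continuous_fst).isClosed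
  haveI : CompactSpace (A ∩ S : Set (Z × Iv)) := isCompact_iff_compactSpace.1 hASc.isCompact
  haveI : CompactSpace B := isCompact_iff_compactSpace.1 hBc.isCompact
  haveI : CompactSpace S := isCompact_iff_compactSpace.1 hSc.isCompact
  obtain ⟨f', hf'c, hf'Q, hf'⟩ := hfac (A ∩ S : Set (Z × Iv)) B
    (fun z => ⟨z.1.1, z.1, z.2, rfl⟩) (fun z => κ z.1)
    (Continuous.subtype_mk (continuous_fst.comp continuous_subtype_val) _)
    (by
      rintro ⟨_, z, hz, rfl⟩
      exact ⟨⟨z, hz⟩, rfl⟩)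
    (by
      have := continuousOn_iff_continuous_domRestrict.1 (hκ.mono (inter_subset_left : A ∩ S ⊆ A))
      exact this)
    (fun z => hκQ _ z.2.1)
    (by
      rintro ⟨z, hz⟩ ⟨z', hz'⟩ heq c hc
      have h1 : z.1 = z'.1 := congrArg Subtype.val heq
      have h2 : dist z z' < η := by
        rw [Prod.dist_eq, h1, dist_self, max_eq_right dist_nonneg, Subtype.dist_eq,
          Real.dist_eq, abs_lt]
        have e1 := hz.2.1
        have e2 := hz.2.2
        have e3 := hz'.2.1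
        have e4 := hz'.2.2
        constructor <;> linarith
      have h3 := huc z hz.1 z' hz'.1 h2
      have h4 := dist_le_pi_dist (fun a : Q => κ z a) (fun a : Q => κ z' a) ⟨c, hc⟩
      rw [Real.dist_eq] at h4
      exact lt_of_le_of_lt h4 h3)
  obtain ⟨f'', hf''c, hf''⟩ := exists_of_subtype hf'c
  obtain ⟨Q', G, hQQ', hGc, hGQ', hG⟩ := hExt B Q f'' hBc hf''c (by
    intro z hz
    rw [hf'' z hz]
    exact hf'Q _)
  -- the homotopy on the slab
  have hASS : IsClosed {s : S | s.1 ∈ A} := hA.preimage continuous_subtype_val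
  have hGA : ∀ s : S, s.1 ∈ A → ∃ h : s.1.1 ∈ B, G s.1.1 = f' ⟨s.1.1, h⟩ := by
    intro s hs
    have h1 : s.1.1 ∈ B := ⟨s.1, ⟨hs, s.2⟩, rfl⟩
    exact ⟨h1, (hG _ h1).trans (hf'' _ h1)⟩
  obtain ⟨H, hHc, hHQ, hH01⟩ := hcls S {s : S | s.1 ∈ A} (fun s => κ s.1) (fun s => G s.1.1)
    (by
      refine hκ.comp continuous_subtype_val.continuousOn ?_
      intro s hs
      exact hs)
    ((hGc.comp (continuous_fst.comp continuous_subtype_val)).continuousOn)
    (fun s hs => hκQ _ hs)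
    (by
      intro s hs
      obtain ⟨h, e⟩ := hGA s hs
      rw [e]
      exact hf'Q _)
    (by
      intro s hs c hc
      obtain ⟨h, e⟩ := hGA s hs
      show |κ s.1 c - G s.1.1 c| < ε₁
      rw [e]
      exact hf' ⟨s.1, hs, s.2⟩ c hc)
  obtain ⟨g', hg'c, hg'Q, hg'⟩ := hH S P Q' {s : S | s.1 ∈ A} H (fun s => G s.1.1) hASS hHc
    (fun s hs => Rz_mono hQQ' (hHQ s hs)) (hGc.comp (continuous_fst.comp continuous_subtype_val))
    (fun s => hGQ' _) (fun s hs => (hH01 s hs).2.symm)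
  obtain ⟨g, hgc, hg⟩ := exists_of_subtype hg'c
  refine ⟨Q', g, hQQ', hgc, ?_, ?_⟩
  · intro z h1 h2
    rw [hg z ⟨h1, h2⟩]
    exact hg'Q _
  · intro z hz h1 h2
    rw [hg z ⟨h1, h2⟩, hg' ⟨z, h1, h2⟩ hz]
    exact (hH01 ⟨z, h1, h2⟩ hz).1

end Pool.Agent.SH


end

section

/-!
# Module HEC: homotopy extension for spheres
-/

set_option autoImplicit false

open Set Topology

namespace Pool.Agent.SH

theorem HEC : Stmt_HEC := by
  intro N R Z _ _ _ B b₀ b₁ hB hb₀ hb₁ hne hnorm hanti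
  obtain ⟨B0, hB0⟩ := ContinuousMap.exists_restrict_eq hB
    (⟨fun z => b₀ z, continuousOn_iff_continuous_domRestrict.mp hb₀⟩ : C(B, (Fin N → ℝ) × (Fin R → ℝ)))
  have hB0' : ∀ z ∈ B, B0 z = b₀ z := by
    intro z hz
    have h1 := congrArg (fun f : C(B, (Fin N → ℝ) × (Fin R → ℝ)) => f ⟨z, hz⟩) hB0
    simpa using h1
  -- the straight line
  set F : Z × ℝ → (Fin N → ℝ) × (Fin R → ℝ) := fun x => (1 - x.2) • B0 x.1 + x.2 • b₁ x.1
    with hF
  have hFc : Continuous F := by
    have h1 := B0.continuous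
    fun_prop
  set T : Set Z := Prod.fst '' ((univ ×ˢ Icc (0 : ℝ) 1) ∩ F ⁻¹' {0}) with hT
  have hTc : IsClosed T := by
    have h1 : IsCompact ((univ ×ˢ Icc (0 : ℝ) 1) ∩ F ⁻¹' {0} : Set (Z × ℝ)) :=
      (isCompact_univ.prod isCompact_Icc).inter_right (isClosed_singleton.preimage hFc)
    exact (h1.image continuous_fst).isClosed
  have hdisj : Disjoint B T := by
    rw [Set.disjoint_left]
    rintro z hz ⟨⟨z', t⟩, ⟨⟨-, ht⟩, h0⟩, rfl⟩
    simp only [mem_preimage, mem_singleton_iff] at h0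
    simp only at hz ht
    have h1 : (1 - t) • b₀ z' + t • b₁ z' = 0 := by
      rw [← hB0' z' hz]
      exact h0
    rcases ht.1.eq_or_lt with h2 | h2
    · rw [← h2] at h1
      simp only [sub_zero, one_smul, zero_smul, add_zero] at h1
      have h3 := hnorm z' hz
      rw [h1, norm_zero] at h3
      exact zero_ne_one h3
    · apply hanti z' hz ((1 - t) / t) (div_nonneg (by linarith [ht.2]) h2.le)
      have h3 : t • b₁ z' = -((1 - t) • b₀ z') := by
        rw [eq_neg_iff_add_eq_zero, add_comm]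
        exact h1
      calc b₁ z' = t⁻¹ • (t • b₁ z') := by rw [smul_smul, inv_mul_cancel₀ h2.ne', one_smul]
        _ = -(((1 - t) / t) • b₀ z') := by
          rw [h3, smul_neg, smul_smul]
          congr 2
          ring
  obtain ⟨u, hu0, hu1, hu⟩ := exists_continuous_zero_one_of_isClosed hB hTc hdisj
  have hnz : ∀ z, F (z, u z) ≠ 0 := by
    intro z h
    by_cases hz : z ∈ T
    · have h1 : u z = 1 := hu1 hz
      rw [hF] at h
      simp only [h1, sub_self, zero_smul, one_smul, zero_add] at h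
      exact hne z h
    · exact hz ⟨(z, u z), ⟨⟨mem_univ _, hu z⟩, h⟩, rfl⟩
  have hc : Continuous (fun z => F (z, u z)) :=
    hFc.comp (continuous_id.prodMk u.continuous)
  refine ⟨fun z => ‖F (z, u z)‖⁻¹ • F (z, u z), ?_, fun z => ?_, fun z hz => ?_⟩
  · exact (hc.norm.inv₀ fun z => norm_ne_zero_iff.mpr (hnz z)).smul hc
  · rw [norm_smul, norm_inv, norm_norm, inv_mul_cancel₀ (norm_ne_zero_iff.mpr (hnz z))]
  · have h1 : u z = 0 := hu0 hz
    have h2 : F (z, u z) = b₀ z := by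
      rw [hF]
      simp only [h1, sub_zero, one_smul, zero_smul, add_zero]
      exact hB0' z hz
    simp only [h2, hnorm z hz, inv_one, one_smul]

end Pool.Agent.SH


end

section

/-!
# The theorem of part I
-/

set_option autoImplicit false

open Set Topology

namespace Pool.Agent.SH

theorem allITX : Stmt_ITX :=
  ITX (PROD (WALL (BOX (FAC RET) (CLS RET) (HEP RET))) (CON RET) (HEP RET))

theorem PARTI : Stmt_PARTI := by
  intro X _ _ _ hE
  haveI : Nonempty (LL (Sph 2)) := ⟨LL.one 0⟩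
  exact ITR X 2 (SKE X 2 (STI SCAN HEC X (allITX X (LL (Sph 2)) hE)))

end Pool.Agent.SH


end

section

/-!
# MP_2d0b73_an, block TE: boundary inclusions suffice
-/

open CategoryTheory MonoidalCategory Simplicial SSet HomotopicalAlgebra Opposite Limits
open SSet.modelCategoryQuillen

namespace Pool.Agent.SH

namespace TeBdry

/-- Right lifting property of the restriction map `T^Y ⟶ T^X` for the boundary inclusions. -/
theorem rlp_I {T X Y : SSet.{0}} (i : X ⟶ Y) (h : REXTB T i) :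
    I.rlp ((MonoidalClosed.pre i).app T) := by
  intro A B j hj
  obtain ⟨n⟩ := hj
  constructor
  intro f g sq
  obtain ⟨w, hw1, hw2⟩ := h n (MonoidalClosed.uncurry f) (MonoidalClosed.uncurry g) (by
    rw [← MonoidalClosed.uncurry_natural_left, ← sq.w, MonoidalClosed.uncurry_pre_app])
  refine ⟨⟨MonoidalClosed.curry w, ?_, ?_⟩⟩
  · rw [← MonoidalClosed.curry_natural_left, hw1, MonoidalClosed.curry_uncurry]
  · rw [MonoidalClosed.curry_pre_app, hw2, MonoidalClosed.curry_uncurry]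

end TeBdry

open TeBdry in
theorem te_bdry : TE_BDRY_Stmt := by
  intro T X Y i h K L j _ u v huv
  have h1 : (MorphismProperty.monomorphisms SSet.{0}).rlp ((MonoidalClosed.pre i).app T) := by
    rw [SSet.rlp_monomorphisms]
    exact rlp_I i h
  have h2 : HasLiftingProperty j ((MonoidalClosed.pre i).app T) := h1 j (by
    rw [MorphismProperty.monomorphisms.iff]
    infer_instance)
  have sq : CommSq (MonoidalClosed.curry u) j ((MonoidalClosed.pre i).app T)
      (MonoidalClosed.curry v) := ⟨by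
    rw [MonoidalClosed.curry_pre_app, ← MonoidalClosed.curry_natural_left, huv]⟩
  refine ⟨MonoidalClosed.uncurry sq.lift, ?_, ?_⟩
  · rw [← MonoidalClosed.uncurry_natural_left, sq.fac_left, MonoidalClosed.uncurry_curry]
  · rw [← MonoidalClosed.uncurry_pre_app, sq.fac_right, MonoidalClosed.uncurry_curry]

end Pool.Agent.SH


end

section

/-!
# MP_2d0b73_an, block TE: the key lemma (K5), (K6)
-/

open CategoryTheory MonoidalCategory Simplicial SSet HomotopicalAlgebra Opposite Limits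
open SSet.modelCategoryQuillen

namespace Pool.Agent.SH

namespace TeKey

/-- Two copies of a simplicial set. -/
def Dbl (K : SSet.{0}) : SSet.{0} where
  obj n := K.obj n × Bool
  map f := TypeCat.ofHom fun x => (K.map f x.1, x.2)
  map_id := by intro n; ext x <;> simp
  map_comp := by intro a b c f g; ext x <;> simp

/-- A map out of the two copies. -/
def dsc {Y K T : SSet.{0}} (b b' : Y ⊗ K ⟶ T) : Y ⊗ Dbl K ⟶ T where
  app n := TypeCat.ofHom fun x => bif x.2.2 then b'.app n (x.1, x.2.1) else b.app n (x.1, x.2.1)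
  naturality := by
    intro m n f
    ext x
    obtain ⟨y, k, c⟩ := x
    cases c
    · exact ConcreteCategory.congr_hom (b.naturality f) (show (Y ⊗ K).obj m from (y, k))
    · exact ConcreteCategory.congr_hom (b'.naturality f) (show (Y ⊗ K).obj m from (y, k))

/-- The inclusion of the two ends of the cylinder. -/
noncomputable def jD (K : SSet.{0}) : Dbl K ⟶ K ⊗ Δ[1] where
  app n := TypeCat.ofHom fun x => bif x.2 then (ι₁ : K ⟶ K ⊗ Δ[1]).app n x.1
    else (ι₀ : K ⟶ K ⊗ Δ[1]).app n x.1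
  naturality := by
    intro m n f
    ext x
    obtain ⟨k, c⟩ := x
    cases c
    · exact ConcreteCategory.congr_hom ((ι₀ : K ⟶ K ⊗ Δ[1]).naturality f) k
    · exact ConcreteCategory.congr_hom ((ι₁ : K ⟶ K ⊗ Δ[1]).naturality f) k

instance (K : SSet.{0}) : Mono (jD K) := by
  have : ∀ n, Mono ((jD K).app n) := by
    intro n
    rw [mono_iff_injective]
    rintro ⟨k, c⟩ ⟨k', c'⟩ h
    obtain ⟨n⟩ := n
    induction n using SimplexCategory.rec with | _ n
    cases c <;> cases c'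
    · have h1 : k = k' := congrArg (fun z : (K ⊗ Δ[1] : SSet.{0}) _⦋n⦌ => z.1) h
      rw [h1]
    · exfalso
      have h1 := congrArg (fun z : (K ⊗ Δ[1] : SSet.{0}) _⦋n⦌ => z.2 0) h
      have h2 : (0 : Fin 2) = 1 := h1
      exact absurd h2 (by decide)
    · exfalso
      have h1 := congrArg (fun z : (K ⊗ Δ[1] : SSet.{0}) _⦋n⦌ => z.2 0) h
      have h2 : (1 : Fin 2) = 0 := h1
      exact absurd h2 (by decide)
    · have h1 : k = k' := congrArg (fun z : (K ⊗ Δ[1] : SSet.{0}) _⦋n⦌ => z.1) h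
      rw [h1]
  exact NatTrans.mono_of_mono_app _

/-- homotopies as maps on the other bracketing -/
theorem hty_iff' {Y K T : SSet.{0}} (b b' : Y ⊗ K ⟶ T) :
    Hty b b' ↔ ∃ h : Y ⊗ (K ⊗ Δ[1]) ⟶ T,
      Y ◁ (ι₀ : K ⟶ K ⊗ Δ[1]) ≫ h = b ∧ Y ◁ (ι₁ : K ⟶ K ⊗ Δ[1]) ≫ h = b' := by
  have e0 : (ι₀ : Y ⊗ K ⟶ (Y ⊗ K) ⊗ Δ[1]) ≫ (α_ Y K Δ[1]).hom =
      Y ◁ (ι₀ : K ⟶ K ⊗ Δ[1]) := rfl
  have e1 : (ι₁ : Y ⊗ K ⟶ (Y ⊗ K) ⊗ Δ[1]) ≫ (α_ Y K Δ[1]).hom =
      Y ◁ (ι₁ : K ⟶ K ⊗ Δ[1]) := rfl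
  rw [Hty_iff]
  constructor
  · rintro ⟨h, h0, h1⟩
    refine ⟨(α_ Y K Δ[1]).inv ≫ h, ?_, ?_⟩
    · rw [← e0, Category.assoc, Iso.hom_inv_id_assoc, h0]
    · rw [← e1, Category.assoc, Iso.hom_inv_id_assoc, h1]
  · rintro ⟨h, h0, h1⟩
    refine ⟨(α_ Y K Δ[1]).hom ≫ h, ?_, ?_⟩
    · rw [← Category.assoc, e0, h0]
    · rw [← Category.assoc, e1, h1]

/-- homotopies and currying -/
theorem hty_curry {X K T : SSet.{0}} (f g : X ⊗ K ⟶ T) :
    Hty (MonoidalClosed.curry f) (MonoidalClosed.curry g) ↔ Hty f g := by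
  rw [hty_iff', Hty_iff]
  constructor
  · rintro ⟨h, h0, h1⟩
    refine ⟨MonoidalClosed.uncurry h, ?_, ?_⟩
    · rw [← MonoidalClosed.uncurry_natural_left, h0, MonoidalClosed.uncurry_curry]
    · rw [← MonoidalClosed.uncurry_natural_left, h1, MonoidalClosed.uncurry_curry]
  · rintro ⟨h, h0, h1⟩
    refine ⟨MonoidalClosed.curry h, ?_, ?_⟩
    · rw [← MonoidalClosed.curry_natural_left, h0]
    · rw [← MonoidalClosed.curry_natural_left, h1]

end TeKey

open TeKey

/-- (K5) -/
theorem te_keye (h1 : TE_HTY_Stmt) : TE_KEYE_Stmt := by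
  have _ := h1
  intro T hT X Y i hi
  refine ⟨fun K a => ?_, fun K b b' h => ?_⟩
  · -- extension over the empty part
    have hne : ¬ SSet.Nonempty (Y ⊗ ((⊥ : K.Subcomplex) : SSet.{0})) := by
      rintro ⟨x⟩
      exact x.2.2
    have hne' : ¬ SSet.Nonempty (X ⊗ ((⊥ : K.Subcomplex) : SSet.{0})) := by
      rintro ⟨x⟩
      exact x.2.2
    obtain ⟨w, _, hw⟩ := hi ((⊥ : K.Subcomplex) : SSet.{0}) K (⊥ : K.Subcomplex).ι
      ((isInitialOfNotNonempty hne).to T) a
      ((isInitialOfNotNonempty hne').hom_ext _ _)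
    exact ⟨w, by rw [hw]; exact Hty.refl _⟩
  · rw [hty_iff'] at h
    obtain ⟨H, h0, h1'⟩ := h
    obtain ⟨w, hw1, _⟩ := hi (Dbl K) (K ⊗ Δ[1]) (jD K) (dsc b b') H (by
      ext n x
      obtain ⟨x, k, c⟩ := x
      cases c
      · exact (ConcreteCategory.congr_hom (NatTrans.congr_app h0 n)
          (show (X ⊗ K).obj n from (x, k))).symm
      · exact (ConcreteCategory.congr_hom (NatTrans.congr_app h1' n)
          (show (X ⊗ K).obj n from (x, k))).symm)
    rw [hty_iff']
    refine ⟨w, ?_, ?_⟩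
    · ext n x
      obtain ⟨y, k⟩ := x
      exact ConcreteCategory.congr_hom (NatTrans.congr_app hw1 n)
        (show (Y ⊗ Dbl K).obj n from (y, (k, false)))
    · ext n x
      obtain ⟨y, k⟩ := x
      exact ConcreteCategory.congr_hom (NatTrans.congr_app hw1 n)
        (show (Y ⊗ Dbl K).obj n from (y, (k, true)))

/-- (K6) -/
theorem te_key (h1 : TE_HTY_Stmt) (h3 : TE_TRIV_Stmt) : TE_KEY_Stmt := by
  have _ := h1
  intro T hT X Y i hi hW K L j hj u v huv
  have hkan : SSet.KanComplex ((ihom X).obj T) := inferInstance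
  have hfib : HomotopicalAlgebra.Fibration ((MonoidalClosed.pre i).app T) := inferInstance
  have hlift := h3 ((ihom Y).obj T) ((ihom X).obj T) ((MonoidalClosed.pre i).app T) hkan hfib
    (fun K a => by
      obtain ⟨b, hb⟩ := hW.1 K (MonoidalClosed.uncurry a)
      refine ⟨MonoidalClosed.curry b, ?_⟩
      rw [MonoidalClosed.curry_pre_app, ← MonoidalClosed.curry_uncurry a, hty_curry]
      exact hb)
    (fun K b b' h => by
      rw [← MonoidalClosed.curry_uncurry b, ← MonoidalClosed.curry_uncurry b',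
        MonoidalClosed.curry_pre_app, MonoidalClosed.curry_pre_app, hty_curry] at h
      rw [← MonoidalClosed.curry_uncurry b, ← MonoidalClosed.curry_uncurry b', hty_curry]
      exact hW.2 K _ _ h) K L j hj
  have sq : CommSq (MonoidalClosed.curry u) j ((MonoidalClosed.pre i).app T)
      (MonoidalClosed.curry v) := ⟨by
    rw [MonoidalClosed.curry_pre_app, huv, MonoidalClosed.curry_natural_left]⟩
  refine ⟨MonoidalClosed.uncurry sq.lift, ?_, ?_⟩
  · rw [← MonoidalClosed.uncurry_natural_left, sq.fac_left, MonoidalClosed.uncurry_curry]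
  · rw [← MonoidalClosed.uncurry_pre_app, sq.fac_right, MonoidalClosed.uncurry_curry]

end Pool.Agent.SH


end

section

/-!
# MP_2d0b73_an, block TE: relative extension, closure under pushouts and sequential composition
-/

open CategoryTheory MonoidalCategory Simplicial SSet HomotopicalAlgebra Opposite Limits
open SSet.modelCategoryQuillen

namespace Pool.Agent.SH

theorem te_rpush : TE_RPUSH_Stmt := by
  intro T A B C D i f g j sq hi K L k hk u v huv
  have hL : IsPushout (i ▷ L) (f ▷ L) (g ▷ L) (j ▷ L) := sq.map (tensorRight L)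
  have hK : IsPushout (i ▷ K) (f ▷ K) (g ▷ K) (j ▷ K) := sq.map (tensorRight K)
  have hc : i ▷ K ≫ (g ▷ K ≫ u) = A ◁ k ≫ (f ▷ L ≫ v) := by
    rw [← Category.assoc, hK.w, Category.assoc, huv, ← Category.assoc, ← Category.assoc,
      whisker_exchange]
  obtain ⟨w', h1, h2⟩ := hi K L k (g ▷ K ≫ u) (f ▷ L ≫ v) hc
  refine ⟨hL.desc w' v h2, ?_, hL.inr_desc _ _ _⟩
  apply hK.hom_ext
  · rw [← Category.assoc, ← whisker_exchange, Category.assoc, hL.inl_desc, h1]
  · rw [← Category.assoc, ← whisker_exchange, Category.assoc, hL.inr_desc, huv]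

namespace TeR

/-- The extensions over the stages `F n`. -/
theorem exists_seq (T : SSet.{0}) (F : ℕ ⥤ SSet.{0}) (c : Cocone F)
    (h : ∀ n : ℕ, REXT T (F.map (homOfLE (Nat.le_succ n)))) (K L : SSet.{0}) (k : K ⟶ L) [Mono k]
    (u : c.pt ⊗ K ⟶ T) (v : F.obj 0 ⊗ L ⟶ T) (huv : c.ι.app 0 ▷ K ≫ u = F.obj 0 ◁ k ≫ v) :
    ∃ w : ∀ n : ℕ, F.obj n ⊗ L ⟶ T, w 0 = v ∧
      (∀ n, F.obj n ◁ k ≫ w n = c.ι.app n ▷ K ≫ u) ∧
      ∀ n, (F.map (homOfLE (Nat.le_succ n))) ▷ L ≫ w (n + 1) = w n := by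
  have step : ∀ (n : ℕ) (a : F.obj n ⊗ L ⟶ T), F.obj n ◁ k ≫ a = c.ι.app n ▷ K ≫ u →
      ∃ b : F.obj (n + 1) ⊗ L ⟶ T, F.obj (n + 1) ◁ k ≫ b = c.ι.app (n + 1) ▷ K ≫ u ∧
        (F.map (homOfLE (Nat.le_succ n))) ▷ L ≫ b = a := by
    intro n a ha
    apply h n K L k
    rw [← Category.assoc, ← comp_whiskerRight, c.w, ha]
  choose b hb1 hb2 using step
  let w : ∀ n : ℕ, {a : F.obj n ⊗ L ⟶ T // F.obj n ◁ k ≫ a = c.ι.app n ▷ K ≫ u} := fun n =>
    Nat.rec ⟨v, huv.symm⟩ (fun n a => ⟨b n a.1 a.2, hb1 n a.1 a.2⟩) n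
  exact ⟨fun n => (w n).1, rfl, fun n => (w n).2, fun n => hb2 n (w n).1 (w n).2⟩

end TeR

theorem te_rseq : TE_RSEQ_Stmt := by
  intro T F c hc h K L k hk u v huv
  obtain ⟨w, h0, h1, h2⟩ := TeR.exists_seq T F c h K L k u v huv
  let α : F ⋙ tensorRight L ⟶ (Functor.const ℕ).obj T :=
    NatTrans.ofSequence (F := F ⋙ tensorRight L) (G := (Functor.const ℕ).obj T) w (by
      intro n
      change (F.map (homOfLE (Nat.le_succ n))) ▷ L ≫ w (n + 1) = w n ≫ 𝟙 T
      rw [h2, Category.comp_id])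
  have hα : ∀ n, α.app n = w n := fun n => rfl
  let s : Cocone (F ⋙ tensorRight L) := { pt := T, ι := α }
  have hcL : IsColimit ((tensorRight L).mapCocone c) := isColimitOfPreserves (tensorRight L) hc
  have hcK : IsColimit ((tensorRight K).mapCocone c) := isColimitOfPreserves (tensorRight K) hc
  have hd : ∀ n, (c.ι.app n) ▷ L ≫ hcL.desc s = w n := fun n => hcL.fac s n
  refine ⟨hcL.desc s, ?_, ?_⟩
  · apply hcK.hom_ext
    intro n
    have he : F.obj n ◁ k ≫ (show F.obj n ⟶ c.pt from c.ι.app n) ▷ L =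
        (show F.obj n ⟶ c.pt from c.ι.app n) ▷ K ≫ c.pt ◁ k :=
      whisker_exchange (show F.obj n ⟶ c.pt from c.ι.app n) k
    calc (c.ι.app n) ▷ K ≫ c.pt ◁ k ≫ hcL.desc s
        = ((show F.obj n ⟶ c.pt from c.ι.app n) ▷ K ≫ c.pt ◁ k) ≫ hcL.desc s :=
          (Category.assoc _ _ _).symm
      _ = (F.obj n ◁ k ≫ (show F.obj n ⟶ c.pt from c.ι.app n) ▷ L) ≫ hcL.desc s := by rw [he]
      _ = F.obj n ◁ k ≫ (c.ι.app n) ▷ L ≫ hcL.desc s := Category.assoc _ _ _
      _ = F.obj n ◁ k ≫ w n := by rw [hd]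
      _ = (c.ι.app n) ▷ K ≫ u := h1 n
  · exact (hd 0).trans h0

end Pool.Agent.SH


end

section

/-!
# MP_2d0b73_an, block TE: the class `W T` is a `WClass`
-/

open CategoryTheory MonoidalCategory Simplicial SSet HomotopicalAlgebra Opposite Limits
open SSet.modelCategoryQuillen

namespace Pool.Agent.SH

theorem te_wt (h3 : TE_23_Stmt) (h7 : TE_GLUE_Stmt) (h8 : TE_SEQ_Stmt) : TE_WT_Stmt := by
  intro T hT
  obtain ⟨a1, a2, a3, a4, a5, a6, a7⟩ := h3 T hT
  exact
    { iso := fun f hf => a1 _ _ f hf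
      comp := fun f g hf hg => a2 _ _ _ f g hf hg
      cancelL := fun f g hf hfg => a3 _ _ _ f g hf hfg
      cancelR := fun f g hg hfg => a4 _ _ _ f g hg hfg
      six := fun f g h hfg hgh => a5 _ _ _ _ f g h hfg hgh
      proj := fun X n => a6 X n
      glue := fun i f g j i' f' g' j' a b c d hp hp' hi hi' e1 e2 e3 e4 ha hb hc =>
        h7 T hT _ _ _ _ _ _ _ _ i f g j i' f' g' j' a b c d hp hp' hi hi' e1 e2 e3 e4 ha hb hc
      copr := fun J X Y f hf => a7 J X Y f hf
      seq := fun F G α cF cG hF hG hFm hGm hα f hf =>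
        h8 T hT F G α cF cG hF hG hFm hGm hα f hf }

end Pool.Agent.SH


end

section

/-!
# MP_2d0b73_an, block TE: products, pushout products and acyclic factors for a `WClass`
-/

open CategoryTheory MonoidalCategory Simplicial SSet HomotopicalAlgebra Opposite Limits
open SSet.modelCategoryQuillen

namespace Pool.Agent.SH

namespace WcProd

/-- `X ⊗ -` has a right adjoint. -/
theorem tensorLeft_isLeftAdjoint (X : SSet.{0}) : (tensorLeft X).IsLeftAdjoint :=
  (ihom.adjunction X).isLeftAdjoint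

theorem mono_whiskerLeft (X : SSet.{0}) {A B : SSet.{0}} (i : A ⟶ B) (hi : Mono i) :
    Mono (X ◁ i) := by
  refine ⟨fun {Z} u v h => ?_⟩
  refine CartesianMonoidalCategory.hom_ext _ _ ?_ ?_
  · have h1 := congrArg (fun w => w ≫ CartesianMonoidalCategory.fst X B) h
    simpa only [Category.assoc, CartesianMonoidalCategory.whiskerLeft_fst] using h1
  · have h1 := congrArg (fun w => w ≫ CartesianMonoidalCategory.snd X B) h
    simp only [Category.assoc, CartesianMonoidalCategory.whiskerLeft_snd] at h1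
    rw [← Category.assoc, ← Category.assoc] at h1
    exact (cancel_mono i).1 h1

theorem mono_whiskerRight (X : SSet.{0}) {A B : SSet.{0}} (i : A ⟶ B) (hi : Mono i) :
    Mono (i ▷ X) := by
  refine ⟨fun {Z} u v h => ?_⟩
  refine CartesianMonoidalCategory.hom_ext _ _ ?_ ?_
  · have h1 := congrArg (fun w => w ≫ CartesianMonoidalCategory.fst B X) h
    simp only [Category.assoc, CartesianMonoidalCategory.whiskerRight_fst] at h1
    rw [← Category.assoc, ← Category.assoc] at h1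
    exact (cancel_mono i).1 h1
  · have h1 := congrArg (fun w => w ≫ CartesianMonoidalCategory.snd B X) h
    simpa only [Category.assoc, CartesianMonoidalCategory.whiskerRight_snd] using h1

theorem whiskerRight_iso {P : MorphismProperty SSet.{0}} (hP : WClass P) {X Y : SSet.{0}}
    (f : X ⟶ Y) {K L : SSet.{0}} (e : K ≅ L) (h : P (f ▷ K)) : P (f ▷ L) := by
  have h1 : X ◁ e.inv ≫ f ▷ K ≫ Y ◁ e.hom = f ▷ L := by
    rw [← whisker_exchange, ← Category.assoc, ← MonoidalCategory.whiskerLeft_comp,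
      e.inv_hom_id, MonoidalCategory.whiskerLeft_id, Category.id_comp]
  rw [← h1]
  exact hP.comp _ _ (hP.iso _ inferInstance) (hP.comp _ _ h (hP.iso _ inferInstance))

theorem whiskerRight_stdSimplex {P : MorphismProperty SSet.{0}} (hP : WClass P)
    {X Y : SSet.{0}} (f : X ⟶ Y) (hf : P f) (n : ℕ) : P (f ▷ (Δ[n] : SSet.{0})) := by
  have h1 : f ▷ (Δ[n] : SSet.{0}) ≫ CartesianMonoidalCategory.fst Y (Δ[n] : SSet.{0}) =
      CartesianMonoidalCategory.fst X (Δ[n] : SSet.{0}) ≫ f :=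
    CartesianMonoidalCategory.whiskerRight_fst _ _
  refine hP.cancelR _ _ (hP.proj Y n) ?_
  rw [h1]
  exact hP.comp _ _ (hP.proj X n) hf

theorem whiskerRight_sigma {P : MorphismProperty SSet.{0}} (hP : WClass P) {X Y : SSet.{0}}
    (f : X ⟶ Y) (J : Type) (K : J → SSet.{0}) (h : ∀ j, P (f ▷ K j)) : P (f ▷ (∐ K)) := by
  have := tensorLeft_isLeftAdjoint X
  have := tensorLeft_isLeftAdjoint Y
  have h1 : P (Limits.Sigma.map (fun j => f ▷ K j)) := hP.copr J _ _ _ h
  have h2 : sigmaComparison (tensorLeft X) K ≫ f ▷ (∐ K) =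
      Limits.Sigma.map (fun j => f ▷ K j) ≫ sigmaComparison (tensorLeft Y) K := by
    refine Limits.Sigma.hom_ext _ _ fun j => ?_
    have e1 : Limits.Sigma.ι (fun b => (tensorLeft X).obj (K b)) j ≫
        sigmaComparison (tensorLeft X) K = X ◁ Limits.Sigma.ι K j :=
      ι_comp_sigmaComparison (tensorLeft X) K j
    have e2 : Limits.Sigma.ι (fun b => (tensorLeft Y).obj (K b)) j ≫
        sigmaComparison (tensorLeft Y) K = Y ◁ Limits.Sigma.ι K j :=
      ι_comp_sigmaComparison (tensorLeft Y) K j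
    have e3 : Limits.Sigma.ι (fun b => X ⊗ K b) j ≫ Limits.Sigma.map (fun j => f ▷ K j) =
        f ▷ K j ≫ Limits.Sigma.ι (fun b => Y ⊗ K b) j :=
      Limits.Sigma.ι_map _ _
    have e4 : X ◁ Limits.Sigma.ι K j ≫ f ▷ (∐ K) = f ▷ K j ≫ Y ◁ Limits.Sigma.ι K j :=
      whisker_exchange _ _
    calc Limits.Sigma.ι (fun b => (tensorLeft X).obj (K b)) j ≫
          sigmaComparison (tensorLeft X) K ≫ f ▷ (∐ K)
        = (Limits.Sigma.ι (fun b => (tensorLeft X).obj (K b)) j ≫
          sigmaComparison (tensorLeft X) K) ≫ f ▷ (∐ K) := (Category.assoc _ _ _).symm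
      _ = f ▷ K j ≫ Y ◁ Limits.Sigma.ι K j := by rw [e1]; exact e4
      _ = f ▷ K j ≫ Limits.Sigma.ι (fun b => (tensorLeft Y).obj (K b)) j ≫
          sigmaComparison (tensorLeft Y) K := by rw [e2]
      _ = (f ▷ K j ≫ Limits.Sigma.ι (fun b => (tensorLeft Y).obj (K b)) j) ≫
          sigmaComparison (tensorLeft Y) K := (Category.assoc _ _ _).symm
      _ = (Limits.Sigma.ι (fun b => X ⊗ K b) j ≫ Limits.Sigma.map (fun j => f ▷ K j)) ≫
          sigmaComparison (tensorLeft Y) K :=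
            congrArg (fun w => w ≫ sigmaComparison (tensorLeft Y) K) e3.symm
      _ = _ := Category.assoc _ _ _
  have h3 : P (sigmaComparison (tensorLeft X) K) := hP.iso _ inferInstance
  have h4 : P (sigmaComparison (tensorLeft Y) K) := hP.iso _ inferInstance
  refine hP.cancelL _ _ h3 ?_
  rw [h2]
  exact hP.comp _ _ h1 h4

theorem whiskerRight_pushout {P : MorphismProperty SSet.{0}} (hP : WClass P)
    {X Y : SSet.{0}} (f : X ⟶ Y) {A B C D : SSet.{0}} (i : A ⟶ B) (g : A ⟶ C) (i' : B ⟶ D)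
    (g' : C ⟶ D) (sq : IsPushout i g i' g') (hi : Mono i) (hA : P (f ▷ A)) (hB : P (f ▷ B))
    (hC : P (f ▷ C)) : P (f ▷ D) := by
  have := tensorLeft_isLeftAdjoint X
  have := tensorLeft_isLeftAdjoint Y
  have sqX : IsPushout (X ◁ i) (X ◁ g) (X ◁ i') (X ◁ g') := sq.map (tensorLeft X)
  have sqY : IsPushout (Y ◁ i) (Y ◁ g) (Y ◁ i') (Y ◁ g') := sq.map (tensorLeft Y)
  have mX : Mono (X ◁ i) := mono_whiskerLeft X i hi
  have mY : Mono (Y ◁ i) := mono_whiskerLeft Y i hi
  exact hP.glue _ _ _ _ _ _ _ _ (f ▷ A) (f ▷ B) (f ▷ C) (f ▷ D) sqX sqY mX mY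
    (whisker_exchange _ _) (whisker_exchange _ _) (whisker_exchange _ _)
    (whisker_exchange _ _) hA hB hC

theorem whiskerRight_seq {P : MorphismProperty SSet.{0}} (hP : WClass P)
    {X Y : SSet.{0}} (f : X ⟶ Y) (F : ℕ ⥤ SSet.{0}) (c : Cocone F) (hc : IsColimit c)
    (hm : ∀ n : ℕ, Mono (F.map (homOfLE (Nat.le_succ n)))) (h : ∀ n : ℕ, P (f ▷ F.obj n)) :
    P (f ▷ c.pt) := by
  have := tensorLeft_isLeftAdjoint X
  have := tensorLeft_isLeftAdjoint Y
  let α : F ⋙ tensorLeft X ⟶ F ⋙ tensorLeft Y :=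
    { app := fun n => f ▷ F.obj n
      naturality := fun _ _ _ => whisker_exchange _ _ }
  refine hP.seq (F ⋙ tensorLeft X) (F ⋙ tensorLeft Y) α ((tensorLeft X).mapCocone c)
    ((tensorLeft Y).mapCocone c) (isColimitOfPreserves _ hc) (isColimitOfPreserves _ hc)
    (fun n => mono_whiskerLeft X _ (hm n)) (fun n => mono_whiskerLeft Y _ (hm n)) h
    (f ▷ c.pt) (fun n => whisker_exchange _ _)

theorem whiskerRight_all (h1 : SK_IND_Stmt) {P : MorphismProperty SSet.{0}} (hP : WClass P)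
    {X Y : SSet.{0}} (f : X ⟶ Y) (hf : P f) (K : SSet.{0}) : P (f ▷ K) :=
  h1 K (fun K' _ => P (f ▷ K'))
    (fun _ _ e _ h => whiskerRight_iso hP f e h)
    (fun n _ => whiskerRight_stdSimplex hP f hf n)
    (fun J K' _ h => whiskerRight_sigma hP f J K' h)
    (fun _ _ _ _ i g i' g' _ sq hi hA hB hC =>
      whiskerRight_pushout hP f i g i' g' sq hi hA hB hC)
    (fun F c _ hc hm h => whiskerRight_seq hP f F c hc hm h)
    K (𝟙 K)

end WcProd

open WcProd

set_option linter.unusedVariables false in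
/-- (C6) products. -/
theorem wc_prod (h1 : SK_IND_Stmt) (h2 : WC_PUSH_Stmt) : WC_PROD_Stmt := by
  intro P hP X Y K f hf
  have h3 : P (f ▷ K) := whiskerRight_all h1 hP f hf K
  refine ⟨h3, ?_⟩
  have h4 : (β_ K X).hom ≫ f ▷ K ≫ (β_ K Y).inv = K ◁ f := by
    rw [← Category.assoc, ← BraidedCategory.braiding_naturality_right, Category.assoc,
      Iso.hom_inv_id, Category.comp_id]
  rw [← h4]
  exact hP.comp _ _ (hP.iso _ inferInstance) (hP.comp _ _ h3 (hP.iso _ inferInstance))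

set_option linter.unusedVariables false in
/-- (C7) pushout products of subcomplexes. -/
theorem wc_pp (h1 : WC_PROD_Stmt) (h2 : WC_PUSH_Stmt) (h3 : WC_UNION_Stmt) : WC_PP_Stmt := by
  intro P hP X Y A B hA
  have hY : P (A.ι ▷ Y) := (h1 P hP _ _ Y A.ι hA).1
  have hB : P (A.ι ▷ (B : SSet.{0})) := (h1 P hP _ _ (B : SSet.{0}) A.ι hA).1
  have hm : Mono (A.ι ▷ (B : SSet.{0})) := mono_whiskerRight _ _ inferInstance
  have h4 : P (Subcomplex.unionProd.ι₂ A B) :=
    (h2 P hP).1 _ _ _ _ _ _ _ _ (Subcomplex.unionProd.isPushout A B) hm hB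
  refine hP.cancelL _ _ h4 ?_
  rw [Subcomplex.unionProd.ι₂_ι]
  exact hY

/-- (C11) acyclic factors. -/
theorem wc_acy (h1 : WC_PROD_Stmt) : WC_ACY_Stmt := by
  intro P hP F X hF
  have h2 := h1 P hP _ _ X _ hF
  constructor
  · have h3 : CartesianMonoidalCategory.snd F X =
        CartesianMonoidalCategory.toUnit F ▷ X ≫ (λ_ X).hom := by
      rw [CartesianMonoidalCategory.leftUnitor_hom, CartesianMonoidalCategory.whiskerRight_snd]
    rw [h3]
    exact hP.comp _ _ h2.1 (hP.iso _ inferInstance)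
  · have h3 : CartesianMonoidalCategory.fst X F =
        X ◁ CartesianMonoidalCategory.toUnit F ≫ (ρ_ X).hom := by
      rw [CartesianMonoidalCategory.rightUnitor_hom, CartesianMonoidalCategory.whiskerLeft_fst]
    rw [h3]
    exact hP.comp _ _ h2.2 (hP.iso _ inferInstance)

end Pool.Agent.SH


end

section

/-!
# MP_2d0b73_an, block TE: pushouts, homotopic maps, unions in a `WClass`
-/

open CategoryTheory MonoidalCategory Simplicial SSet HomotopicalAlgebra Opposite Limits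
open SSet.modelCategoryQuillen

namespace Pool.Agent.SH

namespace WcPush

variable {P : MorphismProperty SSet.{0}}

theorem pid (hP : WClass P) (X : SSet.{0}) : P (𝟙 X) := hP.iso _ inferInstance

theorem pι₀ (hP : WClass P) (X : SSet.{0}) : P (ι₀ : X ⟶ X ⊗ Δ[1]) := by
  refine hP.cancelR ι₀ (CartesianMonoidalCategory.fst X Δ[1]) (hP.proj X 1) ?_
  rw [ι₀_fst]
  exact pid hP X

theorem pι₁ (hP : WClass P) (X : SSet.{0}) : P (ι₁ : X ⟶ X ⊗ Δ[1]) := by
  refine hP.cancelR ι₁ (CartesianMonoidalCategory.fst X Δ[1]) (hP.proj X 1) ?_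
  rw [ι₁_fst]
  exact pid hP X

theorem hty (hP : WClass P) {X Y : SSet.{0}} {f g : X ⟶ Y} (h : Hty f g) : P f ↔ P g := by
  obtain ⟨H, h0, h1⟩ := (Hty_iff f g).1 h
  have e0 : P f ↔ P H := by
    rw [← h0]
    exact ⟨hP.cancelL _ _ (pι₀ hP X), hP.comp _ _ (pι₀ hP X)⟩
  have e1 : P g ↔ P H := by
    rw [← h1]
    exact ⟨hP.cancelL _ _ (pι₁ hP X), hP.comp _ _ (pι₁ hP X)⟩
  exact e0.trans e1.symm

theorem eqv (hP : WClass P) {X Y : SSet.{0}} {f g : X ⟶ Y}
    (h : Relation.EqvGen (Hty (A := X) (T := Y)) f g) : P f ↔ P g := by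
  induction h with
  | rel f g h => exact hty hP h
  | refl f => exact Iff.rfl
  | symm f g _ ih => exact ih.symm
  | trans f g h _ _ ih1 ih2 => exact ih1.trans ih2

theorem sq (X : SSet.{0}) (A B : X.Subcomplex) (h : A ⊔ B = ⊤) :
    IsPushout (Subcomplex.homOfLE (inf_le_left : A ⊓ B ≤ A))
      (Subcomplex.homOfLE (inf_le_right : A ⊓ B ≤ B)) A.ι B.ι := by
  have s : Subcomplex.BicartSq (A ⊓ B) A B ⊤ := { sup_eq := h, inf_eq := rfl }
  exact s.isPushout.of_iso (Iso.refl _) (Iso.refl _) (Iso.refl _) (Subcomplex.topIso X)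
    rfl rfl rfl rfl

end WcPush

open WcPush

theorem wc_push : WC_PUSH_Stmt := by
  intro P hP
  refine ⟨?_, ?_, ?_⟩
  · intro A B C D i f g j h hi hPi
    have s : IsPushout (𝟙 A) f f (𝟙 C) := IsPushout.of_horiz_isIso ⟨by simp⟩
    exact hP.glue (𝟙 A) f f (𝟙 C) i f g j (𝟙 A) i (𝟙 C) j s h inferInstance hi
      rfl (by simp) h.w.symm rfl (pid hP A) hPi (pid hP C)
  · intro A B C D i f g j h hi hPf
    have s : IsPushout i (𝟙 A) (𝟙 B) i := IsPushout.of_vert_isIso ⟨by simp⟩
    exact hP.glue i (𝟙 A) (𝟙 B) i i f g j (𝟙 A) (𝟙 B) f g s h hi hi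
      (by simp) rfl rfl h.w (pid hP A) (pid hP B) hPf
  · intro X Y f g h
    exact eqv hP h

theorem wc_heq : WC_HEQ_Stmt := by
  intro P hP X Y f g h1 h2
  have e1 : P (f ≫ g) := (eqv hP h1).2 (pid hP X)
  have e2 : P (g ≫ f) := (eqv hP h2).2 (pid hP Y)
  have e3 : P g := hP.six f g f e1 e2
  exact ⟨hP.cancelR f g e3 e1, e3⟩

theorem wc_union (h : WC_PUSH_Stmt) : WC_UNION_Stmt := by
  intro P hP X Y f A B A' B' hA hB hAB hAB' pA pB pI
  have _ := h
  have hI : A ⊓ B ≤ (A' ⊓ B').preimage f := le_inf (inf_le_left.trans hA) (inf_le_right.trans hB)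
  refine hP.glue _ _ _ _ _ _ _ _
    (Subcomplex.homOfLE hI ≫ (A' ⊓ B').fromPreimage f)
    (Subcomplex.homOfLE hA ≫ A'.fromPreimage f)
    (Subcomplex.homOfLE hB ≫ B'.fromPreimage f) f
    (sq X A B hAB) (sq Y A' B' hAB') inferInstance inferInstance rfl rfl rfl rfl
    (pI _ rfl) (pA _ rfl) (pB _ rfl)

end Pool.Agent.SH


end

section

/-!
# MP_2d0b73_an, block TE: all theorems without hypotheses
-/

open CategoryTheory MonoidalCategory Simplicial SSet HomotopicalAlgebra Opposite Limits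

namespace Pool.Agent.SH.TE

theorem hty : TE_HTY_Stmt := te_hty
theorem hep : TE_HEP_Stmt := te_hep
theorem bdry : TE_BDRY_Stmt := te_bdry
theorem triv : TE_TRIV_Stmt := te_triv hty hep
theorem keye : TE_KEYE_Stmt := te_keye hty
theorem key : TE_KEY_Stmt := te_key hty triv
theorem rpush : TE_RPUSH_Stmt := te_rpush
theorem rseq : TE_RSEQ_Stmt := te_rseq
theorem t23 : TE_23_Stmt := te_23 hty
theorem lpr : TE_LPR_Stmt := te_lpr hty hep t23 keye key rpush
theorem glue : TE_GLUE_Stmt := te_glue t23 keye key rpush lpr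
theorem seq : TE_SEQ_Stmt := te_seq hty t23 keye key rpush glue
theorem wt : TE_WT_Stmt := te_wt t23 glue seq
theorem push : WC_PUSH_Stmt := wc_push
theorem heq : WC_HEQ_Stmt := wc_heq
theorem union : WC_UNION_Stmt := wc_union push
theorem useq : WC_USEQ_Stmt := wc_useq
theorem skind : SK_IND_Stmt := sk_ind
theorem prod : WC_PROD_Stmt := wc_prod skind push
theorem pp : WC_PP_Stmt := wc_pp prod push union
theorem horn : WC_HORN_Stmt := wc_horn heq
theorem fib : WC_FIB_Stmt := wc_fib skind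
theorem acy : WC_ACY_Stmt := wc_acy prod
theorem cell : WC_CELL_Stmt := wc_cell push useq
theorem open' : WC_OPEN_Stmt := wc_open cell prod acy
theorem uacy : WC_UACY_Stmt := wc_uacy
theorem disc : WC_DISC_Stmt := wc_disc
theorem f2wc : F2_WC_Stmt := f2_wc
theorem f2 : TE_F2_Stmt := te_f2 f2wc pp horn keye wt
theorem moore : F2_MOORE_Stmt := f2_moore
theorem svch : SV_CH_Stmt := sv_ch
theorem svext : SV_EXT_Stmt := sv_ext svch
theorem svext' : SV_EXT'_Stmt := sv_ext' svext

theorem lt_iff_w (T : SSet.{0}) (hT : SSet.KanComplex T) {A B : SSet.{0}} (i : A ⟶ B) :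
    LT T i ↔ Mono i ∧ W T i := Pool.Agent.SH.lt_iff_w bdry keye key T hT i
theorem tacyclic_iff (T : SSet.{0}) (hT : SSet.KanComplex T) (X : SSet.{0}) :
    TAcyclic T X ↔ Nonempty (X _⦋0⦌) ∧ W T (CartesianMonoidalCategory.toUnit X) :=
  Pool.Agent.SH.tacyclic_iff bdry keye key t23 T hT X
theorem w_class (T : SSet.{0}) (hT : SSet.KanComplex T) : WClass (W T) := wt T hT

end Pool.Agent.SH.TE


end

section

/-!
# MP_2d0b73_an, Part III-N: quotients by free actions of finite groups (N9)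
-/

set_option autoImplicit false

open CategoryTheory MonoidalCategory CartesianMonoidalCategory Simplicial Opposite

namespace Pool.Agent.SH

namespace NFin

/-- The stabiliser of a coset of a `2`-subgroup is a `2`-group. -/
theorem stab_coset {G : Type} [Group G] (S : Subgroup G) (hS : IsPGroup 2 S) (x : G ⧸ S) :
    IsPGroup 2 (MulAction.stabilizer G x) := by
  obtain ⟨g, rfl⟩ := QuotientGroup.mk_surjective x
  have e : ((g : G) : G ⧸ S) = g • ((1 : G) : G ⧸ S) := by
    rw [MulAction.Quotient.smul_coe, smul_eq_mul, mul_one]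
  rw [e, MulAction.stabilizer_smul_eq_stabilizer_map_conj, MulAction.stabilizer_quotient]
  exact hS.map _

/-- The stabiliser of a sequence of cosets. -/
theorem stab_seq {G : Type} [Group G] (S : Subgroup G) (hS : IsPGroup 2 S)
    {n : SimplexCategoryᵒᵖ} (y : (EE (G ⧸ S)).obj n) :
    IsPGroup 2 ((EEact G (G ⧸ S)).stab y) := by
  let y' : Fin (n.unop.len + 1) → G ⧸ S := y
  refine (stab_coset S hS (y' 0)).to_le ?_
  intro g hg
  have h : (EEact G (G ⧸ S)).ap g y = y := hg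
  have h' : (fun i => g • y' i) = y' := h
  show g • y' 0 = y' 0
  exact congrFun h' 0

/-- Restrictions of free actions are free. -/
theorem restr_free {G : Type} [Group G] {W : SSet.{0}} (a : Act G W) (ha : a.Free)
    (H : Subgroup G) : (a.restr H).Free := by
  intro n x g hg
  have h : a.ap (g : G) x = x := hg
  exact Subtype.ext (ha n x (g : G) h)

/-- Invariance of the quotient map. -/
theorem inv_of_quo {G : Type} [Group G] {W V : SSet.{0}} (a : Act G W) (q : W ⟶ V)
    (hq : IsQuo a q) (g : G) : a.act g ≫ q = q := by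
  ext n x
  show q.app n (a.ap g x) = q.app n x
  exact ((hq.fib n x (a.ap g x)).2 ⟨g, rfl⟩).symm

/-- Acyclicity along a map of the class. -/
theorem acy_of_map {P : MorphismProperty SSet.{0}} (hP : WClass P) {X Y : SSet.{0}}
    (f : X ⟶ Y) (hf : P f) (hY : Acy P Y) : Acy P X := by
  have e : f ≫ toUnit Y = toUnit X := toUnit_unique _ _
  have h := hP.comp f (toUnit Y) hf hY
  rw [e] at h
  exact h

/-- Acyclicity of the target. -/
theorem acy_of_map' {P : MorphismProperty SSet.{0}} (hP : WClass P) {X Y : SSet.{0}}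
    (f : X ⟶ Y) (hf : P f) (hX : Acy P X) : Acy P Y := by
  have e : f ≫ toUnit Y = toUnit X := toUnit_unique _ _
  refine hP.cancelL f (toUnit Y) hf ?_
  rw [e]
  exact hX

end NFin

open NFin in
/-- Quotients by free actions of finite groups. -/
theorem n_fin (h1 : N_QEX_Stmt) (h2 : N_QDESC_Stmt) (h3 : N_EE_Stmt) (h4 : N_QPROJ_Stmt)
    (h5 : N_TWO_Stmt) (h6 : N_ORB_Stmt) (h7 : N_SYL_Stmt) : N_FIN_Stmt := by
  intro P hP hA hB G _ _ W V a q ha hq hW
  have hp : Fact (Nat.Prime 2) := ⟨Nat.prime_two⟩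
  obtain ⟨S⟩ : Nonempty (Sylow 2 G) := inferInstance
  have hodd : Odd (S : Subgroup G).index := by
    rw [← Nat.not_even_iff_odd, even_iff_two_dvd]
    exact S.not_dvd_index
  obtain ⟨E, e, he⟩ := h1 G (W ⊗ EE (G ⧸ (S : Subgroup G)))
    (a.prod (EEact G (G ⧸ (S : Subgroup G))))
  obtain ⟨B, r, hr⟩ := h1 G (EE (G ⧸ (S : Subgroup G))) (EEact G (G ⧸ (S : Subgroup G)))
  obtain ⟨p₁, hp₁⟩ := (h2 G _ E V _ e he).1 (fst W (EE (G ⧸ (S : Subgroup G))) ≫ q) (by
    intro g
    show (a.act g ⊗ₘ (EEact G (G ⧸ (S : Subgroup G))).act g) ≫ fst _ _ ≫ q = _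
    rw [← Category.assoc, tensorHom_fst, Category.assoc, inv_of_quo a q hq])
  obtain ⟨p₂, hp₂⟩ := (h2 G _ E B _ e he).1 (snd W (EE (G ⧸ (S : Subgroup G))) ≫ r) (by
    intro g
    show (a.act g ⊗ₘ (EEact G (G ⧸ (S : Subgroup G))).act g) ≫ snd _ _ ≫ r = _
    rw [← Category.assoc, tensorHom_snd, Category.assoc, inv_of_quo _ r hr])
  have hp₁P : P p₁ := (h4 P hP G W _ a _ E e he).1 V q p₁ ha hq hp₁
    (h3 P hP _ ⟨((1 : G) : G ⧸ (S : Subgroup G))⟩)
  have hp₂P : P p₂ := by
    refine h6 P hP G W _ a _ E B e r p₂ ha he hr hp₂ ?_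
    intro n y V' p hpq
    obtain ⟨k, hk⟩ := (IsPGroup.iff_card (p := 2)).1 (stab_seq (S : Subgroup G) S.2 y)
    exact h5 P hP hB _ k hk W V' _ p (restr_free a ha _) hpq hW
  have hBacy : Acy P B := hA B (h7 G (S : Subgroup G) hodd B r hr)
  exact acy_of_map' hP p₁ hp₁P (acy_of_map hP p₂ hp₂P hBacy)

end Pool.Agent.SH


end

section

/-!
# MP_2d0b73_an, Part III-N, module N_FMC: open fibres of the projections of `FM`
-/

set_option autoImplicit false

open CategoryTheory MonoidalCategory CartesianMonoidalCategory Simplicial Opposite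

namespace Pool.Agent.SH

namespace NFmc

variable {A : Type} [AddCommMonoid A] {A₀ : AddSubmonoid A} {X : SSet.{0}}

open scoped Classical in
theorem map_fn {Y W Z : X.Subcomplex} {n m : SimplexCategoryᵒᵖ} (θ : n ⟶ m)
    (f : (FM A A₀ Y W Z).obj n) : FM.fn ((FM A A₀ Y W Z).map θ f) =
      ((FM.fn f).mapDomain (X.map θ)).filter (fun x => x ∉ Z.obj m) := rfl

open scoped Classical in
theorem FMmap_fn {X' : SSet.{0}} (u : X ⟶ X') {Y W Z : X.Subcomplex}
    {Y' W' Z' : X'.Subcomplex} (hY : Y ≤ Y'.preimage u) (hW : W ≤ W'.preimage u)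
    (hZ : Z ≤ Z'.preimage u) {n : SimplexCategoryᵒᵖ} (f : (FM A A₀ Y W Z).obj n) :
    FM.fn ((FMmap A₀ u hY hW hZ).app n f) =
      ((FM.fn f).mapDomain (u.app n)).filter (fun x => x ∉ Z'.obj n) := rfl

theorem fn_inj {Y W Z : X.Subcomplex} {n : SimplexCategoryᵒᵖ} {f g : (FM A A₀ Y W Z).obj n}
    (h : FM.fn f = FM.fn g) : f = g := Subtype.ext h

/-- addition -/
noncomputable def addm (A₀ : AddSubmonoid A) (Y W Z : X.Subcomplex) :
    FM A A₀ Y W Z ⊗ FM A A₀ Y W Z ⟶ FM A A₀ Y W Z where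
  app n := TypeCat.ofHom (fun p => ⟨FM.fn p.1 + FM.fn p.2, by
    obtain ⟨⟨f, hf, hf'⟩, ⟨g, hg, hg'⟩⟩ := p
    refine ⟨fun x hx => ?_, fun x hx => ?_⟩
    · by_cases h : f x = 0
      · refine hg x fun h' => hx ?_
        show f x + g x = 0
        rw [h, h', add_zero]
      · exact hf x h
    · exact A₀.add_mem (hf' x hx) (hg' x hx)⟩)
  naturality n m θ := by
    classical
    refine ConcreteCategory.hom_ext _ _ fun p => Subtype.ext ?_
    show ((FM.fn p.1).mapDomain (X.map θ)).filter (fun x => x ∉ Z.obj m) +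
        ((FM.fn p.2).mapDomain (X.map θ)).filter (fun x => x ∉ Z.obj m) =
      ((FM.fn p.1 + FM.fn p.2).mapDomain (X.map θ)).filter (fun x => x ∉ Z.obj m)
    rw [Finsupp.mapDomain_add, Finsupp.filter_add]

theorem addm_fn {Y W Z : X.Subcomplex} {n : SimplexCategoryᵒᵖ}
    (f g : (FM A A₀ Y W Z).obj n) :
    FM.fn ((addm A₀ Y W Z).app n ((f, g) : (FM A A₀ Y W Z ⊗ FM A A₀ Y W Z).obj n)) =
      FM.fn f + FM.fn g := rfl

theorem epi_inj {m n : SimplexCategory} (a : m ⟶ n) (ha : Epi a) :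
    ∃ s : n ⟶ m, s ≫ a = 𝟙 n := by
  have : IsSplitEpi a := by
    have := ha
    exact isSplitEpi_of_epi a
  exact ⟨section_ a, IsSplitEpi.id a⟩

theorem map_inj {m n : SimplexCategory} (a : m ⟶ n) (s : n ⟶ m) (hs : s ≫ a = 𝟙 n) :
    ∀ x : X.obj (op n), X.map s.op (X.map a.op x) = x := by
  intro x
  have : X.map a.op ≫ X.map s.op = 𝟙 _ := by
    rw [← X.map_comp, ← op_comp, hs, op_id, X.map_id]
  exact ConcreteCategory.congr_hom this x

theorem mem_iff (Z : X.Subcomplex) {m n : SimplexCategory} (a : m ⟶ n) (s : n ⟶ m)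
    (hs : s ≫ a = 𝟙 n) (x : X.obj (op n)) :
    X.map a.op x ∈ Z.obj (op m) ↔ x ∈ Z.obj (op n) := by
  constructor
  · intro h
    have h2 : X.map s.op (X.map a.op x) ∈ Z.obj (op n) := Z.map s.op h
    rwa [map_inj a s hs] at h2
  · intro h
    exact Z.map a.op h

end NFmc

open NFmc

theorem n_fmc (h : WC_OPEN_Stmt) : N_FMC_Stmt := by
  intro P hP A _ A₀ X Y W Z Z' hZ hF
  refine h P hP _ _ _ ?_
  intro n b _
  classical
  -- the simplex over `b`
  have hb : ∀ x, FM.fn b x ≠ 0 → x ∈ W.obj _ ∧ x ∉ Z.obj _ := fun x hx =>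
    ⟨(b.2.1 x hx).1, fun h' => (b.2.1 x hx).2 (hZ _ h')⟩
  let c : (FM A A₀ Y W Z).obj (op ⦋n⦌) := ⟨FM.fn b, hb, b.2.2⟩
  have hc : FM.fn c = FM.fn b := rfl
  let i : FM A A₀ Y (W ⊓ Z') Z ⟶ FM A A₀ Y W Z :=
    FMmap A₀ (𝟙 X) (le_refl Y) (inf_le_left : W ⊓ Z' ≤ W) (le_refl Z)
  have hi : ∀ (m : SimplexCategoryᵒᵖ) (z : (FM A A₀ Y (W ⊓ Z') Z).obj m),
      FM.fn (i.app m z) = FM.fn z := by
    intro m z
    show ((FM.fn z).mapDomain (id : X.obj m → X.obj m)).filter (fun x => x ∉ Z.obj m) = FM.fn z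
    rw [Finsupp.mapDomain_id, Finsupp.filter_eq_self_iff]
    exact fun x hx => (z.2.1 x hx).2
  have hp : ∀ (m : SimplexCategoryᵒᵖ) (e : (FM A A₀ Y W Z).obj m),
      FM.fn ((FMmap A₀ (𝟙 X) (le_refl Y) (le_refl W) hZ :
        FM A A₀ Y W Z ⟶ FM A A₀ Y W Z').app m e) = (FM.fn e).filter (fun x => x ∉ Z'.obj m) := by
    intro m e
    show ((FM.fn e).mapDomain (id : X.obj m → X.obj m)).filter (fun x => x ∉ Z'.obj m) = _
    rw [Finsupp.mapDomain_id]
  have hpc : (FMmap A₀ (𝟙 X) (le_refl Y) (le_refl W) hZ :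
      FM A A₀ Y W Z ⟶ FM A A₀ Y W Z').app _ c = b := by
    apply fn_inj
    rw [hp, hc, Finsupp.filter_eq_self_iff]
    exact fun x hx => (b.2.1 x hx).2
  refine ⟨FM A A₀ Y (W ⊓ Z') Z, (i ⊗ₘ SSet.yonedaEquiv.symm c) ≫ addm A₀ Y W Z, hF, ?_, ?_⟩
  · ext m p
    apply fn_inj
    obtain ⟨z, β⟩ := p
    show FM.fn ((FMmap A₀ (𝟙 X) (le_refl Y) (le_refl W) hZ :
      FM A A₀ Y W Z ⟶ FM A A₀ Y W Z').app m ((addm A₀ Y W Z).app m
        ((i.app m z, (SSet.yonedaEquiv.symm c).app m β) :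
          (FM A A₀ Y W Z ⊗ FM A A₀ Y W Z).obj m))) =
      FM.fn ((SSet.yonedaEquiv.symm b).app m β)
    rw [hp, addm_fn, Finsupp.filter_add, hi]
    have e1 : (FM.fn z).filter (fun x => x ∉ Z'.obj m) = 0 := by
      rw [Finsupp.filter_eq_zero_iff]
      intro x hx
      by_contra h0
      exact hx (z.2.1 x h0).1.2
    rw [e1, zero_add, ← hp]
    congr 1
    rw [← hpc, ← SSet.yonedaEquiv_symm_comp]
    rfl
  · intro m a ha e he
    obtain ⟨s, hs⟩ := epi_inj a ha
    have hinj : Function.Injective (X.map a.op) :=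
      Function.LeftInverse.injective (map_inj (X := X) a s hs)
    -- the simplex over `b` pulled back
    have hac : FM.fn ((FM A A₀ Y W Z).map a.op c) = (FM.fn e).filter (fun x => x ∉ Z'.obj (op ⦋m⦌)) := by
      have h1 : FM.fn ((FM A A₀ Y W Z').map a.op b) =
          (FM.fn e).filter (fun x => x ∉ Z'.obj (op ⦋m⦌)) := by
        rw [← hp]
        exact congrArg FM.fn he.symm
      rw [← h1, map_fn, map_fn, hc]
      ext x
      rw [Finsupp.filter_apply, Finsupp.filter_apply]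
      by_cases hx : (FM.fn b).mapDomain (X.map a.op) x = 0
      · rw [hx]
        simp
      · obtain ⟨y, hy, rfl⟩ := FM_supp a.op _ _ hx
        rw [if_pos, if_pos]
        · rw [mem_iff Z' a s hs]
          exact (b.2.1 y hy).2
        · rw [mem_iff Z a s hs]
          exact (hb y hy).2
    have hval : ∀ z : (FM A A₀ Y (W ⊓ Z') Z).obj (op ⦋m⦌),
        FM.fn (((i ⊗ₘ SSet.yonedaEquiv.symm c) ≫ addm A₀ Y W Z).app (op ⦋m⦌)
          ((z, SSet.stdSimplex.objEquiv.symm a) :
            (FM A A₀ Y (W ⊓ Z') Z ⊗ Δ[n]).obj (op ⦋m⦌))) =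
        FM.fn z + (FM.fn e).filter (fun x => x ∉ Z'.obj (op ⦋m⦌)) := by
      intro z
      rw [← hac]
      show FM.fn (i.app _ z) + FM.fn ((SSet.yonedaEquiv.symm c).app (op ⦋m⦌)
        (SSet.stdSimplex.objEquiv.symm a)) = _
      rw [hi]
      rfl
    refine ⟨⟨(FM.fn e).filter (fun x => x ∈ Z'.obj (op ⦋m⦌)), ?_, ?_⟩, ?_, ?_⟩
    · intro x hx
      rw [Finsupp.filter_apply] at hx
      by_cases h' : x ∈ Z'.obj (op ⦋m⦌)
      · rw [if_pos h'] at hx
        exact ⟨⟨(e.2.1 x hx).1, h'⟩, (e.2.1 x hx).2⟩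
      · rw [if_neg h'] at hx
        exact absurd rfl hx
    · intro x hx
      rw [Finsupp.filter_apply]
      split_ifs
      · exact e.2.2 x hx
      · exact A₀.zero_mem
    · apply fn_inj
      refine (hval _).trans ?_
      exact Finsupp.filter_add_filter_not (FM.fn e) (fun x => x ∈ Z'.obj (op ⦋m⦌))
    · intro z hz
      apply fn_inj
      have h2 := hval z
      rw [hz] at h2
      show FM.fn z = (FM.fn e).filter (fun x => x ∈ Z'.obj (op ⦋m⦌))
      conv_rhs => rw [h2]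
      rw [Finsupp.filter_add]
      have e1 : (FM.fn z).filter (fun x => x ∈ Z'.obj (op ⦋m⦌)) = FM.fn z := by
        rw [Finsupp.filter_eq_self_iff]
        exact fun x hx => (z.2.1 x hx).1.2
      have e2 : ((FM.fn e).filter (fun x => x ∉ Z'.obj (op ⦋m⦌))).filter
          (fun x => x ∈ Z'.obj (op ⦋m⦌)) = 0 := by
        rw [Finsupp.filter_eq_zero_iff]
        intro x hx
        rw [Finsupp.filter_apply, if_neg (not_not.2 hx)]
      rw [e1, e2, add_zero]

end Pool.Agent.SH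


end

section

/-!
# MP_2d0b73_an, Part III-N: contractible pairs of posets (F7)
-/

set_option autoImplicit false

open CategoryTheory MonoidalCategory CartesianMonoidalCategory Simplicial Opposite

namespace Pool.Agent.SH

namespace NPctr

theorem acy_iso {P : MorphismProperty SSet.{0}} (hP : WClass P) {X X' : SSet.{0}} (e : X ≅ X')
    (h : Acy P X) : Acy P X' := by
  have h1 : e.inv ≫ toUnit X = toUnit X' := toUnit_unique _ _
  rw [Acy, ← h1]
  exact hP.comp _ _ (hP.iso _ inferInstance) h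

/-- The inclusion of a part of a poset. -/
def inc {S : Type} [PartialOrder S] (U : Set S) : U →o S where
  toFun x := x.1
  monotone' _ _ h := h

theorem mono_inc {S : Type} [PartialOrder S] (U : Set S) : Mono (NOmap (inc U)) := by
  have : ∀ n, Mono ((NOmap (inc U)).app n) := by
    intro n
    rw [CategoryTheory.mono_iff_injective]
    intro x y h
    apply OrderHom.ext
    funext k
    apply Subtype.ext
    have h' : (inc U).comp x = (inc U).comp y := h
    exact congrArg (fun z : Fin (n.unop.len + 1) →o S => z k) h'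
  exact NatTrans.mono_of_mono_app _

theorem range_inc {S : Type} [PartialOrder S] (U : Set S) :
    SSet.Subcomplex.range (NOmap (inc U)) = NOs U := by
  ext n x
  constructor
  · rintro ⟨y, rfl⟩ k
    exact (DFunLike.coe (F := Fin (n.unop.len + 1) →o U) y k).2
  · intro hx
    exact ⟨(⟨fun k => ⟨DFunLike.coe (F := Fin (n.unop.len + 1) →o S) x k, hx k⟩,
      fun a b h => OrderHom.monotone (α := Fin (n.unop.len + 1)) (β := S) x h⟩ :
      Fin (n.unop.len + 1) →o U), rfl⟩

theorem step (h3 : N_NOH_Stmt) {S : Type} [PartialOrder S] (U E : Set S)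
    (Y : (NO S).Subcomplex) (hY : Y = ⊥ ∨ Y = ⊤) (g g' : U →o U) (hle : g ≤ g')
    (hE : ∀ x : U, (x : S) ∈ E → ((g x : U) : S) ∈ E ∧ ((g' x : U) : S) ∈ E) :
    PHty (Y.preimage (NOmap (inc U))) ((NOs E).preimage (NOmap (inc U))) (NOmap g)
      (NOmap g') := by
  obtain ⟨h, h0, h1, hv⟩ := h3 U U g g' hle
  refine ⟨h, h0, h1, fun n x t => ⟨fun hx => ?_, fun hx k => ?_⟩⟩
  · rcases hY with rfl | rfl
    · exact absurd hx (fun h => h)
    · trivial
  · have hxk : ((DFunLike.coe (F := Fin (n.unop.len + 1) →o U) x k : U) : S) ∈ E := hx k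
    have hy := hv n x t (h.app n (x, t)) rfl k
    show ((DFunLike.coe (F := Fin (n.unop.len + 1) →o U) (h.app n (x, t)) k : U) : S) ∈ E
    rcases hy with hy | hy
    · rw [hy]
      exact (hE _ hxk).1
    · rw [hy]
      exact (hE _ hxk).2

end NPctr

/-- (F7) contractible pairs of posets. -/
theorem n_pctr (h1 : N_CTR_Stmt) (h2 : N_RES_Stmt) (h3 : N_NOH_Stmt) : N_PCTR_Stmt := by
  intro P hP A _ A₀ S _ U E f hf hfE Y hY
  have hmono := NPctr.mono_inc U
  obtain ⟨e⟩ := h2 A A₀ (NO S) (NO U) (NOmap (NPctr.inc U)) Y (NOs E) hmono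
  rw [NPctr.range_inc] at e
  refine NPctr.acy_iso hP e ?_
  have key : ∀ a b : U →o U, Relation.EqvGen (fun g g' : U →o U => g ≤ g' ∧
      ∀ x : U, (x : S) ∈ E → ((g x : U) : S) ∈ E ∧ ((g' x : U) : S) ∈ E) a b →
      Relation.EqvGen (PHty (Y.preimage (NOmap (NPctr.inc U)))
        ((NOs E).preimage (NOmap (NPctr.inc U)))) (NOmap a) (NOmap b) := by
    intro a b h
    induction h with
    | rel a b h => exact .rel _ _ (NPctr.step h3 U E Y hY a b h.1 h.2)
    | refl a => exact .refl _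
    | symm a b _ ih => exact .symm _ _ ih
    | trans a b c _ _ ih1 ih2 => exact .trans _ _ _ ih1 ih2
  refine h1 P hP A A₀ (NO U) _ _ (NOmap f) (key _ _ hf) ?_
  rintro n _ ⟨x, rfl⟩ k
  exact hfE (DFunLike.coe (F := Fin (n.unop.len + 1) →o U) x k)

end Pool.Agent.SH


end

section

/-!
# MP_2d0b73_an, Part III-N: `N_MAIN` without hypotheses
-/

set_option autoImplicit false

namespace Pool.Agent.SH

theorem wc_open_all : WC_OPEN_Stmt :=
  wc_open (wc_cell wc_push wc_useq) (wc_prod sk_ind wc_push) (wc_acy (wc_prod sk_ind wc_push))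

theorem n_two_all : N_TWO_Stmt :=
  n_two n_qex n_qdesc (n_inv n_qex n_qdesc (n_ee wc_heq) (n_qproj wc_open_all))

theorem n_fin_all : N_FIN_Stmt :=
  n_fin n_qex n_qdesc (n_ee wc_heq) (n_qproj wc_open_all) n_two_all
    (n_orb wc_open_all n_qex n_qdesc) n_syl

theorem n_pctr_all : N_PCTR_Stmt := n_pctr (n_ctr wc_heq) n_res n_noh

theorem n_nn_all : N_NN_Stmt :=
  n_nn n_coef (n_fmc wc_open_all) (n_fmd wc_open_all) n_exc
    (n_cone n_pctr_all (n_fmc wc_open_all)) (n_qy n_ud)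
    (n_dy (n_fmc wc_open_all) n_exc n_pctr_all
      (n_bd wc_uacy n_two_all (n_ee wc_heq) n_bdq))

/-- Part III-N, complete. -/
theorem n_main_all : N_MAIN_Stmt :=
  n_main wc_open_all wc_heq wc_uacy f2_moore n_fin_all n_nn_all

end Pool.Agent.SH


end

section

/-!
# MP_2d0b73_an, block III-T, module TT_REP: maps into `Tot D` and into loop spaces are families
-/

open CategoryTheory Simplicial SSet Opposite MonoidalCategory

noncomputable section

namespace Pool.Agent.SH.TT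

namespace REP

theorem map_comp_apply' (Z : SSet.{0}) {k l m : Dop} (σ : k ⟶ l) (τ : l ⟶ m) (z : Z.obj k) :
    Z.map (σ ≫ τ) z = Z.map τ (Z.map σ z) := by simp

theorem map_id_apply' (Z : SSet.{0}) {k : Dop} (z : Z.obj k) : Z.map (𝟙 k) z = z := by simp

end REP

open REP

/-! ### `Tot` -/

theorem Tot.map_f {D : CoV} {q r : Dop} (β : q ⟶ r) (x : (Tot D).obj q) (s : ℕ) (k : Dop)
    (z : r ⟶ k) (t : bx s ⟶ k) :
    ((Tot D).map β x : TotS D r).f s k z t = (x : TotS D q).f s k (β ≫ z) t := rfl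

theorem Om.map_f {Y : SSet.{0}} {b : Base Y} {q r : Dop} (β : q ⟶ r) (x : (Om Y b).obj q)
    (k : Dop) (z : r ⟶ k) (e : bx 1 ⟶ k) :
    ((Om Y b).map β x : OmS Y b r).f k z e = (x : OmS Y b q).f k (β ≫ z) e := rfl

theorem Fam.toHom_f {D : CoV} {Z : SSet.{0}} (F : Fam D Z) (q : Dop) (z : Z.obj q) (s : ℕ)
    (k : Dop) (σ : q ⟶ k) (t : bx s ⟶ k) :
    ((F.toHom).app q z : TotS D q).f s k σ t = F.f s k (Z.map σ z) t := rfl

theorem Fam.ofHom_f {D : CoV} {Z : SSet.{0}} (φ : Z ⟶ Tot D) (s : ℕ) (k : Dop) (z : Z.obj k)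
    (t : bx s ⟶ k) :
    (Fam.ofHom φ).f s k z t = (φ.app k z : TotS D k).f s k (𝟙 k) t := rfl

theorem Fam.ofHom_comp {D : CoV} {Z Z' : SSet.{0}} (g : Z' ⟶ Z) (φ : Z ⟶ Tot D) (s : ℕ)
    (k : Dop) (z : Z'.obj k) (t : bx s ⟶ k) :
    (Fam.ofHom (g ≫ φ)).f s k z t = (Fam.ofHom φ).f s k (g.app k z) t := rfl

/-- The values of a map to `Tot D` are determined by its family. -/
theorem Fam.app_f {D : CoV} {Z : SSet.{0}} (φ : Z ⟶ Tot D) (q : Dop) (z : Z.obj q) (s : ℕ)
    (k : Dop) (σ : q ⟶ k) (t : bx s ⟶ k) :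
    (φ.app q z : TotS D q).f s k σ t = (Fam.ofHom φ).f s k (Z.map σ z) t := by
  have h : (φ.app k (Z.map σ z) : TotS D k) = (Tot D).map σ (φ.app q z) :=
    NatTrans.naturality_apply φ σ z
  rw [Fam.ofHom_f, h, Tot.map_f, Category.comp_id]

theorem Fam.hom_ext {D : CoV} {Z : SSet.{0}} {φ ψ : Z ⟶ Tot D}
    (h : (Fam.ofHom φ).f = (Fam.ofHom ψ).f) : φ = ψ := by
  ext q z
  apply TotS.ext
  funext s k σ t
  have e1 := Fam.app_f φ q z s k σ t
  rw [h] at e1
  exact e1.trans (Fam.app_f ψ q z s k σ t).symm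

theorem Fam.hom_ext_iff {D : CoV} {Z : SSet.{0}} (φ ψ : Z ⟶ Tot D) :
    φ = ψ ↔ (Fam.ofHom φ).f = (Fam.ofHom ψ).f :=
  ⟨fun h => by rw [h], Fam.hom_ext⟩

theorem Fam.ofHom_toHom {D : CoV} {Z : SSet.{0}} (F : Fam D Z) : Fam.ofHom F.toHom = F := by
  apply Fam.ext
  funext s k z t
  rw [Fam.ofHom_f, Fam.toHom_f, map_id_apply']

theorem Fam.toHom_ofHom {D : CoV} {Z : SSet.{0}} (φ : Z ⟶ Tot D) : (Fam.ofHom φ).toHom = φ := by
  apply Fam.hom_ext
  rw [Fam.ofHom_toHom]

theorem Fam.ofHom_const {D : CoV} {Z : SSet.{0}} (φ : Z ⟶ Tot D) :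
    (Fam.ofHom φ).f = (fun _ _ _ _ => 0) ↔ ∀ (q : Dop) (z : Z.obj q), φ.app q z = Tot.zero D q := by
  constructor
  · intro h q z
    apply TotS.ext
    funext s k σ t
    rw [Fam.app_f, h]
    rfl
  · intro h
    funext s k z t
    rw [Fam.ofHom_f, h]
    rfl

/-! ### Loop spaces -/

theorem FamL.toHom_f {Y : SSet.{0}} {b : Base Y} {Z : SSet.{0}} (F : FamL Y b Z) (q : Dop)
    (z : Z.obj q) (k : Dop) (σ : q ⟶ k) (e : bx 1 ⟶ k) :
    ((F.toHom).app q z : OmS Y b q).f k σ e = F.f k (Z.map σ z) e := rfl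

theorem FamL.ofHom_f {Y : SSet.{0}} {b : Base Y} {Z : SSet.{0}} (φ : Z ⟶ Om Y b) (k : Dop)
    (z : Z.obj k) (e : bx 1 ⟶ k) :
    (FamL.ofHom φ).f k z e = (φ.app k z : OmS Y b k).f k (𝟙 k) e := rfl

theorem FamL.ofHom_comp {Y : SSet.{0}} {b : Base Y} {Z Z' : SSet.{0}} (g : Z' ⟶ Z)
    (φ : Z ⟶ Om Y b) (k : Dop) (z : Z'.obj k) (e : bx 1 ⟶ k) :
    (FamL.ofHom (g ≫ φ)).f k z e = (FamL.ofHom φ).f k (g.app k z) e := rfl

/-- The values of a map to a loop space are determined by its family. -/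
theorem FamL.app_f {Y : SSet.{0}} {b : Base Y} {Z : SSet.{0}} (φ : Z ⟶ Om Y b) (q : Dop)
    (z : Z.obj q) (k : Dop) (σ : q ⟶ k) (e : bx 1 ⟶ k) :
    (φ.app q z : OmS Y b q).f k σ e = (FamL.ofHom φ).f k (Z.map σ z) e := by
  have h : (φ.app k (Z.map σ z) : OmS Y b k) = (Om Y b).map σ (φ.app q z) :=
    NatTrans.naturality_apply φ σ z
  rw [FamL.ofHom_f, h, Om.map_f, Category.comp_id]

theorem FamL.hom_ext {Y : SSet.{0}} {b : Base Y} {Z : SSet.{0}} {φ ψ : Z ⟶ Om Y b}
    (h : (FamL.ofHom φ).f = (FamL.ofHom ψ).f) : φ = ψ := by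
  ext q z
  apply OmS.ext
  funext k σ e
  have e1 := FamL.app_f φ q z k σ e
  rw [h] at e1
  exact e1.trans (FamL.app_f ψ q z k σ e).symm

theorem FamL.hom_ext_iff {Y : SSet.{0}} {b : Base Y} {Z : SSet.{0}} (φ ψ : Z ⟶ Om Y b) :
    φ = ψ ↔ (FamL.ofHom φ).f = (FamL.ofHom ψ).f :=
  ⟨fun h => by rw [h], FamL.hom_ext⟩

theorem FamL.ofHom_toHom {Y : SSet.{0}} {b : Base Y} {Z : SSet.{0}} (F : FamL Y b Z) :
    FamL.ofHom F.toHom = F := by
  apply FamL.ext
  funext k z e
  rw [FamL.ofHom_f, FamL.toHom_f, map_id_apply']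

theorem FamL.toHom_ofHom {Y : SSet.{0}} {b : Base Y} {Z : SSet.{0}} (φ : Z ⟶ Om Y b) :
    (FamL.ofHom φ).toHom = φ := by
  apply FamL.hom_ext
  rw [FamL.ofHom_toHom]

theorem tt_rep : Stmt_REP :=
  ⟨fun _ _ F => Fam.ofHom_toHom F, fun _ _ φ => Fam.toHom_ofHom φ,
    fun _ _ _ F => FamL.ofHom_toHom F, fun _ _ _ φ => FamL.toHom_ofHom φ⟩

end Pool.Agent.SH.TT

end

end

section

/-!
# MP_2d0b73_an, block III-T, TOTX: the extension property of `Tot D`
-/

open CategoryTheory Simplicial SSet Opposite MonoidalCategory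

noncomputable section

namespace Pool.Agent.SH.TT

namespace TOTX

theorem bdy_comp {n : ℕ} {k l : Dop} {e : bx n ⟶ k} (h : Bdy e) (α : k ⟶ l) : Bdy (e ≫ α) := by
  intro hs
  apply h
  intro i
  obtain ⟨j, hj⟩ := hs i
  exact ⟨α.unop.toOrderHom j, hj⟩

/-- The simplex as a simplicial set without universe lifts. -/
def Ls (s : ℕ) : SSet.{0} where
  obj k := (bx s ⟶ k)
  map {k l} α := TypeCat.ofHom (fun t => t ≫ α)
  map_id k := by
    ext x
    simp
  map_comp α β := by
    ext x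
    simp

/-- Its boundary. -/
def Ks (s : ℕ) : (Ls s).Subcomplex where
  obj k := Set.ofPred (fun t : bx s ⟶ k => Bdy t)
  map {k l} α := by
    rintro x h
    exact bdy_comp h α

theorem exists_face {s : ℕ} {k : Dop} {t : bx (s + 1) ⟶ k} (h : Bdy t) :
    ∃ (i : Fin (s + 2)) (t' : bx s ⟶ k), dop i ≫ t' = t := by
  obtain ⟨i, θ, hθ⟩ := SimplexCategory.eq_comp_δ_of_not_surjective t.unop h
  refine ⟨i, θ.op, ?_⟩
  apply Quiver.Hom.unop_inj
  exact hθ.symm

theorem bdy_face {s : ℕ} {k : Dop} (i : Fin (s + 2)) (t' : bx s ⟶ k) : Bdy (dop i ≫ t') := by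
  intro hs
  obtain ⟨j, hj⟩ := hs i
  exact Fin.succAbove_ne i _ hj

theorem not_bdy_zero {k : Dop} (t : bx 0 ⟶ k) : ¬ Bdy t := by
  intro h
  apply h
  intro i
  exact ⟨0, Subsingleton.elim (α := Fin 1) _ _⟩

theorem face_inj {s : ℕ} {k : Dop} (i : Fin (s + 2)) {t t' : bx s ⟶ k}
    (h : dop i ≫ t = dop i ≫ t') : t = t' := by
  apply Quiver.Hom.unop_inj
  have h1 : t.unop ≫ SimplexCategory.δ i = t'.unop ≫ SimplexCategory.δ i :=
    congrArg Quiver.Hom.unop h
  exact (cancel_mono (SimplexCategory.δ i)).1 h1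

/-- Two faces of a simplex meet in a face. -/
theorem face_face {s : ℕ} {k : Dop} (i j : Fin (s + 2)) (hij : i ≤ j) {t t' : bx (s + 1) ⟶ k}
    (h : dop i.castSucc ≫ t = dop j.succ ≫ t') :
    ∃ t'' : bx s ⟶ k, t = dop j ≫ t'' ∧ t' = dop i ≫ t'' := by
  have h1 : t.unop ≫ SimplexCategory.δ i.castSucc = t'.unop ≫ SimplexCategory.δ j.succ :=
    congrArg Quiver.Hom.unop h
  have h2 : ∀ x, t.unop.toOrderHom x ≠ j := by
    intro x hx
    have h3 := congrArg (fun f => SimplexCategory.Hom.toOrderHom f x) h1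
    have h4 : Fin.succAbove i.castSucc (t.unop.toOrderHom x) =
        Fin.succAbove j.succ (t'.unop.toOrderHom x) := h3
    rw [hx, Fin.succAbove_of_le_castSucc i.castSucc j (Fin.castSucc_le_castSucc_iff.2 hij)] at h4
    exact Fin.succAbove_ne j.succ _ h4.symm
  obtain ⟨θ, hθ⟩ := SimplexCategory.eq_comp_δ_of_not_surjective' t.unop j h2
  refine ⟨θ.op, ?_, ?_⟩
  · apply Quiver.Hom.unop_inj
    exact hθ
  · apply Quiver.Hom.unop_inj
    show t'.unop = θ ≫ SimplexCategory.δ i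
    rw [← cancel_mono (SimplexCategory.δ j.succ), ← h1, hθ, Category.assoc, Category.assoc,
      SimplexCategory.δ_comp_δ hij]

variable {D : CoV} {B : SSet.{0}}

/-- Independence of the choice of the face. -/
def Ind (D : CoV) (B : SSet.{0}) (s : ℕ) (f : ∀ k : Dop, B.obj k → (bx s ⟶ k) → (D.V s).obj k) :
    Prop :=
  ∀ (i j : Fin (s + 2)) (k : Dop) (b : B.obj k) (t t' : bx s ⟶ k),
    dop i ≫ t = dop j ≫ t' → D.cof s i k (f k b t) = D.cof s j k (f k b t')

theorem ind_zero (f : ∀ k : Dop, B.obj k → (bx 0 ⟶ k) → (D.V 0).obj k) : Ind D B 0 f := by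
  have key : ∀ (k : Dop) (t t' : bx 0 ⟶ k), dop (0 : Fin 2) ≫ t ≠ dop (1 : Fin 2) ≫ t' := by
    intro k t t' h
    have h1 : t.unop ≫ SimplexCategory.δ 0 = t'.unop ≫ SimplexCategory.δ 1 :=
      congrArg Quiver.Hom.unop h
    have h3 := congrArg (fun f => SimplexCategory.Hom.toOrderHom f 0) h1
    have h4 : Fin.succAbove (0 : Fin 2) (t.unop.toOrderHom 0) =
        Fin.succAbove (1 : Fin 2) (t'.unop.toOrderHom 0) := h3
    have h5 : ∀ a b : Fin 1, Fin.succAbove (0 : Fin 2) a ≠ Fin.succAbove (1 : Fin 2) b := by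
      decide
    exact h5 _ _ h4
  intro i j k b t t' h
  have hij : ∀ i j : Fin 2, i = j ∨ (i = 0 ∧ j = 1) ∨ (i = 1 ∧ j = 0) := by decide
  rcases hij i j with rfl | ⟨rfl, rfl⟩ | ⟨rfl, rfl⟩
  · rw [face_inj i h]
  · exact absurd h (key k t t')
  · exact absurd h.symm (key k t' t)

theorem ind_succ {s : ℕ} (f : ∀ k : Dop, B.obj k → (bx s ⟶ k) → (D.V s).obj k)
    (g : ∀ k : Dop, B.obj k → (bx (s + 1) ⟶ k) → (D.V (s + 1)).obj k)
    (hfg : ∀ (i : Fin (s + 2)) (k : Dop) (b : B.obj k) (t : bx s ⟶ k),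
      g k b (dop i ≫ t) = D.cof s i k (f k b t)) : Ind D B (s + 1) g := by
  have key : ∀ (i j : Fin (s + 2)) (_ : i ≤ j) (k : Dop) (b : B.obj k) (t t' : bx (s + 1) ⟶ k),
      dop i.castSucc ≫ t = dop j.succ ≫ t' →
      D.cof (s + 1) i.castSucc k (g k b t) = D.cof (s + 1) j.succ k (g k b t') := by
    intro i j hij k b t t' h
    obtain ⟨t'', rfl, rfl⟩ := face_face i j hij h
    rw [hfg, hfg, D.cof_cof s i j hij]
  intro i j k b t t' h
  rcases lt_trichotomy i j with hij | hij | hij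
  · obtain ⟨j', rfl⟩ := Fin.exists_succ_eq.2 (Fin.ne_zero_of_lt hij)
    have hi : i ≠ Fin.last (s + 2) := fun hi => absurd hij (by
      rw [hi]
      exact not_lt.2 (Fin.le_last _))
    obtain ⟨i', rfl⟩ := Fin.exists_castSucc_eq.2 hi
    exact key i' j' (by
      rw [Fin.le_def]
      have : i'.1 < j'.1 + 1 := hij
      omega) k b t t' h
  · subst hij
    rw [face_inj i h]
  · obtain ⟨i', rfl⟩ := Fin.exists_succ_eq.2 (Fin.ne_zero_of_lt hij)
    have hj : j ≠ Fin.last (s + 2) := fun hj => absurd hij (by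
      rw [hj]
      exact not_lt.2 (Fin.le_last _))
    obtain ⟨j', rfl⟩ := Fin.exists_castSucc_eq.2 hj
    exact (key j' i' (by
      rw [Fin.le_def]
      have : j'.1 < i'.1 + 1 := hij
      omega) k b t' t h.symm).symm

/-- An element of the subcomplex. -/
def inA (A : B.Subcomplex) {k : Dop} (b : B.obj k) (h : b ∈ A.obj k) : (A : SSet.{0}).obj k :=
  ⟨b, h⟩

/-- A natural function of level `s`, extending the given one over `A`. -/
structure St (D : CoV) (B : SSet.{0}) (A : B.Subcomplex) (U : Fam D (A : SSet.{0})) (s : ℕ) where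
  /-- the function -/
  f : ∀ k : Dop, B.obj k → (bx s ⟶ k) → (D.V s).obj k
  nat : ∀ {k l : Dop} (α : k ⟶ l) (b : B.obj k) (t : bx s ⟶ k),
    f l (B.map α b) (t ≫ α) = (D.V s).map α (f k b t)
  ext : ∀ (k : Dop) (b : B.obj k) (h : b ∈ A.obj k) (t : bx s ⟶ k),
    f k b t = U.f s k (inA A b h) t
  ind : Ind D B s f

variable {A : B.Subcomplex} (U : Fam D (A : SSet.{0}))

theorem U_nat (s : ℕ) {k l : Dop} (α : k ⟶ l) (b : B.obj k) (h : b ∈ A.obj k) (t : bx s ⟶ k) :
    U.f s l (inA A (B.map α b) (A.map α h)) (t ≫ α) = (D.V s).map α (U.f s k (inA A b h) t) :=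
  U.nat s α (inA A b h) t

open Classical in
theorem st_zero (hSE : Stmt_SE) (hPP : Stmt_PP) (hSV : Stmt_SV1) (hA : F2Iso A.ι) :
    Nonempty (St D B A U 0) := by
  obtain ⟨w, hw, hw'⟩ := hSE hPP hSV B (Ls 0) A (Ks 0) (D.V 0) hA
    (fun k b x => if h : b ∈ A.obj k then U.f 0 k (inA A b h) x else 0) (by
      intro k l α b x hbx
      rcases hbx with hb | hx
      · have hb' : B.map α b ∈ A.obj l := A.map α hb
        show (if h : B.map α b ∈ A.obj l then U.f 0 l (inA A (B.map α b) h) (x ≫ α) else 0) =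
          (D.V 0).map α (if h : b ∈ A.obj k then U.f 0 k (inA A b h) x else 0)
        rw [dif_pos hb', dif_pos hb]
        exact U_nat U 0 α b hb x
      · exact absurd hx (not_bdy_zero x))
  refine ⟨⟨w, fun α b t => hw α b t, fun k b h t => ?_, ind_zero w⟩⟩
  rw [hw' k b t (Or.inl h), dif_pos h]

open Classical in
/-- The prescribed function of level `s + 1`. -/
def pres {s : ℕ} (S : St D B A U s) (k : Dop) (b : B.obj k) (x : bx (s + 1) ⟶ k) :
    (D.V (s + 1)).obj k :=
  if h : b ∈ A.obj k then U.f (s + 1) k (inA A b h) x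
  else if hx : Bdy x then D.cof s (exists_face hx).choose k
    (S.f k b (exists_face hx).choose_spec.choose) else 0

theorem pres_A {s : ℕ} (S : St D B A U s) (k : Dop) (b : B.obj k) (h : b ∈ A.obj k)
    (x : bx (s + 1) ⟶ k) : pres U S k b x = U.f (s + 1) k (inA A b h) x := dif_pos h

theorem pres_K {s : ℕ} (S : St D B A U s) (k : Dop) (b : B.obj k) (i : Fin (s + 2))
    (t : bx s ⟶ k) : pres U S k b (dop i ≫ t) = D.cof s i k (S.f k b t) := by
  by_cases h : b ∈ A.obj k
  · rw [pres_A U S k b h, U.cof, S.ext k b h]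
  · have hx : Bdy (dop i ≫ t) := bdy_face i t
    unfold pres
    rw [dif_neg h, dif_pos hx]
    exact S.ind _ _ k b _ _ (exists_face hx).choose_spec.choose_spec

theorem st_succ (hSE : Stmt_SE) (hPP : Stmt_PP) (hSV : Stmt_SV1) (hA : F2Iso A.ι) {s : ℕ}
    (S : St D B A U s) : ∃ S' : St D B A U (s + 1), ∀ (i : Fin (s + 2)) (k : Dop) (b : B.obj k)
      (t : bx s ⟶ k), S'.f k b (dop i ≫ t) = D.cof s i k (S.f k b t) := by
  have key : ∀ {k l : Dop} (α : k ⟶ l) (b : B.obj k) (x : bx (s + 1) ⟶ k),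
      b ∈ A.obj k ∨ Bdy x →
      pres U S l (B.map α b) (x ≫ α) = (D.V (s + 1)).map α (pres U S k b x) := by
    intro k l α b x hbx
    rcases hbx with hb | hx
    · have hb' : B.map α b ∈ A.obj l := A.map α hb
      rw [pres_A U S l _ hb', pres_A U S k b hb]
      exact U_nat U (s + 1) α b hb x
    · obtain ⟨i, t, hit⟩ := exists_face (t := x) hx
      subst hit
      rw [Category.assoc, pres_K, pres_K, S.nat, D.cof_nat]
  obtain ⟨w, hw, hw'⟩ := hSE hPP hSV B (Ls (s + 1)) A (Ks (s + 1)) (D.V (s + 1)) hA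
    (fun k b x => pres U S k b x) (fun α b x h => key α b x h)
  have hc : ∀ (i : Fin (s + 2)) (k : Dop) (b : B.obj k) (t : bx s ⟶ k),
      w k b (dop i ≫ t) = D.cof s i k (S.f k b t) := by
    intro i k b t
    refine (hw' k b (dop i ≫ t) (Or.inr (bdy_face i t))).trans ?_
    exact pres_K U S k b i t
  refine ⟨⟨w, fun α b t => hw α b t, fun k b h t => ?_, ind_succ S.f w hc⟩, hc⟩
  refine (hw' k b t (Or.inl h)).trans ?_
  exact pres_A U S k b h t

/-- The sequence of extensions. -/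
def seq (hSE : Stmt_SE) (hPP : Stmt_PP) (hSV : Stmt_SV1) (hA : F2Iso A.ι) (s : ℕ) :
    St D B A U s :=
  Nat.rec (motive := fun s => St D B A U s) (st_zero U hSE hPP hSV hA).some
    (fun _ S => (st_succ U hSE hPP hSV hA S).choose) s

theorem seq_cof (hSE : Stmt_SE) (hPP : Stmt_PP) (hSV : Stmt_SV1) (hA : F2Iso A.ι) (s : ℕ)
    (i : Fin (s + 2)) (k : Dop) (b : B.obj k) (t : bx s ⟶ k) :
    (seq U hSE hPP hSV hA (s + 1)).f k b (dop i ≫ t) =
      D.cof s i k ((seq U hSE hPP hSV hA s).f k b t) :=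
  (st_succ U hSE hPP hSV hA (seq U hSE hPP hSV hA s)).choose_spec i k b t

end TOTX

theorem tt_totx : Stmt_TOTX := by
  intro hSE hPP hSV D B A hA u
  let F : Fam D B :=
    { f := fun s k b t => (TOTX.seq (Fam.ofHom u) hSE hPP hSV hA s).f k b t
      nat := fun s {k l} α b t => (TOTX.seq (Fam.ofHom u) hSE hPP hSV hA s).nat α b t
      cof := fun s i k b t => TOTX.seq_cof (Fam.ofHom u) hSE hPP hSV hA s i k b t }
  refine ⟨F.toHom, ?_⟩
  ext k x
  apply TotS.ext
  funext s l σ t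
  show (TOTX.seq (Fam.ofHom u) hSE hPP hSV hA s).f l (B.map σ x.1) t =
    (u.app k x : TotS D k).f s l σ t
  have hx : B.map σ x.1 ∈ A.obj l := A.map σ x.2
  rw [(TOTX.seq (Fam.ofHom u) hSE hPP hSV hA s).ext l _ hx]
  have h1 : (Fam.ofHom u).f s l ((A : SSet.{0}).map σ x) t = (u.app k x : TotS D k).f s l σ t := by
    show (u.app l ((A : SSet.{0}).map σ x) : TotS D l).f s l (𝟙 l) t = _
    have h2 : (u.app l ((A : SSet.{0}).map σ x) : TotS D l) = (Tot D).map σ (u.app k x) :=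
      NatTrans.naturality_apply u σ x
    rw [h2]
    show (u.app k x : TotS D k).f s l (σ ≫ 𝟙 l) t = _
    rw [Category.comp_id]
  exact h1

end Pool.Agent.SH.TT

end

end

section

/-!
# MP_2d0b73_an, block III-T (TT): Moore cycles and boundaries (module SH_TT_MB)

The projector `PInfty` of Mathlib (Dold-Kan) gives the first face form, its application to the
opposite simplicial object the last face form.
-/

open CategoryTheory Simplicial SSet Opposite AlgebraicTopology

noncomputable section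

namespace Pool.Agent.SH.TT

namespace MB

theorem smul_eq {V : SV} {k : Dop} (i : ℕ) (x : V.obj k) : ((-1 : ℤ) ^ i) • x = x := by
  rcases neg_one_pow_eq_or ℤ i with h | h
  · rw [h, one_smul]
  · rw [h, neg_smul, one_smul, ZModModule.neg_eq_self]

theorem zero_cyc (V : SV) (z : V.obj (bx 0)) : MCyc V 0 z := by
  intro k α hα
  exfalso
  apply hα
  intro i
  exact ⟨0, Subsingleton.elim (α := Fin 1) _ _⟩

theorem cyc_iff (V : SV) (t : ℕ) (z : V.obj (bx (t + 1))) :
    MCyc V (t + 1) z ↔ ∀ i : Fin (t + 2), V.map (dop i) z = 0 := by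
  constructor
  · intro h i
    apply h
    intro hs
    obtain ⟨j, hj⟩ := hs i
    exact Fin.succAbove_ne i j hj
  · intro h k α hα
    obtain ⟨i, θ, hθ⟩ := SimplexCategory.eq_comp_δ_of_not_surjective α.unop hα
    have e : α = dop i ≫ θ.op := congrArg Quiver.Hom.op hθ
    rw [e, V.map_comp, ModuleCat.comp_apply, h i, map_zero]

/-- The projector fixes the Moore cycles. -/
theorem P_eq (V : SV) (t : ℕ) (z : V.obj (bx t)) (h : MCyc V t z) :
    (DoldKan.PInfty.f t : V.obj (bx t) ⟶ V.obj (bx t)) z = z := by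
  cases t with
  | zero =>
    rw [DoldKan.PInfty_f_0]
    rfl
  | succ t =>
    rw [DoldKan.PInfty_f]
    let φ : ModuleCat.of (ZMod 2) (ZMod 2) ⟶ V.obj (bx (t + 1)) :=
      ModuleCat.ofHom (LinearMap.toSpanSingleton (ZMod 2) _ z)
    have hφ : φ (1 : ZMod 2) = z := one_smul (ZMod 2) z
    have hv : DoldKan.HigherFacesVanish (t + 1) φ := by
      intro j _
      ext
      show V.map (dop j.succ) (φ (1 : ZMod 2)) = 0
      rw [hφ]
      exact (cyc_iff V t z).1 h j.succ
    have h1 := hv.comp_P_eq_self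
    have h2 : (φ ≫ (DoldKan.P (t + 1)).f (t + 1)) (1 : ZMod 2) = φ (1 : ZMod 2) := by
      rw [h1]
    rw [ModuleCat.comp_apply, hφ] at h2
    exact h2

theorem P_van (V : SV) (t : ℕ) (w : V.obj (bx (t + 1))) (i : Fin (t + 1)) :
    V.map (dop i.succ) ((DoldKan.PInfty.f (t + 1) : V.obj (bx (t + 1)) ⟶ V.obj (bx (t + 1))) w)
      = 0 := by
  rw [DoldKan.PInfty_f]
  have h1 := (DoldKan.HigherFacesVanish.of_P (X := V) (t + 1) t) i (by omega)
  have h2 : ((DoldKan.P (X := V) (t + 1)).f (t + 1) ≫ V.δ i.succ) w = 0 := by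
    rw [h1]
    rfl
  exact h2

theorem d_eq (V : SV) (t : ℕ) (w : V.obj (bx (t + 1))) :
    ((AlternatingFaceMapComplex.obj V).d (t + 1) t : V.obj (bx (t + 1)) ⟶ V.obj (bx t)) w =
      ∑ i : Fin (t + 2), V.map (dop i) w := by
  rw [AlternatingFaceMapComplex.obj_d_eq]
  have h1 : (∑ i : Fin (t + 2), ((-1 : ℤ) ^ (i : ℕ)) • V.δ i) w =
      ∑ i : Fin (t + 2), ((-1 : ℤ) ^ (i : ℕ)) • (V.δ i w) := by
    have h0 := ModuleCat.hom_sum (fun i : Fin (t + 2) => ((-1 : ℤ) ^ (i : ℕ)) • V.δ i)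
      Finset.univ
    refine (LinearMap.congr_fun h0 w).trans ?_
    rw [LinearMap.sum_apply]
    rfl
  rw [h1]
  exact Finset.sum_congr rfl fun i _ => smul_eq i _

/-- Sum form implies first face form. -/
theorem to_first (V : SV) (t : ℕ) (z : V.obj (bx t)) (hz : MCyc V t z)
    (w : V.obj (bx (t + 1))) (hw : ∑ i : Fin (t + 2), V.map (dop i) w = z) : MBd V t z := by
  refine ⟨(DoldKan.PInfty.f (t + 1) : V.obj (bx (t + 1)) ⟶ V.obj (bx (t + 1))) w, ?_,
    fun i => P_van V t w i⟩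
  have hc : (DoldKan.PInfty.f (t + 1) : V.obj (bx (t + 1)) ⟶ V.obj (bx (t + 1))) ≫
      (AlternatingFaceMapComplex.obj V).d (t + 1) t =
      (AlternatingFaceMapComplex.obj V).d (t + 1) t ≫ DoldKan.PInfty.f t :=
    (DoldKan.PInfty (X := V)).comm (t + 1) t
  have h1 : ((AlternatingFaceMapComplex.obj V).d (t + 1) t :
      V.obj (bx (t + 1)) ⟶ V.obj (bx t))
      ((DoldKan.PInfty.f (t + 1) : V.obj (bx (t + 1)) ⟶ V.obj (bx (t + 1))) w) =
      (DoldKan.PInfty.f t : V.obj (bx t) ⟶ V.obj (bx t))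
      (((AlternatingFaceMapComplex.obj V).d (t + 1) t :
      V.obj (bx (t + 1)) ⟶ V.obj (bx t)) w) := by
    have h2 := congrArg (fun f : V.obj (bx (t + 1)) ⟶ V.obj (bx t) => f w) hc
    exact h2
  rw [d_eq, d_eq, hw, P_eq V t z hz, Fin.sum_univ_succ] at h1
  rw [← h1]
  have h3 : ∑ i : Fin (t + 1), V.map (dop i.succ)
      ((DoldKan.PInfty.f (t + 1) : V.obj (bx (t + 1)) ⟶ V.obj (bx (t + 1))) w) = 0 :=
    Finset.sum_eq_zero fun i _ => P_van V t w i
  rw [h3, add_zero]

theorem of_first (V : SV) (t : ℕ) (z : V.obj (bx t)) (h : MBd V t z) :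
    ∃ w : V.obj (bx (t + 1)), ∑ i : Fin (t + 2), V.map (dop i) w = z := by
  obtain ⟨w, h1, h2⟩ := h
  refine ⟨w, ?_⟩
  rw [Fin.sum_univ_succ, h1, Finset.sum_eq_zero fun i _ => h2 i, add_zero]

theorem of_last (V : SV) (t : ℕ) (z : V.obj (bx t))
    (h : ∃ w : V.obj (bx (t + 1)), V.map (dop (Fin.last (t + 1))) w = z ∧
      ∀ i : Fin (t + 1), V.map (dop i.castSucc) w = 0) :
    ∃ w : V.obj (bx (t + 1)), ∑ i : Fin (t + 2), V.map (dop i) w = z := by
  obtain ⟨w, h1, h2⟩ := h
  refine ⟨w, ?_⟩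
  rw [Fin.sum_univ_castSucc, h1, Finset.sum_eq_zero fun i _ => h2 i, zero_add]

/-- The opposite simplicial object. -/
def opV (V : SV) : SV := SimplicialObject.opFunctor.obj V

theorem opV_map (V : SV) (t : ℕ) (i : Fin (t + 2)) (w : V.obj (bx (t + 1))) :
    (opV V).map (dop i) (show (opV V).obj (bx (t + 1)) from w) =
      (show (opV V).obj (bx t) from V.map (dop i.rev) w) := by
  have h := SimplicialObject.opFunctor_obj_δ V i
  have h2 := congrArg (fun f : (opV V).obj (bx (t + 1)) ⟶ (opV V).obj (bx t) =>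
    f (show (opV V).obj (bx (t + 1)) from w)) h
  exact h2

theorem opV_cyc (V : SV) (t : ℕ) (z : V.obj (bx t)) (h : MCyc V t z) :
    MCyc (opV V) t (show (opV V).obj (bx t) from z) := by
  cases t with
  | zero => exact zero_cyc _ _
  | succ t =>
    rw [cyc_iff] at h ⊢
    intro i
    rw [opV_map, h]
    rfl

/-- Sum form implies last face form. -/
theorem to_last (V : SV) (t : ℕ) (z : V.obj (bx t)) (hz : MCyc V t z)
    (w : V.obj (bx (t + 1))) (hw : ∑ i : Fin (t + 2), V.map (dop i) w = z) :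
    ∃ w : V.obj (bx (t + 1)), V.map (dop (Fin.last (t + 1))) w = z ∧
      ∀ i : Fin (t + 1), V.map (dop i.castSucc) w = 0 := by
  have h1 : ∑ i : Fin (t + 2), (opV V).map (dop i) (show (opV V).obj (bx (t + 1)) from w) =
      (show (opV V).obj (bx t) from z) := by
    simp only [opV_map]
    rw [← hw]
    exact Equiv.sum_comp Fin.revPerm (fun i => V.map (dop i) w)
  obtain ⟨w', h2, h3⟩ := to_first (opV V) t _ (opV_cyc V t z hz) _ h1
  refine ⟨(show V.obj (bx (t + 1)) from w'), ?_, ?_⟩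
  · have h4 := opV_map V t 0 (show V.obj (bx (t + 1)) from w')
    rw [Fin.rev_zero] at h4
    exact h4.symm.trans h2
  · intro i
    have h4 := opV_map V t i.rev.succ (show V.obj (bx (t + 1)) from w')
    rw [Fin.rev_succ, Fin.rev_rev] at h4
    exact h4.symm.trans (h3 i.rev)

/-! ### Filling of last horns -/

theorem face_sop_self (V : SV) {n : ℕ} (i : Fin (n + 1)) (x : V.obj (bx n)) :
    V.map (dop i.castSucc) (V.map (sop i) x) = x := by
  have h := congrArg (fun f : V.obj (bx n) ⟶ V.obj (bx n) => f x) (V.δ_comp_σ_self (i := i))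
  exact h

theorem face_sop (V : SV) {n : ℕ} {i : Fin (n + 2)} {j : Fin (n + 1)} (h : i ≤ j.castSucc)
    (x : V.obj (bx (n + 1))) :
    V.map (dop i.castSucc) (V.map (sop j.succ) x) = V.map (sop j) (V.map (dop i) x) := by
  have h2 := congrArg (fun f : V.obj (bx (n + 1)) ⟶ V.obj (bx (n + 1)) => f x)
    (V.δ_comp_σ_of_le h)
  exact h2

theorem face_face (V : SV) {n : ℕ} {i j : Fin (n + 2)} (h : i ≤ j) (x : V.obj (bx (n + 2))) :
    V.map (dop i) (V.map (dop j.succ) x) = V.map (dop j) (V.map (dop i.castSucc) x) := by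
  have h2 := congrArg (fun f : V.obj (bx (n + 2)) ⟶ V.obj (bx n) => f x) (V.δ_comp_δ h)
  exact h2

end MB

open MB in
/-- Filling of the last horn in dimension one. -/
theorem tt_horn_zero (V : SV) (y : Fin 1 → V.obj (bx 0)) :
    ∃ w : V.obj (bx 1), ∀ i : Fin 1, V.map (dop i.castSucc) w = y i := by
  refine ⟨V.map (sop 0) (y 0), fun i => ?_⟩
  obtain rfl : i = 0 := Subsingleton.elim _ _
  exact face_sop_self V 0 (y 0)

open MB in
/-- Filling of the last horn. -/
theorem tt_horn (V : SV) (m : ℕ) (y : Fin (m + 2) → V.obj (bx (m + 1)))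
    (h : ∀ i j : Fin (m + 1), i ≤ j →
      V.map (dop i.castSucc) (y j.succ) = V.map (dop j.castSucc) (y i.castSucc)) :
    ∃ w : V.obj (bx (m + 2)), ∀ i : Fin (m + 2), V.map (dop i.castSucc) w = y i := by
  have key : ∀ n : ℕ, ∀ hn : n < m + 2, ∃ w : V.obj (bx (m + 2)),
      ∀ i : Fin (m + 2), (i : ℕ) ≤ n → V.map (dop i.castSucc) w = y i := by
    intro n
    induction n with
    | zero =>
      intro _
      refine ⟨V.map (sop 0) (y 0), fun i hi => ?_⟩
      obtain rfl : i = 0 := Fin.ext (Nat.le_zero.1 hi)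
      exact face_sop_self V 0 (y 0)
    | succ n ih =>
      intro hn
      obtain ⟨w, hw⟩ := ih (by omega)
      let j : Fin (m + 1) := ⟨n, by omega⟩
      refine ⟨w + V.map (sop j.succ) (y j.succ + V.map (dop j.succ.castSucc) w), ?_⟩
      intro i hi
      rcases Nat.lt_or_ge (i : ℕ) (n + 1) with hi' | hi'
      · have hij : (⟨i, by omega⟩ : Fin (m + 1)) ≤ j := by
          show (i : ℕ) ≤ n
          omega
        have hi2 : i = (⟨i, by omega⟩ : Fin (m + 1)).castSucc := rfl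
        have h1 := h _ _ hij
        have h2 : V.map (dop i.castSucc) w = y i := hw i (by omega)
        have h3 : V.map (dop i) (V.map (dop j.castSucc.succ) w) =
            V.map (dop j.castSucc) (V.map (dop i.castSucc) w) := face_face V (by
              show (i : ℕ) ≤ n
              omega) w
        rw [map_add, face_sop V (by
            show (i : ℕ) ≤ n
            omega), map_add]
        rw [← Fin.succ_castSucc, h3, h2]
        rw [← hi2] at h1
        rw [h1, ZModModule.add_self, map_zero, add_zero]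
      · have hi3 : i = j.succ := Fin.ext (by
          show (i : ℕ) = n + 1
          omega)
        rw [hi3, map_add, face_sop_self, add_comm (y j.succ), ← add_assoc, ZModModule.add_self,
          zero_add]
  obtain ⟨w, hw⟩ := key (m + 1) (by omega)
  exact ⟨w, fun i => hw i (by omega)⟩

open MB in
theorem tt_mb : Stmt_MB := by
  refine ⟨zero_cyc, cyc_iff, fun V t z hz => ⟨⟨of_first V t z, ?_⟩, ⟨?_, ?_⟩⟩⟩
  · rintro ⟨w, hw⟩
    exact to_first V t z hz w hw
  · intro h
    obtain ⟨w, hw⟩ := of_first V t z h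
    exact to_last V t z hz w hw
  · intro h
    obtain ⟨w, hw⟩ := of_last V t z h
    exact to_first V t z hz w hw

end Pool.Agent.SH.TT

end

end

section

/-!
# MP_2d0b73_an, block III-T (TT): transfer of exactness along an acyclic extension
-/

set_option autoImplicit false

open CategoryTheory Simplicial SSet Opposite

namespace Pool.Agent.SH.TT

namespace CONP

theorem two {M : ModuleCat.{0} (ZMod 2)} (x : M) : x + x = 0 := by
  rw [← two_smul (ZMod 2)]
  have h : (2 : ZMod 2) = 0 := rfl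
  rw [h, zero_smul]

theorem map_zero' {A B : Type*} [AddCommGroup A] [AddCommGroup B] (f : A → B)
    (h : ∀ a b, f (a + b) = f a + f b) : f 0 = 0 := (AddMonoidHom.mk' f h).map_zero

theorem dd0 (V : SV) (t : ℕ) (w : V.obj (bx (t + 2)))
    (h : ∀ i : Fin (t + 2), V.map (dop i.succ) w = 0) (i : Fin (t + 2)) :
    V.map (dop i) (V.map (dop 0) w) = 0 := by
  have h1 : (dop (0 : Fin (t + 3)) ≫ dop i : bx (t + 2) ⟶ bx t) = dop i.succ ≫ dop 0 := by
    have h2 := SimplexCategory.δ_comp_δ (n := t) (i := 0) (j := i) (Fin.zero_le _)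
    exact (congrArg Quiver.Hom.op h2).symm
  have h3 : V.map (dop i) (V.map (dop 0) w) = V.map (dop (0 : Fin (t + 3)) ≫ dop i) w := by
    rw [V.map_comp]
    rfl
  have h4 : V.map (dop i.succ ≫ dop 0) w = V.map (dop 0) (V.map (dop i.succ) w) := by
    rw [V.map_comp]
    rfl
  rw [h3, h1, h4, h i, map_zero]

theorem dl_zero (D : CoV) (s : ℕ) (k : Dop) : D.dl s (0 : (D.V s).obj k) = 0 :=
  Finset.sum_eq_zero fun i _ => D.cof_zero s i k

theorem dl_nat (D : CoV) (s : ℕ) {k l : Dop} (α : k ⟶ l) (x : (D.V s).obj k) :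
    (D.V (s + 1)).map α (D.dl s x) = D.dl s ((D.V s).map α x) := by
  unfold CoV.dl
  rw [map_sum]
  exact Finset.sum_congr rfl fun i _ => (D.cof_nat s i α x).symm

theorem dl_mor {F E : CoV} (j : ∀ (s : ℕ) (k : Dop), (F.V s).obj k → (E.V s).obj k)
    (hj : ∀ s k a b, j s k (a + b) = j s k a + j s k b)
    (hc : ∀ (s : ℕ) (i : Fin (s + 2)) (k : Dop) (x : (F.V s).obj k),
      j (s + 1) k (F.cof s i k x) = E.cof s i k (j s k x)) (s : ℕ) (k : Dop)
    (x : (F.V s).obj k) : j (s + 1) k (F.dl s x) = E.dl s (j s k x) := by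
  unfold CoV.dl
  have h := map_sum (AddMonoidHom.mk' (j (s + 1) k) (hj (s + 1) k))
    (fun i => F.cof s i k x) Finset.univ
  refine h.trans (Finset.sum_congr rfl fun i _ => ?_)
  exact hc s i k x

end CONP

open CONP in
/-- TT_CONP: transfer of exactness along an acyclic extension. -/
theorem tt_conp : Stmt_CONP := by
  intro hMB F E B τ j p hj hp hinj hker hjn hpn hjc hpc hac hlift hB
  have j0 : ∀ s k, j s k 0 = 0 := fun s k => map_zero' _ (hj s k)
  have p0 : ∀ s k, p s k 0 = 0 := fun s k => map_zero' _ (hp s k)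
  have hpj : ∀ s k y, p s k (j s k y) = 0 := fun s k y => (hker s k _).2 ⟨y, rfl⟩
  have jdl := dl_mor j hj hjc
  have pdl := dl_mor p hp hpc
  -- all faces vanish: Moore cycles
  have cyc : ∀ (V : SV) (t : ℕ) (z : V.obj (bx (t + 1))), V.map (dop 0) z = 0 →
      (∀ i : Fin (t + 1), V.map (dop i.succ) z = 0) → MCyc V (t + 1) z := by
    intro V t z h0 h1
    rw [hMB.2.1]
    intro i
    rcases Fin.eq_zero_or_eq_succ i with rfl | ⟨i, rfl⟩
    · exact h0
    · exact h1 i
  -- steps (1) and (2)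
  have main : ∀ (s t : ℕ) (z : (F.V s).obj (bx t)), MCyc (F.V s) t z →
      MBd (F.V (s + 1)) t (F.dl s z) → ∃ x : (E.V s).obj (bx (t + 1)),
        (E.V s).map (dop 0) x = j s _ z ∧ (∀ i : Fin (t + 1), (E.V s).map (dop i.succ) x = 0) ∧
        MCyc (B.V s) (t + 1) (p s _ x) ∧ MBd (B.V (s + 1)) (t + 1) (B.dl s (p s _ x)) := by
    intro s t z hz hb
    obtain ⟨v, hv0, hv⟩ := hb
    have hjz : MCyc (E.V s) t (j s _ z) := by
      intro k α hα
      rw [← hjn, hz k α hα, j0]
    obtain ⟨x, hx0, hx⟩ := hac s t _ hjz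
    have hcx : MCyc (B.V s) (t + 1) (p s _ x) := by
      refine cyc _ _ _ ?_ fun i => ?_
      · rw [← hpn, hx0, hpj]
      · rw [← hpn, hx i, p0]
    refine ⟨x, hx0, hx, hcx, ?_⟩
    have hy : MCyc (E.V (s + 1)) (t + 1) (E.dl s x + j (s + 1) _ v) := by
      refine cyc _ _ _ ?_ fun i => ?_
      · rw [map_add, dl_nat, hx0, ← jdl, ← hv0, ← hjn, two]
      · rw [map_add, dl_nat, hx i, dl_zero, ← hjn, hv i, j0, add_zero]
    obtain ⟨ω, hω0, hω⟩ := hac (s + 1) (t + 1) _ hy
    refine ⟨p (s + 1) _ ω, ?_, fun i => ?_⟩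
    · rw [← hpn, hω0, hp, hpj, add_zero, pdl]
    · rw [← hpn, hω i, p0]
  intro t ht
  refine ⟨fun z hz hb => ?_, fun s z hz hb => ?_⟩
  · obtain ⟨x, hx0, hx, hcx, hbx⟩ := main 0 t z hz hb
    obtain ⟨w, hw0, hw⟩ := (hB (t + 1) (by omega)).1 _ hcx hbx
    obtain ⟨w', hpw, hw'⟩ := hlift 0 (t + 1) w hw
    have h1 : p 0 _ (x + (E.V 0).map (dop 0) w') = 0 := by
      rw [hp, hpn, hpw, hw0, two]
    obtain ⟨v, hv⟩ := (hker 0 _ _).1 h1
    refine ⟨v, hinj 0 _ ?_, fun i => hinj 0 _ ?_⟩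
    · rw [hjn, hv, map_add, hx0, dd0 _ _ _ hw', add_zero]
    · rw [hjn, hv, map_add, hx i, dd0 _ _ _ hw', add_zero, j0]
  · obtain ⟨x, hx0, hx, hcx, hbx⟩ := main (s + 1) t z hz hb
    obtain ⟨y, hy, w, hw0, hw⟩ := (hB (t + 1) (by omega)).2 s _ hcx hbx
    obtain ⟨w', hpw, hw'⟩ := hlift (s + 1) (t + 1) w hw
    have hyf := (hMB.2.1 _ _ _).1 hy
    obtain ⟨y', hpy, hy'⟩ := hlift s t y fun i => hyf i.succ
    have h0 : p s _ ((E.V s).map (dop 0) y') = 0 := by
      rw [hpn, hpy, hyf 0]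
    obtain ⟨u, hu⟩ := (hker s _ _).1 h0
    have hcu : MCyc (F.V s) t u := by
      rcases t with _ | t
      · exact hMB.1 _ _
      · rw [hMB.2.1]
        intro i
        apply hinj s
        rw [hjn, hu, dd0 _ _ _ hy', j0]
    have h1 : p (s + 1) _ (x + E.dl s y' + (E.V (s + 1)).map (dop 0) w') = 0 := by
      rw [hp, hp, hpn, hpw, hw0, pdl, hpy, two]
    obtain ⟨v, hv⟩ := (hker (s + 1) _ _).1 h1
    refine ⟨u, hcu, v, hinj (s + 1) _ ?_, fun i => hinj (s + 1) _ ?_⟩
    · rw [hjn, hv, map_add, map_add, hx0, dl_nat, dd0 _ _ _ hw', add_zero, hj, jdl, hu]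
    · rw [hjn, hv, map_add, map_add, hx i, dl_nat, hy' i, dl_zero, dd0 _ _ _ hw', add_zero,
        add_zero, j0]

end Pool.Agent.SH.TT


end

section

/-!
# MP_2d0b73_an, module SH_TT_TR: exactness for the mapping objects of `(Δ^n, ∂Δ^n)`
-/

open CategoryTheory Simplicial SSet Opposite MonoidalCategory

noncomputable section

namespace Pool.Agent.SH.TT

namespace TTTr

variable {n : ℕ} {k l : Dop}

/-! ### Simplices of the standard simplex as morphisms -/

/-- A simplex of `Δ[n]` as a morphism. -/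
def toE (t : (Δ[n] : SSet.{0}).obj k) : bx n ⟶ k := (stdSimplex.objEquiv t).op

/-- A morphism as a simplex of `Δ[n]`. -/
def ofE (e : bx n ⟶ k) : (Δ[n] : SSet.{0}).obj k := stdSimplex.objEquiv.symm e.unop

theorem toE_ofE (e : bx n ⟶ k) : toE (ofE e) = e := by
  unfold toE ofE
  rw [Equiv.apply_symm_apply]
  rfl

theorem ofE_toE (t : (Δ[n] : SSet.{0}).obj k) : ofE (toE t) = t :=
  stdSimplex.objEquiv.symm_apply_apply t

theorem toE_map (α : k ⟶ l) (t : (Δ[n] : SSet.{0}).obj k) :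
    toE ((Δ[n] : SSet.{0}).map α t) = toE t ≫ α := rfl

theorem ofE_map (α : k ⟶ l) (e : bx n ⟶ k) :
    ofE (e ≫ α) = (Δ[n] : SSet.{0}).map α (ofE e) := rfl

/-- The simplex misses the vertex `i`. -/
def Ms (i : Fin (n + 1)) (θ : bx n ⟶ k) : Prop := ∀ j, θ.unop.toOrderHom j ≠ i

theorem bdy_iff (θ : bx n ⟶ k) : Bdy θ ↔ ∃ i, Ms i θ := by
  unfold Bdy Ms Function.Surjective
  push Not
  rfl

theorem mem_bd_iff (t : (Δ[n] : SSet.{0}).obj k) :
    t ∈ (∂Δ[n] : (Δ[n] : SSet.{0}).Subcomplex).obj k ↔ ∃ i, Ms i (toE t) :=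
  (Iff.rfl : _ ↔ Bdy (toE t)).trans (bdy_iff (toE t))

theorem mem_horn_iff' (t : (Δ[n] : SSet.{0}).obj k) (i : Fin (n + 1)) :
    t ∈ (Λ[n, i] : (Δ[n] : SSet.{0}).Subcomplex).obj k ↔ ∃ j, j ≠ i ∧ Ms j (toE t) := by
  rw [mem_horn_iff]
  constructor
  · intro h
    rw [Ne, Set.eq_univ_iff_forall, not_forall] at h
    obtain ⟨j, hj⟩ := h
    refine ⟨j, fun h1 => hj (Or.inr h1), fun a ha => hj (Or.inl ⟨a, ha⟩)⟩
  · rintro ⟨j, hj, h1⟩ h2
    rw [Set.eq_univ_iff_forall] at h2
    rcases h2 j with ⟨a, ha⟩ | h3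
    · exact h1 a ha
    · exact hj h3

theorem Ms.comp {i : Fin (n + 1)} {θ : bx n ⟶ k} (h : Ms i θ) (α : k ⟶ l) : Ms i (θ ≫ α) :=
  fun j => h (α.unop.toOrderHom j)

theorem ms_self (i : Fin (n + 2)) (θ : bx n ⟶ k) : Ms i (dop i ≫ θ) :=
  fun j => Fin.succAbove_ne i (θ.unop.toOrderHom j)

theorem ms_factor {i : Fin (n + 2)} {θ : bx (n + 1) ⟶ k} (h : Ms i θ) :
    ∃ θ' : bx n ⟶ k, dop i ≫ θ' = θ := by
  obtain ⟨θ', h'⟩ := SimplexCategory.eq_comp_δ_of_not_surjective' θ.unop i h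
  refine ⟨θ'.op, ?_⟩
  apply Quiver.Hom.unop_inj
  exact h'.symm

theorem ms_dop (i : Fin (n + 2)) (j : Fin (n + 1)) (θ : bx n ⟶ k) :
    Ms (i.succAbove j) (dop i ≫ θ) ↔ Ms j θ := by
  constructor
  · intro h a ha
    apply h a
    show i.succAbove (θ.unop.toOrderHom a) = i.succAbove j
    rw [ha]
  · intro h a ha
    exact h a (Fin.succAbove_right_injective (p := i) ha)

theorem dop_inj {i : Fin (n + 2)} {θ θ' : bx n ⟶ k} (h : dop i ≫ θ = dop i ≫ θ') : θ = θ' := by
  apply Quiver.Hom.unop_inj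
  have h2 : θ.unop ≫ SimplexCategory.δ i = θ'.unop ≫ SimplexCategory.δ i := congrArg (·.unop) h
  exact (cancel_mono (SimplexCategory.δ i)).1 h2

/-! ### Extension by zero from a face -/

open Classical in
/-- The function with the values `g` on the face `i` and `0` otherwise. -/
def exf {α : Type} [Zero α] (i : Fin (n + 2)) (g : (bx n ⟶ k) → α) (θ : bx (n + 1) ⟶ k) : α :=
  if h : ∃ θ', dop i ≫ θ' = θ then g h.choose else 0

theorem exf_dop {α : Type} [Zero α] (i : Fin (n + 2)) (g : (bx n ⟶ k) → α) (θ : bx n ⟶ k) :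
    exf i g (dop i ≫ θ) = g θ := by
  have h : ∃ θ', dop i ≫ θ' = dop i ≫ θ := ⟨θ, rfl⟩
  unfold exf
  rw [dif_pos h]
  exact congrArg g (dop_inj h.choose_spec)

theorem exf_not {α : Type} [Zero α] (i : Fin (n + 2)) (g : (bx n ⟶ k) → α)
    (θ : bx (n + 1) ⟶ k) (h : ¬ Ms i θ) : exf i g θ = 0 := by
  unfold exf
  rw [dif_neg]
  rintro ⟨θ', rfl⟩
  exact h (ms_self i θ')

theorem exf_zero {α : Type} [Zero α] (i : Fin (n + 2)) (g : (bx n ⟶ k) → α)
    (hg : ∀ θ, g θ = 0) (θ : bx (n + 1) ⟶ k) : exf i g θ = 0 := by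
  unfold exf
  split_ifs with h
  · exact hg _
  · rfl

/-- The value is zero on the simplices missing a vertex other than `i`. -/
theorem exf_ms {α : Type} [Zero α] (i : Fin (n + 2)) (g : (bx n ⟶ k) → α)
    (hg : ∀ θ : bx n ⟶ k, Bdy θ → g θ = 0) (θ : bx (n + 1) ⟶ k) (j : Fin (n + 2)) (hj : j ≠ i)
    (h : Ms j θ) : exf i g θ = 0 := by
  by_cases hi : Ms i θ
  · obtain ⟨θ', rfl⟩ := ms_factor hi
    obtain ⟨j', rfl⟩ := Fin.exists_succAbove_eq hj
    rw [exf_dop]
    exact hg θ' ((bdy_iff θ').2 ⟨j', (ms_dop i j' θ').1 h⟩)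
  · exact exf_not i g θ hi

theorem exf_nat {V : SV} (i : Fin (n + 2)) (α : k ⟶ l) (g : (bx n ⟶ k) → V.obj k)
    (g' : (bx n ⟶ l) → V.obj l) (hg : ∀ θ, g' (θ ≫ α) = V.map α (g θ))
    (hg' : ∀ θ : bx n ⟶ l, Bdy θ → g' θ = 0) (θ : bx (n + 1) ⟶ k) (h : Bdy θ) :
    exf i g' (θ ≫ α) = V.map α (exf i g θ) := by
  by_cases hi : Ms i θ
  · obtain ⟨θ', rfl⟩ := ms_factor hi
    rw [exf_dop, Category.assoc, exf_dop, hg]
  · rw [exf_not i g θ hi, map_zero]
    obtain ⟨j, hj⟩ := (bdy_iff θ).1 h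
    have hji : j ≠ i := by
      rintro rfl
      exact hi hj
    exact exf_ms i g' hg' _ j hji (hj.comp α)

/-! ### Transfer of exactness along isomorphisms -/

theorem exc_transfer (D D' : CoV) (τ : ℕ)
    (φ : ∀ (s : ℕ) (k : Dop), (D.V s).obj k → (D'.V s).obj k)
    (hadd : ∀ s k a b, φ s k (a + b) = φ s k a + φ s k b)
    (hnat : ∀ (s : ℕ) {k l : Dop} (α : k ⟶ l) (x : (D.V s).obj k),
      φ s l ((D.V s).map α x) = (D'.V s).map α (φ s k x))
    (hcof : ∀ (s : ℕ) (i : Fin (s + 2)) (k : Dop) (x : (D.V s).obj k),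
      φ (s + 1) k (D.cof s i k x) = D'.cof s i k (φ s k x))
    (hbij : ∀ s k, Function.Bijective (φ s k)) (h : ExC D τ) : ExC D' τ := by
  have h0 : ∀ s k, φ s k 0 = 0 := fun s k => by
    have := hadd s k 0 0
    rw [add_zero] at this
    exact left_eq_add.1 this
  have hcyc : ∀ s t z, MCyc (D'.V s) t (φ s _ z) ↔ MCyc (D.V s) t z := by
    intro s t z
    unfold MCyc
    constructor
    · intro h1 k α hα
      apply (hbij s k).1
      rw [hnat, h1 k α hα, h0]
    · intro h1 k α hα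
      rw [← hnat, h1 k α hα, h0]
  have hbd : ∀ s t z, MBd (D'.V s) t (φ s _ z) ↔ MBd (D.V s) t z := by
    intro s t z
    unfold MBd
    constructor
    · rintro ⟨w', h1, h2⟩
      obtain ⟨w, rfl⟩ := (hbij s _).2 w'
      refine ⟨w, ?_, fun i => ?_⟩
      · apply (hbij s _).1
        rw [hnat, h1]
      · apply (hbij s _).1
        rw [hnat, h2 i, h0]
    · rintro ⟨w, h1, h2⟩
      refine ⟨φ s _ w, ?_, fun i => ?_⟩
      · rw [← hnat, h1]
      · rw [← hnat, h2 i, h0]
  have hdl : ∀ s k (z : (D.V s).obj k), D'.dl s (φ s _ z) = φ (s + 1) _ (D.dl s z) := by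
    intro s k z
    unfold CoV.dl
    have h1 := map_sum (AddMonoidHom.mk' (φ (s + 1) k) (hadd (s + 1) k))
      (fun i : Fin (s + 2) => D.cof s i k z) Finset.univ
    refine Eq.trans ?_ h1.symm
    exact Finset.sum_congr rfl fun i _ => (hcof s i k z).symm
  intro t ht
  obtain ⟨hA, hB⟩ := h t ht
  constructor
  · intro z' hz hz2
    obtain ⟨z, rfl⟩ := (hbij 0 _).2 z'
    rw [hcyc] at hz
    rw [hdl, hbd] at hz2
    rw [hbd]
    exact hA z hz hz2
  · intro s z' hz hz2
    obtain ⟨z, rfl⟩ := (hbij (s + 1) _).2 z'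
    rw [hcyc] at hz
    rw [hdl, hbd] at hz2
    obtain ⟨y, hy, hy2⟩ := hB s z hz hz2
    refine ⟨φ s _ y, (hcyc s t y).2 hy, ?_⟩
    rw [hdl, ← hadd, hbd]
    exact hy2

/-! ### First part -/

/-- The simplices of the point. -/
theorem pt_eq (a b : (Δ[0] : SSet.{0}).obj k) : a = b := by
  rw [← ofE_toE a, ← ofE_toE b]
  congr 1
  apply Quiver.Hom.unop_inj
  apply SimplexCategory.Hom.ext
  ext j
  exact congrArg Fin.val (Subsingleton.elim (α := Fin 1) _ _)

theorem not_bd0 (a : (Δ[0] : SSet.{0}).obj k) :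
    a ∉ (∂Δ[0] : (Δ[0] : SSet.{0}).Subcomplex).obj k := by
  intro h
  obtain ⟨i, hi⟩ := (mem_bd_iff a).1 h
  exact hi 0 (Subsingleton.elim (α := Fin 1) _ _)

/-- The constant simplex of the point. -/
def pt (k : Dop) : (Δ[0] : SSet.{0}).obj k := ofE (SimplexCategory.const k.unop ⦋0⦌ 0).op

theorem part1 (D : CoV) (h : ExC D 1) : ExC (D.mp (Δ[0] : SSet.{0}) ∂Δ[0]) 1 := by
  refine exc_transfer D _ 1 (fun s k x => MapP.mk (fun l _ σ => (D.V s).map σ x) ?_ ?_)
    ?_ ?_ ?_ ?_ h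
  · intro l r α _ σ
    rw [Functor.map_comp]
    rfl
  · intro l z σ hz
    exact absurd hz (not_bd0 z)
  · intro s k a b
    refine MapP.ext fun l z σ => ?_
    exact map_add _ _ _
  · intro s k l α x
    refine MapP.ext fun r z σ => ?_
    show (D.V s).map σ ((D.V s).map α x) = (D.V s).map (α ≫ σ) x
    rw [Functor.map_comp]
    rfl
  · intro s i k x
    refine MapP.ext fun r z σ => ?_
    exact (D.cof_nat s i σ x).symm
  · intro s k
    constructor
    · intro a b hab
      have h1 := congrArg (fun g => MapP.ev (Z₀ := ∂Δ[0]) (V := D.V s) g k (pt k) (𝟙 k)) hab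
      have h2 : (D.V s).map (𝟙 k) a = (D.V s).map (𝟙 k) b := h1
      rw [CategoryTheory.Functor.map_id] at h2
      exact h2
    · intro g
      refine ⟨MapP.ev g k (pt k) (𝟙 k), ?_⟩
      refine MapP.ext fun r z σ => ?_
      show (D.V s).map σ (MapP.ev g k (pt k) (𝟙 k)) = MapP.ev g r z σ
      rw [← MapP.nat g σ (pt k) (𝟙 k), Category.id_comp]
      exact congrArg (fun a => MapP.ev g r a σ) (pt_eq _ _)

/-! ### Second part -/

section
variable {V : SV}

/-- The inclusion. -/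
def jj {q : Dop} (g : (MapP (Δ[n + 1] : SSet.{0}) ∂Δ[n + 1] V).obj q) :
    (MapP (Δ[n + 1] : SSet.{0}) Λ[n + 1, Fin.last (n + 1)] V).obj q :=
  MapP.mk (fun k z σ => MapP.ev g k z σ) (fun α z σ => MapP.nat g α z σ) (fun k z σ h => by
    obtain ⟨j, -, hj⟩ := (mem_horn_iff' z _).1 h
    exact MapP.van g z σ ((mem_bd_iff z).2 ⟨j, hj⟩))

theorem last_mem_horn {i : Fin (n + 1)} {θ : bx n ⟶ k} (h : Ms i θ) :
    ofE (dop (Fin.last (n + 1)) ≫ θ) ∈
      (Λ[n + 1, Fin.last (n + 1)] : (Δ[n + 1] : SSet.{0}).Subcomplex).obj k := by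
  rw [mem_horn_iff']
  refine ⟨(Fin.last (n + 1)).succAbove i, Fin.succAbove_ne _ _, ?_⟩
  rw [toE_ofE, ms_dop]
  exact h

/-- The restriction to the last face. -/
def pp {q : Dop} (g : (MapP (Δ[n + 1] : SSet.{0}) Λ[n + 1, Fin.last (n + 1)] V).obj q) :
    (MapP (Δ[n] : SSet.{0}) ∂Δ[n] V).obj q :=
  MapP.mk (fun k z σ => MapP.ev g k (ofE (dop (Fin.last (n + 1)) ≫ toE z)) σ)
    (fun {k l} α z σ => by
      rw [← MapP.nat g α, ← ofE_map, Category.assoc]
      rfl)
    (fun k z σ h => by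
      obtain ⟨i, hi⟩ := (mem_bd_iff z).1 h
      exact MapP.van g _ σ (last_mem_horn hi))

theorem pp_zero_iff {q : Dop}
    (g : (MapP (Δ[n + 1] : SSet.{0}) Λ[n + 1, Fin.last (n + 1)] V).obj q) :
    pp g = 0 ↔ ∃ y, jj y = g := by
  constructor
  · intro h
    refine ⟨MapP.mk (fun k z σ => MapP.ev g k z σ) (fun α z σ => MapP.nat g α z σ)
      (fun k z σ hz => ?_), MapP.ext fun k z σ => rfl⟩
    obtain ⟨j, hj⟩ := (mem_bd_iff z).1 hz
    by_cases hl : j = Fin.last (n + 1)
    · subst hl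
      obtain ⟨θ', hθ⟩ := ms_factor hj
      have h1 := congrArg (fun g => MapP.ev (Z₀ := ∂Δ[n]) (V := V) g k (ofE θ') σ) h
      have h2 : MapP.ev g k (ofE (dop (Fin.last (n + 1)) ≫ toE (ofE θ'))) σ = 0 := h1
      rw [toE_ofE, hθ, ofE_toE] at h2
      exact h2
    · exact MapP.van g z σ ((mem_horn_iff' z _).2 ⟨j, hl, hj⟩)
  · rintro ⟨y, rfl⟩
    refine MapP.ext fun k z σ => ?_
    show MapP.ev y k (ofE (dop (Fin.last (n + 1)) ≫ toE z)) σ = 0
    refine MapP.van y _ σ ((mem_bd_iff _).2 ⟨Fin.last (n + 1), ?_⟩)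
    rw [toE_ofE]
    exact ms_self _ _

/-- The mapping object of the horn is acyclic. -/
theorem acyc (hSE : Stmt_SE) (hPP : Stmt_PP) (hSV : Stmt_SV1) (hH : Stmt_HORN) (t : ℕ)
    (z : (MapP (Δ[n + 1] : SSet.{0}) Λ[n + 1, Fin.last (n + 1)] V).obj (bx t))
    (hz : MCyc _ t z) : MBd _ t z := by
  have hz' : ∀ (k : Dop) (ρ : (Δ[n + 1] : SSet.{0}).obj k) (θ : bx t ⟶ k), Bdy θ →
      MapP.ev z k ρ θ = 0 := by
    intro k ρ θ h
    have h1 := congrArg (fun g => MapP.ev (Z₀ := Λ[n + 1, Fin.last (n + 1)]) (V := V) g k ρ (𝟙 k))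
      (hz k θ h)
    have h2 : MapP.ev z k ρ (θ ≫ 𝟙 k) = 0 := h1
    rw [Category.comp_id] at h2
    exact h2
  obtain ⟨w, hw1, hw2⟩ := hSE hPP hSV (Δ[n + 1] : SSet.{0}) (Δ[t + 1] : SSet.{0})
    Λ[n + 1, Fin.last (n + 1)] ∂Δ[t + 1] V (hH n (Fin.last (n + 1)))
    (fun k ρ x => exf 0 (fun θ => MapP.ev z k ρ θ) (toE x)) (by
      intro k l α ρ x h
      rcases h with h | h
      · rw [exf_zero, exf_zero, map_zero]
        · intro θ
          exact MapP.van z ρ θ h
        · intro θ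
          exact MapP.van z _ θ (Subfunctor.map _ α h)
      · refine exf_nat 0 α _ _ (fun θ => ?_) (fun θ hθ => hz' l _ θ hθ) (toE x) h
        exact MapP.nat z α ρ θ)
  refine ⟨MapP.mk (fun k ρ θ => w k ρ (ofE θ)) (fun α ρ θ => hw1 α ρ (ofE θ))
    (fun k ρ θ h => ?_), ?_, fun i => ?_⟩
  · rw [hw2 k ρ _ (Or.inl h)]
    exact exf_zero _ _ (fun θ => MapP.van z ρ θ h) _
  · refine MapP.ext fun k ρ σ => ?_
    show w k ρ (ofE (dop 0 ≫ σ)) = MapP.ev z k ρ σ
    rw [hw2 k ρ _ (Or.inr ((mem_bd_iff _).2 ⟨0, by rw [toE_ofE]; exact ms_self _ _⟩)), toE_ofE,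
      exf_dop]
  · refine MapP.ext fun k ρ σ => ?_
    show w k ρ (ofE (dop i.succ ≫ σ)) = 0
    rw [hw2 k ρ _ (Or.inr ((mem_bd_iff _).2 ⟨i.succ, by rw [toE_ofE]; exact ms_self _ _⟩)), toE_ofE]
    exact exf_ms 0 _ (fun θ hθ => hz' k ρ θ hθ) _ i.succ (Fin.succ_ne_zero i) (ms_self _ _)

/-- Lifting from the last face. -/
theorem lifting (hSE : Stmt_SE) (hPP : Stmt_PP) (hSV : Stmt_SV1) (hH : Stmt_HORN) (t : ℕ)
    (x : (MapP (Δ[n] : SSet.{0}) ∂Δ[n] V).obj (bx (t + 1)))
    (hx : ∀ i : Fin (t + 1), (MapP (Δ[n] : SSet.{0}) ∂Δ[n] V).map (dop i.succ) x = 0) :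
    ∃ y : (MapP (Δ[n + 1] : SSet.{0}) Λ[n + 1, Fin.last (n + 1)] V).obj (bx (t + 1)),
      pp y = x ∧ ∀ i : Fin (t + 1), (MapP (Δ[n + 1] : SSet.{0}) Λ[n + 1, Fin.last (n + 1)] V).map
        (dop i.succ) y = 0 := by
  have hx' : ∀ (k : Dop) (ρ : (Δ[n] : SSet.{0}).obj k) (θ : bx (t + 1) ⟶ k) (j : Fin (t + 2)),
      j ≠ 0 → Ms j θ → MapP.ev x k ρ θ = 0 := by
    intro k ρ θ j hj hθ
    obtain ⟨i, rfl⟩ := Fin.exists_succ_eq.2 hj
    obtain ⟨θ', rfl⟩ := ms_factor hθ
    exact congrArg (fun g => MapP.ev (Z₀ := ∂Δ[n]) (V := V) g k ρ θ') (hx i)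
  have hbd : ∀ (k : Dop) (ρ : bx n ⟶ k) (θ : bx (t + 1) ⟶ k), Bdy ρ →
      MapP.ev x k (ofE ρ) θ = 0 := by
    intro k ρ θ h
    refine MapP.van x _ θ ?_
    rw [mem_bd_iff, toE_ofE]
    exact (bdy_iff ρ).1 h
  obtain ⟨w, hw1, hw2⟩ := hSE hPP hSV (Δ[t + 1] : SSet.{0}) (Δ[n + 1] : SSet.{0})
    Λ[t + 1, 0] ∂Δ[n + 1] V (hH t 0)
    (fun k θ ρ => exf (Fin.last (n + 1)) (fun ρ' => MapP.ev x k (ofE ρ') (toE θ)) (toE ρ)) (by
      intro k l α θ ρ h
      rcases h with h | h
      · rw [exf_zero, exf_zero, map_zero]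
        · intro ρ'
          obtain ⟨j, hj, hj2⟩ := (mem_horn_iff' θ 0).1 h
          exact hx' k _ _ j hj hj2
        · intro ρ'
          obtain ⟨j, hj, hj2⟩ := (mem_horn_iff' θ 0).1 h
          exact hx' l _ _ j hj (hj2.comp α)
      · refine exf_nat (Fin.last (n + 1)) α _ _ (fun ρ' => ?_) (fun ρ' hρ => hbd l ρ' _ hρ)
          (toE ρ) h
        exact MapP.nat x α (ofE ρ') (toE θ))
  refine ⟨MapP.mk (fun k ρ θ => w k (ofE θ) ρ) (fun α ρ θ => hw1 α (ofE θ) ρ)
    (fun k ρ θ h => ?_), ?_, fun i => ?_⟩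
  · obtain ⟨j, hj, hj2⟩ := (mem_horn_iff' ρ _).1 h
    rw [hw2 k _ ρ (Or.inr ((mem_bd_iff ρ).2 ⟨j, hj2⟩))]
    exact exf_ms _ _ (fun ρ' hρ => hbd k ρ' _ hρ) _ j hj hj2
  · refine MapP.ext fun k ρ σ => ?_
    show w k (ofE σ) (ofE (dop (Fin.last (n + 1)) ≫ toE ρ)) = MapP.ev x k ρ σ
    rw [hw2 k _ _ (Or.inr ((mem_bd_iff _).2 ⟨Fin.last (n + 1), by rw [toE_ofE]; exact ms_self _ _⟩)),
      toE_ofE (dop (Fin.last (n + 1)) ≫ toE ρ), exf_dop, ofE_toE, toE_ofE]
  · refine MapP.ext fun k ρ σ => ?_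
    show w k (ofE (dop i.succ ≫ σ)) ρ = 0
    rw [hw2 k _ _ (Or.inl ((mem_horn_iff' _ _).2 ⟨i.succ, Fin.succ_ne_zero i, by
      rw [toE_ofE]; exact ms_self _ _⟩))]
    refine exf_zero _ _ (fun ρ' => ?_) _
    rw [toE_ofE]
    exact hx' k _ _ i.succ (Fin.succ_ne_zero i) (ms_self _ _)

end

end TTTr

open TTTr in
theorem tt_tr : Stmt_TR := by
  intro hMB hCON hSE hPP hSV hH
  refine ⟨part1, fun D n hB => ?_⟩
  refine hCON hMB (D.mp (Δ[n + 1] : SSet.{0}) ∂Δ[n + 1])
    (D.mp (Δ[n + 1] : SSet.{0}) Λ[n + 1, Fin.last (n + 1)]) (D.mp (Δ[n] : SSet.{0}) ∂Δ[n]) 0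
    (fun s k g => jj g) (fun s k g => pp g) ?_ ?_ ?_ ?_ ?_ ?_ ?_ ?_ ?_ ?_ hB
  · intro s k a b
    exact MapP.ext fun r z σ => rfl
  · intro s k a b
    exact MapP.ext fun r z σ => rfl
  · intro s k a b hab
    refine MapP.ext fun r z σ => ?_
    exact congrArg (fun g => MapP.ev (Z₀ := Λ[n + 1, Fin.last (n + 1)]) (V := D.V s) g r z σ) hab
  · intro s k x
    exact pp_zero_iff x
  · intro s k l α x
    exact MapP.ext fun r z σ => rfl
  · intro s k l α x
    exact MapP.ext fun r z σ => rfl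
  · intro s i k x
    exact MapP.ext fun r z σ => rfl
  · intro s i k x
    exact MapP.ext fun r z σ => rfl
  · intro s t z hz
    exact acyc hSE hPP hSV hH t z hz
  · intro s t x hx
    exact lifting hSE hPP hSV hH t x hx

end Pool.Agent.SH.TT

end

end

section

/-!
# MP_2d0b73_an, block III-T, module TT_COA: the coaugmentation of the resolution
-/

open CategoryTheory Simplicial SSet Opposite MonoidalCategory

noncomputable section

namespace Pool.Agent.SH.TT

namespace COA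

/-- The iterated unit. -/
def u (A : Pointed.{0}) (s : ℕ) : iob RM A 0 ⟶ iob RM A (s + 1) :=
  Fm RM A (s + 1) 0 (emp (s + 1))

theorem u_nat {A B : Pointed.{0}} (f : A ⟶ B) (s : ℕ) :
    (it RM 0).map f ≫ u B s = u A s ≫ (it RM (s + 1)).map f :=
  Fm_nat RM f (s + 1) 0 (emp (s + 1))

theorem u_cof (A : Pointed.{0}) (s : ℕ) (i : Fin (s + 2)) :
    u A s ≫ ((reso RM).map (SimplexCategory.δ i)).app A = u A (s + 1) := by
  have h := Fm_comp RM A (s + 2) (s + 1) 0 (emp (s + 1)) (SimplexCategory.δ i).toOrderHom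
  have h2 : (SimplexCategory.δ i).toOrderHom.comp (emp (s + 1)) = emp (s + 2) := by
    ext j
    exact j.elim0
  rw [h2] at h
  exact h

theorem u_zero (A : Pointed.{0}) : u A 0 = et RM A 0 := by
  have h : Fm RM A 0 0 (emp 0) = 𝟙 _ := by unfold Fm; rfl
  rw [u, Fm_zero, h, Category.id_comp]

theorem et_zero (A : Pointed.{0}) (a : A.X) : (et RM A 0).toFun a = brk A.point a := by
  rfl

end COA

open COA

theorem tt_coa : Stmt_COA := by
  intro m
  refine ⟨{ f := fun s k x _ => (u ((Sph m).obj k) s).toFun x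
            nat := ?_
            cof := ?_ }, ?_, ?_⟩
  · intro s k l α z t
    exact congrFun (congrArg Pointed.Hom.toFun (u_nat ((Sph m).map α) s)) z
  · intro s i k z t
    exact (congrFun (congrArg Pointed.Hom.toFun (u_cof ((Sph m).obj k) s i)) z).symm
  · intro k x t
    have h := congrFun (congrArg Pointed.Hom.toFun (u_zero ((Sph m).obj k))) x
    exact h.trans (et_zero ((Sph m).obj k) x)
  · intro s k t
    exact (u ((Sph m).obj k) s).map_point

end Pool.Agent.SH.TT

end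

end

section

/-!
# MP_2d0b73_an, block III-T: the inputs from block TE

`Stmt_PP`, `Stmt_HORN`, `Stmt_SV1` of `StmtsV.lean` as consequences of `TEall.lean`.
-/

open CategoryTheory Simplicial SSet Opposite MonoidalCategory

noncomputable section

namespace Pool.Agent.SH.TT

/-- Pushout products of `F_2`-homology isomorphisms. -/
theorem pp : Stmt_PP := fun X Y A B h => TE.pp F2Iso TE.f2wc X Y A B h

/-- Horn inclusions are `F_2`-homology isomorphisms. -/
theorem horn : Stmt_HORN := fun n i => TE.horn F2Iso TE.f2wc n i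

/-- Extension of maps into simplicial vector spaces. -/
theorem sv1 : Stmt_SV1 := fun A B i hi h V u => TE.svext V A B i hi h u

end Pool.Agent.SH.TT

end

end

section

/-!
# MP_2d0b73_an, block III-T: final assembly, modulo the algebraic input `Stmt_EX`
-/

set_option autoImplicit false

namespace Pool.Agent.SH.TT

theorem ttFinal (hEX : Stmt_EX) : Stmt_TT :=
  TTASM pp horn sv1 tt_rep tt_se tt_totx tt_omx tt_xpm tt_totc tt_omc tt_mb tt_cone tt_hadd
    tt_conp tt_tr tt_nul tt_omw tt_fin (ess tt_coa) hEX TE.f2 TE.bdry TE.keye TE.t23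

end Pool.Agent.SH.TT


end

section

/-!
# Block III-Q: sums and compositions of simplicial homotopies
-/

open CategoryTheory CategoryTheory.Limits AlgebraicTopology Opposite Simplicial

namespace Pool.Agent.SHQ

namespace HAD

/-- The sum of two simplicial homotopies. -/
def add {C : Type*} [Category C] [Preadditive C] {X Y : SimplicialObject C}
    {f g f' g' : X ⟶ Y} (H : SimplicialObject.Homotopy f g)
    (H' : SimplicialObject.Homotopy f' g') : SimplicialObject.Homotopy (f + f') (g + g') where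
  h i := H.h i + H'.h i
  h_zero_comp_δ_zero n := by
    rw [Preadditive.add_comp, H.h_zero_comp_δ_zero, H'.h_zero_comp_δ_zero]
    rfl
  h_last_comp_δ_last n := by
    rw [Preadditive.add_comp, H.h_last_comp_δ_last, H'.h_last_comp_δ_last]
    rfl
  h_succ_comp_δ_castSucc_of_lt i j hij := by
    rw [Preadditive.add_comp, Preadditive.comp_add, H.h_succ_comp_δ_castSucc_of_lt i j hij,
      H'.h_succ_comp_δ_castSucc_of_lt i j hij]
  h_succ_comp_δ_castSucc_succ j := by
    rw [Preadditive.add_comp, Preadditive.add_comp, H.h_succ_comp_δ_castSucc_succ j,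
      H'.h_succ_comp_δ_castSucc_succ j]
  h_castSucc_comp_δ_succ_of_lt i j hji := by
    rw [Preadditive.add_comp, Preadditive.comp_add, H.h_castSucc_comp_δ_succ_of_lt i j hji,
      H'.h_castSucc_comp_δ_succ_of_lt i j hji]
  h_comp_σ_castSucc_of_le i j hij := by
    rw [Preadditive.add_comp, Preadditive.comp_add, H.h_comp_σ_castSucc_of_le i j hij,
      H'.h_comp_σ_castSucc_of_le i j hij]
  h_comp_σ_succ_of_lt i j hji := by
    rw [Preadditive.add_comp, Preadditive.comp_add, H.h_comp_σ_succ_of_lt i j hji,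
      H'.h_comp_σ_succ_of_lt i j hji]

/-- Transport of homotopies along equalities. -/
theorem cast {C : Type*} [Category C] {X Y : SimplicialObject C} {f g f' g' : X ⟶ Y}
    (hf : f = f') (hg : g = g') (H : SimplicialObject.Homotopy f g) :
    Nonempty (SimplicialObject.Homotopy f' g') := by
  subst hf hg
  exact ⟨H⟩

end HAD

/-- (HAD) -/
theorem had : HAD_Stmt := by
  rintro C _ _ X Y f g f' g' ⟨H⟩ ⟨H'⟩
  exact ⟨HAD.add H H'⟩

/-- (SHEC) -/
theorem shec : SHEC_Stmt := by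
  rintro C _ X E Y i p q s hip hsq ⟨H1⟩ ⟨H2⟩
  refine ⟨s ≫ p, HAD.cast ?_ ?_ ((H2.precomp i).postcomp p),
    HAD.cast ?_ ?_ ((H1.precomp s).postcomp q)⟩
  · simp only [Category.assoc]
  · rw [Category.comp_id, hip]
  · simp only [Category.assoc]
  · rw [Category.comp_id, hsq]

end Pool.Agent.SHQ


end

section

/-!
# SHQ_PRJ: acyclic complexes of vector spaces are projective and injective
-/

open CategoryTheory CategoryTheory.Limits AlgebraicTopology Opposite Simplicial

namespace Pool.Agent.SHQ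

namespace PRJ

variable {k : Type} [Field k]

theorem sect_aux {V W : Type} [AddCommGroup V] [Module k V] [AddCommGroup W] [Module k W]
    (f : V →ₗ[k] W) (hf : LinearMap.range f = ⊤) : ∃ g : W →ₗ[k] V, f.comp g = LinearMap.id :=
  haveI : Module.Free k W := Module.Free.of_divisionRing k W
  haveI : Module.Projective k W := Module.Projective.of_free
  f.exists_rightInverse_of_surjective hf

theorem exists_retr {X Y : ModuleCat.{0} k} (i : X ⟶ Y) [Mono i] :
    ∃ r : Y ⟶ X, i ≫ r = 𝟙 X := by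
  have h : Function.Injective i.hom := (ModuleCat.mono_iff_injective i).1 inferInstance
  obtain ⟨r, hr⟩ := i.hom.exists_leftInverse_of_injective (LinearMap.ker_eq_bot.2 h)
  exact ⟨ModuleCat.ofHom r, ModuleCat.hom_ext hr⟩

theorem exists_sect {X Y : ModuleCat.{0} k} (e : X ⟶ Y) [Epi e] :
    ∃ s : Y ⟶ X, s ≫ e = 𝟙 Y := by
  have h : Function.Surjective e.hom := (ModuleCat.epi_iff_surjective e).1 inferInstance
  obtain ⟨s, hs⟩ := sect_aux e.hom (LinearMap.range_eq_top.2 h)
  exact ⟨ModuleCat.ofHom s, ModuleCat.hom_ext hs⟩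

theorem proj (X : ModuleCat.{0} k) : Projective X where
  factors {E Y} f e he := by
    obtain ⟨s, hs⟩ := exists_sect e
    exact ⟨f ≫ s, by rw [Category.assoc, hs, Category.comp_id]⟩

theorem contraction (K : ChainComplex (ModuleCat.{0} k) ℕ) (hK : K.Acyclic) :
    ∃ h : ∀ i j, K.X i ⟶ K.X j, Homotopy.nullHomotopicMap h = 𝟙 K := by
  let Z : ModuleCat.{0} k := ModuleCat.of k PUnit
  have hZ : IsZero Z := ModuleCat.isZero_of_subsingleton _
  have hS : IsZero ((ChainComplex.single₀ (ModuleCat.{0} k)).obj Z) :=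
    Functor.map_isZero _ hZ
  let π : K ⟶ (ChainComplex.single₀ (ModuleCat.{0} k)).obj Z := 0
  have hq : QuasiIso π := by
    rw [quasiIso_iff]
    intro i
    rw [quasiIsoAt_iff_exactAt π i (hK i)]
    rw [HomologicalComplex.exactAt_iff_isZero_homology]
    exact Functor.map_isZero (HomologicalComplex.homologyFunctor _ _ i) hS
  let P : ProjectiveResolution Z :=
    { complex := K
      projective := fun n => proj _
      π := π
      quasiIso := hq }
  have H : Homotopy (𝟙 K) (0 : K ⟶ K) :=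
    ProjectiveResolution.liftHomotopy (P := P) (Q := P) (0 : Z ⟶ Z) (𝟙 K) 0
      (hS.eq_of_tgt _ _) (hS.eq_of_tgt _ _)
  refine ⟨H.hom, ?_⟩
  ext1 i
  have := H.comm i
  simp only [HomologicalComplex.zero_f, add_zero] at this
  exact this.symm

end PRJ

theorem prj (k : Type) [Field k] : PRJ_Stmt k := by
  intro K hK
  obtain ⟨h, hh⟩ := PRJ.contraction K hK
  constructor
  · refine ⟨?_⟩
    intro X Y f e he
    have h1 : ∀ n, Epi (e.f n) := fun n => inferInstance
    choose s hs using fun n => PRJ.exists_sect (e.f n)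
    refine ⟨Homotopy.nullHomotopicMap fun i j => h i j ≫ f.f j ≫ s j, ?_⟩
    rw [Homotopy.nullHomotopicMap_comp]
    simp only [Category.assoc, hs, Category.comp_id]
    rw [← Homotopy.nullHomotopicMap_comp, hh, Category.id_comp]
  · refine ⟨?_⟩
    intro X Y f i hi
    have h1 : ∀ n, Mono (i.f n) := fun n => inferInstance
    choose r hr using fun n => PRJ.exists_retr (i.f n)
    refine ⟨Homotopy.nullHomotopicMap fun a b => (r a ≫ f.f a) ≫ h a b, ?_⟩
    rw [Homotopy.comp_nullHomotopicMap]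
    have h2 : (fun a b => i.f a ≫ (r a ≫ f.f a) ≫ h a b) = fun a b => f.f a ≫ h a b := by
      funext a b
      rw [← Category.assoc, ← Category.assoc, hr, Category.id_comp]
    rw [h2, ← Homotopy.comp_nullHomotopicMap, hh, Category.comp_id]

end Pool.Agent.SHQ


end

section

/-!
# Block III-Q (MP_2d0b73_an): Lemma Q

If `f` is a quasi-isomorphism in every positive degree, then it is one on the indecomposables.
-/

open CategoryTheory CategoryTheory.Limits AlgebraicTopology Opposite Simplicial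

namespace Pool.Agent.SHQ

namespace LMQ

/-- `QI` is invariant under natural isomorphisms of the functor applied levelwise. -/
theorem qi_iso {C D : Type 1} [Category.{0} C] [Category.{0} D] [Abelian D] {F G : C ⥤ D}
    (e : F ≅ G) {X Y : SimplicialObject C} (f : X ⟶ Y) (h : QI ((wh F).map f)) :
    QI ((wh G).map f) := by
  unfold QI at h ⊢
  have a : Arrow.mk ((wh F).map f) ≅ Arrow.mk ((wh G).map f) :=
    Arrow.isoMk (((SimplicialObject.whiskering C D).mapIso e).app X)
      (((SimplicialObject.whiskering C D).mapIso e).app Y)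
      ((((SimplicialObject.whiskering C D).mapIso e).hom.naturality f).symm)
  have b : Arrow.mk ((alternatingFaceMapComplex D).map ((wh F).map f)) ≅
      Arrow.mk ((alternatingFaceMapComplex D).map ((wh G).map f)) :=
    (alternatingFaceMapComplex D).mapArrow.mapIso a
  exact quasiIso_of_arrow_mk_iso _ _ b

/-- Levelwise application of a composition of functors. -/
theorem qi_comp {C D E : Type 1} [Category.{0} C] [Category.{0} D] [Category.{0} E] [Abelian E]
    (F : C ⥤ D) (G : D ⥤ E) {X Y : SimplicialObject C} (f : X ⟶ Y)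
    (h : QI ((wh G).map ((wh F).map f))) : QI ((wh (F ⋙ G)).map f) := h

/-- Levelwise application of a composition of functors, for a simplicial homotopy equivalence. -/
theorem qi_she (hW : SHEW_Stmt) (hQ : SHEQ_Stmt) {C D E : Type 1} [Category.{0} C]
    [Category.{0} D] [Category.{0} E] [Abelian E] (F : C ⥤ D) (G : D ⥤ E)
    {X Y : SimplicialObject C} (f : X ⟶ Y) (h : SHE ((wh F).map f)) :
    QI ((wh (F ⋙ G)).map f) :=
  qi_comp F G f (hQ E _ _ _ (hW D E G _ _ _ h))

/-- A map between levelwise zero objects is a quasi-isomorphism. -/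
theorem qi_zero {D : Type 1} [Category.{0} D] [Abelian D] {X Y : SimplicialObject D} (f : X ⟶ Y)
    (hX : ∀ n, IsZero (X.obj n)) (hY : ∀ n, IsZero (Y.obj n)) : QI f := by
  have h1 : ∀ n, IsIso (f.app n) := fun n =>
    ⟨(hY n).to_ _, (hX n).eq_of_src _ _, (hY n).eq_of_src _ _⟩
  have h2 : IsIso f := NatIso.isIso_of_isIso_app f
  unfold QI
  infer_instance

section
variable {k : Type} [Field k]

theorem zero_Pf {A : PGA k} {p j : ℕ} (h : Psub A.dg p j = ⊥) : IsZero ((Pf p j).obj A) := by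
  have : Subsingleton (Psub A.dg p j) := by
    rw [h]; infer_instance
  exact ModuleCat.isZero_of_subsingleton (ModuleCat.of k (Psub A.dg p j))

theorem zero_Gf {A : PGA k} {p j : ℕ} (h : Psub A.dg p j = ⊥) : IsZero ((Gf p j).obj A) := by
  have : Subsingleton (Psub A.dg p j) := by
    rw [h]; infer_instance
  have : Subsingleton (Psub A.dg p j ⧸ Gker A p j) :=
    (Submodule.mkQ_surjective (Gker A p j)).subsingleton
  exact ModuleCat.isZero_of_subsingleton (ModuleCat.of k (Psub A.dg p j ⧸ Gker A p j))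

end

end LMQ

/-- (LMQ) -/
theorem lmq (k : Type) [Field k] : SHEW_Stmt → SHEQ_Stmt → DPI_Stmt k → PSB_Stmt k → TOT_Stmt k →
    PHI_Stmt k → LMQ_Stmt k := by
  intro hW hQ hD hP hT hPhi X Y f hf j
  induction j using Nat.strong_induction_on with
  | _ j ih =>
  intro hj
  have h0 : ∀ i : Fin j,
      QI ((wh (Pi.eval (fun _ : Fin j => ModuleCat.{0} k) i)).map ((wh (Qf j)).map f)) := by
    intro i
    by_cases hi : (i : ℕ) = 0
    · have h1 : ∀ A : PGA k, IsZero ((Gf 1 (i : ℕ)).obj A) := fun A => by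
        rw [hi]
        exact LMQ.zero_Gf ((hP A).2.1 1 0 (by omega))
      exact LMQ.qi_zero _ (fun n => h1 (X.obj n)) (fun n => h1 (Y.obj n))
    · exact ih i i.2 (by omega)
  have h1 : SHE ((wh (Qf j)).map f) := hD (Fin j) _ _ _ h0
  have h2 : ∀ p, 2 ≤ p → QI ((wh (Gf p j)).map f) := by
    intro p hp
    obtain ⟨e⟩ := hPhi p j hp
    exact LMQ.qi_iso e.symm f (LMQ.qi_she hW hQ (Qf j) (Phi p j) f h1)
  have h3 : ∀ d p, 2 ≤ p → j < p + d → QI ((wh (Pf p j)).map f) := by
    intro d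
    induction d with
    | zero =>
      intro p _ hjp
      exact LMQ.qi_zero _ (fun n => LMQ.zero_Pf ((hP (X.obj n)).2.1 p j (by omega)))
        (fun n => LMQ.zero_Pf ((hP (Y.obj n)).2.1 p j (by omega)))
    | succ d ihd =>
      intro p hp hjp
      exact (hT X Y f p j (by omega)).1 (ihd (p + 1) (by omega) (by omega)) (h2 p hp)
  exact (hT X Y f 1 j le_rfl).2 (h3 j 2 le_rfl (by omega)) (hf j hj)

end Pool.Agent.SHQ


end

section

/-!
# Boundedness of the derived indecomposables (module SHQ_FIN)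
-/

open CategoryTheory CategoryTheory.Limits AlgebraicTopology Opposite Simplicial

namespace Pool.Agent.SHQ.FIN

variable {k : Type} [Field k]

/-- Exactness in degree `0` of the alternating complex, elementwise. -/
theorem acyc_zero (X : SimplicialObject (ModuleCat.{0} k)) (h : Acyc X)
    (a : X.obj (op ⦋0⦌)) :
    ∃ e : X.obj (op ⦋1⦌), a = (X.δ 0).hom e - (X.δ 1).hom e := by
  have h0 : (AlternatingFaceMapComplex.obj X).ExactAt 0 := h 0
  rw [HomologicalComplex.exactAt_iff' _ 1 0 0 (by simp) (by simp),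
    ShortComplex.moduleCat_exact_iff] at h0
  have hd : (AlternatingFaceMapComplex.obj X).d 0 0 = 0 :=
    HomologicalComplex.shape _ _ _ (by simp)
  obtain ⟨e, he⟩ := h0 a (by
    show ((AlternatingFaceMapComplex.obj X).d 0 0).hom a = 0
    rw [hd]
    rfl)
  refine ⟨e, ?_⟩
  have h1 : (AlternatingFaceMapComplex.obj X).d 1 0 = X.δ 0 - X.δ 1 := by
    rw [AlternatingFaceMapComplex.obj_d_eq]
    simp [Fin.sum_univ_two, sub_eq_add_neg]
  have he' : ((AlternatingFaceMapComplex.obj X).d 1 0).hom e = a := he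
  rw [h1] at he'
  rw [← he']
  rfl

/-- A map between acyclic objects is a quasi-isomorphism. -/
theorem qi_of_acyc {X Y : SimplicialObject (ModuleCat.{0} k)} (f : X ⟶ Y) (hX : Acyc X)
    (hY : Acyc Y) : QI f := by
  refine ⟨fun i => ?_⟩
  rw [quasiIsoAt_iff_exactAt _ _ (hX i)]
  exact hY i

/-- The target of a quasi-isomorphism with acyclic source is acyclic. -/
theorem acyc_of_qi {X Y : SimplicialObject (ModuleCat.{0} k)} (f : X ⟶ Y) (hX : Acyc X)
    (h : QI f) : Acyc Y := by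
  intro i
  have h1 : QuasiIsoAt ((alternatingFaceMapComplex (ModuleCat.{0} k)).map f) i :=
    h.quasiIsoAt i
  rwa [quasiIsoAt_iff_exactAt _ _ (hX i)] at h1

/-- A levelwise zero simplicial object is acyclic. -/
theorem acyc_of_zero {X : SimplicialObject (ModuleCat.{0} k)} (h : ∀ n, IsZero (X.obj n)) :
    Acyc X := by
  intro i
  exact ShortComplex.exact_of_isZero_X₂ _ (h _)

end Pool.Agent.SHQ.FIN

namespace Pool.Agent.SHQ

theorem fin (k : Type) [Field k] :
    PSB_Stmt k → LMQ_Stmt k → CMP_Stmt k → GEN_Stmt k → FIN_Stmt k := by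
  intro hPSB hLMQ hCMP hGEN B m x hm hx hac j hj hjm hj2
  have hx2 : x ^ 2 ∈ (B.obj (op ⦋0⦌)).dg (2 * m) := by
    have h1 := (hPSB (B.obj (op ⦋0⦌))).2.2.2.2 m m
    rw [pow_two, two_mul]
    exact h1 (Submodule.mul_mem_mul hx.1 hx.1)
  have h2m : 1 ≤ 2 * m := by omega
  have hP : ∀ n, Psub (B.obj n).dg 1 (2 * m) = (B.obj n).dg (2 * m) := fun n =>
    (hPSB (B.obj n)).2.2.1 _ h2m
  have hx2' : x ^ 2 ∈ Psub (B.obj (op ⦋0⦌)).dg 1 (2 * m) := by
    rw [hP]
    exact hx2
  obtain ⟨e, he⟩ := FIN.acyc_zero ((wh (Pf 1 (2 * m))).obj B)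
    (hac (2 * m) h2m (by omega)) (⟨x ^ 2, hx2'⟩ : Psub (B.obj (op ⦋0⦌)).dg 1 (2 * m))
  obtain ⟨e0, he0⟩ : ∃ e0 ∈ (B.obj (op ⦋1⦌)).dg (2 * m),
      x ^ 2 = PGA.Hom.toAlg (B.δ 0) e0 - PGA.Hom.toAlg (B.δ 1) e0 := by
    let e' : Psub (B.obj (op ⦋1⦌)).dg 1 (2 * m) := e
    refine ⟨e'.1, ?_, ?_⟩
    · rw [← hP]
      exact e'.2
    · exact congrArg Subtype.val he
  obtain ⟨he0m, he0e⟩ := he0
  set y := e0 - PGA.Hom.toAlg (B.σ 0) (PGA.Hom.toAlg (B.δ 1) e0) with hy
  have hs0 : ∀ a, PGA.Hom.toAlg (B.δ 0) (PGA.Hom.toAlg (B.σ (0 : Fin 1)) a) = a := by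
    intro a
    have h1 := B.δ_comp_σ_self (i := (0 : Fin 1))
    have h2 := congrArg (fun g => PGA.Hom.toAlg g a) h1
    exact h2
  have hs1 : ∀ a, PGA.Hom.toAlg (B.δ 1) (PGA.Hom.toAlg (B.σ (0 : Fin 1)) a) = a := by
    intro a
    have h1 := B.δ_comp_σ_succ (i := (0 : Fin 1))
    have h2 := congrArg (fun g => PGA.Hom.toAlg g a) h1
    exact h2
  have hy0 : PGA.Hom.toAlg (B.δ 0) y = x ^ 2 := by
    rw [hy, map_sub, hs0, ← he0e]
  have hy1 : PGA.Hom.toAlg (B.δ 1) y = 0 := by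
    rw [hy, map_sub, hs1, sub_self]
  have hym : y ∈ (B.obj (op ⦋1⦌)).dg (2 * m) := by
    refine Submodule.sub_mem _ he0m ?_
    exact (B.σ 0).map_dg _ _ ((B.δ 1).map_dg _ _ he0m)
  obtain ⟨C, x0, hC1, hC2, hC3, hC4⟩ := hCMP m hm
  obtain ⟨f, hf⟩ := hC4 B x hx.1 y hym hy0 hy1
  have hQ : ∀ i, 1 ≤ i → QI ((wh (Pf 1 i)).map f) := by
    intro i hi
    by_cases him : i = m
    · subst him
      refine hGEN C B f i x0 hi hC1 ?_
      rw [hf]
      exact hx
    · exact FIN.qi_of_acyc _ (hC3 i hi him) (hac i hi him)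
  refine FIN.acyc_of_qi _ (FIN.acyc_of_zero fun n => ?_) (hLMQ C B f hQ j hj)
  exact hC2 n j hj hjm hj2

end Pool.Agent.SHQ


end

section

/-!
# Block III-Q (MP_2d0b73_an): acyclicity of the comparison object (CMA)
-/

open CategoryTheory CategoryTheory.Limits AlgebraicTopology Opposite Simplicial

namespace Pool.Agent.SHQ

namespace CMA

open scoped ZeroObject in
/-- An extra degeneracy over the augmentation to the zero object gives a contraction. -/
theorem ctr_of_extra {C : Type*} [Category C] [Preadditive C] [HasZeroObject C]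
    (X : SimplicialObject C) (s : ∀ n : ℕ, X _⦋n⦌ ⟶ X _⦋n + 1⦌)
    (h0 : s 0 ≫ X.δ 1 = 0) (h1 : ∀ n, s n ≫ X.δ 0 = 𝟙 _)
    (h2 : ∀ (n : ℕ) (i : Fin (n + 2)), s (n + 1) ≫ X.δ i.succ = X.δ i ≫ s n)
    (h3 : ∀ (n : ℕ) (i : Fin (n + 1)), s n ≫ X.σ i.succ = X.σ i ≫ s (n + 1)) : Ctr X := by
  let Y : SimplicialObject.Augmented C :=
    { left := X
      right := (0 : C)
      hom := 0 }
  let ed : SimplicialObject.Augmented.ExtraDegeneracy Y :=
    { s' := 0
      s := s
      s'_comp_ε := (isZero_zero C).eq_of_src _ _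
      s₀_comp_δ₁ := by
        rw [comp_zero]
        exact h0
      s_comp_δ₀ := h1
      s_comp_δ := h2
      s_comp_σ := h3 }
  have h4 : Y.hom ≫ ed.section_ = 0 := zero_comp
  have h5 : SimplicialObject.Homotopy (Y.hom ≫ ed.section_) (𝟙 X) := ed.homotopy
  rw [h4] at h5
  exact ⟨h5⟩

/-- extension of a map to `⦋1⦌` by `0` at the first vertex. -/
abbrev sh {n : ℕ} (φ : ⦋n⦌ ⟶ ⦋1⦌) : ⦋n + 1⦌ ⟶ ⦋1⦌ := SSet.Augmented.StandardSimplex.shift φ

theorem sh_zero {n : ℕ} (φ : ⦋n⦌ ⟶ ⦋1⦌) : (sh φ).toOrderHom 0 = 0 := rfl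

theorem sh_succ {n : ℕ} (φ : ⦋n⦌ ⟶ ⦋1⦌) (i : Fin (n + 1)) :
    (sh φ).toOrderHom i.succ = φ.toOrderHom i := rfl

theorem sh_comp {n n' : ℕ} (θ : ⦋n⦌ ⟶ ⦋n'⦌) (θ' : ⦋n + 1⦌ ⟶ ⦋n' + 1⦌)
    (h0 : θ'.toOrderHom 0 = 0) (h1 : ∀ i : Fin (n + 1), θ'.toOrderHom i.succ =
      (θ.toOrderHom i).succ) (φ : ⦋n'⦌ ⟶ ⦋1⦌) : sh (θ ≫ φ) = θ' ≫ sh φ := by
  apply SimplexCategory.Hom.ext
  ext i : 2
  change (sh (θ ≫ φ)).toOrderHom i = (sh φ).toOrderHom (θ'.toOrderHom i)
  cases i using Fin.cases with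
  | zero => rw [h0]; rfl
  | succ i => rw [h1]; rfl

theorem δ0_sh {n : ℕ} (φ : ⦋n⦌ ⟶ ⦋1⦌) : SimplexCategory.δ 0 ≫ sh φ = φ := by
  apply SimplexCategory.Hom.ext
  ext i : 2
  rfl

theorem δ1_sh (φ : ⦋0⦌ ⟶ ⦋1⦌) : CstE 0 (SimplexCategory.δ 1 ≫ sh φ) := by
  intro i
  fin_cases i
  rfl

section
variable (k : Type) [Field k]

/-- the map `u_φ ↦ u_φ` of the polynomial algebra on the `u_φ`. -/
noncomputable def emb (Δ : SimplexCategory) : CR k Δ →ₐ[k] CR k Δ :=
  MvPolynomial.aeval fun t => t.elim (MvPolynomial.X none ^ 2) fun φ => MvPolynomial.X (some φ)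

/-- the constant map with value one. -/
abbrev one (n : ℕ) : ⦋n⦌ ⟶ ⦋1⦌ := SimplexCategory.const ⦋n⦌ ⦋1⦌ 1

/-- images of the generators under the extra degeneracy. -/
noncomputable def sgen (n : ℕ) (t : Option (NC ⦋n⦌)) : CR k ⦋n + 1⦌ :=
  t.elim (uu k (sh (one n))) fun φ => uu k (sh φ.1)

/-- extra degeneracy on the polynomial algebra of the `u_φ`. -/
noncomputable def sig (n : ℕ) : CR k ⦋n⦌ →ₐ[k] CR k ⦋n + 1⦌ := MvPolynomial.aeval (sgen k n)

open Classical in
/-- `u_φ` in the polynomial algebra of the `u_φ`. -/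
noncomputable def vv {Δ : SimplexCategory} (φ : Δ ⟶ ⦋1⦌) : CR k Δ :=
  if h0 : CstE 0 φ then 0
  else if h1 : CstE 1 φ then MvPolynomial.X none
  else MvPolynomial.X (some ⟨φ, h0, h1⟩)

theorem emb_none (Δ : SimplexCategory) :
    emb k Δ (MvPolynomial.X none) = MvPolynomial.X none ^ 2 := by
  rw [emb, MvPolynomial.aeval_X]; rfl

theorem emb_some (Δ : SimplexCategory) (φ : NC Δ) :
    emb k Δ (MvPolynomial.X (some φ)) = MvPolynomial.X (some φ) := by
  rw [emb, MvPolynomial.aeval_X]; rfl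

theorem emb_vv {Δ : SimplexCategory} (φ : Δ ⟶ ⦋1⦌) : emb k Δ (vv k φ) = uu k φ := by
  unfold vv uu
  split_ifs with h0 h1
  · exact map_zero _
  · exact emb_none k Δ
  · exact emb_some k Δ _

theorem eq_one {n : ℕ} (φ : ⦋n⦌ ⟶ ⦋1⦌) (h : CstE 1 φ) : φ = one n := by
  apply SimplexCategory.Hom.ext
  ext i : 2
  exact h i

theorem sh_cst0 {n : ℕ} (φ : ⦋n⦌ ⟶ ⦋1⦌) (h : CstE 0 φ) : CstE 0 (sh φ) := by
  intro i
  change Fin (n + 2) at i
  cases i using Fin.cases with
  | zero => rfl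
  | succ i => exact h i

theorem sig_vv {n : ℕ} (φ : ⦋n⦌ ⟶ ⦋1⦌) : sig k n (vv k φ) = uu k (sh φ) := by
  unfold vv
  split_ifs with h0 h1
  · rw [uu_zero k (sh_cst0 φ h0), map_zero]
  · rw [sig, MvPolynomial.aeval_X, eq_one φ h1]
    rfl
  · rw [sig, MvPolynomial.aeval_X]
    rfl

/-- functoriality of the polynomial algebra of the `u_φ`. -/
noncomputable def Dmap {Δ Δ' : SimplexCategory} (θ : Δ ⟶ Δ') : CR k Δ' →ₐ[k] CR k Δ :=
  MvPolynomial.aeval fun t => t.elim (MvPolynomial.X none) fun φ => vv k (θ ≫ φ.1)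

theorem emb_D {Δ Δ' : SimplexCategory} (θ : Δ ⟶ Δ') :
    (emb k Δ).comp (Dmap k θ) = (CRmap k θ).comp (emb k Δ') := by
  refine MvPolynomial.algHom_ext fun t => ?_
  rw [AlgHom.comp_apply, AlgHom.comp_apply, Dmap, MvPolynomial.aeval_X]
  cases t with
  | none =>
    change emb k Δ (MvPolynomial.X none) = _
    rw [emb_none, emb_none, map_pow, CRmap_none]
  | some φ =>
    change emb k Δ (vv k (θ ≫ φ.1)) = _
    rw [emb_vv, emb_some, ← uu_some k φ, CRmap_uu]

theorem sig_D {n n' : ℕ} (θ : ⦋n⦌ ⟶ ⦋n'⦌) (θ' : ⦋n + 1⦌ ⟶ ⦋n' + 1⦌)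
    (h0 : θ'.toOrderHom 0 = 0) (h1 : ∀ i : Fin (n + 1), θ'.toOrderHom i.succ =
      (θ.toOrderHom i).succ) :
    (sig k n).comp (Dmap k θ) = (CRmap k θ').comp (sig k n') := by
  refine MvPolynomial.algHom_ext fun t => ?_
  rw [AlgHom.comp_apply, AlgHom.comp_apply, Dmap, MvPolynomial.aeval_X]
  cases t with
  | none =>
    change sig k n (MvPolynomial.X none) = _
    rw [sig, MvPolynomial.aeval_X, sig, MvPolynomial.aeval_X]
    change uu k (sh (one n)) = CRmap k θ' (uu k (sh (one n')))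
    rw [CRmap_uu, ← sh_comp θ θ' h0 h1]
    rfl
  | some φ =>
    change sig k n (vv k (θ ≫ φ.1)) = _
    rw [sig_vv, sig, MvPolynomial.aeval_X]
    change _ = CRmap k θ' (uu k (sh φ.1))
    rw [CRmap_uu, ← sh_comp θ θ' h0 h1]

theorem sig_δ0 (n : ℕ) : (CRmap k (SimplexCategory.δ 0)).comp (sig k n) = emb k ⦋n⦌ := by
  refine MvPolynomial.algHom_ext fun t => ?_
  rw [AlgHom.comp_apply, sig, MvPolynomial.aeval_X]
  cases t with
  | none =>
    rw [emb_none]
    change CRmap k (SimplexCategory.δ 0) (uu k (sh (one n))) = _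
    rw [CRmap_uu, δ0_sh, uu_one]
    intro i
    rfl
  | some φ =>
    rw [emb_some]
    change CRmap k (SimplexCategory.δ 0) (uu k (sh φ.1)) = _
    rw [CRmap_uu, δ0_sh, uu_some]

theorem sig_δ1 (t : Option (NC ⦋0⦌)) :
    CRmap k (SimplexCategory.δ 1) (sig k 0 (MvPolynomial.X t)) = 0 := by
  rw [sig, MvPolynomial.aeval_X]
  cases t with
  | none =>
    change CRmap k (SimplexCategory.δ 1) (uu k (sh (one 0))) = _
    rw [CRmap_uu, uu_zero k (δ1_sh _)]
  | some φ =>
    change CRmap k (SimplexCategory.δ 1) (uu k (sh φ.1)) = _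
    rw [CRmap_uu, uu_zero k (δ1_sh _)]

/-- Replace the exponent of the first variable. -/
noncomputable def mk {S : Type} (r : ℕ) (e : Option S →₀ ℕ) : Option S →₀ ℕ :=
  Finsupp.single none r + e.erase none

theorem mk_none {S : Type} (r : ℕ) (e : Option S →₀ ℕ) : mk r e none = r := by
  simp [mk]

theorem erase_mk {S : Type} (r : ℕ) (e : Option S →₀ ℕ) : (mk r e).erase none = e.erase none := by
  ext t
  cases t with
  | none => simp
  | some t => simp [mk]

theorem mk_mk {S : Type} (r r' : ℕ) (e : Option S →₀ ℕ) : mk r (mk r' e) = mk r e := by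
  rw [mk, erase_mk]
  rfl

theorem mk_self {S : Type} (e : Option S →₀ ℕ) : mk (e none) e = e :=
  Finsupp.single_add_erase none e

theorem mon_mk {S : Type} (r : ℕ) (e : Option S →₀ ℕ) :
    (MvPolynomial.monomial (mk r e) (1 : k)) =
      MvPolynomial.X none ^ r * MvPolynomial.monomial (e.erase none) 1 := by
  rw [mk, MvPolynomial.X_pow_eq_monomial, MvPolynomial.monomial_mul, one_mul]

theorem emb_erase {Δ : SimplexCategory} (e : Option (NC Δ) →₀ ℕ) (h : e none = 0) :
    emb k Δ (MvPolynomial.monomial e 1) = MvPolynomial.monomial e 1 := by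
  rw [emb, MvPolynomial.aeval_monomial, map_one, one_mul, MvPolynomial.monomial_eq, map_one,
    one_mul]
  refine Finset.prod_congr rfl fun t ht => ?_
  cases t with
  | none => exact absurd h (Finsupp.mem_support_iff.1 ht)
  | some φ => rfl

theorem emb_mon {Δ : SimplexCategory} (e : Option (NC Δ) →₀ ℕ) :
    emb k Δ (MvPolynomial.monomial e 1) = MvPolynomial.monomial (mk (2 * e none) e) 1 := by
  conv_lhs => rw [← mk_self e]
  rw [mon_mk, mon_mk, map_mul, map_pow, emb_none, ← pow_mul, emb_erase]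
  simp

/-- The extra degeneracy. -/
noncomputable def ss (n : ℕ) : CR k ⦋n⦌ →ₗ[k] CR k ⦋n + 1⦌ :=
  (MvPolynomial.basisMonomials (Option (NC ⦋n⦌)) k).constr k fun e =>
    MvPolynomial.X none ^ (e none % 2) * sig k n (MvPolynomial.monomial (mk (e none / 2) e) 1)

theorem ss_mon (n : ℕ) (e : Option (NC ⦋n⦌) →₀ ℕ) : ss k n (MvPolynomial.monomial e 1) =
    MvPolynomial.X none ^ (e none % 2) *
      sig k n (MvPolynomial.monomial (mk (e none / 2) e) 1) := by
  have h := (MvPolynomial.basisMonomials (Option (NC ⦋n⦌)) k).constr_basis k (fun e =>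
    MvPolynomial.X none ^ (e none % 2) * sig k n (MvPolynomial.monomial (mk (e none / 2) e) 1)) e
  rw [MvPolynomial.coe_basisMonomials] at h
  exact h

theorem mon_dec {Δ : SimplexCategory} (e : Option (NC Δ) →₀ ℕ) :
    (MvPolynomial.monomial e 1 : CR k Δ) =
      MvPolynomial.X none ^ (e none % 2) * emb k Δ (MvPolynomial.monomial (mk (e none / 2) e) 1) := by
  rw [emb_mon, mk_none, mk_mk, mon_mk, ← mul_assoc, ← pow_add, Nat.mod_add_div, ← mon_mk, mk_self]

theorem lin_ext_mon {S M : Type} [AddCommGroup M] [Module k M]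
    (f g : MvPolynomial S k →ₗ[k] M)
    (h : ∀ e, f (MvPolynomial.monomial e 1) = g (MvPolynomial.monomial e 1)) : f = g := by
  refine (MvPolynomial.basisMonomials S k).ext fun e => ?_
  rw [MvPolynomial.coe_basisMonomials]
  exact h e

theorem ss_mul_mon (n r : ℕ) (hr : r < 2) (e : Option (NC ⦋n⦌) →₀ ℕ) :
    ss k n (MvPolynomial.X none ^ r * emb k ⦋n⦌ (MvPolynomial.monomial e 1)) =
      MvPolynomial.X none ^ r * sig k n (MvPolynomial.monomial e 1) := by
  rw [emb_mon, mon_mk, ← mul_assoc, ← pow_add, ← mon_mk, ss_mon, mk_none, mk_mk]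
  have h1 : (r + 2 * e none) % 2 = r := by omega
  have h2 : (r + 2 * e none) / 2 = e none := by omega
  rw [h1, h2, mk_self]

theorem ss_mul (n r : ℕ) (hr : r < 2) (d : CR k ⦋n⦌) :
    ss k n (MvPolynomial.X none ^ r * emb k ⦋n⦌ d) = MvPolynomial.X none ^ r * sig k n d := by
  have h : (ss k n).comp ((LinearMap.mulLeft k (MvPolynomial.X none ^ r)).comp
      (emb k ⦋n⦌).toLinearMap) =
      (LinearMap.mulLeft k (MvPolynomial.X none ^ r)).comp (sig k n).toLinearMap := by
    refine lin_ext_mon k _ _ fun e => ?_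
    rw [LinearMap.comp_apply, LinearMap.comp_apply, LinearMap.comp_apply,
      LinearMap.mulLeft_apply, LinearMap.mulLeft_apply, AlgHom.toLinearMap_apply,
      AlgHom.toLinearMap_apply]
    exact ss_mul_mon k n r hr e
  have h2 := congr($h d)
  rw [LinearMap.comp_apply, LinearMap.comp_apply, LinearMap.comp_apply,
      LinearMap.mulLeft_apply, LinearMap.mulLeft_apply, AlgHom.toLinearMap_apply,
      AlgHom.toLinearMap_apply] at h2
  exact h2

/-- Equality of linear maps on the elements of the form `x ^ r * emb d`. -/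
theorem lin_ext {Δ : SimplexCategory} {M : Type} [AddCommGroup M] [Module k M]
    (f g : CR k Δ →ₗ[k] M)
    (h : ∀ (r : ℕ) (_ : r < 2) (d : CR k Δ),
      f (MvPolynomial.X none ^ r * emb k Δ d) = g (MvPolynomial.X none ^ r * emb k Δ d)) :
    f = g := by
  refine lin_ext_mon k _ _ fun e => ?_
  rw [mon_dec]
  exact h _ (Nat.mod_lt _ (by norm_num)) _

theorem CRmap_xr {Δ Δ' : SimplexCategory} (θ : Δ ⟶ Δ') (r : ℕ) (d : CR k Δ') :
    CRmap k θ (MvPolynomial.X none ^ r * d) = MvPolynomial.X none ^ r * CRmap k θ d := by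
  rw [map_mul (CRmap k θ), map_pow (CRmap k θ), CRmap_none]

theorem ss_nat {n n' : ℕ} (θ : ⦋n⦌ ⟶ ⦋n'⦌) (θ' : ⦋n + 1⦌ ⟶ ⦋n' + 1⦌)
    (h0 : θ'.toOrderHom 0 = 0) (h1 : ∀ i : Fin (n + 1), θ'.toOrderHom i.succ =
      (θ.toOrderHom i).succ) (c : CR k ⦋n'⦌) :
    ss k n (CRmap k θ c) = CRmap k θ' (ss k n' c) := by
  have h : (ss k n).comp (CRmap k θ).toLinearMap = (CRmap k θ').toLinearMap.comp (ss k n') := by
    refine lin_ext k _ _ fun r hr d => ?_
    rw [LinearMap.comp_apply, LinearMap.comp_apply, AlgHom.toLinearMap_apply,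
      AlgHom.toLinearMap_apply, ss_mul k n' r hr, CRmap_xr, CRmap_xr]
    have h2 : CRmap k θ (emb k _ d) = emb k _ (Dmap k θ d) := (congr($(emb_D k θ) d)).symm
    have h3 : sig k n (Dmap k θ d) = CRmap k θ' (sig k n' d) := congr($(sig_D k θ θ' h0 h1) d)
    rw [h2, ss_mul k n r hr, h3]
  have h4 := congr($h c)
  rw [LinearMap.comp_apply, LinearMap.comp_apply, AlgHom.toLinearMap_apply,
      AlgHom.toLinearMap_apply] at h4
  exact h4

theorem ss_δ0 (n : ℕ) (c : CR k ⦋n⦌) : CRmap k (SimplexCategory.δ 0) (ss k n c) = c := by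
  have h : (CRmap k (SimplexCategory.δ 0)).toLinearMap.comp (ss k n) = LinearMap.id := by
    refine lin_ext k _ _ fun r hr d => ?_
    rw [LinearMap.comp_apply, AlgHom.toLinearMap_apply, LinearMap.id_apply,
      ss_mul k n r hr, CRmap_xr]
    have h2 : CRmap k (SimplexCategory.δ 0) (sig k n d) = emb k _ d := congr($(sig_δ0 k n) d)
    rw [h2]
  have h4 := congr($h c)
  rw [LinearMap.comp_apply, AlgHom.toLinearMap_apply, LinearMap.id_apply] at h4
  exact h4

/-- Degrees. -/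
theorem aeval_mem {S : Type} {Δ : SimplexCategory} (m : ℕ) (g : S → CR k Δ) (w : S → ℕ)
    (hg : ∀ t, MvPolynomial.IsWeightedHomogeneous (wt m Δ) (g t) (w t)) (e : S →₀ ℕ) :
    MvPolynomial.IsWeightedHomogeneous (wt m Δ) (MvPolynomial.aeval g
      (MvPolynomial.monomial e (1 : k))) (Finsupp.weight w e) := by
  rw [MvPolynomial.aeval_monomial, map_one, one_mul]
  have h2 : MvPolynomial.IsWeightedHomogeneous (wt m Δ)
      (∏ i ∈ e.support, g i ^ e i) (∑ i ∈ e.support, e i • w i) := by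
    refine MvPolynomial.IsWeightedHomogeneous.prod _ _ _ fun i _ => ?_
    exact MvPolynomial.IsWeightedHomogeneous.pow (hg i) _
  exact h2

theorem wt_erase (m : ℕ) (Δ : SimplexCategory) (e : Option (NC Δ) →₀ ℕ) (h : e none = 0) :
    Finsupp.weight (wt m Δ) e = Finsupp.weight (fun _ => 2 * m) e := by
  rw [Finsupp.weight_apply, Finsupp.weight_apply]
  refine Finset.sum_congr rfl fun t ht => ?_
  cases t with
  | none => exact absurd h (Finsupp.mem_support_iff.1 ht)
  | some φ => rfl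

theorem wt_mk (m : ℕ) (Δ : SimplexCategory) (r : ℕ) (e : Option (NC Δ) →₀ ℕ) :
    Finsupp.weight (wt m Δ) (mk r e) = r * m +
      Finsupp.weight (fun _ => 2 * m) (e.erase none) := by
  rw [mk, map_add, Finsupp.weight_single, wt_erase m Δ (e.erase none) (by simp)]
  rfl

theorem wt2_mk (m : ℕ) {S : Type} (r : ℕ) (e : Option S →₀ ℕ) :
    Finsupp.weight (fun _ => 2 * m) (mk r e) = r * (2 * m) +
      Finsupp.weight (fun _ => 2 * m) (e.erase none) := by
  rw [mk, map_add, Finsupp.weight_single]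
  rfl

theorem ss_mon_mem (m n : ℕ) (e : Option (NC ⦋n⦌) →₀ ℕ) :
    MvPolynomial.IsWeightedHomogeneous (wt m ⦋n + 1⦌)
      (ss k n (MvPolynomial.monomial e 1)) (Finsupp.weight (wt m ⦋n⦌) e) := by
  rw [ss_mon]
  have h1 := (MvPolynomial.isWeightedHomogeneous_X k (wt m ⦋n + 1⦌) none).pow (e none % 2)
  have h2 : MvPolynomial.IsWeightedHomogeneous (wt m ⦋n + 1⦌)
      (sig k n (MvPolynomial.monomial (mk (e none / 2) e) 1))
      (Finsupp.weight (fun _ => 2 * m) (mk (e none / 2) e)) := by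
    refine aeval_mem k m (sgen k n) (fun _ => 2 * m) (fun t => ?_) _
    cases t with
    | none => exact uu_mem k m _
    | some φ => exact uu_mem k m _
  have h3 := h1.mul h2
  have h4 : (e none % 2) • wt m ⦋n + 1⦌ none +
      Finsupp.weight (fun _ => 2 * m) (mk (e none / 2) e) = Finsupp.weight (wt m ⦋n⦌) e := by
    conv_rhs => rw [← mk_self e]
    rw [wt_mk, wt2_mk, ← add_assoc]
    congr 1
    change (e none % 2) * m + _ = _
    have h5 := Nat.mod_add_div (e none) 2
    calc (e none % 2) * m + (e none / 2) * (2 * m) = (e none % 2 + 2 * (e none / 2)) * m := by ring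
      _ = e none * m := by rw [h5]
  rw [h4] at h3
  exact h3

theorem ss_mem (m n j : ℕ) (c : CR k ⦋n⦌)
    (hc : c ∈ MvPolynomial.weightedHomogeneousSubmodule k (wt m ⦋n⦌) j) :
    ss k n c ∈ MvPolynomial.weightedHomogeneousSubmodule k (wt m ⦋n + 1⦌) j := by
  rw [MvPolynomial.as_sum c, map_sum]
  refine Submodule.sum_mem _ fun e he => ?_
  have hw : Finsupp.weight (wt m ⦋n⦌) e = j := hc (MvPolynomial.mem_support_iff.1 he)
  have h1 : MvPolynomial.monomial e (MvPolynomial.coeff e c) =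
      MvPolynomial.coeff e c • (MvPolynomial.monomial e 1 : CR k ⦋n⦌) := by
    rw [MvPolynomial.smul_monomial, smul_eq_mul, mul_one]
  rw [h1, map_smul]
  refine Submodule.smul_mem _ _ ?_
  rw [← hw]
  exact ss_mon_mem k m n e

theorem ss_δ1 (m j : ℕ) (hj : 1 ≤ j) (hjm : j ≠ m) (c : CR k ⦋0⦌)
    (hc : c ∈ MvPolynomial.weightedHomogeneousSubmodule k (wt m ⦋0⦌) j) :
    CRmap k (SimplexCategory.δ 1) (ss k 0 c) = 0 := by
  rw [MvPolynomial.as_sum c, map_sum, map_sum]
  refine Finset.sum_eq_zero fun e he => ?_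
  have hw : Finsupp.weight (wt m ⦋0⦌) e = j := hc (MvPolynomial.mem_support_iff.1 he)
  have h1 : MvPolynomial.monomial e (MvPolynomial.coeff e c) =
      MvPolynomial.coeff e c • (MvPolynomial.monomial e 1 : CR k ⦋0⦌) := by
    rw [MvPolynomial.smul_monomial, smul_eq_mul, mul_one]
  rw [h1, map_smul, map_smul, ss_mon, CRmap_xr]
  have h2 : CRmap k (SimplexCategory.δ 1)
      (sig k 0 (MvPolynomial.monomial (mk (e none / 2) e) 1)) = 0 := by
    have h3 : mk (e none / 2) e ≠ 0 := by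
      intro h3
      have h4 : e none / 2 = 0 := by
        have := congr($h3 none)
        rw [mk_none] at this
        exact this
      have h5 : e.erase none = 0 := by
        rw [← erase_mk (e none / 2) e, h3]
        simp
      rw [← mk_self e, wt_mk, h5, map_zero, add_zero] at hw
      have h6 : e none = 0 ∨ e none = 1 := by omega
      rcases h6 with h6 | h6
      · rw [h6] at hw
        omega
      · rw [h6] at hw
        omega
    obtain ⟨t, ht⟩ := Finsupp.support_nonempty_iff.2 h3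
    have h4 : MvPolynomial.monomial (mk (e none / 2) e) (1 : k) =
        MvPolynomial.X t * MvPolynomial.monomial (mk (e none / 2) e - Finsupp.single t 1) 1 := by
      rw [← pow_one (MvPolynomial.X t), MvPolynomial.X_pow_eq_monomial, MvPolynomial.monomial_mul,
        one_mul, add_tsub_cancel_of_le]
      rw [Finsupp.single_le_iff]
      exact Nat.one_le_iff_ne_zero.2 (Finsupp.mem_support_iff.1 ht)
    rw [h4, map_mul (sig k 0), map_mul (CRmap k (SimplexCategory.δ 1)), sig_δ1, zero_mul]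
  rw [h2, mul_zero, smul_zero]

theorem ss_psub (hP : PSB_Stmt k) (m : ℕ) (hm : 1 ≤ m) (j : ℕ) (hj : 1 ≤ j) (n : ℕ) :
    ∀ c ∈ Psub (CO1 k m hm ⦋n⦌).dg 1 j, ss k n c ∈ Psub (CO1 k m hm ⦋n + 1⦌).dg 1 j := by
  intro c hc
  rw [(hP (CO1 k m hm ⦋n⦌)).2.2.1 j hj] at hc
  rw [(hP (CO1 k m hm ⦋n + 1⦌)).2.2.1 j hj]
  exact ss_mem k m n j c hc

/-- The extra degeneracy in degree `j`. -/
noncomputable def sM (hP : PSB_Stmt k) (m : ℕ) (hm : 1 ≤ m) (j : ℕ) (hj : 1 ≤ j) (n : ℕ) :
    ((wh (Pf 1 j)).obj (CO k m hm)) _⦋n⦌ ⟶ ((wh (Pf 1 j)).obj (CO k m hm)) _⦋n + 1⦌ :=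
  ModuleCat.ofHom ((ss k n).restrict (ss_psub k hP m hm j hj n))

end

end CMA

theorem cma (k : Type) [Field k] : SHEQ_Stmt → CTRA_Stmt → PSB_Stmt k → CMA_Stmt k := by
  intro _ hC hP m hm j hj hjm
  refine (hC (ModuleCat.{0} k) ((wh (Pf 1 j)).obj (CO k m hm))
    ((wh (Pf 1 j)).obj (CO k m hm))).2
    (CMA.ctr_of_extra _ (CMA.sM k hP m hm j hj) ?_ ?_ ?_ ?_)
  · ext x
    apply Subtype.ext
    have hx : x.1 ∈ Psub (CO1 k m hm ⦋0⦌).dg 1 j := x.2
    rw [(hP (CO1 k m hm ⦋0⦌)).2.2.1 j hj] at hx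
    exact CMA.ss_δ1 k m j hj hjm x.1 hx
  · intro n
    ext x
    apply Subtype.ext
    exact CMA.ss_δ0 k n x.1
  · intro n i
    ext x
    apply Subtype.ext
    refine (CMA.ss_nat k (SimplexCategory.δ i) (SimplexCategory.δ i.succ) ?_ ?_ x.1).symm
    · exact Fin.succ_succAbove_zero i
    · intro l
      exact Fin.succ_succAbove_succ i l
  · intro n i
    ext x
    apply Subtype.ext
    refine (CMA.ss_nat k (SimplexCategory.σ i) (SimplexCategory.σ i.succ) ?_ ?_ x.1).symm
    · rfl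
    · intro l
      exact Fin.succ_predAbove_succ i l

end Pool.Agent.SHQ


end

section

/-!
# Block III-Q (MP_2d0b73_an): the theorem of Dold over a field, Lemma Q, the bound (FIN)
-/

namespace Pool.Agent.SHQ

theorem dkp_all (k : Type) [Field k] : DKP_Stmt k := dkp k (prj k)

/-- Acyclic simplicial vector spaces are contractible. -/
theorem ctr_all (k : Type) [Field k] : CTR_Stmt k := ctr k ctra (dkp_all k) (dec k)

/-- The theorem of Dold. -/
theorem dol_all (k : Type) [Field k] : DOL_Stmt k :=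
  dol k had shec sheq ctra (dkp_all k) (dec k) (epi k) (ker k) (ctr_all k)

/-- The theorem of Dold for families. -/
theorem dpi_all (k : Type) [Field k] : DPI_Stmt k := dpi k (dol_all k)

/-- Lemma Q. -/
theorem lmq_all (k : Type) [Field k] : LMQ_Stmt k :=
  lmq k shew sheq (dpi_all k) (psb k) (tot k (psb k)) (phi k (psb k))

/-- The comparison object. -/
theorem cmp_all (k : Type) [Field k] : CMP_Stmt k :=
  cmp k (cma k sheq ctra (psb k)) (cmg k (psb k)) (cmi k (psb k)) (cmu k)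

/-- Boundedness of the derived indecomposables. -/
theorem fin_all (k : Type) [Field k] : FIN_Stmt k :=
  fin k (psb k) (lmq_all k) (cmp_all k) (gen k (psb k))

end Pool.Agent.SHQ


end

section

/-!
LINK: spheres are locally finite, the fundamental cochain is a cocycle, the circle.
-/

namespace Pool.Agent.SHL

open Pool.Agent.SHS Pool.Agent.SHS.Hty

namespace Sphb

theorem fin_mor (m n : ℕ) : Finite (Mor m n) :=
  Finite.of_injective (fun f : Mor m n => (f : Fin (m + 1) → Fin (n + 1)))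
    (fun _ _ h => OrderHom.ext _ _ h)

theorem fin_k : Finite k := inferInstanceAs (Finite (ZMod 2))

theorem sph_lf (t : ℕ) : (Sph t).LF := by
  intro n
  have h1 : Finite (Mor n t) := fin_mor n t
  show Finite (Option {a : Mor n t // Function.Surjective a})
  infer_instance

theorem bb_lf (d : ℕ) : (BB.pow d).LF := by
  intro n
  have h2 : Finite k := fin_k
  have h3 : Finite (Nrm n k) := inferInstance
  show Finite (Fin d → Nrm n k)
  infer_instance

/-- a surjective monotone map [t+1] → [t] is a codegeneracy -/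
theorem exists_cod {t : ℕ} (a : Mor (t + 1) t) (ha : Function.Surjective a) :
    ∃ j ≤ t, a = codN j t := by
  have h1 : ¬ StrictMono a := by
    intro h
    have h2 := Fintype.card_le_of_injective a h.injective
    rw [Fintype.card_fin, Fintype.card_fin] at h2
    omega
  rw [Fin.strictMono_iff_lt_succ] at h1
  push Not at h1
  obtain ⟨i, hi⟩ := h1
  have hi2 := i.2
  have h3 : a i.castSucc = a i.succ :=
    le_antisymm (a.monotone (Fin.castSucc_lt_succ).le) hi
  refine ⟨i.1, by omega, ?_⟩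
  have hv : ∀ (v w : Fin (t + 2)), v.1 = i.1 → w.1 = i.1 + 1 → a v = a w := by
    intro v w hv hw
    have e1 : v = i.castSucc := Fin.ext hv
    have e2 : w = i.succ := Fin.ext hw
    rw [e1, e2, h3]
  have hs : Function.Surjective (a.comp (cofN i.1 t)) := by
    intro y
    obtain ⟨x, hx⟩ := ha y
    have hx2 := x.2
    by_cases h : x.1 = i.1
    · refine ⟨⟨i.1, by omega⟩, ?_⟩
      rw [← hx]
      refine (hv x _ h ?_).symm
      rw [cofN_val]
      show (if i.1 < i.1 then i.1 else i.1 + 1) = i.1 + 1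
      rw [if_neg (lt_irrefl _)]
    · refine ⟨⟨if x.1 < i.1 then x.1 else x.1 - 1, by split_ifs <;> omega⟩, ?_⟩
      rw [← hx]
      show a _ = a x
      congr 1
      apply Fin.ext
      rw [cofN_val]
      show (if (if x.1 < i.1 then x.1 else x.1 - 1) < i.1 then
        (if x.1 < i.1 then x.1 else x.1 - 1) else (if x.1 < i.1 then x.1 else x.1 - 1) + 1) = x.1
      split_ifs <;> omega
  have hinj : Function.Injective (a.comp (cofN i.1 t)) := Finite.injective_iff_surjective.2 hs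
  have hid : ((a.comp (cofN i.1 t) : Mor t t) : Fin (t + 1) → Fin (t + 1)) = id := by
    have hsm := (a.comp (cofN i.1 t)).monotone.strictMono_of_injective hinj
    have e := Subsingleton.elim (hsm.orderIsoOfSurjective _ hs) (OrderIso.refl (Fin (t + 1)))
    funext v
    exact congrArg (fun o : Fin (t + 1) ≃o Fin (t + 1) => o v) e
  have hc : ∀ v : Fin (t + 1), a (cofN i.1 t v) = v := fun v => congrFun hid v
  apply mor_ext
  intro v
  have hv2 := v.2
  rw [codN_val]
  by_cases h : v.1 < i.1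
  · have e := congrArg Fin.val (hc ⟨v.1, by omega⟩)
    have e2 : cofN i.1 t ⟨v.1, by omega⟩ = v := by
      apply Fin.ext
      rw [cofN_val]
      show (if v.1 < i.1 then v.1 else v.1 + 1) = v.1
      rw [if_pos h]
    rw [e2] at e
    rw [e, if_pos h.le]
    show v.1 = min v.1 t
    omega
  · by_cases h' : v.1 = i.1
    · have e := congrArg Fin.val (hc ⟨i.1, by omega⟩)
      have e2 : a v = a (cofN i.1 t ⟨i.1, by omega⟩) := by
        refine hv v _ h' ?_
        rw [cofN_val]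
        show (if i.1 < i.1 then i.1 else i.1 + 1) = i.1 + 1
        rw [if_neg (lt_irrefl _)]
      rw [e2, e, if_pos h'.le]
      show i.1 = min v.1 t
      omega
    · have e := congrArg Fin.val (hc ⟨v.1 - 1, by omega⟩)
      have e2 : cofN i.1 t ⟨v.1 - 1, by omega⟩ = v := by
        apply Fin.ext
        rw [cofN_val]
        show (if v.1 - 1 < i.1 then v.1 - 1 else v.1 - 1 + 1) = v.1
        rw [if_neg (by omega)]
        omega
      rw [e2] at e
      rw [e, if_neg (by omega)]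
      show v.1 - 1 = min (v.1 - 1) t
      omega

theorem eps_face {t i j : ℕ} (hj : j ≤ t) (hi : i ≤ t + 1)
    (a : {a : Mor (t + 1) t // Function.Surjective a}) (ha : a.1 = codN j t) :
    epsC t ((Sph t).map (cofN i t) (some a)) = if i = j ∨ i = j + 1 then 1 else 0 := by
  show epsC t ((PS.sphere t).map (cofN i t) a) = _
  by_cases h : Function.Surjective (a.1.comp (cofN i t))
  · rw [sphere_map_pos _ a h]
    rw [if_pos]
    · rfl
    · by_contra hne
      push Not at hne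
      rw [ha] at h
      exact cod_cof_nsurj hj hi hne.1 hne.2 h
  · rw [sphere_map_neg _ a h]
    rw [if_neg]
    · rfl
    · intro hij
      apply h
      rw [ha]
      rcases hij with rfl | rfl
      · rw [cod_cof_self]
        exact Function.surjective_id
      · rw [cod_cof_succ]
        exact Function.surjective_id

end Sphb

open Sphb

theorem SPHF : SPHF_Stmt := sph_lf

theorem EPS : EPS_Stmt := by
  intro t
  funext x
  rw [CM.delta_apply, Finset.sum_apply]
  show ∑ i : Fin (t + 2), epsC t ((Sph t).map (cof i) x) = 0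
  cases x with
  | none => exact Finset.sum_eq_zero fun i _ => rfl
  | some a =>
    obtain ⟨j, hj, ha⟩ := exists_cod a.1 a.2
    rw [sum_cof (fun c => epsC t ((Sph t).map c (some a))),
      Finset.sum_congr rfl (fun i hi => eps_face hj (by rw [Finset.mem_range] at hi; omega) a ha),
      ← Finset.sum_filter]
    have h3 : (Finset.range (t + 2)).filter (fun i => i = j ∨ i = j + 1) = {j, j + 1} := by
      ext i
      simp only [Finset.mem_filter, Finset.mem_range, Finset.mem_insert, Finset.mem_singleton]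
      omega
    rw [h3, Finset.sum_pair (by omega)]
    exact k_two 1

theorem EPS1 : EPS1_Stmt := by
  have h := EPS 1
  have e1 : eps 1 = clsN 1 (epsC 1) h := by
    unfold eps
    rw [dif_pos h]
  show eps 1 = ee
  rw [e1]
  show cls _ = cls (Cocyc.pull s1 ⟨uC, dlt_uC⟩)
  congr 1
  apply Subtype.ext
  show Coch.single 1 (epsC 1) = Coch.pull s1 uC
  apply Coch.ext
  intro n x
  rw [Coch.pull_apply]
  unfold uC
  by_cases hn : n = 1
  · subst hn
    rw [Coch.single_self, Coch.single_self]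
    cases x with
    | none => rfl
    | some a =>
      show (1 : k) = if a.1 1 = 0 then 0 else 1
      rw [if_neg]
      intro h0
      obtain ⟨v, hv⟩ := a.2 1
      have h1 : a.1 v ≤ a.1 1 := a.1.monotone (Fin.le_last v)
      rw [hv, h0] at h1
      exact absurd h1 (by decide)
  · rw [Coch.single_ne hn, Coch.single_ne hn]

theorem BBF : BBF_Stmt := by
  intro d
  refine ⟨bb_lf d, ?_⟩
  intro n
  have h1 : Finite ((BB.pow d).X n) := bb_lf d n
  have h2 : Finite (S1.X n) := sph_lf 1 n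
  show Finite (S1.X n × (BB.pow d).X n)
  infer_instance

end Pool.Agent.SHL


end

section

/-!
LINK: first properties of the slant product `Ph`.
-/

namespace Pool.Agent.SHL

open Pool.Agent.SHS

namespace Phb

open Coch

theorem hom_ext {X Y : SS} {f g : SS.Hom X Y} (h : ∀ n x, f.f n x = g.f n x) : f = g := by
  cases f
  cases g
  congr
  funext n x
  exact h n x

theorem hom_bpt {Y : SS} {V : SV} {t : ℕ} (z : ZM (MapS Y V) t) :
    (HV.hom (sph z)).comp (bpt t Y) = zmap Y V := rfl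

/-- `id × φ`. -/
def idx {Y Y' : SS} (t : ℕ) (φ : SS.Hom Y' Y) : SS.Hom ((Sph t).prod Y') ((Sph t).prod Y) where
  f n x := (x.1, φ.f n x.2)
  nat a x := Prod.ext rfl (φ.nat a x.2)

theorem mulE_nat {Y Y' : SS} (t : ℕ) (φ : SS.Hom Y' Y) (b : H Y) :
    mulE t Y' (H.map φ b) = H.map (idx t φ) (mulE t Y b) := by
  rw [mulE_apply, mulE_apply, map_mul, ← H.map_comp, ← H.map_comp, ← H.map_comp]
  rfl

theorem hom_preZ {Y Y' : SS} {V : SV} {t : ℕ} (φ : SS.Hom Y' Y) (z : ZM (MapS Y V) t) :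
    HV.hom (sph (preZ φ z)) = (HV.hom (sph z)).comp (idx t φ) := by
  apply hom_ext
  rintro n ⟨o, y⟩
  cases o with
  | none => rfl
  | some b => rfl

theorem hom_appZ {Y : SS} {V W : SV} {t : ℕ} (g : SS.Hom V.toSS W.toSS) (hg : ∀ n, g.f n 0 = 0)
    (z : ZM (MapS Y V) t) : HV.hom (sph (appZ g hg z)) = g.comp (HV.hom (sph z)) := by
  apply hom_ext
  rintro n ⟨o, y⟩
  cases o with
  | none => exact (hg n).symm
  | some b => rfl

theorem map_add_lin {X : SS} {V : SV} (F G : HV X V) (j : ℕ) (a : H V.toSS) (ha : a ∈ LC V j) :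
    H.map (HV.hom (F + G)) a = H.map (HV.hom F) a + H.map (HV.hom G) a := by
  obtain ⟨l, h, rfl⟩ := ha
  unfold clsN
  rw [H.map_cls, H.map_cls, H.map_cls, ← map_add cls]
  congr 1
  apply Subtype.ext
  show Coch.pull (HV.hom (F + G)) (single j fun x => l x) =
    Coch.pull (HV.hom F) (single j fun x => l x) + Coch.pull (HV.hom G) (single j fun x => l x)
  ext m x
  rw [cadd_apply, pull_apply, pull_apply, pull_apply]
  by_cases hm : m = j
  · subst hm
    rw [single_self, single_self, single_self]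
    exact map_add l (F.1 m x) (G.1 m x)
  · rw [single_ne hm, single_ne hm, single_ne hm, add_zero]

end Phb

theorem PH1 (hs : SKT_Stmt) (h0 : ZM0_Stmt) : PH1_Stmt := by
  intro t ht Y hY V z
  obtain ⟨hinj, hker, hdeg, hlow⟩ := hs t ht Y hY
  have key : ∀ a ∈ RC V, mulE t Y (Ph z a) = H.map (HV.hom (sph z)) a := by
    intro a ha
    have h1 : H.map (bpt t Y) (H.map (HV.hom (sph z)) a) = 0 := by
      rw [← H.map_comp, Phb.hom_bpt]
      exact h0 Y V a ha
    obtain ⟨b, hb⟩ := hker _ h1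
    show mulE t Y (mulEinv t Y (H.map (HV.hom (sph z)) a)) = _
    rw [← hb, mulEinv_mulE hinj]
  refine ⟨key, fun j a ha har => ⟨fun hj => ?_, fun hj => ?_⟩⟩
  · have h2 := H.map_mem (HV.hom (sph z)) ha
    rw [← key a har] at h2
    exact hlow j _ hj h2
  · have h2 := H.map_mem (HV.hom (sph z)) ha
    rw [← key a har] at h2
    apply hdeg
    rw [Nat.sub_add_cancel hj]
    exact h2

theorem PHY (h1 : PH1_Stmt) (hs : SKT_Stmt) : PHY_Stmt := by
  intro t ht Y Y' hY hY' φ V z a ha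
  obtain ⟨hinj, -, -, -⟩ := hs t ht Y' hY'
  apply hinj
  rw [(h1 t ht Y' hY' V (preZ φ z)).1 a ha, Phb.mulE_nat, (h1 t ht Y hY V z).1 a ha,
    ← H.map_comp, Phb.hom_preZ]

theorem PHV : PHV_Stmt := by
  intro t Y V W g hg z a
  show mulEinv t Y (H.map (HV.hom (sph (appZ g hg z))) a) =
    mulEinv t Y (H.map (HV.hom (sph z)) (H.map g a))
  rw [Phb.hom_appZ, H.map_comp]

theorem PHL : PHL_Stmt := by
  intro t Y V z z' j a ha
  show mulEinv t Y (H.map (HV.hom (sph (z + z'))) a) =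
    mulEinv t Y (H.map (HV.hom (sph z)) a) + mulEinv t Y (H.map (HV.hom (sph z')) a)
  rw [← map_add (mulEinv t Y), map_add sph, Phb.map_add_lin (sph z) (sph z') j a ha]

end Pool.Agent.SHL


end

section

/-!
LINK, module SHL_PHB: the slant product with a Moore boundary vanishes on reduced classes.
-/

namespace Pool.Agent.SHL

open Pool.Agent.SHS

namespace Bd

/-- a monotone map missing `i` factors through the `i`-th coface -/
theorem factor_at {r t : ℕ} (a : Mor r (t + 1)) (i : Fin (t + 2)) (hi : ∀ v, a v ≠ i) :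
    ∃ b : Mor r t, a = (cof i).comp b := by
  rw [cof_eq_cofN]
  have hi2 := i.2
  refine ⟨⟨fun v => ⟨if (a v).1 < i.1 then (a v).1 else (a v).1 - 1, ?_⟩, ?_⟩, ?_⟩
  · have := (a v).2
    have h2 : (a v).1 ≠ i.1 := fun hh => hi v (Fin.ext hh)
    split_ifs <;> omega
  · intro v w hvw
    have h1 : (a v).1 ≤ (a w).1 := a.monotone hvw
    show (if (a v).1 < i.1 then (a v).1 else (a v).1 - 1)
      ≤ (if (a w).1 < i.1 then (a w).1 else (a w).1 - 1)
    split_ifs <;> omega
  · apply mor_ext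
    intro v
    have h2 : (a v).1 ≠ i.1 := fun hh => hi v (Fin.ext hh)
    rw [comp_val, cofN_val]
    show _ = if (if (a v).1 < i.1 then (a v).1 else (a v).1 - 1) < i.1
      then (if (a v).1 < i.1 then (a v).1 else (a v).1 - 1)
      else (if (a v).1 < i.1 then (a v).1 else (a v).1 - 1) + 1
    split_ifs <;> omega

/-- `v ↦ 0` if `τ v = 0` and `v ↦ a v + 1` if `τ v = 1`. -/
def J {n t : ℕ} (τ : Mor n 1) (a : Mor n t) : Mor n (t + 1) where
  toFun v := ⟨if (τ v).1 = 0 then 0 else (a v).1 + 1, by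
    have := (a v).2
    split_ifs <;> omega⟩
  monotone' := by
    intro v w hvw
    have h1 : (a v).1 ≤ (a w).1 := a.monotone hvw
    have h2 : (τ v).1 ≤ (τ w).1 := τ.monotone hvw
    show (if (τ v).1 = 0 then 0 else (a v).1 + 1) ≤ (if (τ w).1 = 0 then 0 else (a w).1 + 1)
    split_ifs <;> omega

theorem J_val {n t : ℕ} (τ : Mor n 1) (a : Mor n t) (v : Fin (n + 1)) :
    ((J τ a) v : ℕ) = if (τ v).1 = 0 then 0 else (a v).1 + 1 := rfl

theorem J_comp {m n t : ℕ} (c : Mor m n) (τ : Mor n 1) (a : Mor n t) :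
    J (τ.comp c) (a.comp c) = (J τ a).comp c := rfl

theorem J_one {n t : ℕ} (a : Mor n t) : J (cst 1) a = (cof 0).comp a := by
  apply mor_ext
  intro v
  rw [cof_eq_cofN, J_val, comp_val, cofN_val]
  have h : ((cst 1 : Mor n 1) v).1 = 1 := rfl
  rw [h, if_neg (by omega), if_neg (by simp)]

variable {Y : SS} {V : SV} {t : ℕ}

theorem w_face {w : (MapS Y V).X (t + 1)}
    (hw : ∀ i : Fin (t + 2), i ≠ 0 → (MapS Y V).map (cof i) w = 0) {n : ℕ} (b : Mor n (t + 1))
    (i : Fin (t + 2)) (hi0 : i ≠ 0) (hi : ∀ v, b v ≠ i) (y : Y.X n) : w.1 n (b, y) = 0 := by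
  obtain ⟨b', rfl⟩ := factor_at b i hi
  have h2 := congrArg (fun F : HV ((SS.simplex t).prod Y) V => F.1 n (b', y)) (hw i hi0)
  exact h2

/-- the homotopy -/
def hf (w : (MapS Y V).X (t + 1)) (n : ℕ) (τ : Mor n 1) : ((Sph t).prod Y).X n → V.X n
  | (none, _) => 0
  | (some a, y) => w.1 n (J τ a.1, y)

theorem hf_nat {w : (MapS Y V).X (t + 1)}
    (hw : ∀ i : Fin (t + 2), i ≠ 0 → (MapS Y V).map (cof i) w = 0) {m n : ℕ} (c : Mor m n)
    (τ : Mor n 1) (x : ((Sph t).prod Y).X n) :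
    hf w m (τ.comp c) (((Sph t).prod Y).map c x) = V.map c (hf w n τ x) := by
  obtain ⟨o, y⟩ := x
  cases o with
  | none => exact (map_zero (V.map c)).symm
  | some b =>
    show hf w m (τ.comp c) ((PS.sphere t).map c b, Y.map c y) = V.map c (w.1 n (J τ b.1, y))
    rw [← HV.nat]
    by_cases h : Function.Surjective (b.1.comp c)
    · rw [sphere_map_pos c b h]
      rfl
    · rw [sphere_map_neg c b h]
      symm
      have h' : ∃ j : Fin (t + 1), ∀ v, (b.1.comp c) v ≠ j := by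
        by_contra hc
        push Not at hc
        exact h hc
      obtain ⟨j, hj⟩ := h'
      refine w_face hw ((J τ b.1).comp c) j.succ (Fin.succ_ne_zero j) ?_ _
      intro v hv
      apply hj v
      have h1 := congrArg Fin.val hv
      rw [comp_val, J_val, Fin.val_succ] at h1
      apply Fin.ext
      rw [comp_val]
      split_ifs at h1
      omega

end Bd

open Bd in
theorem PHB (hH : HTY_Stmt) (h0 : ZM0_Stmt) : PHB_Stmt := by
  intro t _ Y V z hz a ha
  obtain ⟨w, hw0, hw⟩ := hz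
  have hval : ∀ (n : ℕ) (b : Mor n t) (y : Y.X n), z.1.1 n (b, y) = w.1 n ((cof 0).comp b, y) := by
    intro n b y
    have h2 := congrArg (fun F : HV ((SS.simplex t).prod Y) V => F.1 n (b, y)) hw0
    exact h2.symm
  have hhom : SS.Homotopy (zmap ((Sph t).prod Y) V) (HV.hom (sph z)) :=
    { h := fun n τ x => hf w n τ x
      nat := fun c τ x => hf_nat hw c τ x
      zero := by
        rintro n ⟨o, y⟩
        cases o with
        | none => rfl
        | some b =>
          show w.1 n (J (cst 0) b.1, y) = 0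
          refine w_face hw _ 1 (by
            intro h
            have := congrArg Fin.val h
            simp at this) ?_ _
          intro v hv
          have h1 := congrArg Fin.val hv
          have h3 : ((cst 0 : Mor n 1) v).1 = 0 := rfl
          rw [J_val, if_pos h3] at h1
          simp at h1
      one := by
        rintro n ⟨o, y⟩
        cases o with
        | none => rfl
        | some b =>
          show w.1 n (J (cst 1) b.1, y) = z.1.1 n (b.1, y)
          rw [hval, J_one] }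
  have h1 := hH _ _ _ _ ⟨hhom⟩ a
  have h2 : Ph z a = mulEinv t Y (H.map (HV.hom (sph z)) a) := rfl
  rw [h2, ← h1, h0 _ _ a ha, map_zero]

end Pool.Agent.SHL


end

section

/-! LINK: `evB` and linear substitutions (module SHL_E1). -/

namespace Pool.Agent.SHL

open Pool.Agent.SHS

namespace E1

theorem uC_add (n : ℕ) (x y : BB.X n) : uC n ((x : (SV.const k).bar.X n) + y) = uC n x + uC n y := by
  unfold uC
  by_cases h : n = 1
  · subst h
    rw [Coch.single_self, Coch.single_self, Coch.single_self]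
    rfl
  · rw [Coch.single_ne h, Coch.single_ne h, Coch.single_ne h, add_zero]

theorem uC_smul (n : ℕ) (c : k) (x : BB.X n) : uC n (c • (x : (SV.const k).bar.X n)) = c * uC n x := by
  unfold uC
  by_cases h : n = 1
  · subst h
    rw [Coch.single_self, Coch.single_self]
    rfl
  · rw [Coch.single_ne h, Coch.single_ne h, mul_zero]

theorem uC_zero (n : ℕ) : uC n (0 : (SV.const k).bar.X n) = 0 := by
  have h := uC_smul n 0 (0 : (SV.const k).bar.X n)
  rwa [zero_smul, zero_mul] at h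

/-- The fundamental class is primitive for the addition of `BB`. -/
theorem uu_add {X : SS} (f g h : SS.Hom X BB)
    (e : ∀ n x, h.f n x = (f.f n x : (SV.const k).bar.X n) + g.f n x) :
    H.map h uu = H.map f uu + H.map g uu := by
  unfold uu
  rw [H.map_cls, H.map_cls, H.map_cls, ← map_add]
  congr 1
  apply Subtype.ext
  ext n x
  show uC n (h.f n x) = uC n (f.f n x) + uC n (g.f n x)
  rw [e, uC_add]

theorem uu_smul {X : SS} (c : k) (f h : SS.Hom X BB)
    (e : ∀ n x, h.f n x = c • (f.f n x : (SV.const k).bar.X n)) :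
    H.map h uu = c • H.map f uu := by
  unfold uu
  rw [H.map_cls, H.map_cls, ← map_smul]
  congr 1
  apply Subtype.ext
  ext n x
  show uC n (h.f n x) = c * uC n (f.f n x)
  rw [e, uC_smul]

theorem uu_zero {X : SS} (h : SS.Hom X BB)
    (e : ∀ n x, h.f n x = (0 : (SV.const k).bar.X n)) : H.map h uu = 0 := by
  have h1 := uu_smul 0 h h (fun n x => by rw [e, zero_smul])
  rwa [zero_smul] at h1

/-- The partial sums of a row of the matrix. -/
def hs {d : ℕ} (l : Fin d → ZMod 2) (s : Finset (Fin d)) : SS.Hom (BB.pow d) BB where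
  f n x := ∑ i ∈ s, l i • (x i : (SV.const k).bar.X n)
  nat {m n} a x := by
    show ∑ i ∈ s, l i • (SV.const k).bar.map a (x i) = (SV.const k).bar.map a (∑ i ∈ s, l i • x i)
    rw [map_sum]
    simp only [map_smul]

/-- One term. -/
def h1 {d : ℕ} (l : Fin d → ZMod 2) (i : Fin d) : SS.Hom (BB.pow d) BB where
  f n x := l i • (x i : (SV.const k).bar.X n)
  nat {m n} a x := by
    show l i • (SV.const k).bar.map a (x i) = (SV.const k).bar.map a (l i • x i)
    rw [map_smul]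

theorem map_hs {d : ℕ} (l : Fin d → ZMod 2) (s : Finset (Fin d)) :
    H.map (hs l s) uu = ∑ i ∈ s, l i • H.map (BB.proj d i) uu := by
  classical
  induction s using Finset.induction_on with
  | empty =>
    rw [Finset.sum_empty]
    apply uu_zero
    intro n x
    show ∑ i ∈ (∅ : Finset (Fin d)), l i • (x i : (SV.const k).bar.X n) = 0
    rw [Finset.sum_empty]
  | insert i s hi ih =>
    rw [Finset.sum_insert hi, ← ih, uu_add (h1 l i) (hs l s) (hs l (insert i s))]
    · congr 1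
      exact uu_smul (l i) (BB.proj d i) (h1 l i) (fun n x => rfl)
    · intro n x
      show ∑ i ∈ insert i s, l i • (x i : (SV.const k).bar.X n) = _
      rw [Finset.sum_insert hi]
      rfl

theorem evB_X' (d : ℕ) (j : Fin d) : evB d (MvPolynomial.X j) = H.map (BB.proj d j) uu := by
  unfold evB
  rw [MvPolynomial.aeval_X]

end E1

/-- `evB` and linear substitutions. -/
theorem E1 : E1_Stmt := by
  intro d' d L p
  have h : (H.map (BL L)).comp (evB d') = (evB d).comp (SHU.lin L) := by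
    apply MvPolynomial.algHom_ext
    intro j
    rw [AlgHom.comp_apply, AlgHom.comp_apply, E1.evB_X', SHU.lin_X, map_sum, ← H.map_comp]
    have h2 : (BB.proj d' j).comp (BL L) = E1.hs (L j) Finset.univ := rfl
    rw [h2, E1.map_hs]
    refine Finset.sum_congr rfl fun i _ => ?_
    rw [map_mul, E1.evB_X', ← MvPolynomial.algebraMap_eq, AlgHom.commutes, Algebra.smul_def]
  exact DFunLike.congr_fun h p

end Pool.Agent.SHL


end

section

/-!
LINK: restriction of the first variable to the circle.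
-/

namespace Pool.Agent.SHL

open Pool.Agent.SHS

namespace E2l

open MvPolynomial

/-- Induction: sums of products `X 0 ^ a * r(X 1, X 2, ...)`. -/
theorem span_ind {d : ℕ} (P : MvPolynomial (Fin (d + 1)) k → Prop)
    (hadd : ∀ p q, P p → P q → P (p + q))
    (hmon : ∀ (a : ℕ) (r : MvPolynomial (Fin d) k), P (X 0 ^ a * rename Fin.succ r))
    (p : MvPolynomial (Fin (d + 1)) k) : P p := by
  have key : ∀ Q : Polynomial (MvPolynomial (Fin d) k), P ((finSuccEquiv k d).symm Q) := by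
    intro Q
    induction Q using Polynomial.induction_on' with
    | add p q hp hq => rw [map_add]; exact hadd _ _ hp hq
    | monomial a r =>
      have h : (finSuccEquiv k d).symm (Polynomial.monomial a r) = X 0 ^ a * rename Fin.succ r := by
        rw [AlgEquiv.symm_apply_eq, map_mul, map_pow, finSuccEquiv_X_zero]
        have h2 : finSuccEquiv k d (rename Fin.succ r) = Polynomial.C r := SHU.fse_rename_succ d r
        rw [h2, mul_comm, Polynomial.C_mul_X_pow_eq_monomial]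
      rw [h]
      exact hmon a r
  have := key (finSuccEquiv k d p)
  rwa [AlgEquiv.symm_apply_apply] at this

theorem qB_zero (d : ℕ) : H.map (qB d) (evB (d + 1) (X 0)) = H.map (SS.fst S1 (BB.pow d)) ee := by
  unfold evB ee
  rw [aeval_X, ← H.map_comp, ← H.map_comp]
  rfl

theorem qB_succ (d : ℕ) (r : MvPolynomial (Fin d) k) :
    H.map (qB d) (evB (d + 1) (rename Fin.succ r)) = H.map (SS.snd S1 (BB.pow d)) (evB d r) := by
  rw [← evB_reidx, ← H.map_comp]
  rfl

theorem co1_X_pow (d a : ℕ) (r : MvPolynomial (Fin d) k) :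
    SHU.co1 d (X 0 ^ a * rename Fin.succ r) = if a = 1 then r else 0 := by
  have h2 : finSuccEquiv (ZMod 2) d (rename Fin.succ r) = Polynomial.C r := SHU.fse_rename_succ d r
  rw [SHU.co1_apply, map_mul, map_pow, h2, finSuccEquiv_X_zero, mul_comm,
    Polynomial.coeff_C_mul_X_pow]
  by_cases h : a = 1
  · rw [if_pos h, if_pos h.symm]
  · rw [if_neg h, if_neg (fun h' => h h'.symm)]

theorem lin_rename (d : ℕ) (r : MvPolynomial (Fin d) k) :
    SHU.lin (SHU.Lzero d) (rename Fin.succ r) = r := by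
  have h : (SHU.lin (SHU.Lzero d)).comp (rename Fin.succ) = AlgHom.id (ZMod 2) (SHU.Pl d) := by
    apply MvPolynomial.algHom_ext
    intro i
    rw [AlgHom.comp_apply, rename_X, SHU.lin_Lzero_succ]
    rfl
  exact DFunLike.congr_fun h r

end E2l

theorem E2 (hk : SK_Stmt) (he : EPS1_Stmt) : E2_Stmt := by
  intro d p
  have hee : ee * ee = 0 := hk.1
  induction p using E2l.span_ind with
  | hadd p q hp hq =>
    rw [map_add, map_add, hp, hq, map_add, map_add, map_add, map_add, map_add, map_add]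
    abel
  | hmon a r =>
    rw [map_mul, map_pow, map_mul, map_pow, E2l.qB_zero, E2l.qB_succ, E2l.co1_X_pow, mulE_apply,
      map_mul (SHU.lin (SHU.Lzero d)), map_pow (SHU.lin (SHU.Lzero d)), SHU.lin_Lzero_zero,
      E2l.lin_rename]
    have he' : eps 1 = ee := he
    rw [he']
    rcases a with _ | _ | a
    · simp
    · simp
    · have h0 : (H.map (SS.fst S1 (BB.pow d)) ee) ^ (a + 2) = 0 := by
        rw [pow_add, pow_two, ← map_mul, hee, map_zero, mul_zero]
      simp [h0]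

end Pool.Agent.SHL


end

section

/-!
Block LINK: natural operations and symmetric sums.
-/

namespace Pool.Agent.SHL

open Pool.Agent.SHS MvPolynomial

namespace Psi

/-- The multiset of the values. -/
def gm {m : ℕ} (a : Fin m → ℕ) : Multiset ℕ := Multiset.ofList (List.ofFn a)

theorem gm_eq {m : ℕ} (a : Fin m → ℕ) : gm a = Finset.univ.val.map a :=
  (Fin.univ_val_map a).symm

theorem gm_card {m : ℕ} (a : Fin m → ℕ) : Multiset.card (gm a) = m := by
  rw [gm_eq, Multiset.card_map]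
  simp

theorem gm_mem {m : ℕ} (a : Fin m → ℕ) (i : Fin m) : a i ∈ gm a := by
  rw [gm_eq]
  exact Multiset.mem_map_of_mem a (Finset.mem_univ i)

theorem gm_wgt {m : ℕ} (a : Fin m → ℕ) : wgt (gm a) = ∑ i, 2 ^ (a i) := by
  unfold wgt
  rw [gm_eq, Multiset.map_map]
  rfl

theorem ty_eq {m : ℕ} (a : Fin m → ℕ) : SHU.ty a = Multiset.toFinsupp (gm a) := by
  have h : gm a = ∑ i, ({a i} : Multiset ℕ) := by
    rw [gm_eq]
    conv_lhs => rw [← Multiset.sum_map_singleton (Finset.univ.val.map a)]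
    rw [Multiset.map_map]
    rfl
  rw [h, map_sum, SHU.ty]
  apply Finset.sum_congr rfl
  intro i _
  rw [Multiset.toFinsupp_singleton]

theorem mono_eq {m : ℕ} (a : Fin m → ℕ) :
    (∏ j, X j ^ (2 ^ (a j)) : MvPolynomial (Fin m) k) = monomial (SHU.xp a) 1 := by
  rw [SHU.xp, monomial_sum_one]
  refine Finset.prod_congr rfl fun i _ => ?_
  rw [X_pow_eq_monomial]

theorem msym_eq (m : ℕ) (J : Multiset ℕ) (N : ℕ) (hN : ∀ x ∈ J, x < N) :
    msym m J = ∑ a ∈ (Fintype.piFinset (fun _ : Fin m => Finset.range N)).filter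
      (fun a => gm a = J), monomial (SHU.xp a) (1 : ZMod 2) := by
  unfold msym
  have hset : (Fintype.piFinset (fun _ : Fin m => J.toFinset)).filter
      (fun i => Multiset.ofList (List.ofFn i) = J)
      = (Fintype.piFinset (fun _ : Fin m => Finset.range N)).filter (fun a => gm a = J) := by
    ext a
    rw [Finset.mem_filter, Finset.mem_filter, Fintype.mem_piFinset, Fintype.mem_piFinset]
    constructor
    · rintro ⟨_, h2⟩
      refine ⟨fun i => ?_, h2⟩
      rw [Finset.mem_range]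
      apply hN
      have h3 : gm a = J := h2
      rw [← h3]
      exact gm_mem a i
    · rintro ⟨_, h2⟩
      refine ⟨fun i => ?_, h2⟩
      rw [Multiset.mem_toFinset, ← h2]
      exact gm_mem a i
  rw [hset]
  exact Finset.sum_congr rfl fun a _ => mono_eq a

end Psi

open Psi in
theorem PSI : PSI_Stmt := by
  classical
  intro J
  set q : (ℕ →₀ ℕ) → ZMod 2 := fun M => if M = Multiset.toFinsupp J then 1 else 0 with hq
  have hJ : ∀ {m : ℕ} (a : Fin m → ℕ), SHU.ty a = Multiset.toFinsupp J ↔ gm a = J := by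
    intro m a
    rw [ty_eq]
    exact Multiset.toFinsupp.injective.eq_iff
  refine ⟨SHU.op (J.sum + 1) (Multiset.card J) q, ?_, ?_⟩
  · apply SHU.op_IsNP
    intro a ha
    have h1 : SHU.ty a = Multiset.toFinsupp J := by
      by_contra hne
      apply ha
      rw [hq]
      exact if_neg hne
    rw [← gm_wgt, (hJ a).mp h1]
  · rw [SHU.op_Un, msym_eq (Multiset.card J) J (J.sum + 1) (fun x hx =>
      Nat.lt_succ_of_le (Multiset.le_sum_of_mem hx)), Finset.sum_filter]
    apply Finset.sum_congr rfl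
    intro a _
    rw [hq]
    simp only [hJ]
    split_ifs
    · rw [one_smul]
    · rw [zero_smul]

open Psi in
theorem NPJ : NPJ_Stmt := by
  classical
  intro m n f hf
  rw [hf.Un_eq n le_rfl]
  set S := Fintype.piFinset (fun _ : Fin m => Finset.range n) with hS
  rw [← Finset.sum_fiberwise_of_maps_to (s := S) (t := S.image gm) (g := gm)
    (fun a ha => Finset.mem_image_of_mem gm ha)]
  apply Submodule.sum_mem
  intro J hJ
  obtain ⟨b, hb, rfl⟩ := Finset.mem_image.mp hJ
  have h1 : ∑ a ∈ S.filter (fun a => gm a = gm b),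
      SHU.mt m f (SHU.ty a) • monomial (SHU.xp a) (1 : ZMod 2)
      = SHU.mt m f (SHU.ty b) • msym m (gm b) := by
    rw [msym_eq m (gm b) n, Finset.smul_sum]
    · apply Finset.sum_congr rfl
      intro a ha
      rw [Finset.mem_filter] at ha
      rw [ty_eq a, ty_eq b, ha.2]
    · intro x hx
      rw [gm_eq] at hx
      obtain ⟨i, _, rfl⟩ := Multiset.mem_map.mp hx
      rw [hS, Fintype.mem_piFinset] at hb
      exact Finset.mem_range.mp (hb i)
  rw [h1]
  by_cases h0 : SHU.mt m f (SHU.ty b) = 0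
  · rw [h0, zero_smul]
    exact Submodule.zero_mem _
  · apply Submodule.smul_mem
    apply Submodule.subset_span
    refine ⟨gm b, gm_card b, ?_, rfl⟩
    rw [gm_wgt]
    exact hf.mt_ty_sum b h0

end Pool.Agent.SHL


end
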