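import Mathlib
import Pool.Agent.SHM.C03
import Pool.Agent.SHM.C09

/-! Parts: SH.L.Kap, SH.L.Kin, SH.L.Bnd, SH.L.Rch, SH.L.Bem -/

section

/-!
LINK: classes of degree `n + 1` of `V` modulo decomposables are natural transformations
`ES 1 → S^n` (the map `kap`).
-/

namespace Pool.Agent.SHL

open Pool.Agent.SHS

variable {V W : SV} {d n : ℕ}

theorem Base.hn_rc (B : Base) {a : H V.toSS} (ha : a ∈ Hn V.toSS (n + 1)) : a ∈ RC V :=
  (B.rch V).1 (n + 1) (by omega) ha

theorem Base.Ph_congr (B : Base) {Y : SS} (hY : Y.LF) {a : H V.toSS}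
    (ha : a ∈ Hn V.toSS (n + 1)) (z z' : ZM (MapS Y V) 1)
    (h : z.1 + z'.1 ∈ BM (MapS Y V) 1) : Ph z a = Ph z' a := by
  have h1 := B.pha 1 (le_refl 1) Y hY V z z' (n + 1) (by omega) a ha
  rw [B.phb 1 (le_refl 1) Y V (z + z') h a (B.hn_rc ha)] at h1
  exact mod_two_eq h1.symm

/-- The value of `kap`, as a function. -/
noncomputable def kapF (a : H V.toSS) (d : ℕ) (c : SHU.ES (XL V) 1 d) : SHU.Pl d :=
  evBinv d (Ph (lift 1 d c) a)

theorem Base.evB_kapF (B : Base) (hV : V.LF) {a : H V.toSS} (ha : a ∈ Hn V.toSS (n + 1))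
    (z : ZM (MapS (BB.pow d) V) 1) :
    evB d (kapF a d (PhE z)) = Ph z a ∧ (kapF a d (PhE z)).IsHomogeneous n := by
  have h1 : Ph (lift 1 d (PhE z)) a = Ph z a :=
    B.Ph_congr (B.bbf d).1 ha _ _ (B.BM_of_PhE hV (le_refl 1) _ _
      (B.lift_spec hV (le_refl 1) _).1)
  have h2 := ((B.ph1 1 (le_refl 1) _ (B.bbf d).1 V z).2 (n + 1) a ha (B.hn_rc ha)).2 (by omega)
  have h3 := B.evB_evBinv h2
  unfold kapF
  rw [h1]
  exact h3

theorem Base.kapF_add (B : Base) (hV : V.LF) {a : H V.toSS} (ha : a ∈ Hn V.toSS (n + 1))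
    (c c' : SHU.ES (XL V) 1 d) : kapF a d (c + c') = kapF a d c + kapF a d c' := by
  obtain ⟨z, rfl, _⟩ := B.PhE_surj hV (le_refl 1) c
  obtain ⟨z', rfl, _⟩ := B.PhE_surj hV (le_refl 1) c'
  rw [← B.PhE_add (le_refl 1)]
  apply B.evB_inj
  rw [map_add, (B.evB_kapF hV ha _).1, (B.evB_kapF hV ha _).1, (B.evB_kapF hV ha _).1,
    B.pha 1 (le_refl 1) _ (B.bbf d).1 V z z' (n + 1) (by omega) a ha]

open Classical in
/-- The natural transformation given by a class. -/
noncomputable def kap (a : H V.toSS) (d : ℕ) : SHU.ES (XL V) 1 d →ₗ[ZMod 2] SHU.Pl d :=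
  if h : ∀ c c', kapF a d (c + c') = kapF a d c + kapF a d c' then
    (AddMonoidHom.mk' (kapF a d) h).toZModLinearMap 2
  else 0

theorem Base.kap_apply (B : Base) (hV : V.LF) {a : H V.toSS} (ha : a ∈ Hn V.toSS (n + 1))
    (c : SHU.ES (XL V) 1 d) : kap a d c = kapF a d c := by
  unfold kap
  rw [dif_pos (B.kapF_add hV ha)]
  rfl

theorem Base.evB_kap (B : Base) (hV : V.LF) {a : H V.toSS} (ha : a ∈ Hn V.toSS (n + 1))
    (z : ZM (MapS (BB.pow d) V) 1) :
    evB d (kap a d (PhE z)) = Ph z a ∧ (kap a d (PhE z)).IsHomogeneous n := by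
  rw [B.kap_apply hV ha]
  exact B.evB_kapF hV ha z

theorem Base.kap_IsPN (B : Base) (hV : V.LF) {a : H V.toSS} (ha : a ∈ Hn V.toSS (n + 1)) :
    SHU.IsPN 1 n (kap (V := V) a) where
  nat := by
    intro d' d L c
    obtain ⟨z, rfl, _⟩ := B.PhE_surj hV (le_refl 1) c
    apply B.evB_inj
    rw [← B.PhE_pre (le_refl 1), (B.evB_kap hV ha _).1, ← B.e1, (B.evB_kap hV ha _).1]
    exact B.phy 1 (le_refl 1) _ _ (B.bbf d').1 (B.bbf d).1 (BL L) V z a (B.hn_rc ha)
  cod := by
    intro d c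
    obtain ⟨z, rfl, _⟩ := B.PhE_surj hV (le_refl 1) c
    exact (B.evB_kap hV ha z).2
  cont := by
    intro d c hc
    obtain ⟨z, rfl, hz⟩ := B.PhE_surj hV (le_refl 1) c
    apply B.evB_inj
    rw [(B.evB_kap hV ha z).1, map_zero]
    exact B.Ph_level z (hz (n + 1) hc (n + 1) (le_refl _)) ha (B.hn_rc ha)

theorem Base.kap_add (B : Base) (hV : V.LF) {a b : H V.toSS} (ha : a ∈ Hn V.toSS (n + 1))
    (hb : b ∈ Hn V.toSS (n + 1)) (c : SHU.ES (XL V) 1 d) :
    kap (a + b) d c = kap a d c + kap b d c := by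
  obtain ⟨z, rfl, _⟩ := B.PhE_surj hV (le_refl 1) c
  apply B.evB_inj
  rw [map_add, (B.evB_kap hV ha z).1, (B.evB_kap hV hb z).1,
    (B.evB_kap hV (Submodule.add_mem _ ha hb) z).1, map_add]

theorem Base.kap_zero (B : Base) (hV : V.LF) (c : SHU.ES (XL V) 1 d) :
    kap (0 : H V.toSS) d c = 0 := by
  obtain ⟨z, rfl, _⟩ := B.PhE_surj hV (le_refl 1) c
  apply B.evB_inj
  rw [(B.evB_kap (n := 0) hV (Submodule.zero_mem _) z).1, map_zero, map_zero]

theorem Base.kap_smul (B : Base) (hV : V.LF) {a : H V.toSS} (ha : a ∈ Hn V.toSS (n + 1))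
    (r : k) (c : SHU.ES (XL V) 1 d) : kap (r • a) d c = r • kap a d c := by
  obtain ⟨z, rfl, _⟩ := B.PhE_surj hV (le_refl 1) c
  apply B.evB_inj
  rw [map_smul, (B.evB_kap hV ha z).1, (B.evB_kap hV (Submodule.smul_mem _ r ha) z).1, map_smul]

theorem Base.kap_sum (B : Base) (hV : V.LF) {ι : Type*} (s : Finset ι) (f : ι → H V.toSS)
    (hf : ∀ i ∈ s, f i ∈ Hn V.toSS (n + 1)) (c : SHU.ES (XL V) 1 d) :
    kap (∑ i ∈ s, f i) d c = ∑ i ∈ s, kap (f i) d c := by
  classical
  induction s using Finset.induction_on with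
  | empty => rw [Finset.sum_empty, Finset.sum_empty, B.kap_zero hV]
  | insert a s ha ih =>
    rw [Finset.sum_insert ha, Finset.sum_insert ha,
      B.kap_add hV (hf a (Finset.mem_insert_self _ _))
        (Submodule.sum_mem _ fun i hi => hf i (Finset.mem_insert_of_mem hi)),
      ih fun i hi => hf i (Finset.mem_insert_of_mem hi)]

theorem Base.kap_dec (B : Base) (hV : V.LF) {a : H V.toSS} (ha : a ∈ Hn V.toSS (n + 1))
    (hd : a ∈ Dec V.toSS) (c : SHU.ES (XL V) 1 d) : kap a d c = 0 := by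
  obtain ⟨z, rfl, _⟩ := B.PhE_surj hV (le_refl 1) c
  apply B.evB_inj
  rw [(B.evB_kap hV ha z).1, map_zero]
  exact B.phd _ (B.bbf d).1 V z a hd

theorem Base.kap_alpL (B : Base) (hV : V.LF) (hW : W.LF) (g : SS.Hom V.toSS W.toSS)
    (hg : ∀ n, g.f n 0 = 0) {a : H W.toSS} (ha : a ∈ Hn W.toSS (n + 1))
    (c : SHU.ES (XL V) 1 d) : kap a d (alpL g hg d c) = kap (H.map g a) d c := by
  obtain ⟨z, rfl, _⟩ := B.PhE_surj hV (le_refl 1) c
  apply B.evB_inj
  rw [B.alpL_PhE hV, (B.evB_kap hW ha _).1, (B.evB_kap hV (H.map_mem g ha) z).1]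
  exact B.phv 1 _ V W g hg z a

theorem CSV.dl_apply (C : CSV) (s : ℕ) (a : H (C.V (s + 1)).toSS) :
    C.dl s a = ∑ i : Fin (s + 2), H.map (C.op (cof i)) a := by
  rw [CSV.dl, LinearMap.sum_apply]
  rfl

theorem CSV.dl_mem (C : CSV) (s : ℕ) {a : H (C.V (s + 1)).toSS}
    (ha : a ∈ Hn (C.V (s + 1)).toSS n) : C.dl s a ∈ Hn (C.V s).toSS n := by
  rw [C.dl_apply]
  exact Submodule.sum_mem _ fun i _ => H.map_mem _ ha

theorem Base.kap_dlE (B : Base) (C : CSV) (s : ℕ) {a : H (C.V (s + 1)).toSS}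
    (ha : a ∈ Hn (C.V (s + 1)).toSS (n + 1)) (c : SHU.ES (XL (C.V s)) 1 d) :
    kap a d (dlE C s 1 d c) = kap (C.dl s a) d c := by
  rw [C.dl_apply, B.kap_sum (C.lf s) _ _ fun i _ => H.map_mem _ ha, dlE_apply, map_sum]
  apply Finset.sum_congr rfl
  intro i _
  exact B.kap_alpL (C.lf s) (C.lf (s + 1)) _ _ ha c

/-! ### Surjectivity -/

theorem wgt_cons (J : Multiset ℕ) : wgt (0 ::ₘ J) = wgt J + 1 := by
  unfold wgt
  rw [Multiset.map_cons, Multiset.sum_cons]
  simp only [pow_zero]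
  exact add_comm _ _

/-- the operations `f` with `f (Un m) = msym m J`, applied to a linear class, are values of `kap` -/
theorem Base.kap_psi (B : Base) (hV : V.LF) {m : ℕ} (b : XL V (m + 1)) (J : Multiset ℕ)
    (hJ : Multiset.card J = m) {f : ∀ d, SHU.Pl d →ₗ[ZMod 2] SHU.Pl d}
    (hf : SHU.IsNP m (wgt J) f) (hfu : f m (SHU.Un m) = msym m J)
    {μ : Multiset ℕ → H (EM (m + 1)).toSS} (hμ : MuFam (m + 1) μ)
    (A : SS.Hom V.toSS (EM (m + 1)).toSS) (hA : ∀ q, A.f q 0 = 0)
    (hb : H.map A (iota (m + 1)) = b.1) :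
    H.map A (μ (0 ::ₘ J)) ∈ Hn V.toSS (wgt J + 1) ∧
      ∀ d (c : SHU.ES (XL V) 1 d), kap (H.map A (μ (0 ::ₘ J))) d c = f d (c.1 (m + 1) b) := by
  have hm : μ (0 ::ₘ J) ∈ Hn (EM (m + 1)).toSS (wgt J + 1) := by
    have := hμ.mem (0 ::ₘ J) (by rw [Multiset.card_cons, hJ])
    rwa [wgt_cons] at this
  refine ⟨H.map_mem A hm, ?_⟩
  intro d c
  obtain ⟨z, rfl, _⟩ := B.PhE_surj hV (le_refl 1) c
  apply B.evB_inj
  rw [(B.evB_kap hV (H.map_mem A hm) z).1]
  have h1 := B.phv 1 _ V (EM (m + 1)) A hA z (μ (0 ::ₘ J))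
  rw [← h1]
  apply B.val m μ hμ J hJ f hf hfu d (appZ A hA z) ((PhE z).1 (m + 1) b)
  · have := SHU.ES_hom (PhE z) (show 1 ≤ m + 1 by omega) b
    rwa [Nat.add_sub_cancel] at this
  · rw [B.evB_PhE (le_refl 1), B.phv 1 _ V (EM (m + 1)) A hA z, hb]

theorem Base.kap_np (B : Base) (hV : V.LF) {m : ℕ} (b : XL V (m + 1))
    {f : ∀ d, SHU.Pl d →ₗ[ZMod 2] SHU.Pl d} (hf : SHU.IsNP m n f) :
    ∃ a ∈ Hn V.toSS (n + 1), ∀ d (c : SHU.ES (XL V) 1 d), kap a d c = f d (c.1 (m + 1) b) := by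
  obtain ⟨μ, hμ⟩ := B.mu (m + 1) (by omega)
  obtain ⟨A, hA, hb⟩ := B.emr V (m + 1) (by omega) b.1 (B.lc_mem b).2
  have key : ∀ y ∈ Submodule.span (ZMod 2) {p | ∃ J : Multiset ℕ, Multiset.card J = m ∧
      wgt J = n ∧ p = msym m J}, ∃ f' : ∀ d, SHU.Pl d →ₗ[ZMod 2] SHU.Pl d, SHU.IsNP m n f' ∧
      f' m (SHU.Un m) = y ∧ ∃ a ∈ Hn V.toSS (n + 1),
        ∀ d (c : SHU.ES (XL V) 1 d), kap a d c = f' d (c.1 (m + 1) b) := by
    intro y hy
    induction hy using Submodule.span_induction with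
    | mem y hy =>
      obtain ⟨J, hJ, hw, rfl⟩ := hy
      subst hJ hw
      obtain ⟨f', hf', hu⟩ := B.psi J
      obtain ⟨h1, h2⟩ := B.kap_psi hV b J rfl hf' hu hμ A hA hb
      exact ⟨f', hf', hu, _, h1, h2⟩
    | zero =>
      refine ⟨fun d => 0, ⟨fun L x => by simp, fun d x => rfl,
        fun d x => MvPolynomial.isHomogeneous_zero _ _ _⟩, rfl, 0, Submodule.zero_mem _, ?_⟩
      intro d c
      rw [B.kap_zero hV]
      rfl
    | add y y' _ _ h h' =>
      obtain ⟨f1, hf1, hu1, a1, ha1, hk1⟩ := h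
      obtain ⟨f2, hf2, hu2, a2, ha2, hk2⟩ := h'
      refine ⟨fun d => f1 d + f2 d, ⟨?_, ?_, ?_⟩, ?_, a1 + a2, Submodule.add_mem _ ha1 ha2, ?_⟩
      · intro d' d L x
        rw [LinearMap.add_apply, LinearMap.add_apply, hf1.nat, hf2.nat, map_add]
      · intro d x
        rw [LinearMap.add_apply, LinearMap.add_apply, hf1.dom, hf2.dom]
      · intro d x
        exact (hf1.cod d x).add (hf2.cod d x)
      · rw [LinearMap.add_apply, hu1, hu2]
      · intro d c
        rw [B.kap_add hV ha1 ha2, hk1, hk2]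
        rfl
    | smul r y _ h =>
      obtain ⟨f1, hf1, hu1, a1, ha1, hk1⟩ := h
      refine ⟨fun d => r • f1 d, ⟨?_, ?_, ?_⟩, ?_, r • a1, Submodule.smul_mem _ r ha1, ?_⟩
      · intro d' d L x
        rw [LinearMap.smul_apply, LinearMap.smul_apply, hf1.nat, map_smul]
      · intro d x
        rw [LinearMap.smul_apply, LinearMap.smul_apply, hf1.dom]
      · intro d x
        rw [LinearMap.smul_apply, MvPolynomial.smul_eq_C_mul]
        exact (hf1.cod d x).C_mul r
      · rw [LinearMap.smul_apply, hu1]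
      · intro d c
        rw [B.kap_smul hV ha1, hk1]
        rfl
  obtain ⟨f', hf', hu, a, ha, hk⟩ := key _ (B.npj m n f hf)
  have he : f' = f := hf'.ext hf hu
  subst he
  exact ⟨a, ha, hk⟩

/-- every natural transformation of degree `n` is given by a class of degree `n + 1` -/
theorem Base.kap_surj (B : Base) (hV : V.LF) {p : ∀ d, SHU.ES (XL V) 1 d →ₗ[ZMod 2] SHU.Pl d}
    (hp : SHU.IsPN 1 n p) : ∃ a ∈ Hn V.toSS (n + 1), ∀ d c, p d c = kap a d c := by
  classical
  haveI hf : ∀ j, Module.Finite (ZMod 2) (XL V j) := B.fin hV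
  have h1 : ∀ (m : ℕ) (i : Fin (Module.finrank (ZMod 2) (XL V (m + 1)))),
      ∃ a ∈ Hn V.toSS (n + 1), ∀ d (c : SHU.ES (XL V) 1 d), kap a d c =
        p d (SHU.El 1 (m + 1) ((Module.finBasis (ZMod 2) (XL V (m + 1))).coord i) d
          (c.1 (m + 1) (Module.finBasis (ZMod 2) (XL V (m + 1)) i))) := by
    intro m i
    exact B.kap_np hV _ (SHU.psi_IsNP (show m + 1 = m + 1 from rfl) hp
      ((Module.finBasis (ZMod 2) (XL V (m + 1))).coord i))
  choose a ha hk using h1
  refine ⟨∑ m ∈ Finset.range (n + 1), ∑ i, a m i, ?_, ?_⟩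
  · exact Submodule.sum_mem _ fun m _ => Submodule.sum_mem _ fun i _ => ha m i
  · intro d c
    rw [hp.decomp d c, B.kap_sum hV _ _ fun m _ => Submodule.sum_mem _ fun i _ => ha m i]
    apply Finset.sum_congr rfl
    intro m _
    rw [B.kap_sum hV _ _ fun i _ => ha m i]
    apply Finset.sum_congr rfl
    intro i _
    exact (hk m i d c).symm

end Pool.Agent.SHL


end

section

/-!
LINK: `kap` is injective modulo decomposables.
-/

namespace Pool.Agent.SHL

open Pool.Agent.SHS

variable {V W : SV} {d n : ℕ}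

/-- dual functionals of a linearly independent family -/
theorem exists_dual {M : Type*} [AddCommGroup M] [Module k M] {ι : Type*} {v : ι → M}
    (hv : LinearIndependent k v) (i0 : ι) :
    ∃ φ : M →ₗ[k] k, φ (v i0) = 1 ∧ ∀ i, i ≠ i0 → φ (v i) = 0 := by
  classical
  obtain ⟨φ, hφ⟩ := LinearMap.exists_extend ((Finsupp.lapply i0).comp hv.repr : _ →ₗ[k] k)
  have h : ∀ i, φ (v i) = if i = i0 then 1 else 0 := by
    intro i
    have h1 := LinearMap.congr_fun hφ ⟨v i, Submodule.subset_span ⟨i, rfl⟩⟩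
    rw [LinearMap.comp_apply, Submodule.subtype_apply] at h1
    rw [h1, LinearMap.comp_apply, hv.repr_eq_single i _ rfl, Finsupp.lapply_apply,
      Finsupp.single_apply]
  refine ⟨φ, ?_, ?_⟩
  · rw [h, if_pos rfl]
  · intro i hi
    rw [h, if_neg hi]

theorem card_le_wgt (J : Multiset ℕ) : Multiset.card J ≤ wgt J := by
  induction J using Multiset.induction_on with
  | empty => exact Nat.zero_le _
  | cons a J ih =>
    unfold wgt at ih ⊢
    rw [Multiset.card_cons, Multiset.map_cons, Multiset.sum_cons]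
    have : 1 ≤ 2 ^ a := Nat.one_le_two_pow
    omega

theorem eq_replicate {J : Multiset ℕ} (h : wgt J = Multiset.card J) :
    J = Multiset.replicate (Multiset.card J) 0 := by
  induction J using Multiset.induction_on with
  | empty => rfl
  | cons a J ih =>
    have h1 := card_le_wgt J
    have h2 : wgt (a ::ₘ J) = 2 ^ a + wgt J := by
      unfold wgt
      rw [Multiset.map_cons, Multiset.sum_cons]
    rw [h2, Multiset.card_cons] at h
    have h3 : 1 ≤ 2 ^ a := Nat.one_le_two_pow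
    have h4 : 2 ^ a = 1 := by omega
    have h5 : a = 0 := by
      rcases Nat.eq_zero_or_pos a with h5 | h5
      · exact h5
      · have := Nat.one_lt_two_pow (by omega : a ≠ 0)
        omega
    subst h5
    rw [Multiset.card_cons, Multiset.replicate_succ, ← ih (by omega)]

theorem iota_ne (μ : Multiset ℕ → H (EM n).toSS) (hμ : MuFam n μ) (hK : K1_Stmt) :
    iota n ≠ 0 := by
  obtain ⟨ρ, h1, _⟩ := hμ.res
  intro h
  rw [h, map_zero] at h1
  have h2 : (∏ j : Fin n, MvPolynomial.X j : MvPolynomial (Fin n) k) = 0 := by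
    apply (hK n).1
    rw [← h1, map_zero]
  have h3 : (∏ j : Fin n, MvPolynomial.X j : MvPolynomial (Fin n) k) ≠ 0 :=
    Finset.prod_ne_zero_iff.mpr fun j _ => MvPolynomial.X_ne_zero j
  exact h3 h2

/-- the fundamental class is the class with all exponents 0 -/
theorem mu_iota (hn : 1 ≤ n) (hSC : SCn n) (hK : K1_Stmt) {μ : Multiset ℕ → H (EM n).toSS}
    (hμ : MuFam n μ) : μ (Multiset.replicate n 0) = iota n := by
  classical
  have hb := hSC μ hμ
  have h1 := hb.span n (iota_mem n)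
  have h2 : ((fun S : Finset {J : Multiset ℕ // Multiset.card J = n} => ∏ J ∈ S, μ J.1) ''
      {S | ∑ J ∈ S, wgt J.1 = n}) ⊆ {μ (Multiset.replicate n 0)} := by
    rintro _ ⟨S, hS, rfl⟩
    have hS' : ∑ J ∈ S, wgt J.1 = n := hS
    have hne : S.Nonempty := by
      rw [Finset.nonempty_iff_ne_empty]
      rintro rfl
      rw [Finset.sum_empty] at hS'
      omega
    obtain ⟨J, hJ⟩ := hne
    rw [← Finset.insert_erase hJ, Finset.sum_insert (Finset.notMem_erase J S)] at hS'
    have h3 := card_le_wgt J.1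
    rw [J.2] at h3
    have h4 : S.erase J = ∅ := by
      rw [Finset.eq_empty_iff_forall_notMem]
      intro J' hJ'
      have h5 : wgt J'.1 ≤ ∑ J ∈ S.erase J, wgt J.1 :=
        Finset.single_le_sum (f := fun J : {J : Multiset ℕ // Multiset.card J = n} => wgt J.1)
          (fun _ _ => Nat.zero_le _) hJ'
      have h6 := card_le_wgt J'.1
      rw [J'.2] at h6
      omega
    rw [h4, Finset.sum_empty, add_zero] at hS'
    have h7 : S = {J} := by
      rw [← Finset.insert_erase hJ, h4]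
      rfl
    have h8 : J.1 = Multiset.replicate n 0 := by
      have := eq_replicate (J := J.1) (by rw [hS', J.2])
      rwa [J.2] at this
    show ∏ J ∈ S, μ J.1 ∈ _
    rw [h7, Finset.prod_singleton, h8]
    exact rfl
  have h3 := Submodule.span_mono h2 h1
  rw [Submodule.mem_span_singleton] at h3
  obtain ⟨c, hc⟩ := h3
  have hc2 : c = 0 ∨ c = 1 := by
    have : ∀ c : ZMod 2, c = 0 ∨ c = 1 := by decide
    exact this c
  rcases hc2 with rfl | rfl
  · rw [zero_smul] at hc
    exact absurd hc.symm (iota_ne μ hμ hK)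
  · rw [one_smul] at hc
    exact hc

/-- In a polynomial algebra every class of positive degree is a combination of generators modulo
decomposables. -/
theorem poly_mod_dec {X : SS} {σ : Type} {w : σ → ℕ} {g : σ → H X} (h : PolyGen X w g)
    {N : ℕ} (hN : 1 ≤ N) {a : H X} (ha : a ∈ Hn X N) :
    ∃ c : σ →₀ k, (∀ s ∈ c.support, w s = N) ∧ a + (c.sum fun s r => r • g s) ∈ Dec X := by
  classical
  have hdeg := h.deg
  have hg : ∀ s, g s ∈ Hn X (w s) := by
    intro s
    rw [hdeg]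
    refine ⟨MvPolynomial.X s, ?_, ?_⟩
    · rw [SetLike.mem_coe, MvPolynomial.mem_weightedHomogeneousSubmodule]
      exact MvPolynomial.isWeightedHomogeneous_X k w s
    · rw [AlgHom.toLinearMap_apply, MvPolynomial.aeval_X]
  rw [hdeg] at ha
  obtain ⟨P, hP, rfl⟩ := ha
  rw [SetLike.mem_coe, MvPolynomial.mem_weightedHomogeneousSubmodule] at hP
  rw [AlgHom.toLinearMap_apply]
  -- the property is additive
  have hadd : ∀ x y : H X,
      (∃ c : σ →₀ k, (∀ s ∈ c.support, w s = N) ∧ x + (c.sum fun s r => r • g s) ∈ Dec X) →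
      (∃ c : σ →₀ k, (∀ s ∈ c.support, w s = N) ∧ y + (c.sum fun s r => r • g s) ∈ Dec X) →
      (∃ c : σ →₀ k, (∀ s ∈ c.support, w s = N) ∧
        (x + y) + (c.sum fun s r => r • g s) ∈ Dec X) := by
    rintro x y ⟨c, hc, hc'⟩ ⟨e, he, he'⟩
    refine ⟨c + e, ?_, ?_⟩
    · intro s hs
      have := Finsupp.support_add hs
      rw [Finset.mem_union] at this
      rcases this with h1 | h1
      · exact hc s h1
      · exact he s h1
    · rw [Finsupp.sum_add_index' (fun s => zero_smul k (g s)) (fun s r r' => add_smul r r' (g s))]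
      have := Submodule.add_mem _ hc' he'
      convert this using 1
      abel
  have hmon : ∀ e ∈ P.support, ∃ c : σ →₀ k, (∀ s ∈ c.support, w s = N) ∧
      MvPolynomial.aeval (R := k) g (MvPolynomial.monomial e (P.coeff e)) +
        (c.sum fun s r => r • g s) ∈ Dec X := by
    intro e he
    have hwe : Finsupp.weight w e = N := hP (MvPolynomial.mem_support_iff.mp he)
    have hne : e ≠ 0 := by
      rintro rfl
      rw [map_zero] at hwe
      omega
    obtain ⟨s, hs⟩ := Finsupp.ne_iff.mp hne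
    have hs' : 1 ≤ e s := Nat.one_le_iff_ne_zero.mpr (by simpa using hs)
    have hsplit : e = Finsupp.single s 1 + (e - Finsupp.single s 1) :=
      (add_tsub_cancel_of_le (Finsupp.single_le_iff.mpr hs')).symm
    set e' := e - Finsupp.single s 1 with he'
    have hw : w s + Finsupp.weight w e' = N := by
      rw [← hwe, hsplit, map_add, Finsupp.weight_single, one_smul]
    have hmem : ∀ (f : σ →₀ ℕ) (r : k), MvPolynomial.aeval (R := k) g
        (MvPolynomial.monomial f r) ∈ Hn X (Finsupp.weight w f) := by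
      intro f r
      rw [hdeg]
      exact ⟨MvPolynomial.monomial f r, by
        rw [SetLike.mem_coe, MvPolynomial.mem_weightedHomogeneousSubmodule]
        exact MvPolynomial.isWeightedHomogeneous_monomial w f r rfl, rfl⟩
    have hval : MvPolynomial.aeval (R := k) g (MvPolynomial.monomial e (P.coeff e)) =
        g s * MvPolynomial.aeval (R := k) g (MvPolynomial.monomial e' (P.coeff e)) := by
      rw [show MvPolynomial.monomial e (P.coeff e) =
        MvPolynomial.X s * MvPolynomial.monomial e' (P.coeff e) by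
          rw [MvPolynomial.X, MvPolynomial.monomial_mul, one_mul, ← hsplit]]
      rw [map_mul, MvPolynomial.aeval_X]
    by_cases h0 : e' = 0
    · refine ⟨Finsupp.single s (P.coeff e), ?_, ?_⟩
      · intro s' hs'
        have := Finsupp.support_single_subset hs'
        rw [Finset.mem_singleton] at this
        subst this
        rw [← hw, h0, map_zero, add_zero]
      · rw [Finsupp.sum_single_index (zero_smul k (g s)), hval, h0]
        have h1 : MvPolynomial.aeval (R := k) g (MvPolynomial.monomial 0 (P.coeff e)) =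
            algebraMap k (H X) (P.coeff e) := by
          rw [← MvPolynomial.C_apply, MvPolynomial.aeval_C]
        rw [h1, ← Algebra.commutes, ← Algebra.smul_def, mod_two]
        exact Submodule.zero_mem _
    · refine ⟨0, ?_, ?_⟩
      · intro s hs
        simp at hs
      · rw [Finsupp.sum_zero_index, add_zero, hval]
        have hpos : 0 < Finsupp.weight w e' := by
          obtain ⟨s1, hs1⟩ := Finsupp.ne_iff.mp h0
          have h1 : 1 ≤ e' s1 := Nat.one_le_iff_ne_zero.mpr (by simpa using hs1)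
          have h2 := Finsupp.le_weight_of_ne_zero' w (s := s1) (f := e') (by simpa using hs1)
          have h3 := h.pos s1
          omega
        obtain ⟨m1, hm1⟩ : ∃ m1, w s = m1 + 1 := ⟨w s - 1, by have := h.pos s; omega⟩
        obtain ⟨m2, hm2⟩ : ∃ m2, Finsupp.weight w e' = m2 + 1 :=
          ⟨Finsupp.weight w e' - 1, by omega⟩
        apply Submodule.subset_span
        refine ⟨m1, m2, g s, _, ?_, ?_, rfl⟩
        · rw [← hm1]; exact hg s
        · rw [← hm2]; exact hmem e' _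
  have hfin : ∀ S : Finset (σ →₀ ℕ), S ⊆ P.support → ∃ c : σ →₀ k,
      (∀ s ∈ c.support, w s = N) ∧
      MvPolynomial.aeval (R := k) g (∑ e ∈ S, MvPolynomial.monomial e (P.coeff e)) +
        (c.sum fun s r => r • g s) ∈ Dec X := by
    intro S
    induction S using Finset.induction_on with
    | empty =>
      intro _
      refine ⟨0, fun s hs => by simp at hs, ?_⟩
      rw [Finset.sum_empty, map_zero, Finsupp.sum_zero_index, add_zero]
      exact Submodule.zero_mem _
    | insert e S he ih =>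
      intro hS
      rw [Finset.sum_insert he, map_add]
      exact hadd _ _ (hmon e (hS (Finset.mem_insert_self _ _)))
        (ih fun x hx => hS (Finset.mem_insert_of_mem hx))
  have := hfin P.support (Finset.Subset.refl _)
  rwa [← P.as_sum] at this

end Pool.Agent.SHL


end

section

/-!
LINK: injectivity of `kap` modulo decomposables, the hypotheses of UALG, exactness on `ES`.
-/

namespace Pool.Agent.SHL

open Pool.Agent.SHS

variable {V W : SV} {d n : ℕ}

/-- values of `kap` on the generators -/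
theorem Base.kap_gen (B : Base) (hV : V.LF) {j : ℕ} (X : SV.Hom V (EM j))
    {μ : Multiset ℕ → H (EM j).toSS} (hμ : MuFam j μ) (J : Multiset ℕ)
    (hJ : Multiset.card J = j) (h0 : 0 ∈ J) (b : XL V j) (hb : b.1 = H.map X.toSS (iota j)) :
    ∃ f : ∀ d, SHU.Pl d →ₗ[ZMod 2] SHU.Pl d,
      f (j - 1) (SHU.Un (j - 1)) = msym (j - 1) (J.erase 0) ∧
      ∀ d (c : SHU.ES (XL V) 1 d), kap (H.map X.toSS (μ J)) d c = f d (c.1 j b) := by
  obtain ⟨J', rfl⟩ := Multiset.exists_cons_of_mem h0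
  rw [Multiset.card_cons] at hJ
  subst hJ
  obtain ⟨f, hf, hfu⟩ := B.psi J'
  refine ⟨f, ?_, ?_⟩
  · rw [Multiset.erase_cons_head]
    exact hfu
  · intro d c
    exact (B.kap_psi hV b J' rfl hf hfu hμ X.toSS (fun q => map_zero (X.f q)) hb.symm).2 d c

theorem Base.kap_inj (B : Base) (hP : POLY_Stmt) (hL : LBE_Stmt) (hSC : SC_Stmt) (hV : V.LF)
    (h0 : ∀ v : V.X 0, v = 0) {a : H V.toSS} (ha : a ∈ Hn V.toSS (n + 1))
    (h : ∀ (d : ℕ) (c : SHU.ES (XL V) 1 d), kap a d c = 0) : a ∈ Dec V.toSS := by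
  classical
  obtain ⟨I, x, hx⟩ := hL V hV
  obtain ⟨μ, hμ⟩ : ∃ μ : ∀ n, Multiset ℕ → H (EM n).toSS, ∀ n, 1 ≤ n → MuFam n (μ n) := by
    have hmu : ∀ n, ∃ μ : Multiset ℕ → H (EM n).toSS, 1 ≤ n → MuFam n μ := by
      intro n
      by_cases hn : 1 ≤ n
      · obtain ⟨μ, hμ⟩ := B.mu n hn
        exact ⟨μ, fun _ => hμ⟩
      · exact ⟨fun _ => 0, fun h => absurd h hn⟩
    choose μ hμ using hmu
    exact ⟨μ, hμ⟩
  have hPG := hP V hV h0 x hx μ hμ
  obtain ⟨c, hc, hd⟩ := poly_mod_dec hPG (show 1 ≤ n + 1 by omega) ha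
  set g : (Σ j, I j × {J : Multiset ℕ // Multiset.card J = j ∧ 0 ∈ J}) → H V.toSS :=
    fun p => H.map (x p.1 p.2.1).toSS (μ p.1 p.2.2.1) with hg
  have hpos : ∀ p : (Σ j, I j × {J : Multiset ℕ // Multiset.card J = j ∧ 0 ∈ J}), 1 ≤ p.1 := by
    rintro ⟨j, i, J, hJ, h0J⟩
    show 1 ≤ j
    rw [← hJ]
    exact Multiset.card_pos_iff_exists_mem.mpr ⟨0, h0J⟩
  have hgm : ∀ p ∈ c.support, g p ∈ Hn V.toSS (n + 1) := by
    intro p hp
    rw [← hc p hp]
    exact H.map_mem _ ((hμ p.1 (hpos p)).mem p.2.2.1 p.2.2.2.1)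
  by_cases hc0 : c = 0
  · rw [hc0, Finsupp.sum_zero_index, add_zero] at hd
    exact hd
  exfalso
  obtain ⟨s0, hs0⟩ := Finsupp.support_nonempty_iff.mpr hc0
  -- the combination has zero `kap`
  have hS : ∀ (d : ℕ) (c' : SHU.ES (XL V) 1 d), ∑ p ∈ c.support, c p • kap (g p) d c' = 0 := by
    intro d c'
    have hSm : (c.sum fun s r => r • g s) ∈ Hn V.toSS (n + 1) :=
      Submodule.sum_mem _ fun p hp => Submodule.smul_mem _ _ (hgm p hp)
    have h1 := B.kap_dec hV (Submodule.add_mem _ ha hSm) hd c'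
    rw [B.kap_add hV ha hSm, h, zero_add, Finsupp.sum,
      B.kap_sum hV _ _ fun p hp => Submodule.smul_mem _ _ (hgm p hp)] at h1
    rw [← h1]
    apply Finset.sum_congr rfl
    intro p hp
    rw [B.kap_smul hV (hgm p hp)]
  -- linear independence of the generators
  have hli : LinearIndependent k g := by
    have h1 := (MvPolynomial.linearIndependent_X
      (σ := (Σ j, I j × {J : Multiset ℕ // Multiset.card J = j ∧ 0 ∈ J})) (R := k))
    have h2 := h1.map' (MvPolynomial.aeval (R := k) g).toLinearMap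
      (LinearMap.ker_eq_bot.mpr hPG.inj)
    have h3 : ((MvPolynomial.aeval (R := k) g).toLinearMap ∘ MvPolynomial.X) = g := by
      funext p
      exact MvPolynomial.aeval_X g p
    rw [h3] at h2
    exact h2
  obtain ⟨j0, i0, J0, hJ0, h00⟩ := s0
  obtain ⟨m, rfl⟩ : ∃ m, j0 = m + 1 := ⟨j0 - 1, by
    have h5 : 1 ≤ j0 := hpos ⟨j0, i0, J0, hJ0, h00⟩
    omega⟩
  have hbm : ∀ (j : ℕ) (i : I j), H.map (x j i).toSS (iota j) ∈ LC V j :=
    fun j i => B.lcm.1 V (EM j) (x j i) j _ (B.lcm.2 j)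
  have hli2 : LinearIndependent k (fun i : I (m + 1) => H.map (x (m + 1) i).toSS
      (iota (m + 1))) := by
    have h1 := hli.comp (fun i : I (m + 1) => (⟨m + 1, i, Multiset.replicate (m + 1) 0,
      Multiset.card_replicate _ _, Multiset.mem_replicate.mpr ⟨by omega, rfl⟩⟩ :
      (Σ j, I j × {J : Multiset ℕ // Multiset.card J = j ∧ 0 ∈ J}))) (by
        intro i i' hii
        simp only [Sigma.mk.injEq, heq_eq_eq, Prod.mk.injEq, true_and, and_true] at hii
        exact hii)
    convert h1 using 1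
    funext i
    show _ = H.map (x (m + 1) i).toSS (μ (m + 1) (Multiset.replicate (m + 1) 0))
    rw [mu_iota (by omega) (hSC (m + 1) (by omega)) B.k1 (hμ (m + 1) (by omega))]
  obtain ⟨ξ', hξ1, hξ2⟩ := exists_dual hli2 i0
  set ξ : XL V (m + 1) →ₗ[ZMod 2] ZMod 2 := ξ'.comp (LC V (m + 1)).subtype with hξ
  have hJ0' : Multiset.card (J0.erase 0) = m := by
    rw [Multiset.card_erase_of_mem h00, hJ0]
    rfl
  obtain ⟨Φ, hΦ1, hΦ2⟩ := exists_dual (B.msi m) ⟨J0.erase 0, hJ0'⟩
  have hU : SHU.hcT 1 (m + 1) m (SHU.Un m) = SHU.Un m := by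
    unfold SHU.hcT
    rw [if_pos (by omega), Nat.add_sub_cancel]
    exact MvPolynomial.homogeneousComponent_eq_self (SHU.Un_hom m)
  have key := congrArg Φ (hS m (SHU.El 1 (m + 1) ξ m (SHU.Un m)))
  rw [map_zero, map_sum, Finset.sum_eq_single_of_mem _ hs0] at key
  · -- the value at `s0`
    obtain ⟨f, hfu, hfk⟩ := B.kap_gen hV (x (m + 1) i0) (hμ (m + 1) (by omega)) J0 hJ0 h00
      ⟨_, hbm (m + 1) i0⟩ rfl
    have h1 : kap (g ⟨m + 1, i0, J0, hJ0, h00⟩) m (SHU.El 1 (m + 1) ξ m (SHU.Un m)) =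
        msym m (J0.erase 0) := by
      have h2 := hfk m (SHU.El 1 (m + 1) ξ m (SHU.Un m))
      rw [SHU.El_same, hU] at h2
      have h3 : ξ ⟨_, hbm (m + 1) i0⟩ = 1 := hξ1
      rw [h3, one_smul] at h2
      exact h2.trans hfu
    rw [h1, map_smul, hΦ1, smul_eq_mul, mul_one] at key
    exact (Finsupp.mem_support_iff.mp hs0) key
  · rintro ⟨j, i, J, hJ, h0J⟩ _ hne
    rw [map_smul]
    have hj : 1 ≤ j := hpos ⟨j, i, J, hJ, h0J⟩
    obtain ⟨f, hfu, hfk⟩ := B.kap_gen hV (x j i) (hμ j hj) J hJ h0J ⟨_, hbm j i⟩ rfl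
    have h1 := hfk m (SHU.El 1 (m + 1) ξ m (SHU.Un m))
    have h2 : Φ (kap (g ⟨j, i, J, hJ, h0J⟩) m (SHU.El 1 (m + 1) ξ m (SHU.Un m))) = 0 := by
      show Φ (kap (H.map (x j i).toSS (μ j J)) m (SHU.El 1 (m + 1) ξ m (SHU.Un m))) = 0
      rw [h1]
      by_cases hjj : j = m + 1
      · subst hjj
        rw [SHU.El_same, hU]
        by_cases hii : i = i0
        · subst hii
          have h3 : ξ ⟨_, hbm (m + 1) i⟩ = 1 := hξ1
          have hfu' : f m (SHU.Un m) = msym m (J.erase 0) := hfu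
          rw [h3, one_smul, hfu']
          have hJm : Multiset.card (J.erase 0) = m := by
            rw [Multiset.card_erase_of_mem h0J, hJ]
            rfl
          apply hΦ2 ⟨J.erase 0, hJm⟩
          intro hE
          apply hne
          have h4 : J.erase 0 = J0.erase 0 := congrArg Subtype.val hE
          have h5 : J = J0 := by
            rw [← Multiset.cons_erase h0J, h4, Multiset.cons_erase h00]
          subst h5
          rfl
        · have h3 : ξ ⟨_, hbm (m + 1) i⟩ = 0 := hξ2 i hii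
          rw [h3, zero_smul, map_zero, map_zero]
      · rw [SHU.El_ne _ _ _ _ _ _ hjj, map_zero, map_zero]
    rw [h2, smul_zero]

/-- Exactness on the reduced part of `ES`. -/
theorem Base.exactES (B : Base) (hP : POLY_Stmt) (hL : LBE_Stmt) (hSC : SC_Stmt) (C : CSV)
    (hq : ∃ N, ∀ j ≥ N, C.QE j) : ∀ t, 1 ≤ t →
    (∀ z : SHU.ES (XL (C.V 0)) t 1, z.1 t = 0 → dlE C 0 t 1 z = 0 → z = 0) ∧
    ∀ s, ∀ z : SHU.ES (XL (C.V (s + 1))) t 1, z.1 t = 0 → dlE C (s + 1) t 1 z = 0 →
      ∃ y : SHU.ES (XL (C.V s)) t 1, y.1 t = 0 ∧ dlE C s t 1 y = z := by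
  have hfin : ∀ s j, Module.Finite (ZMod 2) (XL (C.V s) j) := fun s j => B.fin (C.lf s) j
  obtain ⟨N, hN⟩ := hq
  apply SHU.UALG (fun s j => XL (C.V s) j) (fun s t d => dlE C s t d)
  · exact fun s t ht => B.dlE_IsNT C s t ht
  · exact fun s t ht d c => B.dlE_dlE C s t ht d c
  · exact fun s t ht => B.dlE_Compat C s t ht
  · refine ⟨N, fun n hn p hp => ?_⟩
    obtain ⟨a, ha, hk⟩ := B.kap_surj (C.lf 0) hp
    obtain ⟨b, hb, hd⟩ := (hN (n + 1) (by omega)).1 a ha
    refine ⟨kap b, B.kap_IsPN (C.lf 1) hb, fun d c => ?_⟩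
    have h1 := B.kap_dec (C.lf 0) (Submodule.add_mem _ ha (C.dl_mem 0 hb)) hd c
    rw [B.kap_add (C.lf 0) ha (C.dl_mem 0 hb)] at h1
    rw [hk, B.kap_dlE C 0 hb]
    exact mod_two_eq h1
  · intro s
    refine ⟨N, fun n hn p hp hz => ?_⟩
    obtain ⟨a, ha, hk⟩ := B.kap_surj (C.lf (s + 1)) hp
    have hda : C.dl s a ∈ Dec (C.V s).toSS := by
      apply B.kap_inj hP hL hSC (C.lf s) (C.z0 s) (C.dl_mem s ha)
      intro d c
      rw [← B.kap_dlE C s ha, ← hk]
      exact hz d c
    obtain ⟨b, hb, hd⟩ := (hN (n + 1) (by omega)).2 s a ha hda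
    refine ⟨kap b, B.kap_IsPN (C.lf (s + 2)) hb, fun d c => ?_⟩
    have h1 := B.kap_dec (C.lf (s + 1)) (Submodule.add_mem _ ha (C.dl_mem (s + 1) hb)) hd c
    rw [B.kap_add (C.lf (s + 1)) ha (C.dl_mem (s + 1) hb)] at h1
    rw [hk, B.kap_dlE C (s + 1) hb]
    exact mod_two_eq h1

end Pool.Agent.SHL


end

section

/-!
LINK: reduced classes and linear classes (module SHL_RCH).
-/

namespace Pool.Agent.SHL

open Pool.Agent.SHS Coch

namespace Rch

theorem sub0 (n : ℕ) : Subsingleton ((SS.simplex 0).X n) := by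
  constructor
  intro a b
  apply OrderHom.ext
  funext i
  apply Fin.ext
  have h1 := (a i).2
  have h2 := (b i).2
  omega

theorem ne0 (n : ℕ) : Nonempty ((SS.simplex 0).X n) := ⟨cst 0⟩

/-- The map to the point. -/
def toPt (Y : SS) : SS.Hom Y (SS.simplex 0) where
  f _ _ := cst 0
  nat {m _} _ _ := (sub0 m).elim _ _

theorem map_zmap_clsN {Y : SS} {V : SV} (j : ℕ) (l : V.X j →ₗ[k] k)
    (h : V.toSS.cm.delta j (fun x => l x) = 0) :
    H.map (zmap Y V) (clsN j (fun x => l x) h) = 0 := by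
  unfold clsN
  rw [H.map_cls]
  rw [cls_eq_zero]
  refine ⟨0, ?_⟩
  rw [map_zero]
  ext m x
  show (0 : k) = single (X := V.toSS) j (fun x => l x) m (0 : V.X m)
  by_cases hm : m = j
  · subst hm
    rw [single_self]
    exact (map_zero l).symm
  · exact (single_ne hm _ _).symm

theorem delta_pull {V W : SV} (L : SV.Hom V W) (j : ℕ) (l : W.X j →ₗ[k] k)
    (h : W.toSS.cm.delta j (fun x => l x) = 0) :
    V.toSS.cm.delta j (fun x => (l.comp (L.f j)) x) = 0 := by
  funext y
  have h1 := congrArg (fun F : W.X (j + 1) → k => F (L.f (j + 1) y)) h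
  rw [CM.delta_apply] at h1 ⊢
  simp only [Finset.sum_apply] at h1 ⊢
  refine Eq.trans ?_ h1
  apply Finset.sum_congr rfl
  intro i _
  show l (L.f j (V.map (cof i) y)) = l (W.map (cof i) (L.f (j + 1) y))
  rw [L.nat]

end Rch

open Rch

theorem RCH : RCH_Stmt := by
  intro V
  refine ⟨?_, ?_, ?_, ?_⟩
  · intro j hj a ha
    show H.map (zmap (SS.simplex 0) V) a = 0
    rcases Pow.point sub0 ne0 j _ (H.map_mem (zmap (SS.simplex 0) V) ha) with ⟨h, _⟩ | h
    · omega
    · exact h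
  · rintro j a ⟨l, h, rfl⟩
    exact map_zmap_clsN j l h
  · rintro j a ⟨l, h, rfl⟩
    exact clsN_mem _ _ _
  · intro hV j
    haveI : Finite (V.X j) := hV j
    haveI : Finite (V.X j →ₗ[k] k) :=
      Finite.of_injective (fun l : V.X j →ₗ[k] k => (l : V.X j → k)) DFunLike.coe_injective
    let f : {l : V.X j →ₗ[k] k // V.toSS.cm.delta j (fun x => l x) = 0} → LC V j :=
      fun l => ⟨clsN j (fun x => l.1 x) l.2, l.1, l.2, rfl⟩
    apply Finite.of_surjective f
    rintro ⟨a, l, h, rfl⟩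
    exact ⟨⟨l, h⟩, rfl⟩

theorem ZM0 : ZM0_Stmt := by
  intro Y V a ha
  have e : zmap Y V = (zmap (SS.simplex 0) V).comp (toPt Y) := rfl
  rw [e, H.map_comp, show H.map (zmap (SS.simplex 0) V) a = 0 from ha, map_zero]

theorem LCM : LCM_Stmt := by
  refine ⟨?_, ?_⟩
  · rintro V W L j a ⟨l, h, rfl⟩
    refine ⟨l.comp (L.f j), delta_pull L j l h, ?_⟩
    unfold clsN
    rw [H.map_cls]
    congr 1
    apply Subtype.ext
    ext m x
    by_cases hm : m = j
    · subst hm
      show single (X := V.toSS) m (fun x => (l.comp (L.f m)) x) m x =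
        single (X := W.toSS) m (fun x => l x) m (L.f m x)
      rw [single_self, single_self]
      rfl
    · show single (X := V.toSS) j (fun x => (l.comp (L.f j)) x) m x =
        single (X := W.toSS) j (fun x => l x) m (L.f m x)
      rw [single_ne hm, single_ne hm]
  · intro n
    let l : EMsub n n →ₗ[k] k :=
      { toFun := fun z => z.1 OrderHom.id
        map_add' := fun _ _ => rfl
        map_smul' := fun _ _ => rfl }
    have h : (EM n).toSS.cm.delta n (fun x => l x) = 0 := by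
      have h1 := dlt_iotaC n
      unfold iotaC at h1
      rw [dlt_single] at h1
      exact single_inj (h1.trans (single_zero _).symm)
    exact ⟨l, h, rfl⟩

end Pool.Agent.SHL


end

section

/-!
# LINK, BEM: realisation of classes by Moore cycles of `Map(Y, EM (m + t))`
-/

set_option autoImplicit false

namespace Pool.Agent.SHL

open Pool.Agent.SHS

namespace Bem

open Coch

theorem consec {n q : ℕ} (s : Mor n q) (h : ¬ Function.Injective s) :
    ∃ (i : ℕ) (hi : i + 1 < n + 1), s ⟨i, by omega⟩ = s ⟨i + 1, hi⟩ := by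
  by_contra hcon
  push Not at hcon
  apply h
  have hm : StrictMono (fun v => s v) := by
    apply Fin.strictMono_iff_lt_succ.2
    intro i
    apply lt_of_le_of_ne
    · exact s.monotone (Fin.castSucc_lt_succ).le
    · exact hcon i.1 (by omega)
  exact hm.injective

theorem cod_val {n : ℕ} (i : Fin (n + 1)) (v : Fin (n + 2)) :
    ((cod i) v : ℕ) = if v.1 ≤ i.1 then v.1 else v.1 - 1 := by
  show ((Fin.predAbove i v : Fin (n + 1)) : ℕ) = _
  unfold Fin.predAbove
  by_cases h : i.castSucc < v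
  · rw [dif_pos h, if_neg (by rw [Fin.lt_def] at h; simpa using h)]
    rfl
  · rw [dif_neg h, if_pos (by rw [Fin.lt_def] at h; simpa using h)]
    rfl

theorem factor_cod {m q : ℕ} (s : Mor (m + 1) q) (h : ¬ Function.Injective s) :
    ∃ (i : Fin (m + 1)) (s' : Mor m q), s = s'.comp (cod i) := by
  obtain ⟨i, hi, hs⟩ := consec s h
  refine ⟨⟨i, by omega⟩, s.comp (cofN (i + 1) m), ?_⟩
  apply OrderHom.ext
  funext v
  show s v = s (cofN (i + 1) m (cod ⟨i, by omega⟩ v))
  by_cases hv : v.1 = i + 1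
  · have e1 : v = ⟨i + 1, hi⟩ := Fin.ext hv
    have e2 : cofN (i + 1) m (cod ⟨i, by omega⟩ v) = ⟨i, by omega⟩ := by
      apply Fin.ext
      rw [cofN_val, cod_val]
      show (if (if v.1 ≤ i then v.1 else v.1 - 1) < i + 1 then
        (if v.1 ≤ i then v.1 else v.1 - 1) else (if v.1 ≤ i then v.1 else v.1 - 1) + 1) = i
      split_ifs <;> omega
    rw [e2]
    exact (congrArg s e1).trans hs.symm
  · congr 1
    apply Fin.ext
    rw [cofN_val, cod_val]
    show v.1 = (if (if v.1 ≤ i then v.1 else v.1 - 1) < i + 1 then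
      (if v.1 ≤ i then v.1 else v.1 - 1) else (if v.1 ≤ i then v.1 else v.1 - 1) + 1)
    split_ifs <;> omega

theorem exists_norm (hN : NORM_Stmt) {X : SS} {m : ℕ} {c : H X} (hc : c ∈ Hn X m) :
    ∃ (γ : X.X m → k) (h : X.cm.delta m γ = 0), clsN m γ h = c ∧ NormC m γ := by
  obtain ⟨γ, h, rfl⟩ := exists_clsN hc
  cases m with
  | zero =>
    refine ⟨γ, h, rfl, fun q s hs => ?_⟩
    refine absurd (fun a b _ => ?_) hs
    apply Fin.ext
    have h1 := a.2
    have h2 := b.2
    omega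
  | succ m =>
    obtain ⟨v, hv⟩ := hN X.cm m γ (fun i => by rw [h, map_zero])
    have h' : X.cm.delta (m + 1) (γ + X.cm.delta m v) = 0 := by
      rw [map_add, h, zero_add]
      exact X.cm.delta_delta m v
    refine ⟨γ + X.cm.delta m v, h', ?_, ?_⟩
    · have e := clsN_add γ (X.cm.delta m v) h (X.cm.delta_delta m v)
      have e2 : clsN (m + 1) (X.cm.delta m v) (X.cm.delta_delta m v) = 0 :=
        (clsN_eq_zero _ _).2 ⟨v, rfl⟩
      exact e.trans ((congrArg (fun u => clsN (m + 1) γ h + u) e2).trans (add_zero _))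
    · intro q s hs x
      obtain ⟨i, s', rfl⟩ := factor_cod s hs
      rw [X.map_comp]
      exact congrFun (hv i) (X.map s' x)

/-- The product of the fundamental cochain of the sphere and of `γ`. -/
noncomputable def P (t m : ℕ) (Y : SS) (γ : Y.X m → k) : Coch ((Sph t).prod Y) :=
  pull (SS.fst (Sph t) Y) (single t (epsC t)) * pull (SS.snd (Sph t) Y) (single m γ)

theorem P_apply (t m : ℕ) (Y : SS) (γ : Y.X m → k) (x : ((Sph t).prod Y).X (m + t)) :
    P t m Y γ (m + t) x =
      epsC t ((Sph t).map (fr t (m + t)) x.1) * γ (Y.map (bk m (m + t)) x.2) := by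
  unfold P
  rw [cmul_apply, Finset.sum_eq_single (t, m)]
  · rw [pull_apply, pull_apply, single_self, single_self]
    rfl
  · rintro ⟨p, q⟩ hp hne
    simp only [Finset.HasAntidiagonal.mem_antidiagonal] at hp
    rw [pull_apply, pull_apply]
    by_cases h : p = t
    · have hq : q ≠ m := fun h2 => hne (by rw [h, h2])
      rw [single_ne hq, mul_zero]
    · rw [single_ne h, zero_mul]
  · intro h
    exact absurd (by simp [add_comm]) h

theorem P_mem (t m : ℕ) (Y : SS) (γ : Y.X m → k) :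
    P t m Y γ ∈ CochD ((Sph t).prod Y) (m + t) := by
  rw [add_comm]
  apply CochD_mul
  · intro l hl x
    rw [pull_apply, single_ne hl]
  · intro l hl x
    rw [pull_apply, single_ne hl]

/-- the components -/
noncomputable def f0 (t m : ℕ) (Y : SS) (γ : Y.X m → k) : ((Sph t).prod Y).X (m + t) → k :=
  P t m Y γ (m + t)

theorem P_eq (t m : ℕ) (Y : SS) (γ : Y.X m → k) : P t m Y γ = single (m + t) (f0 t m Y γ) :=
  eq_single (P_mem t m Y γ)

theorem dlt_single_zero {X : SS} (n : ℕ) (φ : X.X n → k) (h : X.cm.delta n φ = 0) :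
    dlt (single n φ) = 0 := by
  rw [dlt_single, h, single_zero]

theorem dlt_P {t m : ℕ} {Y : SS} {γ : Y.X m → k} (he : (Sph t).cm.delta t (epsC t) = 0)
    (h : Y.cm.delta m γ = 0) : dlt (P t m Y γ) = 0 := by
  unfold P
  rw [leibniz, dlt_pull, dlt_pull, dlt_single_zero _ _ he, dlt_single_zero _ _ h, map_zero,
    map_zero, zero_mul, mul_zero, add_zero]

theorem delta_f0 {t m : ℕ} {Y : SS} {γ : Y.X m → k} (he : (Sph t).cm.delta t (epsC t) = 0)
    (h : Y.cm.delta m γ = 0) : ((Sph t).prod Y).cm.delta (m + t) (f0 t m Y γ) = 0 := by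
  have h1 := dlt_P (Y := Y) he h
  rw [P_eq, dlt_single] at h1
  exact single_inj (h1.trans (single_zero _).symm)

theorem clsN_f0 {t m : ℕ} {Y : SS} {γ : Y.X m → k} (he : (Sph t).cm.delta t (epsC t) = 0)
    (h : Y.cm.delta m γ = 0) :
    clsN (m + t) (f0 t m Y γ) (delta_f0 he h) = mulE t Y (clsN m γ h) := by
  rw [mulE_apply]
  have e1 : eps t = clsN t (epsC t) he := dif_pos he
  rw [e1]
  unfold clsN
  rw [H.map_cls, H.map_cls, ← map_mul cls]
  congr 1
  apply Subtype.ext
  exact (P_eq t m Y γ).symm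

theorem f0_apply (t m : ℕ) (Y : SS) (γ : Y.X m → k) (x : ((Sph t).prod Y).X (m + t)) :
    f0 t m Y γ x = epsC t ((Sph t).map (fr t (m + t)) x.1) * γ (Y.map (bk m (m + t)) x.2) :=
  P_apply t m Y γ x

theorem epsC_map_zero {t q : ℕ} (s : Mor t q) (hs : ¬ Function.Injective s) (o : (Sph t).X q) :
    epsC t ((Sph t).map s o) = 0 := by
  cases o with
  | none => rfl
  | some a =>
    show epsC t ((PS.sphere t).map s a) = 0
    by_cases h : Function.Surjective (a.1.comp s)
    · exfalso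
      apply hs
      have h2 : Function.Injective (a.1.comp s) := Finite.injective_iff_surjective.2 h
      intro x y hxy
      apply h2
      show a.1 (s x) = a.1 (s y)
      rw [hxy]
    · rw [sphere_map_neg s a h]
      rfl

theorem norm_f0 {t m : ℕ} {Y : SS} {γ : Y.X m → k} (hγ : NormC m γ) :
    NormC (m + t) (f0 t m Y γ) := by
  intro q s hs x
  rw [f0_apply]
  show epsC t ((Sph t).map (fr t (m + t)) ((Sph t).map s x.1)) *
    γ (Y.map (bk m (m + t)) (Y.map s x.2)) = 0
  rw [← (Sph t).map_comp, ← Y.map_comp]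
  obtain ⟨i, hi, he⟩ := consec s hs
  by_cases hit : i < t
  · rw [epsC_map_zero, zero_mul]
    intro hinj
    have h1 : (s.comp (fr t (m + t))) ⟨i, by omega⟩ = (s.comp (fr t (m + t))) ⟨i + 1, by omega⟩ := by
      show s _ = s _
      have e1 : fr t (m + t) ⟨i, by omega⟩ = ⟨i, by omega⟩ := by
        apply Fin.ext
        rw [fr_val]
        show min i (m + t) = i
        omega
      have e2 : fr t (m + t) ⟨i + 1, by omega⟩ = ⟨i + 1, hi⟩ := by
        apply Fin.ext
        rw [fr_val]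
        show min (i + 1) (m + t) = i + 1
        omega
      rw [e1, e2]
      exact he
    have h2 := congrArg Fin.val (hinj h1)
    simp at h2
  · rw [hγ, mul_zero]
    intro hinj
    have h1 : (s.comp (bk m (m + t))) ⟨i - t, by omega⟩ =
        (s.comp (bk m (m + t))) ⟨i + 1 - t, by omega⟩ := by
      show s _ = s _
      have e1 : bk m (m + t) ⟨i - t, by omega⟩ = ⟨i, by omega⟩ := by
        apply Fin.ext
        rw [bk_val]
        show min (i - t + (m + t - m)) (m + t) = i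
        omega
      have e2 : bk m (m + t) ⟨i + 1 - t, by omega⟩ = ⟨i + 1, hi⟩ := by
        apply Fin.ext
        rw [bk_val]
        show min (i + 1 - t + (m + t - m)) (m + t) = i + 1
        omega
      rw [e1, e2]
      exact he
    have h2 := congrArg Fin.val (hinj h1)
    simp only at h2
    omega

theorem f0_none (t m : ℕ) (Y : SS) (γ : Y.X m → k) (y : Y.X (m + t)) :
    f0 t m Y γ (none, y) = 0 := by
  rw [f0_apply]
  show epsC t none * _ = 0
  exact zero_mul _

open Classical in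
/-- The Moore cycle defined by a map on `S^t × Y`. -/
noncomputable def zFun {t : ℕ} {Y : SS} {V : SV} (F : SS.Hom ((Sph t).prod Y) V.toSS) (q : ℕ) :
    ((SS.simplex t).prod Y).X q → V.X q :=
  fun x => if h : Function.Surjective x.1 then F.f q (some ⟨x.1, h⟩, x.2) else 0

theorem zFun_pos {t : ℕ} {Y : SS} {V : SV} (F : SS.Hom ((Sph t).prod Y) V.toSS) {q : ℕ}
    (a : Mor q t) (y : Y.X q) (h : Function.Surjective a) :
    zFun F q (a, y) = F.f q (some ⟨a, h⟩, y) := dif_pos h

theorem zFun_neg {t : ℕ} {Y : SS} {V : SV} (F : SS.Hom ((Sph t).prod Y) V.toSS) {q : ℕ}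
    (a : Mor q t) (y : Y.X q) (h : ¬ Function.Surjective a) : zFun F q (a, y) = 0 := dif_neg h

theorem not_surj_comp {t m n : ℕ} (a : Mor n t) (b : Mor m n) (h : ¬ Function.Surjective a) :
    ¬ Function.Surjective (a.comp b) := by
  intro hs
  apply h
  intro i
  obtain ⟨v, hv⟩ := hs i
  exact ⟨b v, hv⟩

theorem zFun_nat {t : ℕ} {Y : SS} {V : SV} (F : SS.Hom ((Sph t).prod Y) V.toSS)
    (hF : ∀ q y, F.f q (none, y) = 0) (m n : ℕ) (b : Mor m n)
    (x : ((SS.simplex t).prod Y).X n) :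
    zFun F m (((SS.simplex t).prod Y).map b x) = V.map b (zFun F n x) := by
  obtain ⟨a, y⟩ := x
  show zFun F m (a.comp b, Y.map b y) = V.map b (zFun F n (a, y))
  by_cases h : Function.Surjective a
  · rw [zFun_pos F a y h]
    have h1 := F.nat b (some ⟨a, h⟩, y)
    have h2 : V.map b (F.f n (some ⟨a, h⟩, y)) =
        F.f m ((PS.sphere t).map b ⟨a, h⟩, Y.map b y) := h1.symm
    rw [h2]
    by_cases h' : Function.Surjective (a.comp b)
    · rw [zFun_pos F _ _ h', sphere_map_pos b ⟨a, h⟩ h']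
    · rw [zFun_neg F _ _ h', sphere_map_neg b ⟨a, h⟩ h', hF]
  · rw [zFun_neg F a y h, map_zero, zFun_neg F _ _ (not_surj_comp a b h)]

/-- The Moore cycle defined by a map on `S^t × Y`. -/
noncomputable def zz {t : ℕ} {Y : SS} {V : SV} (F : SS.Hom ((Sph t).prod Y) V.toSS)
    (hF : ∀ q y, F.f q (none, y) = 0) : ZM (MapS Y V) t :=
  ⟨⟨zFun F, fun m n b x => zFun_nat F hF m n b x⟩, by
    intro r a ha
    apply HV.ext
    rintro n ⟨b, y⟩
    exact zFun_neg F _ _ (not_surj_comp a b ha)⟩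

theorem sph_zz {t : ℕ} {Y : SS} {V : SV} (F : SS.Hom ((Sph t).prod Y) V.toSS)
    (hF : ∀ q y, F.f q (none, y) = 0) : HV.hom (sph (zz F hF)) = F := by
  apply SS.Hom.ext'
  rintro n ⟨o, y⟩
  cases o with
  | none => exact (hF n y).symm
  | some a =>
    obtain ⟨a, ha⟩ := a
    exact zFun_pos F a y ha

theorem map_EMlift {X : SS} (n : ℕ) (f : X.X n → k) (hn' : NormC n f) (hc : X.cm.delta n f = 0) :
    H.map (EMlift n f hn' hc) (iota n) = clsN n f hc := by
  unfold iota
  rw [H.map_cls]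
  unfold clsN
  congr 1
  apply Subtype.ext
  ext m x
  show iotaC n m ((EMlift n f hn' hc).f m x) = single n f m x
  unfold iotaC
  by_cases h : m = n
  · subst h
    rw [single_self, single_self]
    show f (X.map OrderHom.id x) = f x
    rw [X.map_id]
  · rw [single_ne h, single_ne h]

end Bem

open Bem in
theorem BEM (hs : SKT_Stmt) (hN : NORM_Stmt) (he : EPS_Stmt) : BEM_Stmt := by
  intro t ht Y hY m c hc
  obtain ⟨γ, h, rfl, hγ⟩ := exists_norm hN hc
  have hF : ∀ q y, (EMlift (m + t) (f0 t m Y γ) (norm_f0 hγ) (delta_f0 (he t) h)).f q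
      (none, y) = 0 := by
    intro q y
    apply Subtype.ext
    funext s
    exact f0_none t m Y γ (Y.map s y)
  refine ⟨zz (EMlift (m + t) (f0 t m Y γ) (norm_f0 hγ) (delta_f0 (he t) h)) hF, ?_⟩
  show mulEinv t Y (H.map (HV.hom (sph _)) (iota (m + t))) = _
  rw [sph_zz, map_EMlift, clsN_f0 (he t) h]
  exact mulEinv_mulE (hs t ht Y hY).1 _

end Pool.Agent.SHL


end
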