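import Mathlib
import Pool.Agent.SHM.C02
import Pool.Agent.SHM.C04
import Pool.Agent.SHM.C05
import Pool.Agent.SHM.C06
import Pool.Agent.SHM.C10
import Pool.Agent.SHM.C12
import Pool.Agent.SHM.C15
import Pool.Agent.SHM.C16

/-! Parts: SH.L.AllL, SH.Finale -/

section

/-!
LINK: all statements without hypotheses, and the theorem `link_all : LINK_Stmt`.
-/

namespace Pool.Agent.SHL.All

open Pool.Agent.SHS Pool.Agent.SHL

theorem epshb : EPSHB_Stmt := EPSHB SHS.All.norm EPS
theorem skt : SKT_Stmt := SKT SHS.All.kun SHS.All.hbe SPHF epshb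
theorem ph1 : PH1_Stmt := PH1 skt ZM0
theorem phy : PHY_Stmt := PHY ph1 skt
theorem phb : PHB_Stmt := PHB SHS.All.hty ZM0
theorem emr : EMR_Stmt := EMR SHS.All.norm
theorem pha : PHA_Stmt := PHA ph1 RCH emr PHV PHL phb LCM
theorem phd : PHD_Stmt := PHD ph1 RCH skt SHS.All.sk EPS1
theorem phh : PHH_Stmt := PHH ph1 skt EPS SPHF
theorem cem : CEM_Stmt := CEM ph1 SHS.All.norm LCM RCH
theorem bem : BEM_Stmt := BEM skt SHS.All.norm EPS
theorem cv : CV_Stmt := CV SHS.All.lbe SHS.All.split LCM PHV cem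
theorem bv : BV_Stmt := BV SHS.All.lbe SHS.All.split SHS.All.lcs LCM PHV bem
theorem e2l : E2_Stmt := E2 SHS.All.sk EPS1
theorem val : VAL_Stmt := VAL ph1 RCH LCM skt e2l MSC BBF

theorem base : Base where
  skt := skt
  bbf := BBF
  rch := RCH
  zm0 := ZM0
  lcm := LCM
  emr := emr
  ph1 := ph1
  phy := phy
  phv := PHV
  phl := PHL
  phb := phb
  pha := pha
  phd := phd
  phh := phh
  cv := cv
  bv := bv
  e1 := E1
  e2 := e2l
  psi := PSI
  npj := NPJ
  val := val
  k1 := SHS.All.k1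
  mu := SHS.All.mu
  msi := SHS.All.msi

/-- Block LINK: exactness of the indecomposables in large degrees implies exactness of the
homotopy groups of the cosimplicial space `Map_*(BB,V)`. -/
theorem link_all : LINK_Stmt := fun C hq =>
  base.final C (base.exactES SHS.All.poly SHS.All.lbe SHS.All.scAll C hq)

end Pool.Agent.SHL.All


end

section

/-!
# MP_2d0b73_an: final assembly
-/

namespace Pool.Agent.SH

/-- Cohomology rings of simplicial vector spaces with finite levels are polynomial. -/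
theorem polyGen_all (V : SHS.SV) (hV : V.LF) (h0 : ∀ x : V.X 0, x = 0) :
    SHQ.PolyGen V.toSS := by
  obtain ⟨I, x, hx⟩ := SHS.All.lbe V hV
  have hm : ∀ n : ℕ, ∃ μ : Multiset ℕ → SHS.H (SHS.EM n).toSS, 1 ≤ n → SHS.MuFam n μ := by
    intro n
    rcases Nat.eq_zero_or_pos n with h | h
    · exact ⟨fun _ => 0, fun h' => absurd h' (by omega)⟩
    · obtain ⟨μ, hμ⟩ := SHS.All.mu n h
      exact ⟨μ, fun _ => hμ⟩
  choose μ hμ using hm
  exact SHL.polyGen_conv (SHS.All.poly V hV h0 x hx μ hμ)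

theorem stmt_EX_all : TT.Stmt_EX :=
  SHL.stmt_EX_of_link SHL.All.link_all polyGen_all (SHQ.fin_all (ZMod 2))

/-- PART III. -/
theorem partIII_all : Stmt_PARTIII :=
  ASM3 TE.f2 TE.wt TE.key n_main_all (TT.ttFinal stmt_EX_all)

/-- The main theorem. -/
theorem main_all : Stmt_MAIN := MAIN (FIN LEB BAD MAPD) PARTI (partII partIII_all)

end Pool.Agent.SH


end
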